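import Pool.Agent.Lib.MP_f599e5_co.B4

set_option autoImplicit false
set_option linter.unusedSectionVars false

/-!
# B7: path lengths in cliques and in the join of a clique with a set

`clq_path`: induction on `j` (or on `|K|`): `u, v ∈ K`, `j = 1` the edge; for `j ≥ 2` take `x ∈ K \ {u,v}` and a path of length `j-1`
from `x` to `v` in `K \ u`.
`jp1`, `jp2`, `jp3`: `M` a clique with `s` elements, `T` a set with `q` elements, disjoint from `M`, complete to `M`.
 * `jp1` (from `t ∈ T` to `y ∈ M`, lengths `1..s+q-1`, `q ≤ s`), induction on `q`: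
   `L ≤ s`: the edge `t y` (L=1) or `t`-`x`, then `clq_path` in `M` from `x ≠ y` to `y` of length `L-1 ≤ s-1`.
   `L > s` (then `q ≥ 2`, `s ≥ 2`): choose `x ∈ M`, `x ≠ y`, `t' ∈ T`, `t' ≠ t`: `t`-`x`-(path of length `L-2` from `t'` to `y` in
   `(M \ x) ∪ (T \ t)`), `L - 2 ≤ (s-1)+(q-1)-1`, `L-2 ≥ 1`.
 * `jp2` (from `t` to `t' ≠ t` in `T`, lengths `2..s+q-1`, `q ≤ s`): `t`-(path of length `L-1` from `y ∈ M` to `t'` in `M ∪ (T \ t)`), jp1 with
   `1 ≤ L-1 ≤ s+(q-1)-1`; that covers `2 ≤ L ≤ s+q-1`.
 * `jp3` (from `y` to `y' ≠ y` in `M`, lengths `1..s+q-1` if `q ≤ s-1`): `L ≤ s-1`: `clq_path`; `L ≥ s`, then `q ≥ 1`: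
   `y`-(path of length `L-1` from some `t ∈ T` to `y'` in `(M \ y) ∪ T`), jp1 with `L-1 ≤ (s-1)+q-1`, `L-1 ≥ 1`.
-/

namespace Pool.Agent.Lib.MP_f599e5_co

open Finset

variable {V : Type} [DecidableEq V] {G : SimpleGraph V}

theorem clq_path {K : Finset V} (hK : Clq G K) {u v : V} (hu : u ∈ K) (hv : v ∈ K) (hne : u ≠ v) {j : ℕ}
    (h1 : 1 ≤ j) (h2 : j + 1 ≤ K.card) : PL G K u v j := by
  induction j generalizing K u with
  | zero => omega
  | succ j ih =>
    rcases Nat.eq_zero_or_pos j with rfl | hj
    · exact PL.edge (hK u hu v hv hne) hu hv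
    · have hcard : ({u, v} : Finset V).card < K.card := by
        have := Finset.card_le_two (a := u) (b := v)
        omega
      obtain ⟨x, hx, hxn⟩ := Finset.exists_mem_notMem_of_card_lt_card hcard
      have hxu : x ≠ u := fun h => hxn (by simp [h])
      have hxv : x ≠ v := fun h => hxn (by simp [h])
      have hK' : Clq G (K.erase u) := fun a ha b hb hab =>
        hK a (Finset.mem_of_mem_erase ha) b (Finset.mem_of_mem_erase hb) hab
      have hc := Finset.card_erase_of_mem hu
      have h3 := ih hK' (Finset.mem_erase.2 ⟨hxu, hx⟩) (Finset.mem_erase.2 ⟨hne.symm, hv⟩) hxv hj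
        (by omega)
      have h4 := PL.cons (hK u hu x hx hxu.symm) h3 (Finset.notMem_erase u K)
      rwa [Finset.insert_erase hu] at h4

theorem jp1 {M T : Finset V} (hM : Clq G M) (hMT : Disjoint M T) (hc : Cpl G T M) (hq : T.card ≤ M.card)
    {t y : V} (ht : t ∈ T) (hy : y ∈ M) {L : ℕ} (h1 : 1 ≤ L) (h2 : L + 1 ≤ M.card + T.card) :
    PL G (M ∪ T) t y L := by
  obtain ⟨q, hqc⟩ : ∃ q, T.card = q := ⟨_, rfl⟩
  induction q generalizing M T t y L with
  | zero =>
    rw [Finset.card_eq_zero] at hqc
    rw [hqc] at ht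
    exact absurd ht (Finset.notMem_empty t)
  | succ q ih =>
    have htM : t ∉ M := fun h => Finset.disjoint_left.1 hMT h ht
    rcases Nat.lt_or_ge L 2 with hL | hL
    · have hL1 : L = 1 := by omega
      subst hL1
      exact PL.edge (hc t ht y hy) (Finset.mem_union_right _ ht) (Finset.mem_union_left _ hy)
    · have hM2 : 1 < M.card := by omega
      obtain ⟨x, hx, hxy⟩ := Finset.exists_mem_ne hM2 y
      rcases Nat.lt_or_ge M.card L with hLM | hLM
      · have hT2 : 1 < T.card := by omega
        obtain ⟨t', ht', htt⟩ := Finset.exists_mem_ne hT2 t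
        have hM' : Clq G (M.erase x) := fun a ha b hb hab =>
          hM a (Finset.mem_of_mem_erase ha) b (Finset.mem_of_mem_erase hb) hab
        have hMT' : Disjoint (M.erase x) (T.erase t) :=
          Finset.disjoint_of_subset_left (Finset.erase_subset _ _)
            (Finset.disjoint_of_subset_right (Finset.erase_subset _ _) hMT)
        have hc' : Cpl G (T.erase t) (M.erase x) := fun a ha b hb =>
          hc a (Finset.mem_of_mem_erase ha) b (Finset.mem_of_mem_erase hb)
        have c1 := Finset.card_erase_of_mem hx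
        have c2 := Finset.card_erase_of_mem ht
        have hxT : x ∉ T := fun h => Finset.disjoint_left.1 hMT hx h
        have h3 := ih hM' hMT' hc' (by omega) (Finset.mem_erase.2 ⟨htt, ht'⟩)
          (Finset.mem_erase.2 ⟨hxy.symm, hy⟩) (L := L - 2) (by omega) (by omega) (by omega)
        have h4 := PL.cons (hc t' ht' x hx).symm h3 (by
          rw [Finset.mem_union, not_or]
          exact ⟨Finset.notMem_erase x M, fun h => hxT (Finset.mem_of_mem_erase h)⟩)
        have h5 := PL.cons (hc t ht x hx) h4 (by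
          rw [Finset.mem_insert, Finset.mem_union, not_or, not_or]
          refine ⟨fun h => hxT (h ▸ ht), fun h => htM (Finset.mem_of_mem_erase h),
            Finset.notMem_erase t T⟩)
        have h6 : L - 2 + 1 + 1 = L := by omega
        rw [h6] at h5
        refine PL.mono h5 ?_
        intro a ha
        rw [Finset.mem_insert, Finset.mem_insert, Finset.mem_union] at ha
        rw [Finset.mem_union]
        rcases ha with rfl | rfl | ha | ha
        · exact Or.inr ht
        · exact Or.inl hx
        · exact Or.inl (Finset.mem_of_mem_erase ha)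
        · exact Or.inr (Finset.mem_of_mem_erase ha)
      · have h3 := clq_path hM hx hy hxy (j := L - 1) (by omega) (by omega)
        have h4 := PL.cons (hc t ht x hx) h3 htM
        have h6 : L - 1 + 1 = L := by omega
        rw [h6] at h4
        refine PL.mono h4 ?_
        intro a ha
        rw [Finset.mem_insert] at ha
        rw [Finset.mem_union]
        rcases ha with rfl | ha
        · exact Or.inr ht
        · exact Or.inl ha

theorem jp2 {M T : Finset V} (hM : Clq G M) (hMT : Disjoint M T) (hc : Cpl G T M) (hq : T.card ≤ M.card)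
    {t t' : V} (ht : t ∈ T) (ht' : t' ∈ T) (hne : t ≠ t') {L : ℕ} (h1 : 2 ≤ L) (h2 : L + 1 ≤ M.card + T.card) :
    PL G (M ∪ T) t t' L := by
  have hTpos : 0 < T.card := Finset.card_pos.2 ⟨t, ht⟩
  have hMpos : 0 < M.card := by omega
  obtain ⟨y, hy⟩ := Finset.card_pos.1 hMpos
  have htM : t ∉ M := fun h => Finset.disjoint_left.1 hMT h ht
  have c2 := Finset.card_erase_of_mem ht
  have hMT' : Disjoint M (T.erase t) :=
    Finset.disjoint_of_subset_right (Finset.erase_subset _ _) hMT
  have hc' : Cpl G (T.erase t) M := fun a ha b hb => hc a (Finset.mem_of_mem_erase ha) b hb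
  have h3 := jp1 hM hMT' hc' (by omega) (Finset.mem_erase.2 ⟨hne.symm, ht'⟩) hy (L := L - 1)
    (by omega) (by omega)
  have h4 := PL.cons (hc t ht y hy) h3.symm (by
    rw [Finset.mem_union, not_or]
    exact ⟨htM, Finset.notMem_erase t T⟩)
  have h6 : L - 1 + 1 = L := by omega
  rw [h6] at h4
  refine PL.mono h4 ?_
  intro a ha
  rw [Finset.mem_insert, Finset.mem_union] at ha
  rw [Finset.mem_union]
  rcases ha with rfl | ha | ha
  · exact Or.inr ht
  · exact Or.inl ha
  · exact Or.inr (Finset.mem_of_mem_erase ha)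

theorem jp3 {M T : Finset V} (hM : Clq G M) (hMT : Disjoint M T) (hc : Cpl G T M) (hq : T.card + 1 ≤ M.card)
    {y y' : V} (hy : y ∈ M) (hy' : y' ∈ M) (hne : y ≠ y') {L : ℕ} (h1 : 1 ≤ L) (h2 : L + 1 ≤ M.card + T.card) :
    PL G (M ∪ T) y y' L := by
  rcases Nat.lt_or_ge L M.card with hL | hL
  · exact PL.mono (clq_path hM hy hy' hne h1 (by omega)) Finset.subset_union_left
  · have hTpos : 0 < T.card := by omega
    obtain ⟨t, ht⟩ := Finset.card_pos.1 hTpos
    have hyT : y ∉ T := fun h => Finset.disjoint_left.1 hMT hy h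
    have c1 := Finset.card_erase_of_mem hy
    have hM' : Clq G (M.erase y) := fun a ha b hb hab =>
      hM a (Finset.mem_of_mem_erase ha) b (Finset.mem_of_mem_erase hb) hab
    have hMT' : Disjoint (M.erase y) T :=
      Finset.disjoint_of_subset_left (Finset.erase_subset _ _) hMT
    have hc' : Cpl G T (M.erase y) := fun a ha b hb => hc a ha b (Finset.mem_of_mem_erase hb)
    have hMtwo : 1 < M.card := Finset.one_lt_card.2 ⟨y, hy, y', hy', hne⟩
    have h3 := jp1 hM' hMT' hc' (by omega) ht (Finset.mem_erase.2 ⟨hne.symm, hy'⟩) (L := L - 1)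
      (by omega) (by omega)
    have h4 := PL.cons (hc t ht y hy).symm h3 (by
      rw [Finset.mem_union, not_or]
      exact ⟨Finset.notMem_erase y M, hyT⟩)
    have h6 : L - 1 + 1 = L := by omega
    rw [h6] at h4
    refine PL.mono h4 ?_
    intro a ha
    rw [Finset.mem_insert, Finset.mem_union] at ha
    rw [Finset.mem_union]
    rcases ha with rfl | ha | ha
    · exact Or.inl hy
    · exact Or.inl (Finset.mem_of_mem_erase ha)
    · exact Or.inr ha

end Pool.Agent.Lib.MP_f599e5_co
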