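import Pool.Agent.Lib.MP_f599e5_co.B4

set_option autoImplicit false
set_option linter.unusedSectionVars false

/-!
# B8: path lengths in complete bipartite graphs

`X` complete to `Y`, disjoint.  `bp1`: from `x ∈ X` to `y ∈ Y` lengths `2i-1`, `1 ≤ i ≤ min |X| |Y|`: induction:
 `x`-`y'`-(path of length `2(i-1)-1` from `x' ≠ x` to `y` in `(X \ x) ∪ (Y \ y')`).  `bp2`: from `x` to `x' ≠ x` lengths `2i`,
 `1 ≤ i ≤ min (|X|-1) |Y|`: `x`-(path of length `2i-1` from `y'` to `x'` in `(X \ x) ∪ Y`).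
-/

namespace Pool.Agent.Lib.MP_f599e5_co

open Finset

variable {V : Type} [DecidableEq V] {G : SimpleGraph V}

theorem bp1 {X Y : Finset V} (hXY : Disjoint X Y) (hc : Cpl G X Y) {x y : V} (hx : x ∈ X) (hy : y ∈ Y)
    {i : ℕ} (h1 : 1 ≤ i) (h2 : i ≤ X.card) (h3 : i ≤ Y.card) : PL G (X ∪ Y) x y (2 * i - 1) := by
  induction i, h1 using Nat.le_induction generalizing X Y x y with
  | base =>
    exact PL.edge (hc x hx y hy) (mem_union_left _ hx) (mem_union_right _ hy)
  | succ i hi ih =>
    have hxX : 0 < (X.erase x).card := by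
      rw [card_erase_of_mem hx]
      omega
    have hyY : 0 < (Y.erase y).card := by
      rw [card_erase_of_mem hy]
      omega
    obtain ⟨x', hx'⟩ := card_pos.1 hxX
    obtain ⟨y', hy'⟩ := card_pos.1 hyY
    have hx'X := mem_of_mem_erase hx'
    have hy'Y := mem_of_mem_erase hy'
    have hyne : y ≠ y' := (ne_of_mem_erase hy').symm
    have hdis : Disjoint (X.erase x) (Y.erase y') :=
      disjoint_of_subset_left (erase_subset _ _) (disjoint_of_subset_right (erase_subset _ _) hXY)
    have h4 := ih hdis (fun a ha b hb => hc a (mem_of_mem_erase ha) b (mem_of_mem_erase hb)) hx'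
      (mem_erase.2 ⟨hyne, hy⟩) (by rw [card_erase_of_mem hx]; omega)
      (by rw [card_erase_of_mem hy'Y]; omega)
    have hy'n : y' ∉ X.erase x ∪ Y.erase y' := by
      rw [mem_union, not_or]
      exact ⟨fun h => disjoint_left.1 hXY (mem_of_mem_erase h) hy'Y, notMem_erase _ _⟩
    have h5 := PL.cons (hc x' hx'X y' hy'Y).symm h4 hy'n
    have hxn : x ∉ insert y' (X.erase x ∪ Y.erase y') := by
      rw [mem_insert, mem_union, not_or, not_or]
      refine ⟨?_, notMem_erase _ _, fun h => disjoint_left.1 hXY hx (mem_of_mem_erase h)⟩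
      rintro rfl
      exact disjoint_left.1 hXY hx hy'Y
    have h6 := PL.cons (hc x hx y' hy'Y) h5 hxn
    have h7 : 2 * i - 1 + 1 + 1 = 2 * (i + 1) - 1 := by omega
    rw [h7] at h6
    refine h6.mono ?_
    intro v hv
    rw [mem_insert, mem_insert, mem_union] at hv
    rcases hv with rfl | rfl | hv | hv
    · exact mem_union_left _ hx
    · exact mem_union_right _ hy'Y
    · exact mem_union_left _ (mem_of_mem_erase hv)
    · exact mem_union_right _ (mem_of_mem_erase hv)

theorem bp2 {X Y : Finset V} (hXY : Disjoint X Y) (hc : Cpl G X Y) {x x' : V} (hx : x ∈ X) (hx' : x' ∈ X)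
    (hne : x ≠ x') {i : ℕ} (h1 : 1 ≤ i) (h2 : i + 1 ≤ X.card) (h3 : i ≤ Y.card) :
    PL G (X ∪ Y) x x' (2 * i) := by
  obtain ⟨y', hy'⟩ := card_pos.1 (show 0 < Y.card by omega)
  have hdis : Disjoint (X.erase x) Y := disjoint_of_subset_left (erase_subset _ _) hXY
  have h4 := bp1 hdis (fun a ha b hb => hc a (mem_of_mem_erase ha) b hb)
    (mem_erase.2 ⟨hne.symm, hx'⟩) hy' h1 (by rw [card_erase_of_mem hx]; omega) h3
  have hxn : x ∉ X.erase x ∪ Y := by
    rw [mem_union, not_or]
    exact ⟨notMem_erase _ _, fun h => disjoint_left.1 hXY hx h⟩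
  have h5 := PL.cons (hc x hx y' hy') h4.symm hxn
  have h7 : 2 * i - 1 + 1 = 2 * i := by omega
  rw [h7] at h5
  refine h5.mono ?_
  intro v hv
  rw [mem_insert, mem_union] at hv
  rcases hv with rfl | hv | hv
  · exact mem_union_left _ hx
  · exact mem_union_left _ (mem_of_mem_erase hv)
  · exact mem_union_right _ hv

end Pool.Agent.Lib.MP_f599e5_co
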