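import Pool.Agent.Lib.MP_f599e5_co.B4
import Pool.Agent.Lib.MP_f599e5_co.B7
import Pool.Agent.Lib.MP_f599e5_co.B8

set_option autoImplicit false
set_option linter.unusedSectionVars false

/-!
# A1: Theorem A+, definitions and elementary facts

`TT G D A z` = the vertices of `D`, different from `z`, with a neighbour in `A`  (`T_A°` in the notes).
`Pre G U A r L`: a path of length `L` from `A` to `r`, all vertices except the first one in `U`.
`Link G U A B r r' L`: two disjoint paths `A .. r` and `r' .. B`, inner part in `U`, total length `L`.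
`Ctx`: minimal counterexample, `m ≥ 3`.  `Ctx2`: minimal counterexample, `m = 2`.
-/

namespace Pool.Agent.Lib.MP_f599e5_co

open Finset

variable {V : Type} [DecidableEq V] {G : SimpleGraph V}

open Classical in
/-- vertices of `D \ z` with a neighbour in `A` -/
noncomputable def TT (G : SimpleGraph V) (D A : Finset V) (z : V) : Finset V :=
  D.filter (fun v => v ≠ z ∧ ∃ a ∈ A, G.Adj v a)

/-- a path of length `L` from `A` to `r`, inside `U` except for its first vertex -/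
def Pre (G : SimpleGraph V) (U A : Finset V) (r : V) (L : ℕ) : Prop := ∃ a ∈ A, PL G (insert a U) a r L

/-- two disjoint paths `A .. r` and `r' .. B`, inside `U` except for the root vertices, of total length `L` -/
def Link (G : SimpleGraph V) (U A B : Finset V) (r r' : V) (L : ℕ) : Prop :=
  ∃ a ∈ A, ∃ b ∈ B, ∃ U1 U2 : Finset V, U1 ⊆ U ∧ U2 ⊆ U ∧ Disjoint U1 U2 ∧ ∃ L1 L2, L1 + L2 = L ∧
    PL G (insert a U1) a r L1 ∧ PL G (insert b U2) r' b L2

/-- minimal counterexample for `m ≥ 3` -/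
structure Ctx (G : SimpleGraph V) (m : ℕ) (D A B : Finset V) (z : V) : Prop where
  m3 : 3 ≤ m
  sys : Sys D A B
  r0 : R0 G D A B
  deg : ∀ v ∈ D, v ≠ z → m + 1 ≤ ds G D A B v
  ih : ∀ N < D.card, AplusAt G N
  no : ¬ Adm G m D A B
  ne : ∃ v ∈ D, v ≠ z

/-- minimal counterexample for `m = 2` -/
structure Ctx2 (G : SimpleGraph V) (D A B : Finset V) (z : V) : Prop where
  sys : Sys D A B
  r0 : R0 G D A B
  deg : ∀ v ∈ D, v ≠ z → 3 ≤ ds G D A B v
  ih : ∀ N < D.card, AplusAt G N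
  no : ¬ Adm G 2 D A B
  ne : ∃ v ∈ D, v ≠ z
  conn : Conn G D

theorem mem_TT {D A : Finset V} {z v : V} : v ∈ TT G D A z ↔ v ∈ D ∧ v ≠ z ∧ ∃ a ∈ A, G.Adj v a := by
  simp [TT]

theorem Sys.symm {D A B : Finset V} (h : Sys D A B) : Sys D B A := ⟨h.dB, h.dA, h.AB.symm⟩

theorem ds_symm {D A B : Finset V} {v : V} : ds G D A B v = ds G D B A v := by
  unfold ds; omega

theorem R0.symm {D A B : Finset V} (h : R0 G D A B) : R0 G D B A :=
  ⟨h.ne, fun C hC hne hb => (h.r1 C hC hne hb).symm, fun C hC hne hb => (h.r2 C hC hne hb).symm⟩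

theorem Rz.symm {D A B : Finset V} {z : V} (h : Rz G D A B z) : Rz G D B A z :=
  ⟨h.ne, fun C hC hne hb => (h.r1 C hC hne hb).symm, fun C hC hne hb => (h.r2 C hC hne hb).symm⟩

theorem R0.toRz {D A B : Finset V} {z : V} (h : R0 G D A B) (hne : ∃ v ∈ D, v ≠ z) : Rz G D A B z :=
  ⟨hne, fun C hC ⟨v, hv, _⟩ hb => h.r1 C hC ⟨v, hv⟩ hb, fun C hC ⟨v, hv, _⟩ hb => h.r2 C hC ⟨v, hv⟩ hb⟩

theorem Ctx.symm {m : ℕ} {D A B : Finset V} {z : V} (h : Ctx G m D A B z) : Ctx G m D B A z :=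
  ⟨h.m3, h.sys.symm, h.r0.symm, fun v hv hz => by rw [ds_symm]; exact h.deg v hv hz, h.ih,
    fun ha => h.no ha.symm, h.ne⟩

theorem Ctx2.symm {D A B : Finset V} {z : V} (h : Ctx2 G D A B z) : Ctx2 G D B A z :=
  ⟨h.sys.symm, h.r0.symm, fun v hv hz => by rw [ds_symm]; exact h.deg v hv hz, h.ih,
    fun ha => h.no ha.symm, h.ne, h.conn⟩

theorem min_nb_le {v : V} {A : Finset V} : min 1 (nb G v A).card ≤ 1 := by omega

theorem min_nb_pos {v : V} {A : Finset V} (h : ∃ a ∈ A, G.Adj v a) : min 1 (nb G v A).card = 1 := by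
  obtain ⟨a, ha, hv⟩ := h
  have : 0 < (nb G v A).card := card_pos.2 ⟨a, mem_nb.2 ⟨ha, hv⟩⟩
  omega

theorem nb_card_zero {v : V} {A : Finset V} (h : ¬ ∃ a ∈ A, G.Adj v a) : (nb G v A).card = 0 := by
  rw [card_eq_zero, eq_empty_iff_forall_notMem]
  intro a ha
  exact h ⟨a, (mem_nb.1 ha).1, (mem_nb.1 ha).2⟩

theorem nb_card_le {v : V} {A : Finset V} : (nb G v A).card ≤ A.card :=
  card_le_card (fun _ hw => (mem_nb.1 hw).1)

/-- splitting the neighbours of `v` -/
theorem nb_card_le_add {v : V} {S S1 S2 : Finset V} (h : ∀ x ∈ S, G.Adj v x → x ∈ S1 ∨ x ∈ S2) :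
    (nb G v S).card ≤ (nb G v S1).card + (nb G v S2).card := by
  refine le_trans (card_le_card ?_) (card_union_le _ _)
  intro x hx
  rw [mem_union, mem_nb, mem_nb]
  rcases h x (mem_nb.1 hx).1 (mem_nb.1 hx).2 with h1 | h1
  · exact Or.inl ⟨h1, (mem_nb.1 hx).2⟩
  · exact Or.inr ⟨h1, (mem_nb.1 hx).2⟩

/-- if some vertex of `A` is not adjacent to `v` -/
theorem nb_card_lt {v y : V} {A : Finset V} (hy : y ∈ A) (h : ¬ G.Adj v y) : (nb G v A).card + 1 ≤ A.card := by
  refine card_lt_card ⟨fun _ hw => (mem_nb.1 hw).1, fun hs => h (mem_nb.1 (hs hy)).2⟩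

/-- `Rz` implies that the interior is adjacent to both roots -/
theorem Rz.adj {D A B : Finset V} {z : V} (h : Rz G D A B z) : adjS G D A ∧ adjS G D B := by
  refine h.r1 D (Subset.refl _) h.ne ?_
  simp [bd]

theorem adm_one {D A B : Finset V} {z : V} (hs : Sys D A B) (hz : Rz G D A B z) : Adm G 1 D A B := by
  obtain ⟨v, hv, hvz⟩ := hz.ne
  obtain ⟨C, hvC, hC⟩ := exists_comp (G := G) hv
  obtain ⟨⟨x, hx, a, ha, hxa⟩, ⟨y, hy, b, hb, hyb⟩⟩ := hz.r1 C hC.1 ⟨v, hvC, hvz⟩ hC.2.1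
  obtain ⟨n, hn⟩ := hC.2.2.path hx hy
  have haC : a ∉ C := fun h => disjoint_left.1 hs.dA (hC.1 h) ha
  have hbC : b ∉ C := fun h => disjoint_left.1 hs.dB (hC.1 h) hb
  have hab : b ≠ a := fun h => disjoint_left.1 hs.AB ha (h ▸ hb)
  have h1 := PL.cons hxa.symm hn haC
  have h2 := PL.snoc h1 hyb (by
    rw [mem_insert]
    rintro (h | h)
    · exact hab h
    · exact hbC h)
  refine ⟨1, Or.inl rfl, n + 2, by omega, fun i hi => ⟨a, ha, b, hb, ?_⟩⟩
  have hi0 : i = 0 := by omega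
  subst hi0
  have h3 : n + 2 + 0 * 1 = n + 1 + 1 := by omega
  rw [h3]
  refine h2.mono ?_
  intro t ht
  simp only [mem_insert] at ht ⊢
  rcases ht with h | h | h
  · exact Or.inr (Or.inl h)
  · exact Or.inl h
  · exact Or.inr (Or.inr (hC.1 h))

end Pool.Agent.Lib.MP_f599e5_co
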