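import Pool.Agent.Lib.MP_f599e5_co.A1

set_option autoImplicit false
set_option linter.unusedSectionVars false

/-!
# A2: `pendant`: removing a pendant `z` (section 1.1 of the notes)

Since `Rz` holds and `R0` fails, a set violating `R0` is contained in `{z}`, so it is `C = {z}`, `z ∈ D`, and (r1) or (r2) fails for it
(`D` is nonempty).  `D' := D.erase z` (`D'.card < D.card`).  `R0` fails for `{z}` gives `(bd G D {z}).card ≤ 1`:
 (i) `bd G D {z} = ∅`.  The system `(D';A,B)` has `R0`: for `C ⊆ D'` we have `bd G D C = bd G D' C` (`z` has no neighbour in `D`), and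
  `C` contains a vertex `≠ z`, so (r1),(r2) come from `Rz`.  `ds G D' A B v = ds G D A B v` for `v ∈ D'` (`v` not adjacent to `z`).
  So `Good G m D' A B z` (`e2` by `Or.inl R0`), `ih` gives `Adm G m D' A B`, `Adm.mono`.
 (ii) `bd G D {z} = {w}`, `w ≠ z`; then (r2) fails: `z` is not adjacent to `A`, not to `B`  (if (r1) fails the boundary is empty).  The system `(D';A,B)` with
  exceptional vertex `w` has even `R0`: let `C ⊆ D'` be nonempty.  If `w ∉ C` then `bd G D C = bd G D' C` (the only neighbour of `z` in `D` is `w`).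
  If `w ∈ C`: `C1 := insert z C`; `bd G D C1 = bd G D' C` and `C1 ∋ w ≠ z`; `C1` is adjacent to `A` (`B`) iff `C` is, since `z` is not.
  Degrees: `v ∈ D'`, `v ≠ w`: `v` is not adjacent to `z`, same degree.  `∃ v ∈ D', v ≠ w`: there is `v0 ∈ D`, `v0 ≠ z` (`Rz.ne`).
  If `v0 ≠ w` done.  If the only vertex of `D \ z` is `w`, i.e. `D = {w,z}`: for `m = 2` the hypothesis `e2` says `R0` (false) or
  `2 ≤ (D.erase z).card` (false as `D.erase z = {w}`).  For `m ≥ 3`: `4 ≤ ds G D A B w ≤ (nb G w D).card + 2`, so `w` has two neighbours in `D`, but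
  `D = {w,z}`, contradiction.
  `ih` with exceptional vertex `w` (`e2` by `Or.inl R0`), then `Adm.mono`.
-/

namespace Pool.Agent.Lib.MP_f599e5_co

open Finset

variable {V : Type} [DecidableEq V] {G : SimpleGraph V}

theorem A2_core {m : ℕ} {D A B : Finset V} {z w : V} (ih : ∀ N < D.card, AplusAt G N)
    (h : Good G m D A B z) (hz : z ∈ D) (h0 : R0 G (D.erase z) A B)
    (hne : ∃ v ∈ D.erase z, v ≠ w) (hdeg : ∀ v ∈ D.erase z, v ≠ w → ¬ G.Adj v z) :
    Adm G m D A B := by
  have hsub : D.erase z ⊆ D := erase_subset _ _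
  have hgood : Good G m (D.erase z) A B w := by
    refine ⟨h.m1, ⟨disjoint_of_subset_left hsub h.sys.dA, disjoint_of_subset_left hsub h.sys.dB,
      h.sys.AB⟩, h0.toRz hne, ?_, fun _ => Or.inl h0⟩
    intro v hv hvw
    have h1 := h.deg v (hsub hv) (mem_erase.1 hv).1
    have h2 : nb G v (D.erase z) = nb G v D := by
      ext x
      rw [mem_nb, mem_nb, mem_erase]
      constructor
      · rintro ⟨⟨_, hx⟩, hvx⟩
        exact ⟨hx, hvx⟩
      · rintro ⟨hx, hvx⟩
        refine ⟨⟨?_, hx⟩, hvx⟩
        rintro rfl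
        exact hdeg v hv hvw hvx
    unfold ds at h1 ⊢
    rw [h2]
    exact h1
  have h3 := ih _ (card_erase_lt_of_mem hz) m (D.erase z) A B w rfl hgood
  exact h3.mono hsub (Subset.refl _) (Subset.refl _)

theorem pendant {m : ℕ} {D A B : Finset V} {z : V} (ih : ∀ N < D.card, AplusAt G N) (hm : 2 ≤ m)
    (h : Good G m D A B z) (h0 : ¬ R0 G D A B) : Adm G m D A B := by
  -- the exceptional set is `{z}`
  have hkey : z ∈ D ∧ (bd G D {z}).card ≤ 1 ∧
      (bd G D {z} = ∅ ∨ (¬ adjS G {z} A ∧ ¬ adjS G {z} B)) := by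
    by_contra hcon
    apply h0
    obtain ⟨v0, hv0, hv0z⟩ := h.rz.ne
    refine ⟨⟨v0, hv0⟩, ?_, ?_⟩
    · intro C hC hne hb
      by_cases hv : ∃ v ∈ C, v ≠ z
      · exact h.rz.r1 C hC hv hb
      · exfalso
        push Not at hv
        have hCz : C = {z} := by
          obtain ⟨c, hc⟩ := hne
          ext x
          rw [mem_singleton]
          constructor
          · exact hv x
          · rintro rfl
            rw [← hv c hc]
            exact hc
        rw [hCz] at hb hC
        exact hcon ⟨hC (mem_singleton_self z), by rw [hb]; simp, Or.inl hb⟩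
    · intro C hC hne hb
      by_cases hv : ∃ v ∈ C, v ≠ z
      · exact h.rz.r2 C hC hv hb
      · push Not at hv
        have hCz : C = {z} := by
          obtain ⟨c, hc⟩ := hne
          ext x
          rw [mem_singleton]
          constructor
          · exact hv x
          · rintro rfl
            rw [← hv c hc]
            exact hc
        rw [hCz] at hb hC ⊢
        by_contra hno
        push Not at hno
        exact hcon ⟨hC (mem_singleton_self z), hb, Or.inr hno⟩
  obtain ⟨hz, hcard, hor⟩ := hkey
  have hsub : D.erase z ⊆ D := erase_subset _ _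
  obtain ⟨v0, hv0, hv0z⟩ := h.rz.ne
  have hadjz : ∀ x ∈ D, G.Adj z x → x ∈ bd G D {z} := by
    intro x hx hzx
    rw [mem_bd]
    refine ⟨hx, ?_, z, mem_singleton_self z, hzx⟩
    rw [mem_singleton]
    rintro rfl
    exact G.loopless.irrefl _ hzx
  have hCne : ∀ C ⊆ D.erase z, C.Nonempty → ∃ v ∈ C, v ≠ z := fun C hC ⟨c, hc⟩ =>
    ⟨c, hc, (mem_erase.1 (hC hc)).1⟩
  by_cases hb : bd G D {z} = ∅
  · -- no neighbour
    have hno : ∀ x ∈ D, ¬ G.Adj z x := by
      intro x hx hzx
      have := hadjz x hx hzx
      rw [hb] at this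
      exact absurd this (notMem_empty x)
    have hbd : ∀ C ⊆ D.erase z, bd G D C = bd G (D.erase z) C := by
      intro C hC
      refine bd_eq_of hC hsub ?_
      intro v hv x hx hvx
      refine mem_erase.2 ⟨?_, hx⟩
      rintro rfl
      exact hno v (hsub (hC hv)) hvx.symm
    have hR : R0 G (D.erase z) A B := by
      refine ⟨⟨v0, mem_erase.2 ⟨hv0z, hv0⟩⟩, ?_, ?_⟩
      · intro C hC hne hb
        exact h.rz.r1 C (hC.trans hsub) (hCne C hC hne) (by rw [hbd C hC]; exact hb)
      · intro C hC hne hb
        exact h.rz.r2 C (hC.trans hsub) (hCne C hC hne) (by rw [hbd C hC]; exact hb)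
    exact A2_core (w := z) ih h hz hR ⟨v0, mem_erase.2 ⟨hv0z, hv0⟩, hv0z⟩
      (fun v hv _ hvz => hno v (hsub hv) hvz.symm)
  · -- one neighbour `w`
    have hnadj : ¬ adjS G {z} A ∧ ¬ adjS G {z} B := by
      rcases hor with h1 | h1
      · exact absurd h1 hb
      · exact h1
    have hc1 : (bd G D {z}).card = 1 := by
      have := card_pos.2 (nonempty_iff_ne_empty.2 hb)
      omega
    obtain ⟨w, hw⟩ := card_eq_one.1 hc1
    have hwm : w ∈ bd G D {z} := by rw [hw]; exact mem_singleton_self w
    obtain ⟨hwD, hwz, z', hz', hzw⟩ := mem_bd.1 hwm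
    rw [mem_singleton] at hwz hz'
    subst hz'
    have honly : ∀ x ∈ D, G.Adj z' x → x = w := by
      intro x hx hzx
      have := hadjz x hx hzx
      rw [hw] at this
      exact mem_singleton.1 this
    have hAno : ∀ a ∈ A, ¬ G.Adj z' a := fun a ha hza =>
      hnadj.1 ⟨z', mem_singleton_self _, a, ha, hza⟩
    have hBno : ∀ a ∈ B, ¬ G.Adj z' a := fun a ha hza =>
      hnadj.2 ⟨z', mem_singleton_self _, a, ha, hza⟩
    have hbd1 : ∀ C ⊆ D.erase z', w ∉ C → bd G D C = bd G (D.erase z') C := by
      intro C hC hwC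
      refine bd_eq_of hC hsub ?_
      intro v hv x hx hvx
      refine mem_erase.2 ⟨?_, hx⟩
      rintro rfl
      have := honly v (hsub (hC hv)) hvx.symm
      exact hwC (this ▸ hv)
    have hbd2 : ∀ C ⊆ D.erase z', w ∈ C → bd G D (insert z' C) = bd G (D.erase z') C := by
      intro C hC hwC
      ext x
      rw [mem_bd, mem_bd, mem_erase, mem_insert]
      constructor
      · rintro ⟨hx, hxn, y, hy, hyx⟩
        push Not at hxn
        refine ⟨⟨hxn.1, hx⟩, hxn.2, ?_⟩
        rw [mem_insert] at hy
        rcases hy with rfl | hy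
        · exact absurd (honly x hx hyx ▸ hwC) hxn.2
        · exact ⟨y, hy, hyx⟩
      · rintro ⟨⟨hxz, hx⟩, hxC, y, hy, hyx⟩
        refine ⟨hx, ?_, y, mem_insert_of_mem hy, hyx⟩
        push Not
        exact ⟨hxz, hxC⟩
    have hins : ∀ C (X : Finset V), (∀ a ∈ X, ¬ G.Adj z' a) → adjS G (insert z' C) X →
        adjS G C X := by
      rintro C X hX ⟨x, hx, y, hy, hxy⟩
      rw [mem_insert] at hx
      rcases hx with rfl | hx
      · exact absurd hxy (hX y hy)
      · exact ⟨x, hx, y, hy, hxy⟩
    have hsub2 : ∀ C ⊆ D.erase z', insert z' C ⊆ D := by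
      intro C hC x hx
      rw [mem_insert] at hx
      rcases hx with rfl | hx
      · exact hz
      · exact hsub (hC hx)
    have hR : R0 G (D.erase z') A B := by
      refine ⟨⟨v0, mem_erase.2 ⟨hv0z, hv0⟩⟩, ?_, ?_⟩
      · intro C hC hne hb
        by_cases hwC : w ∈ C
        · have h1 := h.rz.r1 (insert z' C) (hsub2 C hC) ⟨w, mem_insert_of_mem hwC, hwz⟩
            (by rw [hbd2 C hC hwC]; exact hb)
          exact ⟨hins C A hAno h1.1, hins C B hBno h1.2⟩
        · exact h.rz.r1 C (hC.trans hsub) (hCne C hC hne) (by rw [hbd1 C hC hwC]; exact hb)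
      · intro C hC hne hb
        by_cases hwC : w ∈ C
        · have h1 := h.rz.r2 (insert z' C) (hsub2 C hC) ⟨w, mem_insert_of_mem hwC, hwz⟩
            (by rw [hbd2 C hC hwC]; exact hb)
          rcases h1 with h1 | h1
          · exact Or.inl (hins C A hAno h1)
          · exact Or.inr (hins C B hBno h1)
        · exact h.rz.r2 C (hC.trans hsub) (hCne C hC hne) (by rw [hbd1 C hC hwC]; exact hb)
    have hne : ∃ v ∈ D.erase z', v ≠ w := by
      by_contra hcon
      push Not at hcon
      have hsubw : D.erase z' ⊆ {w} := fun x hx => mem_singleton.2 (hcon x hx)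
      have hc : (D.erase z').card ≤ 1 := by
        have := card_le_card hsubw
        rwa [card_singleton] at this
      by_cases hm2 : m = 2
      · rcases h.e2 hm2 with h1 | h1
        · exact h0 h1
        · omega
      · have h1 := h.deg w hwD hwz
        have h2 : (nb G w D).card ≤ 1 := by
          have h3 : nb G w D ⊆ {z'} := by
            intro x hx
            rw [mem_nb] at hx
            rw [mem_singleton]
            by_contra hxz
            have := hcon x (mem_erase.2 ⟨hxz, hx.1⟩)
            rw [this] at hx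
            exact G.loopless.irrefl _ hx.2
          have := card_le_card h3
          rwa [card_singleton] at this
        have h3 := min_nb_le (G := G) (v := w) (A := A)
        have h4 := min_nb_le (G := G) (v := w) (A := B)
        unfold ds at h1
        omega
    exact A2_core ih h hz hR hne (fun v hv hvw hvz => hvw (honly v (hsub hv) hvz.symm))

end Pool.Agent.Lib.MP_f599e5_co
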