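import Pool.Agent.Lib.MP_f599e5_co.A1

set_option autoImplicit false
set_option linter.unusedSectionVars false

/-!
# A3a: `m = 2`, steps (a) and (b)  (section 1.2 of the notes)

`m2_a`: `t, t'` adjacent, both in `D` with neighbours in `A`.  `B`-side: by `r0.r1` for `C = D` some vertex of `D` has a neighbour in `B`;
let `TB` = the set of vertices of `D` with a neighbour in `B` (nonempty).  `D` is connected: take a path in `D` from `t` to some vertex of
`TB`; its last vertex in `{t,t'}` (`PL.last_hit`), say `t1`, `t2` = the other one: path `t1 .. u` (length `q ≥ 0`), `u ∈ TB`, all vertices except `t1`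
outside `{t,t'}`.  Then `a - t1 - .. - u - b` has length `q+2`, and `a' - t2 - t1 - .. - u - b` has length `q+3`.  Adm with `d = 1`, `l = q+2`.

`m2_b`: suppose `C` is not adjacent to `B`.  Then (`r2`, applied to `C`: `bd G D C ⊆ {v}`) `C` is adjacent to `A`.  The system `(C;A,{v})`
satisfies `R0`: (r1) `C` is connected, so a closed nonempty subset is `C` itself; `C ~ A`; `C ~ {v}`: otherwise `bd G D C = ∅` and `r0.r1` says
`C ~ B`, contradiction.  (r2) `C' ⊆ C` nonempty with `(bd G C C').card ≤ 1`, `C'` not adjacent to `{v}` and not to `A`: then `bd G D C' = bd G C C'` (neighbours of `C` in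
`D` are in `C` or equal to `v`), so `r0.r2` gives `C' ~ A` or `C' ~ B`, contradiction (`C` not `~ B`).
Degrees: `x ∈ C`: `nb G x D ⊆ nb G x C ∪ nb G x {v}`, `x` not adjacent to `B`: `ds G D A B x ≤ ds G C A {v} x`.
`C.card < D.card` (`v ∉ C`).  `ih`: `Adm G 2 C A {v}` (`e2` by `Or.inl`).  A path from `v` to `B` outside `C`: `D` is connected and contains a vertex `u` adjacent
to `B`, `u ∉ C`; `D \ C` is connected (`Conn.sdiff`, `bd G D C ⊆ {v}`), so there is a path `v .. u` in `D \ C`.  Glue with `adm_glue` (`p = 1`):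
`Adm G 2 D A B`, contradiction.
-/

namespace Pool.Agent.Lib.MP_f599e5_co

open Finset

variable {V : Type} [DecidableEq V] {G : SimpleGraph V}

theorem A3a_aux {D A B : Finset V} (hs : Sys D A B) {t1 t2 u b : V} {q : ℕ} (h1 : t1 ∈ D)
    (h2 : t2 ∈ D) (hA : ∃ a ∈ A, G.Adj t1 a) (hA' : ∃ a ∈ A, G.Adj t2 a) (hadj : G.Adj t2 t1)
    (hp : PL G (insert t1 (D \ {t1, t2})) t1 u q) (hb : b ∈ B) (hub : G.Adj u b) :
    Adm G 2 D A B := by
  have hT : insert t1 (D \ {t1, t2}) ⊆ D :=
    insert_subset h1 sdiff_subset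
  have hAD : ∀ a ∈ A, a ∉ D := fun a ha hD => disjoint_left.1 hs.dA hD ha
  have hBD : b ∉ D := fun hD => disjoint_left.1 hs.dB hD hb
  have hAB : ∀ a ∈ A, b ≠ a := fun a ha h => disjoint_left.1 hs.AB ha (h ▸ hb)
  have key : ∀ (T : Finset V) (s a : V) (n : ℕ), T ⊆ D → a ∈ A → G.Adj s a → PL G T s u n →
      PL G (insert a (insert b D)) a b (n + 2) := by
    intro T s a n hTD ha hsa hp
    have h3 : PL G (insert a T) a u (n + 1) := hp.cons hsa.symm (fun h => hAD a ha (hTD h))
    have h4 : PL G (insert b (insert a T)) a b (n + 1 + 1) := h3.snoc hub (by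
      rw [mem_insert]
      rintro (h | h)
      · exact hAB a ha h
      · exact hBD (hTD h))
    refine h4.mono ?_
    intro x hx
    rw [mem_insert, mem_insert] at hx
    rw [mem_insert, mem_insert]
    rcases hx with hx | hx | hx
    · exact Or.inr (Or.inl hx)
    · exact Or.inl hx
    · exact Or.inr (Or.inr (hTD hx))
  obtain ⟨a, ha, hta⟩ := hA
  obtain ⟨a', ha', hta'⟩ := hA'
  have hp2 : PL G (insert t2 (insert t1 (D \ {t1, t2}))) t2 u (q + 1) := hp.cons hadj (by
    rw [mem_insert, mem_sdiff]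
    rintro (h | ⟨_, h⟩)
    · exact hadj.ne h
    · exact h (by simp))
  refine ⟨1, Or.inl rfl, q + 2, by omega, fun i hi => ?_⟩
  rcases (by omega : i = 0 ∨ i = 1) with rfl | rfl
  · exact ⟨a, ha, b, hb, key _ _ _ _ hT ha hta hp⟩
  · refine ⟨a', ha', b, hb, ?_⟩
    have h5 := key _ _ _ _ (insert_subset h2 hT) ha' hta' hp2
    have h6 : q + 2 + 1 * 1 = q + 1 + 2 := by omega
    rw [h6]
    exact h5

theorem m2_a {D A B : Finset V} {z t t' : V} (h : Ctx2 G D A B z) (ht : t ∈ D) (ht' : t' ∈ D)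
    (hA : ∃ a ∈ A, G.Adj t a) (hA' : ∃ a ∈ A, G.Adj t' a) (hadj : G.Adj t t') : False := by
  obtain ⟨u, hu, b, hb, hub⟩ := (h.r0.r1 D (Subset.refl _) h.r0.ne (by simp [bd])).2
  obtain ⟨n, hn⟩ := h.conn.path ht hu
  obtain ⟨w, hw, _, q, _, hq⟩ := hn.last_hit {t, t'} (by simp)
  rcases (by simpa using hw : w = t ∨ w = t') with rfl | rfl
  · exact h.no (A3a_aux h.sys ht ht' hA hA' hadj.symm hq hb hub)
  · have h1 : ({t, w} : Finset V) = {w, t} := pair_comm _ _
    rw [h1] at hq
    exact h.no (A3a_aux h.sys ht' ht hA' hA hadj hq hb hub)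

theorem m2_b {D A B : Finset V} {z v : V} (h : Ctx2 G D A B z) (hv : v ∈ D) {C : Finset V}
    (hC : IsComp G (D.erase v) C) (hne : ∃ x ∈ C, x ≠ z) : adjS G C B := by
  by_contra hCB
  have hCD : C ⊆ D := hC.1.trans (erase_subset _ _)
  have hvC : v ∉ C := fun hc => notMem_erase v D (hC.1 hc)
  have hCne : C.Nonempty := hC.2.2.1
  have hnbr : ∀ x ∈ C, ∀ y ∈ D, G.Adj x y → y ∈ C ∨ y = v := by
    intro x hx y hy hxy
    by_contra hc
    rw [not_or] at hc
    have h1 : y ∈ bd G (D.erase v) C := mem_bd.2 ⟨mem_erase.2 ⟨hc.2, hy⟩, hc.1, x, hx, hxy⟩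
    rw [hC.2.1] at h1
    exact absurd h1 (notMem_empty _)
  have hbd : bd G D C ⊆ {v} := by
    intro y hy
    obtain ⟨hyD, hyC, x, hx, hxy⟩ := mem_bd.1 hy
    exact mem_singleton.2 ((hnbr x hx y hyD hxy).resolve_left hyC)
  have hCA : adjS G C A := by
    rcases h.r0.r2 C hCD hCne ((card_le_card hbd).trans (by simp)) with h1 | h1
    · exact h1
    · exact absurd h1 hCB
  have hCv : adjS G C {v} := by
    by_contra hc
    refine hCB (h.r0.r1 C hCD hCne ?_).2
    rw [eq_empty_iff_forall_notMem]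
    intro y hy
    obtain ⟨hyD, hyC, x, hx, hxy⟩ := mem_bd.1 hy
    have h1 := mem_singleton.1 (hbd hy)
    subst h1
    exact hc ⟨x, hx, y, mem_singleton_self y, hxy⟩
  have hsys : Sys C A {v} := by
    refine ⟨disjoint_of_subset_left hCD h.sys.dA, ?_, ?_⟩
    · rw [disjoint_singleton_right]
      exact hvC
    · rw [disjoint_singleton_right]
      exact fun hA => disjoint_left.1 h.sys.dA hv hA
  have hr0 : R0 G C A {v} := by
    refine ⟨hCne, ?_, ?_⟩
    · intro C' hC' hne' hb'
      have h1 := hC.2.2.2 C' hC' hne' hb'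
      subst h1
      exact ⟨hCA, hCv⟩
    · intro C' hC' hne' hb'
      by_contra hc
      rw [not_or] at hc
      have h1 : bd G D C' = bd G C C' := by
        refine bd_eq_of hC' hCD ?_
        intro x hx y hy hxy
        rcases hnbr x (hC' hx) y hy hxy with h2 | h2
        · exact h2
        · subst h2
          exact absurd ⟨x, hx, y, mem_singleton_self y, hxy⟩ hc.2
      rcases h.r0.r2 C' (hC'.trans hCD) hne' (by rw [h1]; exact hb') with h2 | h2
      · exact hc.1 h2
      · exact hCB (adjS_mono h2 hC' (Subset.refl _))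
  have hgood : Good G 2 C A {v} z := by
    refine ⟨by omega, hsys, hr0.toRz hne, ?_, fun _ => Or.inl hr0⟩
    intro x hx hxz
    have h1 := h.deg x (hCD hx) hxz
    have h2 : (nb G x B).card = 0 := nb_card_zero (fun ⟨b, hb, hxb⟩ => hCB ⟨x, hx, b, hb, hxb⟩)
    have h3 : (nb G x D).card ≤ (nb G x C).card + (nb G x {v}).card := by
      refine nb_card_le_add ?_
      intro y hy hxy
      rcases hnbr x hx y hy hxy with h4 | h4
      · exact Or.inl h4
      · exact Or.inr (mem_singleton.2 h4)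
    have h4 : (nb G x {v}).card ≤ 1 := nb_card_le.trans (by simp)
    unfold ds at h1 ⊢
    omega
  have hlt : C.card < D.card := card_lt_card ⟨hCD, fun hs => hvC (hs hv)⟩
  have hadm : Adm G 2 C A {v} := h.ih C.card hlt 2 C A {v} z rfl hgood
  obtain ⟨u, hu, b, hb, hub⟩ := (h.r0.r1 D (Subset.refl _) h.r0.ne (by simp [bd])).2
  have huC : u ∉ C := fun hc => hCB ⟨u, hc, b, hb, hub⟩
  have hconn := h.conn.sdiff hCD hv hvC hbd
  obtain ⟨n, hn⟩ := hconn.path (mem_sdiff.2 ⟨hv, hvC⟩) (mem_sdiff.2 ⟨hu, huC⟩)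
  have hbD : b ∉ D := fun hD => disjoint_left.1 h.sys.dB hD hb
  have hp2 : PL G (insert b (D \ C)) v b (n + 1) := hn.snoc hub (fun hc => hbD (mem_sdiff.1 hc).1)
  refine h.no (adm_glue (p := 1) (p0 := n + 1) (e := 1) hadm (by omega) le_rfl (Or.inl rfl)
    (by omega) ?_)
  intro r1 hr1 r2 hr2 j hj x _ hp1
  have h5 := mem_singleton.1 hr2
  subst h5
  have hj0 : j = 0 := by omega
  subst hj0
  refine ⟨r1, hr1, b, hb, ?_⟩
  have h6 : x + (n + 1 + 0 * 1) = x + (n + 1) := by omega
  rw [h6]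
  refine (hp1.trans hp2 ?_).mono ?_
  · intro y hy hy2
    rw [mem_insert, mem_insert] at hy
    rw [mem_insert, mem_sdiff] at hy2
    rcases hy with hy | hy | hy
    · exfalso
      subst hy
      rcases hy2 with h7 | h7
      · exact disjoint_left.1 h.sys.AB hr1 (h7 ▸ hb)
      · exact disjoint_left.1 h.sys.dA h7.1 hr1
    · exact hy
    · exfalso
      rcases hy2 with h7 | h7
      · exact hbD (h7 ▸ hCD hy)
      · exact h7.2 hy
  · intro y hy
    rw [mem_insert, mem_insert]
    rcases mem_union.1 hy with hy | hy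
    · rw [mem_insert, mem_insert] at hy
      rcases hy with hy | hy | hy
      · exact Or.inl hy
      · exact Or.inr (Or.inr (hy ▸ hv))
      · exact Or.inr (Or.inr (hCD hy))
    · rw [mem_insert, mem_sdiff] at hy
      rcases hy with hy | hy
      · exact Or.inr (Or.inl hy)
      · exact Or.inr (Or.inr hy.1)

end Pool.Agent.Lib.MP_f599e5_co
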