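import Pool.Agent.Lib.MP_f599e5_co.A3a

set_option autoImplicit false
set_option linter.unusedSectionVars false

/-!
# A3b: `m = 2`, steps (c) and (d)

`m2_c`: `v ∈ D` has two different neighbours `t, t' ∈ D`, both with a neighbour in `A`.  By `m2_a` `v` itself has no neighbour in `A` (not needed).
One of `t,t'`, call it `t0`, is different from `z`; its component `C` in `D.erase v` has `C ~ B` by `m2_b`.  So there is a path in `C ⊆ D.erase v` from `t0` to a vertex
`u` with a neighbour `b ∈ B`.  Let `t1` be its last vertex in `{t,t'}` (`PL.last_hit` with `X = {t,t'}`), `t2` the other one; we get a path `t1 .. u` of length `q`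
inside `insert t1 ((D.erase v) \ {t,t'})`.  `a1 - t1 - .. - u - b`: length `q+2`; `a2 - t2 - v - t1 - .. - u - b`: length `q+4`.  Adm with `d = 2`.

`m2_d`: `TA` = the vertices of `D` with a neighbour in `A` (filter).  `D1` a component of `D \ TA` with `D1 ~ B` and a vertex `≠ z`.  System `(D1;TA,B)`:
`R0`: (r1) `C' ⊆ D1` closed nonempty is `D1` (connected); `D1 ~ B`; `D1 ~ TA`: otherwise `bd G D D1 = ∅`, and `r0.r1` gives `D1 ~ A`, but `D1 ∩ TA = ∅`.
(r2) `C' ⊆ D1` nonempty, `(bd G D1 C').card ≤ 1`, not `~ TA`, not `~ B`: then `bd G D C' = bd G D1 C'`, so `r0.r2` gives `C' ~ A` or `~ B`; `C' ~ A` is impossible.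
Degrees: `x ∈ D1`, `x ≠ z`: `x` has at most one neighbour in `TA` (`m2_c`) and none in `A`, so `ds G D A B x ≤ ds G D1 TA B x`:
`(nb G x D).card ≤ (nb G x D1).card + (nb G x TA).card` and `(nb G x TA).card ≤ min 1 (nb G x TA).card`.
`D1.card < D.card` since `TA` is nonempty (`r0.r1` for `D`).  `ih`: `Adm G 2 D1 TA B`; prefix `a - t` for `t ∈ TA`: `adm_glue` with `p = 1`, `p0 = 1`.
-/

namespace Pool.Agent.Lib.MP_f599e5_co

open Finset

variable {V : Type} [DecidableEq V] {G : SimpleGraph V}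

/-- two paths whose lengths differ by two -/
theorem A3b_two {D A B : Finset V} (hs : Sys D A B) (hno : ¬ Adm G 2 D A B) {t1 t2 v u a1 a2 b : V}
    {q : ℕ} {W : Finset V} (hW : W ⊆ D) (hp : PL G W t1 u q) (ht1 : t1 ∈ D) (ht2 : t2 ∈ D)
    (hv : v ∈ D) (ht2W : t2 ∉ W) (hvW : v ∉ W) (hvt2 : v ≠ t2) (ha1 : a1 ∈ A) (ha2 : a2 ∈ A)
    (hb : b ∈ B) (h1 : G.Adj t1 a1) (h2 : G.Adj t2 a2) (hub : G.Adj u b) (hvt1 : G.Adj v t1)
    (hvt2' : G.Adj v t2) : False := by
  have hnA : ∀ x ∈ D, ∀ a ∈ A, x ≠ a := fun x hx a ha h => disjoint_left.1 hs.dA hx (h ▸ ha)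
  have hnB : ∀ x ∈ D, ∀ a ∈ B, x ≠ a := fun x hx a ha h => disjoint_left.1 hs.dB hx (h ▸ ha)
  have hnAB : ∀ x ∈ A, ∀ a ∈ B, x ≠ a := fun x hx a ha h => disjoint_left.1 hs.AB hx (h ▸ ha)
  have hbW : b ∉ W := fun h => hnB b (hW h) b hb rfl
  have p1 : PL G (insert b W) t1 b (q + 1) := PL.snoc hp hub hbW
  have ha1W : a1 ∉ insert b W := by
    rw [mem_insert]
    rintro (h | h)
    · exact hnAB a1 ha1 b hb h
    · exact hnA a1 (hW h) a1 ha1 rfl
  have p2 : PL G (insert a1 (insert b W)) a1 b (q + 1 + 1) := PL.cons h1.symm p1 ha1W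
  have hvW' : v ∉ insert b W := by
    rw [mem_insert]
    rintro (h | h)
    · exact hnB v hv b hb h
    · exact hvW h
  have p3 : PL G (insert v (insert b W)) v b (q + 1 + 1) := PL.cons hvt1 p1 hvW'
  have ht2W' : t2 ∉ insert v (insert b W) := by
    rw [mem_insert, mem_insert]
    rintro (h | h | h)
    · exact hvt2 h.symm
    · exact hnB t2 ht2 b hb h
    · exact ht2W h
  have p4 : PL G (insert t2 (insert v (insert b W))) t2 b (q + 1 + 1 + 1) :=
    PL.cons hvt2'.symm p3 ht2W'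
  have ha2W : a2 ∉ insert t2 (insert v (insert b W)) := by
    rw [mem_insert, mem_insert, mem_insert]
    rintro (h | h | h | h)
    · exact hnA t2 ht2 a2 ha2 h.symm
    · exact hnA v hv a2 ha2 h.symm
    · exact hnAB a2 ha2 b hb h
    · exact hnA a2 (hW h) a2 ha2 rfl
  have p5 := PL.cons h2.symm p4 ha2W
  apply hno
  refine ⟨2, Or.inr rfl, q + 2, by omega, fun i hi => ?_⟩
  rcases (show i = 0 ∨ i = 1 by omega) with rfl | rfl
  · refine ⟨a1, ha1, b, hb, ?_⟩
    have h3 : q + 2 + 0 * 2 = q + 1 + 1 := by omega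
    rw [h3]
    refine p2.mono ?_
    intro x hx
    simp only [mem_insert] at hx ⊢
    rcases hx with h | h | h
    · exact Or.inl h
    · exact Or.inr (Or.inl h)
    · exact Or.inr (Or.inr (hW h))
  · refine ⟨a2, ha2, b, hb, ?_⟩
    have h3 : q + 2 + 1 * 2 = q + 1 + 1 + 1 + 1 := by omega
    rw [h3]
    refine p5.mono ?_
    intro x hx
    simp only [mem_insert] at hx ⊢
    rcases hx with h | h | h | h | h
    · exact Or.inl h
    · exact Or.inr (Or.inr (h ▸ ht2))
    · exact Or.inr (Or.inr (h ▸ hv))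
    · exact Or.inr (Or.inl h)
    · exact Or.inr (Or.inr (hW h))

theorem m2_c {D A B : Finset V} {z v t t' : V} (h : Ctx2 G D A B z) (hv : v ∈ D) (ht : t ∈ D) (ht' : t' ∈ D)
    (hA : ∃ a ∈ A, G.Adj t a) (hA' : ∃ a ∈ A, G.Adj t' a) (hne : t ≠ t') (h1 : G.Adj v t) (h2 : G.Adj v t') :
    False := by
  have key : ∀ t0 : V, t0 ∈ D → t0 ≠ z → G.Adj v t0 → (t0 = t ∨ t0 = t') → False := by
    intro t0 ht0 ht0z hvt0 ht0'
    have hv0 : t0 ∈ D.erase v := mem_erase.2 ⟨fun h => G.loopless.irrefl _ (h ▸ hvt0), ht0⟩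
    obtain ⟨C, ht0C, hC⟩ := exists_comp (G := G) hv0
    obtain ⟨u, hu, b, hb, hub⟩ := m2_b h hv hC ⟨t0, ht0C, ht0z⟩
    obtain ⟨n, hn⟩ := hC.2.2.path ht0C hu
    obtain ⟨w, hw, hwC, q, -, hq⟩ := hn.last_hit {t, t'} (by
      rw [mem_insert, mem_singleton]
      exact ht0')
    obtain ⟨a1, ha1, hta1⟩ := hA
    obtain ⟨a2, ha2, hta2⟩ := hA'
    have hCD : C ⊆ D := hC.1.trans (erase_subset _ _)
    have hW : insert w (C \ {t, t'}) ⊆ D := by
      intro x hx
      rw [mem_insert] at hx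
      rcases hx with rfl | hx
      · exact hCD hwC
      · exact hCD (mem_sdiff.1 hx).1
    have hvW : v ∉ insert w (C \ {t, t'}) := by
      rw [mem_insert, mem_sdiff]
      rintro (rfl | ⟨hx, _⟩)
      · exact (mem_erase.1 (hC.1 hwC)).1 rfl
      · exact (mem_erase.1 (hC.1 hx)).1 rfl
    rw [mem_insert, mem_singleton] at hw
    rcases hw with rfl | rfl
    · refine A3b_two h.sys h.no (t1 := w) (t2 := t') hW hq ht ht' hv ?_ hvW
        (fun e => G.loopless.irrefl _ (e ▸ h2)) ha1 ha2 hb hta1 hta2 hub h1 h2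
      rw [mem_insert, mem_sdiff]
      rintro (e | ⟨_, e⟩)
      · exact hne e.symm
      · exact e (mem_insert_of_mem (mem_singleton_self _))
    · refine A3b_two h.sys h.no (t1 := w) (t2 := t) hW hq ht' ht hv ?_ hvW
        (fun e => G.loopless.irrefl _ (e ▸ h1)) ha2 ha1 hb hta2 hta1 hub h2 h1
      rw [mem_insert, mem_sdiff]
      rintro (e | ⟨_, e⟩)
      · exact hne e
      · exact e (mem_insert_self _ _)
  by_cases htz : t = z
  · exact key t' ht' (fun e => hne (htz.trans e.symm)) h2 (Or.inr rfl)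
  · exact key t ht htz h1 (Or.inl rfl)

theorem m2_d {D A B : Finset V} {z : V} (h : Ctx2 G D A B z) {TA D1 : Finset V}
    (hTA : ∀ x, x ∈ TA ↔ x ∈ D ∧ ∃ a ∈ A, G.Adj x a) (hD1 : IsComp G (D \ TA) D1) (hB : adjS G D1 B)
    (hne : ∃ x ∈ D1, x ≠ z) : False := by
  have hD1D : D1 ⊆ D := hD1.1.trans sdiff_subset
  have hTAD : TA ⊆ D := fun x hx => ((hTA x).1 hx).1
  have hnTA : ∀ x ∈ D1, x ∉ TA := fun x hx => (mem_sdiff.1 (hD1.1 hx)).2
  have hnA : ∀ x ∈ D1, ¬ ∃ a ∈ A, G.Adj x a := fun x hx hxa =>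
    hnTA x hx ((hTA x).2 ⟨hD1D hx, hxa⟩)
  have hnbr : ∀ x ∈ D1, ∀ y ∈ D, G.Adj x y → y ∈ D1 ∨ y ∈ TA := fun x hx y hy hxy =>
    nbr_of_closed hD1.1 hD1.2.1 hx hy hxy
  have hR : R0 G D1 TA B := by
    refine ⟨hD1.2.2.1, ?_, ?_⟩
    · intro C' hC' hne' hb
      have hC'1 : C' = D1 := hD1.2.2.2 C' hC' hne' hb
      subst hC'1
      refine ⟨?_, hB⟩
      by_contra hcon
      have hbd : bd G D C' = ∅ := by
        rw [eq_empty_iff_forall_notMem]
        intro x hx
        obtain ⟨hxD, hxC, y, hy, hyx⟩ := mem_bd.1 hx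
        rcases hnbr y hy x hxD hyx with h1 | h1
        · exact hxC h1
        · exact hcon ⟨y, hy, x, h1, hyx⟩
      obtain ⟨y, hy, a, ha, hya⟩ := (h.r0.r1 C' hD1D hne' hbd).1
      exact hnA y hy ⟨a, ha, hya⟩
    · intro C' hC' hne' hb
      by_contra hcon
      push Not at hcon
      have hbd : bd G D C' = bd G D1 C' := by
        refine bd_eq_of hC' hD1D ?_
        intro v hv x hx hvx
        rcases hnbr v (hC' hv) x hx hvx with h1 | h1
        · exact h1
        · exact absurd ⟨v, hv, x, h1, hvx⟩ hcon.1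
      rcases h.r0.r2 C' (hC'.trans hD1D) hne' (by rw [hbd]; exact hb) with h1 | h1
      · obtain ⟨y, hy, a, ha, hya⟩ := h1
        exact hnA y (hC' hy) ⟨a, ha, hya⟩
      · exact hcon.2 h1
  have hcard : D1.card < D.card := by
    refine card_lt_card ⟨hD1D, fun hs => ?_⟩
    obtain ⟨x, hx, a, ha, hxa⟩ := (h.r0.r1 D (Subset.refl _) h.r0.ne (by simp [bd])).1
    exact hnTA x (hs hx) ((hTA x).2 ⟨hx, a, ha, hxa⟩)
  have hgood : Good G 2 D1 TA B z := by
    refine ⟨by omega, ⟨?_, disjoint_of_subset_left hD1D h.sys.dB,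
      disjoint_of_subset_left hTAD h.sys.dB⟩, hR.toRz hne, ?_, fun _ => Or.inl hR⟩
    · exact disjoint_left.2 hnTA
    · intro x hx hxz
      have h1 := h.deg x (hD1D hx) hxz
      have h2 : (nb G x A).card = 0 := nb_card_zero (hnA x hx)
      have h3 : (nb G x D).card ≤ (nb G x D1).card + (nb G x TA).card :=
        nb_card_le_add (fun y hy hxy => hnbr x hx y hy hxy)
      have h4 : (nb G x TA).card ≤ 1 := by
        rw [card_le_one]
        intro t ht t' ht'
        by_contra hne'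
        rw [mem_nb] at ht ht'
        exact m2_c h (hD1D hx) (hTAD ht.1) (hTAD ht'.1) ((hTA t).1 ht.1).2 ((hTA t').1 ht'.1).2
          hne' ht.2 ht'.2
      unfold ds at h1 ⊢
      omega
  have hadm := h.ih D1.card hcard 2 D1 TA B z rfl hgood
  apply h.no
  refine adm_glue (p := 1) (p0 := 1) (e := 1) hadm (by omega) (by omega) (Or.inl rfl) (by omega) ?_
  intro r1 hr1 r2 hr2 j hj x hx2 hp
  obtain ⟨a, ha, hra⟩ := ((hTA r1).1 hr1).2
  refine ⟨a, ha, r2, hr2, ?_⟩
  have hj0 : j = 0 := by omega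
  subst hj0
  have ha' : a ∉ insert r1 (insert r2 D1) := by
    rw [mem_insert, mem_insert]
    rintro (e | e | e)
    · exact disjoint_left.1 h.sys.dA (hTAD hr1) (e ▸ ha)
    · exact disjoint_left.1 h.sys.AB ha (e ▸ hr2)
    · exact disjoint_left.1 h.sys.dA (hD1D e) ha
  have h5 := PL.cons hra.symm hp ha'
  have h6 : x + (1 + 0 * 1) = x + 1 := by omega
  rw [h6]
  refine h5.mono ?_
  intro y hy
  simp only [mem_insert] at hy ⊢
  rcases hy with e | e | e | e
  · exact Or.inl e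
  · exact Or.inr (Or.inr (e ▸ hTAD hr1))
  · exact Or.inr (Or.inl e)
  · exact Or.inr (Or.inr (hD1D e))

end Pool.Agent.Lib.MP_f599e5_co
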