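import Pool.Agent.Lib.MP_f599e5_co.A3b

set_option autoImplicit false
set_option linter.unusedSectionVars false

/-!
# A3c: `m = 2`, step (e) and conclusion

`m2_e`: let `TA`, `TB` = the vertices of `D` with a neighbour in `A`, resp. `B`.
By `m2_d` every `u ∈ TB`, `u ≠ z` lies in `TA` (otherwise its component in `D \ TA` contradicts `m2_d`); by symmetry (`h.symm`) every `u ∈ TA`, `u ≠ z` lies in `TB`.
There is `t ∈ TA` with `t ≠ z`: otherwise `TA ⊆ {z}` and then also `TB ⊆ {z}`; the set `D.erase z` (nonempty) has boundary `⊆ {z}` and is not adjacent to `A`, `B`: `r0.r2`.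
So `t ∈ TA ∩ TB`, `t ≠ z`.  `ds ≥ 3` gives a neighbour `u ∈ D` of `t`; `u ∉ TA` (`m2_a`), `u ∉ TB` (`m2_a` for `h.symm`).
`C` := the component of `D \ (TA ∪ TB)` containing `u`, `T' := (bd G D C).erase t ⊆ TA ∪ TB`.
`T'` is nonempty: otherwise `bd G D C ⊆ {t}`, and `C` not adjacent to `A`, `B`: `r0.r2`.
System `(C;{t},T')`: `R0`: (r1) `C` connected, `u ~ t`, `C ~ T'` as `T'` is a nonempty set of boundary vertices.  (r2) `C' ⊆ C` with `(bd G C C').card ≤ 1` and not adjacent to `t`, `T'`: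
`bd G D C' = bd G C C'`, contradiction to `r0.r2`.
Degrees: `x ∈ C`, `x ≠ z`: `x` has at most one neighbour in `TA ∪ TB`: if `p ≠ p'` are two neighbours: not both in `TA` (`m2_c`), not both in `TB`; so say `p ∈ TA \ TB`, `p' ∈ TB \ TA`; then
`p = z` (as `TA \ z ⊆ TB`), `p' = z`, contradiction.  So `ds G D A B x = (nb G x D).card ≤ ds G C {t} T' x`.
`C` contains a vertex `≠ z`: otherwise `C = {z}`, `z = u`.  `{z}` is not adjacent to `A`,`B`; its neighbours in `D` lie in `TA ∪ TB`; two different neighbours `p ≠ p'`: as before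
(`p ∈ TA \ TB` implies `p = z`, impossible since `p ≠ z`, a neighbour of `z`; so `p, p' ∈ TA ∩ TB` contradicts `m2_c`); so `bd G D {z} = {t}`, contradiction to `r0.r2`.
`ih` (`C.card < D.card` as `t ∉ C`): `Adm G 2 C {t} T'`.  Extend: `a - t` at the start (or `b - t`) and at the end `t'' ∈ T'`: `t'' ∈ TA` or `t'' ∈ TB`.  If `t'' ∈ TB`: `a - t .. t'' - b`; if `t'' ∈ TA`:
`a - t'' .. t - b` (reverse path).  Length `+2` in both cases: `adm_glue` with `p = 1`, `p0 = 2`.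

`m2_main`: `Good G 2 D A B z` with `R0`: if `D` is connected apply `m2_e`.  Otherwise take the component `C` of `D` containing a vertex `≠ z`: `(C;A,B)` satisfies `R0`
(`bd G D C' = bd G C C'`), same degrees, `C.card < D.card`, `ih`, `Adm.mono`.
-/

namespace Pool.Agent.Lib.MP_f599e5_co

open Finset

variable {V : Type} [DecidableEq V] {G : SimpleGraph V}

/-- a vertex `≠ z` with a neighbour in `B` has a neighbour in `A` -/
theorem A3c_sub {D A B : Finset V} {z u : V} (h : Ctx2 G D A B z) (hu : u ∈ D) (hz : u ≠ z)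
    (hB : ∃ b ∈ B, G.Adj u b) : ∃ a ∈ A, G.Adj u a := by
  classical
  by_contra hA
  set TA := D.filter (fun x => ∃ a ∈ A, G.Adj x a) with hTAdef
  have hTA : ∀ x, x ∈ TA ↔ x ∈ D ∧ ∃ a ∈ A, G.Adj x a := by
    intro x
    simp [hTAdef]
  have huT : u ∈ D \ TA := by
    rw [mem_sdiff]
    exact ⟨hu, fun h1 => hA ((hTA u).1 h1).2⟩
  obtain ⟨D1, huD1, hD1⟩ := exists_comp (G := G) huT
  obtain ⟨b, hb, hub⟩ := hB
  exact m2_d h hTA hD1 ⟨u, huD1, b, hb, hub⟩ ⟨u, huD1, hz⟩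

/-- a vertex of `D` has at most one neighbour in `D` with neighbours in `A ∪ B` -/
theorem A3c_uniq {D A B : Finset V} {z x p p' : V} (h : Ctx2 G D A B z) (hx : x ∈ D) (hp : p ∈ D)
    (hp' : p' ∈ D) (h1 : G.Adj x p) (h2 : G.Adj x p')
    (hpT : (∃ a ∈ A, G.Adj p a) ∨ (∃ b ∈ B, G.Adj p b))
    (hpT' : (∃ a ∈ A, G.Adj p' a) ∨ (∃ b ∈ B, G.Adj p' b)) : p = p' := by
  by_contra hne
  have hAA : ¬ ((∃ a ∈ A, G.Adj p a) ∧ (∃ a ∈ A, G.Adj p' a)) :=
    fun hh => m2_c h hx hp hp' hh.1 hh.2 hne h1 h2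
  have hBB : ¬ ((∃ b ∈ B, G.Adj p b) ∧ (∃ b ∈ B, G.Adj p' b)) :=
    fun hh => m2_c h.symm hx hp hp' hh.1 hh.2 hne h1 h2
  have e1 : p ≠ z → ((∃ a ∈ A, G.Adj p a) ∧ (∃ b ∈ B, G.Adj p b)) := by
    intro hz
    rcases hpT with h3 | h3
    · exact ⟨h3, A3c_sub h.symm hp hz h3⟩
    · exact ⟨A3c_sub h hp hz h3, h3⟩
  have e2 : p' ≠ z → ((∃ a ∈ A, G.Adj p' a) ∧ (∃ b ∈ B, G.Adj p' b)) := by
    intro hz
    rcases hpT' with h3 | h3
    · exact ⟨h3, A3c_sub h.symm hp' hz h3⟩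
    · exact ⟨A3c_sub h hp' hz h3, h3⟩
  by_cases hz : p = z
  · have hz' : p' ≠ z := fun hz' => hne (hz.trans hz'.symm)
    have e3 := e2 hz'
    rcases hpT with h3 | h3
    · exact hAA ⟨h3, e3.1⟩
    · exact hBB ⟨h3, e3.2⟩
  · have e3 := e1 hz
    rcases hpT' with h3 | h3
    · exact hAA ⟨e3.1, h3⟩
    · exact hBB ⟨e3.2, h3⟩

theorem m2_e {D A B : Finset V} {z : V} (h : Ctx2 G D A B z) : False := by
  classical
  -- a vertex `t ≠ z` with neighbours in `A` and `B`
  have ht0 : ∃ t ∈ D, t ≠ z ∧ (∃ a ∈ A, G.Adj t a) ∧ (∃ b ∈ B, G.Adj t b) := by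
    by_contra hcon
    have hno : ∀ x ∈ D, x ≠ z → ¬ (∃ a ∈ A, G.Adj x a) ∧ ¬ (∃ b ∈ B, G.Adj x b) := by
      intro x hx hxz
      constructor
      · intro h1
        exact hcon ⟨x, hx, hxz, h1, A3c_sub h.symm hx hxz h1⟩
      · intro h1
        exact hcon ⟨x, hx, hxz, A3c_sub h hx hxz h1, h1⟩
    obtain ⟨v, hv, hvz⟩ := h.ne
    have hb : (bd G D (D.erase z)).card ≤ 1 := by
      have hsub : bd G D (D.erase z) ⊆ {z} := by
        intro w hw
        rw [mem_bd] at hw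
        rw [mem_singleton]
        by_contra hwz
        exact hw.2.1 (mem_erase.2 ⟨hwz, hw.1⟩)
      simpa using card_le_card hsub
    rcases h.r0.r2 (D.erase z) (erase_subset _ _) ⟨v, mem_erase.2 ⟨hvz, hv⟩⟩ hb with h1 | h1
    · obtain ⟨x, hx, a, ha, hxa⟩ := h1
      exact (hno x (mem_erase.1 hx).2 (mem_erase.1 hx).1).1 ⟨a, ha, hxa⟩
    · obtain ⟨x, hx, a, ha, hxa⟩ := h1
      exact (hno x (mem_erase.1 hx).2 (mem_erase.1 hx).1).2 ⟨a, ha, hxa⟩
  obtain ⟨t, ht, htz, htA, htB⟩ := ht0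
  -- a neighbour `u` of `t` in `D`
  have hu0 : ∃ u ∈ D, G.Adj t u := by
    have h3 := h.deg t ht htz
    unfold ds at h3
    have h4 : 0 < (nb G t D).card := by omega
    obtain ⟨u, hu⟩ := card_pos.1 h4
    exact ⟨u, (mem_nb.1 hu).1, (mem_nb.1 hu).2⟩
  obtain ⟨u, hu, htu⟩ := hu0
  have huA : ¬ ∃ a ∈ A, G.Adj u a := fun h1 => m2_a h ht hu htA h1 htu
  have huB : ¬ ∃ b ∈ B, G.Adj u b := fun h1 => m2_a h.symm ht hu htB h1 htu
  set TT2 := D.filter (fun x => (∃ a ∈ A, G.Adj x a) ∨ (∃ b ∈ B, G.Adj x b)) with hTdef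
  have hT : ∀ x, x ∈ TT2 ↔ x ∈ D ∧ ((∃ a ∈ A, G.Adj x a) ∨ (∃ b ∈ B, G.Adj x b)) := by
    intro x
    simp [hTdef]
  have huT : u ∈ D \ TT2 := by
    rw [mem_sdiff]
    refine ⟨hu, fun h1 => ?_⟩
    rcases ((hT u).1 h1).2 with h2 | h2
    · exact huA h2
    · exact huB h2
  obtain ⟨C, huC, hCs, hCb, hCc⟩ := exists_comp (G := G) huT
  have hCD : ∀ x ∈ C, x ∈ D := fun x hx => (mem_sdiff.1 (hCs hx)).1
  have hCT : ∀ x ∈ C, x ∉ TT2 := fun x hx => (mem_sdiff.1 (hCs hx)).2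
  have hCA : ∀ x ∈ C, ¬ ∃ a ∈ A, G.Adj x a := fun x hx h1 => hCT x hx ((hT x).2 ⟨hCD x hx, Or.inl h1⟩)
  have hCB : ∀ x ∈ C, ¬ ∃ b ∈ B, G.Adj x b := fun x hx h1 => hCT x hx ((hT x).2 ⟨hCD x hx, Or.inr h1⟩)
  -- neighbours of `C` in `D`
  have hCn : ∀ x ∈ C, ∀ y ∈ D, G.Adj x y → y ∈ C ∨ y ∈ TT2 := fun x hx y hy hxy =>
    nbr_of_closed hCs hCb hx hy hxy
  have htT : t ∈ TT2 := (hT t).2 ⟨ht, Or.inl htA⟩
  have htC : t ∉ C := fun h1 => hCT t h1 htT
  have hCnA : ∀ C' ⊆ C, ¬ adjS G C' A := by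
    intro C' hC' h1
    obtain ⟨x, hx, a, ha, hxa⟩ := h1
    exact hCA x (hC' hx) ⟨a, ha, hxa⟩
  have hCnB : ∀ C' ⊆ C, ¬ adjS G C' B := by
    intro C' hC' h1
    obtain ⟨x, hx, a, ha, hxa⟩ := h1
    exact hCB x (hC' hx) ⟨a, ha, hxa⟩
  set T' := (bd G D C).erase t with hT'def
  have hT'mem : ∀ x, x ∈ T' ↔ x ≠ t ∧ x ∈ D ∧ x ∉ C ∧ ∃ y ∈ C, G.Adj y x := by
    intro x
    rw [hT'def, mem_erase, mem_bd]
  have hT'T : ∀ x ∈ T', x ∈ TT2 := by
    intro x hx
    obtain ⟨_, hxD, hxC, y, hy, hyx⟩ := (hT'mem x).1 hx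
    rcases hCn y hy x hxD hyx with h1 | h1
    · exact absurd h1 hxC
    · exact h1
  have hT'ne : T'.Nonempty := by
    rw [nonempty_iff_ne_empty]
    intro hemp
    have hb : (bd G D C).card ≤ 1 := by
      have hsub : bd G D C ⊆ {t} := by
        intro w hw
        rw [mem_singleton]
        by_contra hwt
        have : w ∈ T' := by
          rw [hT'def]
          exact mem_erase.2 ⟨hwt, hw⟩
        rw [hemp] at this
        simp at this
      simpa using card_le_card hsub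
    rcases h.r0.r2 C hCD ⟨u, huC⟩ hb with h1 | h1
    · exact hCnA C (Subset.refl _) h1
    · exact hCnB C (Subset.refl _) h1
  -- neighbours of `C` outside `C`
  have hCn2 : ∀ x ∈ C, ∀ y ∈ D, G.Adj x y → y ∈ C ∨ y = t ∨ y ∈ T' := by
    intro x hx y hy hxy
    by_cases hyC : y ∈ C
    · exact Or.inl hyC
    · right
      by_cases hyt : y = t
      · exact Or.inl hyt
      · exact Or.inr ((hT'mem y).2 ⟨hyt, hy, hyC, x, hx, hxy⟩)
  have hsys : Sys C {t} T' := by
    refine ⟨?_, ?_, ?_⟩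
    · rw [disjoint_singleton_right]
      exact htC
    · rw [disjoint_left]
      intro x hx hx'
      exact ((hT'mem x).1 hx').2.2.1 hx
    · rw [disjoint_singleton_left]
      intro h1
      exact ((hT'mem t).1 h1).1 rfl
  have hR0 : R0 G C {t} T' := by
    refine ⟨⟨u, huC⟩, ?_, ?_⟩
    · intro C' hC' hne hb
      have hCC : C' = C := hCc.2 C' hC' hne hb
      rw [hCC]
      refine ⟨⟨u, huC, t, mem_singleton_self t, htu.symm⟩, ?_⟩
      obtain ⟨x, hx⟩ := hT'ne
      obtain ⟨_, _, _, y, hy, hyx⟩ := (hT'mem x).1 hx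
      exact ⟨y, hy, x, hx, hyx⟩
    · intro C' hC' hne hb
      by_contra hcon
      rw [not_or] at hcon
      have hbe : bd G D C' = bd G C C' := by
        refine bd_eq_of hC' hCD ?_
        intro v hv x hx hvx
        rcases hCn2 v (hC' hv) x hx hvx with h1 | h1 | h1
        · exact h1
        · exact absurd ⟨v, hv, t, mem_singleton_self t, h1 ▸ hvx⟩ hcon.1
        · exact absurd ⟨v, hv, x, h1, hvx⟩ hcon.2
      rw [← hbe] at hb
      rcases h.r0.r2 C' (fun x hx => hCD x (hC' hx)) hne hb with h1 | h1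
      · exact hCnA C' hC' h1
      · exact hCnB C' hC' h1
  have hdeg : ∀ x ∈ C, x ≠ z → 2 + 1 ≤ ds G C {t} T' x := by
    intro x hx hxz
    have h3 := h.deg x (hCD x hx) hxz
    unfold ds at h3
    rw [nb_card_zero (hCA x hx), nb_card_zero (hCB x hx)] at h3
    have h4 : 3 ≤ (nb G x D).card := by simpa using h3
    unfold ds
    by_cases hex : ∃ p ∈ D, p ∉ C ∧ G.Adj x p
    · obtain ⟨p, hpD, hpC, hxp⟩ := hex
      have hpT : p ∈ TT2 := by
        rcases hCn x hx p hpD hxp with h1 | h1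
        · exact absurd h1 hpC
        · exact h1
      have hsub : nb G x D ⊆ insert p (nb G x C) := by
        intro y hy
        rw [mem_nb] at hy
        rw [mem_insert, mem_nb]
        by_cases hyC : y ∈ C
        · exact Or.inr ⟨hyC, hy.2⟩
        · left
          have hyT : y ∈ TT2 := by
            rcases hCn x hx y hy.1 hy.2 with h1 | h1
            · exact absurd h1 hyC
            · exact h1
          exact A3c_uniq h (hCD x hx) hy.1 hpD hy.2 hxp ((hT y).1 hyT).2 ((hT p).1 hpT).2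
      have h5 : (nb G x D).card ≤ (nb G x C).card + 1 :=
        le_trans (card_le_card hsub) (card_insert_le _ _)
      have h6 : 1 ≤ min 1 (nb G x {t}).card + min 1 (nb G x T').card := by
        rcases hCn2 x hx p hpD hxp with h1 | h1 | h1
        · exact absurd h1 hpC
        · rw [min_nb_pos (A := {t}) ⟨t, mem_singleton_self t, h1 ▸ hxp⟩]
          omega
        · rw [min_nb_pos (A := T') ⟨p, h1, hxp⟩]
          omega
      omega
    · have hsub : nb G x D ⊆ nb G x C := by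
        intro y hy
        rw [mem_nb] at hy
        rw [mem_nb]
        refine ⟨?_, hy.2⟩
        by_contra hyC
        exact hex ⟨y, hy.1, hyC, hy.2⟩
      have h5 := card_le_card hsub
      omega
  have hCne : ∃ v ∈ C, v ≠ z := by
    by_contra hcon
    have hall : ∀ v ∈ C, v = z := by
      intro v hv
      by_contra hvz
      exact hcon ⟨v, hv, hvz⟩
    obtain ⟨x, hx⟩ := hT'ne
    obtain ⟨hxt, hxD, _, y, hy, hyx⟩ := (hT'mem x).1 hx
    have hyu : y = u := (hall y hy).trans (hall u huC).symm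
    rw [hyu] at hyx
    exact hxt (A3c_uniq h hu hxD ht hyx htu.symm ((hT x).1 (hT'T x hx)).2 (Or.inl htA))
  have hcard : C.card < D.card := by
    refine card_lt_card ⟨hCD, fun hs => htC (hs ht)⟩
  have hadm : Adm G 2 C {t} T' :=
    h.ih C.card hcard 2 C {t} T' z rfl ⟨by norm_num, hsys, hR0.toRz hCne, hdeg, fun _ => Or.inl hR0⟩
  have hDA : ∀ x ∈ D, x ∉ A := fun x hx => disjoint_left.1 h.sys.dA hx
  have hDB : ∀ x ∈ D, x ∉ B := fun x hx => disjoint_left.1 h.sys.dB hx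
  have hAB : ∀ x ∈ A, x ∉ B := fun x hx => disjoint_left.1 h.sys.AB hx
  -- extension of a path by its two root vertices
  have hext : ∀ (a b r r' : V) (T : Finset V) (n : ℕ), a ∈ A → b ∈ B → T ⊆ D → G.Adj r a → G.Adj r' b →
      PL G T r r' n → PL G (insert a (insert b D)) a b (n + 2) := by
    intro a b r r' T n ha hb hTD hra hrb hp
    have haT : a ∉ T := fun h1 => hDA a (hTD h1) ha
    have hbT : b ∉ insert a T := by
      rw [mem_insert, not_or]
      refine ⟨fun h1 => hAB a ha (h1 ▸ hb), fun h1 => hDB b (hTD h1) hb⟩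
    have p1 := PL.cons hra.symm hp haT
    have p2 := PL.snoc p1 hrb hbT
    have p3 := p2.mono (T := insert a (insert b D)) (by
      intro x hx
      rw [mem_insert, mem_insert] at hx
      rw [mem_insert, mem_insert]
      rcases hx with h1 | h1 | h1
      · exact Or.inr (Or.inl h1)
      · exact Or.inl h1
      · exact Or.inr (Or.inr (hTD h1)))
    have e : n + 2 = n + 1 + 1 := by ring
    rw [e]
    exact p3
  refine h.no ?_
  refine adm_glue (n := 2) (p := 1) (p0 := 2) (e := 1) hadm (by norm_num) (le_refl 1) (Or.inl rfl)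
    (by norm_num) ?_
  intro r1 hr1 r2 hr2 j hj x hx hp
  have hj0 : j = 0 := by omega
  have hr1t : r1 = t := mem_singleton.1 hr1
  subst hj0
  subst hr1t
  have hr2D : r2 ∈ D := ((hT'mem r2).1 hr2).2.1
  have hTD : insert r1 (insert r2 C) ⊆ D := by
    intro y hy
    rw [mem_insert, mem_insert] at hy
    rcases hy with h1 | h1 | h1
    · rw [h1]; exact ht
    · rw [h1]; exact hr2D
    · exact hCD y h1
  obtain ⟨a, ha, hta⟩ := htA
  obtain ⟨b, hb, htb⟩ := htB
  have e : x + (2 + 0 * 1) = x + 2 := by ring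
  rw [e]
  rcases ((hT r2).1 (hT'T r2 hr2)).2 with h1 | h1
  · obtain ⟨a', ha', hra'⟩ := h1
    exact ⟨a', ha', b, hb, hext a' b r2 r1 _ x ha' hb hTD hra' htb hp.symm⟩
  · obtain ⟨b', hb', hrb'⟩ := h1
    exact ⟨a, ha, b', hb', hext a b' r1 r2 _ x ha hb' hTD hta hrb' hp⟩

theorem m2_main {D A B : Finset V} {z : V} (ih : ∀ N < D.card, AplusAt G N) (h : Good G 2 D A B z)
    (h0 : R0 G D A B) : Adm G 2 D A B := by
  classical
  by_contra hno
  by_cases hconn : Conn G D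
  · exact m2_e ⟨h.sys, h0, h.deg, ih, hno, h.rz.ne, hconn⟩
  · obtain ⟨v, hv, hvz⟩ := h.rz.ne
    obtain ⟨C, hvC, hCD, hCb, hCc⟩ := exists_comp (G := G) hv
    have hCne : C ≠ D := fun h1 => hconn (h1 ▸ hCc)
    have hcard : C.card < D.card := card_lt_card (lt_of_le_of_ne hCD hCne)
    have hCn : ∀ x ∈ C, ∀ y ∈ D, G.Adj x y → y ∈ C := by
      intro x hx y hy hxy
      by_contra hyC
      have h1 : y ∈ bd G D C := mem_bd.2 ⟨hy, hyC, x, hx, hxy⟩
      rw [hCb] at h1
      simp at h1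
    have hbe : ∀ C' ⊆ C, bd G D C' = bd G C C' := by
      intro C' hC'
      exact bd_eq_of hC' hCD (fun x hx y hy hxy => hCn x (hC' hx) y hy hxy)
    have hR0 : R0 G C A B := by
      refine ⟨⟨v, hvC⟩, ?_, ?_⟩
      · intro C' hC' hne hb
        rw [← hbe C' hC'] at hb
        exact h0.r1 C' (fun x hx => hCD (hC' hx)) hne hb
      · intro C' hC' hne hb
        rw [← hbe C' hC'] at hb
        exact h0.r2 C' (fun x hx => hCD (hC' hx)) hne hb
    have hsys : Sys C A B := by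
      refine ⟨?_, ?_, h.sys.AB⟩
      · exact disjoint_of_subset_left hCD h.sys.dA
      · exact disjoint_of_subset_left hCD h.sys.dB
    have hdeg : ∀ x ∈ C, x ≠ z → 2 + 1 ≤ ds G C A B x := by
      intro x hx hxz
      have h3 := h.deg x (hCD hx) hxz
      unfold ds at h3 ⊢
      have hsub : nb G x D ⊆ nb G x C := by
        intro y hy
        rw [mem_nb] at hy
        rw [mem_nb]
        exact ⟨hCn x hx y hy.1 hy.2, hy.2⟩
      have h5 := card_le_card hsub
      omega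
    have hadm : Adm G 2 C A B :=
      ih C.card hcard 2 C A B z rfl
        ⟨by norm_num, hsys, hR0.toRz ⟨v, hvC, hvz⟩, hdeg, fun _ => Or.inl hR0⟩
    exact hno (hadm.mono hCD (Subset.refl _) (Subset.refl _))

end Pool.Agent.Lib.MP_f599e5_co
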