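import Pool.Agent.Lib.MP_f599e5_co.A1

set_option autoImplicit false
set_option linter.unusedSectionVars false

/-!
# A4a: `m ≥ 3`, facts F1 and F2 (section 1.3 of the notes)

`Ctx.nbD`: `ds ≤ (nb G v D).card + 2`.
`Ctx.card3`: a vertex `v ≠ z` (`h.ne`) has `(nb G v D).card ≥ 2`, and `v ∉ nb G v D`.
`Ctx.adjAB`: `r0.r1` for `C = D`.
`Ctx.conn`: otherwise let `C` be the component of `D` containing a vertex `≠ z` (`h.ne`), `C ≠ D`, so `C.card < D.card`.  System `(C;A,B)`, exceptional vertex
`z`: `R0` since `bd G D C' = bd G C C'` for `C' ⊆ C`; the degrees are unchanged.  `h.ih` gives `Adm G m C A B`, `Adm.mono`, contradiction.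

`Ctx.f2`: by symmetry (`h.symm`) it is enough to show `C ~ B`; suppose not.  Then by `r0.r2` (`bd G D C ⊆ {v}`) `C ~ A`.  The system `(C;A,{v})`
satisfies `R0`: (r1) `C` is connected, so a closed nonempty subset is `C` itself; `C ~ A`; `C ~ {v}`: otherwise `bd G D C = ∅` and `r0.r1` says
`C ~ B`, contradiction.  (r2) `C' ⊆ C` nonempty with `(bd G C C').card ≤ 1`, not adjacent to `v` and not to `A`: then `bd G D C' = bd G C C'`
(neighbours of `C` in `D` are in `C` or equal to `v`), so `r0.r2` gives `C' ~ A` or `C' ~ B`, contradiction.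
Degrees: `x ∈ C`: `nb G x D ⊆ nb G x C ∪ nb G x {v}`, `x` not adjacent to `B`: `ds G D A B x ≤ ds G C A {v} x`.
`C.card < D.card` (`v ∉ C`).  `ih`: `Adm G m C A {v}` (`e2` by `Or.inl`).  Path from `v` to `B` outside `C`: `D` is connected (`Ctx.conn`) and contains a vertex
`u` adjacent to `B`, `u ∉ C`; `D \ C` is connected (`Conn.sdiff`), so there is a path `v .. u` in `D \ C`.  Glue with `adm_glue` (`p = 1`):
`Adm G m D A B`, contradiction.
-/

namespace Pool.Agent.Lib.MP_f599e5_co

open Finset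

variable {V : Type} [DecidableEq V] {G : SimpleGraph V}

private theorem a4a_bd_self {D : Finset V} : bd G D D = ∅ := by
  simp [bd]

/-- neighbours of a closed set are in the set -/
private theorem a4a_closed {D C : Finset V} (hb : bd G D C = ∅) {v x : V} (hv : v ∈ C) (hx : x ∈ D)
    (ha : G.Adj v x) : x ∈ C := by
  by_contra h
  have h1 : x ∈ bd G D C := mem_bd.2 ⟨hx, h, v, hv, ha⟩
  rw [hb] at h1
  exact notMem_empty _ h1

private theorem a4a_conn {m : ℕ} {D A B : Finset V} {z : V} (h : Ctx G m D A B z) : Conn G D := by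
  obtain ⟨v, hv, hvz⟩ := h.ne
  obtain ⟨C, hvC, hCD, hCb, hCc⟩ := exists_comp (G := G) hv
  by_cases hCeq : C = D
  · rw [← hCeq]
    exact hCc
  · exfalso
    have hcard : C.card < D.card := card_lt_card (hCD.ssubset_of_ne hCeq)
    have hbd : ∀ C' ⊆ C, bd G D C' = bd G C C' := fun C' hC' =>
      bd_eq_of hC' hCD (fun y hy x hx ha => a4a_closed hCb (hC' hy) hx ha)
    have hr0 : R0 G C A B := by
      refine ⟨⟨v, hvC⟩, fun C' hC' hne hb => ?_, fun C' hC' hne hb => ?_⟩
      · exact h.r0.r1 C' (hC'.trans hCD) hne (by rw [hbd C' hC', hb])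
      · exact h.r0.r2 C' (hC'.trans hCD) hne (by rw [hbd C' hC']; exact hb)
    have hgood : Good G m C A B z := by
      refine ⟨by have := h.m3; omega, ?_, hr0.toRz ⟨v, hvC, hvz⟩, ?_, fun h2 => ?_⟩
      · exact ⟨Finset.disjoint_of_subset_left hCD h.sys.dA,
          Finset.disjoint_of_subset_left hCD h.sys.dB, h.sys.AB⟩
      · intro x hx hxz
        have h1 := h.deg x (hCD hx) hxz
        have h2 : (nb G x D).card ≤ (nb G x C).card := by
          refine card_le_card (fun y hy => ?_)
          rw [mem_nb] at hy ⊢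
          exact ⟨a4a_closed hCb hx hy.1 hy.2, hy.2⟩
        unfold ds at h1 ⊢
        omega
      · have := h.m3
        omega
    exact h.no ((h.ih _ hcard m C A B z rfl hgood).mono hCD (Subset.refl _) (Subset.refl _))

private theorem a4a_f2B {m : ℕ} {D A B : Finset V} {z : V} (h : Ctx G m D A B z) {v : V}
    (hv : v ∈ D) {C : Finset V} (hC : IsComp G (D.erase v) C) (hne : ∃ x ∈ C, x ≠ z) :
    adjS G C B := by
  by_contra hCB
  obtain ⟨hCe, hCb, hCc⟩ := hC
  have hCD : C ⊆ D := hCe.trans (erase_subset _ _)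
  have hvC : v ∉ C := fun h1 => (mem_erase.1 (hCe h1)).1 rfl
  have hCne : C.Nonempty := hCc.1
  -- neighbours of `C` in `D` are in `C` or equal to `v`
  have hnb : ∀ y ∈ C, ∀ x ∈ D, G.Adj y x → x ∈ C ∨ x = v := by
    intro y hy x hx ha
    by_cases hxv : x = v
    · exact Or.inr hxv
    · exact Or.inl (a4a_closed hCb hy (mem_erase.2 ⟨hxv, hx⟩) ha)
  have hbv : bd G D C ⊆ {v} := by
    intro x hx
    rw [mem_bd] at hx
    obtain ⟨hxD, hxC, y, hy, ha⟩ := hx
    rcases hnb y hy x hxD ha with h1 | h1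
    · exact absurd h1 hxC
    · rw [h1]
      exact mem_singleton_self v
  have hbcard : (bd G D C).card ≤ 1 := (card_le_card hbv).trans (by simp)
  have hCA : adjS G C A := (h.r0.r2 C hCD hCne hbcard).resolve_right hCB
  have hCv : adjS G C {v} := by
    by_contra hcon
    have h1 : bd G D C = ∅ := by
      rw [eq_empty_iff_forall_notMem]
      intro x hx
      have h2 := hbv hx
      rw [mem_singleton] at h2
      subst h2
      rw [mem_bd] at hx
      obtain ⟨-, -, y, hy, ha⟩ := hx
      exact hcon ⟨y, hy, x, mem_singleton_self x, ha⟩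
    exact hCB (h.r0.r1 C hCD hCne h1).2
  have hr0 : R0 G C A {v} := by
    refine ⟨hCne, fun C' hC' hne' hb => ?_, fun C' hC' hne' hb => ?_⟩
    · have h1 : C' = C := hCc.2 C' hC' hne' hb
      rw [h1]
      exact ⟨hCA, hCv⟩
    · by_contra hcon
      rw [not_or] at hcon
      have h1 : bd G D C' = bd G C C' := by
        refine bd_eq_of hC' hCD (fun y hy x hx ha => ?_)
        rcases hnb y (hC' hy) x hx ha with h2 | h2
        · exact h2
        · exact absurd ⟨y, hy, v, mem_singleton_self v, h2 ▸ ha⟩ hcon.2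
      rcases h.r0.r2 C' (hC'.trans hCD) hne' (by rw [h1]; exact hb) with h2 | h2
      · exact hcon.1 h2
      · exact hCB (adjS_mono h2 hC' (Subset.refl _))
  have hvA : v ∉ A := fun h1 => Finset.disjoint_left.1 h.sys.dA hv h1
  have hgood : Good G m C A {v} z := by
    refine ⟨by have := h.m3; omega, ?_, hr0.toRz hne, ?_, fun h2 => ?_⟩
    · refine ⟨Finset.disjoint_of_subset_left hCD h.sys.dA, ?_, ?_⟩
      · rw [disjoint_singleton_right]
        exact hvC
      · rw [disjoint_singleton_right]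
        exact hvA
    · intro x hx hxz
      have h1 := h.deg x (hCD hx) hxz
      have h2 : (nb G x D).card ≤ (nb G x C).card + (nb G x {v}).card := by
        refine nb_card_le_add (fun y hy ha => ?_)
        rcases hnb x hx y hy ha with h3 | h3
        · exact Or.inl h3
        · exact Or.inr (mem_singleton.2 h3)
      have h3 : (nb G x B).card = 0 :=
        nb_card_zero (fun ⟨b, hb, ha⟩ => hCB ⟨x, hx, b, hb, ha⟩)
      have h4 : (nb G x {v}).card ≤ 1 := nb_card_le.trans (by simp)
      unfold ds at h1 ⊢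
      omega
    · have := h.m3
      omega
  have hcard : C.card < D.card :=
    card_lt_card ⟨hCD, fun h1 => hvC (h1 hv)⟩
  have hadm : Adm G m C A {v} := h.ih _ hcard m C A {v} z rfl hgood
  -- the path from `v` to `B` outside `C`
  have hDc : Conn G (D \ C) := (a4a_conn h).sdiff hCD hv hvC hbv
  obtain ⟨u, hu, b, hb, hub⟩ := (h.r0.r1 D (Subset.refl _) h.r0.ne a4a_bd_self).2
  have huC : u ∉ C := fun h1 => hCB ⟨u, h1, b, hb, hub⟩
  obtain ⟨n, hn⟩ := hDc.path (mem_sdiff.2 ⟨hv, hvC⟩) (mem_sdiff.2 ⟨hu, huC⟩)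
  have hbD : b ∉ D := fun h1 => Finset.disjoint_left.1 h.sys.dB h1 hb
  have hp2 : PL G (insert b (D \ C)) v b (n + 1) :=
    hn.snoc hub (fun h1 => hbD (mem_sdiff.1 h1).1)
  refine h.no (adm_glue (p := 1) (p0 := n + 1) (e := 1) hadm (by have := h.m3; omega) le_rfl
    (Or.inl rfl) le_rfl ?_)
  intro r1 hr1 r2 hr2 j hj x _ hp1
  rw [mem_singleton] at hr2
  subst hr2
  refine ⟨r1, hr1, b, hb, ?_⟩
  have hj0 : j = 0 := by omega
  have h1 : x + (n + 1 + j * 1) = x + (n + 1) := by omega
  rw [h1]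
  have hr1D : r1 ∉ D := fun h2 => Finset.disjoint_left.1 h.sys.dA h2 hr1
  refine (hp1.trans hp2 (fun y hy1 hy2 => ?_)).mono ?_
  · rw [mem_insert, mem_insert] at hy1
    rw [mem_insert, mem_sdiff] at hy2
    rcases hy1 with h3 | h3 | h3
    · subst h3
      rcases hy2 with h4 | h4
      · subst h4
        exact absurd hb (fun h5 => Finset.disjoint_left.1 h.sys.AB hr1 h5)
      · exact absurd h4.1 hr1D
    · exact h3
    · rcases hy2 with h4 | h4
      · subst h4
        exact absurd (hCD h3) hbD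
      · exact absurd h3 h4.2
  · intro y hy
    rw [mem_union, mem_insert, mem_insert, mem_insert, mem_sdiff] at hy
    rw [mem_insert, mem_insert]
    rcases hy with (h3 | h3 | h3) | h3 | h3
    · exact Or.inl h3
    · rw [h3]
      exact Or.inr (Or.inr hv)
    · exact Or.inr (Or.inr (hCD h3))
    · exact Or.inr (Or.inl h3)
    · exact Or.inr (Or.inr h3.1)

namespace Ctx

variable {m : ℕ} {D A B : Finset V} {z : V}

theorem nbD (h : Ctx G m D A B z) {v : V} (hv : v ∈ D) (hz : v ≠ z) : m + 1 ≤ (nb G v D).card + 2 := by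
  have h1 := h.deg v hv hz
  unfold ds at h1
  omega

theorem card3 (h : Ctx G m D A B z) : 3 ≤ D.card := by
  obtain ⟨v, hv, hvz⟩ := h.ne
  have h1 := h.nbD hv hvz
  have h2 := h.m3
  have h3 : v ∉ nb G v D := fun h4 => G.loopless.irrefl v (mem_nb.1 h4).2
  have h4 : insert v (nb G v D) ⊆ D := by
    intro x hx
    rcases mem_insert.1 hx with h5 | h5
    · rw [h5]
      exact hv
    · exact (mem_nb.1 h5).1
  have h5 := card_le_card h4
  rw [card_insert_of_notMem h3] at h5
  omega

theorem adjAB (h : Ctx G m D A B z) : adjS G D A ∧ adjS G D B := by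
  exact h.r0.r1 D (Subset.refl _) h.r0.ne a4a_bd_self

theorem conn (h : Ctx G m D A B z) : Conn G D := by
  exact a4a_conn h

theorem f2 (h : Ctx G m D A B z) {v : V} (hv : v ∈ D) {C : Finset V} (hC : IsComp G (D.erase v) C)
    (hne : ∃ x ∈ C, x ≠ z) : adjS G C A ∧ adjS G C B := by
  refine ⟨?_, a4a_f2B h hv hC hne⟩
  exact a4a_f2B h.symm hv hC hne

end Ctx

end Pool.Agent.Lib.MP_f599e5_co
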