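import Pool.Agent.Lib.MP_f599e5_co.B5

set_option autoImplicit false
set_option linter.unusedSectionVars false

/-!
# B6: two disjoint paths from `{u,v}` to `A` and to `B`

`link_two`.  Proof: Menger (`menger`, `k = 2`) for an auxiliary graph: vertex type `V ⊕ Bool` (or `Option (Option V)`), edges of `G`
inside `E`, a new vertex `a0` adjacent to all `x ∈ E` with a neighbour in `A`, a new vertex `b0` adjacent to all `x ∈ E` with
a neighbour in `B`; the sets are `X = {u,v}`, `Y = {a0,b0}` in `E + a0 + b0`.  Hypothesis of Menger: let `|S| ≤ 1` (`S = ∅`, `{x}` with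
`x ∈ E`, `{a0}` or `{b0}`), suppose no path from `{u,v} \ S` to `{a0,b0} \ S` avoids `S`; let `R` = the set of vertices of
`E \ S` reachable from `{u,v} \ S` in `E \ S`.  Then `bd G E R ⊆ S`; if `S = ∅`, `R` is neither adjacent to `A` nor to `B`, contradiction to
`h0`; if `S = {a0}`, `R ∋ u,v` is not adjacent to `B`, closed, contradiction to `h0`; same for `b0`; if `S = {x}` contradiction to `h1`.
The two disjoint paths obtained do not contain `a0`, `b0` as inner vertices (`P i ∩ Y = {y i}`), replace the last vertex `a0` by a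
neighbour `a ∈ A` of the previous vertex.
-/

namespace Pool.Agent.Lib.MP_f599e5_co

open Finset

variable {V : Type} [DecidableEq V] {G : SimpleGraph V}

theorem b6_end {H : SimpleGraph V} {E C P : Finset V} {c0 x : V}
    (hPE : ∀ z ∈ P, z ≠ c0 → z ∈ E) (hH : ∀ z z', z ∈ E → z' ∈ E → H.Adj z z' → G.Adj z z')
    (hc : ∀ z ∈ E, H.Adj z c0 → ∃ c ∈ C, G.Adj z c) (hx : x ≠ c0) (h : b5_Rc H P x c0) :
    ∃ c ∈ C, b5_Rc G (insert c (P.erase c0)) c x := by
  have hxP : x ∈ P.erase c0 := mem_erase.mpr ⟨hx, b5_left h⟩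
  obtain ⟨w, hw, hadj⟩ : ∃ w, b5_Rc H (P.erase c0) x w ∧ H.Adj w c0 := by
    by_contra hcon
    push Not at hcon
    have h1 : b5_Rc H (P.erase c0) x c0 := by
      refine b5_closed (fun w => b5_Rc H (P.erase c0) x w) ?_ (b5_refl hxP) h
      intro v v' hv hv' hvv
      by_cases hv'c : v' = c0
      · subst hv'c
        exact absurd hvv (hcon v hv)
      · exact b5_trans hv (b5_adj hvv (b5_right hv) (mem_erase.mpr ⟨hv'c, hv'⟩))
    exact (mem_erase.mp (b5_right h1)).1 rfl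
  have hwE : ∀ z ∈ P.erase c0, z ∈ E := fun z hz => hPE z (mem_erase.mp hz).2 (mem_erase.mp hz).1
  have h2 : b5_Rc G (P.erase c0) x w := by
    refine b5_closed (fun w => b5_Rc G (P.erase c0) x w) ?_ (b5_refl hxP) hw
    intro v v' hv hv' hvv
    exact b5_trans hv (b5_adj (hH v v' (hwE v (b5_right hv)) (hwE v' hv') hvv) (b5_right hv) hv')
  obtain ⟨c, hcC, hcw⟩ := hc w (hwE w (b5_right hw)) hadj
  refine ⟨c, hcC, ?_⟩
  have h3 : b5_Rc G (insert c (P.erase c0)) w c :=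
    b5_adj hcw (mem_insert_of_mem (b5_right h2)) (mem_insert_self _ _)
  exact b5_symm (b5_trans (b5_mono h2 (subset_insert _ _)) h3)

/-- the auxiliary graph -/
def b6_H (G : SimpleGraph V) (E NA NB : Finset V) (a0 b0 : V) (hNA : NA ⊆ E) (hNB : NB ⊆ E)
    (ha0 : a0 ∉ E) (hb0 : b0 ∉ E) : SimpleGraph V where
  Adj x y := (x ∈ E ∧ y ∈ E ∧ G.Adj x y) ∨ (x = a0 ∧ y ∈ NA) ∨ (y = a0 ∧ x ∈ NA) ∨
    (x = b0 ∧ y ∈ NB) ∨ (y = b0 ∧ x ∈ NB)
  symm := by
    refine ⟨fun x y h => ?_⟩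
    rcases h with ⟨h1, h2, h3⟩ | h | h | h | h
    · exact Or.inl ⟨h2, h1, h3.symm⟩
    · exact Or.inr (Or.inr (Or.inl h))
    · exact Or.inr (Or.inl h)
    · exact Or.inr (Or.inr (Or.inr (Or.inr h)))
    · exact Or.inr (Or.inr (Or.inr (Or.inl h)))
  loopless := by
    refine ⟨fun x h => ?_⟩
    rcases h with ⟨_, _, h3⟩ | ⟨rfl, h⟩ | ⟨rfl, h⟩ | ⟨rfl, h⟩ | ⟨rfl, h⟩
    · exact G.loopless.irrefl _ h3
    · exact ha0 (hNA h)
    · exact ha0 (hNA h)
    · exact hb0 (hNB h)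
    · exact hb0 (hNB h)

theorem link_two {E A B : Finset V} (hs : Sys E A B) {u v : V} (hu : u ∈ E) (hv : v ∈ E) (huv : u ≠ v)
    (h0 : ∀ S ⊆ E, u ∈ S → v ∈ S → bd G E S = ∅ → adjS G S A ∧ adjS G S B)
    (h1 : ∀ S ⊆ E, ∀ x ∈ E, x ∉ S → (u ∈ S ∨ u = x) → (v ∈ S ∨ v = x) → bd G E S ⊆ {x} →
      adjS G S A ∨ adjS G S B) :
    ∃ a ∈ A, ∃ b ∈ B, ∃ U1 U2 : Finset V, U1 ⊆ E ∧ U2 ⊆ E ∧ Disjoint U1 U2 ∧ ∃ n1 n2,
      (PL G (insert a U1) a u n1 ∧ PL G (insert b U2) v b n2) ∨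
      (PL G (insert a U1) a v n1 ∧ PL G (insert b U2) u b n2) := by
  classical
  have hbdE : bd G E E = ∅ := by
    ext w
    simp [mem_bd]
    tauto
  obtain ⟨⟨_, _, a0, ha0A, _⟩, ⟨_, _, b0, hb0B, _⟩⟩ := h0 E (le_refl E) hu hv hbdE
  have ha0 : a0 ∉ E := fun h => Finset.disjoint_left.mp hs.dA h ha0A
  have hb0 : b0 ∉ E := fun h => Finset.disjoint_left.mp hs.dB h hb0B
  have hab0 : a0 ≠ b0 := fun h => Finset.disjoint_left.mp hs.AB ha0A (h ▸ hb0B)
  let NA : Finset V := E.filter fun x => ∃ a ∈ A, G.Adj x a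
  let NB : Finset V := E.filter fun x => ∃ b ∈ B, G.Adj x b
  have hNA : NA ⊆ E := filter_subset _ _
  have hNB : NB ⊆ E := filter_subset _ _
  obtain ⟨H, hH⟩ : ∃ H : SimpleGraph V, ∀ x y, H.Adj x y ↔ ((x ∈ E ∧ y ∈ E ∧ G.Adj x y) ∨
      (x = a0 ∧ y ∈ NA) ∨ (y = a0 ∧ x ∈ NA) ∨ (x = b0 ∧ y ∈ NB) ∨ (y = b0 ∧ x ∈ NB)) :=
    ⟨b6_H G E NA NB a0 b0 hNA hNB ha0 hb0, fun x y => Iff.rfl⟩
  have hHE : ∀ z z', z ∈ E → z' ∈ E → H.Adj z z' → G.Adj z z' := by
    intro z z' hz hz' h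
    rw [hH] at h
    rcases h with ⟨_, _, h3⟩ | ⟨rfl, h⟩ | ⟨rfl, h⟩ | ⟨rfl, h⟩ | ⟨rfl, h⟩
    · exact h3
    · exact absurd hz ha0
    · exact absurd hz' ha0
    · exact absurd hz hb0
    · exact absurd hz' hb0
  have hHa : ∀ z ∈ E, H.Adj z a0 → ∃ c ∈ A, G.Adj z c := by
    intro z hz h
    rw [hH] at h
    rcases h with ⟨_, h2, _⟩ | ⟨rfl, h⟩ | ⟨_, h⟩ | ⟨rfl, h⟩ | ⟨h2, h⟩
    · exact absurd h2 ha0
    · exact absurd hz ha0
    · exact (mem_filter.mp h).2
    · exact absurd hz hb0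
    · exact absurd h2 hab0
  have hHb : ∀ z ∈ E, H.Adj z b0 → ∃ c ∈ B, G.Adj z c := by
    intro z hz h
    rw [hH] at h
    rcases h with ⟨_, h2, _⟩ | ⟨rfl, h⟩ | ⟨h2, h⟩ | ⟨rfl, h⟩ | ⟨_, h⟩
    · exact absurd h2 hb0
    · exact absurd hz ha0
    · exact absurd h2.symm hab0
    · exact absurd hz hb0
    · exact (mem_filter.mp h).2
  have hXE : ({u, v} : Finset V) ⊆ insert a0 (insert b0 E) := by
    intro z hz
    rw [mem_insert, mem_singleton] at hz
    rcases hz with rfl | rfl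
    · exact mem_insert_of_mem (mem_insert_of_mem hu)
    · exact mem_insert_of_mem (mem_insert_of_mem hv)
  have hYE : ({a0, b0} : Finset V) ⊆ insert a0 (insert b0 E) := by
    intro z hz
    rw [mem_insert, mem_singleton] at hz
    rcases hz with rfl | rfl
    · exact mem_insert_self _ _
    · exact mem_insert_of_mem (mem_insert_self _ _)
  have hM : ∀ S ⊆ insert a0 (insert b0 E), S.card < 2 → ∃ x ∈ ({u, v} : Finset V) \ S,
      ∃ y ∈ ({a0, b0} : Finset V) \ S, ∃ n, PL H (insert a0 (insert b0 E) \ S) x y n := by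
    intro S hS hc
    by_contra hcon
    have hno : ∀ x ∈ ({u, v} : Finset V) \ S, ∀ y ∈ ({a0, b0} : Finset V) \ S,
        ¬ b5_Rc H (insert a0 (insert b0 E) \ S) x y := by
      intro x hx y hy ⟨n, hn⟩
      exact hcon ⟨x, hx, y, hy, n, hn⟩
    let R : Finset V := E.filter fun w => ∃ x ∈ ({u, v} : Finset V) \ S,
      b5_Rc H (insert a0 (insert b0 E) \ S) x w
    have hRE : R ⊆ E := filter_subset _ _
    have hRS : ∀ w ∈ R, w ∉ S := by
      intro w hw
      obtain ⟨x, _, h3⟩ := (mem_filter.mp hw).2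
      exact (mem_sdiff.mp (b5_right h3)).2
    have hEi : ∀ w ∈ E, w ∉ S → w ∈ insert a0 (insert b0 E) \ S := fun w hw hwS =>
      mem_sdiff.mpr ⟨mem_insert_of_mem (mem_insert_of_mem hw), hwS⟩
    have hXR : ∀ w ∈ ({u, v} : Finset V), w ∈ E → w ∉ S → w ∈ R := by
      intro w hw hwE hwS
      exact mem_filter.mpr ⟨hwE, w, mem_sdiff.mpr ⟨hw, hwS⟩, b5_refl (hEi w hwE hwS)⟩
    have hbd : bd G E R ⊆ S := by
      intro w' hw'
      rw [mem_bd] at hw'
      obtain ⟨hw'E, hw'R, w, hw, hadj⟩ := hw'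
      by_contra hw'S
      apply hw'R
      obtain ⟨x, hx, h3⟩ := (mem_filter.mp hw).2
      refine mem_filter.mpr ⟨hw'E, x, hx, b5_trans h3 (b5_adj ?_ (b5_right h3) (hEi w' hw'E hw'S))⟩
      rw [hH]
      exact Or.inl ⟨hRE hw, hw'E, hadj⟩
    have hA : a0 ∉ S → ¬ adjS G R A := by
      rintro haS ⟨w, hw, a, haA, hadj⟩
      obtain ⟨x, hx, h3⟩ := (mem_filter.mp hw).2
      refine hno x hx a0 (mem_sdiff.mpr ⟨mem_insert_self _ _, haS⟩)
        (b5_trans h3 (b5_adj ?_ (b5_right h3) (mem_sdiff.mpr ⟨mem_insert_self _ _, haS⟩)))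
      rw [hH]
      exact Or.inr (Or.inr (Or.inl ⟨rfl, mem_filter.mpr ⟨hRE hw, a, haA, hadj⟩⟩))
    have hB : b0 ∉ S → ¬ adjS G R B := by
      rintro hbS ⟨w, hw, b, hbB, hadj⟩
      obtain ⟨x, hx, h3⟩ := (mem_filter.mp hw).2
      refine hno x hx b0 (mem_sdiff.mpr ⟨by simp, hbS⟩)
        (b5_trans h3 (b5_adj ?_ (b5_right h3) (mem_sdiff.mpr ⟨by simp, hbS⟩)))
      rw [hH]
      exact Or.inr (Or.inr (Or.inr (Or.inr ⟨rfl, mem_filter.mpr ⟨hRE hw, b, hbB, hadj⟩⟩)))
    have huX : u ∈ ({u, v} : Finset V) := by simp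
    have hvX : v ∈ ({u, v} : Finset V) := by simp
    have hcase : S = ∅ ∨ ∃ s, S = {s} := by
      rcases Nat.lt_or_ge S.card 1 with h3 | h3
      · exact Or.inl (card_eq_zero.mp (by omega))
      · exact Or.inr (card_eq_one.mp (by omega))
    rcases hcase with rfl | ⟨s, rfl⟩
    · have h3 := h0 R hRE (hXR u huX hu (by simp)) (hXR v hvX hv (by simp))
        (subset_empty.mp hbd)
      exact hA (by simp) h3.1
    · have hsE' : s ∈ insert a0 (insert b0 E) := hS (mem_singleton_self s)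
      have hbdS : s ∉ E → bd G E R = ∅ := by
        intro hsE
        refine eq_empty_of_forall_notMem fun w hw => ?_
        have h3 := mem_singleton.mp (hbd hw)
        subst h3
        exact hsE (mem_bd.mp hw).1
      have hnot : s ∉ E → ∀ w ∈ E, w ∉ ({s} : Finset V) := by
        intro hsE w hw hws
        rw [mem_singleton] at hws
        subst hws
        exact hsE hw
      rw [mem_insert, mem_insert] at hsE'
      rcases hsE' with rfl | rfl | hsE
      · have h3 := h0 R hRE (hXR u huX hu (hnot ha0 u hu)) (hXR v hvX hv (hnot ha0 v hv))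
          (hbdS ha0)
        exact hB (by simpa using hab0.symm) h3.2
      · have h3 := h0 R hRE (hXR u huX hu (hnot hb0 u hu)) (hXR v hvX hv (hnot hb0 v hv))
          (hbdS hb0)
        exact hA (by simpa using hab0) h3.1
      · have hX : ∀ w ∈ ({u, v} : Finset V), w ∈ E → w ∈ R ∨ w = s := by
          intro w hw hwE
          by_cases hws : w = s
          · exact Or.inr hws
          · exact Or.inl (hXR w hw hwE (by simpa using hws))
        have h3 := h1 R hRE s hsE (fun h => hRS s h (mem_singleton_self s)) (hX u huX hu)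
          (hX v hvX hv) hbd
        rcases h3 with h3 | h3
        · exact hA (by rw [mem_singleton]; rintro rfl; exact ha0 hsE) h3
        · exact hB (by rw [mem_singleton]; rintro rfl; exact hb0 hsE) h3
  obtain ⟨P, x, y, n, hPE, hPd, hP, hPi⟩ := menger 2 (insert a0 (insert b0 E)) {u, v} {a0, b0}
    hXE hYE hM
  have hxE : ∀ i, x i ∈ E := by
    intro i
    have h3 := (hP i).1
    rw [mem_insert, mem_singleton] at h3
    rcases h3 with h3 | h3 <;> rw [h3] <;> assumption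
  have hxP : ∀ i, x i ∈ P i := fun i => b5_left ⟨n i, (hP i).2.2⟩
  have hyP : ∀ i, y i ∈ P i := fun i => b5_right ⟨n i, (hP i).2.2⟩
  have hxne : ∀ i i', i ≠ i' → x i ≠ x i' := fun i i' hii h =>
    Finset.disjoint_left.mp (hPd i i' hii) (hxP i) (h ▸ hxP i')
  have hyne : ∀ i i', i ≠ i' → y i ≠ y i' := fun i i' hii h =>
    Finset.disjoint_left.mp (hPd i i' hii) (hyP i) (h ▸ hyP i')
  have hPy : ∀ i, ∀ z ∈ P i, z ≠ y i → z ∈ E := by
    intro i z hz hzy
    have h3 := hPE i hz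
    rw [mem_insert, mem_insert] at h3
    have h4 : z ∉ ({a0, b0} : Finset V) := by
      intro h5
      have h6 : z ∈ P i ∩ {a0, b0} := mem_inter.mpr ⟨hz, h5⟩
      rw [(hPi i).2] at h6
      exact hzy (mem_singleton.mp h6)
    rw [mem_insert, mem_singleton, not_or] at h4
    rcases h3 with h3 | h3 | h3
    · exact absurd h3 h4.1
    · exact absurd h3 h4.2
    · exact h3
  have key : ∀ i i' : Fin 2, i ≠ i' → y i = a0 → y i' = b0 →
      ∃ a ∈ A, ∃ b ∈ B, ∃ U1 U2 : Finset V, U1 ⊆ E ∧ U2 ⊆ E ∧ Disjoint U1 U2 ∧ ∃ n1 n2,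
      (PL G (insert a U1) a u n1 ∧ PL G (insert b U2) v b n2) ∨
      (PL G (insert a U1) a v n1 ∧ PL G (insert b U2) u b n2) := by
    intro i i' hii hyi hyi'
    obtain ⟨a, haA, n1, hn1⟩ := b6_end (G := G) (H := H) (E := E) (C := A) (P := P i) (c0 := a0)
      (x := x i) (fun z hz hza => hPy i z hz (hyi ▸ hza)) hHE hHa
      (fun h => ha0 (h ▸ hxE i)) ⟨n i, hyi ▸ (hP i).2.2⟩
    obtain ⟨b, hbB, h4⟩ := b6_end (G := G) (H := H) (E := E) (C := B) (P := P i') (c0 := b0)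
      (x := x i') (fun z hz hza => hPy i' z hz (hyi' ▸ hza)) hHE hHb
      (fun h => hb0 (h ▸ hxE i')) ⟨n i', hyi' ▸ (hP i').2.2⟩
    obtain ⟨n2, hn2⟩ := b5_symm h4
    refine ⟨a, haA, b, hbB, (P i).erase a0, (P i').erase b0, ?_, ?_, ?_, n1, n2, ?_⟩
    · intro z hz
      exact hPy i z (mem_erase.mp hz).2 (hyi ▸ (mem_erase.mp hz).1)
    · intro z hz
      exact hPy i' z (mem_erase.mp hz).2 (hyi' ▸ (mem_erase.mp hz).1)
    · exact Finset.disjoint_of_subset_left (erase_subset _ _)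
        (Finset.disjoint_of_subset_right (erase_subset _ _) (hPd i i' hii))
    · have hxi := (hP i).1
      have hxi' := (hP i').1
      rw [mem_insert, mem_singleton] at hxi hxi'
      rcases hxi with h5 | h5 <;> rcases hxi' with h6 | h6
      · exact absurd (h5.trans h6.symm) (hxne i i' hii)
      · rw [h5] at hn1
        rw [h6] at hn2
        exact Or.inl ⟨hn1, hn2⟩
      · rw [h5] at hn1
        rw [h6] at hn2
        exact Or.inr ⟨hn1, hn2⟩
      · exact absurd (h5.trans h6.symm) (hxne i i' hii)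
  have hy0 := (hP 0).2.1
  have hy1 := (hP 1).2.1
  rw [mem_insert, mem_singleton] at hy0 hy1
  rcases hy0 with h5 | h5 <;> rcases hy1 with h6 | h6
  · exact absurd (h5.trans h6.symm) (hyne 0 1 (by decide))
  · exact key 0 1 (by decide) h5 h6
  · exact key 1 0 (by decide) h6 h5
  · exact absurd (h5.trans h6.symm) (hyne 0 1 (by decide))

end Pool.Agent.Lib.MP_f599e5_co
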