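import Pool.Agent.Lib.MP_f599e5_co.A4a
import Pool.Agent.Lib.MP_f599e5_co.B6

set_option autoImplicit false
set_option linter.unusedSectionVars false

/-!
# A4b: `m ≥ 3`, fact F4

Let `C ⊆ D` contain a vertex `x ≠ z`, `C` not adjacent to `A`, `B`.  `r0.r2` gives `(bd G D C).card ≥ 2`.  Suppose it is 2, `bd G D C = {u,v}`, `u ≠ v`.
`C0` := the component of `C` containing `x` (`exists_conn_part`), `bd G D C0 ⊆ bd G D C`, and by `r0.r2` again `bd G D C0 = {u,v}`.
System `(C0;{u},{v})`, exceptional vertex `z`: `R0`: (r1) `C0` connected, adjacent to `u` and `v`.  (r2) `C' ⊆ C0` nonempty, `(bd G C0 C').card ≤ 1`, not adjacent to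
`u`, `v`: then `bd G D C' = bd G C0 C'`, `r0.r2`: `C' ~ A` or `~ B`, contradiction.
Degrees: `y ∈ C0`: neighbours in `D` are in `C0` or `u`, `v`; `y` not adjacent to `A`, `B`: `ds G D A B y = (nb G y D).card ≤ ds G C0 {u} {v} y`.
`h.ih`: `Adm G m C0 {u} {v}`.
`link_two` with `E = D \ C0`, `u`, `v`, `A`, `B`: for `S ⊆ E` put `S1 := S ∪ C0`.  (h0) `u, v ∈ S`, `bd G E S = ∅`: `bd G D S1 = ∅`; `r0.r1`: `S1 ~ A`, `S1 ~ B`, hence `S ~ A`, `S ~ B`.
(h1) `bd G E S ⊆ {x}`, each of `u, v` is in `S` or equal to `x`: `bd G D S1 ⊆ {x}`; `r0.r2` gives `S1 ~ A` or `~ B`, hence for `S`.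
Glue: `a .. u` (in `U1`), `u .. v` through `C0`, `v .. b` (in `U2`), or with `u`, `v` exchanged (reverse the path through `C0`); `adm_glue` with
`p = 1`, `p0 = n1 + n2`.  `Adm G m D A B`, contradiction.
-/

namespace Pool.Agent.Lib.MP_f599e5_co

open Finset

variable {V : Type} [DecidableEq V] {G : SimpleGraph V}

theorem A4b_join {D A B C0 U1 U2 : Finset V} (hs : Sys D A B) (hC0 : C0 ⊆ D) {a b u v : V} {n1 n2 x : ℕ}
    (ha : a ∈ A) (hb : b ∈ B) (hu : u ∈ D \ C0) (hv : v ∈ D \ C0)
    (hU1 : U1 ⊆ D \ C0) (hU2 : U2 ⊆ D \ C0) (hd : Disjoint U1 U2)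
    (h1 : PL G (insert a U1) a u n1) (h2 : PL G (insert b U2) v b n2)
    (hx : PL G (insert u (insert v C0)) u v x) : PL G (insert a (insert b D)) a b (n1 + x + n2) := by
  have haD : a ∉ D := fun h => Finset.disjoint_left.mp hs.dA h ha
  have hbD : b ∉ D := fun h => Finset.disjoint_left.mp hs.dB h hb
  have hab : a ≠ b := fun h => Finset.disjoint_left.mp hs.AB ha (h ▸ hb)
  have huD := (mem_sdiff.mp hu).1
  have hvD := (mem_sdiff.mp hv).1
  have huU1 : u ∈ U1 := by
    have h3 := h1.right_mem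
    rw [mem_insert] at h3
    rcases h3 with h3 | h3
    · exact absurd (h3 ▸ huD) haD
    · exact h3
  have hvU2 : v ∈ U2 := by
    have h3 := h2.left_mem
    rw [mem_insert] at h3
    rcases h3 with h3 | h3
    · exact absurd (h3 ▸ hvD) hbD
    · exact h3
  have hmid : ∀ y ∈ insert u (insert v C0), y ∈ D := by
    intro y hy
    rw [mem_insert, mem_insert] at hy
    rcases hy with rfl | rfl | hy
    · exact huD
    · exact hvD
    · exact hC0 hy
  have h12 : PL G (insert a U1 ∪ insert u (insert v C0)) a v (n1 + x) := by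
    refine h1.trans hx fun y hy hy' => ?_
    rw [mem_insert] at hy
    rcases hy with rfl | hy
    · exact absurd (hmid y hy') haD
    · rw [mem_insert, mem_insert] at hy'
      rcases hy' with h3 | rfl | h3
      · exact h3
      · exact absurd hvU2 (Finset.disjoint_left.mp hd hy)
      · exact absurd h3 (mem_sdiff.mp (hU1 hy)).2
  have h123 : PL G ((insert a U1 ∪ insert u (insert v C0)) ∪ insert b U2) a b (n1 + x + n2) := by
    refine h12.trans h2 fun y hy hy' => ?_
    rw [mem_insert] at hy'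
    rw [mem_union] at hy
    rcases hy' with rfl | hy'
    · rcases hy with hy | hy
      · rw [mem_insert] at hy
        rcases hy with hy | hy
        · exact absurd hy.symm hab
        · exact absurd (mem_sdiff.mp (hU1 hy)).1 hbD
      · exact absurd (hmid y hy) hbD
    · rcases hy with hy | hy
      · rw [mem_insert] at hy
        rcases hy with rfl | hy
        · exact absurd (mem_sdiff.mp (hU2 hy')).1 haD
        · exact absurd hy' (Finset.disjoint_left.mp hd hy)
      · rw [mem_insert, mem_insert] at hy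
        rcases hy with rfl | h3 | h3
        · exact absurd hy' (Finset.disjoint_left.mp hd huU1)
        · exact h3
        · exact absurd h3 (mem_sdiff.mp (hU2 hy')).2
  refine h123.mono fun y hy => ?_
  rw [mem_insert, mem_insert]
  rcases mem_union.mp hy with hy | hy
  · rcases mem_union.mp hy with hy | hy
    · rcases mem_insert.mp hy with hy | hy
      · exact Or.inl hy
      · exact Or.inr (Or.inr (mem_sdiff.mp (hU1 hy)).1)
    · exact Or.inr (Or.inr (hmid y hy))
  · rcases mem_insert.mp hy with hy | hy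
    · exact Or.inr (Or.inl hy)
    · exact Or.inr (Or.inr (mem_sdiff.mp (hU2 hy)).1)

theorem Ctx.f4 {m : ℕ} {D A B : Finset V} {z : V} (h : Ctx G m D A B z) {C : Finset V} (hC : C ⊆ D)
    (hne : ∃ x ∈ C, x ≠ z) (hA : ¬ adjS G C A) (hB : ¬ adjS G C B) : 3 ≤ (bd G D C).card := by
  classical
  by_contra hcon
  obtain ⟨x, hxC, hxz⟩ := hne
  obtain ⟨C0, hx0, hC0, hb0⟩ := exists_conn_part (G := G) hC hxC
  have hC0C : C0 ⊆ C := hC0.1
  have hC0D : C0 ⊆ D := hC0C.trans hC
  have hA0 : ¬ adjS G C0 A := fun h1 => hA (adjS_mono h1 hC0C (le_refl _))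
  have hB0 : ¬ adjS G C0 B := fun h1 => hB (adjS_mono h1 hC0C (le_refl _))
  have hc1 : ¬ (bd G D C0).card ≤ 1 := fun h1 =>
    (h.r0.r2 C0 hC0D ⟨x, hx0⟩ h1).elim hA0 hB0
  have hc2 : (bd G D C0).card ≤ (bd G D C).card := card_le_card hb0
  obtain ⟨u, v, huv, hbd⟩ := card_eq_two.mp (show (bd G D C0).card = 2 by omega)
  have hub : u ∈ bd G D C0 := by rw [hbd]; exact mem_insert_self _ _
  have hvb : v ∈ bd G D C0 := by rw [hbd]; exact mem_insert_of_mem (mem_singleton_self _)
  obtain ⟨huD, huC, xu, hxu, hxua⟩ := mem_bd.mp hub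
  obtain ⟨hvD, hvC, xv, hxv, hxva⟩ := mem_bd.mp hvb
  have hu' : u ∈ D \ C0 := mem_sdiff.mpr ⟨huD, huC⟩
  have hv' : v ∈ D \ C0 := mem_sdiff.mpr ⟨hvD, hvC⟩
  have hnb : ∀ y ∈ C0, ∀ w ∈ D, G.Adj y w → w ∈ C0 ∨ w = u ∨ w = v := by
    intro y hy w hw hyw
    by_cases hwC : w ∈ C0
    · exact Or.inl hwC
    · have h1 : w ∈ bd G D C0 := mem_bd.mpr ⟨hw, hwC, y, hy, hyw⟩
      rw [hbd, mem_insert, mem_singleton] at h1
      exact Or.inr h1
  have hr0 : R0 G C0 {u} {v} := by
    refine ⟨⟨x, hx0⟩, fun C' hC' hne' hb' => ?_, fun C' hC' hne' hb' => ?_⟩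
    · have h1 : C' = C0 := hC0.2.2.2 C' hC' hne' hb'
      rw [h1]
      exact ⟨⟨xu, hxu, u, mem_singleton_self _, hxua⟩, ⟨xv, hxv, v, mem_singleton_self _, hxva⟩⟩
    · by_contra hno
      rw [not_or] at hno
      have h1 : bd G D C' = bd G C0 C' := by
        refine bd_eq_of hC' hC0D fun y hy w hw hyw => ?_
        rcases hnb y (hC' hy) w hw hyw with h2 | h2 | h2
        · exact h2
        · exact absurd ⟨y, hy, w, mem_singleton.mpr h2, hyw⟩ hno.1
        · exact absurd ⟨y, hy, w, mem_singleton.mpr h2, hyw⟩ hno.2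
      rcases h.r0.r2 C' (hC'.trans hC0D) hne' (by rw [h1]; exact hb') with h2 | h2
      · exact hA0 (adjS_mono h2 hC' (le_refl _))
      · exact hB0 (adjS_mono h2 hC' (le_refl _))
  have hsys : Sys C0 {u} {v} := by
    refine ⟨?_, ?_, ?_⟩
    · rw [disjoint_singleton_right]; exact huC
    · rw [disjoint_singleton_right]; exact hvC
    · rw [disjoint_singleton_right, mem_singleton]; exact huv.symm
  have hdeg : ∀ y ∈ C0, y ≠ z → m + 1 ≤ ds G C0 {u} {v} y := by
    intro y hy hyz
    have h1 := h.deg y (hC0D hy) hyz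
    have h2 : (nb G y A).card = 0 := nb_card_zero fun ⟨a, ha, hya⟩ => hA0 ⟨y, hy, a, ha, hya⟩
    have h3 : (nb G y B).card = 0 := nb_card_zero fun ⟨a, ha, hya⟩ => hB0 ⟨y, hy, a, ha, hya⟩
    have h4 : (nb G y D).card ≤ (nb G y C0).card + (nb G y {u, v}).card := by
      refine nb_card_le_add fun w hw hyw => ?_
      rcases hnb y hy w hw hyw with h5 | h5 | h5
      · exact Or.inl h5
      · exact Or.inr (by rw [h5]; exact mem_insert_self _ _)
      · exact Or.inr (by rw [h5]; exact mem_insert_of_mem (mem_singleton_self _))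
    have h5 : (nb G y {u, v}).card ≤ (nb G y {u}).card + (nb G y {v}).card := by
      refine nb_card_le_add fun w hw _ => ?_
      rw [mem_insert, mem_singleton] at hw
      rw [mem_singleton, mem_singleton]
      exact hw
    have h6 : (nb G y {u}).card ≤ 1 := by
      have := nb_card_le (G := G) (v := y) (A := {u})
      rwa [card_singleton] at this
    have h7 : (nb G y {v}).card ≤ 1 := by
      have := nb_card_le (G := G) (v := y) (A := {v})
      rwa [card_singleton] at this
    unfold ds at h1 ⊢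
    omega
  have hlt : C0.card < D.card := card_lt_card ⟨hC0D, fun hs => huC (hs huD)⟩
  have hm3 := h.m3
  have hadm : Adm G m C0 {u} {v} := h.ih C0.card hlt m C0 {u} {v} z rfl
    ⟨by omega, hsys, hr0.toRz ⟨x, hx0, hxz⟩, hdeg, fun _ => Or.inl hr0⟩
  have hsE : Sys (D \ C0) A B :=
    ⟨Finset.disjoint_of_subset_left sdiff_subset h.sys.dA,
      Finset.disjoint_of_subset_left sdiff_subset h.sys.dB, h.sys.AB⟩
  have hback : ∀ S : Finset V, ∀ X : Finset V, ¬ adjS G C0 X → adjS G (S ∪ C0) X → adjS G S X := by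
    rintro S X hX ⟨y, hy, w, hw, hyw⟩
    rcases mem_union.mp hy with h1 | h1
    · exact ⟨y, h1, w, hw, hyw⟩
    · exact absurd ⟨y, h1, w, hw, hyw⟩ hX
  obtain ⟨a, ha, b, hb, U1, U2, hU1, hU2, hU12, n1, n2, hcase⟩ := link_two (G := G) hsE hu' hv' huv
    (by
      intro S hS huS hvS hbS
      have h1 : bd G D (S ∪ C0) = ∅ := by
        refine eq_empty_of_forall_notMem fun w hw => ?_
        obtain ⟨hwD, hwS, y, hy, hyw⟩ := mem_bd.mp hw
        rw [mem_union, not_or] at hwS
        rcases mem_union.mp hy with h2 | h2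
        · have h3 : w ∈ bd G (D \ C0) S := mem_bd.mpr ⟨mem_sdiff.mpr ⟨hwD, hwS.2⟩, hwS.1, y, h2, hyw⟩
          rw [hbS] at h3
          exact absurd h3 (notMem_empty _)
        · rcases hnb y h2 w hwD hyw with h3 | h3 | h3
          · exact hwS.2 h3
          · exact hwS.1 (h3 ▸ huS)
          · exact hwS.1 (h3 ▸ hvS)
      obtain ⟨h2, h3⟩ := h.r0.r1 (S ∪ C0) (union_subset (hS.trans sdiff_subset) hC0D)
        ⟨u, mem_union_left _ huS⟩ h1
      exact ⟨hback S A hA0 h2, hback S B hB0 h3⟩)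
    (by
      intro S hS y hyE hyS huS hvS hbS
      have h1 : bd G D (S ∪ C0) ⊆ {y} := by
        intro w hw
        obtain ⟨hwD, hwS, y', hy', hyw⟩ := mem_bd.mp hw
        rw [mem_union, not_or] at hwS
        rcases mem_union.mp hy' with h2 | h2
        · exact hbS (mem_bd.mpr ⟨mem_sdiff.mpr ⟨hwD, hwS.2⟩, hwS.1, y', h2, hyw⟩)
        · rcases hnb y' h2 w hwD hyw with h3 | h3 | h3
          · exact absurd h3 hwS.2
          · rcases huS with h4 | h4
            · exact absurd (h3 ▸ h4) hwS.1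
            · exact mem_singleton.mpr (h3.trans h4)
          · rcases hvS with h4 | h4
            · exact absurd (h3 ▸ h4) hwS.1
            · exact mem_singleton.mpr (h3.trans h4)
      have h2 : (bd G D (S ∪ C0)).card ≤ 1 := by
        have := card_le_card h1
        rwa [card_singleton] at this
      rcases h.r0.r2 (S ∪ C0) (union_subset (hS.trans sdiff_subset) hC0D)
        ⟨x, mem_union_right _ hx0⟩ h2 with h3 | h3
      · exact Or.inl (hback S A hA0 h3)
      · exact Or.inr (hback S B hB0 h3))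
  refine h.no (adm_glue (p := 1) (p0 := n1 + n2) (e := 1) hadm (by omega) (le_refl _) (Or.inl rfl)
    (le_refl _) ?_)
  intro r1 hr1 r2 hr2 j hj l hl hp
  rw [mem_singleton] at hr1 hr2
  subst hr1
  subst hr2
  have hj0 : j = 0 := by omega
  subst hj0
  refine ⟨a, ha, b, hb, ?_⟩
  rcases hcase with ⟨h1, h2⟩ | ⟨h1, h2⟩
  · have h3 := A4b_join h.sys hC0D ha hb hu' hv' hU1 hU2 hU12 h1 h2 hp
    have h4 : l + (n1 + n2 + 0 * 1) = n1 + l + n2 := by omega
    rw [h4]
    exact h3
  · rw [insert_comm] at hp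
    have h3 := A4b_join h.sys hC0D ha hb hv' hu' hU1 hU2 hU12 h1 h2 hp.symm
    have h4 : l + (n1 + n2 + 0 * 1) = n1 + l + n2 := by omega
    rw [h4]
    exact h3

end Pool.Agent.Lib.MP_f599e5_co
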