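import Pool.Agent.Lib.MP_f599e5_co.A4b

set_option autoImplicit false
set_option linter.unusedSectionVars false

/-!
# A4c: `m ≥ 3`, fact F3 and its consequences

`Ctx.f3`: `D.erase w` is nonempty (`card3`).  Suppose it is not connected.  Then it has a component `C1` not containing `z` (take two different components: they are
disjoint).  By `f2`, `C1 ~ A` and `C1 ~ B`.  `w` is adjacent to `C1` (`D` connected).  System `(insert w C1;A,B)` with exceptional vertex `w`:
`Rz`: (r1) `insert w C1` is connected (`Conn.insert`), so a closed subset is everything.  (r2) `C' ⊆ insert w C1` contains a vertex `≠ w`, `(bd G (insert w C1) C').card ≤ 1`,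
`C'` not adjacent to `A`, `B`; `C'' := C'.erase w ⊆ C1` is nonempty, does not contain `z`.  The neighbours of `C''` in `D` lie in `insert w C1`.  If `w ∉ C'`: `bd G D C'' = bd G (insert w C1) C'`;
if `w ∈ C'`: `bd G D C'' ⊆ bd G (insert w C1) C' ∪ {w}`.  In both cases at most 2 elements, contradiction to `f4`.
Degrees: `v ∈ C1`: `nb G v D ⊆ insert w C1`.  `(insert w C1).card < D.card` (the other component).  `m ≥ 3`.  `h.ih`, `Adm.mono`, contradiction.

`Ctx.f3'`: if `w ∉ D` then `bd G D C = ∅` (it is a subset of `D`), `C = D` by `conn`.  If `w ∈ D`: `C ⊆ D.erase w` is closed in `D.erase w`, so equal to it.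
`Ctx.f3''`: if `bd G D C` has at most one element: choose `w ∈ D \ C` with `bd G D C ⊆ {w}` (if the boundary is empty any `w ∈ D \ C`); by `f3'` `D.erase w ⊆ C`, so `D \ C ⊆ {w}`.
-/

namespace Pool.Agent.Lib.MP_f599e5_co

open Finset

variable {V : Type} [DecidableEq V] {G : SimpleGraph V}

namespace Ctx

variable {m : ℕ} {D A B : Finset V} {z : V}

theorem A4c_aux (h : Ctx G m D A B z) {w : V} (hw : w ∈ D) {C1 : Finset V}
    (hC1 : IsComp G (D.erase w) C1) (hz : z ∉ C1) {y : V} (hy : y ∈ D.erase w) (hyC : y ∉ C1) :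
    False := by
  classical
  obtain ⟨x1, hx1⟩ := hC1.2.2.1
  have hC1D : C1 ⊆ D := hC1.1.trans (erase_subset _ _)
  have hwC1 : w ∉ C1 := fun h1 => (mem_erase.mp (hC1.1 h1)).1 rfl
  have hzne : ∀ v ∈ C1, v ≠ z := fun v hv h1 => hz (h1 ▸ hv)
  obtain ⟨hAC, hBC⟩ := h.f2 hw hC1 ⟨x1, hx1, hzne x1 hx1⟩
  have hnbr : ∀ x ∈ C1, ∀ t ∈ D, G.Adj x t → t ∈ insert w C1 := by
    intro x hx t ht hxt
    by_cases htw : t = w
    · rw [htw]; exact mem_insert_self _ _
    · by_contra htC
      have h1 : t ∈ bd G (D.erase w) C1 :=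
        mem_bd.mpr ⟨mem_erase.mpr ⟨htw, ht⟩, fun h2 => htC (mem_insert_of_mem h2), x, hx, hxt⟩
      rw [hC1.2.1] at h1
      exact absurd h1 (notMem_empty _)
  have hwa : ∃ x ∈ C1, G.Adj x w := by
    obtain ⟨t, ht⟩ := h.conn.bd_nonempty hC1D ⟨x1, hx1⟩ (fun h1 => hwC1 (h1 ▸ hw))
    obtain ⟨htD, htC, x, hx, hxt⟩ := mem_bd.mp ht
    rcases mem_insert.mp (hnbr x hx t htD hxt) with h1 | h1
    · exact ⟨x, hx, h1 ▸ hxt⟩
    · exact absurd h1 htC
  have hconn : Conn G (insert w C1) := hC1.2.2.insert hwa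
  have hED : insert w C1 ⊆ D := insert_subset hw hC1D
  have hrz : Rz G (insert w C1) A B w := by
    refine ⟨⟨x1, mem_insert_of_mem hx1, fun h1 => hwC1 (h1 ▸ hx1)⟩, ?_, ?_⟩
    · rintro C' hC' ⟨v, hv, _⟩ hb
      have h1 : C' = insert w C1 := hconn.2 C' hC' ⟨v, hv⟩ hb
      rw [h1]
      exact ⟨adjS_mono hAC (subset_insert _ _) (le_refl _),
        adjS_mono hBC (subset_insert _ _) (le_refl _)⟩
    · rintro C' hC' ⟨v, hv, hvw⟩ hb
      by_contra hno
      rw [not_or] at hno
      have hsub : C'.erase w ⊆ C1 := by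
        intro t ht
        rcases mem_insert.mp (hC' (mem_erase.mp ht).2) with h1 | h1
        · exact absurd h1 (mem_erase.mp ht).1
        · exact h1
      have hv' : v ∈ C'.erase w := mem_erase.mpr ⟨hvw, hv⟩
      have h3 : 3 ≤ (bd G D (C'.erase w)).card :=
        h.f4 (hsub.trans hC1D) ⟨v, hv', hzne v (hsub hv')⟩
          (fun h1 => hno.1 (adjS_mono h1 (erase_subset _ _) (le_refl _)))
          (fun h1 => hno.2 (adjS_mono h1 (erase_subset _ _) (le_refl _)))
      have h4 : bd G D (C'.erase w) ⊆ insert w (bd G (insert w C1) C') := by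
        intro t ht
        obtain ⟨htD, htC, x, hx, hxt⟩ := mem_bd.mp ht
        by_cases htw : t = w
        · rw [htw]; exact mem_insert_self _ _
        · refine mem_insert_of_mem (mem_bd.mpr ⟨hnbr x (hsub hx) t htD hxt, fun h5 => ?_, x,
            (mem_erase.mp hx).2, hxt⟩)
          exact htC (mem_erase.mpr ⟨htw, h5⟩)
      have h5 := card_le_card h4
      have h6 := card_insert_le w (bd G (insert w C1) C')
      omega
  have hdeg : ∀ v ∈ insert w C1, v ≠ w → m + 1 ≤ ds G (insert w C1) A B v := by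
    intro v hv hvw
    have hvC : v ∈ C1 := by
      rcases mem_insert.mp hv with h1 | h1
      · exact absurd h1 hvw
      · exact h1
    have h1 := h.deg v (hC1D hvC) (hzne v hvC)
    have h2 : (nb G v D).card ≤ (nb G v (insert w C1)).card :=
      card_le_card fun t ht => mem_nb.mpr ⟨hnbr v hvC t (mem_nb.mp ht).1 (mem_nb.mp ht).2,
        (mem_nb.mp ht).2⟩
    unfold ds at h1 ⊢
    omega
  have hlt : (insert w C1).card < D.card := by
    refine card_lt_card ⟨hED, fun hs => ?_⟩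
    rcases mem_insert.mp (hs (mem_erase.mp hy).2) with h1 | h1
    · exact (mem_erase.mp hy).1 h1
    · exact hyC h1
  have hsys : Sys (insert w C1) A B :=
    ⟨Finset.disjoint_of_subset_left hED h.sys.dA, Finset.disjoint_of_subset_left hED h.sys.dB,
      h.sys.AB⟩
  have hm3 := h.m3
  have hadm : Adm G m (insert w C1) A B := h.ih _ hlt m (insert w C1) A B w rfl
    ⟨by omega, hsys, hrz, hdeg, fun h1 => absurd h1 (by omega)⟩
  exact h.no (hadm.mono hED (le_refl _) (le_refl _))

theorem f3 (h : Ctx G m D A B z) {w : V} (hw : w ∈ D) : Conn G (D.erase w) := by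
  have hc3 := h.card3
  have hce : (D.erase w).card = D.card - 1 := card_erase_of_mem hw
  refine ⟨card_pos.mp (by omega), fun C hC hCne hb => ?_⟩
  by_contra hne
  obtain ⟨v1, hv1⟩ := hCne
  obtain ⟨v2, hv2, hv2C⟩ : ∃ v2 ∈ D.erase w, v2 ∉ C := by
    by_contra hcon
    push Not at hcon
    exact hne (Subset.antisymm hC hcon)
  obtain ⟨C1, hv1C1, hC1⟩ := exists_comp (G := G) (hC hv1)
  obtain ⟨C2, hv2C2, hC2⟩ := exists_comp (G := G) hv2
  have h1C : C1 ⊆ C := hC1.subset_of_closed hC hb hv1C1 hv1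
  have h12 : C1 ≠ C2 := fun h1 => hv2C (h1C (h1 ▸ hv2C2))
  have hdis := hC1.disjoint hC2 h12
  by_cases hz : z ∈ C1
  · exact A4c_aux h hw hC2 (Finset.disjoint_left.mp hdis hz) (hC1.1 hv1C1)
      (Finset.disjoint_left.mp hdis hv1C1)
  · exact A4c_aux h hw hC1 hz hv2 (fun h1 => hv2C (h1C h1))

theorem f3' (h : Ctx G m D A B z) {C : Finset V} (hC : C ⊆ D) (hne : C.Nonempty) {w : V} (hw : w ∉ C)
    (hb : bd G D C ⊆ {w}) : D.erase w ⊆ C := by
  by_cases hwD : w ∈ D
  · have h1 : C = D.erase w := by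
      refine (h.f3 hwD).2 C (fun t ht => mem_erase.mpr ⟨fun h1 => hw (h1 ▸ ht), hC ht⟩) hne ?_
      refine eq_empty_of_forall_notMem fun t ht => ?_
      obtain ⟨htD, htC, x, hx, hxt⟩ := mem_bd.mp ht
      have h2 := mem_singleton.mp (hb (mem_bd.mpr ⟨(mem_erase.mp htD).2, htC, x, hx, hxt⟩))
      exact (mem_erase.mp htD).1 h2
    rw [← h1]
  · have h1 : C = D := by
      refine h.conn.2 C hC hne ?_
      refine eq_empty_of_forall_notMem fun t ht => ?_
      have h2 := mem_singleton.mp (hb ht)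
      exact hwD (h2 ▸ (mem_bd.mp ht).1)
    rw [h1]
    exact erase_subset _ _

theorem f3'' (h : Ctx G m D A B z) {C : Finset V} (hC : C ⊆ D) (hne : C.Nonempty) (h2 : 2 ≤ (D \ C).card) :
    2 ≤ (bd G D C).card := by
  by_contra hcon
  obtain ⟨w, hwD, hwC, hbw⟩ : ∃ w, w ∈ D ∧ w ∉ C ∧ bd G D C ⊆ {w} := by
    rcases Nat.eq_zero_or_pos (bd G D C).card with h1 | h1
    · obtain ⟨w, hw⟩ : (D \ C).Nonempty := card_pos.mp (by omega)
      refine ⟨w, (mem_sdiff.mp hw).1, (mem_sdiff.mp hw).2, ?_⟩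
      rw [card_eq_zero.mp h1]
      exact empty_subset _
    · obtain ⟨w, hw⟩ := card_eq_one.mp (show (bd G D C).card = 1 by omega)
      have h2 : w ∈ bd G D C := by rw [hw]; exact mem_singleton_self _
      exact ⟨w, (mem_bd.mp h2).1, (mem_bd.mp h2).2.1, by rw [hw]⟩
  have h1 := h.f3' hC hne hwC hbw
  have h2 : D \ C ⊆ {w} := by
    intro t ht
    by_contra htw
    exact (mem_sdiff.mp ht).2 (h1 (mem_erase.mpr ⟨fun h3 => htw (mem_singleton.mpr h3),
      (mem_sdiff.mp ht).1⟩))
  have h3 := card_le_card h2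
  rw [card_singleton] at h3
  omega

end Ctx

end Pool.Agent.Lib.MP_f599e5_co
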