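import Pool.Agent.Lib.MP_f599e5_co.A4c

set_option autoImplicit false
set_option linter.unusedSectionVars false

/-!
# A4d: `m ≥ 3`, fact F6: at least two vertices `≠ z` of `D` have a neighbour in `A`

`TA` := the vertices of `D` (including `z`) with a neighbour in `A`, nonempty (`adjAB`).  Suppose `(TT G D A z).card ≤ 1`; so `TA = {w}` or `TA = {b,z}` with `b ≠ z`, `z ∈ D`.
(1) `TA = {w}`: system `(D.erase w;{w},B)`, exceptional vertex `z`.  `R0`: (r1) `D.erase w` is connected (`f3`); `~ w` since `D` is connected; `~ B`: otherwise the nonempty set `D.erase w`, with boundary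
`⊆ {w}`, is not adjacent to `A`, `B`: contradiction to `r0.r2`.  (r2) `C' ⊆ D.erase w` nonempty, `(bd G (D.erase w) C').card ≤ 1`, not `~ w`, not `~ B`: `bd G D C' = bd G (D.erase w) C'`; `r0.r2`: `C' ~ A` or `~ B`,
but `TA = {w}`, `w ∉ C'`.  Degrees: `v ∈ D.erase w`, `v ≠ z`: `v` not adjacent to `A`; `(nb G v D).card ≤ (nb G v (D.erase w)).card + (nb G v {w}).card`.  `m ≥ 3`.  `Rz` from `R0.toRz` (`D.card ≥ 3` gives a vertex of
`D.erase w` different from `z`).  `h.ih`: `Adm G m (D.erase w) {w} B`; prefix `a - w`: `adm_glue` with `p = 1`, `p0 = 1`.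
(2) `TA = {b,z}`, `b ≠ z`: system `(D.erase b;{b},B)`, exceptional vertex `z`.  `R0`: (r1) `D.erase b` connected (`f3`), `~ b`, and `~ B` by `f2` (it is the component of `D.erase b`, has a vertex `≠ z` as `D.card ≥ 3`).
(r2) `C' ⊆ D.erase b` nonempty, `(bd G (D.erase b) C').card ≤ 1`, not `~ b`: `bd G D C' = bd G (D.erase b) C'`.  If it is empty: `C' = D` (`conn`), contradiction to `b ∉ C'`.  If it is `{w'}`, `w' ≠ b`: `f3'` gives `b ∈ D.erase w' ⊆ C'`, contradiction.
Degrees: `v ∈ D.erase b`, `v ≠ z`: not adjacent to `A`.  Prefix `a - b`.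
-/

namespace Pool.Agent.Lib.MP_f599e5_co

open Finset

variable {V : Type} [DecidableEq V] {G : SimpleGraph V}

theorem Ctx.f6 {m : ℕ} {D A B : Finset V} {z : V} (h : Ctx G m D A B z) : 2 ≤ (TT G D A z).card := by
  classical
  by_contra hlt
  have hle : (TT G D A z).card ≤ 1 := by omega
  have h3 := h.card3
  -- every `D.erase w` has a vertex different from `z`
  have hex : ∀ w ∈ D, ∃ x ∈ D.erase w, x ≠ z := by
    intro w hw
    have hc : (D.erase w).card = D.card - 1 := card_erase_of_mem hw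
    have h2 : 1 < (D.erase w).card := by omega
    obtain ⟨x, hx, y, hy, hxy⟩ := one_lt_card.1 h2
    by_cases hxz : x = z
    · exact ⟨y, hy, fun hyz => hxy (hxz.trans hyz.symm)⟩
    · exact ⟨x, hx, hxz⟩
  have hself : ∀ w ∈ D, IsComp G (D.erase w) (D.erase w) := fun w hw =>
    ⟨Subset.refl _, by simp [bd], h.f3 hw⟩
  have hf2 : ∀ w ∈ D, adjS G (D.erase w) A ∧ adjS G (D.erase w) B := fun w hw =>
    h.f2 hw (hself w hw) (hex w hw)
  -- the unique element `b` of `TT`
  obtain ⟨b, hb⟩ : ∃ b, b ∈ TT G D A z := by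
    by_contra hno
    push Not at hno
    obtain ⟨x, hx, a, ha, hxa⟩ := h.adjAB.1
    have hxz : x = z := by
      by_contra hne
      exact hno x (mem_TT.2 ⟨hx, hne, a, ha, hxa⟩)
    subst hxz
    obtain ⟨y, hy, a', ha', hya⟩ := (hf2 x hx).1
    exact hno y (mem_TT.2 ⟨(mem_erase.1 hy).2, (mem_erase.1 hy).1, a', ha', hya⟩)
  have huniq : ∀ v ∈ TT G D A z, v = b := fun v hv => card_le_one.1 hle v hv b hb
  obtain ⟨hbD, hbz, a0, ha0, hba0⟩ := mem_TT.1 hb
  have hbB : b ∉ B := fun hbB => (disjoint_left.1 h.sys.dB) hbD hbB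
  have hconn := h.f3 hbD
  have hr0 : R0 G (D.erase b) {b} B := by
    refine ⟨hconn.1, ?_, ?_⟩
    · intro C hC hne hbd
      have hCe : C = D.erase b := hconn.2 C hC hne hbd
      subst hCe
      refine ⟨?_, (hf2 b hbD).2⟩
      obtain ⟨y, hy⟩ := h.conn.bd_nonempty (C := D.erase b) (erase_subset _ _) hne
        (fun he => notMem_erase b D (by rw [he]; exact hbD))
      obtain ⟨hyD, hyn, x, hx, hxy⟩ := mem_bd.1 hy
      have hyb : y = b := by
        by_contra hne'
        exact hyn (mem_erase.2 ⟨hne', hyD⟩)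
      exact ⟨x, hx, b, mem_singleton_self b, hyb ▸ hxy⟩
    · intro C hC hne hbd
      left
      by_contra hnb
      have hnb' : ∀ v ∈ C, ¬ G.Adj v b := fun v hv hvb => hnb ⟨v, hv, b, mem_singleton_self b, hvb⟩
      have heq : bd G D C = bd G (D.erase b) C := bd_eq_of hC (erase_subset _ _) (fun v hv x hx hvx =>
        mem_erase.2 ⟨fun hxb => hnb' v hv (hxb ▸ hvx), hx⟩)
      have hCD : C ⊆ D := hC.trans (erase_subset _ _)
      have hbC : b ∉ C := fun hbC => (notMem_erase b D) (hC hbC)
      obtain ⟨w, hw⟩ := h.conn.bd_nonempty hCD hne (fun he => hbC (by rw [he]; exact hbD))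
      have hwC : w ∉ C := (mem_bd.1 hw).2.1
      have hsub : bd G D C ⊆ {w} := by
        intro y hy
        rw [mem_singleton]
        rw [heq] at hy hw
        exact card_le_one.1 hbd y hy w hw
      have hwb : w ≠ b := by
        rw [heq] at hw
        exact (mem_erase.1 (mem_bd.1 hw).1).1
      exact hbC (h.f3' hCD hne hwC hsub (mem_erase.2 ⟨hwb.symm, hbD⟩))
  have hgood : Good G m (D.erase b) {b} B z := by
    refine ⟨by have := h.m3; omega, ⟨?_, ?_, ?_⟩, hr0.toRz (hex b hbD), ?_, fun _ => Or.inl hr0⟩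
    · rw [disjoint_singleton_right]
      exact notMem_erase b D
    · exact disjoint_of_subset_left (erase_subset _ _) h.sys.dB
    · rw [disjoint_singleton_left]
      exact hbB
    · intro v hv hvz
      obtain ⟨hvb, hvD⟩ := mem_erase.1 hv
      have h1 := h.deg v hvD hvz
      have h2 : (nb G v A).card = 0 := nb_card_zero (fun ⟨a, ha, hva⟩ =>
        hvb (huniq v (mem_TT.2 ⟨hvD, hvz, a, ha, hva⟩)))
      have h4 : (nb G v D).card ≤ (nb G v (D.erase b)).card + (nb G v {b}).card :=
        nb_card_le_add (fun x hx _ => by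
          by_cases hxb : x = b
          · right; rw [hxb]; exact mem_singleton_self b
          · left; exact mem_erase.2 ⟨hxb, hx⟩)
      have h5 : (nb G v {b}).card ≤ 1 := by
        have := nb_card_le (G := G) (v := v) (A := {b})
        rwa [card_singleton] at this
      unfold ds at h1 ⊢
      omega
  have hadm : Adm G m (D.erase b) {b} B := h.ih (D.erase b).card
    (card_lt_card (erase_ssubset hbD)) m (D.erase b) {b} B z rfl hgood
  have hm := h.m3
  refine h.no (adm_glue (p := 1) (p0 := 1) (e := 1) hadm (by omega) le_rfl (Or.inl rfl) le_rfl ?_)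
  intro r1 hr1 r2 hr2 j hj x hx hP
  rw [mem_singleton] at hr1
  subst hr1
  have hj0 : j = 0 := by omega
  subst hj0
  refine ⟨a0, ha0, r2, hr2, ?_⟩
  have haT : a0 ∉ insert r1 (insert r2 (D.erase r1)) := by
    intro hmem
    rcases mem_insert.1 hmem with h1 | h1
    · exact (disjoint_left.1 h.sys.dA) hbD (h1 ▸ ha0)
    · rcases mem_insert.1 h1 with h2 | h2
      · exact (disjoint_left.1 h.sys.AB) ha0 (h2 ▸ hr2)
      · exact (disjoint_left.1 h.sys.dA) (mem_erase.1 h2).2 ha0
  have hfin := PL.cons hba0.symm hP haT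
  refine hfin.mono ?_
  intro y hy
  simp only [mem_insert, mem_erase] at hy ⊢
  rcases hy with h1 | h1 | h1 | h1
  · exact Or.inl h1
  · right; right; rw [h1]; exact hbD
  · exact Or.inr (Or.inl h1)
  · exact Or.inr (Or.inr h1.2)

end Pool.Agent.Lib.MP_f599e5_co
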