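import Pool.Agent.Lib.MP_f599e5_co.A1

set_option autoImplicit false
set_option linter.unusedSectionVars false

/-!
# A4e: the lemmas `alpha` and `mid` (section 1.4 of the notes)

`alpha`.  `D1 ≠ D`: `Rz.adj` gives a vertex of `Y ⊆ D \ D1`; so `D1.card < D.card`.  `Sys D1 Y B`.
Let `n := if p < m then m + 1 - p else 1`; `1 ≤ n`, `m + 1 ≤ n + p`.  `Adm G n D1 Y B`: if `n = 1` by `adm_one`; otherwise `p < m`, `n = m + 1 - p ≥ 2`, and `h.ih` applies: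
`Good G n D1 Y B z'` with `n + 1 = m + 2 - p ≤ ds`; `n = 2` iff `m = p + 1`: `he2`.
Glue (`adm_glue`) with `R1 = Y`, `R2 = B`: `r1 = y ∈ Y`, `r2 = b ∈ B`, the path `y .. b` in `insert y (insert b D1)` and the prefix `a .. y` in `insert a (D \ D1)` meet only in `y`
(`PL.trans`), the union of the vertex sets is contained in `insert a (insert b D)` (`D1 ⊆ D`, `Y ⊆ D`).  Result `Adm G m D A B`, contradiction.

`mid`: the same with `Link`: `a .. y1` in `insert a U1`, `y1 .. y2` in `insert y1 (insert y2 D2)`, `y2 .. b` in `insert b U2`, `U1`, `U2` disjoint subsets of `D \ D2`.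
-/

namespace Pool.Agent.Lib.MP_f599e5_co

open Finset

variable {V : Type} [DecidableEq V] {G : SimpleGraph V}

namespace Ctx

variable {m : ℕ} {D A B : Finset V} {z : V}

/-- the inner system is handled by the induction hypothesis -/
theorem A4e_inner (h : Ctx G m D A B z) {D1 Y1 Y2 : Finset V} {z' : V} {p : ℕ} (hD1 : D1 ⊂ D)
    (hsys : Sys D1 Y1 Y2) (hz : Rz G D1 Y1 Y2 z')
    (hdeg : ∀ v ∈ D1, v ≠ z' → m + 2 ≤ ds G D1 Y1 Y2 v + p)
    (he2 : m = p + 1 → R0 G D1 Y1 Y2 ∨ 2 ≤ (D1.erase z').card) :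
    ∃ n, 1 ≤ n ∧ m + 1 ≤ n + p ∧ Adm G n D1 Y1 Y2 := by
  have hm := h.m3
  by_cases hpm : p < m
  · refine ⟨m + 1 - p, by omega, by omega, ?_⟩
    refine h.ih D1.card (card_lt_card hD1) (m + 1 - p) D1 Y1 Y2 z' rfl ⟨by omega, hsys, hz, ?_, ?_⟩
    · intro v hv hvz
      have := hdeg v hv hvz
      omega
    · intro h2
      exact he2 (by omega)
  · exact ⟨1, le_refl _, by omega, adm_one hsys hz⟩

theorem alpha (h : Ctx G m D A B z) {D1 Y : Finset V} {z' : V} {p p0 e : ℕ} (hD1 : D1 ⊆ D)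
    (hY : Y ⊆ D \ D1) (hz : Rz G D1 Y B z') (hp : 1 ≤ p) (he : e = 1 ∨ e = 2)
    (hpre : ∀ y ∈ Y, ∀ j < p, Pre G (D \ D1) A y (p0 + j * e))
    (hdeg : ∀ v ∈ D1, v ≠ z' → m + 2 ≤ ds G D1 Y B v + p)
    (he2 : m = p + 1 → R0 G D1 Y B ∨ 2 ≤ (D1.erase z').card) : False := by
  obtain ⟨x0, hx0, y0, hy0, -⟩ := hz.adj.1
  have hne : D1 ⊂ D := by
    refine (ssubset_iff_of_subset hD1).2 ⟨y0, (mem_sdiff.1 (hY hy0)).1, (mem_sdiff.1 (hY hy0)).2⟩
  have hsys : Sys D1 Y B := by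
    refine ⟨?_, ?_, ?_⟩
    · rw [disjoint_left]
      intro x hx hxY
      exact (mem_sdiff.1 (hY hxY)).2 hx
    · exact disjoint_of_subset_left hD1 h.sys.dB
    · exact disjoint_of_subset_left (fun x hx => (mem_sdiff.1 (hY hx)).1) h.sys.dB
  obtain ⟨n, hn, hnp, hadm⟩ := A4e_inner h hne hsys hz hdeg he2
  refine h.no (adm_glue (p0 := p0) hadm hn hp he hnp ?_)
  intro y hy b hb j hj x _ hx
  obtain ⟨a, ha, hpa⟩ := hpre y hy j hj
  have hAB := disjoint_left.1 h.sys.AB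
  have hDA := disjoint_left.1 h.sys.dA
  have hDB := disjoint_left.1 h.sys.dB
  refine ⟨a, ha, b, hb, ?_⟩
  have ht := PL.trans hpa hx (by
    intro w hw1 hw2
    rw [mem_insert, mem_sdiff] at hw1
    rw [mem_insert, mem_insert] at hw2
    rcases hw2 with hw2 | hw2 | hw2
    · exact hw2
    · rcases hw1 with hw1 | hw1
      · exact absurd (hw2 ▸ hb) (hAB (hw1 ▸ ha))
      · exact absurd (hw2 ▸ hb) (hDB hw1.1)
    · rcases hw1 with hw1 | hw1
      · exact absurd (hw1 ▸ ha) (hDA (hD1 hw2))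
      · exact absurd hw2 hw1.2)
  rw [show x + (p0 + j * e) = p0 + j * e + x by omega]
  refine ht.mono ?_
  intro w hw
  rw [mem_union, mem_insert, mem_insert, mem_insert, mem_sdiff] at hw
  rw [mem_insert, mem_insert]
  rcases hw with (hw | hw) | (hw | hw | hw)
  · exact Or.inl hw
  · exact Or.inr (Or.inr hw.1)
  · exact Or.inr (Or.inr (hw ▸ (mem_sdiff.1 (hY hy)).1))
  · exact Or.inr (Or.inl hw)
  · exact Or.inr (Or.inr (hD1 hw))

theorem mid (h : Ctx G m D A B z) {D2 Y1 Y2 : Finset V} {z' : V} {p p0 e : ℕ} (hD2 : D2 ⊆ D)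
    (hY1 : Y1 ⊆ D \ D2) (hY2 : Y2 ⊆ D \ D2) (hd : Disjoint Y1 Y2) (hz : Rz G D2 Y1 Y2 z')
    (hp : 1 ≤ p) (he : e = 1 ∨ e = 2)
    (hlink : ∀ y1 ∈ Y1, ∀ y2 ∈ Y2, ∀ j < p, Link G (D \ D2) A B y1 y2 (p0 + j * e))
    (hdeg : ∀ v ∈ D2, v ≠ z' → m + 2 ≤ ds G D2 Y1 Y2 v + p)
    (he2 : m = p + 1 → R0 G D2 Y1 Y2 ∨ 2 ≤ (D2.erase z').card) : False := by
  obtain ⟨x0, hx0, y0, hy0, -⟩ := hz.adj.1
  have hne : D2 ⊂ D := by
    refine (ssubset_iff_of_subset hD2).2 ⟨y0, (mem_sdiff.1 (hY1 hy0)).1, (mem_sdiff.1 (hY1 hy0)).2⟩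
  have hsys : Sys D2 Y1 Y2 := by
    refine ⟨?_, ?_, hd⟩
    · rw [disjoint_left]
      intro x hx hxY
      exact (mem_sdiff.1 (hY1 hxY)).2 hx
    · rw [disjoint_left]
      intro x hx hxY
      exact (mem_sdiff.1 (hY2 hxY)).2 hx
  obtain ⟨n, hn, hnp, hadm⟩ := A4e_inner h hne hsys hz hdeg he2
  refine h.no (adm_glue (p0 := p0) hadm hn hp he hnp ?_)
  intro y1 hy1 y2 hy2 j hj x _ hx
  obtain ⟨a, ha, b, hb, U1, U2, hU1, hU2, hU, L1, L2, hL, hp1, hp2⟩ := hlink y1 hy1 y2 hy2 j hj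
  have hAB := disjoint_left.1 h.sys.AB
  have hDA := disjoint_left.1 h.sys.dA
  have hDB := disjoint_left.1 h.sys.dB
  have hUU := disjoint_left.1 hU
  have hy1D : y1 ∈ D := (mem_sdiff.1 (hY1 hy1)).1
  have hy2D : y2 ∈ D := (mem_sdiff.1 (hY2 hy2)).1
  have hy1U : y1 ∈ U1 := by
    rcases mem_insert.1 hp1.right_mem with hq | hq
    · exact absurd (hq ▸ ha) (hDA hy1D)
    · exact hq
  have hy2U : y2 ∈ U2 := by
    rcases mem_insert.1 hp2.left_mem with hq | hq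
    · exact absurd (hq ▸ hb) (hDB hy2D)
    · exact hq
  have hU1D : ∀ w ∈ U1, w ∈ D ∧ w ∉ D2 := fun w hw => mem_sdiff.1 (hU1 hw)
  have hU2D : ∀ w ∈ U2, w ∈ D ∧ w ∉ D2 := fun w hw => mem_sdiff.1 (hU2 hw)
  refine ⟨a, ha, b, hb, ?_⟩
  have ht1 := PL.trans hp1 hx (by
    intro w hw1 hw2
    rw [mem_insert] at hw1
    rw [mem_insert, mem_insert] at hw2
    rcases hw2 with hw2 | hw2 | hw2
    · exact hw2
    · rcases hw1 with hw1 | hw1
      · exact absurd (hw1 ▸ ha) (hDA (hw2 ▸ hy2D))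
      · exact absurd (hw2 ▸ hy2U) (hUU hw1)
    · rcases hw1 with hw1 | hw1
      · exact absurd (hw1 ▸ ha) (hDA (hD2 hw2))
      · exact absurd hw2 (hU1D w hw1).2)
  have ht2 := PL.trans ht1 hp2 (by
    intro w hw1 hw2
    rw [mem_union, mem_insert, mem_insert, mem_insert] at hw1
    rw [mem_insert] at hw2
    rcases hw2 with hw2 | hw2
    · rcases hw1 with (hw1 | hw1) | (hw1 | hw1 | hw1)
      · exact absurd (hw2 ▸ hb) (hAB (hw1 ▸ ha))
      · exact absurd (hw2 ▸ hb) (hDB (hU1D w hw1).1)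
      · exact absurd (hw2 ▸ hb) (hDB (hw1 ▸ hy1D))
      · exact hw1
      · exact absurd (hw2 ▸ hb) (hDB (hD2 hw1))
    · rcases hw1 with (hw1 | hw1) | (hw1 | hw1 | hw1)
      · exact absurd (hw1 ▸ ha) (hDA (hU2D w hw2).1)
      · exact absurd hw2 (hUU hw1)
      · exact absurd hw2 (hUU (hw1 ▸ hy1U))
      · exact hw1
      · exact absurd hw1 (hU2D w hw2).2)
  rw [show x + (p0 + j * e) = L1 + x + L2 by omega]
  refine ht2.mono ?_
  intro w hw
  rw [mem_union, mem_union, mem_insert, mem_insert, mem_insert, mem_insert] at hw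
  rw [mem_insert, mem_insert]
  rcases hw with ((hw | hw) | (hw | hw | hw)) | (hw | hw)
  · exact Or.inl hw
  · exact Or.inr (Or.inr (hU1D w hw).1)
  · exact Or.inr (Or.inr (hw ▸ hy1D))
  · exact Or.inr (Or.inr (hw ▸ hy2D))
  · exact Or.inr (Or.inr (hD2 hw))
  · exact Or.inr (Or.inl hw)
  · exact Or.inr (Or.inr (hU2D w hw).1)

end Ctx

end Pool.Agent.Lib.MP_f599e5_co
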