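import Pool.Agent.Lib.MP_f599e5_co.A4c

set_option autoImplicit false
set_option linter.unusedSectionVars false

/-!
# A4f: hanging sets, pendant `z`, the set `Q (+z)`

`hangset` (all sets arbitrary): `Rz G D1 Y B z` fails; (ne) holds; (r1) holds because a nonempty closed subset of the connected set `D1` is `D1`.  So (r2) fails for some `C'` containing `v ≠ z`,
`(bd G D1 C').card ≤ 1`, `C'` not adjacent to `Y`, `B`.  `C' ≠ D1`, so the boundary is nonempty (`Conn.bd_nonempty`), `= {w}`.  `C` := the component of `C'` containing `v`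
(`exists_conn_part`), `bd G D1 C = {w}` again.  `D1 \ C` is connected by `Conn.sdiff`, it is adjacent to `Y` and `B` since `D1` is and `C` is not.

`pend`: `Rz` holds, `R0` fails; (ne) and (r1) hold as before, so (r2) of `R0` fails for some nonempty `C'`; `C'` contains no vertex `≠ z` (`Rz.r2`), so `C' = {z}`.  `bd G D1 {z}` has at most one element, and
it is not empty (`D1 ≠ {z}` connected).

`qset`: `D2 := insert z Q` if `z ∈ D` and `z` is adjacent to `Q`, else `D2 := Q`.  `D2` is connected.  For the last statement (`Rz G D2 Y1 Y2 z`): (r1) as `D2` is connected.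
(r2): `C' ⊆ D2` contains a vertex `≠ z`, `(bd G D2 C').card ≤ 1`, `C'` not adjacent to `Y1`, `Y2`.  `C'' := C'.erase z ⊆ Q` is nonempty, not adjacent to `A`, `B`.  Its neighbours in `D` are in `Q ∪ {z} ∪ W`, and
those in `W` would be in `Y1 ∪ Y2`; so `bd G D C'' ⊆ bd G D2 C' ∪ {z}` has at most 2 elements: contradiction to `f4`.
-/

namespace Pool.Agent.Lib.MP_f599e5_co

open Finset

variable {V : Type} [DecidableEq V] {G : SimpleGraph V}

/-- `C` is a connected subset of `D1`, attached to the rest of `D1` at the single vertex `w`, not adjacent to the roots `Y`, `B` -/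
structure Hang (G : SimpleGraph V) (D1 Y B : Finset V) (z : V) (C : Finset V) (w : V) : Prop where
  sub : C ⊆ D1
  conn : Conn G C
  ne : ∃ v ∈ C, v ≠ z
  wD : w ∈ D1
  wC : w ∉ C
  bd : bd G D1 C = {w}
  nY : ¬ adjS G C Y
  nB : ¬ adjS G C B
  rconn : Conn G (D1 \ C)
  rY : adjS G (D1 \ C) Y
  rB : adjS G (D1 \ C) B

theorem A4f_adjS_mem {X Y : Finset V} {x y : V} (hx : x ∈ X) (hy : y ∈ Y) (h : G.Adj x y) :
    adjS G X Y := ⟨x, hx, y, hy, h⟩

/-- a proper nonempty part of a connected set with at most one boundary vertex has exactly one -/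
theorem A4f_bd_one {D1 C : Finset V} (hc : Conn G D1) (hC : C ⊆ D1) (hne : C.Nonempty) (hp : C ≠ D1)
    (h1 : (bd G D1 C).card ≤ 1) : ∃ w, bd G D1 C = {w} := by
  have h2 := card_pos.2 (hc.bd_nonempty hC hne hp)
  exact card_eq_one.1 (by omega)

theorem A4f_rest {D1 C Y : Finset V} (hY : adjS G D1 Y) (hC : ¬ adjS G C Y) : adjS G (D1 \ C) Y := by
  obtain ⟨x, hx, y, hy, ha⟩ := hY
  refine ⟨x, mem_sdiff.2 ⟨hx, fun hxC => hC ⟨x, hxC, y, hy, ha⟩⟩, y, hy, ha⟩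

theorem hangset {D1 Y B : Finset V} {z : V} (hc : Conn G D1) (hY : adjS G D1 Y) (hB : adjS G D1 B)
    (hne : ∃ v ∈ D1, v ≠ z) (hR : ¬ Rz G D1 Y B z) :
    ∃ (C : Finset V) (w : V), Hang G D1 Y B z C w := by
  have hr1 : ∀ C ⊆ D1, (∃ v ∈ C, v ≠ z) → bd G D1 C = ∅ → adjS G C Y ∧ adjS G C B := by
    rintro C hC ⟨v, hv, _⟩ hb
    rw [hc.2 C hC ⟨v, hv⟩ hb]
    exact ⟨hY, hB⟩
  have hr2 : ¬ ∀ C ⊆ D1, (∃ v ∈ C, v ≠ z) → (bd G D1 C).card ≤ 1 → adjS G C Y ∨ adjS G C B :=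
    fun h => hR ⟨hne, hr1, h⟩
  simp only [not_forall] at hr2
  obtain ⟨C', hC', ⟨v, hv, hvz⟩, hcard, hnot⟩ := hr2
  rw [not_or] at hnot
  obtain ⟨C, hvC, hcomp, hbd⟩ := exists_conn_part (G := G) hC' hv
  have hCC' : C ⊆ C' := hcomp.1
  have hCD : C ⊆ D1 := hCC'.trans hC'
  have hnY : ¬ adjS G C Y := fun h => hnot.1 (adjS_mono h hCC' (Subset.refl _))
  have hnB : ¬ adjS G C B := fun h => hnot.2 (adjS_mono h hCC' (Subset.refl _))
  have hCne : C ≠ D1 := by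
    rintro rfl
    exact hnY hY
  obtain ⟨w, hw⟩ := A4f_bd_one hc hCD ⟨v, hvC⟩ hCne (le_trans (card_le_card hbd) hcard)
  have hwb : w ∈ bd G D1 C := by
    rw [hw]
    exact mem_singleton_self w
  obtain ⟨hwD, hwC, _⟩ := mem_bd.1 hwb
  exact ⟨C, w, hCD, hcomp.2.2, ⟨v, hvC, hvz⟩, hwD, hwC, hw, hnY, hnB,
    hc.sdiff hCD hwD hwC (by rw [hw]), A4f_rest hY hnY, A4f_rest hB hnB⟩

theorem pend {D1 Y B : Finset V} {z : V} (hc : Conn G D1) (hY : adjS G D1 Y) (hB : adjS G D1 B)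
    (hz : Rz G D1 Y B z) (h0 : ¬ R0 G D1 Y B) :
    z ∈ D1 ∧ (∃ w ∈ D1, w ≠ z ∧ bd G D1 {z} = {w}) ∧ ¬ adjS G {z} Y ∧ ¬ adjS G {z} B := by
  have hne : D1.Nonempty := by
    obtain ⟨v, hv, _⟩ := hz.ne
    exact ⟨v, hv⟩
  have hr1 : ∀ C ⊆ D1, C.Nonempty → bd G D1 C = ∅ → adjS G C Y ∧ adjS G C B := by
    intro C hC hCne hb
    rw [hc.2 C hC hCne hb]
    exact ⟨hY, hB⟩
  have hr2 : ¬ ∀ C ⊆ D1, C.Nonempty → (bd G D1 C).card ≤ 1 → adjS G C Y ∨ adjS G C B :=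
    fun h => h0 ⟨hne, hr1, h⟩
  simp only [not_forall] at hr2
  obtain ⟨C', hC', hC'ne, hcard, hnot⟩ := hr2
  have hall : ∀ v ∈ C', v = z := by
    intro v hv
    by_contra hvz
    exact hnot (hz.r2 C' hC' ⟨v, hv, hvz⟩ hcard)
  have hCz : C' = {z} := by
    obtain ⟨v, hv⟩ := hC'ne
    have h1 := hall v hv
    subst h1
    exact Finset.eq_singleton_iff_unique_mem.2 ⟨hv, hall⟩
  subst hCz
  rw [not_or] at hnot
  have hzD : z ∈ D1 := hC' (mem_singleton_self z)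
  have hp : ({z} : Finset V) ≠ D1 := by
    intro h1
    obtain ⟨v, hv, hvz⟩ := hz.ne
    rw [← h1, mem_singleton] at hv
    exact hvz hv
  obtain ⟨w, hw⟩ := A4f_bd_one hc hC' ⟨z, mem_singleton_self z⟩ hp hcard
  have hwb : w ∈ bd G D1 {z} := by
    rw [hw]
    exact mem_singleton_self w
  obtain ⟨hwD, hwC, _⟩ := mem_bd.1 hwb
  rw [mem_singleton] at hwC
  exact ⟨hzD, ⟨w, hwD, hwC, hw⟩, hnot.1, hnot.2⟩

/-- the last statement of `Ctx.qset` -/
theorem A4f_rz {m : ℕ} {D A B : Finset V} {z : V} (h : Ctx G m D A B z) {W Q D2 : Finset V}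
    (hQc : Q.Nonempty) (hQz : ∀ v ∈ Q, v ≠ z) (hQA : ¬ adjS G Q A) (hQB : ¬ adjS G Q B)
    (hQD2 : Q ⊆ D2) (hD2Q : D2 ⊆ insert z Q) (hD2 : D2 ⊆ D) (hconn : Conn G D2)
    (hn : ∀ v ∈ Q, ∀ x ∈ D, G.Adj v x → x ∈ D2 ∨ x ∈ W) {Y1 Y2 : Finset V}
    (hY1 : adjS G Q Y1) (hY2 : adjS G Q Y2)
    (hcov : ∀ x ∈ W, adjS G Q {x} → x ∈ Y1 ∨ x ∈ Y2) : Rz G D2 Y1 Y2 z where
  ne := by
    obtain ⟨v, hv⟩ := hQc
    exact ⟨v, hQD2 hv, hQz v hv⟩
  r1 := by
    rintro C hC ⟨v, hv, _⟩ hb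
    rw [hconn.2 C hC ⟨v, hv⟩ hb]
    exact ⟨adjS_mono hY1 hQD2 (Subset.refl _), adjS_mono hY2 hQD2 (Subset.refl _)⟩
  r2 := by
    rintro C hC ⟨v, hv, hvz⟩ hcard
    by_contra hnot
    rw [not_or] at hnot
    have hsub : C.erase z ⊆ Q := by
      intro x hx
      rw [mem_erase] at hx
      exact mem_of_mem_insert_of_ne (hD2Q (hC hx.2)) hx.1
    have hf := h.f4 (hsub.trans (hQD2.trans hD2)) ⟨v, mem_erase.2 ⟨hvz, hv⟩, hvz⟩
      (fun ha => hQA (adjS_mono ha hsub (Subset.refl _)))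
      (fun ha => hQB (adjS_mono ha hsub (Subset.refl _)))
    have hb : bd G D (C.erase z) ⊆ bd G D2 C ∪ {z} := by
      intro w hw
      obtain ⟨hwD, hwC, x, hx, ha⟩ := mem_bd.1 hw
      have hxC : x ∈ C := mem_of_mem_erase hx
      have hxQ : x ∈ Q := hsub hx
      rw [mem_union, mem_singleton]
      by_cases hwz : w = z
      · exact Or.inr hwz
      rcases hn x hxQ w hwD ha with h1 | h1
      · refine Or.inl (mem_bd.2 ⟨h1, fun h2 => hwC (mem_erase.2 ⟨hwz, h2⟩), x, hxC, ha⟩)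
      · rcases hcov w h1 ⟨x, hxQ, w, mem_singleton_self w, ha⟩ with h2 | h2
        · exact absurd ⟨x, hxC, w, h2, ha⟩ hnot.1
        · exact absurd ⟨x, hxC, w, h2, ha⟩ hnot.2
    have h1 := le_trans (card_le_card hb) (card_union_le _ _)
    rw [card_singleton] at h1
    omega

theorem Ctx.qset {m : ℕ} {D A B : Finset V} {z : V} (h : Ctx G m D A B z) {W Q : Finset V} (hW : W ⊆ D)
    (hzW : z ∉ W) (hQ : IsComp G (D \ insert z W) Q) (hQA : ¬ adjS G Q A) (hQB : ¬ adjS G Q B) :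
    ∃ D2 : Finset V, Q ⊆ D2 ∧ D2 ⊆ insert z Q ∧ D2 ⊆ D ∧ Disjoint D2 W ∧ Conn G D2 ∧
      (∀ v ∈ Q, ∀ x ∈ D, G.Adj v x → x ∈ D2 ∨ x ∈ W) ∧
      (∀ Y1 Y2 : Finset V, Y1 ⊆ W → Y2 ⊆ W → adjS G Q Y1 → adjS G Q Y2 →
        (∀ x ∈ W, adjS G Q {x} → x ∈ Y1 ∨ x ∈ Y2) → Rz G D2 Y1 Y2 z) := by
  have hQW : ∀ v ∈ Q, v ∈ D ∧ v ≠ z ∧ v ∉ W := by
    intro v hv
    have h1 := mem_sdiff.1 (hQ.1 hv)
    rw [mem_insert, not_or] at h1
    exact ⟨h1.1, h1.2.1, h1.2.2⟩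
  have hnb : ∀ v ∈ Q, ∀ x ∈ D, G.Adj v x → x ∈ Q ∨ x ∈ insert z W := fun v hv x hx ha =>
    nbr_of_closed hQ.1 hQ.2.1 hv hx ha
  have hQne : Q.Nonempty := hQ.2.2.1
  by_cases hz : z ∈ D ∧ ∃ v ∈ Q, G.Adj v z
  · have hn : ∀ v ∈ Q, ∀ x ∈ D, G.Adj v x → x ∈ insert z Q ∨ x ∈ W := by
      intro v hv x hx ha
      rcases hnb v hv x hx ha with h1 | h1
      · exact Or.inl (mem_insert_of_mem h1)
      · rcases mem_insert.1 h1 with h2 | h2
        · exact Or.inl (by rw [h2]; exact mem_insert_self z Q)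
        · exact Or.inr h2
    have hsub : insert z Q ⊆ D := by
      intro x hx
      rcases mem_insert.1 hx with h1 | h1
      · rw [h1]; exact hz.1
      · exact (hQW x h1).1
    refine ⟨insert z Q, subset_insert z Q, Subset.refl _, hsub, ?_, hQ.2.2.insert hz.2, hn, ?_⟩
    · rw [Finset.disjoint_left]
      intro x hx hxW
      rcases mem_insert.1 hx with h1 | h1
      · exact hzW (by rw [← h1]; exact hxW)
      · exact (hQW x h1).2.2 hxW
    · intro Y1 Y2 _ _ h1 h2 hcov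
      exact A4f_rz h hQne (fun v hv => (hQW v hv).2.1) hQA hQB (subset_insert z Q) (Subset.refl _) hsub
        (hQ.2.2.insert hz.2) hn h1 h2 hcov
  · have hn : ∀ v ∈ Q, ∀ x ∈ D, G.Adj v x → x ∈ Q ∨ x ∈ W := by
      intro v hv x hx ha
      rcases hnb v hv x hx ha with h1 | h1
      · exact Or.inl h1
      · rcases mem_insert.1 h1 with h2 | h2
        · subst h2
          exact absurd ⟨hx, v, hv, ha⟩ hz
        · exact Or.inr h2
    have hsub : Q ⊆ D := fun x hx => (hQW x hx).1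
    refine ⟨Q, Subset.refl _, subset_insert z Q, hsub, ?_, hQ.2.2, hn, ?_⟩
    · rw [Finset.disjoint_left]
      intro x hx hxW
      exact (hQW x hx).2.2 hxW
    · intro Y1 Y2 _ _ h1 h2 hcov
      exact A4f_rz h hQne (fun v hv => (hQW v hv).2.1) hQA hQB (Subset.refl _) (subset_insert z Q) hsub
        hQ.2.2 hn h1 h2 hcov

end Pool.Agent.Lib.MP_f599e5_co
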