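import Pool.Agent.Lib.MP_f599e5_co.A4d
import Pool.Agent.Lib.MP_f599e5_co.A4e
import Pool.Agent.Lib.MP_f599e5_co.A4f

set_option autoImplicit false
set_option linter.unusedSectionVars false

/-!
# A5: Case 1 of Theorem A+ (an edge inside `TT G D A z`), definitions, prefix lengths, step (1a)  (section 1.5)

`exists_maxclq`: a clique `M ⊆ T` of maximum cardinality (there is one with two elements); maximality: `insert v M` would be a larger clique.
`pre_clq`: `j = 1`: the edge `a y`.  `j ≥ 2`: `u ∈ M`, `u ≠ y` (`M.card ≥ 2`), `clq_path` from `u` to `y` of length `j-1`, then `a - u` (`PL.cons`).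

`case1a`: `T := TT G D A z`, `s = M.card ≥ 2`.  `D1` a component of `D \ M` with `D1 ~ B` and a vertex `≠ z`.
 * `D1 ~ M`: `bd G D D1` is nonempty (`D` connected, `Conn.bd_nonempty`, `M ≠ ∅`) and contained in `M`.
 * `Rz G D1 M B z`: otherwise `hangset` gives `C ⊆ D1`, `w`, `bd G D1 C = {w}`, `C` not `~ M`; neighbours of `C` in `D` are in `D1` or `M`, so `bd G D C = {w}`; `f3'`: `D.erase w ⊆ C`; but `M ∩ C = ∅`,
   `w ∉ M`, `M ≠ ∅`: contradiction.
 * `R0 G D1 M B`: otherwise `pend`: `z ∈ D1`, `bd G D1 {z} = {w}`, `z` not `~ M`, so `bd G D {z} = {w}` and `f3'` gives `D.erase w ⊆ {z}`, contradiction to `M ⊆ D.erase w`, `z ∉ M`.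
 * `alpha` with `Y = M`, `p = s`, `p0 = 1`, `e = 1` (`pre_clq`, `M ⊆ D \ D1`).  Degrees: `v ∈ D1`, `v ≠ z`: `(nb G v D).card ≤ (nb G v D1).card + (nb G v M).card`.  If `v` has a neighbour in `A` then
   `v ∈ T \ M`, so `(nb G v M).card ≤ s - 1` (`nb_card_lt`, maximality).  In all cases `(nb G v M).card + [v~A] ≤ [v~M] + (s-1)`, hence `m + 1 ≤ ds G D A B v ≤ ds G D1 M B v + (s - 1)`.
-/

namespace Pool.Agent.Lib.MP_f599e5_co

open Finset

variable {V : Type} [DecidableEq V] {G : SimpleGraph V}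

/-- `M` is a maximal clique of `T` with at least two elements -/
structure MaxClq (G : SimpleGraph V) (T M : Finset V) : Prop where
  sub : M ⊆ T
  clq : Clq G M
  two : 2 ≤ M.card
  max : ∀ v ∈ T, v ∉ M → ∃ y ∈ M, ¬ G.Adj v y

theorem exists_maxclq {T : Finset V} (h : ∃ t ∈ T, ∃ t' ∈ T, G.Adj t t') : ∃ M, MaxClq G T M := by
  classical
  obtain ⟨t, ht, t', ht', htt⟩ := h
  have hpair : ({t, t'} : Finset V) ∈ T.powerset.filter (fun K => Clq G K) := by
    rw [Finset.mem_filter, Finset.mem_powerset]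
    refine ⟨?_, ?_⟩
    · intro x hx
      rw [Finset.mem_insert, Finset.mem_singleton] at hx
      rcases hx with rfl | rfl
      · exact ht
      · exact ht'
    · intro x hx y hy hxy
      rw [Finset.mem_insert, Finset.mem_singleton] at hx hy
      rcases hx with rfl | rfl
      · rcases hy with rfl | rfl
        · exact absurd rfl hxy
        · exact htt
      · rcases hy with rfl | rfl
        · exact htt.symm
        · exact absurd rfl hxy
  obtain ⟨M, hM, hmax⟩ := Finset.exists_max_image (T.powerset.filter (fun K => Clq G K))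
    Finset.card ⟨_, hpair⟩
  rw [Finset.mem_filter, Finset.mem_powerset] at hM
  have h2 := hmax _ hpair
  rw [Finset.card_pair htt.ne] at h2
  refine ⟨M, hM.1, hM.2, h2, fun v hv hvM => ?_⟩
  by_contra hcon
  have hall : ∀ y ∈ M, G.Adj v y := by
    intro y hy
    by_contra hn
    exact hcon ⟨y, hy, hn⟩
  have hins : insert v M ∈ T.powerset.filter (fun K => Clq G K) := by
    rw [Finset.mem_filter, Finset.mem_powerset]
    refine ⟨Finset.insert_subset hv hM.1, ?_⟩
    intro x hx y hy hxy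
    rw [Finset.mem_insert] at hx hy
    rcases hx with rfl | hx
    · rcases hy with rfl | hy
      · exact absurd rfl hxy
      · exact hall y hy
    · rcases hy with rfl | hy
      · exact (hall x hx).symm
      · exact hM.2 x hx y hy hxy
  have h3 := hmax _ hins
  rw [Finset.card_insert_of_notMem hvM] at h3
  omega

theorem pre_clq {M U A : Finset V} {y : V} {j : ℕ} (hM : Clq G M) (hA : ∀ v ∈ M, ∃ a ∈ A, G.Adj v a)
    (hMA : Disjoint M A) (hU : M ⊆ U) (hy : y ∈ M) (h1 : 1 ≤ j) (h2 : j ≤ M.card) : Pre G U A y j := by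
  rcases Nat.lt_or_ge j 2 with hj | hj
  · have hj1 : j = 1 := by omega
    subst hj1
    obtain ⟨a, ha, hya⟩ := hA y hy
    exact ⟨a, ha, PL.edge hya.symm (Finset.mem_insert_self _ _) (Finset.mem_insert_of_mem (hU hy))⟩
  · obtain ⟨u, hu, huy⟩ := Finset.exists_mem_ne (show 1 < M.card by omega) y
    obtain ⟨a, ha, hua⟩ := hA u hu
    have h3 := clq_path hM hu hy huy (j := j - 1) (by omega) (by omega)
    have h4 := PL.cons hua.symm h3 (fun h => Finset.disjoint_left.1 hMA h ha)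
    have h5 : j - 1 + 1 = j := by omega
    rw [h5] at h4
    exact ⟨a, ha, PL.mono h4 (Finset.insert_subset_insert _ hU)⟩

theorem case1a {m : ℕ} {D A B : Finset V} {z : V} (h : Ctx G m D A B z) {M D1 : Finset V}
    (hM : MaxClq G (TT G D A z) M) (hD1 : IsComp G (D \ M) D1) (hB : adjS G D1 B)
    (hne : ∃ v ∈ D1, v ≠ z) : False := by
  have hD1D : D1 ⊆ D := fun x hx => (Finset.mem_sdiff.1 (hD1.1 hx)).1
  have hD1M : ∀ x ∈ D1, x ∉ M := fun x hx => (Finset.mem_sdiff.1 (hD1.1 hx)).2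
  have hMD : M ⊆ D := fun x hx => (mem_TT.1 (hM.sub hx)).1
  have hzM : z ∉ M := fun hz => (mem_TT.1 (hM.sub hz)).2.1 rfl
  obtain ⟨y0, hy0⟩ : M.Nonempty := Finset.card_pos.1 (by have := hM.two; omega)
  have hD1ne : D1.Nonempty := ⟨hne.choose, hne.choose_spec.1⟩
  -- `D1 ~ M`
  have hMY : adjS G D1 M := by
    have hpr : D1 ≠ D := fun h1 => hD1M y0 (by rw [h1]; exact hMD hy0) hy0
    obtain ⟨w, hw⟩ := h.conn.bd_nonempty hD1D hD1ne hpr
    obtain ⟨hwD, hwD1, x, hx, hxw⟩ := mem_bd.1 hw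
    rcases nbr_of_closed hD1.1 hD1.2.1 hx hwD hxw with h1 | h1
    · exact absurd h1 hwD1
    · exact ⟨x, hx, w, h1, hxw⟩
  have hRz : Rz G D1 M B z := by
    by_contra hcon
    obtain ⟨C, w, hC⟩ := hangset hD1.2.2 hMY hB hne hcon
    have hbd : bd G D C = bd G D1 C := bd_eq_of hC.sub hD1D (fun v hv x hx hvx => by
      rcases nbr_of_closed hD1.1 hD1.2.1 (hC.sub hv) hx hvx with h1 | h1
      · exact h1
      · exact absurd ⟨v, hv, x, h1, hvx⟩ hC.nY)
    have h1 := h.f3' (hC.sub.trans hD1D) hC.conn.1 hC.wC (by rw [hbd, hC.bd])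
    have h2 : y0 ∈ C := h1 (Finset.mem_erase.2 ⟨fun he => hD1M w hC.wD (he ▸ hy0), hMD hy0⟩)
    exact hD1M y0 (hC.sub h2) hy0
  have hR0 : R0 G D1 M B := by
    by_contra hcon
    obtain ⟨hz, ⟨w, hwD1, hwz, hbd1⟩, hzM', hzB⟩ := pend hD1.2.2 hMY hB hRz hcon
    have hbd : bd G D {z} = bd G D1 {z} := bd_eq_of (Finset.singleton_subset_iff.2 hz) hD1D
      (fun v hv x hx hvx => by
        rw [Finset.mem_singleton] at hv
        subst hv
        rcases nbr_of_closed hD1.1 hD1.2.1 hz hx hvx with h1 | h1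
        · exact h1
        · exact absurd ⟨v, Finset.mem_singleton_self v, x, h1, hvx⟩ hzM')
    have h1 := h.f3' (Finset.singleton_subset_iff.2 (hD1D hz)) (Finset.singleton_nonempty z)
      (w := w) (fun hw => hwz (Finset.mem_singleton.1 hw)) (by rw [hbd, hbd1])
    have h2 : y0 ∈ ({z} : Finset V) :=
      h1 (Finset.mem_erase.2 ⟨fun he => hD1M w hwD1 (he ▸ hy0), hMD hy0⟩)
    rw [Finset.mem_singleton] at h2
    exact hzM (h2 ▸ hy0)
  have hMs : M ⊆ D \ D1 := fun x hx => Finset.mem_sdiff.2 ⟨hMD hx, fun h1 => hD1M x h1 hx⟩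
  refine h.alpha (p := M.card) (p0 := 1) (e := 1) hD1D hMs hRz (by have := hM.two; omega)
    (Or.inl rfl) ?_ ?_ (fun _ => Or.inl hR0)
  · intro y hy j hj
    exact pre_clq hM.clq (fun v hv => (mem_TT.1 (hM.sub hv)).2.2)
      (Finset.disjoint_of_subset_left hMD h.sys.dA) hMs hy (by omega) (by omega)
  · intro v hv hvz
    have h1 := h.deg v (hD1D hv) hvz
    have h2 : (nb G v D).card ≤ (nb G v D1).card + (nb G v M).card :=
      nb_card_le_add (fun x hx hvx => nbr_of_closed hD1.1 hD1.2.1 hv hx hvx)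
    have h3 := hM.two
    have h4 : (nb G v M).card ≤ M.card := nb_card_le
    unfold ds at h1 ⊢
    by_cases hvA : ∃ a ∈ A, G.Adj v a
    · obtain ⟨y, hy, hvy⟩ := hM.max v (mem_TT.2 ⟨hD1D hv, hvz, hvA⟩) (hD1M v hv)
      have h5 := nb_card_lt hy hvy
      omega
    · have h5 := nb_card_zero hvA
      omega

/-- consequence of (1a): `T_B°` is contained in every maximal clique of `T_A°` -/
theorem case1_sub {m : ℕ} {D A B : Finset V} {z : V} (h : Ctx G m D A B z) {M : Finset V}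
    (hM : MaxClq G (TT G D A z) M) : TT G D B z ⊆ M := by
  intro v hv
  by_contra hvM
  obtain ⟨hvD, hvz, b, hb, hvb⟩ := mem_TT.1 hv
  obtain ⟨C, hvC, hC⟩ := exists_comp (G := G) (D := D \ M) (v := v) (mem_sdiff.2 ⟨hvD, hvM⟩)
  exact case1a h hM hC ⟨v, hvC, b, hb, hvb⟩ ⟨v, hvC, hvz⟩

end Pool.Agent.Lib.MP_f599e5_co
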