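import Pool.Agent.Lib.MP_f599e5_co.A5

set_option autoImplicit false
set_option linter.unusedSectionVars false

/-!
# A5b: Case 1, `T_A° = T_B° = K` a clique: `K.card + 1 ≤ m` and `D ⊄ K + z`

`κ = K.card ≥ 2` (`h.f6`).  For `v ∈ K` there are `a ∈ A`, `b ∈ B` adjacent to `v`.
(i) if `m ≤ κ`: for `1 ≤ j ≤ m`: a path of length `j+1` from `A` to `B` with exactly `j` vertices of `K` in its interior (`j = 1`: `a - v - b`; `j ≥ 2`: two different vertices `u,v` of `K`, `clq_path` of
length `j-1`, `a - u .. v - b`).  So `Adm G m D A B` with `d = 1`, `l = 2`: contradiction.  Hence `κ + 1 ≤ m`.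
(ii) if `D \ insert z K` is empty: take `v ∈ K` (`v ≠ z`): `(nb G v D).card ≤ (κ - 1) + [v ~ z]`, so `m + 1 ≤ ds ≤ κ - 1 + [v~z] + 2 ≤ κ + 2`, with (i): `m = κ + 1` and every `v ∈ K` is adjacent to `z`, `z ∈ D`
(if `z ∉ D` or `v` is not adjacent to `z`, then `m + 1 ≤ κ + 1`, contradiction).  So `K' = insert z K` is a clique.  Lengths `j+1`, `1 ≤ j ≤ κ` as in (i); length `κ+2`: `a - u .. v - b` with `u ≠ v ∈ K` and
`clq_path` in `K'` of length `κ` (`K'.card = κ + 1`).  So `Adm G (κ+1) D A B`, contradiction.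
So `D \ insert z K` is nonempty and has a component (`exists_comp`).
-/

namespace Pool.Agent.Lib.MP_f599e5_co

open Finset

variable {V : Type} [DecidableEq V] {G : SimpleGraph V}

theorem A5b_path {D A B S : Finset V} (hs : Sys D A B) (hS : S ⊆ D) {u v a b : V} {n : ℕ}
    (hp : PL G S u v n) (ha : a ∈ A) (hb : b ∈ B) (hua : G.Adj u a) (hvb : G.Adj v b) :
    PL G (insert a (insert b D)) a b (n + 2) := by
  have hbS : b ∉ S := fun h => disjoint_left.1 hs.dB (hS h) hb
  have h1 := PL.snoc hp hvb hbS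
  have haS : a ∉ insert b S := by
    rw [mem_insert]
    rintro (h | h)
    · exact disjoint_left.1 hs.AB ha (h ▸ hb)
    · exact disjoint_left.1 hs.dA (hS h) ha
  have h2 := PL.cons hua.symm h1 haS
  refine h2.mono ?_
  intro x hx
  simp only [mem_insert] at hx ⊢
  rcases hx with h | h | h
  · exact Or.inl h
  · exact Or.inr (Or.inl h)
  · exact Or.inr (Or.inr (hS h))

theorem A5b_len {m : ℕ} {D A B : Finset V} {z : V} (h : Ctx G m D A B z) {K : Finset V}
    (hK : Clq G K) (hKA : ∀ v ∈ K, v ∈ D ∧ v ≠ z ∧ ∃ a ∈ A, G.Adj v a)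
    (hKB : ∀ v ∈ K, ∃ b ∈ B, G.Adj v b) (h2 : 2 ≤ K.card) {j : ℕ} (h1 : 1 ≤ j) (hj : j ≤ K.card) :
    ∃ a ∈ A, ∃ b ∈ B, PL G (insert a (insert b D)) a b (j + 1) := by
  obtain ⟨u, hu, v, hv, huv⟩ := one_lt_card.1 h2
  have hKD : K ⊆ D := fun x hx => (hKA x hx).1
  rcases (show j = 1 ∨ 2 ≤ j by omega) with rfl | hj2
  · obtain ⟨a, ha, hua⟩ := (hKA u hu).2.2
    obtain ⟨b, hb, hub⟩ := hKB u hu
    exact ⟨a, ha, b, hb, A5b_path h.sys hKD (PL.refl hu) ha hb hua hub⟩
  · obtain ⟨a, ha, hua⟩ := (hKA u hu).2.2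
    obtain ⟨b, hb, hvb⟩ := hKB v hv
    have h3 := clq_path hK hu hv huv (j := j - 1) (by omega) (by omega)
    have h4 := A5b_path h.sys hKD h3 ha hb hua hvb
    have h5 : j - 1 + 2 = j + 1 := by omega
    rw [h5] at h4
    exact ⟨a, ha, b, hb, h4⟩

theorem case1_direct {m : ℕ} {D A B : Finset V} {z : V} (h : Ctx G m D A B z) {K : Finset V}
    (hK : Clq G K) (hA : TT G D A z = K) (hB : TT G D B z = K) :
    K.card + 1 ≤ m ∧ ∃ Q, IsComp G (D \ insert z K) Q := by
  have h2 : 2 ≤ K.card := by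
    have := h.f6
    rwa [hA] at this
  have hKA : ∀ v ∈ K, v ∈ D ∧ v ≠ z ∧ ∃ a ∈ A, G.Adj v a := fun v hv => mem_TT.1 (hA ▸ hv)
  have hKB : ∀ v ∈ K, ∃ b ∈ B, G.Adj v b := fun v hv =>
    (mem_TT.1 (show v ∈ TT G D B z from hB ▸ hv)).2.2
  have hKD : K ⊆ D := fun x hx => (hKA x hx).1
  have hzK : z ∉ K := fun hz => (hKA z hz).2.1 rfl
  have hkm : K.card + 1 ≤ m := by
    by_contra hcon
    apply h.no
    refine ⟨1, Or.inl rfl, 2, le_refl _, fun i hi => ?_⟩
    obtain ⟨a, ha, b, hb, hp⟩ := A5b_len h hK hKA hKB h2 (j := i + 1) (by omega) (by omega)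
    refine ⟨a, ha, b, hb, ?_⟩
    have e : 2 + i * 1 = i + 1 + 1 := by omega
    rw [e]
    exact hp
  refine ⟨hkm, ?_⟩
  by_cases hne : (D \ insert z K).Nonempty
  · obtain ⟨v, hv⟩ := hne
    obtain ⟨Q, -, hQ⟩ := exists_comp (G := G) hv
    exact ⟨Q, hQ⟩
  · exfalso
    rw [not_nonempty_iff_eq_empty, sdiff_eq_empty_iff_subset] at hne
    have hdeg : ∀ v ∈ K, m ≤ (nb G v D).card + 1 := by
      intro v hv
      have h3 := h.deg v (hKD hv) (hKA v hv).2.1
      have h4 := min_nb_le (G := G) (v := v) (A := A)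
      have h5 := min_nb_le (G := G) (v := v) (A := B)
      unfold ds at h3
      omega
    have hadj : ∀ v ∈ K, z ∈ D ∧ G.Adj z v := by
      intro v hv
      by_contra hcon
      have h3 : nb G v D ⊆ K.erase v := by
        intro x hx
        rw [mem_nb] at hx
        rw [mem_erase]
        refine ⟨fun e => G.loopless.irrefl _ (e ▸ hx.2), ?_⟩
        rcases mem_insert.1 (hne hx.1) with e | e
        · exfalso
          apply hcon
          subst e
          exact ⟨hx.1, hx.2.symm⟩
        · exact e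
      have h4 := card_le_card h3
      rw [card_erase_of_mem hv] at h4
      have := hdeg v hv
      omega
    obtain ⟨u, hu, v, hv, huv⟩ := one_lt_card.1 h2
    have hzD : z ∈ D := (hadj u hu).1
    have hmk : m ≤ K.card + 1 := by
      have h3 : nb G u D ⊆ insert z (K.erase u) := by
        intro x hx
        rw [mem_nb] at hx
        rcases mem_insert.1 (hne hx.1) with e | e
        · rw [e]
          exact mem_insert_self _ _
        · refine mem_insert_of_mem (mem_erase.2 ⟨fun e => G.loopless.irrefl _ (e ▸ hx.2), e⟩)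
      have h4 := le_trans (card_le_card h3) (card_insert_le _ _)
      rw [card_erase_of_mem hu] at h4
      have := hdeg u hu
      omega
    have hK' : Clq G (insert z K) := by
      intro x hx y hy hxy
      rcases mem_insert.1 hx with e | e
      · rcases mem_insert.1 hy with e' | e'
        · exact absurd (e.trans e'.symm) hxy
        · rw [e]
          exact (hadj y e').2
      · rcases mem_insert.1 hy with e' | e'
        · rw [e']
          exact (hadj x e).2.symm
        · exact hK x e y e' hxy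
    have hK'D : insert z K ⊆ D := by
      intro x hx
      rcases mem_insert.1 hx with e | e
      · rw [e]
        exact hzD
      · exact hKD e
    have hc' : (insert z K).card = K.card + 1 := card_insert_of_notMem hzK
    apply h.no
    refine ⟨1, Or.inl rfl, 2, le_refl _, fun i hi => ?_⟩
    by_cases hi2 : i + 1 ≤ K.card
    · obtain ⟨a, ha, b, hb, hp⟩ := A5b_len h hK hKA hKB h2 (j := i + 1) (by omega) hi2
      refine ⟨a, ha, b, hb, ?_⟩
      have e : 2 + i * 1 = i + 1 + 1 := by omega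
      rw [e]
      exact hp
    · obtain ⟨a, ha, hua⟩ := (hKA u hu).2.2
      obtain ⟨b, hb, hvb⟩ := hKB v hv
      have h3 := clq_path hK' (mem_insert_of_mem hu) (mem_insert_of_mem hv) huv (j := K.card)
        (by omega) (by omega)
      have h4 := A5b_path h.sys hK'D h3 ha hb hua hvb
      refine ⟨a, ha, b, hb, ?_⟩
      have e : 2 + i * 1 = K.card + 2 := by omega
      rw [e]
      exact h4

end Pool.Agent.Lib.MP_f599e5_co
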