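import Pool.Agent.Lib.MP_f599e5_co.A5

set_option autoImplicit false
set_option linter.unusedSectionVars false

/-!
# A5c: Case 1, `T_A° = T_B° = K` a clique, a component `Q` of `D \ (K + z)`: contradiction

`κ = K.card ≥ 2` (`h.f6`), `κ + 1 ≤ m`.  `Q` is not adjacent to `A`, `B` (a vertex of `Q` adjacent to `A` would be in `TT G D A z = K`).  `f4`: `bd G D Q` has at least 3 elements, it is contained in `insert z K`, so there are
`a1 ≠ a2` in `K` adjacent to `Q`.  `Y1 = {a1}`, `Y2 = K.erase a1`.  `qset` with `W = K`: `D2`, `Rz G D2 Y1 Y2 z`.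
`mid` with `p = κ - 1`, `p0 = 2`, `e = 1`: `Link G (D \ D2) A B a1 y (2 + j)` for `y ∈ K.erase a1`, `j < κ - 1`: `a - a1` (length 1, `U1 = {a1}`), and `y .. v - b` in `K.erase a1` (length `1 + j`, `U2 = K.erase a1`):
`j = 0`: `y - b`; `j ≥ 1`: `v ∈ K \ {a1,y}`, `clq_path` of length `j ≤ (κ-1) - 1` in `K.erase a1` from `y` to `v`.
Degrees: `v ∈ D2`, `v ≠ z`: so `v ∈ Q`, `v ∉ K`, not adjacent to `A`, `B`; `(nb G v D).card ≤ (nb G v D2).card + (nb G v Y1).card + (nb G v Y2).card`; `(nb G v Y1).card + (nb G v Y2).card ≤ [v~Y1] + [v~Y2] + (κ - 2)`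
(`Y1.card = 1`, `Y2.card = κ - 1`; if `v` is not adjacent to `Y2` this is clear, otherwise `(nb G v Y2).card ≤ κ - 1`).  So `m + 1 ≤ ds G D2 Y1 Y2 v + (κ - 2)`.
`he2`: `m = p + 1 = κ` is impossible.
-/

namespace Pool.Agent.Lib.MP_f599e5_co

open Finset

variable {V : Type} [DecidableEq V] {G : SimpleGraph V}

theorem case1_Q {m : ℕ} {D A B : Finset V} {z : V} (h : Ctx G m D A B z) {K Q : Finset V}
    (hK : Clq G K) (hA : TT G D A z = K) (hB : TT G D B z = K) (hm : K.card + 1 ≤ m)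
    (hQ : IsComp G (D \ insert z K) Q) : False := by
  have hk2 : 2 ≤ K.card := by
    have := h.f6
    rwa [hA] at this
  have hKA : ∀ v ∈ K, v ∈ D ∧ v ≠ z ∧ ∃ a ∈ A, G.Adj v a := by
    intro v hv
    rw [← hA] at hv
    exact mem_TT.1 hv
  have hKB : ∀ v ∈ K, v ∈ D ∧ v ≠ z ∧ ∃ b ∈ B, G.Adj v b := by
    intro v hv
    rw [← hB] at hv
    exact mem_TT.1 hv
  have hKD : K ⊆ D := fun v hv => (hKA v hv).1
  have hzK : z ∉ K := fun hz => (hKA z hz).2.1 rfl
  have hQD : ∀ x ∈ Q, x ∈ D ∧ x ≠ z ∧ x ∉ K := by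
    intro x hx
    have h1 := mem_sdiff.1 (hQ.1 hx)
    rw [mem_insert, not_or] at h1
    exact ⟨h1.1, h1.2.1, h1.2.2⟩
  have hQsub : Q ⊆ D := fun x hx => (hQD x hx).1
  have hQA : ¬ adjS G Q A := by
    rintro ⟨x, hx, a, ha, hxa⟩
    have hx' := hQD x hx
    apply hx'.2.2
    rw [← hA]
    exact mem_TT.2 ⟨hx'.1, hx'.2.1, a, ha, hxa⟩
  have hQB : ¬ adjS G Q B := by
    rintro ⟨x, hx, a, ha, hxa⟩
    have hx' := hQD x hx
    apply hx'.2.2
    rw [← hB]
    exact mem_TT.2 ⟨hx'.1, hx'.2.1, a, ha, hxa⟩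
  have hQne : ∃ x ∈ Q, x ≠ z := by
    obtain ⟨x, hx⟩ := hQ.2.2.1
    exact ⟨x, hx, (hQD x hx).2.1⟩
  have h4 := h.f4 hQsub hQne hQA hQB
  have hbd : ∀ w ∈ (bd G D Q).erase z, w ∈ K ∧ adjS G Q {w} := by
    intro w hw
    obtain ⟨hwz, hw1⟩ := mem_erase.1 hw
    obtain ⟨hwD, hwQ, x, hx, hxw⟩ := mem_bd.1 hw1
    refine ⟨?_, x, hx, w, mem_singleton_self w, hxw⟩
    rcases nbr_of_closed hQ.1 hQ.2.1 hx hwD hxw with h5 | h5
    · exact absurd h5 hwQ
    · rcases mem_insert.1 h5 with h6 | h6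
      · exact absurd h6 hwz
      · exact h6
  have hcard : 1 < ((bd G D Q).erase z).card := by
    have := pred_card_le_card_erase (s := bd G D Q) (a := z)
    omega
  obtain ⟨a1, ha1, a2, ha2, h12⟩ := one_lt_card.1 hcard
  obtain ⟨ha1K, ha1Q⟩ := hbd a1 ha1
  obtain ⟨ha2K, ha2Q⟩ := hbd a2 ha2
  obtain ⟨D2, hQD2, hD2Q, hD2D, hdis, hconn, hnb, hrz⟩ := h.qset hKD hzK hQ hQA hQB
  have hRz : Rz G D2 {a1} (K.erase a1) z := by
    refine hrz {a1} (K.erase a1) (singleton_subset_iff.2 ha1K) (erase_subset _ _) ha1Q ?_ ?_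
    · refine adjS_mono ha2Q (Subset.refl _) (singleton_subset_iff.2 ?_)
      exact mem_erase.2 ⟨h12.symm, ha2K⟩
    · intro x hx _
      by_cases hxa : x = a1
      · exact Or.inl (mem_singleton.2 hxa)
      · exact Or.inr (mem_erase.2 ⟨hxa, hx⟩)
  have hKD2 : ∀ x ∈ K, x ∈ D \ D2 := fun x hx =>
    mem_sdiff.2 ⟨hKD hx, fun hx' => (Finset.disjoint_left.1 hdis) hx' hx⟩
  have hkc : (K.erase a1).card = K.card - 1 := card_erase_of_mem ha1K
  have hKBd : ∀ b ∈ B, b ∉ K := fun b hb hbK =>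
    (Finset.disjoint_left.1 h.sys.dB) (hKD hbK) hb
  refine h.mid (z' := z) (p := K.card - 1) (p0 := 2) (e := 1) hD2D
    (singleton_subset_iff.2 (hKD2 a1 ha1K)) (fun x hx => hKD2 x (mem_of_mem_erase hx)) ?_ hRz
    (by omega) (Or.inl rfl) ?_ ?_ ?_
  · rw [disjoint_singleton_left]
    exact notMem_erase _ _
  · intro y1 hy1 y2 hy2 j hj
    rw [mem_singleton] at hy1
    subst hy1
    obtain ⟨_, _, a, ha, haa⟩ := hKA y1 ha1K
    have hy2' := mem_erase.1 hy2
    have hp1 : PL G (insert a {y1}) a y1 1 :=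
      PL.edge haa.symm (mem_insert_self _ _) (mem_insert_of_mem (mem_singleton_self _))
    by_cases hj0 : j = 0
    · subst hj0
      obtain ⟨_, _, b, hb, hbb⟩ := hKB y2 hy2'.2
      refine ⟨a, ha, b, hb, {y1}, K.erase y1, singleton_subset_iff.2 (hKD2 y1 ha1K),
        fun x hx => hKD2 x (mem_of_mem_erase hx), ?_, 1, 1, by omega, hp1, ?_⟩
      · rw [disjoint_singleton_left]
        exact notMem_erase _ _
      · exact PL.edge hbb (mem_insert_of_mem hy2) (mem_insert_self _ _)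
    · have hc3 : 1 < (K.erase y1).card := by omega
      obtain ⟨v, hv, hvy⟩ := Finset.exists_mem_ne hc3 y2
      obtain ⟨_, _, b, hb, hbb⟩ := hKB v (mem_of_mem_erase hv)
      have hclq : Clq G (K.erase y1) := fun x hx y hy hxy =>
        hK x (mem_of_mem_erase hx) y (mem_of_mem_erase hy) hxy
      have hpath : PL G (K.erase y1) y2 v j :=
        clq_path hclq hy2 hv hvy.symm (by omega) (by omega)
      refine ⟨a, ha, b, hb, {y1}, K.erase y1, singleton_subset_iff.2 (hKD2 y1 ha1K),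
        fun x hx => hKD2 x (mem_of_mem_erase hx), ?_, 1, j + 1, by omega, hp1, ?_⟩
      · rw [disjoint_singleton_left]
        exact notMem_erase _ _
      · exact PL.snoc hpath hbb (fun hx => hKBd b hb (mem_of_mem_erase hx))
  · intro v hv hvz
    have hvQ : v ∈ Q := by
      rcases mem_insert.1 (hD2Q hv) with h5 | h5
      · exact absurd h5 hvz
      · exact h5
    have hdeg := h.deg v (hQsub hvQ) hvz
    have hnA : (nb G v A).card = 0 := nb_card_zero (fun ⟨a, ha, hva⟩ => hQA ⟨v, hvQ, a, ha, hva⟩)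
    have hnB : (nb G v B).card = 0 := nb_card_zero (fun ⟨a, ha, hva⟩ => hQB ⟨v, hvQ, a, ha, hva⟩)
    have e1 : (nb G v D).card ≤ (nb G v D2).card + (nb G v K).card :=
      nb_card_le_add (fun x hx hvx => hnb v hvQ x hx hvx)
    have e2 : (nb G v K).card ≤ (nb G v {a1}).card + (nb G v (K.erase a1)).card := by
      refine nb_card_le_add (fun x hx _ => ?_)
      by_cases hxa : x = a1
      · exact Or.inl (mem_singleton.2 hxa)
      · exact Or.inr (mem_erase.2 ⟨hxa, hx⟩)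
    have e3 : (nb G v {a1}).card ≤ 1 := le_trans nb_card_le (by simp)
    have e4 : (nb G v (K.erase a1)).card ≤ K.card - 1 := le_trans nb_card_le (le_of_eq hkc)
    unfold ds at hdeg ⊢
    omega
  · intro he
    omega

end Pool.Agent.Lib.MP_f599e5_co
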