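import Pool.Agent.Lib.MP_f599e5_co.A5b
import Pool.Agent.Lib.MP_f599e5_co.A5c

set_option autoImplicit false
set_option linter.unusedSectionVars false

/-! # A5d: Case 1, assembly: `T_A°` and `T_B°` are independent -/

namespace Pool.Agent.Lib.MP_f599e5_co

open Finset

variable {V : Type} [DecidableEq V] {G : SimpleGraph V}

theorem case1 {m : ℕ} {D A B : Finset V} {z : V} (h : Ctx G m D A B z) : Ind G (TT G D A z) := by
  intro t ht t' ht' hadj
  obtain ⟨M, hM⟩ := exists_maxclq (G := G) (T := TT G D A z) ⟨t, ht, t', ht', hadj⟩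
  have hBM := case1_sub h hM
  have h6 := h.symm.f6
  have hMB : MaxClq G (TT G D B z) (TT G D B z) :=
    ⟨Subset.refl _, fun x hx y hy hne => hM.clq x (hBM hx) y (hBM hy) hne, h6, fun v hv hv' => absurd hv hv'⟩
  have hAB := case1_sub h.symm hMB
  have e1 : TT G D A z = M := Subset.antisymm (hAB.trans hBM) hM.sub
  have e2 : TT G D B z = M := Subset.antisymm hBM (hM.sub.trans hAB)
  obtain ⟨hm, Q, hQ⟩ := case1_direct h hM.clq e1 e2
  exact case1_Q h hM.clq e1 e2 hm hQ

end Pool.Agent.Lib.MP_f599e5_co
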