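import Pool.Agent.Lib.MP_f599e5_co.A5

set_option autoImplicit false
set_option linter.unusedSectionVars false

/-!
# A6a: Case 2 (a triangle `t,x,y` with `t ∈ T_A°`): the core, prefix lengths, degree estimates  (section 1.6)

`core2_exists`: `x, y ∉ T_A°` (`T_A°` independent), so `{x,y}` is a clique of `D \ (T_A° + z)` complete to `t`.  Choose `M` of maximum cardinality among the cliques `M ⊆ D`, `z ∉ M`, no vertex of `M` adjacent to `A`
(equivalently `M ∩ T_A° = ∅`), complete to some `t ∈ T_A°` (i.e. `∀ y ∈ M, G.Adj t y`).  `TM` := the `t ∈ T_A°` complete to `M`, nonempty; `T0 ⊆ TM` with `T0.card = min TM.card M.card`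
(`Finset.exists_subset_card_eq`).  `max1`: `insert v M` would be a larger clique complete to `t`.  `max2`: `v ∈ TM \ T0` so `TM.card > T0.card = min ..`, hence `T0.card = M.card`.

`s = M.card`, `q = T0.card`, `1 ≤ q ≤ s`, `s ≥ 2`; `M`, `T0` are disjoint (`T0` is adjacent to `A`, `M` is not).
`pre2_M`: `a - t .. y`, `jp1` with length `L - 1`.  `pre2_T`: `a - t' .. t`, `jp2` with length `L - 1`, `t' ≠ t`.  `pre2_T1`: the edge `a t`.

`loss2_M`: `v ∈ D \ (M ∪ T0)`, `v ≠ z`.  (1) `v ~ A`: then `v ∈ T_A°`, `nb G v T0 = ∅` (independent).  If `v` is not complete to `M`: `(nb G v M).card ≤ s - 1`, fine (`q ≥ 1`, `s ≥ 2`).  If it is complete to `M`: `q = s ≥ 2` (`max2`), fine.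
(2) `v` not `~ A`: if `v` has a neighbour in `T0`, `max1` gives `(nb G v M).card ≤ s - 1`, and `(nb G v T0).card ≤ q`: fine (also if `nb G v M = ∅`, as `s ≥ 2`).  If not: `(nb G v M).card ≤ s`, fine.
`loss2_T`: `v ∈ D`, `v ≠ z`: if `v ~ A` then `nb G v T0 = ∅`; otherwise `(nb G v T0).card ≤ q`.
-/

namespace Pool.Agent.Lib.MP_f599e5_co

open Finset

variable {V : Type} [DecidableEq V] {G : SimpleGraph V}

/-- the core of case 2: a maximum clique `M` outside `T_A° + z` complete to a vertex of `T_A°`, and `T0 ⊆ T_A°` complete to `M` -/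
structure Core2 (G : SimpleGraph V) (D A : Finset V) (z : V) (M T0 : Finset V) : Prop where
  MD : M ⊆ D
  zM : z ∉ M
  MA : ∀ v ∈ M, ¬ ∃ a ∈ A, G.Adj v a
  clq : Clq G M
  s2 : 2 ≤ M.card
  T0T : T0 ⊆ TT G D A z
  cpl : Cpl G T0 M
  q1 : 1 ≤ T0.card
  qs : T0.card ≤ M.card
  max1 : ∀ v ∈ D, v ∉ M → v ≠ z → (¬ ∃ a ∈ A, G.Adj v a) → ∀ t ∈ T0, G.Adj v t → ∃ y ∈ M, ¬ G.Adj v y
  max2 : ∀ v ∈ TT G D A z, v ∉ T0 → (∀ y ∈ M, G.Adj v y) → T0.card = M.card

theorem core2_exists {D A : Finset V} {z : V} (ind : Ind G (TT G D A z)) {t x y : V}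
    (ht : t ∈ TT G D A z) (hx : x ∈ D) (hxz : x ≠ z) (hy : y ∈ D) (hyz : y ≠ z) (h1 : G.Adj t x)
    (h2 : G.Adj t y) (h3 : G.Adj x y) : ∃ M T0, Core2 G D A z M T0 := by
  classical
  have key : ∀ w ∈ D, w ≠ z → G.Adj t w → ¬ ∃ a ∈ A, G.Adj w a := by
    intro w hw hwz htw hA
    exact ind t ht w (mem_TT.2 ⟨hw, hwz, hA⟩) htw
  let P : Finset V → Prop := fun M => z ∉ M ∧ (∀ v ∈ M, ¬ ∃ a ∈ A, G.Adj v a) ∧ Clq G M ∧
    ∃ t ∈ TT G D A z, ∀ y ∈ M, G.Adj t y
  have hP0 : ({x, y} : Finset V) ∈ D.powerset.filter P := by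
    rw [mem_filter, mem_powerset]
    refine ⟨?_, ?_, ?_, ?_, t, ht, ?_⟩
    · intro w hw
      rw [mem_insert, mem_singleton] at hw
      rcases hw with rfl | rfl
      · exact hx
      · exact hy
    · rw [mem_insert, mem_singleton, not_or]
      exact ⟨hxz.symm, hyz.symm⟩
    · intro w hw
      rw [mem_insert, mem_singleton] at hw
      rcases hw with rfl | rfl
      · exact key _ hx hxz h1
      · exact key _ hy hyz h2
    · intro u hu w hw hne
      rw [mem_insert, mem_singleton] at hu hw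
      rcases hu with rfl | rfl <;> rcases hw with rfl | rfl
      · exact absurd rfl hne
      · exact h3
      · exact h3.symm
      · exact absurd rfl hne
    · intro w hw
      rw [mem_insert, mem_singleton] at hw
      rcases hw with rfl | rfl
      · exact h1
      · exact h2
  obtain ⟨M, hM, hmax⟩ := Finset.exists_max_image (D.powerset.filter P) Finset.card ⟨_, hP0⟩
  rw [mem_filter, mem_powerset] at hM
  obtain ⟨hMD, hzM, hMA, hMc, t1, ht1, ht1M⟩ := hM
  have hM2 : 2 ≤ M.card := by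
    have h4 := hmax _ hP0
    rwa [card_pair h3.ne] at h4
  let TM : Finset V := (TT G D A z).filter (fun t => ∀ y ∈ M, G.Adj t y)
  have hTM1 : t1 ∈ TM := mem_filter.2 ⟨ht1, ht1M⟩
  have hTMpos : 1 ≤ TM.card := card_pos.2 ⟨t1, hTM1⟩
  obtain ⟨T0, hT0, hT0c⟩ := Finset.exists_subset_card_eq (s := TM) (n := min TM.card M.card) (min_le_left _ _)
  refine ⟨M, T0, ?_⟩
  refine
    { MD := hMD
      zM := hzM
      MA := hMA
      clq := hMc
      s2 := hM2
      T0T := fun w hw => (mem_filter.1 (hT0 hw)).1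
      cpl := fun w hw y hy => (mem_filter.1 (hT0 hw)).2 y hy
      q1 := by omega
      qs := by omega
      max1 := ?_
      max2 := ?_ }
  · intro v hv hvM hvz hvA t ht hvt
    by_contra hcon
    push Not at hcon
    have h5 : insert v M ∈ D.powerset.filter P := by
      rw [mem_filter, mem_powerset]
      refine ⟨insert_subset hv hMD, ?_, ?_, ?_, t, (mem_filter.1 (hT0 ht)).1, ?_⟩
      · rw [mem_insert, not_or]
        exact ⟨hvz.symm, hzM⟩
      · intro w hw
        rcases mem_insert.1 hw with rfl | hw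
        · exact hvA
        · exact hMA w hw
      · intro u hu w hw hne
        rcases mem_insert.1 hu with hu1 | hu1
        · rcases mem_insert.1 hw with hw1 | hw1
          · exact absurd (hu1.trans hw1.symm) hne
          · rw [hu1]
            exact hcon w hw1
        · rcases mem_insert.1 hw with hw1 | hw1
          · rw [hw1]
            exact (hcon u hu1).symm
          · exact hMc u hu1 w hw1 hne
      · intro w hw
        rcases mem_insert.1 hw with rfl | hw
        · exact hvt.symm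
        · exact (mem_filter.1 (hT0 ht)).2 w hw
    have h6 := hmax _ h5
    rw [card_insert_of_notMem hvM] at h6
    omega
  · intro v hv hvT hvM
    have hvTM : v ∈ TM := mem_filter.2 ⟨hv, hvM⟩
    rcases Nat.lt_or_ge M.card TM.card with h7 | h7
    · omega
    · exfalso
      have h8 : T0 = TM := Finset.eq_of_subset_of_card_le hT0 (by omega)
      exact hvT (h8 ▸ hvTM)

theorem Core2.disj {D A : Finset V} {z : V} {M T0 : Finset V} (c : Core2 G D A z M T0) : Disjoint M T0 := by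
  rw [Finset.disjoint_left]
  intro v hv hv'
  exact c.MA v hv (mem_TT.1 (c.T0T hv')).2.2

theorem Core2.UD {D A : Finset V} {z : V} {M T0 : Finset V} (c : Core2 G D A z M T0) : M ∪ T0 ⊆ D :=
  union_subset c.MD (fun _ hv => (mem_TT.1 (c.T0T hv)).1)

theorem Core2.zU {D A : Finset V} {z : V} {M T0 : Finset V} (c : Core2 G D A z M T0) : z ∉ M ∪ T0 := by
  intro hz
  rcases mem_union.1 hz with hz | hz
  · exact c.zM hz
  · exact (mem_TT.1 (c.T0T hz)).2.1 rfl

theorem pre2_M {D A : Finset V} {z : V} {M T0 : Finset V} (hDA : Disjoint D A) (c : Core2 G D A z M T0)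
    {y : V} (hy : y ∈ M) {L : ℕ} (h1 : 2 ≤ L) (h2 : L ≤ M.card + T0.card) : Pre G (M ∪ T0) A y L := by
  obtain ⟨t, ht⟩ := card_pos.1 (show 0 < T0.card from c.q1)
  obtain ⟨_, _, a, ha, hta⟩ := mem_TT.1 (c.T0T ht)
  have h3 := jp1 c.clq c.disj c.cpl c.qs ht hy (L := L - 1) (by omega) (by omega)
  have h4 : a ∉ M ∪ T0 := fun h => (Finset.disjoint_left.1 hDA) (c.UD h) ha
  have h5 := h3.cons hta.symm h4
  refine ⟨a, ha, ?_⟩
  have h6 : L - 1 + 1 = L := by omega
  rwa [h6] at h5

theorem pre2_T {D A : Finset V} {z : V} {M T0 : Finset V} (hDA : Disjoint D A) (c : Core2 G D A z M T0)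
    {t : V} (ht : t ∈ T0) (hq : 2 ≤ T0.card) {L : ℕ} (h1 : 3 ≤ L) (h2 : L ≤ M.card + T0.card) :
    Pre G (M ∪ T0) A t L := by
  obtain ⟨t', ht', hne⟩ := Finset.exists_mem_ne (show 1 < T0.card from hq) t
  obtain ⟨_, _, a, ha, hta⟩ := mem_TT.1 (c.T0T ht')
  have h3 := jp2 c.clq c.disj c.cpl c.qs ht' ht hne (L := L - 1) (by omega) (by omega)
  have h4 : a ∉ M ∪ T0 := fun h => (Finset.disjoint_left.1 hDA) (c.UD h) ha
  have h5 := h3.cons hta.symm h4
  refine ⟨a, ha, ?_⟩
  have h6 : L - 1 + 1 = L := by omega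
  rwa [h6] at h5

theorem pre2_T1 {D A : Finset V} {z : V} {M T0 : Finset V} (c : Core2 G D A z M T0) {t : V} (ht : t ∈ T0) :
    Pre G (M ∪ T0) A t 1 := by
  obtain ⟨_, _, a, ha, hta⟩ := mem_TT.1 (c.T0T ht)
  exact ⟨a, ha, PL.edge hta.symm (mem_insert_self _ _) (mem_insert_of_mem (mem_union_right _ ht))⟩

theorem loss2_M {D A : Finset V} {z : V} {M T0 : Finset V} (ind : Ind G (TT G D A z))
    (c : Core2 G D A z M T0) {v : V} (hv : v ∈ D) (hvU : v ∉ M ∪ T0) (hvz : v ≠ z) :
    (nb G v M).card + (nb G v T0).card + min 1 (nb G v A).card + 2 ≤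
      min 1 (nb G v M).card + (M.card + T0.card) := by
  have s2 := c.s2
  have q1 := c.q1
  have hvM : v ∉ M := fun h => hvU (mem_union_left _ h)
  have hvT : v ∉ T0 := fun h => hvU (mem_union_right _ h)
  have hs : (nb G v M).card ≤ M.card := nb_card_le
  have hq : (nb G v T0).card ≤ T0.card := nb_card_le
  by_cases hA : ∃ a ∈ A, G.Adj v a
  · have hvTT : v ∈ TT G D A z := mem_TT.2 ⟨hv, hvz, hA⟩
    have h1 : (nb G v T0).card = 0 := by
      refine nb_card_zero ?_
      rintro ⟨t, ht, hvt⟩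
      exact ind v hvTT t (c.T0T ht) hvt
    have h2 := min_nb_pos (G := G) hA
    by_cases hy : ∃ y ∈ M, ¬ G.Adj v y
    · obtain ⟨y, hy, hvy⟩ := hy
      have h3 := nb_card_lt hy hvy
      omega
    · push Not at hy
      have h3 := c.max2 v hvTT hvT hy
      omega
  · have h1 : (nb G v A).card = 0 := nb_card_zero hA
    by_cases ht : ∃ t ∈ T0, G.Adj v t
    · obtain ⟨t, ht, hvt⟩ := ht
      obtain ⟨y, hy, hvy⟩ := c.max1 v hv hvM hvz hA t ht hvt
      have h3 := nb_card_lt hy hvy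
      omega
    · have h2 : (nb G v T0).card = 0 := nb_card_zero ht
      omega

theorem loss2_T {D A : Finset V} {z : V} {M T0 : Finset V} (ind : Ind G (TT G D A z))
    (c : Core2 G D A z M T0) {v : V} (hv : v ∈ D) (hvz : v ≠ z) :
    (nb G v T0).card + min 1 (nb G v A).card ≤ min 1 (nb G v T0).card + max 1 (T0.card - 1) := by
  have hq : (nb G v T0).card ≤ T0.card := nb_card_le
  by_cases hA : ∃ a ∈ A, G.Adj v a
  · have hvTT : v ∈ TT G D A z := mem_TT.2 ⟨hv, hvz, hA⟩
    have h1 : (nb G v T0).card = 0 := by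
      refine nb_card_zero ?_
      rintro ⟨t, ht, hvt⟩
      exact ind v hvTT t (c.T0T ht) hvt
    have h2 := min_nb_pos (G := G) hA
    omega
  · have h1 : (nb G v A).card = 0 := nb_card_zero hA
    omega

end Pool.Agent.Lib.MP_f599e5_co
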