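import Pool.Agent.Lib.MP_f599e5_co.A6a

set_option autoImplicit false
set_option linter.unusedSectionVars false

/-!
# A6b: Case 2, (2h) for `q ≥ 2`: no hanging set

`D1` a component of `D \ U`, `U = M ∪ T0`; `C`, `w` a hanging set of `D1` w.r.t. `Y = M`.  `s = M.card`, `q = T0.card ≥ 2`.
Neighbours in `D` of `C` are in `C`, equal to `w`, or in `T0` (not in `M`: `nY`).  `mid` with `D2 = C`, `Y1 = T0`, `Y2 = {w}`, `z' = z`:
 * `R0 G C T0 {w}`: (r1) `C` is connected, `C ~ w` (`bd`); `C ~ T0`: `bd G D C ⊆ {w} ∪ T0` has at least 2 elements by `f3''` (`M ⊆ D \ C`, `M.card ≥ 2`).  (r2) `C' ⊆ C` nonempty with `(bd G C C').card ≤ 1`, not `~ T0`, not `~ w`: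
   `bd G D C' = bd G C C'`, contradiction to `f3''`.  So `Rz G C T0 {w} z` by `R0.toRz`.
 * `p = s + q - 2`, `e = 1`, `Link G (D \ C) A B t w (p0 + j)`: `pre2_T`: prefix `a .. t` in `U` of length `3 + j`, `j < s + q - 2`; a path `w .. u` in `D1 \ C` (connected; `rB` gives `u ∈ D1 \ C` adjacent to some `b ∈ B`), then `u - b`:
   a fixed length `L2`; `p0 = 3 + L2`; `U1 = U`, `U2 = D1 \ C` (disjoint).
 * degrees: `v ∈ C`, `v ≠ z`: `v` not `~ B`: `ds G D A B v ≤ (nb G v C).card + min 1 (nb G v {w}).card + (nb G v T0).card + min 1 (nb G v A).card`, `loss2_T` (`max 1 (q-1) = q - 1`): `m + 1 ≤ ds G C T0 {w} v + (q - 1)`; `q - 1 ≤ p - 1`.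
 * `he2` by `Or.inl`.
-/

namespace Pool.Agent.Lib.MP_f599e5_co

open Finset

variable {V : Type} [DecidableEq V] {G : SimpleGraph V}

theorem hang2_ge {m : ℕ} {D A B : Finset V} {z : V} (h : Ctx G m D A B z) (ind : Ind G (TT G D A z))
    {M T0 D1 C : Finset V} {w : V} (c : Core2 G D A z M T0) (hq : 2 ≤ T0.card)
    (hD1 : IsComp G (D \ (M ∪ T0)) D1) (hC : Hang G D1 M B z C w) : False := by
  obtain ⟨hD1U, hD1b, hD1c⟩ := hD1
  have hD1D : D1 ⊆ D := hD1U.trans sdiff_subset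
  have hD1n : ∀ x ∈ D1, x ∉ M ∪ T0 := fun x hx => (mem_sdiff.1 (hD1U hx)).2
  have hCD : C ⊆ D := hC.sub.trans hD1D
  have hCn : ∀ x ∈ C, x ∉ M ∪ T0 := fun x hx => hD1n x (hC.sub hx)
  have hCne : C.Nonempty := hC.conn.1
  have hMD : M ⊆ D := c.MD
  have hTD : T0 ⊆ D := fun x hx => c.UD (mem_union_right _ hx)
  have hwD : w ∈ D := hD1D hC.wD
  have hwT : w ∉ T0 := fun h1 => hD1n w hC.wD (mem_union_right _ h1)
  -- neighbours of `C`
  have hnb : ∀ v ∈ C, ∀ x ∈ D, G.Adj v x → x ∈ C ∨ x = w ∨ x ∈ T0 := by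
    intro v hv x hx ha
    rcases nbr_of_closed hD1U hD1b (hC.sub hv) hx ha with h1 | h1
    · by_cases h2 : x ∈ C
      · exact Or.inl h2
      · have h3 : x ∈ bd G D1 C := mem_bd.2 ⟨h1, h2, v, hv, ha⟩
        rw [hC.bd, mem_singleton] at h3
        exact Or.inr (Or.inl h3)
    · rcases mem_union.1 h1 with h2 | h2
      · exact absurd ⟨v, hv, x, h2, ha⟩ hC.nY
      · exact Or.inr (Or.inr h2)
  have hf3 : ∀ C' ⊆ C, C'.Nonempty → 2 ≤ (bd G D C').card := by
    intro C' hC' hne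
    refine h.f3'' (hC'.trans hCD) hne ?_
    refine c.s2.trans (card_le_card (fun x hx => ?_))
    exact mem_sdiff.2 ⟨hMD hx, fun h1 => hCn x (hC' h1) (mem_union_left _ hx)⟩
  have hCw : adjS G C {w} := by
    have h1 : w ∈ bd G D1 C := by
      rw [hC.bd]
      exact mem_singleton_self w
    obtain ⟨-, -, x, hx, ha⟩ := mem_bd.1 h1
    exact ⟨x, hx, w, mem_singleton_self w, ha⟩
  have hCT : adjS G C T0 := by
    by_contra hcon
    have h1 : bd G D C ⊆ {w} := by
      intro x hx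
      obtain ⟨hxD, hxC, y, hy, ha⟩ := mem_bd.1 hx
      rcases hnb y hy x hxD ha with h2 | h2 | h2
      · exact absurd h2 hxC
      · rw [h2]
        exact mem_singleton_self w
      · exact absurd ⟨y, hy, x, h2, ha⟩ hcon
    have h2 := card_le_card h1
    have h3 := hf3 C (Subset.refl _) hCne
    rw [card_singleton] at h2
    omega
  have hr0 : R0 G C T0 {w} := by
    refine ⟨hCne, fun C' hC' hne hb => ?_, fun C' hC' hne hb => ?_⟩
    · have h1 : C' = C := hC.conn.2 C' hC' hne hb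
      rw [h1]
      exact ⟨hCT, hCw⟩
    · by_contra hcon
      rw [not_or] at hcon
      have h1 : bd G D C' = bd G C C' := by
        refine bd_eq_of hC' hCD (fun y hy x hx ha => ?_)
        rcases hnb y (hC' hy) x hx ha with h2 | h2 | h2
        · exact h2
        · exact absurd ⟨y, hy, w, mem_singleton_self w, h2 ▸ ha⟩ hcon.2
        · exact absurd ⟨y, hy, x, h2, ha⟩ hcon.1
      have h2 := hf3 C' hC' hne
      rw [h1] at h2
      omega
  -- the path from `w` to `B`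
  obtain ⟨u, hu, b, hb, hub⟩ := hC.rB
  obtain ⟨n, hn⟩ := hC.rconn.path (mem_sdiff.2 ⟨hC.wD, hC.wC⟩) hu
  have hbD : b ∉ D := fun h1 => Finset.disjoint_left.1 h.sys.dB h1 hb
  have hp2 : PL G (insert b (D1 \ C)) w b (n + 1) :=
    hn.snoc hub (fun h1 => hbD (hD1D (mem_sdiff.1 h1).1))
  have hs2 := c.s2
  refine h.mid (D2 := C) (Y1 := T0) (Y2 := {w}) (z' := z) (p := M.card + T0.card - 2)
    (p0 := 3 + (n + 1)) (e := 1) hCD ?_ ?_ ?_ (hr0.toRz hC.ne) (by omega) (Or.inl rfl) ?_ ?_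
    (fun _ => Or.inl hr0)
  · intro x hx
    exact mem_sdiff.2 ⟨hTD hx, fun h1 => hCn x h1 (mem_union_right _ hx)⟩
  · intro x hx
    rw [mem_singleton] at hx
    subst hx
    exact mem_sdiff.2 ⟨hwD, hC.wC⟩
  · rw [disjoint_singleton_right]
    exact hwT
  · intro t ht y hy j hj
    rw [mem_singleton] at hy
    subst hy
    obtain ⟨a, ha, hpa⟩ := pre2_T h.sys.dA c ht hq (L := 3 + j) (by omega) (by omega)
    refine ⟨a, ha, b, hb, M ∪ T0, D1 \ C, ?_, ?_, ?_, 3 + j, n + 1, by omega, hpa, hp2⟩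
    · intro x hx
      exact mem_sdiff.2 ⟨c.UD hx, fun h1 => hCn x h1 hx⟩
    · intro x hx
      exact mem_sdiff.2 ⟨hD1D (mem_sdiff.1 hx).1, (mem_sdiff.1 hx).2⟩
    · rw [Finset.disjoint_left]
      intro x hx hx'
      exact hD1n x (mem_sdiff.1 hx').1 hx
  · intro v hv hvz
    have h1 := h.deg v (hCD hv) hvz
    have h2 : (nb G v D).card ≤ (nb G v (C ∪ {w})).card + (nb G v T0).card := by
      refine nb_card_le_add (fun x hx ha => ?_)
      rcases hnb v hv x hx ha with h3 | h3 | h3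
      · exact Or.inl (mem_union_left _ h3)
      · exact Or.inl (mem_union_right _ (mem_singleton.2 h3))
      · exact Or.inr h3
    have h2' : (nb G v (C ∪ {w})).card ≤ (nb G v C).card + (nb G v {w}).card := by
      rw [nb_union]
      exact card_union_le _ _
    have h3 : (nb G v B).card = 0 :=
      nb_card_zero (fun ⟨b', hb', ha⟩ => hC.nB ⟨v, hv, b', hb', ha⟩)
    have h4 : (nb G v {w}).card ≤ 1 := nb_card_le.trans (by simp)
    have h5 := loss2_T ind c (hCD hv) hvz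
    unfold ds at h1 ⊢
    have h6 : max 1 (T0.card - 1) = T0.card - 1 := by omega
    rw [h6] at h5
    omega

end Pool.Agent.Lib.MP_f599e5_co
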