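import Pool.Agent.Lib.MP_f599e5_co.A6a

set_option autoImplicit false
set_option linter.unusedSectionVars false

/-!
# A6c: Case 2, (2h) for `q = 1`: no hanging set

`T0 = {t}`.  `D1` a component of `D \ U`, `U = M ∪ {t}`; `C`, `w` a hanging set of `D1` w.r.t. `Y = M`.  Neighbours in `D` of `C` are in `C` or equal to `w` or `t`.
`bd G D C ⊆ {w,t}`, `C` not `~ B`; `f4`: `C ~ A`.  By `f3''` (`M ⊆ D \ C`) `bd G D C = {w,t}`, so `C ~ t`.
`h.symm.alpha` (the context `(D;B,A)`) with `D1 := C`, `Y := {t}`, target `A`, `z' = z`, `p = 2`, `e = 1`: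
 * `Rz G C {t} A z`: (r1) `C` connected.  (r2) `C' ⊆ C` with a vertex `≠ z`, `(bd G C C').card ≤ 1`, not `~ t`, not `~ A`: `bd G D C' ⊆ bd G C C' ∪ {w}` has at most 2 elements and `C'` is not `~ A`, `B`: contradiction to `f4`.
 * `Pre G (D \ C) B t (p0 + j)`, `j < 2`: `b - u` with `u ∈ D1 \ C`, path in `D1 \ C` from `u` to some `x ∈ D1 \ C` adjacent to some `a0 ∈ M` (`rconn`, `rY`, `rB`), `x - a0`, then from `a0` to `t`: the edge (`j = 0`) or `a0 - a1 - t` with `a1 ∈ M`, `a1 ≠ a0` (`j = 1`).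
   Everything is in `insert b (D \ C)`.  The part in `D1 \ C` has a fixed length.
 * degrees: `v ∈ C`, `v ≠ z`, not `~ B`, not `~ M`: `ds G D A B v ≤ (nb G v C).card + (nb G v {w}).card + (nb G v {t}).card + min 1 (nb G v A).card ≤ ds G C {t} A v + 1`; so `m + 2 ≤ ds G C {t} A v + 2`.
 * `he2`: `m = 3`.  If not `R0 G C {t} A` and `(C.erase z).card ≤ 1`: by `pend` `z ∈ C`, `C.erase z = {v}`.  `4 ≤ ds G D A B v ≤ [v~z] + [v~w] + [v~t] + [v~A]`, so `v ~ t` and `v ~ A`: both `v, t ∈ T_A°`, contradiction to `ind`.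
-/

namespace Pool.Agent.Lib.MP_f599e5_co

open Finset

variable {V : Type} [DecidableEq V] {G : SimpleGraph V}

theorem hang2_one {m : ℕ} {D A B : Finset V} {z : V} (h : Ctx G m D A B z) (ind : Ind G (TT G D A z))
    {M T0 D1 C : Finset V} {w : V} (c : Core2 G D A z M T0) (hq : T0.card = 1)
    (hD1 : IsComp G (D \ (M ∪ T0)) D1) (hC : Hang G D1 M B z C w) : False := by
  obtain ⟨t, rfl⟩ := Finset.card_eq_one.1 hq
  have tT : t ∈ TT G D A z := c.T0T (mem_singleton_self t)
  obtain ⟨tD, tz, tA⟩ := mem_TT.1 tT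
  have hD1D : D1 ⊆ D := fun x hx => (mem_sdiff.1 (hD1.1 hx)).1
  have hD1U : ∀ x ∈ D1, x ∉ M ∧ x ≠ t := by
    intro x hx
    have h1 := (mem_sdiff.1 (hD1.1 hx)).2
    exact ⟨fun h2 => h1 (mem_union_left _ h2),
      fun h2 => h1 (mem_union_right _ (by rw [h2]; exact mem_singleton_self t))⟩
  have hCD : C ⊆ D := fun x hx => hD1D (hC.sub hx)
  have hCne : C.Nonempty := by
    obtain ⟨x, hx, _⟩ := hC.ne
    exact ⟨x, hx⟩
  have nbC : ∀ v ∈ C, ∀ x ∈ D, G.Adj v x → x ∈ C ∨ x = w ∨ x = t := by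
    intro v hv x hx ha
    rcases nbr_of_closed hD1.1 hD1.2.1 (hC.sub hv) hx ha with h1 | h1
    · by_cases hxC : x ∈ C
      · exact Or.inl hxC
      · have h2 : x ∈ bd G D1 C := mem_bd.2 ⟨h1, hxC, v, hv, ha⟩
        rw [hC.bd, mem_singleton] at h2
        exact Or.inr (Or.inl h2)
    · rcases mem_union.1 h1 with h2 | h2
      · exact absurd ⟨v, hv, x, h2, ha⟩ hC.nY
      · exact Or.inr (Or.inr (mem_singleton.1 h2))
  have hMC : M ⊆ D \ C := fun x hx => mem_sdiff.2 ⟨c.MD hx, fun h1 => (hD1U x (hC.sub h1)).1 hx⟩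
  have h2M : 2 ≤ (D \ C).card := c.s2.trans (card_le_card hMC)
  have hbdsub : bd G D C ⊆ {w, t} := by
    intro x hx
    obtain ⟨h1, h2, v, hv, ha⟩ := mem_bd.1 hx
    rcases nbC v hv x h1 ha with h3 | h3 | h3
    · exact absurd h3 h2
    · rw [h3]; simp
    · rw [h3]; simp
  have hCA : adjS G C A := by
    by_contra hcon
    have h1 := h.f4 hCD hC.ne hcon hC.nB
    have h2 := (card_le_card hbdsub).trans card_le_two
    omega
  have hCt : adjS G C {t} := by
    by_contra hcon
    have h1 := h.f3'' hCD hCne h2M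
    have h2 : bd G D C ⊆ {w} := by
      intro x hx
      have h3 := hbdsub hx
      rcases mem_insert.1 h3 with h4 | h4
      · rw [h4]; simp
      · exfalso
        obtain ⟨_, _, v, hv, ha⟩ := mem_bd.1 hx
        exact hcon ⟨v, hv, x, h4, ha⟩
    have h3 := (card_le_card h2)
    rw [card_singleton] at h3
    omega
  have hRz : Rz G C {t} A z := by
    refine ⟨hC.ne, ?_, ?_⟩
    · intro C' hC' ⟨v, hv, _⟩ hb
      rw [hC.conn.2 C' hC' ⟨v, hv⟩ hb]
      exact ⟨hCt, hCA⟩
    · intro C' hC' hne' hb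
      by_contra hcon
      rw [not_or] at hcon
      have h1 : bd G D C' ⊆ bd G C C' ∪ {w} := by
        intro x hx
        obtain ⟨h2, h3, v, hv, ha⟩ := mem_bd.1 hx
        rcases nbC v (hC' hv) x h2 ha with h4 | h4 | h4
        · exact mem_union_left _ (mem_bd.2 ⟨h4, h3, v, hv, ha⟩)
        · exact mem_union_right _ (by rw [h4]; exact mem_singleton_self w)
        · exact absurd ⟨v, hv, x, by rw [h4]; exact mem_singleton_self t, ha⟩ hcon.1
      have h2 : ¬ adjS G C' B := fun h3 => hC.nB (adjS_mono h3 hC' (Subset.refl _))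
      have h3 := h.f4 (fun x hx => hCD (hC' hx)) hne' hcon.2 h2
      have h4 := (card_le_card h1).trans (card_union_le _ _)
      rw [card_singleton] at h4
      omega
  -- degrees
  have hdeg0 : ∀ v ∈ C, v ≠ z → m + 1 ≤ (nb G v C).card + (nb G v {w}).card + (nb G v {t}).card +
      min 1 (nb G v A).card := by
    intro v hv hvz
    have h1 := h.deg v (hCD hv) hvz
    have h2 : (nb G v B).card = 0 := nb_card_zero (fun ⟨b, hb, hvb⟩ => hC.nB ⟨v, hv, b, hb, hvb⟩)
    have h3 : (nb G v D).card ≤ (nb G v (C ∪ {w})).card + (nb G v {t}).card := by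
      refine nb_card_le_add ?_
      intro x hx ha
      rcases nbC v hv x hx ha with h4 | h4 | h4
      · exact Or.inl (mem_union_left _ h4)
      · exact Or.inl (mem_union_right _ (by rw [h4]; exact mem_singleton_self w))
      · exact Or.inr (by rw [h4]; exact mem_singleton_self t)
    have h4 : (nb G v (C ∪ {w})).card ≤ (nb G v C).card + (nb G v {w}).card :=
      nb_card_le_add (fun x hx _ => mem_union.1 hx)
    unfold ds at h1
    omega
  -- the prefixes
  obtain ⟨x, hx, a0, ha0, hxa0⟩ := hC.rY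
  obtain ⟨u, hu, b, hb, hub⟩ := hC.rB
  obtain ⟨n, hn⟩ := hC.rconn.path hu hx
  have hbD : b ∉ D := fun h1 => (Finset.disjoint_left.1 h.sys.dB) h1 hb
  have hDC : D1 \ C ⊆ D := fun y hy => hD1D (mem_sdiff.1 hy).1
  have hMD1 : ∀ y ∈ M, y ∉ insert b (D1 \ C) := by
    intro y hy h1
    rcases mem_insert.1 h1 with h2 | h2
    · exact hbD (h2 ▸ c.MD hy)
    · exact (hD1U y (mem_sdiff.1 h2).1).1 hy
  have htD1 : t ∉ insert b (D1 \ C) := by
    intro h1
    rcases mem_insert.1 h1 with h2 | h2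
    · exact hbD (h2 ▸ tD)
    · exact (hD1U t (mem_sdiff.1 h2).1).2 rfl
  have htM : t ∉ M := fun h1 => (Finset.disjoint_left.1 c.disj) h1 (mem_singleton_self t)
  have htC : t ∉ C := fun h1 => (hD1U t (hC.sub h1)).2 rfl
  have e1 : PL G (insert b (D1 \ C)) b x (n + 1) :=
    PL.cons hub.symm hn (fun h1 => hbD (hDC h1))
  have e2 : PL G (insert a0 (insert b (D1 \ C))) b a0 (n + 1 + 1) := e1.snoc hxa0 (hMD1 a0 ha0)
  have hpre : ∀ y ∈ ({t} : Finset V), ∀ j < 2, Pre G (D \ C) B y (n + 3 + j * 1) := by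
    intro y hy j hj
    rw [mem_singleton] at hy
    rw [hy]
    refine ⟨b, hb, ?_⟩
    have hsub : ∀ y' ∈ insert b (D1 \ C), y' ∈ insert b (D \ C) := by
      intro y' hy'
      rcases mem_insert.1 hy' with h1 | h1
      · rw [h1]; exact mem_insert_self _ _
      · exact mem_insert_of_mem (mem_sdiff.2 ⟨hDC h1, (mem_sdiff.1 h1).2⟩)
    have htin : t ∈ insert b (D \ C) := mem_insert_of_mem (mem_sdiff.2 ⟨tD, htC⟩)
    interval_cases j
    · have ha0t : G.Adj a0 t := (c.cpl t (mem_singleton_self t) a0 ha0).symm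
      have hnt : t ∉ insert a0 (insert b (D1 \ C)) := by
        intro h1
        rcases mem_insert.1 h1 with h2 | h2
        · exact htM (h2 ▸ ha0)
        · exact htD1 h2
      refine (e2.snoc ha0t hnt).mono ?_
      intro y' hy'
      rcases mem_insert.1 hy' with h1 | h1
      · rw [h1]; exact htin
      · rcases mem_insert.1 h1 with h2 | h2
        · rw [h2]; exact mem_insert_of_mem (hMC ha0)
        · exact hsub y' h2
    · obtain ⟨a1, ha1, hne1⟩ : ∃ a1 ∈ M, a1 ≠ a0 := by
        obtain ⟨p, hp, q, hq', hpq⟩ := Finset.one_lt_card.1 (show 1 < M.card from c.s2)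
        by_cases hpa : p = a0
        · exact ⟨q, hq', fun h1 => hpq (hpa.trans h1.symm)⟩
        · exact ⟨p, hp, hpa⟩
      have ha01 : G.Adj a0 a1 := c.clq a0 ha0 a1 ha1 (fun h1 => hne1 h1.symm)
      have ha1t : G.Adj a1 t := (c.cpl t (mem_singleton_self t) a1 ha1).symm
      have hn1 : a1 ∉ insert a0 (insert b (D1 \ C)) := by
        intro h1
        rcases mem_insert.1 h1 with h2 | h2
        · exact hne1 h2
        · exact hMD1 a1 ha1 h2
      have hnt : t ∉ insert a1 (insert a0 (insert b (D1 \ C))) := by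
        intro h1
        rcases mem_insert.1 h1 with h2 | h2
        · exact htM (h2 ▸ ha1)
        · rcases mem_insert.1 h2 with h2 | h2
          · exact htM (h2 ▸ ha0)
          · exact htD1 h2
      refine ((e2.snoc ha01 hn1).snoc ha1t hnt).mono ?_
      intro y' hy'
      rcases mem_insert.1 hy' with h1 | h1
      · rw [h1]; exact htin
      · rcases mem_insert.1 h1 with h2 | h2
        · rw [h2]; exact mem_insert_of_mem (hMC ha1)
        · rcases mem_insert.1 h2 with h2 | h2
          · rw [h2]; exact mem_insert_of_mem (hMC ha0)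
          · exact hsub y' h2
  refine h.symm.alpha (D1 := C) (Y := {t}) (z' := z) (p := 2) (p0 := n + 3) (e := 1) hCD ?_ hRz (by omega)
    (Or.inl rfl) hpre ?_ ?_
  · intro y hy
    rw [mem_singleton] at hy
    rw [hy]
    exact mem_sdiff.2 ⟨tD, htC⟩
  · intro v hv hvz
    have h1 := hdeg0 v hv hvz
    have h2 : (nb G v {w}).card ≤ 1 := nb_card_le.trans (by rw [card_singleton])
    have h3 : (nb G v {t}).card ≤ 1 := nb_card_le.trans (by rw [card_singleton])
    unfold ds
    omega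
  · intro _
    by_contra hcon
    rw [not_or] at hcon
    obtain ⟨v, hv, hvz⟩ := hC.ne
    have hm := h.m3
    have h1 := hdeg0 v hv hvz
    have h2 : (nb G v {w}).card ≤ 1 := nb_card_le.trans (by rw [card_singleton])
    have h3 : (nb G v {t}).card ≤ 1 := nb_card_le.trans (by rw [card_singleton])
    have h4 : (C.erase z).card ≤ 1 := by
      have := hcon.2
      omega
    have h5 : (nb G v C).card ≤ 1 := by
      refine (card_le_card (t := {z}) ?_).trans (by rw [card_singleton])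
      intro y hy
      rw [mem_singleton]
      by_contra hyz
      obtain ⟨hy1, hy2⟩ := mem_nb.1 hy
      have h6 := Finset.card_le_one.1 h4 v (mem_erase.2 ⟨hvz, hv⟩) y (mem_erase.2 ⟨hyz, hy1⟩)
      exact hy2.ne h6
    have h6 : 1 ≤ (nb G v {t}).card := by omega
    have h7 : 1 ≤ (nb G v A).card := by omega
    obtain ⟨t', ht'⟩ := card_pos.1 h6
    obtain ⟨a', ha'⟩ := card_pos.1 h7
    rw [mem_nb, mem_singleton] at ht'
    rw [mem_nb] at ha'
    have h8 : G.Adj v t := by
      rw [← ht'.1]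
      exact ht'.2
    exact ind v (mem_TT.2 ⟨hCD hv, hvz, a', ha'.1, ha'.2⟩) t tT h8

end Pool.Agent.Lib.MP_f599e5_co
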