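import Pool.Agent.Lib.MP_f599e5_co.A6b
import Pool.Agent.Lib.MP_f599e5_co.A6c

set_option autoImplicit false
set_option linter.unusedSectionVars false

/-!
# A6d: Case 2, (2a) first part and (2c)

`hang2`: from `hang2_ge` and `hang2_one` (`c.q1`).
`a2_main`: `D1` a component of `D \ U` (`U = M ∪ T0`), `D1 ~ M`, `D1 ~ B`, with a vertex `≠ z`.  By `hangset` and `hang2`: `Rz G D1 M B z`.
`alpha` with `Y = M`, `p = s + q - 1`, `p0 = 2`, `e = 1` (`pre2_M`, `M ∪ T0 ⊆ D \ D1`), degrees by `loss2_M` (`v ∈ D1` so `v ∉ U`; `(nb G v D).card ≤ (nb G v D1).card + (nb G v M).card + (nb G v T0).card`).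
So `he2` must fail: `m = s + q`, not `R0`, `(D1.erase z).card ≤ 1`; `pend`: `z ∈ D1`, `bd G D1 {z} = {w}`, `z` not `~ M`, `B`; so `D1 = {v,z}` with `v = w`, `v ~ z`.  `D1 ~ M`, `D1 ~ B` give `v ~ M`, `v ~ B`.  `bd G D {z} ⊆ {v} ∪ T0`
has at least 2 elements (`f3''`), so `z ~ T0`.
`a2_noz`: in particular `z ∉ D1` is impossible.
`c2`: `D2` a component of `D \ U`, `D2 ~ B`, with a vertex `≠ z`, not `~ M`: `bd G D D2 ⊆ T0`, at least 2 elements (`f3''`, `M ⊆ D \ D2`), so `q ≥ 2`.  `R0 G D2 T0 B`: (r1) connected, `~ T0`; (r2) `C'` with `(bd G D2 C').card ≤ 1`, not `~ T0`: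
`bd G D C' = bd G D2 C'`, contradiction to `f3''`.  `alpha` with `Y = T0`, `p = s + q - 2`, `p0 = 3`, `e = 1` (`pre2_T`), degrees by `loss2_T` (loss `≤ q - 1 ≤ p - 1`), `he2` by `Or.inl`.
-/

namespace Pool.Agent.Lib.MP_f599e5_co

open Finset

variable {V : Type} [DecidableEq V] {G : SimpleGraph V}

theorem hang2 {m : ℕ} {D A B : Finset V} {z : V} (h : Ctx G m D A B z) (ind : Ind G (TT G D A z))
    {M T0 D1 C : Finset V} {w : V} (c : Core2 G D A z M T0)
    (hD1 : IsComp G (D \ (M ∪ T0)) D1) (hC : Hang G D1 M B z C w) : False := by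
  have h1 := c.q1
  by_cases hq : T0.card = 1
  · exact hang2_one h ind c hq hD1 hC
  · exact hang2_ge h ind c (by omega) hD1 hC

/-- the exceptional situation of (2a) -/
structure Spec2 (G : SimpleGraph V) (m : ℕ) (D B : Finset V) (z : V) (M T0 D1 : Finset V) (v : V) : Prop where
  hm : m = M.card + T0.card
  vz : v ≠ z
  D1 : D1 = {v, z}
  adj : G.Adj v z
  zM : ¬ adjS G {z} M
  zB : ¬ adjS G {z} B
  vM : ∃ y ∈ M, G.Adj v y
  vB : ∃ b ∈ B, G.Adj v b
  zT : ∃ t ∈ T0, G.Adj z t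

theorem A6d_pre {U U' A : Finset V} {r : V} {L L' : ℕ} (h : Pre G U A r L) (hU : U ⊆ U') (hL : L = L') :
    Pre G U' A r L' := by
  subst hL
  obtain ⟨a, ha, hp⟩ := h
  exact ⟨a, ha, hp.mono (insert_subset_insert _ hU)⟩

theorem a2_main {m : ℕ} {D A B : Finset V} {z : V} (h : Ctx G m D A B z) (ind : Ind G (TT G D A z))
    {M T0 D1 : Finset V} (c : Core2 G D A z M T0) (hD1 : IsComp G (D \ (M ∪ T0)) D1)
    (hM : adjS G D1 M) (hB : adjS G D1 B) (hne : ∃ v ∈ D1, v ≠ z) : ∃ v, Spec2 G m D B z M T0 D1 v := by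
  have hD1D : D1 ⊆ D := hD1.1.trans sdiff_subset
  have hdj : ∀ x ∈ D1, x ∉ M ∪ T0 := fun x hx => (mem_sdiff.1 (hD1.1 hx)).2
  have hUD : M ∪ T0 ⊆ D \ D1 := fun x hx => mem_sdiff.2 ⟨c.UD hx, fun h1 => hdj x h1 hx⟩
  have hnbr : ∀ v ∈ D1, ∀ x ∈ D, G.Adj v x → x ∈ D1 ∨ x ∈ M ∪ T0 := fun v hv x hx ha =>
    nbr_of_closed hD1.1 hD1.2.1 hv hx ha
  have hs2 := c.s2
  have hq1 := c.q1
  have hRz : Rz G D1 M B z := by
    by_contra hR
    obtain ⟨C, w, hC⟩ := hangset hD1.2.2 hM hB hne hR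
    exact hang2 h ind c hD1 hC
  by_contra hcon
  refine h.alpha (D1 := D1) (Y := M) (z' := z) (p := M.card + T0.card - 1) (p0 := 2) (e := 1) hD1D
    (subset_union_left.trans hUD) hRz (by omega) (Or.inl rfl) ?_ ?_ ?_
  · intro y hy j hj
    exact A6d_pre (pre2_M h.sys.dA c hy (L := 2 + j) (by omega) (by omega)) hUD (by omega)
  · intro v hv hvz
    have h1 := h.deg v (hD1D hv) hvz
    have h2 : (nb G v D).card ≤ (nb G v D1).card + (nb G v (M ∪ T0)).card :=
      nb_card_le_add (fun x hx ha => hnbr v hv x hx ha)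
    rw [nb_card_union c.disj] at h2
    have h3 := loss2_M ind c (hD1D hv) (hdj v hv) hvz
    unfold ds at h1 ⊢
    omega
  · intro hm
    by_contra h0
    push Not at h0
    obtain ⟨hR0, hcard⟩ := h0
    obtain ⟨hz1, ⟨v, hv, hvz, hbd⟩, hzM, hzB⟩ := pend hD1.2.2 hM hB hRz hR0
    apply hcon
    have hDeq : ∀ x ∈ D1, x = v ∨ x = z := by
      intro x hx
      by_cases hxz : x = z
      · exact Or.inr hxz
      · exact Or.inl (card_le_one.1 (by omega : (D1.erase z).card ≤ 1) x (mem_erase.2 ⟨hxz, hx⟩) v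
          (mem_erase.2 ⟨hvz, hv⟩))
    have hzv : G.Adj z v := by
      have h1 : v ∈ bd G D1 {z} := by
        rw [hbd]
        exact mem_singleton_self v
      obtain ⟨_, _, x, hx, hxv⟩ := mem_bd.1 h1
      rw [mem_singleton] at hx
      subst hx
      exact hxv
    have hvM : ∃ t ∈ M, G.Adj v t := by
      obtain ⟨x, hx, t, ht', hxt⟩ := hM
      rcases hDeq x hx with e | e
      · exact ⟨t, ht', e ▸ hxt⟩
      · exact absurd ⟨z, mem_singleton_self z, t, ht', e ▸ hxt⟩ hzM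
    have hvB : ∃ b ∈ B, G.Adj v b := by
      obtain ⟨x, hx, t, ht', hxt⟩ := hB
      rcases hDeq x hx with e | e
      · exact ⟨t, ht', e ▸ hxt⟩
      · exact absurd ⟨z, mem_singleton_self z, t, ht', e ▸ hxt⟩ hzB
    refine ⟨v, ⟨by omega, hvz, ?_, hzv.symm, hzM, hzB, hvM, hvB, ?_⟩⟩
    · ext x
      rw [mem_insert, mem_singleton]
      constructor
      · exact hDeq x
      · rintro (e | e)
        · exact e ▸ hv
        · exact e ▸ hz1
    · by_contra hno
      have hzD : z ∈ D := hD1D hz1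
      have hsub : bd G D {z} ⊆ {v} := by
        intro x hx
        obtain ⟨hxD, hxz, z', hz', hzx⟩ := mem_bd.1 hx
        rw [mem_singleton] at hxz hz'
        subst hz'
        rw [mem_singleton]
        rcases hnbr z' hz1 x hxD hzx with h1 | h1
        · rcases hDeq x h1 with e | e
          · exact e
          · exact absurd e hxz
        · exfalso
          rcases mem_union.1 h1 with h1 | h1
          · exact hzM ⟨z', mem_singleton_self z', x, h1, hzx⟩
          · exact hno ⟨x, h1, hzx⟩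
      have hc1 := card_le_card hsub
      rw [card_singleton] at hc1
      have hc2 : 2 ≤ (D \ {z}).card := by
        rw [sdiff_singleton_eq_erase, card_erase_of_mem hzD]
        have := h.card3
        omega
      have hc3 := h.f3'' (C := {z}) (singleton_subset_iff.2 hzD) (singleton_nonempty z) hc2
      omega

theorem a2_noz {m : ℕ} {D A B : Finset V} {z : V} (h : Ctx G m D A B z) (ind : Ind G (TT G D A z))
    {M T0 D1 : Finset V} (c : Core2 G D A z M T0) (hD1 : IsComp G (D \ (M ∪ T0)) D1)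
    (hM : adjS G D1 M) (hB : adjS G D1 B) (hz : z ∉ D1) : False := by
  obtain ⟨x, hx, _⟩ := id hB
  obtain ⟨v, hv⟩ := a2_main h ind c hD1 hM hB ⟨x, hx, fun e => hz (e ▸ hx)⟩
  exact hz (by rw [hv.D1]; simp)

theorem c2 {m : ℕ} {D A B : Finset V} {z : V} (h : Ctx G m D A B z) (ind : Ind G (TT G D A z))
    {M T0 D2 : Finset V} (c : Core2 G D A z M T0) (hD2 : IsComp G (D \ (M ∪ T0)) D2)
    (hM : ¬ adjS G D2 M) (hB : adjS G D2 B) (hne : ∃ v ∈ D2, v ≠ z) : False := by
  have hDD : D2 ⊆ D := hD2.1.trans sdiff_subset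
  have hdj : ∀ x ∈ D2, x ∉ M ∪ T0 := fun x hx => (mem_sdiff.1 (hD2.1 hx)).2
  have hUD : M ∪ T0 ⊆ D \ D2 := fun x hx => mem_sdiff.2 ⟨c.UD hx, fun h1 => hdj x h1 hx⟩
  have hnbr : ∀ v ∈ D2, ∀ x ∈ D, G.Adj v x → x ∈ D2 ∨ x ∈ T0 := by
    intro v hv x hx ha
    rcases nbr_of_closed hD2.1 hD2.2.1 hv hx ha with h1 | h1
    · exact Or.inl h1
    · rcases mem_union.1 h1 with h1 | h1
      · exact absurd ⟨v, hv, x, h1, ha⟩ hM
      · exact Or.inr h1
  have hbS : bd G D D2 ⊆ T0 := by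
    intro x hx
    obtain ⟨hxD, hx2, v, hv, hvx⟩ := mem_bd.1 hx
    rcases hnbr v hv x hxD hvx with h1 | h1
    · exact absurd h1 hx2
    · exact h1
  have hs2 := c.s2
  have hq1 := c.q1
  have hqs := c.qs
  have hTD : M ⊆ D \ D2 := subset_union_left.trans hUD
  have hbne : (bd G D D2).Nonempty := by
    refine h.conn.bd_nonempty hDD hD2.2.2.1 ?_
    intro e
    obtain ⟨t, ht'⟩ := card_pos.1 (show 0 < M.card by omega)
    have := mem_sdiff.1 (hTD ht')
    rw [e] at this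
    exact this.2 this.1
  have hbig : ∀ C ⊆ D2, 2 ≤ (D \ C).card := by
    intro C hC
    have h1 := card_le_card (hTD.trans (sdiff_subset_sdiff (Subset.refl D) hC))
    omega
  have hf : ∀ C ⊆ D2, C.Nonempty → 2 ≤ (bd G D C).card := fun C hC hCne =>
    h.f3'' (hC.trans hDD) hCne (hbig C hC)
  have hS2 : 2 ≤ T0.card := le_trans (hf D2 (Subset.refl _) hD2.2.2.1) (card_le_card hbS)
  have hR0 : R0 G D2 T0 B := by
    refine ⟨hD2.2.2.1, ?_, ?_⟩
    · intro C hC hCne hb
      have e := hD2.2.2.2 C hC hCne hb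
      subst e
      refine ⟨?_, hB⟩
      obtain ⟨x, hx⟩ := hbne
      obtain ⟨_, _, v, hv, hvx⟩ := mem_bd.1 hx
      exact ⟨v, hv, x, hbS hx, hvx⟩
    · intro C hC hCne hb
      by_contra hno
      push Not at hno
      have e : bd G D C = bd G D2 C := by
        refine bd_eq_of hC hDD ?_
        intro v hv x hx hvx
        rcases hnbr v (hC hv) x hx hvx with h1 | h1
        · exact h1
        · exact absurd ⟨v, hv, x, h1, hvx⟩ hno.1
      have h1 := hf C hC hCne
      rw [e] at h1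
      omega
  refine h.alpha (D1 := D2) (Y := T0) (z' := z) (p := M.card + T0.card - 2) (p0 := 3) (e := 1) hDD
    (subset_union_right.trans hUD) (hR0.toRz hne) (by omega) (Or.inl rfl) ?_ ?_ (fun _ => Or.inl hR0)
  · intro y hy j hj
    exact A6d_pre (pre2_T h.sys.dA c hy hS2 (L := 3 + j) (by omega) (by omega)) hUD (by omega)
  · intro v hv hvz
    have h1 := h.deg v (hDD hv) hvz
    have h2 : (nb G v D).card ≤ (nb G v D2).card + (nb G v T0).card :=
      nb_card_le_add (fun x hx ha => hnbr v hv x hx ha)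
    have h3 := loss2_T ind c (hDD hv) hvz
    unfold ds at h1 ⊢
    omega

end Pool.Agent.Lib.MP_f599e5_co
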