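import Pool.Agent.Lib.MP_f599e5_co.A6d

set_option autoImplicit false
set_option linter.unusedSectionVars false

/-!
# A6e: Case 2, (2a), exceptional situation `D1 = {v,z}`: `q ≥ 2`, and easy part of `q = 1`

`U = M ∪ T0`, `v, z ∉ U`, `s = M.card`, `q = T0.card`, `m = s + q`.
`spec2_ge` (`q ≥ 2`): let `y ∈ M`, `y ~ v`, `v ~ b`: `pre2_M` (lengths `2..s+q` to `y`) then `y - v - b`: lengths `4..s+q+2`.  Let `t' ∈ T0`, `z ~ t'`: `pre2_T` with `L = s+q` to `t'`, then `t' - z - v - b`: length `s+q+3`.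
So `Adm G (s+q) D A B` with `d = 1`, `l = 4`.
`spec2_one_a` (`q = 1`, `T0 = {t}`): lengths `4..s+3` as before (`pre2_M`, `L = 2..s+1`), and length 3: `a - t - v - b` if `v ~ t`, or `a - t - y' - b` if `y' ∈ M` has a neighbour in `B`.  `Adm G (s+1) D A B` with `d = 1`, `l = 3`.
-/

namespace Pool.Agent.Lib.MP_f599e5_co

open Finset

variable {V : Type} [DecidableEq V] {G : SimpleGraph V}

theorem A6e_snoc {U A : Finset V} {r v : V} {L : ℕ} (h : Pre G U A r L) (ha : G.Adj r v) (hU : v ∉ U)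
    (hA : v ∉ A) : Pre G (insert v U) A v (L + 1) := by
  obtain ⟨a, haA, hP⟩ := h
  refine ⟨a, haA, (hP.snoc ha ?_).mono ?_⟩
  · intro hm
    rcases mem_insert.1 hm with h1 | h1
    · exact hA (h1 ▸ haA)
    · exact hU h1
  · intro x
    simp only [mem_insert]
    tauto

theorem A6e_end {D A B U : Finset V} {r b : V} {L : ℕ} (hs : Sys D A B) (h : Pre G U A r L) (hU : U ⊆ D)
    (hb : b ∈ B) (hrb : G.Adj r b) : ∃ a ∈ A, ∃ b ∈ B, PL G (insert a (insert b D)) a b (L + 1) := by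
  obtain ⟨a, haA, hP⟩ := h
  refine ⟨a, haA, b, hb, (hP.snoc hrb ?_).mono ?_⟩
  · intro hm
    rcases mem_insert.1 hm with h1 | h1
    · exact (disjoint_left.1 hs.AB) haA (h1 ▸ hb)
    · exact (disjoint_left.1 hs.dB) (hU h1) hb
  · intro x
    simp only [mem_insert]
    rintro (h1 | h1 | h1)
    · exact Or.inr (Or.inl h1)
    · exact Or.inl h1
    · exact Or.inr (Or.inr (hU h1))

/-- the part common to both statements: lengths `4 .. s+q+2` -/
theorem A6e_main {m : ℕ} {D A B : Finset V} {z v : V} (h : Ctx G m D A B z)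
    {M T0 D1 : Finset V} (c : Core2 G D A z M T0) (hD1 : IsComp G (D \ (M ∪ T0)) D1)
    (hs : Spec2 G m D B z M T0 D1 v) {L : ℕ} (h1 : 2 ≤ L) (h2 : L ≤ M.card + T0.card) :
    ∃ a ∈ A, ∃ b ∈ B, PL G (insert a (insert b D)) a b (L + 2) := by
  have hvD1 : v ∈ D1 := by rw [hs.D1]; exact mem_insert_self _ _
  obtain ⟨hvD, hvU⟩ := mem_sdiff.1 (hD1.1 hvD1)
  have hvA : v ∉ A := fun hvA => (disjoint_left.1 h.sys.dA) hvD hvA
  obtain ⟨y, hyM, hvy⟩ := hs.vM
  obtain ⟨b, hbB, hvb⟩ := hs.vB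
  have hP := A6e_snoc (pre2_M h.sys.dA c hyM h1 h2) hvy.symm hvU hvA
  exact A6e_end h.sys hP (insert_subset hvD c.UD) hbB hvb

theorem spec2_ge {m : ℕ} {D A B : Finset V} {z v : V} (h : Ctx G m D A B z)
    {M T0 D1 : Finset V} (c : Core2 G D A z M T0) (hD1 : IsComp G (D \ (M ∪ T0)) D1)
    (hs : Spec2 G m D B z M T0 D1 v) (hq : 2 ≤ T0.card) : False := by
  have hm := hs.hm
  have h2 := c.s2
  refine h.no ⟨1, Or.inl rfl, 4, by omega, ?_⟩
  intro i hi
  by_cases hi2 : i + 2 ≤ M.card + T0.card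
  · have := A6e_main h c hD1 hs (L := i + 2) (by omega) hi2
    have he : 4 + i * 1 = i + 2 + 2 := by ring
    rw [he]
    exact this
  · have hvD1 : v ∈ D1 := by rw [hs.D1]; exact mem_insert_self _ _
    have hzD1 : z ∈ D1 := by rw [hs.D1]; exact mem_insert_of_mem (mem_singleton_self _)
    obtain ⟨hvD, hvU⟩ := mem_sdiff.1 (hD1.1 hvD1)
    obtain ⟨hzD, hzU⟩ := mem_sdiff.1 (hD1.1 hzD1)
    have hvA : v ∉ A := fun hvA => (disjoint_left.1 h.sys.dA) hvD hvA
    have hzA : z ∉ A := fun hzA => (disjoint_left.1 h.sys.dA) hzD hzA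
    obtain ⟨t, htT, hzt⟩ := hs.zT
    obtain ⟨b, hbB, hvb⟩ := hs.vB
    have hP0 := pre2_T h.sys.dA c htT hq (L := M.card + T0.card) (by omega) le_rfl
    have hP1 := A6e_snoc hP0 hzt.symm hzU hzA
    have hvU' : v ∉ insert z (M ∪ T0) := by
      intro hm
      rcases mem_insert.1 hm with h1 | h1
      · exact hs.vz h1
      · exact hvU h1
    have hP2 := A6e_snoc hP1 hs.adj.symm hvU' hvA
    have := A6e_end h.sys hP2 (insert_subset hvD (insert_subset hzD c.UD)) hbB hvb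
    have he : 4 + i * 1 = M.card + T0.card + 1 + 1 + 1 := by omega
    rw [he]
    exact this

theorem spec2_one_a {m : ℕ} {D A B : Finset V} {z v t : V} (h : Ctx G m D A B z)
    {M T0 D1 : Finset V} (c : Core2 G D A z M T0) (hD1 : IsComp G (D \ (M ∪ T0)) D1)
    (hs : Spec2 G m D B z M T0 D1 v) (hq : T0 = {t})
    (ha : G.Adj v t ∨ ∃ y' ∈ M, ∃ b ∈ B, G.Adj y' b) : False := by
  have hm := hs.hm
  have h2 := c.s2
  have hq1 : T0.card = 1 := by rw [hq]; exact card_singleton t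
  have htT : t ∈ T0 := by rw [hq]; exact mem_singleton_self t
  obtain ⟨htD, htz, a, haA, hta⟩ := mem_TT.1 (c.T0T htT)
  have htA : t ∉ A := fun htA => (disjoint_left.1 h.sys.dA) htD htA
  have hpt : Pre G {t} A t 1 := ⟨a, haA, PL.edge hta.symm (mem_insert_self _ _)
    (mem_insert_of_mem (mem_singleton_self _))⟩
  refine h.no ⟨1, Or.inl rfl, 3, by omega, ?_⟩
  intro i hi
  by_cases hi1 : 1 ≤ i
  · have := A6e_main h c hD1 hs (L := i + 1) (by omega) (by omega)
    have he : 3 + i * 1 = i + 1 + 2 := by ring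
    rw [he]
    exact this
  · have hi0 : i = 0 := by omega
    subst hi0
    rcases ha with hvt | ⟨y, hyM, b, hbB, hyb⟩
    · have hvD1 : v ∈ D1 := by rw [hs.D1]; exact mem_insert_self _ _
      obtain ⟨hvD, hvU⟩ := mem_sdiff.1 (hD1.1 hvD1)
      have hvA : v ∉ A := fun hvA => (disjoint_left.1 h.sys.dA) hvD hvA
      obtain ⟨b, hbB, hvb⟩ := hs.vB
      have hP := A6e_snoc hpt hvt.symm (fun hm => hvt.ne (mem_singleton.1 hm)) hvA
      exact A6e_end h.sys hP (insert_subset hvD (singleton_subset_iff.2 htD)) hbB hvb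
    · have hyD := c.MD hyM
      have hyA : y ∉ A := fun hyA => (disjoint_left.1 h.sys.dA) hyD hyA
      have hty : G.Adj t y := c.cpl t htT y hyM
      have hP := A6e_snoc hpt hty (fun hm => hty.ne (mem_singleton.1 hm).symm) hyA
      exact A6e_end h.sys hP (insert_subset hyD (singleton_subset_iff.2 htD)) hbB hyb

end Pool.Agent.Lib.MP_f599e5_co
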