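import Pool.Agent.Lib.MP_f599e5_co.A4d
import Pool.Agent.Lib.MP_f599e5_co.A4e
import Pool.Agent.Lib.MP_f599e5_co.A4f

set_option autoImplicit false
set_option linter.unusedSectionVars false

/-!
# A6f: Lemma Z

`T_B° = {v,t}`, `t ∈ T_A°`, `v` not adjacent to `t`, the neighbours of `z` in `D` are exactly `v` and `t`, `z` not adjacent to `B`, and `D` has a further vertex.
`E := D \ {t,v,z}` (nonempty, vertices `≠ z`).  `E` is not `~ B` (a vertex of `E` adjacent to `B` would be in `T_B°`).  `E ~ A`: otherwise `bd G D E ⊆ {t,v}` (`z` is only adjacent to `v`, `t`), contradiction to `f4`.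
Let `D4` be the component of `E` containing a vertex adjacent to `A`.  Neighbours of `D4` in `D` lie in `D4 ∪ {t,v}`.
`h.symm.alpha` with `D1 := D4`, `Y := {t,v}`, target `A`, `z' = z`, `p = 2`, `p0 = 1`, `e = 2`:
 * `R0 G D4 {t,v} A`: (r1) a closed nonempty subset of `D4` is `D4`; `D4 ~ A`; `D4 ~ {t,v}` since `bd G D D4 ≠ ∅` (`conn`).  (r2) `C' ⊆ D4` nonempty, `(bd G D4 C').card ≤ 1`, not `~ {t,v}`: `bd G D C' = bd G D4 C'`, contradiction to `f3''` (`t, v ∈ D \ C'`, `t ≠ v`).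
   `Rz` by `R0.toRz`.
 * `Pre G (D \ D4) B y (1 + j*2)`, `j < 2`, `y ∈ {t,v}`: `b - t`; `b' - v - z - t`; `b' - v`; `b - t - z - v`.
 * degrees: `x ∈ D4`: not `~ B`; `(nb G x D).card ≤ (nb G x D4).card + (nb G x {t,v}).card` and `(nb G x {t,v}).card ≤ min 1 _ + 1`: `m + 1 ≤ ds G D4 {t,v} A x + 1`.
 * `he2` by `Or.inl`.
-/

namespace Pool.Agent.Lib.MP_f599e5_co

open Finset

variable {V : Type} [DecidableEq V] {G : SimpleGraph V}

theorem lemmaZ {m : ℕ} {D A B : Finset V} {z v t : V} (h : Ctx G m D A B z) (htA : t ∈ TT G D A z)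
    (hTB : TT G D B z = {v, t}) (hvt : v ≠ t) (hzD : z ∈ D) (hzv : G.Adj z v)
    (hzt : G.Adj z t) (hzB : ¬ ∃ b ∈ B, G.Adj z b) (hzN : ∀ x ∈ D, G.Adj z x → x = v ∨ x = t)
    (hbig : ∃ y ∈ D, y ≠ z ∧ y ≠ v ∧ y ≠ t) : False := by
  classical
  obtain ⟨htD, htz, hat⟩ := mem_TT.1 htA
  obtain ⟨_, _, bt, hbt, htbt⟩ := mem_TT.1 (show t ∈ TT G D B z by rw [hTB]; simp)
  obtain ⟨hvD, hvz, bv, hbv, hvbv⟩ := mem_TT.1 (show v ∈ TT G D B z by rw [hTB]; simp)
  obtain ⟨y0, hy0D, hy0z, hy0v, hy0t⟩ := hbig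
  set U : Finset V := {t, v, z} with hU
  have hmU : ∀ x, x ∈ U ↔ x = t ∨ x = v ∨ x = z := fun x => by
    rw [hU, Finset.mem_insert, Finset.mem_insert, Finset.mem_singleton]
  have hmE : ∀ x, x ∈ D \ U ↔ x ∈ D ∧ x ≠ t ∧ x ≠ v ∧ x ≠ z := fun x => by
    rw [Finset.mem_sdiff, hmU]
    tauto
  have hED : D \ U ⊆ D := Finset.sdiff_subset
  have hy0E : y0 ∈ D \ U := (hmE y0).2 ⟨hy0D, hy0t, hy0v, hy0z⟩
  have hEB : ∀ x ∈ D \ U, ∀ b ∈ B, ¬ G.Adj x b := by
    intro x hx b hb hxb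
    obtain ⟨hxD, hxt, hxv, hxz⟩ := (hmE x).1 hx
    have h1 : x ∈ TT G D B z := mem_TT.2 ⟨hxD, hxz, b, hb, hxb⟩
    rw [hTB, Finset.mem_insert, Finset.mem_singleton] at h1
    rcases h1 with h1 | h1
    · exact hxv h1
    · exact hxt h1
  have hEz : ∀ x ∈ D \ U, ¬ G.Adj x z := by
    intro x hx hxz
    obtain ⟨hxD, hxt, hxv, _⟩ := (hmE x).1 hx
    rcases hzN x hxD hxz.symm with h1 | h1
    · exact hxv h1
    · exact hxt h1
  have hEA : adjS G (D \ U) A := by
    by_contra hcon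
    have h1 := h.f4 hED ⟨y0, hy0E, hy0z⟩ hcon (fun ⟨x, hx, b, hb, hxb⟩ => hEB x hx b hb hxb)
    have h2 : bd G D (D \ U) ⊆ {t, v} := by
      intro w hw
      obtain ⟨hwD, hwE, x, hx, hxw⟩ := mem_bd.1 hw
      have h3 : w ∈ U := by
        by_contra h3
        exact hwE (Finset.mem_sdiff.2 ⟨hwD, h3⟩)
      rw [hmU] at h3
      rw [Finset.mem_insert, Finset.mem_singleton]
      rcases h3 with h3 | h3 | h3
      · exact Or.inl h3
      · exact Or.inr h3
      · exact absurd (h3 ▸ hxw) (hEz x hx)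
    have h3 := (Finset.card_le_card h2).trans Finset.card_le_two
    omega
  obtain ⟨x0, hx0, a0, ha0, hxa0⟩ := hEA
  obtain ⟨D4, hx0D4, hD4⟩ := exists_comp (G := G) hx0
  have hD4D : D4 ⊆ D := hD4.1.trans hED
  have hnb : ∀ x ∈ D4, ∀ y ∈ D, G.Adj x y → y ∈ D4 ∨ y ∈ ({t, v} : Finset V) := by
    intro x hx y hy hxy
    rcases nbr_of_closed hD4.1 hD4.2.1 hx hy hxy with h1 | h1
    · exact Or.inl h1
    · right
      rw [hmU] at h1
      rw [Finset.mem_insert, Finset.mem_singleton]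
      rcases h1 with h1 | h1 | h1
      · exact Or.inl h1
      · exact Or.inr h1
      · exact absurd (h1 ▸ hxy) (hEz x (hD4.1 hx))
  have hnot : ∀ x, (x = t ∨ x = v ∨ x = z) → x ∉ D4 := fun x hx hxD4 => by
    have h1 := (Finset.mem_sdiff.1 (hD4.1 hxD4)).2
    exact h1 ((hmU x).2 hx)
  have htD4 : t ∉ D4 := hnot t (Or.inl rfl)
  have hvD4 : v ∉ D4 := hnot v (Or.inr (Or.inl rfl))
  have hzD4 : z ∉ D4 := hnot z (Or.inr (Or.inr rfl))
  have hR0 : R0 G D4 {t, v} A := by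
    refine ⟨⟨x0, hx0D4⟩, ?_, ?_⟩
    · intro C hC hCne hCb
      have hCD : C = D4 := hD4.2.2.2 C hC hCne hCb
      subst hCD
      refine ⟨?_, x0, hx0D4, a0, ha0, hxa0⟩
      obtain ⟨w, hw⟩ := h.conn.bd_nonempty hD4D ⟨x0, hx0D4⟩ (fun h1 => htD4 (by rw [h1]; exact htD))
      obtain ⟨hwD, hwC, x, hx, hxw⟩ := mem_bd.1 hw
      rcases hnb x hx w hwD hxw with h1 | h1
      · exact absurd h1 hwC
      · exact ⟨x, hx, w, h1, hxw⟩
    · intro C hC hCne hCb
      by_cases hCy : adjS G C {t, v}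
      · exact Or.inl hCy
      · exfalso
        have h1 : bd G D C = bd G D4 C := bd_eq_of hC hD4D (fun x hx y hy hxy => by
          rcases hnb x (hC hx) y hy hxy with h1 | h1
          · exact h1
          · exact absurd ⟨x, hx, y, h1, hxy⟩ hCy)
        have h2 : 2 ≤ (D \ C).card := by
          have h3 : ({t, v} : Finset V) ⊆ D \ C := by
            intro x hx
            rw [Finset.mem_insert, Finset.mem_singleton] at hx
            rcases hx with rfl | rfl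
            · exact Finset.mem_sdiff.2 ⟨htD, fun h4 => htD4 (hC h4)⟩
            · exact Finset.mem_sdiff.2 ⟨hvD, fun h4 => hvD4 (hC h4)⟩
          have h5 := Finset.card_le_card h3
          rwa [Finset.card_pair hvt.symm] at h5
        have h3 := h.f3'' (hC.trans hD4D) hCne h2
        rw [h1] at h3
        omega
  have hzx0 : x0 ≠ z := ((hmE x0).1 hx0).2.2.2
  have hRz : Rz G D4 {t, v} A z := hR0.toRz ⟨x0, hx0D4, hzx0⟩
  have hY : ({t, v} : Finset V) ⊆ D \ D4 := by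
    intro x hx
    rw [Finset.mem_insert, Finset.mem_singleton] at hx
    rcases hx with rfl | rfl
    · exact Finset.mem_sdiff.2 ⟨htD, htD4⟩
    · exact Finset.mem_sdiff.2 ⟨hvD, hvD4⟩
  have hBD : ∀ b ∈ B, b ∉ D := fun b hb hbD => Finset.disjoint_left.1 h.sys.dB hbD hb
  -- paths of length three
  have h3path : ∀ p q b : V, b ∈ B → G.Adj b p → G.Adj p z → G.Adj z q → p ≠ q → p ∈ D → q ∈ D →
      p ∉ D4 → q ∉ D4 → p ≠ z → Pre G (D \ D4) B q 3 := by
    intro p q b hb hbp hpz hzq hpq hpD hqD hpD4 hqD4 hpz'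
    have e1 : PL G {z, q} z q 1 := PL.edge hzq (by simp) (by simp)
    have e2 := PL.cons hpz e1 (by
      rw [Finset.mem_insert, Finset.mem_singleton, not_or]
      exact ⟨hpz', hpq⟩)
    have e3 := PL.cons hbp e2 (by
      rw [Finset.mem_insert, Finset.mem_insert, Finset.mem_singleton, not_or, not_or]
      exact ⟨fun h1 => hBD b hb (h1 ▸ hpD), fun h1 => hBD b hb (h1 ▸ hzD),
        fun h1 => hBD b hb (h1 ▸ hqD)⟩)
    refine ⟨b, hb, PL.mono e3 (Finset.insert_subset_insert _ ?_)⟩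
    intro x hx
    rw [Finset.mem_insert, Finset.mem_insert, Finset.mem_singleton] at hx
    rcases hx with rfl | rfl | rfl
    · exact Finset.mem_sdiff.2 ⟨hpD, hpD4⟩
    · exact Finset.mem_sdiff.2 ⟨hzD, hzD4⟩
    · exact Finset.mem_sdiff.2 ⟨hqD, hqD4⟩
  refine h.symm.alpha (z' := z) (p := 2) (p0 := 1) (e := 2) hD4D hY hRz (by norm_num) (Or.inr rfl)
    ?_ ?_ (fun _ => Or.inl hR0)
  · intro y hy j hj
    rw [Finset.mem_insert, Finset.mem_singleton] at hy
    rcases Nat.lt_or_ge j 1 with hj0 | hj1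
    · have hj' : j = 0 := by omega
      subst hj'
      rcases hy with rfl | rfl
      · exact ⟨bt, hbt, PL.edge htbt.symm (Finset.mem_insert_self _ _)
          (Finset.mem_insert_of_mem (Finset.mem_sdiff.2 ⟨htD, htD4⟩))⟩
      · exact ⟨bv, hbv, PL.edge hvbv.symm (Finset.mem_insert_self _ _)
          (Finset.mem_insert_of_mem (Finset.mem_sdiff.2 ⟨hvD, hvD4⟩))⟩
    · have hj' : j = 1 := by omega
      subst hj'
      rcases hy with rfl | rfl
      · exact h3path v y bv hbv hvbv.symm hzv.symm hzt hvt hvD htD hvD4 htD4 hvz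
      · exact h3path t y bt hbt htbt.symm hzt.symm hzv hvt.symm htD hvD htD4 hvD4 htz
  · intro x hx hxz
    have h1 := h.deg x (hD4D hx) hxz
    have h2 : (nb G x D).card ≤ (nb G x D4).card + (nb G x {t, v}).card :=
      nb_card_le_add (fun y hy hxy => hnb x hx y hy hxy)
    have h3 : (nb G x {t, v}).card ≤ 2 := nb_card_le.trans Finset.card_le_two
    have h4 : (nb G x B).card = 0 := nb_card_zero (fun ⟨b, hb, hxb⟩ => hEB x (hD4.1 hx) b hb hxb)
    unfold ds at h1 ⊢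
    omega

end Pool.Agent.Lib.MP_f599e5_co
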