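import Pool.Agent.Lib.MP_f599e5_co.A6e
import Pool.Agent.Lib.MP_f599e5_co.A6f

set_option autoImplicit false
set_option linter.unusedSectionVars false

/-!
# A6g: Case 2, (2a) completed and `half2`

`spec2_one_b` (`T0 = {t}`, `v` not `~ t`, no vertex of `M` adjacent to `B`): Claim `TT G D B z ⊆ {v,t}`: let `u ∈ TT G D B z`, `u ≠ v`, `u ≠ t`; `u ∉ M`, `u ≠ z`, so `u ∈ D \ U`, `u ∉ D1 = {v,z}`.  Let `D2` be its component in `D \ U`; `D2` is disjoint from `D1`
(`IsComp.disjoint`), so `z ∉ D2`; `D2 ~ B`.  If `D2 ~ M`: `a2_noz`.  If not: `c2`.  By `h.symm.f6` equality.  `lemmaZ`: `z ∈ D1 ⊆ D`; the neighbours of `z` in `D` are in `D1` or `U` (component), not in `M` (`hs.zM`), so `v` or `t`; `z ~ t` by `hs.zT`; `hbig` with an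
element of `M` (it is `≠ z, v, t`).
`half2`: proved from the others.
-/

namespace Pool.Agent.Lib.MP_f599e5_co

open Finset

variable {V : Type} [DecidableEq V] {G : SimpleGraph V}

theorem spec2_one_b {m : ℕ} {D A B : Finset V} {z v t : V} (h : Ctx G m D A B z) (ind : Ind G (TT G D A z))
    {M T0 D1 : Finset V} (c : Core2 G D A z M T0) (hD1 : IsComp G (D \ (M ∪ T0)) D1)
    (hs : Spec2 G m D B z M T0 D1 v) (hq : T0 = {t}) (h1 : ¬ G.Adj v t)
    (h2 : ¬ ∃ y' ∈ M, ∃ b ∈ B, G.Adj y' b) : False := by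
  have hvD1 : v ∈ D1 := by rw [hs.D1]; simp
  have hzD1 : z ∈ D1 := by rw [hs.D1]; simp
  have hvDU := mem_sdiff.1 (hD1.1 hvD1)
  have hzDU := mem_sdiff.1 (hD1.1 hzD1)
  have htT0 : t ∈ T0 := by rw [hq]; simp
  have hvM : v ∉ M := fun hx => hvDU.2 (mem_union_left _ hx)
  have hvT : v ∉ T0 := fun hx => hvDU.2 (mem_union_right _ hx)
  have hvt : v ≠ t := fun e => hvT (e ▸ htT0)
  -- claim 1
  have hsub : TT G D B z ⊆ {v, t} := by
    intro u hu
    by_contra hcon
    rw [mem_insert, mem_singleton, not_or] at hcon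
    obtain ⟨huD, huz, b, hb, hub⟩ := mem_TT.1 hu
    have huM : u ∉ M := fun hx => h2 ⟨u, hx, b, hb, hub⟩
    have huT : u ∉ T0 := by
      intro hx
      rw [hq, mem_singleton] at hx
      exact hcon.2 hx
    have huU : u ∉ M ∪ T0 := by
      intro hx
      rcases mem_union.1 hx with hx | hx
      · exact huM hx
      · exact huT hx
    obtain ⟨D2, huD2, hD2⟩ := exists_comp (G := G) (D := D \ (M ∪ T0)) (v := u) (mem_sdiff.2 ⟨huD, huU⟩)
    have huD1 : u ∉ D1 := by
      rw [hs.D1, mem_insert, mem_singleton, not_or]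
      exact ⟨hcon.1, huz⟩
    have hne : D1 ≠ D2 := fun e => huD1 (e ▸ huD2)
    have hdisj := IsComp.disjoint hD1 hD2 hne
    have hzD2 : z ∉ D2 := fun hx => (Finset.disjoint_left.1 hdisj) hzD1 hx
    have hB2 : adjS G D2 B := ⟨u, huD2, b, hb, hub⟩
    by_cases hM : adjS G D2 M
    · exact a2_noz h ind c hD2 hM hB2 hzD2
    · exact c2 h ind c hD2 hM hB2 ⟨u, huD2, huz⟩
  have heq : TT G D B z = {v, t} := by
    refine eq_of_subset_of_card_le hsub ?_
    have h6 := h.symm.f6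
    exact le_trans (card_le_two) h6
  have hMne : M.Nonempty := by
    have := c.s2
    exact card_pos.1 (by omega)
  obtain ⟨y, hy⟩ := hMne
  refine lemmaZ h (c.T0T htT0) heq hvt hzDU.1 hs.adj.symm ?_ ?_ ?_ ⟨y, c.MD hy, ?_, ?_, ?_⟩
  · obtain ⟨t', ht', hzt'⟩ := hs.zT
    rw [hq, mem_singleton] at ht'
    rw [← ht']; exact hzt'
  · rintro ⟨b, hb, hzb⟩
    exact hs.zB ⟨z, mem_singleton_self z, b, hb, hzb⟩
  · intro x hx hzx
    rcases nbr_of_closed hD1.1 hD1.2.1 hzD1 hx hzx with h3 | h3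
    · rw [hs.D1, mem_insert, mem_singleton] at h3
      rcases h3 with h3 | h3
      · exact Or.inl h3
      · exact absurd (h3 ▸ hzx) (G.irrefl)
    · rcases mem_union.1 h3 with h3 | h3
      · exact absurd ⟨z, mem_singleton_self z, x, h3, hzx⟩ hs.zM
      · rw [hq, mem_singleton] at h3
        exact Or.inr h3
  · exact fun e => c.zM (e ▸ hy)
  · exact fun e => hvM (e ▸ hy)
  · exact fun e => (Finset.disjoint_left.1 c.disj) hy (e ▸ htT0)

theorem spec2_false {m : ℕ} {D A B : Finset V} {z v : V} (h : Ctx G m D A B z) (ind : Ind G (TT G D A z))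
    {M T0 D1 : Finset V} (c : Core2 G D A z M T0) (hD1 : IsComp G (D \ (M ∪ T0)) D1)
    (hs : Spec2 G m D B z M T0 D1 v) : False := by
  have hq1 := c.q1
  by_cases hq : 2 ≤ T0.card
  · exact spec2_ge h c hD1 hs hq
  · obtain ⟨t, ht⟩ := Finset.card_eq_one.1 (show T0.card = 1 by omega)
    by_cases ha : G.Adj v t ∨ ∃ y' ∈ M, ∃ b ∈ B, G.Adj y' b
    · exact spec2_one_a h c hD1 hs ht ha
    · rw [not_or] at ha
      exact spec2_one_b h ind c hD1 hs ht ha.1 ha.2

theorem half2 {m : ℕ} {D A B : Finset V} {z : V} (h : Ctx G m D A B z) (ind : Ind G (TT G D A z))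
    (indB : Ind G (TT G D B z)) {M T0 : Finset V} (c : Core2 G D A z M T0) : TT G D B z ⊆ T0 := by
  have hU : TT G D B z ⊆ M ∪ T0 := by
    intro u hu
    by_contra huU
    obtain ⟨huD, huz, b, hb, hub⟩ := mem_TT.1 hu
    obtain ⟨C, huC, hC⟩ := exists_comp (G := G) (D := D \ (M ∪ T0)) (v := u) (mem_sdiff.2 ⟨huD, huU⟩)
    by_cases hM : adjS G C M
    · obtain ⟨v, hv⟩ := a2_main h ind c hC hM ⟨u, huC, b, hb, hub⟩ ⟨u, huC, huz⟩
      exact spec2_false h ind c hC hv
    · exact c2 h ind c hC hM ⟨u, huC, b, hb, hub⟩ ⟨u, huC, huz⟩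
  have h6 := h.symm.f6
  intro u hu
  rcases mem_union.1 (hU hu) with huM | huT
  · exfalso
    obtain ⟨u', hu', hne⟩ := Finset.exists_mem_ne (show 1 < (TT G D B z).card by omega) u
    rcases mem_union.1 (hU hu') with h' | h'
    · exact indB u hu u' hu' (c.clq u huM u' h' (Ne.symm hne))
    · exact indB u' hu' u hu (c.cpl u' h' u huM)
  · exact huT

end Pool.Agent.Lib.MP_f599e5_co
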