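import Pool.Agent.Lib.MP_f599e5_co.A6a
import Pool.Agent.Lib.MP_f599e5_co.A4e

set_option autoImplicit false
set_option linter.unusedSectionVars false

/-!
# A6h: Case 2, (2d): `T_A° = T_B° = T0`: direct paths

`U = M ∪ T0`, `s = M.card`, `τ = T0.card`, `2 ≤ τ ≤ s`; every `t ∈ T0` has a neighbour in `A` and one in `B`; `M` is not adjacent to `A`, `B` (`z ∉ M`, `M ∩ TT = ∅`).
Lengths `4..s+τ+1` from `A` to `B` inside `U`: `a - t .. t' - b` with `t ≠ t'` in `T0` and `jp2` of length `2..s+τ-1`.  If `m ≤ s + τ - 2` this gives `Adm G m D A B` (`d = 1`, `l = 4`), contradiction.  So `s + τ ≤ m + 1`.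
Suppose `D \ insert z U = ∅`.  Let `x ∈ M`: not adjacent to `A`, `B`: `m + 1 ≤ ds = (nb G x D).card ≤ (s - 1) + τ + [x ~ z, z ∈ D]`.  So `m = s + τ - 1` (with the first part), `z ∈ D` and every `x ∈ M` is adjacent to `z`.
Then there is also a path of length `s + τ + 2`: `a - t - y1 - z - (y2 .. t') - b` with `t ≠ t'` in `T0`, `y1 ≠ y2` in `M`, and `y2 .. t'` of length `s + τ - 3` by `jp1` (reversed) for `M.erase y1`, `T0.erase t`
(cards `s - 1 ≥ τ - 1`, `s + τ - 3 ≥ 1`).  So lengths `4..s+τ+2`: `s + τ - 1 = m` lengths, `Adm G m D A B`, contradiction.  Hence there is a component (`exists_comp`).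
-/

namespace Pool.Agent.Lib.MP_f599e5_co

open Finset

variable {V : Type} [DecidableEq V] {G : SimpleGraph V}

theorem a6h_ends {D A B S : Finset V} (hs : Sys D A B) (hS : S ⊆ D) {a b t t' : V} (ha : a ∈ A) (hb : b ∈ B)
    (hat : G.Adj a t) (htb : G.Adj t' b) {L : ℕ} (h : PL G S t t' L) :
    PL G (insert a (insert b D)) a b (L + 2) := by
  have hbD : b ∉ D := fun h1 => Finset.disjoint_left.1 hs.dB h1 hb
  have haD : a ∉ D := fun h1 => Finset.disjoint_left.1 hs.dA h1 ha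
  have hab : a ≠ b := fun h1 => Finset.disjoint_left.1 hs.AB ha (h1 ▸ hb)
  have h1 : PL G (insert b S) t b (L + 1) := PL.snoc h htb (fun h2 => hbD (hS h2))
  have h2 : PL G (insert a (insert b S)) a b (L + 1 + 1) := by
    refine PL.cons hat h1 ?_
    rw [mem_insert]
    rintro (h3 | h3)
    · exact hab h3
    · exact haD (hS h3)
  refine PL.mono h2 ?_
  exact insert_subset_insert _ (insert_subset_insert _ hS)

theorem a6h_jp {m : ℕ} {D A B : Finset V} {z : V} (h : Ctx G m D A B z)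
    {M T0 : Finset V} (c : Core2 G D A z M T0) (hA : TT G D A z = T0) (hB : TT G D B z = T0)
    (hq : 2 ≤ T0.card) {L : ℕ} (h1 : 2 ≤ L) (h2 : L + 1 ≤ M.card + T0.card) :
    ∃ a ∈ A, ∃ b ∈ B, PL G (insert a (insert b D)) a b (L + 2) := by
  obtain ⟨t, ht, t', ht', hne⟩ := one_lt_card.1 (by omega : 1 < T0.card)
  obtain ⟨-, -, a, ha, hta⟩ := mem_TT.1 (hA.symm ▸ ht : t ∈ TT G D A z)
  obtain ⟨-, -, b, hb, htb⟩ := mem_TT.1 (hB.symm ▸ ht' : t' ∈ TT G D B z)
  exact ⟨a, ha, b, hb, a6h_ends h.sys c.UD ha hb hta.symm htb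
    (jp2 c.clq c.disj c.cpl c.qs ht ht' hne h1 h2)⟩

theorem a6h_long {m : ℕ} {D A B : Finset V} {z : V} (h : Ctx G m D A B z)
    {M T0 : Finset V} (c : Core2 G D A z M T0) (hA : TT G D A z = T0) (hB : TT G D B z = T0)
    (hq : 2 ≤ T0.card) (hz : z ∈ D) (hzM : ∀ x ∈ M, G.Adj x z) :
    ∃ a ∈ A, ∃ b ∈ B, PL G (insert a (insert b D)) a b (M.card + T0.card + 2) := by
  have hs2 := c.s2
  have hqs := c.qs
  obtain ⟨t, ht, t', ht', hne⟩ := one_lt_card.1 (by omega : 1 < T0.card)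
  obtain ⟨y1, hy1, y2, hy2, hney⟩ := one_lt_card.1 (by omega : 1 < M.card)
  obtain ⟨-, -, a, ha, hta⟩ := mem_TT.1 (hA.symm ▸ ht : t ∈ TT G D A z)
  obtain ⟨-, -, b, hb, htb⟩ := mem_TT.1 (hB.symm ▸ ht' : t' ∈ TT G D B z)
  have hMT := c.disj
  have hzU := c.zU
  rw [mem_union, not_or] at hzU
  have hcM : (M.erase y1).card = M.card - 1 := card_erase_of_mem hy1
  have hcT : (T0.erase t).card = T0.card - 1 := card_erase_of_mem ht
  have hj : PL G (M.erase y1 ∪ T0.erase t) t' y2 (M.card + T0.card - 3) := by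
    refine jp1 (fun x hx y hy => c.clq x (mem_of_mem_erase hx) y (mem_of_mem_erase hy)) ?_ ?_ ?_ ?_ ?_ ?_ ?_
    · exact Finset.disjoint_of_subset_left (erase_subset _ _)
        (Finset.disjoint_of_subset_right (erase_subset _ _) hMT)
    · exact fun x hx y hy => c.cpl x (mem_of_mem_erase hx) y (mem_of_mem_erase hy)
    · omega
    · exact mem_erase.2 ⟨hne.symm, ht'⟩
    · exact mem_erase.2 ⟨hney.symm, hy2⟩
    · omega
    · omega
  have hj1 := PL.cons (hzM y2 hy2).symm hj.symm (by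
    rw [mem_union, mem_erase, mem_erase]
    rintro (h3 | h3)
    · exact hzU.1 h3.2
    · exact hzU.2 h3.2)
  have hj2 := PL.cons (hzM y1 hy1) hj1 (by
    rw [mem_insert, mem_union, mem_erase, mem_erase]
    rintro (h3 | h3 | h3)
    · exact hzU.1 (h3 ▸ hy1)
    · exact h3.1 rfl
    · exact Finset.disjoint_left.1 hMT hy1 h3.2)
  have hj3 := PL.cons (c.cpl t ht y1 hy1) hj2 (by
    rw [mem_insert, mem_insert, mem_union, mem_erase, mem_erase]
    rintro (h3 | h3 | h3 | h3)
    · exact Finset.disjoint_left.1 hMT hy1 (h3 ▸ ht)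
    · exact hzU.2 (h3 ▸ ht)
    · exact Finset.disjoint_left.1 hMT h3.2 ht
    · exact h3.1 rfl)
  have hMD := c.MD
  have htD : ∀ v ∈ T0, v ∈ D := fun v hv => c.UD (mem_union_right _ hv)
  have hfin := a6h_ends h.sys (S := insert t (insert y1 (insert z (M.erase y1 ∪ T0.erase t)))) (by
    intro x hx
    rw [mem_insert, mem_insert, mem_insert, mem_union, mem_erase, mem_erase] at hx
    rcases hx with rfl | rfl | rfl | h3 | h3
    · exact htD _ ht
    · exact hMD hy1
    · exact hz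
    · exact hMD h3.2
    · exact htD _ h3.2) ha hb hta.symm htb hj3
  refine ⟨a, ha, b, hb, ?_⟩
  have he : M.card + T0.card - 3 + 1 + 1 + 1 + 2 = M.card + T0.card + 2 := by omega
  rw [he] at hfin
  exact hfin

theorem d2_direct {m : ℕ} {D A B : Finset V} {z : V} (h : Ctx G m D A B z) (ind : Ind G (TT G D A z))
    {M T0 : Finset V} (c : Core2 G D A z M T0) (hA : TT G D A z = T0) (hB : TT G D B z = T0)
    (hq : 2 ≤ T0.card) : M.card + T0.card ≤ m + 1 ∧ ∃ Q, IsComp G (D \ insert z (M ∪ T0)) Q := by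
  have hs2 := c.s2
  have hqs := c.qs
  have hm3 := h.m3
  have h1 : M.card + T0.card ≤ m + 1 := by
    by_contra hcon
    refine h.no ⟨1, Or.inl rfl, 4, by omega, fun i hi => ?_⟩
    obtain ⟨a, ha, b, hb, hp⟩ := a6h_jp h c hA hB hq (L := 2 + i) (by omega) (by omega)
    refine ⟨a, ha, b, hb, ?_⟩
    have he : 2 + i + 2 = 4 + i * 1 := by omega
    rw [he] at hp
    exact hp
  refine ⟨h1, ?_⟩
  by_cases hne : (D \ insert z (M ∪ T0)).Nonempty
  · obtain ⟨v, hv⟩ := hne
    obtain ⟨C, -, hC⟩ := exists_comp (G := G) hv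
    exact ⟨C, hC⟩
  exfalso
  rw [not_nonempty_iff_eq_empty, sdiff_eq_empty_iff_subset] at hne
  have hMB : ∀ v ∈ M, ¬ ∃ b ∈ B, G.Adj v b := by
    intro v hv hvb
    have h2 : v ∈ TT G D B z := mem_TT.2 ⟨c.MD hv, fun h3 => c.zM (h3 ▸ hv), hvb⟩
    rw [hB] at h2
    exact Finset.disjoint_left.1 c.disj hv h2
  -- the degree of a vertex of `M`
  have hdeg : ∀ x ∈ M, m + 1 ≤ (nb G x D).card := by
    intro x hx
    have h2 := h.deg x (c.MD hx) (fun h3 => c.zM (h3 ▸ hx))
    unfold ds at h2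
    rw [nb_card_zero (c.MA x hx), nb_card_zero (hMB x hx)] at h2
    simpa using h2
  have hcU : ∀ x ∈ M, (nb G x (M ∪ T0)).card ≤ M.card - 1 + T0.card := by
    intro x hx
    have h2 : nb G x (M ∪ T0) ⊆ M.erase x ∪ T0 := by
      intro w hw
      rw [mem_nb, mem_union] at hw
      rw [mem_union, mem_erase]
      rcases hw with ⟨hw | hw, hw2⟩
      · exact Or.inl ⟨fun h3 => G.loopless.irrefl x (h3 ▸ hw2), hw⟩
      · exact Or.inr hw
    refine le_trans (card_le_card h2) (le_trans (card_union_le _ _) ?_)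
    rw [card_erase_of_mem hx]
  have hzz : ∀ x ∈ M, z ∈ D ∧ G.Adj x z := by
    intro x hx
    by_contra hcon
    have h2 : nb G x D ⊆ nb G x (M ∪ T0) := by
      intro w hw
      rw [mem_nb] at hw ⊢
      refine ⟨?_, hw.2⟩
      rcases mem_insert.1 (hne hw.1) with h3 | h3
      · exact absurd ⟨h3 ▸ hw.1, h3 ▸ hw.2⟩ hcon
      · exact h3
    have h3 := card_le_card h2
    have h4 := hdeg x hx
    have h5 := hcU x hx
    omega
  obtain ⟨x, hx⟩ : M.Nonempty := card_pos.1 (by omega)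
  have hzD := (hzz x hx).1
  have hsm : M.card + T0.card = m + 1 := by
    have h2 : (nb G x D).card ≤ (nb G x (M ∪ T0)).card + (nb G x {z}).card := by
      refine nb_card_le_add fun w hw _ => ?_
      rcases mem_insert.1 (hne hw) with h3 | h3
      · exact Or.inr (mem_singleton.2 h3)
      · exact Or.inl h3
    have h3 : (nb G x {z}).card ≤ 1 := by
      have := nb_card_le (G := G) (v := x) (A := {z})
      simpa using this
    have h4 := hdeg x hx
    have h5 := hcU x hx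
    omega
  refine h.no ⟨1, Or.inl rfl, 4, by omega, fun i hi => ?_⟩
  by_cases hi2 : i + 2 ≤ m
  · obtain ⟨a, ha, b, hb, hp⟩ := a6h_jp h c hA hB hq (L := 2 + i) (by omega) (by omega)
    refine ⟨a, ha, b, hb, ?_⟩
    have he : 2 + i + 2 = 4 + i * 1 := by omega
    rw [he] at hp
    exact hp
  · obtain ⟨a, ha, b, hb, hp⟩ := a6h_long h c hA hB hq hzD (fun x hx => (hzz x hx).2)
    refine ⟨a, ha, b, hb, ?_⟩
    have he : M.card + T0.card + 2 = 4 + i * 1 := by omega
    rw [he] at hp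
    exact hp

end Pool.Agent.Lib.MP_f599e5_co
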