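import Pool.Agent.Lib.MP_f599e5_co.A6a
import Pool.Agent.Lib.MP_f599e5_co.A4e

set_option autoImplicit false
set_option linter.unusedSectionVars false

/-!
# A6i: Case 2, (2d), `T_A° = T_B° = T0`, `Q` a component of `D \ (U + z)` adjacent to `T0` and to `M`

`U = M ∪ T0`, `s = M.card`, `τ = T0.card`, `2 ≤ τ ≤ s`, `s + τ ≤ m + 1`.  `Q` is not adjacent to `A`, `B` (its vertices are not in `TT`, and `≠ z`).  `qset` with `W = U`: `D2`; `Y1 = T0`, `Y2 = M`: `Rz G D2 T0 M z`.
`mid` with `p = s + τ - 2`, `p0 = 3`, `e = 1`: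
 * `Link G (D \ D2) A B t y (3 + j)`, `j < s + τ - 2`, `t ∈ T0`, `y ∈ M`: `a - t` (length 1) and `y .. t' - b`, `t' ∈ T0.erase t`, `jp1` (reversed) in `M ∪ T0.erase t` with length `1 + j ≤ s + (τ-1) - 1`.
 * degrees: `v ∈ D2`, `v ≠ z`, so `v ∈ Q`: not `~ A`, `B`, `(nb G v D).card ≤ (nb G v D2).card + (nb G v T0).card + (nb G v M).card`, and `(nb G v T0).card + (nb G v M).card + 3 ≤ [v~T0] + [v~M] + s + τ`:
   by `c.max1` `v` is not both adjacent to `T0` and complete to `M`.  (`v ~ T0`, `v ~ M`: `≤ τ + (s-1)`;  `v ~ T0` only: `≤ τ`, `s ≥ 2`;  `v ~ M` only: `≤ s`, `τ ≥ 2`;  none: `0`.)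
 * `he2`: `m = p + 1 = s + τ - 1`.  Suppose `(D2.erase z).card ≤ 1` and not `R0`.  If `z ∉ D2` then `Rz` gives `R0` directly; so `z ∈ D2` and `D2 = {x,z}`, `Q = {x}`, `D2` connected: `x ~ z`.
   `s + τ = m + 1 ≤ ds G D A B x = (nb G x D).card ≤ 1 + (nb G x M).card + (nb G x T0).card`.  If `x` is not adjacent to `T0`: `≤ 1 + s < s + τ`, contradiction.  So `x ~ T0`, `(nb G x M).card ≤ s - 1` (`max1`), hence
   `(nb G x M).card = s - 1 ≥ 1`, `x` is complete to `T0`.  Lengths `4..s+τ+1`: `a - t .. t' - b`, `jp2` of length `2..s+τ-1`.  Length `s+τ+2`: `a - t - x - y .. t' - b` with `t ≠ t'`, `y ∈ M`, `y ~ x`, `jp1` (reversed) of length `s+τ-2` in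
   `M ∪ T0.erase t`.  `Adm G (s+τ-1) D A B` with `l = 4`, contradiction.
-/

namespace Pool.Agent.Lib.MP_f599e5_co

open Finset

variable {V : Type} [DecidableEq V] {G : SimpleGraph V}

/-- a short form of the degree estimate -/
private theorem a6i_key {m : ℕ} {D A B : Finset V} {z : V} (h : Ctx G m D A B z)
    {M T0 D2 : Finset V} (c : Core2 G D A z M T0) (hq : 2 ≤ T0.card) {v : V} (hvD : v ∈ D)
    (hvM : v ∉ M) (hvz : v ≠ z) (hvA : ¬ ∃ a ∈ A, G.Adj v a) (hvB : ¬ ∃ b ∈ B, G.Adj v b)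
    (hnb : ∀ x ∈ D, G.Adj v x → x ∈ D2 ∨ x ∈ M ∪ T0) :
    m + 1 ≤ (nb G v D2).card + ((nb G v M).card + (nb G v T0).card) ∧
      (nb G v T0).card ≤ T0.card ∧ (nb G v M).card ≤ M.card ∧
      (1 ≤ (nb G v T0).card → (nb G v M).card + 1 ≤ M.card) := by
  have h1 := h.deg v hvD hvz
  unfold ds at h1
  rw [nb_card_zero hvA, nb_card_zero hvB] at h1
  have h2 : (nb G v D).card ≤ (nb G v D2).card + (nb G v (M ∪ T0)).card := nb_card_le_add hnb
  have h3 : (nb G v (M ∪ T0)).card = (nb G v M).card + (nb G v T0).card := nb_card_union c.disj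
  refine ⟨by omega, nb_card_le, nb_card_le, fun h4 => ?_⟩
  obtain ⟨t, ht⟩ := Finset.card_pos.1 (show 0 < (nb G v T0).card by omega)
  obtain ⟨htT, hvt⟩ := mem_nb.1 ht
  obtain ⟨y, hy, hvy⟩ := c.max1 v hvD hvM hvz hvA t htT hvt
  exact nb_card_lt hy hvy

private theorem a6i_other {T0 : Finset V} (hq : 2 ≤ T0.card) (t : V) : ∃ t' ∈ T0, t' ≠ t := by
  have h1 : (({t} : Finset V)).card < T0.card := by rw [Finset.card_singleton]; omega
  obtain ⟨t', ht', hn⟩ := Finset.exists_mem_notMem_of_card_lt_card h1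
  exact ⟨t', ht', fun he => hn (Finset.mem_singleton.2 he)⟩

/-- the tail `y .. t' - b` avoiding `t` -/
private theorem a6i_tail {D A B : Finset V} {z : V} {M T0 : Finset V} (c : Core2 G D A z M T0)
    (hq : 2 ≤ T0.card) (hDB : Disjoint D B) {t t' y b : V} (ht : t ∈ T0) (ht' : t' ∈ T0)
    (hne : t' ≠ t) (hy : y ∈ M) (hb : b ∈ B) (htb : G.Adj t' b) {L : ℕ} (h1 : 1 ≤ L)
    (h2 : L + 2 ≤ M.card + T0.card) :
    PL G (insert b (M ∪ T0.erase t)) y b (L + 1) := by
  have hc1 : (T0.erase t).card = T0.card - 1 := Finset.card_erase_of_mem ht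
  have hP := jp1 (G := G) (M := M) (T := T0.erase t) c.clq
    (c.disj.mono_right (Finset.erase_subset _ _))
    (fun x hx y' hy' => c.cpl x (Finset.mem_of_mem_erase hx) y' hy') (by have := c.qs; omega)
    (Finset.mem_erase.2 ⟨hne, ht'⟩) hy h1 (by omega)
  refine hP.symm.snoc htb fun hbU => ?_
  refine Finset.disjoint_right.1 hDB hb (c.UD ?_)
  rcases Finset.mem_union.1 hbU with h3 | h3
  · exact Finset.mem_union_left _ h3
  · exact Finset.mem_union_right _ (Finset.mem_of_mem_erase h3)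

theorem d2_mixed {m : ℕ} {D A B : Finset V} {z : V} (h : Ctx G m D A B z) (ind : Ind G (TT G D A z))
    {M T0 Q : Finset V} (c : Core2 G D A z M T0) (hA : TT G D A z = T0) (hB : TT G D B z = T0)
    (hq : 2 ≤ T0.card) (hm : M.card + T0.card ≤ m + 1) (hQ : IsComp G (D \ insert z (M ∪ T0)) Q)
    (hQT : adjS G Q T0) (hQM : adjS G Q M) : False := by
  have hs2 := c.s2
  have hqs := c.qs
  -- elementary facts on the vertices of `Q`
  have hQmem : ∀ v ∈ Q, v ∈ D ∧ v ≠ z ∧ v ∉ M ∧ v ∉ T0 := by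
    intro v hv
    have h1 := Finset.mem_sdiff.1 (hQ.1 hv)
    rw [Finset.mem_insert, Finset.mem_union] at h1
    exact ⟨h1.1, fun e => h1.2 (Or.inl e), fun e => h1.2 (Or.inr (Or.inl e)),
      fun e => h1.2 (Or.inr (Or.inr e))⟩
  have hvA : ∀ v ∈ Q, ¬ ∃ a ∈ A, G.Adj v a := by
    intro v hv hex
    obtain ⟨h1, h2, _, h4⟩ := hQmem v hv
    exact h4 (hA ▸ mem_TT.2 ⟨h1, h2, hex⟩)
  have hvB : ∀ v ∈ Q, ¬ ∃ b ∈ B, G.Adj v b := by
    intro v hv hex
    obtain ⟨h1, h2, _, h4⟩ := hQmem v hv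
    exact h4 (hB ▸ mem_TT.2 ⟨h1, h2, hex⟩)
  have hQA : ¬ adjS G Q A := fun ⟨v, hv, a, ha, hva⟩ => hvA v hv ⟨a, ha, hva⟩
  have hQB : ¬ adjS G Q B := fun ⟨v, hv, a, ha, hva⟩ => hvB v hv ⟨a, ha, hva⟩
  obtain ⟨D2, hQD2, hD2z, hD2D, hdisj, hconn, hnb, hRz⟩ := h.qset c.UD c.zU hQ hQA hQB
  have hRz' : Rz G D2 T0 M z := hRz T0 M Finset.subset_union_right Finset.subset_union_left hQT hQM
    fun x hx _ => (Finset.mem_union.1 hx).symm
  have hUD2 : ∀ x ∈ M ∪ T0, x ∈ D \ D2 := fun x hx =>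
    Finset.mem_sdiff.2 ⟨c.UD hx, fun hx2 => Finset.disjoint_left.1 hdisj hx2 hx⟩
  have htA : ∀ t ∈ T0, ∃ a ∈ A, G.Adj t a := fun t ht => (mem_TT.1 (by rw [hA]; exact ht)).2.2
  have htB : ∀ t ∈ T0, ∃ b ∈ B, G.Adj t b := fun t ht => (mem_TT.1 (by rw [hB]; exact ht)).2.2
  have hinQ : ∀ v ∈ D2, v ≠ z → v ∈ Q := fun v hv hvz => by
    rcases Finset.mem_insert.1 (hD2z hv) with h1 | h1
    · exact absurd h1 hvz
    · exact h1
  refine h.mid (D2 := D2) (Y1 := T0) (Y2 := M) (z' := z) (p := M.card + T0.card - 2) (p0 := 3)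
    (e := 1) hD2D (fun x hx => hUD2 x (Finset.mem_union_right _ hx))
    (fun x hx => hUD2 x (Finset.mem_union_left _ hx)) c.disj.symm hRz' (by omega) (Or.inl rfl)
    ?_ ?_ ?_
  · -- the links
    intro t ht y hy j hj
    obtain ⟨a, ha, hta⟩ := htA t ht
    obtain ⟨t', ht', hne⟩ := a6i_other hq t
    obtain ⟨b, hb, htb⟩ := htB t' ht'
    have htail := a6i_tail c hq h.sys.dB ht ht' hne hy hb htb (L := 1 + j) (by omega) (by omega)
    refine ⟨a, ha, b, hb, {t}, M ∪ T0.erase t, ?_, ?_, ?_, 1, 1 + j + 1, by omega, ?_, htail⟩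
    · intro x hx
      rw [Finset.mem_singleton.1 hx]
      exact hUD2 t (Finset.mem_union_right _ ht)
    · intro x hx
      refine hUD2 x ?_
      rcases Finset.mem_union.1 hx with h3 | h3
      · exact Finset.mem_union_left _ h3
      · exact Finset.mem_union_right _ (Finset.mem_of_mem_erase h3)
    · rw [Finset.disjoint_singleton_left, Finset.mem_union, not_or]
      exact ⟨fun h3 => Finset.disjoint_left.1 c.disj h3 ht, Finset.notMem_erase _ _⟩
    · exact PL.edge hta.symm (Finset.mem_insert_self _ _)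
        (Finset.mem_insert_of_mem (Finset.mem_singleton_self _))
  · -- the degrees
    intro v hv hvz
    have hvQ := hinQ v hv hvz
    obtain ⟨h1, h2, h3, h4⟩ := hQmem v hvQ
    obtain ⟨k1, k2, k3, k4⟩ := a6i_key h c hq h1 h3 h2 (hvA v hvQ) (hvB v hvQ) (hnb v hvQ)
    unfold ds
    by_cases h5 : 1 ≤ (nb G v T0).card
    · have h6 := k4 h5
      omega
    · omega
  · -- the exceptional case
    intro hmp
    by_contra hcon
    rw [not_or, not_le] at hcon
    obtain ⟨hR0, hcard⟩ := hcon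
    have hzD2 : z ∈ D2 := by
      by_contra hz
      apply hR0
      obtain ⟨v, hv, _⟩ := hRz'.ne
      refine ⟨⟨v, hv⟩, fun C hC hne hb => hRz'.r1 C hC ?_ hb, fun C hC hne hb => hRz'.r2 C hC ?_ hb⟩
      · obtain ⟨w, hw⟩ := hne
        exact ⟨w, hw, fun e => hz (e ▸ hC hw)⟩
      · obtain ⟨w, hw⟩ := hne
        exact ⟨w, hw, fun e => hz (e ▸ hC hw)⟩
    obtain ⟨x, hxQ⟩ := hQ.2.2.1
    obtain ⟨hxD, hxz, hxM, hxT⟩ := hQmem x hxQ
    have hxD2 : x ∈ D2 := hQD2 hxQ
    have hD2x : ∀ w ∈ D2, w ≠ z → w = x := by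
      intro w hw hwz
      by_contra hwx
      have h1 : ({w, x} : Finset V) ⊆ D2.erase z := by
        intro u hu
        rw [Finset.mem_insert, Finset.mem_singleton] at hu
        rcases hu with rfl | rfl
        · exact Finset.mem_erase.2 ⟨hwz, hw⟩
        · exact Finset.mem_erase.2 ⟨hxz, hxD2⟩
      have h2 := Finset.card_le_card h1
      rw [Finset.card_pair hwx] at h2
      omega
    have hnbD2 : (nb G x D2).card ≤ 1 := by
      have h1 : nb G x D2 ⊆ {z} := by
        intro w hw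
        obtain ⟨hw1, hw2⟩ := mem_nb.1 hw
        rw [Finset.mem_singleton]
        by_contra hwz
        rw [hD2x w hw1 hwz] at hw2
        exact G.loopless.irrefl x hw2
      have h2 := Finset.card_le_card h1
      rwa [Finset.card_singleton] at h2
    obtain ⟨k1, k2, k3, k4⟩ := a6i_key h c hq hxD hxM hxz (hvA x hxQ) (hvB x hxQ) (hnb x hxQ)
    have hT1 : 1 ≤ (nb G x T0).card := by
      by_contra h1
      omega
    have k5 := k4 hT1
    have hTall : ∀ t ∈ T0, G.Adj x t := by
      intro t ht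
      by_contra h1
      have h2 := nb_card_lt (G := G) ht h1
      omega
    obtain ⟨y, hy⟩ := Finset.card_pos.1 (show 0 < (nb G x M).card by omega)
    obtain ⟨hyM, hxy⟩ := mem_nb.1 hy
    -- two vertices of `T0`
    obtain ⟨t, ht⟩ := Finset.card_pos.1 (show 0 < T0.card by omega)
    obtain ⟨t', ht', hne⟩ := a6i_other hq t
    obtain ⟨a, ha, hta⟩ := htA t ht
    obtain ⟨b, hb, htb⟩ := htB t' ht'
    have hab : a ≠ b := fun e => Finset.disjoint_left.1 h.sys.AB ha (e ▸ hb)
    have haD : a ∉ D := fun h1 => Finset.disjoint_left.1 h.sys.dA h1 ha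
    have hbD : b ∉ D := fun h1 => Finset.disjoint_left.1 h.sys.dB h1 hb
    have hUsub : M ∪ T0 ⊆ D := c.UD
    have htD : t ∈ D := hUsub (Finset.mem_union_right _ ht)
    apply h.no
    refine ⟨1, Or.inl rfl, 4, by omega, fun i hi => ⟨a, ha, b, hb, ?_⟩⟩
    by_cases hi2 : i + 3 ≤ M.card + T0.card
    · have hP := jp2 (G := G) c.clq c.disj c.cpl c.qs ht ht' hne.symm (L := 2 + i) (by omega) (by omega)
      have hP2 := hP.snoc htb (fun h1 => hbD (hUsub h1))
      have hP3 := PL.cons hta.symm hP2 (fun h1 => by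
        rcases Finset.mem_insert.1 h1 with h1 | h1
        · exact hab h1
        · exact haD (hUsub h1))
      have hlen : 2 + i + 1 + 1 = 4 + i * 1 := by omega
      rw [hlen] at hP3
      refine hP3.mono (Finset.insert_subset_insert _ (Finset.insert_subset_insert _ hUsub))
    · have hi3 : i = M.card + T0.card - 2 := by omega
      have htail := a6i_tail c hq h.sys.dB ht ht' hne hyM hb htb (L := M.card + T0.card - 2)
        (by omega) (by omega)
      have hUe : M ∪ T0.erase t ⊆ D := fun w hw => by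
        rcases Finset.mem_union.1 hw with h3 | h3
        · exact hUsub (Finset.mem_union_left _ h3)
        · exact hUsub (Finset.mem_union_right _ (Finset.mem_of_mem_erase h3))
      have h1 := PL.cons hxy htail (fun hx => by
        rcases Finset.mem_insert.1 hx with h2 | h2
        · exact hbD (h2 ▸ hxD)
        · rcases Finset.mem_union.1 h2 with h3 | h3
          · exact hxM h3
          · exact hxT (Finset.mem_of_mem_erase h3))
      have h2 := PL.cons (hTall t ht).symm h1 (fun hx => by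
        rcases Finset.mem_insert.1 hx with h2 | h2
        · exact hxT (h2 ▸ ht)
        · rcases Finset.mem_insert.1 h2 with h2 | h2
          · exact hbD (h2 ▸ htD)
          · rcases Finset.mem_union.1 h2 with h3 | h3
            · exact Finset.disjoint_left.1 c.disj h3 ht
            · exact Finset.notMem_erase _ _ h3)
      have h3 := PL.cons hta.symm h2 (fun hx => by
        rcases Finset.mem_insert.1 hx with h2 | h2
        · exact haD (h2 ▸ htD)
        · rcases Finset.mem_insert.1 h2 with h2 | h2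
          · exact haD (h2 ▸ hxD)
          · rcases Finset.mem_insert.1 h2 with h2 | h2
            · exact hab h2
            · exact haD (hUe h2))
      have hlen : M.card + T0.card - 2 + 1 + 1 + 1 + 1 = 4 + i * 1 := by omega
      rw [hlen] at h3
      refine h3.mono fun w hw => ?_
      rw [Finset.mem_insert, Finset.mem_insert]
      rcases Finset.mem_insert.1 hw with h4 | h4
      · exact Or.inl h4
      · rcases Finset.mem_insert.1 h4 with h4 | h4
        · exact Or.inr (Or.inr (h4 ▸ htD))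
        · rcases Finset.mem_insert.1 h4 with h4 | h4
          · exact Or.inr (Or.inr (h4 ▸ hxD))
          · rcases Finset.mem_insert.1 h4 with h4 | h4
            · exact Or.inr (Or.inl h4)
            · exact Or.inr (Or.inr (hUe h4))

end Pool.Agent.Lib.MP_f599e5_co
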