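import Pool.Agent.Lib.MP_f599e5_co.A6a
import Pool.Agent.Lib.MP_f599e5_co.A4e

set_option autoImplicit false
set_option linter.unusedSectionVars false

/-!
# A6j: Case 2, (2d), `Q` a component of `D \ (U + z)` adjacent to only one of `T0`, `M`

`U = M ∪ T0`, `s = M.card`, `τ = T0.card`, `2 ≤ τ ≤ s`, `s + τ ≤ m + 1`.  `Q` not adjacent to `A`, `B`.  `f4`: `3 ≤ (bd G D Q).card`, `bd G D Q ⊆ insert z U`, so at least two elements of `U` are adjacent to `Q`.  `qset` with `W = U`.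
`d2_T` (`Q` not `~ M`): `t1 ≠ t2` in `T0` adjacent to `Q`; `Y1 = {t1}`, `Y2 = T0.erase t1`.  `Rz G D2 Y1 Y2 z` (neighbours of `Q` in `U` are in `T0`).  Degrees: `v ∈ Q`: `(nb G v D).card ≤ (nb G v D2).card + (nb G v Y1).card + (nb G v Y2).card`, and
 `(nb G v Y1).card + (nb G v Y2).card ≤ [v~Y1] + [v~Y2] + (τ - 2)`.
  - `τ = 2`: `mid` with `p = 1`, `p0 = 2`, `e = 1`: `Link .. t1 t 2`, `t ∈ Y2`: `a - t1` and `t - b`.  loss 0.  `he2`: `m = 2` impossible.
  - `τ ≥ 3`: `mid` with `p = s + τ - 3`, `p0 = 4`, `e = 1`: `Link .. t1 t (4+j)`, `j < s+τ-3`, `t ∈ Y2`: `a - t1` and `t .. t'' - b` with `t'' ∈ Y2`, `t'' ≠ t`, `jp2` in `M ∪ Y2` of length `2 + j ≤ s + (τ-1) - 1`.  `τ - 2 ≤ p - 1`.  `he2`: `m = p + 1 = s + τ - 2` impossible.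
`d2_M` (`Q` not `~ T0`): `y1 ≠ y2` in `M` adjacent to `Q`; `Y1 = {y1}`, `Y2 = M.erase y1`.  loss `≤ s - 2`.  `mid` with `p = s + τ - 3`, `p0 = 4`, `e = 1`: `Link .. y1 y (4+j)`, `j < s+τ-3`, `y ∈ Y2`: `a - t - y1` (length 2, fixed `t ∈ T0`) and `y .. t' - b`,
 `t' ∈ T0.erase t`, `jp1` (reversed) in `(M.erase y1) ∪ (T0.erase t)` of length `1 + j ≤ (s-1) + (τ-1) - 1`.  `s - 2 ≤ p - 1` as `τ ≥ 2`.  `he2` impossible.
-/

namespace Pool.Agent.Lib.MP_f599e5_co

open Finset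

variable {V : Type} [DecidableEq V] {G : SimpleGraph V}

theorem A6j_two {D Q X : Finset V} {z : V} (h3 : 3 ≤ (bd G D Q).card)
    (hsub : ∀ w ∈ bd G D Q, w = z ∨ w ∈ X) :
    ∃ t1 ∈ X, ∃ t2 ∈ X, t1 ≠ t2 ∧ adjS G Q {t1} ∧ adjS G Q {t2} := by
  have h1 : 1 < ((bd G D Q).erase z).card := by
    have := Finset.pred_card_le_card_erase (s := bd G D Q) (a := z)
    omega
  obtain ⟨a, ha, b, hb, hab⟩ := Finset.one_lt_card.1 h1
  rw [Finset.mem_erase] at ha hb
  have key : ∀ w, w ≠ z ∧ w ∈ bd G D Q → w ∈ X ∧ adjS G Q {w} := by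
    intro w hw
    refine ⟨(hsub w hw.2).resolve_left hw.1, ?_⟩
    obtain ⟨_, _, x, hx, hxw⟩ := mem_bd.1 hw.2
    exact ⟨x, hx, w, Finset.mem_singleton_self w, hxw⟩
  exact ⟨a, (key a ha).1, b, (key b hb).1, hab, (key a ha).2, (key b hb).2⟩

theorem A6j_setup {m : ℕ} {D A B : Finset V} {z : V} (h : Ctx G m D A B z)
    {M T0 Q : Finset V} (c : Core2 G D A z M T0) (hA : TT G D A z = T0) (hB : TT G D B z = T0)
    (hQ : IsComp G (D \ insert z (M ∪ T0)) Q) :
    ∃ D2 : Finset V, D2 ⊆ D ∧ Disjoint D2 (M ∪ T0) ∧ (∀ v ∈ D2, v ≠ z → v ∈ Q) ∧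
      (∀ v ∈ Q, ∀ x ∈ D, G.Adj v x → x ∈ D2 ∨ x ∈ M ∪ T0) ∧
      (∀ Y1 Y2 : Finset V, Y1 ⊆ M ∪ T0 → Y2 ⊆ M ∪ T0 → adjS G Q Y1 → adjS G Q Y2 →
        (∀ x ∈ M ∪ T0, adjS G Q {x} → x ∈ Y1 ∨ x ∈ Y2) → Rz G D2 Y1 Y2 z) ∧
      3 ≤ (bd G D Q).card ∧ (∀ w ∈ bd G D Q, w = z ∨ w ∈ M ∪ T0) ∧
      (∀ v ∈ Q, m + 1 ≤ (nb G v D).card) := by
  have hQD : ∀ v ∈ Q, v ∈ D ∧ v ≠ z ∧ v ∉ M ∪ T0 := by
    intro v hv
    have h1 := Finset.mem_sdiff.1 (hQ.1 hv)
    rw [Finset.mem_insert, not_or] at h1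
    exact ⟨h1.1, h1.2.1, h1.2.2⟩
  have hQA : ∀ v ∈ Q, ¬ ∃ a ∈ A, G.Adj v a := by
    rintro v hv ⟨a, ha, hva⟩
    obtain ⟨e1, e2, e3⟩ := hQD v hv
    have h1 : v ∈ TT G D A z := mem_TT.2 ⟨e1, e2, a, ha, hva⟩
    rw [hA] at h1
    exact e3 (Finset.mem_union_right _ h1)
  have hQB : ∀ v ∈ Q, ¬ ∃ b ∈ B, G.Adj v b := by
    rintro v hv ⟨b, hb, hvb⟩
    obtain ⟨e1, e2, e3⟩ := hQD v hv
    have h1 : v ∈ TT G D B z := mem_TT.2 ⟨e1, e2, b, hb, hvb⟩
    rw [hB] at h1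
    exact e3 (Finset.mem_union_right _ h1)
  have hnA : ¬ adjS G Q A := fun ⟨v, hv, a, ha, hva⟩ => hQA v hv ⟨a, ha, hva⟩
  have hnB : ¬ adjS G Q B := fun ⟨v, hv, b, hb, hvb⟩ => hQB v hv ⟨b, hb, hvb⟩
  obtain ⟨D2, q1, q2, q3, q4, q5, q6, q7⟩ := h.qset c.UD c.zU hQ hnA hnB
  obtain ⟨v0, hv0⟩ := hQ.2.2.1
  refine ⟨D2, q3, q4, ?_, q6, q7, ?_, ?_, ?_⟩
  · intro v hv hvz
    exact (Finset.mem_insert.1 (q2 hv)).resolve_left hvz
  · exact h.f4 (fun v hv => (hQD v hv).1) ⟨v0, hv0, (hQD v0 hv0).2.1⟩ hnA hnB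
  · intro w hw
    obtain ⟨hwD, hwQ, x, hx, hxw⟩ := mem_bd.1 hw
    have h1 := (nbr_of_closed hQ.1 hQ.2.1 hx hwD hxw).resolve_left hwQ
    exact Finset.mem_insert.1 h1
  · intro v hv
    obtain ⟨e1, e2, e3⟩ := hQD v hv
    have h1 := h.deg v e1 e2
    have h2 := nb_card_zero (hQA v hv)
    have h3 := nb_card_zero (hQB v hv)
    unfold ds at h1
    omega

theorem d2_T {m : ℕ} {D A B : Finset V} {z : V} (h : Ctx G m D A B z) (ind : Ind G (TT G D A z))
    {M T0 Q : Finset V} (c : Core2 G D A z M T0) (hA : TT G D A z = T0) (hB : TT G D B z = T0)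
    (hq : 2 ≤ T0.card) (hm : M.card + T0.card ≤ m + 1) (hQ : IsComp G (D \ insert z (M ∪ T0)) Q)
    (hQM : ¬ adjS G Q M) : False := by
  have _ := ind
  obtain ⟨D2, q1, q2, q3, q4, q5, q6, q7, q8⟩ := A6j_setup h c hA hB hQ
  have hdisj := Finset.disjoint_left.1 q2
  have hQM' : ∀ v ∈ Q, ∀ y ∈ M, ¬ G.Adj v y := fun v hv y hy hvy => hQM ⟨v, hv, y, hy, hvy⟩
  have hWT : ∀ v ∈ Q, ∀ x ∈ M ∪ T0, G.Adj v x → x ∈ T0 := by
    intro v hv x hx hvx
    exact (Finset.mem_union.1 hx).resolve_left (fun h1 => hQM' v hv x h1 hvx)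
  obtain ⟨t1, ht1, t2, ht2, ht12, ha1, ha2⟩ := A6j_two (G := G) (D := D) (Q := Q) (X := T0) (z := z)
    q6 (by
      intro w hw
      rcases q7 w hw with h1 | h1
      · exact Or.inl h1
      · obtain ⟨_, _, x, hx, hxw⟩ := mem_bd.1 hw
        exact Or.inr (hWT x hx w h1 hxw))
  have hs2 := c.s2
  have hqs := c.qs
  have hTD : ∀ t ∈ T0, t ∈ D := fun t ht => (mem_TT.1 (c.T0T ht)).1
  have hTA : ∀ t ∈ T0, ∃ a ∈ A, G.Adj t a := fun t ht => (mem_TT.1 (c.T0T ht)).2.2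
  have hTB : ∀ t ∈ T0, ∃ b ∈ B, G.Adj t b := fun t ht =>
    (mem_TT.1 (show t ∈ TT G D B z by rw [hB]; exact ht)).2.2
  have hUD2 : ∀ x ∈ M ∪ T0, x ∈ D \ D2 := fun x hx =>
    Finset.mem_sdiff.2 ⟨c.UD hx, fun h1 => hdisj h1 hx⟩
  have hY1W : ({t1} : Finset V) ⊆ M ∪ T0 :=
    Finset.singleton_subset_iff.2 (Finset.mem_union_right _ ht1)
  have hY2W : T0.erase t1 ⊆ M ∪ T0 :=
    (Finset.erase_subset _ _).trans Finset.subset_union_right
  have hRz : Rz G D2 {t1} (T0.erase t1) z := by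
    refine q5 _ _ hY1W hY2W ha1 ?_ ?_
    · obtain ⟨x, hx, y, hy, hxy⟩ := ha2
      rw [Finset.mem_singleton] at hy
      subst hy
      exact ⟨x, hx, y, Finset.mem_erase.2 ⟨ht12.symm, ht2⟩, hxy⟩
    · intro x hx hax
      obtain ⟨v, hv, y, hy, hvy⟩ := hax
      rw [Finset.mem_singleton] at hy
      subst hy
      by_cases hyt : y = t1
      · exact Or.inl (Finset.mem_singleton.2 hyt)
      · exact Or.inr (Finset.mem_erase.2 ⟨hyt, hWT v hv y hx hvy⟩)
  have hY12 : Disjoint ({t1} : Finset V) (T0.erase t1) := by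
    rw [Finset.disjoint_singleton_left]
    exact Finset.notMem_erase t1 T0
  have hcard : (T0.erase t1).card = T0.card - 1 := Finset.card_erase_of_mem ht1
  have hdeg : ∀ v ∈ D2, v ≠ z →
      m + 1 ≤ ds G D2 {t1} (T0.erase t1) v + (T0.card - 2) := by
    intro v hv hvz
    have hvQ := q3 v hv hvz
    have h1 := q8 v hvQ
    have h2 : (nb G v D).card ≤ (nb G v D2).card + (nb G v T0).card :=
      nb_card_le_add (fun x hx hvx => by
        rcases q4 v hvQ x hx hvx with h3 | h3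
        · exact Or.inl h3
        · exact Or.inr (hWT v hvQ x h3 hvx))
    have h3 : (nb G v T0).card ≤ (nb G v {t1}).card + (nb G v (T0.erase t1)).card :=
      nb_card_le_add (fun x hx _ => by
        by_cases hxt : x = t1
        · exact Or.inl (Finset.mem_singleton.2 hxt)
        · exact Or.inr (Finset.mem_erase.2 ⟨hxt, hx⟩))
    have h4 : (nb G v {t1}).card ≤ 1 := nb_card_le.trans (by simp)
    have h5 : (nb G v (T0.erase t1)).card ≤ (T0.erase t1).card := nb_card_le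
    unfold ds
    omega
  have hBD : ∀ b ∈ B, b ∉ D := fun b hb hbD => Finset.disjoint_left.1 h.sys.dB hbD hb
  obtain ⟨a1, ha1A, hta1⟩ := hTA t1 ht1
  rcases Nat.lt_or_ge T0.card 3 with hτ | hτ
  · -- two elements
    refine h.mid (z' := z) (p := 1) (p0 := 2) (e := 1) q1 (fun x hx => hUD2 x (hY1W hx))
      (fun x hx => hUD2 x (hY2W hx)) hY12 hRz le_rfl (Or.inl rfl) ?_ ?_ ?_
    · intro y1 hy1 y2 hy2 j hj
      rw [Finset.mem_singleton] at hy1
      subst hy1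
      have hj0 : j = 0 := by omega
      subst hj0
      obtain ⟨hy2n, hy2T⟩ := Finset.mem_erase.1 hy2
      obtain ⟨b, hb, hyb⟩ := hTB y2 hy2T
      refine ⟨a1, ha1A, b, hb, {y1}, {y2}, ?_, ?_, ?_, 1, 1, rfl, ?_, ?_⟩
      · exact Finset.singleton_subset_iff.2 (hUD2 _ (Finset.mem_union_right _ ht1))
      · exact Finset.singleton_subset_iff.2 (hUD2 _ (Finset.mem_union_right _ hy2T))
      · rw [Finset.disjoint_singleton]
        exact hy2n.symm
      · exact PL.edge hta1.symm (by simp) (by simp)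
      · exact PL.edge hyb (by simp) (by simp)
    · intro v hv hvz
      have := hdeg v hv hvz
      omega
    · intro hm2
      have := h.m3
      omega
  · refine h.mid (z' := z) (p := M.card + T0.card - 3) (p0 := 4) (e := 1) q1
      (fun x hx => hUD2 x (hY1W hx)) (fun x hx => hUD2 x (hY2W hx)) hY12 hRz (by omega)
      (Or.inl rfl) ?_ ?_ ?_
    · intro y1 hy1 y2 hy2 j hj
      rw [Finset.mem_singleton] at hy1
      subst hy1
      obtain ⟨hy2n, hy2T⟩ := Finset.mem_erase.1 hy2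
      obtain ⟨t3, ht3, ht3n⟩ := Finset.exists_mem_ne (show 1 < (T0.erase y1).card by omega) y2
      obtain ⟨_, ht3T⟩ := Finset.mem_erase.1 ht3
      obtain ⟨b, hb, htb⟩ := hTB t3 ht3T
      have hMT' : Disjoint M (T0.erase y1) :=
        Finset.disjoint_of_subset_right (Finset.erase_subset _ _) c.disj
      have hcpl' : Cpl G (T0.erase y1) M := fun x hx y hy => c.cpl x (Finset.mem_of_mem_erase hx) y hy
      have e1 := jp2 c.clq hMT' hcpl' (by omega) hy2 ht3 ht3n.symm (L := 2 + j) (by omega) (by omega)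
      have hbU : b ∉ M ∪ T0.erase y1 := fun h1 => hBD b hb (c.UD (by
        rcases Finset.mem_union.1 h1 with h2 | h2
        · exact Finset.mem_union_left _ h2
        · exact hY2W h2))
      have e2 := PL.snoc e1 htb hbU
      refine ⟨a1, ha1A, b, hb, {y1}, M ∪ T0.erase y1, ?_, ?_, ?_, 1, 2 + j + 1, by omega, ?_, e2⟩
      · exact Finset.singleton_subset_iff.2 (hUD2 _ (Finset.mem_union_right _ ht1))
      · intro x hx
        refine hUD2 x ?_
        rcases Finset.mem_union.1 hx with h2 | h2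
        · exact Finset.mem_union_left _ h2
        · exact hY2W h2
      · rw [Finset.disjoint_singleton_left, Finset.mem_union, not_or]
        exact ⟨fun h1 => Finset.disjoint_left.1 c.disj h1 ht1, Finset.notMem_erase y1 T0⟩
      · exact PL.edge hta1.symm (by simp) (by simp)
    · intro v hv hvz
      have := hdeg v hv hvz
      omega
    · intro hm2
      omega

theorem d2_M {m : ℕ} {D A B : Finset V} {z : V} (h : Ctx G m D A B z) (ind : Ind G (TT G D A z))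
    {M T0 Q : Finset V} (c : Core2 G D A z M T0) (hA : TT G D A z = T0) (hB : TT G D B z = T0)
    (hq : 2 ≤ T0.card) (hm : M.card + T0.card ≤ m + 1) (hQ : IsComp G (D \ insert z (M ∪ T0)) Q)
    (hQT : ¬ adjS G Q T0) : False := by
  have _ := ind
  obtain ⟨D2, q1, q2, q3, q4, q5, q6, q7, q8⟩ := A6j_setup h c hA hB hQ
  have hdisj := Finset.disjoint_left.1 q2
  have hWM : ∀ v ∈ Q, ∀ x ∈ M ∪ T0, G.Adj v x → x ∈ M := by
    intro v hv x hx hvx
    exact (Finset.mem_union.1 hx).resolve_right (fun h1 => hQT ⟨v, hv, x, h1, hvx⟩)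
  obtain ⟨y1, hy1, y2, hy2, hy12, ha1, ha2⟩ := A6j_two (G := G) (D := D) (Q := Q) (X := M) (z := z)
    q6 (by
      intro w hw
      rcases q7 w hw with h1 | h1
      · exact Or.inl h1
      · obtain ⟨_, _, x, hx, hxw⟩ := mem_bd.1 hw
        exact Or.inr (hWM x hx w h1 hxw))
  have hs2 := c.s2
  have hqs := c.qs
  have hTD : ∀ t ∈ T0, t ∈ D := fun t ht => (mem_TT.1 (c.T0T ht)).1
  have hTA : ∀ t ∈ T0, ∃ a ∈ A, G.Adj t a := fun t ht => (mem_TT.1 (c.T0T ht)).2.2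
  have hTB : ∀ t ∈ T0, ∃ b ∈ B, G.Adj t b := fun t ht =>
    (mem_TT.1 (show t ∈ TT G D B z by rw [hB]; exact ht)).2.2
  have hUD2 : ∀ x ∈ M ∪ T0, x ∈ D \ D2 := fun x hx =>
    Finset.mem_sdiff.2 ⟨c.UD hx, fun h1 => hdisj h1 hx⟩
  have hY1W : ({y1} : Finset V) ⊆ M ∪ T0 :=
    Finset.singleton_subset_iff.2 (Finset.mem_union_left _ hy1)
  have hY2W : M.erase y1 ⊆ M ∪ T0 :=
    (Finset.erase_subset _ _).trans Finset.subset_union_left
  have hRz : Rz G D2 {y1} (M.erase y1) z := by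
    refine q5 _ _ hY1W hY2W ha1 ?_ ?_
    · obtain ⟨x, hx, y, hy, hxy⟩ := ha2
      rw [Finset.mem_singleton] at hy
      subst hy
      exact ⟨x, hx, y, Finset.mem_erase.2 ⟨hy12.symm, hy2⟩, hxy⟩
    · intro x hx hax
      obtain ⟨v, hv, y, hy, hvy⟩ := hax
      rw [Finset.mem_singleton] at hy
      subst hy
      by_cases hyt : y = y1
      · exact Or.inl (Finset.mem_singleton.2 hyt)
      · exact Or.inr (Finset.mem_erase.2 ⟨hyt, hWM v hv y hx hvy⟩)
  have hY12 : Disjoint ({y1} : Finset V) (M.erase y1) := by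
    rw [Finset.disjoint_singleton_left]
    exact Finset.notMem_erase y1 M
  have hcard : (M.erase y1).card = M.card - 1 := Finset.card_erase_of_mem hy1
  have hdeg : ∀ v ∈ D2, v ≠ z →
      m + 1 ≤ ds G D2 {y1} (M.erase y1) v + (M.card - 2) := by
    intro v hv hvz
    have hvQ := q3 v hv hvz
    have h1 := q8 v hvQ
    have h2 : (nb G v D).card ≤ (nb G v D2).card + (nb G v M).card :=
      nb_card_le_add (fun x hx hvx => by
        rcases q4 v hvQ x hx hvx with h3 | h3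
        · exact Or.inl h3
        · exact Or.inr (hWM v hvQ x h3 hvx))
    have h3 : (nb G v M).card ≤ (nb G v {y1}).card + (nb G v (M.erase y1)).card :=
      nb_card_le_add (fun x hx _ => by
        by_cases hxt : x = y1
        · exact Or.inl (Finset.mem_singleton.2 hxt)
        · exact Or.inr (Finset.mem_erase.2 ⟨hxt, hx⟩))
    have h4 : (nb G v {y1}).card ≤ 1 := nb_card_le.trans (by simp)
    have h5 : (nb G v (M.erase y1)).card ≤ (M.erase y1).card := nb_card_le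
    unfold ds
    omega
  have hAD : ∀ a ∈ A, a ∉ D := fun a ha haD => Finset.disjoint_left.1 h.sys.dA haD ha
  have hBD : ∀ b ∈ B, b ∉ D := fun b hb hbD => Finset.disjoint_left.1 h.sys.dB hbD hb
  obtain ⟨t, ht⟩ := Finset.card_pos.1 (show 0 < T0.card by omega)
  obtain ⟨a1, ha1A, hta1⟩ := hTA t ht
  have hcardT : (T0.erase t).card = T0.card - 1 := Finset.card_erase_of_mem ht
  have htM : t ∉ M := fun h1 => Finset.disjoint_left.1 c.disj h1 ht
  have hy1T : y1 ∉ T0 := fun h1 => Finset.disjoint_left.1 c.disj hy1 h1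
  refine h.mid (z' := z) (p := M.card + T0.card - 3) (p0 := 4) (e := 1) q1
      (fun x hx => hUD2 x (hY1W hx)) (fun x hx => hUD2 x (hY2W hx)) hY12 hRz (by omega)
      (Or.inl rfl) ?_ ?_ ?_
  · intro y1' hy1' y hy j hj
    rw [Finset.mem_singleton] at hy1'
    subst hy1'
    obtain ⟨t3, ht3⟩ := Finset.card_pos.1 (show 0 < (T0.erase t).card by omega)
    obtain ⟨_, ht3T⟩ := Finset.mem_erase.1 ht3
    obtain ⟨b, hb, htb⟩ := hTB t3 ht3T
    have hM' : Clq G (M.erase y1') := fun a ha b hb hab =>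
      c.clq a (Finset.mem_of_mem_erase ha) b (Finset.mem_of_mem_erase hb) hab
    have hMT' : Disjoint (M.erase y1') (T0.erase t) :=
      Finset.disjoint_of_subset_left (Finset.erase_subset _ _)
        (Finset.disjoint_of_subset_right (Finset.erase_subset _ _) c.disj)
    have hcpl' : Cpl G (T0.erase t) (M.erase y1') := fun x hx y hy =>
      c.cpl x (Finset.mem_of_mem_erase hx) y (Finset.mem_of_mem_erase hy)
    have e1 := (jp1 hM' hMT' hcpl' (by omega) ht3 hy (L := 1 + j) (by omega) (by omega)).symm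
    have hsub : M.erase y1' ∪ T0.erase t ⊆ M ∪ T0 :=
      Finset.union_subset_union (Finset.erase_subset _ _) (Finset.erase_subset _ _)
    have e2 := PL.snoc e1 htb (fun h1 => hBD b hb (c.UD (hsub h1)))
    have e3 : PL G {t, y1'} t y1' 1 := PL.edge (c.cpl t ht y1' hy1) (by simp) (by simp)
    have e4 := PL.cons hta1.symm e3 (by
      rw [Finset.mem_insert, Finset.mem_singleton, not_or]
      exact ⟨fun h1 => hAD a1 ha1A (h1 ▸ hTD t ht), fun h1 => hAD a1 ha1A (h1 ▸ c.MD hy1)⟩)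
    refine ⟨a1, ha1A, b, hb, {t, y1'}, M.erase y1' ∪ T0.erase t, ?_, fun x hx => hUD2 x (hsub hx),
      ?_, 1 + 1, 1 + j + 1, by omega, e4, e2⟩
    · intro x hx
      rw [Finset.mem_insert, Finset.mem_singleton] at hx
      rcases hx with rfl | rfl
      · exact hUD2 _ (Finset.mem_union_right _ ht)
      · exact hUD2 _ (Finset.mem_union_left _ hy1)
    · rw [Finset.disjoint_left]
      intro x hx hx2
      rw [Finset.mem_insert, Finset.mem_singleton] at hx
      rw [Finset.mem_union, Finset.mem_erase, Finset.mem_erase] at hx2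
      rcases hx with rfl | rfl
      · rcases hx2 with h1 | h1
        · exact htM h1.2
        · exact h1.1 rfl
      · rcases hx2 with h1 | h1
        · exact h1.1 rfl
        · exact hy1T h1.2
  · intro v hv hvz
    have := hdeg v hv hvz
    omega
  · intro hm2
    omega

end Pool.Agent.Lib.MP_f599e5_co
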