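import Pool.Agent.Lib.MP_f599e5_co.A5d
import Pool.Agent.Lib.MP_f599e5_co.A6g
import Pool.Agent.Lib.MP_f599e5_co.A6h
import Pool.Agent.Lib.MP_f599e5_co.A6i
import Pool.Agent.Lib.MP_f599e5_co.A6j

set_option autoImplicit false
set_option linter.unusedSectionVars false

/-! # A6k: Case 2, assembly: no triangle `t,x,y` with `t ∈ T_A°`, `x, y ∈ D \ z` -/

namespace Pool.Agent.Lib.MP_f599e5_co

open Finset

variable {V : Type} [DecidableEq V] {G : SimpleGraph V}

theorem case2 {m : ℕ} {D A B : Finset V} {z : V} (h : Ctx G m D A B z) {t x y : V}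
    (ht : t ∈ TT G D A z) (hx : x ∈ D) (hxz : x ≠ z) (hy : y ∈ D) (hyz : y ≠ z) (h1 : G.Adj t x)
    (h2 : G.Adj t y) : ¬ G.Adj x y := by
  intro h3
  have indA := case1 h
  have indB := case1 h.symm
  obtain ⟨M, T0, c⟩ := core2_exists indA ht hx hxz hy hyz h1 h2 h3
  have hBT := half2 h indA indB c
  have h6 := h.symm.f6
  obtain ⟨t', ht'⟩ := Finset.card_pos.1 (show 0 < (TT G D B z).card by omega)
  have hs2 := c.s2
  obtain ⟨x', hx', y', hy', hne⟩ := Finset.one_lt_card.1 (show 1 < M.card by omega)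
  obtain ⟨M', T0', c'⟩ := core2_exists (A := B) indB ht' (c.MD hx') (fun e => c.zM (e ▸ hx'))
    (c.MD hy') (fun e => c.zM (e ▸ hy')) (c.cpl t' (hBT ht') x' hx') (c.cpl t' (hBT ht') y' hy')
    (c.clq x' hx' y' hy' hne)
  have hAT := half2 h.symm indB indA c'
  have e1 : TT G D A z = T0 := Subset.antisymm (hAT.trans (c'.T0T.trans hBT)) c.T0T
  have e2 : TT G D B z = T0 := Subset.antisymm hBT (c.T0T.trans (hAT.trans c'.T0T))
  have hq : 2 ≤ T0.card := by rw [← e2]; exact h6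
  obtain ⟨hm, Q, hQ⟩ := d2_direct h indA c e1 e2 hq
  by_cases hQT : adjS G Q T0
  · by_cases hQM : adjS G Q M
    · exact d2_mixed h indA c e1 e2 hq hm hQ hQT hQM
    · exact d2_T h indA c e1 e2 hq hm hQ hQM
  · exact d2_M h indA c e1 e2 hq hm hQ hQT

end Pool.Agent.Lib.MP_f599e5_co
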