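import Pool.Agent.Lib.MP_f599e5_co.A4d
import Pool.Agent.Lib.MP_f599e5_co.A4e
import Pool.Agent.Lib.MP_f599e5_co.A4f

set_option autoImplicit false
set_option linter.unusedSectionVars false

/-!
# A7a: Case 3: the core, prefix lengths, degree estimates  (section 1.7)

`Tri G D A z` : `T_A°` is independent and there is no triangle `t,x,y` with `t ∈ T_A°`, `x, y ∈ D \ z`.
`core3_exists`: for `S ⊆ D`, `z ∉ S`, `S ∩ T_A° = ∅` let `T(S)` = the `t ∈ T_A°` complete to `S`.  `S = ∅` satisfies `S.card + 1 ≤ (T(S)).card` (`f6`: even 2).  Choose such an `S` with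
`S.card + 1 ≤ (T S).card` and `S.card` maximum; `T := T(S)`.  `indS`: two adjacent vertices of `S` and a `t ∈ T` would form a triangle.
`maxN`: if `v` (in `D`, `≠ z`, not in `T_A°`, not in `S`) had `S.card + 2 ≤ (nb G v T).card`, then `insert v S` would be larger (`T (insert v S) ⊇ nb G v T`).  (For `v ∈ S` the claim is not needed.)

`σ = S.card + 1`.  `S`, `T` disjoint, complete to each other.
`pre3_T`: `i = 1`: the edge; `i ≥ 2`: `a - t' .. t`, `bp2` in `T ∪ S` of length `2 (i-1)` (`i - 1 ≤ T.card - 1`, `i - 1 ≤ S.card`).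
`pre3_S`: `a - t' .. y`, `bp1` of length `2i - 1` (`i ≤ S.card`).
`notboth`: `v ∈ D`, `v ≠ z`, not in `T_A°`, `v ∉ S`: `v` is not adjacent to both `T` and `S` (`t ~ v ~ y ~ t` would be a triangle with `t ∈ T_A°`).
`loss3_T`: `v ∈ D \ (T ∪ S)`, `v ≠ z`.  If `v ~ A`: `v ∈ T_A° \ T`, `nb G v T = ∅`, `v` is not complete to `S`, `(nb G v S).card ≤ σ - 2`.  If not: `notboth`, and `(nb G v T).card ≤ σ` (`maxN`), `(nb G v S).card ≤ σ - 1`.
`loss3_S`: `v ∈ D \ (T ∪ S)`, `v ≠ z`: `v ~ A`: `(nb G v S).card ≤ σ - 2`;  not `~ A`: `(nb G v S).card ≤ σ - 1`.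
-/

namespace Pool.Agent.Lib.MP_f599e5_co

open Finset

variable {V : Type} [DecidableEq V] {G : SimpleGraph V}

/-- no edge inside `T_A°` and no triangle `t,x,y` with `t ∈ T_A°`, `x, y ∈ D \ z` -/
structure Tri (G : SimpleGraph V) (D A : Finset V) (z : V) : Prop where
  ind : Ind G (TT G D A z)
  tri : ∀ t ∈ TT G D A z, ∀ x ∈ D, x ≠ z → ∀ y ∈ D, y ≠ z → G.Adj t x → G.Adj t y → ¬ G.Adj x y

/-- the core of case 3 -/
structure Core3 (G : SimpleGraph V) (D A : Finset V) (z : V) (S T : Finset V) : Prop where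
  SD : S ⊆ D
  zS : z ∉ S
  SA : ∀ y ∈ S, ¬ ∃ a ∈ A, G.Adj y a
  T_iff : ∀ t, t ∈ T ↔ t ∈ TT G D A z ∧ ∀ y ∈ S, G.Adj t y
  cT : S.card + 1 ≤ T.card
  indS : Ind G S
  maxN : ∀ v ∈ D, v ≠ z → (¬ ∃ a ∈ A, G.Adj v a) → v ∉ S → (nb G v T).card ≤ S.card + 1

theorem core3_exists {m : ℕ} {D A B : Finset V} {z : V} (h : Ctx G m D A B z) (ht : Tri G D A z) :
    ∃ S T, Core3 G D A z S T := by
  classical
  set Tc : Finset V → Finset V := fun S => (TT G D A z).filter (fun t => ∀ y ∈ S, G.Adj t y) with hTc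
  set cand : Finset (Finset V) := D.powerset.filter
    (fun S => z ∉ S ∧ (∀ y ∈ S, ¬ ∃ a ∈ A, G.Adj y a) ∧ S.card + 1 ≤ (Tc S).card) with hcand
  have hne : cand.Nonempty := by
    refine ⟨∅, ?_⟩
    rw [hcand, mem_filter]
    have h6 := h.f6
    have h0 : Tc ∅ = TT G D A z := by
      rw [hTc]; simp
    refine ⟨by simp, by simp, by simp, ?_⟩
    rw [h0, card_empty]; omega
  obtain ⟨S, hS, hmax⟩ := Finset.exists_max_image cand Finset.card hne
  rw [hcand, mem_filter, mem_powerset] at hS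
  obtain ⟨hSD, hzS, hSA, hc⟩ := hS
  have hmemT : ∀ (S' : Finset V) t, t ∈ Tc S' ↔ t ∈ TT G D A z ∧ ∀ y ∈ S', G.Adj t y := by
    intro S' t
    rw [hTc]
    simp only [mem_filter]
  refine ⟨S, Tc S, hSD, hzS, hSA, hmemT S, hc, ?_, ?_⟩
  · intro x hx y hy hxy
    have hTne : (Tc S).Nonempty := by
      rw [← card_pos]; omega
    obtain ⟨t, htS⟩ := hTne
    obtain ⟨h1, h2⟩ := (hmemT S t).1 htS
    exact ht.tri t h1 x (hSD hx) (fun e => hzS (e ▸ hx)) y (hSD hy) (fun e => hzS (e ▸ hy))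
      (h2 x hx) (h2 y hy) hxy
  · intro v hv hvz hvA hvS
    by_contra hcon
    have hsub : nb G v (Tc S) ⊆ Tc (insert v S) := by
      intro t ht'
      obtain ⟨h1, h2⟩ := mem_nb.1 ht'
      obtain ⟨h3, h4⟩ := (hmemT S t).1 h1
      refine (hmemT _ t).2 ⟨h3, ?_⟩
      intro y hy
      rcases mem_insert.1 hy with e | hy
      · rw [e]; exact h2.symm
      · exact h4 y hy
    have hcard := card_le_card hsub
    have hins : insert v S ∈ cand := by
      rw [hcand, mem_filter, mem_powerset]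
      refine ⟨insert_subset hv hSD, ?_, ?_, ?_⟩
      · rw [mem_insert]
        rintro (e | e)
        · exact hvz e.symm
        · exact hzS e
      · intro y hy
        rcases mem_insert.1 hy with e | hy
        · rw [e]; exact hvA
        · exact hSA y hy
      · rw [card_insert_of_notMem hvS]; omega
    have h5 := hmax _ hins
    rw [card_insert_of_notMem hvS] at h5
    omega

section
variable {D A : Finset V} {z : V} {S T : Finset V}

theorem Core3.TD (c : Core3 G D A z S T) : T ⊆ D := fun t ht => (mem_TT.1 ((c.T_iff t).1 ht).1).1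

theorem Core3.TTT (c : Core3 G D A z S T) : T ⊆ TT G D A z := fun t ht => ((c.T_iff t).1 ht).1

theorem Core3.UD (c : Core3 G D A z S T) : T ∪ S ⊆ D := union_subset c.TD c.SD

theorem Core3.zU (c : Core3 G D A z S T) : z ∉ T ∪ S := by
  intro hz
  rcases mem_union.1 hz with hz | hz
  · exact (mem_TT.1 (c.TTT hz)).2.1 rfl
  · exact c.zS hz

theorem Core3.disj (c : Core3 G D A z S T) : Disjoint T S := by
  rw [Finset.disjoint_left]
  intro v hv hv'
  exact c.SA v hv' (mem_TT.1 (c.TTT hv)).2.2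

theorem Core3.cpl (c : Core3 G D A z S T) : Cpl G T S := fun t ht => ((c.T_iff t).1 ht).2

theorem pre3_T (hDA : Disjoint D A) (c : Core3 G D A z S T) {t : V} (ht : t ∈ T) {i : ℕ} (h1 : 1 ≤ i)
    (h2 : i ≤ S.card + 1) : Pre G (T ∪ S) A t (2 * i - 1) := by
  have hU : ∀ a ∈ A, a ∉ T ∪ S := fun a ha ha' => (Finset.disjoint_left.1 hDA (c.UD ha')) ha
  by_cases hi : i = 1
  · subst hi
    obtain ⟨a, ha, hta⟩ := (mem_TT.1 (c.TTT ht)).2.2
    exact ⟨a, ha, PL.edge hta.symm (mem_insert_self _ _)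
      (mem_insert_of_mem (mem_union_left _ ht))⟩
  · have hcT := c.cT
    obtain ⟨t', ht', hne⟩ := Finset.exists_mem_ne (s := T) (by omega) t
    obtain ⟨a, ha, hta⟩ := (mem_TT.1 (c.TTT ht')).2.2
    have hp := bp2 c.disj c.cpl ht' ht hne (i := i - 1) (by omega) (by omega) (by omega)
    have hq := PL.cons hta.symm hp (hU a ha)
    refine ⟨a, ha, ?_⟩
    have e : 2 * i - 1 = 2 * (i - 1) + 1 := by omega
    rw [e]
    exact hq

theorem pre3_S (hDA : Disjoint D A) (c : Core3 G D A z S T) {y : V} (hy : y ∈ S) {i : ℕ} (h1 : 1 ≤ i)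
    (h2 : i ≤ S.card) : Pre G (T ∪ S) A y (2 * i) := by
  have hU : ∀ a ∈ A, a ∉ T ∪ S := fun a ha ha' => (Finset.disjoint_left.1 hDA (c.UD ha')) ha
  have hcT := c.cT
  obtain ⟨t', ht'⟩ : T.Nonempty := by
    rw [← card_pos]; omega
  obtain ⟨a, ha, hta⟩ := (mem_TT.1 (c.TTT ht')).2.2
  have hp := bp1 c.disj c.cpl ht' hy (i := i) h1 (by omega) h2
  have hq := PL.cons hta.symm hp (hU a ha)
  refine ⟨a, ha, ?_⟩
  have e : 2 * i = 2 * i - 1 + 1 := by omega
  rw [e]
  exact hq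

theorem notboth (ht : Tri G D A z) (c : Core3 G D A z S T) {v : V} (hv : v ∈ D) (hvz : v ≠ z) {t y : V}
    (h1 : t ∈ T) (h2 : y ∈ S) (h3 : G.Adj v t) (h4 : G.Adj v y) : False := by
  refine ht.tri t (c.TTT h1) v hv hvz y (c.SD h2) (fun e => c.zS (e ▸ h2)) h3.symm (c.cpl t h1 y h2) h4

theorem loss3_T (ht : Tri G D A z) (c : Core3 G D A z S T) {v : V} (hv : v ∈ D) (hvU : v ∉ T ∪ S)
    (hvz : v ≠ z) :
    (nb G v T).card + (nb G v S).card + min 1 (nb G v A).card ≤ min 1 (nb G v T).card + S.card := by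
  have hvT : v ∉ T := fun hh => hvU (mem_union_left _ hh)
  have hvS : v ∉ S := fun hh => hvU (mem_union_right _ hh)
  by_cases hvA : ∃ a ∈ A, G.Adj v a
  · have hvTT : v ∈ TT G D A z := mem_TT.2 ⟨hv, hvz, hvA⟩
    have h1 : (nb G v T).card = 0 := by
      rw [card_eq_zero, eq_empty_iff_forall_notMem]
      intro t ht'
      exact ht.ind v hvTT t (c.TTT (mem_nb.1 ht').1) (mem_nb.1 ht').2
    have h2 : ∃ y ∈ S, ¬ G.Adj v y := by
      by_contra hcon
      push Not at hcon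
      exact hvT ((c.T_iff v).2 ⟨hvTT, hcon⟩)
    obtain ⟨y, hy, hvy⟩ := h2
    have h3 := nb_card_lt hy hvy
    omega
  · have h0 := nb_card_zero hvA
    by_cases h1 : (nb G v T).card = 0
    · have h2 := nb_card_le (G := G) (v := v) (A := S)
      omega
    · obtain ⟨t, ht'⟩ := card_pos.1 (Nat.pos_of_ne_zero h1)
      have h2 : (nb G v S).card = 0 := by
        rw [card_eq_zero, eq_empty_iff_forall_notMem]
        intro y hy
        exact notboth ht c hv hvz (mem_nb.1 ht').1 (mem_nb.1 hy).1 (mem_nb.1 ht').2 (mem_nb.1 hy).2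
      have h3 := c.maxN v hv hvz hvA hvS
      omega

theorem loss3_S (ht : Tri G D A z) (c : Core3 G D A z S T) {v : V} (hv : v ∈ D) (hvU : v ∉ T ∪ S)
    (hvz : v ≠ z) :
    (nb G v S).card + min 1 (nb G v A).card ≤ min 1 (nb G v S).card + max 1 (S.card - 1) := by
  have hvT : v ∉ T := fun hh => hvU (mem_union_left _ hh)
  by_cases hvA : ∃ a ∈ A, G.Adj v a
  · have hvTT : v ∈ TT G D A z := mem_TT.2 ⟨hv, hvz, hvA⟩
    have h2 : ∃ y ∈ S, ¬ G.Adj v y := by
      by_contra hcon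
      push Not at hcon
      exact hvT ((c.T_iff v).2 ⟨hvTT, hcon⟩)
    obtain ⟨y, hy, hvy⟩ := h2
    have h3 := nb_card_lt hy hvy
    omega
  · have h0 := nb_card_zero hvA
    have h2 := nb_card_le (G := G) (v := v) (A := S)
    omega

end

end Pool.Agent.Lib.MP_f599e5_co
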