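import Pool.Agent.Lib.MP_f599e5_co.A7a

set_option autoImplicit false
set_option linter.unusedSectionVars false

/-!
# A7b: Case 3, (3h) for `S = ∅` and for `S.card ≥ 2`: no hanging set

`U = T ∪ S`; `D1` a component of `D \ U`; `C`, `w` a hanging set of `D1` w.r.t. `Y = T`.  Neighbours in `D` of `C` are in `C`, equal to `w`, or in `S` (not in `T`: `nY`).
`hang3_one` (`S = ∅`): `bd G D C = {w}`; `f3'`: `D.erase w ⊆ C`, but `T` is nonempty, disjoint from `C` and does not contain `w`.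
`hang3_ge` (`S.card ≥ 2`): `mid` with `D2 = C`, `Y1 = S`, `Y2 = {w}`, `z' = z`, `p = S.card`, `e = 2`:
 * `R0 G C S {w}`: (r1) `C` connected, `~ w`; `C ~ S`: `bd G D C ⊆ {w} ∪ S` has at least two elements (`f3''`, `T ⊆ D \ C`, `T.card ≥ 2`).  (r2) `C' ⊆ C` with `(bd G C C').card ≤ 1`, not `~ S`, `w`: `bd G D C' = bd G C C'`, contradiction to `f3''`.
 * `Link G (D \ C) A B y w (p0 + j*2)`, `j < S.card`: prefix `pre3_S` of length `2 + 2j` in `U`; fixed path `w .. u` in `D1 \ C` (`rconn`, `rB`), `u - b`, length `L2`; `p0 = 2 + L2`; `U1 = U`, `U2 = D1 \ C`.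
 * degrees: `v ∈ C`, `v ≠ z`, not `~ B`, not `~ T`: `ds G D A B v ≤ (nb G v C).card + min 1 (nb G v {w}).card + (nb G v S).card + min 1 (nb G v A).card`, `loss3_S` with `max 1 (S.card - 1) = S.card - 1`: `m + 1 ≤ ds G C S {w} v + (S.card - 1)`.
 * `he2` by `Or.inl`.
-/

namespace Pool.Agent.Lib.MP_f599e5_co

open Finset

variable {V : Type} [DecidableEq V] {G : SimpleGraph V}

private theorem a7b_nb {D B : Finset V} {z : V} {S T D1 C : Finset V} {w : V}
    (hD1 : IsComp G (D \ (T ∪ S)) D1) (hC : Hang G D1 T B z C w) :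
    ∀ v ∈ C, ∀ x ∈ D, G.Adj v x → x ∈ C ∨ x = w ∨ x ∈ S := by
  intro v hv x hx ha
  rcases nbr_of_closed hD1.1 hD1.2.1 (hC.sub hv) hx ha with h1 | h1
  · by_cases hxC : x ∈ C
    · exact Or.inl hxC
    · have h2 : x ∈ bd G D1 C := mem_bd.2 ⟨h1, hxC, v, hv, ha⟩
      rw [hC.bd, mem_singleton] at h2
      exact Or.inr (Or.inl h2)
  · rcases mem_union.1 h1 with h2 | h2
    · exact absurd ⟨v, hv, x, h2, ha⟩ hC.nY
    · exact Or.inr (Or.inr h2)

theorem hang3_one {m : ℕ} {D A B : Finset V} {z : V} (h : Ctx G m D A B z)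
    {S T D1 C : Finset V} {w : V} (c : Core3 G D A z S T) (hS : S.card = 0)
    (hD1 : IsComp G (D \ (T ∪ S)) D1) (hC : Hang G D1 T B z C w) : False := by
  have hnb := a7b_nb hD1 hC
  have hD1D : D1 ⊆ D := fun x hx => (mem_sdiff.1 (hD1.1 hx)).1
  have hD1T : ∀ x ∈ D1, x ∉ T := fun x hx h1 => (mem_sdiff.1 (hD1.1 hx)).2 (mem_union_left _ h1)
  have hCne : C.Nonempty := by
    obtain ⟨x, hx, _⟩ := hC.ne
    exact ⟨x, hx⟩
  have hS' := card_eq_zero.1 hS
  have hb : bd G D C ⊆ {w} := by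
    intro x hx
    obtain ⟨h1, h2, v, hv, ha⟩ := mem_bd.1 hx
    rcases hnb v hv x h1 ha with h3 | h3 | h3
    · exact absurd h3 h2
    · rw [h3]; exact mem_singleton_self w
    · rw [hS'] at h3
      exact absurd h3 (notMem_empty x)
  have h1 := h.f3' (fun x hx => hD1D (hC.sub hx)) hCne hC.wC hb
  have h2 := c.cT
  obtain ⟨t, ht⟩ := card_pos.1 (show 0 < T.card by omega)
  have htw : t ≠ w := fun h3 => hD1T w hC.wD (h3 ▸ ht)
  exact hD1T t (hC.sub (h1 (mem_erase.2 ⟨htw, c.TD ht⟩))) ht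

theorem hang3_ge {m : ℕ} {D A B : Finset V} {z : V} (h : Ctx G m D A B z) (ht : Tri G D A z)
    {S T D1 C : Finset V} {w : V} (c : Core3 G D A z S T) (hS : 2 ≤ S.card)
    (hD1 : IsComp G (D \ (T ∪ S)) D1) (hC : Hang G D1 T B z C w) : False := by
  have hnb := a7b_nb hD1 hC
  have hD1D : D1 ⊆ D := fun x hx => (mem_sdiff.1 (hD1.1 hx)).1
  have hD1U : ∀ x ∈ D1, x ∉ T ∪ S := fun x hx => (mem_sdiff.1 (hD1.1 hx)).2
  have hCD : C ⊆ D := fun x hx => hD1D (hC.sub hx)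
  have hCne : C.Nonempty := by
    obtain ⟨x, hx, _⟩ := hC.ne
    exact ⟨x, hx⟩
  have hUC : T ∪ S ⊆ D \ C := fun x hx => mem_sdiff.2 ⟨c.UD hx, fun h1 => hD1U x (hC.sub h1) hx⟩
  have hT2 : 2 ≤ T.card := by
    have := c.cT
    omega
  have h2T : ∀ C' ⊆ C, 2 ≤ (D \ C').card := by
    intro C' hC'
    refine hT2.trans (card_le_card ?_)
    intro x hx
    have h1 := mem_sdiff.1 (hUC (mem_union_left _ hx))
    exact mem_sdiff.2 ⟨h1.1, fun h2 => h1.2 (hC' h2)⟩
  have hCw : adjS G C {w} := by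
    have h1 : w ∈ bd G D1 C := by rw [hC.bd]; exact mem_singleton_self w
    obtain ⟨_, _, v, hv, ha⟩ := mem_bd.1 h1
    exact ⟨v, hv, w, mem_singleton_self w, ha⟩
  have hCS : adjS G C S := by
    have h1 := h.f3'' hCD hCne (h2T C (Subset.refl _))
    obtain ⟨p, hp, q, hq, hpq⟩ := Finset.one_lt_card.1 (show 1 < (bd G D C).card from h1)
    have key : ∀ x ∈ bd G D C, x ≠ w → adjS G C S := by
      intro x hx hxw
      obtain ⟨h3, h4, v, hv, ha⟩ := mem_bd.1 hx
      rcases hnb v hv x h3 ha with h5 | h5 | h5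
      · exact absurd h5 h4
      · exact absurd h5 hxw
      · exact ⟨v, hv, x, h5, ha⟩
    by_cases hpw : p = w
    · exact key q hq (fun h2 => hpq (hpw.trans h2.symm))
    · exact key p hp hpw
  have hR0 : R0 G C S {w} := by
    refine ⟨hCne, ?_, ?_⟩
    · intro C' hC' hne' hb
      rw [hC.conn.2 C' hC' hne' hb]
      exact ⟨hCS, hCw⟩
    · intro C' hC' hne' hb
      by_contra hcon
      rw [not_or] at hcon
      have h1 : bd G D C' ⊆ bd G C C' := by
        intro x hx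
        obtain ⟨h2, h3, v, hv, ha⟩ := mem_bd.1 hx
        rcases hnb v (hC' hv) x h2 ha with h4 | h4 | h4
        · exact mem_bd.2 ⟨h4, h3, v, hv, ha⟩
        · exact absurd ⟨v, hv, x, by rw [h4]; exact mem_singleton_self w, ha⟩ hcon.2
        · exact absurd ⟨v, hv, x, h4, ha⟩ hcon.1
      have h2 := h.f3'' (fun x hx => hCD (hC' hx)) hne' (h2T C' hC')
      have h3 := card_le_card h1
      omega
  -- the fixed path
  obtain ⟨u, hu, b, hb, hub⟩ := hC.rB
  have hwR : w ∈ D1 \ C := mem_sdiff.2 ⟨hC.wD, hC.wC⟩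
  obtain ⟨n, hn⟩ := hC.rconn.path hwR hu
  have hbD : b ∉ D := fun h1 => (Finset.disjoint_left.1 h.sys.dB) h1 hb
  have e2 : PL G (insert b (D1 \ C)) w b (n + 1) :=
    hn.snoc hub (fun h1 => hbD (hD1D (mem_sdiff.1 h1).1))
  refine h.mid (D2 := C) (Y1 := S) (Y2 := {w}) (z' := z) (p := S.card) (p0 := 2 + (n + 1)) (e := 2) hCD
    (fun x hx => hUC (mem_union_right _ hx)) ?_ ?_ (hR0.toRz hC.ne) (by omega) (Or.inr rfl) ?_ ?_
    (fun _ => Or.inl hR0)
  · intro y hy
    rw [mem_singleton] at hy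
    rw [hy]
    exact mem_sdiff.2 ⟨hD1D hC.wD, hC.wC⟩
  · rw [Finset.disjoint_left]
    intro y hy hy'
    rw [mem_singleton] at hy'
    exact hD1U w hC.wD (mem_union_right _ (hy' ▸ hy))
  · intro y1 hy1 y2 hy2 j hj
    rw [mem_singleton] at hy2
    rw [hy2]
    obtain ⟨a, ha, hp⟩ := pre3_S h.sys.dA c hy1 (i := j + 1) (by omega) (by omega)
    refine ⟨a, ha, b, hb, T ∪ S, D1 \ C, hUC, fun x hx => mem_sdiff.2 ⟨hD1D (mem_sdiff.1 hx).1,
      (mem_sdiff.1 hx).2⟩, ?_, 2 * (j + 1), n + 1, by ring, hp, e2⟩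
    rw [Finset.disjoint_left]
    intro x hx hx'
    exact hD1U x (mem_sdiff.1 hx').1 hx
  · intro v hv hvz
    have h1 := h.deg v (hCD hv) hvz
    have h2 : (nb G v B).card = 0 := nb_card_zero (fun ⟨b, hb, hvb⟩ => hC.nB ⟨v, hv, b, hb, hvb⟩)
    have h3 : (nb G v D).card ≤ (nb G v (C ∪ {w})).card + (nb G v S).card := by
      refine nb_card_le_add ?_
      intro x hx ha
      rcases hnb v hv x hx ha with h4 | h4 | h4
      · exact Or.inl (mem_union_left _ h4)
      · exact Or.inl (mem_union_right _ (by rw [h4]; exact mem_singleton_self w))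
      · exact Or.inr h4
    have h4 : (nb G v (C ∪ {w})).card ≤ (nb G v C).card + (nb G v {w}).card :=
      nb_card_le_add (fun x hx _ => mem_union.1 hx)
    have h5 : (nb G v {w}).card ≤ 1 := nb_card_le.trans (by rw [card_singleton])
    have h6 := loss3_S ht c (hCD hv) (hD1U v (hC.sub hv)) hvz
    unfold ds at h1 ⊢
    omega

end Pool.Agent.Lib.MP_f599e5_co
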