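import Pool.Agent.Lib.MP_f599e5_co.A7a

set_option autoImplicit false
set_option linter.unusedSectionVars false

/-!
# A7c: Case 3, (3h) for `S = {y}`: common facts, and the case `z ∉ C`

`U = T ∪ {y}`, `T.card ≥ 2`; `D1` a component of `D \ U`; `C`, `w` a hanging set of `D1` w.r.t. `Y = T`.
`hang3_facts`: neighbours in `D` of `C` are in `C` or equal to `w` or `y` (component, `bd`, `nY`).  `bd G D C ⊆ {w,y}`, `C` not `~ B`: `f4` gives `C ~ A`.  `f3''` (`T ⊆ D \ C`): `bd G D C = {w,y}`, so `C ~ y`.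
`hang3_rz`: `Rz G C {y} A z`: (r1) `C` connected.  (r2) `C' ⊆ C` with a vertex `≠ z`, `(bd G C C').card ≤ 1`, not `~ y`, `A`: `bd G D C' ⊆ bd G C C' ∪ {w}`: at most 2 elements, and `C'` not `~ A`, `B`: contradiction to `f4`.
`hang3_deg`: `v ∈ C`, `v ≠ z`: not `~ B`; `(nb G v D).card ≤ (nb G v C).card + (nb G v {w}).card + (nb G v {y}).card`; loss at most 1 (the edge to `w`).

`hang3_two_noz` (`z ∉ C`): `h.symm.alpha` with `D1 := insert w C`, `Y := {y}`, target `A`, `z' := w`, `p = 1`, `e = 1`: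
 * `Rz G (insert w C) {y} A w`: (r1) `insert w C` is connected, `C ~ y`, `C ~ A`.  (r2) `C' ⊆ insert w C` containing a vertex `≠ w`, `(bd G (insert w C) C').card ≤ 1`, not `~ y`, not `~ A`; `C'' := C'.erase w ⊆ C` nonempty, its vertices are `≠ z`;
   `bd G D C'' ⊆ bd G (insert w C) C' ∪ {w}`: at most 2 elements; not `~ A`, `B`: contradiction to `f4`.
 * prefix (from `B`): a path from `y` to `B` in `D \ (insert w C)`: by `h.symm.f6` there is `u ∈ TT G D B z`, `u ≠ w`; `u ∉ C` (`nB`).  `D.erase w` is connected (`f3`), contains `y` and `u`.  `C` is attached in `D.erase w` only to `y`, so `(D.erase w) \ C` is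
   connected (`Conn.sdiff`, `bd G (D.erase w) C ⊆ {y}`): there is a path `y .. u` in it; then `u - b`.  Reverse it.  `he`: `e = 1`, `j = 0`.
 * degrees: `v ∈ C`: all its neighbours in `D` are in `insert w C` or `y`: `m + 1 ≤ ds G (insert w C) {y} A v`.
 * `he2`: `m = 2` impossible.
-/

namespace Pool.Agent.Lib.MP_f599e5_co

open Finset

variable {V : Type} [DecidableEq V] {G : SimpleGraph V}

theorem hang3_facts {m : ℕ} {D A B : Finset V} {z : V} (h : Ctx G m D A B z)
    {S T D1 C : Finset V} {w y : V} (c : Core3 G D A z S T) (hS : S = {y})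
    (hD1 : IsComp G (D \ (T ∪ S)) D1) (hC : Hang G D1 T B z C w) :
    (∀ v ∈ C, ∀ x ∈ D, G.Adj v x → x ∈ C ∨ x = w ∨ x = y) ∧ adjS G C A ∧ adjS G C {y} ∧
      bd G D C = {w, y} := by
  subst hS
  have hD1D : D1 ⊆ D := fun x hx => (mem_sdiff.1 (hD1.1 hx)).1
  have hCD : C ⊆ D := fun x hx => hD1D (hC.sub hx)
  have h1 : ∀ v ∈ C, ∀ x ∈ D, G.Adj v x → x ∈ C ∨ x = w ∨ x = y := by
    intro v hv x hx ha
    rcases nbr_of_closed hD1.1 hD1.2.1 (hC.sub hv) hx ha with h2 | h2
    · by_cases hxC : x ∈ C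
      · exact Or.inl hxC
      · have h3 : x ∈ bd G D1 C := mem_bd.2 ⟨h2, hxC, v, hv, ha⟩
        rw [hC.bd, mem_singleton] at h3
        exact Or.inr (Or.inl h3)
    · rcases mem_union.1 h2 with h3 | h3
      · exact absurd ⟨v, hv, x, h3, ha⟩ hC.nY
      · exact Or.inr (Or.inr (mem_singleton.1 h3))
  have h2 : bd G D C ⊆ {w, y} := by
    intro x hx
    obtain ⟨hxD, hxC, v, hv, ha⟩ := mem_bd.1 hx
    rw [mem_insert, mem_singleton]
    exact (h1 v hv x hxD ha).resolve_left hxC
  have h3 : ({w, y} : Finset V).card ≤ 2 := card_le_two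
  have hA : adjS G C A := by
    by_contra hA
    have h4 := h.f4 hCD hC.ne hA hC.nB
    have h5 := card_le_card h2
    omega
  have hT : T ⊆ D \ C := by
    intro t ht
    refine mem_sdiff.2 ⟨c.TD ht, fun htC => ?_⟩
    exact (mem_sdiff.1 (hD1.1 (hC.sub htC))).2 (mem_union_left _ ht)
  have h4 : 2 ≤ (D \ C).card := by
    have h5 := c.cT
    rw [card_singleton] at h5
    exact le_trans h5 (card_le_card hT)
  have h5 : 2 ≤ (bd G D C).card := h.f3'' hCD hC.conn.1 h4
  have h6 : bd G D C = {w, y} := eq_of_subset_of_card_le h2 (by omega)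
  refine ⟨h1, hA, ?_, h6⟩
  have h7 : y ∈ bd G D C := by
    rw [h6]
    exact mem_insert_of_mem (mem_singleton_self _)
  obtain ⟨_, _, x, hx, ha⟩ := mem_bd.1 h7
  exact ⟨x, hx, y, mem_singleton_self _, ha⟩

theorem hang3_rz {m : ℕ} {D A B : Finset V} {z : V} (h : Ctx G m D A B z)
    {S T D1 C : Finset V} {w y : V} (c : Core3 G D A z S T) (hS : S = {y})
    (hD1 : IsComp G (D \ (T ∪ S)) D1) (hC : Hang G D1 T B z C w) : Rz G C {y} A z := by
  obtain ⟨h1, hA, hy, _⟩ := hang3_facts h c hS hD1 hC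
  have hCD : C ⊆ D := fun x hx => (mem_sdiff.1 (hD1.1 (hC.sub hx))).1
  refine ⟨hC.ne, ?_, ?_⟩
  · rintro C' hC' ⟨v, hv, _⟩ hb
    have h2 : C' = C := hC.conn.2 C' hC' ⟨v, hv⟩ hb
    rw [h2]
    exact ⟨hy, hA⟩
  · intro C' hC' hne hb
    by_contra hcon
    rw [not_or] at hcon
    have h3 : bd G D C' ⊆ bd G C C' ∪ {w} := by
      refine bd_subset_of hC' ?_
      intro v hv x hx ha
      rcases h1 v (hC' hv) x hx ha with h4 | h4 | h4
      · exact Or.inl h4
      · exact Or.inr (mem_singleton.2 h4)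
      · exact absurd ⟨v, hv, x, mem_singleton.2 h4, ha⟩ hcon.1
    have h5 := card_le_card h3
    have h6 := card_union_le (bd G C C') {w}
    rw [card_singleton] at h6
    have h7 := h.f4 (hC'.trans hCD) hne hcon.2
      (fun hB => hC.nB (adjS_mono hB hC' (Subset.refl _)))
    omega

theorem hang3_deg {m : ℕ} {D A B : Finset V} {z : V} (h : Ctx G m D A B z)
    {S T D1 C : Finset V} {w y : V} (c : Core3 G D A z S T) (hS : S = {y})
    (hD1 : IsComp G (D \ (T ∪ S)) D1) (hC : Hang G D1 T B z C w) {v : V} (hv : v ∈ C) (hvz : v ≠ z) :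
    m ≤ ds G C {y} A v := by
  obtain ⟨h1, _, _, _⟩ := hang3_facts h c hS hD1 hC
  have hCD : C ⊆ D := fun x hx => (mem_sdiff.1 (hD1.1 (hC.sub hx))).1
  have h2 := h.deg v (hCD hv) hvz
  have h3 : (nb G v B).card = 0 := nb_card_zero (fun ⟨b, hb, ha⟩ => hC.nB ⟨v, hv, b, hb, ha⟩)
  have h4 : (nb G v D).card ≤ (nb G v (C ∪ {w})).card + (nb G v {y}).card := by
    refine nb_card_le_add ?_
    intro x hx ha
    rcases h1 v hv x hx ha with h5 | h5 | h5
    · exact Or.inl (mem_union_left _ h5)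
    · exact Or.inl (mem_union_right _ (mem_singleton.2 h5))
    · exact Or.inr (mem_singleton.2 h5)
  have h5 : (nb G v (C ∪ {w})).card ≤ (nb G v C).card + (nb G v {w}).card := by
    rw [nb_union]
    exact card_union_le _ _
  have h6 : (nb G v {w}).card ≤ 1 := by
    have := nb_card_le (G := G) (v := v) (A := {w})
    rwa [card_singleton] at this
  have h7 : (nb G v {y}).card ≤ 1 := by
    have := nb_card_le (G := G) (v := v) (A := {y})
    rwa [card_singleton] at this
  unfold ds at h2 ⊢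
  omega

theorem hang3_two_noz {m : ℕ} {D A B : Finset V} {z : V} (h : Ctx G m D A B z)
    {S T D1 C : Finset V} {w y : V} (c : Core3 G D A z S T) (hS : S = {y})
    (hD1 : IsComp G (D \ (T ∪ S)) D1) (hC : Hang G D1 T B z C w) (hz : z ∉ C) : False := by
  obtain ⟨h1, hA, hy, hbd⟩ := hang3_facts h c hS hD1 hC
  have hD1D : D1 ⊆ D := fun x hx => (mem_sdiff.1 (hD1.1 hx)).1
  have hCD : C ⊆ D := fun x hx => hD1D (hC.sub hx)
  have hwD : w ∈ D := hD1D hC.wD
  have hyS : y ∈ S := by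
    rw [hS]
    exact mem_singleton_self _
  have hyD1 : y ∉ D1 := fun hy1 => (mem_sdiff.1 (hD1.1 hy1)).2 (mem_union_right _ hyS)
  have hyD : y ∈ D := c.SD hyS
  have hyC : y ∉ C := fun hy1 => hyD1 (hC.sub hy1)
  have hwy : y ≠ w := fun e => hyD1 (e ▸ hC.wD)
  have hins : insert w C ⊆ D := insert_subset hwD hCD
  have hwadj : ∃ x ∈ C, G.Adj x w := by
    have h2 : w ∈ bd G D1 C := by
      rw [hC.bd]
      exact mem_singleton_self _
    obtain ⟨_, _, x, hx, ha⟩ := mem_bd.1 h2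
    exact ⟨x, hx, ha⟩
  -- the connectivity condition
  have hRz : Rz G (insert w C) {y} A w := by
    refine ⟨?_, ?_, ?_⟩
    · obtain ⟨v, hv⟩ := hC.conn.1
      exact ⟨v, mem_insert_of_mem hv, fun e => hC.wC (e ▸ hv)⟩
    · rintro C' hC' ⟨v, hv, _⟩ hb
      have h2 : C' = insert w C := (hC.conn.insert hwadj).2 C' hC' ⟨v, hv⟩ hb
      rw [h2]
      exact ⟨adjS_mono hy (subset_insert _ _) (Subset.refl _), adjS_mono hA (subset_insert _ _) (Subset.refl _)⟩
    · rintro C' hC' ⟨v, hv, hvw⟩ hb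
      by_contra hcon
      rw [not_or] at hcon
      have hsub : C'.erase w ⊆ C := by
        intro x hx
        rw [mem_erase] at hx
        exact (mem_insert.1 (hC' hx.2)).resolve_left hx.1
      have h3 : bd G D (C'.erase w) ⊆ bd G (insert w C) C' ∪ {w} := by
        intro x hx
        obtain ⟨hxD, hxC, u, hu, ha⟩ := mem_bd.1 hx
        have huC' : u ∈ C' := (mem_erase.1 hu).2
        rw [mem_union, mem_singleton]
        by_cases hxw : x = w
        · exact Or.inr hxw
        · left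
          have hxC' : x ∉ C' := fun hx2 => hxC (mem_erase.2 ⟨hxw, hx2⟩)
          rcases h1 u (hsub hu) x hxD ha with h4 | h4 | h4
          · exact mem_bd.2 ⟨mem_insert_of_mem h4, hxC', u, huC', ha⟩
          · exact absurd h4 hxw
          · exact absurd ⟨u, huC', x, mem_singleton.2 h4, ha⟩ hcon.1
      have h5 := card_le_card h3
      have h6 := card_union_le (bd G (insert w C) C') {w}
      rw [card_singleton] at h6
      have h7 := h.f4 (hsub.trans hCD) ⟨v, mem_erase.2 ⟨hvw, hv⟩, fun e => hz (e ▸ hsub (mem_erase.2 ⟨hvw, hv⟩))⟩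
        (fun hA' => hcon.2 (adjS_mono hA' (erase_subset _ _) (Subset.refl _)))
        (fun hB => hC.nB (adjS_mono hB hsub (Subset.refl _)))
      omega
  -- a path from `B` to `y`
  obtain ⟨p0, hp0⟩ : ∃ p0, Pre G (D \ insert w C) B y p0 := by
    have h2 := h.symm.f6
    obtain ⟨u, hu, huw⟩ : ∃ u ∈ TT G D B z, u ≠ w := exists_mem_ne (by omega) w
    obtain ⟨huD, _, b, hb, hub⟩ := mem_TT.1 hu
    have huC : u ∉ C := fun huC => hC.nB ⟨u, huC, b, hb, hub⟩
    have h3 : Conn G (D.erase w) := h.f3 hwD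
    have h4 : Conn G (D.erase w \ C) := by
      refine h3.sdiff (fun x hx => mem_erase.2 ⟨fun e => hC.wC (e ▸ hx), hCD hx⟩)
        (mem_erase.2 ⟨hwy, hyD⟩) hyC ?_
      intro x hx
      obtain ⟨hxD, hxC, v, hv, ha⟩ := mem_bd.1 hx
      rw [mem_erase] at hxD
      rw [mem_singleton]
      exact ((h1 v hv x hxD.2 ha).resolve_left hxC).resolve_left hxD.1
    obtain ⟨n, hn⟩ := h4.path (u := u) (v := y) (mem_sdiff.2 ⟨mem_erase.2 ⟨huw, huD⟩, huC⟩)
      (mem_sdiff.2 ⟨mem_erase.2 ⟨hwy, hyD⟩, hyC⟩)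
    have hbD : b ∉ D.erase w \ C := by
      intro hbD
      exact Finset.disjoint_left.1 h.sys.dB (mem_erase.1 (mem_sdiff.1 hbD).1).2 hb
    refine ⟨n + 1, b, hb, (PL.cons hub.symm hn hbD).mono ?_⟩
    refine insert_subset_insert _ ?_
    intro x hx
    rw [mem_sdiff, mem_erase] at hx
    rw [mem_sdiff, mem_insert, not_or]
    exact ⟨hx.1.2, hx.1.1, hx.2⟩
  refine h.symm.alpha (p := 1) (p0 := p0) (e := 1) hins ?_ hRz le_rfl (Or.inl rfl) ?_ ?_ ?_
  · intro x hx
    rw [mem_singleton] at hx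
    subst hx
    rw [mem_sdiff, mem_insert, not_or]
    exact ⟨hyD, hwy, hyC⟩
  · intro x hx j hj
    rw [mem_singleton] at hx
    have hj0 : j = 0 := by omega
    subst hx
    subst hj0
    simpa using hp0
  · intro v hv hvw
    have hvC : v ∈ C := (mem_insert.1 hv).resolve_left hvw
    have h2 := h.deg v (hCD hvC) (fun e => hz (e ▸ hvC))
    have h3 : (nb G v B).card = 0 := nb_card_zero (fun ⟨b, hb, ha⟩ => hC.nB ⟨v, hvC, b, hb, ha⟩)
    have h4 : (nb G v D).card ≤ (nb G v (insert w C)).card + (nb G v {y}).card := by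
      refine nb_card_le_add ?_
      intro x hx ha
      rcases h1 v hvC x hx ha with h5 | h5 | h5
      · exact Or.inl (mem_insert_of_mem h5)
      · exact Or.inl (mem_insert.2 (Or.inl h5))
      · exact Or.inr (mem_singleton.2 h5)
    have h7 : (nb G v {y}).card ≤ 1 := by
      have := nb_card_le (G := G) (v := v) (A := {y})
      rwa [card_singleton] at this
    unfold ds at h2 ⊢
    omega
  · intro hm
    have := h.m3
    omega

end Pool.Agent.Lib.MP_f599e5_co
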