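import Pool.Agent.Lib.MP_f599e5_co.A7c

set_option autoImplicit false
set_option linter.unusedSectionVars false

/-!
# A7d: Case 3, (3h) for `S = {y}`, `z ∈ C`: the extra hypothesis for `m = 3`, and the case `D1 \ C = {w}`

`hang3_two_e2`: `m = 3`; suppose `R0 G C {y} A` fails and `(C.erase z).card ≤ 1`.  `pend` (with `hang3_rz`, `hang3_facts`): `z ∈ C`, `bd G C {z} = {x}`, `z` not `~ y`, `z` not `~ A`; so `C = {x,z}`, `x ~ z`.  Neighbours of `z` in `D`: `x`, possibly `w`;
`f3''` gives `z ~ w`.  `4 ≤ ds G D A B x ≤ [x~z] + [x~w] + [x~y] + [x~A]`: all four adjacencies hold.  Let `t ∈ T` (adjacent to `y`, and to some `a' ∈ A`), `x ~ a ∈ A`.  Paths to `w`: `a - x - w` (2), `a - x - z - w` (3), `a' - t - y - x - w` (4),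
`a' - t - y - x - z - w` (5); continue by a fixed path `w .. u - b` in `D1 \ C` (`rconn`, `rB`).  So `Adm G 3 D A B` (even 4 lengths, `d = 1`), contradiction.

`hang3_two_w`: `D1 \ C = {w}`.  So `w ~ t0` for some `t0 ∈ T` and `w ~ b0 ∈ B` (`rY`, `rB`).  `h.symm.alpha` with `D1 := C`, `Y := {y}`, target `A`, `z' = z`, `p = 2` (`hang3_rz`, `hang3_deg`, `hang3_two_e2`), in the following two situations:
 (1) `y ~ b ∈ B`: `p0 = 1`, `e = 2`: `b - y` and `b0 - w - t0 - y`.
 (2) some `t ∈ T` has a neighbour `b ∈ B`: `p0 = 2`, `e = 1`: `b - t - y` and `b0 - w - t0 - y`.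
 (3) otherwise: `h.symm.f6` gives `u ∈ TT G D B z`, `u ≠ w`; `u ∉ C` (`nB`), `u ∉ T ∪ {y}`, so `u ∈ D \ U`, `u ∉ D1 = insert w C`; `D2` := its component in `D \ U`, disjoint from `D1`, so `z ∉ D2`; `D2 ~ B`.
  (3i) `D2` not `~ T`: `bd G D D2 ⊆ {y}`, `f3'` contradiction (`T` is disjoint from `D2`, `y ∉ T`, `T ≠ ∅`).
  (3ii) `D2 ~ T`: `Rz G D2 T B z`: otherwise `hangset` gives a hanging set `C'` of `D2`, `z ∉ C'`: `hang3_two_noz`.  `R0 G D2 T B`: otherwise `pend` says `z ∈ D2`.  `alpha` with `D1 := D2`, `Y := T`, `p = 2`, `p0 = 1`, `e = 2` (`pre3_T`, `i = 1, 2`), degrees by `loss3_T`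
  (`S.card = 1`): contradiction.
-/

namespace Pool.Agent.Lib.MP_f599e5_co

open Finset

variable {V : Type} [DecidableEq V] {G : SimpleGraph V}

theorem A7d_path {D A B S : Finset V} (hs : Sys D A B) (hS : S ⊆ D) {u v a b : V} {n L : ℕ}
    (hp : PL G S u v n) (ha : a ∈ A) (hb : b ∈ B) (hua : G.Adj u a) (hvb : G.Adj v b) (hL : L = n + 2) :
    PL G (insert a (insert b D)) a b L := by
  subst hL
  have hbS : b ∉ S := fun h => disjoint_left.1 hs.dB (hS h) hb
  have h1 := PL.snoc hp hvb hbS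
  have haS : a ∉ insert b S := by
    rw [mem_insert]
    rintro (h | h)
    · exact disjoint_left.1 hs.AB ha (h ▸ hb)
    · exact disjoint_left.1 hs.dA (hS h) ha
  have h2 := PL.cons hua.symm h1 haS
  refine h2.mono ?_
  intro x hx
  simp only [mem_insert] at hx ⊢
  rcases hx with h | h | h
  · exact Or.inl h
  · exact Or.inr (Or.inl h)
  · exact Or.inr (Or.inr (hS h))

theorem A7d_pre {U U' A : Finset V} {r : V} {L L' : ℕ} (h : Pre G U A r L) (hU : U ⊆ U') (hL : L = L') :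
    Pre G U' A r L' := by
  subst hL
  obtain ⟨a, ha, hp⟩ := h
  exact ⟨a, ha, hp.mono (insert_subset_insert _ hU)⟩

theorem hang3_two_e2 {m : ℕ} {D A B : Finset V} {z : V} (h : Ctx G m D A B z)
    {S T D1 C : Finset V} {w y : V} (c : Core3 G D A z S T) (hS : S = {y})
    (hD1 : IsComp G (D \ (T ∪ S)) D1) (hC : Hang G D1 T B z C w) (hm : m = 3) :
    R0 G C {y} A ∨ 2 ≤ (C.erase z).card := by
  classical
  obtain ⟨hnbr, hCA, hCy, hbd⟩ := hang3_facts h c hS hD1 hC
  by_contra hcon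
  push Not at hcon
  obtain ⟨hR0, hcard⟩ := hcon
  obtain ⟨hzC, ⟨x, hxC, hxz, hbz⟩, hzy, hzA⟩ := pend hC.conn hCy hCA (hang3_rz h c hS hD1 hC) hR0
  have hD1D : D1 ⊆ D := hD1.1.trans sdiff_subset
  have hCD : C ⊆ D := hC.sub.trans hD1D
  have hdj : ∀ v ∈ D1, v ∉ T ∪ S := fun v hv => (mem_sdiff.1 (hD1.1 hv)).2
  have hyS : y ∈ S := by
    rw [hS]
    exact mem_singleton_self y
  have hyD1 : y ∉ D1 := fun e => hdj y e (mem_union_right _ hyS)
  have hCeq : ∀ v ∈ C, v = x ∨ v = z := by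
    intro v hv
    by_cases hvz : v = z
    · exact Or.inr hvz
    · exact Or.inl (card_le_one.1 (by omega : (C.erase z).card ≤ 1) v (mem_erase.2 ⟨hvz, hv⟩) x
        (mem_erase.2 ⟨hxz, hxC⟩))
  have hzx : G.Adj z x := by
    have h1 : x ∈ bd G C {z} := by
      rw [hbz]
      exact mem_singleton_self x
    obtain ⟨_, _, v, hv, hvx⟩ := mem_bd.1 h1
    rw [mem_singleton] at hv
    subst hv
    exact hvx
  have hzD : z ∈ D := hCD hzC
  have hzw : G.Adj z w := by
    by_contra hno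
    have hsub : bd G D {z} ⊆ {x} := by
      intro v hv
      obtain ⟨hvD, hvz, z', hz', hzv⟩ := mem_bd.1 hv
      rw [mem_singleton] at hvz hz'
      subst hz'
      rw [mem_singleton]
      rcases hnbr z' hzC v hvD hzv with h1 | h1 | h1
      · rcases hCeq v h1 with e | e
        · exact e
        · exact absurd e hvz
      · exact absurd (h1 ▸ hzv) hno
      · exact absurd ⟨z', mem_singleton_self z', v, mem_singleton.2 h1, hzv⟩ hzy
    have hc1 := card_le_card hsub
    rw [card_singleton] at hc1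
    have hc2 : 2 ≤ (D \ {z}).card := by
      rw [sdiff_singleton_eq_erase, card_erase_of_mem hzD]
      have := h.card3
      omega
    have hc3 := h.f3'' (C := {z}) (singleton_subset_iff.2 hzD) (singleton_nonempty z) hc2
    omega
  have hxD : x ∈ D := hCD hxC
  have hxnb : ∀ v ∈ nb G x D, v = z ∨ v = w ∨ v = y := by
    intro v hv
    rw [mem_nb] at hv
    rcases hnbr x hxC v hv.1 hv.2 with h1 | h1
    · rcases hCeq v h1 with e | e
      · exact absurd (e ▸ hv.2) (G.loopless.irrefl x)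
      · exact Or.inl e
    · exact Or.inr h1
  have hdx := h.deg x hxD hxz
  have hxB : ¬ ∃ b ∈ B, G.Adj x b := fun ⟨b, hb, hxb⟩ => hC.nB ⟨x, hxC, b, hb, hxb⟩
  have hxB0 := nb_card_zero hxB
  have hmA := min_nb_le (G := G) (v := x) (A := A)
  unfold ds at hdx
  have hxw : G.Adj x w := by
    by_contra hno
    have h1 : nb G x D ⊆ {z, y} := by
      intro v hv
      rw [mem_insert, mem_singleton]
      rcases hxnb v hv with e | e | e
      · exact Or.inl e
      · exact absurd (e ▸ (mem_nb.1 hv).2) hno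
      · exact Or.inr e
    have h2 := le_trans (card_le_card h1) card_le_two
    omega
  have hxy : G.Adj x y := by
    by_contra hno
    have h1 : nb G x D ⊆ {z, w} := by
      intro v hv
      rw [mem_insert, mem_singleton]
      rcases hxnb v hv with e | e | e
      · exact Or.inl e
      · exact Or.inr e
      · exact absurd (e ▸ (mem_nb.1 hv).2) hno
    have h2 := le_trans (card_le_card h1) card_le_two
    omega
  have hxA : ∃ a ∈ A, G.Adj x a := by
    by_contra hno
    have h0 := nb_card_zero hno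
    have h1 : nb G x D ⊆ {z, w, y} := by
      intro v hv
      rw [mem_insert, mem_insert, mem_singleton]
      exact hxnb v hv
    have h2 := le_trans (card_le_card h1) card_le_three
    omega
  obtain ⟨a, ha, hxa⟩ := hxA
  have hTc := c.cT
  obtain ⟨t, htT⟩ := card_pos.1 (show 0 < T.card by omega)
  obtain ⟨htD, htz, a', ha', hta'⟩ := mem_TT.1 (c.TTT htT)
  have hty : G.Adj t y := c.cpl t htT y hyS
  obtain ⟨u, hu, b, hb, hub⟩ := hC.rB
  obtain ⟨n, hn⟩ := hC.rconn.path (mem_sdiff.2 ⟨hC.wD, hC.wC⟩) hu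
  have hrD : D1 \ C ⊆ D := sdiff_subset.trans hD1D
  have hxr : x ∉ D1 \ C := fun e => (mem_sdiff.1 e).2 hxC
  have hzr : z ∉ D1 \ C := fun e => (mem_sdiff.1 e).2 hzC
  have p1 := PL.cons hxw hn hxr
  have p2 := PL.cons hzw hn hzr
  have hxr2 : x ∉ insert z (D1 \ C) := by
    rw [mem_insert]
    rintro (e | e)
    · exact hxz e
    · exact hxr e
  have p3 := PL.cons hzx.symm p2 hxr2
  have hyr : y ∉ insert x (D1 \ C) := by
    rw [mem_insert]
    rintro (e | e)
    · exact hyD1 (e ▸ hC.sub hxC)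
    · exact hyD1 (mem_sdiff.1 e).1
  have p4 := PL.cons hxy.symm p1 hyr
  have htr : t ∉ insert y (insert x (D1 \ C)) := by
    rw [mem_insert, mem_insert]
    rintro (e | e | e)
    · exact disjoint_left.1 c.disj htT (e ▸ hyS)
    · exact hdj t (e ▸ hC.sub hxC) (mem_union_left _ htT)
    · exact hdj t (mem_sdiff.1 e).1 (mem_union_left _ htT)
  have p5 := PL.cons hty p4 htr
  have hs1 : insert x (D1 \ C) ⊆ D := insert_subset hxD hrD
  have hs2 : insert x (insert z (D1 \ C)) ⊆ D := insert_subset hxD (insert_subset hzD hrD)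
  have hs3 : insert t (insert y (insert x (D1 \ C))) ⊆ D :=
    insert_subset htD (insert_subset (c.SD hyS) hs1)
  apply h.no
  refine ⟨1, Or.inl rfl, n + 3, by omega, fun i hi => ?_⟩
  rcases (show i = 0 ∨ i = 1 ∨ i = 2 by omega) with hi0 | hi0 | hi0
  · exact ⟨a, ha, b, hb, A7d_path h.sys hs1 p1 ha hb hxa hub (by omega)⟩
  · exact ⟨a, ha, b, hb, A7d_path h.sys hs2 p3 ha hb hxa hub (by omega)⟩
  · exact ⟨a', ha', b, hb, A7d_path h.sys hs3 p5 ha' hb hta' hub (by omega)⟩

/-- closing through `C` -/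
theorem A7d_close {m : ℕ} {D A B : Finset V} {z : V} (h : Ctx G m D A B z)
    {S T D1 C : Finset V} {w y : V} (c : Core3 G D A z S T) (hS : S = {y})
    (hD1 : IsComp G (D \ (T ∪ S)) D1) (hC : Hang G D1 T B z C w) {p0 e : ℕ} (he : e = 1 ∨ e = 2)
    (h0 : Pre G (D \ C) B y p0) (h1 : Pre G (D \ C) B y (p0 + e)) : False := by
  have hD1D : D1 ⊆ D := hD1.1.trans sdiff_subset
  have hCD : C ⊆ D := hC.sub.trans hD1D
  have hyS : y ∈ S := by
    rw [hS]
    exact mem_singleton_self y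
  have hyC : y ∉ C := fun e => (mem_sdiff.1 (hD1.1 (hC.sub e))).2 (mem_union_right _ hyS)
  refine h.symm.alpha (D1 := C) (Y := {y}) (z' := z) (p := 2) (p0 := p0) (e := e) hCD
    (singleton_subset_iff.2 (mem_sdiff.2 ⟨c.SD hyS, hyC⟩)) (hang3_rz h c hS hD1 hC) (by omega) he ?_ ?_ ?_
  · intro y' hy' j hj
    rw [mem_singleton] at hy'
    subst hy'
    rcases (show j = 0 ∨ j = 1 by omega) with rfl | rfl
    · exact A7d_pre h0 (Subset.refl _) (by omega)
    · exact A7d_pre h1 (Subset.refl _) (by omega)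
  · intro v hv hvz
    have := hang3_deg h c hS hD1 hC hv hvz
    omega
  · intro hm
    exact hang3_two_e2 h c hS hD1 hC (by omega)

/-- a component of `D \ U` not containing `z`, adjacent to `T` and to `B` -/
theorem A7d_comp {m : ℕ} {D A B : Finset V} {z : V} (h : Ctx G m D A B z) (ht : Tri G D A z)
    {S T D2 : Finset V} {y : V} (c : Core3 G D A z S T) (hS : S = {y})
    (hD2 : IsComp G (D \ (T ∪ S)) D2) (hz : z ∉ D2) (hT : adjS G D2 T) (hB : adjS G D2 B) : False := by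
  have hDD : D2 ⊆ D := hD2.1.trans sdiff_subset
  have hdj : ∀ x ∈ D2, x ∉ T ∪ S := fun x hx => (mem_sdiff.1 (hD2.1 hx)).2
  have hUD : T ∪ S ⊆ D \ D2 := fun x hx => mem_sdiff.2 ⟨c.UD hx, fun h1 => hdj x h1 hx⟩
  have hnbr : ∀ v ∈ D2, ∀ x ∈ D, G.Adj v x → x ∈ D2 ∨ x ∈ T ∪ S := fun v hv x hx ha =>
    nbr_of_closed hD2.1 hD2.2.1 hv hx ha
  have hSc : S.card = 1 := by rw [hS, card_singleton]
  have hne : ∃ v ∈ D2, v ≠ z := by
    obtain ⟨v, hv⟩ := hD2.2.2.1
    exact ⟨v, hv, fun e => hz (e ▸ hv)⟩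
  have hRz : Rz G D2 T B z := by
    by_contra hR
    obtain ⟨C, w, hC⟩ := hangset hD2.2.2 hT hB hne hR
    exact hang3_two_noz h c hS hD2 hC (fun e => hz (hC.sub e))
  have hR0 : R0 G D2 T B := by
    by_contra hR
    exact hz (pend hD2.2.2 hT hB hRz hR).1
  refine h.alpha (D1 := D2) (Y := T) (z' := z) (p := 2) (p0 := 1) (e := 2) hDD
    (subset_union_left.trans hUD) hRz (by omega) (Or.inr rfl) ?_ ?_ (fun _ => Or.inl hR0)
  · intro t ht' j hj
    exact A7d_pre (pre3_T h.sys.dA c ht' (i := j + 1) (by omega) (by omega)) hUD (by omega)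
  · intro v hv hvz
    have h1 := h.deg v (hDD hv) hvz
    have h2 : (nb G v D).card ≤ (nb G v D2).card + (nb G v (T ∪ S)).card :=
      nb_card_le_add (fun x hx ha => hnbr v hv x hx ha)
    rw [nb_card_union c.disj] at h2
    have h3 := loss3_T ht c (hDD hv) (hdj v hv) hvz
    unfold ds at h1 ⊢
    omega

theorem hang3_two_w {m : ℕ} {D A B : Finset V} {z : V} (h : Ctx G m D A B z) (ht : Tri G D A z)
    {S T D1 C : Finset V} {w y : V} (c : Core3 G D A z S T) (hS : S = {y})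
    (hD1 : IsComp G (D \ (T ∪ S)) D1) (hC : Hang G D1 T B z C w) (hz : z ∈ C) (hw : D1 \ C = {w}) :
    False := by
  classical
  have hD1D : D1 ⊆ D := hD1.1.trans sdiff_subset
  have hCD : C ⊆ D := hC.sub.trans hD1D
  have hdj : ∀ x ∈ D1, x ∉ T ∪ S := fun x hx => (mem_sdiff.1 (hD1.1 hx)).2
  have hUC : T ∪ S ⊆ D \ C := fun x hx => mem_sdiff.2 ⟨c.UD hx, fun h1 => hdj x (hC.sub h1) hx⟩
  have hyS : y ∈ S := by
    rw [hS]
    exact mem_singleton_self y
  have hyU : y ∈ T ∪ S := mem_union_right _ hyS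
  have hwD1 : w ∈ D1 := hC.wD
  have hwC : w ∈ D \ C := mem_sdiff.2 ⟨hD1D hwD1, hC.wC⟩
  obtain ⟨w', hw', t0, ht0, hwt0⟩ := hC.rY
  rw [hw, mem_singleton] at hw'
  subst hw'
  obtain ⟨w'', hw'', b0, hb0, hwb0⟩ := hC.rB
  rw [hw, mem_singleton] at hw''
  subst hw''
  have hty : ∀ t ∈ T, G.Adj t y := fun t ht' => c.cpl t ht' y hyS
  have hTU : ∀ t ∈ T, t ∈ T ∪ S := fun t ht' => mem_union_left _ ht'
  have hBD : ∀ b ∈ B, b ∉ D := fun b hb hbD => disjoint_left.1 h.sys.dB hbD hb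
  have p3 : Pre G (D \ C) B y 3 := by
    refine ⟨b0, hb0, ?_⟩
    have q1 : PL G {t0, y} t0 y 1 := PL.edge (hty t0 ht0) (mem_insert_self _ _)
      (mem_insert_of_mem (mem_singleton_self _))
    have hwn : w'' ∉ ({t0, y} : Finset V) := by
      rw [mem_insert, mem_singleton]
      rintro (e | e)
      · exact hdj w'' hwD1 (e ▸ hTU t0 ht0)
      · exact hdj w'' hwD1 (e ▸ hyU)
    have q2 := PL.cons hwt0 q1 hwn
    have hsub : insert w'' ({t0, y} : Finset V) ⊆ D \ C := by
      intro x hx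
      rw [mem_insert, mem_insert, mem_singleton] at hx
      rcases hx with e | e | e
      · exact e ▸ hwC
      · exact e ▸ hUC (hTU t0 ht0)
      · exact e ▸ hUC hyU
    have hbn : b0 ∉ insert w'' ({t0, y} : Finset V) := fun e =>
      hBD b0 hb0 (mem_sdiff.1 (hsub e)).1
    exact (PL.cons hwb0.symm q2 hbn).mono (insert_subset_insert _ hsub)
  by_cases h1 : ∃ b ∈ B, G.Adj y b
  · obtain ⟨b, hb, hyb⟩ := h1
    refine A7d_close h c hS hD1 hC (p0 := 1) (e := 2) (Or.inr rfl) ⟨b, hb, ?_⟩ p3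
    exact PL.edge hyb.symm (mem_insert_self _ _) (mem_insert_of_mem (hUC hyU))
  · by_cases h2 : ∃ t ∈ T, ∃ b ∈ B, G.Adj t b
    · obtain ⟨t, ht', b, hb, htb⟩ := h2
      refine A7d_close h c hS hD1 hC (p0 := 2) (e := 1) (Or.inl rfl) ⟨b, hb, ?_⟩ p3
      have q1 : PL G {t, y} t y 1 := PL.edge (hty t ht') (mem_insert_self _ _)
        (mem_insert_of_mem (mem_singleton_self _))
      have hsub : ({t, y} : Finset V) ⊆ D \ C := by
        intro x hx
        rw [mem_insert, mem_singleton] at hx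
        rcases hx with e | e
        · exact e ▸ hUC (hTU t ht')
        · exact e ▸ hUC hyU
      have hbn : b ∉ ({t, y} : Finset V) := fun e => hBD b hb (mem_sdiff.1 (hsub e)).1
      exact (PL.cons htb.symm q1 hbn).mono (insert_subset_insert _ hsub)
    · obtain ⟨u, hu, huw⟩ := exists_mem_ne (show 1 < (TT G D B z).card from h.symm.f6) w''
      obtain ⟨huD, huz, b, hb, hub⟩ := mem_TT.1 hu
      have huU : u ∉ T ∪ S := by
        intro e
        rcases mem_union.1 e with e | e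
        · exact h2 ⟨u, e, b, hb, hub⟩
        · rw [hS, mem_singleton] at e
          exact h1 ⟨b, hb, e ▸ hub⟩
      have huD1 : u ∉ D1 := by
        intro e
        by_cases huC : u ∈ C
        · exact hC.nB ⟨u, huC, b, hb, hub⟩
        · have h3 : u ∈ D1 \ C := mem_sdiff.2 ⟨e, huC⟩
          rw [hw, mem_singleton] at h3
          exact huw h3
      obtain ⟨D2, huD2, hD2⟩ := exists_comp (G := G) (D := D \ (T ∪ S)) (v := u) (mem_sdiff.2 ⟨huD, huU⟩)
      have hne : D2 ≠ D1 := fun e => huD1 (e ▸ huD2)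
      have hzD2 : z ∉ D2 := fun e => disjoint_left.1 (hD2.disjoint hD1 hne) e (hC.sub hz)
      have hB2 : adjS G D2 B := ⟨u, huD2, b, hb, hub⟩
      by_cases hT2 : adjS G D2 T
      · exact A7d_comp h ht c hS hD2 hzD2 hT2 hB2
      · have hdj2 : ∀ x ∈ D2, x ∉ T ∪ S := fun x hx => (mem_sdiff.1 (hD2.1 hx)).2
        have h3 : bd G D D2 ⊆ {y} := by
          intro x hx
          obtain ⟨hxD, hx2, v, hv, hvx⟩ := mem_bd.1 hx
          rcases nbr_of_closed hD2.1 hD2.2.1 hv hxD hvx with h4 | h4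
          · exact absurd h4 hx2
          · rcases mem_union.1 h4 with h4 | h4
            · exact absurd ⟨v, hv, x, h4, hvx⟩ hT2
            · rw [hS] at h4
              exact h4
        have h4 := h.f3' (C := D2) (hD2.1.trans sdiff_subset) hD2.2.2.1 (w := y)
          (fun e => hdj2 y e hyU) h3
        have h5 : t0 ∈ D2 := h4 (mem_erase.2 ⟨fun e => disjoint_left.1 c.disj ht0 (e ▸ hyS), c.TD ht0⟩)
        exact hdj2 t0 h5 (hTU t0 ht0)

end Pool.Agent.Lib.MP_f599e5_co
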