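import Pool.Agent.Lib.MP_f599e5_co.A7d

set_option autoImplicit false
set_option linter.unusedSectionVars false

/-!
# A7e: Case 3, (3h) for `S = {y}`, `z ∈ C`, `C` maximal, `D1 \ C ≠ {w}`: two ears

`D3 := D1 \ C`, connected, `~ T`, `~ B`, `z ∉ D3`, contains `w` and another vertex.  In `D1` the only vertex of `D3` adjacent to `C` is `w` (`bd G D1 C = {w}`).
`R0 G D3 T B`: (r1) connected.  (r2) suppose `C' ⊆ D3` nonempty, `(bd G D3 C').card ≤ 1`, `C'` not `~ T`, `B`.  `C' ≠ D3`, so `bd G D3 C' = {w'}`.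
  - `w ∉ C'`: then `C'` is not adjacent to `C`, `bd G D1 C' = {w'}`.  Let `C''` be a component of `C'`: again `bd G D1 C'' = {w'}` (nonempty since `D1` is connected), it is a hanging set of `D1` (`Conn.sdiff` for the rest; vertices `≠ z` since `z ∈ C`); `z ∉ C''`: `hang3_two_noz`.
  - `w ∈ C'`: `bd G D1 (C ∪ C') = {w'}`; let `C''` be the component of `C ∪ C'` containing `z` (so it contains the connected set `C`, and then `w`, adjacent to `C`): a hanging set of `D1` (it is not `~ T`, `B`) with more elements than `C`: contradiction to `hmax`.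
`Adm G (m-1) D3 T B`: `h.ih` (`D3.card < D.card`) with exceptional vertex `w`: `Rz` by `R0.toRz`, degrees: `v ∈ D3`, `v ≠ w`: `v` is not adjacent to `C`; `(nb G v D).card ≤ (nb G v D3).card + (nb G v T).card + (nb G v S).card`, `loss3_T` (`S.card = 1`): `m ≤ ds G D3 T B v`; `e2` by `Or.inl`.
`Adm G (m-1) C {y} A`: `h.ih` with exceptional vertex `z` (`hang3_rz`, `hang3_deg`, `hang3_two_e2`).
`adm_glue2` with `n1 = n2 = m - 1` (`m + 1 ≤ 2 (m-1)` as `m ≥ 3`), `p0 = 1`: from `a` through `C` to `y` (reverse of the given path), the edge `y - t` (`c.cpl`), from `t` through `D3` to `b`.  `C`, `D3`, `{y}`, `T` pairwise disjoint.  Contradiction.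

`hang3_two`: (assembly, proved) `hang3`: (assembly, proved).
-/

namespace Pool.Agent.Lib.MP_f599e5_co

open Finset

variable {V : Type} [DecidableEq V] {G : SimpleGraph V}

theorem A7e_eq_single {s : Finset V} {w' : V} (h1 : s.Nonempty) (h2 : s ⊆ {w'}) : s = {w'} := by
  rcases Finset.subset_singleton_iff.1 h2 with h | h
  · exact absurd h h1.ne_empty
  · exact h

/-- a connected part of `D1` with boundary `{w'}`, not adjacent to `Y`, `B`, is a hanging set -/
theorem A7e_hang {D1 Y B C0 : Finset V} {z w' : V} (hc : Conn G D1) (hY : adjS G D1 Y)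
    (hB : adjS G D1 B) (hsub : C0 ⊆ D1) (hconn : Conn G C0) (hne : ∃ v ∈ C0, v ≠ z)
    (hw1 : w' ∈ D1) (hw2 : w' ∉ C0) (hb : bd G D1 C0 ⊆ {w'}) (nY : ¬ adjS G C0 Y)
    (nB : ¬ adjS G C0 B) : Hang G D1 Y B z C0 w' := by
  have hbd : bd G D1 C0 = {w'} := by
    refine A7e_eq_single ?_ hb
    refine hc.bd_nonempty hsub hconn.1 ?_
    intro e
    exact hw2 (e ▸ hw1)
  refine ⟨hsub, hconn, hne, hw1, hw2, hbd, nY, nB, hc.sdiff hsub hw1 hw2 hb, ?_, ?_⟩
  · obtain ⟨x, hx, t, ht, hxt⟩ := hY
    refine ⟨x, mem_sdiff.2 ⟨hx, fun hx0 => nY ⟨x, hx0, t, ht, hxt⟩⟩, t, ht, hxt⟩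
  · obtain ⟨x, hx, t, ht, hxt⟩ := hB
    refine ⟨x, mem_sdiff.2 ⟨hx, fun hx0 => nB ⟨x, hx0, t, ht, hxt⟩⟩, t, ht, hxt⟩

theorem hang3_two_ears {m : ℕ} {D A B : Finset V} {z : V} (h : Ctx G m D A B z) (ht : Tri G D A z)
    {S T D1 C : Finset V} {w y : V} (c : Core3 G D A z S T) (hS : S = {y})
    (hD1 : IsComp G (D \ (T ∪ S)) D1) (hC : Hang G D1 T B z C w) (hz : z ∈ C)
    (hmax : ∀ C' w', Hang G D1 T B z C' w' → C'.card ≤ C.card) (hne : ∃ v ∈ D1 \ C, v ≠ w) : False := by
  obtain ⟨fC, CA, Cy, -⟩ := hang3_facts h c hS hD1 hC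
  have hm := h.m3
  have hD1D : D1 ⊆ D := fun x hx => (mem_sdiff.1 (hD1.1 hx)).1
  have hD1U : ∀ x ∈ D1, x ∉ T ∪ S := fun x hx => (mem_sdiff.1 (hD1.1 hx)).2
  have hCD : C ⊆ D := hC.sub.trans hD1D
  have hD3D : D1 \ C ⊆ D := sdiff_subset.trans hD1D
  have hTD := c.TD
  have hyS : y ∈ S := by rw [hS]; exact mem_singleton_self y
  have hyD : y ∈ D := c.SD hyS
  have hD1conn : Conn G D1 := hD1.2.2
  have hD1Y : adjS G D1 T := adjS_mono hC.rY sdiff_subset (Finset.Subset.refl T)
  have hD1B : adjS G D1 B := adjS_mono hC.rB sdiff_subset (Finset.Subset.refl B)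
  have hwbd : w ∈ bd G D1 C := by rw [hC.bd]; exact mem_singleton_self w
  have hw3 : w ∈ D1 \ C := mem_sdiff.2 ⟨hC.wD, hC.wC⟩
  -- the vertices of `D1 \ C` other than `w` are not adjacent to `C`
  have hnadj : ∀ v ∈ D1 \ C, v ≠ w → ∀ x ∈ C, ¬ G.Adj x v := by
    intro v hv hvw x hx ha
    have : v ∈ bd G D1 C := mem_bd.2 ⟨(mem_sdiff.1 hv).1, (mem_sdiff.1 hv).2, x, hx, ha⟩
    rw [hC.bd, mem_singleton] at this
    exact hvw this
  have hR0 : R0 G (D1 \ C) T B := by
    refine ⟨⟨w, hw3⟩, ?_, ?_⟩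
    · intro C' hC' hC'ne hb
      have : C' = D1 \ C := hC.rconn.2 C' hC' hC'ne hb
      rw [this]
      exact ⟨hC.rY, hC.rB⟩
    · intro C' hC' hC'ne hb
      by_contra hcon
      rw [not_or] at hcon
      obtain ⟨nT, nB⟩ := hcon
      have hneq : C' ≠ D1 \ C := by
        intro e
        rw [e] at nT
        exact nT hC.rY
      have hbne := hC.rconn.bd_nonempty hC' hC'ne hneq
      obtain ⟨w', hw'⟩ : ∃ w', bd G (D1 \ C) C' = {w'} := by
        rw [← Finset.card_eq_one]
        have := hbne.card_pos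
        omega
      have hw'm : w' ∈ bd G (D1 \ C) C' := by rw [hw']; exact mem_singleton_self w'
      obtain ⟨hw'3, hw'C', x', hx', hax'⟩ := mem_bd.1 hw'm
      have hC'D1 : C' ⊆ D1 := hC'.trans sdiff_subset
      have hw'1 : w' ∈ D1 := (mem_sdiff.1 hw'3).1
      by_cases hwC' : w ∈ C'
      · -- `w ∈ C'`
        have hsub : C ∪ C' ⊆ D1 := union_subset hC.sub hC'D1
        have hbU : bd G D1 (C ∪ C') ⊆ {w'} := by
          intro x hx
          obtain ⟨hx1, hx2, q, hq, hqx⟩ := mem_bd.1 hx
          rw [mem_union, not_or] at hx2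
          rcases mem_union.1 hq with hq | hq
          · exfalso
            have : x ∈ bd G D1 C := mem_bd.2 ⟨hx1, hx2.1, q, hq, hqx⟩
            rw [hC.bd, mem_singleton] at this
            rw [this] at hx2
            exact hx2.2 hwC'
          · have : x ∈ bd G (D1 \ C) C' := mem_bd.2 ⟨mem_sdiff.2 ⟨hx1, hx2.1⟩, hx2.2, q, hq, hqx⟩
            rw [hw'] at this
            exact this
        obtain ⟨C0, hz0, hC0, hb0⟩ := exists_conn_part hsub (mem_union_left C' hz)
        have hCC0 : C ⊆ C0 := by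
          have h1 : C ∩ C0 = C := by
            refine hC.conn.2 (C ∩ C0) inter_subset_left ⟨z, mem_inter.2 ⟨hz, hz0⟩⟩ ?_
            rw [Finset.eq_empty_iff_forall_notMem]
            intro x hx
            obtain ⟨hx1, hx2, q, hq, hqx⟩ := mem_bd.1 hx
            have hx3 : x ∉ C0 := fun hx3 => hx2 (mem_inter.2 ⟨hx1, hx3⟩)
            have : x ∈ bd G (C ∪ C') C0 :=
              mem_bd.2 ⟨mem_union_left C' hx1, hx3, q, (mem_inter.1 hq).2, hqx⟩
            rw [hC0.2.1] at this
            exact absurd this (Finset.notMem_empty x)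
          rw [← h1]
          exact inter_subset_right
        have hw0 : w ∈ C0 := by
          by_contra hcon
          obtain ⟨-, -, q, hq, hqw⟩ := mem_bd.1 hwbd
          have : w ∈ bd G (C ∪ C') C0 :=
            mem_bd.2 ⟨mem_union_right C hwC', hcon, q, hCC0 hq, hqw⟩
          rw [hC0.2.1] at this
          exact absurd this (Finset.notMem_empty w)
        have hw'0 : w' ∉ C0 := by
          intro hcon
          rcases mem_union.1 (hC0.1 hcon) with h1 | h1
          · exact (mem_sdiff.1 hw'3).2 h1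
          · exact hw'C' h1
        have hang : Hang G D1 T B z C0 w' := by
          refine A7e_hang hD1conn hD1Y hD1B (hC0.1.trans hsub) hC0.2.2 ?_ hw'1 hw'0
            (hb0.trans hbU) ?_ ?_
          · obtain ⟨v, hv, hvz⟩ := hC.ne
            exact ⟨v, hCC0 hv, hvz⟩
          · rintro ⟨x, hx, t, ht', hxt⟩
            rcases mem_union.1 (hC0.1 hx) with h1 | h1
            · exact hC.nY ⟨x, h1, t, ht', hxt⟩
            · exact nT ⟨x, h1, t, ht', hxt⟩
          · rintro ⟨x, hx, t, ht', hxt⟩
            rcases mem_union.1 (hC0.1 hx) with h1 | h1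
            · exact hC.nB ⟨x, h1, t, ht', hxt⟩
            · exact nB ⟨x, h1, t, ht', hxt⟩
        have hcard := hmax C0 w' hang
        have hlt : C.card < C0.card :=
          Finset.card_lt_card ⟨hCC0, fun hsub' => hC.wC (hsub' hw0)⟩
        omega
      · -- `w ∉ C'`
        have hbU : bd G D1 C' ⊆ {w'} := by
          intro x hx
          obtain ⟨hx1, hx2, q, hq, hqx⟩ := mem_bd.1 hx
          have hqw : q ≠ w := fun e => hwC' (e ▸ hq)
          have hxC : x ∉ C := fun hxC => hnadj q (hC' hq) hqw x hxC hqx.symm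
          have : x ∈ bd G (D1 \ C) C' := mem_bd.2 ⟨mem_sdiff.2 ⟨hx1, hxC⟩, hx2, q, hq, hqx⟩
          rw [hw'] at this
          exact this
        obtain ⟨v0, hv0⟩ := hC'ne
        obtain ⟨C0, hv00, hC0, hb0⟩ := exists_conn_part hC'D1 hv0
        have hC0C : ∀ x ∈ C0, x ∉ C := fun x hx => (mem_sdiff.1 (hC' (hC0.1 hx))).2
        have hang : Hang G D1 T B z C0 w' := by
          refine A7e_hang hD1conn hD1Y hD1B (hC0.1.trans hC'D1) hC0.2.2 ?_ hw'1
            (fun h1 => hw'C' (hC0.1 h1)) (hb0.trans hbU) ?_ ?_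
          · refine ⟨v0, hv00, ?_⟩
            intro e
            rw [e] at hv00
            exact hC0C z hv00 hz
          · intro h1
            exact nT (adjS_mono h1 hC0.1 (Finset.Subset.refl T))
          · intro h1
            exact nB (adjS_mono h1 hC0.1 (Finset.Subset.refl B))
        exact hang3_two_noz h c hS hD1 hang (fun h1 => hC0C z h1 hz)
  -- disjointness
  have dTB : Disjoint T B := h.sys.dB.mono_left hTD
  have dD3T : Disjoint (D1 \ C) T := by
    rw [Finset.disjoint_left]
    intro x hx hxT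
    exact hD1U x (mem_sdiff.1 hx).1 (mem_union_left S hxT)
  have adm1 : Adm G (m - 1) (D1 \ C) T B := by
    refine h.ih (D1 \ C).card ?_ (m - 1) (D1 \ C) T B w rfl ?_
    · refine Finset.card_lt_card ⟨hD3D, fun hsub => ?_⟩
      exact (mem_sdiff.1 (hsub (hCD hz))).2 hz
    · refine ⟨by omega, ⟨dD3T, h.sys.dB.mono_left hD3D, dTB⟩, hR0.toRz hne, ?_, fun _ => Or.inl hR0⟩
      intro v hv hvw
      have hvD : v ∈ D := hD3D hv
      have hvz : v ≠ z := by
        intro e
        rw [e] at hv
        exact (mem_sdiff.1 hv).2 hz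
      have h1 := h.deg v hvD hvz
      have h2 : (nb G v D).card ≤ (nb G v (D1 \ C)).card + (nb G v (T ∪ S)).card := by
        refine nb_card_le_add ?_
        intro x hx hvx
        rcases nbr_of_closed hD1.1 hD1.2.1 (mem_sdiff.1 hv).1 hx hvx with h3 | h3
        · left
          exact mem_sdiff.2 ⟨h3, fun hxC => hnadj v hv hvw x hxC hvx.symm⟩
        · right
          exact h3
      have h3 : (nb G v (T ∪ S)).card = (nb G v T).card + (nb G v S).card := nb_card_union c.disj
      have h4 := loss3_T ht c hvD (hD1U v (mem_sdiff.1 hv).1) hvz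
      have h5 : S.card = 1 := by rw [hS]; exact card_singleton y
      simp only [ds] at h1 ⊢
      omega
  have adm2 : Adm G (m - 1) C {y} A := by
    refine h.ih C.card ?_ (m - 1) C {y} A z rfl ?_
    · refine Finset.card_lt_card ⟨hCD, fun hsub => ?_⟩
      exact hC.wC (hsub (hD1D hC.wD))
    · refine ⟨by omega, ⟨?_, h.sys.dA.mono_left hCD, ?_⟩, hang3_rz h c hS hD1 hC, ?_, ?_⟩
      · rw [Finset.disjoint_singleton_right]
        intro hyC
        exact hD1U y (hC.sub hyC) (mem_union_right T hyS)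
      · rw [Finset.disjoint_singleton_left]
        intro hyA
        exact Finset.disjoint_left.1 h.sys.dA hyD hyA
      · intro v hv hvz
        have := hang3_deg h c hS hD1 hC hv hvz
        omega
      · intro h1
        exact hang3_two_e2 h c hS hD1 hC (by omega)
  refine h.no (adm_glue2 (p0 := 1) adm2 adm1 (by omega) (by omega) (by omega) ?_)
  intro a1 ha1 b1 hb1 a2 ha2 b2 hb2 n1 n2 _ _ p1 p2
  rw [mem_singleton] at ha1
  subst ha1
  have hyT : a1 ∉ T := fun hy => Finset.disjoint_left.1 c.disj hy hyS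
  have hadj : G.Adj a1 a2 := (c.cpl a2 ha2 a1 hyS).symm
  have hyn : a1 ∉ insert a2 (insert b2 (D1 \ C)) := by
    rw [mem_insert, mem_insert, not_or, not_or]
    refine ⟨fun e => hyT (e ▸ ha2), fun e => ?_, fun h1 => ?_⟩
    · exact Finset.disjoint_left.1 h.sys.dB hyD (e ▸ hb2)
    · exact hD1U a1 (mem_sdiff.1 h1).1 (mem_union_right T hyS)
  have q2 := PL.cons hadj p2 hyn
  have q := p1.symm.trans q2 (by
    intro x hx hx'
    rw [mem_insert] at hx hx'
    rcases hx with hx | hx
    · exact hx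
    · rcases hx' with hx' | hx'
      · exact hx'
      · exfalso
        rw [mem_insert] at hx
        rw [mem_insert, mem_insert] at hx'
        rcases hx with hx | hx
        · rw [hx] at hx'
          rcases hx' with e | e | e
          · exact Finset.disjoint_left.1 h.sys.dA (hTD ha2) (e ▸ hb1)
          · exact Finset.disjoint_left.1 h.sys.AB hb1 (e ▸ hb2)
          · exact Finset.disjoint_left.1 h.sys.dA (hD3D e) hb1
        · rcases hx' with e | e | e
          · rw [e] at hx
            exact hD1U a2 (hC.sub hx) (mem_union_left S ha2)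
          · rw [e] at hx
            exact Finset.disjoint_left.1 h.sys.dB (hCD hx) hb2
          · exact (mem_sdiff.1 e).2 hx)
  refine ⟨b1, hb1, b2, hb2, ?_⟩
  have q' : PL G (insert a1 (insert b1 C) ∪ insert a1 (insert a2 (insert b2 (D1 \ C)))) b1 b2
      (n1 + n2 + 1) := by
    have e : n1 + n2 + 1 = n1 + (n2 + 1) := by omega
    rw [e]
    exact q
  refine q'.mono ?_
  intro x hx
  simp only [mem_union, mem_insert] at hx ⊢
  rcases hx with (hx | hx | hx) | (hx | hx | hx | hx)
  · right; right; rw [hx]; exact hyD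
  · left; exact hx
  · right; right; exact hCD hx
  · right; right; rw [hx]; exact hyD
  · right; right; rw [hx]; exact hTD ha2
  · right; left; exact hx
  · right; right; exact hD3D hx

end Pool.Agent.Lib.MP_f599e5_co
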