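import Pool.Agent.Lib.MP_f599e5_co.A7b
import Pool.Agent.Lib.MP_f599e5_co.A7e

set_option autoImplicit false
set_option linter.unusedSectionVars false

/-!
# A7f: Case 3: (3h) assembled; (3a) first part; (3c)

`a3_main`: `D1` a component of `D \ U` (`U = T ∪ S`, `σ = S.card + 1`), `D1 ~ T`, `D1 ~ B`, with a vertex `≠ z`.  `Rz G D1 T B z` by `hangset` and `hang3`.  `alpha` with `Y = T`, `p = σ`, `p0 = 1`, `e = 2` (`pre3_T`), degrees by `loss3_T` (loss `≤ S.card = p - 1`).
So `he2` must fail: `m = σ + 1`, not `R0`, `(D1.erase z).card ≤ 1`.  `pend`: `z ∈ D1`, `bd G D1 {z} = {v}`, `z` not `~ T`, `B`; `D1 = {v,z}`, `v ~ z`; `v ~ T`, `v ~ B`.  `bd G D {z} ⊆ {v} ∪ S` has at least 2 elements (`f3''`), so `z ~ S`.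
`v` not `~ S` (`notboth`).  `v` not `~ A` (otherwise `v ∈ T_A°` is adjacent to an element of `T ⊆ T_A°`, contradiction to `ht.ind`).  `σ + 2 = m + 1 ≤ ds G D A B v ≤ 1 + (nb G v T).card + 1` and `(nb G v T).card ≤ σ` (`maxN`): equality.

`c3`: `D2` a component of `D \ U`, `~ B`, not `~ T`, with a vertex `≠ z`: `bd G D D2 ⊆ S`, at least 2 elements (`f3''`), so `S.card ≥ 2`.  `R0 G D2 S B`: (r1) connected; (r2) `bd G D C' = bd G D2 C'`, contradiction to `f3''`.  `alpha` with `Y = S`, `p = S.card`, `p0 = 2`, `e = 2`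
(`pre3_S`), degrees by `loss3_S` (loss `≤ S.card - 1`; `v ∈ D2` is not `~ T`), `he2` by `Or.inl`.
-/

namespace Pool.Agent.Lib.MP_f599e5_co

open Finset

variable {V : Type} [DecidableEq V] {G : SimpleGraph V}

theorem hang3_two {m : ℕ} {D A B : Finset V} {z : V} (h : Ctx G m D A B z) (ht : Tri G D A z)
    {S T D1 C : Finset V} {w y : V} (c : Core3 G D A z S T) (hS : S = {y})
    (hD1 : IsComp G (D \ (T ∪ S)) D1) (hC : Hang G D1 T B z C w) : False := by
  classical
  have hex : ∃ n : ℕ, ∃ (C' : Finset V) (w' : V), Hang G D1 T B z C' w' ∧ D1.card - C'.card = n :=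
    ⟨_, C, w, hC, rfl⟩
  obtain ⟨C', w', hC', hn⟩ := Nat.find_spec hex
  have hmax : ∀ C'' w'', Hang G D1 T B z C'' w'' → C''.card ≤ C'.card := by
    intro C'' w'' h''
    have h1 := Nat.find_min' hex ⟨C'', w'', h'', rfl⟩
    have h2 := card_le_card h''.sub
    have h3 := card_le_card hC'.sub
    omega
  by_cases hz : z ∈ C'
  · by_cases hw : ∃ v ∈ D1 \ C', v ≠ w'
    · exact hang3_two_ears h ht c hS hD1 hC' hz hmax hw
    · refine hang3_two_w h ht c hS hD1 hC' hz ?_
      push Not at hw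
      ext x
      rw [mem_singleton]
      exact ⟨fun hx => hw x hx, fun hx => hx ▸ mem_sdiff.2 ⟨hC'.wD, hC'.wC⟩⟩
  · exact hang3_two_noz h c hS hD1 hC' hz

theorem hang3 {m : ℕ} {D A B : Finset V} {z : V} (h : Ctx G m D A B z) (ht : Tri G D A z)
    {S T D1 C : Finset V} {w : V} (c : Core3 G D A z S T)
    (hD1 : IsComp G (D \ (T ∪ S)) D1) (hC : Hang G D1 T B z C w) : False := by
  by_cases h0 : S.card = 0
  · exact hang3_one h c h0 hD1 hC
  · by_cases h1 : S.card = 1
    · obtain ⟨y, hy⟩ := card_eq_one.1 h1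
      exact hang3_two h ht c hy hD1 hC
    · exact hang3_ge h ht c (by omega) hD1 hC

/-- the exceptional situation of (3a) -/
structure Spec3 (G : SimpleGraph V) (m : ℕ) (D A B : Finset V) (z : V) (S T D1 : Finset V) (v : V) : Prop where
  hm : m = S.card + 2
  vz : v ≠ z
  D1 : D1 = {v, z}
  adj : G.Adj v z
  zT : ¬ adjS G {z} T
  zB : ¬ adjS G {z} B
  zS : ∃ y ∈ S, G.Adj z y
  vB : ∃ b ∈ B, G.Adj v b
  vA : ¬ ∃ a ∈ A, G.Adj v a
  vS : ¬ ∃ y ∈ S, G.Adj v y
  vT : (nb G v T).card = S.card + 1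

theorem A7f_pre {U U' A : Finset V} {r : V} {L L' : ℕ} (h : Pre G U A r L) (hU : U ⊆ U') (hL : L = L') :
    Pre G U' A r L' := by
  subst hL
  obtain ⟨a, ha, hp⟩ := h
  exact ⟨a, ha, hp.mono (insert_subset_insert _ hU)⟩

theorem a3_main {m : ℕ} {D A B : Finset V} {z : V} (h : Ctx G m D A B z) (ht : Tri G D A z)
    {S T D1 : Finset V} (c : Core3 G D A z S T) (hD1 : IsComp G (D \ (T ∪ S)) D1)
    (hT : adjS G D1 T) (hB : adjS G D1 B) (hne : ∃ v ∈ D1, v ≠ z) : ∃ v, Spec3 G m D A B z S T D1 v := by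
  have hD1D : D1 ⊆ D := hD1.1.trans sdiff_subset
  have hdj : ∀ x ∈ D1, x ∉ T ∪ S := fun x hx => (mem_sdiff.1 (hD1.1 hx)).2
  have hUD : T ∪ S ⊆ D \ D1 := fun x hx => mem_sdiff.2 ⟨c.UD hx, fun h1 => hdj x h1 hx⟩
  have hnbr : ∀ v ∈ D1, ∀ x ∈ D, G.Adj v x → x ∈ D1 ∨ x ∈ T ∪ S := fun v hv x hx ha =>
    nbr_of_closed hD1.1 hD1.2.1 hv hx ha
  have hRz : Rz G D1 T B z := by
    by_contra hR
    obtain ⟨C, w, hC⟩ := hangset hD1.2.2 hT hB hne hR
    exact hang3 h ht c hD1 hC
  by_contra hcon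
  refine h.alpha (D1 := D1) (Y := T) (z' := z) (p := S.card + 1) (p0 := 1) (e := 2) hD1D
    (subset_union_left.trans hUD) hRz (by omega) (Or.inr rfl) ?_ ?_ ?_
  · intro y hy j hj
    exact A7f_pre (pre3_T h.sys.dA c hy (i := j + 1) (by omega) (by omega)) hUD (by omega)
  · intro v hv hvz
    have h1 := h.deg v (hD1D hv) hvz
    have h2 : (nb G v D).card ≤ (nb G v D1).card + (nb G v (T ∪ S)).card :=
      nb_card_le_add (fun x hx ha => hnbr v hv x hx ha)
    rw [nb_card_union c.disj] at h2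
    have h3 := loss3_T ht c (hD1D hv) (hdj v hv) hvz
    unfold ds at h1 ⊢
    omega
  · intro hm
    by_contra h0
    push Not at h0
    obtain ⟨hR0, hcard⟩ := h0
    obtain ⟨hz1, ⟨v, hv, hvz, hbd⟩, hzT, hzB⟩ := pend hD1.2.2 hT hB hRz hR0
    apply hcon
    have hDeq : ∀ x ∈ D1, x = v ∨ x = z := by
      intro x hx
      by_cases hxz : x = z
      · exact Or.inr hxz
      · exact Or.inl (card_le_one.1 (by omega : (D1.erase z).card ≤ 1) x (mem_erase.2 ⟨hxz, hx⟩) v
          (mem_erase.2 ⟨hvz, hv⟩))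
    have hzv : G.Adj z v := by
      have h1 : v ∈ bd G D1 {z} := by
        rw [hbd]
        exact mem_singleton_self v
      obtain ⟨_, _, x, hx, hxv⟩ := mem_bd.1 h1
      rw [mem_singleton] at hx
      subst hx
      exact hxv
    have hvT : ∃ t ∈ T, G.Adj v t := by
      obtain ⟨x, hx, t, ht', hxt⟩ := hT
      rcases hDeq x hx with e | e
      · exact ⟨t, ht', e ▸ hxt⟩
      · exact absurd ⟨z, mem_singleton_self z, t, ht', e ▸ hxt⟩ hzT
    have hvB : ∃ b ∈ B, G.Adj v b := by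
      obtain ⟨x, hx, t, ht', hxt⟩ := hB
      rcases hDeq x hx with e | e
      · exact ⟨t, ht', e ▸ hxt⟩
      · exact absurd ⟨z, mem_singleton_self z, t, ht', e ▸ hxt⟩ hzB
    obtain ⟨t, htT, hvt⟩ := hvT
    have hvD : v ∈ D := hD1D hv
    have hvA : ¬ ∃ a ∈ A, G.Adj v a := by
      intro hA
      exact ht.ind v (mem_TT.2 ⟨hvD, hvz, hA⟩) t (c.TTT htT) hvt
    have hvS : ¬ ∃ y ∈ S, G.Adj v y := by
      rintro ⟨y, hy, hvy⟩
      exact notboth ht c hvD hvz htT hy hvt hvy
    refine ⟨v, ⟨by omega, hvz, ?_, hzv.symm, hzT, hzB, ?_, hvB, hvA, hvS, ?_⟩⟩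
    · ext x
      rw [mem_insert, mem_singleton]
      constructor
      · exact hDeq x
      · rintro (e | e)
        · exact e ▸ hv
        · exact e ▸ hz1
    · by_contra hno
      have hzD : z ∈ D := hD1D hz1
      have hsub : bd G D {z} ⊆ {v} := by
        intro x hx
        obtain ⟨hxD, hxz, z', hz', hzx⟩ := mem_bd.1 hx
        rw [mem_singleton] at hxz hz'
        subst hz'
        rw [mem_singleton]
        rcases hnbr z' hz1 x hxD hzx with h1 | h1
        · rcases hDeq x h1 with e | e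
          · exact e
          · exact absurd e hxz
        · exfalso
          rcases mem_union.1 h1 with h1 | h1
          · exact hzT ⟨z', mem_singleton_self z', x, h1, hzx⟩
          · exact hno ⟨x, h1, hzx⟩
      have hc1 := card_le_card hsub
      rw [card_singleton] at hc1
      have hc2 : 2 ≤ (D \ {z}).card := by
        rw [sdiff_singleton_eq_erase, card_erase_of_mem hzD]
        have := h.card3
        omega
      have hc3 := h.f3'' (C := {z}) (singleton_subset_iff.2 hzD) (singleton_nonempty z) hc2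
      omega
    · have h1 := h.deg v hvD hvz
      have h2 : (nb G v D).card ≤ (nb G v D1).card + (nb G v (T ∪ S)).card :=
        nb_card_le_add (fun x hx ha => hnbr v hv x hx ha)
      rw [nb_card_union c.disj] at h2
      have h3 : (nb G v D1).card ≤ 1 := by
        have h4 : nb G v D1 ⊆ {z} := by
          intro x hx
          rw [mem_nb] at hx
          rw [mem_singleton]
          rcases hDeq x hx.1 with e | e
          · exfalso
            rw [e] at hx
            exact G.loopless.irrefl _ hx.2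
          · exact e
        have := card_le_card h4
        rwa [card_singleton] at this
      have h4 := nb_card_zero hvA
      have h5 := nb_card_zero hvS
      have h6 := min_nb_le (G := G) (v := v) (A := B)
      have h7 := c.maxN v hvD hvz hvA (fun e => hdj v hv (mem_union_right _ e))
      unfold ds at h1
      omega

theorem a3_noz {m : ℕ} {D A B : Finset V} {z : V} (h : Ctx G m D A B z) (ht : Tri G D A z)
    {S T D1 : Finset V} (c : Core3 G D A z S T) (hD1 : IsComp G (D \ (T ∪ S)) D1)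
    (hT : adjS G D1 T) (hB : adjS G D1 B) (hz : z ∉ D1) : False := by
  obtain ⟨x, hx, _⟩ := id hB
  obtain ⟨v, hv⟩ := a3_main h ht c hD1 hT hB ⟨x, hx, fun e => hz (e ▸ hx)⟩
  exact hz (by rw [hv.D1]; simp)

theorem c3 {m : ℕ} {D A B : Finset V} {z : V} (h : Ctx G m D A B z) (ht : Tri G D A z)
    {S T D2 : Finset V} (c : Core3 G D A z S T) (hD2 : IsComp G (D \ (T ∪ S)) D2)
    (hT : ¬ adjS G D2 T) (hB : adjS G D2 B) (hne : ∃ v ∈ D2, v ≠ z) : False := by
  have hDD : D2 ⊆ D := hD2.1.trans sdiff_subset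
  have hdj : ∀ x ∈ D2, x ∉ T ∪ S := fun x hx => (mem_sdiff.1 (hD2.1 hx)).2
  have hUD : T ∪ S ⊆ D \ D2 := fun x hx => mem_sdiff.2 ⟨c.UD hx, fun h1 => hdj x h1 hx⟩
  have hnbr : ∀ v ∈ D2, ∀ x ∈ D, G.Adj v x → x ∈ D2 ∨ x ∈ S := by
    intro v hv x hx ha
    rcases nbr_of_closed hD2.1 hD2.2.1 hv hx ha with h1 | h1
    · exact Or.inl h1
    · rcases mem_union.1 h1 with h1 | h1
      · exact absurd ⟨v, hv, x, h1, ha⟩ hT
      · exact Or.inr h1
  have hbS : bd G D D2 ⊆ S := by
    intro x hx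
    obtain ⟨hxD, hx2, v, hv, hvx⟩ := mem_bd.1 hx
    rcases hnbr v hv x hxD hvx with h1 | h1
    · exact absurd h1 hx2
    · exact h1
  have hTc := c.cT
  have hTD : T ⊆ D \ D2 := subset_union_left.trans hUD
  have hbne : (bd G D D2).Nonempty := by
    refine h.conn.bd_nonempty hDD hD2.2.2.1 ?_
    intro e
    obtain ⟨t, ht'⟩ := card_pos.1 (show 0 < T.card by omega)
    have := mem_sdiff.1 (hTD ht')
    rw [e] at this
    exact this.2 this.1
  have hS1 : 1 ≤ S.card := card_pos.2 (hbne.mono hbS)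
  have hbig : ∀ C ⊆ D2, 2 ≤ (D \ C).card := by
    intro C hC
    have h1 := card_le_card (hTD.trans (sdiff_subset_sdiff (Subset.refl D) hC))
    omega
  have hf : ∀ C ⊆ D2, C.Nonempty → 2 ≤ (bd G D C).card := fun C hC hCne =>
    h.f3'' (hC.trans hDD) hCne (hbig C hC)
  have hS2 : 2 ≤ S.card := le_trans (hf D2 (Subset.refl _) hD2.2.2.1) (card_le_card hbS)
  have hR0 : R0 G D2 S B := by
    refine ⟨hD2.2.2.1, ?_, ?_⟩
    · intro C hC hCne hb
      have e := hD2.2.2.2 C hC hCne hb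
      subst e
      refine ⟨?_, hB⟩
      obtain ⟨x, hx⟩ := hbne
      obtain ⟨_, _, v, hv, hvx⟩ := mem_bd.1 hx
      exact ⟨v, hv, x, hbS hx, hvx⟩
    · intro C hC hCne hb
      by_contra hno
      push Not at hno
      have e : bd G D C = bd G D2 C := by
        refine bd_eq_of hC hDD ?_
        intro v hv x hx hvx
        rcases hnbr v (hC hv) x hx hvx with h1 | h1
        · exact h1
        · exact absurd ⟨v, hv, x, h1, hvx⟩ hno.1
      have h1 := hf C hC hCne
      rw [e] at h1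
      omega
  refine h.alpha (D1 := D2) (Y := S) (z' := z) (p := S.card) (p0 := 2) (e := 2) hDD
    (subset_union_right.trans hUD) (hR0.toRz hne) hS1 (Or.inr rfl) ?_ ?_ (fun _ => Or.inl hR0)
  · intro y hy j hj
    exact A7f_pre (pre3_S h.sys.dA c hy (i := j + 1) (by omega) (by omega)) hUD (by omega)
  · intro v hv hvz
    have h1 := h.deg v (hDD hv) hvz
    have h2 : (nb G v D).card ≤ (nb G v D2).card + (nb G v S).card :=
      nb_card_le_add (fun x hx ha => hnbr v hv x hx ha)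
    have h3 := loss3_S ht c (hDD hv) (hdj v hv) hvz
    unfold ds at h1 ⊢
    omega

end Pool.Agent.Lib.MP_f599e5_co
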