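import Pool.Agent.Lib.MP_f599e5_co.A7f

set_option autoImplicit false
set_option linter.unusedSectionVars false

/-!
# A7g: Case 3, (3a) completed

`U = T ∪ S`, `σ = S.card + 1`, `m = σ + 1`, `D1 = {v,z}`, `v, z ∉ U`.
`spec3_a` (some `t0 ∈ T` has a neighbour `b0 ∈ B`): even lengths `2i`, `1 ≤ i ≤ σ`: `pre3_T` to `t0` (length `2i-1`), then `t0 - b0`.  Odd lengths `2i+1`, `1 ≤ i ≤ σ`: `pre3_T` to some `t ∈ T` adjacent to `v` (exists: `hs.vT`), then `t - v - b`.
So all lengths `2..2σ+1`, in particular `Adm G (σ+1) D A B` (`d = 1`, `l = 2`; `σ + 1 ≤ 2σ`), contradiction.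

`spec3_b` (no element of `T` adjacent to `B`).  Claim 1: `TT G D B z ⊆ insert v S`: let `u ∈ TT G D B z`, `u ≠ v`, `u ∉ S`; `u ∉ T`, `u ≠ z`, so `u ∈ D \ U`, `u ∉ D1`; let `D2` be its component in `D \ U`; disjoint from `D1`, `z ∉ D2`; `D2 ~ B`; `a3_noz` if `D2 ~ T`, `c3` if not.
`v ∈ TT G D B z`.  Put `β = (TT G D B z).card ≥ 2` (`h.symm.f6`), `β ≤ S.card + 1`.  Let `N := nb G v T`, `N.card = S.card + 1`.  Choose `S' ⊆ N` with `S'.card = β - 1`, and `t ∈ N \ S'` (`β - 1 ≤ S.card < N.card`).  Claim 2: `Core3 G D B z S' (TT G D B z)`: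
 `S' ⊆ T ⊆ D`; `z ∉ S'`; `SA`: no element of `T` is adjacent to `B`; `T_iff`: every `u ∈ TT G D B z` is complete to `S'`: `u = v`: `S' ⊆ nb G v T`; `u ∈ S`: `c.cpl`; `cT`: `β - 1 + 1 ≤ β`; `indS`: `S' ⊆ T ⊆ TT G D A z` independent (`ht.ind`);
 `maxN`: `(nb G x (TT G D B z)).card ≤ β`.
`t ∈ D \ (TT G D B z ∪ S')`: `t ∉ TT G D B z` (not adjacent to `B`).  Let `D'` be the component of `D \ (TT G D B z ∪ S')` containing `t`.  `D' ~ TT G D B z` (`t ~ v`), `D' ~ A` (`t ∈ T`), `t ≠ z`.  `a3_main h.symm htB` gives `Spec3` for `D' = {v',z}`: `t ∈ D'` and `t ≠ z` so `t = v'`, `t ~ z`; but `z` is not adjacent to `T`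
(`hs.zT`): contradiction.
-/

namespace Pool.Agent.Lib.MP_f599e5_co

open Finset

variable {V : Type} [DecidableEq V] {G : SimpleGraph V}

theorem spec3_a {m : ℕ} {D A B : Finset V} {z v : V} (h : Ctx G m D A B z)
    {S T D1 : Finset V} (c : Core3 G D A z S T) (hD1 : IsComp G (D \ (T ∪ S)) D1)
    (hs : Spec3 G m D A B z S T D1 v) (ha : ∃ t ∈ T, ∃ b ∈ B, G.Adj t b) : False := by
  apply h.no
  have hvD1 : v ∈ D1 := by rw [hs.D1]; exact mem_insert_self _ _
  have hvD : v ∈ D := (mem_sdiff.1 (hD1.1 hvD1)).1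
  have hvU : v ∉ T ∪ S := (mem_sdiff.1 (hD1.1 hvD1)).2
  have dA := Finset.disjoint_left.1 h.sys.dA
  have dB := Finset.disjoint_left.1 h.sys.dB
  have dAB := Finset.disjoint_left.1 h.sys.AB
  refine ⟨1, Or.inl rfl, 2, le_rfl, ?_⟩
  intro i hi
  have hm := hs.hm
  rcases Nat.even_or_odd' i with ⟨r, hr | hr⟩
  · -- even length
    obtain ⟨t, htT, b, hb, htb⟩ := ha
    obtain ⟨a, haA, hp⟩ := pre3_T h.sys.dA c htT (i := r + 1) (by omega) (by omega)
    refine ⟨a, haA, b, hb, ?_⟩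
    have hbn : b ∉ insert a (T ∪ S) := by
      intro h1
      rcases mem_insert.1 h1 with h2 | h2
      · exact dAB haA (h2 ▸ hb)
      · exact dB (c.UD h2) hb
    have e1 := (hp.snoc htb hbn).mono (T := insert a (insert b D)) (by
      intro x hx
      rcases mem_insert.1 hx with h1 | h1
      · rw [h1]; exact mem_insert_of_mem (mem_insert_self _ _)
      · rcases mem_insert.1 h1 with h2 | h2
        · rw [h2]; exact mem_insert_self _ _
        · exact mem_insert_of_mem (mem_insert_of_mem (c.UD h2)))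
    have hlen : 2 * (r + 1) - 1 + 1 = 2 + i * 1 := by omega
    rwa [hlen] at e1
  · -- odd length
    have h0 : 0 < (nb G v T).card := by
      have := hs.vT
      omega
    obtain ⟨t, ht⟩ := card_pos.1 h0
    obtain ⟨htT, hvt⟩ := mem_nb.1 ht
    obtain ⟨b, hb, hvb⟩ := hs.vB
    obtain ⟨a, haA, hp⟩ := pre3_T h.sys.dA c htT (i := r + 1) (by omega) (by omega)
    refine ⟨a, haA, b, hb, ?_⟩
    have hvn : v ∉ insert a (T ∪ S) := by
      intro h1
      rcases mem_insert.1 h1 with h2 | h2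
      · exact dA hvD (h2 ▸ haA)
      · exact hvU h2
    have hbn : b ∉ insert v (insert a (T ∪ S)) := by
      intro h1
      rcases mem_insert.1 h1 with h2 | h2
      · exact dB hvD (h2 ▸ hb)
      · rcases mem_insert.1 h2 with h2 | h2
        · exact dAB haA (h2 ▸ hb)
        · exact dB (c.UD h2) hb
    have e1 := ((hp.snoc hvt.symm hvn).snoc hvb hbn).mono (T := insert a (insert b D)) (by
      intro x hx
      rcases mem_insert.1 hx with h1 | h1
      · rw [h1]; exact mem_insert_of_mem (mem_insert_self _ _)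
      · rcases mem_insert.1 h1 with h2 | h2
        · rw [h2]; exact mem_insert_of_mem (mem_insert_of_mem hvD)
        · rcases mem_insert.1 h2 with h2 | h2
          · rw [h2]; exact mem_insert_self _ _
          · exact mem_insert_of_mem (mem_insert_of_mem (c.UD h2)))
    have hlen : 2 * (r + 1) - 1 + 1 + 1 = 2 + i * 1 := by omega
    rwa [hlen] at e1

theorem spec3_b {m : ℕ} {D A B : Finset V} {z v : V} (h : Ctx G m D A B z) (ht : Tri G D A z)
    (htB : Tri G D B z) {S T D1 : Finset V} (c : Core3 G D A z S T) (hD1 : IsComp G (D \ (T ∪ S)) D1)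
    (hs : Spec3 G m D A B z S T D1 v) (ha : ¬ ∃ t ∈ T, ∃ b ∈ B, G.Adj t b) : False := by
  have hvD1 : v ∈ D1 := by rw [hs.D1]; exact mem_insert_self _ _
  have hzD1 : z ∈ D1 := by rw [hs.D1]; exact mem_insert_of_mem (mem_singleton_self _)
  have hvD : v ∈ D := (mem_sdiff.1 (hD1.1 hvD1)).1
  -- claim 1
  have claim1 : TT G D B z ⊆ insert v S := by
    intro u hu
    by_contra hcon
    rw [mem_insert, not_or] at hcon
    obtain ⟨huD, huz, b, hb, hub⟩ := mem_TT.1 hu
    have huT : u ∉ T := fun h1 => ha ⟨u, h1, b, hb, hub⟩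
    have huU : u ∈ D \ (T ∪ S) := by
      refine mem_sdiff.2 ⟨huD, fun h1 => ?_⟩
      rcases mem_union.1 h1 with h2 | h2
      · exact huT h2
      · exact hcon.2 h2
    obtain ⟨D2, huD2, hD2⟩ := exists_comp (G := G) huU
    have hzD2 : z ∉ D2 := by
      intro h1
      have h2 := hD2.eq_of_mem hD1 h1 hzD1
      rw [h2, hs.D1] at huD2
      rcases mem_insert.1 huD2 with h3 | h3
      · exact hcon.1 h3
      · exact huz (mem_singleton.1 h3)
    have hB2 : adjS G D2 B := ⟨u, huD2, b, hb, hub⟩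
    by_cases hT2 : adjS G D2 T
    · exact a3_noz h ht c hD2 hT2 hB2 hzD2
    · exact c3 h ht c hD2 hT2 hB2 ⟨u, huD2, huz⟩
  have hvTB : v ∈ TT G D B z := mem_TT.2 ⟨hvD, hs.vz, hs.vB⟩
  have hb2 : 2 ≤ (TT G D B z).card := h.symm.f6
  have hbS : (TT G D B z).card ≤ S.card + 1 := (card_le_card claim1).trans (card_insert_le _ _)
  have hvT := hs.vT
  obtain ⟨S', hS', hS'c⟩ := Finset.exists_subset_card_eq
    (show (TT G D B z).card - 1 ≤ (nb G v T).card by omega)
  obtain ⟨t, htN⟩ : ((nb G v T) \ S').Nonempty := by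
    rw [← card_pos]
    have := Finset.le_card_sdiff S' (nb G v T)
    omega
  obtain ⟨htN1, htS'⟩ := mem_sdiff.1 htN
  obtain ⟨htT, hvt⟩ := mem_nb.1 htN1
  have hS'T : S' ⊆ T := fun x hx => (mem_nb.1 (hS' hx)).1
  have c' : Core3 G D B z S' (TT G D B z) := by
    refine ⟨fun x hx => c.TD (hS'T hx), fun h1 => c.zU (mem_union_left _ (hS'T h1)),
      fun y hy ⟨b, hb, hyb⟩ => ha ⟨y, hS'T hy, b, hb, hyb⟩, ?_, by omega, ?_, ?_⟩
    · intro u
      refine ⟨fun hu => ⟨hu, fun y hy => ?_⟩, fun hu => hu.1⟩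
      rcases mem_insert.1 (claim1 hu) with h1 | h1
      · rw [h1]
        exact (mem_nb.1 (hS' hy)).2
      · exact (c.cpl y (hS'T hy) u h1).symm
    · intro x hx y hy
      exact ht.ind x (c.TTT (hS'T hx)) y (c.TTT (hS'T hy))
    · intro x _ _ _ _
      refine nb_card_le.trans ?_
      omega
  have htTA := c.TTT htT
  obtain ⟨htD, htz, a, haA, hta⟩ := mem_TT.1 htTA
  have htU : t ∈ D \ (TT G D B z ∪ S') := by
    refine mem_sdiff.2 ⟨htD, fun h1 => ?_⟩
    rcases mem_union.1 h1 with h2 | h2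
    · exact ha ⟨t, htT, (mem_TT.1 h2).2.2⟩
    · exact htS' h2
  obtain ⟨D', htD', hD'⟩ := exists_comp (G := G) htU
  obtain ⟨v', hv'⟩ := a3_main h.symm htB c' hD' ⟨t, htD', v, hvTB, hvt.symm⟩
    ⟨t, htD', a, haA, hta⟩ ⟨t, htD', htz⟩
  have htv' : t = v' := by
    have h1 := htD'
    rw [hv'.D1] at h1
    rcases mem_insert.1 h1 with h2 | h2
    · exact h2
    · exact absurd (mem_singleton.1 h2) htz
  have hadj : G.Adj t z := by
    rw [htv']
    exact hv'.adj
  exact hs.zT ⟨z, mem_singleton_self z, t, htT, hadj.symm⟩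

/-- (3d), first part: `T_B° ⊆ S` or `T_B° ⊆ T` -/
theorem half3 {m : ℕ} {D A B : Finset V} {z : V} (h : Ctx G m D A B z) (ht : Tri G D A z)
    (htB : Tri G D B z) {S T : Finset V} (c : Core3 G D A z S T) :
    TT G D B z ⊆ S ∨ TT G D B z ⊆ T := by
  have hU : TT G D B z ⊆ T ∪ S := by
    intro u hu
    by_contra huU
    obtain ⟨huD, huz, b, hb, hub⟩ := mem_TT.1 hu
    obtain ⟨C, huC, hC⟩ := exists_comp (G := G) (D := D \ (T ∪ S)) (v := u) (mem_sdiff.2 ⟨huD, huU⟩)
    by_cases hT : adjS G C T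
    · obtain ⟨v, hv⟩ := a3_main h ht c hC hT ⟨u, huC, b, hb, hub⟩ ⟨u, huC, huz⟩
      by_cases ha : ∃ t ∈ T, ∃ b ∈ B, G.Adj t b
      · exact spec3_a h c hC hv ha
      · exact spec3_b h ht htB c hC hv ha
    · exact c3 h ht c hC hT ⟨u, huC, b, hb, hub⟩ ⟨u, huC, huz⟩
  by_cases hS : TT G D B z ⊆ S
  · exact Or.inl hS
  · refine Or.inr ?_
    obtain ⟨u, hu, huS⟩ := Finset.not_subset.1 hS
    have huT : u ∈ T := (mem_union.1 (hU hu)).resolve_right huS
    intro u' hu'
    rcases mem_union.1 (hU hu') with h' | h'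
    · exact h'
    · exact absurd (c.cpl u huT u' h') (htB.ind u hu u' hu')

end Pool.Agent.Lib.MP_f599e5_co
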