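import Pool.Agent.Lib.MP_f599e5_co.A7a

set_option autoImplicit false
set_option linter.unusedSectionVars false

/-!
# A8a: Case 3, end: `T_A° = T_B° = T`; direct paths; a component adjacent to `T`

Every `t ∈ T` has a neighbour in `A` and one in `B`.  `σ = S.card + 1`.
`e3_direct`: lengths `2i`, `1 ≤ i ≤ σ`: `pre3_T` (length `2i - 1`) to any `t ∈ T`, then `t - b`.  If `m ≤ σ` then `Adm G m D A B` (`d = 2`, `l = 2`), contradiction.  So `S.card + 2 ≤ m`.
`e3_I0` (`S.card + 2 ≤ T.card`): suppose no component of `D \ insert z (T ∪ S)` is adjacent to `T`.  Let `t ∈ T`.  Its neighbours in `D` lie in `S ∪ {z}` (`T` independent; a neighbour outside `T ∪ S ∪ {z}` lies in some component).  So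
 `m + 1 ≤ ds G D A B t ≤ S.card + [t ~ z, z ∈ D] + 2`.  With `S.card + 2 ≤ m`: `m = S.card + 2 = σ + 1`, `z ∈ D` and `z` is complete to `T`.  Lengths `2i`, `1 ≤ i ≤ σ + 1`: `i = 1`: `a - t - b`; `i ≥ 2`: `a - t .. t' - b` with `bp2` of length `2 (i-1)` in
 `T ∪ insert z S` (`i - 1 ≤ T.card - 1`, `i - 1 ≤ S.card + 1 = (insert z S).card`).  So `Adm G m D A B`, contradiction.
-/

namespace Pool.Agent.Lib.MP_f599e5_co

open Finset

variable {V : Type} [DecidableEq V] {G : SimpleGraph V}

theorem A8a_path {D A B S : Finset V} (hs : Sys D A B) (hS : S ⊆ D) {u v a b : V} {n : ℕ}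
    (hp : PL G S u v n) (ha : a ∈ A) (hb : b ∈ B) (hua : G.Adj u a) (hvb : G.Adj v b) :
    PL G (insert a (insert b D)) a b (n + 2) := by
  have hbS : b ∉ S := fun h => disjoint_left.1 hs.dB (hS h) hb
  have h1 := PL.snoc hp hvb hbS
  have haS : a ∉ insert b S := by
    rw [mem_insert]
    rintro (h | h)
    · exact disjoint_left.1 hs.AB ha (h ▸ hb)
    · exact disjoint_left.1 hs.dA (hS h) ha
  have h2 := PL.cons hua.symm h1 haS
  refine h2.mono ?_
  intro x hx
  simp only [mem_insert] at hx ⊢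
  rcases hx with h | h | h
  · exact Or.inl h
  · exact Or.inr (Or.inl h)
  · exact Or.inr (Or.inr (hS h))

theorem e3_direct {m : ℕ} {D A B : Finset V} {z : V} (h : Ctx G m D A B z)
    {S T : Finset V} (c : Core3 G D A z S T) (hA : TT G D A z = T) (hB : TT G D B z = T) :
    S.card + 2 ≤ m := by
  by_contra hcon
  apply h.no
  have hTne : T.Nonempty := by
    rw [← card_pos]
    have := c.cT
    omega
  obtain ⟨t, ht⟩ := hTne
  obtain ⟨htD, htz, b, hb, htb⟩ := mem_TT.1 (show t ∈ TT G D B z from hB ▸ ht)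
  refine ⟨2, Or.inr rfl, 2, le_refl _, fun i hi => ?_⟩
  obtain ⟨a, ha, hp⟩ := pre3_T h.sys.dA c ht (i := i + 1) (by omega) (by omega)
  have hbU : b ∉ insert a (T ∪ S) := by
    rw [mem_insert]
    rintro (e | e)
    · exact disjoint_left.1 h.sys.AB ha (e ▸ hb)
    · exact disjoint_left.1 h.sys.dB (c.UD e) hb
  have h1 := PL.snoc hp htb hbU
  refine ⟨a, ha, b, hb, ?_⟩
  have e : 2 + i * 2 = 2 * (i + 1) - 1 + 1 := by omega
  rw [e]
  refine h1.mono ?_
  intro x hx
  simp only [mem_insert] at hx ⊢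
  rcases hx with h | h | h
  · exact Or.inr (Or.inl h)
  · exact Or.inl h
  · exact Or.inr (Or.inr (c.UD h))

theorem e3_I0 {m : ℕ} {D A B : Finset V} {z : V} (h : Ctx G m D A B z) (ht : Tri G D A z)
    {S T : Finset V} (c : Core3 G D A z S T) (hA : TT G D A z = T) (hB : TT G D B z = T)
    (hm : S.card + 2 ≤ m) (hT : S.card + 2 ≤ T.card) :
    ∃ Q, IsComp G (D \ insert z (T ∪ S)) Q ∧ adjS G Q T := by
  by_contra hcon
  have hTA : ∀ t ∈ T, t ∈ D ∧ t ≠ z ∧ ∃ a ∈ A, G.Adj t a := fun t ht =>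
    mem_TT.1 (show t ∈ TT G D A z from hA ▸ ht)
  have hTB : ∀ t ∈ T, ∃ b ∈ B, G.Adj t b := fun t ht =>
    (mem_TT.1 (show t ∈ TT G D B z from hB ▸ ht)).2.2
  have hnb : ∀ t ∈ T, ∀ x ∈ D, G.Adj t x → x = z ∨ x ∈ S := by
    intro t ht' x hx htx
    by_contra hno
    push Not at hno
    have hxT : x ∉ T := fun hxT => ht.ind t (hA ▸ ht') x (hA ▸ hxT) htx
    have hxm : x ∈ D \ insert z (T ∪ S) := by
      rw [mem_sdiff, mem_insert, mem_union]
      refine ⟨hx, ?_⟩
      rintro (e | e | e)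
      · exact hno.1 e
      · exact hxT e
      · exact hno.2 e
    obtain ⟨Q, hxQ, hQ⟩ := exists_comp (G := G) hxm
    exact hcon ⟨Q, hQ, x, hxQ, t, ht', htx.symm⟩
  have hdeg : ∀ t ∈ T, m ≤ (nb G t D).card + 1 := by
    intro v hv
    have h3 := h.deg v (hTA v hv).1 (hTA v hv).2.1
    have h4 := min_nb_le (G := G) (v := v) (A := A)
    have h5 := min_nb_le (G := G) (v := v) (A := B)
    unfold ds at h3
    omega
  have hadj : ∀ t ∈ T, z ∈ D ∧ G.Adj t z := by
    intro v hv
    by_contra hno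
    have h3 : nb G v D ⊆ S := by
      intro x hx
      rw [mem_nb] at hx
      rcases hnb v hv x hx.1 hx.2 with e | e
      · exfalso
        apply hno
        subst e
        exact ⟨hx.1, hx.2⟩
      · exact e
    have h4 := card_le_card h3
    have := hdeg v hv
    omega
  obtain ⟨t, ht', t', ht'', htt⟩ := one_lt_card.1 (show 1 < T.card by omega)
  have hzD : z ∈ D := (hadj t ht').1
  have hmk : m ≤ S.card + 2 := by
    have h3 : nb G t D ⊆ insert z S := by
      intro x hx
      rw [mem_nb] at hx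
      rcases hnb t ht' x hx.1 hx.2 with e | e
      · rw [e]
        exact mem_insert_self _ _
      · exact mem_insert_of_mem e
    have h4 := le_trans (card_le_card h3) (card_insert_le _ _)
    have := hdeg t ht'
    omega
  have hzT : z ∉ T := fun hz => (hTA z hz).2.1 rfl
  have hdis : Disjoint T (insert z S) := by
    rw [disjoint_left]
    intro x hx hx'
    rcases mem_insert.1 hx' with e | e
    · exact hzT (e ▸ hx)
    · exact disjoint_left.1 c.disj hx e
  have hcpl : Cpl G T (insert z S) := by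
    intro x hx y hy
    rcases mem_insert.1 hy with e | e
    · rw [e]
      exact (hadj x hx).2
    · exact c.cpl x hx y e
  have hc' : (insert z S).card = S.card + 1 := card_insert_of_notMem c.zS
  have hUD : T ∪ insert z S ⊆ D := by
    intro x hx
    rcases mem_union.1 hx with e | e
    · exact c.TD e
    · rcases mem_insert.1 e with e | e
      · rw [e]
        exact hzD
      · exact c.SD e
  apply h.no
  refine ⟨2, Or.inr rfl, 2, le_refl _, fun i hi => ?_⟩
  rcases (show i = 0 ∨ 1 ≤ i by omega) with rfl | hi1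
  · obtain ⟨a, ha, hta⟩ := (hTA t ht').2.2
    obtain ⟨b, hb, htb⟩ := hTB t ht'
    exact ⟨a, ha, b, hb, A8a_path h.sys c.TD (PL.refl ht') ha hb hta htb⟩
  · obtain ⟨a, ha, hta⟩ := (hTA t ht').2.2
    obtain ⟨b, hb, htb⟩ := hTB t' ht''
    have h3 := bp2 hdis hcpl ht' ht'' htt (i := i) hi1 (by omega) (by omega)
    have h4 := A8a_path h.sys hUD h3 ha hb hta htb
    refine ⟨a, ha, b, hb, ?_⟩
    have e : 2 + i * 2 = 2 * i + 2 := by omega
    rw [e]
    exact h4

end Pool.Agent.Lib.MP_f599e5_co
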