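import Pool.Agent.Lib.MP_f599e5_co.A7a

set_option autoImplicit false
set_option linter.unusedSectionVars false

/-!
# A8b: Case 3, end: hanging sets in `D2 = Q (+z)`

`T_A° = T_B° = T`, `S1` complete to `T`, disjoint from `T`, `S1.card + 1 ≤ T.card`, `S1.card + 2 ≤ m`.  `Q` a component of `D \ insert z (T ∪ S1)`, `D2` as in `qset` (`W = T ∪ S1`), `Y1 ∪ Y2 = T`, `C`, `w` a hanging set of `D2` w.r.t. `Y1`, `Y2`.
Vertices of `Q` are not adjacent to `A`, `B` (they are `≠ z`, not in `T`).  `C` is not `~ T` (`nY`, `nB`).  For `v ∈ C`, `v ≠ z` (so `v ∈ Q`): the neighbours in `D` are in `C ∪ {w}` or in `S1`.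
 * `C ~ S1` (even `C.erase z ~ S1`): `C.erase z` is nonempty, not `~ A`, `B`, `bd G D (C.erase z) ⊆ {w,z} ∪ S1`, `f4`.  So `1 ≤ S1.card`.
 * `Rz G C S1 {w} z`: (r1) `C` connected, `~ S1`, `~ w`.  (r2) `C' ⊆ C` with a vertex `≠ z`, `(bd G C C').card ≤ 1`, not `~ S1`, `w`: `C'' := C'.erase z`; `bd G D C'' ⊆ bd G C C' ∪ {z}`: at most 2 elements, contradiction to `f4`.
 * `mid` with `D2 := C`, `Y1 := S1`, `Y2 := {w}`, `p = S1.card`, `e = 2`: let `x ∈ D2 \ C`, `x ~ t' ∈ Y1 ⊆ T` (`rY`), `t' ~ b ∈ B`.  Suffix: fixed path `w .. x` in `D2 \ C` (`rconn`), `x - t' - b`, length `L2`.  Prefix, for `y ∈ S1`, `j < p`: `a - t'' .. y` of length `2 + 2j` in `(T.erase t') ∪ S1`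
   (`bp1` with length `2 (j+1) - 1`; `j + 1 ≤ S1.card ≤ (T.erase t').card`).  `U1 = (T.erase t') ∪ S1`, `U2 = insert t' (D2 \ C)`; both subsets of `D \ C`, disjoint.  `p0 = 2 + L2`.
 * degrees: `v ∈ C`, `v ≠ z`: `ds G D A B v = (nb G v D).card ≤ (nb G v C).card + (nb G v {w}).card + (nb G v S1).card`, and `(nb G v S1).card ≤ min 1 _ + (S1.card - 1)`: `m + 1 ≤ ds G C S1 {w} v + (S1.card - 1)`.
 * `he2`: `m = S1.card + 1` impossible.
-/

namespace Pool.Agent.Lib.MP_f599e5_co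

open Finset

variable {V : Type} [DecidableEq V] {G : SimpleGraph V}

theorem e3_hang {m : ℕ} {D A B : Finset V} {z : V} (h : Ctx G m D A B z)
    {S1 T Q D2 Y1 Y2 C : Finset V} {w : V} (hA : TT G D A z = T) (hB : TT G D B z = T)
    (hS1 : S1 ⊆ D) (hz1 : z ∉ S1) (hd : Disjoint T S1) (hc : Cpl G T S1)
    (hcard : S1.card + 1 ≤ T.card) (hm : S1.card + 2 ≤ m)
    (hQ : IsComp G (D \ insert z (T ∪ S1)) Q) (hQ2 : Q ⊆ D2) (h2Q : D2 ⊆ insert z Q) (h2D : D2 ⊆ D)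
    (h2W : Disjoint D2 (T ∪ S1)) (hnb : ∀ v ∈ Q, ∀ x ∈ D, G.Adj v x → x ∈ D2 ∨ x ∈ T ∪ S1)
    (hY : ∀ t ∈ T, t ∈ Y1 ∨ t ∈ Y2) (hY1 : Y1 ⊆ T) (hY2 : Y2 ⊆ T) (hC : Hang G D2 Y1 Y2 z C w) : False := by
  -- elementary facts
  have hTD : T ⊆ D := by
    intro t ht
    rw [← hA] at ht
    exact (mem_TT.1 ht).1
  have hQmem : ∀ v ∈ C, v ≠ z → v ∈ Q := by
    intro v hv hvz
    rcases mem_insert.1 (h2Q (hC.sub hv)) with h1 | h1
    · exact absurd h1 hvz
    · exact h1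
  have hQD : ∀ v ∈ Q, v ∈ D ∧ v ≠ z ∧ v ∉ T := by
    intro v hv
    have h1 := mem_sdiff.1 (hQ.1 hv)
    refine ⟨h1.1, fun e => h1.2 (mem_insert.2 (Or.inl e)), fun e => h1.2 (mem_insert.2 (Or.inr (mem_union.2 (Or.inl e))))⟩
  have hQA : ∀ v ∈ Q, ¬ ∃ a ∈ A, G.Adj v a := by
    intro v hv hc
    obtain ⟨h1, h2, h3⟩ := hQD v hv
    apply h3
    rw [← hA]
    exact mem_TT.2 ⟨h1, h2, hc⟩
  have hQB : ∀ v ∈ Q, ¬ ∃ b ∈ B, G.Adj v b := by
    intro v hv hc
    obtain ⟨h1, h2, h3⟩ := hQD v hv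
    apply h3
    rw [← hB]
    exact mem_TT.2 ⟨h1, h2, hc⟩
  have hCD : C ⊆ D := fun v hv => h2D (hC.sub hv)
  have hCT : ∀ v ∈ C, ∀ t ∈ T, ¬ G.Adj v t := by
    intro v hv t ht ha
    rcases hY t ht with h1 | h1
    · exact hC.nY ⟨v, hv, t, h1, ha⟩
    · exact hC.nB ⟨v, hv, t, h1, ha⟩
  have hnbC : ∀ v ∈ C, v ≠ z → ∀ x ∈ D, G.Adj v x → x ∈ C ∨ x = w ∨ x ∈ S1 := by
    intro v hv hvz x hx ha
    rcases hnb v (hQmem v hv hvz) x hx ha with h1 | h1
    · by_cases hxC : x ∈ C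
      · exact Or.inl hxC
      · have h2 : x ∈ bd G D2 C := mem_bd.2 ⟨h1, hxC, v, hv, ha⟩
        rw [hC.bd] at h2
        exact Or.inr (Or.inl (mem_singleton.1 h2))
    · rcases mem_union.1 h1 with h2 | h2
      · exact absurd ha (hCT v hv x h2)
      · exact Or.inr (Or.inr h2)
  have hD2T : ∀ v ∈ D2, v ∉ T ∧ v ∉ S1 := by
    intro v hv
    have h1 := Finset.disjoint_left.1 h2W hv
    exact ⟨fun e => h1 (mem_union.2 (Or.inl e)), fun e => h1 (mem_union.2 (Or.inr e))⟩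
  -- a set containing a vertex of `C` other than `z`
  have key : ∀ C' ⊆ C, (∃ v ∈ C', v ≠ z) → ∀ X : Finset V,
      (∀ v ∈ C', v ≠ z → ∀ x ∈ D, G.Adj v x → x ∈ C' ∨ x = z ∨ x ∈ X) → X.card ≤ 1 → False := by
    intro C' hC' hne X hX hcX
    have hsub : C'.erase z ⊆ D := fun v hv => hCD (hC' (mem_of_mem_erase hv))
    have h1 : 3 ≤ (bd G D (C'.erase z)).card := by
      refine h.f4 hsub ?_ ?_ ?_
      · obtain ⟨v, hv, hvz⟩ := hne
        exact ⟨v, mem_erase.2 ⟨hvz, hv⟩, hvz⟩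
      · rintro ⟨v, hv, a, ha, hva⟩
        exact hQA v (hQmem v (hC' (mem_of_mem_erase hv)) (ne_of_mem_erase hv)) ⟨a, ha, hva⟩
      · rintro ⟨v, hv, a, ha, hva⟩
        exact hQB v (hQmem v (hC' (mem_of_mem_erase hv)) (ne_of_mem_erase hv)) ⟨a, ha, hva⟩
    have h2 : bd G D (C'.erase z) ⊆ insert z X := by
      intro x hx
      obtain ⟨hxD, hxC, v, hv, hvx⟩ := mem_bd.1 hx
      rcases hX v (mem_of_mem_erase hv) (ne_of_mem_erase hv) x hxD hvx with h3 | h3 | h3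
      · by_cases hxz : x = z
        · exact mem_insert.2 (Or.inl hxz)
        · exact absurd (mem_erase.2 ⟨hxz, h3⟩) hxC
      · exact mem_insert.2 (Or.inl h3)
      · exact mem_insert.2 (Or.inr h3)
    have h3 := card_le_card h2
    have h4 := card_insert_le z X
    omega
  -- `C ~ S1`
  have hCS : adjS G C S1 := by
    by_contra hno
    refine key C (Subset.refl _) hC.ne {w} ?_ (by rw [card_singleton])
    intro v hv hvz x hx ha
    rcases hnbC v hv hvz x hx ha with h1 | h1 | h1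
    · exact Or.inl h1
    · exact Or.inr (Or.inr (mem_singleton.2 h1))
    · exact absurd ⟨v, hv, x, h1, ha⟩ hno
  have hCw : adjS G C {w} := by
    have h1 : w ∈ bd G D2 C := by rw [hC.bd]; exact mem_singleton_self w
    obtain ⟨-, -, x, hx, ha⟩ := mem_bd.1 h1
    exact ⟨x, hx, w, mem_singleton_self w, ha⟩
  have hS1pos : 1 ≤ S1.card := by
    obtain ⟨-, -, y, hy, -⟩ := hCS
    exact card_pos.2 ⟨y, hy⟩
  have hRz : Rz G C S1 {w} z := by
    refine ⟨hC.ne, ?_, ?_⟩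
    · rintro C' hC' ⟨v, hv, -⟩ hb
      have h1 : C' = C := hC.conn.2 C' hC' ⟨v, hv⟩ hb
      rw [h1]
      exact ⟨hCS, hCw⟩
    · intro C' hC' hne hb
      by_contra hno
      rw [not_or] at hno
      refine key C' hC' hne (bd G C C') ?_ hb
      intro v hv hvz x hx ha
      rcases hnbC v (hC' hv) hvz x hx ha with h1 | h1 | h1
      · by_cases hxC : x ∈ C'
        · exact Or.inl hxC
        · exact Or.inr (Or.inr (mem_bd.2 ⟨h1, hxC, v, hv, ha⟩))
      · exact absurd ⟨v, hv, w, mem_singleton_self w, h1 ▸ ha⟩ hno.2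
      · exact absurd ⟨v, hv, x, h1, ha⟩ hno.1
  -- the fixed path `w .. x - t' - b`
  obtain ⟨x, hx, t', ht', hxt⟩ := hC.rY
  have ht'T : t' ∈ T := hY1 ht'
  obtain ⟨b, hb, ht'b⟩ : ∃ b ∈ B, G.Adj t' b := by
    have h1 := ht'T
    rw [← hB] at h1
    exact (mem_TT.1 h1).2.2
  have hwr : w ∈ D2 \ C := mem_sdiff.2 ⟨hC.wD, hC.wC⟩
  obtain ⟨n, hn⟩ := hC.rconn.path hwr hx
  have ht'r : t' ∉ D2 \ C := fun e => (hD2T t' (mem_sdiff.1 e).1).1 ht'T
  have hp1 := hn.snoc hxt ht'r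
  have hbD : b ∉ D := fun e => Finset.disjoint_left.1 h.sys.dB e hb
  have hU2 : insert t' (D2 \ C) ⊆ D \ C := by
    intro v hv
    rcases mem_insert.1 hv with h1 | h1
    · rw [h1]
      exact mem_sdiff.2 ⟨hTD ht'T, fun e => (hD2T t' (hC.sub e)).1 ht'T⟩
    · exact mem_sdiff.2 ⟨h2D (mem_sdiff.1 h1).1, (mem_sdiff.1 h1).2⟩
  have hbr : b ∉ insert t' (D2 \ C) := fun e => hbD (mem_sdiff.1 (hU2 e)).1
  have hp2 := hp1.snoc ht'b hbr
  have hTer : (T.erase t').card = T.card - 1 := card_erase_of_mem ht'T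
  obtain ⟨t, ht⟩ : (T.erase t').Nonempty := card_pos.1 (by omega)
  have htT : t ∈ T := mem_of_mem_erase ht
  obtain ⟨a, ha, hta⟩ : ∃ a ∈ A, G.Adj t a := by
    have h1 := htT
    rw [← hA] at h1
    exact (mem_TT.1 h1).2.2
  have haD : a ∉ D := fun e => Finset.disjoint_left.1 h.sys.dA e ha
  have hU1 : T.erase t' ∪ S1 ⊆ D \ C := by
    intro v hv
    rcases mem_union.1 hv with h1 | h1
    · have h2 := mem_of_mem_erase h1
      exact mem_sdiff.2 ⟨hTD h2, fun e => (hD2T v (hC.sub e)).1 h2⟩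
    · exact mem_sdiff.2 ⟨hS1 h1, fun e => (hD2T v (hC.sub e)).2 h1⟩
  have hU12 : Disjoint (T.erase t' ∪ S1) (insert t' (D2 \ C)) := by
    rw [Finset.disjoint_left]
    intro v hv hv2
    rcases mem_insert.1 hv2 with h1 | h1
    · rcases mem_union.1 hv with h2 | h2
      · exact ne_of_mem_erase h2 h1
      · exact Finset.disjoint_left.1 hd (h1 ▸ ht'T) h2
    · have h3 := hD2T v (mem_sdiff.1 h1).1
      rcases mem_union.1 hv with h2 | h2
      · exact h3.1 (mem_of_mem_erase h2)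
      · exact h3.2 h2
  have hdis : Disjoint (T.erase t') S1 := disjoint_of_subset_left (erase_subset _ _) hd
  have hcpl : Cpl G (T.erase t') S1 := fun u hu v hv => hc u (mem_of_mem_erase hu) v hv
  refine h.mid (D2 := C) (Y1 := S1) (Y2 := {w}) (z' := z) (p := S1.card) (p0 := n + 4) (e := 2) hCD
    ?_ ?_ ?_ hRz hS1pos (Or.inr rfl) ?_ ?_ ?_
  · intro v hv
    exact hU1 (mem_union.2 (Or.inr hv))
  · intro v hv
    rw [mem_singleton.1 hv]
    exact mem_sdiff.2 ⟨h2D hC.wD, hC.wC⟩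
  · rw [Finset.disjoint_singleton_right]
    exact (hD2T w hC.wD).2
  · intro y1 hy1 y2 hy2 j hj
    rw [mem_singleton.1 hy2]
    have h1 := bp1 hdis hcpl ht hy1 (i := j + 1) (by omega) (by omega) (by omega)
    have haU : a ∉ T.erase t' ∪ S1 := fun e => haD (mem_sdiff.1 (hU1 e)).1
    have h2 := h1.cons hta.symm haU
    exact ⟨a, ha, b, hb, T.erase t' ∪ S1, insert t' (D2 \ C), hU1, hU2, hU12,
      2 * (j + 1) - 1 + 1, n + 1 + 1, by omega, h2, hp2⟩
  · intro v hv hvz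
    have hdv := h.deg v (hCD hv) hvz
    have hvQ := hQmem v hv hvz
    unfold ds at hdv ⊢
    rw [nb_card_zero (hQA v hvQ), nb_card_zero (hQB v hvQ)] at hdv
    have h1 : (nb G v D).card ≤ (nb G v C).card + (nb G v ({w} ∪ S1)).card := by
      refine nb_card_le_add ?_
      intro x hx hax
      rcases hnbC v hv hvz x hx hax with h2 | h2 | h2
      · exact Or.inl h2
      · exact Or.inr (mem_union.2 (Or.inl (mem_singleton.2 h2)))
      · exact Or.inr (mem_union.2 (Or.inr h2))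
    have h2 : (nb G v ({w} ∪ S1)).card ≤ (nb G v {w}).card + (nb G v S1).card := by
      refine nb_card_le_add ?_
      intro x hx _
      exact mem_union.1 hx
    have h3 : (nb G v {w}).card ≤ 1 := by
      have := nb_card_le (G := G) (v := v) (A := {w})
      rwa [card_singleton] at this
    have h4 : (nb G v S1).card ≤ S1.card := nb_card_le
    omega
  · intro hm2
    omega

end Pool.Agent.Lib.MP_f599e5_co
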