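import Pool.Agent.Lib.MP_f599e5_co.A8b

set_option autoImplicit false
set_option linter.unusedSectionVars false

/-!
# A8c: Case 3, end, `S.card + 2 ≤ T.card`, `Q` a component of `D \ insert z (T ∪ S)` adjacent to `T`

`σ = S.card + 1`; `Q` is not adjacent to `A`, `B` (vertices `≠ z`, not in `T`).  `qset` with `W = T ∪ S`: `D2`.
`e3_I2`: `t1 ≠ t2` in `T`, both adjacent to `Q`.  `Y1 = {t1}`, `Y2 = T.erase t1`; `D2 ~ Y1`, `D2 ~ Y2`, `D2` connected.  If `Rz G D2 Y1 Y2 z` fails: `hangset` and `e3_hang` (`S1 = S`).  Otherwise `mid` with `p = S.card + 1`, `p0 = 2`, `e = 2`: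
 * `Link G (D \ D2) A B t1 t (2 + 2j)`, `t ∈ Y2`, `j ≤ S.card`: `a - t1` (`U1 = {t1}`); `j = 0`: `t - b`; `j ≥ 1`: `t .. t'' - b` with `t'' ∈ Y2`, `t'' ≠ t`, `bp2` of length `2j` in `Y2 ∪ S` (`j + 1 ≤ Y2.card = T.card - 1`, `j ≤ S.card`).
 * degrees: `v ∈ D2`, `v ≠ z`, so `v ∈ Q`: not `~ A`, `B`; `(nb G v D).card ≤ (nb G v D2).card + (nb G v Y1).card + (nb G v Y2).card + (nb G v S).card`; `notboth`; `v ~ T`: `(nb G v Y1).card + (nb G v Y2).card = (nb G v T).card ≤ S.card + 1` (`maxN`) and `nb G v S = ∅`;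
   `v` not `~ T`: `(nb G v S).card ≤ S.card`.  So `m + 1 ≤ ds G D2 Y1 Y2 v + S.card`.
 * `he2`: `m = S.card + 2`; suppose not `R0` and `(D2.erase z).card ≤ 1`.  Then `z ∈ D2` (otherwise `Rz` gives `R0`), `D2 = {x,z}`, `Q = {x}`.  `x ~ T`, so `nb G x S = ∅` (`notboth`), `S.card + 3 ≤ ds G D A B x = (nb G x D).card ≤ 1 + (nb G x T).card ≤ S.card + 2`, contradiction.

`e3_I1`: exactly one `t0 ∈ T` is adjacent to `Q`.  `f4`: `bd G D Q ⊆ {z, t0} ∪ S` has at least 3 elements, so `Q ~ S`, `1 ≤ S.card`.  `Y1 = {t0}`, `Y2 = S`: `Rz G D2 {t0} S z` by `qset`.  `mid` with `p = S.card`, `p0 = 3`, `e = 2`: `Link G (D \ D2) A B t0 y (3 + 2j)`, `j < S.card`: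
 `a - t0`; `y .. t' - b`, `bp1` (reversed) of length `2 (j+1) - 1` in `(T.erase t0) ∪ S`.  Degrees: `v ∈ Q`: `(nb G v D).card ≤ (nb G v D2).card + (nb G v {t0}).card + (nb G v S).card`: loss `≤ S.card - 1`.  `he2` impossible (`S.card + 2 ≤ m`).
-/

namespace Pool.Agent.Lib.MP_f599e5_co

open Finset

variable {V : Type} [DecidableEq V] {G : SimpleGraph V}

theorem A8c_setup {m : ℕ} {D A B : Finset V} {z : V} (h : Ctx G m D A B z)
    {S T Q : Finset V} (c : Core3 G D A z S T) (hA : TT G D A z = T) (hB : TT G D B z = T)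
    (hQ : IsComp G (D \ insert z (T ∪ S)) Q) :
    ∃ D2 : Finset V, Q ⊆ D2 ∧ D2 ⊆ insert z Q ∧ D2 ⊆ D ∧ Disjoint D2 (T ∪ S) ∧ Conn G D2 ∧
      (∀ v ∈ Q, ∀ x ∈ D, G.Adj v x → x ∈ D2 ∨ x ∈ T ∪ S) ∧
      (∀ Y1 Y2 : Finset V, Y1 ⊆ T ∪ S → Y2 ⊆ T ∪ S → adjS G Q Y1 → adjS G Q Y2 →
        (∀ x ∈ T ∪ S, adjS G Q {x} → x ∈ Y1 ∨ x ∈ Y2) → Rz G D2 Y1 Y2 z) ∧
      3 ≤ (bd G D Q).card ∧ (∀ w ∈ bd G D Q, w = z ∨ w ∈ T ∪ S) ∧
      (∀ v ∈ Q, m + 1 ≤ (nb G v D).card) ∧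
      (∀ v ∈ Q, v ∈ D ∧ v ≠ z ∧ v ∉ T ∪ S) ∧ (∀ v ∈ Q, ¬ ∃ a ∈ A, G.Adj v a) := by
  have hQD : ∀ v ∈ Q, v ∈ D ∧ v ≠ z ∧ v ∉ T ∪ S := by
    intro v hv
    have h1 := Finset.mem_sdiff.1 (hQ.1 hv)
    rw [Finset.mem_insert, not_or] at h1
    exact ⟨h1.1, h1.2.1, h1.2.2⟩
  have hQA : ∀ v ∈ Q, ¬ ∃ a ∈ A, G.Adj v a := by
    rintro v hv ⟨a, ha, hva⟩
    obtain ⟨e1, e2, e3⟩ := hQD v hv
    have h1 : v ∈ TT G D A z := mem_TT.2 ⟨e1, e2, a, ha, hva⟩
    rw [hA] at h1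
    exact e3 (Finset.mem_union_left _ h1)
  have hQB : ∀ v ∈ Q, ¬ ∃ b ∈ B, G.Adj v b := by
    rintro v hv ⟨b, hb, hvb⟩
    obtain ⟨e1, e2, e3⟩ := hQD v hv
    have h1 : v ∈ TT G D B z := mem_TT.2 ⟨e1, e2, b, hb, hvb⟩
    rw [hB] at h1
    exact e3 (Finset.mem_union_left _ h1)
  have hnA : ¬ adjS G Q A := fun ⟨v, hv, a, ha, hva⟩ => hQA v hv ⟨a, ha, hva⟩
  have hnB : ¬ adjS G Q B := fun ⟨v, hv, b, hb, hvb⟩ => hQB v hv ⟨b, hb, hvb⟩
  obtain ⟨D2, q1, q2, q3, q4, q5, q6, q7⟩ := h.qset c.UD c.zU hQ hnA hnB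
  obtain ⟨v0, hv0⟩ := hQ.2.2.1
  refine ⟨D2, q1, q2, q3, q4, q5, q6, q7, ?_, ?_, ?_, hQD, hQA⟩
  · exact h.f4 (fun v hv => (hQD v hv).1) ⟨v0, hv0, (hQD v0 hv0).2.1⟩ hnA hnB
  · intro w hw
    obtain ⟨hwD, hwQ, x, hx, hxw⟩ := mem_bd.1 hw
    have h1 := (nbr_of_closed hQ.1 hQ.2.1 hx hwD hxw).resolve_left hwQ
    exact Finset.mem_insert.1 h1
  · intro v hv
    obtain ⟨e1, e2, e3⟩ := hQD v hv
    have h1 := h.deg v e1 e2
    have h2 := nb_card_zero (hQA v hv)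
    have h3 := nb_card_zero (hQB v hv)
    unfold ds at h1
    omega

theorem e3_I2 {m : ℕ} {D A B : Finset V} {z : V} (h : Ctx G m D A B z) (ht : Tri G D A z)
    {S T Q : Finset V} (c : Core3 G D A z S T) (hA : TT G D A z = T) (hB : TT G D B z = T)
    (hm : S.card + 2 ≤ m) (hT : S.card + 2 ≤ T.card) (hQ : IsComp G (D \ insert z (T ∪ S)) Q)
    {t1 t2 : V} (h1 : t1 ∈ T) (h2 : t2 ∈ T) (hne : t1 ≠ t2) (hq1 : adjS G Q {t1}) (hq2 : adjS G Q {t2}) :
    False := by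
  obtain ⟨D2, q1, q2, q3, q4, q5, q6, q7, q8, q9, q10, hQD, hQA⟩ := A8c_setup h c hA hB hQ
  have hdisj := Finset.disjoint_left.1 q4
  have hTA : ∀ t ∈ T, ∃ a ∈ A, G.Adj t a := fun t ht' => (mem_TT.1 (c.TTT ht')).2.2
  have hTB : ∀ t ∈ T, ∃ b ∈ B, G.Adj t b := fun t ht' =>
    (mem_TT.1 (show t ∈ TT G D B z by rw [hB]; exact ht')).2.2
  have hBD : ∀ b ∈ B, b ∉ D := fun b hb hbD => Finset.disjoint_left.1 h.sys.dB hbD hb
  have hUD2 : ∀ x ∈ T ∪ S, x ∈ D \ D2 := fun x hx =>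
    Finset.mem_sdiff.2 ⟨c.UD hx, fun h1 => hdisj h1 hx⟩
  have hY1T : ({t1} : Finset V) ⊆ T := Finset.singleton_subset_iff.2 h1
  have hY2T : T.erase t1 ⊆ T := Finset.erase_subset _ _
  have hTW : T ⊆ T ∪ S := Finset.subset_union_left
  have hYs : ∀ t ∈ T, t ∈ ({t1} : Finset V) ∨ t ∈ T.erase t1 := by
    intro t ht'
    by_cases hyt : t = t1
    · exact Or.inl (Finset.mem_singleton.2 hyt)
    · exact Or.inr (Finset.mem_erase.2 ⟨hyt, ht'⟩)
  have hY12 : Disjoint ({t1} : Finset V) (T.erase t1) := by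
    rw [Finset.disjoint_singleton_left]
    exact Finset.notMem_erase t1 T
  have ha1 : adjS G D2 {t1} := adjS_mono hq1 q1 (Finset.Subset.refl _)
  have ha2 : adjS G D2 (T.erase t1) := by
    refine adjS_mono hq2 q1 ?_
    rw [Finset.singleton_subset_iff]
    exact Finset.mem_erase.2 ⟨hne.symm, h2⟩
  obtain ⟨v0, hv0⟩ := hQ.2.2.1
  by_cases hRz : Rz G D2 {t1} (T.erase t1) z
  · have hcard : (T.erase t1).card = T.card - 1 := Finset.card_erase_of_mem h1
    have hinQ : ∀ v ∈ D2, v ≠ z → v ∈ Q := fun v hv hvz =>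
      (Finset.mem_insert.1 (q2 hv)).resolve_left hvz
    obtain ⟨a1, ha1A, hta1⟩ := hTA t1 h1
    have hdegD : ∀ v ∈ Q, (nb G v D).card ≤ (nb G v D2).card + (nb G v T).card + (nb G v S).card := by
      intro v hv
      have e1 : (nb G v D).card ≤ (nb G v D2).card + (nb G v (T ∪ S)).card :=
        nb_card_le_add (q6 v hv)
      have e2 : (nb G v (T ∪ S)).card ≤ (nb G v T).card + (nb G v S).card :=
        nb_card_le_add (fun x hx _ => Finset.mem_union.1 hx)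
      omega
    refine h.mid (z' := z) (p := S.card + 1) (p0 := 2) (e := 2) q3
      (fun x hx => hUD2 x (hTW (hY1T hx))) (fun x hx => hUD2 x (hTW (hY2T hx))) hY12 hRz (by omega)
      (Or.inr rfl) ?_ ?_ ?_
    · intro y1 hy1 y2 hy2 j hj
      rw [Finset.mem_singleton] at hy1
      subst hy1
      obtain ⟨hy2n, hy2T⟩ := Finset.mem_erase.1 hy2
      rcases Nat.eq_zero_or_pos j with rfl | hjpos
      · obtain ⟨b, hb, hyb⟩ := hTB y2 hy2T
        refine ⟨a1, ha1A, b, hb, {y1}, {y2}, ?_, ?_, ?_, 1, 1, rfl, ?_, ?_⟩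
        · exact Finset.singleton_subset_iff.2 (hUD2 _ (hTW h1))
        · exact Finset.singleton_subset_iff.2 (hUD2 _ (hTW hy2T))
        · rw [Finset.disjoint_singleton]
          exact hy2n.symm
        · exact PL.edge hta1.symm (by simp) (by simp)
        · exact PL.edge hyb (by simp) (by simp)
      · obtain ⟨t3, ht3, ht3n⟩ := Finset.exists_mem_ne (show 1 < (T.erase y1).card by omega) y2
        obtain ⟨_, ht3T⟩ := Finset.mem_erase.1 ht3
        obtain ⟨b, hb, htb⟩ := hTB t3 ht3T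
        have hXY : Disjoint (T.erase y1) S :=
          Finset.disjoint_of_subset_left (Finset.erase_subset _ _) c.disj
        have hcpl' : Cpl G (T.erase y1) S := fun x hx y hy => c.cpl x (Finset.mem_of_mem_erase hx) y hy
        have e1 := bp2 hXY hcpl' hy2 ht3 ht3n.symm (i := j) hjpos (by omega) (by omega)
        have hsub : T.erase y1 ∪ S ⊆ T ∪ S :=
          Finset.union_subset_union (Finset.erase_subset _ _) (Finset.Subset.refl _)
        have e2 := PL.snoc e1 htb (fun h3 => hBD b hb (c.UD (hsub h3)))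
        refine ⟨a1, ha1A, b, hb, {y1}, T.erase y1 ∪ S, ?_, fun x hx => hUD2 x (hsub hx), ?_,
          1, 2 * j + 1, by omega, ?_, e2⟩
        · exact Finset.singleton_subset_iff.2 (hUD2 _ (hTW h1))
        · rw [Finset.disjoint_singleton_left, Finset.mem_union, not_or]
          exact ⟨Finset.notMem_erase y1 T, fun h3 => Finset.disjoint_left.1 c.disj h1 h3⟩
        · exact PL.edge hta1.symm (by simp) (by simp)
    · intro v hv hvz
      have hvQ := hinQ v hv hvz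
      obtain ⟨e1, e2, e3⟩ := hQD v hvQ
      have e4 := q10 v hvQ
      have e5 := hdegD v hvQ
      have e6 : (nb G v T).card ≤ (nb G v {t1}).card + (nb G v (T.erase t1)).card :=
        nb_card_le_add (fun x hx _ => hYs x hx)
      have e7 : (nb G v S).card ≤ S.card := nb_card_le
      unfold ds
      by_cases hvT : ∃ t ∈ T, G.Adj v t
      · obtain ⟨t, ht', hvt⟩ := hvT
        have e8 : (nb G v S).card = 0 := nb_card_zero (fun ⟨y, hy, hvy⟩ =>
          notboth ht c e1 e2 ht' hy hvt hvy)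
        have e9 := c.maxN v e1 e2 (hQA v hvQ) (fun h3 => e3 (Finset.mem_union_right _ h3))
        omega
      · have e8 := nb_card_zero hvT
        omega
    · intro hm2
      by_contra hcon
      rw [not_or, not_le] at hcon
      obtain ⟨hR0, hcard2⟩ := hcon
      have hzD2 : z ∈ D2 := by
        by_contra hz
        apply hR0
        have hnz : ∀ C ⊆ D2, C.Nonempty → ∃ v ∈ C, v ≠ z := by
          rintro C hC ⟨v, hv⟩
          exact ⟨v, hv, fun h3 => hz (h3 ▸ hC hv)⟩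
        exact ⟨⟨v0, q1 hv0⟩, fun C hC hCn hb => hRz.r1 C hC (hnz C hC hCn) hb,
          fun C hC hCn hb => hRz.r2 C hC (hnz C hC hCn) hb⟩
      obtain ⟨x, hx, y, hy, hxy⟩ := hq1
      rw [Finset.mem_singleton] at hy
      subst hy
      obtain ⟨e1, e2, e3⟩ := hQD x hx
      have e4 := q10 x hx
      have e5 := hdegD x hx
      have e8 : (nb G x S).card = 0 := nb_card_zero (fun ⟨y', hy', hvy⟩ =>
          notboth ht c e1 e2 h1 hy' hxy hvy)
      have e9 := c.maxN x e1 e2 (hQA x hx) (fun h3 => e3 (Finset.mem_union_right _ h3))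
      have e10 : (nb G x D2).card + 1 ≤ D2.card := nb_card_lt (q1 hx) (fun h3 => h3.ne rfl)
      have e11 := Finset.card_erase_of_mem hzD2
      omega
  · obtain ⟨C, w, hC⟩ := hangset q5 ha1 ha2 ⟨v0, q1 hv0, (hQD v0 hv0).2.1⟩ hRz
    exact e3_hang h hA hB c.SD c.zS c.disj c.cpl c.cT hm hQ q1 q2 q3 q4 q6 hYs hY1T hY2T hC

theorem e3_I1 {m : ℕ} {D A B : Finset V} {z : V} (h : Ctx G m D A B z) (ht : Tri G D A z)
    {S T Q : Finset V} (c : Core3 G D A z S T) (hA : TT G D A z = T) (hB : TT G D B z = T)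
    (hm : S.card + 2 ≤ m) (hQ : IsComp G (D \ insert z (T ∪ S)) Q)
    {t0 : V} (h1 : t0 ∈ T) (hq1 : adjS G Q {t0}) (hu : ∀ t ∈ T, adjS G Q {t} → t = t0) : False := by
  have _ := ht
  obtain ⟨D2, q1, q2, q3, q4, q5, q6, q7, q8, q9, q10, hQD, hQA⟩ := A8c_setup h c hA hB hQ
  have hdisj := Finset.disjoint_left.1 q4
  have hTA : ∀ t ∈ T, ∃ a ∈ A, G.Adj t a := fun t ht' => (mem_TT.1 (c.TTT ht')).2.2
  have hTB : ∀ t ∈ T, ∃ b ∈ B, G.Adj t b := fun t ht' =>
    (mem_TT.1 (show t ∈ TT G D B z by rw [hB]; exact ht')).2.2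
  have hBD : ∀ b ∈ B, b ∉ D := fun b hb hbD => Finset.disjoint_left.1 h.sys.dB hbD hb
  have hUD2 : ∀ x ∈ T ∪ S, x ∈ D \ D2 := fun x hx =>
    Finset.mem_sdiff.2 ⟨c.UD hx, fun h1 => hdisj h1 hx⟩
  have hTone : ∀ v ∈ Q, ∀ x ∈ T ∪ S, G.Adj v x → x ∈ ({t0} : Finset V) ∨ x ∈ S := by
    intro v hv x hx hvx
    rcases Finset.mem_union.1 hx with h3 | h3
    · left
      rw [Finset.mem_singleton]
      exact hu x h3 ⟨v, hv, x, Finset.mem_singleton_self x, hvx⟩
    · exact Or.inr h3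
  have hQS : adjS G Q S := by
    by_contra hcon
    have h3 : bd G D Q ⊆ {z, t0} := by
      intro w hw
      rw [Finset.mem_insert, Finset.mem_singleton]
      rcases q9 w hw with h4 | h4
      · exact Or.inl h4
      · obtain ⟨_, _, x, hx, hxw⟩ := mem_bd.1 hw
        rcases hTone x hx w h4 hxw with h5 | h5
        · exact Or.inr (Finset.mem_singleton.1 h5)
        · exact absurd ⟨x, hx, w, h5, hxw⟩ hcon
    have h4 := (Finset.card_le_card h3).trans Finset.card_le_two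
    omega
  have hS1 : 1 ≤ S.card := by
    obtain ⟨_, _, y, hy, _⟩ := hQS
    exact Finset.card_pos.2 ⟨y, hy⟩
  have hY1W : ({t0} : Finset V) ⊆ T ∪ S :=
    Finset.singleton_subset_iff.2 (Finset.mem_union_left _ h1)
  have hY2W : S ⊆ T ∪ S := Finset.subset_union_right
  have hRz : Rz G D2 {t0} S z := by
    refine q7 _ _ hY1W hY2W hq1 hQS ?_
    intro x hx hax
    obtain ⟨v, hv, y, hy, hvy⟩ := hax
    rw [Finset.mem_singleton] at hy
    subst hy
    exact hTone v hv y hx hvy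
  have hY12 : Disjoint ({t0} : Finset V) S := by
    rw [Finset.disjoint_singleton_left]
    exact fun h3 => Finset.disjoint_left.1 c.disj h1 h3
  have hcT := c.cT
  have hcard : (T.erase t0).card = T.card - 1 := Finset.card_erase_of_mem h1
  obtain ⟨a1, ha1A, hta1⟩ := hTA t0 h1
  refine h.mid (z' := z) (p := S.card) (p0 := 3) (e := 2) q3
      (fun x hx => hUD2 x (hY1W hx)) (fun x hx => hUD2 x (hY2W hx)) hY12 hRz hS1
      (Or.inr rfl) ?_ ?_ ?_
  · intro y1 hy1 y hy j hj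
    rw [Finset.mem_singleton] at hy1
    subst hy1
    obtain ⟨t3, ht3⟩ := Finset.card_pos.1 (show 0 < (T.erase y1).card by omega)
    obtain ⟨_, ht3T⟩ := Finset.mem_erase.1 ht3
    obtain ⟨b, hb, htb⟩ := hTB t3 ht3T
    have hXY : Disjoint (T.erase y1) S :=
      Finset.disjoint_of_subset_left (Finset.erase_subset _ _) c.disj
    have hcpl' : Cpl G (T.erase y1) S := fun x hx y hy => c.cpl x (Finset.mem_of_mem_erase hx) y hy
    have e1 := (bp1 hXY hcpl' ht3 hy (i := j + 1) (by omega) (by omega) (by omega)).symm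
    have hsub : T.erase y1 ∪ S ⊆ T ∪ S :=
      Finset.union_subset_union (Finset.erase_subset _ _) (Finset.Subset.refl _)
    have e2 := PL.snoc e1 htb (fun h3 => hBD b hb (c.UD (hsub h3)))
    refine ⟨a1, ha1A, b, hb, {y1}, T.erase y1 ∪ S, ?_, fun x hx => hUD2 x (hsub hx), ?_,
      1, 2 * (j + 1) - 1 + 1, by omega, ?_, e2⟩
    · exact Finset.singleton_subset_iff.2 (hUD2 _ (Finset.mem_union_left _ h1))
    · rw [Finset.disjoint_singleton_left, Finset.mem_union, not_or]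
      exact ⟨Finset.notMem_erase y1 T, fun h3 => Finset.disjoint_left.1 c.disj h1 h3⟩
    · exact PL.edge hta1.symm (by simp) (by simp)
  · intro v hv hvz
    have hvQ := (Finset.mem_insert.1 (q2 hv)).resolve_left hvz
    have e4 := q10 v hvQ
    have e1 : (nb G v D).card ≤ (nb G v D2).card + (nb G v (T ∪ S)).card :=
      nb_card_le_add (q6 v hvQ)
    have e2 : (nb G v (T ∪ S)).card ≤ (nb G v {t0}).card + (nb G v S).card :=
      nb_card_le_add (fun x hx hvx => hTone v hvQ x hx hvx)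
    have e3 : (nb G v {t0}).card ≤ 1 := nb_card_le.trans (by simp)
    have e5 : (nb G v S).card ≤ S.card := nb_card_le
    unfold ds
    omega
  · intro hm2
    omega

end Pool.Agent.Lib.MP_f599e5_co
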