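import Pool.Agent.Lib.MP_f599e5_co.A8b

set_option autoImplicit false
set_option linter.unusedSectionVars false

/-!
# A8d: Case 3, end, `T.card = S.card + 1`

`σ = S.card + 1 = T.card ≥ 2` (`h.f6`), so there is `s0 ∈ S`; `S' := S.erase s0`, `S'.card = σ - 2`.  `W := T ∪ S'`; `s0 ∈ D \ insert z W`; `Q` := the component of `D \ insert z W` containing `s0`.  Vertices of `Q` are `≠ z` and not in `T`, so `Q` is not adjacent to `A`, `B`.
`qset`: `D2`.  `t1 ∈ T`, `Y1 = {t1}`, `Y2 = T.erase t1` (nonempty); `s0` is complete to `T`, so `D2 ~ Y1`, `D2 ~ Y2`.  If `Rz G D2 Y1 Y2 z` fails: `hangset` and `e3_hang` (`S1 = S'`).  Otherwise `mid` with `p = σ - 1 = S.card`, `p0 = 2`, `e = 2`: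
 * `Link G (D \ D2) A B t1 t (2 + 2j)`, `t ∈ Y2`, `j < S.card`: `a - t1`; `j = 0`: `t - b`; `j ≥ 1`: `t .. t'' - b` with `t'' ∈ Y2`, `t'' ≠ t`, `bp2` of length `2j` in `Y2 ∪ S'` (`j + 1 ≤ Y2.card = σ - 1`, `j ≤ S'.card = σ - 2`).
 * degrees: `v ∈ D2`, `v ≠ z`, `v ∈ Q`: not `~ A`, `B`.  `(nb G v D).card ≤ (nb G v D2).card + (nb G v Y1).card + (nb G v Y2).card + (nb G v S').card`.  Claim: `(nb G v Y1).card + (nb G v Y2).card + (nb G v S').card ≤ [v~Y1] + [v~Y2] + (σ - 2)`:
   `v = s0`: `nb G v S' = ∅` (`indS`), complete to `T`: `1 + (σ-1) = 1 + 1 + (σ-2)`.  `v ≠ s0`: `v ∉ S`; if `v ~ T` then `nb G v S = ∅` (`notboth`) and `(nb G v Y1).card ≤ 1`, `(nb G v Y2).card ≤ σ - 1` (three cases, `σ ≥ 2`); if not: `(nb G v S').card ≤ σ - 2`.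
   So `m + 1 ≤ ds G D2 Y1 Y2 v + (σ - 2)`.
 * `he2`: `m = S.card + 1` impossible.
-/

namespace Pool.Agent.Lib.MP_f599e5_co

open Finset

variable {V : Type} [DecidableEq V] {G : SimpleGraph V}

theorem e3_II {m : ℕ} {D A B : Finset V} {z : V} (h : Ctx G m D A B z) (ht : Tri G D A z)
    {S T : Finset V} (c : Core3 G D A z S T) (hA : TT G D A z = T) (hB : TT G D B z = T)
    (hm : S.card + 2 ≤ m) (hT : T.card = S.card + 1) : False := by
  have h6 := h.f6
  rw [hA] at h6
  have hS1 : 1 ≤ S.card := by omega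
  obtain ⟨s0, hs0⟩ := card_pos.1 (show 0 < S.card by omega)
  have hS'c : (S.erase s0).card = S.card - 1 := card_erase_of_mem hs0
  have hS'S : S.erase s0 ⊆ S := erase_subset _ _
  have hdTS : Disjoint T S := c.disj
  have hdTS' : Disjoint T (S.erase s0) := Finset.disjoint_of_subset_right hS'S hdTS
  have hS'D : S.erase s0 ⊆ D := fun x hx => c.SD (hS'S hx)
  have hzS' : z ∉ S.erase s0 := fun hz => c.zS (hS'S hz)
  have hWD : T ∪ S.erase s0 ⊆ D := union_subset c.TD hS'D
  have hzT : z ∉ T := fun hz => c.zU (mem_union_left _ hz)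
  have hzW : z ∉ T ∪ S.erase s0 := by
    intro hz
    rcases mem_union.1 hz with hz | hz
    · exact hzT hz
    · exact hzS' hz
  have hs0z : s0 ≠ z := fun e => c.zS (e ▸ hs0)
  have hs0T : s0 ∉ T := fun hx => Finset.disjoint_left.1 hdTS hx hs0
  have hs0D : s0 ∈ D \ insert z (T ∪ S.erase s0) := by
    refine mem_sdiff.2 ⟨c.SD hs0, ?_⟩
    intro hx
    rcases mem_insert.1 hx with hx | hx
    · exact hs0z hx
    · rcases mem_union.1 hx with hx | hx
      · exact hs0T hx
      · exact notMem_erase s0 S hx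
  obtain ⟨Q, hs0Q, hQ⟩ := exists_comp (G := G) hs0D
  have hQp : ∀ v ∈ Q, v ∈ D ∧ v ≠ z ∧ v ∉ T ∪ S.erase s0 := by
    intro v hv
    have h1 := mem_sdiff.1 (hQ.1 hv)
    refine ⟨h1.1, fun e => h1.2 (mem_insert.2 (Or.inl e)), fun e => h1.2 (mem_insert.2 (Or.inr e))⟩
  have hQA' : ∀ v ∈ Q, ¬ ∃ a ∈ A, G.Adj v a := by
    intro v hv hex
    have h1 : v ∈ TT G D A z := mem_TT.2 ⟨(hQp v hv).1, (hQp v hv).2.1, hex⟩
    rw [hA] at h1
    exact (hQp v hv).2.2 (mem_union_left _ h1)
  have hQB' : ∀ v ∈ Q, ¬ ∃ a ∈ B, G.Adj v a := by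
    intro v hv hex
    have h1 : v ∈ TT G D B z := mem_TT.2 ⟨(hQp v hv).1, (hQp v hv).2.1, hex⟩
    rw [hB] at h1
    exact (hQp v hv).2.2 (mem_union_left _ h1)
  have hQA : ¬ adjS G Q A := fun ⟨v, hv, a, ha, hva⟩ => hQA' v hv ⟨a, ha, hva⟩
  have hQB : ¬ adjS G Q B := fun ⟨v, hv, a, ha, hva⟩ => hQB' v hv ⟨a, ha, hva⟩
  obtain ⟨D2, hQ2, h2Q, h2D, h2W, hcD2, hnb, -⟩ := h.qset hWD hzW hQ hQA hQB
  obtain ⟨t1, ht1⟩ := card_pos.1 (show 0 < T.card by omega)
  have hY2c : (T.erase t1).card = S.card := by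
    rw [card_erase_of_mem ht1]; omega
  have hY2T : T.erase t1 ⊆ T := erase_subset _ _
  have hY1T : ({t1} : Finset V) ⊆ T := by
    intro x hx
    rw [mem_singleton] at hx
    rw [hx]; exact ht1
  have hs0c : ∀ t ∈ T, G.Adj s0 t := fun t htT => (c.cpl t htT s0 hs0).symm
  have hs02 : s0 ∈ D2 := hQ2 hs0Q
  have hcpl' : Cpl G T (S.erase s0) := fun t htT y hy => c.cpl t htT y (hS'S hy)
  have hdT2 : ∀ t ∈ T, t ∉ D2 := fun t htT h2 =>
    Finset.disjoint_left.1 h2W h2 (mem_union_left _ htT)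
  have hdS2 : ∀ t ∈ S.erase s0, t ∉ D2 := fun t htT h2 =>
    Finset.disjoint_left.1 h2W h2 (mem_union_right _ htT)
  have hadj1 : adjS G D2 {t1} := ⟨s0, hs02, t1, mem_singleton_self _, hs0c t1 ht1⟩
  have hadj2 : adjS G D2 (T.erase t1) := by
    obtain ⟨t2, ht2⟩ := card_pos.1 (show 0 < (T.erase t1).card by omega)
    exact ⟨s0, hs02, t2, ht2, hs0c t2 (hY2T ht2)⟩
  have hYsplit : ∀ t ∈ T, t ∈ ({t1} : Finset V) ∨ t ∈ T.erase t1 := by
    intro t htT
    by_cases e : t = t1
    · exact Or.inl (mem_singleton.2 e)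
    · exact Or.inr (mem_erase.2 ⟨e, htT⟩)
  by_cases hR : Rz G D2 {t1} (T.erase t1) z
  · -- the middle part
    refine h.mid (D2 := D2) (Y1 := {t1}) (Y2 := T.erase t1) (z' := z) (p := S.card) (p0 := 2) (e := 2)
      h2D ?_ ?_ ?_ hR hS1 (Or.inr rfl) ?_ ?_ ?_
    · intro x hx
      exact mem_sdiff.2 ⟨c.TD (hY1T hx), hdT2 x (hY1T hx)⟩
    · intro x hx
      exact mem_sdiff.2 ⟨c.TD (hY2T hx), hdT2 x (hY2T hx)⟩
    · rw [Finset.disjoint_left]
      intro x hx hx'
      rw [mem_singleton] at hx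
      rw [hx] at hx'
      exact notMem_erase t1 T hx'
    · intro y1 hy1 y2 hy2 j hj
      rw [mem_singleton] at hy1
      subst hy1
      have h1A : y1 ∈ TT G D A z := by rw [hA]; exact ht1
      obtain ⟨-, -, a, ha, hya⟩ := mem_TT.1 h1A
      have hp1 : PL G (insert a {y1}) a y1 1 :=
        PL.edge hya.symm (mem_insert_self _ _) (mem_insert_of_mem (mem_singleton_self _))
      rcases Nat.eq_zero_or_pos j with hj0 | hj0
      · have h2B : y2 ∈ TT G D B z := by rw [hB]; exact hY2T hy2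
        obtain ⟨-, -, b, hb, hyb⟩ := mem_TT.1 h2B
        have hp2 : PL G (insert b {y2}) y2 b 1 :=
          PL.edge hyb (mem_insert_of_mem (mem_singleton_self _)) (mem_insert_self _ _)
        refine ⟨a, ha, b, hb, {y1}, {y2}, ?_, ?_, ?_, 1, 1, ?_, hp1, hp2⟩
        · intro x hx
          exact mem_sdiff.2 ⟨c.TD (hY1T hx), hdT2 x (hY1T hx)⟩
        · intro x hx
          rw [mem_singleton] at hx
          rw [hx]
          exact mem_sdiff.2 ⟨c.TD (hY2T hy2), hdT2 y2 (hY2T hy2)⟩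
        · rw [Finset.disjoint_singleton]
          intro e
          rw [← e] at hy2
          exact notMem_erase y1 T hy2
        · subst hj0; rfl
      · obtain ⟨t2, ht2, hne⟩ : ∃ t2 ∈ T.erase y1, t2 ≠ y2 :=
          Finset.exists_mem_ne (by omega) y2
        have h2B : t2 ∈ TT G D B z := by rw [hB]; exact hY2T ht2
        obtain ⟨-, -, b, hb, hyb⟩ := mem_TT.1 h2B
        have hd2 : Disjoint (T.erase y1) (S.erase s0) := Finset.disjoint_of_subset_left hY2T hdTS'
        have hc2 : Cpl G (T.erase y1) (S.erase s0) := fun t htT y hy => hcpl' t (hY2T htT) y hy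
        have hp2 : PL G (T.erase y1 ∪ S.erase s0) y2 t2 (2 * j) :=
          bp2 hd2 hc2 hy2 ht2 (fun e => hne e.symm) (by omega) (by omega) (by omega)
        have hbU : b ∉ T.erase y1 ∪ S.erase s0 := by
          intro hx
          have : b ∈ D := by
            rcases mem_union.1 hx with hx | hx
            · exact c.TD (hY2T hx)
            · exact hS'D hx
          exact Finset.disjoint_left.1 h.sys.dB this hb
        have hp3 := hp2.snoc hyb hbU
        refine ⟨a, ha, b, hb, {y1}, T.erase y1 ∪ S.erase s0, ?_, ?_, ?_, 1, 2 * j + 1, ?_, hp1, hp3⟩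
        · intro x hx
          exact mem_sdiff.2 ⟨c.TD (hY1T hx), hdT2 x (hY1T hx)⟩
        · intro x hx
          rcases mem_union.1 hx with hx | hx
          · exact mem_sdiff.2 ⟨c.TD (hY2T hx), hdT2 x (hY2T hx)⟩
          · exact mem_sdiff.2 ⟨hS'D hx, hdS2 x hx⟩
        · rw [Finset.disjoint_singleton_left]
          intro hx
          rcases mem_union.1 hx with hx | hx
          · exact notMem_erase y1 T hx
          · exact Finset.disjoint_left.1 hdTS' ht1 hx
        · ring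
    · intro v hv hvz
      have hvQ : v ∈ Q := by
        rcases mem_insert.1 (h2Q hv) with e | e
        · exact absurd e hvz
        · exact e
      obtain ⟨hvD, -, hvW⟩ := hQp v hvQ
      have hdeg := h.deg v hvD hvz
      have hnA := nb_card_zero (hQA' v hvQ)
      have hnB := nb_card_zero (hQB' v hvQ)
      have hn1 : (nb G v D).card ≤ (nb G v D2).card + (nb G v (T ∪ S.erase s0)).card :=
        nb_card_le_add (fun x hx hvx => hnb v hvQ x hx hvx)
      have hn2 : (nb G v (T ∪ S.erase s0)).card ≤ (nb G v T).card + (nb G v (S.erase s0)).card :=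
        nb_card_le_add (fun x hx _ => mem_union.1 hx)
      have hn3 : (nb G v T).card ≤ (nb G v {t1}).card + (nb G v (T.erase t1)).card :=
        nb_card_le_add (fun x hx _ => hYsplit x hx)
      have hn4 : (nb G v {t1}).card ≤ 1 := by
        have := nb_card_le (G := G) (v := v) (A := {t1})
        rwa [card_singleton] at this
      have hn5 : (nb G v (T.erase t1)).card ≤ S.card := by
        have := nb_card_le (G := G) (v := v) (A := T.erase t1)
        rwa [hY2c] at this
      have hn6 : (nb G v (S.erase s0)).card ≤ S.card - 1 := by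
        have := nb_card_le (G := G) (v := v) (A := S.erase s0)
        rwa [hS'c] at this
      have hn7 : (nb G v (S.erase s0)).card = 0 ∨ ((nb G v {t1}).card = 0 ∧ (nb G v (T.erase t1)).card = 0) := by
        by_cases hvs : v = s0
        · left
          refine nb_card_zero ?_
          rintro ⟨y, hy, hvy⟩
          rw [hvs] at hvy
          exact c.indS s0 hs0 y (hS'S hy) hvy
        · by_cases hvT : ∃ t ∈ T, G.Adj v t
          · left
            obtain ⟨t, htT, hvt⟩ := hvT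
            refine nb_card_zero ?_
            rintro ⟨y, hy, hvy⟩
            exact notboth ht c hvD hvz htT (hS'S hy) hvt hvy
          · right
            refine ⟨nb_card_zero ?_, nb_card_zero ?_⟩
            · rintro ⟨y, hy, hvy⟩
              exact hvT ⟨y, hY1T hy, hvy⟩
            · rintro ⟨y, hy, hvy⟩
              exact hvT ⟨y, hY2T hy, hvy⟩
      unfold ds at hdeg ⊢
      rw [hnA, hnB] at hdeg
      rcases hn7 with h7 | ⟨h7, h8⟩
      · omega
      · omega
    · intro hmm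
      omega
  · obtain ⟨C, w, hC⟩ := hangset hcD2 hadj1 hadj2 ⟨s0, hs02, hs0z⟩ hR
    exact e3_hang h hA hB hS'D hzS' hdTS' hcpl' (by omega) (by omega) hQ hQ2 h2Q h2D h2W hnb
      hYsplit hY1T hY2T hC

end Pool.Agent.Lib.MP_f599e5_co
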