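import Pool.Agent.Lib.MP_f599e5_co.A2
import Pool.Agent.Lib.MP_f599e5_co.A3c
import Pool.Agent.Lib.MP_f599e5_co.A6k
import Pool.Agent.Lib.MP_f599e5_co.A7g
import Pool.Agent.Lib.MP_f599e5_co.A8a
import Pool.Agent.Lib.MP_f599e5_co.A8c
import Pool.Agent.Lib.MP_f599e5_co.A8d

set_option autoImplicit false
set_option linter.unusedSectionVars false

/-! # A9: Case 3 and Theorem A+ assembled -/

namespace Pool.Agent.Lib.MP_f599e5_co

open Finset

variable {V : Type} [DecidableEq V] {G : SimpleGraph V}

theorem tri_of {m : ℕ} {D A B : Finset V} {z : V} (h : Ctx G m D A B z) : Tri G D A z :=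
  ⟨case1 h, fun _ ht _ hx hxz _ hy hyz h1 h2 => case2 h ht hx hxz hy hyz h1 h2⟩

theorem case3 {m : ℕ} {D A B : Finset V} {z : V} (h : Ctx G m D A B z) : False := by
  have htA := tri_of h
  have htB := tri_of h.symm
  obtain ⟨S, T, c⟩ := core3_exists h htA
  obtain ⟨S', T', c'⟩ := core3_exists h.symm htB
  have h6 := h.f6
  have h6' := h.symm.f6
  have k1 := c.cT
  have k2 := c'.cT
  have k3 := card_le_card c.TTT
  have k4 := card_le_card c'.TTT
  have main : TT G D A z = T ∧ TT G D B z = T := by
    rcases half3 h htA htB c with hS | hT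
    · rcases half3 h.symm htB htA c' with hS' | hT'
      · have := card_le_card hS
        have := card_le_card hS'
        omega
      · exfalso
        obtain ⟨t, ht⟩ := card_pos.1 (show 0 < (TT G D A z).card by omega)
        have h1 : t ∈ S := hS (c'.TTT (hT' ht))
        exact c.SA t h1 (mem_TT.1 ht).2.2
    · rcases half3 h.symm htB htA c' with hS' | hT'
      · exfalso
        obtain ⟨t, ht⟩ := card_pos.1 (show 0 < (TT G D B z).card by omega)
        have h1 : t ∈ S' := hS' (c.TTT (hT ht))
        exact c'.SA t h1 (mem_TT.1 ht).2.2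
      · exact ⟨Subset.antisymm (hT'.trans (c'.TTT.trans hT)) c.TTT,
          Subset.antisymm hT (c.TTT.trans (hT'.trans c'.TTT))⟩
  obtain ⟨hA, hB⟩ := main
  have hm := e3_direct h c hA hB
  by_cases hT : T.card = S.card + 1
  · exact e3_II h htA c hA hB hm hT
  · have hT2 : S.card + 2 ≤ T.card := by omega
    obtain ⟨Q, hQ, hQT⟩ := e3_I0 h htA c hA hB hm hT2
    obtain ⟨q, hq, t0, ht0, hadj⟩ := hQT
    by_cases hex : ∃ t ∈ T, adjS G Q {t} ∧ t ≠ t0
    · obtain ⟨t2, ht2, hQ2, hne⟩ := hex
      exact e3_I2 h htA c hA hB hm hT2 hQ ht0 ht2 (Ne.symm hne) ⟨q, hq, t0, by simp, hadj⟩ hQ2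
    · push Not at hex
      exact e3_I1 h htA c hA hB hm hQ ht0 ⟨q, hq, t0, by simp, hadj⟩ hex

/-- **Theorem A+**, by induction on the size of the interior -/
theorem aplus_all (N : ℕ) : AplusAt G N := by
  induction N using Nat.strong_induction_on with
  | _ N ih =>
    intro m D A B z hN hG
    subst hN
    by_cases hm1 : m = 1
    · subst hm1
      exact adm_one hG.sys hG.rz
    have hm2 : 2 ≤ m := by have := hG.m1; omega
    by_cases h0 : R0 G D A B
    · by_cases hm : m = 2
      · subst hm
        exact m2_main ih hG h0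
      · by_contra hno
        exact case3 ⟨by omega, hG.sys, h0, hG.deg, ih, hno, hG.rz.ne⟩
    · exact pendant ih hm2 hG h0

end Pool.Agent.Lib.MP_f599e5_co
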