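import Pool.Agent.Lib.MP_f599e5_co.A9

set_option autoImplicit false
set_option linter.unusedSectionVars false

/-! # Theorem A+ in the form used in Parts 2-5 -/

namespace Pool.Agent.Lib.MP_f599e5_co

open Finset

variable {V : Type} [DecidableEq V] {G : SimpleGraph V}

/-- **Theorem A+** -/
theorem aplus {m : ℕ} {D A B : Finset V} {z : V} (h : Good G m D A B z) : Adm G m D A B :=
  aplus_all D.card m D A B z rfl h

/-- with the strong connectivity condition no extra hypothesis for `m = 2` is needed -/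
theorem aplus_R0 {m : ℕ} {D A B : Finset V} {z : V} (hm : 1 ≤ m) (hs : Sys D A B) (h0 : R0 G D A B)
    (hne : ∃ v ∈ D, v ≠ z) (hdeg : ∀ v ∈ D, v ≠ z → m + 1 ≤ ds G D A B v) : Adm G m D A B :=
  aplus ⟨hm, hs, ⟨hne, fun C hC ⟨v, hv, _⟩ hb => h0.r1 C hC ⟨v, hv⟩ hb,
    fun C hC ⟨v, hv, _⟩ hb => h0.r2 C hC ⟨v, hv⟩ hb⟩, hdeg, fun _ => Or.inl h0⟩

end Pool.Agent.Lib.MP_f599e5_co
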