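import Pool.Agent.Lib.MP_f599e5_co.Def

set_option autoImplicit false
set_option linter.unusedSectionVars false

/-! # B1: basic lemmas on `PL`, `nb`, `bd`, `adjS`

`PL` is defined with `SimpleGraph.Walk`, `IsPath`; `card_le`: the support of a path has `length + 1` distinct elements.
-/

namespace Pool.Agent.Lib.MP_f599e5_co

open Finset

variable {V : Type} [DecidableEq V] {G : SimpleGraph V}

theorem mem_nb {v w : V} {S : Finset V} : w ∈ nb G v S ↔ w ∈ S ∧ G.Adj v w := by
  simp [nb]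

theorem mem_bd {D C : Finset V} {w : V} : w ∈ bd G D C ↔ w ∈ D ∧ w ∉ C ∧ ∃ x ∈ C, G.Adj x w := by
  simp [bd, and_assoc]

theorem nb_union {v : V} {S T : Finset V} : nb G v (S ∪ T) = nb G v S ∪ nb G v T := by
  ext w; simp only [mem_nb, mem_union]; tauto

theorem nb_mono {v : V} {S T : Finset V} (h : S ⊆ T) : nb G v S ⊆ nb G v T := by
  intro w; simp only [mem_nb]; exact fun hw => ⟨h hw.1, hw.2⟩

theorem nb_card_union {v : V} {S T : Finset V} (h : Disjoint S T) :
    (nb G v (S ∪ T)).card = (nb G v S).card + (nb G v T).card := by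
  rw [nb_union, card_union_of_disjoint]
  exact Finset.disjoint_of_subset_left (fun w hw => (mem_nb.1 hw).1)
    (Finset.disjoint_of_subset_right (fun w hw => (mem_nb.1 hw).1) h)

theorem adjS_comm {X Y : Finset V} : adjS G X Y ↔ adjS G Y X :=
  ⟨fun ⟨x, hx, y, hy, h⟩ => ⟨y, hy, x, hx, h.symm⟩, fun ⟨x, hx, y, hy, h⟩ => ⟨y, hy, x, hx, h.symm⟩⟩

theorem adjS_mono {X X' Y Y' : Finset V} (h : adjS G X Y) (hX : X ⊆ X') (hY : Y ⊆ Y') : adjS G X' Y' := by
  obtain ⟨x, hx, y, hy, ha⟩ := h
  exact ⟨x, hX hx, y, hY hy, ha⟩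

namespace PL

variable {S T : Finset V} {u v w : V} {n m : ℕ}

theorem mono (h : PL G S u v n) (hST : S ⊆ T) : PL G T u v n := by
  obtain ⟨p, hp, hl, hs⟩ := h
  exact ⟨p, hp, hl, fun x hx => hST (hs x hx)⟩

theorem mono_graph {H : SimpleGraph V} (hle : G ≤ H) (h : PL G S u v n) : PL H S u v n := by
  obtain ⟨p, hp, hl, hs⟩ := h
  exact ⟨p.mapLe hle, (SimpleGraph.Walk.isPath_mapLe hle).2 hp, by simpa using hl, by simpa using hs⟩

theorem symm (h : PL G S u v n) : PL G S v u n := by
  obtain ⟨p, hp, hl, hs⟩ := h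
  exact ⟨p.reverse, hp.reverse, by simpa using hl, fun x hx => hs x (by simpa using hx)⟩

theorem refl (h : u ∈ S) : PL G S u u 0 :=
  ⟨SimpleGraph.Walk.nil, SimpleGraph.Walk.IsPath.nil, rfl, fun x hx => by
    rw [SimpleGraph.Walk.support_nil, List.mem_singleton] at hx
    exact hx ▸ h⟩

theorem edge (h : G.Adj u v) (hu : u ∈ S) (hv : v ∈ S) : PL G S u v 1 := by
  refine ⟨h.toWalk, h.isPath_toWalk, by simp, fun x hx => ?_⟩
  rcases (by simpa using hx : x = u ∨ x = v) with rfl | rfl
  · exact hu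
  · exact hv

theorem left_mem (h : PL G S u v n) : u ∈ S := by
  obtain ⟨p, _, _, hs⟩ := h
  exact hs u p.start_mem_support

theorem right_mem (h : PL G S u v n) : v ∈ S := by
  obtain ⟨p, _, _, hs⟩ := h
  exact hs v p.end_mem_support

theorem eq_of_zero (h : PL G S u v 0) : u = v := by
  obtain ⟨p, _, hl, _⟩ := h
  exact SimpleGraph.Walk.eq_of_length_eq_zero hl

theorem adj_of_one (h : PL G S u v 1) : G.Adj u v := by
  obtain ⟨p, _, hl, _⟩ := h
  exact SimpleGraph.Walk.adj_of_length_eq_one hl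

theorem pos (h : PL G S u v n) (hne : u ≠ v) : 1 ≤ n := by
  rcases Nat.eq_zero_or_pos n with h0 | h0
  · subst h0
    exact absurd h.eq_of_zero hne
  · exact h0

theorem card_le (h : PL G S u v n) : n + 1 ≤ S.card := by
  obtain ⟨p, hp, hl, hs⟩ := h
  have h1 : p.support.toFinset.card = n + 1 := by
    rw [List.toFinset_card_of_nodup hp.support_nodup, SimpleGraph.Walk.length_support, hl]
  rw [← h1]
  exact card_le_card (fun x hx => hs x (List.mem_toFinset.1 hx))

/-- concatenation of two paths meeting only in `w` -/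
theorem trans (h1 : PL G S u w n) (h2 : PL G T w v m) (hd : ∀ x ∈ S, x ∈ T → x = w) :
    PL G (S ∪ T) u v (n + m) := by
  obtain ⟨p, hp, hl, hs⟩ := h1
  obtain ⟨q, hq, hl2, hs2⟩ := h2
  refine ⟨p.append q, ?_, by rw [SimpleGraph.Walk.length_append, hl, hl2], fun x hx => ?_⟩
  · rw [SimpleGraph.Walk.isPath_def, SimpleGraph.Walk.support_append, List.nodup_append']
    refine ⟨hp.support_nodup, hq.support_nodup.tail, ?_⟩
    intro x hx hx2
    have h3 := hd x (hs x hx) (hs2 x (List.mem_of_mem_tail hx2))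
    subst h3
    have h4 := hq.support_nodup
    rw [← SimpleGraph.Walk.cons_tail_support] at h4
    exact (List.nodup_cons.1 h4).1 hx2
  · rcases (SimpleGraph.Walk.mem_support_append_iff p q).1 hx with h3 | h3
    · exact mem_union_left _ (hs x h3)
    · exact mem_union_right _ (hs2 x h3)

theorem cons (h : G.Adj u w) (h2 : PL G T w v m) (hu : u ∉ T) : PL G (insert u T) u v (m + 1) := by
  obtain ⟨q, hq, hl2, hs2⟩ := h2
  refine ⟨SimpleGraph.Walk.cons h q, hq.cons (fun hc => hu (hs2 u hc)), by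
    rw [SimpleGraph.Walk.length_cons, hl2], fun x hx => ?_⟩
  rw [SimpleGraph.Walk.support_cons, List.mem_cons] at hx
  rcases hx with rfl | hx
  · exact mem_insert_self _ _
  · exact mem_insert_of_mem (hs2 x hx)

theorem snoc (h1 : PL G S u w n) (h : G.Adj w v) (hv : v ∉ S) : PL G (insert v S) u v (n + 1) :=
  (h1.symm.cons h.symm hv).symm

end PL

end Pool.Agent.Lib.MP_f599e5_co
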