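import Pool.Agent.Lib.MP_f599e5_co.B1

set_option autoImplicit false
set_option linter.unusedSectionVars false

/-! # B2: cycles from two paths, shrinking, splitting, first and last hit

`PL.cycle`: append one path to the reverse of the other one; `Walk.IsCycle` (cons / concat, `IsPath.isCycle_cons`-like lemmas of Mathlib); it may be easiest to decompose the first path as `cons h q`.  `shrink`: `T = p.support.toFinset`.  `split`: `Walk.take`, `Walk.drop`.  `first_hit`/`last_hit`: `takeUntil` of the first support vertex lying in `X` (induction on the walk) and reverse.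
-/

namespace Pool.Agent.Lib.MP_f599e5_co

open Finset

variable {V : Type} [DecidableEq V] {G : SimpleGraph V}

/-- two paths with common ends and otherwise disjoint form a cycle -/
theorem PL.cycle {S T : Finset V} {u v : V} {n m : ℕ} (h1 : PL G S u v n) (h2 : PL G T u v m)
    (hd : ∀ x ∈ S, x ∈ T → x = u ∨ x = v) (hne : u ≠ v) (h3 : 3 ≤ n + m) : CycS G (S ∪ T) (n + m) := by
  obtain ⟨p, hp, hl, hs⟩ := h1
  obtain ⟨q, hq, hl2, hs2⟩ := h2
  have hsw : ∀ {a b : V} (r : G.Walk a b), r.IsPath → a ∉ r.support.tail := by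
    intro a b r hr hc
    have h4 := hr.support_nodup
    rw [← SimpleGraph.Walk.cons_tail_support] at h4
    exact (List.nodup_cons.1 h4).1 hc
  refine ⟨u, p.append q.reverse, hp.isCycle_append hq.reverse ?_ ?_, ?_, fun x hx => ?_⟩
  · intro x hx hx2
    have h5 : x ∈ p.support := List.mem_of_mem_tail hx
    have h6 : x ∈ q.support := by
      have := List.mem_of_mem_tail hx2
      simpa using this
    rcases hd x (hs x h5) (hs2 x h6) with rfl | rfl
    · exact hsw p hp hx
    · exact hsw q.reverse hq.reverse hx2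
  · rw [SimpleGraph.Walk.length_reverse]
    omega
  · rw [SimpleGraph.Walk.length_append, SimpleGraph.Walk.length_reverse, hl, hl2]
  · rcases (SimpleGraph.Walk.mem_support_append_iff p q.reverse).1 hx with h7 | h7
    · exact mem_union_left _ (hs x h7)
    · exact mem_union_right _ (hs2 x (by simpa using h7))

theorem CycS.zc {S : Finset V} {n k : ℕ} (h : CycS G S n) (hk : k ∣ n) : ZC k G := by
  obtain ⟨v, p, hp, hl, _⟩ := h
  exact ⟨v, p, hp, hl ▸ hk⟩

theorem CycS.mono {S T : Finset V} {n : ℕ} (h : CycS G S n) (hST : S ⊆ T) : CycS G T n := by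
  obtain ⟨v, p, hp, hl, hs⟩ := h
  exact ⟨v, p, hp, hl, fun x hx => hST (hs x hx)⟩

theorem CycS.mono_graph {H : SimpleGraph V} {S : Finset V} {n : ℕ} (hle : G ≤ H) (h : CycS G S n) :
    CycS H S n := by
  obtain ⟨v, p, hp, hl, hs⟩ := h
  exact ⟨v, p.mapLe hle, (SimpleGraph.Walk.isCycle_mapLe hle).2 hp, by simpa using hl, by simpa using hs⟩

/-- restriction to the vertices of the path -/
theorem PL.shrink {S : Finset V} {u v : V} {n : ℕ} (h : PL G S u v n) :
    ∃ T, T ⊆ S ∧ T.card = n + 1 ∧ PL G T u v n := by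
  obtain ⟨p, hp, hl, hs⟩ := h
  refine ⟨p.support.toFinset, fun x hx => hs x (List.mem_toFinset.1 hx), ?_, p, hp, hl,
    fun x hx => List.mem_toFinset.2 hx⟩
  rw [List.toFinset_card_of_nodup hp.support_nodup, SimpleGraph.Walk.length_support, hl]

/-- splitting a path at distance `a` from its start -/
theorem PL.split {S : Finset V} {u v : V} {n : ℕ} (h : PL G S u v n) (a : ℕ) (ha : a ≤ n) :
    ∃ w, ∃ S1 S2 : Finset V, S1 ⊆ S ∧ S2 ⊆ S ∧ S1.card = a + 1 ∧ S2.card = n - a + 1 ∧
      (∀ x ∈ S1, x ∈ S2 → x = w) ∧ PL G S1 u w a ∧ PL G S2 w v (n - a) := by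
  obtain ⟨p, hp, hl, hs⟩ := h
  have h1 : (p.take a).IsPath := hp.take a
  have h2 : (p.drop a).IsPath := hp.drop a
  have h3 : (p.take a).length = a := by
    rw [SimpleGraph.Walk.take_length]
    omega
  have h4 : (p.drop a).length = n - a := by
    rw [SimpleGraph.Walk.drop_length]
    omega
  have h5 : (p.take a).append (p.drop a) = p := SimpleGraph.Walk.append_take_drop_eq p a
  have hsup : ∀ x, (x ∈ (p.take a).support ∨ x ∈ (p.drop a).support) → x ∈ S := by
    intro x hx
    apply hs
    rw [← h5]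
    exact (SimpleGraph.Walk.mem_support_append_iff _ _).2 hx
  refine ⟨p.getVert a, (p.take a).support.toFinset, (p.drop a).support.toFinset,
    fun x hx => hsup x (Or.inl (List.mem_toFinset.1 hx)),
    fun x hx => hsup x (Or.inr (List.mem_toFinset.1 hx)), ?_, ?_, ?_,
    ⟨p.take a, h1, h3, fun x hx => List.mem_toFinset.2 hx⟩,
    ⟨p.drop a, h2, h4, fun x hx => List.mem_toFinset.2 hx⟩⟩
  · rw [List.toFinset_card_of_nodup h1.support_nodup, SimpleGraph.Walk.length_support, h3]
  · rw [List.toFinset_card_of_nodup h2.support_nodup, SimpleGraph.Walk.length_support, h4]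
  · intro x hx hx2
    rw [List.mem_toFinset] at hx hx2
    by_contra hne
    have h6 : ((p.take a).append (p.drop a)).IsPath := by
      rw [h5]
      exact hp
    have h7 := h6.support_nodup
    rw [SimpleGraph.Walk.support_append, List.nodup_append'] at h7
    refine h7.2.2 hx ?_
    rw [← SimpleGraph.Walk.cons_tail_support, List.mem_cons] at hx2
    exact hx2.resolve_left hne

private theorem B2_first {u v : V} (p : G.Walk u v) (X : Finset V) (hv : v ∈ X) :
    ∃ w, w ∈ X ∧ w ∈ p.support ∧ ∃ q : G.Walk u w, q.length ≤ p.length ∧ (p.IsPath → q.IsPath) ∧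
      (∀ x ∈ q.support, x ∈ p.support) ∧ ∀ x ∈ q.support, x ∈ X → x = w := by
  induction p with
  | nil => exact ⟨_, hv, by simp, SimpleGraph.Walk.nil, by simp, fun _ => SimpleGraph.Walk.IsPath.nil,
      fun x hx => by simpa using hx, fun x hx _ => by simpa using hx⟩
  | @cons u' w' v' hadj q ih =>
    by_cases hu : u' ∈ X
    · exact ⟨u', hu, by simp, SimpleGraph.Walk.nil, by simp, fun _ => SimpleGraph.Walk.IsPath.nil,
        fun x hx => by
          have : x = u' := by simpa using hx
          subst this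
          simp, fun x hx _ => by simpa using hx⟩
    · obtain ⟨w, hw, hwq, r, hr, hrp, hrs, hrX⟩ := ih hv
      refine ⟨w, hw, ?_, SimpleGraph.Walk.cons hadj r, ?_, ?_, ?_, ?_⟩
      · rw [SimpleGraph.Walk.support_cons]
        exact List.mem_cons_of_mem _ hwq
      · rw [SimpleGraph.Walk.length_cons, SimpleGraph.Walk.length_cons]
        omega
      · intro hc
        rw [SimpleGraph.Walk.cons_isPath_iff] at hc
        exact (hrp hc.1).cons (fun h => hc.2 (hrs _ h))
      · intro x hx
        rw [SimpleGraph.Walk.support_cons, List.mem_cons] at hx ⊢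
        exact hx.imp id (hrs x)
      · intro x hx hxX
        rw [SimpleGraph.Walk.support_cons, List.mem_cons] at hx
        rcases hx with rfl | hx
        · exact absurd hxX hu
        · exact hrX x hx hxX

/-- the initial part of a path up to its first vertex in `X` -/
theorem PL.first_hit {S : Finset V} {u v : V} {n : ℕ} (h : PL G S u v n) (X : Finset V) (hv : v ∈ X) :
    ∃ w, w ∈ X ∧ w ∈ S ∧ ∃ a, a ≤ n ∧ PL G (insert w (S \ X)) u w a := by
  obtain ⟨p, hp, hl, hs⟩ := h
  obtain ⟨w, hw, hwp, q, hq, hqp, hqs, hqX⟩ := B2_first p X hv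
  refine ⟨w, hw, hs w hwp, q.length, by omega, q, hqp hp, rfl, fun x hx => ?_⟩
  rw [mem_insert, mem_sdiff]
  by_cases hx2 : x ∈ X
  · exact Or.inl (hqX x hx hx2)
  · exact Or.inr ⟨hs x (hqs x hx), hx2⟩

/-- the final part of a path from its last vertex in `X` -/
theorem PL.last_hit {S : Finset V} {u v : V} {n : ℕ} (h : PL G S u v n) (X : Finset V) (hu : u ∈ X) :
    ∃ w, w ∈ X ∧ w ∈ S ∧ ∃ a, a ≤ n ∧ PL G (insert w (S \ X)) w v a := by
  obtain ⟨w, hw, hwS, a, ha, h1⟩ := h.symm.first_hit X hu
  exact ⟨w, hw, hwS, a, ha, h1.symm⟩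

end Pool.Agent.Lib.MP_f599e5_co
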