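import Pool.Agent.Lib.MP_f599e5_co.B2

set_option autoImplicit false
set_option linter.unusedSectionVars false

/-! # B2F: paths and cycles as functions -/

namespace Pool.Agent.Lib.MP_f599e5_co

open Finset

variable {V : Type} [DecidableEq V] {G : SimpleGraph V}

/-- paths given by functions on `{0,…,n}` -/
structure PF (G : SimpleGraph V) (f : ℕ → V) (n : ℕ) : Prop where
  adj : ∀ i, i < n → G.Adj (f i) (f (i + 1))
  inj : ∀ i j, i ≤ n → j ≤ n → f i = f j → i = j

theorem PF.toPL_aux {f : ℕ → V} {n : ℕ} (h : PF G f n) (a : ℕ) :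
    ∀ k : ℕ, a + k ≤ n → PL G ((Icc a (a + k)).image f) (f a) (f (a + k)) k := by
  intro k
  induction k with
  | zero =>
    intro _
    exact PL.refl (mem_image.2 ⟨a, by simp, rfl⟩)
  | succ k ih =>
    intro hk
    have h1 := ih (by omega)
    have h2 := h.adj (a + k) (by omega)
    have h3 : f (a + k + 1) ∉ (Icc a (a + k)).image f := by
      intro h4
      obtain ⟨i, hi, he⟩ := mem_image.1 h4
      rw [mem_Icc] at hi
      have := h.inj i (a + k + 1) (by omega) (by omega) he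
      omega
    refine (h1.snoc h2 h3).mono ?_
    intro x hx
    rcases mem_insert.1 hx with rfl | hx
    · exact mem_image.2 ⟨a + k + 1, mem_Icc.2 ⟨by omega, by omega⟩, rfl⟩
    · obtain ⟨i, hi, he⟩ := mem_image.1 hx
      rw [mem_Icc] at hi
      exact mem_image.2 ⟨i, mem_Icc.2 ⟨by omega, by omega⟩, he⟩

theorem PF.toPL {f : ℕ → V} {n : ℕ} (h : PF G f n) {a b : ℕ} (hab : a ≤ b) (hb : b ≤ n) {S : Finset V}
    (hS : ∀ i, a ≤ i → i ≤ b → f i ∈ S) : PL G S (f a) (f b) (b - a) := by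
  have h1 := PF.toPL_aux h a (b - a) (by omega)
  have h2 : a + (b - a) = b := by omega
  rw [h2] at h1
  refine h1.mono ?_
  intro x hx
  obtain ⟨i, hi, rfl⟩ := mem_image.1 hx
  rw [mem_Icc] at hi
  exact hS i hi.1 hi.2

theorem PL.toPF {S : Finset V} {u v : V} {n : ℕ} (h : PL G S u v n) :
    ∃ f : ℕ → V, PF G f n ∧ f 0 = u ∧ f n = v ∧ ∀ i, i ≤ n → f i ∈ S := by
  obtain ⟨p, hp, rfl, hs⟩ := h
  refine ⟨p.getVert, ⟨fun i hi => p.adj_getVert_succ hi, fun i j hi hj hij => ?_⟩,
    p.getVert_zero, p.getVert_length, fun i _ => hs _ (p.getVert_mem_support i)⟩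
  exact hp.getVert_injOn hi hj hij

/-- cycles given by functions on `{0,…,n-1}` -/
theorem CycS.toF {S : Finset V} {n : ℕ} (h : CycS G S n) :
    ∃ f : ℕ → V, 3 ≤ n ∧ PF G f (n - 1) ∧ G.Adj (f (n - 1)) (f 0) ∧ ∀ i, i < n → f i ∈ S := by
  obtain ⟨v, p, hp, rfl, hs⟩ := h
  have h3 := hp.three_le_length
  refine ⟨p.getVert, h3, ⟨fun i hi => p.adj_getVert_succ (by omega), fun i j hi hj hij => ?_⟩,
    ?_, fun i _ => hs _ (p.getVert_mem_support i)⟩
  · exact hp.getVert_injOn' hi hj hij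
  · have h4 := p.adj_getVert_succ (i := p.length - 1) (by omega)
    have h5 : p.length - 1 + 1 = p.length := by omega
    rw [h5, p.getVert_length] at h4
    rw [p.getVert_zero]
    exact h4

end Pool.Agent.Lib.MP_f599e5_co
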