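import Pool.Agent.Lib.MP_f599e5_co.B2

set_option autoImplicit false
set_option linter.unusedSectionVars false

/-! # B3: connectivity, components, boundaries -/

namespace Pool.Agent.Lib.MP_f599e5_co

open Finset

variable {V : Type} [DecidableEq V] {G : SimpleGraph V}

private theorem b3_pl_of_walk {D : Finset V} {u v : V} (p : G.Walk u v) (h : ∀ x ∈ p.support, x ∈ D) :
    ∃ n, PL G D u v n :=
  ⟨p.bypass.length, p.bypass, p.bypass_isPath, rfl, fun x hx => h x (p.support_bypass_subset hx)⟩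

private theorem b3_closed_walk {D C : Finset V} (hb : bd G D C = ∅) {u v : V} (p : G.Walk u v)
    (h : ∀ x ∈ p.support, x ∈ D) (hu : u ∈ C) : v ∈ C := by
  induction p with
  | nil => exact hu
  | @cons a b c hab q ih =>
    have hb' : b ∈ D := h b (by simp)
    have hbC : b ∈ C := by
      by_contra hne
      have : b ∈ bd G D C := mem_bd.2 ⟨hb', hne, a, hu, hab⟩
      rw [hb] at this
      exact absurd this (Finset.notMem_empty _)
    exact ih (fun x hx => h x (by simp [hx])) hbC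

open Classical in
private noncomputable def b3reach (G : SimpleGraph V) (D : Finset V) (v : V) : Finset V :=
  D.filter (fun w => ∃ n, PL G D v w n)

private theorem b3_mem_reach {D : Finset V} {v w : V} :
    w ∈ b3reach G D v ↔ w ∈ D ∧ ∃ n, PL G D v w n := by
  simp [b3reach]

private theorem b3_reach_self {D : Finset V} {v : V} (hv : v ∈ D) : v ∈ b3reach G D v :=
  b3_mem_reach.2 ⟨hv, 0, PL.refl hv⟩

private theorem b3_reach_closed {D : Finset V} {v : V} : bd G D (b3reach G D v) = ∅ := by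
  rw [Finset.eq_empty_iff_forall_notMem]
  intro w hw
  obtain ⟨hwD, hwn, x, hx, hxw⟩ := mem_bd.1 hw
  apply hwn
  obtain ⟨hxD, n, p, hp, hl, hs⟩ := b3_mem_reach.1 hx
  refine b3_mem_reach.2 ⟨hwD, b3_pl_of_walk (p.concat hxw) ?_⟩
  intro y hy
  rw [SimpleGraph.Walk.support_concat] at hy
  simp only [List.concat_eq_append, List.mem_append, List.mem_singleton] at hy
  rcases hy with hy | hy
  · exact hs y hy
  · rw [hy]; exact hwD

theorem Conn.path {D : Finset V} (h : Conn G D) {u v : V} (hu : u ∈ D) (hv : v ∈ D) :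
    ∃ n, PL G D u v n := by
  have h1 : b3reach G D u = D :=
    h.2 (b3reach G D u) (fun x hx => (b3_mem_reach.1 hx).1) ⟨u, b3_reach_self hu⟩ b3_reach_closed
  have h2 : v ∈ b3reach G D u := by rw [h1]; exact hv
  exact (b3_mem_reach.1 h2).2

theorem conn_of_path {D : Finset V} (hne : D.Nonempty)
    (h : ∀ u ∈ D, ∀ v ∈ D, ∃ n, PL G D u v n) : Conn G D := by
  refine ⟨hne, fun C hC hCne hb => ?_⟩
  obtain ⟨u, hu⟩ := hCne
  refine Finset.Subset.antisymm hC fun v hv => ?_
  obtain ⟨n, p, _, _, hs⟩ := h u (hC hu) v hv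
  exact b3_closed_walk hb p hs hu

theorem conn_singleton (v : V) : Conn G {v} := by
  refine ⟨Finset.singleton_nonempty v, fun C hC hCne _ => ?_⟩
  exact (Finset.Nonempty.subset_singleton_iff hCne).1 hC

theorem exists_comp {D : Finset V} {v : V} (hv : v ∈ D) : ∃ C, v ∈ C ∧ IsComp G D C := by
  refine ⟨b3reach G D v, b3_reach_self hv, fun x hx => (b3_mem_reach.1 hx).1, b3_reach_closed, ?_⟩
  have key : ∀ w ∈ b3reach G D v, ∃ p : G.Walk v w, ∀ x ∈ p.support, x ∈ b3reach G D v := by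
    intro w hw
    obtain ⟨_, n, p, hp, hl, hs⟩ := b3_mem_reach.1 hw
    refine ⟨p, fun x hx => b3_mem_reach.2 ⟨hs x hx, ?_⟩⟩
    exact b3_pl_of_walk (p.takeUntil x hx) fun y hy =>
      hs y (p.support_takeUntil_subset hx hy)
  refine conn_of_path ⟨v, b3_reach_self hv⟩ fun a ha b hb => ?_
  obtain ⟨p, hp⟩ := key a ha
  obtain ⟨q, hq⟩ := key b hb
  refine b3_pl_of_walk (p.reverse.append q) fun x hx => ?_
  rw [SimpleGraph.Walk.mem_support_append_iff] at hx
  rcases hx with hx | hx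
  · rw [SimpleGraph.Walk.support_reverse, List.mem_reverse] at hx
    exact hp x hx
  · exact hq x hx

/-- a connected set meeting a set closed relative to it is contained in it -/
private theorem b3_conn_sub {C E : Finset V} (h : Conn G C)
    (hb : ∀ x ∈ C, x ∈ E → ∀ y ∈ C, G.Adj x y → y ∈ E) {v : V} (hv : v ∈ C) (hv' : v ∈ E) : C ⊆ E := by
  have h1 : C ∩ E = C := by
    refine h.2 (C ∩ E) Finset.inter_subset_left ⟨v, Finset.mem_inter.2 ⟨hv, hv'⟩⟩ ?_
    rw [Finset.eq_empty_iff_forall_notMem]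
    intro w hw
    obtain ⟨hwC, hwn, x, hx, hxw⟩ := mem_bd.1 hw
    rw [Finset.mem_inter] at hx hwn
    exact hwn ⟨hwC, hb x hx.1 hx.2 w hwC hxw⟩
  exact Finset.inter_eq_left.1 h1

private theorem b3_not_bd {D C : Finset V} (hb : bd G D C = ∅) {x y : V} (hx : x ∈ C) (hy : y ∈ D)
    (h : G.Adj x y) : y ∈ C := by
  by_contra hne
  have : y ∈ bd G D C := mem_bd.2 ⟨hy, hne, x, hx, h⟩
  rw [hb] at this
  exact absurd this (Finset.notMem_empty _)

/-- a component is contained in every closed set it meets -/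
private theorem b3_subset_of_closed {D C E : Finset V} (h : IsComp G D C) (hb : bd G D E = ∅)
    {v : V} (hv : v ∈ C) (hv' : v ∈ E) : C ⊆ E :=
  b3_conn_sub h.2.2 (fun _ _ hxE _ hy ha => b3_not_bd hb hxE (h.1 hy) ha) hv hv'

theorem IsComp.eq_of_mem {D C C' : Finset V} (h : IsComp G D C) (h' : IsComp G D C') {v : V}
    (hv : v ∈ C) (hv' : v ∈ C') : C = C' :=
  Finset.Subset.antisymm (b3_subset_of_closed h h'.2.1 hv hv') (b3_subset_of_closed h' h.2.1 hv' hv)

theorem IsComp.disjoint {D C C' : Finset V} (h : IsComp G D C) (h' : IsComp G D C') (hne : C ≠ C') :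
    Disjoint C C' := by
  rw [Finset.disjoint_left]
  intro v hv hv'
  exact hne (h.eq_of_mem h' hv hv')

/-- a component is contained in every closed set it meets -/
theorem IsComp.subset_of_closed {D C E : Finset V} (h : IsComp G D C) (hE : E ⊆ D) (hb : bd G D E = ∅)
    {v : V} (hv : v ∈ C) (hv' : v ∈ E) : C ⊆ E :=
  b3_subset_of_closed h hb hv hv'

/-- neighbours (inside `D`) of a closed subset `C` of `D \ U` lie in `C` or in `U` -/
theorem nbr_of_closed {D U C : Finset V} (hC : C ⊆ D \ U) (hb : bd G (D \ U) C = ∅) {v x : V}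
    (hv : v ∈ C) (hx : x ∈ D) (ha : G.Adj v x) : x ∈ C ∨ x ∈ U := by
  by_cases hU : x ∈ U
  · exact Or.inr hU
  · exact Or.inl (b3_not_bd hb hv (Finset.mem_sdiff.2 ⟨hx, hU⟩) ha)

/-- `bd_D(C)=bd_{D1}(C)` if no vertex of `C` has a neighbour in `D \ D1` -/
theorem bd_eq_of {D D1 C : Finset V} (hC : C ⊆ D1) (hD1 : D1 ⊆ D)
    (h : ∀ v ∈ C, ∀ x ∈ D, G.Adj v x → x ∈ D1) : bd G D C = bd G D1 C := by
  ext w
  rw [mem_bd, mem_bd]
  constructor
  · rintro ⟨hw, hwC, x, hx, ha⟩
    exact ⟨h x hx w hw ha, hwC, x, hx, ha⟩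
  · rintro ⟨hw, hwC, x, hx, ha⟩
    exact ⟨hD1 hw, hwC, x, hx, ha⟩

theorem bd_subset_of {D D1 C X : Finset V} (hC : C ⊆ D1)
    (h : ∀ v ∈ C, ∀ x ∈ D, G.Adj v x → x ∈ D1 ∨ x ∈ X) : bd G D C ⊆ bd G D1 C ∪ X := by
  intro w hw
  obtain ⟨hwD, hwC, x, hx, ha⟩ := mem_bd.1 hw
  rw [Finset.mem_union]
  rcases h x hx w hwD ha with h1 | h1
  · exact Or.inl (mem_bd.2 ⟨h1, hwC, x, hx, ha⟩)
  · exact Or.inr h1

/-- a subset of `D` has a connected closed part through each of its vertices, with smaller boundary -/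
theorem exists_conn_part {D C : Finset V} (hC : C ⊆ D) {v : V} (hv : v ∈ C) :
    ∃ C0, v ∈ C0 ∧ IsComp G C C0 ∧ bd G D C0 ⊆ bd G D C := by
  obtain ⟨C0, hv0, h0⟩ := exists_comp (G := G) hv
  refine ⟨C0, hv0, h0, fun w hw => ?_⟩
  obtain ⟨hwD, hwC, x, hx, ha⟩ := mem_bd.1 hw
  refine mem_bd.2 ⟨hwD, fun hwC' => hwC (b3_not_bd h0.2.1 hx hwC' ha), x, h0.1 hx, ha⟩

theorem Conn.insert {C : Finset V} (h : Conn G C) {w : V} (ha : ∃ x ∈ C, G.Adj x w) :
    Conn G (insert w C) := by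
  obtain ⟨x, hx, hxw⟩ := ha
  refine ⟨⟨w, Finset.mem_insert_self _ _⟩, fun E hE hEne hb => Finset.Subset.antisymm hE ?_⟩
  have hcl : ∀ a ∈ E, ∀ b, b ∈ Insert.insert w C → G.Adj a b → b ∈ E :=
    fun a ha b hb' hab => b3_not_bd hb ha hb' hab
  have hCE : ∀ v, v ∈ C → v ∈ E → C ⊆ E := fun v hv hv' =>
    b3_conn_sub h (fun a _ haE b hb' hab => hcl a haE b (Finset.mem_insert_of_mem hb') hab) hv hv'
  have hxE : x ∈ E := by
    obtain ⟨e, he⟩ := hEne
    rcases Finset.mem_insert.1 (hE he) with h1 | h1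
    · subst h1
      exact hcl e he x (Finset.mem_insert_of_mem hx) hxw.symm
    · exact hCE e h1 he hx
  have h2 : C ⊆ E := hCE x hx hxE
  intro y hy
  rcases Finset.mem_insert.1 hy with h3 | h3
  · subst h3
    exact hcl x hxE y (Finset.mem_insert_self _ _) hxw
  · exact h2 h3

theorem Conn.union {C C' : Finset V} (h : Conn G C) (h' : Conn G C') (ha : adjS G C C' ∨ ¬ Disjoint C C') :
    Conn G (C ∪ C') := by
  refine ⟨h.1.mono Finset.subset_union_left, fun E hE hEne hb => Finset.Subset.antisymm hE ?_⟩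
  have hcl : ∀ a ∈ E, ∀ b, b ∈ C ∪ C' → G.Adj a b → b ∈ E :=
    fun a ha b hb' hab => b3_not_bd hb ha hb' hab
  have h1 : ∀ v, v ∈ C → v ∈ E → C ⊆ E := fun v hv hv' =>
    b3_conn_sub h (fun a _ haE b hb' hab => hcl a haE b (Finset.mem_union_left _ hb') hab) hv hv'
  have h2 : ∀ v, v ∈ C' → v ∈ E → C' ⊆ E := fun v hv hv' =>
    b3_conn_sub h' (fun a _ haE b hb' hab => hcl a haE b (Finset.mem_union_right _ hb') hab) hv hv'
  -- one side is contained in `E` iff the other one is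
  have h3 : C ⊆ E → C' ⊆ E := by
    intro hCE
    rcases ha with ⟨x, hx, y, hy, hxy⟩ | hd
    · exact h2 y hy (hcl x (hCE hx) y (Finset.mem_union_right _ hy) hxy)
    · rw [Finset.not_disjoint_iff] at hd
      obtain ⟨y, hy, hy'⟩ := hd
      exact h2 y hy' (hCE hy)
  have h4 : C' ⊆ E → C ⊆ E := by
    intro hCE
    rcases ha with ⟨x, hx, y, hy, hxy⟩ | hd
    · exact h1 x hx (hcl y (hCE hy) x (Finset.mem_union_left _ hx) hxy.symm)
    · rw [Finset.not_disjoint_iff] at hd
      obtain ⟨y, hy, hy'⟩ := hd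
      exact h1 y hy (hCE hy')
  obtain ⟨e, he⟩ := hEne
  rcases Finset.mem_union.1 (hE he) with h5 | h5
  · exact Finset.union_subset (h1 e h5 he) (h3 (h1 e h5 he))
  · exact Finset.union_subset (h4 (h2 e h5 he)) (h2 e h5 he)

/-- removing a set attached to a single vertex `w` keeps a connected set connected -/
theorem Conn.sdiff {D C : Finset V} (h : Conn G D) (hC : C ⊆ D) {w : V} (hw : w ∈ D) (hwC : w ∉ C)
    (hb : bd G D C ⊆ {w}) : Conn G (D \ C) := by
  refine ⟨⟨w, Finset.mem_sdiff.2 ⟨hw, hwC⟩⟩, fun E hE hEne hbE => Finset.Subset.antisymm hE ?_⟩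
  have hCw : ∀ a ∈ C, ∀ b ∈ D, b ∉ C → G.Adj a b → b = w := fun a ha b hb' hbC hab =>
    Finset.mem_singleton.1 (hb (mem_bd.2 ⟨hb', hbC, a, ha, hab⟩))
  by_cases hwE : w ∈ E
  · have h1 : D ⊆ E ∪ C := by
      refine b3_conn_sub h ?_ hw (Finset.mem_union_left _ hwE)
      intro x hx hxE y hy hxy
      rw [Finset.mem_union] at hxE ⊢
      by_cases hyC : y ∈ C
      · exact Or.inr hyC
      · left
        rcases hxE with h2 | h2
        · exact b3_not_bd hbE h2 (Finset.mem_sdiff.2 ⟨hy, hyC⟩) hxy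
        · rw [hCw x h2 y hy hyC hxy]; exact hwE
    intro y hy
    rw [Finset.mem_sdiff] at hy
    rcases Finset.mem_union.1 (h1 hy.1) with h2 | h2
    · exact h2
    · exact absurd h2 hy.2
  · obtain ⟨e, he⟩ := hEne
    have h1 : D ⊆ E := by
      refine b3_conn_sub h ?_ (Finset.mem_sdiff.1 (hE he)).1 he
      intro x hx hxE y hy hxy
      by_cases hyC : y ∈ C
      · exfalso
        have h2 := Finset.mem_sdiff.1 (hE hxE)
        have h3 := hCw y hyC x h2.1 h2.2 hxy.symm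
        rw [h3] at hxE
        exact hwE hxE
      · exact b3_not_bd hbE hxE (Finset.mem_sdiff.2 ⟨hy, hyC⟩) hxy
    exact absurd (h1 hw) hwE

/-- a proper nonempty subset of a connected set has a nonempty boundary -/
theorem Conn.bd_nonempty {D C : Finset V} (h : Conn G D) (hC : C ⊆ D) (hne : C.Nonempty) (hp : C ≠ D) :
    (bd G D C).Nonempty := by
  rw [Finset.nonempty_iff_ne_empty]
  exact fun h1 => hp (h.2 C hC hne h1)

/-- in a connected set there is a path from `u` whose only vertex in the nonempty set `X` is its last one -/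
theorem Conn.path_to {D X : Finset V} (h : Conn G D) {u : V} (hu : u ∈ D) (hX : (D ∩ X).Nonempty) :
    ∃ w, w ∈ X ∧ w ∈ D ∧ ∃ n, PL G (Insert.insert w (D \ X)) u w n := by
  obtain ⟨v, hv⟩ := hX
  rw [Finset.mem_inter] at hv
  obtain ⟨n, hn⟩ := h.path hu hv.1
  obtain ⟨w, hwX, hwD, a, _, ha⟩ := hn.first_hit X hv.2
  exact ⟨w, hwX, hwD, a, ha⟩

end Pool.Agent.Lib.MP_f599e5_co
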