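import Mathlib

set_option autoImplicit false

/-! # B4A: arithmetic of progressions with difference 1 or 2 -/

namespace Pool.Agent.Lib.MP_f599e5_co

/-- sum of two progressions with differences in `{1,2}` -/
theorem ap_sum {n p d e : ℕ} (hn : 1 ≤ n) (hp : 1 ≤ p) (hd : d = 1 ∨ d = 2) (he : e = 1 ∨ e = 2) :
    ∃ d', (d' = 1 ∨ d' = 2) ∧ ∀ t < n + p - 1, ∃ i < n, ∃ j < p, i * d + j * e = t * d' := by
  rcases hd with rfl | rfl <;> rcases he with rfl | rfl
  · refine ⟨1, Or.inl rfl, fun t ht => ⟨min t (n - 1), by omega, t - min t (n - 1), by omega, by omega⟩⟩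
  · rcases Nat.lt_or_ge n 2 with h | h
    · refine ⟨2, Or.inr rfl, fun t ht => ⟨0, by omega, t, by omega, by omega⟩⟩
    · refine ⟨1, Or.inl rfl, fun t ht => ⟨t - 2 * min (t / 2) (p - 1), by omega,
        min (t / 2) (p - 1), by omega, by omega⟩⟩
  · rcases Nat.lt_or_ge p 2 with h | h
    · refine ⟨2, Or.inr rfl, fun t ht => ⟨t, by omega, 0, by omega, by omega⟩⟩
    · refine ⟨1, Or.inl rfl, fun t ht => ⟨min (t / 2) (n - 1), by omega,
        t - 2 * min (t / 2) (n - 1), by omega, by omega⟩⟩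
  · refine ⟨2, Or.inr rfl, fun t ht => ⟨min t (n - 1), by omega, t - min t (n - 1), by omega, by omega⟩⟩

/-- if one of the progressions is an interval with at least two elements, the sum contains an interval -/
theorem ap_sum_int {n p d : ℕ} (hn : 1 ≤ n) (hp : 2 ≤ p) (hd : d = 1 ∨ d = 2) :
    ∀ t < n + p - 1, ∃ i < n, ∃ j < p, i * d + j = t := by
  intro t ht
  rcases hd with rfl | rfl
  · exact ⟨min t (n - 1), by omega, t - min t (n - 1), by omega, by omega⟩
  · exact ⟨min (t / 2) (n - 1), by omega, t - 2 * min (t / 2) (n - 1), by omega, by omega⟩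

/-- an interval with difference two plus at least two more: `i*2+j`, `j<2`, covers an interval of `2n` elements -/
theorem ap_int_of_two {n p : ℕ} (hn : 1 ≤ n) (hp : 2 ≤ p) :
    ∀ t < 2 * (n - 1) + p, ∃ i < n, ∃ j < p, i * 2 + j = t := by
  intro t ht
  exact ⟨min (t / 2) (n - 1), by omega, t - 2 * min (t / 2) (n - 1), by omega, by omega⟩

theorem ap_zero_one {k l : ℕ} (hk : 1 ≤ k) : ∃ i < k, k ∣ l + i := by
  have h1 := Nat.div_add_mod l k
  have h2 : l % k < k := Nat.mod_lt _ (by omega)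
  rcases Nat.eq_zero_or_pos (l % k) with h | h
  · refine ⟨0, by omega, l / k, ?_⟩
    rw [h] at h1
    omega
  · refine ⟨k - l % k, by omega, l / k + 1, ?_⟩
    rw [mul_add, mul_one]
    omega

/-- an admissible family of `k` cycle lengths contains a multiple of `k` if `k` is odd -/
theorem ap_zero_odd {k l d : ℕ} (hk : Odd k) (hd : d = 1 ∨ d = 2) : ∃ i < k, k ∣ l + i * d := by
  obtain ⟨q, hq⟩ := hk
  obtain ⟨r, hr, hdvd⟩ := ap_zero_one (k := k) (l := l) (by omega)
  rcases hd with rfl | rfl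
  · exact ⟨r, hr, by rwa [mul_one]⟩
  · rcases Nat.even_or_odd' r with ⟨s, hs | hs⟩
    · refine ⟨s, by omega, ?_⟩
      rw [mul_comm s 2, ← hs]
      exact hdvd
    · refine ⟨s + q + 1, by omega, ?_⟩
      have h1 : l + (s + q + 1) * 2 = (l + r) + k := by omega
      rw [h1]
      exact dvd_add hdvd dvd_rfl

/-- `h` consecutive even numbers contain a multiple of `2h` -/
theorem ap_zero_even {h l : ℕ} (hh : 1 ≤ h) (hl : Even l) : ∃ i < h, 2 * h ∣ l + i * 2 := by
  obtain ⟨m, rfl⟩ := hl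
  obtain ⟨r, hr, c, hc⟩ := ap_zero_one (k := h) (l := m) hh
  refine ⟨r, hr, c, ?_⟩
  rw [mul_assoc, ← hc]
  omega

end Pool.Agent.Lib.MP_f599e5_co
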