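import Pool.Agent.Lib.MP_f599e5_co.B3
import Pool.Agent.Lib.MP_f599e5_co.B4A

set_option autoImplicit false
set_option linter.unusedSectionVars false

/-! # B4: `Adm`, gluing and closing

All follow from `ap_sum`, `ap_sum_int` (B4A) and `PL.trans`, `PL.symm`, `PL.mono`, `PL.cycle` (B1, B2).
`closing_odd`: lengths `(l+i*d)+(p0+j*e)`; `ap_sum` gives `k` cycle lengths in progression with difference in {1,2}, `ap_zero_odd`.
`closing_int`: `e = 1`, `p ≥ 2`: `ap_sum_int` gives `k` consecutive lengths, `ap_zero_one`.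
 -/

namespace Pool.Agent.Lib.MP_f599e5_co

open Finset

variable {V : Type} [DecidableEq V] {G : SimpleGraph V}

theorem Adm.le {m m' : ℕ} {D A B : Finset V} (h : Adm G m D A B) (hm : m' ≤ m) : Adm G m' D A B := by
  obtain ⟨d, hd, l, hl, hP⟩ := h
  exact ⟨d, hd, l, hl, fun i hi => hP i (hi.trans_le hm)⟩

theorem Adm.symm {m : ℕ} {D A B : Finset V} (h : Adm G m D A B) : Adm G m D B A := by
  obtain ⟨d, hd, l, hl, hP⟩ := h
  refine ⟨d, hd, l, hl, fun i hi => ?_⟩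
  obtain ⟨a, ha, b, hb, hp⟩ := hP i hi
  refine ⟨b, hb, a, ha, ?_⟩
  rw [Finset.insert_comm]
  exact hp.symm

theorem Adm.mono {m : ℕ} {D A B D' A' B' : Finset V} (h : Adm G m D A B) (hD : D ⊆ D') (hA : A ⊆ A')
    (hB : B ⊆ B') : Adm G m D' A' B' := by
  obtain ⟨d, hd, l, hl, hP⟩ := h
  refine ⟨d, hd, l, hl, fun i hi => ?_⟩
  obtain ⟨a, ha, b, hb, hp⟩ := hP i hi
  exact ⟨a, hA ha, b, hB hb, hp.mono (Finset.insert_subset_insert _ (Finset.insert_subset_insert _ hD))⟩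

theorem Adm.mono_graph {m : ℕ} {D A B : Finset V} {H : SimpleGraph V} (hle : G ≤ H) (h : Adm G m D A B) :
    Adm H m D A B := by
  obtain ⟨d, hd, l, hl, hP⟩ := h
  refine ⟨d, hd, l, hl, fun i hi => ?_⟩
  obtain ⟨a, ha, b, hb, hp⟩ := hP i hi
  exact ⟨a, ha, b, hb, hp.mono_graph hle⟩

/-- **gluing** -/
theorem adm_glue {m n p p0 e : ℕ} {D D1 A B R1 R2 : Finset V} (h : Adm G n D1 R1 R2) (hn : 1 ≤ n)
    (hp : 1 ≤ p) (he : e = 1 ∨ e = 2) (hnp : m + 1 ≤ n + p)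
    (hx : ∀ r1 ∈ R1, ∀ r2 ∈ R2, ∀ j < p, ∀ x, 2 ≤ x → PL G (insert r1 (insert r2 D1)) r1 r2 x →
      ∃ a ∈ A, ∃ b ∈ B, PL G (insert a (insert b D)) a b (x + (p0 + j * e))) : Adm G m D A B := by
  obtain ⟨d, hd, l, hl, hP⟩ := h
  obtain ⟨d', hd', hS⟩ := ap_sum hn hp hd he
  refine ⟨d', hd', l + p0, by omega, fun t ht => ?_⟩
  obtain ⟨i, hi, j, hj, hij⟩ := hS t (by omega)
  obtain ⟨r1, hr1, r2, hr2, hpl⟩ := hP i hi
  obtain ⟨a, ha, b, hb, hab⟩ := hx r1 hr1 r2 hr2 j hj _ (by omega) hpl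
  refine ⟨a, ha, b, hb, ?_⟩
  have h1 : l + p0 + t * d' = l + i * d + (p0 + j * e) := by omega
  rw [h1]
  exact hab

/-- **gluing of two ears** -/
theorem adm_glue2 {m n1 n2 p0 : ℕ} {D D1 D2 A B A1 B1 A2 B2 : Finset V} (h1 : Adm G n1 D1 A1 B1)
    (h2 : Adm G n2 D2 A2 B2) (hn1 : 1 ≤ n1) (hn2 : 1 ≤ n2) (hnp : m + 1 ≤ n1 + n2)
    (hx : ∀ a1 ∈ A1, ∀ b1 ∈ B1, ∀ a2 ∈ A2, ∀ b2 ∈ B2, ∀ x y, 2 ≤ x → 2 ≤ y →
      PL G (insert a1 (insert b1 D1)) a1 b1 x → PL G (insert a2 (insert b2 D2)) a2 b2 y →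
      ∃ a ∈ A, ∃ b ∈ B, PL G (insert a (insert b D)) a b (x + y + p0)) : Adm G m D A B := by
  obtain ⟨d1, hd1, l1, hl1, hP1⟩ := h1
  obtain ⟨d2, hd2, l2, hl2, hP2⟩ := h2
  obtain ⟨d', hd', hS⟩ := ap_sum hn1 hn2 hd1 hd2
  refine ⟨d', hd', l1 + l2 + p0, by omega, fun t ht => ?_⟩
  obtain ⟨i, hi, j, hj, hij⟩ := hS t (by omega)
  obtain ⟨a1, ha1, b1, hb1, hpl1⟩ := hP1 i hi
  obtain ⟨a2, ha2, b2, hb2, hpl2⟩ := hP2 j hj
  obtain ⟨a, ha, b, hb, hab⟩ := hx a1 ha1 b1 hb1 a2 ha2 b2 hb2 _ _ (by omega) (by omega) hpl1 hpl2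
  refine ⟨a, ha, b, hb, ?_⟩
  have h1 : l1 + l2 + p0 + t * d' = l1 + i * d1 + (l2 + j * d2) + p0 := by omega
  rw [h1]
  exact hab

/-- closing one path -/
theorem close_path {D F : Finset V} {r1 r2 : V} {x y : ℕ} (hDF : Disjoint D F) (hr1 : r1 ∈ F) (hr2 : r2 ∈ F)
    (hne : r1 ≠ r2) (hx : 2 ≤ x) (h1 : PL G (insert r1 (insert r2 D)) r1 r2 x) (h2 : PL G F r1 r2 y) :
    CycS G (D ∪ F) (x + y) := by
  have hy : 1 ≤ y := h2.pos hne
  have hc := PL.cycle h1 h2 (fun z hz hzF => by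
    rw [Finset.mem_insert, Finset.mem_insert] at hz
    rcases hz with hz | hz | hz
    · exact Or.inl hz
    · exact Or.inr hz
    · exact absurd hzF (Finset.disjoint_left.mp hDF hz)) hne (by omega)
  refine hc.mono ?_
  intro z hz
  rw [Finset.mem_union, Finset.mem_insert, Finset.mem_insert] at hz
  rw [Finset.mem_union]
  rcases hz with (rfl | rfl | hz) | hz
  · exact Or.inr hr1
  · exact Or.inr hr2
  · exact Or.inl hz
  · exact Or.inr hz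

/-- **closing**, `k` odd -/
theorem closing_odd {k n p p0 e : ℕ} {D F R1 R2 : Finset V} (hk : Odd k) (h : Adm G n D R1 R2)
    (hDF : Disjoint D F) (h1 : R1 ⊆ F) (h2 : R2 ⊆ F) (h12 : Disjoint R1 R2) (hn : 1 ≤ n) (hp : 1 ≤ p)
    (he : e = 1 ∨ e = 2) (hnp : k + 1 ≤ n + p) (hl : Links G F R1 R2 p0 p e) : ZC k G := by
  obtain ⟨d, hd, l, hl2, hP⟩ := h
  obtain ⟨d', hd', hS⟩ := ap_sum hn hp hd he
  obtain ⟨t, ht, hdvd⟩ := ap_zero_odd (l := l + p0) hk hd'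
  obtain ⟨i, hi, j, hj, hij⟩ := hS t (by omega)
  obtain ⟨r1, hr1, r2, hr2, hpl⟩ := hP i hi
  have hne : r1 ≠ r2 := fun h => Finset.disjoint_left.mp h12 hr1 (h ▸ hr2)
  have hc := close_path hDF (h1 hr1) (h2 hr2) hne (by omega) hpl (hl r1 hr1 r2 hr2 j hj)
  refine hc.zc ?_
  have h3 : l + i * d + (p0 + j * e) = l + p0 + t * d' := by omega
  rw [h3]
  exact hdvd

/-- **closing** with an interval of at least two lengths, any `k` -/
theorem closing_int {k n p p0 : ℕ} {D F R1 R2 : Finset V} (hk : 1 ≤ k) (h : Adm G n D R1 R2)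
    (hDF : Disjoint D F) (h1 : R1 ⊆ F) (h2 : R2 ⊆ F) (h12 : Disjoint R1 R2) (hn : 1 ≤ n) (hp : 2 ≤ p)
    (hnp : k + 1 ≤ n + p) (hl : Links G F R1 R2 p0 p 1) : ZC k G := by
  obtain ⟨d, hd, l, hl2, hP⟩ := h
  obtain ⟨t, ht, hdvd⟩ := ap_zero_one (k := k) (l := l + p0) hk
  obtain ⟨i, hi, j, hj, hij⟩ := ap_sum_int hn hp hd t (by omega)
  obtain ⟨r1, hr1, r2, hr2, hpl⟩ := hP i hi
  have hne : r1 ≠ r2 := fun h => Finset.disjoint_left.mp h12 hr1 (h ▸ hr2)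
  have hc := close_path hDF (h1 hr1) (h2 hr2) hne (by omega) hpl (hl r1 hr1 r2 hr2 j hj)
  refine hc.zc ?_
  have h3 : l + i * d + (p0 + j * 1) = l + p0 + t := by omega
  rw [h3]
  exact hdvd

end Pool.Agent.Lib.MP_f599e5_co
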