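import Pool.Agent.Lib.MP_f599e5_co.B4

set_option autoImplicit false
set_option linter.unusedSectionVars false

/-!
# B5: Menger's theorem (set version)

Proof (Göring), by induction on the number of edges of `G` with both ends in `E` (statement for all graphs `G` on `V`,
all `X`, `Y`, `k`).  A separator of `(X,Y)` in `E` = a set `S ⊆ E` such that no `x ∈ X \ S`, `y ∈ Y \ S` are joined by a
path in `E \ S`.  It is enough to find paths `P i` with `x i ∈ X`, `y i ∈ Y`; afterwards shrink each of them: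
start at its last vertex in `X` and stop at the first vertex in `Y` after it (`PL.last_hit`, `PL.first_hit`), this gives
`P i ∩ X = {x i}`, `P i ∩ Y = {y i}`.
* No edge inside `E`: the set `X ∩ Y` is a separator, so `k ≤ |X ∩ Y|`, take trivial paths.
* Otherwise let `e = ab` be an edge inside `E` and `G' = G.deleteEdges {e}`.  If every separator for `G'` has at least `k`
  elements use induction.  Otherwise there is a separator `S` for `G'`, `|S| < k`; `S ∪ {a}` and `S ∪ {b}` are separators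
  for `G` (every path of `G` avoiding `S` and `a` does not use `e`), so `|S| = k - 1` and `a, b ∉ S`.  Since `S` is no separator
  for `G` there is an `X`-`Y` path in `E \ S` through `e`; by symmetry it passes `a` before `b`; so `a` is joined to `X`
  in `E \ S` for `G'` and `b` is joined to `Y` in `E \ S` for `G'` (`b` not to `X`, `a` not to `Y`).
  Every separator `S'` of `(X, S ∪ {a})` for `G'` is a separator of `(X,Y)` for `G`: a path `X..Y` of `G` in `E \ S'` would contain
  a vertex of `S ∪ {a}` (separator for `G`); take its part up to the first such vertex.  This part does not use `e`: `e` could only be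
  its last step, from `b` to `a`, and then `b` would be joined to `X` in `E \ S` for `G'`, contradiction.  So it is a path of `G'`
  from `X` to `S ∪ {a}` avoiding `S'`, contradiction.  (Symmetric for `(S ∪ {b}, Y)`, with the part after the last vertex in `S ∪ {b}`.)  So by induction there are `k` disjoint paths for
  `G'` from `X` to `S ∪ {a}`, and similarly `k` disjoint paths from `S ∪ {b}` to `Y`; by cardinality all of `S ∪ {a}` and of
  `S ∪ {b}` are used (with `P i ∩ (S ∪ {a}) = {end}`).  A path of the first family and a path of the second family can only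
  meet in a vertex of `S` (else there is an `X`-`Y` path of `G'` avoiding `S`).  Glue them at the vertices of `S`, and the path ending at `a`
  with the path starting at `b` by the edge `ab`.
-/

namespace Pool.Agent.Lib.MP_f599e5_co

open Finset

variable {V : Type} [DecidableEq V] {G : SimpleGraph V}

/-- reachability inside a set -/
def b5_Rc (G : SimpleGraph V) (S : Finset V) (u v : V) : Prop := ∃ n, PL G S u v n

theorem b5_of_walk {S : Finset V} {u v : V} (p : G.Walk u v) (h : ∀ x ∈ p.support, x ∈ S) :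
    b5_Rc G S u v :=
  ⟨p.bypass.length, p.bypass, p.bypass_isPath, rfl, fun x hx => h x (p.support_bypass_subset_support hx)⟩

theorem b5_walk {S : Finset V} {u v : V} (h : b5_Rc G S u v) :
    ∃ p : G.Walk u v, ∀ x ∈ p.support, x ∈ S := by
  obtain ⟨n, p, -, -, hp⟩ := h
  exact ⟨p, hp⟩

theorem b5_left {S : Finset V} {u v : V} (h : b5_Rc G S u v) : u ∈ S := by
  obtain ⟨p, hp⟩ := b5_walk h
  exact hp u p.start_mem_support

theorem b5_right {S : Finset V} {u v : V} (h : b5_Rc G S u v) : v ∈ S := by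
  obtain ⟨p, hp⟩ := b5_walk h
  exact hp v p.end_mem_support

theorem b5_refl {S : Finset V} {u : V} (h : u ∈ S) : b5_Rc G S u u :=
  b5_of_walk (SimpleGraph.Walk.nil : G.Walk u u) (by simpa using h)

theorem b5_adj {S : Finset V} {u v : V} (h : G.Adj u v) (hu : u ∈ S) (hv : v ∈ S) :
    b5_Rc G S u v :=
  b5_of_walk (SimpleGraph.Walk.cons h SimpleGraph.Walk.nil) (by
    intro x hx
    simp only [SimpleGraph.Walk.support_cons, SimpleGraph.Walk.support_nil, List.mem_cons,
      List.not_mem_nil, or_false] at hx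
    rcases hx with rfl | rfl
    · exact hu
    · exact hv)

theorem b5_mono {S T : Finset V} {u v : V} (h : b5_Rc G S u v) (hST : S ⊆ T) : b5_Rc G T u v := by
  obtain ⟨p, hp⟩ := b5_walk h
  exact b5_of_walk p fun x hx => hST (hp x hx)

theorem b5_graph {H : SimpleGraph V} {S : Finset V} {u v : V} (hle : H ≤ G) (h : b5_Rc H S u v) :
    b5_Rc G S u v := by
  obtain ⟨n, h⟩ := h
  exact ⟨n, h.mono_graph hle⟩

theorem b5_symm {S : Finset V} {u v : V} (h : b5_Rc G S u v) : b5_Rc G S v u := by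
  obtain ⟨p, hp⟩ := b5_walk h
  exact b5_of_walk p.reverse fun x hx => hp x (by simpa using hx)

theorem b5_trans {S : Finset V} {u v w : V} (h : b5_Rc G S u v) (h' : b5_Rc G S v w) :
    b5_Rc G S u w := by
  obtain ⟨p, hp⟩ := b5_walk h
  obtain ⟨q, hq⟩ := b5_walk h'
  refine b5_of_walk (p.append q) fun x hx => ?_
  rw [SimpleGraph.Walk.mem_support_append_iff] at hx
  rcases hx with hx | hx
  · exact hp x hx
  · exact hq x hx

theorem b5_closed {T : Finset V} {x y : V} (R : V → Prop)
    (hcl : ∀ v v', R v → v' ∈ T → G.Adj v v' → R v') (hx : R x) (h : b5_Rc G T x y) : R y := by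
  obtain ⟨p, hp⟩ := b5_walk h
  clear h
  induction p with
  | nil => exact hx
  | cons hadj q ih =>
    refine ih (hcl _ _ hx ?_ hadj) ?_
    · exact hp _ (by simp)
    · intro z hz
      exact hp z (by simp [hz])

theorem b5_restrict {T T2 : Finset V} {x v : V} (h : b5_Rc G T x v)
    (h2 : ∀ w, b5_Rc G T x w → w ∈ T2) : b5_Rc G T2 x v := by
  obtain ⟨p, hp⟩ := b5_walk h
  refine b5_of_walk p fun w hw => h2 w ?_
  exact b5_of_walk (p.takeUntil w hw) fun z hz => hp z (p.support_takeUntil_subset_support hw hz)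

/-- `S` separates `X` from `Y` in `E` -/
def b5_sep (G : SimpleGraph V) (E X Y S : Finset V) : Prop :=
  ∀ x ∈ X \ S, ∀ y ∈ Y \ S, ¬ b5_Rc G (E \ S) x y

theorem b5_sep_symm {E X Y S : Finset V} (h : b5_sep G E X Y S) : b5_sep G E Y X S :=
  fun x hx y hy hxy => h y hy x hx (b5_symm hxy)

/-- `k` disjoint paths -/
def b5_WL (G : SimpleGraph V) (k : ℕ) (E X Y : Finset V) : Prop :=
  ∃ (P : Fin k → Finset V) (x y : Fin k → V), (∀ i, P i ⊆ E) ∧
    (∀ i j, i ≠ j → Disjoint (P i) (P j)) ∧ ∀ i, x i ∈ X ∧ y i ∈ Y ∧ b5_Rc G (P i) (x i) (y i)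

/-- `k` disjoint paths, each of them given by its set of vertices and meeting `X` and `Y` in its
ends only -/
def b5_SL (G : SimpleGraph V) (k : ℕ) (E X Y : Finset V) : Prop :=
  ∃ (P : Fin k → Finset V) (x y : Fin k → V), (∀ i, P i ⊆ E) ∧
    (∀ i j, i ≠ j → Disjoint (P i) (P j)) ∧
    (∀ i, x i ∈ X ∧ y i ∈ Y ∧ ∃ p : G.Walk (x i) (y i), p.IsPath ∧ p.support.toFinset = P i) ∧
    (∀ i, P i ∩ X = {x i} ∧ P i ∩ Y = {y i})

theorem b5_shrink1 {X Y P : Finset V} {u v : V} (hu : u ∈ X) (hv : v ∈ Y) (h : b5_Rc G P u v) :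
    ∃ (Q : Finset V) (x y : V), Q ⊆ P ∧ x ∈ X ∧ y ∈ Y ∧
      (∃ p : G.Walk x y, p.IsPath ∧ p.support.toFinset = Q) ∧ Q ∩ X = {x} ∧ Q ∩ Y = {y} := by
  obtain ⟨n, h⟩ := h
  obtain ⟨w, hwX, hwP, a, -, h1⟩ := h.last_hit X hu
  obtain ⟨w', hw'Y, hw'P, a', -, h2⟩ := h1.first_hit Y hv
  obtain ⟨p, hp, -, hps⟩ := h2
  have hsub : ∀ z ∈ p.support, (z = w' ∨ z ∉ Y) ∧ (z = w ∨ (z ∈ P ∧ z ∉ X)) := by
    intro z hz
    have h3 := hps z hz
    rw [mem_insert, mem_sdiff] at h3
    have h4 : z ∈ insert w (P \ X) := by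
      rcases h3 with rfl | h3
      · exact hw'P
      · exact h3.1
    rw [mem_insert, mem_sdiff] at h4
    exact ⟨h3.imp_right fun h => h.2, h4⟩
  refine ⟨p.support.toFinset, w, w', ?_, hwX, hw'Y, ⟨p, hp, rfl⟩, ?_, ?_⟩
  · intro z hz
    rcases (hsub z (List.mem_toFinset.mp hz)).2 with rfl | h
    · exact hwP
    · exact h.1
  · ext z
    rw [mem_inter, List.mem_toFinset, mem_singleton]
    constructor
    · rintro ⟨hz, hzX⟩
      rcases (hsub z hz).2 with h | h
      · exact h
      · exact absurd hzX h.2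
    · rintro rfl
      exact ⟨p.start_mem_support, hwX⟩
  · ext z
    rw [mem_inter, List.mem_toFinset, mem_singleton]
    constructor
    · rintro ⟨hz, hzY⟩
      rcases (hsub z hz).1 with h | h
      · exact h
      · exact absurd hzY h
    · rintro rfl
      exact ⟨p.end_mem_support, hw'Y⟩

theorem b5_shrink {k : ℕ} {E X Y : Finset V} (h : b5_WL G k E X Y) : b5_SL G k E X Y := by
  obtain ⟨P, x, y, hPE, hPd, hP⟩ := h
  have h1 : ∀ i, ∃ (Q : Finset V) (x y : V), Q ⊆ P i ∧ x ∈ X ∧ y ∈ Y ∧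
      (∃ p : G.Walk x y, p.IsPath ∧ p.support.toFinset = Q) ∧ Q ∩ X = {x} ∧ Q ∩ Y = {y} :=
    fun i => b5_shrink1 (hP i).1 (hP i).2.1 (hP i).2.2
  choose Q x' y' hQ hx' hy' hp hQX hQY using h1
  exact ⟨Q, x', y', fun i => (hQ i).trans (hPE i),
    fun i j hij => Finset.disjoint_of_subset_left (hQ i)
      (Finset.disjoint_of_subset_right (hQ j) (hPd i j hij)),
    fun i => ⟨hx' i, hy' i, hp i⟩, fun i => ⟨hQX i, hQY i⟩⟩

theorem b5_SL_graph {H : SimpleGraph V} {k : ℕ} {E X Y : Finset V} (hle : H ≤ G)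
    (h : b5_SL H k E X Y) : b5_SL G k E X Y := by
  obtain ⟨P, x, y, hPE, hPd, hP, hPi⟩ := h
  refine b5_shrink ⟨P, x, y, hPE, hPd, fun i => ⟨(hP i).1, (hP i).2.1, ?_⟩⟩
  obtain ⟨p, hp, hpP⟩ := (hP i).2.2
  refine b5_graph hle (b5_of_walk p fun z hz => ?_)
  rw [← hpP]
  exact List.mem_toFinset.mpr hz

theorem b5_split {G' : SimpleGraph V} {a b : V} {T : Finset V}
    (hG' : ∀ v w, G.Adj v w → G'.Adj v w ∨ (v = a ∧ w = b) ∨ (v = b ∧ w = a)) {x y : V}
    (h : b5_Rc G T x y) :
    b5_Rc G' T x y ∨ (b5_Rc G' T x a ∧ b5_Rc G' T b y) ∨ (b5_Rc G' T x b ∧ b5_Rc G' T a y) := by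
  obtain ⟨p, hp⟩ := b5_walk h
  clear h
  induction p with
  | nil => exact Or.inl (b5_refl (hp _ (by simp)))
  | @cons u v w hadj q ih =>
    have hu : u ∈ T := hp u (by simp)
    have hv : v ∈ T := hp v (by simp)
    have ih' := ih fun z hz => hp z (by simp [hz])
    rcases hG' _ _ hadj with h1 | ⟨rfl, rfl⟩ | ⟨rfl, rfl⟩
    · have h2 : b5_Rc G' T u v := b5_adj h1 hu hv
      rcases ih' with h3 | ⟨h3, h4⟩ | ⟨h3, h4⟩
      · exact Or.inl (b5_trans h2 h3)
      · exact Or.inr (Or.inl ⟨b5_trans h2 h3, h4⟩)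
      · exact Or.inr (Or.inr ⟨b5_trans h2 h3, h4⟩)
    · rcases ih' with h3 | ⟨_, h4⟩ | ⟨_, h4⟩
      · exact Or.inr (Or.inl ⟨b5_refl hu, h3⟩)
      · exact Or.inr (Or.inl ⟨b5_refl hu, h4⟩)
      · exact Or.inl h4
    · rcases ih' with h3 | ⟨_, h4⟩ | ⟨_, h4⟩
      · exact Or.inr (Or.inr ⟨b5_refl hu, h3⟩)
      · exact Or.inl h4
      · exact Or.inr (Or.inr ⟨b5_refl hu, h4⟩)

theorem b5_transfer {G' : SimpleGraph V} {a b : V} {E X Y S S' : Finset V}
    (hG' : ∀ v w, G.Adj v w → G'.Adj v w ∨ (v = a ∧ w = b) ∨ (v = b ∧ w = a))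
    (hsep : b5_sep G' E X Y S) (hXb : ∀ x ∈ X \ S, ¬ b5_Rc G' (E \ S) x b)
    (hG : ¬ b5_sep G E X Y S') : ¬ b5_sep G' E X (insert a S) S' := by
  intro hsep'
  unfold b5_sep at hG
  push Not at hG
  obtain ⟨x, hx, y, hy, hxy⟩ := hG
  have hR : ∀ w, b5_Rc G' (E \ S') x w → w ∉ insert a S := by
    intro w hw hwS
    exact hsep' x hx w (mem_sdiff.mpr ⟨hwS, (mem_sdiff.mp (b5_right hw)).2⟩) hw
  have hR2 : ∀ w, b5_Rc G' (E \ S') x w → w ∈ E \ S := by
    intro w hw
    have h1 := hR w hw
    rw [mem_insert, not_or] at h1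
    exact mem_sdiff.mpr ⟨(mem_sdiff.mp (b5_right hw)).1, h1.2⟩
  have hxx : b5_Rc G' (E \ S') x x := b5_refl (b5_left hxy)
  have hxS : x ∈ X \ S := mem_sdiff.mpr ⟨(mem_sdiff.mp hx).1, (mem_sdiff.mp (hR2 x hxx)).2⟩
  have hR3 : ∀ w, b5_Rc G' (E \ S') x w → b5_Rc G' (E \ S) x w :=
    fun w hw => b5_restrict hw hR2
  have hyR : b5_Rc G' (E \ S') x y := by
    refine b5_closed (fun w => b5_Rc G' (E \ S') x w) ?_ hxx hxy
    intro v v' hv hv' hadj
    rcases hG' v v' hadj with h1 | ⟨rfl, rfl⟩ | ⟨rfl, rfl⟩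
    · exact b5_trans hv (b5_adj h1 (b5_right hv) hv')
    · exact absurd (mem_insert_self _ _) (hR _ hv)
    · exact absurd (hR3 _ hv) (hXb x hxS)
  have hyS : y ∈ Y \ S := mem_sdiff.mpr ⟨(mem_sdiff.mp hy).1, (mem_sdiff.mp (hR2 y hyR)).2⟩
  exact hsep x hxS y hyS (hR3 y hyR)

theorem b5_part {E S : Finset V} {u v z : V} (p : G.Walk u v) (hp : p.IsPath)
    (hE : ∀ w ∈ p.support, w ∈ E) (hS : ∀ w ∈ p.support, w ∈ S → w = v) (hz : z ∈ p.support)
    (hzS : z ∉ S) : b5_Rc G (E \ S) u z := by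
  by_cases hzv : v = z
  · subst hzv
    refine b5_of_walk p fun w hw => mem_sdiff.mpr ⟨hE w hw, fun hwS => ?_⟩
    have h1 := hS w hw hwS
    subst h1
    exact hzS hwS
  · refine b5_of_walk (p.takeUntil z hz) fun w hw => mem_sdiff.mpr ⟨?_, fun hwS => ?_⟩
    · exact hE w (p.support_takeUntil_subset_support hz hw)
    · have h1 := hS w (p.support_takeUntil_subset_support hz hw) hwS
      subst h1
      exact SimpleGraph.Walk.endpoint_notMem_support_takeUntil hp hz hzv hw

theorem b5_glue {G' : SimpleGraph V} {a b : V} {k : ℕ} {E X Y S : Finset V} (hle : G' ≤ G)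
    (haS : a ∉ S) (hbS : b ∉ S) (hab : G.Adj a b) (hSk : S.card + 1 = k)
    (hsep : b5_sep G' E X Y S) (h1 : b5_SL G' k E X (insert a S))
    (h2 : b5_SL G' k E (insert b S) Y) : b5_WL G k E X Y := by
  obtain ⟨P, x, s, hPE, hPd, hP, hPi⟩ := h1
  obtain ⟨Q, t, y, hQE, hQd, hQ, hQi⟩ := h2
  have hsP : ∀ i, s i ∈ P i := fun i => by
    have : s i ∈ P i ∩ insert a S := by rw [(hPi i).2]; exact mem_singleton_self _
    exact (mem_inter.mp this).1
  have htQ : ∀ i, t i ∈ Q i := fun i => by
    have : t i ∈ Q i ∩ insert b S := by rw [(hQi i).1]; exact mem_singleton_self _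
    exact (mem_inter.mp this).1
  have hPS : ∀ i w, w ∈ P i → w ∈ S → w = s i := fun i w hw hwS => by
    have : w ∈ P i ∩ insert a S := mem_inter.mpr ⟨hw, mem_insert_of_mem hwS⟩
    rw [(hPi i).2] at this
    exact mem_singleton.mp this
  have hQS : ∀ i w, w ∈ Q i → w ∈ S → w = t i := fun i w hw hwS => by
    have : w ∈ Q i ∩ insert b S := mem_inter.mpr ⟨hw, mem_insert_of_mem hwS⟩
    rw [(hQi i).1] at this
    exact mem_singleton.mp this
  have hsinj : Function.Injective s := by
    intro i j hij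
    by_contra hne
    exact Finset.disjoint_left.mp (hPd i j hne) (hsP i) (hij ▸ hsP j)
  have htinj : Function.Injective t := by
    intro i j hij
    by_contra hne
    exact Finset.disjoint_left.mp (hQd i j hne) (htQ i) (hij ▸ htQ j)
  have htsurj : ∀ w ∈ insert b S, ∃ j, t j = w := by
    have h3 : Finset.univ.image t = insert b S := by
      refine Finset.eq_of_subset_of_card_le ?_ ?_
      · intro w hw
        obtain ⟨j, -, rfl⟩ := mem_image.mp hw
        exact (hQ j).1
      · rw [card_image_of_injective _ htinj, card_univ, Fintype.card_fin,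
          card_insert_of_notMem hbS, hSk]
    intro w hw
    rw [← h3, mem_image] at hw
    obtain ⟨j, -, hj⟩ := hw
    exact ⟨j, hj⟩
  have hmeet : ∀ i i' z, z ∈ P i → z ∈ Q i' → z ∈ S := by
    intro i i' z hzP hzQ
    by_contra hzS
    obtain ⟨p, hp, hpP⟩ := (hP i).2.2
    obtain ⟨q, hq, hqQ⟩ := (hQ i').2.2
    have hmp : ∀ w, w ∈ p.support ↔ w ∈ P i := fun w => by rw [← hpP, List.mem_toFinset]
    have hmq : ∀ w, w ∈ q.support ↔ w ∈ Q i' := fun w => by rw [← hqQ, List.mem_toFinset]
    have h3 : b5_Rc G' (E \ S) (x i) z := b5_part p hp (fun w hw => hPE i ((hmp w).mp hw))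
      (fun w hw hwS => hPS i w ((hmp w).mp hw) hwS) ((hmp z).mpr hzP) hzS
    have h4 : b5_Rc G' (E \ S) (y i') z := b5_part q.reverse hq.reverse
      (fun w hw => hQE i' ((hmq w).mp (by simpa using hw)))
      (fun w hw hwS => hQS i' w ((hmq w).mp (by simpa using hw)) hwS)
      (by simpa using (hmq z).mpr hzQ) hzS
    exact hsep (x i) (mem_sdiff.mpr ⟨(hP i).1, (mem_sdiff.mp (b5_left h3)).2⟩) (y i')
      (mem_sdiff.mpr ⟨(hQ i').2.1, (mem_sdiff.mp (b5_left h4)).2⟩) (b5_trans h3 (b5_symm h4))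
  let t' : Fin k → V := fun i => if s i = a then b else s i
  have ht' : ∀ i, t' i ∈ insert b S := by
    intro i
    by_cases hi : s i = a
    · simp only [t', if_pos hi]
      exact mem_insert_self _ _
    · simp only [t', if_neg hi]
      exact mem_insert_of_mem (mem_of_mem_insert_of_ne (hP i).2.1 hi)
  have ht'S : ∀ i, s i ∈ S → t' i = s i := by
    intro i hi
    have : s i ≠ a := fun h => haS (h ▸ hi)
    simp only [t', if_neg this]
  have ht'inj : Function.Injective t' := by
    intro i i' hii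
    apply hsinj
    by_cases hi : s i = a <;> by_cases hi' : s i' = a
    · rw [hi, hi']
    · simp only [t', if_pos hi, if_neg hi'] at hii
      exact absurd (hii ▸ mem_of_mem_insert_of_ne (hP i').2.1 hi') hbS
    · simp only [t', if_neg hi, if_pos hi'] at hii
      exact absurd (hii ▸ mem_of_mem_insert_of_ne (hP i).2.1 hi) hbS
    · simpa only [t', if_neg hi, if_neg hi'] using hii
  choose j hj using fun i => htsurj (t' i) (ht' i)
  have hjinj : Function.Injective j := by
    intro i i' hii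
    apply ht'inj
    rw [← hj i, ← hj i', hii]
  have hcross : ∀ i i' z, z ∈ P i → z ∈ Q (j i') → i = i' := by
    intro i i' z hzP hzQ
    have hzS := hmeet i (j i') z hzP hzQ
    have h3 := hPS i z hzP hzS
    have h4 := hQS (j i') z hzQ hzS
    apply ht'inj
    rw [ht'S i (h3 ▸ hzS), ← h3, h4, hj]
  refine ⟨fun i => P i ∪ Q (j i), x, fun i => y (j i), fun i => union_subset (hPE i) (hQE (j i)),
    ?_, fun i => ⟨(hP i).1, (hQ (j i)).2.1, ?_⟩⟩
  · intro i i' hne
    rw [Finset.disjoint_left]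
    intro z hz hz'
    rcases mem_union.mp hz with hz | hz <;> rcases mem_union.mp hz' with hz' | hz'
    · exact Finset.disjoint_left.mp (hPd i i' hne) hz hz'
    · exact hne (hcross i i' z hz hz')
    · exact hne (hcross i' i z hz' hz).symm
    · exact Finset.disjoint_left.mp (hQd _ _ (fun h => hne (hjinj h))) hz hz'
  · obtain ⟨p, -, hpP⟩ := (hP i).2.2
    obtain ⟨q, -, hqQ⟩ := (hQ (j i)).2.2
    have h3 : b5_Rc G (P i ∪ Q (j i)) (x i) (s i) := b5_graph hle (b5_of_walk p fun w hw =>
      mem_union_left _ (hpP ▸ List.mem_toFinset.mpr hw))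
    have h4 : b5_Rc G (P i ∪ Q (j i)) (t (j i)) (y (j i)) :=
      b5_graph hle (b5_of_walk q fun w hw => mem_union_right _ (hqQ ▸ List.mem_toFinset.mpr hw))
    refine b5_trans h3 (b5_trans ?_ h4)
    by_cases hi : s i = a
    · have h5 : t (j i) = b := by rw [hj]; simp only [t', if_pos hi]
      exact b5_adj (by rw [hi, h5]; exact hab) (mem_union_left _ (hsP i))
        (mem_union_right _ (htQ (j i)))
    · have h5 : t (j i) = s i := by rw [hj]; simp only [t', if_neg hi]
      rw [h5]
      exact b5_refl (mem_union_left _ (hsP i))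

theorem b5_half {G' : SimpleGraph V} {a b : V} {k : ℕ} {E X Y S : Finset V} (hle : G' ≤ G)
    (hG' : ∀ v w, G.Adj v w → G'.Adj v w ∨ (v = a ∧ w = b) ∨ (v = b ∧ w = a))
    (ha : a ∈ E) (hb : b ∈ E) (hX : X ⊆ E) (hY : Y ⊆ E) (hSE : S ⊆ E)
    (haS : a ∉ S) (hbS : b ∉ S) (hab : G.Adj a b) (hSk : S.card + 1 = k)
    (hsep : b5_sep G' E X Y S) {x0 y0 : V} (hx0 : x0 ∈ X \ S) (hy0 : y0 ∈ Y \ S)
    (h1 : b5_Rc G' (E \ S) x0 a) (h2 : b5_Rc G' (E \ S) b y0)
    (h : ∀ S' ⊆ E, S'.card < k → ¬ b5_sep G E X Y S')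
    (ih : ∀ X Y : Finset V, X ⊆ E → Y ⊆ E → (∀ S' ⊆ E, S'.card < k → ¬ b5_sep G' E X Y S') →
      b5_SL G' k E X Y) : b5_WL G k E X Y := by
  refine b5_glue hle haS hbS hab hSk hsep (ih X (insert a S) hX (insert_subset ha hSE) ?_)
    (ih (insert b S) Y (insert_subset hb hSE) hY ?_)
  · intro S' hS' hc
    refine b5_transfer hG' hsep ?_ (h S' hS' hc)
    intro x hx hxb
    exact hsep x hx y0 hy0 (b5_trans hxb h2)
  · intro S' hS' hc hcon
    refine b5_transfer (a := b) (b := a) (X := Y) (Y := X) (S := S) (S' := S') (G := G)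
      ?_ (b5_sep_symm hsep) ?_ ?_ (b5_sep_symm hcon)
    · intro v w hvw
      rcases hG' v w hvw with h3 | h3 | h3
      · exact Or.inl h3
      · exact Or.inr (Or.inr h3)
      · exact Or.inr (Or.inl h3)
    · intro y hy hya
      exact hsep x0 hx0 y hy (b5_trans h1 (b5_symm hya))
    · intro hcon'
      exact h S' hS' hc (b5_sep_symm hcon')

open Classical in
/-- number of ordered edges inside `E` -/
noncomputable def b5_num (G : SimpleGraph V) (E : Finset V) : ℕ :=
  ((E ×ˢ E).filter fun q => G.Adj q.1 q.2).card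

theorem b5_main (E : Finset V) : ∀ (m : ℕ) (G : SimpleGraph V), b5_num G E = m →
    ∀ (k : ℕ) (X Y : Finset V), X ⊆ E → Y ⊆ E →
      (∀ S ⊆ E, S.card < k → ¬ b5_sep G E X Y S) → b5_SL G k E X Y := by
  classical
  intro m
  induction m using Nat.strong_induction_on with
  | _ m ih =>
    intro G hm k X Y hX hY h
    by_cases hedge : ∃ a ∈ E, ∃ b ∈ E, G.Adj a b
    · obtain ⟨a, ha, b, hb, hab⟩ := hedge
      obtain ⟨G', hle, hG', hnot⟩ : ∃ G' : SimpleGraph V, G' ≤ G ∧
          (∀ v w, G.Adj v w → G'.Adj v w ∨ (v = a ∧ w = b) ∨ (v = b ∧ w = a)) ∧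
          ¬ G'.Adj a b := by
        refine ⟨G.deleteEdges {s(a, b)}, G.deleteEdges_le _, ?_, ?_⟩
        · intro v w hvw
          by_cases h1 : s(v, w) = s(a, b)
          · right
            exact Sym2.eq_iff.mp h1
          · left
            rw [SimpleGraph.deleteEdges_adj]
            exact ⟨hvw, fun h2 => h1 (Set.mem_singleton_iff.mp h2)⟩
        · rw [SimpleGraph.deleteEdges_adj]
          exact fun h1 => h1.2 (Set.mem_singleton _)
      have hlt : b5_num G' E < m := by
        rw [← hm]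
        refine card_lt_card ?_
        rw [Finset.ssubset_iff_of_subset]
        · refine ⟨(a, b), ?_, ?_⟩
          · rw [mem_filter]
            exact ⟨mk_mem_product ha hb, hab⟩
          · rw [mem_filter]
            exact fun h1 => hnot h1.2
        · intro q hq
          rw [mem_filter] at hq ⊢
          exact ⟨hq.1, hle hq.2⟩
      by_cases hcase : ∀ S ⊆ E, S.card < k → ¬ b5_sep G' E X Y S
      · exact b5_SL_graph hle (ih _ hlt G' rfl k X Y hX hY hcase)
      · push Not at hcase
        obtain ⟨S, hSE, hSk, hsep⟩ := hcase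
        have hins : ∀ c ∈ E, (c = a ∨ c = b) → k ≤ (insert c S).card := by
          intro c hcE hc
          by_contra hlt'
          refine h (insert c S) (insert_subset hcE hSE) (not_le.mp hlt') ?_
          intro x hx y hy hxy
          have hsub : E \ insert c S ⊆ E \ S := sdiff_subset_sdiff (le_refl E) (subset_insert _ _)
          have h1 : b5_Rc G' (E \ insert c S) x y := by
            refine b5_closed (fun w => b5_Rc G' (E \ insert c S) x w) ?_
              (b5_refl (b5_left hxy)) hxy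
            intro v v' hv hv' hadj
            have hvc : v ≠ c := fun h2 => (mem_sdiff.mp (b5_right hv)).2 (h2 ▸ mem_insert_self _ _)
            have hv'c : v' ≠ c := fun h2 => (mem_sdiff.mp hv').2 (h2 ▸ mem_insert_self _ _)
            rcases hG' v v' hadj with h2 | ⟨rfl, rfl⟩ | ⟨rfl, rfl⟩
            · exact b5_trans hv (b5_adj h2 (b5_right hv) hv')
            · rcases hc with rfl | rfl
              · exact absurd rfl hvc
              · exact absurd rfl hv'c
            · rcases hc with rfl | rfl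
              · exact absurd rfl hv'c
              · exact absurd rfl hvc
          have hx' : x ∈ X \ S := mem_sdiff.mpr ⟨(mem_sdiff.mp hx).1,
            fun h2 => (mem_sdiff.mp hx).2 (mem_insert_of_mem h2)⟩
          have hy' : y ∈ Y \ S := mem_sdiff.mpr ⟨(mem_sdiff.mp hy).1,
            fun h2 => (mem_sdiff.mp hy).2 (mem_insert_of_mem h2)⟩
          exact hsep x hx' y hy' (b5_mono h1 hsub)
        have haS : a ∉ S := by
          intro h1
          have h2 := hins a ha (Or.inl rfl)
          rw [insert_eq_of_mem h1] at h2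
          omega
        have hbS : b ∉ S := by
          intro h1
          have h2 := hins b hb (Or.inr rfl)
          rw [insert_eq_of_mem h1] at h2
          omega
        have hcard : S.card + 1 = k := by
          have h2 := hins a ha (Or.inl rfl)
          rw [card_insert_of_notMem haS] at h2
          omega
        have hnsep := h S hSE hSk
        unfold b5_sep at hnsep
        push Not at hnsep
        obtain ⟨x0, hx0, y0, hy0, hxy⟩ := hnsep
        have ihG' : ∀ X Y : Finset V, X ⊆ E → Y ⊆ E →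
            (∀ S' ⊆ E, S'.card < k → ¬ b5_sep G' E X Y S') → b5_SL G' k E X Y :=
          fun X Y hX hY h => ih _ hlt G' rfl k X Y hX hY h
        rcases b5_split hG' hxy with h1 | ⟨h1, h2⟩ | ⟨h1, h2⟩
        · exact absurd h1 (hsep x0 hx0 y0 hy0)
        · exact b5_shrink (b5_half hle hG' ha hb hX hY hSE haS hbS hab hcard hsep hx0 hy0 h1 h2
            h ihG')
        · refine b5_shrink (b5_half hle ?_ hb ha hX hY hSE hbS haS hab.symm hcard hsep hx0 hy0
            h1 h2 h ihG')
          intro v w hvw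
          rcases hG' v w hvw with h3 | h3 | h3
          · exact Or.inl h3
          · exact Or.inr (Or.inr h3)
          · exact Or.inr (Or.inl h3)
    · push Not at hedge
      have hk : k ≤ (X ∩ Y).card := by
        by_contra hlt
        have h1 := h (X ∩ Y) (inter_subset_left.trans hX) (not_le.mp hlt)
        apply h1
        intro x hx y hy hxy
        have h2 : y = x := by
          refine b5_closed (fun w => w = x) ?_ rfl hxy
          intro v v' hv hv' hadj
          subst hv
          exact absurd hadj (hedge _ (hX (mem_sdiff.mp hx).1) _ (mem_sdiff.mp hv').1)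
        subst h2
        exact (mem_sdiff.mp hx).2 (mem_inter.mpr ⟨(mem_sdiff.mp hx).1, (mem_sdiff.mp hy).1⟩)
      obtain ⟨Z, hZ, hZk⟩ := Finset.exists_subset_card_eq hk
      let f : Fin k → V := fun i => (Z.equivFinOfCardEq hZk).symm i
      have hf : ∀ i, f i ∈ Z := fun i => ((Z.equivFinOfCardEq hZk).symm i).2
      have hfi : Function.Injective f := fun i j hij =>
        (Z.equivFinOfCardEq hZk).symm.injective (Subtype.ext hij)
      refine b5_shrink ⟨fun i => {f i}, f, f, ?_, ?_, ?_⟩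
      · intro i
        rw [singleton_subset_iff]
        exact hX (mem_inter.mp (hZ (hf i))).1
      · intro i j hij
        rw [Finset.disjoint_singleton]
        exact fun h1 => hij (hfi h1)
      · intro i
        exact ⟨(mem_inter.mp (hZ (hf i))).1, (mem_inter.mp (hZ (hf i))).2,
          b5_refl (mem_singleton_self _)⟩

theorem menger (k : ℕ) (E X Y : Finset V) (hX : X ⊆ E) (hY : Y ⊆ E)
    (h : ∀ S ⊆ E, S.card < k → ∃ x ∈ X \ S, ∃ y ∈ Y \ S, ∃ n, PL G (E \ S) x y n) :
    ∃ (P : Fin k → Finset V) (x y : Fin k → V) (n : Fin k → ℕ),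
      (∀ i, P i ⊆ E) ∧ (∀ i j, i ≠ j → Disjoint (P i) (P j)) ∧
      (∀ i, x i ∈ X ∧ y i ∈ Y ∧ PL G (P i) (x i) (y i) (n i)) ∧
      (∀ i, P i ∩ X = {x i} ∧ P i ∩ Y = {y i}) := by
  obtain ⟨P, x, y, hPE, hPd, hP, hPi⟩ := b5_main E _ G rfl k X Y hX hY (by
    intro S hS hc hsep
    obtain ⟨x, hx, y, hy, n, hn⟩ := h S hS hc
    exact hsep x hx y hy ⟨n, hn⟩)
  choose hx hy p hp hpP using hP
  refine ⟨P, x, y, fun i => (p i).length, hPE, hPd, fun i => ⟨hx i, hy i, ?_⟩, hPi⟩
  refine ⟨p i, hp i, rfl, fun z hz => ?_⟩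
  rw [← hpP i]
  exact List.mem_toFinset.mpr hz

end Pool.Agent.Lib.MP_f599e5_co
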