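import Pool.Agent.Lib.MP_f599e5_co.B4
import Pool.Agent.Lib.MP_f599e5_co.Aplus

set_option autoImplicit false
set_option linter.unusedSectionVars false

/-!
# JOB K2: degrees and boundaries of components of `B \ F`, ears (2.2)

* `comp_nb`: `F ⊆ B`, `D` a component of `B \ F`, `v ∈ D`, `x ∈ B`, `G.Adj v x`: then `x ∈ D` or `x ∈ F` (`nbr_of_closed`, B3).
* `comp_nb_card`: `nb G v B` is the disjoint union of `nb G v D` and `nb G v F` (`comp_nb`; `D ∩ F = ∅`).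
* `mem_bd_comp`: `bd G B D` = vertices of `F` adjacent to `D`.
* `Blk.two_le_bd`: if `(bd G B C).card ≤ 1` then `bd G B C ⊆ {w}` for some `w ∉ C`, `w ≠ x` or `w ≠ y`: if `bd = ∅` take `w = x`; if
  `bd = {w}`, `w ∉ C` (`mem_bd`).  `b3` gives `B.erase w ⊆ C`, but `x` or `y` is in `B.erase w \ C`.
* `rz_of_sep`: `r1`: `C ⊆ D` nonempty with `bd G D C = ∅` is `D` (`Conn`), use `a1, a2`.  `r2`: let `C ⊆ D` contain a vertex `≠ c`, `(bd G D C).card ≤ 1`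
  and suppose `C` adjacent neither to `R1` nor to `R2`.  Put `S = X ∪ bd G D C` (`S.card ≤ j`).  `C ⊆ B \ S` (`C ⊆ D` is disjoint from
  `F ⊇ X` and from its boundary), `bd G B C ⊆ S`: a neighbour `x ∈ B \ C` of `C` is in `D` (then in `bd G D C`) or in `F`
  (`comp_nb`), then not in `R1, R2`, so in `X` by `hx`.  `Sep` gives `B \ (C ∪ S) ⊆ {c}`.  But the `y` of `hout` is in `F ⊆ B`, not in
  `D ⊇ C ∪ bd G D C`, not in `X`, and `≠ c`.  Contradiction.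
* `Blk.ears`: `aplus` with `Good`: `m1` from `hlam`; `sys`: `D` is disjoint from `F ⊇ R1, R2`; `rz`; `deg`: `hB.deg v`, `comp_nb_card`, `hloss`
  (`ds` is by definition `(nb G v D).card + min 1 .. + min 1 ..`); `e2`.
* `Blk.r0`: `r1` as above; `r2`: `C ⊆ D` nonempty, `(bd G D C).card ≤ 1`, `C` adjacent neither to `R1` nor `R2`; then `bd G B C ⊆ bd G D C` (`comp_nb`, `hx`);
  `R1`, `R2` contain `r1 ≠ r2` (from `a1, a2`, `hd`), both in `B \ C`; `Blk.two_le_bd` gives a contradiction.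
* `Blk.ears0`: `Blk.ears` with `Blk.r0` (`Rz` from `R0` as in `aplus_R0`), `e2` by `Or.inl`.
-/

namespace Pool.Agent.Lib.MP_f599e5_co

open Finset

variable {V : Type} [DecidableEq V] {G : SimpleGraph V}

private theorem K2_disj {B F D : Finset V} (hD : IsComp G (B \ F) D) {x : V} (hx : x ∈ D) : x ∉ F :=
  (mem_sdiff.1 (hD.1 hx)).2

private theorem K2_mem {B F D : Finset V} (hD : IsComp G (B \ F) D) {x : V} (hx : x ∈ D) : x ∈ B :=
  (mem_sdiff.1 (hD.1 hx)).1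

theorem comp_nb {B F D : Finset V} (hF : F ⊆ B) (hD : IsComp G (B \ F) D) {v x : V} (hv : v ∈ D) (hx : x ∈ B)
    (ha : G.Adj v x) : x ∈ D ∨ x ∈ F :=
  nbr_of_closed hD.1 hD.2.1 hv hx ha

theorem comp_nb_card {B F D : Finset V} (hF : F ⊆ B) (hD : IsComp G (B \ F) D) {v : V} (hv : v ∈ D) :
    (nb G v B).card = (nb G v D).card + (nb G v F).card := by
  have hdis : Disjoint D F := by
    rw [Finset.disjoint_left]
    exact fun x hx => K2_disj hD hx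
  rw [← nb_card_union hdis]
  have : nb G v B = nb G v (D ∪ F) := by
    ext x
    rw [mem_nb, mem_nb]
    constructor
    · rintro ⟨hx, ha⟩
      exact ⟨mem_union.2 (comp_nb hF hD hv hx ha), ha⟩
    · rintro ⟨hx, ha⟩
      refine ⟨?_, ha⟩
      rcases mem_union.1 hx with h1 | h1
      · exact K2_mem hD h1
      · exact hF h1
  rw [this]

theorem mem_bd_comp {B F D : Finset V} (hF : F ⊆ B) (hD : IsComp G (B \ F) D) {w : V} :
    w ∈ bd G B D ↔ w ∈ F ∧ ∃ x ∈ D, G.Adj x w := by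
  rw [mem_bd]
  constructor
  · rintro ⟨hw, hwD, x, hx, ha⟩
    exact ⟨(comp_nb hF hD hx hw ha).resolve_left hwD, x, hx, ha⟩
  · rintro ⟨hw, x, hx, ha⟩
    exact ⟨hF hw, fun hh => K2_disj hD hh hw, x, hx, ha⟩

theorem Blk.two_le_bd {k : ℕ} {B C : Finset V} {c x y : V} (hB : Blk G k B c) (hC : C ⊆ B) (hne : C.Nonempty)
    (hx : x ∈ B) (hy : y ∈ B) (hxC : x ∉ C) (hyC : y ∉ C) (hxy : x ≠ y) : 2 ≤ (bd G B C).card := by
  by_contra hcon
  have key : ∀ w, w ∉ C → bd G B C ⊆ {w} → False := by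
    intro w hw hb
    have h1 := hB.b3 C hC hne w hw hb
    by_cases hxw : x = w
    · exact hyC (h1 (mem_erase.2 ⟨fun h => hxy (hxw.trans h.symm), hy⟩))
    · exact hxC (h1 (mem_erase.2 ⟨hxw, hx⟩))
  rcases Finset.eq_empty_or_nonempty (bd G B C) with hb | hb
  · exact key x hxC (by rw [hb]; exact Finset.empty_subset _)
  · have hcard : (bd G B C).card = 1 := by
      have := card_pos.2 hb
      omega
    obtain ⟨w, hw⟩ := card_eq_one.1 hcard
    have hwm : w ∈ bd G B C := by rw [hw]; exact mem_singleton_self _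
    exact key w (mem_bd.1 hwm).2.1 (by rw [hw])

/-- `Rz` from `Sep`: `X` = the vertices of `F \ (R1 ∪ R2)` which may be adjacent to `D` -/
theorem rz_of_sep {B F R1 R2 D X : Finset V} {c : V} {j : ℕ} (hs : Sep G B c j) (hF : F ⊆ B)
    (hD : IsComp G (B \ F) D) (hne : ∃ v ∈ D, v ≠ c) (a1 : adjS G D R1) (a2 : adjS G D R2) (hXF : X ⊆ F)
    (hXj : X.card + 1 ≤ j) (hx : ∀ v ∈ D, ∀ x ∈ F, x ∉ R1 → x ∉ R2 → G.Adj v x → x ∈ X)
    (hout : ∃ y ∈ F, y ∉ X ∧ y ≠ c) : Rz G D R1 R2 c := by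
  refine ⟨hne, ?_, ?_⟩
  · rintro C hC ⟨v, hv, _⟩ hb
    have h1 := hD.2.2.2 C hC ⟨v, hv⟩ hb
    rw [h1]
    exact ⟨a1, a2⟩
  · rintro C hC ⟨v, hv, hvc⟩ hb
    by_contra hcon
    rw [not_or] at hcon
    obtain ⟨hn1, hn2⟩ := hcon
    have hScard : (X ∪ bd G D C).card ≤ j := by
      have := card_union_le X (bd G D C)
      omega
    have hCS : C ⊆ B \ (X ∪ bd G D C) := by
      intro x hxC
      refine mem_sdiff.2 ⟨K2_mem hD (hC hxC), fun hh => ?_⟩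
      rcases mem_union.1 hh with h2 | h2
      · exact K2_disj hD (hC hxC) (hXF h2)
      · exact (mem_bd.1 h2).2.1 hxC
    have hbS : bd G B C ⊆ X ∪ bd G D C := by
      intro x hxb
      obtain ⟨hxB, hxC, y, hy, hyx⟩ := mem_bd.1 hxb
      rcases comp_nb hF hD (hC hy) hxB hyx with h3 | h3
      · exact mem_union_right _ (mem_bd.2 ⟨h3, hxC, y, hy, hyx⟩)
      · refine mem_union_left _ (hx y (hC hy) x h3 ?_ ?_ hyx)
        · exact fun h4 => hn1 ⟨y, hy, x, h4, hyx⟩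
        · exact fun h4 => hn2 ⟨y, hy, x, h4, hyx⟩
    have h5 := hs (X ∪ bd G D C) C hScard hCS ⟨v, hv, hvc⟩ hbS
    obtain ⟨y, hyF, hyX, hyc⟩ := hout
    apply hyc
    apply mem_singleton.1
    apply h5
    refine mem_sdiff.2 ⟨hF hyF, fun hh => ?_⟩
    rcases mem_union.1 hh with h6 | h6
    · exact K2_disj hD (hC h6) hyF
    · rcases mem_union.1 h6 with h7 | h7
      · exact hyX h7
      · exact K2_disj hD (mem_bd.1 h7).1 hyF

/-- general ear lemma -/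
theorem Blk.ears {k lam : ℕ} {B F R1 R2 D : Finset V} {c : V} (hB : Blk G k B c) (hF : F ⊆ B) (h1 : R1 ⊆ F)
    (h2 : R2 ⊆ F) (hd : Disjoint R1 R2) (hD : IsComp G (B \ F) D) (hR : Rz G D R1 R2 c) (hlam : lam + 2 ≤ k)
    (hloss : ∀ v ∈ D, v ≠ c → (nb G v F).card ≤ min 1 (nb G v R1).card + min 1 (nb G v R2).card + lam)
    (he : k - 1 - lam = 2 → R0 G D R1 R2 ∨ 2 ≤ (D.erase c).card) : Adm G (k - 1 - lam) D R1 R2 := by
  have hdF : ∀ x ∈ D, x ∉ F := fun x hx => K2_disj hD hx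
  refine aplus (z := c) ⟨by omega, ⟨?_, ?_, hd⟩, hR, ?_, he⟩
  · rw [Finset.disjoint_left]
    exact fun x hx hx1 => hdF x hx (h1 hx1)
  · rw [Finset.disjoint_left]
    exact fun x hx hx1 => hdF x hx (h2 hx1)
  · intro v hv hvc
    have h3 := hB.deg v (K2_mem hD hv) hvc
    have h4 := comp_nb_card hF hD hv
    have h5 := hloss v hv hvc
    unfold ds
    omega

theorem Blk.r0 {k : ℕ} {B F R1 R2 D : Finset V} {c : V} (hB : Blk G k B c) (hF : F ⊆ B) (h1 : R1 ⊆ F)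
    (h2 : R2 ⊆ F) (hd : Disjoint R1 R2) (hD : IsComp G (B \ F) D) (a1 : adjS G D R1) (a2 : adjS G D R2)
    (hx : ∀ v ∈ D, ∀ x ∈ F, x ∉ R1 → x ∉ R2 → ¬ G.Adj v x) : R0 G D R1 R2 := by
  refine ⟨hD.2.2.1, ?_, ?_⟩
  · intro C hC hne hb
    have h3 := hD.2.2.2 C hC hne hb
    rw [h3]
    exact ⟨a1, a2⟩
  · intro C hC hne hb
    by_contra hcon
    rw [not_or] at hcon
    obtain ⟨hn1, hn2⟩ := hcon
    have hsub : bd G B C ⊆ bd G D C := by
      intro x hxb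
      obtain ⟨hxB, hxC, y, hy, hyx⟩ := mem_bd.1 hxb
      rcases comp_nb hF hD (hC hy) hxB hyx with h3 | h3
      · exact mem_bd.2 ⟨h3, hxC, y, hy, hyx⟩
      · exfalso
        refine hx y (hC hy) x h3 ?_ ?_ hyx
        · exact fun h4 => hn1 ⟨y, hy, x, h4, hyx⟩
        · exact fun h4 => hn2 ⟨y, hy, x, h4, hyx⟩
    obtain ⟨_, _, r1, hr1, _⟩ := a1
    obtain ⟨_, _, r2, hr2, _⟩ := a2
    have hne12 : r1 ≠ r2 := fun hh => Finset.disjoint_left.1 hd hr1 (hh ▸ hr2)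
    have h5 := hB.two_le_bd (C := C) (fun x hxC => K2_mem hD (hC hxC)) hne (hF (h1 hr1)) (hF (h2 hr2))
      (fun hh => K2_disj hD (hC hh) (h1 hr1)) (fun hh => K2_disj hD (hC hh) (h2 hr2)) hne12
    have h6 := card_le_card hsub
    omega

/-- ear lemma, all neighbours of `D` in `F` are in `R1 ∪ R2` -/
theorem Blk.ears0 {k lam : ℕ} {B F R1 R2 D : Finset V} {c : V} (hB : Blk G k B c) (hF : F ⊆ B) (h1 : R1 ⊆ F)
    (h2 : R2 ⊆ F) (hd : Disjoint R1 R2) (hD : IsComp G (B \ F) D) (hne : ∃ v ∈ D, v ≠ c) (a1 : adjS G D R1)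
    (a2 : adjS G D R2) (hx : ∀ v ∈ D, ∀ x ∈ F, x ∉ R1 → x ∉ R2 → ¬ G.Adj v x) (hlam : lam + 2 ≤ k)
    (hloss : ∀ v ∈ D, v ≠ c → (nb G v F).card ≤ min 1 (nb G v R1).card + min 1 (nb G v R2).card + lam) :
    Adm G (k - 1 - lam) D R1 R2 := by
  have h0 : R0 G D R1 R2 := hB.r0 hF h1 h2 hd hD a1 a2 hx
  exact hB.ears hF h1 h2 hd hD ⟨hne, fun C hC ⟨v, hv, _⟩ hb => h0.r1 C hC ⟨v, hv⟩ hb,
    fun C hC ⟨v, hv, _⟩ hb => h0.r2 C hC ⟨v, hv⟩ hb⟩ hlam hloss (fun _ => Or.inl h0)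


end Pool.Agent.Lib.MP_f599e5_co
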