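import Pool.Agent.Lib.MP_f599e5_co.Th1C
import Pool.Agent.Lib.MP_f599e5_co.K2

set_option autoImplicit false
set_option linter.unusedSectionVars false

/-!
# JOB CFD: cycles as functions

`CF G f g`: the vertices `f 0, ..., f (g-1)` form a cycle of length `g`; its vertex set is `cyv f g = cseg f 0 (g-1)`.
* `CycS.toCF`: `CycS.toF` (B2F).
* `CF.paths`: for `i < j < g`: along the cycle (`PF.toPL`), and the other way: `f i -> f 0` (reversed), edge `f 0 f (g-1)`, `f (g-1) -> f j` (reversed), length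
  `i + 1 + (g-1-j) = g - (j-i)`; `PL.trans`, the pieces `cseg f 0 i` and `cseg f j (g-1)` are disjoint.
* `CF.card`: injectivity.
* `CF.twoC`: `cyv` without `f i`: the union of `cseg f 0 (i-1)` and `cseg f (i+1) (g-1)` (each connected or empty: `PF.conn_cseg`), joined by the edge `f (g-1) f 0`
  (`Conn.union`) if both are nonempty; for `i = 0` it is `cseg f 1 (g-1)`, for `i = g-1` it is `cseg f 0 (g-2)`.  If `w ∉ cyv f g` then `erase` does nothing:
  `PF.conn_cseg`.
* `CF.ear`: an exact path `Q` of length `q ≥ 1` from `f i` to `f j` (`i < j < g`) meeting the cycle only in its ends gives cycles of lengths `(j-i) + q` and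
  `g - (j-i) + q` inside `cyv f g ∪ Q`, provided these numbers are `≥ 3` (`PL.cycle` with the two arcs; the first arc is inside `cseg f i j`; the common vertices
  with `Q` are `f i`, `f j`).
-/

namespace Pool.Agent.Lib.MP_f599e5_co

open Finset

variable {V : Type} [DecidableEq V] {G : SimpleGraph V}

/-- a cycle given by a function -/
structure CF (G : SimpleGraph V) (f : ℕ → V) (g : ℕ) : Prop where
  g3 : 3 ≤ g
  pf : PF G f (g - 1)
  cl : G.Adj (f (g - 1)) (f 0)

/-- vertex set of the cycle -/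
def cyv (f : ℕ → V) (g : ℕ) : Finset V := cseg f 0 (g - 1)

theorem mem_cyv {f : ℕ → V} {g : ℕ} (hg : 1 ≤ g) {x : V} : x ∈ cyv f g ↔ ∃ i, i < g ∧ f i = x := by
  rw [cyv, mem_cseg]
  constructor
  · rintro ⟨i, _, h2, h3⟩
    exact ⟨i, by omega, h3⟩
  · rintro ⟨i, h2, h3⟩
    exact ⟨i, Nat.zero_le _, by omega, h3⟩

theorem CycS.toCF {S : Finset V} {n : ℕ} (h : CycS G S n) :
    ∃ f : ℕ → V, CF G f n ∧ cyv f n ⊆ S := by
  obtain ⟨f, h3, hp, hc, hS⟩ := h.toF
  refine ⟨f, ⟨h3, hp, hc⟩, fun x hx => ?_⟩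
  obtain ⟨i, hi, rfl⟩ := (mem_cyv (by omega)).1 hx
  exact hS i hi

namespace CF

variable {f : ℕ → V} {g : ℕ}

theorem paths (h : CF G f g) {i j : ℕ} (hij : i < j) (hj : j < g) :
    PL G (cyv f g) (f i) (f j) (j - i) ∧ PL G (cyv f g) (f i) (f j) (g - (j - i)) := by
  have h3 := h.g3
  have hm : ∀ k, k < g → f k ∈ cyv f g := fun k hk => (mem_cyv (by omega)).2 ⟨k, hk, rfl⟩
  refine ⟨h.pf.toPL hij.le (by omega) (fun k _ h2 => hm k (by omega)), ?_⟩
  have P1 : PL G (cseg f 0 i) (f i) (f 0) (i - 0) :=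
    (h.pf.toPL (Nat.zero_le i) (by omega) (fun k h1 h2 => mem_cseg.2 ⟨k, h1, h2, rfl⟩)).symm
  have P2 : PL G (cseg f j (g - 1)) (f (g - 1)) (f j) (g - 1 - j) :=
    (h.pf.toPL (by omega) le_rfl (fun k h1 h2 => mem_cseg.2 ⟨k, h1, h2, rfl⟩)).symm
  have P3 := PL.cons h.cl.symm P2 (fun hc => by
    obtain ⟨k, hk1, hk2, hk3⟩ := mem_cseg.1 hc
    have := h.pf.inj k 0 hk2 (by omega) hk3
    omega)
  have P4 := P1.trans P3 (fun x hx hx' => by
    rcases mem_insert.1 hx' with rfl | hx'
    · rfl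
    · obtain ⟨k, _, hk2, rfl⟩ := mem_cseg.1 hx
      obtain ⟨l, hl1, hl2, hl3⟩ := mem_cseg.1 hx'
      have := h.pf.inj l k hl2 (by omega) hl3
      omega)
  have hlen : i - 0 + (g - 1 - j + 1) = g - (j - i) := by omega
  rw [hlen] at P4
  refine P4.mono fun x hx => ?_
  rcases mem_union.1 hx with hx | hx
  · obtain ⟨k, _, hk2, rfl⟩ := mem_cseg.1 hx
    exact hm k (by omega)
  · rcases mem_insert.1 hx with rfl | hx
    · exact hm 0 (by omega)
    · obtain ⟨k, _, hk2, rfl⟩ := mem_cseg.1 hx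
      exact hm k (by omega)

theorem card (h : CF G f g) : (cyv f g).card = g := by
  have h3 := h.g3
  rw [cyv, cseg, card_image_of_injOn, Nat.card_Icc]
  · omega
  · intro i hi j hj hij
    rw [mem_coe, mem_Icc] at hi hj
    exact h.pf.inj i j hi.2 hj.2 hij

theorem twoC (h : CF G f g) : TwoC G (cyv f g) := by
  have h3 := h.g3
  refine ⟨by rw [h.card]; exact h3, fun w => ?_⟩
  by_cases hw : w ∈ cyv f g
  · obtain ⟨i, hi, rfl⟩ := (mem_cyv (by omega)).1 hw
    have hmem : ∀ x, x ∈ (cyv f g).erase (f i) ↔ ∃ k, k < g ∧ k ≠ i ∧ f k = x := by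
      intro x
      rw [mem_erase, mem_cyv (by omega)]
      constructor
      · rintro ⟨hne, k, hk, rfl⟩
        exact ⟨k, hk, fun hki => hne (by rw [hki]), rfl⟩
      · rintro ⟨k, hk, hki, rfl⟩
        refine ⟨fun he => hki (h.pf.inj k i (by omega) (by omega) he), k, hk, rfl⟩
    rcases Nat.eq_zero_or_pos i with hi0 | hi0
    · have he : (cyv f g).erase (f i) = cseg f 1 (g - 1) := by
        ext x
        rw [hmem, mem_cseg]
        constructor
        · rintro ⟨k, h1, h2, h4⟩
          exact ⟨k, by omega, by omega, h4⟩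
        · rintro ⟨k, h1, h2, h4⟩
          exact ⟨k, by omega, by omega, h4⟩
      rw [he]
      exact h.pf.conn_cseg (by omega) le_rfl
    · rcases Nat.lt_or_ge i (g - 1) with hi1 | hi1
      · have he : (cyv f g).erase (f i) = cseg f 0 (i - 1) ∪ cseg f (i + 1) (g - 1) := by
          ext x
          rw [hmem, mem_union, mem_cseg, mem_cseg]
          constructor
          · rintro ⟨k, h1, h2, h4⟩
            rcases Nat.lt_or_ge k i with h5 | h5
            · exact Or.inl ⟨k, by omega, by omega, h4⟩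
            · exact Or.inr ⟨k, by omega, by omega, h4⟩
          · rintro (⟨k, h1, h2, h4⟩ | ⟨k, h1, h2, h4⟩)
            · exact ⟨k, by omega, by omega, h4⟩
            · exact ⟨k, by omega, by omega, h4⟩
        rw [he]
        refine Conn.union (h.pf.conn_cseg (by omega) (by omega)) (h.pf.conn_cseg (by omega) le_rfl)
          (Or.inl ⟨f 0, mem_cseg.2 ⟨0, le_rfl, by omega, rfl⟩, f (g - 1),
            mem_cseg.2 ⟨g - 1, by omega, le_rfl, rfl⟩, h.cl.symm⟩)
      · have he : (cyv f g).erase (f i) = cseg f 0 (g - 2) := by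
          ext x
          rw [hmem, mem_cseg]
          constructor
          · rintro ⟨k, h1, h2, h4⟩
            exact ⟨k, by omega, by omega, h4⟩
          · rintro ⟨k, h1, h2, h4⟩
            exact ⟨k, by omega, by omega, h4⟩
        rw [he]
        exact h.pf.conn_cseg (by omega) (by omega)
  · rw [erase_eq_of_notMem hw]
    exact h.pf.conn_cseg (by omega) le_rfl

theorem ear (h : CF G f g) {i j q : ℕ} (hij : i < j) (hj : j < g) {Q : Finset V} (hQ : PX G Q (f i) (f j) q)
    (hQF : ∀ x ∈ Q, x ∈ cyv f g → x = f i ∨ x = f j) :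
    (3 ≤ (j - i) + q → CycS G (cyv f g ∪ Q) ((j - i) + q)) ∧
      (3 ≤ g - (j - i) + q → CycS G (cyv f g ∪ Q) (g - (j - i) + q)) := by
  obtain ⟨p1, p2⟩ := h.paths hij hj
  have hne : f i ≠ f j := fun he => by
    have := h.pf.inj i j (by omega) (by omega) he
    omega
  exact ⟨fun h3 => p1.cycle hQ.1 (fun x hx hx' => hQF x hx' hx) hne h3,
    fun h3 => p2.cycle hQ.1 (fun x hx hx' => hQF x hx' hx) hne h3⟩

end CF


end Pool.Agent.Lib.MP_f599e5_co
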