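import Mathlib

set_option autoImplicit false
set_option linter.unusedSectionVars false

/-!
# MP_f599e5_co (Dean's conjecture): definitions

`V` a finite type, all vertex sets are `Finset V`.
-/

namespace Pool.Agent.Lib.MP_f599e5_co

open Finset

variable {V : Type} [DecidableEq V]

open Classical in
/-- neighbours of `v` in `S` -/
noncomputable def nb (G : SimpleGraph V) (v : V) (S : Finset V) : Finset V :=
  S.filter (fun w => G.Adj v w)

/-- some vertex of `X` is adjacent to some vertex of `Y` -/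
def adjS (G : SimpleGraph V) (X Y : Finset V) : Prop := ∃ x ∈ X, ∃ y ∈ Y, G.Adj x y

open Classical in
/-- boundary of `C` in `D`: the vertices of `D \ C` adjacent to `C` -/
noncomputable def bd (G : SimpleGraph V) (D C : Finset V) : Finset V :=
  (D \ C).filter (fun w => ∃ x ∈ C, G.Adj x w)

/-- there is a path of length `n` from `u` to `v` with all its vertices in `S` -/
def PL (G : SimpleGraph V) (S : Finset V) (u v : V) (n : ℕ) : Prop :=
  ∃ p : G.Walk u v, p.IsPath ∧ p.length = n ∧ ∀ x ∈ p.support, x ∈ S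

/-- there is a cycle of length `n` with all its vertices in `S` -/
def CycS (G : SimpleGraph V) (S : Finset V) (n : ℕ) : Prop :=
  ∃ (v : V) (p : G.Walk v v), p.IsCycle ∧ p.length = n ∧ ∀ x ∈ p.support, x ∈ S

/-- there is a cycle whose length is divisible by `k` -/
def ZC (k : ℕ) (G : SimpleGraph V) : Prop := ∃ (v : V) (p : G.Walk v v), p.IsCycle ∧ k ∣ p.length

/-- `D` is nonempty and connected -/
def Conn (G : SimpleGraph V) (D : Finset V) : Prop :=
  D.Nonempty ∧ ∀ C ⊆ D, C.Nonempty → bd G D C = ∅ → C = D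

/-- `C` is a connected component of `D` -/
def IsComp (G : SimpleGraph V) (D C : Finset V) : Prop := C ⊆ D ∧ bd G D C = ∅ ∧ Conn G C

/-- `K` is a clique -/
def Clq (G : SimpleGraph V) (K : Finset V) : Prop := ∀ x ∈ K, ∀ y ∈ K, x ≠ y → G.Adj x y

/-- `K` is independent -/
def Ind (G : SimpleGraph V) (K : Finset V) : Prop := ∀ x ∈ K, ∀ y ∈ K, ¬ G.Adj x y

/-- `X` is complete to `Y` -/
def Cpl (G : SimpleGraph V) (X Y : Finset V) : Prop := ∀ x ∈ X, ∀ y ∈ Y, G.Adj x y

/-- the roots and the interior of a system are pairwise disjoint -/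
structure Sys (D A B : Finset V) : Prop where
  dA : Disjoint D A
  dB : Disjoint D B
  AB : Disjoint A B

/-- degree of `v` in the system `(D;A,B)` (the roots `A`, `B` count as one vertex each) -/
noncomputable def ds (G : SimpleGraph V) (D A B : Finset V) (v : V) : ℕ :=
  (nb G v D).card + min 1 (nb G v A).card + min 1 (nb G v B).card

/-- `m` admissible paths from `A` to `B` through `D` -/
def Adm (G : SimpleGraph V) (m : ℕ) (D A B : Finset V) : Prop :=
  ∃ d, (d = 1 ∨ d = 2) ∧ ∃ l, 2 ≤ l ∧ ∀ i < m, ∃ a ∈ A, ∃ b ∈ B,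
    PL G (insert a (insert b D)) a b (l + i * d)

/-- the connectivity condition -/
structure R0 (G : SimpleGraph V) (D A B : Finset V) : Prop where
  ne : D.Nonempty
  r1 : ∀ C ⊆ D, C.Nonempty → bd G D C = ∅ → adjS G C A ∧ adjS G C B
  r2 : ∀ C ⊆ D, C.Nonempty → (bd G D C).card ≤ 1 → adjS G C A ∨ adjS G C B

/-- the connectivity condition, sets contained in `{z}` being exempted -/
structure Rz (G : SimpleGraph V) (D A B : Finset V) (z : V) : Prop where
  ne : ∃ v ∈ D, v ≠ z
  r1 : ∀ C ⊆ D, (∃ v ∈ C, v ≠ z) → bd G D C = ∅ → adjS G C A ∧ adjS G C B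
  r2 : ∀ C ⊆ D, (∃ v ∈ C, v ≠ z) → (bd G D C).card ≤ 1 → adjS G C A ∨ adjS G C B

/-- hypotheses of Theorem A+ -/
structure Good (G : SimpleGraph V) (m : ℕ) (D A B : Finset V) (z : V) : Prop where
  m1 : 1 ≤ m
  sys : Sys D A B
  rz : Rz G D A B z
  deg : ∀ v ∈ D, v ≠ z → m + 1 ≤ ds G D A B v
  e2 : m = 2 → R0 G D A B ∨ 2 ≤ (D.erase z).card

/-- Theorem A+ for interiors with `N` vertices -/
def AplusAt (G : SimpleGraph V) (N : ℕ) : Prop :=
  ∀ (m : ℕ) (D A B : Finset V) (z : V), D.card = N → Good G m D A B z → Adm G m D A B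

/-- all lengths `p0 + j*e`, `j < p`, occur as lengths of paths inside `F` from any vertex of `R1` to any vertex of `R2` -/
def Links (G : SimpleGraph V) (F R1 R2 : Finset V) (p0 p e : ℕ) : Prop :=
  ∀ r1 ∈ R1, ∀ r2 ∈ R2, ∀ j < p, PL G F r1 r2 (p0 + j * e)

/-- the block `B` with exceptional vertex `c` (Part 2 of the notes) -/
structure Blk (G : SimpleGraph V) (k : ℕ) (B : Finset V) (c : V) : Prop where
  ne : ∃ v ∈ B, v ≠ c
  deg : ∀ v ∈ B, v ≠ c → k ≤ (nb G v B).card
  b3 : ∀ C ⊆ B, C.Nonempty → ∀ w, w ∉ C → bd G B C ⊆ {w} → B.erase w ⊆ C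

/-- `sep(j)`: a set `C ⊆ B \ S`, not contained in `{c}`, with boundary (in `B`) contained in a set `S` of at most `j`
vertices leaves nothing of `B \ S` except possibly `c` -/
def Sep (G : SimpleGraph V) (B : Finset V) (c : V) (j : ℕ) : Prop :=
  ∀ S C : Finset V, S.card ≤ j → C ⊆ B \ S → (∃ v ∈ C, v ≠ c) → bd G B C ⊆ S → B \ (C ∪ S) ⊆ {c}

end Pool.Agent.Lib.MP_f599e5_co
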