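import Pool.Agent.Lib.MP_f599e5_co.E4d

set_option autoImplicit false
set_option linter.unusedSectionVars false

/-! # JOB E4A: arithmetic of a K4-subdivision, `k = 4`

The segments of the K4-subdivision: `a, a'` (path 0), `b, b'` (path 1), `d` (path 2), `q` (ear).  Triangles `T1 = a+a'+d`, `T2 = b+b'+d`, `T3 = a+b+q`, `T4 = a'+b'+q`; their sum is even; `nb` says that `T1` or `T2`
is odd.  `m1`: `T3` or `T4` odd → `d ≤ q`;  `m2`: `T2` or `T4` odd → `a ≤ q`;  `m3`: `T2` or `T3` odd → `a' ≤ q`;  `m4`: `T1` or `T4` odd → `b ≤ q`;  `m5`: `T1` or `T3` odd → `b' ≤ q`.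
All four odd: all segments `≤ q`, so `q = 2`, all triangles have length 5, `a+b = a'+b' = 3`, `d = 2`, and `c6` or `c7` is a cycle of length 8.
Two odd (5 cases `T1T2, T1T3, T1T4, T2T3, T2T4`): the two even triangles have length `≥ 6` and all their segments are `≤ q ≤ 2`, so these five segments are `2`, and there is a cycle of length 8.
ATTENTION: a single `omega` on everything runs forever; split by the parities first, derive the bounds and the values `= 2` step by step, `clear` what is not needed. -/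

namespace Pool.Agent.Lib.MP_f599e5_co

theorem E4A_n1 {a a' b b' d q : ℕ} (m1 : NB q (a + b) (a' + b') → d ≤ q)
    (h : (a + b + q) % 2 = 1 ∨ (a' + b' + q) % 2 = 1) : d ≤ q :=
  m1 (by clear m1; unfold NB; omega)
theorem E4A_n2 {a a' b b' d q : ℕ} (m2 : NB b' (q + a') (b + d) → a ≤ q)
    (h : (b + b' + d) % 2 = 1 ∨ (a' + b' + q) % 2 = 1) : a ≤ q :=
  m2 (by clear m2; unfold NB; omega)
theorem E4A_n3 {a a' b b' d q : ℕ} (m3 : NB b (q + a) (b' + d) → a' ≤ q)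
    (h : (b + b' + d) % 2 = 1 ∨ (a + b + q) % 2 = 1) : a' ≤ q :=
  m3 (by clear m3; unfold NB; omega)
theorem E4A_n4 {a a' b b' d q : ℕ} (m4 : NB a' (q + b') (a + d) → b ≤ q)
    (h : (a + a' + d) % 2 = 1 ∨ (a' + b' + q) % 2 = 1) : b ≤ q :=
  m4 (by clear m4; unfold NB; omega)
theorem E4A_n5 {a a' b b' d q : ℕ} (m5 : NB a (q + b) (a' + d) → b' ≤ q)
    (h : (a + a' + d) % 2 = 1 ∨ (a + b + q) % 2 = 1) : b' ≤ q :=
  m5 (by clear m5; unfold NB; omega)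

/-- three numbers at most 2 with even sum at least 5 are all equal to 2 -/
theorem E4A_even {x y z q : ℕ} (hq : q ≤ 2) (hx : x ≤ q) (hy : y ≤ q) (hz : z ≤ q)
    (h5 : 5 ≤ x + y + z) (he : (x + y + z) % 2 = 0) : x = 2 ∧ y = 2 ∧ z = 2 := by omega

theorem E4A_all {a a' b b' d q : ℕ} (h1 : 1 ≤ a) (h2 : 1 ≤ a') (h3 : 1 ≤ b) (h4 : 1 ≤ b') (h5 : 1 ≤ d)
    (hq1 : 1 ≤ q) (hq : q ≤ 2) (k1 : d ≤ q) (k2 : a ≤ q) (k3 : a' ≤ q) (k4 : b ≤ q) (k5 : b' ≤ q)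
    (p1 : (a + a' + d) % 2 = 1) (p2 : (b + b' + d) % 2 = 1) (p3 : (a + b + q) % 2 = 1)
    (p4 : (a' + b' + q) % 2 = 1) (c2 : 5 ≤ (a + a') + d) (c3 : 5 ≤ (b + b') + d) (c4 : 5 ≤ q + (a + b))
    (c5 : 5 ≤ q + (a' + b')) (d6 : ((q + a') + (b + d)) % 4 ≠ 0) (d7 : ((q + a) + (b' + d)) % 4 ≠ 0) :
    False := by
  have e0 : q = 2 := by clear d6 d7; omega
  subst e0
  have e1 : a + b = 3 := by clear d6 d7; omega
  have e2 : a' + b' = 3 := by clear d6 d7; omega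
  have e3 : a + a' + d = 5 := by clear d6 d7; omega
  have e4 : b + b' + d = 5 := by clear d6 d7; omega
  have e5 : d = 2 := by clear d6 d7; omega
  have e6 : a = 1 ∨ a = 2 := by clear d6 d7; omega
  rcases e6 with e6 | e6
  · have e7 : (2 + a') + (b + d) = 8 := by clear d6 d7; omega
    rw [e7] at d6; exact d6 rfl
  · have e7 : (2 + a) + (b' + d) = 8 := by clear d6 d7; omega
    rw [e7] at d7; exact d7 rfl

theorem E4A_par {a a' b b' d q : ℕ} (p1 : (a + a' + d) % 2 = 1 ∨ (b + b' + d) % 2 = 1) :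
    ((a + a' + d) % 2 = 1 ∧ (b + b' + d) % 2 = 1 ∧ (a + b + q) % 2 = 1 ∧ (a' + b' + q) % 2 = 1) ∨
    ((a + a' + d) % 2 = 1 ∧ (b + b' + d) % 2 = 1 ∧ (a + b + q) % 2 = 0 ∧ (a' + b' + q) % 2 = 0) ∨
    ((a + a' + d) % 2 = 1 ∧ (b + b' + d) % 2 = 0 ∧ (a + b + q) % 2 = 1 ∧ (a' + b' + q) % 2 = 0) ∨
    ((a + a' + d) % 2 = 1 ∧ (b + b' + d) % 2 = 0 ∧ (a + b + q) % 2 = 0 ∧ (a' + b' + q) % 2 = 1) ∨
    ((a + a' + d) % 2 = 0 ∧ (b + b' + d) % 2 = 1 ∧ (a + b + q) % 2 = 1 ∧ (a' + b' + q) % 2 = 0) ∨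
    ((a + a' + d) % 2 = 0 ∧ (b + b' + d) % 2 = 1 ∧ (a + b + q) % 2 = 0 ∧ (a' + b' + q) % 2 = 1) := by
  have hs : ((a + a' + d) + (b + b' + d) + (a + b + q) + (a' + b' + q)) % 2 = 0 := by omega
  generalize (a + a' + d) = t1 at *
  generalize (b + b' + d) = t2 at *
  generalize (a + b + q) = t3 at *
  generalize (a' + b' + q) = t4 at *
  rcases Nat.mod_two_eq_zero_or_one t1 with e1 | e1 <;> rcases Nat.mod_two_eq_zero_or_one t2 with e2 | e2 <;>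
    rcases Nat.mod_two_eq_zero_or_one t3 with e3 | e3 <;> rcases Nat.mod_two_eq_zero_or_one t4 with e4 | e4 <;>
    first
    | exact absurd hs (by clear p1; omega)
    | exact absurd p1 (by clear hs; omega)
    | exact Or.inl ⟨e1, e2, e3, e4⟩
    | exact Or.inr (Or.inl ⟨e1, e2, e3, e4⟩)
    | exact Or.inr (Or.inr (Or.inl ⟨e1, e2, e3, e4⟩))
    | exact Or.inr (Or.inr (Or.inr (Or.inl ⟨e1, e2, e3, e4⟩)))
    | exact Or.inr (Or.inr (Or.inr (Or.inr (Or.inl ⟨e1, e2, e3, e4⟩))))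
    | exact Or.inr (Or.inr (Or.inr (Or.inr (Or.inr ⟨e1, e2, e3, e4⟩))))

theorem e4_cross_aux {a a' b b' d q : ℕ} (h1 : 1 ≤ a) (h2 : 1 ≤ a') (h3 : 1 ≤ b) (h4 : 1 ≤ b') (h5 : 1 ≤ d)
    (hq1 : 1 ≤ q) (hq : q ≤ 2) (nb : NB (a + a') (b + b') d)
    (c1 : 5 ≤ (a + a') + (b + b') ∧ ((a + a') + (b + b')) % 4 ≠ 0)
    (c2 : 5 ≤ (a + a') + d ∧ ((a + a') + d) % 4 ≠ 0)
    (c3 : 5 ≤ (b + b') + d ∧ ((b + b') + d) % 4 ≠ 0)
    (c4 : 5 ≤ q + (a + b) ∧ (q + (a + b)) % 4 ≠ 0)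
    (c5 : 5 ≤ q + (a' + b') ∧ (q + (a' + b')) % 4 ≠ 0)
    (c6 : 5 ≤ (q + a') + (b + d) ∧ ((q + a') + (b + d)) % 4 ≠ 0)
    (c7 : 5 ≤ (q + a) + (b' + d) ∧ ((q + a) + (b' + d)) % 4 ≠ 0)
    (m1 : NB q (a + b) (a' + b') → d ≤ q)
    (m2 : NB b' (q + a') (b + d) → a ≤ q)
    (m3 : NB b (q + a) (b' + d) → a' ≤ q)
    (m4 : NB a' (q + b') (a + d) → b ≤ q)
    (m5 : NB a (q + b) (a' + d) → b' ≤ q) : False := by
  have n0 : (a + a' + d) % 2 = 1 ∨ (b + b' + d) % 2 = 1 := by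
    clear m1 m2 m3 m4 m5 c1 c2 c3 c4 c5 c6 c7
    unfold NB at nb; omega
  have n1 := E4A_n1 m1
  have n2 := E4A_n2 m2
  have n3 := E4A_n3 m3
  have n4 := E4A_n4 m4
  have n5 := E4A_n5 m5
  obtain ⟨c1, d1⟩ := c1
  obtain ⟨c2, -⟩ := c2
  obtain ⟨c3, -⟩ := c3
  obtain ⟨c4, -⟩ := c4
  obtain ⟨c5, -⟩ := c5
  obtain ⟨-, d6⟩ := c6
  obtain ⟨-, d7⟩ := c7
  have c4' : 5 ≤ a + b + q := by rw [add_comm]; exact c4
  have c5' : 5 ≤ a' + b' + q := by rw [add_comm]; exact c5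
  rcases E4A_par (q := q) n0 with ⟨p1, p2, p3, p4⟩ | ⟨p1, p2, p3, p4⟩ | ⟨p1, p2, p3, p4⟩ | ⟨p1, p2, p3, p4⟩ |
    ⟨p1, p2, p3, p4⟩ | ⟨p1, p2, p3, p4⟩
  · exact E4A_all h1 h2 h3 h4 h5 hq1 hq (n1 (Or.inl p3)) (n2 (Or.inl p2)) (n3 (Or.inl p2)) (n4 (Or.inl p1))
      (n5 (Or.inl p1)) p1 p2 p3 p4 c2 c3 c4 c5 d6 d7
  · -- T3, T4 even
    obtain ⟨e1, e2, e3⟩ := E4A_even hq (n2 (Or.inl p2)) (n4 (Or.inl p1)) le_rfl c4' p3
    obtain ⟨e4, e5, -⟩ := E4A_even hq (n3 (Or.inl p2)) (n5 (Or.inl p1)) le_rfl c5' p4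
    rw [e1, e2, e4, e5] at d1
    exact d1 rfl
  · -- T2, T4 even
    obtain ⟨e1, e2, e3⟩ := E4A_even hq (n4 (Or.inl p1)) (n5 (Or.inl p1)) (n1 (Or.inl p3)) c3 p2
    obtain ⟨e4, e5, e6⟩ := E4A_even hq (n3 (Or.inr p3)) (n5 (Or.inl p1)) le_rfl c5' p4
    rw [e1, e3, e4, e6] at d6
    exact d6 rfl
  · -- T2, T3 even
    obtain ⟨e1, e2, e3⟩ := E4A_even hq (n4 (Or.inl p1)) (n5 (Or.inl p1)) (n1 (Or.inr p4)) c3 p2
    obtain ⟨e4, e5, e6⟩ := E4A_even hq (n2 (Or.inr p4)) (n4 (Or.inl p1)) le_rfl c4' p3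
    rw [e2, e3, e4, e6] at d7
    exact d7 rfl
  · -- T1, T4 even
    obtain ⟨e1, e2, e3⟩ := E4A_even hq (n2 (Or.inl p2)) (n3 (Or.inl p2)) (n1 (Or.inl p3)) c2 p1
    obtain ⟨e4, e5, e6⟩ := E4A_even hq (n3 (Or.inl p2)) (n5 (Or.inr p3)) le_rfl c5' p4
    rw [e1, e3, e5, e6] at d7
    exact d7 rfl
  · -- T1, T3 even
    obtain ⟨e1, e2, e3⟩ := E4A_even hq (n2 (Or.inl p2)) (n3 (Or.inl p2)) (n1 (Or.inr p4)) c2 p1
    obtain ⟨e4, e5, e6⟩ := E4A_even hq (n2 (Or.inl p2)) (n4 (Or.inr p4)) le_rfl c4' p3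
    rw [e2, e3, e5, e6] at d6
    exact d6 rfl

end Pool.Agent.Lib.MP_f599e5_co
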