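import Pool.Agent.Lib.MP_f599e5_co.E4d

set_option autoImplicit false
set_option linter.unusedSectionVars false

/-! # JOB E4B: a non-bipartite theta in `B`; one with minimum total length

* `Blk.exists_comp_adj`: `(nb G x B).card = (nb G x F).card + (nb G x (B \ F)).card`, so `x` has at least 2 neighbours in `B \ F`, one of them, `v`, is `≠ c`; take the component of `B \ F` containing `v`
  (`exists_comp`, B3).  (Like `Blk.exists_comp` in K5A.)
* `Blk.theta4`: `Blk.exists_short` (EN, `h = 2`): `f, g, hS : Short G B f g`, `F0 = cycV f g`.  One of `f 0`, `f 1` is `≠ c`; call it `x = f i`.  `(nb G x F0).card ≤ 2`: `nb G x F0 ⊆ {f (i+1), f (i-1)}`: a neighbour is `f (i + a)`,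
  `a < g` (`Cyc.exists_idx`), `a ≠ 0`, and `a = 1` or `a = g - 1` by `Short.ind` (`f (i + (g-1)) = f (i - 1)` by `per`).  `Blk.exists_comp_adj`: a component `D` of `B \ F0` (nonempty).  `Blk.two_le_bd` (K2) for `C = D` (two vertices
  `f 0 ≠ f 1` of `F0` are not in `D`): `2 ≤ (bd G B D).card`, so there are `y ≠ z` in `F0` (`mem_bd_comp`) with neighbours `u1, u2 ∈ D`.  Path `u1 .. u2` in `D` (`Conn.path`, length `n`), `PL.cons`, `PL.snoc`:
  `PL G (insert z (insert y D)) y z (n + 1 + 1)`; `PL.toPX`: `T`, `PX G T y z (n+2)`.  `y = f i`, `z = f (i + a)`, `0 < a < g` (`exists_idx`, `y = f j` with `j` natural).  The two arcs as exact paths: `Cyc.pf` and `PF.toPX` (ThD/Th1A):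
  `cseg (fun j => f (i + j)) 0 a` from `y` to `z`, length `a`; `cseg (fun j => f (i + a + j)) 0 (g - a)` from `z` to `f (i + a + (g - a)) = y`, length `g - a` (`per`; push_cast), `PX.symm`.
  (if `g - a = g`, i.e. `a = 0`, excluded; `Cyc.pf` needs `a < g`, `g - a < g`.)  The arcs meet only in `y, z` (`Cyc.inj`: `g ∣ j - (a + j')`, `0 ≤ j ≤ a`, `0 ≤ j' ≤ g - a`), `T` meets them only in `y, z` (`D` is disjoint from `F0`).
  `ThL.mk` (Th2A): `ThL G _ a (g - a) (n + 2)`; sums `≥ 3` (`g ≥ 5`, `n + 2 ≥ 2`, `a ≥ 1`).  `NB a (g-a) (n+2)`: `a + (g - a) = g` is odd (`Short.odd`).  The vertex set is in `B`.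
* `Blk.minT4`: `Nat.find` for the total length (`m0 + m1 + m2 = N`); then permute (`MinT.swap01`, `MinT.swap12`) such that the first two lengths have the same parity (two of three parities agree) and the third one is
  different (by `NB`). -/

namespace Pool.Agent.Lib.MP_f599e5_co

open Finset

variable {V : Type} [DecidableEq V] {G : SimpleGraph V}

theorem Blk.exists_comp_adj {B F : Finset V} {c x : V} (hB : Blk G 4 B c) (hF : F ⊆ B) (hx : x ∈ F)
    (hxc : x ≠ c) (hn : (nb G x F).card ≤ 2) :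
    ∃ D, IsComp G (B \ F) D ∧ ∃ v ∈ D, v ≠ c ∧ G.Adj v x := by
  have h1 := hB.deg x (hF hx) hxc
  have h2 : (nb G x (F ∪ (B \ F))).card = (nb G x F).card + (nb G x (B \ F)).card :=
    nb_card_union disjoint_sdiff
  rw [union_sdiff_of_subset hF] at h2
  have h3 : 1 < (nb G x (B \ F)).card := by omega
  obtain ⟨y, hy, hyc⟩ := exists_mem_ne h3 c
  obtain ⟨D, hyD, hD⟩ := Pool.Agent.Lib.MP_f599e5_co.exists_comp (G := G) (mem_nb.1 hy).1
  exact ⟨D, hD, y, hyD, hyc, (mem_nb.1 hy).2.symm⟩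

theorem Blk.theta4 {B : Finset V} {c : V} (hB : Blk G 4 B c) (hz : ¬ ZC 4 G) :
    ∃ F l0 l1 l2, F ⊆ B ∧ ThL G F l0 l1 l2 ∧ NB l0 l1 l2 := by
  obtain ⟨f, g, hS⟩ := hB.exists_short (h := 2) le_rfl hz
  have hC := hS.cyc
  have hg5 := hS.g5
  have hF0 := hS.sub
  have h01 : f 0 ≠ f 1 := hC.ne 0 (a := 1) (by norm_num) (by omega)
  obtain ⟨i0, hi0⟩ : ∃ i0 : ℤ, f i0 ≠ c := by
    by_cases h : f 0 = c
    · exact ⟨1, fun h1 => h01 (h.trans h1.symm)⟩
    · exact ⟨0, h⟩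
  have hnb : (nb G (f i0) (cycV f g)).card ≤ 2 := by
    refine le_trans (card_le_card (t := {f (i0 + 1), f (i0 - 1)}) ?_) card_le_two
    intro y hy
    obtain ⟨hyF, hya⟩ := mem_nb.1 hy
    obtain ⟨a, ha, rfl⟩ := hC.exists_idx hyF i0
    rw [mem_insert, mem_singleton]
    rcases Nat.lt_or_ge a 2 with h2 | h2
    · have h3 : a = 0 ∨ a = 1 := by omega
      rcases h3 with rfl | rfl
      · exfalso
        simp at hya
      · left; simp
    · rcases Nat.lt_or_ge g (a + 2) with h3 | h3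
      · right
        have h4 : a + 1 = g := by omega
        apply hC.congr
        refine ⟨1, ?_⟩
        have : (g : ℤ) = a + 1 := by exact_mod_cast h4.symm
        rw [this]; ring
      · exact absurd hya (hS.ind i0 a h2 h3)
  obtain ⟨D, hD, v0, hv0, -, -⟩ := hB.exists_comp_adj hF0 (hC.mem i0) hi0 hnb
  have hDB : D ⊆ B := fun x hx => (mem_sdiff.1 (hD.1 hx)).1
  have hDF : ∀ x ∈ D, x ∉ cycV f g := fun x hx => (mem_sdiff.1 (hD.1 hx)).2
  have hbd : 2 ≤ (bd G B D).card :=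
    hB.two_le_bd hDB ⟨v0, hv0⟩ (hF0 (hC.mem 0)) (hF0 (hC.mem 1)) (fun h => hDF _ h (hC.mem 0))
      (fun h => hDF _ h (hC.mem 1)) h01
  obtain ⟨y, hy, z, hz', hyz⟩ := Finset.one_lt_card.1 hbd
  obtain ⟨hyF, u1, hu1, hu1y⟩ := (mem_bd_comp hF0 hD).1 hy
  obtain ⟨hzF, u2, hu2, hu2z⟩ := (mem_bd_comp hF0 hD).1 hz'
  obtain ⟨n, hn⟩ := hD.2.2.path hu1 hu2
  have hyD : y ∉ D := fun h => hDF _ h hyF
  have hzD : z ∉ D := fun h => hDF _ h hzF
  have hp1 := PL.cons hu1y.symm hn hyD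
  have hp2 := hp1.snoc hu2z (by
    rw [mem_insert, not_or]
    exact ⟨hyz.symm, hzD⟩)
  obtain ⟨T, hT, hPT⟩ := hp2.toPX
  obtain ⟨i, hi, rfl⟩ := hC.exists_idx hyF 0
  obtain ⟨a, ha, rfl⟩ := hC.exists_idx hzF (0 + (i : ℤ))
  generalize (0 + (i : ℤ)) = j0 at *
  have ha0 : 0 < a := by
    rcases Nat.eq_zero_or_pos a with h | h
    · subst h; exfalso; apply hyz; simp
    · exact h
  have hX0 := (hC.pf j0 ha).toPX (Nat.zero_le a) le_rfl
  have hX1 := (hC.pf (j0 + a) (a := g - a) (by omega)).toPX (Nat.zero_le (g - a)) le_rfl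
  have he1 : f (j0 + a + ((g - a : ℕ) : ℤ)) = f j0 := by
    apply hC.congr
    refine ⟨1, ?_⟩
    have : ((g - a : ℕ) : ℤ) = g - a := by
      rw [Nat.cast_sub ha.le]
    rw [this]; ring
  have he0 : f (j0 + ((0 : ℕ) : ℤ)) = f j0 := by simp
  have he2 : f (j0 + a + ((0 : ℕ) : ℤ)) = f (j0 + a) := by simp
  simp only [Nat.sub_zero] at hX0 hX1
  rw [he0] at hX0
  rw [he1, he2] at hX1
  have hX1' := hX1.symm
  have hTF : ∀ x ∈ T, x ∈ cycV f g → x = f j0 ∨ x = f (j0 + a) := by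
    intro x hx hxF
    have := hT hx
    rw [mem_insert, mem_insert] at this
    rcases this with h | h | h
    · exact Or.inr h
    · exact Or.inl h
    · exact absurd hxF (hDF x h)
  have hseg : ∀ (j : ℤ) (k : ℕ) (x : V), x ∈ cseg (fun j' : ℕ => f (j + j')) 0 k → x ∈ cycV f g := by
    intro j k x hx
    obtain ⟨t, -, -, rfl⟩ := mem_cseg.1 hx
    exact hC.mem _
  have hodd : g % 2 = 1 := Nat.odd_iff.1 hS.odd
  refine ⟨_, a, g - a, n + 1 + 1, ?_, ThL.mk hyz hX0 hX1' hPT ?_ ?_ ?_ (by omega) (by omega) (by omega), ?_⟩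
  · intro x hx
    rcases mem_union.1 hx with hx | hx
    · rcases mem_union.1 hx with hx | hx
      · exact hF0 (hseg _ _ _ hx)
      · exact hF0 (hseg _ _ _ hx)
    · have := hT hx
      rw [mem_insert, mem_insert] at this
      rcases this with h | h | h
      · rw [h]; exact hF0 hzF
      · rw [h]; exact hF0 hyF
      · exact hDB h
  · intro x hx hx'
    obtain ⟨s, -, hs, rfl⟩ := mem_cseg.1 hx
    obtain ⟨t, -, ht, hst⟩ := mem_cseg.1 hx'
    have hd := hC.inj _ _ hst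
    obtain ⟨k, hk⟩ := hd
    have h1 : (a : ℤ) + t - s = g * k := by linarith
    have ha' : (a : ℤ) < g := by exact_mod_cast ha
    have hs' : (s : ℤ) ≤ a := by exact_mod_cast hs
    have ht' : (t : ℤ) ≤ g - a := by
      have := (Nat.cast_le (α := ℤ)).2 ht
      rwa [Nat.cast_sub ha.le] at this
    have hs0 : (0 : ℤ) ≤ s := by positivity
    have ht0 : (0 : ℤ) ≤ t := by positivity
    have hg0 : (0 : ℤ) < g := by omega
    have hk0 : 0 ≤ k := by
      by_contra hneg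
      rw [not_le] at hneg
      have : (g : ℤ) * k ≤ g * (-1) := mul_le_mul_of_nonneg_left (by omega) hg0.le
      linarith
    have hk1 : k ≤ 1 := by
      by_contra hneg
      rw [not_le] at hneg
      have : (g : ℤ) * 2 ≤ g * k := mul_le_mul_of_nonneg_left (by omega) hg0.le
      linarith
    have hk2 : k = 0 ∨ k = 1 := by omega
    rcases hk2 with rfl | rfl
    · right
      have : (s : ℤ) = a := by linarith
      have h5 : s = a := by exact_mod_cast this
      show f (j0 + s) = f (j0 + a)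
      rw [h5]
    · left
      have : (s : ℤ) = 0 := by linarith
      have h5 : s = 0 := by exact_mod_cast this
      show f (j0 + s) = f j0
      rw [h5]; simp
  · intro x hx hx'
    exact hTF x hx' (hseg _ _ _ hx)
  · intro x hx hx'
    exact hTF x hx' (hseg _ _ _ hx)
  · unfold NB
    omega

theorem Blk.minT4 {B : Finset V} {c : V} (hB : Blk G 4 B c) (hz : ¬ ZC 4 G) :
    ∃ F f0 f1 f2 l0 l1 l2, MinT G B F f0 f1 f2 l0 l1 l2 ∧ l0 % 2 = l1 % 2 ∧ l2 % 2 ≠ l0 % 2 := by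
  classical
  have hex : ∃ N, ∃ F l0 l1 l2, F ⊆ B ∧ ThL G F l0 l1 l2 ∧ NB l0 l1 l2 ∧ l0 + l1 + l2 = N := by
    obtain ⟨F, l0, l1, l2, h1, h2, h3⟩ := hB.theta4 hz
    exact ⟨_, F, l0, l1, l2, h1, h2, h3, rfl⟩
  obtain ⟨F, l0, l1, l2, hF, ⟨f0, f1, f2, hT⟩, hNB, hN⟩ := Nat.find_spec hex
  have hM : MinT G B F f0 f1 f2 l0 l1 l2 := by
    refine ⟨hT, hF, hNB, ?_⟩
    intro F' m0 m1 m2 h1 h2 h3
    rw [hN]
    exact Nat.find_min' hex ⟨F', m0, m1, m2, h2, h1, h3, rfl⟩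
  have hcases : (l0 % 2 = l1 % 2 ∧ l2 % 2 ≠ l0 % 2) ∨ (l0 % 2 = l2 % 2 ∧ l1 % 2 ≠ l0 % 2) ∨
      (l1 % 2 = l2 % 2 ∧ l0 % 2 ≠ l1 % 2) := by
    unfold NB at hNB; omega
  rcases hcases with h | h | h
  · exact ⟨F, f0, f1, f2, l0, l1, l2, hM, h⟩
  · exact ⟨F, f0, f2, f1, l0, l2, l1, hM.swap12, h⟩
  · exact ⟨F, f1, f2, f0, l1, l2, l0, hM.swap01.swap12, h⟩

end Pool.Agent.Lib.MP_f599e5_co
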