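import Pool.Agent.Lib.MP_f599e5_co.E4A

set_option autoImplicit false
set_option linter.unusedSectionVars false

/-! # JOB E4C: a minimal non-bipartite theta has no short ears

* `MinT.same`: `n = b - a`.  `PL.cycle` with the segment (`PF.toPL`/`PF.toPX` for `f0` from `a` to `b`, in `F`) and `Q`: a cycle of length `n + q` in `B`, so `5 ≤ n + q` and `n > q`.
  `ear_replace` (Th3A): `ThL G _ (l0 - n + q) l1 l2` in `B` (vertex set `(F \ ..) ∪ Q`), total smaller: by `min` it is not `NB`; with `NB l0 l1 l2` this gives `(n + q) % 2 = 1` (omega).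
  `ear_delete`: `ThL G _ q n (l0 - n + l1)` is `NB`, so `l2 ≤ q`.  The same for `h.swap12` (same functions `f0`): `l1 ≤ q`.  But `5 ≤ l1 + l2` (`ThL.cy4`), `q ≤ 2`.
* `MinT.cross`: write `l0 = a + a'`, `l1 = b + b'`.  `1 ≤ q` (`PL.pos`: the ends are different by `d01`).  The five thetas: `cross_del2` (`q, a+b, (l0-a)+(l1-b)`), `cross_del_s0` (`l1-b, q+(l0-a), b+l2`), `cross_del_t0` (`b, q+a, (l1-b)+l2`),
  `cross_del_s1` (`l0-a, q+(l1-b), a+l2`), `cross_del_t1` (`a, q+b, (l0-a)+l2`), all in `B`; the cycle lengths come from `ThL.cy4`; the implications from `min` (compare totals).  `e4_cross_aux` (E4A). -/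

namespace Pool.Agent.Lib.MP_f599e5_co

open Finset

variable {V : Type} [DecidableEq V] {G : SimpleGraph V}

private theorem E4C_sub {B F S Q : Finset V} (hF : F ⊆ B) (hQ : Q ⊆ B) : (F \ S) ∪ Q ⊆ B :=
  union_subset (sdiff_subset.trans hF) hQ

theorem MinT.same {B F : Finset V} {f0 f1 f2 : ℕ → V} {l0 l1 l2 : ℕ} (hc : Cy4 G B)
    (h : MinT G B F f0 f1 f2 l0 l1 l2) {a b q : ℕ} (hab : a < b) (hb : b ≤ l0) {Q : Finset V}
    (hQ : PX G Q (f0 a) (f0 b) q) (hQB : Q ⊆ B) (hQF : ∀ x ∈ Q, x ∈ F → x = f0 a ∨ x = f0 b) (hq : q ≤ 2)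
    (h3 : 3 ≤ (b - a) + q) (h4 : 2 ≤ l0 - (b - a) + q) : False := by
  have hseg : cseg f0 a b ⊆ F := by
    intro x hx
    obtain ⟨i, _, hi, rfl⟩ := mem_cseg.1 hx
    rw [h.th.cov, mem_union, mem_union]
    exact Or.inl (Or.inl (mem_cseg.2 ⟨i, Nat.zero_le i, by omega, rfl⟩))
  have hcyc : CycS G (cseg f0 a b ∪ Q) (b - a + q) := by
    refine PL.cycle (h.th.p0.toPX hab.le hb).1 hQ.1 (fun x hx hx' => hQF x hx' (hseg hx)) ?_ h3
    intro he
    have := h.th.p0.inj a b (by omega) hb he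
    omega
  have h5 := (hc _ (hcyc.mono (union_subset (hseg.trans h.sub) hQB))).1
  have hp1 := h.th.pos1
  have hp2 := h.th.pos2
  have hrep := h.th.ear_replace hab hb hQ hQF (by omega) (by omega)
  have hdel := h.th.ear_delete hab hb hQ hQF h3 (by omega)
  have hdel' := h.swap12.th.ear_delete hab hb hQ hQF h3 (by omega)
  have hcy := ThL.cy4 hc ⟨_, _, _, h.th⟩ h.sub
  have hnb := h.nbp
  have k1 : ¬ NB (l0 - (b - a) + q) l1 l2 := by
    intro hN
    have := h.min _ _ _ _ hrep (E4C_sub h.sub hQB) hN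
    omega
  have k2 : NB q (b - a) (l0 - (b - a) + l1) := by
    unfold NB at hnb k1 ⊢
    omega
  have k3 : NB q (b - a) (l0 - (b - a) + l2) := by
    unfold NB at hnb k1 ⊢
    omega
  have k4 := h.min _ _ _ _ hdel (E4C_sub h.sub hQB) k2
  have k5 := h.min _ _ _ _ hdel' (E4C_sub h.sub hQB) k3
  have k6 := hcy.2.2.1
  clear k1 k2 k3 hnb hcy
  omega

theorem MinT.cross {B F : Finset V} {f0 f1 f2 : ℕ → V} {l0 l1 l2 : ℕ} (hc : Cy4 G B)
    (h : MinT G B F f0 f1 f2 l0 l1 l2) {a b q : ℕ} (ha0 : 0 < a) (ha : a < l0) (hb0 : 0 < b) (hb : b < l1)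
    {Q : Finset V} (hQ : PX G Q (f0 a) (f1 b) q) (hQB : Q ⊆ B)
    (hQF : ∀ x ∈ Q, x ∈ F → x = f0 a ∨ x = f1 b) (hq : q ≤ 2) : False := by
  obtain ⟨a', rfl⟩ : ∃ a', l0 = a + a' := ⟨l0 - a, by omega⟩
  obtain ⟨b', rfl⟩ : ∃ b', l1 = b + b' := ⟨l1 - b, by omega⟩
  have ea : a + a' - a = a' := by omega
  have eb : b + b' - b = b' := by omega
  have hne : f0 a ≠ f1 b := by
    intro he
    rcases h.th.d01 a b ha.le hb.le he with ⟨h1, _⟩ | ⟨h1, _⟩ <;> omega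
  have hq1 : 1 ≤ q := hQ.1.pos hne
  have t2 := h.th.cross_del2 ha0 ha hb0 hb hQ hQF
  have s0 := h.th.cross_del_s0 ha0 ha hb0 hb hQ hQF
  have t0 := h.th.cross_del_t0 ha0 ha hb0 hb hQ hQF
  have s1 := h.th.cross_del_s1 ha0 ha hb0 hb hQ hQF
  have t1 := h.th.cross_del_t1 ha0 ha hb0 hb hQ hQF
  rw [ea, eb] at t2
  rw [ea, eb] at s0
  rw [eb] at t0
  rw [ea, eb] at s1
  rw [ea] at t1
  have c0 := ThL.cy4 hc ⟨_, _, _, h.th⟩ h.sub
  have c2 := ThL.cy4 hc t2 (E4C_sub h.sub hQB)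
  have cs := ThL.cy4 hc s0 (E4C_sub h.sub hQB)
  have ct := ThL.cy4 hc t0 (E4C_sub h.sub hQB)
  have m1 := h.min _ _ _ _ t2 (E4C_sub h.sub hQB)
  have m2 := h.min _ _ _ _ s0 (E4C_sub h.sub hQB)
  have m3 := h.min _ _ _ _ t0 (E4C_sub h.sub hQB)
  have m4 := h.min _ _ _ _ s1 (E4C_sub h.sub hQB)
  have m5 := h.min _ _ _ _ t1 (E4C_sub h.sub hQB)
  refine e4_cross_aux (a := a) (a' := a') (b := b) (b' := b') (d := l2) (q := q) ha0 (by omega) hb0
    (by omega) h.th.pos2 hq1 hq h.nbp c0.1 c0.2.1 c0.2.2 c2.1 c2.2.1 cs.2.2 ct.2.2 ?_ ?_ ?_ ?_ ?_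
  · intro hN
    have := m1 hN
    omega
  · intro hN
    have := m2 hN
    omega
  · intro hN
    have := m3 hN
    omega
  · intro hN
    have := m4 hN
    omega
  · intro hN
    have := m5 hN
    omega

end Pool.Agent.Lib.MP_f599e5_co
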