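import Pool.Agent.Lib.MP_f599e5_co.E4P

set_option autoImplicit false
set_option linter.unusedSectionVars false

/-! # JOB E4T: among three vertices, one of them inner vertex of one of the first two paths, two are joined by paths of three residues mod 4 (T4)

`pos3`: every vertex of `F` is `f0 b` (`b ≤ l0`) or an inner vertex `f1 b` (`0 < b < l1`) or an inner vertex `f2 b` (`0 < b < l2`) (`ThF.cases`, `s1, s2, t1, t2`).
`t4_pair` (one vertex `x = f0 a`, `0 < a < l0`, and `y ≠ x`): `Three G F x y` or `y = f0 b`, `b ≤ l0`, `(a + b) % 2 = 1`, or `l0` even, `y = f1 b`, `0 < b < l1`, `(a + b) % 2 = 1`, or `l0` even, `a` odd, `y = f2 b`, `0 < b < l2`.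
  By `pos3`: `y = f0 b`, `b ≠ a`, `a + b` even: `three_00` (order `a`, `b`; `Three.symm`); `f1 b`: `three_01`; `f2 b`: `three_02`.
`t4_0` (x inner vertex of path 0): apply `t4_pair` to `y` and `z`; in the remaining cases `Three G F y z`:
  * `f0 b, f0 b'`: `b ≠ b'`, difference even: `three_00`.
  * `f0 b, f1 b'` (`l0, l1` even; `b + b'` even): if `0 < b < l0`: `three_01`.  If `b = 0`: `y = f1 0`, `b'` even: `three_00` for `h.swap01` (positions `0 < b'`).  If `b = l0`: `y = f1 l1`, `b'` even, `l1` even: the same (positions `b' < l1`).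
  * `f0 b, f2 b'` (`l0` even, `a` odd, so `b` even): if `0 < b < l0`: `three_02`; if `b = 0` or `b = l0`: `y = f2 0` or `f2 l2`: `three_22`.
  * `f1 b, f1 b'`: difference even: `three_00` for `h.swap01`.
  * `f1 b, f2 b'`: `a` odd, `b` even: `three_02` for `h.swap01`.
  * `f2 b, f2 b'`: `three_22`.
  (and the symmetric ones, by `Three.symm`)
`t4`: `x` inner vertex of path 0 or of path 1 (`h.swap01`; `(l1 + l0) % 4 = 2`, `(l1 + l2) % 2 = 1`). -/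

namespace Pool.Agent.Lib.MP_f599e5_co

open Finset

variable {V : Type} [DecidableEq V] {G : SimpleGraph V}

private theorem e4t_pos3 {F : Finset V} {f0 f1 f2 : ℕ → V} {l0 l1 l2 : ℕ} (h : ThF G F f0 f1 f2 l0 l1 l2) {y : V}
    (hy : y ∈ F) : (∃ b, b ≤ l0 ∧ f0 b = y) ∨ (∃ b, 0 < b ∧ b < l1 ∧ f1 b = y) ∨
      (∃ b, 0 < b ∧ b < l2 ∧ f2 b = y) := by
  rcases h.cases hy with ⟨b, hb, h1⟩ | ⟨b, hb, h1⟩ | ⟨b, hb, h1⟩
  · exact Or.inl ⟨b, hb, h1⟩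
  · by_cases h2 : b = 0
    · subst h2
      exact Or.inl ⟨0, Nat.zero_le _, h.s1.symm.trans h1⟩
    · by_cases h3 : b = l1
      · subst h3
        exact Or.inl ⟨l0, le_rfl, h.t1.symm.trans h1⟩
      · exact Or.inr (Or.inl ⟨b, by omega, by omega, h1⟩)
  · by_cases h2 : b = 0
    · subst h2
      exact Or.inl ⟨0, Nat.zero_le _, h.s2.symm.trans h1⟩
    · by_cases h3 : b = l2
      · subst h3
        exact Or.inl ⟨l0, le_rfl, h.t2.symm.trans h1⟩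
      · exact Or.inr (Or.inr ⟨b, by omega, by omega, h1⟩)

private theorem e4t_00 {F : Finset V} {f0 f1 f2 : ℕ → V} {l0 l1 l2 : ℕ} (h : ThF G F f0 f1 f2 l0 l1 l2)
    (h01 : (l0 + l1) % 4 = 2) (h02 : (l0 + l2) % 2 = 1) {a b : ℕ} (ha : a ≤ l0) (hb : b ≤ l0) (hne : a ≠ b)
    (hp : (a + b) % 2 = 0) : Three G F (f0 a) (f0 b) := by
  rcases lt_or_gt_of_ne hne with h1 | h1
  · exact three_00 h h01 h02 h1 hb (by omega)
  · exact (three_00 h h01 h02 h1 ha (by omega)).symm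

private theorem e4t_22 {F : Finset V} {f0 f1 f2 : ℕ → V} {l0 l1 l2 : ℕ} (h : ThF G F f0 f1 f2 l0 l1 l2)
    (h01 : (l0 + l1) % 4 = 2) (h02 : (l0 + l2) % 2 = 1) {a b : ℕ} (ha : a ≤ l2) (hb : b ≤ l2) (hne : a ≠ b)
    (hp : l0 % 2 = 0) : Three G F (f2 a) (f2 b) := by
  rcases lt_or_gt_of_ne hne with h1 | h1
  · exact three_22 h h01 h02 h1 hb hp
  · exact (three_22 h h01 h02 h1 ha hp).symm

private theorem e4t_12 {F : Finset V} {f0 f1 f2 : ℕ → V} {l0 l1 l2 : ℕ} (h : ThF G F f0 f1 f2 l0 l1 l2)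
    (h01 : (l0 + l1) % 4 = 2) (h02 : (l0 + l2) % 2 = 1) {b b' : ℕ} (hb : b ≤ l0) (hb0' : 0 < b') (hb' : b' < l1)
    (hl : l0 % 2 = 0) (hp : (b + b') % 2 = 0) : Three G F (f0 b) (f1 b') := by
  by_cases h1 : b = 0
  · subst h1
    rw [← h.s1]
    exact e4t_00 h.swap01 (by omega) (by omega) (Nat.zero_le _) hb'.le (by omega) (by omega)
  · by_cases h2 : b = l0
    · subst h2
      rw [← h.t1]
      exact e4t_00 h.swap01 (by omega) (by omega) le_rfl hb'.le (by omega) (by omega)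
    · exact three_01 h h01 h02 (by omega) (by omega) hb0' hb' (Or.inr hp)

private theorem e4t_13 {F : Finset V} {f0 f1 f2 : ℕ → V} {l0 l1 l2 : ℕ} (h : ThF G F f0 f1 f2 l0 l1 l2)
    (h01 : (l0 + l1) % 4 = 2) (h02 : (l0 + l2) % 2 = 1) {b b' : ℕ} (hb : b ≤ l0) (hb0' : 0 < b') (hb' : b' < l2)
    (hl : l0 % 2 = 0) (hp : b % 2 = 0) : Three G F (f0 b) (f2 b') := by
  by_cases h1 : b = 0
  · subst h1
    rw [← h.s2]
    exact e4t_22 h h01 h02 (Nat.zero_le _) hb'.le (by omega) hl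
  · by_cases h2 : b = l0
    · subst h2
      rw [← h.t2]
      exact e4t_22 h h01 h02 le_rfl hb'.le (by omega) hl
    · exact three_02 h h01 h02 (by omega) (by omega) hb0' hb' (Or.inr hp)

theorem t4_pair {F : Finset V} {f0 f1 f2 : ℕ → V} {l0 l1 l2 : ℕ} (h : ThF G F f0 f1 f2 l0 l1 l2)
    (h01 : (l0 + l1) % 4 = 2) (h02 : (l0 + l2) % 2 = 1) {a : ℕ} (ha0 : 0 < a) (ha : a < l0) {y : V}
    (hy : y ∈ F) (hxy : f0 a ≠ y) :
    Three G F (f0 a) y ∨ (∃ b, b ≤ l0 ∧ f0 b = y ∧ (a + b) % 2 = 1) ∨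
      (l0 % 2 = 0 ∧ ∃ b, 0 < b ∧ b < l1 ∧ f1 b = y ∧ (a + b) % 2 = 1) ∨
      (l0 % 2 = 0 ∧ a % 2 = 1 ∧ ∃ b, 0 < b ∧ b < l2 ∧ f2 b = y) := by
  rcases e4t_pos3 h hy with ⟨b, hb, h1⟩ | ⟨b, hb0, hb, h1⟩ | ⟨b, hb0, hb, h1⟩
  · by_cases h2 : (a + b) % 2 = 1
    · exact Or.inr (Or.inl ⟨b, hb, h1, h2⟩)
    · left
      rw [← h1]
      refine e4t_00 h h01 h02 ha.le hb (fun h3 => hxy ?_) (by omega)
      rw [← h1, h3]
  · by_cases h2 : l0 % 2 = 1 ∨ (a + b) % 2 = 0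
    · left
      rw [← h1]
      exact three_01 h h01 h02 ha0 ha hb0 hb h2
    · exact Or.inr (Or.inr (Or.inl ⟨by omega, b, hb0, hb, h1, by omega⟩))
  · by_cases h2 : l0 % 2 = 1 ∨ a % 2 = 0
    · left
      rw [← h1]
      exact three_02 h h01 h02 ha0 ha hb0 hb h2
    · exact Or.inr (Or.inr (Or.inr ⟨by omega, by omega, b, hb0, hb, h1⟩))

theorem t4_0 {F : Finset V} {f0 f1 f2 : ℕ → V} {l0 l1 l2 : ℕ} (h : ThF G F f0 f1 f2 l0 l1 l2)
    (h01 : (l0 + l1) % 4 = 2) (h02 : (l0 + l2) % 2 = 1) {a : ℕ} (ha0 : 0 < a) (ha : a < l0) {y z : V}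
    (hy : y ∈ F) (hz : z ∈ F) (hxy : f0 a ≠ y) (hxz : f0 a ≠ z) (hyz : y ≠ z) :
    Three G F (f0 a) y ∨ Three G F (f0 a) z ∨ Three G F y z := by
  rcases t4_pair h h01 h02 ha0 ha hy hxy with h1 | ⟨b, hb, rfl, hbp⟩ | ⟨hl, b, hb0, hb, rfl, hbp⟩ |
    ⟨hl, hao, b, hb0, hb, rfl⟩
  · exact Or.inl h1
  · rcases t4_pair h h01 h02 ha0 ha hz hxz with h1 | ⟨b', hb', rfl, hbp'⟩ | ⟨hl', b', hb0', hb', rfl, hbp'⟩ |
      ⟨hl', hao', b', hb0', hb', rfl⟩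
    · exact Or.inr (Or.inl h1)
    · exact Or.inr (Or.inr (e4t_00 h h01 h02 hb hb' (fun h3 => hyz (by rw [h3])) (by omega)))
    · exact Or.inr (Or.inr (e4t_12 h h01 h02 hb hb0' hb' hl' (by omega)))
    · exact Or.inr (Or.inr (e4t_13 h h01 h02 hb hb0' hb' hl' (by omega)))
  · rcases t4_pair h h01 h02 ha0 ha hz hxz with h1 | ⟨b', hb', rfl, hbp'⟩ | ⟨hl', b', hb0', hb', rfl, hbp'⟩ |
      ⟨hl', hao', b', hb0', hb', rfl⟩
    · exact Or.inr (Or.inl h1)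
    · exact Or.inr (Or.inr (e4t_12 h h01 h02 hb' hb0 hb hl (by omega)).symm)
    · exact Or.inr (Or.inr (e4t_00 h.swap01 (by omega) (by omega) hb.le hb'.le (fun h3 => hyz (by rw [h3]))
        (by omega)))
    · exact Or.inr (Or.inr (three_02 h.swap01 (by omega) (by omega) hb0 hb hb0' hb' (Or.inr (by omega))))
  · rcases t4_pair h h01 h02 ha0 ha hz hxz with h1 | ⟨b', hb', rfl, hbp'⟩ | ⟨hl', b', hb0', hb', rfl, hbp'⟩ |
      ⟨hl', hao', b', hb0', hb', rfl⟩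
    · exact Or.inr (Or.inl h1)
    · exact Or.inr (Or.inr (e4t_13 h h01 h02 hb' hb0 hb hl (by omega)).symm)
    · exact Or.inr (Or.inr (three_02 h.swap01 (by omega) (by omega) hb0' hb' hb0 hb (Or.inr (by omega))).symm)
    · exact Or.inr (Or.inr (e4t_22 h h01 h02 hb.le hb'.le (fun h3 => hyz (by rw [h3])) hl))

theorem t4 {F : Finset V} {f0 f1 f2 : ℕ → V} {l0 l1 l2 : ℕ} (h : ThF G F f0 f1 f2 l0 l1 l2)
    (h01 : (l0 + l1) % 4 = 2) (h02 : (l0 + l2) % 2 = 1) {x y z : V} (hx : x ∈ seg f0 0 l0 ∪ seg f1 0 l1)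
    (hy : y ∈ F) (hz : z ∈ F) (hxy : x ≠ y) (hxz : x ≠ z) (hyz : y ≠ z) :
    Three G F x y ∨ Three G F x z ∨ Three G F y z := by
  rcases mem_union.1 hx with hx | hx
  · obtain ⟨a, h1, h2, rfl⟩ := mem_seg.1 hx
    exact t4_0 h h01 h02 h1 h2 hy hz hxy hxz hyz
  · obtain ⟨a, h1, h2, rfl⟩ := mem_seg.1 hx
    exact t4_0 h.swap01 (by omega) (by omega) h1 h2 hy hz hxy hxz hyz

end Pool.Agent.Lib.MP_f599e5_co
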