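import Pool.Agent.Lib.MP_f599e5_co.E4d

set_option autoImplicit false
set_option linter.unusedSectionVars false

/-! # JOB E4P: pairs of vertices of a theta joined by paths of three residues mod 4

`same_paths` (Th2C), `cross_paths` (Th2D); `h01`: `(l0 + l1) % 4 = 2`, `h02`: `(l0 + l2) % 2 = 1`.
* `th_both`: two different vertices of a theta which is `NB` are joined by paths in `F` of lengths of different parity: `ThF.two_pos`; same path: `n`, `m0 - n + m1`, `m0 - n + m2`: one of the sums `m0 + m1`, `m0 + m2` is odd (`NB`, `Perm3`);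
  cross: lengths `a + b`, `(m0-a)+(m1-b)`, `a + m2 + (m1-b)`: one of `m0 + m1`, `m1 + m2` is odd.  (use `PL.symm` when the order is reversed)
* `three_00`: `n = b - a` even: lengths `n`, `l0 - n + l1`, `l0 - n + l2`.
* `three_01`: lengths `a+b`, `(l0-a)+(l1-b)`, `a+l2+(l1-b)`, `(l0-a)+l2+b`.  If `a + b` is even: the first two and the third.  If `a + b` is odd (then `l0` odd): the first and the last two.
* `three_02`: `cross_paths` for `h.swap12`: lengths `a+b`, `(l0-a)+(l2-b)`, `a+l1+(l2-b)`, `(l0-a)+l1+b`.  If `a` is even and `l0` even, or `a` even and `l0` odd: `1st, 4th` different mod 4 and `2nd` has the other parity.  If `l0` is odd and `a` odd: `2nd, 3rd` are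
  different mod 4, of the same parity, the `1st` has the other parity.  (check with omega, always three of the four)
* `three_22`: `same_paths` for the theta with `f2` first (`h.swap12.swap01`: lengths `l2, l0, l1`): `n`, `l2 - n + l0`, `l2 - n + l1`; `l0` even: `l0 ≠ l1 mod 4`. -/

namespace Pool.Agent.Lib.MP_f599e5_co

open Finset

variable {V : Type} [DecidableEq V] {G : SimpleGraph V}

theorem th_both {F : Finset V} {f0 f1 f2 : ℕ → V} {l0 l1 l2 : ℕ} (h : ThF G F f0 f1 f2 l0 l1 l2)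
    (hn : NB l0 l1 l2) {x y : V} (hx : x ∈ F) (hy : y ∈ F) (hxy : x ≠ y) :
    ∃ n m, PL G F x y n ∧ PL G F x y m ∧ Odd (n + m) := by
  obtain ⟨g0, g1, g2, m0, m1, m2, hg, hp, hpos⟩ := h.two_pos hx hy hxy
  have hn' : m0 % 2 ≠ m1 % 2 ∨ m1 % 2 ≠ m2 % 2 := by
    unfold NB at hn
    unfold Perm3 at hp
    omega
  rcases hpos with ⟨a, b, hab, hb, hor⟩ | ⟨a, b, ha0, ha, hb0, hb, hxa, hyb⟩
  · obtain ⟨e1, e2, e3⟩ := hg.same_paths hab hb
    have key : ∃ n m, PL G F (g0 a) (g0 b) n ∧ PL G F (g0 a) (g0 b) m ∧ Odd (n + m) := by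
      by_cases h1 : (m0 + m1) % 2 = 1
      · exact ⟨_, _, e1, e2, by rw [Nat.odd_iff]; omega⟩
      · exact ⟨_, _, e1, e3, by rw [Nat.odd_iff]; omega⟩
    obtain ⟨n, m, k1, k2, k3⟩ := key
    rcases hor with ⟨h1, h2⟩ | ⟨h1, h2⟩
    · rw [h1, h2] at k1 k2
      exact ⟨n, m, k1, k2, k3⟩
    · rw [h1, h2] at k1 k2
      exact ⟨n, m, k1.symm, k2.symm, k3⟩
  · obtain ⟨e1, e2, e3, e4⟩ := hg.cross_paths ha0 ha hb0 hb
    rw [hxa, hyb] at e1 e2 e3 e4
    by_cases h1 : (m0 + m1) % 2 = 1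
    · exact ⟨_, _, e1, e2, by rw [Nat.odd_iff]; omega⟩
    · exact ⟨_, _, e1, e3, by rw [Nat.odd_iff]; omega⟩

theorem three_00 {F : Finset V} {f0 f1 f2 : ℕ → V} {l0 l1 l2 : ℕ} (h : ThF G F f0 f1 f2 l0 l1 l2)
    (h01 : (l0 + l1) % 4 = 2) (h02 : (l0 + l2) % 2 = 1) {a b : ℕ} (hab : a < b) (hb : b ≤ l0)
    (hp : (b - a) % 2 = 0) : Three G F (f0 a) (f0 b) := by
  obtain ⟨e1, e2, e3⟩ := h.same_paths hab hb
  exact ⟨_, _, _, e1, e2, e3, by omega, by omega, by omega⟩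

theorem three_01 {F : Finset V} {f0 f1 f2 : ℕ → V} {l0 l1 l2 : ℕ} (h : ThF G F f0 f1 f2 l0 l1 l2)
    (h01 : (l0 + l1) % 4 = 2) (h02 : (l0 + l2) % 2 = 1) {a b : ℕ} (ha0 : 0 < a) (ha : a < l0) (hb0 : 0 < b)
    (hb : b < l1) (hp : l0 % 2 = 1 ∨ (a + b) % 2 = 0) : Three G F (f0 a) (f1 b) := by
  obtain ⟨e1, e2, e3, e4⟩ := h.cross_paths ha0 ha hb0 hb
  by_cases h1 : (a + b) % 2 = 0
  · exact ⟨_, _, _, e1, e2, e3, by omega, by omega, by omega⟩
  · exact ⟨_, _, _, e1, e3, e4, by omega, by omega, by omega⟩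

theorem three_02 {F : Finset V} {f0 f1 f2 : ℕ → V} {l0 l1 l2 : ℕ} (h : ThF G F f0 f1 f2 l0 l1 l2)
    (h01 : (l0 + l1) % 4 = 2) (h02 : (l0 + l2) % 2 = 1) {a b : ℕ} (ha0 : 0 < a) (ha : a < l0) (hb0 : 0 < b)
    (hb : b < l2) (hp : l0 % 2 = 1 ∨ a % 2 = 0) : Three G F (f0 a) (f2 b) := by
  obtain ⟨e1, e2, e3, e4⟩ := h.swap12.cross_paths ha0 ha hb0 hb
  by_cases h1 : a % 2 = 0
  · exact ⟨_, _, _, e1, e4, e2, by omega, by omega, by omega⟩
  · exact ⟨_, _, _, e2, e3, e1, by omega, by omega, by omega⟩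

theorem three_22 {F : Finset V} {f0 f1 f2 : ℕ → V} {l0 l1 l2 : ℕ} (h : ThF G F f0 f1 f2 l0 l1 l2)
    (h01 : (l0 + l1) % 4 = 2) (h02 : (l0 + l2) % 2 = 1) {a b : ℕ} (hab : a < b) (hb : b ≤ l2)
    (hp : l0 % 2 = 0) : Three G F (f2 a) (f2 b) := by
  obtain ⟨e1, e2, e3⟩ := h.swap12.swap01.same_paths hab hb
  exact ⟨_, _, _, e1, e2, e3, by omega, by omega, by omega⟩

end Pool.Agent.Lib.MP_f599e5_co
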