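import Pool.Agent.Lib.MP_f599e5_co.E4N
import Pool.Agent.Lib.MP_f599e5_co.E4P

set_option autoImplicit false
set_option linter.unusedSectionVars false

/-! # JOB E4W: components of `B \ F` (W1, W2)

* `MinT.nonsep`: let `w ∈ D`, `X ≠ Y` be components of `D.erase w` with vertices `≠ c`.  `lobes` (EL) with `k = 4`, `lam = 1` (`Blk.sep2_even` with `h = 2`, `F.card ≥ 5`: `ThF.card` and the cycle lengths `≥ 5` (`ThL.cy4`): `2 (l0+l1+l2) ≥ 15`, so
  `l0+l1+l2 ≥ 8`, `F.card ≥ 7`; `hl`: `MinT.out`, vertices of `D` are in `B \ F`).  It gives `Adm G 2 L1 {x1} {w1}`, `Adm G 2 L2 {x2} {w2}` (`4 - 1 - 1 = 2`), the path `r` in `D \ (L1 ∪ L2)`.  `th_both` (E4P): paths in `F` from `x1` to `x2` of lengths `n, m`, `n + m` odd.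
  `ea_arcs4` (EA) with `L = l + l' + r`: `i, j < 2` with `4 ∣ ..`; `lobe_cycle` gives a cycle of that length; `CycS.zc`.
* `MinT.not_three`: `u1 ≠ u2` (otherwise `u1` has the two neighbours `x ≠ y` in `F`, contradiction to `MinT.out`): `Rep G D c x y`.  `Blk.adm_pair` (EU) with `k = 4`, `lam = 1`: `hl`: `(nb G v F).card ≤ 1` (`MinT.out`); `he`: `u1 ≠ u2` are in `D.erase c`.
  `Adm G 2 D {x} {y}`: `d, l`; `Three`: `p1, p2, p3`; `ea_three` (EA): `4 ∣ l + i*d + p_j` for some `i < 2`, `j`; `close_path` (B4; `D` and `F` are disjoint) gives the cycle; `CycS.zc`. -/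

namespace Pool.Agent.Lib.MP_f599e5_co

open Finset

variable {V : Type} [DecidableEq V] {G : SimpleGraph V}

theorem MinT.card5 {B F : Finset V} {f0 f1 f2 : ℕ → V} {l0 l1 l2 : ℕ} (hc : Cy4 G B)
    (h : MinT G B F f0 f1 f2 l0 l1 l2) : 5 ≤ F.card := by
  have h1 := h.th.card
  have h2 := (h.th.toL).cy4 hc h.sub
  omega

theorem MinT.nonsep {B F : Finset V} {c : V} {f0 f1 f2 : ℕ → V} {l0 l1 l2 : ℕ} (hB : Blk G 4 B c)
    (hz : ¬ ZC 4 G) (h : MinT G B F f0 f1 f2 l0 l1 l2) {D : Finset V} (hD : IsComp G (B \ F) D) :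
    NonSep G D c := by
  have hc := hB.cy4 hz
  have hDF : Disjoint D F := disjoint_left.2 fun v hv hvF => (mem_sdiff.1 (hD.1 hv)).2 hvF
  intro w hw X Y hX hY hXc hYc
  by_contra hXY
  obtain ⟨L1, L2, x1, x2, w1, w2, r, h1, h2, h12, hx1, hx2, hx, hw1, hw1', hw2, hw2', hA1, hA2, pr⟩ :=
    lobes (k := 4) (lam := 1) hB (Blk.sep2_even (h := 2) hB (by norm_num) hz) h.sub (h.card5 hc) hD
      (by norm_num) (fun _ => rfl)
      (fun v hv _ => h.out hc (mem_sdiff.1 (hD.1 hv)).1 (mem_sdiff.1 (hD.1 hv)).2) hw hX hY hXY hXc hYc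
  obtain ⟨n, m, pn, pm, hodd⟩ := th_both h.th h.nbp hx1 hx2 hx
  obtain ⟨d, hd, l, hl, hP⟩ := hA1
  obtain ⟨d', hd', l', hl', hP'⟩ := hA2
  obtain ⟨i, hi, j, hj, hdvd⟩ := ea_arcs4 (L := l + l' + r) hd hd' hodd
  obtain ⟨a, ha, b, hb, p1⟩ := hP i (by omega)
  obtain ⟨a', ha', b', hb', p2⟩ := hP' j (by omega)
  rw [mem_singleton] at ha hb ha' hb'
  subst ha hb ha' hb'
  have hcyc : ∀ t, PL G F a a' t → CycS G (D ∪ F) ((l + i * d) + (l' + j * d') + r + t) := fun t pt =>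
    lobe_cycle hDF h1 h2 h12 hx1 hx2 hx hw1 hw1' hw2 hw2' (by omega) (by omega) p1 p2 pr pt
  rcases hdvd with hdvd | hdvd
  · refine hz ((hcyc n pn).zc ?_)
    rw [show (l + i * d) + (l' + j * d') + r + n = l + l' + r + i * d + j * d' + n by ring]
    exact hdvd
  · refine hz ((hcyc m pm).zc ?_)
    rw [show (l + i * d) + (l' + j * d') + r + m = l + l' + r + i * d + j * d' + m by ring]
    exact hdvd

theorem MinT.not_three {B F : Finset V} {c : V} {f0 f1 f2 : ℕ → V} {l0 l1 l2 : ℕ} (hB : Blk G 4 B c)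
    (hz : ¬ ZC 4 G) (h : MinT G B F f0 f1 f2 l0 l1 l2) {D : Finset V} (hD : IsComp G (B \ F) D) {x y : V}
    (hx : x ∈ F) (hy : y ∈ F) (hxy : x ≠ y) (h1 : ∃ u ∈ D, u ≠ c ∧ G.Adj u x)
    (h2 : ∃ u ∈ D, u ≠ c ∧ G.Adj u y) : ¬ Three G F x y := by
  have hc := hB.cy4 hz
  have hDF : Disjoint D F := disjoint_left.2 fun v hv hvF => (mem_sdiff.1 (hD.1 hv)).2 hvF
  have hout : ∀ v ∈ D, (nb G v F).card ≤ 1 := fun v hv =>
    h.out hc (mem_sdiff.1 (hD.1 hv)).1 (mem_sdiff.1 (hD.1 hv)).2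
  obtain ⟨u1, hu1, hc1, ha1⟩ := h1
  obtain ⟨u2, hu2, hc2, ha2⟩ := h2
  have hne : u1 ≠ u2 := by
    rintro rfl
    have h3 := card_le_one.1 (hout u1 hu1) x (mem_nb.2 ⟨hx, ha1⟩) y
      (mem_nb.2 ⟨hy, ha2⟩)
    exact hxy h3
  have hr : Rep G D c x y := ⟨u1, hu1, u2, hu2, hc1, hc2, hne, ha1, ha2⟩
  have hA := hB.adm_pair (lam := 1) h.sub hD (h.nonsep hB hz hD) hx hy hxy hr (by norm_num)
    (fun v hv _ => le_trans (hout v hv) (by omega))
    (fun _ => by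
      have h3 : ({u1, u2} : Finset V) ⊆ D.erase c := by
        intro v hv
        rw [mem_insert, mem_singleton] at hv
        rcases hv with rfl | rfl
        · exact mem_erase.2 ⟨hc1, hu1⟩
        · exact mem_erase.2 ⟨hc2, hu2⟩
      have h4 := card_le_card h3
      rwa [card_pair hne] at h4)
  rintro ⟨p1, p2, p3, q1, q2, q3, h12, h13, h23⟩
  obtain ⟨d, hd, l, hl, hP⟩ := hA
  obtain ⟨i, hi, hdvd⟩ := ea_three (l := l) hd h12 h13 h23
  obtain ⟨a, ha, b, hb, pl⟩ := hP i (by omega)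
  rw [mem_singleton] at ha hb
  subst ha hb
  have hcyc : ∀ t, PL G F a b t → CycS G (D ∪ F) ((l + i * d) + t) := fun t pt =>
    close_path hDF hx hy hxy (by omega) pl pt
  rcases hdvd with hdvd | hdvd | hdvd
  · exact hz ((hcyc p1 q1).zc hdvd)
  · exact hz ((hcyc p2 q2).zc hdvd)
  · exact hz ((hcyc p3 q3).zc hdvd)

end Pool.Agent.Lib.MP_f599e5_co
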