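import Pool.Agent.Lib.MP_f599e5_co.E4B
import Pool.Agent.Lib.MP_f599e5_co.E4T
import Pool.Agent.Lib.MP_f599e5_co.E4W

set_option autoImplicit false
set_option linter.unusedSectionVars false

/-! # E4M: `k = 4` -/

namespace Pool.Agent.Lib.MP_f599e5_co

open Finset

variable {V : Type} [DecidableEq V] {G : SimpleGraph V}

/-- an inner vertex `≠ c` of the first two paths is adjacent to a vertex `≠ c` of a component of `B \ F` containing `c` -/
theorem E4M_comp {B F : Finset V} {c : V} {f0 f1 f2 : ℕ → V} {l0 l1 l2 : ℕ} (hB : Blk G 4 B c)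
    (hz : ¬ ZC 4 G) (h : MinT G B F f0 f1 f2 l0 l1 l2) (h01 : (l0 + l1) % 4 = 2) (h02 : (l0 + l2) % 2 = 1)
    {x : V} (hx : x ∈ seg f0 0 l0 ∪ seg f1 0 l1) (hxc : x ≠ c) :
    ∃ D, IsComp G (B \ F) D ∧ c ∈ D ∧ ∃ u ∈ D, u ≠ c ∧ G.Adj u x := by
  have hc := hB.cy4 hz
  have hxF : x ∈ F := by
    rcases mem_union.1 hx with hx | hx
    · obtain ⟨a, h1, h2, rfl⟩ := mem_seg.1 hx
      exact h.th.mem0 h2.le
    · obtain ⟨a, h1, h2, rfl⟩ := mem_seg.1 hx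
      exact h.th.mem1 h2.le
  have hx2 : (nb G x F).card ≤ 2 := by
    rcases mem_union.1 hx with hx | hx
    · obtain ⟨a, h1, h2, rfl⟩ := mem_seg.1 hx
      exact h.int0 hc h1 h2
    · obtain ⟨a, h1, h2, rfl⟩ := mem_seg.1 hx
      exact h.swap01.int0 hc h1 h2
  obtain ⟨D, hD, u, hu, huc, hux⟩ := hB.exists_comp_adj h.sub hxF hxc hx2
  refine ⟨D, hD, ?_, u, hu, huc, hux⟩
  by_contra hcD
  have h5 := h.card5 hc
  have h3 : 2 + 1 ≤ (bd G B D).card :=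
    Sep.le_bd (hB.sep2_even (h := 2) le_rfl hz) h.sub (by omega) hD ⟨u, hu, huc⟩
  have hadj : ∀ w ∈ bd G B D, w ∈ F ∧ ∃ v ∈ D, v ≠ c ∧ G.Adj v w := by
    intro w hw
    obtain ⟨h1, v, hv, hvw⟩ := (mem_bd_comp h.sub hD).1 hw
    exact ⟨h1, v, hv, fun e => hcD (e ▸ hv), hvw⟩
  have h2 : 1 < ((bd G B D).erase x).card := by
    have := Finset.pred_card_le_card_erase (s := bd G B D) (a := x)
    omega
  obtain ⟨y, hy, z, hz', hyz⟩ := Finset.one_lt_card.1 h2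
  obtain ⟨hyx, hy⟩ := mem_erase.1 hy
  obtain ⟨hzx, hz'⟩ := mem_erase.1 hz'
  obtain ⟨hyF, hyu⟩ := hadj y hy
  obtain ⟨hzF, hzu⟩ := hadj z hz'
  rcases t4 h.th h01 h02 hx hyF hzF hyx.symm hzx.symm hyz with h' | h' | h'
  · exact h.not_three hB hz hD hxF hyF hyx.symm ⟨u, hu, huc, hux⟩ hyu h'
  · exact h.not_three hB hz hD hxF hzF hzx.symm ⟨u, hu, huc, hux⟩ hzu h'
  · exact h.not_three hB hz hD hyF hzF hyz hyu hzu h'

theorem block_four {B : Finset V} {c : V} (hB : Blk G 4 B c) : ZC 4 G := by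
  by_contra hz
  have hc := hB.cy4 hz
  obtain ⟨F, f0, f1, f2, l0, l1, l2, h, hp, hp2⟩ := hB.minT4 hz
  obtain ⟨⟨h5, h4⟩, -, -⟩ := (h.th.toL).cy4 hc h.sub
  have h01 : (l0 + l1) % 4 = 2 := by omega
  have h02 : (l0 + l2) % 2 = 1 := by omega
  have hcard : 4 ≤ (seg f0 0 l0 ∪ seg f1 0 l1).card := by
    have hd : Disjoint (seg f0 0 l0) (seg f1 0 l1) := by
      rw [Finset.disjoint_left]
      intro x hx hx'
      obtain ⟨i, h1, h2, rfl⟩ := mem_seg.1 hx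
      obtain ⟨j, h3, h4, he⟩ := mem_seg.1 hx'
      rcases h.th.d01 i j h2.le h4.le he.symm with ⟨e, -⟩ | ⟨e, -⟩ <;> omega
    rw [card_union_of_disjoint hd]
    have e0 : (seg f0 0 l0).card = l0 - 1 := by
      unfold seg
      rw [card_image_of_injOn, Nat.card_Ioo]
      · omega
      · intro i hi j hj hij
        have hi' := Finset.mem_Ioo.1 (Finset.mem_coe.1 hi)
        have hj' := Finset.mem_Ioo.1 (Finset.mem_coe.1 hj)
        exact h.th.p0.inj i j hi'.2.le hj'.2.le hij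
    have e1 : (seg f1 0 l1).card = l1 - 1 := by
      unfold seg
      rw [card_image_of_injOn, Nat.card_Ioo]
      · omega
      · intro i hi j hj hij
        have hi' := Finset.mem_Ioo.1 (Finset.mem_coe.1 hi)
        have hj' := Finset.mem_Ioo.1 (Finset.mem_coe.1 hj)
        exact h.th.p1.inj i j hi'.2.le hj'.2.le hij
    omega
  have h2 : 2 < ((seg f0 0 l0 ∪ seg f1 0 l1).erase c).card := by
    have := Finset.pred_card_le_card_erase (s := seg f0 0 l0 ∪ seg f1 0 l1) (a := c)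
    omega
  obtain ⟨x, hx, y, hy, z, hz', hxy, hxz, hyz⟩ := Finset.two_lt_card.1 h2
  have key : ∀ x ∈ (seg f0 0 l0 ∪ seg f1 0 l1).erase c, x ∈ seg f0 0 l0 ∪ seg f1 0 l1 ∧ x ∈ F ∧
      ∃ D, IsComp G (B \ F) D ∧ c ∈ D ∧ ∃ u ∈ D, u ≠ c ∧ G.Adj u x := by
    intro x hx
    obtain ⟨hxc, hx⟩ := mem_erase.1 hx
    refine ⟨hx, ?_, E4M_comp hB hz h h01 h02 hx hxc⟩
    rcases mem_union.1 hx with hx | hx
    · obtain ⟨a, h1, h2, rfl⟩ := mem_seg.1 hx
      exact h.th.mem0 h2.le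
    · obtain ⟨a, h1, h2, rfl⟩ := mem_seg.1 hx
      exact h.th.mem1 h2.le
  obtain ⟨hx, hxF, D, hD, hcD, hxu⟩ := key x hx
  obtain ⟨-, hyF, D', hD', hcD', hyu⟩ := key y hy
  obtain ⟨-, hzF, D'', hD'', hcD'', hzu⟩ := key z hz'
  obtain rfl : D = D' := hD.eq_of_mem hD' hcD hcD'
  obtain rfl : D = D'' := hD.eq_of_mem hD'' hcD hcD''
  rcases t4 h.th h01 h02 hx hyF hzF hxy hxz hyz with h' | h' | h'
  · exact h.not_three hB hz hD hxF hyF hxy hxu hyu h'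
  · exact h.not_three hB hz hD hxF hzF hxz hxu hzu h'
  · exact h.not_three hB hz hD hyF hzF hyz hyu hzu h'

end Pool.Agent.Lib.MP_f599e5_co
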