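import Pool.Agent.Lib.MP_f599e5_co.E4C

set_option autoImplicit false
set_option linter.unusedSectionVars false

/-! # JOB E4N: number of neighbours in a minimal non-bipartite theta

* `MinT.out`: suppose `v ∈ B \ F` has two different neighbours `y, z ∈ F` (`one_lt_card`).  `Q = {y, v, z}` is an exact path of length 2 (`PX.edge`, `PX.trans`, or `PL.edge`, `PL.cons` and card), `Q ∩ F = {y,z}`.
  `ThF.two_pos` (Th2G): a permuted theta `g0 g1 g2, m0 m1 m2` with `y, z` on the first path (`MinT.same`, use `hQ.symm` if `g0 a = z`) or inner vertices of the first two paths (`MinT.cross`).  `MinT` for the permuted theta: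
  `th`, `sub`; `nbp` and `min` by `Perm3` (6 cases, omega).
* `MinT.int0`: `x = f0 a`, `0 < a < l0`: `nb G x F ⊆ {f0 (a-1), f0 (a+1)}` (then card `≤ 2`: `card_le_card`, `card_le_two`).  Let `y ∈ F`, `x ~ y`.  `ThF.cases`: `y = f0 b`, `b ≤ l0`; `y = f1 b`; `y = f2 b`.
  `y = f0 b`: `b ≠ a` (no loop).  If `b > a + 1`: `MinT.same` with `q = 1`, `Q = {x, y}` (`PX.edge`), `h3`: `b - a ≥ 2`; `h4`: `b - a < l0`.  If `b + 1 < a`: the same with `y, x`.
  `y = f1 b`: `b = 0` gives `y = f0 0` (`s1`), `b = l1` gives `y = f0 l0` (`t1`): previous case.  Otherwise `MinT.cross` with `q = 1`.  `y = f2 b`: the same for `h.swap12`. -/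

namespace Pool.Agent.Lib.MP_f599e5_co

open Finset

variable {V : Type} [DecidableEq V] {G : SimpleGraph V}

private theorem e4n_nb {m0 m1 m2 l0 l1 l2 : ℕ} (hp : Perm3 m0 m1 m2 l0 l1 l2) (h : NB l0 l1 l2) :
    NB m0 m1 m2 := by
  unfold NB at h ⊢
  unfold Perm3 at hp
  omega

private theorem e4n_sum {m0 m1 m2 l0 l1 l2 : ℕ} (hp : Perm3 m0 m1 m2 l0 l1 l2) :
    m0 + m1 + m2 = l0 + l1 + l2 := by
  unfold Perm3 at hp
  omega

theorem MinT.out {B F : Finset V} {f0 f1 f2 : ℕ → V} {l0 l1 l2 : ℕ} (hc : Cy4 G B)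
    (h : MinT G B F f0 f1 f2 l0 l1 l2) {v : V} (hv : v ∈ B) (hvF : v ∉ F) : (nb G v F).card ≤ 1 := by
  by_contra hcon
  push Not at hcon
  obtain ⟨y, hy, z, hz, hyz⟩ := one_lt_card.1 hcon
  rw [mem_nb] at hy hz
  obtain ⟨hyF, hvy⟩ := hy
  obtain ⟨hzF, hvz⟩ := hz
  have hvy' : v ≠ y := fun e => hvF (e ▸ hyF)
  have hQ : PX G ({y, v} ∪ {v, z}) y z (1 + 1) := by
    refine (PX.edge hvy.symm).trans (PX.edge hvz) ?_
    intro x hx hx'
    rw [mem_insert, mem_singleton] at hx hx'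
    rcases hx with rfl | rfl
    · rcases hx' with h1 | h1
      · exact h1
      · exact absurd h1 hyz
    · rfl
  have hQB : ({y, v} ∪ {v, z} : Finset V) ⊆ B := by
    intro x hx
    rw [mem_union, mem_insert, mem_singleton, mem_insert, mem_singleton] at hx
    rcases hx with (rfl | rfl) | (rfl | rfl)
    · exact h.sub hyF
    · exact hv
    · exact hv
    · exact h.sub hzF
  have hQF : ∀ x ∈ ({y, v} ∪ {v, z} : Finset V), x ∈ F → x = y ∨ x = z := by
    intro x hx hxF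
    rw [mem_union, mem_insert, mem_singleton, mem_insert, mem_singleton] at hx
    rcases hx with (rfl | rfl) | (rfl | rfl)
    · exact Or.inl rfl
    · exact absurd hxF hvF
    · exact absurd hxF hvF
    · exact Or.inr rfl
  obtain ⟨g0, g1, g2, m0, m1, m2, hg, hp, hpos⟩ := h.th.two_pos hyF hzF hyz
  have hm : MinT G B F g0 g1 g2 m0 m1 m2 := by
    refine ⟨hg, h.sub, e4n_nb hp h.nbp, ?_⟩
    intro F' n0 n1 n2 h1 h2 h3
    rw [e4n_sum hp]
    exact h.min F' n0 n1 n2 h1 h2 h3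
  rcases hpos with ⟨a, b, hab, hb, ⟨h1, h2⟩ | ⟨h1, h2⟩⟩ | ⟨a, b, ha0, ha, hb0, hb, h1, h2⟩
  · rw [← h1, ← h2] at hQ hQF hQB
    exact hm.same hc hab hb hQ hQB hQF le_rfl (by omega) (by omega)
  · have hQ' := hQ.symm
    rw [← h1, ← h2] at hQ' hQF hQB
    exact hm.same hc hab hb hQ' hQB (fun x hx hxF => (hQF x hx hxF).symm) le_rfl (by omega) (by omega)
  · rw [← h1, ← h2] at hQ hQF hQB
    exact hm.cross hc ha0 ha hb0 hb hQ hQB hQF le_rfl

private theorem e4n_edge {B F : Finset V} (hFB : F ⊆ B) {x y : V} (hx : x ∈ F) (hy : y ∈ F) :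
    ({x, y} : Finset V) ⊆ B ∧ ∀ w ∈ ({x, y} : Finset V), w ∈ F → w = x ∨ w = y := by
  constructor
  · intro w hw
    rw [mem_insert, mem_singleton] at hw
    rcases hw with rfl | rfl
    · exact hFB hx
    · exact hFB hy
  · intro w hw _
    rwa [mem_insert, mem_singleton] at hw

private theorem e4n_same {B F : Finset V} {f0 f1 f2 : ℕ → V} {l0 l1 l2 : ℕ} (hc : Cy4 G B)
    (h : MinT G B F f0 f1 f2 l0 l1 l2) {a b : ℕ} (ha0 : 0 < a) (ha : a < l0) (hb : b ≤ l0)
    (hadj : G.Adj (f0 a) (f0 b)) : b = a - 1 ∨ b = a + 1 := by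
  have hne : b ≠ a := by
    rintro rfl
    exact G.irrefl hadj
  have hFa := h.th.mem0 ha.le
  have hFb := h.th.mem0 hb
  by_contra hcon
  push Not at hcon
  obtain ⟨h1, h2⟩ := hcon
  rcases lt_or_gt_of_ne hne with h3 | h3
  · obtain ⟨k1, k2⟩ := e4n_edge h.sub hFb hFa
    exact h.same hc h3 ha.le (PX.edge hadj.symm) k1 k2 (by norm_num) (by omega) (by omega)
  · obtain ⟨k1, k2⟩ := e4n_edge h.sub hFa hFb
    exact h.same hc h3 hb (PX.edge hadj) k1 k2 (by norm_num) (by omega) (by omega)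

private theorem e4n_diff {B F : Finset V} {f0 f1 f2 : ℕ → V} {l0 l1 l2 : ℕ} (hc : Cy4 G B)
    (h : MinT G B F f0 f1 f2 l0 l1 l2) {a b : ℕ} (ha0 : 0 < a) (ha : a < l0) (hb : b ≤ l1)
    (hadj : G.Adj (f0 a) (f1 b)) : f1 b = f0 (a - 1) ∨ f1 b = f0 (a + 1) := by
  by_cases h0 : b = 0
  · subst h0
    rw [h.th.s1] at hadj ⊢
    rcases e4n_same hc h ha0 ha (Nat.zero_le _) hadj with h1 | h1
    · left; rw [← h1]
    · right; rw [← h1]
  · by_cases h1 : b = l1
    · subst h1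
      rw [h.th.t1] at hadj ⊢
      rcases e4n_same hc h ha0 ha le_rfl hadj with h2 | h2
      · left; rw [← h2]
      · right; rw [← h2]
    · exfalso
      obtain ⟨k1, k2⟩ := e4n_edge h.sub (h.th.mem0 ha.le) (h.th.mem1 hb)
      exact h.cross hc ha0 ha (by omega) (by omega) (PX.edge hadj) k1 k2 (by norm_num)

theorem MinT.int0 {B F : Finset V} {f0 f1 f2 : ℕ → V} {l0 l1 l2 : ℕ} (hc : Cy4 G B)
    (h : MinT G B F f0 f1 f2 l0 l1 l2) {a : ℕ} (ha0 : 0 < a) (ha : a < l0) : (nb G (f0 a) F).card ≤ 2 := by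
  have hsub : nb G (f0 a) F ⊆ {f0 (a - 1), f0 (a + 1)} := by
    intro y hy
    rw [mem_nb] at hy
    obtain ⟨hyF, hadj⟩ := hy
    rw [mem_insert, mem_singleton]
    rcases h.th.cases hyF with ⟨b, hb, rfl⟩ | ⟨b, hb, rfl⟩ | ⟨b, hb, rfl⟩
    · rcases e4n_same hc h ha0 ha hb hadj with h1 | h1
      · left; rw [← h1]
      · right; rw [← h1]
    · exact e4n_diff hc h ha0 ha hb hadj
    · exact e4n_diff hc h.swap12 ha0 ha hb hadj
  exact (card_le_card hsub).trans card_le_two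

end Pool.Agent.Lib.MP_f599e5_co
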