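import Pool.Agent.Lib.MP_f599e5_co.ECy1

set_option autoImplicit false
set_option linter.unusedSectionVars false

/-!
# JOB ECy2: arcs of a cycle

* `Cyc.pf`: the function `fun j : ℕ => f (i + j)` is a path function of length `a` for `a < g` (`adj` with `(i + j) + 1 = i + (j+1)`, push_cast; injectivity: `g ∣ (i+j) - (i+j')`, `|j - j'| < g`).
* `Cyc.arc`: `PF.toPL` (B2F) from `0` to `a`.
* `Cyc.arcs`: the first arc is `arc`; the second one is the arc from `i + a` to `i + a + (g - a) = i + g`, `f (i + g) = f i` (`per`), reversed by `PL.symm`; `g - a < g`.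
* `Cyc.toS`: `PL.cycle` (B2) with the path `f 0 .. f (g-1)` of length `g - 1` (all vertices in `cycV f g`) and the edge from `f 0` to `f (g-1)` (`adj (g-1)` and `per 0`), in `{f 0, f (g-1)}`.
* `Cyc.ext`: closing an outside path: `PL.cycle` with the arcs: `T` meets `cycV f g` only in the two ends.
* `Cyc.twoC`: `3 ≤ card` by `Cyc.card`.  `Conn G ((cycV f g).erase w)`: if `w` is in the cycle write `w = f i`; the other vertices are `f (i + j)`, `1 ≤ j < g` (`exists_idx` with `a = i`), they are joined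
  by the path function `fun j => f (i + 1 + j)` of length `g - 2` (its vertices are `≠ f i` by `Cyc.ne`): `conn_of_path` (B3) and `PF.toPL`.  If `w` is not in the cycle `(cycV f g).erase w = cycV f g`: the same with the path function
  `fun j => f j` of length `g - 1`.
-/

namespace Pool.Agent.Lib.MP_f599e5_co

open Finset

variable {V : Type} [DecidableEq V] {G : SimpleGraph V}

theorem Cyc.pf {f : ℤ → V} {g : ℕ} (h : Cyc G f g) (i : ℤ) {a : ℕ} (ha : a < g) :
    PF G (fun j : ℕ => f (i + j)) a := by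
  refine ⟨fun j _ => ?_, fun j j' hj hj' hjj => ?_⟩
  · have h1 := h.adj (i + j)
    show G.Adj (f (i + j)) (f (i + ((j + 1 : ℕ) : ℤ)))
    rw [show i + ((j + 1 : ℕ) : ℤ) = i + j + 1 by push_cast; ring]
    exact h1
  · have h1 := h.inj _ _ hjj
    have h2 : (i + (j : ℤ) - (i + j')) = 0 := by
      apply Int.eq_zero_of_abs_lt_dvd h1
      rw [abs_lt]
      constructor <;> omega
    omega

theorem Cyc.arc_ECy2 {f : ℤ → V} {g : ℕ} (h : Cyc G f g) (i : ℤ) {a : ℕ} (ha : a < g) :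
    PL G (cycV f g) (f i) (f (i + a)) a := by
  have h1 := (h.pf i ha).toPL (Nat.zero_le a) (le_refl a) (S := cycV f g) (fun j _ _ => h.mem _)
  simpa using h1

theorem Cyc.arcs {f : ℤ → V} {g : ℕ} (h : Cyc G f g) (i : ℤ) {a : ℕ} (h0 : 0 < a) (ha : a < g) :
    PL G (cycV f g) (f i) (f (i + a)) a ∧ PL G (cycV f g) (f i) (f (i + a)) (g - a) := by
  refine ⟨h.arc_ECy2 i ha, ?_⟩
  have h1 := h.arc_ECy2 (i + a) (a := g - a) (by omega)
  have h2 : f (i + a + ((g - a : ℕ) : ℤ)) = f i := by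
    apply h.congr
    refine ⟨1, ?_⟩
    omega
  rw [h2] at h1
  exact h1.symm

theorem Cyc.toS {f : ℤ → V} {g : ℕ} (h : Cyc G f g) : CycS G (cycV f g) g := by
  have hg := h.g3
  have h1 := h.arc_ECy2 0 (a := g - 1) (by omega)
  have h2 : G.Adj (f (0 + ((g - 1 : ℕ) : ℤ))) (f 0) := by
    have h3 := h.adj (0 + ((g - 1 : ℕ) : ℤ))
    have h4 : f (0 + ((g - 1 : ℕ) : ℤ) + 1) = f 0 := by
      apply h.congr
      refine ⟨1, ?_⟩
      omega
    rw [h4] at h3
    exact h3
  have h5 : PL G {f 0, f (0 + ((g - 1 : ℕ) : ℤ))} (f 0) (f (0 + ((g - 1 : ℕ) : ℤ))) 1 :=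
    PL.edge h2.symm (by simp) (by simp)
  have h6 := PL.cycle h1 h5 (by
    intro x _ hx
    rw [mem_insert, mem_singleton] at hx
    exact hx) (h.ne 0 (by omega) (by omega)) (by omega)
  have h7 := h6.mono (T := cycV f g) (union_subset (Subset.refl _) (by
    intro x hx
    rw [mem_insert, mem_singleton] at hx
    rcases hx with rfl | rfl <;> exact h.mem _))
  rwa [show g - 1 + 1 = g by omega] at h7

/-- closing a path outside the cycle by the two arcs -/
theorem Cyc.ext {f : ℤ → V} {g : ℕ} (h : Cyc G f g) (i : ℤ) {a : ℕ} (h0 : 0 < a) (ha : a < g) {T : Finset V}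
    {n : ℕ} (hT : PL G T (f i) (f (i + a)) n) (hd : ∀ x ∈ T, x ∈ cycV f g → x = f i ∨ x = f (i + a))
    (h1 : 3 ≤ n + a) (h2 : 3 ≤ n + (g - a)) :
    CycS G (T ∪ cycV f g) (n + a) ∧ CycS G (T ∪ cycV f g) (n + (g - a)) := by
  obtain ⟨hA, hB⟩ := h.arcs i h0 ha
  have hne := h.ne i h0 ha
  exact ⟨PL.cycle hT hA hd hne h1, PL.cycle hT hB hd hne h2⟩

theorem Cyc.conn_erase_ECy2 {f : ℤ → V} {g : ℕ} (h : Cyc G f g) {S : Finset V} (i : ℤ) {a : ℕ} (ha : a < g)
    (hS : ∀ j : ℕ, j ≤ a → f (i + j) ∈ S) (hS' : ∀ x ∈ S, ∃ j : ℕ, j ≤ a ∧ f (i + j) = x) : Conn G S := by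
  refine conn_of_path ⟨f (i + (0 : ℕ)), hS 0 (Nat.zero_le _)⟩ ?_
  intro u hu v hv
  obtain ⟨j, hj, rfl⟩ := hS' u hu
  obtain ⟨j', hj', rfl⟩ := hS' v hv
  have hpf := h.pf i ha
  rcases le_total j j' with hjj | hjj
  · exact ⟨j' - j, hpf.toPL hjj hj' (S := S) (fun k _ hk => hS k (by omega))⟩
  · exact ⟨j - j', (hpf.toPL hjj hj (S := S) (fun k _ hk => hS k (by omega))).symm⟩

theorem Cyc.twoC {f : ℤ → V} {g : ℕ} (h : Cyc G f g) : TwoC G (cycV f g) := by
  have hg := h.g3
  refine ⟨by rw [h.card]; exact hg, fun w => ?_⟩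
  by_cases hw : w ∈ cycV f g
  · obtain ⟨i, hi, rfl⟩ := h.exists_idx hw 0
    refine h.conn_erase_ECy2 (0 + (i : ℤ) + 1) (a := g - 2) (by omega) ?_ ?_
    · intro j hj
      rw [mem_erase]
      refine ⟨?_, h.mem _⟩
      have h1 := h.ne (0 + (i : ℤ)) (a := j + 1) (by omega) (by omega)
      intro he
      apply h1
      rw [← he]
      congr 1
      push_cast
      ring
    · intro x hx
      rw [mem_erase] at hx
      obtain ⟨j, hj, rfl⟩ := h.exists_idx hx.2 (0 + (i : ℤ))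
      have hj0 : j ≠ 0 := by
        rintro rfl
        apply hx.1
        simp
      refine ⟨j - 1, by omega, ?_⟩
      congr 1
      omega
  · rw [erase_eq_of_notMem hw]
    refine h.conn_erase_ECy2 0 (a := g - 1) (by omega) ?_ ?_
    · intro j _
      exact h.mem _
    · intro x hx
      obtain ⟨j, hj, rfl⟩ := h.exists_idx hx 0
      exact ⟨j, by omega, rfl⟩

end Pool.Agent.Lib.MP_f599e5_co
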