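import Pool.Agent.Lib.MP_f599e5_co.K5B

set_option autoImplicit false
set_option linter.unusedSectionVars false

/-!
# JOB K5C: no triangle (2.7 (iii))

`k = 3`: the triangle is a cycle of length 3 (`PL.cycle` from the edge `x z` and the path `x y z`), `CycS.zc`.
`k ≥ 4`: `F = {x,y,z}`.  One of the three vertices is `≠ c` and has two neighbours in `F`: `Blk.exists_comp` with `r = 2` gives a component `D` of `B \ F` with a
vertex `≠ c`.  At least two vertices of `F` are adjacent to `D` (`Blk.two_le_bd`, `mem_bd_comp`).  Rename `F = {a, t, t'}` such that `D` is adjacent to `a` and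
to `t` (the three vertices play the same role).  `R1 = {a}`, `R2 = {t,t'}`, `lam = 0`: every `y' ∈ D` has at most one neighbour in `F` (two neighbours would give a
diamond with the third vertex: `Blk.no_diamond`), so `(nb G y' F).card ≤ min 1 .. + min 1 ..`.  `Blk.ears0`: `Adm (k-1) D R1 R2`.
`Links G F R1 R2 1 2 1`: `a t`, `a t' t` and `a t'`, `a t t'`.  `closing_int` with `n = k-1`, `p = 2`.
-/

namespace Pool.Agent.Lib.MP_f599e5_co

open Finset

variable {V : Type} [DecidableEq V] {G : SimpleGraph V}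

private theorem k5c_links {F : Finset V} {a t t' : V} (hF : F = {a, t, t'}) (h1 : G.Adj a t)
    (h2 : G.Adj t t') (h3 : G.Adj a t') : Links G F {a} {t, t'} 1 2 1 := by
  have key : ∀ p q : V, G.Adj a p → G.Adj p q → G.Adj a q → F = {a, p, q} → ∀ j < 2,
      PL G F a p (1 + j * 1) := by
    intro p q e1 e2 e3 hFe j hj
    interval_cases j
    · exact PL.edge e1 (by rw [hFe]; simp) (by rw [hFe]; simp)
    · have e4 : PL G {q, p} q p 1 := PL.edge e2.symm (by simp) (by simp)
      have hn : a ∉ ({q, p} : Finset V) := by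
        simp only [mem_insert, mem_singleton, not_or]
        exact ⟨e3.ne, e1.ne⟩
      refine (PL.cons e3 e4 hn).mono ?_
      rw [hFe]
      intro w hw
      simp only [mem_insert, mem_singleton] at hw ⊢
      tauto
  intro r1 hr1 r2 hr2 j hj
  rw [mem_singleton] at hr1
  rw [hr1]
  rcases mem_insert.1 hr2 with hr | hr
  · rw [hr]
    exact key t t' h1 h2 h3 hF j hj
  · rw [mem_singleton] at hr
    rw [hr]
    refine key t' t h3 h2.symm h1 ?_ j hj
    rw [hF]
    ext w
    simp only [mem_insert, mem_singleton]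
    tauto

private theorem k5c_main {k : ℕ} {B F D : Finset V} {c a t t' : V} (hB : Blk G k B c) (hk : 4 ≤ k)
    (hz : ¬ ZC k G) (hFB : F ⊆ B) (hF : F = {a, t, t'}) (h1 : G.Adj a t) (h2 : G.Adj t t')
    (h3 : G.Adj a t') (hD : IsComp G (B \ F) D) (hne : ∃ v ∈ D, v ≠ c) (ha : ∃ v ∈ D, G.Adj v a)
    (ht : ∃ v ∈ D, G.Adj v t) : False := by
  have maF : a ∈ F := by rw [hF]; simp
  have mtF : t ∈ F := by rw [hF]; simp
  have mtF' : t' ∈ F := by rw [hF]; simp
  have hDF : Disjoint D F := by
    rw [Finset.disjoint_left]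
    intro x hx
    exact (mem_sdiff.1 (hD.1 hx)).2
  have hR1 : ({a} : Finset V) ⊆ F := by
    intro w hw
    rw [mem_singleton] at hw
    rwa [hw]
  have hR2 : ({t, t'} : Finset V) ⊆ F := by
    intro w hw
    rcases mem_insert.1 hw with hw | hw
    · rwa [hw]
    · rw [mem_singleton] at hw
      rwa [hw]
  have hR : Disjoint ({a} : Finset V) {t, t'} := by
    rw [Finset.disjoint_left]
    intro w hw hw'
    rw [mem_singleton] at hw
    rw [hw] at hw'
    rcases mem_insert.1 hw' with hw | hw
    · exact h1.ne hw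
    · exact h3.ne (mem_singleton.1 hw)
  have hcase : ∀ w ∈ F, w = a ∨ w = t ∨ w = t' := by
    intro w hw
    rw [hF] at hw
    simpa only [mem_insert, mem_singleton] using hw
  -- at most one neighbour
  have hone : ∀ v ∈ D, (nb G v F).card ≤ 1 := by
    intro v hv
    have hvB : v ∈ B := (mem_sdiff.1 (hD.1 hv)).1
    have hvF : v ∉ F := (mem_sdiff.1 (hD.1 hv)).2
    have hva : v ≠ a := fun h => hvF (h ▸ maF)
    have hvt : v ≠ t := fun h => hvF (h ▸ mtF)
    have hvt' : v ≠ t' := fun h => hvF (h ▸ mtF')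
    have d1 : ¬ (G.Adj v a ∧ G.Adj v t) := fun h =>
      hB.no_diamond hk hz hvB (hFB mtF') (hFB maF) (hFB mtF) hvt' h.1 h.2 h3.symm h2.symm h1
    have d2 : ¬ (G.Adj v a ∧ G.Adj v t') := fun h =>
      hB.no_diamond hk hz hvB (hFB mtF) (hFB maF) (hFB mtF') hvt h.1 h.2 h1.symm h2 h3
    have d3 : ¬ (G.Adj v t ∧ G.Adj v t') := fun h =>
      hB.no_diamond hk hz hvB (hFB maF) (hFB mtF) (hFB mtF') hva h.1 h.2 h1 h3 h2
    rw [Finset.card_le_one]
    intro p hp q hq
    rw [mem_nb] at hp hq
    obtain ⟨hp1, hp2⟩ := hp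
    obtain ⟨hq1, hq2⟩ := hq
    rcases hcase p hp1 with h4 | h4 | h4 <;> rcases hcase q hq1 with h5 | h5 | h5 <;>
      rw [h4] at hp2 <;> rw [h5] at hq2
    · rw [h4, h5]
    · exact (d1 ⟨hp2, hq2⟩).elim
    · exact (d2 ⟨hp2, hq2⟩).elim
    · exact (d1 ⟨hq2, hp2⟩).elim
    · rw [h4, h5]
    · exact (d3 ⟨hp2, hq2⟩).elim
    · exact (d2 ⟨hq2, hp2⟩).elim
    · exact (d3 ⟨hq2, hp2⟩).elim
    · rw [h4, h5]
  have hadm : Adm G (k - 1 - 0) D {a} {t, t'} := by
    refine hB.ears0 hFB hR1 hR2 hR hD hne ?_ ?_ ?_ (by omega) ?_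
    · obtain ⟨v, hv, hva⟩ := ha
      exact ⟨v, hv, a, mem_singleton_self a, hva⟩
    · obtain ⟨v, hv, hvt⟩ := ht
      exact ⟨v, hv, t, mem_insert_self _ _, hvt⟩
    · intro v _ w hw hw1 hw2
      exfalso
      rcases hcase w hw with rfl | rfl | rfl
      · exact hw1 (mem_singleton_self _)
      · exact hw2 (mem_insert_self _ _)
      · exact hw2 (mem_insert_of_mem (mem_singleton_self _))
    · intro v hv _
      have h4 := hone v hv
      by_cases h5 : (nb G v F).card = 0
      · omega
      · obtain ⟨w, hw⟩ := Finset.card_pos.1 (Nat.pos_of_ne_zero h5)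
        rw [mem_nb] at hw
        have h6 : 1 ≤ (nb G v {a}).card ∨ 1 ≤ (nb G v {t, t'}).card := by
          rcases hcase w hw.1 with rfl | rfl | rfl
          · exact Or.inl (Finset.card_pos.2 ⟨_, mem_nb.2 ⟨mem_singleton_self _, hw.2⟩⟩)
          · exact Or.inr (Finset.card_pos.2 ⟨_, mem_nb.2 ⟨mem_insert_self _ _, hw.2⟩⟩)
          · exact Or.inr (Finset.card_pos.2 ⟨_, mem_nb.2 ⟨mem_insert_of_mem (mem_singleton_self _), hw.2⟩⟩)
        omega
  exact hz (closing_int (by omega) hadm hDF hR1 hR2 hR (by omega) le_rfl (by omega)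
    (k5c_links hF h1 h2 h3))

theorem Blk.tri_free {k : ℕ} {B : Finset V} {c x y z : V} (hB : Blk G k B c) (hk : 3 ≤ k) (hz : ¬ ZC k G)
    (hx : x ∈ B) (hy : y ∈ B) (hz' : z ∈ B) (h1 : G.Adj x y) (h2 : G.Adj y z) (h3 : G.Adj x z) : False := by
  rcases Nat.lt_or_ge k 4 with hk4 | hk4
  · have hk3 : k = 3 := by omega
    apply hz
    have e1 : PL G {x, z} x z 1 := PL.edge h3 (by simp) (by simp)
    have e2 : PL G {y, z} y z 1 := PL.edge h2 (by simp) (by simp)
    have hn : x ∉ ({y, z} : Finset V) := by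
      simp only [mem_insert, mem_singleton, not_or]
      exact ⟨h1.ne, h3.ne⟩
    have e3 := PL.cons h1 e2 hn
    have hc := e1.cycle e3 (by
      intro w hw _
      simpa only [mem_insert, mem_singleton] using hw) h3.ne (by omega)
    exact hc.zc (by rw [hk3])
  · have hFB : ({x, y, z} : Finset V) ⊆ B := by
      intro w hw
      simp only [mem_insert, mem_singleton] at hw
      rcases hw with rfl | rfl | rfl <;> assumption
    have hcomp : ∃ D, IsComp G (B \ {x, y, z}) D ∧ ∃ v ∈ D, v ≠ c := by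
      by_cases hxc : x = c
      · have hyc : y ≠ c := fun h => h1.ne (hxc.trans h.symm)
        refine hB.exists_comp (r := 2) hFB (by simp) hyc (by omega) ?_
        refine (Finset.card_le_card (t := {x, z}) ?_).trans Finset.card_le_two
        intro w hw
        rw [mem_nb] at hw
        have h4 := hw.2.ne
        have h5 := hw.1
        simp only [mem_insert, mem_singleton] at h5 ⊢
        rcases h5 with h5 | h5 | h5
        · exact Or.inl h5
        · exact absurd h5.symm h4
        · exact Or.inr h5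
      · refine hB.exists_comp (r := 2) hFB (by simp) hxc (by omega) ?_
        refine (Finset.card_le_card (t := {y, z}) ?_).trans Finset.card_le_two
        intro w hw
        rw [mem_nb] at hw
        have h4 := hw.2.ne
        have h5 := hw.1
        simp only [mem_insert, mem_singleton] at h5 ⊢
        rcases h5 with h5 | h5
        · exact absurd h5.symm h4
        · exact h5
    obtain ⟨D, hD, hne⟩ := hcomp
    have hDB : D ⊆ B := fun v hv => (mem_sdiff.1 (hD.1 hv)).1
    have hDn : D.Nonempty := by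
      obtain ⟨v, hv, _⟩ := hne
      exact ⟨v, hv⟩
    have hbd := hB.two_le_bd hDB hDn hx hy (fun h => (mem_sdiff.1 (hD.1 h)).2 (by simp))
      (fun h => (mem_sdiff.1 (hD.1 h)).2 (by simp)) h1.ne
    obtain ⟨p, hp, q, hq, hpq⟩ := Finset.one_lt_card.1 hbd
    rw [mem_bd_comp hFB hD] at hp hq
    obtain ⟨hp1, hp2⟩ := hp
    obtain ⟨hq1, hq2⟩ := hq
    simp only [mem_insert, mem_singleton] at hp1 hq1
    rcases hp1 with rfl | rfl | rfl <;> rcases hq1 with rfl | rfl | rfl
    · exact hpq rfl
    · exact k5c_main hB hk4 hz hFB rfl h1 h2 h3 hD hne hp2 hq2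
    · exact k5c_main hB hk4 hz hFB (by ext w; simp only [mem_insert, mem_singleton]; tauto) h3 h2.symm h1 hD
        hne hp2 hq2
    · exact k5c_main hB hk4 hz hFB (by ext w; simp only [mem_insert, mem_singleton]; tauto) h1.symm h3 h2 hD
        hne hp2 hq2
    · exact hpq rfl
    · exact k5c_main hB hk4 hz hFB (by ext w; simp only [mem_insert, mem_singleton]; tauto) h2 h3.symm
        h1.symm hD hne hp2 hq2
    · exact k5c_main hB hk4 hz hFB (by ext w; simp only [mem_insert, mem_singleton]; tauto) h3.symm h1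
        h2.symm hD hne hp2 hq2
    · exact k5c_main hB hk4 hz hFB (by ext w; simp only [mem_insert, mem_singleton]; tauto) h2.symm h1.symm
        h3.symm hD hne hp2 hq2
    · exact hpq rfl


end Pool.Agent.Lib.MP_f599e5_co
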