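import Pool.Agent.Lib.MP_f599e5_co.EBP
import Pool.Agent.Lib.MP_f599e5_co.ECy2
import Pool.Agent.Lib.MP_f599e5_co.K5C

set_option autoImplicit false
set_option linter.unusedSectionVars false

/-!
# JOB EN: the block is not bipartite; a shortest odd cycle (4.4, beginning of 4.5)

* `Blk.odd_cyc`: otherwise no odd cycle in `B`; `two_col` (EPar) gives a colouring, `BPh G h B c c` (`ne`: `hB.ne`; `deg`: `2h ≥ h + 1`), `bp` (EBP) gives `ZC (2*h) G`.
* `Blk.exists_short`: let `g` be the least odd number with `CycS G B g` (`Nat.find`), `CycS.toCyc` gives `f`, `Cyc G f g`, `cycV f g ⊆ B`.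
  `g5`: `3 ≤ g` (`g3`); `g ≠ 3`: `f 0, f 1, f 2` would be a triangle (`f 3 = f 0` by `per`; `Blk.tri_free`, K5C); `g` odd, so `g ≥ 5`.
  `ind`: `G.Adj (f i) (f (i+a))`, `2 ≤ a`, `a + 2 ≤ g`: `Cyc.ext` (ECy2) with `T = {f i, f (i+a)}`, `n = 1` (`PL.edge`): cycles of lengths `1 + a` and `1 + (g - a)` in `B`, both `< g`; their sum `g + 2` is odd, so one of them is
  odd: contradiction to the minimality of `g`.
  `out`: `x ∉ cycV f g`, `x ~ f i`, `x ~ f (i+a)`, `1 ≤ a < g`: `Cyc.ext` with `T = {f i, x, f (i+a)}`, `n = 2`: cycles in `B` of lengths `2 + a`, `2 + (g - a)`; one is odd.  If `2 + a` is odd: `g ≤ 2 + a`, so `a ∈ {g-2, g-1}`, and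
  `a` is odd, `g` odd: `a = g - 2`.  If `2 + (g-a)` is odd: `g ≤ 2 + g - a`, `a ≤ 2`, `g - a` odd, so `a` even: `a = 2`.
-/

namespace Pool.Agent.Lib.MP_f599e5_co

open Finset

variable {V : Type} [DecidableEq V] {G : SimpleGraph V}

theorem Blk.odd_cyc {h : ℕ} {B : Finset V} {c : V} (hB : Blk G (2 * h) B c) (hh : 2 ≤ h)
    (hz : ¬ ZC (2 * h) G) : ∃ n, Odd n ∧ CycS G B n := by
  by_contra hcon
  have hno : ∀ n, Odd n → ¬ CycS G B n := fun n h1 h2 => hcon ⟨n, h1, h2⟩
  have hb : BPh G h B c c := by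
    refine ⟨two_col hno, ?_, ?_⟩
    · obtain ⟨v, hv, hvc⟩ := hB.ne
      exact ⟨v, hv, hvc, hvc⟩
    · intro x hx hxc _
      have h1 := hB.deg x hx hxc
      omega
  exact hz (bp hh hb)

/-- a shortest odd cycle of `B` -/
structure Short (G : SimpleGraph V) (B : Finset V) (f : ℤ → V) (g : ℕ) : Prop where
  cyc : Cyc G f g
  sub : cycV f g ⊆ B
  odd : Odd g
  g5 : 5 ≤ g
  ind : ∀ (i : ℤ) (a : ℕ), 2 ≤ a → a + 2 ≤ g → ¬ G.Adj (f i) (f (i + a))
  out : ∀ x ∈ B, x ∉ cycV f g → ∀ (i : ℤ) (a : ℕ), 1 ≤ a → a < g → G.Adj x (f i) → G.Adj x (f (i + a)) →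
    a = 2 ∨ a + 2 = g

theorem Blk.exists_short {h : ℕ} {B : Finset V} {c : V} (hB : Blk G (2 * h) B c) (hh : 2 ≤ h)
    (hz : ¬ ZC (2 * h) G) : ∃ f g, Short G B f g := by
  classical
  have hex : ∃ n, Odd n ∧ CycS G B n := hB.odd_cyc hh hz
  obtain ⟨g, ⟨hgo, hgc⟩, hmin'⟩ : ∃ g, (Odd g ∧ CycS G B g) ∧ ∀ n, Odd n ∧ CycS G B n → g ≤ n :=
    ⟨Nat.find hex, Nat.find_spec hex, fun n hn => Nat.find_min' hex hn⟩
  have hmin : ∀ n, Odd n → CycS G B n → g ≤ n := fun n h1 h2 => hmin' n ⟨h1, h2⟩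
  obtain ⟨f, hf, hfB⟩ := hgc.toCyc
  have hfi : ∀ i, f i ∈ B := fun i => hfB (hf.mem i)
  have hg3 := hf.g3
  obtain ⟨s, hs⟩ := hgo
  refine ⟨f, g, hf, hfB, ⟨s, hs⟩, ?_, ?_, ?_⟩
  · by_contra hlt
    have hg3' : g = 3 := by omega
    have h01 : G.Adj (f 0) (f 1) := hf.adj 0
    have h12 : G.Adj (f 1) (f 2) := hf.adj 1
    have h23 : G.Adj (f 2) (f 3) := hf.adj 2
    have hper := hf.per 0
    rw [hg3'] at hper
    have hper' : f 3 = f 0 := hper
    rw [hper'] at h23
    exact hB.tri_free (by omega) hz (hfi 0) (hfi 1) (hfi 2) h01 h12 h23.symm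
  · intro i a h2a hag hadj
    have hT : PL G {f i, f (i + a)} (f i) (f (i + a)) 1 := PL.edge hadj (by simp) (by simp)
    have h1 := hf.ext i (a := a) (by omega) (by omega) hT (by
      intro x hx _
      rw [Finset.mem_insert, Finset.mem_singleton] at hx
      exact hx) (by omega) (by omega)
    have hsub : ({f i, f (i + a)} : Finset V) ∪ cycV f g ⊆ B := by
      refine Finset.union_subset ?_ hfB
      intro x hx
      rw [Finset.mem_insert, Finset.mem_singleton] at hx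
      rcases hx with rfl | rfl
      · exact hfi _
      · exact hfi _
    rcases Nat.even_or_odd a with hev | hod
    · obtain ⟨t, ht⟩ := hev
      have h2 := hmin (1 + a) ⟨t, by omega⟩ (h1.1.mono hsub)
      omega
    · obtain ⟨t, ht⟩ := hod
      have h2 := hmin (1 + (g - a)) ⟨s - t, by omega⟩ (h1.2.mono hsub)
      omega
  · intro x hxB hxn i a h1a hag hxi hxa
    have hne : f i ≠ f (i + a) := hf.ne i (by omega) hag
    have hxfi : f i ≠ x := fun h3 => hxn (h3 ▸ hf.mem i)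
    have e1 : PL G {x, f (i + a)} x (f (i + a)) 1 := PL.edge hxa (by simp) (by simp)
    have hT := PL.cons hxi.symm e1 (by
      rw [Finset.mem_insert, Finset.mem_singleton, not_or]
      exact ⟨hxfi, hne⟩)
    have h1 := hf.ext i (a := a) (by omega) hag hT (by
      intro y hy hyc
      rw [Finset.mem_insert, Finset.mem_insert, Finset.mem_singleton] at hy
      rcases hy with hy | hy | hy
      · exact Or.inl hy
      · exact absurd (hy ▸ hyc) hxn
      · exact Or.inr hy) (by omega) (by omega)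
    have hsub : (insert (f i) {x, f (i + a)} : Finset V) ∪ cycV f g ⊆ B := by
      refine Finset.union_subset ?_ hfB
      intro y hy
      rw [Finset.mem_insert, Finset.mem_insert, Finset.mem_singleton] at hy
      rcases hy with rfl | rfl | rfl
      · exact hfi _
      · exact hxB
      · exact hfi _
    rcases Nat.even_or_odd a with hev | hod
    · obtain ⟨t, ht⟩ := hev
      have h2 := hmin (1 + 1 + (g - a)) ⟨s + 1 - t, by omega⟩ (h1.2.mono hsub)
      omega
    · obtain ⟨t, ht⟩ := hod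
      have h2 := hmin (1 + 1 + a) ⟨t + 1, by omega⟩ (h1.1.mono hsub)
      omega

end Pool.Agent.Lib.MP_f599e5_co
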