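import Pool.Agent.Lib.MP_f599e5_co.K3

set_option autoImplicit false
set_option linter.unusedSectionVars false

/-!
# JOB K4: `sep` (2.4, 2.5, 2.6)

* `Blk.sep1`: `S.card ≤ 1`, `C ⊆ B \ S`, `v ∈ C`, `v ≠ c`, `bd G B C ⊆ S`.  If `S = {w}`: `w ∉ C`, `b3` gives `B.erase w ⊆ C`, so
  `B \ (C ∪ S) = ∅`.  If `S = ∅`: `bd G B C = ∅`; let `w ∈ B \ C` (the goal is `w = c`); `b3` for this `w` gives `B.erase w ⊆ C`.  If `w ≠ c` then
  `deg` gives a neighbour of `w` in `B` (`1 ≤ k`), it is `≠ w`, so in `C`, so `w ∈ bd G B C = ∅`, contradiction.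
* `Sep.fail`: from `¬ Sep (j+1)`: `S0`, `C` with `S0.card ≤ j+1`, `C ⊆ B \ S0`, `v ∈ C`, `v ≠ c`, `bd G B C ⊆ S0`, `e ∈ B \ (C ∪ S0)`, `e ≠ c`.
  Put `S = S0 ∩ B`.  `C0` = component of `B \ S` containing `v` (`exists_comp`), `E0` = component of `B \ S` containing `e`.  `C` is closed in
  `B \ S` (`bd G (B \ S) C = ∅` as `bd G B C ⊆ S0 ∩ B = S`), so `C0 ⊆ C` (`IsComp.subset_of_closed`), `e ∉ C0`, so `C0 ≠ E0` are disjoint
  (`IsComp.disjoint`).  If some `s ∈ S` is not adjacent to `C0`: `bd G B C0 ⊆ S.erase s` (`mem_bd_comp`), which has `≤ j` elements, and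
  `C0 ⊆ B \ (S.erase s)`, so `Sep j` gives `B \ (C0 ∪ S.erase s) ⊆ {c}`, but it contains `e ≠ c` (`e ∉ C0`, `e ∉ S`).  The same for `E0` with
  `v`.  If `S.card ≤ j` then `Sep j` for `C0`, `S` gives the same contradiction; so `S.card = j+1`.
* `Blk.sep2_odd`: otherwise `Sep.fail` (with `Blk.sep1`) gives `S = {u,v}`, `C0`, `E0`.  `Blk.ears0` with `F = S`, `R1 = {u}`, `R2 = {v}`, `lam = 0`
  (`nb G x S` has at most the elements `u, v`: its card is `≤ min 1 (nb G x {u}).card + min 1 (nb G x {v}).card`) gives `Adm (k-1)` for `C0` and for `E0`;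
  `closing2_odd` with `S1 = {u}`, `S2 = {v}`, `a = b = 0` (`PL.refl`), `2(k-1) ≥ k+1`.
* `Blk.sep3_odd`: otherwise `S = {s1,s2,s3}` (three different vertices, `Finset.card_eq_three`).  `rz_of_sep` with `j = 2`, `X = {s3}`, `R1 = {s1}`, `R2 = {s2}`,
  `F = S` (`hout`: `s1` or `s2` is `≠ c`, and they are `≠ s3`); `Blk.ears` with `lam = 1` (`nb G x S` has at most one element more), `k-2 ≥ 3` so `he` is
  vacuous.  `closing2_odd` with `n = p = k-2`, `2(k-2) ≥ k+1`.
-/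

namespace Pool.Agent.Lib.MP_f599e5_co

open Finset

variable {V : Type} [DecidableEq V] {G : SimpleGraph V}

theorem Blk.sep1 {k : ℕ} {B : Finset V} {c : V} (hB : Blk G k B c) (hk : 1 ≤ k) : Sep G B c 1 := by
  rintro S C hS hC ⟨v, hv, hvc⟩ hb
  have hCB : C ⊆ B := fun x hx => (mem_sdiff.1 (hC hx)).1
  rcases Finset.eq_empty_or_nonempty S with h0 | h0
  · subst h0
    have hbe : bd G B C = ∅ := Finset.subset_empty.1 hb
    intro w hw
    rw [mem_singleton]
    by_contra hwc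
    rw [Finset.union_empty, mem_sdiff] at hw
    have h1 := hB.b3 C hCB ⟨v, hv⟩ w hw.2 (by rw [hbe]; exact Finset.empty_subset _)
    have h2 := hB.deg w hw.1 hwc
    obtain ⟨x, hx⟩ := card_pos.1 (show 0 < (nb G w B).card by omega)
    rw [mem_nb] at hx
    have hxw : x ≠ w := fun h => G.loopless.irrefl w (h ▸ hx.2)
    have h3 : x ∈ C := h1 (mem_erase.2 ⟨hxw, hx.1⟩)
    have h4 : w ∈ bd G B C := mem_bd.2 ⟨hw.1, hw.2, x, h3, hx.2.symm⟩
    rw [hbe] at h4
    exact absurd h4 (Finset.notMem_empty _)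
  · have hS1 : S.card = 1 := by
      have := card_pos.2 h0
      omega
    obtain ⟨w, hw⟩ := card_eq_one.1 hS1
    subst hw
    have hwC : w ∉ C := fun h => (mem_sdiff.1 (hC h)).2 (mem_singleton_self _)
    have h1 := hB.b3 C hCB ⟨v, hv⟩ w hwC hb
    intro x hx
    exfalso
    rw [mem_sdiff, mem_union, mem_singleton, not_or] at hx
    exact hx.2.1 (h1 (mem_erase.2 ⟨hx.2.2, hx.1⟩))

private theorem K4_aux {B : Finset V} {c : V} {j : ℕ} (hs : Sep G B c j) {S C0 : Finset V} {v e : V}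
    (hSB : S ⊆ B) (hScard : S.card ≤ j + 1) (hC0 : IsComp G (B \ S) C0) (hv : v ∈ C0) (hvc : v ≠ c)
    (heB : e ∈ B) (heS : e ∉ S) (heC : e ∉ C0) (hec : e ≠ c) :
    S.card = j + 1 ∧ ∀ s ∈ S, ∃ x ∈ C0, G.Adj x s := by
  have hmain : ∀ T ⊆ S, T.card ≤ j → bd G B C0 ⊆ T → False := by
    intro T hTS hT hb
    have h1 : C0 ⊆ B \ T := by
      intro x hx
      have h2 := mem_sdiff.1 (hC0.1 hx)
      exact mem_sdiff.2 ⟨h2.1, fun hh => h2.2 (hTS hh)⟩
    have h3 := hs T C0 hT h1 ⟨v, hv, hvc⟩ hb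
    apply hec
    apply mem_singleton.1
    apply h3
    refine mem_sdiff.2 ⟨heB, fun hh => ?_⟩
    rcases mem_union.1 hh with h4 | h4
    · exact heC h4
    · exact heS (hTS h4)
  constructor
  · by_contra hne
    exact hmain S (Subset.refl _) (by omega) (fun w hw => ((mem_bd_comp hSB hC0).1 hw).1)
  · intro s hs'
    by_contra hno
    refine hmain (S.erase s) (erase_subset _ _) ?_ ?_
    · rw [card_erase_of_mem hs']
      omega
    · intro w hw
      have h5 := (mem_bd_comp hSB hC0).1 hw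
      refine mem_erase.2 ⟨fun hh => hno ?_, h5.1⟩
      subst hh
      exact h5.2

theorem Sep.fail {B : Finset V} {c : V} {j : ℕ} (hs : Sep G B c j) (hn : ¬ Sep G B c (j + 1)) :
    ∃ S C0 E0 : Finset V, S ⊆ B ∧ S.card = j + 1 ∧ IsComp G (B \ S) C0 ∧ IsComp G (B \ S) E0 ∧
      Disjoint C0 E0 ∧ (∃ v ∈ C0, v ≠ c) ∧ (∃ v ∈ E0, v ≠ c) ∧ (∀ s ∈ S, ∃ x ∈ C0, G.Adj x s) ∧
      (∀ s ∈ S, ∃ x ∈ E0, G.Adj x s) := by
  have hn' : ∃ S0 C : Finset V, S0.card ≤ j + 1 ∧ C ⊆ B \ S0 ∧ (∃ v ∈ C, v ≠ c) ∧ bd G B C ⊆ S0 ∧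
      ¬ (B \ (C ∪ S0) ⊆ {c}) := by
    by_contra hcon
    apply hn
    intro S0 C h1 h2 h3 h4
    by_contra h5
    exact hcon ⟨S0, C, h1, h2, h3, h4, h5⟩
  obtain ⟨S0, C, hS0, hC, ⟨v, hv, hvc⟩, hb, hE⟩ := hn'
  obtain ⟨e, he, hec⟩ := Finset.not_subset.1 hE
  rw [mem_singleton] at hec
  rw [mem_sdiff, mem_union, not_or] at he
  obtain ⟨heB, heC, heS⟩ := he
  have hSB : S0 ∩ B ⊆ B := inter_subset_right
  have hScard : (S0 ∩ B).card ≤ j + 1 := (card_le_card inter_subset_left).trans hS0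
  have hvd := mem_sdiff.1 (hC hv)
  have hvS : v ∈ B \ (S0 ∩ B) := mem_sdiff.2 ⟨hvd.1, fun hh => hvd.2 (mem_inter.1 hh).1⟩
  have heS' : e ∈ B \ (S0 ∩ B) := mem_sdiff.2 ⟨heB, fun hh => heS (mem_inter.1 hh).1⟩
  obtain ⟨C0, hvC0, hC0⟩ := exists_comp (G := G) hvS
  obtain ⟨E0, heE0, hE0⟩ := exists_comp (G := G) heS'
  have hCsub : C ⊆ B \ (S0 ∩ B) := by
    intro x hx
    have h1 := mem_sdiff.1 (hC hx)
    exact mem_sdiff.2 ⟨h1.1, fun hh => h1.2 (mem_inter.1 hh).1⟩
  have hCcl : bd G (B \ (S0 ∩ B)) C = ∅ := by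
    rw [Finset.eq_empty_iff_forall_notMem]
    intro w hw
    obtain ⟨hw1, hwC, x, hx, hxw⟩ := mem_bd.1 hw
    rw [mem_sdiff] at hw1
    have h2 : w ∈ S0 := hb (mem_bd.2 ⟨hw1.1, hwC, x, hx, hxw⟩)
    exact hw1.2 (mem_inter.2 ⟨h2, hw1.1⟩)
  have hC0C : C0 ⊆ C := hC0.subset_of_closed hCsub hCcl hvC0 hv
  have heC0 : e ∉ C0 := fun hh => heC (hC0C hh)
  have hne : C0 ≠ E0 := fun hh => heC0 (by rw [hh]; exact heE0)
  have hdis : Disjoint C0 E0 := hC0.disjoint hE0 hne
  have hvE0 : v ∉ E0 := fun hh => Finset.disjoint_left.1 hdis hvC0 hh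
  have r1 := K4_aux hs hSB hScard hC0 hvC0 hvc heB (fun hh => heS (mem_inter.1 hh).1) heC0 hec
  have r2 := K4_aux hs hSB hScard hE0 heE0 hec hvd.1 (fun hh => hvd.2 (mem_inter.1 hh).1) hvE0 hvc
  exact ⟨S0 ∩ B, C0, E0, hSB, r1.1, hC0, hE0, hdis, ⟨v, hvC0, hvc⟩, ⟨e, heE0, hec⟩, r1.2, r2.2⟩

private theorem K4_disj {B S D : Finset V} (hD : IsComp G (B \ S) D) : Disjoint D S := by
  rw [Finset.disjoint_left]
  exact fun x hx => (mem_sdiff.1 (hD.1 hx)).2

private theorem K4_min {v s : V} (h : G.Adj v s) : min 1 (nb G v ({s} : Finset V)).card = 1 :=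
  min_nb_pos ⟨s, mem_singleton_self _, h⟩

private theorem K4_one {v s : V} : (nb G v ({s} : Finset V)).card ≤ min 1 (nb G v ({s} : Finset V)).card := by
  have h1 : (nb G v ({s} : Finset V)).card ≤ ({s} : Finset V).card := nb_card_le
  rw [card_singleton] at h1
  omega

private theorem K4_loss2 {v a b : V} : (nb G v ({a, b} : Finset V)).card ≤
    min 1 (nb G v ({a} : Finset V)).card + min 1 (nb G v ({b} : Finset V)).card := by
  have h1 : (nb G v ({a, b} : Finset V)).card ≤ (nb G v {a}).card + (nb G v {b}).card := by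
    refine nb_card_le_add (fun x hx _ => ?_)
    rw [mem_insert, mem_singleton] at hx
    rw [mem_singleton, mem_singleton]
    exact hx
  have h2 := K4_one (G := G) (v := v) (s := a)
  have h3 := K4_one (G := G) (v := v) (s := b)
  omega

private theorem K4_loss3 {v a b d : V} : (nb G v ({a, b, d} : Finset V)).card ≤
    min 1 (nb G v ({a} : Finset V)).card + min 1 (nb G v ({b} : Finset V)).card + 1 := by
  have h1 : (nb G v ({a, b, d} : Finset V)).card ≤ (nb G v {a, b}).card + (nb G v {d}).card := by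
    refine nb_card_le_add (fun x hx _ => ?_)
    rw [mem_insert, mem_insert, mem_singleton] at hx
    rw [mem_insert, mem_singleton, mem_singleton]
    tauto
  have h2 := K4_loss2 (G := G) (v := v) (a := a) (b := b)
  have h3 : (nb G v ({d} : Finset V)).card ≤ ({d} : Finset V).card := nb_card_le
  rw [card_singleton] at h3
  omega

private theorem K4_ear2 {k : ℕ} {B D : Finset V} {c a b : V} (hB : Blk G k B c) (hk3 : 3 ≤ k) (hne : a ≠ b)
    (hSB : ({a, b} : Finset V) ⊆ B) (hD : IsComp G (B \ {a, b}) D) (hDc : ∃ v ∈ D, v ≠ c)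
    (hadj : ∀ s ∈ ({a, b} : Finset V), ∃ x ∈ D, G.Adj x s) : Adm G (k - 1) D {a} {b} := by
  have h := hB.ears0 (lam := 0) (R1 := {a}) (R2 := {b}) hSB (by simp) (by simp)
    (by rw [Finset.disjoint_singleton]; exact hne) hD hDc
    (by
      obtain ⟨x, hx, hxa⟩ := hadj a (by simp)
      exact ⟨x, hx, a, mem_singleton_self _, hxa⟩)
    (by
      obtain ⟨x, hx, hxa⟩ := hadj b (by simp)
      exact ⟨x, hx, b, mem_singleton_self _, hxa⟩)
    (by
      intro v _ x hx h1 h2 _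
      rw [mem_insert, mem_singleton] at hx
      rw [mem_singleton] at h1 h2
      rcases hx with h3 | h3
      · exact h1 h3
      · exact h2 h3)
    (by omega)
    (by
      intro v _ _
      have := K4_loss2 (G := G) (v := v) (a := a) (b := b)
      omega)
  simpa using h

theorem Blk.sep2_odd {k : ℕ} {B : Finset V} {c : V} (hB : Blk G k B c) (hk : Odd k) (hk3 : 3 ≤ k)
    (hz : ¬ ZC k G) : Sep G B c 2 := by
  by_contra hn
  obtain ⟨S, C0, E0, hSB, hScard, hC0, hE0, hdis, hv, he, hadjC, hadjE⟩ := (hB.sep1 (by omega)).fail hn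
  obtain ⟨a, b, hab, hS⟩ := card_eq_two.1 hScard
  subst hS
  have h1 := K4_ear2 hB hk3 hab hSB hC0 hv hadjC
  have h2 := K4_ear2 hB hk3 hab hSB hE0 he hadjE
  have dC := K4_disj hC0
  have dE := K4_disj hE0
  refine hz (closing2_odd (S1 := {a}) (S2 := {b}) (a := 0) (b := 0) hk h1 h2 (by omega) (by omega) (by omega)
    hdis ?_ ?_ ?_ ?_ ?_ (PL.refl (mem_singleton_self _)) (PL.refl (mem_singleton_self _)))
  · exact Finset.disjoint_of_subset_right (by simp) dC
  · exact Finset.disjoint_of_subset_right (by simp) dC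
  · exact Finset.disjoint_of_subset_right (by simp) dE
  · exact Finset.disjoint_of_subset_right (by simp) dE
  · rw [Finset.disjoint_singleton]; exact hab

private theorem K4_ear3 {k : ℕ} {B D : Finset V} {c a b d : V} (hB : Blk G k B c) (hk5 : 5 ≤ k)
    (hs : Sep G B c 2) (hab : a ≠ b) (had : a ≠ d) (hbd : b ≠ d)
    (hSB : ({a, b, d} : Finset V) ⊆ B) (hD : IsComp G (B \ {a, b, d}) D) (hDc : ∃ v ∈ D, v ≠ c)
    (hadj : ∀ s ∈ ({a, b, d} : Finset V), ∃ x ∈ D, G.Adj x s) : Adm G (k - 1 - 1) D {a} {b} := by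
  have a1 : adjS G D {a} := by
    obtain ⟨x, hx, hxa⟩ := hadj a (by simp)
    exact ⟨x, hx, a, mem_singleton_self _, hxa⟩
  have a2 : adjS G D {b} := by
    obtain ⟨x, hx, hxa⟩ := hadj b (by simp)
    exact ⟨x, hx, b, mem_singleton_self _, hxa⟩
  have hR : Rz G D {a} {b} c := by
    refine rz_of_sep (X := {d}) hs hSB hD hDc a1 a2 (by simp) (by simp) ?_ ?_
    · intro v _ x hx h1 h2 _
      rw [mem_insert, mem_insert, mem_singleton] at hx
      rw [mem_singleton] at h1 h2 ⊢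
      rcases hx with h3 | h3 | h3
      · exact absurd h3 h1
      · exact absurd h3 h2
      · exact h3
    · by_cases hac : a = c
      · refine ⟨b, by simp, ?_, fun h => hab (hac.trans h.symm)⟩
        rw [mem_singleton]; exact hbd
      · refine ⟨a, by simp, ?_, hac⟩
        rw [mem_singleton]; exact had
  refine hB.ears (lam := 1) (R1 := {a}) (R2 := {b}) hSB (by simp) (by simp)
    (by rw [Finset.disjoint_singleton]; exact hab) hD hR (by omega) ?_ (fun h => by omega)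
  intro v _ _
  exact K4_loss3

theorem Blk.sep3_odd {k : ℕ} {B : Finset V} {c : V} (hB : Blk G k B c) (hk : Odd k) (hk5 : 5 ≤ k)
    (hz : ¬ ZC k G) : Sep G B c 3 := by
  have hs2 := hB.sep2_odd hk (by omega) hz
  by_contra hn
  obtain ⟨S, C0, E0, hSB, hScard, hC0, hE0, hdis, hv, he, hadjC, hadjE⟩ := hs2.fail hn
  obtain ⟨a, b, d, hab, had, hbd, hS⟩ := card_eq_three.1 hScard
  subst hS
  have h1 := K4_ear3 hB hk5 hs2 hab had hbd hSB hC0 hv hadjC
  have h2 := K4_ear3 hB hk5 hs2 hab had hbd hSB hE0 he hadjE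
  have dC := K4_disj hC0
  have dE := K4_disj hE0
  refine hz (closing2_odd (S1 := {a}) (S2 := {b}) (a := 0) (b := 0) hk h1 h2 (by omega) (by omega) (by omega)
    hdis ?_ ?_ ?_ ?_ ?_ (PL.refl (mem_singleton_self _)) (PL.refl (mem_singleton_self _)))
  · exact Finset.disjoint_of_subset_right (by simp) dC
  · exact Finset.disjoint_of_subset_right (by simp) dC
  · exact Finset.disjoint_of_subset_right (by simp) dE
  · exact Finset.disjoint_of_subset_right (by simp) dE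
  · rw [Finset.disjoint_singleton]; exact hab

/-- a component of `B \ F` has at least `j + 1` neighbours in `F` if `F` is large -/
theorem Sep.le_bd {B F D : Finset V} {c : V} {j : ℕ} (hs : Sep G B c j) (hF : F ⊆ B) (hFc : j + 2 ≤ F.card)
    (hD : IsComp G (B \ F) D) (hne : ∃ v ∈ D, v ≠ c) : j + 1 ≤ (bd G B D).card := by
  by_contra hcon
  have hS : (bd G B D).card ≤ j := by omega
  have hsub : bd G B D ⊆ F := fun w hw => ((mem_bd_comp hF hD).1 hw).1
  have hDB : D ⊆ B \ bd G B D := by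
    intro x hx
    refine mem_sdiff.2 ⟨(mem_sdiff.1 (hD.1 hx)).1, fun h => ?_⟩
    exact (mem_sdiff.1 (hD.1 hx)).2 (hsub h)
  have h := hs (bd G B D) D hS hDB hne (Subset.refl _)
  have h2 : 2 ≤ (F \ bd G B D).card := by
    have := Finset.le_card_sdiff (bd G B D) F
    omega
  obtain ⟨x, hx, y, hy, hxy⟩ := Finset.one_lt_card.1 h2
  have key : ∀ t, t ∈ F \ bd G B D → t = c := by
    intro t ht
    have ht1 := (mem_sdiff.1 ht).1
    have : t ∈ B \ (D ∪ bd G B D) := by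
      refine mem_sdiff.2 ⟨hF ht1, fun hh => ?_⟩
      rcases mem_union.1 hh with h3 | h3
      · exact (mem_sdiff.1 (hD.1 h3)).2 ht1
      · exact (mem_sdiff.1 ht).2 h3
    exact mem_singleton.1 (h this)
  exact hxy ((key x hx).trans (key y hy).symm)


end Pool.Agent.Lib.MP_f599e5_co
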