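import Pool.Agent.Lib.MP_f599e5_co.ESe2
import Pool.Agent.Lib.MP_f599e5_co.K4

set_option autoImplicit false
set_option linter.unusedSectionVars false

/-!
# JOB ESe3: sep(2) and sep(3) for even k (4.2, 4.3)

`Blk.sep2_even`: suppose not; `Sep.fail` (K4, with `Blk.sep1`, `j = 1`) gives `S` with 2 elements, components `C0 ≠ E0` (disjoint) of `B \ S`, each containing a vertex `≠ c`, every `s ∈ S` adjacent to both.
`S = {u, v}` (`Finset.card_eq_two`), `u ≠ v`.  `Blk.ears0` (K2) with `F = S`, `R1 = {u}`, `R2 = {v}`, `lam = 0` (`hloss`: `nb G x S ⊆ {u,v}`, card `≤ min 1 (nb G x {u}).card + min 1 (nb G x {v}).card`) gives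
`Adm G (2h-1) C0 {u} {v}` and `Adm G (2h-1) E0 {u} {v}`; `Blk.r0` (K2) gives `R0 G C0 {u} {v}` and `R0 G E0 {u} {v}`.
The sets `C0`, `E0` are disjoint, so `c ∉ C0` or `c ∉ E0`.  By symmetry (apply the following to `(E0, C0)` in the other case) `c ∉ C0`.  `two_ears_even` (ESe2) with `n = 2h - 1`: for `x ∈ C0`: `x ≠ c`, so
`2h ≤ (nb G x B).card` and all neighbours of `x` in `B` are in `C0` or in `S` (`comp_nb`, K2): `nb G x B ⊆ nb G x (insert u (insert v C0))`; `2h ≥ h + 1`.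
`Blk.sep3_even` (`3 ≤ h`): suppose not; `Sep.fail` with `j = 2` and `Blk.sep2_even`: `S = {s1, s2, s3}` (`Finset.card_eq_three`), `C0`, `E0`.  `rz_of_sep` (K2) with `j = 2`, `X = {s3}`, `R1 = {s1}`, `R2 = {s2}`, `F = S`
(`hout`: `s1` or `s2` is `≠ c`; both are `≠ s3`), `Blk.ears` with `lam = 1` (`he`: `2h - 2 = 2` is impossible): `Adm G (2h-2) C0 {s1} {s2}`; the same for `E0`.
By symmetry `c ∉ C0`; then `Rz G C0 {s1} {s2} c` implies `R0 G C0 {s1} {s2}` (every nonempty subset of `C0` contains a vertex `≠ c`).  `two_ears_even` with `n = 2h - 2` (`h ≤ n`, `2h + 1 ≤ 2n` since `h ≥ 3`): degrees: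
`2h ≤ (nb G x B).card`, the neighbours are in `C0`, `s1, s2` or `s3`: at least `2h - 1 ≥ h + 1` in `insert s1 (insert s2 C0)`.
-/

namespace Pool.Agent.Lib.MP_f599e5_co

open Finset

variable {V : Type} [DecidableEq V] {G : SimpleGraph V}

private theorem ese3_one {v y : V} : (nb G v {y}).card ≤ 1 := by
  have := nb_card_le (G := G) (v := v) (A := {y})
  rwa [card_singleton] at this

private theorem ese3_adm2 {h : ℕ} {B : Finset V} {c u v : V} (hB : Blk G (2 * h) B c) (hh : 2 ≤ h) (huv : u ≠ v)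
    (hS : ({u, v} : Finset V) ⊆ B) {C0 : Finset V} (hC : IsComp G (B \ {u, v}) C0) (hne : ∃ x ∈ C0, x ≠ c)
    (hsC : ∀ s ∈ ({u, v} : Finset V), ∃ x ∈ C0, G.Adj x s) : Adm G (2 * h - 1) C0 {u} {v} := by
  have hd : Disjoint ({u} : Finset V) {v} := disjoint_singleton.2 huv
  have h1 : ({u} : Finset V) ⊆ {u, v} := singleton_subset_iff.2 (mem_insert_self _ _)
  have h2 : ({v} : Finset V) ⊆ {u, v} := singleton_subset_iff.2 (mem_insert_of_mem (mem_singleton_self _))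
  have a1 : adjS G C0 {u} := by
    obtain ⟨x, hx, ha⟩ := hsC u (mem_insert_self _ _)
    exact ⟨x, hx, u, mem_singleton_self _, ha⟩
  have a2 : adjS G C0 {v} := by
    obtain ⟨x, hx, ha⟩ := hsC v (mem_insert_of_mem (mem_singleton_self _))
    exact ⟨x, hx, v, mem_singleton_self _, ha⟩
  have := hB.ears0 (lam := 0) hS h1 h2 hd hC hne a1 a2 ?_ (by omega) ?_
  · simpa using this
  · intro w _ x hx hx1 hx2 _
    rw [mem_insert, mem_singleton] at hx
    rcases hx with hx | hx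
    · exact hx1 (mem_singleton.2 hx)
    · exact hx2 (mem_singleton.2 hx)
  · intro w _ _
    have h3 : (nb G w {u, v}).card ≤ (nb G w {u}).card + (nb G w {v}).card := by
      refine nb_card_le_add ?_
      intro x hx _
      rw [mem_insert] at hx
      rcases hx with hx | hx
      · exact Or.inl (mem_singleton.2 hx)
      · exact Or.inr hx
    have h4 := ese3_one (G := G) (v := w) (y := u)
    have h5 := ese3_one (G := G) (v := w) (y := v)
    omega

private theorem ese3_key2 {h : ℕ} {B : Finset V} {c u v : V} (hB : Blk G (2 * h) B c) (hh : 2 ≤ h) (huv : u ≠ v)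
    (hS : ({u, v} : Finset V) ⊆ B) {C0 E0 : Finset V} (hC : IsComp G (B \ {u, v}) C0)
    (hE : IsComp G (B \ {u, v}) E0) (hd : Disjoint C0 E0) (hneC : ∃ x ∈ C0, x ≠ c) (hneE : ∃ x ∈ E0, x ≠ c)
    (hsC : ∀ s ∈ ({u, v} : Finset V), ∃ x ∈ C0, G.Adj x s) (hsE : ∀ s ∈ ({u, v} : Finset V), ∃ x ∈ E0, G.Adj x s)
    (hc : c ∉ C0) : ZC (2 * h) G := by
  have hu : u ∈ ({u, v} : Finset V) := mem_insert_self _ _
  have hv : v ∈ ({u, v} : Finset V) := mem_insert_of_mem (mem_singleton_self _)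
  have hR : R0 G C0 {u} {v} := by
    refine hB.r0 hS (singleton_subset_iff.2 hu) (singleton_subset_iff.2 hv) (disjoint_singleton.2 huv) hC ?_ ?_ ?_
    · obtain ⟨x, hx, ha⟩ := hsC u hu
      exact ⟨x, hx, u, mem_singleton_self _, ha⟩
    · obtain ⟨x, hx, ha⟩ := hsC v hv
      exact ⟨x, hx, v, mem_singleton_self _, ha⟩
    · intro w _ x hx hx1 hx2 _
      rw [mem_insert, mem_singleton] at hx
      rcases hx with hx | hx
      · exact hx1 (mem_singleton.2 hx)
      · exact hx2 (mem_singleton.2 hx)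
  refine two_ears_even (n := 2 * h - 1) hh (by omega) (by omega) (by omega) huv
    (fun h1 => (mem_sdiff.1 (hC.1 h1)).2 hu) (fun h1 => (mem_sdiff.1 (hC.1 h1)).2 hv)
    (fun h1 => (mem_sdiff.1 (hE.1 h1)).2 hu) (fun h1 => (mem_sdiff.1 (hE.1 h1)).2 hv) hd
    (ese3_adm2 hB hh huv hS hC hneC hsC) (ese3_adm2 hB hh huv hS hE hneE hsE) hR ?_
  intro x hx
  have h1 := hB.deg x (mem_sdiff.1 (hC.1 hx)).1 (fun e => hc (e ▸ hx))
  have h2 : nb G x B ⊆ nb G x (insert u (insert v C0)) := by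
    intro w hw
    rw [mem_nb] at hw ⊢
    refine ⟨?_, hw.2⟩
    rw [mem_insert, mem_insert]
    rcases comp_nb hS hC hx hw.1 hw.2 with h3 | h3
    · exact Or.inr (Or.inr h3)
    · rw [mem_insert, mem_singleton] at h3
      rcases h3 with h3 | h3
      · exact Or.inl h3
      · exact Or.inr (Or.inl h3)
  have h3 := card_le_card h2
  omega

theorem Blk.sep2_even {h : ℕ} {B : Finset V} {c : V} (hB : Blk G (2 * h) B c) (hh : 2 ≤ h)
    (hz : ¬ ZC (2 * h) G) : Sep G B c 2 := by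
  by_contra hn
  obtain ⟨S, C0, E0, hSB, hSc, hC, hE, hd, hneC, hneE, hsC, hsE⟩ := Sep.fail (hB.sep1 (by omega)) hn
  obtain ⟨u, v, huv, rfl⟩ := card_eq_two.1 hSc
  by_cases hc : c ∈ C0
  · exact hz (ese3_key2 hB hh huv hSB hE hC hd.symm hneE hneC hsE hsC (Finset.disjoint_left.1 hd hc))
  · exact hz (ese3_key2 hB hh huv hSB hC hE hd hneC hneE hsC hsE hc)

private theorem ese3_rz3 {h : ℕ} {B : Finset V} {c s1 s2 s3 : V} (hsep : Sep G B c 2)
    (h12 : s1 ≠ s2) (h13 : s1 ≠ s3) (h23 : s2 ≠ s3) (hS : ({s1, s2, s3} : Finset V) ⊆ B)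
    {C0 : Finset V} (hC : IsComp G (B \ {s1, s2, s3}) C0) (hne : ∃ x ∈ C0, x ≠ c)
    (hsC : ∀ s ∈ ({s1, s2, s3} : Finset V), ∃ x ∈ C0, G.Adj x s) : Rz G C0 {s1} {s2} c := by
  have m1 : s1 ∈ ({s1, s2, s3} : Finset V) := by simp
  have m2 : s2 ∈ ({s1, s2, s3} : Finset V) := by simp
  have m3 : s3 ∈ ({s1, s2, s3} : Finset V) := by simp
  refine rz_of_sep (X := {s3}) (j := 2) hsep hS hC hne ?_ ?_ (singleton_subset_iff.2 m3) (by simp) ?_ ?_
  · obtain ⟨x, hx, ha⟩ := hsC s1 m1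
    exact ⟨x, hx, s1, mem_singleton_self _, ha⟩
  · obtain ⟨x, hx, ha⟩ := hsC s2 m2
    exact ⟨x, hx, s2, mem_singleton_self _, ha⟩
  · intro v _ x hx hx1 hx2 _
    rw [mem_insert, mem_insert] at hx
    rcases hx with hx | hx | hx
    · exact absurd (mem_singleton.2 hx) hx1
    · exact absurd (mem_singleton.2 hx) hx2
    · exact hx
  · by_cases hc : s1 = c
    · exact ⟨s2, m2, fun h => h23 (mem_singleton.1 h), fun e => h12 (hc.trans e.symm)⟩
    · exact ⟨s1, m1, fun h => h13 (mem_singleton.1 h), hc⟩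

private theorem ese3_adm3 {h : ℕ} {B : Finset V} {c s1 s2 s3 : V} (hB : Blk G (2 * h) B c) (hh : 3 ≤ h)
    (hsep : Sep G B c 2)
    (h12 : s1 ≠ s2) (h13 : s1 ≠ s3) (h23 : s2 ≠ s3) (hS : ({s1, s2, s3} : Finset V) ⊆ B)
    {C0 : Finset V} (hC : IsComp G (B \ {s1, s2, s3}) C0) (hne : ∃ x ∈ C0, x ≠ c)
    (hsC : ∀ s ∈ ({s1, s2, s3} : Finset V), ∃ x ∈ C0, G.Adj x s) : Adm G (2 * h - 2) C0 {s1} {s2} := by
  have m1 : s1 ∈ ({s1, s2, s3} : Finset V) := by simp
  have m2 : s2 ∈ ({s1, s2, s3} : Finset V) := by simp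
  have hR := ese3_rz3 (h := h) hsep h12 h13 h23 hS hC hne hsC
  have := hB.ears (lam := 1) hS (singleton_subset_iff.2 m1) (singleton_subset_iff.2 m2)
    (disjoint_singleton.2 h12) hC hR (by omega) ?_ (fun h => by omega)
  · have e : 2 * h - 1 - 1 = 2 * h - 2 := by omega
    rwa [e] at this
  · intro w _ _
    have h3 : (nb G w {s1, s2, s3}).card ≤ (nb G w {s1}).card + (nb G w {s2, s3}).card := by
      refine nb_card_le_add ?_
      intro x hx _
      rw [mem_insert] at hx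
      rcases hx with hx | hx
      · exact Or.inl (mem_singleton.2 hx)
      · exact Or.inr hx
    have h3' : (nb G w {s2, s3}).card ≤ (nb G w {s2}).card + (nb G w {s3}).card := by
      refine nb_card_le_add ?_
      intro x hx _
      rw [mem_insert] at hx
      rcases hx with hx | hx
      · exact Or.inl (mem_singleton.2 hx)
      · exact Or.inr hx
    have h4 := ese3_one (G := G) (v := w) (y := s1)
    have h5 := ese3_one (G := G) (v := w) (y := s2)
    have h6 := ese3_one (G := G) (v := w) (y := s3)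
    omega

private theorem ese3_key3 {h : ℕ} {B : Finset V} {c s1 s2 s3 : V} (hB : Blk G (2 * h) B c) (hh : 3 ≤ h)
    (hsep : Sep G B c 2)
    (h12 : s1 ≠ s2) (h13 : s1 ≠ s3) (h23 : s2 ≠ s3) (hS : ({s1, s2, s3} : Finset V) ⊆ B)
    {C0 E0 : Finset V} (hC : IsComp G (B \ {s1, s2, s3}) C0) (hE : IsComp G (B \ {s1, s2, s3}) E0)
    (hd : Disjoint C0 E0) (hneC : ∃ x ∈ C0, x ≠ c) (hneE : ∃ x ∈ E0, x ≠ c)
    (hsC : ∀ s ∈ ({s1, s2, s3} : Finset V), ∃ x ∈ C0, G.Adj x s)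
    (hsE : ∀ s ∈ ({s1, s2, s3} : Finset V), ∃ x ∈ E0, G.Adj x s)
    (hc : c ∉ C0) : ZC (2 * h) G := by
  have m1 : s1 ∈ ({s1, s2, s3} : Finset V) := by simp
  have m2 : s2 ∈ ({s1, s2, s3} : Finset V) := by simp
  have hR := ese3_rz3 (h := h) hsep h12 h13 h23 hS hC hneC hsC
  have hR0 : R0 G C0 {s1} {s2} := by
    refine ⟨hC.2.2.1, ?_, ?_⟩
    · rintro C hCC ⟨v, hv⟩ hb
      exact hR.r1 C hCC ⟨v, hv, fun e => hc (e ▸ hCC hv)⟩ hb
    · rintro C hCC ⟨v, hv⟩ hb
      exact hR.r2 C hCC ⟨v, hv, fun e => hc (e ▸ hCC hv)⟩ hb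
  refine two_ears_even (n := 2 * h - 2) (by omega) (by omega) (by omega) (by omega) h12
    (fun h1 => (mem_sdiff.1 (hC.1 h1)).2 m1) (fun h1 => (mem_sdiff.1 (hC.1 h1)).2 m2)
    (fun h1 => (mem_sdiff.1 (hE.1 h1)).2 m1) (fun h1 => (mem_sdiff.1 (hE.1 h1)).2 m2) hd
    (ese3_adm3 hB hh hsep h12 h13 h23 hS hC hneC hsC) (ese3_adm3 hB hh hsep h12 h13 h23 hS hE hneE hsE) hR0 ?_
  intro x hx
  have h1 := hB.deg x (mem_sdiff.1 (hC.1 hx)).1 (fun e => hc (e ▸ hx))
  have h2 : (nb G x B).card ≤ (nb G x (insert s1 (insert s2 C0))).card + (nb G x {s3}).card := by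
    refine nb_card_le_add ?_
    intro w hw ha
    rw [mem_insert, mem_insert, mem_singleton]
    rcases comp_nb hS hC hx hw ha with h3 | h3
    · exact Or.inl (Or.inr (Or.inr h3))
    · rw [mem_insert, mem_insert, mem_singleton] at h3
      rcases h3 with h3 | h3 | h3
      · exact Or.inl (Or.inl h3)
      · exact Or.inl (Or.inr (Or.inl h3))
      · exact Or.inr h3
  have h3 := ese3_one (G := G) (v := x) (y := s3)
  omega

theorem Blk.sep3_even {h : ℕ} {B : Finset V} {c : V} (hB : Blk G (2 * h) B c) (hh : 3 ≤ h)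
    (hz : ¬ ZC (2 * h) G) : Sep G B c 3 := by
  by_contra hn
  have hsep := hB.sep2_even (by omega) hz
  obtain ⟨S, C0, E0, hSB, hSc, hC, hE, hd, hneC, hneE, hsC, hsE⟩ := Sep.fail hsep hn
  obtain ⟨s1, s2, s3, h12, h13, h23, rfl⟩ := card_eq_three.1 hSc
  by_cases hc : c ∈ C0
  · exact hz (ese3_key3 hB hh hsep h12 h13 h23 hSB hE hC hd.symm hneE hneC hsE hsC
      (Finset.disjoint_left.1 hd hc))
  · exact hz (ese3_key3 hB hh hsep h12 h13 h23 hSB hC hE hd hneC hneE hsC hsE hc)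

end Pool.Agent.Lib.MP_f599e5_co
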