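import Pool.Agent.Lib.MP_f599e5_co.EL

set_option autoImplicit false
set_option linter.unusedSectionVars false

/-!
# JOB EU: `Rz` for two roots (3.2 U1, 4.5 V2, 4.6 W2)

`rz_pair`: `D` a component of `B \ F`, `NonSep G D c`, `x ≠ y` in `F`, `u1 ≠ u2` in `D`, both `≠ c`, `u1 ~ x`, `u2 ~ y`.  `Rz G D {x} {y} c`:
`ne`: `u1`.  r1: `C ⊆ D` nonempty and closed in the connected `D` is `D`, which is adjacent to `x` and `y`.
r2: let `C ⊆ D` contain a vertex `v ≠ c`, `(bd G D C).card ≤ 1`, and suppose `C` is adjacent neither to `x` nor to `y`; so `u1, u2 ∉ C`.  `C ≠ D`, so `bd G D C` is nonempty (`Conn.bd_nonempty`), `bd G D C = {w}`, `w ∈ D`, `w ∉ C`.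
One of `u1, u2` is `≠ w`, call it `u`; `u ∈ D.erase w`.  `C` is closed in `D.erase w`.  Let `X` be the component of `D.erase w` containing `v` (`X ⊆ C`: `IsComp.subset_of_closed`) and `Y` the one containing `u` (`exists_comp`).
`NonSep` gives `X = Y`, so `u ∈ X ⊆ C`, contradiction.
`Blk.adm_pair`: `Blk.ears` (K2) with `R1 = {x}`, `R2 = {y}` and `rz_pair`.
-/

namespace Pool.Agent.Lib.MP_f599e5_co

open Finset

variable {V : Type} [DecidableEq V] {G : SimpleGraph V}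

/-- `x` and `y` have different neighbours in `D`, both different from `c` -/
def Rep (G : SimpleGraph V) (D : Finset V) (c x y : V) : Prop :=
  ∃ u1 ∈ D, ∃ u2 ∈ D, u1 ≠ c ∧ u2 ≠ c ∧ u1 ≠ u2 ∧ G.Adj u1 x ∧ G.Adj u2 y

theorem Rep.symm {D : Finset V} {c x y : V} (h : Rep G D c x y) : Rep G D c y x := by
  obtain ⟨u1, h1, u2, h2, h3, h4, h5, h6, h7⟩ := h
  exact ⟨u2, h2, u1, h1, h4, h3, h5.symm, h7, h6⟩

theorem rz_pair {B F D : Finset V} {c x y : V} (hD : IsComp G (B \ F) D) (hns : NonSep G D c)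
    (hr : Rep G D c x y) : Rz G D {x} {y} c := by
  obtain ⟨u1, hu1, u2, hu2, hc1, hc2, h12, hx, hy⟩ := hr
  have hcon := hD.2.2
  refine ⟨⟨u1, hu1, hc1⟩, ?_, ?_⟩
  · rintro C hC ⟨v, hv, _⟩ hb
    have h : C = D := hcon.2 C hC ⟨v, hv⟩ hb
    rw [h]
    exact ⟨⟨u1, hu1, x, mem_singleton_self _, hx⟩, ⟨u2, hu2, y, mem_singleton_self _, hy⟩⟩
  · rintro C hC ⟨v, hv, hvc⟩ hcard
    by_contra hno
    rw [not_or] at hno
    obtain ⟨n1, n2⟩ := hno
    have hu1C : u1 ∉ C := fun h => n1 ⟨u1, h, x, mem_singleton_self _, hx⟩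
    have hu2C : u2 ∉ C := fun h => n2 ⟨u2, h, y, mem_singleton_self _, hy⟩
    have hne : (bd G D C).Nonempty := hcon.bd_nonempty hC ⟨v, hv⟩ (fun h => hu1C (h.symm ▸ hu1))
    obtain ⟨w, hw⟩ := card_eq_one.1 (le_antisymm hcard (card_pos.2 hne))
    have hwm : w ∈ bd G D C := by
      rw [hw]
      exact mem_singleton_self _
    obtain ⟨hwD, hwC, -⟩ := mem_bd.1 hwm
    have hcl : bd G (D.erase w) C = ∅ := by
      rw [eq_empty_iff_forall_notMem]
      intro z hz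
      obtain ⟨hzD, hzC, a, ha, haz⟩ := mem_bd.1 hz
      obtain ⟨hzw, hzD'⟩ := mem_erase.1 hzD
      have : z ∈ bd G D C := mem_bd.2 ⟨hzD', hzC, a, ha, haz⟩
      rw [hw, mem_singleton] at this
      exact hzw this
    obtain ⟨u, hu, huc, huw, huC⟩ : ∃ u ∈ D, u ≠ c ∧ u ≠ w ∧ u ∉ C := by
      by_cases h : u1 = w
      · exact ⟨u2, hu2, hc2, fun h' => h12 (h.trans h'.symm), hu2C⟩
      · exact ⟨u1, hu1, hc1, h, hu1C⟩
    obtain ⟨X, hvX, hX⟩ := exists_comp (G := G) (D := D.erase w) (v := v)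
      (mem_erase.2 ⟨fun h => hwC (h ▸ hv), hC hv⟩)
    obtain ⟨Y, huY, hY⟩ := exists_comp (G := G) (D := D.erase w) (v := u) (mem_erase.2 ⟨huw, hu⟩)
    have hXY := hns w hwD X Y hX hY ⟨v, hvX, hvc⟩ ⟨u, huY, huc⟩
    have hXC : X ⊆ C := hX.subset_of_closed
      (fun z hz => mem_erase.2 ⟨fun h => hwC (h ▸ hz), hC hz⟩) hcl hvX hv
    exact huC (hXC (hXY ▸ huY))

theorem Blk.adm_pair {B F D : Finset V} {c x y : V} {k lam : ℕ} (hB : Blk G k B c) (hF : F ⊆ B)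
    (hD : IsComp G (B \ F) D) (hns : NonSep G D c) (hx : x ∈ F) (hy : y ∈ F) (hxy : x ≠ y)
    (hr : Rep G D c x y) (hlam : lam + 2 ≤ k)
    (hl : ∀ v ∈ D, v ≠ c → (nb G v F).card ≤ min 1 (nb G v {x}).card + min 1 (nb G v {y}).card + lam)
    (he : k - 1 - lam = 2 → 2 ≤ (D.erase c).card) : Adm G (k - 1 - lam) D {x} {y} :=
  hB.ears hF (singleton_subset_iff.2 hx) (singleton_subset_iff.2 hy) (by simpa using hxy) hD
    (rz_pair hD hns hr) hlam hl (fun h => Or.inr (he h))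

end Pool.Agent.Lib.MP_f599e5_co
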