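import Pool.Agent.Lib.MP_f599e5_co.Th
import Pool.Agent.Lib.MP_f599e5_co.EU
import Pool.Agent.Lib.MP_f599e5_co.EN
import Pool.Agent.Lib.MP_f599e5_co.ESe3

set_option autoImplicit false
set_option linter.unusedSectionVars false

/-! # E4d: `k = 4` (section 4.6), definitions

`Cy4`: all cycles of `G[B]` have length at least 5, not divisible by 4.  `NB`: the three lengths do not all have the same parity.
`MinT`: a theta in `B` whose lengths do not have all the same parity, with minimum total length.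
`Three G F x y`: paths in `F` from `x` to `y` of three different lengths mod 4. -/

namespace Pool.Agent.Lib.MP_f599e5_co

open Finset

variable {V : Type} [DecidableEq V] {G : SimpleGraph V}

/-- all cycles in `B` have length at least 5, not divisible by 4 -/
def Cy4 (G : SimpleGraph V) (B : Finset V) : Prop := ∀ n, CycS G B n → 5 ≤ n ∧ n % 4 ≠ 0

/-- the three numbers do not all have the same parity -/
def NB (l0 l1 l2 : ℕ) : Prop := ¬ (l0 % 2 = l1 % 2 ∧ l1 % 2 = l2 % 2)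

/-- a non-bipartite theta in `B` with minimum total length -/
structure MinT (G : SimpleGraph V) (B F : Finset V) (f0 f1 f2 : ℕ → V) (l0 l1 l2 : ℕ) : Prop where
  th : ThF G F f0 f1 f2 l0 l1 l2
  sub : F ⊆ B
  nbp : NB l0 l1 l2
  min : ∀ F' m0 m1 m2, ThL G F' m0 m1 m2 → F' ⊆ B → NB m0 m1 m2 → l0 + l1 + l2 ≤ m0 + m1 + m2

/-- paths in `F` of three different lengths mod 4 -/
def Three (G : SimpleGraph V) (F : Finset V) (x y : V) : Prop :=
  ∃ p1 p2 p3, PL G F x y p1 ∧ PL G F x y p2 ∧ PL G F x y p3 ∧ p1 % 4 ≠ p2 % 4 ∧ p1 % 4 ≠ p3 % 4 ∧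
    p2 % 4 ≠ p3 % 4

theorem Three.symm {F : Finset V} {x y : V} (h : Three G F x y) : Three G F y x := by
  obtain ⟨p1, p2, p3, h1, h2, h3, h⟩ := h
  exact ⟨p1, p2, p3, h1.symm, h2.symm, h3.symm, h⟩

theorem MinT.swap01 {B F : Finset V} {f0 f1 f2 : ℕ → V} {l0 l1 l2 : ℕ} (h : MinT G B F f0 f1 f2 l0 l1 l2) :
    MinT G B F f1 f0 f2 l1 l0 l2 where
  th := h.th.swap01
  sub := h.sub
  nbp := by have := h.nbp; unfold NB at this ⊢; omega
  min := by
    intro F' m0 m1 m2 h1 h2 h3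
    have := h.min F' m0 m1 m2 h1 h2 h3
    omega

theorem MinT.swap12 {B F : Finset V} {f0 f1 f2 : ℕ → V} {l0 l1 l2 : ℕ} (h : MinT G B F f0 f1 f2 l0 l1 l2) :
    MinT G B F f0 f2 f1 l0 l2 l1 where
  th := h.th.swap12
  sub := h.sub
  nbp := by have := h.nbp; unfold NB at this ⊢; omega
  min := by
    intro F' m0 m1 m2 h1 h2 h3
    have := h.min F' m0 m1 m2 h1 h2 h3
    omega

/-- three cycles of a theta -/
theorem ThL.cy4 {B F : Finset V} {l0 l1 l2 : ℕ} (hc : Cy4 G B) (h : ThL G F l0 l1 l2) (hF : F ⊆ B) :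
    (5 ≤ l0 + l1 ∧ (l0 + l1) % 4 ≠ 0) ∧ (5 ≤ l0 + l2 ∧ (l0 + l2) % 4 ≠ 0) ∧
      (5 ≤ l1 + l2 ∧ (l1 + l2) % 4 ≠ 0) := by
  have key : ∀ m0 m1 m2, ThL G F m0 m1 m2 → 5 ≤ m0 + m1 ∧ (m0 + m1) % 4 ≠ 0 := by
    rintro m0 m1 m2 ⟨g0, g1, g2, hg⟩
    refine hc _ (hg.cyc01.mono ?_)
    intro x hx
    refine hF ?_
    rw [hg.cov]
    exact mem_union_left _ hx
  exact ⟨key _ _ _ h, key _ _ _ h.swap12, key _ _ _ h.swap01.swap12⟩

/-- `k = 4`: the cycles of the block -/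
theorem Blk.cy4 {B : Finset V} {c : V} (hB : Blk G 4 B c) (hz : ¬ ZC 4 G) : Cy4 G B := by
  intro n hn
  have h4 : ¬ 4 ∣ n := fun h => hz (hn.zc h)
  obtain ⟨f, h3, hf, ha, hS⟩ := hn.toF
  have h5 : n ≠ 3 := by
    rintro rfl
    exact hB.tri_free (by norm_num) hz (hS 0 (by norm_num)) (hS 1 (by norm_num)) (hS 2 (by norm_num))
      (hf.adj 0 (by norm_num)) (hf.adj 1 (by norm_num)) ha.symm
  omega

end Pool.Agent.Lib.MP_f599e5_co
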