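import Pool.Agent.Lib.MP_f599e5_co.E6d

set_option autoImplicit false
set_option linter.unusedSectionVars false

/-!
# JOB E6a: neighbours on a shortest odd cycle

`F = cycV f g`, `g ≥ 5` odd.
* `in_le`: a neighbour in `F` of `f i` is `f (i + a)` with `a < g` (`Cyc.exists_idx` with base `i`), `a ≠ 0`, and not `2 ≤ a`, `a + 2 ≤ g` (`Short.ind`); so `a = 1` or `a = g - 1`: `nb ⊆ {f (i+1), f (i-1)}`
  (`f (i + (g-1)) = f (i-1)`: `Cyc.congr`).
* `dbl`: `x ∈ B \ F` with at least two neighbours in `F`: two different ones are `f i0`, `f (i0 + a)` with `0 < a < g` (`exists_idx` with base `i0`); `Short.out`: `a = 2` (centre `i = i0 + 1`) or `a = g - 2` (centre `i = i0 - 1`,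
  `f (i0 + (g - 2)) = f (i0 - 2)`).  So `x ~ f (i-1), f (i+1)`.  A third neighbour: `f (i - 1 + b)` with `0 < b < g`, `b ≠ 2`: `Short.out` from `f (i-1)`: `b = g - 2`, i.e. it is `f (i - 3)`; from `f (i+1)`: `f (i-3) = f (i + 1 + (g - 4))`,
  `1 ≤ g - 4 < g`: `g - 4 = 2` or `g - 4 + 2 = g`, both impossible (`g` odd).  So `nb G x F = {f (i-1), f (i+1)}`.
* `out_le`: if the card is `≥ 2` it is exactly 2 by `dbl` (`card_le_two`).
-/

namespace Pool.Agent.Lib.MP_f599e5_co

open Finset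

variable {V : Type} [DecidableEq V] {G : SimpleGraph V}

theorem Short.in_le {B : Finset V} {f : ℤ → V} {g : ℕ} (hs : Short G B f g) (i : ℤ) :
    (nb G (f i) (cycV f g)).card ≤ 2 := by
  have hg := hs.g5
  have hsub : nb G (f i) (cycV f g) ⊆ {f (i + 1), f (i - 1)} := by
    intro y hy
    obtain ⟨hyF, ha⟩ := mem_nb.1 hy
    obtain ⟨a, hag, rfl⟩ := hs.cyc.exists_idx hyF i
    rw [mem_insert, mem_singleton]
    rcases Nat.eq_zero_or_pos a with h0 | h0
    · subst h0
      exfalso
      apply ha.ne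
      rw [Nat.cast_zero, add_zero]
    · by_cases h1 : a = 1
      · left
        rw [h1, Nat.cast_one]
      · by_cases h2 : a + 2 ≤ g
        · exact absurd ha (hs.ind i a (by omega) h2)
        · right
          apply hs.cyc.congr
          have h3 : (g : ℤ) = a + 1 := by omega
          exact ⟨1, by rw [h3]; ring⟩
  exact (card_le_card hsub).trans card_le_two

theorem Short.dbl {B : Finset V} {f : ℤ → V} {g : ℕ} (hs : Short G B f g) {x : V} (hx : x ∈ B)
    (hxF : x ∉ cycV f g) (h2 : 2 ≤ (nb G x (cycV f g)).card) :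
    ∃ i : ℤ, nb G x (cycV f g) = {f (i - 1), f (i + 1)} := by
  have hg := hs.g5
  have hex : ∃ i : ℤ, G.Adj x (f (i - 1)) ∧ G.Adj x (f (i + 1)) := by
    obtain ⟨y1, hy1, y2, hy2, hne⟩ := Finset.one_lt_card.1 (show 1 < (nb G x (cycV f g)).card by omega)
    obtain ⟨hy1F, ha1⟩ := mem_nb.1 hy1
    obtain ⟨hy2F, ha2⟩ := mem_nb.1 hy2
    obtain ⟨j, _, hj⟩ := hs.cyc.exists_idx hy1F 0
    rw [zero_add] at hj
    obtain ⟨a, hag, hay⟩ := hs.cyc.exists_idx hy2F (j : ℤ)
    have ha0 : 1 ≤ a := by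
      rcases Nat.eq_zero_or_pos a with h0 | h0
      · exfalso
        apply hne
        rw [← hj, ← hay, h0, Nat.cast_zero, add_zero]
      · exact h0
    rw [← hj] at ha1
    rw [← hay] at ha2
    rcases hs.out x hx hxF (j : ℤ) a ha0 hag ha1 ha2 with h3 | h3
    · refine ⟨(j : ℤ) + 1, ?_, ?_⟩
      · rw [show (j : ℤ) + 1 - 1 = j by ring]
        exact ha1
      · rw [show (j : ℤ) + 1 + 1 = j + (a : ℕ) by rw [h3]; push_cast; ring]
        exact ha2
    · refine ⟨(j : ℤ) - 1, ?_, ?_⟩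
      · rw [hs.cyc.congr (i := (j : ℤ) - 1 - 1) (j := (j : ℤ) + (a : ℕ)) ⟨-1, by rw [← h3]; push_cast; ring⟩]
        exact ha2
      · rw [show (j : ℤ) - 1 + 1 = j by ring]
        exact ha1
  obtain ⟨i, hm, hp⟩ := hex
  refine ⟨i, ?_⟩
  ext y
  rw [mem_insert, mem_singleton, mem_nb]
  constructor
  · rintro ⟨hyF, hya⟩
    obtain ⟨b, hbg, rfl⟩ := hs.cyc.exists_idx hyF (i - 1)
    rcases Nat.eq_zero_or_pos b with h0 | h0
    · left
      rw [h0, Nat.cast_zero, add_zero]
    · by_cases hb2 : b = 2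
      · right
        rw [hb2]
        congr 1
        push_cast
        ring
      · exfalso
        have h3 : b + 2 = g := by
          rcases hs.out x hx hxF (i - 1) b h0 hbg hm hya with h4 | h4
          · exact absurd h4 hb2
          · exact h4
        have h5 : f (i - 1 + (b : ℕ)) = f (i + 1 + ((g - 4 : ℕ) : ℤ)) := by
          apply hs.cyc.congr
          refine ⟨0, ?_⟩
          have : ((g - 4 : ℕ) : ℤ) = (g : ℤ) - 4 := by omega
          rw [this, ← h3]
          push_cast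
          ring
        rw [h5] at hya
        have hodd := hs.odd
        obtain ⟨m, hmo⟩ := hodd
        rcases hs.out x hx hxF (i + 1) (g - 4) (by omega) (by omega) hp hya with h6 | h6
        · omega
        · omega
  · rintro (rfl | rfl)
    · exact ⟨hs.cyc.mem _, hm⟩
    · exact ⟨hs.cyc.mem _, hp⟩

theorem Short.out_le {B : Finset V} {f : ℤ → V} {g : ℕ} (hs : Short G B f g) {x : V} (hx : x ∈ B)
    (hxF : x ∉ cycV f g) : (nb G x (cycV f g)).card ≤ 2 := by
  by_cases h2 : 2 ≤ (nb G x (cycV f g)).card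
  · obtain ⟨i, hi⟩ := hs.dbl hx hxF h2
    rw [hi]
    exact card_le_two
  · omega

end Pool.Agent.Lib.MP_f599e5_co
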