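import Pool.Agent.Lib.MP_f599e5_co.E6a

set_option autoImplicit false
set_option linter.unusedSectionVars false

/-!
# JOB E6b: components of `B \ F` are nonseparable (4.5 V1)

`D` a component of `B \ cycV f g`.  Suppose `w ∈ D`, `X ≠ Y` components of `D.erase w` with vertices `≠ c`.  `lobes` (EL) with `k = 2h`, `lam = 2` (`2 + 3 ≤ 2h`; `2h = 5` impossible; `hl` by `Short.out_le`; `F.card = g ≥ 5` by
`Cyc.card`): `L1, L2, x1, x2, w1, w2, r` with `Adm G (2h-3) L1 {x1} {w1}`, `Adm G (2h-3) L2 {x2} {w2}`.  `x1 = f i`, `x2 = f (i + a)`, `0 < a < g` (`exists_idx`, `Cyc.congr`, `x1 ≠ x2`); `Cyc.arcs` (ECy2): paths of lengths `a` and `g - a` in `F`,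
`a + (g - a) = g` odd.  `Adm`: `d1, l1`, `d2, l2` with paths of lengths `l1 + i d1`, `l2 + j d2` (`i, j < 2h - 3`; roots are singletons).  `ea_arcs` (EA) with `L = l1 + l2 + r`, `b = g - a`: some
`l1 + l2 + r + i d1 + j d2 + a` or `… + (g-a)` is divisible by `2h`; `lobe_cycle` (EL) gives the cycle of this length, `CycS.zc`.
(`D` is disjoint from `F` since `D ⊆ B \ F`.)
-/

namespace Pool.Agent.Lib.MP_f599e5_co

open Finset

variable {V : Type} [DecidableEq V] {G : SimpleGraph V}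

private theorem E6b_adm_single {n : ℕ} {D : Finset V} {x y : V} (h : Adm G n D {x} {y}) :
    ∃ d, (d = 1 ∨ d = 2) ∧ ∃ l, 2 ≤ l ∧ ∀ i < n, PL G (insert x (insert y D)) x y (l + i * d) := by
  obtain ⟨d, hd, l, hl, hh⟩ := h
  refine ⟨d, hd, l, hl, fun i hi => ?_⟩
  obtain ⟨a, ha, b, hb, hp⟩ := hh i hi
  rw [mem_singleton] at ha hb
  subst ha hb
  exact hp

theorem Ctx6.nonsep {h : ℕ} {B D : Finset V} {c : V} {f : ℤ → V} {g : ℕ} (hC : Ctx6 G h B c f g)
    (hD : IsComp G (B \ cycV f g) D) : NonSep G D c := by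
  intro w hw X Y hX hY hXc hYc
  by_contra hXY
  have hh := hC.hh
  have hcard : 5 ≤ (cycV f g).card := by
    rw [hC.sh.cyc.card]
    exact hC.sh.g5
  have hl : ∀ v ∈ D, v ≠ c → (nb G v (cycV f g)).card ≤ 2 := fun v hv _ =>
    hC.sh.out_le (mem_sdiff.1 (hD.1 hv)).1 (mem_sdiff.1 (hD.1 hv)).2
  have hDF : Disjoint D (cycV f g) := disjoint_left.2 fun v hv hvF => (mem_sdiff.1 (hD.1 hv)).2 hvF
  obtain ⟨L1, L2, x1, x2, w1, w2, r, h1, h2, h12, hx1, hx2, hx, a1, a2, a3, a4, A1, A2, pr⟩ :=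
    lobes (lam := 2) hC.hB hC.s2 hC.sh.sub hcard hD (by omega) (by omega) hl hw hX hY hXY hXc hYc
  obtain ⟨i, hi, hix⟩ := hC.sh.cyc.exists_idx hx1 0
  obtain ⟨a, ha, hax⟩ := hC.sh.cyc.exists_idx hx2 (0 + (i : ℤ))
  have ha0 : 0 < a := by
    rcases Nat.eq_zero_or_pos a with h0 | h0
    · exfalso
      subst h0
      apply hx
      rw [← hix, ← hax]
      simp
    · exact h0
  obtain ⟨q1, q2⟩ := hC.sh.cyc.arcs (0 + (i : ℤ)) ha0 ha
  rw [hix, hax] at q1 q2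
  obtain ⟨d1, hd1, l1, hl1, p1⟩ := E6b_adm_single A1
  obtain ⟨d2, hd2, l2, hl2, p2⟩ := E6b_adm_single A2
  have hodd : Odd (a + (g - a)) := by
    rw [Nat.add_sub_cancel' ha.le]
    exact hC.sh.odd
  obtain ⟨s, hs, t, ht, hst⟩ := ea_arcs (L := l1 + l2 + r) hh hd1 hd2 hodd
  have hs' : s < 2 * h - 1 - 2 := by omega
  have ht' : t < 2 * h - 1 - 2 := by omega
  rcases hst with hst | hst
  · have hc := lobe_cycle hDF h1 h2 h12 hx1 hx2 hx a1 a2 a3 a4 (by omega) (by omega) (p1 s hs') (p2 t ht') pr q1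
    refine hC.hz (hc.zc ?_)
    have e : l1 + s * d1 + (l2 + t * d2) + r + a = l1 + l2 + r + s * d1 + t * d2 + a := by ring
    rw [e]
    exact hst
  · have hc := lobe_cycle hDF h1 h2 h12 hx1 hx2 hx a1 a2 a3 a4 (by omega) (by omega) (p1 s hs') (p2 t ht') pr q2
    refine hC.hz (hc.zc ?_)
    have e : l1 + s * d1 + (l2 + t * d2) + r + (g - a) = l1 + l2 + r + s * d1 + t * d2 + (g - a) := by ring
    rw [e]
    exact hst

end Pool.Agent.Lib.MP_f599e5_co
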