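import Pool.Agent.Lib.MP_f599e5_co.E6b

set_option autoImplicit false
set_option linter.unusedSectionVars false

/-!
# JOB E6c: ears at two vertices of the cycle (4.5 V2, V3)

* `v3`: `Adm G n D {f i} {f (i+a)}`: `d, l` with paths of lengths `l + j d` (`j < n`).  `Cyc.arcs`: paths in `cycV f g` of lengths `a` and `g - a`.  `close_path` (B4) gives cycles of length `l + j d + a` and
  `l + j d + (g - a)`; none is divisible by `2h` (`hC.hz`, `CycS.zc`).  `ea_v3` (EA) with `b = g - a` (`a + (g - a) = g` odd): `d = 1` and `a + 1 ≡ g - a` or `g - a + 1 ≡ a` mod `2h`; add `a` on both sides: `2a + 1 ≡ g`, resp.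
  `g + 1 ≡ 2a` (`Nat.ModEq.add_right`, `Nat.sub_add_cancel`).
* `adm3`: `Blk.adm_pair` (EU) with `lam = 2`: `hl` from `Short.out_le` (a vertex of `D` is in `B \ cycV f g`); `2h - 1 - 2 = 2h - 3 ≠ 2`.
* `adm4`: `Blk.adm_pair` with `lam = 1`: if `(nb G v F).card ≤ 1` clear; otherwise it is 2 and `v ~ x` or `v ~ y`, so `min 1 (nb G v {x}).card + min 1 (nb G v {y}).card ≥ 1`; `2h - 1 - 1 = 2h - 2 ≠ 2`.
* `pair`: `adm3` and `v3` with `n = 2h - 3` (`f i ≠ f (i+a)` by `Cyc.ne`, memberships by `Cyc.mem`).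
-/

namespace Pool.Agent.Lib.MP_f599e5_co

open Finset

variable {V : Type} [DecidableEq V] {G : SimpleGraph V}

private theorem E6c_adm_single {n : ℕ} {D : Finset V} {x y : V} (h : Adm G n D {x} {y}) :
    ∃ d, (d = 1 ∨ d = 2) ∧ ∃ l, 2 ≤ l ∧ ∀ i < n, PL G (insert x (insert y D)) x y (l + i * d) := by
  obtain ⟨d, hd, l, hl, hh⟩ := h
  refine ⟨d, hd, l, hl, fun i hi => ?_⟩
  obtain ⟨a, ha, b, hb, hp⟩ := hh i hi
  rw [mem_singleton] at ha hb
  subst ha hb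
  exact hp

theorem Ctx6.v3 {h n : ℕ} {B D : Finset V} {c : V} {f : ℤ → V} {g : ℕ} (hC : Ctx6 G h B c f g)
    (hDF : Disjoint D (cycV f g)) {i : ℤ} {a : ℕ} (h0 : 0 < a) (ha : a < g) (hn : 2 * h ≤ n + 3)
    (hA : Adm G n D {f i} {f (i + a)}) :
    AdI G n D (f i) (f (i + a)) ∧ (2 * a + 1 ≡ g [MOD 2 * h] ∨ 2 * a ≡ g + 1 [MOD 2 * h]) := by
  obtain ⟨d, hd, l, hl, hp⟩ := E6c_adm_single hA
  obtain ⟨q1, q2⟩ := hC.sh.cyc.arcs i h0 ha
  have hne := hC.sh.cyc.ne i h0 ha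
  have hm1 := hC.sh.cyc.mem i
  have hm2 := hC.sh.cyc.mem (i + a)
  have ha' : ∀ j < n, ¬ 2 * h ∣ l + j * d + a := fun j hj hdv =>
    hC.hz ((close_path hDF hm1 hm2 hne (by omega) (hp j hj) q1).zc hdv)
  have hb' : ∀ j < n, ¬ 2 * h ∣ l + j * d + (g - a) := fun j hj hdv =>
    hC.hz ((close_path hDF hm1 hm2 hne (by omega) (hp j hj) q2).zc hdv)
  have hodd : Odd (a + (g - a)) := by
    rw [Nat.add_sub_cancel' ha.le]
    exact hC.sh.odd
  obtain ⟨hd1, hcong⟩ := ea_v3 hC.hh hn hd hodd ha' hb'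
  subst hd1
  refine ⟨⟨l, hl, fun j hj => by simpa using hp j hj⟩, ?_⟩
  rcases hcong with hc | hc
  · left
    have h1 := hc.add_right a
    rw [Nat.sub_add_cancel ha.le] at h1
    have e : a + 1 + a = 2 * a + 1 := by ring
    rwa [e] at h1
  · right
    have h1 := hc.add_right a
    have e : g - a + 1 + a = g + 1 := by omega
    have e2 : a + a = 2 * a := by ring
    rw [e, e2] at h1
    exact h1.symm

theorem Ctx6.adm3 {h : ℕ} {B D : Finset V} {c x y : V} {f : ℤ → V} {g : ℕ} (hC : Ctx6 G h B c f g)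
    (hD : IsComp G (B \ cycV f g) D) (hx : x ∈ cycV f g) (hy : y ∈ cycV f g) (hxy : x ≠ y)
    (hr : Rep G D c x y) : Adm G (2 * h - 3) D {x} {y} := by
  have hh := hC.hh
  have h1 : Adm G (2 * h - 1 - 2) D {x} {y} := by
    refine Blk.adm_pair hC.hB hC.sh.sub hD (hC.nonsep hD) hx hy hxy hr (by omega) ?_ (by omega)
    intro v hv _
    have hv' := mem_sdiff.1 (hD.1 hv)
    have := hC.sh.out_le hv'.1 hv'.2
    omega
  have e : 2 * h - 1 - 2 = 2 * h - 3 := by omega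
  rwa [e] at h1

theorem Ctx6.adm4 {h : ℕ} {B D : Finset V} {c x y : V} {f : ℤ → V} {g : ℕ} (hC : Ctx6 G h B c f g)
    (hD : IsComp G (B \ cycV f g) D) (hx : x ∈ cycV f g) (hy : y ∈ cycV f g) (hxy : x ≠ y)
    (hr : Rep G D c x y)
    (hdb : ∀ u ∈ D, u ≠ c → 2 ≤ (nb G u (cycV f g)).card → G.Adj u x ∨ G.Adj u y) :
    Adm G (2 * h - 2) D {x} {y} := by
  have hh := hC.hh
  have h1 : Adm G (2 * h - 1 - 1) D {x} {y} := by
    refine Blk.adm_pair hC.hB hC.sh.sub hD (hC.nonsep hD) hx hy hxy hr (by omega) ?_ (by omega)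
    intro v hv hvc
    have hv' := mem_sdiff.1 (hD.1 hv)
    have h2 := hC.sh.out_le hv'.1 hv'.2
    by_cases h3 : 2 ≤ (nb G v (cycV f g)).card
    · have h4 : 1 ≤ min 1 (nb G v {x}).card + min 1 (nb G v {y}).card := by
        rcases hdb v hv hvc h3 with h5 | h5
        · have : 1 ≤ (nb G v {x}).card :=
            card_pos.2 ⟨x, mem_nb.2 ⟨mem_singleton_self _, h5⟩⟩
          omega
        · have : 1 ≤ (nb G v {y}).card :=
            card_pos.2 ⟨y, mem_nb.2 ⟨mem_singleton_self _, h5⟩⟩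
          omega
      omega
    · omega
  have e : 2 * h - 1 - 1 = 2 * h - 2 := by omega
  rwa [e] at h1

theorem Ctx6.pair {h : ℕ} {B D : Finset V} {c : V} {f : ℤ → V} {g : ℕ} (hC : Ctx6 G h B c f g)
    (hD : IsComp G (B \ cycV f g) D) {i : ℤ} {a : ℕ} (h0 : 0 < a) (ha : a < g)
    (hr : Rep G D c (f i) (f (i + a))) :
    AdI G (2 * h - 3) D (f i) (f (i + a)) ∧ (2 * a + 1 ≡ g [MOD 2 * h] ∨ 2 * a ≡ g + 1 [MOD 2 * h]) := by
  have hDF : Disjoint D (cycV f g) := disjoint_left.2 fun v hv hvF => (mem_sdiff.1 (hD.1 hv)).2 hvF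
  exact hC.v3 hDF h0 ha (by have := hC.hh; omega)
    (hC.adm3 hD (hC.sh.cyc.mem i) (hC.sh.cyc.mem _) (hC.sh.cyc.ne i h0 ha) hr)

end Pool.Agent.Lib.MP_f599e5_co
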