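import Pool.Agent.Lib.MP_f599e5_co.ESe3
import Pool.Agent.Lib.MP_f599e5_co.EU
import Pool.Agent.Lib.MP_f599e5_co.EN

set_option autoImplicit false
set_option linter.unusedSectionVars false

/-! # E6d: context for even `k = 2h ≥ 6` (4.5) -/

namespace Pool.Agent.Lib.MP_f599e5_co

open Finset

variable {V : Type} [DecidableEq V] {G : SimpleGraph V}

/-- context of 4.5 (`k = 2 * h ≥ 6`, no zero cycle, `f` a shortest odd cycle of `B`) -/
structure Ctx6 (G : SimpleGraph V) (h : ℕ) (B : Finset V) (c : V) (f : ℤ → V) (g : ℕ) : Prop where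
  hB : Blk G (2 * h) B c
  hh : 3 ≤ h
  hz : ¬ ZC (2 * h) G
  s2 : Sep G B c 2
  s3 : Sep G B c 3
  sh : Short G B f g

/-- `n` paths of consecutive lengths from `x` to `y` through `D` -/
def AdI (G : SimpleGraph V) (n : ℕ) (D : Finset V) (x y : V) : Prop :=
  ∃ l, 2 ≤ l ∧ ∀ i < n, PL G (insert x (insert y D)) x y (l + i)

end Pool.Agent.Lib.MP_f599e5_co
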