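import Pool.Agent.Lib.MP_f599e5_co.E6a

set_option autoImplicit false
set_option linter.unusedSectionVars false

/-!
# JOB E6e: a pair with different representatives (beginning of 4.5 V4)

`D` a component of `B \ F`, `F = cycV f g`, with a vertex `v ≠ c`.  `E` = component of `D.erase c` containing `v` (`exists_comp`).  Its neighbours in `B` outside `E` are in `F` or equal to `c`: a neighbour in `B` of a vertex of `E ⊆ D` is in `D` or in `F`
(`comp_nb`, K2); if it is in `D` and `≠ c` it is in `D.erase c`, hence in `E`.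
Let `N` = the vertices of `F` adjacent to `E` (`F.filter ..`).  Claim `3 ≤ N.card`.  Otherwise `S = insert c N` has at most 3 elements, `E ⊆ B \ S`, `bd G B E ⊆ S`, so `hC.s3` gives `B \ (E ∪ S) ⊆ {c}`; but `F \ S` has at least
`g - 3 ≥ 2` elements, all in `B`, not in `E`, and different from `c ∈ S`: contradiction.
Take `x ∈ N`, `u1 ∈ E` with `u1 ~ x`, and two more elements `y, y'` of `N`.  If `y` has a neighbour `u2 ∈ E`, `u2 ≠ u1`: done (`E ⊆ D`, `c ∉ E`).  The same for `y'`.  Otherwise `u1 ~ y` and `u1 ~ y'`, so `u1` has three neighbours `x, y, y'` in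
`F`: contradiction to `Short.out_le`.
-/

namespace Pool.Agent.Lib.MP_f599e5_co

open Finset

variable {V : Type} [DecidableEq V] {G : SimpleGraph V}

theorem Ctx6.exists_pair {h : ℕ} {B D : Finset V} {c : V} {f : ℤ → V} {g : ℕ} (hC : Ctx6 G h B c f g)
    (hD : IsComp G (B \ cycV f g) D) (hDc : ∃ v ∈ D, v ≠ c) :
    ∃ x ∈ cycV f g, ∃ y ∈ cycV f g, x ≠ y ∧ Rep G D c x y := by
  classical
  obtain ⟨v, hvD, hvc⟩ := hDc
  obtain ⟨E, hvE, hE⟩ := exists_comp (G := G) (D := D.erase c) (mem_erase.2 ⟨hvc, hvD⟩)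
  have hED : ∀ u ∈ E, u ≠ c ∧ u ∈ D := fun u hu => mem_erase.1 (hE.1 hu)
  have hDB : ∀ u ∈ D, u ∈ B ∧ u ∉ cycV f g := fun u hu => mem_sdiff.1 (hD.1 hu)
  have hg5 := hC.sh.g5
  have hFc : (cycV f g).card = g := hC.sh.cyc.card
  have hN : 3 ≤ ((cycV f g).filter (fun y => ∃ u ∈ E, G.Adj u y)).card := by
    by_contra hcon
    set N := (cycV f g).filter (fun y => ∃ u ∈ E, G.Adj u y) with hNdef
    have hS3 : (insert c N).card ≤ 3 := le_trans (card_insert_le _ _) (by omega)
    have h1 := hC.s3 (insert c N) E hS3 ?_ ⟨v, hvE, hvc⟩ ?_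
    · have h2 : 0 < (cycV f g \ insert c N).card := by
        have := le_card_sdiff (insert c N) (cycV f g)
        omega
      obtain ⟨t, ht⟩ := card_pos.1 h2
      rw [mem_sdiff] at ht
      have h3 : t = c := by
        refine mem_singleton.1 (h1 (mem_sdiff.2 ⟨hC.sh.sub ht.1, fun h4 => ?_⟩))
        rcases mem_union.1 h4 with h5 | h5
        · exact (hDB t (hED t h5).2).2 ht.1
        · exact ht.2 h5
      exact ht.2 (h3 ▸ mem_insert_self _ _)
    · intro u hu
      refine mem_sdiff.2 ⟨(hDB u (hED u hu).2).1, fun h2 => ?_⟩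
      rcases mem_insert.1 h2 with h3 | h3
      · exact (hED u hu).1 h3
      · exact (hDB u (hED u hu).2).2 (mem_filter.1 h3).1
    · intro y hy
      obtain ⟨hyB, hyE, u, hu, ha⟩ := mem_bd.1 hy
      rw [mem_insert]
      rcases comp_nb hC.sh.sub hD (hED u hu).2 hyB ha with h2 | h2
      · by_cases hyc : y = c
        · exact Or.inl hyc
        · exfalso
          have h3 : y ∈ bd G (D.erase c) E := mem_bd.2 ⟨mem_erase.2 ⟨hyc, h2⟩, hyE, u, hu, ha⟩
          rw [hE.2.1] at h3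
          exact absurd h3 (notMem_empty _)
      · exact Or.inr (mem_filter.2 ⟨h2, u, hu, ha⟩)
  obtain ⟨x, hx, y, hy, y', hy', hxy, hxy', hyy'⟩ := two_lt_card.1 hN
  obtain ⟨hxF, u1, hu1, ha1⟩ := mem_filter.1 hx
  obtain ⟨hyF, u2, hu2, ha2⟩ := mem_filter.1 hy
  obtain ⟨hyF', u3, hu3, ha3⟩ := mem_filter.1 hy'
  by_cases h12 : u1 = u2
  · by_cases h13 : u1 = u3
    · exfalso
      subst h12
      subst h13
      have h1 := hC.sh.out_le (hDB u1 (hED u1 hu1).2).1 (hDB u1 (hED u1 hu1).2).2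
      have h2 : ({x, y, y'} : Finset V) ⊆ nb G u1 (cycV f g) := by
        intro t ht
        rw [mem_insert, mem_insert, mem_singleton] at ht
        rw [mem_nb]
        rcases ht with rfl | rfl | rfl
        · exact ⟨hxF, ha1⟩
        · exact ⟨hyF, ha2⟩
        · exact ⟨hyF', ha3⟩
      have h3 := card_le_card h2
      rw [card_eq_three.2 ⟨x, y, y', hxy, hxy', hyy', rfl⟩] at h3
      omega
    · exact ⟨x, hxF, y', hyF', hxy', u1, (hED u1 hu1).2, u3, (hED u3 hu3).2, (hED u1 hu1).1,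
        (hED u3 hu3).1, h13, ha1, ha3⟩
  · exact ⟨x, hxF, y, hyF, hxy, u1, (hED u1 hu1).2, u2, (hED u2 hu2).2, (hED u1 hu1).1,
      (hED u2 hu2).1, h12, ha1, ha2⟩

end Pool.Agent.Lib.MP_f599e5_co
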