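import Pool.Agent.Lib.MP_f599e5_co.E6c

set_option autoImplicit false
set_option linter.unusedSectionVars false

/-!
# JOB E6k: centres of doubles, k = 6 (first half of K6)

`h = 3`, `D` a component of `B \ F`, `F = cycV f g`, `c ∉ D`.  A double is a vertex `u ∈ D` with `nb G u F = {f (i-1), f (i+1)}` (centre `i`).
* `dbl_ne`: if `u` has centre `i` and `u'` has centre `i + δ`, `0 < δ < g`, then `u ≠ u'`: otherwise `f (i+δ-1)` and `f (i+δ+1)` are in `{f (i-1), f (i+1)}`; by `Cyc.inj` `g ∣ δ` or `g ∣ δ - 2`, and `g ∣ δ + 2` or `g ∣ δ`; with `0 < δ < g`: `δ = 2` and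
  `g ∣ 4`: impossible (`g ≥ 5`).
* `dist`: `u` has centre `i`, `u'` has centre `i + δ`, `1 ≤ δ`, `2δ < g`.  Then `δ ≤ 2`, and `2δ ≡ g + 1 [MOD 6]`.  Proof: `Ctx6.pair` (E6c) for
  `(f (i-1), f (i-1+δ))` (representatives `u, u'`; write `i + δ - 1 = (i - 1) + δ`): `2δ + 1 ≡ g` or `2δ ≡ g + 1`;
  `(f (i-1), f (i-1+(δ+2)))` (`δ + 2 < g`): `2δ + 5 ≡ g` or `2δ + 4 ≡ g + 1`.  Together (mod 6): `2δ ≡ g + 1`.
  If `δ ≥ 3`: `(f (i+1), f (i+1+(δ-2)))` (`f (i + δ - 1)`): `2(δ-2) + 1 ≡ g` or `2(δ-2) ≡ g + 1`: both contradict `2δ ≡ g + 1` mod 6.  (`Nat.ModEq` unfold, `omega`.)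
* `four`: `δ = 2` is impossible if a further vertex `f j ∈ F`, not in `{f (i-1), f (i+1), f (i+3)}`, is adjacent to some `u'' ∈ D`.  `u'' ≠ u`, `u'' ≠ u'` (their neighbours in `F` are among the three vertices).  `f j = f (i - 1 + t)` with `t < g` (`exists_idx`),
  `t ≠ 0, 2, 4`.  By `dist` `g ≡ 3 [MOD 6]`.  Pairs:
  `t = 1`: `(f i, f (i+3))` with representatives `u''`, `u'`, distance 3 (`3 < g`): `7 ≡ g` or `6 ≡ g + 1`: contradiction to `g ≡ 3`.
  `t = 3`: `(f (i-1), f (i+2))`, representatives `u, u''`, distance 3: the same contradiction.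
  `t ≥ 5`: `(f (i-1), f (i-1+t))`: `2t + 1 ≡ g` or `2t ≡ g + 1`, i.e. (mod 6, `g ≡ 3`) `t ≢ 0 mod 3`; `(f (i+1), f (i+1+(t-2)))` (representatives `u, u''`): `t - 2 ≢ 0 mod 3`; `(f (i+3), f (i+3+(t-4)))` (representatives `u', u''`): `t - 4 ≢ 0 mod 3`.  Contradiction (`omega`).
All representatives are in `D`, hence `≠ c`.
-/

namespace Pool.Agent.Lib.MP_f599e5_co

open Finset

variable {V : Type} [DecidableEq V] {G : SimpleGraph V}

/-- `u` is adjacent (in `F`) exactly to the two neighbours of `f i` on the cycle -/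
def Dbl (G : SimpleGraph V) (f : ℤ → V) (g : ℕ) (u : V) (i : ℤ) : Prop :=
  nb G u (cycV f g) = {f (i - 1), f (i + 1)}

private theorem E6k_adj1 {f : ℤ → V} {g : ℕ} {u : V} {i : ℤ} (hu : Dbl G f g u i) : G.Adj u (f (i - 1)) := by
  have h : f (i - 1) ∈ nb G u (cycV f g) := by
    rw [hu]
    exact mem_insert_self _ _
  exact (mem_nb.1 h).2

private theorem E6k_adj2 {f : ℤ → V} {g : ℕ} {u : V} {i : ℤ} (hu : Dbl G f g u i) : G.Adj u (f (i + 1)) := by
  have h : f (i + 1) ∈ nb G u (cycV f g) := by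
    rw [hu]
    exact mem_insert_of_mem (mem_singleton_self _)
  exact (mem_nb.1 h).2

theorem Ctx6.dbl_ne {h : ℕ} {B : Finset V} {c : V} {f : ℤ → V} {g : ℕ} (hC : Ctx6 G h B c f g) {u u' : V}
    {i : ℤ} {δ : ℕ} (h0 : 0 < δ) (hδ : δ < g) (hu : Dbl G f g u i) (hu' : Dbl G f g u' (i + δ)) : u ≠ u' := by
  intro he
  subst he
  have hg := hC.sh.g5
  have hcy := hC.sh.cyc
  have hnd : ∀ m : ℤ, 0 < m → m < g → ¬ (g : ℤ) ∣ m := fun m h1 h2 h3 => by
    have := Int.le_of_dvd h1 h3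
    omega
  have e : ({f (i - 1), f (i + 1)} : Finset V) = {f (i + δ - 1), f (i + δ + 1)} := hu.symm.trans hu'
  have m1 : f (i + δ - 1) ∈ ({f (i - 1), f (i + 1)} : Finset V) := by
    rw [e]
    exact mem_insert_self _ _
  have m2 : f (i + δ + 1) ∈ ({f (i - 1), f (i + 1)} : Finset V) := by
    rw [e]
    exact mem_insert_of_mem (mem_singleton_self _)
  rw [mem_insert, mem_singleton] at m1 m2
  have hA : ¬ f (i + δ - 1) = f (i - 1) := fun h1 => by
    have h2 := hcy.inj _ _ h1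
    have e2 : i + δ - 1 - (i - 1) = (δ : ℤ) := by ring
    rw [e2] at h2
    exact hnd _ (by omega) (by omega) h2
  have hB : ¬ f (i + δ + 1) = f (i + 1) := fun h1 => by
    have h2 := hcy.inj _ _ h1
    have e2 : i + δ + 1 - (i + 1) = (δ : ℤ) := by ring
    rw [e2] at h2
    exact hnd _ (by omega) (by omega) h2
  have h1 := hcy.inj _ _ (m1.resolve_left hA)
  have h2 := hcy.inj _ _ (m2.resolve_right hB)
  have e1 : i + δ - 1 - (i + 1) = (δ : ℤ) - 2 := by ring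
  have e2 : i + δ + 1 - (i - 1) = (δ : ℤ) + 2 := by ring
  rw [e1] at h1
  rw [e2] at h2
  have h3 : (g : ℤ) ∣ 4 := by
    have h4 := dvd_sub h2 h1
    have e4 : (δ : ℤ) + 2 - (δ - 2) = 4 := by ring
    rwa [e4] at h4
  exact hnd 4 (by norm_num) (by omega) h3

/-- the congruence for a pair of vertices with representatives, `k = 6` -/
private theorem E6k_pair {B D : Finset V} {c : V} {f : ℤ → V} {g : ℕ} (hC : Ctx6 G 3 B c f g)
    (hD : IsComp G (B \ cycV f g) D) (hc : c ∉ D) {u u' : V} (huD : u ∈ D) (huD' : u' ∈ D) (hne : u ≠ u')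
    {i j : ℤ} {a : ℕ} (h0 : 0 < a) (ha : a < g) (hj : j = i + a) (h1 : G.Adj u (f i)) (h2 : G.Adj u' (f j)) :
    (2 * a + 1) % 6 = g % 6 ∨ (2 * a) % 6 = (g + 1) % 6 := by
  subst hj
  have hr : Rep G D c (f i) (f (i + a)) :=
    ⟨u, huD, u', huD', fun h => hc (h ▸ huD), fun h => hc (h ▸ huD'), hne, h1, h2⟩
  exact (hC.pair hD h0 ha hr).2

theorem Ctx6.dist {B D : Finset V} {c : V} {f : ℤ → V} {g : ℕ} (hC : Ctx6 G 3 B c f g)
    (hD : IsComp G (B \ cycV f g) D) (hc : c ∉ D) {u u' : V} (huD : u ∈ D) (huD' : u' ∈ D) {i : ℤ} {δ : ℕ}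
    (h0 : 1 ≤ δ) (hδ : 2 * δ < g) (hu : Dbl G f g u i) (hu' : Dbl G f g u' (i + δ)) :
    δ ≤ 2 ∧ 2 * δ ≡ g + 1 [MOD 6] := by
  have hg := hC.sh.g5
  have hne : u ≠ u' := hC.dbl_ne (by omega) (by omega) hu hu'
  have p1 := E6k_pair hC hD hc huD huD' hne (i := i - 1) (j := i + δ - 1) (a := δ) (by omega) (by omega)
    (by ring) (E6k_adj1 hu) (E6k_adj1 hu')
  have p2 := E6k_pair hC hD hc huD huD' hne (i := i - 1) (j := i + δ + 1) (a := δ + 2) (by omega) (by omega)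
    (by push_cast; ring) (E6k_adj1 hu) (E6k_adj2 hu')
  have hcong : (2 * δ) % 6 = (g + 1) % 6 := by omega
  refine ⟨?_, hcong⟩
  by_contra h3
  have p3 := E6k_pair hC hD hc huD huD' hne (i := i + 1) (j := i + δ - 1) (a := δ - 2) (by omega) (by omega)
    (by push_cast [Nat.cast_sub (show 2 ≤ δ by omega)]; ring) (E6k_adj2 hu) (E6k_adj1 hu')
  omega

theorem Ctx6.four {B D : Finset V} {c : V} {f : ℤ → V} {g : ℕ} (hC : Ctx6 G 3 B c f g)
    (hD : IsComp G (B \ cycV f g) D) (hc : c ∉ D) {u u' u'' y : V} (huD : u ∈ D) (huD' : u' ∈ D)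
    (huD'' : u'' ∈ D) {i : ℤ} (hu : Dbl G f g u i) (hu' : Dbl G f g u' (i + 2)) (hy : y ∈ cycV f g)
    (hy1 : y ≠ f (i - 1)) (hy2 : y ≠ f (i + 1)) (hy3 : y ≠ f (i + 3)) (ha : G.Adj u'' y) : False := by
  have hg := hC.sh.g5
  have hodd := hC.sh.odd
  obtain ⟨-, hcong⟩ := hC.dist hD hc huD huD' (i := i) (δ := 2) (by omega) (by omega) hu (by exact_mod_cast hu')
  have hcong' : (2 * 2) % 6 = (g + 1) % 6 := hcong
  have hne1 : u ≠ u'' := by
    intro he
    subst he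
    have h : y ∈ nb G u (cycV f g) := mem_nb.2 ⟨hy, ha⟩
    rw [hu, mem_insert, mem_singleton] at h
    exact h.elim hy1 hy2
  have hne2 : u' ≠ u'' := by
    intro he
    subst he
    have h : y ∈ nb G u' (cycV f g) := mem_nb.2 ⟨hy, ha⟩
    rw [hu', mem_insert, mem_singleton] at h
    have e1 : i + 2 - 1 = i + 1 := by ring
    have e2 : i + 2 + 1 = i + 3 := by ring
    rw [e1, e2] at h
    exact h.elim hy2 hy3
  have a1 : G.Adj u (f (i - 1)) := E6k_adj1 hu
  have a2 : G.Adj u (f (i + 1)) := E6k_adj2 hu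
  have a3 : G.Adj u' (f (i + 3)) := by
    have h := E6k_adj2 hu'
    have e2 : i + 2 + 1 = i + 3 := by ring
    rwa [e2] at h
  obtain ⟨t, ht, hty⟩ := hC.sh.cyc.exists_idx hy (i - 1)
  rw [← hty] at ha hy1 hy2 hy3
  have t0 : t ≠ 0 := by
    rintro rfl
    exact hy1 (by congr 1; push_cast; ring)
  have t2 : t ≠ 2 := by
    rintro rfl
    exact hy2 (by congr 1; push_cast; ring)
  have t4 : t ≠ 4 := by
    rintro rfl
    exact hy3 (by congr 1; push_cast; ring)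
  rcases Nat.lt_or_ge t 5 with h5 | h5
  · have h13 : t = 1 ∨ t = 3 := by omega
    rcases h13 with rfl | rfl
    · have p := E6k_pair hC hD hc huD'' huD' hne2.symm (i := i - 1 + (1 : ℕ)) (j := i + 3) (a := 3) (by omega)
        (by omega) (by push_cast; ring) ha a3
      omega
    · have p := E6k_pair hC hD hc huD huD'' hne1 (i := i - 1) (j := i - 1 + (3 : ℕ)) (a := 3) (by omega)
        (by omega) rfl a1 ha
      omega
  · have p1 := E6k_pair hC hD hc huD huD'' hne1 (i := i - 1) (j := i - 1 + (t : ℕ)) (a := t) (by omega)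
      (by omega) rfl a1 ha
    have p2 := E6k_pair hC hD hc huD huD'' hne1 (i := i + 1) (j := i - 1 + (t : ℕ)) (a := t - 2) (by omega)
      (by omega) (by push_cast [Nat.cast_sub (show 2 ≤ t by omega)]; ring) a2 ha
    have p3 := E6k_pair hC hD hc huD' huD'' hne2 (i := i + 3) (j := i - 1 + (t : ℕ)) (a := t - 4) (by omega)
      (by omega) (by push_cast [Nat.cast_sub (show 4 ≤ t by omega)]; ring) a3 ha
    omega

end Pool.Agent.Lib.MP_f599e5_co
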