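import Pool.Agent.Lib.MP_f599e5_co.E6k

set_option autoImplicit false
set_option linter.unusedSectionVars false

/-!
# JOB E6l: K6 (k = 6): a pair meeting all doubles

`h = 3`, `D` a component of `B \ F`, `F = cycV f g`, `c ∉ D`, `D` nonempty.  Claim: there are `x ≠ y` in `F` with different representatives in `D` such that every vertex of `D` with two neighbours in `F` is adjacent to `x` or to `y`.
(0) `4 ≤ (bd G B D).card` by `Sep.le_bd` (K4, `j = 3`, `F.card = g ≥ 5`), `bd G B D` = the vertices of `F` adjacent to `D` (`mem_bd_comp`, K2).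
(1) No vertex of `D` has two neighbours in `F`: take two elements `x ≠ y` of `bd G B D` and neighbours `u1, u2 ∈ D`; `u1 ≠ u2`, otherwise `u1` would have two neighbours in `F`.
(2) Otherwise let `u ∈ D` be a double; `Short.dbl` (E6a) gives its centre `i` (`Dbl G f g u i`).  Let `u'` be any other double of `D`, with centre `j`; by `Cyc.congr` we may take `j = i + δ` with `0 ≤ δ < g` natural (`δ = ((j - i) % g).toNat`; `Dbl` only depends on `j` mod `g`).
  Claim `δ ∈ {0, 1, g-1}`: if `1 ≤ δ`, `2δ < g`: `Ctx6.dist`: `δ ≤ 2`; `δ = 2` is impossible by `Ctx6.four`: `bd G B D` has at least 4 elements, so one of them, `y`, is not in `{f (i-1), f (i+1), f (i+3)}`, take a neighbour `u'' ∈ D` of it.  If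
  `2δ > g` exchange the roles: base `i' = i + δ`, `i' + (g - δ) = i + g ≡ i`, `2 (g - δ) < g`: so `g - δ = 1` (by the same argument).  (`2δ ≠ g` since `g` is odd.)
(3) All doubles of `D` have `δ = 0`: then every double is adjacent to `x = f (i+1)`.  Choose `y ∈ bd G B D`, `y ≠ f (i-1), f (i+1)`, with a neighbour `u2 ∈ D`; `u2 ≠ u` (the neighbours of `u` in `F` are `f (i±1)`).  Representatives `u`, `u2`.
(4) Otherwise there is a double `u'` with `δ = 1` or `δ = g - 1`; exchanging `u, u'` (and the base) if `δ = g - 1` we may assume that `u` has centre `i` and `u'` has centre `i + 1`.  Every double `u''` has centre in `{i-1, i, i+1}` mod `g` (claim for `u`) and in `{i, i+1, i+2}` (claim for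
  `u'`), so, as `g ≥ 5`, its centre is `i` or `i + 1` mod `g`: it is adjacent to `x = f (i+1)` or to `y = f i`.  Representatives: `u ~ x`, `u' ~ y` (`f (i+1-1) = f i`), `u ≠ u'` by `Ctx6.dbl_ne` with `δ = 1`.  `x ≠ y` by `Cyc.ne`.
-/

namespace Pool.Agent.Lib.MP_f599e5_co

open Finset

variable {V : Type} [DecidableEq V] {G : SimpleGraph V}

private theorem E6l_congr {f : ℤ → V} {g : ℕ} (hf : Cyc G f g) {u : V} {i j : ℤ} (hd : (g : ℤ) ∣ i - j)
    (h : Dbl G f g u i) : Dbl G f g u j := by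
  have h1 : f (i - 1) = f (j - 1) := hf.congr (by
    have h2 : i - 1 - (j - 1) = i - j := by ring
    rwa [h2])
  have h3 : f (i + 1) = f (j + 1) := hf.congr (by
    have h2 : i + 1 - (j + 1) = i - j := by ring
    rwa [h2])
  unfold Dbl at h ⊢
  rw [h, h1, h3]

private theorem E6l_right {f : ℤ → V} {g : ℕ} {u : V} {i : ℤ} (h : Dbl G f g u i) : G.Adj u (f (i + 1)) := by
  have h1 : f (i + 1) ∈ nb G u (cycV f g) := by
    rw [h]
    exact mem_insert_of_mem (mem_singleton_self _)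
  exact (mem_nb.1 h1).2

private theorem E6l_left {f : ℤ → V} {g : ℕ} {u : V} {i : ℤ} (h : Dbl G f g u i) : G.Adj u (f (i - 1)) := by
  have h1 : f (i - 1) ∈ nb G u (cycV f g) := by
    rw [h]
    exact mem_insert_self _ _
  exact (mem_nb.1 h1).2

private theorem E6l_only {f : ℤ → V} {g : ℕ} {u y : V} {i : ℤ} (h : Dbl G f g u i) (hy : y ∈ cycV f g)
    (ha : G.Adj u y) : y = f (i - 1) ∨ y = f (i + 1) := by
  have h1 : y ∈ nb G u (cycV f g) := mem_nb.2 ⟨hy, ha⟩
  rw [h, mem_insert, mem_singleton] at h1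
  exact h1

private theorem E6l_pick {B F D : Finset V} (hF : F ⊆ B) (hD : IsComp G (B \ F) D) (h4 : 4 ≤ (bd G B D).card)
    (a b d : V) : ∃ y ∈ F, y ≠ a ∧ y ≠ b ∧ y ≠ d ∧ ∃ u ∈ D, G.Adj u y := by
  have h1 : ({a, b, d} : Finset V).card < (bd G B D).card := lt_of_le_of_lt card_le_three h4
  obtain ⟨y, hy, hy'⟩ := exists_mem_notMem_of_card_lt_card h1
  rw [mem_insert, mem_insert, mem_singleton, not_or, not_or] at hy'
  obtain ⟨h2, h3⟩ := (mem_bd_comp hF hD).1 hy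
  exact ⟨y, h2, hy'.1, hy'.2.1, hy'.2.2, h3⟩

/-- the claim for two doubles, one direction -/
private theorem E6l_claim {B D : Finset V} {c : V} {f : ℤ → V} {g : ℕ} (hC : Ctx6 G 3 B c f g)
    (hD : IsComp G (B \ cycV f g) D) (hc : c ∉ D) (h4 : 4 ≤ (bd G B D).card) {u u' : V} (hu : u ∈ D)
    (hu' : u' ∈ D) {i : ℤ} {δ : ℕ} (h0 : 1 ≤ δ) (hδ : 2 * δ < g) (h : Dbl G f g u i)
    (h' : Dbl G f g u' (i + δ)) : δ = 1 := by
  obtain ⟨h5, -⟩ := hC.dist hD hc hu hu' h0 hδ h h'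
  by_contra hne
  have h6 : δ = 2 := by omega
  subst h6
  obtain ⟨y, hy, hy1, hy2, hy3, u'', hu'', ha⟩ := E6l_pick hC.sh.sub hD h4 (f (i - 1)) (f (i + 1)) (f (i + 3))
  exact hC.four hD hc hu hu' hu'' h (by simpa using h') hy hy1 hy2 hy3 ha

private theorem E6l_two {B D : Finset V} {c : V} {f : ℤ → V} {g : ℕ} (hC : Ctx6 G 3 B c f g)
    (hD : IsComp G (B \ cycV f g) D) (hc : c ∉ D) (h4 : 4 ≤ (bd G B D).card) {u u' : V} (hu : u ∈ D)
    (hu' : u' ∈ D) {i j : ℤ} (h : Dbl G f g u i) (h' : Dbl G f g u' j) :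
    (g : ℤ) ∣ j - i ∨ (g : ℤ) ∣ j - (i + 1) ∨ (g : ℤ) ∣ j + 1 - i := by
  have hg5 : 5 ≤ g := hC.sh.g5
  have hg0 : (0 : ℤ) < g := by omega
  obtain ⟨r, hr⟩ := hC.sh.odd
  obtain ⟨δ, hδ⟩ : ∃ δ : ℕ, (δ : ℤ) = (j - i) % g := ⟨((j - i) % g).toNat, Int.toNat_of_nonneg (Int.emod_nonneg _ hg0.ne')⟩
  have hδg : (δ : ℤ) < g := by
    rw [hδ]
    exact Int.emod_lt_of_pos _ hg0
  have hδg' : δ < g := by exact_mod_cast hδg
  have hdvd : (g : ℤ) ∣ j - i - δ := by
    rw [hδ]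
    exact Int.dvd_self_sub_emod
  have h'' : Dbl G f g u' (i + δ) := E6l_congr hC.sh.cyc (by
    have h2 : j - (i + δ) = j - i - δ := by ring
    rwa [h2]) h'
  by_cases h0 : δ = 0
  · left
    rw [h0] at hdvd
    simpa using hdvd
  by_cases h2 : 2 * δ < g
  · right
    left
    have h3 := E6l_claim hC hD hc h4 hu hu' (by omega) h2 h h''
    rw [h3] at hdvd
    have h5 : j - (i + 1) = j - i - ((1 : ℕ) : ℤ) := by push_cast; ring
    rw [h5]
    exact hdvd
  · right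
    right
    have h3 : Dbl G f g u (i + δ + ((g - δ : ℕ) : ℤ)) := E6l_congr hC.sh.cyc (by
      have h5 : i - (i + δ + ((g - δ : ℕ) : ℤ)) = -(g : ℤ) := by
        rw [Nat.cast_sub hδg'.le]
        ring
      rw [h5, dvd_neg]) h
    have h5 := E6l_claim hC hD hc h4 hu' hu (by omega) (by omega) h'' h3
    have h6 : (δ : ℤ) = g - 1 := by omega
    have h7 : j + 1 - i = (j - i - δ) + g := by
      rw [h6]
      ring
    rw [h7]
    exact dvd_add hdvd (dvd_refl _)

theorem Ctx6.k6 {B D : Finset V} {c : V} {f : ℤ → V} {g : ℕ} (hC : Ctx6 G 3 B c f g)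
    (hD : IsComp G (B \ cycV f g) D) (hc : c ∉ D) :
    ∃ x ∈ cycV f g, ∃ y ∈ cycV f g, x ≠ y ∧ Rep G D c x y ∧
      ∀ u ∈ D, u ≠ c → 2 ≤ (nb G u (cycV f g)).card → G.Adj u x ∨ G.Adj u y := by
  classical
  have hF : cycV f g ⊆ B := hC.sh.sub
  have hg5 : 5 ≤ g := hC.sh.g5
  have hcard : (cycV f g).card = g := hC.sh.cyc.card
  obtain ⟨v0, hv0⟩ := hD.2.2.1
  have hnc : ∀ v ∈ D, v ≠ c := fun v hv h => hc (h ▸ hv)
  have h4 : 4 ≤ (bd G B D).card := hC.s3.le_bd hF (by omega) hD ⟨v0, hv0, hnc v0 hv0⟩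
  have hdbl : ∀ u ∈ D, 2 ≤ (nb G u (cycV f g)).card → ∃ i : ℤ, Dbl G f g u i := by
    intro u hu h2
    have h5 := mem_sdiff.1 (hD.1 hu)
    exact hC.sh.dbl h5.1 h5.2 h2
  have hDF : ∀ u ∈ D, u ∉ cycV f g := fun u hu => (mem_sdiff.1 (hD.1 hu)).2
  by_cases H : ∃ u ∈ D, ∃ u' ∈ D, ∃ i : ℤ, Dbl G f g u i ∧ Dbl G f g u' (i + 1)
  · obtain ⟨u, hu, u', hu', i, h1, h2⟩ := H
    have hadj' : G.Adj u' (f i) := by
      have h3 := E6l_left h2
      have h5 : i + 1 - 1 = i := by ring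
      rwa [h5] at h3
    have hne : f i ≠ f (i + 1) := by
      have h3 := hC.sh.cyc.ne i (a := 1) (by omega) (by omega)
      simpa using h3
    have huu : u ≠ u' := hC.dbl_ne (δ := 1) (by omega) (by omega) h1 (by simpa using h2)
    refine ⟨f (i + 1), hC.sh.cyc.mem _, f i, hC.sh.cyc.mem _, hne.symm,
      ⟨u, hu, u', hu', hnc u hu, hnc u' hu', huu, E6l_right h1, hadj'⟩, ?_⟩
    intro w hw _ hw2
    obtain ⟨j, hj⟩ := hdbl w hw hw2
    have hj0 : (g : ℤ) ∣ j - i → G.Adj w (f (i + 1)) := fun hd => E6l_right (E6l_congr hC.sh.cyc hd hj)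
    have hj1 : (g : ℤ) ∣ j - (i + 1) → G.Adj w (f i) := by
      intro hd
      have h3 := E6l_left (E6l_congr hC.sh.cyc hd hj)
      have h5 : i + 1 - 1 = i := by ring
      rwa [h5] at h3
    have hsmall : ∀ m : ℤ, 0 < m → m < 4 → ¬ (g : ℤ) ∣ m := by
      intro m hm0 hm4 hd
      have := Int.le_of_dvd hm0 hd
      omega
    rcases E6l_two hC hD hc h4 hu hw h1 hj with h3 | h3 | h3
    · exact Or.inl (hj0 h3)
    · exact Or.inr (hj1 h3)
    · exfalso
      rcases E6l_two hC hD hc h4 hu' hw h2 hj with h5 | h5 | h5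
      · have h6 := dvd_sub h3 h5
        have h7 : j + 1 - i - (j - (i + 1)) = 2 := by ring
        rw [h7] at h6
        exact hsmall 2 (by norm_num) (by norm_num) h6
      · have h6 := dvd_sub h3 h5
        have h7 : j + 1 - i - (j - (i + 1 + 1)) = 3 := by ring
        rw [h7] at h6
        exact hsmall 3 (by norm_num) (by norm_num) h6
      · have h6 := dvd_sub h3 h5
        have h7 : j + 1 - i - (j + 1 - (i + 1)) = 1 := by ring
        rw [h7] at h6
        exact hsmall 1 (by norm_num) (by norm_num) h6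
  · by_cases H2 : ∃ u ∈ D, 2 ≤ (nb G u (cycV f g)).card
    · obtain ⟨u, hu, h2⟩ := H2
      obtain ⟨i, hi⟩ := hdbl u hu h2
      obtain ⟨y, hy, hy1, hy2, -, u2, hu2, ha2⟩ := E6l_pick hF hD h4 (f (i - 1)) (f (i + 1)) (f (i + 1))
      have huu : u ≠ u2 := by
        rintro rfl
        rcases E6l_only hi hy ha2 with h5 | h5
        · exact hy1 h5
        · exact hy2 h5
      refine ⟨f (i + 1), hC.sh.cyc.mem _, y, hy, fun h => hy2 h.symm,
        ⟨u, hu, u2, hu2, hnc u hu, hnc u2 hu2, huu, E6l_right hi, ha2⟩, ?_⟩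
      intro w hw _ hw2
      obtain ⟨j, hj⟩ := hdbl w hw hw2
      left
      rcases E6l_two hC hD hc h4 hu hw hi hj with h3 | h3 | h3
      · exact E6l_right (E6l_congr hC.sh.cyc h3 hj)
      · exact absurd ⟨u, hu, w, hw, i, hi, E6l_congr hC.sh.cyc h3 hj⟩ H
      · exact absurd ⟨w, hw, u, hu, j, hj, E6l_congr hC.sh.cyc (by
          have h5 : i - (j + 1) = -(j + 1 - i) := by ring
          rw [h5, dvd_neg]
          exact h3) hi⟩ H
    · obtain ⟨x, hx, -, -, -, u1, hu1, ha1⟩ := E6l_pick hF hD h4 v0 v0 v0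
      obtain ⟨y, hy, hy1, -, -, u2, hu2, ha2⟩ := E6l_pick hF hD h4 x x x
      have huu : u1 ≠ u2 := by
        rintro rfl
        apply H2
        refine ⟨u1, hu1, one_lt_card.2 ⟨x, mem_nb.2 ⟨hx, ha1⟩, y, mem_nb.2 ⟨hy, ha2⟩, fun h => hy1 h.symm⟩⟩
      refine ⟨x, hx, y, hy, fun h => hy1 h.symm,
        ⟨u1, hu1, u2, hu2, hnc u1 hu1, hnc u2 hu2, huu, ha1, ha2⟩, ?_⟩
      intro w hw _ hw2
      exact absurd ⟨w, hw, hw2⟩ H2

end Pool.Agent.Lib.MP_f599e5_co
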