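import Pool.Agent.Lib.MP_f599e5_co.ThD
import Pool.Agent.Lib.MP_f599e5_co.B5

set_option autoImplicit false
set_option linter.unusedSectionVars false

/-!
# JOB Th2F: linkage of two pairs in a 2-connected set

`menger` (B5) with `k = 2`, `E = F`, `X = {x1, y1}`, `Y = {x2, y2}`.  Hypothesis: `S ⊆ F`, `S.card < 2`: `S = ∅` or `S = {w}`.
Since `x1 ≠ y1` there is `x ∈ X \ S`, since `x2 ≠ y2` there is `y ∈ Y \ S`.  `F \ S` is connected: for `S = {w}` it is `F.erase w`
(`TwoC`); for `S = ∅`: choose `w ∈ F` different from `x` and `y` (`3 ≤ F.card`) and use a path in `F.erase w ⊆ F`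
(`Conn.path`, `PL.mono`).  Menger gives two disjoint paths `P 0`, `P 1` from `x 0, x 1 ∈ X` to `y 0, y 1 ∈ Y`; the vertices
`x 0 ≠ x 1` (disjointness; `x i ∈ P i` by `PL.left_mem`) and `y 0 ≠ y 1`, so `{x 0, x 1} = X`, `{y 0, y 1} = Y`.  In each of the
four cases choose `S1` = the path starting in `x1`, `S2` = the one starting in `y1`.
-/

namespace Pool.Agent.Lib.MP_f599e5_co

open Finset

variable {V : Type} [DecidableEq V] {G : SimpleGraph V}

/-- two pairs of distinct vertices of a 2-connected set are linked by two disjoint paths (Menger) -/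
theorem TwoC.lk2 {F : Finset V} (h : TwoC G F) {x1 y1 x2 y2 : V} (hx1 : x1 ∈ F) (hy1 : y1 ∈ F) (hx2 : x2 ∈ F)
    (hy2 : y2 ∈ F) (h1 : x1 ≠ y1) (h2 : x2 ≠ y2) : Lk2 G F x1 y1 x2 y2 := by
  have hX : ({x1, y1} : Finset V) ⊆ F := by
    intro x hx
    simp only [mem_insert, mem_singleton] at hx
    rcases hx with rfl | rfl <;> assumption
  have hY : ({x2, y2} : Finset V) ⊆ F := by
    intro x hx
    simp only [mem_insert, mem_singleton] at hx
    rcases hx with rfl | rfl <;> assumption
  obtain ⟨h3, hc⟩ := h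
  have hpick : ∀ (p q : V) (S : Finset V), p ≠ q → S.card < 2 → ∃ x ∈ ({p, q} : Finset V) \ S, True := by
    intro p q S hpq hS
    have h4 : ({p, q} : Finset V).card = 2 := card_pair hpq
    have h5 : (({p, q} : Finset V) \ S).Nonempty := by
      rw [← card_pos]
      have := le_card_sdiff S ({p, q} : Finset V)
      omega
    obtain ⟨x, hx⟩ := h5
    exact ⟨x, hx, trivial⟩
  obtain ⟨P, x, y, n, hPF, hPd, hP, _⟩ := menger (G := G) 2 F {x1, y1} {x2, y2} hX hY (by
    intro S hSF hS
    obtain ⟨x, hx, -⟩ := hpick x1 y1 S h1 hS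
    obtain ⟨y, hy, -⟩ := hpick x2 y2 S h2 hS
    refine ⟨x, hx, y, hy, ?_⟩
    have hxF : x ∈ F := hX (mem_sdiff.mp hx).1
    have hyF : y ∈ F := hY (mem_sdiff.mp hy).1
    have hxS := (mem_sdiff.mp hx).2
    have hyS := (mem_sdiff.mp hy).2
    have hw : ∃ w, w ≠ x ∧ w ≠ y ∧ S ⊆ {w} := by
      have h6 : S.card ≤ 1 := by omega
      rcases S.eq_empty_or_nonempty with hS0 | ⟨w, hwS⟩
      · have h7 : (F \ {x, y}).Nonempty := by
          rw [← card_pos]
          have h8 := le_card_sdiff ({x, y} : Finset V) F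
          have h9 : ({x, y} : Finset V).card ≤ 2 := card_le_two
          omega
        obtain ⟨w, hw⟩ := h7
        simp only [mem_sdiff, mem_insert, mem_singleton, not_or] at hw
        exact ⟨w, hw.2.1, hw.2.2, by rw [hS0]; exact empty_subset _⟩
      · refine ⟨w, ?_, ?_, ?_⟩
        · rintro rfl; exact hxS hwS
        · rintro rfl; exact hyS hwS
        · intro z hz
          rw [mem_singleton]
          exact card_le_one.mp h6 z hz w hwS
    obtain ⟨w, hwx, hwy, hSw⟩ := hw
    obtain ⟨m, hm⟩ := (hc w).path (mem_erase.mpr ⟨hwx.symm, hxF⟩) (mem_erase.mpr ⟨hwy.symm, hyF⟩)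
    refine ⟨m, hm.mono ?_⟩
    intro z hz
    rw [mem_erase] at hz
    rw [mem_sdiff]
    exact ⟨hz.2, fun hzS => hz.1 (mem_singleton.mp (hSw hzS))⟩)
  have hd := hPd 0 1 (by decide)
  obtain ⟨hx0, hy0, p0⟩ := hP 0
  obtain ⟨hx1', hy1', p1⟩ := hP 1
  have hxne : x 0 ≠ x 1 := by
    intro he
    have a0 := p0.left_mem
    have a1 := p1.left_mem
    rw [he] at a0
    exact (disjoint_left.mp hd) a0 a1
  have hyne : y 0 ≠ y 1 := by
    intro he
    have a0 := p0.right_mem
    have a1 := p1.right_mem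
    rw [he] at a0
    exact (disjoint_left.mp hd) a0 a1
  have hF0 := hPF 0
  have hF1 := hPF 1
  generalize x 0 = a0 at *
  generalize x 1 = a1 at *
  generalize y 0 = b0 at *
  generalize y 1 = b1 at *
  simp only [mem_insert, mem_singleton] at hx0 hx1' hy0 hy1'
  rcases hx0 with rfl | rfl
  · have e1 : a1 = y1 := by
      rcases hx1' with h | h
      · exact absurd h.symm hxne
      · exact h
    subst e1
    rcases hy0 with rfl | rfl
    · have e2 : b1 = y2 := by
        rcases hy1' with h | h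
        · exact absurd h.symm hyne
        · exact h
      subst e2
      exact ⟨P 0, P 1, hd, hF0, hF1, n 0, n 1, Or.inl ⟨p0, p1⟩⟩
    · have e2 : b1 = x2 := by
        rcases hy1' with h | h
        · exact h
        · exact absurd h.symm hyne
      subst e2
      exact ⟨P 0, P 1, hd, hF0, hF1, n 0, n 1, Or.inr ⟨p0, p1⟩⟩
  · have e1 : a1 = x1 := by
      rcases hx1' with h | h
      · exact h
      · exact absurd h.symm hxne
    subst e1
    rcases hy0 with rfl | rfl
    · have e2 : b1 = y2 := by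
        rcases hy1' with h | h
        · exact absurd h.symm hyne
        · exact h
      subst e2
      exact ⟨P 1, P 0, hd.symm, hF1, hF0, n 1, n 0, Or.inr ⟨p1, p0⟩⟩
    · have e2 : b1 = x2 := by
        rcases hy1' with h | h
        · exact h
        · exact absurd h.symm hyne
      subst e2
      exact ⟨P 1, P 0, hd.symm, hF1, hF0, n 1, n 0, Or.inl ⟨p1, p0⟩⟩


end Pool.Agent.Lib.MP_f599e5_co
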