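import Pool.Agent.Lib.MP_f599e5_co.E6e
import Pool.Agent.Lib.MP_f599e5_co.E6l
import Pool.Agent.Lib.MP_f599e5_co.Th2F

set_option autoImplicit false
set_option linter.unusedSectionVars false

/-!
# JOB E6u: only one component has a vertex `≠ c` (4.5 V4)

* `close_int2`: `AdI`: `l1`, paths of lengths `l1 + i` (`i < n1`) through `D1` from `x1` to `y1`; `l2 + j` (`j < n2`) through `D2` from `x2` to `y2`.  `Lk2` (ThD): disjoint `S1, S2 ⊆ F` with paths `x1 -> x2` (length a), `y1 -> y2` (length b) [first alternative] or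
  `x1 -> y2`, `y1 -> x2` [second alternative; use `PL.symm` for the second ear].  `cyc_two` (K3): cycles of length `(l1 + i) + (l2 + j) + a + b`; `ea_int` (EA) with `L = l1 + l2 + a + b`.
* `adI_of`: `x ≠ y` in `cycV f g`: `x = f i`, `y = f (i + a)`, `0 < a < g` (`Cyc.exists_idx`); `Ctx6.v3` (E6c).
* `unique`: suppose `D1 ≠ D2` (then disjoint, `IsComp.disjoint`).  By symmetry `c ∉ D1` (`c` is not in both).  `Ctx6.exists_pair` for `D2`: `x2, y2`, `Ctx6.adm3`, `adI_of`: `AdI G (2h-3) D2 x2 y2`.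
  If `h ≥ 4`: the same for `D1`; `Cyc.twoC`, `TwoC.lk2` (Th2F); `close_int2` with `n1 = n2 = 2h - 3` (`2h + 1 ≤ 4h - 6`).
  If `h = 3`: `Ctx6.k6` for `D1`: `x1, y1`, `Ctx6.adm4`: `Adm G 4 D1 {x1} {y1}`, `adI_of` with `n = 4`; `close_int2` with `n1 = 4`, `n2 = 3` (`7 ≤ 7`).
-/

namespace Pool.Agent.Lib.MP_f599e5_co

open Finset

variable {V : Type} [DecidableEq V] {G : SimpleGraph V}

private theorem E6u_close {k n1 n2 a b : ℕ} {D1 D2 F S1 S2 : Finset V} {x1 y1 x2 y2 : V} (hk : 1 ≤ k)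
    (h1 : AdI G n1 D1 x1 y1) (h2 : AdI G n2 D2 x2 y2) (hn1 : 1 ≤ n1) (hn2 : 1 ≤ n2)
    (hnp : k + 1 ≤ n1 + n2) (hD : Disjoint D1 D2) (hF1 : Disjoint D1 F) (hF2 : Disjoint D2 F)
    (hS : Disjoint S1 S2) (hs1 : S1 ⊆ F) (hs2 : S2 ⊆ F) (q1 : PL G S1 x1 x2 a) (q2 : PL G S2 y1 y2 b) :
    ZC k G := by
  obtain ⟨l1, hl1, p1⟩ := h1
  obtain ⟨l2, hl2, p2⟩ := h2
  obtain ⟨i, hi, j, hj, hij⟩ := ea_int (L := l1 + l2 + a + b) hk hn1 hn2 hnp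
  have hc := cyc_two hD (disjoint_of_subset_right hs1 hF1) (disjoint_of_subset_right hs2 hF1)
    (disjoint_of_subset_right hs1 hF2) (disjoint_of_subset_right hs2 hF2) hS (by omega) (by omega)
    (p1 i hi) (p2 j hj) q1 q2
  refine hc.zc ?_
  have e : l1 + i + (l2 + j) + a + b = l1 + l2 + a + b + i + j := by ring
  rw [e]
  exact hij

private theorem E6u_symm {n : ℕ} {D : Finset V} {x y : V} (h : AdI G n D x y) : AdI G n D y x := by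
  obtain ⟨l, hl, p⟩ := h
  refine ⟨l, hl, fun i hi => ?_⟩
  have := (p i hi).symm
  rwa [insert_comm] at this

theorem close_int2 {k n1 n2 : ℕ} {D1 D2 F : Finset V} {x1 y1 x2 y2 : V} (hk : 1 ≤ k)
    (h1 : AdI G n1 D1 x1 y1) (h2 : AdI G n2 D2 x2 y2) (hn1 : 1 ≤ n1) (hn2 : 1 ≤ n2)
    (hnp : k + 1 ≤ n1 + n2) (hD : Disjoint D1 D2) (hF1 : Disjoint D1 F) (hF2 : Disjoint D2 F)
    (hl : Lk2 G F x1 y1 x2 y2) : ZC k G := by
  obtain ⟨S1, S2, hS, hs1, hs2, a, b, hab⟩ := hl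
  rcases hab with ⟨q1, q2⟩ | ⟨q1, q2⟩
  · exact E6u_close hk h1 h2 hn1 hn2 hnp hD hF1 hF2 hS hs1 hs2 q1 q2
  · exact E6u_close hk h1 (E6u_symm h2) hn1 hn2 hnp hD hF1 hF2 hS hs1 hs2 q1 q2

theorem Ctx6.adI_of {h n : ℕ} {B D : Finset V} {c x y : V} {f : ℤ → V} {g : ℕ} (hC : Ctx6 G h B c f g)
    (hDF : Disjoint D (cycV f g)) (hx : x ∈ cycV f g) (hy : y ∈ cycV f g) (hxy : x ≠ y)
    (hn : 2 * h ≤ n + 3) (hA : Adm G n D {x} {y}) : AdI G n D x y := by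
  obtain ⟨i, hi, hix⟩ := hC.sh.cyc.exists_idx hx 0
  obtain ⟨a, ha, hay⟩ := hC.sh.cyc.exists_idx hy (0 + (i : ℤ))
  have ha0 : 0 < a := by
    rcases Nat.eq_zero_or_pos a with h0 | h0
    · exfalso
      subst h0
      apply hxy
      rw [← hix, ← hay]
      simp
    · exact h0
  rw [← hix, ← hay] at hA ⊢
  exact (hC.v3 hDF ha0 ha hn hA).1

private theorem E6u_main {h : ℕ} {B D1 D2 : Finset V} {c : V} {f : ℤ → V} {g : ℕ} (hC : Ctx6 G h B c f g)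
    (hD1 : IsComp G (B \ cycV f g) D1) (hD2 : IsComp G (B \ cycV f g) D2) (h1 : ∃ v ∈ D1, v ≠ c)
    (h2 : ∃ v ∈ D2, v ≠ c) (hne : D1 ≠ D2) (hc : c ∉ D1) : False := by
  have hh := hC.hh
  have hdis : Disjoint D1 D2 := hD1.disjoint hD2 hne
  have hF1 : Disjoint D1 (cycV f g) := disjoint_left.2 fun v hv hvF => (mem_sdiff.1 (hD1.1 hv)).2 hvF
  have hF2 : Disjoint D2 (cycV f g) := disjoint_left.2 fun v hv hvF => (mem_sdiff.1 (hD2.1 hv)).2 hvF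
  obtain ⟨x2, hx2, y2, hy2, hxy2, hr2⟩ := hC.exists_pair hD2 h2
  have A2 : AdI G (2 * h - 3) D2 x2 y2 :=
    hC.adI_of hF2 hx2 hy2 hxy2 (by omega) (hC.adm3 hD2 hx2 hy2 hxy2 hr2)
  rcases Nat.lt_or_ge h 4 with h4 | h4
  · have h3 : h = 3 := by omega
    subst h3
    obtain ⟨x1, hx1, y1, hy1, hxy1, hr1, hdb⟩ := hC.k6 hD1 hc
    have A1 : AdI G 4 D1 x1 y1 := hC.adI_of hF1 hx1 hy1 hxy1 (by omega) (hC.adm4 hD1 hx1 hy1 hxy1 hr1 hdb)
    exact hC.hz (close_int2 (by omega) A1 A2 (by omega) (by omega) (by omega) hdis hF1 hF2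
      (hC.sh.cyc.twoC.lk2 hx1 hy1 hx2 hy2 hxy1 hxy2))
  · obtain ⟨x1, hx1, y1, hy1, hxy1, hr1⟩ := hC.exists_pair hD1 h1
    have A1 : AdI G (2 * h - 3) D1 x1 y1 :=
      hC.adI_of hF1 hx1 hy1 hxy1 (by omega) (hC.adm3 hD1 hx1 hy1 hxy1 hr1)
    exact hC.hz (close_int2 (by omega) A1 A2 (by omega) (by omega) (by omega) hdis hF1 hF2
      (hC.sh.cyc.twoC.lk2 hx1 hy1 hx2 hy2 hxy1 hxy2))

theorem Ctx6.unique {h : ℕ} {B D1 D2 : Finset V} {c : V} {f : ℤ → V} {g : ℕ} (hC : Ctx6 G h B c f g)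
    (hD1 : IsComp G (B \ cycV f g) D1) (hD2 : IsComp G (B \ cycV f g) D2) (h1 : ∃ v ∈ D1, v ≠ c)
    (h2 : ∃ v ∈ D2, v ≠ c) : D1 = D2 := by
  by_contra hne
  by_cases hc : c ∈ D1
  · have hc2 : c ∉ D2 := fun h => disjoint_left.1 (hD1.disjoint hD2 hne) hc h
    exact E6u_main hC hD2 hD1 h2 h1 (fun h => hne h.symm) hc2
  · exact E6u_main hC hD1 hD2 h1 h2 hne hc

end Pool.Agent.Lib.MP_f599e5_co
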