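import Pool.Agent.Lib.MP_f599e5_co.E6u

set_option autoImplicit false
set_option linter.unusedSectionVars false

/-!
# JOB E6v: end of the case `k = 2h ≥ 6` (4.5 V5)

* `comp_all`: `D` a component of `B \ F` (`F = cycV f g`) with a vertex `≠ c`, `f i ≠ c`: `3 ≤ (nb G (f i) (D.erase c)).card`.  `2h ≤ (nb G (f i) B).card` (`Blk.deg`), at most 2 of these neighbours are in `F` (`Short.in_le`), so at least
  `2h - 2 ≥ 4` are in `B \ F`, at least 3 of them are `≠ c`.  Each such `z` lies in `D`: the component of `B \ F` containing `z` (`exists_comp`) has the vertex `z ≠ c`, so it equals `D` (`Ctx6.unique`).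
* `false`: `D`: `Blk.exists_comp` (K5A) with `x = f i ≠ c` (`i = 0` or `i = 1`: `f 0 ≠ f 1`), `r = 2`.  Choose `i` such that `f i ≠ c` and `f (i + a) ≠ c` for `a = 1, 2, 3`: if `c` is not in the cycle `i = 0`, otherwise `c = f t`, `i = t + 1`
  (`f (t + 1 + a) = f t` would give `g ∣ a + 1 ≤ 4 < g`; `Cyc.ne` with `a + 1`).  For `a ∈ {1,2,3}`: `Rep G D c (f i) (f (i+a))`: `u1 ∈ D.erase c` adjacent to `f i`, then `u2 ∈ D.erase c`, `u2 ≠ u1`, adjacent to `f (i+a)` (at least 3 neighbours).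
  `Ctx6.pair` (E6c): `2a + 1 ≡ g` or `2a ≡ g + 1` mod `2h`: `a = 1`: `g ≡ 3` or `g ≡ 1`; `a = 2`: `g ≡ 5` or `g ≡ 3`; `a = 3`: `g ≡ 7` or `g ≡ 5` (mod `2h ≥ 6`).  Contradiction: let `r = g % (2h)`; e.g. (`Nat.ModEq` symmetric, transitive) two of the numbers
  1, 3, 5, 7 differing by 2 or 4 would be congruent mod `2h`, but `2h ∣ 2` or `2h ∣ 4` is impossible (`(Nat.modEq_iff_dvd' ..)`, `Nat.le_of_dvd`).
* `block_even6`: by contradiction: `Blk.sep2_even`, `Blk.sep3_even`, `Blk.exists_short`, `Ctx6.false`.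
-/

namespace Pool.Agent.Lib.MP_f599e5_co

open Finset

variable {V : Type} [DecidableEq V] {G : SimpleGraph V}

theorem Ctx6.comp_all {h : ℕ} {B D : Finset V} {c : V} {f : ℤ → V} {g : ℕ} (hC : Ctx6 G h B c f g)
    (hD : IsComp G (B \ cycV f g) D) (hDc : ∃ v ∈ D, v ≠ c) {i : ℤ} (hi : f i ≠ c) :
    3 ≤ (nb G (f i) (D.erase c)).card := by
  have h1 := hC.hB.deg (f i) (hC.sh.sub (hC.sh.cyc.mem i)) hi
  have h2 := hC.sh.in_le i
  have hh := hC.hh
  have h3 : (nb G (f i) B).card ≤ (nb G (f i) (cycV f g ∪ D.erase c)).card + (nb G (f i) {c}).card := by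
    refine nb_card_le_add ?_
    intro z hz _
    by_cases hzc : z = c
    · exact Or.inr (mem_singleton.2 hzc)
    · left
      by_cases hzF : z ∈ cycV f g
      · exact mem_union_left _ hzF
      · obtain ⟨E, hzE, hE⟩ := exists_comp (G := G) (D := B \ cycV f g) (mem_sdiff.2 ⟨hz, hzF⟩)
        have h4 : E = D := hC.unique hE hD ⟨z, hzE, hzc⟩ hDc
        exact mem_union_right _ (mem_erase.2 ⟨hzc, h4 ▸ hzE⟩)
  have h4 : (nb G (f i) (cycV f g ∪ D.erase c)).card ≤
      (nb G (f i) (cycV f g)).card + (nb G (f i) (D.erase c)).card := by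
    rw [nb_union]
    exact card_union_le _ _
  have h5 : (nb G (f i) {c}).card ≤ 1 := by
    have := nb_card_le (G := G) (v := f i) (A := {c})
    rwa [card_singleton] at this
  omega

private theorem e6v_ne {H : ℕ} {g x y : ℤ} (hH : 6 ≤ H) (h1 : (H : ℤ) ∣ g - x) (h2 : (H : ℤ) ∣ g - y)
    (hxy : x < y) (hle : y ≤ x + 4) : False := by
  have h3 : (H : ℤ) ∣ y - x := by
    have h4 := dvd_sub h1 h2
    have e : (g - x) - (g - y) = y - x := by ring
    rwa [e] at h4
  have h5 := Int.le_of_dvd (by omega) h3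
  omega

theorem Ctx6.false {h : ℕ} {B : Finset V} {c : V} {f : ℤ → V} {g : ℕ} (hC : Ctx6 G h B c f g) : False := by
  have hg5 := hC.sh.g5
  have hh := hC.hh
  -- four consecutive vertices of the cycle different from `c`
  obtain ⟨i, hi⟩ : ∃ i : ℤ, ∀ a : ℕ, a ≤ 3 → f (i + a) ≠ c := by
    by_cases hc : ∃ t : ℤ, f t = c
    · obtain ⟨t, ht⟩ := hc
      refine ⟨t + 1, fun a ha he => ?_⟩
      have h1 := hC.sh.cyc.ne t (a := a + 1) (by omega) (by omega)
      apply h1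
      rw [ht, ← he]
      congr 1
      push_cast
      ring
    · exact ⟨0, fun a _ he => hc ⟨0 + a, he⟩⟩
  have hi0 : f i ≠ c := by
    have h1 := hi 0 (by omega)
    simpa using h1
  obtain ⟨D, hD, hDc⟩ := hC.hB.exists_comp hC.sh.sub (hC.sh.cyc.mem i) hi0 (r := 2) (by omega)
    (hC.sh.in_le i)
  have hmod : ∀ a : ℕ, 1 ≤ a → a ≤ 3 → ((2 * h : ℕ) : ℤ) ∣ (g : ℤ) - (2 * (a : ℤ) + 1) ∨
      ((2 * h : ℕ) : ℤ) ∣ (g : ℤ) - (2 * (a : ℤ) - 1) := by
    intro a h1 h3
    have hc1 := hC.comp_all hD hDc hi0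
    have hc2 := hC.comp_all hD hDc (hi a h3)
    obtain ⟨u1, hu1⟩ := card_pos.1 (show 0 < (nb G (f i) (D.erase c)).card by omega)
    obtain ⟨u2, hu2, hne⟩ := exists_mem_ne (show 1 < (nb G (f (i + a)) (D.erase c)).card by omega) u1
    rw [mem_nb, mem_erase] at hu1 hu2
    have hr : Rep G D c (f i) (f (i + a)) :=
      ⟨u1, hu1.1.2, u2, hu2.1.2, hu1.1.1, hu2.1.1, hne.symm, hu1.2.symm, hu2.2.symm⟩
    rcases (hC.pair hD (show 0 < a by omega) (show a < g by omega) hr).2 with h4 | h4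
    · left
      rw [Nat.modEq_iff_dvd] at h4
      have e : ((g : ℤ)) - ((2 * a + 1 : ℕ) : ℤ) = (g : ℤ) - (2 * (a : ℤ) + 1) := by push_cast; ring
      rwa [e] at h4
    · right
      rw [Nat.modEq_iff_dvd] at h4
      have e : ((g + 1 : ℕ) : ℤ) - ((2 * a : ℕ) : ℤ) = (g : ℤ) - (2 * (a : ℤ) - 1) := by push_cast; ring
      rwa [e] at h4
  have hH : 6 ≤ 2 * h := by omega
  rcases hmod 1 (by omega) (by omega) with h1 | h1
  · rcases hmod 2 (by omega) (by omega) with h2 | h2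
    · exact e6v_ne hH h1 h2 (by norm_num) (by norm_num)
    · rcases hmod 3 (by omega) (by omega) with h3 | h3
      · exact e6v_ne hH h2 h3 (by norm_num) (by norm_num)
      · exact e6v_ne hH h2 h3 (by norm_num) (by norm_num)
  · rcases hmod 2 (by omega) (by omega) with h2 | h2
    · exact e6v_ne hH h1 h2 (by norm_num) (by norm_num)
    · exact e6v_ne hH h1 h2 (by norm_num) (by norm_num)

theorem block_even6 {h : ℕ} {B : Finset V} {c : V} (hh : 3 ≤ h) (hB : Blk G (2 * h) B c) : ZC (2 * h) G := by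
  by_contra hz
  obtain ⟨f, g, hs⟩ := hB.exists_short (by omega) hz
  exact Ctx6.false ⟨hB, hh, hz, hB.sep2_even (by omega) hz, hB.sep3_even hh hz, hs⟩

end Pool.Agent.Lib.MP_f599e5_co
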