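import Pool.Agent.Lib.MP_f599e5_co.B4A

set_option autoImplicit false

/-!
# JOB EA: arithmetic for even k (`k = 2 * h`)

All lemmas are about progressions `l + i*d`, `d ∈ {1,2}`.  Tools: `ap_sum_int`, `ap_int_of_two`, `ap_zero_one`, `ap_zero_even` (B4A), `omega`.
* `ea_two`: `L + i*d1 + j*d2`, `i, j < n`.  If `d1 = 1`: `ap_sum_int` (with `p = n`, `j` the coefficient of the progression with difference 1, `i` the other one)
  gives all `t < n + n - 1`, `2n - 1 ≥ 2h`; `ap_zero_one` gives `t < 2h` with `2h ∣ L + t`.  `d2 = 1`: symmetric.  `d1 = d2 = 2`, `L` even: `L + 2(i+j)`; `ap_zero_even` with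
  `h ≤ 2n - 1` (choose `i = min t (n-1)`, `j = t - i`).
* `ea_arcs`: `a + b` odd, `n = 2h - 3`, `h ≥ 3`.  Cases:
  `d1 = d2 = 2`: one of `L + a`, `L + b` is even, and `h ≤ 2n - 1`: `ap_zero_even`.
  `{d1,d2} = {1,2}`: `ap_int_of_two` (with `p = n`): all `t < 2(n-1) + n = 3n - 2 ≥ 2h` (as `6h - 11 ≥ 2h`): `ap_zero_one` with `L + a`.
  `d1 = d2 = 1`: all `t < 2n - 1 = 4h - 7`.  If `h ≥ 4` this is `≥ 2h`.  If `h = 3`: five consecutive numbers `L+a+t`, `t < 5`, and `L+b+t`, mod 6: if none of them is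
  divisible by 6 then `(L+a) % 6 = 1` and `(L+b) % 6 = 1`, contradiction to `a + b` odd (omega).
* `ea_v3`: `a + b` odd, `3 ≤ h`, `2h ≤ n + 3`, no `l + i*d + a`, no `l + i*d + b` (`i < n`) divisible by `2h`.  `d = 2` impossible: one of `l + a`, `l + b` is even,
  `h ≤ 2h - 3 ≤ n`: `ap_zero_even`.  So `d = 1`, and the `2h - 3` numbers `l+a, …, l+a+2h-4` are not divisible by `2h`: `(l+a) % (2h) ∈ {1,2,3}`; same for
  `l + b`.  So `a - b ≡ -2..2`; `a + b` is odd and `2h` even, so `a ≡ b ± 1`.  (Write `l + a = 2h * s + r`, `r ∈ {1,2,3}` — if `r = 0` take `i = 0`, if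
  `r ≥ 4` take `i = 2h - r ≤ 2h - 4`; note `i < n`.)
-/

namespace Pool.Agent.Lib.MP_f599e5_co

/-- two ears closed directly -/
theorem ea_two {h n d1 d2 L : ℕ} (hh : 2 ≤ h) (hn : 2 ≤ n) (hnh : 2 * h + 1 ≤ 2 * n) (h1 : d1 = 1 ∨ d1 = 2)
    (h2 : d2 = 1 ∨ d2 = 2) (hL : d1 = 1 ∨ d2 = 1 ∨ Even L) :
    ∃ i < n, ∃ j < n, 2 * h ∣ L + i * d1 + j * d2 := by
  rcases h1 with rfl | rfl
  · obtain ⟨t, ht, hdv⟩ := ap_zero_one (k := 2 * h) (l := L) (by omega)
    obtain ⟨i, hi, j, hj, hij⟩ := ap_sum_int (n := n) (p := n) (d := d2) (by omega) hn h2 t (by omega)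
    refine ⟨j, hj, i, hi, ?_⟩
    have e : L + j * 1 + i * d2 = L + t := by omega
    rw [e]
    exact hdv
  · rcases h2 with rfl | rfl
    · obtain ⟨t, ht, hdv⟩ := ap_zero_one (k := 2 * h) (l := L) (by omega)
      obtain ⟨i, hi, j, hj, hij⟩ := ap_sum_int (n := n) (p := n) (d := 2) (by omega) hn (Or.inr rfl) t
        (by omega)
      refine ⟨i, hi, j, hj, ?_⟩
      have e : L + i * 2 + j * 1 = L + t := by omega
      rw [e]
      exact hdv
    · have hE : Even L := by
        rcases hL with h3 | h3 | h3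
        · omega
        · omega
        · exact h3
      obtain ⟨t, ht, hdv⟩ := ap_zero_even (h := h) (l := L) (by omega) hE
      refine ⟨t, by omega, 0, by omega, ?_⟩
      have e : L + t * 2 + 0 * 2 = L + t * 2 := by omega
      rw [e]
      exact hdv

/-- two ears closed by one of two arcs of different parity -/
theorem ea_arcs {h d1 d2 L a b : ℕ} (hh : 3 ≤ h) (h1 : d1 = 1 ∨ d1 = 2) (h2 : d2 = 1 ∨ d2 = 2)
    (hab : Odd (a + b)) :
    ∃ i < 2 * h - 3, ∃ j < 2 * h - 3, 2 * h ∣ L + i * d1 + j * d2 + a ∨ 2 * h ∣ L + i * d1 + j * d2 + b := by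
  have hpar : Even (L + a) ∨ Even (L + b) := by
    rw [Nat.even_iff, Nat.even_iff]
    rw [Nat.odd_iff] at hab
    omega
  rcases h1 with rfl | rfl
  · rcases h2 with rfl | rfl
    · rcases Nat.lt_or_ge h 4 with h4 | h4
      · have h5 : h = 3 := by omega
        subst h5
        rw [Nat.odd_iff] at hab
        have h6 : (L + a) % 6 ≠ 1 ∨ (L + b) % 6 ≠ 1 := by omega
        rcases h6 with h6 | h6
        · have h7 : ∃ t < 5, (L + a + t) % 6 = 0 := ⟨(6 - (L + a) % 6) % 6, by omega, by omega⟩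
          obtain ⟨t, ht, h8⟩ := h7
          refine ⟨min t 2, by omega, t - min t 2, by omega, Or.inl ?_⟩
          omega
        · have h7 : ∃ t < 5, (L + b + t) % 6 = 0 := ⟨(6 - (L + b) % 6) % 6, by omega, by omega⟩
          obtain ⟨t, ht, h8⟩ := h7
          refine ⟨min t 2, by omega, t - min t 2, by omega, Or.inr ?_⟩
          omega
      · obtain ⟨t, ht, hdv⟩ := ap_zero_one (k := 2 * h) (l := L + a) (by omega)
        refine ⟨min t (2 * h - 4), by omega, t - min t (2 * h - 4), by omega, Or.inl ?_⟩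
        have e : L + min t (2 * h - 4) * 1 + (t - min t (2 * h - 4)) * 1 + a = L + a + t := by omega
        rw [e]
        exact hdv
    · obtain ⟨t, ht, hdv⟩ := ap_zero_one (k := 2 * h) (l := L + a) (by omega)
      obtain ⟨i, hi, j, hj, hij⟩ := ap_int_of_two (n := 2 * h - 3) (p := 2 * h - 3) (by omega) (by omega) t
        (by omega)
      refine ⟨j, hj, i, hi, Or.inl ?_⟩
      have e : L + j * 1 + i * 2 + a = L + a + t := by omega
      rw [e]
      exact hdv
  · rcases h2 with rfl | rfl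
    · obtain ⟨t, ht, hdv⟩ := ap_zero_one (k := 2 * h) (l := L + a) (by omega)
      obtain ⟨i, hi, j, hj, hij⟩ := ap_int_of_two (n := 2 * h - 3) (p := 2 * h - 3) (by omega) (by omega) t
        (by omega)
      refine ⟨i, hi, j, hj, Or.inl ?_⟩
      have e : L + i * 2 + j * 1 + a = L + a + t := by omega
      rw [e]
      exact hdv
    · rcases hpar with hE | hE
      · obtain ⟨t, ht, hdv⟩ := ap_zero_even (h := h) (l := L + a) (by omega) hE
        refine ⟨t, by omega, 0, by omega, Or.inl ?_⟩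
        have e : L + t * 2 + 0 * 2 + a = L + a + t * 2 := by omega
        rw [e]
        exact hdv
      · obtain ⟨t, ht, hdv⟩ := ap_zero_even (h := h) (l := L + b) (by omega) hE
        refine ⟨t, by omega, 0, by omega, Or.inr ?_⟩
        have e : L + t * 2 + 0 * 2 + b = L + b + t * 2 := by omega
        rw [e]
        exact hdv

/-- the same for `k = 4` and two paths of different parity -/
theorem ea_arcs4 {d1 d2 L a b : ℕ} (h1 : d1 = 1 ∨ d1 = 2) (h2 : d2 = 1 ∨ d2 = 2) (hab : Odd (a + b)) :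
    ∃ i < 2, ∃ j < 2, 4 ∣ L + i * d1 + j * d2 + a ∨ 4 ∣ L + i * d1 + j * d2 + b := by
  rw [Nat.odd_iff] at hab
  by_contra hcon
  push Not at hcon
  have h00 := hcon 0 (by omega) 0 (by omega)
  have h01 := hcon 0 (by omega) 1 (by omega)
  have h10 := hcon 1 (by omega) 0 (by omega)
  have h11 := hcon 1 (by omega) 1 (by omega)
  rcases h1 with rfl | rfl <;> rcases h2 with rfl | rfl <;> omega

/-- one ear and two arcs of different parity -/
theorem ea_v3 {h n d l a b : ℕ} (hh : 3 ≤ h) (hn : 2 * h ≤ n + 3) (hd : d = 1 ∨ d = 2) (hab : Odd (a + b))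
    (ha : ∀ i < n, ¬ 2 * h ∣ l + i * d + a) (hb : ∀ i < n, ¬ 2 * h ∣ l + i * d + b) :
    d = 1 ∧ (a + 1 ≡ b [MOD 2 * h] ∨ b + 1 ≡ a [MOD 2 * h]) := by
  have main : ∀ c : ℕ, (∀ i < n, ¬ 2 * h ∣ l + i * 1 + c) →
      ∃ s r, l + c = 2 * h * s + r ∧ 1 ≤ r ∧ r ≤ 3 := by
    intro c hc
    refine ⟨(l + c) / (2 * h), (l + c) % (2 * h), (Nat.div_add_mod _ _).symm, ?_, ?_⟩
    · by_contra h0
      have h1 : (l + c) % (2 * h) = 0 := by omega
      refine hc 0 (by omega) ?_
      have e : l + 0 * 1 + c = l + c := by omega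
      rw [e]
      exact Nat.dvd_of_mod_eq_zero h1
    · by_contra h0
      have h2 : (l + c) % (2 * h) < 2 * h := Nat.mod_lt _ (by omega)
      refine hc (2 * h - (l + c) % (2 * h)) (by omega) ?_
      have h3 := Nat.div_add_mod (l + c) (2 * h)
      refine ⟨(l + c) / (2 * h) + 1, ?_⟩
      rw [mul_add, mul_one]
      omega
  rcases hd with rfl | rfl
  · refine ⟨rfl, ?_⟩
    obtain ⟨s, r, h1, h2, h3⟩ := main a ha
    obtain ⟨s', r', h1', h2', h3'⟩ := main b hb
    have hpar : r % 2 ≠ r' % 2 := by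
      rw [Nat.odd_iff] at hab
      have e1 : 2 * h * s = 2 * (h * s) := by ring
      have e2 : 2 * h * s' = 2 * (h * s') := by ring
      rw [e1] at h1
      rw [e2] at h1'
      omega
    have hcase : r + 1 = r' ∨ r' + 1 = r := by omega
    rcases hcase with hr | hr
    · left
      have h4 : l + (a + 1) ≡ l + b [MOD 2 * h] := by
        have e1 : l + (a + 1) = 2 * h * s + r' := by omega
        rw [e1, h1', Nat.ModEq, Nat.mul_add_mod, Nat.mul_add_mod]
      exact Nat.ModEq.add_left_cancel' l h4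
    · right
      have h4 : l + (b + 1) ≡ l + a [MOD 2 * h] := by
        have e1 : l + (b + 1) = 2 * h * s' + r := by omega
        rw [e1, h1, Nat.ModEq, Nat.mul_add_mod, Nat.mul_add_mod]
      exact Nat.ModEq.add_left_cancel' l h4
  · exfalso
    have hpar : Even (l + a) ∨ Even (l + b) := by
      rw [Nat.even_iff, Nat.even_iff]
      rw [Nat.odd_iff] at hab
      omega
    rcases hpar with hE | hE
    · obtain ⟨t, ht, hdv⟩ := ap_zero_even (h := h) (l := l + a) (by omega) hE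
      refine ha t (by omega) ?_
      have e : l + t * 2 + a = l + a + t * 2 := by omega
      rw [e]
      exact hdv
    · obtain ⟨t, ht, hdv⟩ := ap_zero_even (h := h) (l := l + b) (by omega) hE
      refine hb t (by omega) ?_
      have e : l + t * 2 + b = l + b + t * 2 := by omega
      rw [e]
      exact hdv

/-- two intervals -/
theorem ea_int {k n1 n2 L : ℕ} (hk : 1 ≤ k) (h1 : 1 ≤ n1) (h2 : 1 ≤ n2) (hn : k + 1 ≤ n1 + n2) :
    ∃ i < n1, ∃ j < n2, k ∣ L + i + j := by
  obtain ⟨t, ht, hdv⟩ := ap_zero_one (k := k) (l := L) hk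
  refine ⟨min t (n1 - 1), by omega, t - min t (n1 - 1), by omega, ?_⟩
  have e : L + min t (n1 - 1) + (t - min t (n1 - 1)) = L + t := by omega
  rw [e]
  exact hdv

/-- three residues mod 4 against two -/
theorem ea_three {d l p1 p2 p3 : ℕ} (hd : d = 1 ∨ d = 2) (h12 : p1 % 4 ≠ p2 % 4) (h13 : p1 % 4 ≠ p3 % 4)
    (h23 : p2 % 4 ≠ p3 % 4) :
    ∃ i < 2, 4 ∣ l + i * d + p1 ∨ 4 ∣ l + i * d + p2 ∨ 4 ∣ l + i * d + p3 := by
  by_contra hcon
  push Not at hcon
  have h0 := hcon 0 (by omega)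
  have h1 := hcon 1 (by omega)
  rcases hd with rfl | rfl <;> omega

end Pool.Agent.Lib.MP_f599e5_co
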