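import Pool.Agent.Lib.MP_f599e5_co.EBPd

set_option autoImplicit false
set_option linter.unusedSectionVars false

/-!
# JOB EBP2: Lemma BP, reductions

`hIH`: the lemma holds for all smaller sets.  Claim: `ZC (2*h) H` or `H[E.erase w]` is connected for all `w ∈ E`.
Let `x0 ∈ E \ {p,q}`; it has `≥ h + 1 ≥ 3` neighbours in `E`.
1. `bp_pend`: if `q ∈ E` and `nb H q E ⊆ {w}` (`w` any vertex) then `ZC`: apply `hIH` to `E' = E.erase q` (smaller) with the exceptional vertices `p, w`.
   `col`: restriction.  `deg`: `x ∈ E'`, `x ≠ p`, `x ≠ w`: `x` is not adjacent to `q`, so `nb H x E' = nb H x E`.  `ne`: if every vertex of `E'` is `p` or `w` then `E ⊆ {p,q,w}`, so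
   `x0 = w` has at most two neighbours `p, q` in `E`, contradiction to `h + 1 ≥ 3`.  By `BPh.symm` the same for `p`.
2. `bp_part`: let `w` be a vertex and `X ⊆ E.erase w` with `bd H (E.erase w) X = ∅` (closed) and let `r ∈ {p,q}` be such that `X ∩ {p,q} ⊆ {r}`.  If `X` contains a vertex `≠ r` and
   `X ∪ {w}` (that is `insert w X`) has fewer elements than `E`, then `ZC`: `hIH` for `insert w X` if `w ∈ E` (exceptional vertices `w`, `r`), where all neighbours in `E` of `x ∈ X` are in `insert w X`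
   (closed).  (If `w ∉ E`, use `X` itself.)
3. `E` is connected, or `ZC`: if `E` is not connected there is a closed nonempty proper subset; more precisely the component `X` of `E` containing `x0` (`exists_comp`); if `X ≠ E`
   apply `hIH` to `X` with the same `p, q` (degrees in `X` = degrees in `E`).
4. Let `w ∈ E` and suppose `E.erase w` is not connected: it is nonempty (x0 or a neighbour of `x0`), so there is `X ⊆ E.erase w` nonempty, closed, `X ≠ E.erase w`; `Y = (E.erase w) \ X` is closed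
   (symmetry of adjacency) and nonempty.  One of `X`, `Y` contains at most one of `p, q`, say (symmetric in `X, Y`) `X ∩ {p,q} ⊆ {r}` with `r ∈ {p, q}`.  `insert w X` has fewer elements than `E`
   (`Y` nonempty).  By 2, either `ZC` or `X ⊆ {r}`, i.e. `X = {r}`, `r ∈ E`, and the neighbours of `r` in `E` are in `{w}`: `bp_pend` (for `q` or, by symmetry, for `p`).
-/

namespace Pool.Agent.Lib.MP_f599e5_co

open Finset

variable {V : Type} [DecidableEq V] {G : SimpleGraph V}

private theorem ebp2_pend {H : SimpleGraph V} {h : ℕ} (hh : 2 ≤ h) {E : Finset V} {p q : V} (hb : BPh H h E p q)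
    (hIH : ∀ (E' : Finset V) (p' q' : V), E'.card < E.card → BPh H h E' p' q' → ZC (2 * h) H)
    {w : V} (hq : q ∈ E) (hw : nb H q E ⊆ {w}) : ZC (2 * h) H := by
  apply hIH (E.erase q) p w (card_erase_lt_of_mem hq)
  obtain ⟨f, hf⟩ := hb.col
  refine ⟨⟨f, fun x hx y hy => hf x (mem_of_mem_erase hx) y (mem_of_mem_erase hy)⟩, ?_, ?_⟩
  · by_contra hcon
    push Not at hcon
    obtain ⟨x0, hx0, hx0p, hx0q⟩ := hb.ne
    have hx0w : x0 = w := hcon x0 (mem_erase.2 ⟨hx0q, hx0⟩) hx0p
    have hd := hb.deg x0 hx0 hx0p hx0q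
    have hsub : nb H x0 E ⊆ {p, q} := by
      intro y hy
      obtain ⟨hyE, hya⟩ := mem_nb.1 hy
      by_contra hn
      simp only [mem_insert, mem_singleton, not_or] at hn
      have h3 := hcon y (mem_erase.2 ⟨hn.2, hyE⟩) hn.1
      rw [h3, ← hx0w] at hya
      exact hya.ne rfl
    have h1 := card_le_card hsub
    have h2 : ({p, q} : Finset V).card ≤ 2 := card_le_two
    omega
  · intro x hx hxp hxw
    have hxE := mem_of_mem_erase hx
    have hxq := ne_of_mem_erase hx
    have hna : ¬ H.Adj x q := by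
      intro ha
      have h1 := hw (mem_nb.2 ⟨hxE, ha.symm⟩)
      exact hxw (mem_singleton.1 h1)
    have heq : nb H x (E.erase q) = nb H x E := by
      ext y
      rw [mem_nb, mem_nb, mem_erase]
      constructor
      · rintro ⟨⟨_, h1⟩, h2⟩
        exact ⟨h1, h2⟩
      · rintro ⟨h1, h2⟩
        refine ⟨⟨?_, h1⟩, h2⟩
        rintro rfl
        exact hna h2
    rw [heq]
    exact hb.deg x hxE hxp hxq

private theorem ebp2_part {H : SimpleGraph V} {h : ℕ} {E : Finset V} {p q : V} (hb : BPh H h E p q)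
    (hIH : ∀ (E' : Finset V) (p' q' : V), E'.card < E.card → BPh H h E' p' q' → ZC (2 * h) H)
    {w r : V} (hw : w ∈ E) {X : Finset V} (hX : X ⊆ E.erase w) (hcl : bd H (E.erase w) X = ∅)
    (hr : ∀ y ∈ X, y = p ∨ y = q → y = r) (hv : ∃ v ∈ X, v ≠ r) (hlt : (insert w X).card < E.card) :
    ZC (2 * h) H := by
  have hsub : insert w X ⊆ E := insert_subset hw (hX.trans (erase_subset _ _))
  apply hIH (insert w X) w r hlt
  obtain ⟨f, hf⟩ := hb.col
  refine ⟨⟨f, fun x hx y hy => hf x (hsub hx) y (hsub hy)⟩, ?_, ?_⟩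
  · obtain ⟨v, hvX, hvr⟩ := hv
    exact ⟨v, mem_insert_of_mem hvX, ne_of_mem_erase (hX hvX), hvr⟩
  · intro x hx hxw hxr
    have hxX : x ∈ X := by
      rcases mem_insert.1 hx with h1 | h1
      · exact absurd h1 hxw
      · exact h1
    have hxp : x ≠ p := fun h1 => hxr (hr x hxX (Or.inl h1))
    have hxq : x ≠ q := fun h1 => hxr (hr x hxX (Or.inr h1))
    refine (hb.deg x (hsub hx) hxp hxq).trans (card_le_card ?_)
    intro y hy
    obtain ⟨hyE, hya⟩ := mem_nb.1 hy
    refine mem_nb.2 ⟨?_, hya⟩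
    by_cases hyw : y = w
    · rw [hyw]
      exact mem_insert_self _ _
    · refine mem_insert_of_mem ?_
      by_contra hyX
      have h1 : y ∈ bd H (E.erase w) X := mem_bd.2 ⟨mem_erase.2 ⟨hyw, hyE⟩, hyX, x, hxX, hya⟩
      rw [hcl] at h1
      exact absurd h1 (notMem_empty y)

private theorem ebp2_side {H : SimpleGraph V} {h : ℕ} (hh : 2 ≤ h) {E : Finset V} {p q : V} (hb : BPh H h E p q)
    (hIH : ∀ (E' : Finset V) (p' q' : V), E'.card < E.card → BPh H h E' p' q' → ZC (2 * h) H)
    {w r : V} (hw : w ∈ E) {X : Finset V} (hX : X ⊆ E.erase w) (hcl : bd H (E.erase w) X = ∅)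
    (hne : X.Nonempty) (hpr : ∃ y ∈ E.erase w, y ∉ X) (hrpq : r = p ∨ r = q)
    (hr : ∀ y ∈ X, y = p ∨ y = q → y = r) : ZC (2 * h) H := by
  by_cases hv : ∃ v ∈ X, v ≠ r
  · refine ebp2_part hb hIH hw hX hcl hr hv (card_lt_card ?_)
    refine (ssubset_iff_of_subset (insert_subset hw (hX.trans (erase_subset _ _)))).2 ?_
    obtain ⟨y, hy, hyX⟩ := hpr
    refine ⟨y, mem_of_mem_erase hy, ?_⟩
    rw [mem_insert, not_or]
    exact ⟨ne_of_mem_erase hy, hyX⟩
  · push Not at hv
    obtain ⟨v, hvX⟩ := hne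
    have hrX : r ∈ X := by
      have h1 := hv v hvX
      rwa [h1] at hvX
    have hrE : r ∈ E := mem_of_mem_erase (hX hrX)
    have hnb : nb H r E ⊆ {w} := by
      intro y hy
      obtain ⟨hyE, hya⟩ := mem_nb.1 hy
      rw [mem_singleton]
      by_contra hyw
      have hyX : y ∉ X := by
        intro h1
        have h2 := hv y h1
        rw [h2] at hya
        exact hya.ne rfl
      have h1 : y ∈ bd H (E.erase w) X := mem_bd.2 ⟨mem_erase.2 ⟨hyw, hyE⟩, hyX, r, hrX, hya⟩
      rw [hcl] at h1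
      exact absurd h1 (notMem_empty y)
    rcases hrpq with h1 | h1
    · subst h1
      exact ebp2_pend hh hb.symm hIH hrE hnb
    · subst h1
      exact ebp2_pend hh hb hIH hrE hnb

theorem bp_step {H : SimpleGraph V} {h : ℕ} (hh : 2 ≤ h) {E : Finset V} {p q : V} (hb : BPh H h E p q)
    (hIH : ∀ (E' : Finset V) (p' q' : V), E'.card < E.card → BPh H h E' p' q' → ZC (2 * h) H) :
    ZC (2 * h) H ∨ ∀ w ∈ E, Conn H (E.erase w) := by
  by_cases hZ : ZC (2 * h) H
  · exact Or.inl hZ
  right
  intro w hw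
  have hne : (E.erase w).Nonempty := by
    obtain ⟨x0, hx0, hx0p, hx0q⟩ := hb.ne
    have hd := hb.deg x0 hx0 hx0p hx0q
    have h1 : (nb H x0 E).card ≤ E.card := card_le_card (fun y hy => (mem_nb.1 hy).1)
    rw [← card_pos, card_erase_of_mem hw]
    omega
  refine ⟨hne, ?_⟩
  intro X hX hXne hcl
  by_contra hXE
  apply hZ
  have hpr : ∃ y ∈ E.erase w, y ∉ X := by
    by_contra h1
    push Not at h1
    exact hXE (Subset.antisymm hX h1)
  by_cases hp : p ∈ X
  · by_cases hq : q ∈ X
    · -- the other side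
      have hYcl : bd H (E.erase w) ((E.erase w) \ X) = ∅ := by
        rw [eq_empty_iff_forall_notMem]
        intro y hy
        obtain ⟨hyE, hyY, x, hxY, hxy⟩ := mem_bd.1 hy
        have hyX : y ∈ X := by
          by_contra h1
          exact hyY (mem_sdiff.2 ⟨hyE, h1⟩)
        have hx := mem_sdiff.1 hxY
        have h1 : x ∈ bd H (E.erase w) X := mem_bd.2 ⟨hx.1, hx.2, y, hyX, hxy.symm⟩
        rw [hcl] at h1
        exact absurd h1 (notMem_empty x)
      refine ebp2_side hh hb hIH hw (X := (E.erase w) \ X) (r := p) sdiff_subset hYcl ?_ ?_ (Or.inl rfl) ?_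
      · obtain ⟨y, hy, hyX⟩ := hpr
        exact ⟨y, mem_sdiff.2 ⟨hy, hyX⟩⟩
      · obtain ⟨x, hx⟩ := hXne
        exact ⟨x, hX hx, fun h1 => (mem_sdiff.1 h1).2 hx⟩
      · intro y hy hypq
        have h1 := (mem_sdiff.1 hy).2
        rcases hypq with h2 | h2
        · exact h2
        · rw [h2] at h1
          exact absurd hq h1
    · refine ebp2_side hh hb hIH hw hX hcl hXne hpr (Or.inl rfl) ?_
      intro y hy hypq
      rcases hypq with h2 | h2
      · exact h2
      · rw [h2] at hy
        exact absurd hy hq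
  · refine ebp2_side hh hb hIH hw hX hcl hXne hpr (Or.inr rfl) ?_
    intro y hy hypq
    rcases hypq with h2 | h2
    · rw [h2] at hy
      exact absurd hy hp
    · exact h2

end Pool.Agent.Lib.MP_f599e5_co
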