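import Pool.Agent.Lib.MP_f599e5_co.EBP1
import Pool.Agent.Lib.MP_f599e5_co.EBP2

set_option autoImplicit false
set_option linter.unusedSectionVars false

/-! # EBP: Lemma BP -/

namespace Pool.Agent.Lib.MP_f599e5_co

open Finset

variable {V : Type} [DecidableEq V] {G : SimpleGraph V}

/-- **Lemma BP** -/
theorem bp {H : SimpleGraph V} {h : ℕ} (hh : 2 ≤ h) {E : Finset V} {p q : V} (hb : BPh H h E p q) :
    ZC (2 * h) H := by
  have key : ∀ (N : ℕ) (E : Finset V) (p q : V), E.card = N → BPh H h E p q → ZC (2 * h) H := by
    intro N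
    induction N using Nat.strong_induction_on with
    | _ N ih =>
      intro E p q hE hb
      rcases bp_step hh hb (fun E' p' q' hlt hb' => ih E'.card (by omega) E' p' q' rfl hb') with h1 | h1
      · exact h1
      · exact bp_core hh hb h1
  exact key _ E p q rfl hb

end Pool.Agent.Lib.MP_f599e5_co
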