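import Pool.Agent.Lib.MP_f599e5_co.EBPd

set_option autoImplicit false
set_option linter.unusedSectionVars false

/-!
# JOB EBP1: Lemma BP, final step (all `E.erase w` connected)

`BPh H h E p q` (EBPd.lean), `2 ≤ h`, `H[E.erase w]` connected for all `w ∈ E`.  Claim: `ZC (2*h) H`.
Let `x0 ∈ E \ {p,q}` (`ne`); it has at least `h + 1 ≥ 3` neighbours in `E`, so `4 ≤ E.card`.
1. Choose `x ∈ E`, `x ≠ q`, such that `p ∈ E` and `p ≠ q` imply `x = p`: if `p ∈ E` and `p ≠ q` take `x = p`, otherwise `x = x0`.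
2. Choose a neighbour `y ∈ E` of `x`, `y ≠ q`: if `q ∈ E`, `E.erase q` is connected, contains `x` and another vertex, so `x` has a neighbour in it
   (`Conn.bd_nonempty` with `C = {x}`); if `q ∉ E`: let `w ∈ E`, `w ≠ x`; choose `w` with `(E.erase w) ≠ {x}` (`4 ≤ E.card`) and do the same in `E.erase w`
   (any neighbour is `≠ q` since `q ∉ E`).
3. There is a vertex `v0 ∈ E`, `v0 ∉ {x, y, q}` (`4 ≤ E.card`).  `D` = component of `E \ {x,y}` containing `v0` (`exists_comp`).
4. `R0 H D {x} {y}`.  r1: a nonempty closed subset `C` of the connected `D` is `D`.  `D ~ x`: otherwise `D` is closed in `E.erase y` (`bd H (E.erase y) D = ∅`: a neighbour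
   `z ∈ E.erase y`, `z ∉ D` of `D` is not in `E \ {x,y}` since `D` is a component, so `z = x`), so `D = E.erase y`, but `x ∈ E.erase y`, `x ∉ D`.  Same for `y`.
   r2: `C ⊆ D` nonempty, `(bd H D C).card ≤ 1`, `C` adjacent neither to `x` nor to `y`.  Then the neighbours of `C` in `E` are in `D`: choose `w ∈ E`, `w ∉ C` with
   `bd H D C ⊆ {w}` (`w = x` if it is empty).  `C` is a nonempty closed subset of `E.erase w`, so `C = E.erase w`; but `x` or `y` is in `E.erase w` and not in `C`.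
5. Degrees: `v ∈ D`, `v ≠ q`: then `v ≠ p` (if `p ∈ E`, `p ≠ q` then `p = x ∉ D`; if `p = q` clear; if `p ∉ E` clear), so `h + 1 ≤ (nb H v E).card`, and `nb H v E ⊆ nb H v D ∪ nb H v {x} ∪ nb H v {y}`
   (neighbours of the component `D`: `nbr_of_closed` or directly), so `h + 1 ≤ ds H D {x} {y} v`.
   `aplus_R0` (file Aplus) with `m = h`, `z = q`: `Adm H h D {x} {y}`; hypothesis `∃ v ∈ D, v ≠ q`: `v0`.
6. So there are `d ∈ {1,2}`, `l ≥ 2` with paths of length `l + i d` (`i < h`) from `x` to `y` inside `{x,y} ∪ D ⊆ E`.  `f x ≠ f y` (edge), so by `PL.parity` all these lengths are odd;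
   `h ≥ 2` gives `d = 2` (`l` and `l + d` are both odd).  With the edge `x y` (`PL.cycle` with `PL.edge` in `{x,y}`): cycles of length `l + 1 + 2 i`, `i < h`, `l + 1` even: `ap_zero_even` gives
   one divisible by `2h`; `CycS.zc`.
-/

namespace Pool.Agent.Lib.MP_f599e5_co

open Finset

variable {V : Type} [DecidableEq V] {G : SimpleGraph V}


private theorem ebp1_R0 {H : SimpleGraph V} {E D : Finset V} {x y : V} (hxE : x ∈ E) (hyE : y ∈ E)
    (hxy : x ≠ y) (hc : ∀ w ∈ E, Conn H (E.erase w)) (hD : IsComp H (E \ {x, y}) D) : R0 H D {x} {y} := by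
  obtain ⟨hDs, hDb, hDc⟩ := hD
  have hDE : ∀ v ∈ D, v ∈ E ∧ v ≠ x ∧ v ≠ y := by
    intro v hv
    have h1 := hDs hv
    rw [mem_sdiff, mem_insert, mem_singleton, not_or] at h1
    exact h1
  have hnb : ∀ v ∈ D, ∀ z ∈ E, H.Adj v z → z ∈ D ∨ z = x ∨ z = y := by
    intro v hv z hz ha
    rcases nbr_of_closed hDs hDb hv hz ha with h1 | h1
    · exact Or.inl h1
    · rw [mem_insert, mem_singleton] at h1
      exact Or.inr h1
  have hDx : adjS H D {x} := by
    by_contra hcon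
    have h1 : bd H (E.erase y) D = ∅ := by
      rw [eq_empty_iff_forall_notMem]
      intro z hz
      rw [mem_bd, mem_erase] at hz
      obtain ⟨⟨hzy, hzE⟩, hzD, v, hv, ha⟩ := hz
      rcases hnb v hv z hzE ha with h2 | rfl | h2
      · exact hzD h2
      · exact hcon ⟨v, hv, z, mem_singleton_self _, ha⟩
      · exact hzy h2
    have h2 := (hc y hyE).2 D (fun v hv => mem_erase.2 ⟨(hDE v hv).2.2, (hDE v hv).1⟩) hDc.1 h1
    have h3 : x ∈ D := by
      rw [h2]
      exact mem_erase.2 ⟨hxy, hxE⟩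
    exact (hDE x h3).2.1 rfl
  have hDy : adjS H D {y} := by
    by_contra hcon
    have h1 : bd H (E.erase x) D = ∅ := by
      rw [eq_empty_iff_forall_notMem]
      intro z hz
      rw [mem_bd, mem_erase] at hz
      obtain ⟨⟨hzx, hzE⟩, hzD, v, hv, ha⟩ := hz
      rcases hnb v hv z hzE ha with h2 | h2 | rfl
      · exact hzD h2
      · exact hzx h2
      · exact hcon ⟨v, hv, z, mem_singleton_self _, ha⟩
    have h2 := (hc x hxE).2 D (fun v hv => mem_erase.2 ⟨(hDE v hv).2.1, (hDE v hv).1⟩) hDc.1 h1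
    have h3 : y ∈ D := by
      rw [h2]
      exact mem_erase.2 ⟨hxy.symm, hyE⟩
    exact (hDE y h3).2.2 rfl
  refine ⟨hDc.1, ?_, ?_⟩
  · intro C hC hne hb
    have h1 := hDc.2 C hC hne hb
    rw [h1]
    exact ⟨hDx, hDy⟩
  · intro C hC hne hb
    by_contra hcon
    rw [not_or] at hcon
    have h1 : ∃ w ∈ E, w ∉ C ∧ bd H D C ⊆ {w} := by
      rcases (bd H D C).eq_empty_or_nonempty with h2 | ⟨w, hw⟩
      · exact ⟨x, hxE, fun h3 => (hDE x (hC h3)).2.1 rfl, by rw [h2]; exact empty_subset _⟩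
      · refine ⟨w, (hDE w (mem_bd.1 hw).1).1, (mem_bd.1 hw).2.1, fun z hz => ?_⟩
        rw [mem_singleton]
        exact card_le_one.1 hb z hz w hw
    obtain ⟨w, hwE, hwC, hbw⟩ := h1
    have h2 : bd H (E.erase w) C = ∅ := by
      rw [eq_empty_iff_forall_notMem]
      intro z hz
      rw [mem_bd, mem_erase] at hz
      obtain ⟨⟨hzw, hzE⟩, hzC, v, hv, ha⟩ := hz
      rcases hnb v (hC hv) z hzE ha with h3 | rfl | rfl
      · exact hzw (mem_singleton.1 (hbw (mem_bd.2 ⟨h3, hzC, v, hv, ha⟩)))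
      · exact hcon.1 ⟨v, hv, z, mem_singleton_self _, ha⟩
      · exact hcon.2 ⟨v, hv, z, mem_singleton_self _, ha⟩
    have h3 := (hc w hwE).2 C (fun v hv => mem_erase.2
      ⟨fun h4 => hwC (h4 ▸ hv), (hDE v (hC hv)).1⟩) hne h2
    by_cases hwx : w = x
    · have h4 : y ∈ C := by
        rw [h3]
        exact mem_erase.2 ⟨fun h5 => hxy (hwx ▸ h5.symm), hyE⟩
      exact (hDE y (hC h4)).2.2 rfl
    · have h4 : x ∈ C := by
        rw [h3]
        exact mem_erase.2 ⟨fun h5 => hwx h5.symm, hxE⟩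
      exact (hDE x (hC h4)).2.1 rfl

private theorem ebp1_nb_single {H : SimpleGraph V} (v x : V) : min 1 (nb H v {x}).card = (nb H v {x}).card := by
  have h1 : (nb H v {x}).card ≤ 1 := by
    have h2 : nb H v {x} ⊆ {x} := fun w hw => (mem_nb.1 hw).1
    exact (card_le_card h2).trans (by simp)
  omega

private theorem ebp1_ds {H : SimpleGraph V} {E D : Finset V} {x y v : V} (hD : IsComp H (E \ {x, y}) D)
    (hv : v ∈ D) : (nb H v E).card ≤ ds H D {x} {y} v := by
  have h1 : nb H v E ⊆ nb H v D ∪ (nb H v {x} ∪ nb H v {y}) := by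
    intro z hz
    rw [mem_nb] at hz
    rcases nbr_of_closed hD.1 hD.2.1 hv hz.1 hz.2 with h2 | h2
    · exact mem_union_left _ (mem_nb.2 ⟨h2, hz.2⟩)
    · rw [mem_insert, mem_singleton] at h2
      rcases h2 with h2 | h2
      · exact mem_union_right _ (mem_union_left _ (mem_nb.2 ⟨mem_singleton.2 h2, hz.2⟩))
      · exact mem_union_right _ (mem_union_right _ (mem_nb.2 ⟨mem_singleton.2 h2, hz.2⟩))
  have h2 := card_le_card h1
  have h3 := card_union_le (nb H v D) (nb H v {x} ∪ nb H v {y})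
  have h4 := card_union_le (nb H v {x}) (nb H v {y})
  unfold ds
  rw [ebp1_nb_single, ebp1_nb_single]
  omega

theorem bp_core {H : SimpleGraph V} {h : ℕ} (hh : 2 ≤ h) {E : Finset V} {p q : V} (hb : BPh H h E p q)
    (hc : ∀ w ∈ E, Conn H (E.erase w)) : ZC (2 * h) H := by
  obtain ⟨f, hf⟩ := hb.col
  obtain ⟨x0, hx0, hx0p, hx0q⟩ := hb.ne
  have hcard : 4 ≤ E.card := by
    have h1 := hb.deg x0 hx0 hx0p hx0q
    have h2 : nb H x0 E ⊆ E.erase x0 := by
      intro w hw
      rw [mem_nb] at hw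
      exact mem_erase.2 ⟨fun h3 => H.loopless.irrefl x0 (h3 ▸ hw.2), hw.1⟩
    have h3 := card_le_card h2
    rw [card_erase_of_mem hx0] at h3
    omega
  -- 1. the vertex x
  obtain ⟨x, hxE, hxq, hxp⟩ : ∃ x ∈ E, x ≠ q ∧ (p ∈ E → p ≠ q → x = p) := by
    by_cases h1 : p ∈ E ∧ p ≠ q
    · exact ⟨p, h1.1, h1.2, fun _ _ => rfl⟩
    · exact ⟨x0, hx0, hx0q, fun h2 h3 => absurd ⟨h2, h3⟩ h1⟩
  -- 2. the vertex y
  obtain ⟨w, hwE, hwx, hwq⟩ : ∃ w ∈ E, w ≠ x ∧ (q ∈ E → w = q) := by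
    by_cases h1 : q ∈ E
    · exact ⟨q, h1, fun h2 => hxq h2.symm, fun _ => rfl⟩
    · have h2 : (E.erase x).Nonempty := by
        rw [← card_pos, card_erase_of_mem hxE]
        omega
      obtain ⟨w, hw⟩ := h2
      rw [mem_erase] at hw
      exact ⟨w, hw.2, hw.1, fun h3 => absurd h3 h1⟩
  obtain ⟨y, hyE, hyq, hxy⟩ : ∃ y ∈ E, y ≠ q ∧ H.Adj x y := by
    have h1 : ({x} : Finset V) ⊆ E.erase w := by
      rw [singleton_subset_iff]
      exact mem_erase.2 ⟨fun h2 => hwx h2.symm, hxE⟩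
    have h2 : ({x} : Finset V) ≠ E.erase w := by
      intro h3
      have h4 := card_erase_of_mem hwE
      rw [← h3, card_singleton] at h4
      omega
    obtain ⟨y, hy⟩ := (hc w hwE).bd_nonempty h1 (singleton_nonempty x) h2
    rw [mem_bd, mem_erase] at hy
    obtain ⟨⟨hyw, hyE⟩, _, x', hx', ha⟩ := hy
    rw [mem_singleton] at hx'
    subst hx'
    exact ⟨y, hyE, fun h5 => hyw (h5.trans (hwq (h5 ▸ hyE)).symm), ha⟩
  have hne : x ≠ y := hxy.ne
  -- 3. the component D
  obtain ⟨v0, hv0E, hv0⟩ : ∃ v0 ∈ E, v0 ∉ ({x, y, q} : Finset V) := by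
    apply exists_mem_notMem_of_card_lt_card
    exact lt_of_le_of_lt card_le_three (by omega)
  have hv0' : v0 ∈ E \ {x, y} := by
    rw [mem_sdiff, mem_insert, mem_singleton]
    rw [mem_insert, mem_insert, mem_singleton] at hv0
    exact ⟨hv0E, fun h1 => hv0 (by tauto)⟩
  have hv0q : v0 ≠ q := by
    rw [mem_insert, mem_insert, mem_singleton] at hv0
    exact fun h1 => hv0 (Or.inr (Or.inr h1))
  obtain ⟨D, hv0D, hD⟩ := exists_comp (G := H) hv0'
  have hDE : ∀ v ∈ D, v ∈ E ∧ v ≠ x ∧ v ≠ y := by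
    intro v hv
    have h1 := hD.1 hv
    rw [mem_sdiff, mem_insert, mem_singleton, not_or] at h1
    exact h1
  -- 4.
  have hR0 : R0 H D {x} {y} := ebp1_R0 hxE hyE hne hc hD
  -- 5.
  have hsys : Sys D {x} {y} := by
    refine ⟨?_, ?_, ?_⟩
    · rw [disjoint_singleton_right]
      exact fun h1 => (hDE x h1).2.1 rfl
    · rw [disjoint_singleton_right]
      exact fun h1 => (hDE y h1).2.2 rfl
    · rw [disjoint_singleton]
      exact hne
  have hdeg : ∀ v ∈ D, v ≠ q → h + 1 ≤ ds H D {x} {y} v := by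
    intro v hv hvq
    refine (hb.deg v (hDE v hv).1 ?_ hvq).trans (ebp1_ds hD hv)
    intro hvp
    by_cases hpq : p = q
    · exact hvq (hvp.trans hpq)
    · have h1 := hxp (hvp ▸ (hDE v hv).1) hpq
      exact (hDE v hv).2.1 (hvp.trans h1.symm)
  have hadm : Adm H h D {x} {y} := aplus_R0 (z := q) (by omega) hsys hR0 ⟨v0, hv0D, hv0q⟩ hdeg
  -- 6.
  obtain ⟨d, hd, l, hl, hpl⟩ := hadm
  have hP : ∀ i < h, PL H (insert x (insert y D)) x y (l + i * d) := by
    intro i hi
    obtain ⟨a, ha, b, hb', h1⟩ := hpl i hi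
    rw [mem_singleton] at ha hb'
    subst ha
    subst hb'
    exact h1
  have hSE : ∀ z ∈ insert x (insert y D), z ∈ E := by
    intro z hz
    rw [mem_insert, mem_insert] at hz
    rcases hz with rfl | rfl | hz
    · exact hxE
    · exact hyE
    · exact (hDE z hz).1
  have hfxy : f x ≠ f y := hf x hxE y hyE hxy
  have hpar : ∀ i < h, ¬ Even (l + i * d) := by
    intro i hi he
    exact hfxy ((PL.parity (fun a ha b hb' hab => hf a (hSE a ha) b (hSE b hb') hab) (hP i hi)).2 he)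
  have h0 := hpar 0 (by omega)
  have h1 := hpar 1 (by omega)
  have hd2 : d = 2 := by
    rcases hd with rfl | rfl
    · exfalso
      rw [Nat.even_iff] at h0 h1
      omega
    · rfl
  subst hd2
  have hle : Even (l + 1) := by
    rw [Nat.even_iff] at h0 ⊢
    omega
  obtain ⟨i, hi, hdvd⟩ := ap_zero_even (h := h) (l := l + 1) (by omega) hle
  have hcyc := PL.cycle (hP i hi) (PL.edge (S := {x, y}) hxy (by simp) (by simp)) (by
    intro z _ hz
    rw [mem_insert, mem_singleton] at hz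
    exact hz) hne (by omega)
  refine hcyc.zc ?_
  have h2 : l + i * 2 + 1 = l + 1 + i * 2 := by ring
  rw [h2]
  exact hdvd

end Pool.Agent.Lib.MP_f599e5_co
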