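import Pool.Agent.Lib.MP_f599e5_co.B2
import Pool.Agent.Lib.MP_f599e5_co.B2F

set_option autoImplicit false
set_option linter.unusedSectionVars false

/-!
# JOB EPar: parity of paths, two-colourings

* `PL.parity`: induction on the walk (or `PL` step by step): along every edge of the path (both ends in `S`) the value of `f` changes.
* `odd_walk_cyc`: an odd closed walk inside `S` gives an odd cycle inside `S`.  Strong induction on the length: let `w : G.Walk u u`, `w.length` odd
  (so `≥ 1`).  If `w.IsCycle` done.  `w.length = 1` is impossible (no loops).  Otherwise some vertex is repeated: write `w` as a concatenation of two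
  closed walks of smaller positive length (at a repeated vertex `x`: `w.rotate`, `takeUntil`/`dropUntil`), one of them is odd, use induction.  A convenient way: work with
  functions: a closed walk of length `n` is `f : ℕ → V` with `f 0 = f n`, `G.Adj (f i) (f (i+1))` for `i < n` (`Walk.getVert`), `f i ∈ S`.  If `f i = f j` for some `0 ≤ i < j < n`
  then `i..j` is a closed walk of length `j - i` and `0..i, j..n` a closed walk of length `n - (j - i)`, both shorter, one is odd.  Otherwise `f` is injective on
  `{0,…,n-1}`, `n ≥ 3` (odd, not 1), and it is a cycle: `PF.toPL`-like construction or `PL.cycle` with the path `f 0 .. f (n-1)` and the edge `f (n-1) f 0`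
  (you may import B2F and use `PF.toPL`).
* `two_col`: let `H` be the graph on `V` with `H.Adj x y ↔ G.Adj x y ∧ x ∈ S ∧ y ∈ S`.  By `SimpleGraph.two_colorable_iff_forall_loop_even` (Mathlib) it is
  2-colourable if every closed walk is even; an odd closed walk of `H` has positive length, so all its vertices are in `S`, and it is a closed walk of `G` (`Walk.map`/`mapLe`);
  `odd_walk_cyc` contradicts the hypothesis.  Turn the colouring `Fin 2` into `Bool`.
-/

namespace Pool.Agent.Lib.MP_f599e5_co

open Finset

variable {V : Type} [DecidableEq V] {G : SimpleGraph V}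

theorem PL.parity {S : Finset V} {f : V → Bool} (hf : ∀ x ∈ S, ∀ y ∈ S, G.Adj x y → f x ≠ f y) {u v : V} {n : ℕ}
    (h : PL G S u v n) : f u = f v ↔ Even n := by
  obtain ⟨g, hg, h0, hn, hS⟩ := h.toPF
  have key : ∀ i, i ≤ n → (f (g 0) = f (g i) ↔ Even i) := by
    intro i
    induction i with
    | zero => intro _; simp
    | succ i ih =>
      intro hi
      have h1 := ih (by omega)
      have h2 := hf (g i) (hS i (by omega)) (g (i + 1)) (hS (i + 1) hi) (hg.adj i (by omega))
      rw [Nat.even_add_one, ← h1]
      revert h2
      cases f (g 0) <;> cases f (g i) <;> cases f (g (i + 1)) <;> simp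
  have := key n le_rfl
  rwa [h0, hn] at this

/-- odd closed walks as functions -/
private theorem EPar_fun {S : Finset V} : ∀ (n : ℕ) (f : ℕ → V), Odd n → f 0 = f n →
    (∀ i, i < n → G.Adj (f i) (f (i + 1))) → (∀ i, i ≤ n → f i ∈ S) → ∃ m, Odd m ∧ CycS G S m := by
  intro n
  induction n using Nat.strong_induction_on with
  | _ n ih =>
    intro f ho hc ha hS
    by_cases hinj : ∀ i j, i ≤ n - 1 → j ≤ n - 1 → f i = f j → i = j
    · -- a cycle
      have h1 : n ≠ 1 := by
        rintro rfl
        have := ha 0 (by omega)
        rw [hc] at this
        exact (G.loopless.irrefl _) this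
      have h3 : 3 ≤ n := by
        rcases ho with ⟨k, hk⟩
        omega
      have hpf : PF G f (n - 1) := ⟨fun i hi => ha i (by omega), hinj⟩
      have hp := hpf.toPL (a := 0) (b := n - 1) (by omega) le_rfl (S := S)
        (fun i _ hi => hS i (by omega))
      have hadj : G.Adj (f (n - 1)) (f 0) := by
        have := ha (n - 1) (by omega)
        have h5 : n - 1 + 1 = n := by omega
        rw [h5, ← hc] at this
        exact this
      have hne : f 0 ≠ f (n - 1) := hadj.symm.ne
      have he : PL G {f 0, f (n - 1)} (f 0) (f (n - 1)) 1 :=
        PL.edge hadj.symm (by simp) (by simp)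
      have hcyc := hp.cycle he (fun x _ hx => by simpa using hx) hne (by omega)
      refine ⟨n - 1 - 0 + 1, ?_, hcyc.mono ?_⟩
      · have : n - 1 - 0 + 1 = n := by omega
        rwa [this]
      · intro x hx
        rcases mem_union.1 hx with hx | hx
        · exact hx
        · rcases mem_insert.1 hx with rfl | hx
          · exact hS 0 (by omega)
          · rw [mem_singleton.1 hx]
            exact hS (n - 1) (by omega)
    · -- a repeated vertex
      have hex : ∃ i j, i < j ∧ j ≤ n - 1 ∧ f i = f j := by
        push Not at hinj
        obtain ⟨i, j, hi, hj, he, hij⟩ := hinj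
        rcases lt_or_gt_of_ne hij with h | h
        · exact ⟨i, j, h, hj, he⟩
        · exact ⟨j, i, h, hi, he.symm⟩
      obtain ⟨i, j, hij, hj, he⟩ := hex
      have hn1 : 1 ≤ n := by
        rcases ho with ⟨k, hk⟩
        omega
      by_cases hod : Odd (j - i)
      · -- the walk i..j
        refine ih (j - i) (by omega) (fun t => f (i + t)) hod ?_ ?_ ?_
        · simp only [add_zero]
          rw [show i + (j - i) = j by omega]
          exact he
        · intro t ht
          have := ha (i + t) (by omega)
          rwa [show i + t + 1 = i + (t + 1) by omega] at this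
        · intro t ht
          exact hS (i + t) (by omega)
      · -- the walk 0..i, j..n
        have hod2 : Odd (n - (j - i)) := by
          rcases ho with ⟨k, hk⟩
          rw [Nat.not_odd_iff_even] at hod
          rcases hod with ⟨l, hl⟩
          exact ⟨k - l, by omega⟩
        refine ih (n - (j - i)) (by omega) (fun t => if t ≤ i then f t else f (t + (j - i))) hod2 ?_ ?_ ?_
        · have h6 : ¬ (n - (j - i) ≤ i) := by omega
          simp only [Nat.zero_le, if_true, h6, if_false]
          rw [show n - (j - i) + (j - i) = n by omega]
          exact hc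
        · intro t ht
          by_cases h7 : t + 1 ≤ i
          · have h8 : t ≤ i := by omega
            simp only [h7, h8, if_true]
            exact ha t (by omega)
          · by_cases h8 : t ≤ i
            · have h9 : t = i := by omega
              subst h9
              simp only [h8, h7, if_true, if_false]
              rw [he]
              have := ha j (by omega)
              rwa [show j + 1 = t + 1 + (j - t) by omega] at this
            · simp only [h7, h8, if_false]
              have := ha (t + (j - i)) (by omega)
              rwa [show t + (j - i) + 1 = t + 1 + (j - i) by omega] at this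
        · intro t ht
          by_cases h8 : t ≤ i
          · simp only [h8, if_true]
            exact hS t (by omega)
          · simp only [h8, if_false]
            exact hS _ (by omega)

theorem odd_walk_cyc {S : Finset V} {u : V} (w : G.Walk u u) (ho : Odd w.length) (hS : ∀ x ∈ w.support, x ∈ S) :
    ∃ n, Odd n ∧ CycS G S n := by
  refine EPar_fun w.length w.getVert ho ?_ ?_ ?_
  · rw [w.getVert_zero, w.getVert_length]
  · intro i hi
    exact w.adj_getVert_succ hi
  · intro i _
    exact hS _ (w.getVert_mem_support i)

theorem two_col {S : Finset V} (h : ∀ n, Odd n → ¬ CycS G S n) :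
    ∃ f : V → Bool, ∀ x ∈ S, ∀ y ∈ S, G.Adj x y → f x ≠ f y := by
  let H : SimpleGraph V :=
    { Adj := fun x y => G.Adj x y ∧ x ∈ S ∧ y ∈ S
      symm := ⟨fun x y hxy => ⟨hxy.1.symm, hxy.2.2, hxy.2.1⟩⟩
      loopless := ⟨fun x hx => (G.loopless.irrefl x) hx.1⟩ }
  have hcol : H.Colorable 2 := by
    rw [SimpleGraph.two_colorable_iff_forall_loop_even]
    intro u w
    by_contra hodd
    rw [Nat.not_even_iff_odd] at hodd
    have hadj : ∀ i, i < w.length → H.Adj (w.getVert i) (w.getVert (i + 1)) := fun i hi => w.adj_getVert_succ hi
    obtain ⟨m, hm, hc⟩ := EPar_fun (G := G) (S := S) w.length w.getVert hodd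
      (by rw [w.getVert_zero, w.getVert_length]) (fun i hi => (hadj i hi).1) (by
        intro i hi
        have hpos : 1 ≤ w.length := by
          rcases hodd with ⟨k, hk⟩
          omega
        by_cases h1 : i < w.length
        · exact (hadj i h1).2.1
        · have h2 : i = w.length - 1 + 1 := by omega
          rw [h2]
          exact (hadj (w.length - 1) (by omega)).2.2)
    exact h m hm hc
  obtain ⟨c⟩ := hcol
  refine ⟨fun x => decide (c x = 0), ?_⟩
  intro x hx y hy hxy hf
  have hne : c x ≠ c y := c.valid (show H.Adj x y from ⟨hxy, hx, hy⟩)
  have h1 : (c x = 0) ↔ (c y = 0) := by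
    simpa using hf
  apply hne
  by_cases h0 : c x = 0
  · rw [h0, h1.1 h0]
  · have h2 : c y ≠ 0 := fun h => h0 (h1.2 h)
    have e1 : c x = 1 := by
      have := (c x).isLt
      apply Fin.ext
      have h3 : (c x).val ≠ 0 := fun h => h0 (Fin.ext h)
      simp only [Fin.val_one]
      omega
    have e2 : c y = 1 := by
      have := (c y).isLt
      apply Fin.ext
      have h3 : (c y).val ≠ 0 := fun h => h2 (Fin.ext h)
      simp only [Fin.val_one]
      omega
    rw [e1, e2]

end Pool.Agent.Lib.MP_f599e5_co
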