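import Pool.Agent.Lib.MP_f599e5_co.Aplus
import Pool.Agent.Lib.MP_f599e5_co.B4
import Pool.Agent.Lib.MP_f599e5_co.EPar

set_option autoImplicit false
set_option linter.unusedSectionVars false

/-!
# EBP: Lemma BP (4.1): bipartite graphs with two exceptional vertices

JOB EBP1 = `bp_core`, JOB EBP2 = `bp_step` (two separate files EBP1.lean, EBP2.lean); this file only combines them.
-/

namespace Pool.Agent.Lib.MP_f599e5_co

open Finset

variable {V : Type} [DecidableEq V] {G : SimpleGraph V}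

/-- hypotheses of Lemma BP -/
structure BPh (H : SimpleGraph V) (h : ℕ) (E : Finset V) (p q : V) : Prop where
  col : ∃ f : V → Bool, ∀ x ∈ E, ∀ y ∈ E, H.Adj x y → f x ≠ f y
  ne : ∃ x ∈ E, x ≠ p ∧ x ≠ q
  deg : ∀ x ∈ E, x ≠ p → x ≠ q → h + 1 ≤ (nb H x E).card

theorem BPh.symm {H : SimpleGraph V} {h : ℕ} {E : Finset V} {p q : V} (hb : BPh H h E p q) : BPh H h E q p where
  col := hb.col
  ne := by
    obtain ⟨x, hx, h1, h2⟩ := hb.ne
    exact ⟨x, hx, h2, h1⟩
  deg := fun x hx h1 h2 => hb.deg x hx h2 h1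

end Pool.Agent.Lib.MP_f599e5_co
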