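import Pool.Agent.Lib.MP_f599e5_co.ECyd

set_option autoImplicit false
set_option linter.unusedSectionVars false

/-!
# JOB ECy1: basic facts on periodic cycles

* `Cyc.per_mul`: `f (i + k * g) = f i` for `k : ℤ` (induction from `per`), hence `Cyc.congr`: `(g : ℤ) ∣ i - j → f i = f j`.
* `mem`: `f i = f (i % g)`, `i % g` is a natural number `< g` (`Int.emod_nonneg`, `Int.emod_lt_of_pos`, `Int.toNat`).
* `exists_idx`: `x = f j` with `j < g` natural; `i = ((j - a) % g).toNat`, `f (a + i) = f j` since `g ∣ a + i - j`.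
* `card`: the map is injective on `range g` (`inj`, and `g ∣ i - j` with `|i - j| < g` gives `i = j`: `Int.eq_zero_of_abs_lt_dvd` or `omega` after `obtain ⟨t, ht⟩`, nlinarith free: use `Int.emod_emod_of_dvd`
  or `Int.le_of_dvd`).
* `ne`: `f i = f (i + a)` gives `g ∣ i - (i + a) = -a`, impossible for `0 < a < g`.
* `shift`: `fun i => f (i + s)` is a cycle with the same vertex set; `rev`: `fun i => f (-i)` as well.
* `toCyc`: from `CycS.toF` (B2F): `F : ℕ → V`, `3 ≤ n`, `PF G F (n-1)`, `G.Adj (F (n-1)) (F 0)`, `F i ∈ S` for `i < n`.  Put `f i = F ((i % n).toNat)`.  `adj`: let `r = (i % n).toNat < n`; if `r + 1 < n`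
  then `((i+1) % n).toNat = r + 1` and `PF.adj`, otherwise `r = n - 1`, `((i+1) % n).toNat = 0` and the closing edge.  `per`: `(i + n) % n = i % n`.  `inj`: `PF.inj` gives `i % n = j % n`, so `n ∣ i - j`.
  The subset: every `f i` is in `S`.
-/

namespace Pool.Agent.Lib.MP_f599e5_co

open Finset

variable {V : Type} [DecidableEq V] {G : SimpleGraph V}

theorem Cyc.congr {f : ℤ → V} {g : ℕ} (h : Cyc G f g) {i j : ℤ} (hd : (g : ℤ) ∣ i - j) : f i = f j := by
  have hp : Function.Periodic f (g : ℤ) := fun x => h.per x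
  obtain ⟨k, hk⟩ := hd
  have h1 : i = j + k * (g : ℤ) := by linarith [mul_comm k (g : ℤ)]
  rw [h1]
  exact hp.int_mul k j

theorem Cyc.mem {f : ℤ → V} {g : ℕ} (h : Cyc G f g) (i : ℤ) : f i ∈ cycV f g := by
  have hg := h.g3
  have h0 : (0 : ℤ) < g := by omega
  have h1 := Int.emod_nonneg i (ne_of_gt h0)
  have h2 := Int.emod_lt_of_pos i h0
  unfold cycV
  rw [mem_image]
  refine ⟨(i % g).toNat, mem_range.2 (by omega), ?_⟩
  apply h.congr
  rw [Int.toNat_of_nonneg h1]
  have h3 := Int.emod_add_mul_ediv i g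
  refine ⟨-(i / g), ?_⟩
  linarith [mul_neg (g : ℤ) (i / g)]

theorem Cyc.exists_idx {f : ℤ → V} {g : ℕ} (h : Cyc G f g) {x : V} (hx : x ∈ cycV f g) (a : ℤ) :
    ∃ i : ℕ, i < g ∧ f (a + i) = x := by
  have hg := h.g3
  have h0 : (0 : ℤ) < g := by omega
  unfold cycV at hx
  rw [mem_image] at hx
  obtain ⟨j, hj, rfl⟩ := hx
  have h1 := Int.emod_nonneg ((j : ℤ) - a) (ne_of_gt h0)
  have h2 := Int.emod_lt_of_pos ((j : ℤ) - a) h0
  refine ⟨(((j : ℤ) - a) % g).toNat, by omega, ?_⟩
  apply h.congr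
  rw [Int.toNat_of_nonneg h1]
  have h3 := Int.emod_add_mul_ediv ((j : ℤ) - a) g
  refine ⟨-(((j : ℤ) - a) / g), ?_⟩
  linarith [mul_neg (g : ℤ) (((j : ℤ) - a) / g)]

theorem Cyc.card {f : ℤ → V} {g : ℕ} (h : Cyc G f g) : (cycV f g).card = g := by
  unfold cycV
  rw [card_image_of_injOn, card_range]
  intro i hi j hj hij
  rw [coe_range, Set.mem_Iio] at hi hj
  have h1 := h.inj _ _ hij
  have h2 : ((i : ℤ) - j) = 0 := by
    apply Int.eq_zero_of_abs_lt_dvd h1
    rw [abs_lt]
    constructor <;> omega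
  omega

theorem Cyc.ne {f : ℤ → V} {g : ℕ} (h : Cyc G f g) (i : ℤ) {a : ℕ} (h0 : 0 < a) (ha : a < g) :
    f i ≠ f (i + a) := by
  intro he
  have h1 := h.inj _ _ he
  have h2 : (i - (i + a)) = 0 := by
    apply Int.eq_zero_of_abs_lt_dvd h1
    rw [abs_lt]
    constructor <;> omega
  omega

theorem Cyc.shift {f : ℤ → V} {g : ℕ} (h : Cyc G f g) (s : ℤ) :
    Cyc G (fun i => f (i + s)) g ∧ cycV (fun i => f (i + s)) g = cycV f g := by
  have hc : Cyc G (fun i => f (i + s)) g := by
    refine ⟨h.g3, fun i => ?_, fun i => ?_, fun i j hij => ?_⟩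
    · have := h.adj (i + s)
      rw [show i + 1 + s = i + s + 1 by ring]
      exact this
    · have := h.per (i + s)
      show f (i + g + s) = f (i + s)
      rw [show i + g + s = i + s + g by ring]
      exact this
    · have := h.inj _ _ hij
      rwa [show i + s - (j + s) = i - j by ring] at this
  refine ⟨hc, ?_⟩
  apply eq_of_subset_of_card_le
  · intro x hx
    unfold cycV at hx
    rw [mem_image] at hx
    obtain ⟨j, _, rfl⟩ := hx
    exact h.mem _
  · rw [h.card, hc.card]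

theorem Cyc.rev {f : ℤ → V} {g : ℕ} (h : Cyc G f g) :
    Cyc G (fun i => f (-i)) g ∧ cycV (fun i => f (-i)) g = cycV f g := by
  have hc : Cyc G (fun i => f (-i)) g := by
    refine ⟨h.g3, fun i => ?_, fun i => ?_, fun i j hij => ?_⟩
    · have := h.adj (-(i + 1))
      rw [show -(i + 1) + 1 = -i by ring] at this
      exact this.symm
    · show f (-(i + g)) = f (-i)
      have := h.per (-(i + g))
      rw [show -(i + g) + g = -i by ring] at this
      exact this.symm
    · have := h.inj _ _ hij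
      have h2 : i - j = -(-i - -j) := by ring
      rw [h2]
      exact (dvd_neg).2 this
  refine ⟨hc, ?_⟩
  apply eq_of_subset_of_card_le
  · intro x hx
    unfold cycV at hx
    rw [mem_image] at hx
    obtain ⟨j, _, rfl⟩ := hx
    exact h.mem _
  · rw [h.card, hc.card]

theorem CycS.toCyc {S : Finset V} {n : ℕ} (h : CycS G S n) : ∃ f : ℤ → V, Cyc G f n ∧ cycV f n ⊆ S := by
  obtain ⟨F, hn, hF, hcl, hS⟩ := h.toF
  have h0 : (0 : ℤ) < n := by omega
  have hnn : ∀ i : ℤ, 0 ≤ i % (n : ℤ) := fun i => Int.emod_nonneg i (ne_of_gt h0)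
  have hlt : ∀ i : ℤ, i % (n : ℤ) < n := fun i => Int.emod_lt_of_pos i h0
  refine ⟨fun i => F ((i % (n : ℤ)).toNat), ⟨hn, fun i => ?_, fun i => ?_, fun i j hij => ?_⟩, ?_⟩
  · have h1 := hnn i
    have h2 := hlt i
    have h3 : (i + 1) % (n : ℤ) = (i % (n : ℤ) + 1) % (n : ℤ) := by
      rw [Int.add_emod, Int.add_emod (i % (n : ℤ)) 1, Int.emod_emod]
    show G.Adj (F ((i % (n : ℤ)).toNat)) (F (((i + 1) % (n : ℤ)).toNat))
    by_cases hc : i % (n : ℤ) + 1 < n
    · rw [h3, Int.emod_eq_of_lt (by omega) hc]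
      have h4 : (i % (n : ℤ) + 1).toNat = (i % (n : ℤ)).toNat + 1 := by omega
      rw [h4]
      exact hF.adj _ (by omega)
    · have h4 : i % (n : ℤ) + 1 = n := by omega
      have h5 : (i % (n : ℤ)).toNat = n - 1 := by omega
      rw [h3, h4, Int.emod_self, h5]
      exact hcl
  · show F (((i + n) % (n : ℤ)).toNat) = F ((i % (n : ℤ)).toNat)
    rw [Int.add_emod_right]
  · have h1 := hnn i
    have h2 := hlt i
    have h3 := hnn j
    have h4 := hlt j
    have h5 := hF.inj _ _ (by omega) (by omega) hij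
    have h6 : i % (n : ℤ) = j % (n : ℤ) := by omega
    exact Int.ModEq.dvd (show j ≡ i [ZMOD n] from h6.symm)
  · intro x hx
    unfold cycV at hx
    rw [mem_image] at hx
    obtain ⟨j, _, rfl⟩ := hx
    have h1 := hnn (j : ℤ)
    have h2 := hlt (j : ℤ)
    exact hS _ (by omega)

end Pool.Agent.Lib.MP_f599e5_co
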