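import Pool.Agent.Lib.MP_f599e5_co.B4
import Pool.Agent.Lib.MP_f599e5_co.B2F

set_option autoImplicit false
set_option linter.unusedSectionVars false

/-!
# Theta library: definitions

`PX` = exact path (its vertex set is exactly `S`), `ThF` = theta given by three functions,
`ThL` = existential version.  The branch vertices are `f0 0 = f1 0 = f2 0` and `f0 l0 = f1 l1 = f2 l2`.
-/

namespace Pool.Agent.Lib.MP_f599e5_co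

open Finset

variable {V : Type} [DecidableEq V] {G : SimpleGraph V}

/-- `S` is exactly the vertex set of a path of length `n` from `u` to `v` -/
def PX (G : SimpleGraph V) (S : Finset V) (u v : V) (n : ℕ) : Prop :=
  PL G S u v n ∧ S.card = n + 1

/-- open segment of a path given by a function -/
def seg (f : ℕ → V) (a b : ℕ) : Finset V := (Finset.Ioo a b).image f

/-- closed segment of a path given by a function -/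
def cseg (f : ℕ → V) (a b : ℕ) : Finset V := (Finset.Icc a b).image f

theorem mem_seg {f : ℕ → V} {a b : ℕ} {x : V} : x ∈ seg f a b ↔ ∃ i, a < i ∧ i < b ∧ f i = x := by
  simp only [seg, mem_image, mem_Ioo]
  exact ⟨fun ⟨i, ⟨h1, h2⟩, h⟩ => ⟨i, h1, h2, h⟩, fun ⟨i, h1, h2, h⟩ => ⟨i, ⟨h1, h2⟩, h⟩⟩

theorem mem_cseg {f : ℕ → V} {a b : ℕ} {x : V} : x ∈ cseg f a b ↔ ∃ i, a ≤ i ∧ i ≤ b ∧ f i = x := by
  simp only [cseg, mem_image, mem_Icc]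
  exact ⟨fun ⟨i, ⟨h1, h2⟩, h⟩ => ⟨i, h1, h2, h⟩, fun ⟨i, h1, h2, h⟩ => ⟨i, ⟨h1, h2⟩, h⟩⟩

/-- theta with vertex set `F`, given by three paths `f0, f1, f2` of lengths `l0, l1, l2` with common ends and
otherwise disjoint -/
structure ThF (G : SimpleGraph V) (F : Finset V) (f0 f1 f2 : ℕ → V) (l0 l1 l2 : ℕ) : Prop where
  p0 : PF G f0 l0
  p1 : PF G f1 l1
  p2 : PF G f2 l2
  s1 : f1 0 = f0 0
  s2 : f2 0 = f0 0
  t1 : f1 l1 = f0 l0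
  t2 : f2 l2 = f0 l0
  d01 : ∀ i j, i ≤ l0 → j ≤ l1 → f0 i = f1 j → (i = 0 ∧ j = 0) ∨ (i = l0 ∧ j = l1)
  d02 : ∀ i j, i ≤ l0 → j ≤ l2 → f0 i = f2 j → (i = 0 ∧ j = 0) ∨ (i = l0 ∧ j = l2)
  d12 : ∀ i j, i ≤ l1 → j ≤ l2 → f1 i = f2 j → (i = 0 ∧ j = 0) ∨ (i = l1 ∧ j = l2)
  pos0 : 1 ≤ l0
  pos1 : 1 ≤ l1
  pos2 : 1 ≤ l2
  c01 : 3 ≤ l0 + l1
  c02 : 3 ≤ l0 + l2
  c12 : 3 ≤ l1 + l2
  cov : F = cseg f0 0 l0 ∪ cseg f1 0 l1 ∪ cseg f2 0 l2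

/-- there is a theta with vertex set `F` and path lengths `l0, l1, l2` -/
def ThL (G : SimpleGraph V) (F : Finset V) (l0 l1 l2 : ℕ) : Prop :=
  ∃ f0 f1 f2 : ℕ → V, ThF G F f0 f1 f2 l0 l1 l2

/-- `m0,m1,m2` is a permutation of `l0,l1,l2` -/
def Perm3 (m0 m1 m2 l0 l1 l2 : ℕ) : Prop :=
  (m0 = l0 ∧ m1 = l1 ∧ m2 = l2) ∨ (m0 = l0 ∧ m1 = l2 ∧ m2 = l1) ∨ (m0 = l1 ∧ m1 = l0 ∧ m2 = l2) ∨
    (m0 = l1 ∧ m1 = l2 ∧ m2 = l0) ∨ (m0 = l2 ∧ m1 = l0 ∧ m2 = l1) ∨ (m0 = l2 ∧ m1 = l1 ∧ m2 = l0)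

/-- two disjoint paths in `F` link the pairs `x1,y1` and `x2,y2` (in some order) -/
def Lk2 (G : SimpleGraph V) (F : Finset V) (x1 y1 x2 y2 : V) : Prop :=
  ∃ S1 S2 : Finset V, Disjoint S1 S2 ∧ S1 ⊆ F ∧ S2 ⊆ F ∧ ∃ a b : ℕ,
    (PL G S1 x1 x2 a ∧ PL G S2 y1 y2 b) ∨ (PL G S1 x1 y2 a ∧ PL G S2 y1 x2 b)

/-- `G[F]` is 2-connected -/
def TwoC (G : SimpleGraph V) (F : Finset V) : Prop :=
  3 ≤ F.card ∧ ∀ w, Conn G (F.erase w)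

end Pool.Agent.Lib.MP_f599e5_co
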