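import Pool.Agent.Lib.MP_f599e5_co.B4
import Pool.Agent.Lib.MP_f599e5_co.B2F
import Pool.Agent.Lib.MP_f599e5_co.ThD

set_option autoImplicit false
set_option linter.unusedSectionVars false

/-! # ECyd: cycles as periodic functions `ℤ → V` (definitions) -/

namespace Pool.Agent.Lib.MP_f599e5_co

open Finset

variable {V : Type} [DecidableEq V] {G : SimpleGraph V}

/-- a cycle of length `g` given by a periodic function -/
structure Cyc (G : SimpleGraph V) (f : ℤ → V) (g : ℕ) : Prop where
  g3 : 3 ≤ g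
  adj : ∀ i : ℤ, G.Adj (f i) (f (i + 1))
  per : ∀ i : ℤ, f (i + g) = f i
  inj : ∀ i j : ℤ, f i = f j → (g : ℤ) ∣ i - j

/-- the vertex set of a cycle -/
def cycV (f : ℤ → V) (g : ℕ) : Finset V := (range g).image (fun i : ℕ => f (i : ℤ))

end Pool.Agent.Lib.MP_f599e5_co
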