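import Pool.Agent.Lib.MP_f599e5_co.EL2

set_option autoImplicit false
set_option linter.unusedSectionVars false

/-!
# JOB EL: two lobes

`X ≠ Y` components of `D.erase w` (disjoint, `IsComp.disjoint`), each with a vertex `≠ c`.  `lobe_min` (EL1) gives `L1 ⊆ X`, `w1` and `L2 ⊆ Y`, `w2` (`D` is connected: `hD.2.2`); `w1 ∈ {w} ∪ X`, `w2 ∈ {w} ∪ Y`.
* `L1 ∩ L2 = ∅`; `w1 ∉ L2` (`w ∉ Y`, `X ∩ Y = ∅`), `w1 ∉ L1` (`w1 ∈ bd G D L1`); the same for `w2`.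
* `Lobe.two_le` for both: `x1 ∈ F` adjacent to `L1`; two different vertices of `F` are adjacent to `L2`, one of them, `x2`, is `≠ x1`.
* `Lobe.adm` for both.
* `D \ L1` is connected (`Conn.sdiff` with `w := w1`), `L2 ⊆ D \ L1`, `bd G (D \ L1) L2 ⊆ bd G D L2 = {w2}`, `w2 ∈ D \ L1`: `D \ L1 \ L2` is connected (`Conn.sdiff`), it contains `w1` and `w2`: `Conn.path`
  (`D \ L1 \ L2 = D \ (L1 ∪ L2)`: `sdiff_sdiff_left`/ext).
-/

namespace Pool.Agent.Lib.MP_f599e5_co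

open Finset

variable {V : Type} [DecidableEq V] {G : SimpleGraph V}

/-- at most one component of `D.erase w` has a vertex different from `c`, for every `w ∈ D` -/
def NonSep (G : SimpleGraph V) (D : Finset V) (c : V) : Prop :=
  ∀ w ∈ D, ∀ X Y : Finset V, IsComp G (D.erase w) X → IsComp G (D.erase w) Y → (∃ v ∈ X, v ≠ c) →
    (∃ v ∈ Y, v ≠ c) → X = Y

/-- **lobe lemma** (3.2 U0, 4.5 V1, 4.6 W1): every vertex `≠ c` of `D` has at most `lam` neighbours in `F` -/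
theorem lobes {B F D : Finset V} {c w : V} {k lam : ℕ} (hB : Blk G k B c) (hs : Sep G B c 2) (hF : F ⊆ B)
    (hF5 : 5 ≤ F.card) (hD : IsComp G (B \ F) D) (hlam : lam + 3 ≤ k) (h4 : k = lam + 3 → lam = 1)
    (hl : ∀ v ∈ D, v ≠ c → (nb G v F).card ≤ lam) (hw : w ∈ D) {X Y : Finset V}
    (hX : IsComp G (D.erase w) X) (hY : IsComp G (D.erase w) Y) (hXY : X ≠ Y) (hXc : ∃ v ∈ X, v ≠ c)
    (hYc : ∃ v ∈ Y, v ≠ c) :
    ∃ (L1 L2 : Finset V) (x1 x2 w1 w2 : V) (r : ℕ), L1 ⊆ D ∧ L2 ⊆ D ∧ Disjoint L1 L2 ∧ x1 ∈ F ∧ x2 ∈ F ∧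
      x1 ≠ x2 ∧ w1 ∉ L1 ∧ w1 ∉ L2 ∧ w2 ∉ L1 ∧ w2 ∉ L2 ∧ Adm G (k - 1 - lam) L1 {x1} {w1} ∧
      Adm G (k - 1 - lam) L2 {x2} {w2} ∧ PL G (D \ (L1 ∪ L2)) w1 w2 r := by
  have hdis : Disjoint X Y := hX.disjoint hY hXY
  obtain ⟨L1, w1, hL1X, hL1, hw1⟩ := lobe_min hD.2.2 hw hX hXc
  obtain ⟨L2, w2, hL2Y, hL2, hw2⟩ := lobe_min hD.2.2 hw hY hYc
  have hwX : w ∉ X := fun h => notMem_erase w D (hX.1 h)
  have hwY : w ∉ Y := fun h => notMem_erase w D (hY.1 h)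
  have hm1 : w1 ∈ bd G D L1 := by rw [hL1.bdw]; exact mem_singleton_self _
  have hm2 : w2 ∈ bd G D L2 := by rw [hL2.bdw]; exact mem_singleton_self _
  obtain ⟨hw1D, hw1L1, -⟩ := mem_bd.1 hm1
  obtain ⟨hw2D, hw2L2, -⟩ := mem_bd.1 hm2
  have hL12 : Disjoint L1 L2 := disjoint_of_subset_left hL1X (disjoint_of_subset_right hL2Y hdis)
  have hw1L2 : w1 ∉ L2 := by
    intro h
    rcases hw1 with h1 | h1
    · exact hwY (h1 ▸ hL2Y h)
    · exact disjoint_left.1 hdis h1 (hL2Y h)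
  have hw2L1 : w2 ∉ L1 := by
    intro h
    rcases hw2 with h1 | h1
    · exact hwX (h1 ▸ hL1X h)
    · exact disjoint_left.1 hdis (hL1X h) h1
  obtain ⟨x1, hx1, _, _, _, ha1, _⟩ := hL1.two_le hs hF hF5 hD
  obtain ⟨y1, hy1, y2, hy2, hy12, hb1, hb2⟩ := hL2.two_le hs hF hF5 hD
  obtain ⟨x2, hx2, hx12, ha2⟩ : ∃ x2 ∈ F, x1 ≠ x2 ∧ adjS G L2 {x2} := by
    by_cases h : x1 = y1
    · exact ⟨y2, hy2, fun h1 => hy12 (h.symm.trans h1), hb2⟩
    · exact ⟨y1, hy1, h, hb1⟩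
  have hC1 : Conn G (D \ L1) := hD.2.2.sdiff hL1.sub hw1D hw1L1 (by rw [hL1.bdw])
  have hL2s : L2 ⊆ D \ L1 := fun v hv => mem_sdiff.2 ⟨hL2.sub hv, fun h => disjoint_left.1 hL12 h hv⟩
  have hw2s : w2 ∈ D \ L1 := mem_sdiff.2 ⟨hw2D, hw2L1⟩
  have hC2 : Conn G ((D \ L1) \ L2) := by
    refine hC1.sdiff hL2s hw2s hw2L2 fun v hv => ?_
    obtain ⟨h1, h2, h3⟩ := mem_bd.1 hv
    rw [← hL2.bdw]
    exact mem_bd.2 ⟨(mem_sdiff.1 h1).1, h2, h3⟩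
  obtain ⟨r, hr⟩ := hC2.path (u := w1) (v := w2) (mem_sdiff.2 ⟨mem_sdiff.2 ⟨hw1D, hw1L1⟩, hw1L2⟩)
    (mem_sdiff.2 ⟨hw2s, hw2L2⟩)
  refine ⟨L1, L2, x1, x2, w1, w2, r, hL1.sub, hL2.sub, hL12, hx1, hx2, hx12, hw1L1, hw1L2, hw2L1, hw2L2,
    hL1.adm hB hF hD hx1 ha1 hlam h4 hl, hL2.adm hB hF hD hx2 ha2 hlam h4 hl, hr.mono fun v hv => ?_⟩
  rw [mem_sdiff, mem_sdiff] at hv
  rw [mem_sdiff, mem_union, not_or]
  exact ⟨hv.1.1, hv.1.2, hv.2⟩

/-- the cycle through two lobes: a path through `L1` from `x1` to `w1`, from `w1` to `w2` in `D \ (L1 ∪ L2)`, through `L2` to `x2`, back to `x1` in `F`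
(three `PL.trans`, one `PL.cycle`) -/
theorem lobe_cycle {F D L1 L2 : Finset V} {x1 x2 w1 w2 : V} {r n1 n2 a : ℕ} (hDF : Disjoint D F) (h1 : L1 ⊆ D)
    (h2 : L2 ⊆ D) (h12 : Disjoint L1 L2) (hx1 : x1 ∈ F) (hx2 : x2 ∈ F) (hx : x1 ≠ x2) (hw1 : w1 ∉ L1) (hw1' : w1 ∉ L2)
    (hw2 : w2 ∉ L1) (hw2' : w2 ∉ L2) (hn1 : 2 ≤ n1) (hn2 : 2 ≤ n2)
    (p1 : PL G (insert x1 (insert w1 L1)) x1 w1 n1) (p2 : PL G (insert x2 (insert w2 L2)) x2 w2 n2)
    (pr : PL G (D \ (L1 ∪ L2)) w1 w2 r) (pa : PL G F x1 x2 a) : CycS G (D ∪ F) (n1 + n2 + r + a) := by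
  have hw1D : w1 ∈ D := (mem_sdiff.1 pr.left_mem).1
  have hw2D : w2 ∈ D := (mem_sdiff.1 pr.right_mem).1
  have hDF' : ∀ v, v ∈ D → v ∈ F → False := fun v h3 h4 => disjoint_left.1 hDF h3 h4
  have q1 := p1.trans pr (by
    intro v hv hv'
    rw [mem_sdiff, mem_union, not_or] at hv'
    rw [mem_insert, mem_insert] at hv
    rcases hv with rfl | hv | hv
    · exact absurd hx1 fun h => hDF' _ hv'.1 h
    · exact hv
    · exact absurd hv hv'.2.1)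
  have q2 := q1.trans p2.symm (by
    intro v hv hv'
    rw [mem_insert, mem_insert] at hv'
    rw [mem_union, mem_insert, mem_insert, mem_sdiff, mem_union, not_or] at hv
    rcases hv' with rfl | hv' | hv'
    · rcases hv with (h | h | h) | h
      · exact absurd h.symm hx
      · exact absurd hx2 fun h3 => hDF' _ hw1D (h ▸ h3)
      · exact absurd hx2 fun h3 => hDF' _ (h1 h) h3
      · exact absurd hx2 fun h3 => hDF' _ h.1 h3
    · exact hv'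
    · rcases hv with (h | h | h) | h
      · exact absurd hx1 fun h3 => hDF' _ (h2 hv') (h ▸ h3)
      · exact absurd hv' (h ▸ hw1')
      · exact absurd hv' fun h3 => disjoint_left.1 h12 h h3
      · exact absurd hv' h.2.2)
  have hsub : ∀ v, v ∈ insert x1 (insert w1 L1) ∪ D \ (L1 ∪ L2) ∪ insert x2 (insert w2 L2) →
      v ∈ D ∨ v = x1 ∨ v = x2 := by
    intro v hv
    rw [mem_union, mem_union, mem_insert, mem_insert, mem_insert, mem_insert, mem_sdiff] at hv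
    rcases hv with ((h | h | h) | h) | (h | h | h)
    · exact Or.inr (Or.inl h)
    · exact Or.inl (h ▸ hw1D)
    · exact Or.inl (h1 h)
    · exact Or.inl h.1
    · exact Or.inr (Or.inr h)
    · exact Or.inl (h ▸ hw2D)
    · exact Or.inl (h2 h)
  have q3 := q2.cycle pa (by
    intro v hv hv'
    rcases hsub v hv with h | h | h
    · exact absurd hv' fun h3 => hDF' _ h h3
    · exact Or.inl h
    · exact Or.inr h) hx (by omega)
  have h5 : n1 + r + n2 + a = n1 + n2 + r + a := by omega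
  rw [h5] at q3
  refine q3.mono fun v hv => ?_
  rw [mem_union] at hv ⊢
  rcases hv with hv | hv
  · rcases hsub v hv with h | h | h
    · exact Or.inl h
    · exact Or.inr (h ▸ hx1)
    · exact Or.inr (h ▸ hx2)
  · exact Or.inr hv

end Pool.Agent.Lib.MP_f599e5_co
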