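import Pool.Agent.Lib.MP_f599e5_co.K2

set_option autoImplicit false
set_option linter.unusedSectionVars false

/-!
# JOB EL1: minimal lobes

`D` connected, `w ∈ D`, `X` a component of `D.erase w` containing a vertex `≠ c`.
`lobe_min`: among the subsets `L ⊆ X` with a vertex `≠ c` and `(bd G D L).card ≤ 1` (`X` is one of them: `bd G D X ⊆ {w}`, because `bd G (D.erase w) X = ∅`) choose one of minimum cardinality
(`Finset.exists_min_image` on `X.powerset.filter ..`, classical).  Then: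
* `hmin`: if `L' ⊆ L` contains a vertex `≠ c` and `(bd G D L').card ≤ 1` then `L' = L` (`eq_of_subset_of_card_le`).
* `Conn G L`: let `v ∈ L`, `v ≠ c`; `exists_conn_part` (B3): `C0 ∋ v`, `IsComp G L C0`, `bd G D C0 ⊆ bd G D L`; by minimality `C0 = L`.
* `bd G D L = {w1}`: it has at most one element, and it is nonempty because `D` is connected, `L` nonempty and `L ≠ D` (`w ∉ L`): `Conn.bd_nonempty`.
* `w1 ∈ X` or `w1 = w`: `w1 ∈ D` is adjacent to a vertex of `L ⊆ X`; if `w1 ∈ D.erase w` then `w1 ∈ X` (`X` is closed in `D.erase w`).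
-/

namespace Pool.Agent.Lib.MP_f599e5_co

open Finset

variable {V : Type} [DecidableEq V] {G : SimpleGraph V}

/-- a lobe of `D`: a minimal set with at most one attaching vertex `w1` -/
structure Lobe (G : SimpleGraph V) (D : Finset V) (c : V) (L : Finset V) (w1 : V) : Prop where
  sub : L ⊆ D
  con : Conn G L
  ne : ∃ v ∈ L, v ≠ c
  bdw : bd G D L = {w1}
  min : ∀ L' ⊆ L, (∃ v ∈ L', v ≠ c) → (bd G D L').card ≤ 1 → L' = L

theorem lobe_min {D X : Finset V} {c w : V} (hD : Conn G D) (hw : w ∈ D) (hX : IsComp G (D.erase w) X)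
    (hXc : ∃ v ∈ X, v ≠ c) : ∃ L w1, L ⊆ X ∧ Lobe G D c L w1 ∧ (w1 = w ∨ w1 ∈ X) := by
  classical
  have hXD : X ⊆ D := hX.1.trans (erase_subset _ _)
  have hwX : w ∉ X := fun h => (mem_erase.1 (hX.1 h)).1 rfl
  have hcl : ∀ z ∈ D, z ≠ w → ∀ x ∈ X, G.Adj x z → z ∈ X := by
    intro z hzD hzw x hx ha
    by_contra hzX
    have : z ∈ bd G (D.erase w) X := mem_bd.2 ⟨mem_erase.2 ⟨hzw, hzD⟩, hzX, x, hx, ha⟩
    rw [hX.2.1] at this
    exact absurd this (notMem_empty _)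
  have hbX : bd G D X ⊆ {w} := by
    intro z hz
    obtain ⟨hzD, hzX, x, hx, ha⟩ := mem_bd.1 hz
    rw [mem_singleton]
    by_contra hzw
    exact hzX (hcl z hzD hzw x hx ha)
  have hne : (X.powerset.filter (fun L => (∃ v ∈ L, v ≠ c) ∧ (bd G D L).card ≤ 1)).Nonempty :=
    ⟨X, mem_filter.2 ⟨mem_powerset.2 subset_rfl, hXc, (card_le_card hbX).trans (by simp)⟩⟩
  obtain ⟨L, hL, hmin⟩ := exists_min_image _ card hne
  rw [mem_filter, mem_powerset] at hL
  obtain ⟨hLX, hLc, hLb⟩ := hL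
  have hmin' : ∀ L' ⊆ L, (∃ v ∈ L', v ≠ c) → (bd G D L').card ≤ 1 → L' = L := fun L' h1 h2 h3 =>
    eq_of_subset_of_card_le h1 (hmin L' (mem_filter.2 ⟨mem_powerset.2 (h1.trans hLX), h2, h3⟩))
  have hLD := hLX.trans hXD
  obtain ⟨v, hv, hvc⟩ := hLc
  have hcon : Conn G L := by
    obtain ⟨C0, hv0, hC0, hb0⟩ := exists_conn_part (G := G) hLD hv
    have h := hmin' C0 hC0.1 ⟨v, hv0, hvc⟩ ((card_le_card hb0).trans hLb)
    rw [← h]
    exact hC0.2.2
  have hnb := hD.bd_nonempty hLD ⟨v, hv⟩ (fun h => hwX (hLX (h ▸ hw)))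
  obtain ⟨w1, hw1⟩ : ∃ w1, bd G D L = {w1} := card_eq_one.1 (le_antisymm hLb (card_pos.2 hnb))
  refine ⟨L, w1, hLX, ⟨hLD, hcon, ⟨v, hv, hvc⟩, hw1, hmin'⟩, ?_⟩
  have hm : w1 ∈ bd G D L := by
    rw [hw1]
    exact mem_singleton_self _
  obtain ⟨h1, h2, x, hx, ha⟩ := mem_bd.1 hm
  by_cases h : w1 = w
  · exact Or.inl h
  · exact Or.inr (hcl w1 h1 h x (hLX hx) ha)

end Pool.Agent.Lib.MP_f599e5_co
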