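import Pool.Agent.Lib.MP_f599e5_co.EL1
import Pool.Agent.Lib.MP_f599e5_co.K4

set_option autoImplicit false
set_option linter.unusedSectionVars false

/-!
# JOB EL2: admissible paths through a lobe

`F ⊆ B`, `D` a component of `B \ F`, `L` a lobe of `D` with attaching vertex `w1`.
* `Lobe.nbr`: `v ∈ L`, `x ∈ B`, `G.Adj v x` imply `x ∈ L`, `x = w1` or `x ∈ F`: `comp_nb` (K2): `x ∈ F` or `x ∈ D`; in the second case `x ∈ L` or `x ∈ bd G D L = {w1}`.
* `Lobe.two_le`: `Sep G B c 2`, `5 ≤ F.card`: at least two vertices of `F` are adjacent to `L`.  Put `N` = the vertices of `F` adjacent to `L` (`F.filter ..`), suppose `N.card ≤ 1`; `S = insert w1 N` has at most 2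
  elements, `L ⊆ B \ S` (`L ⊆ D` is disjoint from `F`; `w1 ∉ L` since `w1 ∈ bd G D L`), `bd G B L ⊆ S` by `Lobe.nbr`.  `Sep` gives `B \ (L ∪ S) ⊆ {c}`; but `F \ S` has at least `5 - 2 = 3` elements (`w1 ∈ D`, so even 4), all in `B`, not in
  `L`: two different elements are both `= c`, contradiction.
* `Lobe.rz`: `x ∈ F` adjacent to `L`: `Rz G L {x} {w1} c`.  `ne`: `L` has a vertex `≠ c`.
  r1: `C ⊆ L` contains a vertex `≠ c`, `bd G L C = ∅`: then `C = L` (`L` connected); `L` is adjacent to `x` and to `w1` (`bdw`).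
  r2: `C ⊆ L` contains a vertex `≠ c`, `(bd G L C).card ≤ 1`; suppose `C` is adjacent neither to `x` nor to `w1`.  Then `bd G D C = bd G L C` (a neighbour in `D` of `C ⊆ L` is in `L` or it is `w1`), so
  `(bd G D C).card ≤ 1` and `C = L` by minimality; but `L` is adjacent to `w1`, contradiction.
* `Lobe.adm`: `aplus` (file Aplus) with `m = k - 1 - lam`, `D := L`, `A := {x}`, `B := {w1}`, `z := c`.  `Sys`: `L` disjoint from `{x}` (`x ∈ F`), from `{w1}`; `x ≠ w1` (`w1 ∈ D`).
  Degrees: `v ∈ L`, `v ≠ c`: `k ≤ (nb G v B).card`; by `Lobe.nbr` `nb G v B ⊆ nb G v L ∪ nb G v {w1} ∪ nb G v F`, and `(nb G v F).card ≤ lam`.  If `v ~ x`: `nb G v F` contains `x`: `(nb G v F).card ≤ lam` and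
  `ds = (nb G v L).card + 1 + [v ~ w1] ≥ k - lam + 1`.  If not: `ds ≥ k - lam`.  So `m + 1 = k - lam ≤ ds`.
  `e2`: `m = 2` means `k = lam + 3`, and then `lam = 1`, `k = 4` by `h4`: `v ∈ L`, `v ≠ c` has at least 4 neighbours in `B`, at most one in `F`, at most one is `w1`, so at least 2 in `L`; together with `v` at least 3 elements
  of `L`, so `2 ≤ (L.erase c).card`.
-/

namespace Pool.Agent.Lib.MP_f599e5_co

open Finset

variable {V : Type} [DecidableEq V] {G : SimpleGraph V}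

theorem Lobe.nbr {B F D L : Finset V} {c w1 v x : V} (hF : F ⊆ B) (hD : IsComp G (B \ F) D) (hL : Lobe G D c L w1)
    (hv : v ∈ L) (hx : x ∈ B) (ha : G.Adj v x) : x ∈ L ∨ x = w1 ∨ x ∈ F := by
  rcases comp_nb hF hD (hL.sub hv) hx ha with h1 | h1
  · by_cases hxL : x ∈ L
    · exact Or.inl hxL
    · have h2 : x ∈ bd G D L := mem_bd.2 ⟨h1, hxL, v, hv, ha⟩
      rw [hL.bdw, mem_singleton] at h2
      exact Or.inr (Or.inl h2)
  · exact Or.inr (Or.inr h1)

private theorem el2_w1 {D L : Finset V} {c w1 : V} (hL : Lobe G D c L w1) :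
    w1 ∈ D ∧ w1 ∉ L ∧ adjS G L {w1} := by
  have h1 : w1 ∈ bd G D L := by
    rw [hL.bdw]
    exact mem_singleton_self _
  obtain ⟨h2, h3, x, hx, ha⟩ := mem_bd.1 h1
  exact ⟨h2, h3, x, hx, w1, mem_singleton_self _, ha⟩

theorem Lobe.two_le {B F D L : Finset V} {c w1 : V} (hs : Sep G B c 2) (hF : F ⊆ B) (hF5 : 5 ≤ F.card)
    (hD : IsComp G (B \ F) D) (hL : Lobe G D c L w1) :
    ∃ x ∈ F, ∃ y ∈ F, x ≠ y ∧ adjS G L {x} ∧ adjS G L {y} := by
  classical
  obtain ⟨hw1D, hw1L, -⟩ := el2_w1 hL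
  have hDF : ∀ v ∈ D, v ∈ B ∧ v ∉ F := fun v hv => mem_sdiff.1 (hD.1 hv)
  by_cases hN : 2 ≤ (F.filter (fun y => adjS G L {y})).card
  · obtain ⟨x, hx, y, hy, hxy⟩ := one_lt_card.1 hN
    rw [mem_filter] at hx hy
    exact ⟨x, hx.1, y, hy.1, hxy, hx.2, hy.2⟩
  · exfalso
    set N := F.filter (fun y => adjS G L {y}) with hNdef
    have hScard : (insert w1 N).card ≤ 2 := le_trans (card_insert_le _ _) (by omega)
    have hLB : L ⊆ B \ insert w1 N := by
      intro v hv
      have h1 := hDF v (hL.sub hv)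
      refine mem_sdiff.2 ⟨h1.1, fun h2 => ?_⟩
      rcases mem_insert.1 h2 with h3 | h3
      · exact hw1L (h3 ▸ hv)
      · exact h1.2 (mem_filter.1 h3).1
    have hbd : bd G B L ⊆ insert w1 N := by
      intro y hy
      obtain ⟨hyB, hyL, v, hv, ha⟩ := mem_bd.1 hy
      rw [mem_insert]
      rcases hL.nbr hF hD hv hyB ha with h1 | h1 | h1
      · exact absurd h1 hyL
      · exact Or.inl h1
      · exact Or.inr (mem_filter.2 ⟨h1, v, hv, y, mem_singleton_self _, ha⟩)
    have h1 := hs (insert w1 N) L hScard hLB hL.ne hbd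
    have h2 : 2 ≤ (F \ insert w1 N).card := by
      have := le_card_sdiff (insert w1 N) F
      omega
    obtain ⟨x, hx, y, hy, hxy⟩ := one_lt_card.1 h2
    have key : ∀ t, t ∈ F \ insert w1 N → t = c := by
      intro t ht
      rw [mem_sdiff] at ht
      refine mem_singleton.1 (h1 (mem_sdiff.2 ⟨hF ht.1, fun h3 => ?_⟩))
      rcases mem_union.1 h3 with h4 | h4
      · exact (hDF t (hL.sub h4)).2 ht.1
      · exact ht.2 h4
    exact hxy ((key x hx).trans (key y hy).symm)

theorem Lobe.rz {B F D L : Finset V} {c w1 x : V} (hF : F ⊆ B) (hD : IsComp G (B \ F) D)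
    (hL : Lobe G D c L w1) (hx : adjS G L {x}) : Rz G L {x} {w1} c := by
  obtain ⟨hw1D, hw1L, hw1⟩ := el2_w1 hL
  refine ⟨hL.ne, ?_, ?_⟩
  · rintro C hC ⟨v, hv, _⟩ hb
    have h1 : C = L := hL.con.2 C hC ⟨v, hv⟩ hb
    rw [h1]
    exact ⟨hx, hw1⟩
  · intro C hC hne hb
    by_contra hcon
    rw [not_or] at hcon
    have h1 : bd G D C = bd G L C := by
      refine bd_eq_of hC hL.sub ?_
      intro v hv y hy ha
      by_contra hyL
      have h2 : y ∈ bd G D L := mem_bd.2 ⟨hy, hyL, v, hC hv, ha⟩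
      rw [hL.bdw] at h2
      exact hcon.2 ⟨v, hv, y, h2, ha⟩
    have h2 : C = L := hL.min C hC hne (by rw [h1]; exact hb)
    rw [h2] at hcon
    exact hcon.2 hw1

private theorem el2_one {v y : V} : (nb G v {y}).card ≤ 1 := by
  have := nb_card_le (G := G) (v := v) (A := {y})
  rwa [card_singleton] at this

theorem Lobe.adm {B F D L : Finset V} {c w1 x : V} {k lam : ℕ} (hB : Blk G k B c) (hF : F ⊆ B)
    (hD : IsComp G (B \ F) D) (hL : Lobe G D c L w1) (hxF : x ∈ F) (hx : adjS G L {x}) (hlam : lam + 3 ≤ k)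
    (h4 : k = lam + 3 → lam = 1) (hl : ∀ v ∈ D, v ≠ c → (nb G v F).card ≤ lam) :
    Adm G (k - 1 - lam) L {x} {w1} := by
  obtain ⟨hw1D, hw1L, hw1⟩ := el2_w1 hL
  have hDF : ∀ v ∈ D, v ∈ B ∧ v ∉ F := fun v hv => mem_sdiff.1 (hD.1 hv)
  have hnb : ∀ v ∈ L, (nb G v B).card ≤ (nb G v L).card + (nb G v {w1}).card + (nb G v F).card := by
    intro v hv
    have h1 : (nb G v B).card ≤ (nb G v (L ∪ {w1})).card + (nb G v F).card := by
      refine nb_card_le_add ?_
      intro y hy ha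
      rcases hL.nbr hF hD hv hy ha with h2 | h2 | h2
      · exact Or.inl (mem_union_left _ h2)
      · exact Or.inl (mem_union_right _ (mem_singleton.2 h2))
      · exact Or.inr h2
    have h2 : (nb G v (L ∪ {w1})).card ≤ (nb G v L).card + (nb G v {w1}).card := by
      rw [nb_union]
      exact card_union_le _ _
    omega
  refine aplus (z := c) ⟨by omega, ⟨?_, ?_, ?_⟩, hL.rz hF hD hx, ?_, ?_⟩
  · rw [disjoint_singleton_right]
    exact fun h => (hDF x (hL.sub h)).2 hxF
  · rw [disjoint_singleton_right]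
    exact hw1L
  · rw [disjoint_singleton]
    exact fun e => (hDF w1 hw1D).2 (e ▸ hxF)
  · intro v hv hvc
    have h1 := hB.deg v (hDF v (hL.sub hv)).1 hvc
    have h2 := hnb v hv
    have h3 := hl v (hL.sub hv) hvc
    have h5 := el2_one (G := G) (v := v) (y := w1)
    unfold ds
    omega
  · intro hm
    have hk : k = lam + 3 := by omega
    have hlam1 := h4 hk
    obtain ⟨v, hv, hvc⟩ := hL.ne
    have h1 := hB.deg v (hDF v (hL.sub hv)).1 hvc
    have h2 := hnb v hv
    have h3 := hl v (hL.sub hv) hvc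
    have h5 := el2_one (G := G) (v := v) (y := w1)
    right
    have h6 : insert v (nb G v L) ⊆ L := by
      refine insert_subset hv ?_
      intro y hy
      exact (mem_nb.1 hy).1
    have h7 : v ∉ nb G v L := fun h => G.loopless.irrefl v (mem_nb.1 h).2
    have h8 := card_le_card h6
    rw [card_insert_of_notMem h7] at h8
    have h9 := pred_card_le_card_erase (s := L) (a := c)
    omega

end Pool.Agent.Lib.MP_f599e5_co
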