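import Pool.Agent.Lib.MP_f599e5_co.E6v
import Pool.Agent.Lib.MP_f599e5_co.E4M

set_option autoImplicit false
set_option linter.unusedSectionVars false

/-! # EMain: the block theorem for even `k` -/

namespace Pool.Agent.Lib.MP_f599e5_co

open Finset

variable {V : Type} [DecidableEq V] {G : SimpleGraph V}

theorem block_even {k : ℕ} (hk : Even k) (h4 : 4 ≤ k) {B : Finset V} {c : V} (hB : Blk G k B c) : ZC k G := by
  obtain ⟨h, rfl⟩ := hk
  have e : h + h = 2 * h := by ring
  rw [e] at hB ⊢
  rcases Nat.lt_or_ge h 3 with h3 | h3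
  · have : h = 2 := by omega
    subst this
    exact block_four hB
  · exact block_even6 h3 hB

end Pool.Agent.Lib.MP_f599e5_co
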