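import Pool.Agent.Lib.MP_f599e5_co.ECy2
import Pool.Agent.Lib.MP_f599e5_co.B5
import Pool.Agent.Lib.MP_f599e5_co.Aplus

set_option autoImplicit false
set_option linter.unusedSectionVars false

/-!
# JOB ESe1: an odd cycle in a two-rooted system gives paths of both parities

`R0 G C0 {u} {v}`, `u ≠ v` not in `C0`, `E = insert u (insert v C0)`, `H = G.deleteEdges {s(u,v)}` (so `H ≤ G` and `H` is `G` without the edge `uv`), and an odd cycle of `H` inside `E`.
Claim: there are paths of `G` from `u` to `v` inside `E` of lengths `n, m ≥ 2` with `n + m` odd.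
1. `CycS.toCyc` for `H`: `f`, `Cyc H f N`, `N` odd, `Z = cycV f N ⊆ E`.
2. Menger (`menger`, B5) for the graph `H`, `k = 2`, `E`, `X = {u, v}`, `Y = Z`.  Hypothesis: let `S ⊆ E`, `S.card < 2`; we need `x ∈ X \ S`, `y ∈ Z \ S` and a path of `H` from `x` to `y` in `E \ S`.
   `Z` has `N ≥ 3` elements (`Cyc.card`), so there is `y ∈ Z \ S`.  If `y ∈ {u,v}` take `x = y` (`PL.refl`).  Otherwise `y ∈ C0`.  Let `K` be the component of `C0 \ S` containing `y` (`exists_comp`, for `G`).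
   Inside `K ⊆ C0` the graphs `G` and `H` have the same edges.
   * `S = ∅` or `S = {w}` with `w ∈ C0`: `bd G C0 K ⊆ S`, so `(bd G C0 K).card ≤ 1` and by `R0.r2` `K` is adjacent to `u` or to `v`; this root `x` is not in `S`; path `x - K - y` (`Conn.path`, `PL.cons`).
   * `S = {u}`: `K` is closed in `C0`, `R0.r1`: adjacent to `v ∉ S`; path `v - K - y`.  `S = {v}`: the same with `u`.
   (The edges between `K` and `u` or `v` are edges of `H`, since they are not the edge `uv`.)  Transfer to `H`: a path of `G` inside `insert x K` (`K ⊆ C0`, `x ∈ {u,v}`) does not use the edge `uv`, since one of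
   `u`, `v` is not in `insert x K` (`SimpleGraph.Walk.transfer`, `IsPath.transfer`, or `Walk.toDeleteEdges`); state this as an auxiliary lemma.  (`menger`, `Cyc`, `PL.*` are used for the graph `H`.)
3. Menger gives disjoint paths `P 0`, `P 1` of `H` from `x 0, x 1 ∈ {u,v}` to `y 0, y 1 ∈ Z` with `P i ∩ Z = {y i}`; `x 0 ≠ x 1` and `y 0 ≠ y 1` (disjointness), so `{x 0, x 1} = {u, v}`.
   `y 0 = f i`, `y 1 = f (i + a)` with `0 < a < N` (`exists_idx`), `Cyc.arcs`: paths in `Z` from `y 0` to `y 1` of lengths `a` and `N - a`, whose sum `N` is odd.  Concatenate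
   (`PL.trans` twice): `x 0 -> y 0 -> y 1 -> x 1`, lengths `n0 + a + n1` and `n0 + (N - a) + n1`, inside `E`.  They are paths of `H` from `u` to `v` (or from `v` to `u`: `PL.symm`); the length is not 0 (`u ≠ v`) and not 1
   (`PL.adj_of_one` would give the deleted edge), so `≥ 2`.  `PL.mono_graph` (`H ≤ G`).
-/

namespace Pool.Agent.Lib.MP_f599e5_co

open Finset

variable {V : Type} [DecidableEq V] {G : SimpleGraph V}


private theorem ese1_transfer {S : Finset V} {u v a b : V} {n : ℕ} (h : PL G S a b n)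
    (hS : ¬ (u ∈ S ∧ v ∈ S)) : PL (G.deleteEdges {s(u, v)}) S a b n := by
  obtain ⟨p, hp, hl, hs⟩ := h
  have h1 : ∀ e ∈ p.edges, e ∈ (G.deleteEdges {s(u, v)}).edgeSet := by
    intro e he
    rw [SimpleGraph.edgeSet_deleteEdges]
    refine ⟨p.edges_subset_edgeSet he, fun h2 => ?_⟩
    rw [Set.mem_singleton_iff] at h2
    subst h2
    exact hS ⟨hs u (p.fst_mem_support_of_mem_edges he), hs v (p.snd_mem_support_of_mem_edges he)⟩
  refine ⟨p.transfer _ h1, hp.transfer h1, ?_, ?_⟩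
  · rw [SimpleGraph.Walk.length_transfer, hl]
  · intro x hx
    rw [SimpleGraph.Walk.support_transfer] at hx
    exact hs x hx

private theorem ese1_adm {C0 S K : Finset V} {u v : V} (huv : u ≠ v) (hu : u ∉ C0) (hv : v ∉ C0)
    (hR : R0 G C0 {u} {v}) (hS : S.card < 2) (hK : IsComp G (C0 \ S) K) :
    ∃ x, (x = u ∨ x = v) ∧ x ∉ S ∧ ∃ c ∈ K, G.Adj c x := by
  have hKC : K ⊆ C0 := fun z hz => (mem_sdiff.1 (hK.1 hz)).1
  have hne : K.Nonempty := hK.2.2.1
  have hbd : bd G C0 K ⊆ S := by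
    intro w hw
    rw [mem_bd] at hw
    by_contra hwS
    have h1 : w ∈ bd G (C0 \ S) K := mem_bd.2 ⟨mem_sdiff.2 ⟨hw.1, hwS⟩, hw.2.1, hw.2.2⟩
    rw [hK.2.1] at h1
    exact absurd h1 (notMem_empty _)
  rcases (bd G C0 K).eq_empty_or_nonempty with h0 | ⟨w, hw⟩
  · obtain ⟨⟨c1, hc1, u', hu', ha1⟩, ⟨c2, hc2, v', hv', ha2⟩⟩ := hR.r1 K hKC hne h0
    rw [mem_singleton] at hu' hv'
    subst hu'
    subst hv'
    by_cases h1 : u' ∈ S
    · refine ⟨v', Or.inr rfl, fun h2 => ?_, c2, hc2, ha2⟩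
      exact huv (card_le_one.1 (by omega) u' h1 v' h2)
    · exact ⟨u', Or.inl rfl, h1, c1, hc1, ha1⟩
  · have hwS := hbd hw
    have hwC : w ∈ C0 := (mem_bd.1 hw).1
    have huS : u ∉ S := fun h1 => hu (card_le_one.1 (by omega) w hwS u h1 ▸ hwC)
    have hvS : v ∉ S := fun h1 => hv (card_le_one.1 (by omega) w hwS v h1 ▸ hwC)
    have hcard : (bd G C0 K).card ≤ 1 := (card_le_card hbd).trans (by omega)
    rcases hR.r2 K hKC hne hcard with ⟨c1, hc1, u', hu', ha1⟩ | ⟨c2, hc2, v', hv', ha2⟩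
    · rw [mem_singleton] at hu'
      subst hu'
      exact ⟨u', Or.inl rfl, huS, c1, hc1, ha1⟩
    · rw [mem_singleton] at hv'
      subst hv'
      exact ⟨v', Or.inr rfl, hvS, c2, hc2, ha2⟩

private theorem ese1_sep {C0 Z : Finset V} {u v : V} (huv : u ≠ v) (hu : u ∉ C0) (hv : v ∉ C0)
    (hR : R0 G C0 {u} {v}) (hZ : Z ⊆ insert u (insert v C0)) (hZc : 3 ≤ Z.card) :
    ∀ S ⊆ insert u (insert v C0), S.card < 2 → ∃ x ∈ ({u, v} : Finset V) \ S, ∃ y ∈ Z \ S, ∃ n,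
      PL (G.deleteEdges {s(u, v)}) (insert u (insert v C0) \ S) x y n := by
  intro S _ hS
  obtain ⟨y, hyZ, hyS⟩ : ∃ y ∈ Z, y ∉ S := exists_mem_notMem_of_card_lt_card (by omega)
  have hyE := hZ hyZ
  by_cases hyuv : y = u ∨ y = v
  · refine ⟨y, ?_, y, mem_sdiff.2 ⟨hyZ, hyS⟩, 0, PL.refl (mem_sdiff.2 ⟨hyE, hyS⟩)⟩
    rw [mem_sdiff, mem_insert, mem_singleton]
    exact ⟨hyuv, hyS⟩
  · have hyC : y ∈ C0 := by
      rw [mem_insert, mem_insert] at hyE
      tauto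
    obtain ⟨K, hyK, hK⟩ := exists_comp (G := G) (D := C0 \ S) (mem_sdiff.2 ⟨hyC, hyS⟩)
    obtain ⟨x, hx, hxS, c, hc, ha⟩ := ese1_adm huv hu hv hR hS hK
    obtain ⟨n, hn⟩ := hK.2.2.path hc hyK
    have hKC : ∀ z ∈ K, z ∈ C0 ∧ z ∉ S := fun z hz => mem_sdiff.1 (hK.1 hz)
    have hxK : x ∉ K := by
      intro h1
      rcases hx with rfl | rfl
      · exact hu (hKC x h1).1
      · exact hv (hKC x h1).1
    have h2 := PL.cons ha.symm hn hxK
    have h3 : ¬ (u ∈ insert x K ∧ v ∈ insert x K) := by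
      rintro ⟨h4, h5⟩
      rw [mem_insert] at h4 h5
      rcases h4 with h4 | h4
      · rcases h5 with h5 | h5
        · exact huv (h4.trans h5.symm)
        · exact hv (hKC v h5).1
      · exact hu (hKC u h4).1
    refine ⟨x, ?_, y, mem_sdiff.2 ⟨hyZ, hyS⟩, n + 1, (ese1_transfer h2 h3).mono ?_⟩
    · rw [mem_sdiff, mem_insert, mem_singleton]
      exact ⟨hx, hxS⟩
    · intro z hz
      rw [mem_insert] at hz
      rw [mem_sdiff, mem_insert, mem_insert]
      rcases hz with rfl | hz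
      · exact ⟨by tauto, hxS⟩
      · exact ⟨Or.inr (Or.inr (hKC z hz).1), (hKC z hz).2⟩

private theorem ese1_join {H : SimpleGraph V} {E P0 P1 Z : Finset V} {x0 x1 y0 y1 : V} {n0 n1 a : ℕ}
    (hP0 : P0 ⊆ E) (hP1 : P1 ⊆ E) (hZ : Z ⊆ E) (hd : Disjoint P0 P1) (h0 : PL H P0 x0 y0 n0)
    (h1 : PL H P1 x1 y1 n1) (hZ0 : P0 ∩ Z = {y0}) (hZ1 : P1 ∩ Z = {y1}) (ha : PL H Z y0 y1 a) :
    PL H E x0 x1 (n0 + a + n1) := by
  have h2 : PL H (P0 ∪ Z) x0 y1 (n0 + a) := h0.trans ha (fun z hz hz' => by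
    have h3 : z ∈ P0 ∩ Z := mem_inter.2 ⟨hz, hz'⟩
    rw [hZ0] at h3
    exact mem_singleton.1 h3)
  have h3 : PL H (P0 ∪ Z ∪ P1) x0 x1 (n0 + a + n1) := h2.trans h1.symm (fun z hz hz' => by
    rcases mem_union.1 hz with h4 | h4
    · exact absurd hz' (disjoint_left.1 hd h4)
    · have h5 : z ∈ P1 ∩ Z := mem_inter.2 ⟨hz', h4⟩
      rw [hZ1] at h5
      exact mem_singleton.1 h5)
  exact h3.mono (union_subset (union_subset hP0 hZ) hP1)

private theorem ese1_two {E : Finset V} {u v : V} {n : ℕ} (huv : u ≠ v)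
    (h : PL (G.deleteEdges {s(u, v)}) E u v n) : 2 ≤ n ∧ PL G E u v n := by
  refine ⟨?_, h.mono_graph (G.deleteEdges_le _)⟩
  have h1 := h.pos huv
  by_contra hlt
  have h2 : n = 1 := by omega
  subst h2
  have h3 := h.adj_of_one
  rw [SimpleGraph.deleteEdges_adj] at h3
  exact h3.2 (Set.mem_singleton _)

theorem both_parities {C0 : Finset V} {u v : V} (huv : u ≠ v) (hu : u ∉ C0) (hv : v ∉ C0)
    (hR : R0 G C0 {u} {v}) {N : ℕ} (hN : Odd N)
    (hc : CycS (G.deleteEdges {s(u, v)}) (insert u (insert v C0)) N) :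
    ∃ n m, 2 ≤ n ∧ 2 ≤ m ∧ Odd (n + m) ∧ PL G (insert u (insert v C0)) u v n ∧
      PL G (insert u (insert v C0)) u v m := by
  obtain ⟨f, hf, hfE⟩ := hc.toCyc
  have hZc : 3 ≤ (cycV f N).card := by
    rw [hf.card]
    exact hf.g3
  obtain ⟨P, x, y, n, hPE, hPd, hP, hPi⟩ := menger (G := G.deleteEdges {s(u, v)}) 2
    (insert u (insert v C0)) {u, v} (cycV f N) (by
      intro z hz
      rw [mem_insert, mem_singleton] at hz
      rw [mem_insert, mem_insert]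
      tauto) hfE (ese1_sep huv hu hv hR hfE hZc)
  have hd01 : Disjoint (P 0) (P 1) := hPd 0 1 (by decide)
  obtain ⟨hx0, hy0, hp0⟩ := hP 0
  obtain ⟨hx1, hy1, hp1⟩ := hP 1
  have hx01 : x 0 ≠ x 1 := fun h1 => disjoint_left.1 hd01 hp0.left_mem (h1 ▸ hp1.left_mem)
  have hy01 : y 0 ≠ y 1 := fun h1 => disjoint_left.1 hd01 hp0.right_mem (h1 ▸ hp1.right_mem)
  obtain ⟨i, _, hi⟩ := hf.exists_idx hy0 0
  obtain ⟨a, haN, ha⟩ := hf.exists_idx hy1 (0 + (i : ℤ))
  have ha0 : 0 < a := by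
    rcases Nat.eq_zero_or_pos a with h1 | h1
    · exfalso
      subst h1
      apply hy01
      rw [← hi, ← ha, Nat.cast_zero, add_zero]
    · exact h1
  obtain ⟨harc1, harc2⟩ := hf.arcs (0 + (i : ℤ)) ha0 haN
  rw [hi, ha] at harc1 harc2
  have hq1 := ese1_join (hPE 0) (hPE 1) hfE hd01 hp0 hp1 (hPi 0).2 (hPi 1).2 harc1
  have hq2 := ese1_join (hPE 0) (hPE 1) hfE hd01 hp0 hp1 (hPi 0).2 (hPi 1).2 harc2
  have hodd : Odd ((n 0 + a + n 1) + (n 0 + (N - a) + n 1)) := by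
    rw [Nat.odd_iff] at hN ⊢
    omega
  rw [mem_insert, mem_singleton] at hx0 hx1
  have hcase : (x 0 = u ∧ x 1 = v) ∨ (x 0 = v ∧ x 1 = u) := by
    rcases hx0 with h1 | h1 <;> rcases hx1 with h2 | h2
    · exact absurd (h1.trans h2.symm) hx01
    · exact Or.inl ⟨h1, h2⟩
    · exact Or.inr ⟨h1, h2⟩
    · exact absurd (h1.trans h2.symm) hx01
  rcases hcase with ⟨h1, h2⟩ | ⟨h1, h2⟩
  · rw [h1, h2] at hq1 hq2
    obtain ⟨h3, h4⟩ := ese1_two huv hq1
    obtain ⟨h5, h6⟩ := ese1_two huv hq2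
    exact ⟨_, _, h3, h5, hodd, h4, h6⟩
  · rw [h1, h2] at hq1 hq2
    obtain ⟨h3, h4⟩ := ese1_two huv hq1.symm
    obtain ⟨h5, h6⟩ := ese1_two huv hq2.symm
    exact ⟨_, _, h3, h5, hodd, h4, h6⟩

end Pool.Agent.Lib.MP_f599e5_co
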