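import Pool.Agent.Lib.MP_f599e5_co.K2
import Pool.Agent.Lib.MP_f599e5_co.ThD

set_option autoImplicit false
set_option linter.unusedSectionVars false

/-!
# JOB K3: closing two ears

`D1, D2, S1, S2` pairwise disjoint, `x1 ∈ S1 ∋ x2`, `y1 ∈ S2 ∋ y2` (ends of the link paths).
* `cyc_two`: the path `x2 -> x1 -> (through D1) -> y1 -> y2` (link path reversed in `S1`, `p1` in `insert x1 (insert y1 D1)`, link path in `S2`): two `PL.trans`
  (the common vertices: `S1` with `insert x1 (insert y1 D1)`: only `x1`, since `y1 ∈ S2`; the union with `S2`: only `y1`), length `a + n1 + b`, inside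
  `S1 ∪ D1 ∪ S2`; close it (`PL.cycle`, B2) with `p2` (after `PL.symm` as needed) from `x2` to `y2` inside `insert x2 (insert y2 D2)`:
  common vertices are `x2, y2` only; `x2 ≠ y2` (`S1, S2` disjoint); lengths `≥ 4`.
* `closing2_odd`: `Adm` gives `d, l`, `d', l'` with paths of lengths `l + i d` (`i < n`) through `D1`, `l' + j d'` (`j < p`) through `D2` (the roots are
  singletons, so the ends are `x1, y1`, `x2, y2`); `cyc_two` gives cycles of length `(l + i d) + (l' + j d') + a + b`.  `ap_sum` (B4A): these contain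
  `L + t e`, `t < n + p - 1`, `e ∈ {1,2}`, with `n + p - 1 ≥ k`; `ap_zero_odd`; `CycS.zc`.
* `closing2_lk`: the same with `Lk2` (ThD): in the first alternative directly, in the second exchange `x2` and `y2` (`Adm.symm` for `h2`).  `S1, S2 ⊆ F`
  are disjoint from `D1, D2`.
-/

namespace Pool.Agent.Lib.MP_f599e5_co

open Finset

variable {V : Type} [DecidableEq V] {G : SimpleGraph V}

theorem cyc_two {D1 D2 S1 S2 : Finset V} {x1 y1 x2 y2 : V} {n1 n2 a b : ℕ} (hD : Disjoint D1 D2)
    (h11 : Disjoint D1 S1) (h12 : Disjoint D1 S2) (h21 : Disjoint D2 S1) (h22 : Disjoint D2 S2)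
    (hS : Disjoint S1 S2) (hn1 : 2 ≤ n1) (hn2 : 2 ≤ n2)
    (p1 : PL G (insert x1 (insert y1 D1)) x1 y1 n1) (p2 : PL G (insert x2 (insert y2 D2)) x2 y2 n2)
    (q1 : PL G S1 x1 x2 a) (q2 : PL G S2 y1 y2 b) : CycS G (D1 ∪ D2 ∪ S1 ∪ S2) (n1 + n2 + a + b) := by
  have mx1 := q1.left_mem
  have mx2 := q1.right_mem
  have my1 := q2.left_mem
  have my2 := q2.right_mem
  have h11' := Finset.disjoint_left.1 h11
  have h12' := Finset.disjoint_left.1 h12
  have h21' := Finset.disjoint_left.1 h21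
  have h22' := Finset.disjoint_left.1 h22
  have hD' := Finset.disjoint_left.1 hD
  have hS' := Finset.disjoint_left.1 hS
  have e1 : PL G (S1 ∪ insert x1 (insert y1 D1)) x2 y1 (a + n1) := by
    refine q1.symm.trans p1 ?_
    intro x hx hx'
    rcases mem_insert.1 hx' with rfl | hx'
    · rfl
    · rcases mem_insert.1 hx' with rfl | hx'
      · exact absurd my1 (hS' hx)
      · exact absurd hx (h11' hx')
  have e2 : PL G (S1 ∪ insert x1 (insert y1 D1) ∪ S2) x2 y2 (a + n1 + b) := by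
    refine e1.trans q2 ?_
    intro x hx hx'
    rcases mem_union.1 hx with hx | hx
    · exact absurd hx' (hS' hx)
    · rcases mem_insert.1 hx with rfl | hx
      · exact absurd hx' (hS' mx1)
      · rcases mem_insert.1 hx with rfl | hx
        · rfl
        · exact absurd hx' (h12' hx)
  have hne : x2 ≠ y2 := fun he => hS' mx2 (he ▸ my2)
  have hc := e2.cycle p2 (by
    intro x hx hx'
    rcases mem_insert.1 hx' with h | hx'
    · exact Or.inl h
    · rcases mem_insert.1 hx' with h | hx'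
      · exact Or.inr h
      · exfalso
        rcases mem_union.1 hx with hx | hx
        · rcases mem_union.1 hx with hx | hx
          · exact h21' hx' hx
          · rcases mem_insert.1 hx with rfl | hx
            · exact h21' hx' mx1
            · rcases mem_insert.1 hx with rfl | hx
              · exact h22' hx' my1
              · exact hD' hx hx'
        · exact h22' hx' hx) hne (by omega)
  have hlen : a + n1 + b + n2 = n1 + n2 + a + b := by omega
  rw [hlen] at hc
  refine hc.mono ?_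
  intro x hx
  simp only [mem_union, mem_insert] at hx ⊢
  rcases hx with ((hx | rfl | rfl | hx) | hx) | rfl | rfl | hx <;> tauto

theorem closing2_odd {k n p a b : ℕ} {D1 D2 S1 S2 : Finset V} {x1 y1 x2 y2 : V} (hk : Odd k)
    (h1 : Adm G n D1 {x1} {y1}) (h2 : Adm G p D2 {x2} {y2}) (hn : 1 ≤ n) (hp : 1 ≤ p) (hnp : k + 1 ≤ n + p)
    (hD : Disjoint D1 D2) (h11 : Disjoint D1 S1) (h12 : Disjoint D1 S2) (h21 : Disjoint D2 S1)
    (h22 : Disjoint D2 S2) (hS : Disjoint S1 S2) (q1 : PL G S1 x1 x2 a) (q2 : PL G S2 y1 y2 b) : ZC k G := by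
  obtain ⟨d, hd, l, hl, h1⟩ := h1
  obtain ⟨d', hd', l', hl', h2⟩ := h2
  obtain ⟨e, he, hs⟩ := ap_sum hn hp hd hd'
  obtain ⟨t, ht, hdv⟩ := ap_zero_odd (l := l + l' + a + b) hk he
  obtain ⟨i, hi, j, hj, hij⟩ := hs t (by omega)
  obtain ⟨u1, hu1, v1, hv1, p1⟩ := h1 i hi
  obtain ⟨u2, hu2, v2, hv2, p2⟩ := h2 j hj
  rw [mem_singleton] at hu1 hv1 hu2 hv2
  subst hu1 hv1 hu2 hv2
  have hc := cyc_two hD h11 h12 h21 h22 hS (le_trans hl (Nat.le_add_right _ _))
    (le_trans hl' (Nat.le_add_right _ _)) p1 p2 q1 q2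
  refine hc.zc ?_
  have hlen : l + i * d + (l' + j * d') + a + b = l + l' + a + b + t * e := by
    rw [← hij]
    ring
  rw [hlen]
  exact hdv

theorem closing2_lk {k n p : ℕ} {D1 D2 F : Finset V} {x1 y1 x2 y2 : V} (hk : Odd k)
    (h1 : Adm G n D1 {x1} {y1}) (h2 : Adm G p D2 {x2} {y2}) (hn : 1 ≤ n) (hp : 1 ≤ p) (hnp : k + 1 ≤ n + p)
    (hD : Disjoint D1 D2) (hF1 : Disjoint D1 F) (hF2 : Disjoint D2 F) (hl : Lk2 G F x1 y1 x2 y2) : ZC k G := by
  obtain ⟨S1, S2, hS, hS1, hS2, a, b, h | h⟩ := hl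
  · exact closing2_odd hk h1 h2 hn hp hnp hD (hF1.mono_right hS1) (hF1.mono_right hS2)
      (hF2.mono_right hS1) (hF2.mono_right hS2) hS h.1 h.2
  · exact closing2_odd hk h1 h2.symm hn hp hnp hD (hF1.mono_right hS1) (hF1.mono_right hS2)
      (hF2.mono_right hS1) (hF2.mono_right hS2) hS h.1 h.2


end Pool.Agent.Lib.MP_f599e5_co
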