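import Pool.Agent.Lib.MP_f599e5_co.ESe1
import Pool.Agent.Lib.MP_f599e5_co.EBP
import Pool.Agent.Lib.MP_f599e5_co.EA
import Pool.Agent.Lib.MP_f599e5_co.K3

set_option autoImplicit false
set_option linter.unusedSectionVars false

/-!
# JOB ESe2: closing two ears on the same pair of roots, k even (4.2, 4.3)

`2 ≤ h`, `h ≤ n`, `2 ≤ n`, `2h + 1 ≤ 2n`; `C0`, `E0` disjoint, `u ≠ v` not in `C0 ∪ E0`; `Adm G n C0 {u} {v}`, `Adm G n E0 {u} {v}`; `R0 G C0 {u} {v}`; every vertex of `C0` has at least `h + 1`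
neighbours in `insert u (insert v C0)`.  Claim: `ZC (2*h) G`.
(a) `cyc_pair`: paths of lengths `x, y ≥ 2` from `u` to `v` through `C0` and through `E0` give a cycle of length `x + y`: `cyc_two` (K3) with `S1 = {u}`, `S2 = {v}`, `a = b = 0`, or directly `PL.cycle`.
(b) `Adm` gives `d1, l1`, `d2, l2` (roots are singletons).  If `d1 = 1` or `d2 = 1` or `l1 + l2` even: `ea_two` with `L = l1 + l2` and (a).
(c) Otherwise `d1 = d2 = 2`, `l1 + l2` odd.  If some path from `u` to `v` through `C0` has length `x ≥ 2` with `x + l2` even: `ap_zero_even` (`h ≤ n`) gives `j < n` with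
   `2h ∣ x + l2 + 2j`: (a).  So (by contradiction) every such `x ≥ 2` has `x + l2` odd; in particular there are no two such lengths of different parity, so by `both_parities` (ESe1) the graph
   `H = G.deleteEdges {s(u,v)}` has no odd cycle in `E = insert u (insert v C0)`; `two_col` (EPar, for `H`) gives the colouring.  `BPh H h E u v`: `ne`: `C0` nonempty (`hR.ne`) and `u, v ∉ C0`; `deg`: for `x ∈ C0`
   (`x ∈ E`, `x ≠ u, v`) `nb H x E = nb G x E` (the deleted edge does not contain `x`).  `bp` (EBP): `ZC (2*h) H`, hence `ZC (2*h) G` (`H ≤ G`: map the cycle with `Walk.mapLe`; `IsCycle.mapLe`; or prove `ZC.mono_graph`).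
-/

namespace Pool.Agent.Lib.MP_f599e5_co

open Finset

variable {V : Type} [DecidableEq V] {G : SimpleGraph V}

theorem ZC.mono_graph {k : ℕ} {H : SimpleGraph V} (hle : H ≤ G) (h : ZC k H) : ZC k G := by
  obtain ⟨v, p, hp, hk⟩ := h
  refine ⟨v, p.mapLe hle, (SimpleGraph.Walk.isCycle_mapLe hle).2 hp, ?_⟩
  have : (p.mapLe hle).length = p.length := by simp
  rw [this]
  exact hk

private theorem ESe2_pair {k : ℕ} {C0 E0 : Finset V} {u v : V} {x y : ℕ} (huv : u ≠ v) (hu : u ∉ C0)
    (hv : v ∉ C0) (hu' : u ∉ E0) (hv' : v ∉ E0) (hd : Disjoint C0 E0) (hx : 2 ≤ x) (hy : 2 ≤ y)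
    (p1 : PL G (insert u (insert v C0)) u v x) (p2 : PL G (insert u (insert v E0)) u v y)
    (hk : k ∣ x + y) : ZC k G := by
  have hc := cyc_two (S1 := {u}) (S2 := {v}) hd (disjoint_singleton_right.2 hu)
    (disjoint_singleton_right.2 hv) (disjoint_singleton_right.2 hu') (disjoint_singleton_right.2 hv')
    (by simpa using huv) hx hy p1 p2 (PL.refl (mem_singleton_self u)) (PL.refl (mem_singleton_self v))
  exact hc.zc (by simpa using hk)

theorem two_ears_even {h n : ℕ} (hh : 2 ≤ h) (hn : 2 ≤ n) (hhn : h ≤ n) (hnh : 2 * h + 1 ≤ 2 * n)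
    {C0 E0 : Finset V} {u v : V} (huv : u ≠ v) (hu : u ∉ C0) (hv : v ∉ C0) (hu' : u ∉ E0) (hv' : v ∉ E0)
    (hd : Disjoint C0 E0) (a1 : Adm G n C0 {u} {v}) (a2 : Adm G n E0 {u} {v}) (hR : R0 G C0 {u} {v})
    (hdeg : ∀ x ∈ C0, h + 1 ≤ (nb G x (insert u (insert v C0))).card) : ZC (2 * h) G := by
  classical
  obtain ⟨d1, hd1, l1, hl1, hP1⟩ := a1
  obtain ⟨d2, hd2, l2, hl2, hP2⟩ := a2
  have hP1' : ∀ i < n, PL G (insert u (insert v C0)) u v (l1 + i * d1) := by
    intro i hi
    obtain ⟨a, ha, b, hb, hp⟩ := hP1 i hi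
    rw [mem_singleton] at ha hb
    subst ha
    subst hb
    exact hp
  have hP2' : ∀ i < n, PL G (insert u (insert v E0)) u v (l2 + i * d2) := by
    intro i hi
    obtain ⟨a, ha, b, hb, hp⟩ := hP2 i hi
    rw [mem_singleton] at ha hb
    subst ha
    subst hb
    exact hp
  by_cases hL : d1 = 1 ∨ d2 = 1 ∨ Even (l1 + l2)
  · obtain ⟨i, hi, j, hj, hdv⟩ := ea_two (L := l1 + l2) hh hn hnh hd1 hd2 hL
    refine ESe2_pair huv hu hv hu' hv' hd (le_trans hl1 (Nat.le_add_right _ _))
      (le_trans hl2 (Nat.le_add_right _ _)) (hP1' i hi) (hP2' j hj) ?_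
    have : l1 + i * d1 + (l2 + j * d2) = l1 + l2 + i * d1 + j * d2 := by ring
    rw [this]
    exact hdv
  · push Not at hL
    obtain ⟨h1, h2, h3⟩ := hL
    have e2 : d2 = 2 := by tauto
    subst e2
    by_contra hno
    have hodd : ∀ x, 2 ≤ x → PL G (insert u (insert v C0)) u v x → ¬ Even (x + l2) := by
      intro x hx hp he
      obtain ⟨j, hj, hdv⟩ := ap_zero_even (h := h) (l := x + l2) (by omega) he
      refine hno (ESe2_pair huv hu hv hu' hv' hd hx (le_trans hl2 (Nat.le_add_right _ _)) hp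
        (hP2' j (by omega)) ?_)
      rw [← add_assoc]
      exact hdv
    have hcol := two_col (G := G.deleteEdges {s(u, v)}) (S := insert u (insert v C0)) (by
      intro N hN hc
      obtain ⟨x, y, hx, hy, hxy, p1, p2⟩ := both_parities huv hu hv hR hN hc
      have q1 := hodd x hx p1
      have q2 := hodd y hy p2
      rw [Nat.not_even_iff_odd] at q1 q2
      rw [Nat.odd_iff] at q1 q2 hxy
      omega)
    refine hno (ZC.mono_graph (SimpleGraph.deleteEdges_le {s(u, v)}) (bp hh
      (E := insert u (insert v C0)) (p := u) (q := v) ⟨hcol, ?_, ?_⟩))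
    · obtain ⟨x, hx⟩ := hR.ne
      exact ⟨x, by simp [hx], fun hc => hu (hc ▸ hx), fun hc => hv (hc ▸ hx)⟩
    · intro x hx hxu hxv
      have hxC : x ∈ C0 := by
        rw [mem_insert, mem_insert] at hx
        tauto
      have hnb : nb (G.deleteEdges {s(u, v)}) x (insert u (insert v C0)) =
          nb G x (insert u (insert v C0)) := by
        ext y
        rw [mem_nb, mem_nb, SimpleGraph.deleteEdges_adj]
        have : s(x, y) ∉ ({s(u, v)} : Set (Sym2 V)) := by
          rw [Set.mem_singleton_iff, Sym2.eq_iff]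
          tauto
        tauto
      rw [hnb]
      exact hdeg x hxC

end Pool.Agent.Lib.MP_f599e5_co
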