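import Pool.Agent.Lib.MP_f599e5_co.B4

set_option autoImplicit false
set_option linter.unusedSectionVars false

/-!
# JOB K1: existence of a block (2.1)

`W` = nonempty set `W ⊆ univ` with `(bd G univ W).card ≤ 1` of minimum cardinality (`univ` is such a set, `bd = ∅`;
`Finset.exists_min_image` or `Nat.find`).  So: (min) every nonempty `W'` with `W' ⊆ W` and `(bd G univ W').card ≤ 1` equals `W`
(`eq_of_subset_of_card_le`).  Put `B = W ∪ bd G univ W`.
CASE 1: `bd G univ W = ∅`.  `B = W`, `c` = any vertex of `W`.  `nb G v univ ⊆ W` for `v ∈ W`, `nb` does not contain `v`, so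
 `W.card ≥ k + 1 ≥ 2` and there is a vertex `≠ c` (ne).  `deg`: `nb G v B = nb G v univ`.  `b3`: `C ⊆ W` nonempty, `bd G W C ⊆ {w}`:
 `bd G univ C = bd G W C` has at most one element, so `C = W` by (min), and `B.erase w ⊆ C`.
CASE 2: `bd G univ W = {c}`, `c ∉ W`, `B = insert c W`.  ne: `W` nonempty.  `deg`: for `v ∈ W` (`v ∈ B`, `v ≠ c`) all neighbours are in
 `W + c`, `nb G v B = nb G v univ`.  `b3`: `C ⊆ B` nonempty, `w ∉ C`, `bd G B C ⊆ {w}`.
  * `c ∉ C`: `C ⊆ W`, all neighbours of `C` are in `B`, so `bd G univ C = bd G B C`, `C = W` by (min); then `c ∈ bd G B C ⊆ {w}`, `w = c`,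
    `B.erase c = W = C`.
  * `c ∈ C`: let `D = B \ (insert w C)` (contained in `W`).  If `D = ∅` then `B.erase w ⊆ C`.  Otherwise `bd G univ D ⊆ {w}`: a neighbour `y ∉ D`
    of `x ∈ D` is in `B` (as `x ∈ W`), so `y = w` or `y ∈ C`; in the latter case `x ∈ bd G B C ⊆ {w}`, contradiction.  So `D = W` by (min),
    hence `C ∩ W = ∅`, `C = {c}`, `w ∉ W`, `w ≠ c` so `w ∉ B`, and `bd G B {c} ⊆ {w}` with `bd G B {c} ⊆ B` gives `bd G B {c} = ∅`; but
    `c ∈ bd G univ W` has a neighbour in `W ⊆ B`, contradiction.
-/

namespace Pool.Agent.Lib.MP_f599e5_co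

open Finset

variable {V : Type} [DecidableEq V] {G : SimpleGraph V}

private theorem K1_min [Fintype V] [Nonempty V] (G : SimpleGraph V) :
    ∃ W : Finset V, W.Nonempty ∧ (bd G univ W).card ≤ 1 ∧
      ∀ W' ⊆ W, W'.Nonempty → (bd G univ W').card ≤ 1 → W' = W := by
  classical
  obtain ⟨W, hWmem, hWmin⟩ := Finset.exists_min_image
    ((univ : Finset (Finset V)).filter (fun W => W.Nonempty ∧ (bd G univ W).card ≤ 1))
    (fun W => W.card) ⟨univ, by
      rw [mem_filter]
      refine ⟨mem_univ _, univ_nonempty, ?_⟩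
      have h0 : bd G univ (univ : Finset V) = ∅ := by
        rw [Finset.eq_empty_iff_forall_notMem]
        intro w hw
        exact (mem_bd.1 hw).2.1 (mem_univ w)
      rw [h0]; simp⟩
  rw [mem_filter] at hWmem
  refine ⟨W, hWmem.2.1, hWmem.2.2, fun W' hsub hne hb => ?_⟩
  exact Finset.eq_of_subset_of_card_le hsub
    (hWmin W' (mem_filter.2 ⟨mem_univ _, hne, hb⟩))

private theorem K1_bd_sub {D C : Finset V} : bd G D C ⊆ D := fun _ hw => (mem_bd.1 hw).1

theorem exists_block [Fintype V] [Nonempty V] {k : ℕ} (hk : 1 ≤ k)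
    (h : ∀ v : V, k ≤ (nb G v univ).card) : ∃ B c, Blk G k B c := by
  classical
  obtain ⟨W, hWne, hWbd, hmin⟩ := K1_min G
  rcases Finset.eq_empty_or_nonempty (bd G univ W) with hb | hb
  · -- Case 1
    obtain ⟨c, hc⟩ := hWne
    have hcl : ∀ v ∈ W, ∀ x, G.Adj v x → x ∈ W := by
      intro v hv x hvx
      by_contra hx
      have : x ∈ bd G univ W := mem_bd.2 ⟨mem_univ _, hx, v, hv, hvx⟩
      rw [hb] at this
      exact absurd this (Finset.notMem_empty _)
    have hnb : ∀ v ∈ W, nb G v W = nb G v univ := by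
      intro v hv
      ext x
      rw [mem_nb, mem_nb]
      exact ⟨fun hx => ⟨mem_univ _, hx.2⟩, fun hx => ⟨hcl v hv x hx.2, hx.2⟩⟩
    refine ⟨W, c, ⟨?_, ?_, ?_⟩⟩
    · have h1 : 0 < (nb G c W).card := by
        rw [hnb c hc]
        have := h c
        omega
      obtain ⟨x, hx⟩ := card_pos.1 h1
      rw [mem_nb] at hx
      exact ⟨x, hx.1, fun he => G.loopless.irrefl c (he ▸ hx.2)⟩
    · intro v hv _
      rw [hnb v hv]
      exact h v
    · intro C hC hne w hw hCb
      have h1 : bd G univ C ⊆ {w} := by
        intro y hy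
        obtain ⟨_, hyC, x, hx, hxy⟩ := mem_bd.1 hy
        exact hCb (mem_bd.2 ⟨hcl x (hC hx) y hxy, hyC, x, hx, hxy⟩)
      have h2 : (bd G univ C).card ≤ 1 := by
        have := card_le_card h1
        simpa using this
      have h3 := hmin C hC hne h2
      rw [h3]
      exact erase_subset _ _
  · -- Case 2
    have hcard : (bd G univ W).card = 1 := by
      have := card_pos.2 hb
      omega
    obtain ⟨c, hc⟩ := card_eq_one.1 hcard
    have hcmem : c ∈ bd G univ W := by rw [hc]; exact mem_singleton_self _
    obtain ⟨_, hcW, x0, hx0, hx0c⟩ := mem_bd.1 hcmem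
    have hcl : ∀ v ∈ W, ∀ x, G.Adj v x → x ∈ insert c W := by
      intro v hv x hvx
      by_cases hx : x ∈ W
      · exact mem_insert_of_mem hx
      · have : x ∈ bd G univ W := mem_bd.2 ⟨mem_univ _, hx, v, hv, hvx⟩
        rw [hc] at this
        rw [mem_singleton.1 this]
        exact mem_insert_self _ _
    have hnb : ∀ v ∈ W, nb G v (insert c W) = nb G v univ := by
      intro v hv
      ext x
      rw [mem_nb, mem_nb]
      exact ⟨fun hx => ⟨mem_univ _, hx.2⟩, fun hx => ⟨hcl v hv x hx.2, hx.2⟩⟩
    refine ⟨insert c W, c, ⟨?_, ?_, ?_⟩⟩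
    · exact ⟨x0, mem_insert_of_mem hx0, fun he => hcW (he ▸ hx0)⟩
    · intro v hv hvc
      have hvW : v ∈ W := (mem_insert.1 hv).resolve_left hvc
      rw [hnb v hvW]
      exact h v
    · intro C hC hne w hw hCb
      by_cases hcC : c ∈ C
      · -- c ∈ C
        intro y hy
        by_contra hyC
        set D := insert c W \ insert w C with hD
        have hyD : y ∈ D := by
          rw [hD, mem_sdiff]
          refine ⟨mem_of_mem_erase hy, fun hh => ?_⟩
          rcases mem_insert.1 hh with h4 | h4
          · exact (ne_of_mem_erase hy) h4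
          · exact hyC h4
        have hDW : D ⊆ W := by
          intro x hx
          rw [hD, mem_sdiff] at hx
          rcases mem_insert.1 hx.1 with h4 | h4
          · exact absurd (mem_insert_of_mem (h4 ▸ hcC)) hx.2
          · exact h4
        have hDb : bd G univ D ⊆ {w} := by
          intro z hz
          obtain ⟨_, hzD, x, hx, hxz⟩ := mem_bd.1 hz
          have h5 : z ∈ insert c W := hcl x (hDW hx) z hxz
          rw [mem_singleton]
          by_contra hzw
          have hzC : z ∈ C := by
            by_contra hzC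
            apply hzD
            rw [hD, mem_sdiff]
            refine ⟨h5, fun hh => ?_⟩
            rcases mem_insert.1 hh with h6 | h6
            · exact hzw h6
            · exact hzC h6
          have h6 : x ∈ insert c W ∧ x ∉ insert w C := by
            rw [hD, mem_sdiff] at hx
            exact hx
          have h7 : x ∈ bd G (insert c W) C :=
            mem_bd.2 ⟨h6.1, fun hh => h6.2 (mem_insert_of_mem hh), z, hzC, hxz.symm⟩
          have h8 := mem_singleton.1 (hCb h7)
          exact h6.2 (h8 ▸ mem_insert_self _ _)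
        have h2 : (bd G univ D).card ≤ 1 := by
          have := card_le_card hDb
          simpa using this
        have h3 := hmin D hDW ⟨y, hyD⟩ h2
        have hx0D : x0 ∈ D := by rw [h3]; exact hx0
        have h9 : x0 ∈ insert c W ∧ x0 ∉ insert w C := by
          rw [hD, mem_sdiff] at hx0D
          exact hx0D
        have h10 : x0 ∈ bd G (insert c W) C :=
          mem_bd.2 ⟨h9.1, fun hh => h9.2 (mem_insert_of_mem hh), c, hcC, hx0c.symm⟩
        have h11 := mem_singleton.1 (hCb h10)
        exact h9.2 (h11 ▸ mem_insert_self _ _)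
      · -- c ∉ C
        have hCW : C ⊆ W := by
          intro x hx
          rcases mem_insert.1 (hC hx) with h4 | h4
          · exact absurd (h4 ▸ hx) hcC
          · exact h4
        have h1 : bd G univ C ⊆ {w} := by
          intro y hy
          obtain ⟨_, hyC, x, hx, hxy⟩ := mem_bd.1 hy
          exact hCb (mem_bd.2 ⟨hcl x (hCW hx) y hxy, hyC, x, hx, hxy⟩)
        have h2 : (bd G univ C).card ≤ 1 := by
          have := card_le_card h1
          simpa using this
        have h3 := hmin C hCW hne h2
        have h4 : c ∈ bd G univ C := by rw [h3]; exact hcmem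
        have h5 : c = w := mem_singleton.1 (h1 h4)
        rw [h3, ← h5]
        intro x hx
        rcases mem_insert.1 (mem_of_mem_erase hx) with h6 | h6
        · exact absurd h6 (ne_of_mem_erase hx)
        · exact h6


end Pool.Agent.Lib.MP_f599e5_co
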