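import Pool.Agent.Lib.MP_f599e5_co.K2
import Pool.Agent.Lib.MP_f599e5_co.B7

set_option autoImplicit false
set_option linter.unusedSectionVars false

/-!
# JOB K5A: no 4-clique (2.7 (i))

* `Blk.exists_comp`: a vertex `x ∈ F`, `x ≠ c`, with at least `k - r` neighbours in `B \ F` where `r + 2 ≤ k`: at least 2 neighbours in `B \ F`, one of them, `y`, is
  `≠ c`; take the component of `B \ F` containing `y` (`B3.exists_comp`).  Formally: hypothesis `(nb G x F).card ≤ r`, and
  `(nb G x B).card = (nb G x F).card + (nb G x (B \ F)).card`.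
* `clq_cycle`: `x ≠ y` in the clique, a path of length `j - 1` from `x` to `y` (`clq_path`) and the edge `x y` (`PL.edge` in `{x,y}`): `PL.cycle`.
  With `j = k`: `ZC`.
* `Blk.clq3`: suppose some clique in `B` has at least 4 elements; let `M` be a clique `⊆ B` of maximum cardinality `s ≥ 4`.  `s ≤ k - 1` by `clq_cycle`.
  There is `x0 ∈ M`, `x0 ≠ c`; `(nb G x0 M).card ≤ s - 1 ≤ k - 2`: `Blk.exists_comp` gives a component `D` of `B \ M` with a vertex `≠ c`.
  `2 ≤ (bd G B D).card`: `Blk.two_le_bd` (two vertices of `M`).  So (`mem_bd_comp`) there are `a1 ≠ a2` in `M` adjacent to `D`.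
  Choose `b1 ∈ M \ {a1,a2}`, `R1 = {a1, b1}`, `R2 = M \ R1` (contains `a2` and one more vertex, as `s ≥ 4`): `2 ≤ R1.card, 2 ≤ R2.card`.
  `hloss` with `lam = s - 3`: `v ∈ D`: `nb G v M` is the disjoint union of `nb G v R1`, `nb G v R2`, and is not all of `M` (otherwise `insert v M` is a larger
  clique; `v ∉ M`): `(nb G v M).card ≤ s - 1`.  If `v` has neighbours in both parts: `s - 1 ≤ 1 + 1 + (s - 3)`.  If only in `Ri`: at most
  `Ri.card ≤ s - 2 = 1 + (s - 3)`.  If none: 0.
  `Blk.ears0` gives `Adm (k - 1 - (s - 3)) D R1 R2`.  `Links G M R1 R2 1 (s-1) 1` by `clq_path`.  `closing_int` with `n = k - 1 - (s-3)`, `p = s - 1 ≥ 2`,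
  `n + p = k + 1` (omega, using `4 ≤ s ≤ k - 1`).
-/

namespace Pool.Agent.Lib.MP_f599e5_co

open Finset

variable {V : Type} [DecidableEq V] {G : SimpleGraph V}

/-- a component of `B \ F` containing a vertex different from `c` -/
theorem Blk.exists_comp {k r : ℕ} {B F : Finset V} {c x : V} (hB : Blk G k B c) (hF : F ⊆ B) (hx : x ∈ F)
    (hxc : x ≠ c) (hr : r + 2 ≤ k) (hn : (nb G x F).card ≤ r) :
    ∃ D, IsComp G (B \ F) D ∧ ∃ v ∈ D, v ≠ c := by
  have h1 := hB.deg x (hF hx) hxc
  have h2 : (nb G x (F ∪ (B \ F))).card = (nb G x F).card + (nb G x (B \ F)).card :=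
    nb_card_union disjoint_sdiff
  rw [union_sdiff_of_subset hF] at h2
  have h3 : 1 < (nb G x (B \ F)).card := by omega
  obtain ⟨y, hy, hyc⟩ := exists_mem_ne h3 c
  obtain ⟨D, hyD, hD⟩ := Pool.Agent.Lib.MP_f599e5_co.exists_comp (G := G) (mem_nb.1 hy).1
  exact ⟨D, hD, y, hyD, hyc⟩

theorem clq_cycle {K : Finset V} (hK : Clq G K) {j : ℕ} (h1 : 3 ≤ j) (h2 : j ≤ K.card) : CycS G K j := by
  have hcard : 1 < K.card := by omega
  obtain ⟨x, hx, y, hy, hne⟩ := one_lt_card.1 hcard
  have p1 : PL G K x y (j - 1) := clq_path hK hx hy hne (by omega) (by omega)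
  have p2 : PL G {x, y} x y 1 := PL.edge (hK x hx y hy hne) (by simp) (by simp)
  have h3 := PL.cycle p1 p2 (fun z _ hz => by simpa using hz) hne (by omega)
  have h4 : j - 1 + 1 = j := by omega
  rw [h4] at h3
  refine h3.mono ?_
  intro z hz
  rcases mem_union.1 hz with hz | hz
  · exact hz
  · rw [mem_insert, mem_singleton] at hz
    rcases hz with rfl | rfl
    · exact hx
    · exact hy

theorem Blk.clq3 {k : ℕ} {B M : Finset V} {c : V} (hB : Blk G k B c) (hk : 4 ≤ k) (hz : ¬ ZC k G) (hM : M ⊆ B)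
    (hc : Clq G M) : M.card ≤ 3 := by
  classical
  by_contra hcon
  have hmem : M ∈ B.powerset.filter (fun N => Clq G N) :=
    mem_filter.2 ⟨mem_powerset.2 hM, hc⟩
  obtain ⟨N, hN, hmax⟩ := exists_max_image (B.powerset.filter (fun N => Clq G N)) card ⟨M, hmem⟩
  have hs := hmax M hmem
  obtain ⟨hNB, hNc⟩ := mem_filter.1 hN
  rw [mem_powerset] at hNB
  have hNk : N.card < k := by
    by_contra h
    exact hz ((clq_cycle hNc (j := k) (by omega) (by omega)).zc dvd_rfl)
  have h1N : 1 < N.card := by omega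
  obtain ⟨x0, hx0, hx0c⟩ := exists_mem_ne h1N c
  have hnb : (nb G x0 N).card ≤ N.card - 1 := by
    rw [← card_erase_of_mem hx0]
    apply card_le_card
    intro w hw
    obtain ⟨hw1, hw2⟩ := mem_nb.1 hw
    exact mem_erase.2 ⟨hw2.ne.symm, hw1⟩
  obtain ⟨D, hD, hDc⟩ := hB.exists_comp hNB hx0 hx0c (r := N.card - 1) (by omega) hnb
  have hDsub : D ⊆ B \ N := hD.1
  have hDN : Disjoint D N := by
    rw [disjoint_left]
    intro a ha
    exact (mem_sdiff.1 (hDsub ha)).2
  have hDne : D.Nonempty := by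
    obtain ⟨v, hv, -⟩ := hDc
    exact ⟨v, hv⟩
  obtain ⟨x, hx, y, hy, hxy⟩ := one_lt_card.1 h1N
  have hbd := hB.two_le_bd (C := D) (hDsub.trans sdiff_subset) hDne (hNB hx) (hNB hy)
    (fun h => (disjoint_left.1 hDN h) hx) (fun h => (disjoint_left.1 hDN h) hy) hxy
  obtain ⟨a1, ha1, a2, ha2, ha12⟩ := one_lt_card.1 (show 1 < (bd G B D).card by omega)
  obtain ⟨ha1N, w1, hw1, hw1a⟩ := (mem_bd_comp hNB hD).1 ha1
  obtain ⟨ha2N, w2, hw2, hw2a⟩ := (mem_bd_comp hNB hD).1 ha2
  have hlt : ({a1, a2} : Finset V).card < N.card := by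
    have := card_le_two (a := a1) (b := a2)
    omega
  obtain ⟨b1, hb1, hb1n⟩ := exists_mem_notMem_of_card_lt_card hlt
  rw [mem_insert, mem_singleton, not_or] at hb1n
  have hR1 : ({a1, b1} : Finset V) ⊆ N := by
    intro z hz
    rw [mem_insert, mem_singleton] at hz
    rcases hz with rfl | rfl
    · exact ha1N
    · exact hb1
  have hR1c : ({a1, b1} : Finset V).card = 2 := card_pair (fun h => hb1n.1 h.symm)
  have hR2c : (N \ {a1, b1}).card = N.card - 2 := by rw [card_sdiff_of_subset hR1, hR1c]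
  have ha2R : a2 ∈ N \ {a1, b1} := by
    rw [mem_sdiff, mem_insert, mem_singleton, not_or]
    exact ⟨ha2N, ha12.symm, fun h => hb1n.2 h.symm⟩
  have hdis : Disjoint ({a1, b1} : Finset V) (N \ {a1, b1}) := disjoint_sdiff
  have hun : ({a1, b1} : Finset V) ∪ (N \ {a1, b1}) = N := union_sdiff_of_subset hR1
  have hadm := hB.ears0 (lam := N.card - 3) (F := N) (R1 := {a1, b1}) (R2 := N \ {a1, b1}) (D := D)
    hNB hR1 sdiff_subset hdis hD hDc ⟨w1, hw1, a1, by simp, hw1a⟩ ⟨w2, hw2, a2, ha2R, hw2a⟩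
    (fun v _ x hx h1 h2 => absurd (mem_sdiff.2 ⟨hx, h1⟩) h2) (by omega)
    (by
      intro v hv _
      have h1 := nb_card_union (G := G) (v := v) hdis
      rw [hun] at h1
      have h2 : (nb G v {a1, b1}).card ≤ 2 := by
        rw [← hR1c]
        exact card_le_card (fun w hw => (mem_nb.1 hw).1)
      have h3 : (nb G v (N \ {a1, b1})).card ≤ N.card - 2 := by
        rw [← hR2c]
        exact card_le_card (fun w hw => (mem_nb.1 hw).1)
      have h4 : (nb G v N).card ≤ N.card - 1 := by
        by_contra h5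
        have h6 : nb G v N = N :=
          eq_of_subset_of_card_le (fun w hw => (mem_nb.1 hw).1) (by omega)
        have hvN : v ∉ N := disjoint_left.1 hDN hv
        have h7 : insert v N ∈ B.powerset.filter (fun N => Clq G N) := by
          rw [mem_filter, mem_powerset]
          refine ⟨insert_subset (mem_sdiff.1 (hDsub hv)).1 hNB, ?_⟩
          intro a ha b hb hab
          rw [mem_insert] at ha hb
          rcases ha with rfl | ha <;> rcases hb with rfl | hb
          · exact absurd rfl hab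
          · rw [← h6] at hb
            exact (mem_nb.1 hb).2
          · rw [← h6] at ha
            exact (mem_nb.1 ha).2.symm
          · exact hNc a ha b hb hab
        have h8 := hmax _ h7
        rw [card_insert_of_notMem hvN] at h8
        omega
      omega)
  have hlinks : Links G N {a1, b1} (N \ {a1, b1}) 1 (N.card - 1) 1 := by
    intro r1 hr1 r2 hr2 j hj
    have hne : r1 ≠ r2 := fun h => disjoint_left.1 hdis hr1 (h ▸ hr2)
    exact clq_path hNc (hR1 hr1) (sdiff_subset hr2) hne (by omega) (by omega)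
  exact hz (closing_int (by omega) hadm hDN hR1 sdiff_subset hdis (by omega) (by omega) (by omega)
    hlinks)

end Pool.Agent.Lib.MP_f599e5_co
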