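import Pool.Agent.Lib.MP_f599e5_co.K5A

set_option autoImplicit false
set_option linter.unusedSectionVars false

/-!
# JOB K5B: no diamond (2.7 (ii))

`x, v` adjacent to `t, t'`, `t` adjacent to `t'`, `x ≠ v`.  `x` is not adjacent to `v` (otherwise `{x,v,t,t'}` is a clique with 4 elements, `Blk.clq3`).
`F = {x,v,t,t'}` (4 different vertices).  `x` or `v` is `≠ c`, say `x` (symmetric): `(nb G x F).card ≤ 2` (`= {t,t'}`), `Blk.exists_comp` with `r = 2`, so a
component `D` of `B \ F` with a vertex `≠ c`.  By `Blk.two_le_bd` and `mem_bd_comp` at least two vertices of `F` are adjacent to `D`.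
 (1) `D` adjacent to `{x,v}` and to `{t,t'}`: `R1 = {x,v}`, `R2 = {t,t'}`, `lam = 1`: for `y ∈ D`, `y` is not adjacent to `x, t, t'` simultaneously, nor to
   `v, t, t'` (no 4-clique); so if `nb G y F` has 3 elements then it meets both `R1, R2`; it never has 4 elements:
   `(nb G y F).card ≤ min 1 .. + min 1 .. + 1`.  `Blk.ears0`: `Adm (k-2) D R1 R2`.  `Links G F R1 R2 1 3 1`: e.g. from `x` to `t`: `x t`; `x t' t`; `x t' v t`
   (the other pairs by symmetry).  `closing_int` with `n = k - 2`, `p = 3`.
 (2) `D` not adjacent to `{x,v}`: then adjacent to `t` and `t'`.  `R1 = {t}`, `R2 = {t'}`, `lam = 0`.  `Links G F {t} {t'} 1 2 1`: `t t'`, `t x t'`.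
   `closing_int` with `n = k - 1`, `p = 2`.
 (3) `D` not adjacent to `{t,t'}`: adjacent to `x` and `v`.  `R1 = {x}`, `R2 = {v}`, `lam = 0`, `Links G F {x} {v} 2 2 1`: `x t v`, `x t t' v`.
Paths of length 1, 2, 3 along given vertices: `PL.edge`, `PL.cons`.
-/

namespace Pool.Agent.Lib.MP_f599e5_co

open Finset

variable {V : Type} [DecidableEq V] {G : SimpleGraph V}

/-- the paths of length 1, 2, 3 from `a` to `s` in a diamond `a, b, s, s'` -/
theorem k5b_links {F : Finset V} {a b s s' : V} (ha : a ∈ F) (hb : b ∈ F) (hs : s ∈ F) (hs' : s' ∈ F)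
    (hab : a ≠ b) (h1 : G.Adj a s) (h2 : G.Adj a s') (h3 : G.Adj b s) (h4 : G.Adj b s')
    (h5 : G.Adj s s') {j : ℕ} (hj : j < 3) : PL G F a s (1 + j * 1) := by
  have e1 : PL G {a, s} a s 1 := PL.edge h1 (by simp) (by simp)
  have hsub : ∀ z, z = a ∨ z = b ∨ z = s ∨ z = s' → z ∈ F := by
    rintro z (rfl | rfl | rfl | rfl) <;> assumption
  have hcases : j = 0 ∨ j = 1 ∨ j = 2 := by omega
  rcases hcases with rfl | rfl | rfl
  · exact e1.mono (fun z hz => by
      rw [mem_insert, mem_singleton] at hz
      exact hsub z (by tauto))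
  · have e2 : PL G {s', s} s' s 1 := PL.edge h5.symm (by simp) (by simp)
    have e3 := PL.cons h2 e2 (by
      rw [mem_insert, mem_singleton, not_or]
      exact ⟨h2.ne, h1.ne⟩)
    exact e3.mono (fun z hz => by
      rw [mem_insert, mem_insert, mem_singleton] at hz
      exact hsub z (by tauto))
  · have e2 : PL G {b, s} b s 1 := PL.edge h3 (by simp) (by simp)
    have e3 := PL.cons h4.symm e2 (by
      rw [mem_insert, mem_singleton, not_or]
      exact ⟨h4.ne.symm, h5.ne.symm⟩)
    have e4 := PL.cons h2 e3 (by
      rw [mem_insert, mem_insert, mem_singleton, not_or, not_or]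
      exact ⟨h2.ne, hab, h1.ne⟩)
    exact e4.mono (fun z hz => by
      rw [mem_insert, mem_insert, mem_insert, mem_singleton] at hz
      exact hsub z (by tauto))

theorem k5b_aux {k : ℕ} {B : Finset V} {c x v t t' : V} (hB : Blk G k B c) (hk : 4 ≤ k) (hz : ¬ ZC k G)
    (hx : x ∈ B) (hv : v ∈ B) (ht : t ∈ B) (ht' : t' ∈ B) (hne : x ≠ v) (h1 : G.Adj x t) (h2 : G.Adj x t')
    (h3 : G.Adj v t) (h4 : G.Adj v t') (h5 : G.Adj t t') (hxc : x ≠ c) : False := by
  have hclq : ∀ y z, y ∈ B → z ∈ B → G.Adj y z → G.Adj y t → G.Adj y t' → G.Adj z t → G.Adj z t' →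
      False := by
    intro y z hy hz' hyz hyt hyt' hzt hzt'
    have hcl : Clq G ({y, z, t, t'} : Finset V) := by
      intro a ha b hb hab
      simp only [mem_insert, mem_singleton] at ha hb
      rcases ha with rfl | rfl | rfl | rfl <;> rcases hb with rfl | rfl | rfl | rfl <;>
        first
        | exact absurd rfl hab
        | assumption
        | (apply SimpleGraph.Adj.symm; assumption)
    have hsub : ({y, z, t, t'} : Finset V) ⊆ B := by
      intro a ha
      simp only [mem_insert, mem_singleton] at ha
      rcases ha with rfl | rfl | rfl | rfl <;> assumption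
    have h6 := hB.clq3 hk hz hsub hcl
    have h7 : ({y, z, t, t'} : Finset V).card = 4 := by
      rw [card_insert_of_notMem, card_insert_of_notMem, card_insert_of_notMem, card_singleton]
      · simpa using h5.ne
      · simp only [mem_insert, mem_singleton, not_or]
        exact ⟨hzt.ne, hzt'.ne⟩
      · simp only [mem_insert, mem_singleton, not_or]
        exact ⟨hyz.ne, hyt.ne, hyt'.ne⟩
    omega
  have hxv : ¬ G.Adj x v := fun h => hclq x v hx hv h h1 h2 h3 h4
  obtain ⟨F, hFdef⟩ : ∃ F : Finset V, F = {x, v, t, t'} := ⟨_, rfl⟩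
  have hmF : ∀ z, z ∈ F ↔ z = x ∨ z = v ∨ z = t ∨ z = t' := by
    intro z
    rw [hFdef]
    simp only [mem_insert, mem_singleton]
  have hxF : x ∈ F := (hmF x).2 (by simp)
  have hvF : v ∈ F := (hmF v).2 (by simp)
  have htF : t ∈ F := (hmF t).2 (by simp)
  have ht'F : t' ∈ F := (hmF t').2 (by simp)
  have hFB : F ⊆ B := by
    intro z hz'
    rcases (hmF z).1 hz' with rfl | rfl | rfl | rfl <;> assumption
  have hnb : (nb G x F).card ≤ 2 := by
    have h6 : nb G x F ⊆ {t, t'} := by
      intro w hw
      obtain ⟨hw1, hw2⟩ := mem_nb.1 hw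
      rw [mem_insert, mem_singleton]
      rcases (hmF w).1 hw1 with rfl | rfl | rfl | rfl
      · exact absurd hw2 (G.loopless.irrefl w)
      · exact absurd hw2 hxv
      · exact Or.inl rfl
      · exact Or.inr rfl
    exact (card_le_card h6).trans card_le_two
  obtain ⟨D, hD, hDc⟩ := hB.exists_comp hFB hxF hxc (r := 2) (by omega) hnb
  have hDsub : D ⊆ B \ F := hD.1
  have hDF : Disjoint D F := by
    rw [disjoint_left]
    intro a ha
    exact (mem_sdiff.1 (hDsub ha)).2
  have hDne : D.Nonempty := by
    obtain ⟨w, hw, -⟩ := hDc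
    exact ⟨w, hw⟩
  have hbd := hB.two_le_bd (C := D) (hDsub.trans sdiff_subset) hDne hx hv
    (fun h => (disjoint_left.1 hDF h) hxF) (fun h => (disjoint_left.1 hDF h) hvF) hne
  have hpc : ∀ (y a b : V), (nb G y {a, b}).card ≤ 2 := fun y a b =>
    (card_le_card (fun w hw => (mem_nb.1 hw).1)).trans (card_le_two (a := a) (b := b))
  have hsc : ∀ (y a : V), (nb G y {a}).card ≤ 1 := fun y a =>
    (card_le_card (fun w hw => (mem_nb.1 hw).1)).trans (le_of_eq (card_singleton a))
  have hxt := h1.ne
  have hxt' := h2.ne
  have hvt := h3.ne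
  have hvt' := h4.ne
  have htt' := h5.ne
  by_cases hA : adjS G D {x, v}
  · by_cases hA' : adjS G D {t, t'}
    · -- case 1
      have hd : Disjoint ({x, v} : Finset V) {t, t'} := by
        rw [disjoint_left]
        intro a ha hb
        simp only [mem_insert, mem_singleton] at ha hb
        rcases ha with rfl | rfl <;> rcases hb with rfl | rfl <;> contradiction
      have hun : ({x, v} : Finset V) ∪ {t, t'} = F := by
        ext z
        rw [hmF]
        simp only [mem_union, mem_insert, mem_singleton]
        tauto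
      have hs1 : ({x, v} : Finset V) ⊆ F := by rw [← hun]; exact subset_union_left
      have hs2 : ({t, t'} : Finset V) ⊆ F := by rw [← hun]; exact subset_union_right
      have hadm := hB.ears0 (lam := 1) hFB hs1 hs2 hd hD hDc hA hA'
        (fun w _ z hz' h6 h7 => by
          rw [← hun, mem_union] at hz'
          rcases hz' with hz' | hz'
          · exact absurd hz' h6
          · exact absurd hz' h7) (by omega)
        (by
          intro y hy _
          have h6 := nb_card_union (G := G) (v := y) hd
          rw [hun] at h6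
          have h7 := hpc y x v
          have h8 := hpc y t t'
          have h9 : (nb G y F).card ≤ 3 := by
            by_contra h10
            have h11 : (nb G y {x, v}).card = 2 := by omega
            have h12 : (nb G y {t, t'}).card = 2 := by omega
            have h13 : nb G y {x, v} = {x, v} :=
              eq_of_subset_of_card_le (fun w hw => (mem_nb.1 hw).1)
                (by rw [h11]; exact card_le_two)
            have h14 : nb G y {t, t'} = {t, t'} :=
              eq_of_subset_of_card_le (fun w hw => (mem_nb.1 hw).1)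
                (by rw [h12]; exact card_le_two)
            have a1 : G.Adj y x := (mem_nb.1 (by rw [h13]; simp : x ∈ nb G y {x, v})).2
            have a2 : G.Adj y t := (mem_nb.1 (by rw [h14]; simp : t ∈ nb G y {t, t'})).2
            have a3 : G.Adj y t' := (mem_nb.1 (by rw [h14]; simp : t' ∈ nb G y {t, t'})).2
            exact hclq y x (mem_sdiff.1 (hDsub hy)).1 hx a1 a2 a3 h1 h2
          omega)
      have hlinks : Links G F {x, v} {t, t'} 1 3 1 := by
        intro r1 hr1 r2 hr2 j hj
        simp only [mem_insert, mem_singleton] at hr1 hr2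
        rcases hr1 with rfl | rfl <;> rcases hr2 with rfl | rfl
        · exact k5b_links hxF hvF htF ht'F hne h1 h2 h3 h4 h5 hj
        · exact k5b_links hxF hvF ht'F htF hne h2 h1 h4 h3 h5.symm hj
        · exact k5b_links hvF hxF htF ht'F hne.symm h3 h4 h1 h2 h5 hj
        · exact k5b_links hvF hxF ht'F htF hne.symm h4 h3 h2 h1 h5.symm hj
      exact hz (closing_int (by omega) hadm hDF hs1 hs2 hd (by omega) (by omega) (by omega) hlinks)
    · -- case 3: `D` not adjacent to `t, t'`
      have hbd2 : bd G B D ⊆ {x, v} := by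
        intro w hw
        obtain ⟨hwF, y, hy, hyw⟩ := (mem_bd_comp hFB hD).1 hw
        rw [mem_insert, mem_singleton]
        rcases (hmF w).1 hwF with rfl | rfl | rfl | rfl
        · exact Or.inl rfl
        · exact Or.inr rfl
        · exact absurd ⟨y, hy, w, by simp, hyw⟩ hA'
        · exact absurd ⟨y, hy, w, by simp, hyw⟩ hA'
      have hbd3 : bd G B D = {x, v} :=
        eq_of_subset_of_card_le hbd2 ((card_le_two (a := x) (b := v)).trans hbd)
      obtain ⟨-, y1, hy1, hy1a⟩ := (mem_bd_comp hFB hD).1 (show x ∈ bd G B D by rw [hbd3]; simp)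
      obtain ⟨-, y2, hy2, hy2a⟩ := (mem_bd_comp hFB hD).1 (show v ∈ bd G B D by rw [hbd3]; simp)
      have hd : Disjoint ({x} : Finset V) {v} := by simpa using hne
      have hs1 : ({x} : Finset V) ⊆ F := by simpa using hxF
      have hs2 : ({v} : Finset V) ⊆ F := by simpa using hvF
      have hnadj : ∀ w ∈ D, ∀ z ∈ F, z ∉ ({x} : Finset V) → z ∉ ({v} : Finset V) → ¬ G.Adj w z := by
        intro w hw z hzF hzx hzv hwz
        rw [mem_singleton] at hzx hzv
        rcases (hmF z).1 hzF with rfl | rfl | rfl | rfl
        · exact hzx rfl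
        · exact hzv rfl
        · exact hA' ⟨w, hw, z, by simp, hwz⟩
        · exact hA' ⟨w, hw, z, by simp, hwz⟩
      have hadm := hB.ears0 (lam := 0) hFB hs1 hs2 hd hD hDc ⟨y1, hy1, x, by simp, hy1a⟩
        ⟨y2, hy2, v, by simp, hy2a⟩ hnadj (by omega)
        (by
          intro y hy _
          have h6 := nb_card_union (G := G) (v := y) hd
          have h7 := hsc y x
          have h8 := hsc y v
          have h9 : (nb G y F).card ≤ (nb G y ({x} ∪ {v})).card := by
            apply card_le_card
            intro w hw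
            obtain ⟨hw1, hw2⟩ := mem_nb.1 hw
            rw [mem_nb, mem_union]
            refine ⟨?_, hw2⟩
            by_contra h10
            rw [not_or] at h10
            exact hnadj y hy w hw1 h10.1 h10.2 hw2
          omega)
      have hlinks : Links G F {x} {v} 2 2 1 := by
        intro r1 hr1 r2 hr2 j hj
        rw [mem_singleton] at hr1 hr2
        subst hr1
        subst hr2
        have hsub : ∀ z, z = r1 ∨ z = r2 ∨ z = t ∨ z = t' → z ∈ F := fun z hz' => (hmF z).2 hz'
        have hcases : j = 0 ∨ j = 1 := by omega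
        rcases hcases with rfl | rfl
        · have e2 : PL G {t, r2} t r2 1 := PL.edge h3.symm (by simp) (by simp)
          have e3 := PL.cons h1 e2 (by
            rw [mem_insert, mem_singleton, not_or]
            exact ⟨hxt, hne⟩)
          exact e3.mono (fun z hz' => by
            rw [mem_insert, mem_insert, mem_singleton] at hz'
            exact hsub z (by tauto))
        · have e2 : PL G {t', r2} t' r2 1 := PL.edge h4.symm (by simp) (by simp)
          have e3 := PL.cons h5 e2 (by
            rw [mem_insert, mem_singleton, not_or]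
            exact ⟨htt', hvt.symm⟩)
          have e4 := PL.cons h1 e3 (by
            rw [mem_insert, mem_insert, mem_singleton, not_or, not_or]
            exact ⟨hxt, hxt', hne⟩)
          exact e4.mono (fun z hz' => by
            rw [mem_insert, mem_insert, mem_insert, mem_singleton] at hz'
            exact hsub z (by tauto))
      exact hz (closing_int (by omega) hadm hDF hs1 hs2 hd (by omega) (by omega) (by omega) hlinks)
  · -- case 2: `D` not adjacent to `x, v`
    have hbd2 : bd G B D ⊆ {t, t'} := by
      intro w hw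
      obtain ⟨hwF, y, hy, hyw⟩ := (mem_bd_comp hFB hD).1 hw
      rw [mem_insert, mem_singleton]
      rcases (hmF w).1 hwF with rfl | rfl | rfl | rfl
      · exact absurd ⟨y, hy, w, by simp, hyw⟩ hA
      · exact absurd ⟨y, hy, w, by simp, hyw⟩ hA
      · exact Or.inl rfl
      · exact Or.inr rfl
    have hbd3 : bd G B D = {t, t'} :=
      eq_of_subset_of_card_le hbd2 ((card_le_two (a := t) (b := t')).trans hbd)
    obtain ⟨-, y1, hy1, hy1a⟩ := (mem_bd_comp hFB hD).1 (show t ∈ bd G B D by rw [hbd3]; simp)
    obtain ⟨-, y2, hy2, hy2a⟩ := (mem_bd_comp hFB hD).1 (show t' ∈ bd G B D by rw [hbd3]; simp)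
    have hd : Disjoint ({t} : Finset V) {t'} := by simpa using htt'
    have hs1 : ({t} : Finset V) ⊆ F := by simpa using htF
    have hs2 : ({t'} : Finset V) ⊆ F := by simpa using ht'F
    have hnadj : ∀ w ∈ D, ∀ z ∈ F, z ∉ ({t} : Finset V) → z ∉ ({t'} : Finset V) → ¬ G.Adj w z := by
      intro w hw z hzF hzx hzv hwz
      rw [mem_singleton] at hzx hzv
      rcases (hmF z).1 hzF with rfl | rfl | rfl | rfl
      · exact hA ⟨w, hw, z, by simp, hwz⟩
      · exact hA ⟨w, hw, z, by simp, hwz⟩
      · exact hzx rfl
      · exact hzv rfl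
    have hadm := hB.ears0 (lam := 0) hFB hs1 hs2 hd hD hDc ⟨y1, hy1, t, by simp, hy1a⟩
      ⟨y2, hy2, t', by simp, hy2a⟩ hnadj (by omega)
      (by
        intro y hy _
        have h6 := nb_card_union (G := G) (v := y) hd
        have h7 := hsc y t
        have h8 := hsc y t'
        have h9 : (nb G y F).card ≤ (nb G y ({t} ∪ {t'})).card := by
          apply card_le_card
          intro w hw
          obtain ⟨hw1, hw2⟩ := mem_nb.1 hw
          rw [mem_nb, mem_union]
          refine ⟨?_, hw2⟩
          by_contra h10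
          rw [not_or] at h10
          exact hnadj y hy w hw1 h10.1 h10.2 hw2
        omega)
    have hlinks : Links G F {t} {t'} 1 2 1 := by
      intro r1 hr1 r2 hr2 j hj
      rw [mem_singleton] at hr1 hr2
      subst hr1
      subst hr2
      have hsub : ∀ z, z = x ∨ z = v ∨ z = r1 ∨ z = r2 → z ∈ F := fun z hz' => (hmF z).2 hz'
      have hcases : j = 0 ∨ j = 1 := by omega
      rcases hcases with rfl | rfl
      · have e1 : PL G {r1, r2} r1 r2 1 := PL.edge h5 (by simp) (by simp)
        exact e1.mono (fun z hz' => by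
          rw [mem_insert, mem_singleton] at hz'
          exact hsub z (by tauto))
      · have e2 : PL G {x, r2} x r2 1 := PL.edge h2 (by simp) (by simp)
        have e3 := PL.cons h1.symm e2 (by
          rw [mem_insert, mem_singleton, not_or]
          exact ⟨hxt.symm, htt'⟩)
        exact e3.mono (fun z hz' => by
          rw [mem_insert, mem_insert, mem_singleton] at hz'
          exact hsub z (by tauto))
    exact hz (closing_int (by omega) hadm hDF hs1 hs2 hd (by omega) (by omega) (by omega) hlinks)

theorem Blk.no_diamond {k : ℕ} {B : Finset V} {c x v t t' : V} (hB : Blk G k B c) (hk : 4 ≤ k) (hz : ¬ ZC k G)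
    (hx : x ∈ B) (hv : v ∈ B) (ht : t ∈ B) (ht' : t' ∈ B) (hne : x ≠ v) (h1 : G.Adj x t) (h2 : G.Adj x t')
    (h3 : G.Adj v t) (h4 : G.Adj v t') (h5 : G.Adj t t') : False := by
  by_cases hxc : x = c
  · exact k5b_aux hB hk hz hv hx ht ht' hne.symm h3 h4 h1 h2 h5 (fun h => hne (hxc.trans h.symm))
  · exact k5b_aux hB hk hz hx hv ht ht' hne h1 h2 h3 h4 h5 hxc

end Pool.Agent.Lib.MP_f599e5_co
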