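import Pool.Agent.Lib.MP_f599e5_co.Th1B

set_option autoImplicit false
set_option linter.unusedSectionVars false

/-!
# JOB Th2A: construction of a theta from three exact paths

Take `f0, f1, f2` from `PX.toPF` for the three paths (`fi 0 = s`, `fi li = t`, `Si = cseg fi 0 li`).  All fields of `ThF` are direct:
`s1, s2, t1, t2`: both sides are `s` resp. `t`.  `d01`: `x = f0 i = f1 j` is in `S0` and in `S1`, so `x = s` or `x = t` by `m01`.
If `x = s = f0 0`: `i = 0` by injectivity of `f0` and `j = 0` by injectivity of `f1`; if `x = t = f0 l0 = f1 l1` then `i = l0`, `j = l1`.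
`d02`, `d12` in the same way.  `pos`: `li = 0` would give `s = t` (`PL.pos` or `fi 0 = fi li`).  `cov`: rewrite.
-/

namespace Pool.Agent.Lib.MP_f599e5_co

open Finset

variable {V : Type} [DecidableEq V] {G : SimpleGraph V}

private theorem th2A_d {f g : ℕ → V} {n m : ℕ} {s t : V} (hf : PF G f n) (hg : PF G g m)
    (f0 : f 0 = s) (fn : f n = t) (g0 : g 0 = s) (gm : g m = t)
    (hc : ∀ x ∈ cseg f 0 n, x ∈ cseg g 0 m → x = s ∨ x = t) :
    ∀ i j, i ≤ n → j ≤ m → f i = g j → (i = 0 ∧ j = 0) ∨ (i = n ∧ j = m) := by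
  intro i j hi hj h
  rcases hc (f i) (mem_cseg.2 ⟨i, Nat.zero_le _, hi, rfl⟩)
    (mem_cseg.2 ⟨j, Nat.zero_le _, hj, h.symm⟩) with h1 | h1
  · left
    exact ⟨hf.inj i 0 hi (Nat.zero_le _) (h1.trans f0.symm),
      hg.inj j 0 hj (Nat.zero_le _) ((h.symm.trans h1).trans g0.symm)⟩
  · right
    exact ⟨hf.inj i n hi le_rfl (h1.trans fn.symm),
      hg.inj j m hj le_rfl ((h.symm.trans h1).trans gm.symm)⟩

private theorem th2A_pos {f : ℕ → V} {n : ℕ} {s t : V} (hst : s ≠ t) (f0 : f 0 = s) (fn : f n = t) :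
    1 ≤ n := by
  rcases Nat.eq_zero_or_pos n with h | h
  · subst h
    exact absurd (f0.symm.trans fn) hst
  · exact h

/-- construction of a theta from three exact paths with common ends and otherwise disjoint -/
theorem ThL.mk {S0 S1 S2 : Finset V} {s t : V} {l0 l1 l2 : ℕ} (hst : s ≠ t) (h0 : PX G S0 s t l0)
    (h1 : PX G S1 s t l1) (h2 : PX G S2 s t l2) (m01 : ∀ x ∈ S0, x ∈ S1 → x = s ∨ x = t)
    (m02 : ∀ x ∈ S0, x ∈ S2 → x = s ∨ x = t) (m12 : ∀ x ∈ S1, x ∈ S2 → x = s ∨ x = t)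
    (c01 : 3 ≤ l0 + l1) (c02 : 3 ≤ l0 + l2) (c12 : 3 ≤ l1 + l2) :
    ThL G (S0 ∪ S1 ∪ S2) l0 l1 l2 := by
  obtain ⟨f0, p0, a0, b0, e0⟩ := h0.toPF
  obtain ⟨f1, p1, a1, b1, e1⟩ := h1.toPF
  obtain ⟨f2, p2, a2, b2, e2⟩ := h2.toPF
  subst e0
  subst e1
  subst e2
  exact ⟨f0, f1, f2,
    { p0 := p0
      p1 := p1
      p2 := p2
      s1 := a1.trans a0.symm
      s2 := a2.trans a0.symm
      t1 := b1.trans b0.symm
      t2 := b2.trans b0.symm
      d01 := th2A_d p0 p1 a0 b0 a1 b1 m01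
      d02 := th2A_d p0 p2 a0 b0 a2 b2 m02
      d12 := th2A_d p1 p2 a1 b1 a2 b2 m12
      pos0 := th2A_pos hst a0 b0
      pos1 := th2A_pos hst a1 b1
      pos2 := th2A_pos hst a2 b2
      c01 := c01
      c02 := c02
      c12 := c12
      cov := rfl }⟩


end Pool.Agent.Lib.MP_f599e5_co
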