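import Pool.Agent.Lib.MP_f599e5_co.K2
import Pool.Agent.Lib.MP_f599e5_co.Th2A

set_option autoImplicit false
set_option linter.unusedSectionVars false

/-!
# JOB K6: the block contains a theta (longest path)

`B` has an edge (a vertex `≠ c` has `≥ k ≥ 3` neighbours in `B`).  Choose `n` maximal such that `∃ u v, PL G B u v n` (`PL.card_le`: `n + 1 ≤ B.card`; `n ≥ 1`).
As `u ≠ v`, one of the ends is `≠ c`; by `PL.symm` we may assume `u ≠ c`.  `PL.toPF`: `f` with `PF G f n`, `f 0 = u`, `f i ∈ B` for `i ≤ n`.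
Every neighbour `x ∈ B` of `u` is some `f i` with `1 ≤ i ≤ n`: otherwise `x ∉ cseg f 0 n` and `PL.cons` (with the path on `cseg f 0 n`) gives a path of length `n + 1`
in `B`.  So `nb G u B ⊆ (Icc 1 n).image f`, and it has `≥ 3` elements; at most one of the indices is `1`, so there are indices `2 ≤ i < j ≤ n` with
`f i, f j` adjacent to `f 0`.
Theta with branch vertices `f 0`, `f i`: paths `{f 0, f i}` (`PX.edge`, length 1), `cseg f 0 i` (length `i`), `{f 0} ∪ cseg f i j` (from `f 0` to `f j` and back to `f i`, length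
`1 + (j - i)`; `PX.trans` of `PX.edge` and `(PF.toPX ..).symm`).  `ThL.mk`; pairwise intersections only in `f 0`, `f i` by injectivity;
`1 + i ≥ 3`, `1 + (1 + (j-i)) ≥ 3`, `i + 1 + (j - i) ≥ 3`.
-/

namespace Pool.Agent.Lib.MP_f599e5_co

open Finset

variable {V : Type} [DecidableEq V] {G : SimpleGraph V}

private theorem K6_theta {B : Finset V} {f : ℕ → V} {n i j : ℕ} (hf : PF G f n) (hfB : ∀ a, a ≤ n → f a ∈ B)
    (hi2 : 2 ≤ i) (hij : i < j) (hjn : j ≤ n) (hai : G.Adj (f 0) (f i)) (haj : G.Adj (f 0) (f j)) :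
    ∃ F, F ⊆ B ∧ ∃ l0 l1 l2, ThL G F l0 l1 l2 := by
  have hinj : ∀ a b, a ≤ n → b ≤ n → f a = f b → a = b := hf.inj
  have p0 : PX G {f 0, f i} (f 0) (f i) 1 := PX.edge hai
  have p1 : PX G (cseg f 0 i) (f 0) (f i) (i - 0) := hf.toPX (Nat.zero_le i) (by omega)
  have p2 : PX G ({f 0, f j} ∪ cseg f i j) (f 0) (f i) (1 + (j - i)) := by
    refine PX.trans (PX.edge haj) (hf.toPX hij.le hjn).symm ?_
    intro x hx hx'
    rw [mem_insert, mem_singleton] at hx
    rw [mem_cseg] at hx'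
    obtain ⟨a, h1, h2, he⟩ := hx'
    rcases hx with hx | hx
    · have := hinj a 0 (by omega) (by omega) (he.trans hx)
      omega
    · exact hx
  refine ⟨_, ?_, _, _, _, ThL.mk (fun h => ?_) p0 p1 p2 ?_ ?_ ?_ (by omega) (by omega) (by omega)⟩
  · intro x hx
    simp only [mem_union, mem_insert, mem_singleton, mem_cseg] at hx
    rcases hx with ((rfl | rfl) | ⟨a, h1, h2, rfl⟩) | ((rfl | rfl) | ⟨a, h1, h2, rfl⟩) <;>
      exact hfB _ (by omega)
  · have := hinj 0 i (by omega) (by omega) h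
    omega
  · intro x hx _
    rw [mem_insert, mem_singleton] at hx
    exact hx
  · intro x hx _
    rw [mem_insert, mem_singleton] at hx
    exact hx
  · intro x hx hx'
    rw [mem_cseg] at hx
    obtain ⟨a, h1, h2, he⟩ := hx
    simp only [mem_union, mem_insert, mem_singleton, mem_cseg] at hx'
    rcases hx' with (hx' | hx') | ⟨b, h3, h4, hb⟩
    · exact Or.inl hx'
    · have := hinj a j (by omega) (by omega) (he.trans hx')
      omega
    · have := hinj a b (by omega) (by omega) (he.trans hb.symm)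
      have hai : a = i := by omega
      exact Or.inr (by rw [← he, hai])

theorem Blk.exists_theta {k : ℕ} {B : Finset V} {c : V} (hB : Blk G k B c) (hk : 3 ≤ k) :
    ∃ F, F ⊆ B ∧ ∃ l0 l1 l2, ThL G F l0 l1 l2 := by
  classical
  obtain ⟨v, hv, hvc⟩ := hB.ne
  have hdv := hB.deg v hv hvc
  obtain ⟨w, hw⟩ : (nb G v B).Nonempty := card_pos.1 (by omega)
  obtain ⟨hwB, hvw⟩ := mem_nb.1 hw
  have hP1 : ∃ u v, PL G B u v 1 := ⟨v, w, PL.edge hvw hv hwB⟩
  have hle : ∀ n, (∃ u v, PL G B u v n) → n ≤ B.card := by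
    rintro n ⟨u, v, h⟩
    have := h.card_le
    omega
  obtain ⟨n, hn, hmax⟩ : ∃ n, (∃ u v, PL G B u v n) ∧ ∀ m, (∃ u v, PL G B u v m) → m ≤ n :=
    ⟨Nat.findGreatest (fun n => ∃ u v, PL G B u v n) B.card,
      Nat.findGreatest_spec (P := fun n => ∃ u v, PL G B u v n) (hle 1 hP1) hP1,
      fun m hm => Nat.le_findGreatest (hle m hm) hm⟩
  have hn1 : 1 ≤ n := hmax 1 hP1
  obtain ⟨u0, v0, hp0⟩ := hn
  obtain ⟨u, v', huc, hp⟩ : ∃ u v', u ≠ c ∧ PL G B u v' n := by
    by_cases h : u0 = c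
    · refine ⟨v0, u0, ?_, hp0.symm⟩
      rintro rfl
      obtain ⟨f, hf, h0, hn', _⟩ := hp0.toPF
      have := hf.inj 0 n (by omega) le_rfl (by rw [h0, hn']; exact h)
      omega
    · exact ⟨u0, v0, h, hp0⟩
  obtain ⟨f, hf, h0, hfn, hfB⟩ := hp.toPF
  have hnb : ∀ x ∈ nb G u B, ∃ i, 1 ≤ i ∧ i ≤ n ∧ f i = x := by
    intro x hx
    obtain ⟨hxB, hux⟩ := mem_nb.1 hx
    by_contra hno
    push Not at hno
    have hx' : x ∉ cseg f 0 n := by
      rw [mem_cseg]
      rintro ⟨i, _, hi, he⟩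
      rcases Nat.eq_zero_or_pos i with rfl | h
      · rw [h0] at he
        exact hux.ne he
      · exact hno i h hi he
    have h1 := (hf.toPX (Nat.zero_le n) le_rfl).1
    have h2 := PL.cons (G := G) (u := x) (w := f 0) (by rw [h0]; exact hux.symm) h1 hx'
    have h3 := hmax (n - 0 + 1) ⟨x, f n, h2.mono (by
      intro y hy
      rcases mem_insert.1 hy with rfl | hy
      · exact hxB
      · obtain ⟨i, _, hi, rfl⟩ := mem_cseg.1 hy
        exact hfB i hi)⟩
    omega
  have huB : u ∈ B := hp.left_mem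
  have hdu := hB.deg u huB huc
  have hI : 1 < ((Icc 2 n).filter (fun i => G.Adj (f 0) (f i))).card := by
    have hsub : nb G u B ⊆ insert (f 1) (((Icc 2 n).filter (fun i => G.Adj (f 0) (f i))).image f) := by
      intro x hx
      obtain ⟨i, h1, h2, rfl⟩ := hnb x hx
      rw [mem_insert]
      by_cases h : i = 1
      · exact Or.inl (by rw [h])
      · refine Or.inr (mem_image.2 ⟨i, mem_filter.2 ⟨mem_Icc.2 ⟨by omega, h2⟩, ?_⟩, rfl⟩)
        rw [h0]
        exact (mem_nb.1 hx).2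
    have := (card_le_card hsub).trans ((card_insert_le _ _).trans (Nat.add_le_add_right card_image_le 1))
    omega
  obtain ⟨i, hi, j, hj, hij⟩ := one_lt_card.1 hI
  rw [mem_filter, mem_Icc] at hi hj
  rcases Nat.lt_or_gt_of_ne hij with h | h
  · exact K6_theta hf hfB hi.1.1 h hj.1.2 hi.2 hj.2
  · exact K6_theta hf hfB hj.1.1 h hi.1.2 hj.2 hi.2

end Pool.Agent.Lib.MP_f599e5_co
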