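import Pool.Agent.Lib.MP_f599e5_co.O3B

set_option autoImplicit false
set_option linter.unusedSectionVars false

/-!
# JOB O3C: `k` odd, `k ≥ 7` (3.3): conclusion

By contradiction `hz : ¬ ZC k G`; `exists_short`: `f, g`, `F = cyv f g`.  `UF G B F`: `short_one`, `CF.card` (`5 ≤ g`), connected: `F` is connected because `F.erase w` is connected for all `w` (`CF.twoC`) -
take two vertices and a third one, or directly `PF.conn_cseg` (Th1C) for `cyv f g = cseg f 0 (g-1)`.  `hdeg`: `short_nb`, `k ≥ 7`.  So `lemU` applies: for `x ≠ y` in `F`, both `≠ c`, there is `D` with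
`Disjoint D F`, `Adm G (k-2) D {x} {y}`.
For `1 ≤ a`, `2 a ≤ g` there are `i < j < g` with `j - i = a`, `f i ≠ c`, `f j ≠ c`: for `a = 1` one of the pairs `(0,1)`, `(2,3)`; for `a ≥ 2` one of the pairs `(0,a)`, `(1,a+1)` (`a + 1 < g` since `2a ≤ g`, `g ≥ 5`); the four indices are
different, `f` is injective on `{0..g-1}`, so `c` is in at most one pair.  `CF.paths`: paths in `F` of lengths `a` and `g - a`; `adm_res` and `arith7`.  `final7` gives the contradiction.
-/

namespace Pool.Agent.Lib.MP_f599e5_co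

open Finset

variable {V : Type} [DecidableEq V] {G : SimpleGraph V}

private theorem o3c_pair {f : ℕ → V} {g a : ℕ} (c : V) (h : CF G f g) (hg : 5 ≤ g) (ha : 1 ≤ a) (ha2 : 2 * a ≤ g) :
    ∃ i j : ℕ, i < j ∧ j < g ∧ j - i = a ∧ f i ≠ c ∧ f j ≠ c := by
  have hinj : ∀ i j : ℕ, i < g → j < g → f i = c → f j = c → i = j := by
    intro i j hi hj h1 h2
    exact h.pf.inj i j (by omega) (by omega) (h1.trans h2.symm)
  rcases Nat.eq_or_lt_of_le ha with h1 | h1
  · by_cases h2 : f 0 ≠ c ∧ f 1 ≠ c
    · exact ⟨0, 1, by omega, by omega, by omega, h2.1, h2.2⟩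
    · refine ⟨2, 3, by omega, by omega, by omega, fun h3 => ?_, fun h3 => ?_⟩
      · apply h2
        refine ⟨fun h4 => ?_, fun h4 => ?_⟩
        · have := hinj 0 2 (by omega) (by omega) h4 h3
          omega
        · have := hinj 1 2 (by omega) (by omega) h4 h3
          omega
      · apply h2
        refine ⟨fun h4 => ?_, fun h4 => ?_⟩
        · have := hinj 0 3 (by omega) (by omega) h4 h3
          omega
        · have := hinj 1 3 (by omega) (by omega) h4 h3
          omega
  · by_cases h2 : f 0 ≠ c ∧ f a ≠ c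
    · exact ⟨0, a, by omega, by omega, by omega, h2.1, h2.2⟩
    · refine ⟨1, a + 1, by omega, by omega, by omega, fun h3 => ?_, fun h3 => ?_⟩
      · apply h2
        refine ⟨fun h4 => ?_, fun h4 => ?_⟩
        · have := hinj 0 1 (by omega) (by omega) h4 h3
          omega
        · have := hinj a 1 (by omega) (by omega) h4 h3
          omega
      · apply h2
        refine ⟨fun h4 => ?_, fun h4 => ?_⟩
        · have := hinj 0 (a + 1) (by omega) (by omega) h4 h3
          omega
        · have := hinj a (a + 1) (by omega) (by omega) h4 h3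
          omega

theorem block_odd7 {k : ℕ} {B : Finset V} {c : V} (hk : Odd k) (hk7 : 7 ≤ k) (hB : Blk G k B c) : ZC k G := by
  by_contra hz
  obtain ⟨f, g, hf, hFB, hg, hmin⟩ := exists_short hB hk (by omega) hz
  have hU : UF G B (cyv f g) :=
    { FB := hFB
      card := by rw [hf.card]; exact hg
      one := fun x hx hxF => short_one hf hFB hg hmin hx hxF
      conn := PF.conn_cseg hf.pf (Nat.zero_le _) le_rfl }
  have hdeg : ∀ x ∈ cyv f g, x ≠ c → (nb G x (cyv f g)).card + 2 ≤ k := by
    intro x hx _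
    have := short_nb hf hFB hg hmin hx
    omega
  have hlem := lemU hB hk (by omega) hz hU hf.twoC hdeg
  refine final7 hk7 hg (fun a ha1 ha2 => ?_)
  obtain ⟨i, j, hij, hj, hji, hic, hjc⟩ := o3c_pair c hf hg ha1 ha2
  have hi' : f i ∈ cyv f g := (mem_cyv (by omega)).2 ⟨i, by omega, rfl⟩
  have hj' : f j ∈ cyv f g := (mem_cyv (by omega)).2 ⟨j, hj, rfl⟩
  have hne : f i ≠ f j := by
    intro h
    have := hf.pf.inj i j (by omega) (by omega) h
    omega
  obtain ⟨D, hDF, hA⟩ := hlem (f i) hi' (f j) hj' hic hjc hne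
  obtain ⟨d, hd, l, hl⟩ := adm_res hz hDF hi' hj' hne hA
  obtain ⟨p1, p2⟩ := hf.paths hij hj
  rw [hji] at p1 p2
  exact arith7 hk hk7 hd (by omega) (hl a p1) (hl (g - a) p2)


end Pool.Agent.Lib.MP_f599e5_co
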