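import Pool.Agent.Lib.MP_f599e5_co.O4H
import Pool.Agent.Lib.MP_f599e5_co.O3C

set_option autoImplicit false
set_option linter.unusedSectionVars false

/-!
# O5: odd `k ≥ 5`
-/

namespace Pool.Agent.Lib.MP_f599e5_co

open Finset

variable {V : Type} [DecidableEq V] {G : SimpleGraph V}

theorem block_odd5 {k : ℕ} {B : Finset V} {c : V} (hk : Odd k) (hk5 : 5 ≤ k) (hB : Blk G k B c) : ZC k G := by
  rcases Nat.lt_or_ge k 7 with h | h
  · have h5 : k = 5 := by
      obtain ⟨r, hr⟩ := hk
      omega
    subst h5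
    exact block_five hB
  · exact block_odd7 hk h hB


end Pool.Agent.Lib.MP_f599e5_co
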