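import Pool.Agent.Lib.MP_f599e5_co.TSep

set_option autoImplicit false
set_option linter.unusedSectionVars false

/-! # TC4: no cycle of length 4 in the block (k = 3)

JOB TC4.  Write `T(x,y) = nb G x B ∩ nb G y B` for `x ≠ y` in `B` (common neighbours).  Suppose some `(T x y).card ≥ 2` (a 4-cycle as in `NoC4`) and choose `a1 ≠ a2` in `B` with
`b = (T a1 a2).card` maximum (`B ×ˢ B` is finite), `b ≥ 2`.  `A = {a1, a2}`, `T = T(a1,a2)`, `F = A ∪ T ⊆ B`.
There is no triangle in `G` (it would be a cycle of length 3; `PL.cycle` with an edge and a path of length 2).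
(a) `a1` is not adjacent to `a2`, the elements of `T` are pairwise non adjacent (triangles).  So the neighbours in `F` of `t ∈ T` are `a1, a2`, those of `a_i` are the elements of `T`;
    `A` and `T` are disjoint.
(b) Every `x ∈ B \ F` has at most one neighbour in `F`.  Not both `a1, a2` (then `x ∈ T`).  Not two elements `t1 ≠ t2` of `T`: if `b ≥ 3` take a third `t3`: the cycle
    `a1 t1 x t2 a2 t3` has length 6, so `ZC 3`; if `b = 2` then `T(t1,t2)` contains `a1, a2, x`, contradicting the maximality of `b`.  Not `a_i` and `t_j`: triangle.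
(c) There is a vertex `y ∈ B \ F`, `y ≠ c`: let `t ∈ T`, `t ≠ c` (`b ≥ 2`); it has 3 neighbours in `B`, two of them in `F`, so a neighbour `y ∉ F`.  If `y ≠ c` fine.  If `y = c` for every
    `t ∈ T \ {c}`: `c ∉ F`, so two different `t1, t2 ∈ T` are both adjacent to `c ∈ B \ F`, contradicting (b).
    Let `D` be the component of `B \ F` containing `y` (`exists_comp`).
(d) If `D` is adjacent to `A` and to `T`: `ears3` with `R1 = A`, `R2 = T` (`hone` by (b)) gives `Adm G 2 D A T`; `Links G F A T 1 2 2`: for `a ∈ A`, `t ∈ T` the edge (length 1) and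
    `a, t', a', t` with `a'` the other element of `A` and `t' ≠ t` in `T` (length 3).  `close3`.
(e) If `D` is not adjacent to `A`: `bd G B D ⊆ T`.  It has at least 3 elements: otherwise `sep2_three` with `S = bd G B D`, `C = D` gives `B \ (D ∪ S) ⊆ {c}`, but `a1, a2` are in it.
    Let `t1 ∈ bd G B D`, `R1 = {t1}`, `R2 = T.erase t1` (adjacent to `D` since the boundary has another element).  `ears3`: `Adm G 2 D R1 R2`.  `b ≥ 3`.  `Links G F R1 R2 2 2 2`: `t1 a1 t'`
    (length 2) and `t1 a1 t'' a2 t'` (length 4) with `t''` different from `t1, t'`.  `close3`.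
(f) If `D` is not adjacent to `T`: `bd G B D ⊆ A` has at most 2 elements, `sep2_three` gives `B \ (D ∪ A) ⊆ {c}`, but `T` has two elements.
(`bd G B D`: a neighbour in `B` of `D` outside `D` is in `F`, `nbr_of_closed`.) -/

namespace Pool.Agent.Lib.MP_f599e5_co

open Finset

variable {V : Type} [DecidableEq V] {G : SimpleGraph V}

private theorem tc4_p1 {u v : V} (h : G.Adj u v) : PL G {u, v} u v 1 :=
  PL.edge h (mem_insert_self _ _) (mem_insert_of_mem (mem_singleton_self _))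

private theorem tc4_p2 {u v w : V} (h1 : G.Adj u v) (h2 : G.Adj v w) (huw : u ≠ w) :
    PL G {u, v, w} u w 2 := by
  refine PL.cons h1 (tc4_p1 h2) ?_
  simp only [mem_insert, mem_singleton, not_or]
  exact ⟨h1.ne, huw⟩

private theorem tc4_p3 {u v w z : V} (h1 : G.Adj u v) (h2 : G.Adj v w) (h3 : G.Adj w z)
    (huw : u ≠ w) (huz : u ≠ z) (hvz : v ≠ z) : PL G {u, v, w, z} u z 3 := by
  refine PL.cons h1 (tc4_p2 h2 h3 hvz) ?_
  simp only [mem_insert, mem_singleton, not_or]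
  exact ⟨h1.ne, huw, huz⟩

private theorem tc4_p4 {u v w z y : V} (h1 : G.Adj u v) (h2 : G.Adj v w) (h3 : G.Adj w z)
    (h4 : G.Adj z y) (huw : u ≠ w) (huz : u ≠ z) (huy : u ≠ y) (hvz : v ≠ z) (hvy : v ≠ y)
    (hwy : w ≠ y) : PL G {u, v, w, z, y} u y 4 := by
  refine PL.cons h1 (tc4_p3 h2 h3 h4 hvz hvy hwy) ?_
  simp only [mem_insert, mem_singleton, not_or]
  exact ⟨h1.ne, huw, huz, huy⟩

private theorem tc4_tri (hz : ¬ ZC 3 G) {x y z : V} (h1 : G.Adj x y) (h2 : G.Adj y z)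
    (h3 : G.Adj x z) : False := by
  have h4 : CycS G ({x, y, z} ∪ {x, z}) (2 + 1) := by
    refine PL.cycle (tc4_p2 h1 h2 h3.ne) (tc4_p1 h3) ?_ h3.ne (by norm_num)
    intro w _ hw
    simpa only [mem_insert, mem_singleton] using hw
  exact hz (h4.zc (by norm_num))

private theorem tc4_six (hz : ¬ ZC 3 G) {a1 t1 x t2 a2 t3 : V} (h1 : G.Adj a1 t1)
    (h2 : G.Adj t1 x) (h3 : G.Adj x t2) (h4 : G.Adj a2 t2) (h5 : G.Adj a2 t3) (h6 : G.Adj a1 t3)
    (d1 : a1 ≠ x) (d2 : a1 ≠ t2) (d3 : t1 ≠ t2) (d4 : a1 ≠ a2) (d5 : t3 ≠ t2) (d6 : t1 ≠ t3)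
    (d7 : t1 ≠ a2) (d8 : x ≠ t3) (d9 : x ≠ a2) : False := by
  have e1 : PL G {a1, t1, x, t2} a1 t2 3 := tc4_p3 h1 h2 h3 d1 d2 d3
  have e2 : PL G {a1, t3, a2, t2} a1 t2 3 := tc4_p3 h6 h5.symm h4 d4 d2 d5
  have h7 : CycS G ({a1, t1, x, t2} ∪ {a1, t3, a2, t2}) (3 + 3) := by
    refine PL.cycle e1 e2 ?_ d2 (by norm_num)
    intro w hw1 hw2
    simp only [mem_insert, mem_singleton] at hw1 hw2
    rcases hw1 with rfl | rfl | rfl | rfl
    · exact Or.inl rfl
    · rcases hw2 with h | h | h | h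
      · exact Or.inl h
      · exact absurd h d6
      · exact absurd h d7
      · exact Or.inr h
    · rcases hw2 with h | h | h | h
      · exact Or.inl h
      · exact absurd h d8
      · exact absurd h d9
      · exact Or.inr h
    · exact Or.inr rfl
  exact hz (h7.zc (by norm_num))

private theorem tc4_third {T : Finset V} (hT : 3 ≤ T.card) (u v : V) :
    ∃ w ∈ T, w ≠ u ∧ w ≠ v := by
  have h1 : ¬ T ⊆ {u, v} := by
    intro h
    have h2 := card_le_card h
    have h3 : ({u, v} : Finset V).card ≤ 2 := card_le_two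
    omega
  rw [not_subset] at h1
  obtain ⟨w, hw, hw2⟩ := h1
  rw [mem_insert, mem_singleton, not_or] at hw2
  exact ⟨w, hw, hw2⟩

theorem no_C4 {B : Finset V} {c : V} (hB : Blk G 3 B c) (hz : ¬ ZC 3 G) : NoC4 G B := by
  intro x0 y0 u0 v0 hx0 hy0 hu0 hv0 hxy0 huv0 g1 g2 g3 g4
  -- the maximal pair
  obtain ⟨⟨a1, a2⟩, hs, hmax⟩ := exists_max_image ((B ×ˢ B).filter fun p => p.1 ≠ p.2)
    (fun p => (nb G p.1 B ∩ nb G p.2 B).card)
    ⟨(x0, y0), mem_filter.mpr ⟨mem_product.mpr ⟨hx0, hy0⟩, hxy0⟩⟩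
  rw [mem_filter, mem_product] at hs
  obtain ⟨⟨ha1, ha2⟩, ha12⟩ := hs
  change a1 ∈ B at ha1
  change a2 ∈ B at ha2
  change a1 ≠ a2 at ha12
  set T : Finset V := nb G a1 B ∩ nb G a2 B with hTdef
  have hT : ∀ t, t ∈ T ↔ t ∈ B ∧ G.Adj a1 t ∧ G.Adj a2 t := by
    intro t
    rw [hTdef, mem_inter, mem_nb, mem_nb]
    tauto
  have hmax' : ∀ u v, u ∈ B → v ∈ B → u ≠ v → (nb G u B ∩ nb G v B).card ≤ T.card :=
    fun u v hu hv huv => hmax (u, v) (mem_filter.mpr ⟨mem_product.mpr ⟨hu, hv⟩, huv⟩)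
  have hb2 : 2 ≤ T.card := by
    refine le_trans ?_ (hmax' x0 y0 hx0 hy0 hxy0)
    have h1 : ({u0, v0} : Finset V) ⊆ nb G x0 B ∩ nb G y0 B := by
      intro w hw
      rw [mem_insert, mem_singleton] at hw
      rw [mem_inter, mem_nb, mem_nb]
      rcases hw with rfl | rfl
      · exact ⟨⟨hu0, g1⟩, ⟨hu0, g3⟩⟩
      · exact ⟨⟨hv0, g2⟩, ⟨hv0, g4⟩⟩
    have h2 := card_le_card h1
    rwa [card_pair huv0] at h2
  -- (a)
  have ha1T : a1 ∉ T := fun h => G.irrefl ((hT a1).mp h).2.1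
  have ha2T : a2 ∉ T := fun h => G.irrefl ((hT a2).mp h).2.2
  have hTT : ∀ t ∈ T, ∀ t' ∈ T, ¬ G.Adj t t' := fun t ht t' ht' h =>
    tc4_tri hz ((hT t).mp ht).2.1 h ((hT t').mp ht').2.1
  set A : Finset V := {a1, a2} with hA
  set F : Finset V := A ∪ T with hF
  have hmA : ∀ w, w ∈ A ↔ w = a1 ∨ w = a2 := by
    intro w
    rw [hA, mem_insert, mem_singleton]
  have hmF : ∀ w, w ∈ F ↔ w ∈ A ∨ w ∈ T := fun w => mem_union
  have hAT : ∀ a ∈ A, ∀ t ∈ T, G.Adj a t := by
    intro a ha t ht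
    rcases (hmA a).mp ha with rfl | rfl
    · exact ((hT t).mp ht).2.1
    · exact ((hT t).mp ht).2.2
  have hAB : A ⊆ B := by
    intro a ha
    rcases (hmA a).mp ha with rfl | rfl
    · exact ha1
    · exact ha2
  have hTB : T ⊆ B := fun t ht => ((hT t).mp ht).1
  have hFB : F ⊆ B := union_subset hAB hTB
  have hAF : A ⊆ F := subset_union_left
  have hTF : T ⊆ F := subset_union_right
  have hdAT : Disjoint A T := by
    rw [disjoint_left]
    intro a ha
    rcases (hmA a).mp ha with rfl | rfl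
    · exact ha1T
    · exact ha2T
  have ha1A : a1 ∈ A := (hmA _).mpr (Or.inl rfl)
  have ha2A : a2 ∈ A := (hmA _).mpr (Or.inr rfl)
  obtain ⟨p, hp, q, hq, hpq⟩ := one_lt_card.mp (show 1 < T.card by omega)
  -- (b)
  have hone : ∀ x ∈ B, x ∉ F → (nb G x F).card ≤ 1 := by
    intro x hxB hxF
    have hxA : x ∉ A := fun h => hxF (hAF h)
    have hxT : x ∉ T := fun h => hxF (hTF h)
    have hxa1 : x ≠ a1 := fun h => hxA (h ▸ ha1A)
    have hxa2 : x ≠ a2 := fun h => hxA (h ▸ ha2A)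
    rw [card_le_one]
    intro u hu v hv
    rw [mem_nb] at hu hv
    by_contra huv
    rcases (hmF u).mp hu.1 with hu1 | hu1 <;> rcases (hmF v).mp hv.1 with hv1 | hv1
    · rcases (hmA u).mp hu1 with rfl | rfl <;> rcases (hmA v).mp hv1 with rfl | rfl
      · exact huv rfl
      · exact hxT ((hT x).mpr ⟨hxB, hu.2.symm, hv.2.symm⟩)
      · exact hxT ((hT x).mpr ⟨hxB, hv.2.symm, hu.2.symm⟩)
      · exact huv rfl
    · exact tc4_tri hz hu.2 (hAT u hu1 v hv1) hv.2
    · exact tc4_tri hz hv.2 (hAT v hv1 u hu1) hu.2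
    · by_cases hb3 : 3 ≤ T.card
      · obtain ⟨w, hw, hwu, hwv⟩ := tc4_third hb3 u v
        have d7 : u ≠ a2 := fun h => ha2T (h ▸ hu1)
        have d2 : a1 ≠ v := fun h => ha1T (h ▸ hv1)
        have d8 : x ≠ w := fun h => hxT (h ▸ hw)
        exact tc4_six hz (hAT a1 ha1A u hu1) hu.2.symm hv.2 (hAT a2 ha2A v hv1)
          (hAT a2 ha2A w hw) (hAT a1 ha1A w hw) hxa1.symm d2 huv ha12 hwv hwu.symm d7 d8 hxa2
      · have h1 := hmax' u v (hTB hu1) (hTB hv1) huv
        have h2 : ({x, a1, a2} : Finset V) ⊆ nb G u B ∩ nb G v B := by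
          intro w hw
          rw [mem_insert, mem_insert, mem_singleton] at hw
          rw [mem_inter, mem_nb, mem_nb]
          rcases hw with rfl | rfl | rfl
          · exact ⟨⟨hxB, hu.2.symm⟩, ⟨hxB, hv.2.symm⟩⟩
          · exact ⟨⟨ha1, (hAT _ ha1A u hu1).symm⟩, ⟨ha1, (hAT _ ha1A v hv1).symm⟩⟩
          · exact ⟨⟨ha2, (hAT _ ha2A u hu1).symm⟩, ⟨ha2, (hAT _ ha2A v hv1).symm⟩⟩
        have h3 := card_le_card h2
        have h4 : ({x, a1, a2} : Finset V).card = 3 := card_eq_three.mpr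
          ⟨x, a1, a2, hxa1, hxa2, ha12, rfl⟩
        omega
  -- (c)
  have hout : ∀ t ∈ T, t ≠ c → ∃ y ∈ B, y ∉ F ∧ G.Adj t y := by
    intro t ht htc
    have h1 := hB.deg t (hTB ht) htc
    have h2 : ¬ nb G t B ⊆ A := by
      intro h
      have h3 := card_le_card h
      have h4 : A.card ≤ 2 := card_le_two
      omega
    rw [not_subset] at h2
    obtain ⟨y, hy, hyA⟩ := h2
    rw [mem_nb] at hy
    refine ⟨y, hy.1, ?_, hy.2⟩
    intro hyF
    rcases (hmF y).mp hyF with h | h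
    · exact hyA h
    · exact hTT t ht y h hy.2
  obtain ⟨y, hyB, hyF, hyc⟩ : ∃ y ∈ B, y ∉ F ∧ y ≠ c := by
    by_contra hno
    have hno' : ∀ y ∈ B, y ∉ F → y = c := fun y h1 h2 => by
      by_contra h3
      exact hno ⟨y, h1, h2, h3⟩
    obtain ⟨t, ht, htc⟩ := exists_mem_ne (show 1 < T.card by omega) c
    obtain ⟨y, hyB, hyF, _⟩ := hout t ht htc
    have hyc := hno' y hyB hyF
    have hcF : c ∉ F := hyc ▸ hyF
    have hcB : c ∈ B := hyc ▸ hyB
    have hpc : p ≠ c := fun h => hcF (hTF (h ▸ hp))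
    have hqc : q ≠ c := fun h => hcF (hTF (h ▸ hq))
    obtain ⟨y1, k1, k2, k3⟩ := hout p hp hpc
    obtain ⟨y2, k4, k5, k6⟩ := hout q hq hqc
    rw [hno' y1 k1 k2] at k3
    rw [hno' y2 k4 k5] at k6
    have h1 := hone c hcB hcF
    rw [card_le_one] at h1
    exact hpq (h1 p (mem_nb.mpr ⟨hTF hp, k3.symm⟩) q (mem_nb.mpr ⟨hTF hq, k6.symm⟩))
  obtain ⟨D, hyD, hD⟩ := exists_comp (G := G) (D := B \ F) (v := y)
    (mem_sdiff.mpr ⟨hyB, hyF⟩)
  have hDB : ∀ v ∈ D, v ∈ B ∧ v ∉ F := fun v hv => mem_sdiff.mp (hD.1 hv)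
  have hFD : Disjoint F D := by
    rw [disjoint_left]
    exact fun w h1 h2 => (hDB w h2).2 h1
  have hDc : ∃ v ∈ D, v ≠ c := ⟨y, hyD, hyc⟩
  have hone' : ∀ v ∈ D, v ≠ c → (nb G v F).card ≤ 1 := fun v hv _ =>
    hone v (hDB v hv).1 (hDB v hv).2
  have hbd : ∀ w ∈ bd G B D, w ∈ F := by
    intro w hw
    rw [mem_bd] at hw
    obtain ⟨hwB, hwD, x, hx, hxw⟩ := hw
    rcases nbr_of_closed hD.1 hD.2.1 hx hwB hxw with h | h
    · exact absurd h hwD
    · exact h
  by_cases hDA : adjS G D A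
  · by_cases hDT : adjS G D T
    · -- (d)
      have hadm : Adm G 2 D A T := ears3 hB hFB hD hDc hAF hTF hdAT hDA hDT
        (fun v _ x hx _ => hx) hone'
      refine hz (close3 hFD hadm hAF hTF hdAT (le_refl 1) (Or.inr rfl) ?_)
      intro r1 hr1 r2 hr2 j hj
      have hr12 : G.Adj r1 r2 := hAT r1 hr1 r2 hr2
      interval_cases j
      · exact PL.edge hr12 (hAF hr1) (hTF hr2)
      · obtain ⟨t', ht', htr⟩ := exists_mem_ne (show 1 < T.card by omega) r2
        obtain ⟨a', ha', har⟩ : ∃ a' ∈ A, a' ≠ r1 := by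
          rcases (hmA r1).mp hr1 with rfl | rfl
          · exact ⟨a2, ha2A, ha12.symm⟩
          · exact ⟨a1, ha1A, ha12⟩
        have h1 : r1 ≠ r2 := hr12.ne
        have h2 : PL G {r1, t', a', r2} r1 r2 3 :=
          tc4_p3 (hAT r1 hr1 t' ht') (hAT a' ha' t' ht').symm (hAT a' ha' r2 hr2) har.symm h1 htr
        refine h2.mono ?_
        intro w hw
        simp only [mem_insert, mem_singleton] at hw
        rcases hw with rfl | rfl | rfl | rfl
        · exact hAF hr1
        · exact hTF ht'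
        · exact hAF ha'
        · exact hTF hr2
    · -- (f)
      have hbA : bd G B D ⊆ A := by
        intro w hw
        rcases (hmF w).mp (hbd w hw) with h | h
        · exact h
        · rw [mem_bd] at hw
          obtain ⟨_, _, x, hx, hxw⟩ := hw
          exact absurd ⟨x, hx, w, h, hxw⟩ hDT
      have hsep := sep2_three hB hz A D card_le_two
        (fun v hv => mem_sdiff.mpr ⟨(hDB v hv).1, fun h => (hDB v hv).2 (hAF h)⟩) hDc hbA
      have h1 : ∀ t ∈ T, t = c := by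
        intro t ht
        refine mem_singleton.mp (hsep (mem_sdiff.mpr ⟨hTB ht, ?_⟩))
        rw [mem_union, not_or]
        exact ⟨fun h => (hDB t h).2 (hTF ht), fun h => disjoint_left.mp hdAT h ht⟩
      exact hpq ((h1 p hp).trans (h1 q hq).symm)
  · -- (e)
    have hbT : bd G B D ⊆ T := by
      intro w hw
      rcases (hmF w).mp (hbd w hw) with h | h
      · rw [mem_bd] at hw
        obtain ⟨_, _, x, hx, hxw⟩ := hw
        exact absurd ⟨x, hx, w, h, hxw⟩ hDA
      · exact h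
    have hb3 : 3 ≤ (bd G B D).card := by
      by_contra hlt
      have hsep := sep2_three hB hz (bd G B D) D (by omega)
        (fun v hv => mem_sdiff.mpr ⟨(hDB v hv).1, fun h => (mem_bd.mp h).2.1 hv⟩) hDc
        (Subset.refl _)
      have h1 : ∀ a ∈ A, a = c := by
        intro a ha
        refine mem_singleton.mp (hsep (mem_sdiff.mpr ⟨hAB ha, ?_⟩))
        rw [mem_union, not_or]
        exact ⟨fun h => (hDB a h).2 (hAF ha), fun h => disjoint_left.mp hdAT ha (hbT h)⟩
      exact ha12 ((h1 a1 ha1A).trans (h1 a2 ha2A).symm)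
    have hT3 : 3 ≤ T.card := hb3.trans (card_le_card hbT)
    obtain ⟨t1, ht1, t2, ht2, ht12⟩ := one_lt_card.mp (show 1 < (bd G B D).card by omega)
    have ht1T := hbT ht1
    have hr1F : ({t1} : Finset V) ⊆ F := by
      rw [singleton_subset_iff]
      exact hTF ht1T
    have hr2F : T.erase t1 ⊆ F := (erase_subset _ _).trans hTF
    have hdis : Disjoint ({t1} : Finset V) (T.erase t1) := by
      rw [disjoint_singleton_left]
      exact notMem_erase _ _
    have k1 : adjS G D {t1} := by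
      obtain ⟨_, _, x, hx, hxw⟩ := mem_bd.mp ht1
      exact ⟨x, hx, t1, mem_singleton_self _, hxw⟩
    have k2 : adjS G D (T.erase t1) := by
      obtain ⟨_, _, x, hx, hxw⟩ := mem_bd.mp ht2
      exact ⟨x, hx, t2, mem_erase.mpr ⟨ht12.symm, hbT ht2⟩, hxw⟩
    have hX : ∀ v ∈ D, ∀ x ∈ F, G.Adj v x → x ∈ {t1} ∪ T.erase t1 := by
      intro v hv x hx hvx
      have hxT : x ∈ T := by
        rcases (hmF x).mp hx with h | h
        · exact absurd ⟨v, hv, x, h, hvx⟩ hDA
        · exact h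
      rw [mem_union, mem_singleton, mem_erase]
      by_cases h : x = t1
      · exact Or.inl h
      · exact Or.inr ⟨h, hxT⟩
    have hadm : Adm G 2 D {t1} (T.erase t1) :=
      ears3 hB hFB hD hDc hr1F hr2F hdis k1 k2 hX hone'
    refine hz (close3 hFD hadm hr1F hr2F hdis (show 1 ≤ 2 by norm_num) (Or.inr rfl) ?_)
    intro r1 hr1 r2 hr2 j hj
    rw [mem_singleton] at hr1
    subst hr1
    rw [mem_erase] at hr2
    have h1a := hAT a1 ha1A
    have h2a := hAT a2 ha2A
    interval_cases j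
    · have h2 : PL G {r1, a1, r2} r1 r2 2 :=
        tc4_p2 (h1a r1 ht1T).symm (h1a r2 hr2.2) hr2.1.symm
      refine h2.mono ?_
      intro w hw
      simp only [mem_insert, mem_singleton] at hw
      rcases hw with rfl | rfl | rfl
      · exact hTF ht1T
      · exact hAF ha1A
      · exact hTF hr2.2
    · obtain ⟨t', ht', htr1, htr2⟩ := tc4_third hT3 r1 r2
      have d1 : r1 ≠ a2 := fun h => ha2T (h ▸ ht1T)
      have d2 : a1 ≠ r2 := fun h => ha1T (h ▸ hr2.2)
      have h2 : PL G {r1, a1, t', a2, r2} r1 r2 4 :=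
        tc4_p4 (h1a r1 ht1T).symm (h1a t' ht') (h2a t' ht').symm (h2a r2 hr2.2) htr1.symm d1
          hr2.1.symm ha12 d2 htr2
      refine h2.mono ?_
      intro w hw
      simp only [mem_insert, mem_singleton] at hw
      rcases hw with rfl | rfl | rfl | rfl | rfl
      · exact hTF ht1T
      · exact hAF ha1A
      · exact hTF ht'
      · exact hAF ha2A
      · exact hTF hr2.2

end Pool.Agent.Lib.MP_f599e5_co
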