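import Pool.Agent.Lib.MP_f599e5_co.TDef

set_option autoImplicit false
set_option linter.unusedSectionVars false

/-! # TClose: closing a path through D in a theta

JOB TClose.  `D` is connected and disjoint from the theta, `x = f a` (`0 < a < l`) and `y = g b` (`0 < b < m`) are adjacent to `D` (`x ≠ y` by `T.fg`).
* `path_through`: `x ~ x'`, `y ~ y'` with `x', y' ∈ D`; `Conn.path` gives a path from `x'` to `y'` inside `D`; add `x` and `y` (`PL.cons`, `PL.snoc`): a path of length `q ≥ 2` inside `insert y (insert x D)`.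
* the four paths from `x` to `y` in the theta:  `f a … f 0 = g 0 … g b` (length `a + b`), `f a … f l = g m … g b` (length `(l - a) + (m - b)`), `f a … f 0 = h 0 … h n = g m … g b` (length `a + n + (m - b)`),
  `f a … f l = h n … h 0 = g 0 … g b` (length `(l - a) + n + b`): each by `PF.toPL` on images of intervals, `PL.symm`, `PL.trans` (the sets meet in one vertex by `T.fg, T.fh, T.gh`).  The second and fourth follow from the first and
  third applied to `T.rev` with `l - a`, `m - b`.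
* `PL.cycle` with the path through `D` (the sets meet only in `x, y`): a cycle of length `q + …`; if the length is divisible by 3 then `ZC 3` (`CycS.zc`). -/

namespace Pool.Agent.Lib.MP_f599e5_co

open Finset

variable {V : Type} [DecidableEq V] {G : SimpleGraph V}

theorem path_through {B D : Finset V} (hD : Conn G D) {x y : V} (hxy : x ≠ y)
    (hx : x ∈ bd G B D) (hy : y ∈ bd G B D) :
    ∃ q, 2 ≤ q ∧ PL G (insert y (insert x D)) x y q := by
  obtain ⟨-, hxD, x', hx', hxx'⟩ := mem_bd.1 hx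
  obtain ⟨-, hyD, y', hy', hyy'⟩ := mem_bd.1 hy
  obtain ⟨n, hn⟩ := hD.path hx' hy'
  have h1 : PL G (insert x D) x y' (n + 1) := PL.cons hxx'.symm hn hxD
  have hy2 : y ∉ insert x D := by
    rw [mem_insert, not_or]
    exact ⟨hxy.symm, hyD⟩
  exact ⟨n + 1 + 1, by omega, PL.snoc h1 hyy' hy2⟩

theorem tclose_13 {f g h : ℕ → V} {l m n : ℕ} (T : Th3 G f g h l m n) {a b : ℕ}
    (hal : a < l) (hb : 0 < b) (hbm : b < m) :
    PL G (thV f g h l m n) (f a) (g b) (a + b) ∧
    PL G (thV f g h l m n) (f a) (g b) (a + n + (m - b)) := by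
  have hS1 : PL G ((Icc 0 a).image f) (f 0) (f a) (a - 0) :=
    T.pf.toPL (Nat.zero_le a) hal.le (fun i hi hi' => mem_image_of_mem f (mem_Icc.2 ⟨hi, hi'⟩))
  have hS1' := hS1.symm
  rw [Nat.sub_zero] at hS1'
  have hS2 : PL G ((Icc 0 b).image g) (g 0) (g b) (b - 0) :=
    T.pg.toPL (Nat.zero_le b) hbm.le (fun i hi hi' => mem_image_of_mem g (mem_Icc.2 ⟨hi, hi'⟩))
  rw [Nat.sub_zero, T.g0] at hS2
  have hS3 : PL G ((Icc 0 n).image h) (h 0) (h n) (n - 0) :=
    T.ph.toPL (Nat.zero_le n) le_rfl (fun i hi hi' => mem_image_of_mem h (mem_Icc.2 ⟨hi, hi'⟩))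
  rw [Nat.sub_zero, T.h0, T.hn] at hS3
  have hS4 : PL G ((Icc b m).image g) (g b) (g m) (m - b) :=
    T.pg.toPL hbm.le le_rfl (fun i hi hi' => mem_image_of_mem g (mem_Icc.2 ⟨hi, hi'⟩))
  have hS4' := hS4.symm
  rw [T.gm] at hS4'
  constructor
  · refine (PL.trans hS1' hS2 ?_).mono ?_
    · intro x hx hx'
      obtain ⟨i, hi, rfl⟩ := mem_image.1 hx
      obtain ⟨j, hj, hij⟩ := mem_image.1 hx'
      rw [mem_Icc] at hi hj
      rcases T.fg i j (by omega) (by omega) hij.symm with h1 | h1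
      · rw [h1.1]
      · omega
    · intro x hx
      rcases mem_union.1 hx with hx | hx
      · obtain ⟨i, hi, rfl⟩ := mem_image.1 hx
        rw [mem_Icc] at hi
        exact mem_thV.2 (Or.inl ⟨i, by omega, rfl⟩)
      · obtain ⟨i, hi, rfl⟩ := mem_image.1 hx
        rw [mem_Icc] at hi
        exact mem_thV.2 (Or.inr (Or.inl ⟨i, by omega, rfl⟩))
  · refine (PL.trans (PL.trans hS1' hS3 ?_) hS4' ?_).mono ?_
    · intro x hx hx'
      obtain ⟨i, hi, rfl⟩ := mem_image.1 hx
      obtain ⟨j, hj, hij⟩ := mem_image.1 hx'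
      rw [mem_Icc] at hi hj
      rcases T.fh i j (by omega) (by omega) hij.symm with h1 | h1
      · rw [h1.1]
      · omega
    · intro x hx hx'
      obtain ⟨j, hj, rfl⟩ := mem_image.1 hx'
      rw [mem_Icc] at hj
      rcases mem_union.1 hx with hx | hx
      · obtain ⟨i, hi, hij⟩ := mem_image.1 hx
        rw [mem_Icc] at hi
        rcases T.fg i j (by omega) (by omega) hij with h1 | h1 <;> omega
      · obtain ⟨i, hi, hij⟩ := mem_image.1 hx
        rw [mem_Icc] at hi
        rcases T.gh j i (by omega) (by omega) hij.symm with h1 | h1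
        · omega
        · rw [h1.1, T.gm]
    · intro x hx
      rcases mem_union.1 hx with hx | hx
      · rcases mem_union.1 hx with hx | hx
        · obtain ⟨i, hi, rfl⟩ := mem_image.1 hx
          rw [mem_Icc] at hi
          exact mem_thV.2 (Or.inl ⟨i, by omega, rfl⟩)
        · obtain ⟨i, hi, rfl⟩ := mem_image.1 hx
          rw [mem_Icc] at hi
          exact mem_thV.2 (Or.inr (Or.inr ⟨i, by omega, rfl⟩))
      · obtain ⟨i, hi, rfl⟩ := mem_image.1 hx
        rw [mem_Icc] at hi
        exact mem_thV.2 (Or.inr (Or.inl ⟨i, by omega, rfl⟩))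

theorem Th3.four_paths {f g h : ℕ → V} {l m n : ℕ} (T : Th3 G f g h l m n) {a b : ℕ} (ha : 0 < a)
    (hal : a < l) (hb : 0 < b) (hbm : b < m) :
    PL G (thV f g h l m n) (f a) (g b) (a + b) ∧
    PL G (thV f g h l m n) (f a) (g b) ((l - a) + (m - b)) ∧
    PL G (thV f g h l m n) (f a) (g b) (a + n + (m - b)) ∧
    PL G (thV f g h l m n) (f a) (g b) ((l - a) + n + b) := by
  obtain ⟨h1, h3⟩ := tclose_13 T hal hb hbm
  obtain ⟨h2, h4⟩ := tclose_13 T.rev (a := l - a) (b := m - b) (by omega) (by omega) (by omega)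
  simp only [thV_rev] at h2 h4
  have e1 : l - (l - a) = a := by omega
  have e2 : m - (m - b) = b := by omega
  rw [e1, e2] at h2 h4
  exact ⟨h1, h2, h3, h4⟩

theorem theta_close {B D : Finset V} (hz : ¬ ZC 3 G) (hD : Conn G D) {f g h : ℕ → V} {l m n : ℕ}
    (T : Th3 G f g h l m n) (hT : thV f g h l m n ⊆ B \ D) {a b : ℕ} (ha : 0 < a) (hal : a < l)
    (hb : 0 < b) (hbm : b < m) (hfa : f a ∈ bd G B D) (hgb : g b ∈ bd G B D) :
    ∃ q : ℕ, ¬ 3 ∣ q + (a + b) ∧ ¬ 3 ∣ q + ((l - a) + (m - b)) ∧ ¬ 3 ∣ q + (a + n + (m - b)) ∧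
      ¬ 3 ∣ q + ((l - a) + n + b) := by
  have hne : f a ≠ g b := by
    intro he
    rcases T.fg a b hal.le hbm.le he with h1 | h1 <;> omega
  obtain ⟨q, hq, hP⟩ := path_through hD hne hfa hgb
  obtain ⟨h1, h2, h3, h4⟩ := T.four_paths ha hal hb hbm
  have key : ∀ L : ℕ, PL G (thV f g h l m n) (f a) (g b) L → ¬ 3 ∣ q + L := by
    intro L hL hdiv
    have hL1 := hL.pos hne
    have hcyc := PL.cycle hP hL (fun x hx hx' => by
      rw [mem_insert, mem_insert] at hx
      rcases hx with hx | hx | hx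
      · exact Or.inr hx
      · exact Or.inl hx
      · exact absurd hx (mem_sdiff.1 (hT hx')).2) hne (by omega)
    exact hz (hcyc.zc hdiv)
  exact ⟨q, key _ h1, key _ h2, key _ h3, key _ h4⟩

end Pool.Agent.Lib.MP_f599e5_co
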