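import Pool.Agent.Lib.MP_f599e5_co.TDef

set_option autoImplicit false
set_option linter.unusedSectionVars false

/-! # TCyc: cycles of a theta, and its size when there is no zero cycle and no cycle of length 4

JOB TCyc.
* `Th3.cyc`: `PL.cycle` for `f` (on `fV f l`) and `g` (on `fV g m`), by `PF.toPL` with `a = 0`, `b = l` (`f 0 ≠ f l` by injectivity).
* `cyc4`: `CycS.toF` gives `x0, x1, x2, x3` distinct with `x0 ~ x1 ~ x2 ~ x3 ~ x0`; `NoC4` with `x = x0, y = x2, a = x1, b = x3`.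
* `Th3.girth`: `l + m ≥ 3`; `l + m = 3` would give a cycle of length 3, so `ZC 3` (`CycS.zc`); `l + m = 4` contradicts `cyc4`; and
  `3 ∣ l + m` gives `ZC 3`.  The other two pairs by `T.swap23` and `T.swap12.swap23` or directly.
* `Th3.card_thV`: `thV.card = l + m + n - 1`: `fV f l` has `l + 1` elements (`PF.card_fV`), `fV g m \ fV f l` is the image of `(0,m)` under `g`
  (`m - 1` elements), `fV h n \ (fV f l ∪ fV g m)` the image of `(0,n)` under `h` (`n - 1` elements).  Only `≥` is needed: the three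
  sets `fV f l`, `g '' (0,m)`, `h '' (0,n)` are pairwise disjoint subsets.  With `Th3.girth`: `2 (l + m + n) ≥ 15`, so at least 7 vertices. -/

namespace Pool.Agent.Lib.MP_f599e5_co

open Finset

variable {V : Type} [DecidableEq V] {G : SimpleGraph V}

theorem Th3.cyc {f g h : ℕ → V} {l m n : ℕ} (T : Th3 G f g h l m n) :
    CycS G (fV f l ∪ fV g m) (l + m) := by
  have h1 : PL G (fV f l) (f 0) (f l) (l - 0) :=
    T.pf.toPL (Nat.zero_le l) le_rfl (fun i _ hi => mem_fV.2 ⟨i, hi, rfl⟩)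
  have h2 : PL G (fV g m) (g 0) (g m) (m - 0) :=
    T.pg.toPL (Nat.zero_le m) le_rfl (fun i _ hi => mem_fV.2 ⟨i, hi, rfl⟩)
  rw [Nat.sub_zero] at h1 h2
  rw [T.g0, T.gm] at h2
  refine h1.cycle h2 ?_ ?_ T.lm
  · intro x hx hx'
    obtain ⟨i, hi, rfl⟩ := mem_fV.1 hx
    obtain ⟨j, hj, he⟩ := mem_fV.1 hx'
    rcases T.fg i j hi hj he.symm with h | h
    · exact Or.inl (by rw [h.1])
    · exact Or.inr (by rw [h.1])
  · intro he
    have := T.pf.inj 0 l (Nat.zero_le l) le_rfl he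
    have := T.l1
    omega

theorem cyc4 {B S : Finset V} (hc : NoC4 G B) (hS : S ⊆ B) : ¬ CycS G S 4 := by
  intro hcyc
  obtain ⟨f, -, hf, hadj, hmem⟩ := hcyc.toF
  have h01 := hf.adj 0 (by omega)
  have h12 := hf.adj 1 (by omega)
  have h23 := hf.adj 2 (by omega)
  simp only [zero_add, Nat.reduceAdd, Nat.reduceSub] at h01 h12 h23 hadj hf
  refine hc (f 0) (f 2) (f 1) (f 3) (hS (hmem 0 (by omega))) (hS (hmem 2 (by omega)))
    (hS (hmem 1 (by omega))) (hS (hmem 3 (by omega))) ?_ ?_ h01 hadj.symm h12.symm h23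
  · intro he; have := hf.inj 0 2 (by omega) (by omega) he; omega
  · intro he; have := hf.inj 1 3 (by omega) (by omega) he; omega

private theorem tcyc_girth1 {f g h : ℕ → V} {l m n : ℕ} {B : Finset V} (T : Th3 G f g h l m n)
    (hz : ¬ ZC 3 G) (hc : NoC4 G B) (hB : thV f g h l m n ⊆ B) : 5 ≤ l + m ∧ ¬ 3 ∣ l + m := by
  have h1 := T.cyc
  have h2 : ¬ 3 ∣ l + m := fun h => hz (h1.zc h)
  have h3 : l + m ≠ 4 := by
    intro h4
    rw [h4] at h1
    refine cyc4 hc ?_ h1
    exact (subset_union_left.trans hB)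
  have h5 := T.lm
  refine ⟨?_, h2⟩
  have h6 : l + m ≠ 3 := fun h => h2 (by rw [h])
  omega

theorem Th3.girth {f g h : ℕ → V} {l m n : ℕ} {B : Finset V} (T : Th3 G f g h l m n)
    (hz : ¬ ZC 3 G) (hc : NoC4 G B) (hB : thV f g h l m n ⊆ B) :
    (5 ≤ l + m ∧ 5 ≤ l + n ∧ 5 ≤ m + n) ∧ ¬ 3 ∣ l + m ∧ ¬ 3 ∣ l + n ∧ ¬ 3 ∣ m + n := by
  have h1 := tcyc_girth1 T hz hc hB
  have h2 := tcyc_girth1 T.swap23 hz hc (by rw [thV_swap23]; exact hB)
  have h3 := tcyc_girth1 T.swap12.swap23 hz hc (by rw [thV_swap23, thV_swap12]; exact hB)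
  exact ⟨⟨h1.1, h2.1, h3.1⟩, h1.2, h2.2, h3.2⟩

private theorem tcyc_cardIoo {f : ℕ → V} {n : ℕ} (h : PF G f n) :
    ((Ioo 0 n).image f).card = n - 1 := by
  rw [card_image_of_injOn]
  · simp
  · intro i hi j hj he
    simp only [coe_Ioo, Set.mem_Ioo] at hi hj
    exact h.inj i j (by omega) (by omega) he

theorem Th3.card_thV {f g h : ℕ → V} {l m n : ℕ} (T : Th3 G f g h l m n) :
    l + m + n ≤ (thV f g h l m n).card + 1 := by
  have hd1 : Disjoint (fV f l) ((Ioo 0 m).image g) := by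
    rw [disjoint_left]
    intro x hx hx'
    obtain ⟨i, hi, rfl⟩ := mem_fV.1 hx
    obtain ⟨j, hj, he⟩ := mem_image.1 hx'
    rw [mem_Ioo] at hj
    have := T.fg i j hi (by omega) he.symm
    omega
  have hd2 : Disjoint (fV f l ∪ (Ioo 0 m).image g) ((Ioo 0 n).image h) := by
    rw [disjoint_left]
    intro x hx hx'
    obtain ⟨j, hj, he⟩ := mem_image.1 hx'
    rw [mem_Ioo] at hj
    rcases mem_union.1 hx with hx | hx
    · obtain ⟨i, hi, rfl⟩ := mem_fV.1 hx
      have := T.fh i j hi (by omega) he.symm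
      omega
    · obtain ⟨i, hi, rfl⟩ := mem_image.1 hx
      rw [mem_Ioo] at hi
      have := T.gh i j (by omega) (by omega) he.symm
      omega
  have hsub : (fV f l ∪ (Ioo 0 m).image g) ∪ (Ioo 0 n).image h ⊆ thV f g h l m n := by
    intro x hx
    rw [mem_thV]
    rcases mem_union.1 hx with hx | hx
    · rcases mem_union.1 hx with hx | hx
      · exact Or.inl (mem_fV.1 hx)
      · obtain ⟨i, hi, rfl⟩ := mem_image.1 hx
        rw [mem_Ioo] at hi
        exact Or.inr (Or.inl ⟨i, by omega, rfl⟩)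
    · obtain ⟨i, hi, rfl⟩ := mem_image.1 hx
      rw [mem_Ioo] at hi
      exact Or.inr (Or.inr ⟨i, by omega, rfl⟩)
  have hcard := card_le_card hsub
  rw [card_union_of_disjoint hd2, card_union_of_disjoint hd1, T.pf.card_fV,
    tcyc_cardIoo T.pg, tcyc_cardIoo T.ph] at hcard
  have := T.l1
  have := T.m1
  have := T.n1
  omega

end Pool.Agent.Lib.MP_f599e5_co
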