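import Pool.Agent.Lib.MP_f599e5_co.TE2

set_option autoImplicit false
set_option linter.unusedSectionVars false

/-! # TE3: the thetas of a K4 subdivision

JOB TE3.  `th_cross`: let `w` be different from the four branch vertices `f 0, f l, f i, g j`.
* `w` not in the theta `T`: `T` itself is in `X.erase w` (`Th3.isThB`, `IsTh`).
* `w = f k` (then `w` is not in `Q` by `hd`): if `k < i`: `th_cross_a` with `Y = X.erase w`, the hypothesis `hY`: a vertex `x` of the
  theta which is not an `f k'` with `0 < k' < i` is different from `w = f k` (`k ≠ 0` as `w ≠ f 0`).  If `k > i`: the same for the reversed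
  theta `T.rev` with indices `l - i`, `m - j` (`(fun i => f (l - i)) (l - i) = f i`; `thV_rev`); the open segment is
  `f (l - k')`, `0 < k' < l - i`.  (`k = i` is excluded.)
* `w = g k`: apply the previous case to `T.swap12` with `Q` reversed (`PL.symm`), indices `j, i`.
* `w = h k` (`0 < k < n` because `h 0 = f 0`, `h n = f l`): `thB_cross_ab` with `Y = X.erase w`; a vertex of the theta which is not of the
  form `h k'` with `0 < k' < n` is different from `w`. -/

namespace Pool.Agent.Lib.MP_f599e5_co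

open Finset

variable {V : Type} [DecidableEq V] {G : SimpleGraph V}

private theorem te3_Q {f g h : ℕ → V} {l m n : ℕ} {i j : ℕ} {Q : Finset V}
    (hd : ∀ x ∈ Q, x ∈ thV f g h l m n → x = f i ∨ x = g j) {X : Finset V} (hQX : Q ⊆ X) {w : V}
    (hw : w ∈ thV f g h l m n) (hi : w ≠ f i) (hj : w ≠ g j) : Q ⊆ X.erase w := by
  intro x hx
  refine mem_erase.2 ⟨?_, hQX hx⟩
  rintro rfl
  rcases hd x hx hw with h1 | h1
  · exact hi h1
  · exact hj h1

/-- the case that `w` is before `f i` on the first path -/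
private theorem te3_a {f g h : ℕ → V} {l m n : ℕ} (T : Th3 G f g h l m n) {i j q : ℕ} {Q : Finset V}
    (hi0 : 0 < i) (hil : i < l) (hj0 : 0 < j) (hjm : j < m) (hQ : PL G Q (f i) (g j) q)
    (hd : ∀ x ∈ Q, x ∈ thV f g h l m n → x = f i ∨ x = g j) {X : Finset V}
    (hX : thV f g h l m n ⊆ X) (hQX : Q ⊆ X) {w : V} (hi : w ≠ f i)
    (hj : w ≠ g j) {k : ℕ} (hk0 : 0 < k) (hki : k < i) (hw : f k = w) : IsTh G (X.erase w) := by
  have hwT : w ∈ thV f g h l m n := mem_thV.2 (Or.inl ⟨k, by omega, hw⟩)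
  refine th_cross_a T hi0 hil hj0 hjm hQ hd ?_ (te3_Q hd hQX hwT hi hj)
  intro x hx hne
  refine mem_erase.2 ⟨?_, hX hx⟩
  rintro rfl
  exact hne k hk0 hki hw.symm

/-- the case that `w` is on the first path -/
private theorem te3_f {f g h : ℕ → V} {l m n : ℕ} (T : Th3 G f g h l m n) {i j q : ℕ} {Q : Finset V}
    (hi0 : 0 < i) (hil : i < l) (hj0 : 0 < j) (hjm : j < m) (hQ : PL G Q (f i) (g j) q)
    (hd : ∀ x ∈ Q, x ∈ thV f g h l m n → x = f i ∨ x = g j) {X : Finset V}
    (hX : thV f g h l m n ⊆ X) (hQX : Q ⊆ X) {w : V} (h0 : w ≠ f 0) (hl : w ≠ f l) (hi : w ≠ f i)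
    (hj : w ≠ g j) {k : ℕ} (hkl : k ≤ l) (hw : f k = w) : IsTh G (X.erase w) := by
  have hk0 : k ≠ 0 := by
    rintro rfl
    exact h0 hw.symm
  have hkl' : k ≠ l := by
    rintro rfl
    exact hl hw.symm
  have hki : k ≠ i := by
    rintro rfl
    exact hi hw.symm
  rcases Nat.lt_or_gt_of_ne hki with hlt | hgt
  · exact te3_a T hi0 hil hj0 hjm hQ hd hX hQX hi hj (by omega) hlt hw
  · have e1 : l - (l - i) = i := by omega
    have e2 : m - (m - j) = j := by omega
    have e3 : l - (l - k) = k := by omega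
    refine te3_a T.rev (i := l - i) (j := m - j) (k := l - k) (Q := Q) (q := q) (by omega) (by omega)
      (by omega) (by omega) ?_ ?_ ?_ hQX ?_ ?_ (by omega) (by omega) ?_
    · show PL G Q (f (l - (l - i))) (g (m - (m - j))) q
      rw [e1, e2]
      exact hQ
    · intro x hx hxT
      rw [thV_rev] at hxT
      show x = f (l - (l - i)) ∨ x = g (m - (m - j))
      rw [e1, e2]
      exact hd x hx hxT
    · rw [thV_rev]
      exact hX
    · show w ≠ f (l - (l - i))
      rw [e1]
      exact hi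
    · show w ≠ g (m - (m - j))
      rw [e2]
      exact hj
    · show f (l - (l - k)) = w
      rw [e3]
      exact hw

theorem th_cross {f g h : ℕ → V} {l m n : ℕ} (T : Th3 G f g h l m n) {i j q : ℕ} {Q : Finset V}
    (hi0 : 0 < i) (hil : i < l) (hj0 : 0 < j) (hjm : j < m) (hQ : PL G Q (f i) (g j) q)
    (hd : ∀ x ∈ Q, x ∈ thV f g h l m n → x = f i ∨ x = g j) {X : Finset V}
    (hX : thV f g h l m n ⊆ X) (hQX : Q ⊆ X) {w : V} (h0 : w ≠ f 0) (hl : w ≠ f l) (hi : w ≠ f i)
    (hj : w ≠ g j) : IsTh G (X.erase w) := by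
  by_cases hw : w ∈ thV f g h l m n
  · rcases mem_thV.1 hw with ⟨k, hk, hwk⟩ | ⟨k, hk, hwk⟩ | ⟨k, hk, hwk⟩
    · exact te3_f T hi0 hil hj0 hjm hQ hd hX hQX h0 hl hi hj hk hwk
    · refine te3_f T.swap12 hj0 hjm hi0 hil hQ.symm ?_ ?_ hQX ?_ ?_ hj hi hk hwk
      · intro x hx hxT
        rw [thV_swap12] at hxT
        exact (hd x hx hxT).symm
      · rw [thV_swap12]
        exact hX
      · rw [T.g0]
        exact h0
      · rw [T.gm]
        exact hl
    · have hk0 : k ≠ 0 := by
        rintro rfl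
        rw [T.h0] at hwk
        exact h0 hwk.symm
      have hkn : k ≠ n := by
        rintro rfl
        rw [T.hn] at hwk
        exact hl hwk.symm
      refine (thB_cross_ab T hi0 hil hj0 hjm hQ hd (Y := X.erase w) ?_
        (te3_Q hd hQX hw hi hj)).isTh
      intro x hx hne
      refine mem_erase.2 ⟨?_, hX hx⟩
      rintro rfl
      exact hne k (by omega) (by omega) hwk.symm
  · refine (T.isThB (X := X.erase w) ?_).isTh
    intro x hx
    refine mem_erase.2 ⟨?_, hX hx⟩
    rintro rfl
    exact hw hx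

end Pool.Agent.Lib.MP_f599e5_co
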