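import Pool.Agent.Lib.MP_f599e5_co.TE1
import Pool.Agent.Lib.MP_f599e5_co.TE3
import Pool.Agent.Lib.MP_f599e5_co.TCyc

set_option autoImplicit false
set_option linter.unusedSectionVars false

/-! # TEx: some vertex different from c can be removed without destroying all thetas

JOB TEx.
* `third_nbr`: an interior vertex `x = f k` of a theta in `B`, `x ≠ c`, has a neighbour `y ∈ B` different from `f (k-1)`, `f (k+1)` (3 neighbours).
* `chord_absurd`: suppose (H): for every `v ∈ B`, `v ≠ c`: `¬ IsTh G (B.erase v)`.  Then an interior vertex `f k ≠ c` of a theta in `B` has no neighbour `y` in `thV` other than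
  `f (k-1), f (k+1)`.  Proof.  `Q = {f k, y}`, a path of length 1.
  (1) `y = f j`, `j > k + 1` (the case `j < k - 1` by reversing, `T.rev`): for every `k < i < j` with `f i ≠ c`: `th_ear_same` with `X = B.erase (f i)` (`0 < k`) contradicts (H).
      So `f i = c` for all `k < i < j`, hence `j = k + 2` (injectivity) and `f k, f (k+1), f (k+2)` is a triangle: cycle of length 3, `ZC 3`.
  (2) `y = g j` with `0 < j < m`: for every vertex `w` of the theta with `w ≠ f 0, f l, f k, g j, c`: `th_cross` contradicts (H).  So the theta has at most 5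
      vertices, but it has at least `l + m + n - 1 ≥ 7` (`card_thV`, `girth`).   (3) `y = h j` with `0 < j < n`: the same for `T.swap23`.
      (`y = g 0, g m, h 0, h n` are `f 0`, `f l`: case (1).)
* `exists_th_erase`: by contradiction assume (H).  `th_of_deg`: `IsTh G B`, a theta `T` in `B`.  Every `v ∈ B`, `v ≠ c` is in `thV` (otherwise `T` is in `B.erase v`).  By `girth` one of `l, m, n` is
  at least 3; using the symmetries assume `l ≥ 3` and moreover `f 1 ≠ c`, `f 2 ≠ c` or handle as follows: by `third_nbr` an interior vertex `f k ≠ c` has a neighbour `y` which is not in `thV` by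
  `chord_absurd`, so `y = c` and `c ∉ thV`.  Hence `f 1` and `f 2` are different from `c` and both adjacent to `c`, and `f 1 ~ f 2`: triangle, `ZC 3`.
  (There is an interior vertex `≠ c`: `l ≥ 3` gives `f 1, f 2`, not both equal to `c`.) -/

namespace Pool.Agent.Lib.MP_f599e5_co

open Finset

variable {V : Type} [DecidableEq V] {G : SimpleGraph V}

theorem triangle_zc {x y z : V} (h1 : G.Adj x y) (h2 : G.Adj y z) (h3 : G.Adj z x) : ZC 3 G := by
  have p1 : PL G {x, y} x y 1 := PL.edge h1 (by simp) (by simp)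
  have p2 : PL G (insert z {x, y}) x z (1 + 1) := by
    refine p1.snoc h2 ?_
    simp only [mem_insert, mem_singleton, not_or]
    exact ⟨h3.ne, h2.ne.symm⟩
  have p3 : PL G {x, z} x z 1 := PL.edge h3.symm (by simp) (by simp)
  have hc := p2.cycle p3 (by
    intro w _ hw
    simpa using hw) h3.ne.symm (by omega)
  exact hc.zc (by norm_num)

theorem third_nbr {B : Finset V} {c : V} (hB : Blk G 3 B c) {f : ℕ → V} {k : ℕ}
    (hk : f k ∈ B) (hkc : f k ≠ c) : ∃ y ∈ B, G.Adj (f k) y ∧ y ≠ f (k - 1) ∧ y ≠ f (k + 1) := by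
  have h1 := hB.deg (f k) hk hkc
  have h2 : ({f (k - 1), f (k + 1)} : Finset V).card ≤ 2 := card_le_two
  obtain ⟨y, hy, hy'⟩ := exists_mem_notMem_of_card_lt_card
    (s := ({f (k - 1), f (k + 1)} : Finset V)) (t := nb G (f k) B) (by omega)
  rw [mem_nb] at hy
  simp only [mem_insert, mem_singleton, not_or] at hy'
  exact ⟨y, hy.1, hy.2, hy'.1, hy'.2⟩

private theorem tex_f {B : Finset V} {c : V} (hz : ¬ ZC 3 G)
    (H : ∀ v ∈ B, v ≠ c → ¬ IsTh G (B.erase v)) {f g h : ℕ → V} {l m n : ℕ}
    (T : Th3 G f g h l m n) (hT : thV f g h l m n ⊆ B) {k j : ℕ} (hk0 : 0 < k) (hkj : k + 1 < j)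
    (hj : j ≤ l) (ha : G.Adj (f k) (f j)) : False := by
  have hmem : ∀ i, i ≤ l → f i ∈ B := fun i hi => hT (mem_thV.2 (Or.inl ⟨i, hi, rfl⟩))
  have hall : ∀ i, k < i → i < j → f i = c := by
    intro i hki hij
    by_contra hic
    refine H (f i) (hmem i (by omega)) hic ?_
    have hQ : PL G {f k, f j} (f k) (f j) 1 := PL.edge ha (by simp) (by simp)
    refine th_ear_same T (i := k) (j := j) (by omega) hj (Or.inl hk0) hQ ?_ ?_ ?_
    · intro x hx _
      simpa using hx
    · intro x hx hne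
      rw [mem_erase]
      exact ⟨hne i hki hij, hT hx⟩
    · intro x hx
      simp only [mem_insert, mem_singleton] at hx
      rw [mem_erase]
      rcases hx with rfl | rfl
      · refine ⟨fun he => ?_, hmem k (by omega)⟩
        have := T.pf.inj k i (by omega) (by omega) he
        omega
      · refine ⟨fun he => ?_, hmem j hj⟩
        have := T.pf.inj j i (by omega) (by omega) he
        omega
  have hj2 : j = k + 2 := by
    by_contra hne
    have h1 := hall (k + 1) (by omega) (by omega)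
    have h2 := hall (k + 2) (by omega) (by omega)
    have := T.pf.inj (k + 1) (k + 2) (by omega) (by omega) (h1.trans h2.symm)
    omega
  subst hj2
  exact hz (triangle_zc (T.pf.adj k (by omega)) (T.pf.adj (k + 1) (by omega)) ha.symm)

private theorem tex_f' {B : Finset V} {c : V} (hz : ¬ ZC 3 G)
    (H : ∀ v ∈ B, v ≠ c → ¬ IsTh G (B.erase v)) {f g h : ℕ → V} {l m n : ℕ}
    (T : Th3 G f g h l m n) (hT : thV f g h l m n ⊆ B) {k j : ℕ} (hkl : k < l) (hkj : j + 1 < k)
    (ha : G.Adj (f k) (f j)) : False := by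
  have hT' : thV (fun i => f (l - i)) (fun i => g (m - i)) (fun i => h (n - i)) l m n ⊆ B := by
    rw [thV_rev]; exact hT
  refine tex_f hz H T.rev hT' (k := l - k) (j := l - j) (by omega) (by omega) (by omega) ?_
  have e1 : l - (l - k) = k := by omega
  have e2 : l - (l - j) = j := by omega
  show G.Adj (f (l - (l - k))) (f (l - (l - j)))
  rw [e1, e2]
  exact ha

private theorem tex_g {B : Finset V} {c : V} (hz : ¬ ZC 3 G) (hc : NoC4 G B)
    (H : ∀ v ∈ B, v ≠ c → ¬ IsTh G (B.erase v)) {f g h : ℕ → V} {l m n : ℕ}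
    (T : Th3 G f g h l m n) (hT : thV f g h l m n ⊆ B) {k j : ℕ} (hk0 : 0 < k) (hkl : k < l)
    (hj0 : 0 < j) (hjm : j < m) (ha : G.Adj (f k) (g j)) : False := by
  have hQ : PL G {f k, g j} (f k) (g j) 1 := PL.edge ha (by simp) (by simp)
  have hsub : thV f g h l m n ⊆ {f 0, f l, f k, g j, c} := by
    intro w hw
    by_contra hcon
    simp only [mem_insert, mem_singleton, not_or] at hcon
    obtain ⟨h0, h1, h2, h3, h4⟩ := hcon
    refine H w (hT hw) h4 ?_
    refine th_cross T hk0 hkl hj0 hjm hQ ?_ hT ?_ h0 h1 h2 h3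
    · intro x hx _
      simpa using hx
    · intro x hx
      simp only [mem_insert, mem_singleton] at hx
      rcases hx with rfl | rfl
      · exact hT (mem_thV.2 (Or.inl ⟨k, by omega, rfl⟩))
      · exact hT (mem_thV.2 (Or.inr (Or.inl ⟨j, by omega, rfl⟩)))
  have h1 := card_le_card hsub
  have h2 : ({f 0, f l, f k, g j, c} : Finset V).card ≤ 5 := card_le_five
  have h3 := T.card_thV
  obtain ⟨⟨h4, h5, h6⟩, -⟩ := T.girth hz hc hT
  omega

theorem chord_absurd {B : Finset V} {c : V} (hz : ¬ ZC 3 G) (hc : NoC4 G B)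
    (H : ∀ v ∈ B, v ≠ c → ¬ IsTh G (B.erase v)) {f g h : ℕ → V} {l m n : ℕ}
    (T : Th3 G f g h l m n) (hT : thV f g h l m n ⊆ B) {k : ℕ} (hk0 : 0 < k) (hkl : k < l)
    (hkc : f k ≠ c) {y : V} (hy : y ∈ thV f g h l m n) (hay : G.Adj (f k) y)
    (hy1 : y ≠ f (k - 1)) (hy2 : y ≠ f (k + 1)) : False := by
  have hF : ∀ j, j ≤ l → y = f j → False := by
    rintro j hj rfl
    have hjk : j ≠ k := by rintro rfl; exact hay.ne rfl
    have hj1 : j ≠ k - 1 := by rintro rfl; exact hy1 rfl
    have hj2 : j ≠ k + 1 := by rintro rfl; exact hy2 rfl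
    rcases Nat.lt_or_ge j k with h1 | h1
    · exact tex_f' hz H T hT hkl (by omega) hay
    · exact tex_f hz H T hT hk0 (by omega) hj hay
  rcases mem_thV.1 hy with ⟨j, hj, rfl⟩ | ⟨j, hj, rfl⟩ | ⟨j, hj, rfl⟩
  · exact hF j hj rfl
  · rcases Nat.eq_zero_or_pos j with rfl | hj0
    · exact hF 0 (by omega) T.g0
    · rcases Nat.lt_or_ge j m with hjm | hjm
      · exact tex_g hz hc H T hT hk0 hkl hj0 hjm hay
      · have : j = m := by omega
        subst this
        exact hF l le_rfl T.gm
  · rcases Nat.eq_zero_or_pos j with rfl | hj0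
    · exact hF 0 (by omega) T.h0
    · rcases Nat.lt_or_ge j n with hjn | hjn
      · exact tex_g hz hc H T.swap23 (by rw [thV_swap23]; exact hT) hk0 hkl hj0 hjn hay
      · have : j = n := by omega
        subst this
        exact hF l le_rfl T.hn

private theorem tex_main {B : Finset V} {c : V} (hB : Blk G 3 B c) (hz : ¬ ZC 3 G)
    (hc : NoC4 G B) (H : ∀ v ∈ B, v ≠ c → ¬ IsTh G (B.erase v)) {f g h : ℕ → V} {l m n : ℕ}
    (T : Th3 G f g h l m n) (hT : thV f g h l m n ⊆ B) (hl : 3 ≤ l) : False := by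
  have hin : ∀ v ∈ B, v ≠ c → v ∈ thV f g h l m n := by
    intro v hv hvc
    by_contra hv'
    refine H v hv hvc ⟨_, _, T.isThB ?_⟩
    intro x hx
    rw [mem_erase]
    refine ⟨?_, hT hx⟩
    rintro rfl
    exact hv' hx
  have hmem : ∀ i, i ≤ l → f i ∈ thV f g h l m n := fun i hi => mem_thV.2 (Or.inl ⟨i, hi, rfl⟩)
  have key : ∀ k, 0 < k → k < l → f k ≠ c → G.Adj (f k) c ∧ c ∉ thV f g h l m n := by
    intro k hk0 hkl hkc
    obtain ⟨y, hyB, hay, hy1, hy2⟩ := third_nbr hB (hT (hmem k (by omega))) hkc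
    have hyT : y ∉ thV f g h l m n := fun hy =>
      chord_absurd hz hc H T hT hk0 hkl hkc hy hay hy1 hy2
    have hyc : y = c := by
      by_contra hyc
      exact hyT (hin y hyB hyc)
    subst hyc
    exact ⟨hay, hyT⟩
  have hcT : c ∉ thV f g h l m n := by
    by_cases h1 : f 1 = c
    · have h2 : f 2 ≠ c := by
        intro h2
        have := T.pf.inj 1 2 (by omega) (by omega) (h1.trans h2.symm)
        omega
      exact (key 2 (by omega) (by omega) h2).2
    · exact (key 1 (by omega) (by omega) h1).2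
  have h1 : f 1 ≠ c := fun he => hcT (he ▸ hmem 1 (by omega))
  have h2 : f 2 ≠ c := fun he => hcT (he ▸ hmem 2 (by omega))
  have a1 := (key 1 (by omega) (by omega) h1).1
  have a2 := (key 2 (by omega) (by omega) h2).1
  exact hz (triangle_zc (T.pf.adj 1 (by omega)) a2 a1.symm)

theorem exists_th_erase {B : Finset V} {c : V} (hB : Blk G 3 B c) (hz : ¬ ZC 3 G)
    (hc : NoC4 G B) (hth : IsTh G B) : ∃ v ∈ B, v ≠ c ∧ IsTh G (B.erase v) := by
  by_contra hcon
  push Not at hcon
  obtain ⟨s, t, f, g, h, l, m, n, T, -, -, hT⟩ := hth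
  obtain ⟨⟨h4, h5, h6⟩, -⟩ := T.girth hz hc hT
  rcases Nat.lt_or_ge l 3 with hl | hl
  · exact tex_main hB hz hc hcon T.swap12 (by rw [thV_swap12]; exact hT) (by omega)
  · exact tex_main hB hz hc hcon T hT hl

end Pool.Agent.Lib.MP_f599e5_co
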