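import Pool.Agent.Lib.MP_f599e5_co.TL

set_option autoImplicit false
set_option linter.unusedSectionVars false

/-! # TI: all interior vertices of a theta of B \ D are in R or equal to c

JOB TI.
* `Ext.interior_mem`: some vertex `x` of a theta `T'` of `B \ D` (functions `f g h`) which is different from the two branch vertices and not in `R`, not `c`, forces `f 0 ∈ R ∧ f l ∈ R ∧ …` (`Ext.L`): `x = f k` with
  `0 < k < l`, or `x = g k` (use `T.swap12`; `g 0 = f 0`, `g m = f l`), or `x = h k` (use `T.swap23.swap12`).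
* `Ext.interior`: suppose `f k ∉ R`, `f k ≠ c`.  `Ext.L`: `R.card ≤ 3` and a theta `T'` in `B \ D` with branch vertices `a ∉ R`, `b`.  It has at least 7 vertices (`card_thV`, `girth`), while
  `{a, b, c} ∪ R` has at most 6.  So it has a vertex `x` different from `a, b, c` and not in `R`.  By `Ext.interior_mem` `a ∈ R`, contradiction. -/

namespace Pool.Agent.Lib.MP_f599e5_co

open Finset

variable {V : Type} [DecidableEq V] {G : SimpleGraph V}

theorem Ext.interior_mem {B D : Finset V} {c : V} (hs : Sep G B c 2) (hE : Ext G B D c)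
    {f g h : ℕ → V} {l m n : ℕ} (T : Th3 G f g h l m n) (hT : thV f g h l m n ⊆ B \ D) {x : V}
    (hx : x ∈ thV f g h l m n) (hx0 : x ≠ f 0) (hxl : x ≠ f l) (hxR : x ∉ bd G B D) (hxc : x ≠ c) :
    f 0 ∈ bd G B D ∧ f l ∈ bd G B D ∧ (bd G B D).card ≤ 3 ∧
      ∃ a b, a ∉ bd G B D ∧ IsThB G (B \ D) a b := by
  rcases mem_thV.1 hx with ⟨i, hi, rfl⟩ | ⟨i, hi, rfl⟩ | ⟨i, hi, rfl⟩
  · have h0 : i ≠ 0 := by
      rintro rfl
      exact hx0 rfl
    have h1 : i ≠ l := by
      rintro rfl
      exact hxl rfl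
    exact Ext.L hs hE T hT (k := i) (by omega) (by omega) hxR hxc
  · have h0 : i ≠ 0 := by
      rintro rfl
      exact hx0 T.g0
    have h1 : i ≠ m := by
      rintro rfl
      exact hxl T.gm
    have hT' : thV g f h m l n ⊆ B \ D := by rw [thV_swap12]; exact hT
    have h2 := Ext.L hs hE T.swap12 hT' (k := i) (by omega) (by omega) hxR hxc
    rw [T.g0, T.gm] at h2
    exact h2
  · have h0 : i ≠ 0 := by
      rintro rfl
      exact hx0 T.h0
    have h1 : i ≠ n := by
      rintro rfl
      exact hxl T.hn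
    have hT' : thV h f g n l m ⊆ B \ D := by rw [thV_swap12, thV_swap23]; exact hT
    have h2 := Ext.L hs hE T.swap23.swap12 hT' (k := i) (by omega) (by omega) hxR hxc
    rw [T.h0, T.hn] at h2
    exact h2

theorem Ext.interior {B D : Finset V} {c : V} (hz : ¬ ZC 3 G) (hc : NoC4 G B) (hs : Sep G B c 2)
    (hE : Ext G B D c) {f g h : ℕ → V} {l m n : ℕ} (T : Th3 G f g h l m n)
    (hT : thV f g h l m n ⊆ B \ D) {k : ℕ} (hk0 : 0 < k) (hkl : k < l) :
    f k ∈ bd G B D ∨ f k = c := by
  by_contra hcon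
  obtain ⟨hkR, hkc⟩ := not_or.1 hcon
  obtain ⟨-, -, hcard, a, b, ha, f', g', h', l', m', n', T', hfa, hfb, hT'⟩ :=
    Ext.L hs hE T hT hk0 hkl hkR hkc
  have hgirth := (T'.girth hz hc (hT'.trans sdiff_subset)).1
  have hthV := T'.card_thV
  have hsm : (({a, b, c} : Finset V) ∪ bd G B D).card ≤ 6 := by
    have h1 := card_union_le ({a, b, c} : Finset V) (bd G B D)
    have h2 : ({a, b, c} : Finset V).card ≤ 3 := card_le_three
    omega
  have hlt : (({a, b, c} : Finset V) ∪ bd G B D).card < (thV f' g' h' l' m' n').card := by omega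
  obtain ⟨x, hx, hxn⟩ := exists_mem_notMem_of_card_lt_card hlt
  simp only [mem_union, mem_insert, mem_singleton, not_or] at hxn
  obtain ⟨⟨hxa, hxb, hxc⟩, hxR⟩ := hxn
  have h3 := Ext.interior_mem hs hE T' hT' hx (by rw [hfa]; exact hxa) (by rw [hfb]; exact hxb)
    hxR hxc
  rw [hfa] at h3
  exact ha h3.1

end Pool.Agent.Lib.MP_f599e5_co
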