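import Pool.Agent.Lib.MP_f599e5_co.TMk

set_option autoImplicit false
set_option linter.unusedSectionVars false

/-! # TLong: a set with minimum degree 3 (one exceptional vertex) contains a theta

JOB TLong.  Let `N` be the maximum length of a path in `B` (the lengths are bounded: `PL.card_le`; there is a path of length `≥ 1`:
an edge from a vertex `v ≠ c` of `B`).  Take a path `f` of length `N ≥ 1` (`PL.toPF`).  `f 0 ≠ f N`, so one of the ends is `≠ c`; reversing
(`PF.rev`) we may assume `f 0 ≠ c`.  Every neighbour `y ∈ B` of `f 0` is `f i` for some `1 ≤ i ≤ N`: otherwise `y, f 0, …, f N` is a path in `B`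
of length `N + 1` (`PL.cons`).  So there are three indices `1 ≤ i1 < i2 < i3 ≤ N` with `f 0 ~ f i1, f i2, f i3` (the set of the indices has at least
3 elements: it maps onto `nb G (f 0) B`).  The theta has branch vertices `s = f 0`, `t = f i2` and the paths
 `{f 0, f i2}` (length 1), `f 0, f i1, f (i1+1), …, f i2` (length `1 + (i2 - i1) ≥ 2`), `f 0, f i3, f (i3-1), …, f i2` (length `1 + (i3 - i2) ≥ 2`);
apply `thB_of_PL` (the second path: `PL.cons` and `PF.toPL` on the image of `[i1, i2]`; the third: `PL.cons` and the reverse of `PF.toPL` on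
the image of `[i2, i3]`). -/

namespace Pool.Agent.Lib.MP_f599e5_co

open Finset

variable {V : Type} [DecidableEq V] {G : SimpleGraph V}

/-- the vertices `f a, …, f b` -/
private def tlongSeg (f : ℕ → V) (a b : ℕ) : Finset V := (Icc a b).image f

private theorem tlong_mem {f : ℕ → V} {a b : ℕ} {x : V} :
    x ∈ tlongSeg f a b ↔ ∃ k, a ≤ k ∧ k ≤ b ∧ f k = x := by
  simp only [tlongSeg, mem_image, mem_Icc, and_assoc]

private theorem tlong_pl {f : ℕ → V} {n a b : ℕ} (h : PF G f n) (hab : a ≤ b) (hb : b ≤ n) :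
    PL G (tlongSeg f a b) (f a) (f b) (b - a) :=
  h.toPL hab hb (fun i h1 h2 => tlong_mem.2 ⟨i, h1, h2, rfl⟩)

private theorem tlong_max {B : Finset V} {c : V} (hne : ∃ v ∈ B, v ≠ c)
    (hdeg : ∀ v ∈ B, v ≠ c → 3 ≤ (nb G v B).card) :
    ∃ N, 1 ≤ N ∧ (∃ u v, PL G B u v N) ∧ ∀ n u v, PL G B u v n → n ≤ N := by
  classical
  obtain ⟨v, hv, hvc⟩ := hne
  have h1 := hdeg v hv hvc
  have h2 : (nb G v B).Nonempty := by
    rw [← Finset.card_pos]
    omega
  obtain ⟨w, hw⟩ := h2
  rw [mem_nb] at hw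
  have h3 : PL G B v w 1 := PL.edge hw.2 hv hw.1
  have hb : ∀ n u v, PL G B u v n → n ≤ B.card := fun n u v h => by
    have := h.card_le
    omega
  refine ⟨Nat.findGreatest (fun n => ∃ u v, PL G B u v n) B.card, ?_, ?_, ?_⟩
  · exact Nat.le_findGreatest (hb 1 v w h3) ⟨v, w, h3⟩
  · exact Nat.findGreatest_spec (P := fun n => ∃ u v, PL G B u v n) (hb 1 v w h3) ⟨v, w, h3⟩
  · intro n u v h
    exact Nat.le_findGreatest (hb n u v h) ⟨u, v, h⟩

private theorem tlong_three {I : Finset ℕ} (h : 3 ≤ I.card) :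
    ∃ i1 ∈ I, ∃ i2 ∈ I, ∃ i3 ∈ I, i1 < i2 ∧ i2 < i3 := by
  have hne : I.Nonempty := by
    rw [← Finset.card_pos]
    omega
  have h1 : ((I.erase (I.min' hne)).erase (I.max' hne)).Nonempty := by
    rw [← Finset.card_pos]
    have h2 := Finset.pred_card_le_card_erase (s := I) (a := I.min' hne)
    have h3 := Finset.pred_card_le_card_erase (s := I.erase (I.min' hne)) (a := I.max' hne)
    omega
  obtain ⟨i, hi⟩ := h1
  rw [mem_erase, mem_erase] at hi
  refine ⟨I.min' hne, I.min'_mem hne, i, hi.2.2, I.max' hne, I.max'_mem hne, ?_, ?_⟩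
  · exact lt_of_le_of_ne (I.min'_le i hi.2.2) (Ne.symm hi.2.1)
  · exact lt_of_le_of_ne (I.le_max' i hi.2.2) hi.1

theorem th_of_deg {B : Finset V} {c : V} (hne : ∃ v ∈ B, v ≠ c)
    (hdeg : ∀ v ∈ B, v ≠ c → 3 ≤ (nb G v B).card) : IsTh G B := by
  classical
  obtain ⟨N, hN1, ⟨u, v, hp⟩, hmax⟩ := tlong_max hne hdeg
  -- a longest path whose first vertex is not `c`
  have hf : ∃ f : ℕ → V, PF G f N ∧ (∀ i, i ≤ N → f i ∈ B) ∧ f 0 ≠ c := by
    obtain ⟨f, h1, -, -, h4⟩ := hp.toPF
    by_cases h5 : f 0 = c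
    · refine ⟨fun i => f (N - i), h1.trev, fun i _ => h4 _ (by omega), fun h6 => ?_⟩
      have h7 : f (N - 0) = f 0 := h6.trans h5.symm
      have h8 := h1.inj (N - 0) 0 (by omega) (by omega) h7
      omega
    · exact ⟨f, h1, h4, h5⟩
  obtain ⟨f, pf, hfB, hf0⟩ := hf
  -- all neighbours of the first vertex are on the path
  have hnb : ∀ y ∈ nb G (f 0) B, ∃ i, 1 ≤ i ∧ i ≤ N ∧ f i = y := by
    intro y hy
    rw [mem_nb] at hy
    by_contra hcon
    have hyT : y ∉ tlongSeg f 0 N := by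
      intro hyT
      obtain ⟨k, h1, h2, h3⟩ := tlong_mem.1 hyT
      rcases Nat.eq_zero_or_pos k with h4 | h4
      · subst h4
        rw [h3] at hy
        exact G.loopless.irrefl y hy.2
      · exact hcon ⟨k, h4, h2, h3⟩
    have h1 := PL.cons hy.2.symm (tlong_pl pf (Nat.zero_le N) le_rfl) hyT
    have h2 : PL G B y (f N) (N - 0 + 1) := by
      refine h1.mono ?_
      intro x hx
      rcases mem_insert.1 hx with h3 | h3
      · rw [h3]
        exact hy.1
      · obtain ⟨k, h4, h5, rfl⟩ := tlong_mem.1 h3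
        exact hfB k h5
    have h3 := hmax _ _ _ h2
    omega
  have hI : 3 ≤ ((Icc 1 N).filter (fun i => G.Adj (f 0) (f i))).card := by
    refine (hdeg (f 0) (hfB 0 (Nat.zero_le N)) hf0).trans ?_
    refine le_trans (Finset.card_le_card ?_) (Finset.card_image_le (f := f))
    intro y hy
    obtain ⟨i, h1, h2, h3⟩ := hnb y hy
    rw [mem_image]
    refine ⟨i, ?_, h3⟩
    rw [mem_filter, mem_Icc]
    refine ⟨⟨h1, h2⟩, ?_⟩
    rw [h3]
    exact (mem_nb.1 hy).2
  obtain ⟨i1, hi1, i2, hi2, i3, hi3, h12, h23⟩ := tlong_three hI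
  rw [mem_filter, mem_Icc] at hi1 hi2 hi3
  obtain ⟨⟨a1, b1⟩, c1⟩ := hi1
  obtain ⟨⟨a2, b2⟩, c2⟩ := hi2
  obtain ⟨⟨a3, b3⟩, c3⟩ := hi3
  have q1 : PL G {f 0, f i2} (f 0) (f i2) 1 := PL.edge c2 (by simp) (by simp)
  have q2 : PL G (insert (f 0) (tlongSeg f i1 i2)) (f 0) (f i2) (i2 - i1 + 1) := by
    refine PL.cons c1 (tlong_pl pf h12.le b2) (fun h => ?_)
    obtain ⟨k, h1, h2, h3⟩ := tlong_mem.1 h
    have := pf.inj k 0 (by omega) (by omega) h3
    omega
  have q3 : PL G (insert (f 0) (tlongSeg f i2 i3)) (f 0) (f i2) (i3 - i2 + 1) := by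
    refine PL.cons c3 (tlong_pl pf h23.le b3).symm (fun h => ?_)
    obtain ⟨k, h1, h2, h3⟩ := tlong_mem.1 h
    have := pf.inj k 0 (by omega) (by omega) h3
    omega
  have hst : f 0 ≠ f i2 := fun he => by
    have := pf.inj 0 i2 (by omega) b2 he
    omega
  have key := thB_of_PL hst q1 q2 q3
    (fun x hx _ => by simpa only [mem_insert, mem_singleton] using hx)
    (fun x hx _ => by simpa only [mem_insert, mem_singleton] using hx)
    (fun x hx hx' => by
      rcases mem_insert.1 hx with h1 | h1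
      · exact Or.inl h1
      · rcases mem_insert.1 hx' with h2 | h2
        · exact Or.inl h2
        · right
          obtain ⟨k, h3, h4, h5⟩ := tlong_mem.1 h1
          obtain ⟨k', h6, h7, h8⟩ := tlong_mem.1 h2
          have h9 := pf.inj k k' (by omega) (by omega) (h5.trans h8.symm)
          have h10 : k = i2 := by omega
          rw [← h5, h10])
    (by omega) (by omega) (by omega)
  refine (key.mono ?_).isTh
  intro x hx
  simp only [mem_union, mem_insert, mem_singleton] at hx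
  rcases hx with ((h1 | h1) | (h1 | h1)) | (h1 | h1)
  · rw [h1]; exact hfB 0 (by omega)
  · rw [h1]; exact hfB i2 b2
  · rw [h1]; exact hfB 0 (by omega)
  · obtain ⟨k, h3, h4, rfl⟩ := tlong_mem.1 h1
    exact hfB k (by omega)
  · rw [h1]; exact hfB 0 (by omega)
  · obtain ⟨k, h3, h4, rfl⟩ := tlong_mem.1 h1
    exact hfB k (by omega)

end Pool.Agent.Lib.MP_f599e5_co
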