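import Pool.Agent.Lib.MP_f599e5_co.TArith
import Pool.Agent.Lib.MP_f599e5_co.TClose
import Pool.Agent.Lib.MP_f599e5_co.TI
import Pool.Agent.Lib.MP_f599e5_co.TEx
import Pool.Agent.Lib.MP_f599e5_co.TLong
import Pool.Agent.Lib.MP_f599e5_co.TC4

set_option autoImplicit false
set_option linter.unusedSectionVars false

/-! # TMain: the block theorem for k = 3 -/

namespace Pool.Agent.Lib.MP_f599e5_co

open Finset

variable {V : Type} [DecidableEq V] {G : SimpleGraph V}

/-- the three functions and lengths of a theta, indexed -/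
def thF (f g h : ℕ → V) : Fin 3 → ℕ → V := ![f, g, h]

/-- the three lengths of a theta, indexed -/
def thP (l m n : ℕ) : Fin 3 → ℕ := ![l, m, n]

theorem Th3.perm {f g h : ℕ → V} {l m n : ℕ} (T : Th3 G f g h l m n) {i j k : Fin 3}
    (hij : i ≠ j) (hjk : j ≠ k) (hik : i ≠ k) :
    Th3 G (thF f g h i) (thF f g h j) (thF f g h k) (thP l m n i) (thP l m n j) (thP l m n k) ∧
      thV (thF f g h i) (thF f g h j) (thF f g h k) (thP l m n i) (thP l m n j) (thP l m n k) =
        thV f g h l m n := by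
  fin_cases i <;> fin_cases j <;> fin_cases k <;>
    simp only [ne_eq, not_true_eq_false, reduceCtorEq] at hij hjk hik
  all_goals first
    | exact (hij rfl).elim
    | exact (hjk rfl).elim
    | exact (hik rfl).elim
    | exact ⟨T, rfl⟩
    | exact ⟨T.swap23, thV_swap23 ..⟩
    | exact ⟨T.swap12, thV_swap12 ..⟩
    | exact ⟨T.swap12.swap23, (thV_swap23 ..).trans (thV_swap12 ..)⟩
    | exact ⟨T.swap23.swap12, (thV_swap12 ..).trans (thV_swap23 ..)⟩
    | exact ⟨T.swap23.swap12.swap23,
        (thV_swap23 ..).trans ((thV_swap12 ..).trans (thV_swap23 ..))⟩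

/-- **the block theorem for k = 3** -/
theorem block_three {B : Finset V} {c : V} (hB : Blk G 3 B c) : ZC 3 G := by
  by_contra hz
  have hs : Sep G B c 2 := sep2_three hB hz
  have hc : NoC4 G B := no_C4 hB hz
  have hth : IsTh G B := th_of_deg hB.ne hB.deg
  obtain ⟨D, hE⟩ := exists_ext (exists_th_erase hB hz hc hth)
  obtain ⟨s, t, f, g, h, l, m, n, T, -, -, hT⟩ := hE.th
  have hTB : thV f g h l m n ⊆ B := hT.trans sdiff_subset
  obtain ⟨⟨h12, h13, h23⟩, d12, d13, d23⟩ := T.girth hz hc hTB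
  have hall : ∀ i : Fin 3, ∀ a, 1 ≤ a → a < thP l m n i → thF f g h i a ≠ c →
      thF f g h i a ∈ bd G B D := by
    intro i a ha1 ha2 hac
    obtain ⟨j, k, hij, hjk, hik⟩ : ∃ j k : Fin 3, i ≠ j ∧ j ≠ k ∧ i ≠ k := by
      fin_cases i
      · exact ⟨1, 2, by decide, by decide, by decide⟩
      · exact ⟨0, 2, by decide, by decide, by decide⟩
      · exact ⟨0, 1, by decide, by decide, by decide⟩
    obtain ⟨T', e⟩ := T.perm hij hjk hik
    rcases Ext.interior hz hc hs hE T' (by rw [e]; exact hT) (k := a) (by omega) ha2 with h' | h'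
    · exact h'
    · exact (hac h').elim
  have hinj : ∀ i a i' a', (a < thP l m n i ∧ 1 ≤ a ∧ thF f g h i a = c) →
      (a' < thP l m n i' ∧ 1 ≤ a' ∧ thF f g h i' a' = c) → i = i' ∧ a = a' := by
    intro i a i' a' h1 h2
    by_cases hii : i = i'
    · subst hii
      refine ⟨rfl, ?_⟩
      obtain ⟨j, k, hij, hjk, hik⟩ : ∃ j k : Fin 3, i ≠ j ∧ j ≠ k ∧ i ≠ k := by
        fin_cases i
        · exact ⟨1, 2, by decide, by decide, by decide⟩
        · exact ⟨0, 2, by decide, by decide, by decide⟩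
        · exact ⟨0, 1, by decide, by decide, by decide⟩
      obtain ⟨T', e⟩ := T.perm hij hjk hik
      exact T'.pf.inj a a' (by omega) (by omega) (h1.2.2.trans h2.2.2.symm)
    · exfalso
      obtain ⟨k, hjk, hik⟩ : ∃ k : Fin 3, i' ≠ k ∧ i ≠ k := by
        revert hii
        fin_cases i <;> fin_cases i' <;> decide
      obtain ⟨T', e⟩ := T.perm hii hjk hik
      rcases T'.fg a a' (by omega) (by omega) (h1.2.2.trans h2.2.2.symm) with h' | h' <;> omega
  obtain ⟨i, j, k, hij, hjk, hik, a, b, ha1, ha2, hb1, hb2, hna, hnb, hq⟩ :=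
    theta_arith (thP l m n)
      (by
        intro i
        fin_cases i
        · exact T.l1
        · exact T.m1
        · exact T.n1)
      (by
        intro i j hij
        fin_cases i <;> fin_cases j <;> simp [thP] at hij ⊢ <;> omega)
      (by
        intro i j hij
        fin_cases i <;> fin_cases j <;> simp [thP] at hij ⊢ <;> omega)
      (fun i a => a < thP l m n i ∧ 1 ≤ a ∧ thF f g h i a = c) hinj
  obtain ⟨T', e⟩ := T.perm hij hjk hik
  have hfa : thF f g h i a ∈ bd G B D := hall i a ha1 ha2 (fun hh => hna ⟨ha2, ha1, hh⟩)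
  have hgb : thF f g h j b ∈ bd G B D := hall j b hb1 hb2 (fun hh => hnb ⟨hb2, hb1, hh⟩)
  obtain ⟨q, q1, q2, q3, q4⟩ := theta_close hz hE.con T' (by rw [e]; exact hT) (a := a) (b := b)
    (by omega) ha2 (by omega) hb2 hfa hgb
  rcases hq q with h' | h' | h' | h'
  · exact q1 h'
  · exact q2 h'
  · exact q3 h'
  · exact q4 h'

end Pool.Agent.Lib.MP_f599e5_co
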