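import Pool.Agent.Lib.MP_f599e5_co.K1
import Pool.Agent.Lib.MP_f599e5_co.TMain
import Pool.Agent.Lib.MP_f599e5_co.O5
import Pool.Agent.Lib.MP_f599e5_co.EMain

set_option autoImplicit false
set_option linter.unusedSectionVars false

/-! # Main: Dean's conjecture, all `k ≥ 3` -/

namespace Pool.Agent.Lib.MP_f599e5_co

open Finset

variable {V : Type} [DecidableEq V] {G : SimpleGraph V}

theorem block_all {k : ℕ} (hk : 3 ≤ k) {B : Finset V} {c : V} (hB : Blk G k B c) : ZC k G := by
  rcases Nat.even_or_odd k with he | ho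
  · exact block_even he (by rcases he with ⟨r, hr⟩; omega) hB
  · by_cases h3 : k = 3
    · subst h3
      exact block_three hB
    · exact block_odd5 ho (by rcases ho with ⟨r, hr⟩; omega) hB

theorem dean {k : ℕ} (hk : 3 ≤ k) (W : Type) [Finite W] [Nonempty W] (H : SimpleGraph W)
    (h : ∀ v : W, k ≤ (H.neighborSet v).ncard) : ZC k H := by
  classical
  have : Fintype W := Fintype.ofFinite W
  have h' : ∀ v : W, k ≤ (nb H v univ).card := by
    intro v
    refine (h v).trans (le_of_eq ?_)
    rw [← Set.ncard_coe_finset]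
    congr 1
    ext w
    simp [nb, SimpleGraph.mem_neighborSet]
  obtain ⟨B, c, hB⟩ := exists_block (G := H) (k := k) (by omega) h'
  exact block_all hk hB

end Pool.Agent.Lib.MP_f599e5_co
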