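import Pool.Agent.Lib.MP_f599e5_co.B8
import Pool.Agent.Lib.MP_f599e5_co.K5C

set_option autoImplicit false
set_option linter.unusedSectionVars false

/-!
# JOB O1A: complete bipartite subgraphs

`bp1`, `bp2` (B8).
* `bip_cycle`: `x ∈ A`, `y ∈ T`; a path of length `2 i - 1 ≥ 3` from `x` to `y` (`bp1`) and the edge `x y` (`PL.edge` in `{x,y}`): `PL.cycle`.
* `CfgP.swap`: all fields by symmetry.
* `CfgP.cyc`: a path of length `2 a` between two different vertices `t1, t2` of `T` in `A ∪ insert t T` (`bp2` with `X = insert t T`, `Y = A`, `i = a`) and the path `t1 v t2`: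
  cycle of length `2a+2`.
* `CfgP.le`: `¬ ZC k G`: if `a + 1 = k` use `CfgP.cyc` (length `2k`), if `a ≥ k` use `bip_cycle` with `i = k`; so `a + 2 ≤ k`.
* `CfgP.links`: lengths `2 i - 1`, `1 ≤ i ≤ a + 1`, from `r1 ∈ insert v A` to `r2 ∈ T` in `F = insert v (insert t (A ∪ T))`:
  - `r1 = x ∈ A`, `i ≤ a`: `bp1` in `A ∪ T`.  `i = a+1`: `x`-`t`-(path of length `2a-1` from some `x' ∈ A`, `x' ≠ x`, to `r2` in `(insert v (A.erase x)) ∪ T`, `bp1` with `i = a`).
  - `r1 = v`, `i = 1`: the edge.  `i ≥ 2`: choose `t1 ∈ T`, `t1 ≠ r2`, `x ∈ A`: `v`-`t1`-(path of length `2(i-1)-1` from `x` to `r2` in `A ∪ insert t (T.erase t1)`, `bp1`).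
* `HasK.le`: `HasK G B a` and `¬ ZC k G`, `2 ≤ k` imply `a + 1 ≤ k` (`bip_cycle` with `i = k`).
-/

namespace Pool.Agent.Lib.MP_f599e5_co

open Finset

variable {V : Type} [DecidableEq V] {G : SimpleGraph V}

/-- `B` contains a complete bipartite graph with both parts of size `a` -/
def HasK (G : SimpleGraph V) (B : Finset V) (a : ℕ) : Prop :=
  ∃ A T : Finset V, A ⊆ B ∧ T ⊆ B ∧ Disjoint A T ∧ Cpl G A T ∧ A.card = a ∧ T.card = a

/-- configuration P of the notes: `A` complete to `T + t`, `v` complete to `T` -/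
structure CfgP (G : SimpleGraph V) (B A T : Finset V) (v t : V) (a : ℕ) : Prop where
  a2 : 2 ≤ a
  AB : A ⊆ B
  TB : T ⊆ B
  vB : v ∈ B
  tB : t ∈ B
  cA : A.card = a
  cT : T.card = a
  dAT : Disjoint A T
  vA : v ∉ A
  vT : v ∉ T
  tA : t ∉ A
  tT : t ∉ T
  vt : v ≠ t
  c1 : Cpl G A T
  c2 : ∀ x ∈ A, G.Adj x t
  c3 : ∀ y ∈ T, G.Adj v y

theorem bip_cycle {A T : Finset V} (hd : Disjoint A T) (hc : Cpl G A T) {i : ℕ} (h2 : 2 ≤ i) (hA : i ≤ A.card)
    (hT : i ≤ T.card) : CycS G (A ∪ T) (2 * i) := by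
  have hA0 : A.Nonempty := card_pos.1 (by omega)
  have hT0 : T.Nonempty := card_pos.1 (by omega)
  obtain ⟨x, hx⟩ := hA0
  obtain ⟨y, hy⟩ := hT0
  have hxy : G.Adj x y := hc x hx y hy
  have h1 := bp1 hd hc hx hy (i := i) (by omega) hA hT
  have h3 : PL G {x, y} x y 1 := PL.edge hxy (mem_insert_self _ _)
    (mem_insert_of_mem (mem_singleton_self _))
  have h4 := PL.cycle h1 h3 (fun z _ hz => by
    rw [mem_insert, mem_singleton] at hz
    exact hz) hxy.ne (by omega)
  have e : 2 * i - 1 + 1 = 2 * i := by omega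
  rw [e] at h4
  refine h4.mono ?_
  intro z hz
  rw [mem_union] at hz
  rcases hz with hz | hz
  · exact hz
  · rw [mem_insert, mem_singleton] at hz
    rcases hz with rfl | rfl
    · exact mem_union_left _ hx
    · exact mem_union_right _ hy

theorem HasK.le {B : Finset V} {a k : ℕ} (h : HasK G B a) (hk : 2 ≤ k) (hz : ¬ ZC k G) : a + 1 ≤ k := by
  obtain ⟨A, T, hA, hT, hd, hc, h1, h2⟩ := h
  by_contra hcon
  exact hz ((bip_cycle hd hc hk (by omega) (by omega)).zc (Dvd.intro_left 2 rfl))

namespace CfgP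

variable {B A T : Finset V} {v t : V} {a : ℕ}

theorem swap (h : CfgP G B A T v t a) : CfgP G B T A t v a := by
  exact ⟨h.a2, h.TB, h.AB, h.tB, h.vB, h.cT, h.cA, h.dAT.symm, h.tT, h.tA, h.vT, h.vA, h.vt.symm,
    fun y hy x hx => (h.c1 x hx y hy).symm, fun y hy => (h.c3 y hy).symm, fun x hx => (h.c2 x hx).symm⟩

theorem cyc (h : CfgP G B A T v t a) : CycS G (insert v (insert t (A ∪ T))) (2 * (a + 1)) := by
  have ha := h.a2
  have hcT := h.cT
  obtain ⟨t1, ht1, t2, ht2, hne⟩ := one_lt_card.1 (show 1 < T.card by omega)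
  have hd : Disjoint (insert t T) A := by
    rw [Finset.disjoint_insert_left]
    exact ⟨h.tA, h.dAT.symm⟩
  have hc : Cpl G (insert t T) A := by
    intro y hy x hx
    rcases mem_insert.1 hy with rfl | hy
    · exact (h.c2 x hx).symm
    · exact (h.c1 x hx y hy).symm
  have h1 := bp2 hd hc (mem_insert_of_mem ht1) (mem_insert_of_mem ht2) hne (i := a) (by omega)
    (by rw [card_insert_of_notMem h.tT]; omega) h.cA.ge
  have h2 : PL G {v, t2} v t2 1 := PL.edge (h.c3 t2 ht2) (mem_insert_self _ _)
    (mem_insert_of_mem (mem_singleton_self _))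
  have h3 := PL.cons (h.c3 t1 ht1).symm h2 (by
    rw [mem_insert, mem_singleton]
    rintro (e | e)
    · exact h.vT (e ▸ ht1)
    · exact hne e)
  have h4 := PL.cycle h1 h3 (by
    intro z hz1 hz2
    rw [mem_insert, mem_insert, mem_singleton] at hz2
    rcases hz2 with e | e | e
    · exact Or.inl e
    · exfalso
      rw [e, mem_union, mem_insert] at hz1
      rcases hz1 with (hz1 | hz1) | hz1
      · exact h.vt hz1
      · exact h.vT hz1
      · exact h.vA hz1
    · exact Or.inr e) hne (by omega)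
  have e : 2 * a + (1 + 1) = 2 * (a + 1) := by omega
  rw [e] at h4
  refine h4.mono ?_
  intro z hz
  simp only [mem_union, mem_insert, mem_singleton] at hz ⊢
  rcases hz with ((rfl | hz) | hz) | (rfl | rfl | rfl)
  · exact Or.inr (Or.inl rfl)
  · exact Or.inr (Or.inr (Or.inr hz))
  · exact Or.inr (Or.inr (Or.inl hz))
  · exact Or.inr (Or.inr (Or.inr ht1))
  · exact Or.inl rfl
  · exact Or.inr (Or.inr (Or.inr ht2))

theorem le {k : ℕ} (h : CfgP G B A T v t a) (hk : 2 ≤ k) (hz : ¬ ZC k G) : a + 2 ≤ k := by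
  by_contra hcon
  rcases (show a + 1 = k ∨ k ≤ a by omega) with e | e
  · have h1 := h.cyc
    rw [e] at h1
    exact hz (h1.zc (Dvd.intro_left 2 rfl))
  · exact hz ((bip_cycle h.dAT h.c1 hk (by rw [h.cA]; exact e) (by rw [h.cT]; exact e)).zc
      (Dvd.intro_left 2 rfl))

theorem links (h : CfgP G B A T v t a) :
    Links G (insert v (insert t (A ∪ T))) (insert v A) T 1 (a + 1) 2 := by
  have ha := h.a2
  intro r1 hr1 r2 hr2 j hj
  have hcT := h.cT
  have hcA := h.cA
  rcases mem_insert.1 hr1 with rfl | hr1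
  · rcases Nat.eq_zero_or_pos j with rfl | hj0
    · rw [zero_mul, add_zero]
      exact PL.edge (h.c3 r2 hr2) (mem_insert_self _ _)
        (mem_insert_of_mem (mem_insert_of_mem (mem_union_right _ hr2)))
    · obtain ⟨t1, ht1, hne⟩ := exists_mem_ne (show 1 < T.card by omega) r2
      obtain ⟨x, hx⟩ := card_pos.1 (show 0 < A.card by omega)
      have hd : Disjoint A (insert t (T.erase t1)) := by
        rw [Finset.disjoint_insert_right]
        exact ⟨h.tA, disjoint_of_subset_right (erase_subset _ _) h.dAT⟩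
      have hc : Cpl G A (insert t (T.erase t1)) := by
        intro x hx y hy
        rcases mem_insert.1 hy with rfl | hy
        · exact h.c2 x hx
        · exact h.c1 x hx y (mem_of_mem_erase hy)
      have hcard : (insert t (T.erase t1)).card = a := by
        rw [card_insert_of_notMem (fun e => h.tT (mem_of_mem_erase e)), card_erase_of_mem ht1]
        omega
      have h1 := bp1 hd hc hx (mem_insert_of_mem (mem_erase.2 ⟨hne.symm, hr2⟩)) (i := j) hj0
        (by omega) (by omega)
      have h2 := PL.cons (h.c1 x hx t1 ht1).symm h1 (by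
        rw [mem_union, mem_insert, mem_erase]
        rintro (e | e | e)
        · exact disjoint_left.1 h.dAT e ht1
        · exact h.tT (e ▸ ht1)
        · exact e.1 rfl)
      have h3 := PL.cons (h.c3 t1 ht1) h2 (by
        rw [mem_insert, mem_union, mem_insert, mem_erase]
        rintro (e | e | e | e)
        · exact h.vT (e ▸ ht1)
        · exact h.vA e
        · exact h.vt e
        · exact h.vT e.2)
      have e : 2 * j - 1 + 1 + 1 = 1 + j * 2 := by omega
      rw [e] at h3
      refine h3.mono ?_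
      intro z hz
      simp only [mem_insert, mem_union, mem_erase] at hz ⊢
      rcases hz with rfl | rfl | hz | rfl | hz
      · exact Or.inl rfl
      · exact Or.inr (Or.inr (Or.inr ht1))
      · exact Or.inr (Or.inr (Or.inl hz))
      · exact Or.inr (Or.inl rfl)
      · exact Or.inr (Or.inr (Or.inr hz.2))
  · by_cases hja : j < a
    · have h1 := bp1 h.dAT h.c1 hr1 hr2 (i := j + 1) (by omega) (by omega) (by omega)
      have e : 2 * (j + 1) - 1 = 1 + j * 2 := by omega
      rw [e] at h1
      exact h1.mono (fun z hz => mem_insert_of_mem (mem_insert_of_mem hz))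
    · obtain ⟨x', hx', hne⟩ := exists_mem_ne (show 1 < A.card by omega) r1
      have hd : Disjoint (insert v (A.erase r1)) T := by
        rw [Finset.disjoint_insert_left]
        exact ⟨h.vT, disjoint_of_subset_left (erase_subset _ _) h.dAT⟩
      have hc : Cpl G (insert v (A.erase r1)) T := by
        intro x hx y hy
        rcases mem_insert.1 hx with rfl | hx
        · exact h.c3 y hy
        · exact h.c1 x (mem_of_mem_erase hx) y hy
      have hcard : (insert v (A.erase r1)).card = a := by
        rw [card_insert_of_notMem (fun e => h.vA (mem_of_mem_erase e)), card_erase_of_mem hr1]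
        omega
      have h1 := bp1 hd hc (mem_insert_of_mem (mem_erase.2 ⟨hne, hx'⟩)) hr2 (i := a) (by omega)
        (by omega) (by omega)
      have h2 := PL.cons (h.c2 x' hx').symm h1 (by
        rw [mem_union, mem_insert, mem_erase]
        rintro ((e | e) | e)
        · exact h.vt e.symm
        · exact h.tA e.2
        · exact h.tT e)
      have h3 := PL.cons (h.c2 r1 hr1) h2 (by
        rw [mem_insert, mem_union, mem_insert, mem_erase]
        rintro (e | (e | e) | e)
        · exact h.tA (e ▸ hr1)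
        · exact h.vA (e ▸ hr1)
        · exact e.1 rfl
        · exact disjoint_left.1 h.dAT hr1 e)
      have e : 2 * a - 1 + 1 + 1 = 1 + j * 2 := by omega
      rw [e] at h3
      refine h3.mono ?_
      intro z hz
      simp only [mem_insert, mem_union, mem_erase] at hz ⊢
      rcases hz with rfl | rfl | (rfl | hz) | hz
      · exact Or.inr (Or.inr (Or.inl hr1))
      · exact Or.inr (Or.inl rfl)
      · exact Or.inl rfl
      · exact Or.inr (Or.inr (Or.inl hz.2))
      · exact Or.inr (Or.inr (Or.inr hz))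

end CfgP


end Pool.Agent.Lib.MP_f599e5_co
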