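import Pool.Agent.Lib.MP_f599e5_co.O1A
import Pool.Agent.Lib.MP_f599e5_co.K4

set_option autoImplicit false
set_option linter.unusedSectionVars false

/-!
# JOB O1B: configuration P, part 1

`F = insert v (insert t (A ∪ T))`, `B` triangle-free (`Blk.tri_free`), no `HasK G B (a+1)`, `a + 2 ≤ k` (`CfgP.le`).
* `cfgP_nb`: for `x ∈ B \ F`:
  (i) `x` is not complete to `insert v A`: otherwise `insert v A` is complete to `insert x T` (both with `a+1` elements): `HasK G B (a+1)`;
  (ii) `x` is not complete to `insert t T` (otherwise `insert x A` is complete to `insert t T`);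
  (iii) `x ~ t` implies `x` not adjacent to `A`, `x ~ y ∈ T` implies `x` not adjacent to `insert v A` (triangles).
  So `(nb G x (insert v A)).card ≤ a`, `(nb G x (insert t T)).card ≤ a`.
  Loss: `(nb G x F).card ≤ min 1 (nb G x (insert v A)).card + min 1 (nb G x T).card + (a - 1)` and `(nb G x F).card ≤ a`:
   `F` is the disjoint union of `insert v A` and `insert t T`.  If `x ~ T`: `nb G x (insert v A) = ∅`, `(nb G x (insert t T)).card ≤ a = 1 + (a-1)`.
   If `x` not adjacent to `T` and `x ~ t`: `nb G x (insert v A) ⊆ {v}`, so the left side is `≤ 1 + min 1 ..` and `a - 1 ≥ 1`; and `≤ 2 ≤ a`.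
   If `x` adjacent neither to `T` nor to `t`: `(nb G x F).card = (nb G x (insert v A)).card ≤ min 1 .. + (a-1)` as it is `≤ a`.
* `cfgP1`: `D` adjacent to `insert v A` and to `T`.  `rz_of_sep` with `Blk.sep2_odd` (`j = 2`), `X = {t}`, `R1 = insert v A`, `R2 = T` (`hout`: an element of `A ∪ T`,
  which has `≥ 4` elements, different from `c`; it is `≠ t`).  `Blk.ears` with `lam = a - 1` (`lam + 2 ≤ k`), `he`: `2 ≤ (D.erase c).card`:
  a vertex `x ∈ D`, `x ≠ c`, has `≥ k - a ≥ 2` neighbours in `D` (`comp_nb_card`, `(nb G x F).card ≤ a`), one of them is `≠ c`, and `x` itself: two elements of `D.erase c`.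
  So `Adm (k - 1 - (a-1)) D (insert v A) T`.  `closing_odd` with `n = k - 1 - (a - 1)`, `p = a + 1`, `p0 = 1`, `e = 2`, `CfgP.links`: `n + p = k + 1`.
-/

namespace Pool.Agent.Lib.MP_f599e5_co

open Finset

variable {V : Type} [DecidableEq V] {G : SimpleGraph V}

theorem cfgP_nb {k a : ℕ} {B A T : Finset V} {c v t : V} (hB : Blk G k B c) (hk5 : 5 ≤ k) (hz : ¬ ZC k G)
    (h : CfgP G B A T v t a) (hmax : ¬ HasK G B (a + 1)) {x : V} (hx : x ∈ B)
    (hxF : x ∉ insert v (insert t (A ∪ T))) :
    (nb G x (insert v A)).card ≤ a ∧ (nb G x (insert t T)).card ≤ a ∧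
      (nb G x (insert v (insert t (A ∪ T)))).card ≤ a ∧
      (nb G x (insert v (insert t (A ∪ T)))).card ≤
        min 1 (nb G x (insert v A)).card + min 1 (nb G x T).card + (a - 1) := by
  have ha := h.a2
  have hxv : x ≠ v := fun e => hxF (by rw [e]; exact mem_insert_self _ _)
  have hxt : x ≠ t := fun e => hxF (by rw [e]; exact mem_insert_of_mem (mem_insert_self _ _))
  have hxA : x ∉ A := fun e => hxF (mem_insert_of_mem (mem_insert_of_mem (mem_union_left _ e)))
  have hxT : x ∉ T := fun e => hxF (mem_insert_of_mem (mem_insert_of_mem (mem_union_right _ e)))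
  have hcvA : (insert v A).card = a + 1 := by rw [card_insert_of_notMem h.vA, h.cA]
  have hctT : (insert t T).card = a + 1 := by rw [card_insert_of_notMem h.tT, h.cT]
  have hdvt : Disjoint (insert v A) (insert t T) := by
    rw [Finset.disjoint_insert_left, Finset.disjoint_insert_right, mem_insert]
    refine ⟨?_, h.tA, h.dAT⟩
    rintro (e | e)
    · exact h.vt e
    · exact h.vT e
  -- (i)
  have h1 : (nb G x (insert v A)).card ≤ a := by
    by_contra hcon
    apply hmax
    have hall : ∀ y ∈ insert v A, G.Adj x y := by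
      intro y hy
      by_contra hno
      have := nb_card_lt hy hno
      omega
    refine ⟨insert v A, insert x T, insert_subset h.vB h.AB, insert_subset hx h.TB, ?_, ?_, hcvA, ?_⟩
    · rw [Finset.disjoint_insert_right, mem_insert]
      refine ⟨?_, disjoint_of_subset_right (subset_insert _ _) hdvt⟩
      rintro (e | e)
      · exact hxv e
      · exact hxA e
    · intro y hy w hw
      rcases mem_insert.1 hw with rfl | hw
      · exact (hall y hy).symm
      · rcases mem_insert.1 hy with rfl | hy
        · exact h.c3 w hw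
        · exact h.c1 y hy w hw
    · rw [card_insert_of_notMem hxT, h.cT]
  have h2 : (nb G x (insert t T)).card ≤ a := by
    by_contra hcon
    apply hmax
    have hall : ∀ y ∈ insert t T, G.Adj x y := by
      intro y hy
      by_contra hno
      have := nb_card_lt hy hno
      omega
    refine ⟨insert x A, insert t T, insert_subset hx h.AB, insert_subset h.tB h.TB, ?_, ?_, ?_, hctT⟩
    · rw [Finset.disjoint_insert_left, mem_insert]
      refine ⟨?_, disjoint_of_subset_left (subset_insert _ _) hdvt⟩
      rintro (e | e)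
      · exact hxt e
      · exact hxT e
    · intro y hy w hw
      rcases mem_insert.1 hy with rfl | hy
      · exact hall w hw
      · rcases mem_insert.1 hw with rfl | hw
        · exact h.c2 y hy
        · exact h.c1 y hy w hw
    · rw [card_insert_of_notMem hxA, h.cA]
  have hF : insert v (insert t (A ∪ T)) = insert v A ∪ insert t T := by
    ext z
    simp only [mem_insert, mem_union]
    tauto
  have hsplit : (nb G x (insert v (insert t (A ∪ T)))).card =
      (nb G x (insert v A)).card + (nb G x (insert t T)).card := by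
    rw [hF, nb_card_union hdvt]
  have tri : ∀ y w, y ∈ B → w ∈ B → G.Adj x y → G.Adj y w → G.Adj x w → False := fun y w hy hw a1 a2 a3 =>
    hB.tri_free (by omega) hz hx hy hw a1 a2 a3
  refine ⟨h1, h2, ?_⟩
  rw [hsplit]
  by_cases hT : ∃ y ∈ T, G.Adj x y
  · obtain ⟨y, hy, hxy⟩ := hT
    have h3 : (nb G x (insert v A)).card = 0 := by
      refine nb_card_zero ?_
      rintro ⟨w, hw, hxw⟩
      rcases mem_insert.1 hw with rfl | hw
      · exact tri y w (h.TB hy) h.vB hxy (h.c3 y hy).symm hxw
      · exact tri y w (h.TB hy) (h.AB hw) hxy (h.c1 w hw y hy).symm hxw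
    have h4 := min_nb_pos (G := G) (v := x) (A := T) ⟨y, hy, hxy⟩
    omega
  · by_cases ht : G.Adj x t
    · have h3 : (nb G x (insert v A)).card ≤ 1 := by
        have : nb G x (insert v A) ⊆ {v} := by
          intro w hw
          rw [mem_nb] at hw
          rw [mem_singleton]
          rcases mem_insert.1 hw.1 with e | hwA
          · exact e
          · exact (tri t w h.tB (h.AB hwA) ht (h.c2 w hwA).symm hw.2).elim
        have := card_le_card this
        rwa [card_singleton] at this
      have h4 : (nb G x (insert t T)).card ≤ 1 := by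
        have : nb G x (insert t T) ⊆ {t} := by
          intro w hw
          rw [mem_nb] at hw
          rw [mem_singleton]
          rcases mem_insert.1 hw.1 with e | hwT
          · exact e
          · exact (hT ⟨w, hwT, hw.2⟩).elim
        have := card_le_card this
        rwa [card_singleton] at this
      omega
    · have h3 : (nb G x (insert t T)).card = 0 := by
        refine nb_card_zero ?_
        rintro ⟨w, hw, hxw⟩
        rcases mem_insert.1 hw with rfl | hw
        · exact ht hxw
        · exact hT ⟨w, hw, hxw⟩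
      omega

theorem cfgP1 {k a : ℕ} {B A T D : Finset V} {c v t : V} (hB : Blk G k B c) (hk : Odd k) (hk5 : 5 ≤ k)
    (hz : ¬ ZC k G) (h : CfgP G B A T v t a) (hmax : ¬ HasK G B (a + 1))
    (hD : IsComp G (B \ insert v (insert t (A ∪ T))) D) (hne : ∃ x ∈ D, x ≠ c)
    (h1 : adjS G D (insert v A)) (h2 : adjS G D T) : False := by
  have ha := h.a2
  have hle := h.le (k := k) (by omega) hz
  have hF : insert v (insert t (A ∪ T)) ⊆ B :=
    insert_subset h.vB (insert_subset h.tB (union_subset h.AB h.TB))
  have hR1 : insert v A ⊆ insert v (insert t (A ∪ T)) := by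
    intro z hz
    simp only [mem_insert, mem_union] at hz ⊢
    tauto
  have hR2 : T ⊆ insert v (insert t (A ∪ T)) := by
    intro z hz
    simp only [mem_insert, mem_union] at hz ⊢
    tauto
  have hd : Disjoint (insert v A) T := by
    rw [Finset.disjoint_insert_left]
    exact ⟨h.vT, h.dAT⟩
  have hnb : ∀ x ∈ D, (nb G x (insert v (insert t (A ∪ T)))).card ≤ a ∧
      (nb G x (insert v (insert t (A ∪ T)))).card ≤
        min 1 (nb G x (insert v A)).card + min 1 (nb G x T).card + (a - 1) := by
    intro x hx
    have h3 := mem_sdiff.1 (hD.1 hx)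
    exact (cfgP_nb hB hk5 hz h hmax h3.1 h3.2).2.2
  have hs : Sep G B c 2 := hB.sep2_odd hk (by omega) hz
  have hRz : Rz G D (insert v A) T c := by
    refine rz_of_sep (X := {t}) hs hF hD hne h1 h2 ?_ (by rw [card_singleton]) ?_ ?_
    · rw [singleton_subset_iff]
      exact mem_insert_of_mem (mem_insert_self _ _)
    · intro y hy x hx hx1 hx2 _
      rw [mem_singleton]
      simp only [mem_insert, mem_union, not_or] at hx hx1 hx2
      tauto
    · obtain ⟨y, hy, hyc⟩ := exists_mem_ne (show 1 < A.card by rw [h.cA]; omega) c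
      exact ⟨y, mem_insert_of_mem (mem_insert_of_mem (mem_union_left _ hy)),
        fun e => h.tA (mem_singleton.1 e ▸ hy), hyc⟩
  have he : 2 ≤ (D.erase c).card := by
    obtain ⟨x, hx, hxc⟩ := hne
    have h3 := mem_sdiff.1 (hD.1 hx)
    have h4 := hB.deg x h3.1 hxc
    have h5 := comp_nb_card hF hD hx
    have h6 := (hnb x hx).1
    obtain ⟨y, hy, hyc⟩ := exists_mem_ne (show 1 < (nb G x D).card by omega) c
    rw [mem_nb] at hy
    refine one_lt_card.2 ⟨x, mem_erase.2 ⟨hxc, hx⟩, y, mem_erase.2 ⟨hyc, hy.1⟩, ?_⟩
    exact hy.2.ne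
  have hadm := hB.ears (lam := a - 1) hF hR1 hR2 hd hD hRz (by omega) (fun x hx _ => (hnb x hx).2)
    (fun _ => Or.inr he)
  have hDF : Disjoint D (insert v (insert t (A ∪ T))) := by
    rw [disjoint_left]
    intro x hx
    exact (mem_sdiff.1 (hD.1 hx)).2
  exact hz (closing_odd hk hadm hDF hR1 hR2 hd (p := a + 1) (p0 := 1) (e := 2) (by omega) (by omega)
    (Or.inr rfl) (by omega) h.links)


end Pool.Agent.Lib.MP_f599e5_co
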