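import Pool.Agent.Lib.MP_f599e5_co.O1B

set_option autoImplicit false
set_option linter.unusedSectionVars false

/-!
# JOB O1C: configuration P, part 2 and assembly

* `cfgP2`: `D` not adjacent to `insert v A`.  `F = insert v (insert t (A ∪ T))` has `2a + 2 ≥ 6` elements; `Sep.le_bd` with `Blk.sep3_odd` (`j = 3`, `5 ≤ F.card`): `bd G B D` has
  at least 4 elements, and it is contained in `insert t T` (`mem_bd_comp`), so `4 ≤ a + 1`.  Choose different `s1, s2, s3, s4 ∈ bd G B D`, `R1 = {s1,s2}`, `R2 = insert t T \ R1`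
  (contains `s3, s4`).  `R2.card = a - 1`.  `Blk.ears0` with `lam = a - 2`: `nb G x F = nb G x (insert t T)` for `x ∈ D`, at most `a` elements (`cfgP_nb`); if `x` has neighbours in
  both `R1`, `R2`: `≤ 1 + 1 + (a-2)`; only in `R1`: `≤ 2 ≤ 1 + (a-2)`; only in `R2`: `≤ a - 1 = 1 + (a-2)`; none: 0.
  `Links G F R1 R2 2 a 2`: `bp2` with `X = insert t T`, `Y = A` (lengths `2 i`, `1 ≤ i ≤ a`).  `closing_odd` with `n = k - 1 - (a-2)`, `p = a`: `n + p = k + 1`.
* `cfgP_false`: `v` or `t` is `≠ c`.  `nb G v F = T` has `a` elements (`v` not adjacent to `t`: otherwise `HasK (a+1)` with `insert v A`, `insert t T`; `v` not adjacent to `x ∈ A`: triangle with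
  an element of `T`); similarly `nb G t F = A`.  `Blk.exists_comp` with `r = a` (`CfgP.le`) gives `D`.
  - `D ~ insert v A` and `D ~ T`: `cfgP1`.   - `D ~ insert t T` and `D ~ A`: `cfgP1` for `h.swap` (the set `F` is the same up to the order of insertions).
  - `D` not adjacent to `insert v A`: `cfgP2`.  - `D` not adjacent to `insert t T`: `cfgP2` for `h.swap`.
  - Otherwise `D ~ insert v A`, `D` not `~ T`, `D ~ insert t T`, `D` not `~ A`: `bd G B D ⊆ {v,t}` contradicts `Sep.le_bd` (at least 4 elements).
-/

namespace Pool.Agent.Lib.MP_f599e5_co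

open Finset

variable {V : Type} [DecidableEq V] {G : SimpleGraph V}

theorem cfgP2 {k a : ℕ} {B A T D : Finset V} {c v t : V} (hB : Blk G k B c) (hk : Odd k) (hk5 : 5 ≤ k)
    (hz : ¬ ZC k G) (h : CfgP G B A T v t a) (hmax : ¬ HasK G B (a + 1))
    (hD : IsComp G (B \ insert v (insert t (A ∪ T))) D) (hne : ∃ x ∈ D, x ≠ c)
    (h1 : ¬ adjS G D (insert v A)) : False := by
  have ha := h.a2
  have hle := h.le (k := k) (by omega) hz
  have hF : insert v (insert t (A ∪ T)) ⊆ B :=
    insert_subset h.vB (insert_subset h.tB (union_subset h.AB h.TB))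
  have hFu : insert v (insert t (A ∪ T)) = insert v A ∪ insert t T := by
    ext z
    simp only [mem_insert, mem_union]
    tauto
  have hdvt : Disjoint (insert v A) (insert t T) := by
    rw [Finset.disjoint_insert_left, Finset.disjoint_insert_right, mem_insert]
    refine ⟨?_, h.tA, h.dAT⟩
    rintro (e | e)
    · exact h.vt e
    · exact h.vT e
  have hctT : (insert t T).card = a + 1 := by rw [card_insert_of_notMem h.tT, h.cT]
  have hcvA : (insert v A).card = a + 1 := by rw [card_insert_of_notMem h.vA, h.cA]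
  have hFc : (insert v (insert t (A ∪ T))).card = 2 * a + 2 := by
    rw [hFu, card_union_of_disjoint hdvt]
    omega
  have htTF : insert t T ⊆ insert v (insert t (A ∪ T)) := by
    rw [hFu]
    exact subset_union_right
  have hs : Sep G B c 3 := hB.sep3_odd hk hk5 hz
  have h4 := hs.le_bd hF (by omega) hD hne
  have hbd : ∀ w ∈ bd G B D, w ∈ insert t T ∧ ∃ x ∈ D, G.Adj x w := by
    intro w hw
    obtain ⟨hwF, x, hx, hxw⟩ := (mem_bd_comp hF hD).1 hw
    rw [hFu] at hwF
    rcases mem_union.1 hwF with h5 | h5
    · exact absurd ⟨x, hx, w, h5, hxw⟩ h1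
    · exact ⟨h5, x, hx, hxw⟩
  have hbsub : bd G B D ⊆ insert t T := fun w hw => (hbd w hw).1
  have h5 := card_le_card hbsub
  obtain ⟨R1, hR1b, hR1c⟩ := Finset.exists_subset_card_eq (show 2 ≤ (bd G B D).card by omega)
  have hR1t : R1 ⊆ insert t T := hR1b.trans hbsub
  have hR1 : R1 ⊆ insert v (insert t (A ∪ T)) := hR1t.trans htTF
  have hR2 : insert t T \ R1 ⊆ insert v (insert t (A ∪ T)) := sdiff_subset.trans htTF
  have hd : Disjoint R1 (insert t T \ R1) := disjoint_sdiff
  have hR2c : (insert t T \ R1).card = a - 1 := by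
    rw [card_sdiff_of_subset hR1t]
    omega
  have hall : ∀ x ∈ D, ∀ y ∈ insert v A, ¬ G.Adj x y := fun x hx y hy hxy => h1 ⟨x, hx, y, hy, hxy⟩
  have a1 : adjS G D R1 := by
    obtain ⟨s, hs⟩ := card_pos.1 (show 0 < R1.card by omega)
    obtain ⟨_, x, hx, hxs⟩ := hbd s (hR1b hs)
    exact ⟨x, hx, s, hs, hxs⟩
  have a2 : adjS G D (insert t T \ R1) := by
    have h6 : 0 < (bd G B D \ R1).card := by
      rw [card_sdiff_of_subset hR1b]
      omega
    obtain ⟨s, hs⟩ := card_pos.1 h6
    obtain ⟨hs1, hs2⟩ := mem_sdiff.1 hs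
    obtain ⟨hs3, x, hx, hxs⟩ := hbd s hs1
    exact ⟨x, hx, s, mem_sdiff.2 ⟨hs3, hs2⟩, hxs⟩
  have hadm := hB.ears0 (lam := a - 2) hF hR1 hR2 hd hD hne a1 a2 (by
      intro y hy x hx hx1 hx2 hyx
      rw [hFu] at hx
      rcases mem_union.1 hx with h6 | h6
      · exact hall y hy x h6 hyx
      · exact hx2 (mem_sdiff.2 ⟨h6, hx1⟩)) (by omega) (by
      intro x hx _
      have h3 := mem_sdiff.1 (hD.1 hx)
      have h6 := (cfgP_nb hB hk5 hz h hmax h3.1 h3.2).2.1
      have h7 : (nb G x (insert v A)).card = 0 := nb_card_zero (fun ⟨y, hy, hxy⟩ => hall x hx y hy hxy)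
      have h8 : (nb G x (insert v (insert t (A ∪ T)))).card = (nb G x (insert t T)).card := by
        rw [hFu, nb_card_union hdvt, h7, zero_add]
      have h9 : (nb G x (insert t T)).card = (nb G x R1).card + (nb G x (insert t T \ R1)).card := by
        rw [← nb_card_union hd, union_sdiff_of_subset hR1t]
      have h10 := nb_card_le (G := G) (v := x) (A := R1)
      have h11 := nb_card_le (G := G) (v := x) (A := insert t T \ R1)
      omega)
  have hDF : Disjoint D (insert v (insert t (A ∪ T))) := by
    rw [disjoint_left]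
    intro x hx
    exact (mem_sdiff.1 (hD.1 hx)).2
  have hdtA : Disjoint (insert t T) A := by
    rw [Finset.disjoint_insert_left]
    exact ⟨h.tA, h.dAT.symm⟩
  have hctA : Cpl G (insert t T) A := by
    intro y hy x hx
    rcases mem_insert.1 hy with rfl | hy
    · exact (h.c2 x hx).symm
    · exact (h.c1 x hx y hy).symm
  have hl : Links G (insert v (insert t (A ∪ T))) R1 (insert t T \ R1) 2 a 2 := by
    intro r1 hr1 r2 hr2 j hj
    have hne' : r1 ≠ r2 := fun e => (mem_sdiff.1 hr2).2 (e ▸ hr1)
    have h6 := bp2 hdtA hctA (hR1t hr1) (mem_sdiff.1 hr2).1 hne' (i := j + 1) (by omega) (by omega)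
      (by rw [h.cA]; omega)
    have e : 2 * (j + 1) = 2 + j * 2 := by omega
    rw [e] at h6
    refine h6.mono ?_
    intro z hz
    simp only [mem_insert, mem_union] at hz ⊢
    tauto
  exact hz (closing_odd hk hadm hDF hR1 hR2 hd (p := a) (p0 := 2) (e := 2) (by omega) (by omega)
    (Or.inr rfl) (by omega) hl)

theorem O1C_comm {A T : Finset V} {v t : V} :
    insert t (insert v (T ∪ A)) = insert v (insert t (A ∪ T)) := by
  ext z
  simp only [mem_insert, mem_union]
  tauto

theorem O1C_nbv {k a : ℕ} {B A T : Finset V} {c v t : V} (hB : Blk G k B c) (hk5 : 5 ≤ k)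
    (hz : ¬ ZC k G) (h : CfgP G B A T v t a) (hmax : ¬ HasK G B (a + 1)) :
    (nb G v (insert v (insert t (A ∪ T)))).card ≤ a := by
  have ha := h.a2
  have hsub : nb G v (insert v (insert t (A ∪ T))) ⊆ T := by
    intro x hx
    rw [mem_nb] at hx
    obtain ⟨hx1, hvx⟩ := hx
    rcases mem_insert.1 hx1 with e | hx1
    · exact absurd hvx (e ▸ G.loopless.irrefl v)
    · rcases mem_insert.1 hx1 with e | hx1
      · exfalso
        subst e
        apply hmax
        refine ⟨insert v A, insert x T, insert_subset h.vB h.AB, insert_subset h.tB h.TB, ?_, ?_, ?_, ?_⟩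
        · rw [Finset.disjoint_insert_left, Finset.disjoint_insert_right, mem_insert]
          refine ⟨?_, h.tA, h.dAT⟩
          rintro (e | e)
          · exact h.vt e
          · exact h.vT e
        · intro y hy w hw
          rcases mem_insert.1 hw with rfl | hw
          · rcases mem_insert.1 hy with rfl | hy
            · exact hvx
            · exact h.c2 y hy
          · rcases mem_insert.1 hy with rfl | hy
            · exact h.c3 w hw
            · exact h.c1 y hy w hw
        · rw [card_insert_of_notMem h.vA, h.cA]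
        · rw [card_insert_of_notMem h.tT, h.cT]
      · rcases mem_union.1 hx1 with hx1 | hx1
        · exfalso
          obtain ⟨y, hy⟩ := card_pos.1 (show 0 < T.card by rw [h.cT]; omega)
          exact hB.tri_free (by omega) hz h.vB (h.AB hx1) (h.TB hy) hvx (h.c1 x hx1 y hy) (h.c3 y hy)
        · exact hx1
  have := card_le_card hsub
  rwa [h.cT] at this

theorem cfgP_false {k a : ℕ} {B A T : Finset V} {c v t : V} (hB : Blk G k B c) (hk : Odd k) (hk5 : 5 ≤ k)
    (hz : ¬ ZC k G) (h : CfgP G B A T v t a) (hmax : ¬ HasK G B (a + 1)) : False := by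
  have ha := h.a2
  have hle := h.le (k := k) (by omega) hz
  have hF : insert v (insert t (A ∪ T)) ⊆ B :=
    insert_subset h.vB (insert_subset h.tB (union_subset h.AB h.TB))
  obtain ⟨D, hD, hne⟩ : ∃ D, IsComp G (B \ insert v (insert t (A ∪ T))) D ∧ ∃ x ∈ D, x ≠ c := by
    by_cases hvc : v = c
    · have htc : t ≠ c := fun e => h.vt (hvc.trans e.symm)
      have h1 := O1C_nbv hB hk5 hz h.swap hmax
      rw [O1C_comm] at h1
      exact hB.exists_comp hF (mem_insert_of_mem (mem_insert_self _ _)) htc hle h1
    · exact hB.exists_comp hF (mem_insert_self _ _) hvc hle (O1C_nbv hB hk5 hz h hmax)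
  have hD' : IsComp G (B \ insert t (insert v (T ∪ A))) D := by
    rw [O1C_comm]
    exact hD
  by_cases h1 : adjS G D (insert v A)
  · by_cases h2 : adjS G D (insert t T)
    · by_cases h3 : adjS G D T
      · exact cfgP1 hB hk hk5 hz h hmax hD hne h1 h3
      · by_cases h4 : adjS G D A
        · exact cfgP1 hB hk hk5 hz h.swap hmax hD' hne h2 h4
        · have hs : Sep G B c 3 := hB.sep3_odd hk hk5 hz
          have hFc : 5 ≤ (insert v (insert t (A ∪ T))).card := by
            rw [card_insert_of_notMem, card_insert_of_notMem, card_union_of_disjoint h.dAT, h.cA, h.cT]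
            · omega
            · rw [mem_union]
              rintro (e | e)
              · exact h.tA e
              · exact h.tT e
            · rw [mem_insert, mem_union]
              rintro (e | e | e)
              · exact h.vt e
              · exact h.vA e
              · exact h.vT e
          have h5 := hs.le_bd hF hFc hD hne
          have h6 : bd G B D ⊆ {v, t} := by
            intro w hw
            obtain ⟨hwF, x, hx, hxw⟩ := (mem_bd_comp hF hD).1 hw
            rw [mem_insert, mem_singleton]
            rcases mem_insert.1 hwF with e | hwF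
            · exact Or.inl e
            · rcases mem_insert.1 hwF with e | hwF
              · exact Or.inr e
              · rcases mem_union.1 hwF with h7 | h7
                · exact absurd ⟨x, hx, w, h7, hxw⟩ h4
                · exact absurd ⟨x, hx, w, h7, hxw⟩ h3
          have h7 := le_trans (card_le_card h6) card_le_two
          omega
    · exact cfgP2 hB hk hk5 hz h.swap hmax hD' hne h2
  · exact cfgP2 hB hk hk5 hz h hmax hD hne h1


end Pool.Agent.Lib.MP_f599e5_co
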