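import Pool.Agent.Lib.MP_f599e5_co.O1A
import Pool.Agent.Lib.MP_f599e5_co.K4

set_option autoImplicit false
set_option linter.unusedSectionVars false

/-!
# JOB O1D: configuration Q

`F = A ∪ T`, `A` complete to `T`, `|A| = a ≤ b = |T|`, every vertex of `B` complete to `A` is in `T`, every vertex of `B \ F` has at most `a - 1` neighbours in `T`, and (by `com`) at most
`a - 1` neighbours in `A`; not both kinds (a triangle otherwise: `Blk.tri_free`).
* `cfgQ_nb`: `(nb G x F).card ≤ min 1 (nb G x A).card + min 1 (nb G x T).card + (a - 2)`, `(nb G x A).card + 1 ≤ a` for `x ∈ B \ F`.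
* `cfgQ1` (`D ~ A`, `D ~ T`): `Blk.ears0` with `R1 = A`, `R2 = T`, `lam = a - 2`; `Links G F A T 1 a 2` by `bp1`; `closing_odd`: `n = k - 1 - (a-2)`, `p = a`.  (`a + 1 ≤ k` by `HasK.le`:
  take a subset of `T` with `a` elements.)
* `cfgQ2` (`D` not `~ A`): `bd G B D ⊆ T`.  It has at least 4 elements: if it had at most 3, `Blk.sep3_odd` with `S = bd G B D`, `C = D` gives `B \ (D ∪ S) ⊆ {c}`, but it contains `A` (`≥ 2`
  elements).  Choose `s1,s2,s3,s4` in it, `R1 = {s1,s2}`, `R2 = T \ R1` (`b - 2` elements, contains `s3, s4`).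
  `b > a`: `lam = a - 2`: `nb G x F = nb G x T` has at most `a - 1` elements: `≤ 1 + (a-2)`.  `Links G F R1 R2 2 a 2` by `bp2` (`X = T`, `i + 1 ≤ b`, `i ≤ a`).  `n + p = k+1-a+a`.
  `b = a` (so `a ≥ 4`): `lam = a - 3`: neighbours in both parts: `≤ a - 1 = 1 + 1 + (a-3)`; only in `R1`: `≤ 2 ≤ 1 + (a-3)`; only in `R2`: `≤ a - 2 = 1 + (a-3)`.
  `Links G F R1 R2 2 (a-1) 2` by `bp2`.  `closing_odd`: `n = k - 1 - (a-3)`, `p = a - 1`, `n + p = k + 1`.
* `cfgQ3` (`D` not `~ T`): the same with `A`: `bd G B D ⊆ A` has at least 4 elements (`T` has `≥ 2` elements), `a ≥ 4`; `R1 = {s1,s2}`, `R2 = A \ R1`, `lam = a - 3` (`(nb G x A).card ≤ a - 1`),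
  `Links G F R1 R2 2 (a-1) 2` by `bp2` with `X = A`, `Y = T`.
-/

namespace Pool.Agent.Lib.MP_f599e5_co

open Finset

variable {V : Type} [DecidableEq V] {G : SimpleGraph V}

/-- configuration Q -/
structure CfgQ (G : SimpleGraph V) (B A T : Finset V) (a b : ℕ) : Prop where
  a2 : 2 ≤ a
  ab : a ≤ b
  AB : A ⊆ B
  TB : T ⊆ B
  cA : A.card = a
  cT : T.card = b
  dAT : Disjoint A T
  c1 : Cpl G A T
  com : ∀ x ∈ B, (∀ y ∈ A, G.Adj y x) → x ∈ T
  lT : ∀ x ∈ B, x ∉ A → x ∉ T → (nb G x T).card + 1 ≤ a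

theorem cfgQ_nb {k a b : ℕ} {B A T : Finset V} {c : V} (hB : Blk G k B c) (hk5 : 5 ≤ k) (hz : ¬ ZC k G)
    (h : CfgQ G B A T a b) {x : V} (hx : x ∈ B) (hxF : x ∉ A ∪ T) :
    (nb G x A).card + 1 ≤ a ∧
      (nb G x (A ∪ T)).card ≤ min 1 (nb G x A).card + min 1 (nb G x T).card + (a - 2) := by
  rw [mem_union, not_or] at hxF
  have h1 : (nb G x A).card + 1 ≤ a := by
    by_contra hcon
    have h2 : nb G x A = A := by
      refine Finset.eq_of_subset_of_card_le (fun w hw => (mem_nb.1 hw).1) ?_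
      rw [h.cA]
      omega
    apply hxF.2
    refine h.com x hx (fun y hy => ?_)
    have h3 : y ∈ nb G x A := by rw [h2]; exact hy
    exact (mem_nb.1 h3).2.symm
  have h2 := h.lT x hx hxF.1 hxF.2
  have h3 := nb_card_union (G := G) (v := x) h.dAT
  have ha := h.a2
  have h4 : (nb G x A).card = 0 ∨ (nb G x T).card = 0 := by
    by_contra hcon
    rw [not_or] at hcon
    obtain ⟨y, hy⟩ := card_pos.1 (Nat.pos_of_ne_zero hcon.1)
    obtain ⟨z, hz'⟩ := card_pos.1 (Nat.pos_of_ne_zero hcon.2)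
    rw [mem_nb] at hy hz'
    exact hB.tri_free (by omega) hz hx (h.AB hy.1) (h.TB hz'.1) hy.2 (h.c1 y hy.1 z hz'.1) hz'.2
  refine ⟨h1, ?_⟩
  omega

private theorem O1D_FB {a b : ℕ} {B A T : Finset V} (h : CfgQ G B A T a b) : A ∪ T ⊆ B :=
  union_subset h.AB h.TB

private theorem O1D_ak {k a b : ℕ} {B A T : Finset V} (hk5 : 5 ≤ k)
    (hz : ¬ ZC k G) (h : CfgQ G B A T a b) : a + 1 ≤ k := by
  obtain ⟨T', hT', hc⟩ := Finset.exists_subset_card_eq (s := T) (n := a) (by rw [h.cT]; exact h.ab)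
  refine HasK.le (B := B) (G := G) ⟨A, T', h.AB, hT'.trans h.TB, ?_, ?_, h.cA, hc⟩ (by omega) hz
  · exact Finset.disjoint_of_subset_right hT' h.dAT
  · exact fun x hx y hy => h.c1 x hx y (hT' hy)

private theorem O1D_disj {B F D : Finset V} (hD : IsComp G (B \ F) D) : Disjoint D F := by
  rw [Finset.disjoint_left]
  exact fun x hx => (mem_sdiff.1 (hD.1 hx)).2

theorem cfgQ1 {k a b : ℕ} {B A T D : Finset V} {c : V} (hB : Blk G k B c) (hk : Odd k) (hk5 : 5 ≤ k)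
    (hz : ¬ ZC k G) (h : CfgQ G B A T a b) (hD : IsComp G (B \ (A ∪ T)) D) (hne : ∃ x ∈ D, x ≠ c)
    (h1 : adjS G D A) (h2 : adjS G D T) : False := by
  have hak := O1D_ak hk5 hz h
  have ha := h.a2
  have hadm := hB.ears0 (lam := a - 2) (R1 := A) (R2 := T) (O1D_FB h) subset_union_left subset_union_right
    h.dAT hD hne h1 h2 (fun v _ x hx hxA hxT _ => by
      rcases mem_union.1 hx with h3 | h3
      · exact hxA h3
      · exact hxT h3) (by omega)
    (fun v hv _ => (cfgQ_nb hB hk5 hz h (mem_sdiff.1 (hD.1 hv)).1 (mem_sdiff.1 (hD.1 hv)).2).2)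
  refine hz (closing_odd (p := a) (p0 := 1) (e := 2) hk hadm (O1D_disj hD) subset_union_left
    subset_union_right h.dAT (by omega) (by omega) (Or.inr rfl) (by omega) ?_)
  intro r1 hr1 r2 hr2 j hj
  have hab := h.ab
  have h3 := bp1 h.dAT h.c1 hr1 hr2 (i := j + 1) (by omega) (by rw [h.cA]; omega) (by rw [h.cT]; omega)
  have h4 : 2 * (j + 1) - 1 = 1 + j * 2 := by omega
  rwa [h4] at h3

private theorem O1D_bd {k : ℕ} {B F X Y D : Finset V} {c : V} (hB : Blk G k B c) (hk : Odd k) (hk5 : 5 ≤ k)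
    (hz : ¬ ZC k G) (hFe : F = X ∪ Y) (hF : F ⊆ B) (hXY : Disjoint X Y) (hY2 : 2 ≤ Y.card)
    (hD : IsComp G (B \ F) D) (hne : ∃ x ∈ D, x ≠ c) (hnot : ¬ adjS G D Y) :
    bd G B D ⊆ X ∧ 4 ≤ (bd G B D).card := by
  have h1 : bd G B D ⊆ X := by
    intro w hw
    obtain ⟨hwF, x, hx, hxw⟩ := (mem_bd_comp hF hD).1 hw
    rw [hFe, mem_union] at hwF
    rcases hwF with h | h
    · exact h
    · exact absurd ⟨x, hx, w, h, hxw⟩ hnot
  refine ⟨h1, ?_⟩
  by_contra hcon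
  have h2 := hB.sep3_odd hk hk5 hz (bd G B D) D (by omega)
    (fun e he => mem_sdiff.2 ⟨(mem_sdiff.1 (hD.1 he)).1, fun h => (mem_bd.1 h).2.1 he⟩) hne (Subset.refl _)
  have h3 : Y ⊆ {c} := by
    intro y hy
    have hyF : y ∈ F := by
      rw [hFe]
      exact mem_union_right _ hy
    apply h2
    refine mem_sdiff.2 ⟨hF hyF, fun h7 => ?_⟩
    rcases mem_union.1 h7 with h8 | h8
    · exact (mem_sdiff.1 (hD.1 h8)).2 hyF
    · exact Finset.disjoint_left.1 hXY (h1 h8) hy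
  have h4 := card_le_card h3
  rw [card_singleton] at h4
  omega

private theorem O1D_aux {k p lam : ℕ} {B F X Y D : Finset V} {c : V} (hB : Blk G k B c) (hk : Odd k) (hk5 : 5 ≤ k)
    (hz : ¬ ZC k G) (hFe : F = X ∪ Y) (hF : F ⊆ B) (hXY : Disjoint X Y) (hc : Cpl G X Y) (hY2 : 2 ≤ Y.card)
    (hD : IsComp G (B \ F) D) (hne : ∃ x ∈ D, x ≠ c) (hnot : ¬ adjS G D Y)
    (hp1 : 1 ≤ p) (hpX : p + 1 ≤ X.card) (hpY : p ≤ Y.card) (hlam : lam + 2 ≤ k)
    (hnp : k + 1 ≤ k - 1 - lam + p)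
    (hloss : ∀ v ∈ D, ∀ n1 n2, (nb G v X).card = n1 + n2 → n1 ≤ 2 → n2 + 2 ≤ X.card →
      n1 + n2 ≤ min 1 n1 + min 1 n2 + lam) : False := by
  obtain ⟨hbX, hb4⟩ := O1D_bd hB hk hk5 hz hFe hF hXY hY2 hD hne hnot
  obtain ⟨R1, hR1, hR1c⟩ := Finset.exists_subset_card_eq (s := bd G B D) (n := 2) (by omega)
  have hR1X : R1 ⊆ X := hR1.trans hbX
  have hXF : X ⊆ F := by rw [hFe]; exact subset_union_left
  have hd12 : Disjoint R1 (X \ R1) := disjoint_sdiff
  have hadj1 : adjS G D R1 := by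
    obtain ⟨s, hs⟩ := card_pos.1 (show 0 < R1.card by omega)
    obtain ⟨_, _, x, hx, hxs⟩ := mem_bd.1 (hR1 hs)
    exact ⟨x, hx, s, hs, hxs⟩
  have hadj2 : adjS G D (X \ R1) := by
    have h1 := Finset.le_card_sdiff R1 (bd G B D)
    obtain ⟨s, hs⟩ := card_pos.1 (show 0 < (bd G B D \ R1).card by omega)
    rw [mem_sdiff] at hs
    obtain ⟨_, _, x, hx, hxs⟩ := mem_bd.1 hs.1
    exact ⟨x, hx, s, mem_sdiff.2 ⟨hbX hs.1, hs.2⟩, hxs⟩
  have hnb : ∀ v ∈ D, (nb G v F).card = (nb G v R1).card + (nb G v (X \ R1)).card ∧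
      (nb G v X).card = (nb G v R1).card + (nb G v (X \ R1)).card := by
    intro v hv
    have h1 := nb_card_union (G := G) (v := v) hd12
    rw [union_sdiff_of_subset hR1X] at h1
    have h2 : nb G v F = nb G v X := by
      ext x
      rw [mem_nb, mem_nb]
      constructor
      · rintro ⟨hx, hvx⟩
        rw [hFe, mem_union] at hx
        rcases hx with h3 | h3
        · exact ⟨h3, hvx⟩
        · exact absurd ⟨v, hv, x, h3, hvx⟩ hnot
      · rintro ⟨hx, hvx⟩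
        exact ⟨hXF hx, hvx⟩
    rw [h2]
    exact ⟨h1, h1⟩
  have hadm := hB.ears0 (lam := lam) (R1 := R1) (R2 := X \ R1) hF (hR1X.trans hXF)
    (sdiff_subset.trans hXF) hd12 hD hne hadj1 hadj2 (fun v hv x hx hx1 hx2 hvx => by
      rw [hFe, mem_union] at hx
      rcases hx with h3 | h3
      · exact hx2 (mem_sdiff.2 ⟨h3, hx1⟩)
      · exact hnot ⟨v, hv, x, h3, hvx⟩) hlam
    (fun v hv _ => by
      obtain ⟨e1, e2⟩ := hnb v hv
      rw [e1]
      refine hloss v hv _ _ e2 ?_ ?_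
      · have h3 : (nb G v R1).card ≤ R1.card := nb_card_le
        omega
      · have h3 : (nb G v (X \ R1)).card ≤ (X \ R1).card := nb_card_le
        have h4 := card_sdiff_of_subset hR1X
        have h5 := card_le_card hR1X
        omega)
  refine hz (closing_odd (p := p) (p0 := 2) (e := 2) hk hadm (O1D_disj hD) (hR1X.trans hXF)
    (sdiff_subset.trans hXF) hd12 (by omega) hp1 (Or.inr rfl) hnp ?_)
  intro r1 hr1 r2 hr2 j hj
  have hne12 : r1 ≠ r2 := fun hh => Finset.disjoint_left.1 hd12 hr1 (hh ▸ hr2)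
  have h3 := bp2 hXY hc (hR1X hr1) (mem_sdiff.1 hr2).1 hne12 (i := j + 1) (by omega) (by omega) (by omega)
  have h4 : 2 * (j + 1) = 2 + j * 2 := by omega
  rw [h4, ← hFe] at h3
  exact h3

theorem cfgQ2 {k a b : ℕ} {B A T D : Finset V} {c : V} (hB : Blk G k B c) (hk : Odd k) (hk5 : 5 ≤ k)
    (hz : ¬ ZC k G) (h : CfgQ G B A T a b) (hD : IsComp G (B \ (A ∪ T)) D) (hne : ∃ x ∈ D, x ≠ c)
    (h1 : ¬ adjS G D A) : False := by
  have hak := O1D_ak hk5 hz h
  have ha := h.a2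
  have hab := h.ab
  have hcA := h.cA
  have hcT := h.cT
  have hlt : ∀ v ∈ D, (nb G v T).card + 1 ≤ a := by
    intro v hv
    have h2 := mem_sdiff.1 (hD.1 hv)
    rw [mem_union, not_or] at h2
    exact h.lT v h2.1 h2.2.1 h2.2.2
  have hcTA : Cpl G T A := fun x hx y hy => (h.c1 y hy x hx).symm
  have h4 := O1D_bd hB hk hk5 hz (X := T) (Y := A) (union_comm A T) (O1D_FB h) h.dAT.symm (by omega) hD hne h1
  have h5 := card_le_card h4.1
  by_cases hlt' : a < b
  · refine O1D_aux (p := a) (lam := a - 2) hB hk hk5 hz (X := T) (Y := A) (union_comm A T) (O1D_FB h)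
      h.dAT.symm hcTA (by omega) hD hne h1 (by omega) (by omega) (by omega) (by omega) (by omega) ?_
    intro v hv n1 n2 e1 _ _
    have h3 := hlt v hv
    omega
  · refine O1D_aux (p := a - 1) (lam := a - 3) hB hk hk5 hz (X := T) (Y := A) (union_comm A T) (O1D_FB h)
      h.dAT.symm hcTA (by omega) hD hne h1 (by omega) (by omega) (by omega) (by omega) (by omega) ?_
    intro v hv n1 n2 e1 _ _
    have h3 := hlt v hv
    omega

theorem cfgQ3 {k a b : ℕ} {B A T D : Finset V} {c : V} (hB : Blk G k B c) (hk : Odd k) (hk5 : 5 ≤ k)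
    (hz : ¬ ZC k G) (h : CfgQ G B A T a b) (hD : IsComp G (B \ (A ∪ T)) D) (hne : ∃ x ∈ D, x ≠ c)
    (h1 : ¬ adjS G D T) : False := by
  have hak := O1D_ak hk5 hz h
  have ha := h.a2
  have hab := h.ab
  have hcA := h.cA
  have hcT := h.cT
  have hlt : ∀ v ∈ D, (nb G v A).card + 1 ≤ a := by
    intro v hv
    exact (cfgQ_nb hB hk5 hz h (mem_sdiff.1 (hD.1 hv)).1 (mem_sdiff.1 (hD.1 hv)).2).1
  have h4 := O1D_bd hB hk hk5 hz (X := A) (Y := T) rfl (O1D_FB h) h.dAT (by omega) hD hne h1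
  have h5 := card_le_card h4.1
  refine O1D_aux (p := a - 1) (lam := a - 3) hB hk hk5 hz (X := A) (Y := T) rfl (O1D_FB h)
    h.dAT h.c1 (by omega) hD hne h1 (by omega) (by omega) (by omega) (by omega) (by omega) ?_
  intro v hv n1 n2 e1 _ _
  have h3 := hlt v hv
  omega


end Pool.Agent.Lib.MP_f599e5_co
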