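import Pool.Agent.Lib.MP_f599e5_co.O1C
import Pool.Agent.Lib.MP_f599e5_co.O1D

set_option autoImplicit false
set_option linter.unusedSectionVars false

/-!
# JOB O1E: no 4-cycle for odd `k ≥ 5` (3.1)

* `cfgQ_comp`: there is a component `D` of `B \ (A ∪ T)` with a vertex `≠ c`.  `T` is independent (triangles), so `(nb G t (A ∪ T)).card ≤ a` for `t ∈ T`; `a + 1 ≤ k` (`HasK.le`, a subset of `T` with
  `a` elements).  If some `t ∈ T`, `t ≠ c`, has a neighbour `y ∈ B \ (A ∪ T)`, `y ≠ c`: take the component of `y`.  Otherwise every `t ∈ T`, `t ≠ c`, has (`≥ k - a ≥ 1` neighbours in `B \ (A ∪ T)`)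
  `c` as a neighbour, `c ∈ B \ (A ∪ T)`; so `c ∉ T` and `nb G c T = T` has `b ≥ a` elements, contradiction to `lT`.
* `cfgQ_false`: `cfgQ_comp` and `cfgQ1`, `cfgQ2`, `cfgQ3`.
* `Blk.c4_free`: the 4-cycle gives `HasK G B 2` (`A = {x,z}`, `T = {y,w}`; they are disjoint as adjacent vertices are different).  Let `a ≥ 2` be maximal with `HasK G B a` (`a ≤ B.card`;
  `Nat.findGreatest` or strong induction); so `¬ HasK G B (a+1)`.  If there is a `CfgP G B A T v t a`: `cfgP_false`.  Otherwise consider all `A ⊆ B`, `A.card = a`, such that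
  the set `T(A) = B.filter (fun x => ∀ y ∈ A, G.Adj y x)` (classical) has at least `a` elements; there is one (from `HasK`).  Choose `A` with `b = T(A).card` maximum
  (`Finset.exists_max_image` on `B.powerset.filter ..`).  `CfgQ G B A T(A) a b`: `dAT`: `x ∈ A ∩ T(A)` would be adjacent to itself; `lT`: let `x ∈ B \ (A ∪ T)`, suppose
  `(nb G x T).card ≥ a`.  If `b > a`: choose `T1 ⊆ nb G x T` with `a` elements and `t ∈ T \ T1`: `CfgP G B A T1 x t a`, contradiction.  If `b = a`: `nb G x T = T`, then `T` (with `a` elements) has the common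
  neighbours `A ∪ {x}`, i.e. `T(T)` has at least `a + 1 > b` elements, contradiction to the choice of `A`.  Then `cfgQ_false`.
-/

namespace Pool.Agent.Lib.MP_f599e5_co

open Finset

variable {V : Type} [DecidableEq V] {G : SimpleGraph V}

theorem cfgQ_comp {k a b : ℕ} {B A T : Finset V} {c : V} (hB : Blk G k B c) (hk5 : 5 ≤ k)
    (hz : ¬ ZC k G) (h : CfgQ G B A T a b) : ∃ D, IsComp G (B \ (A ∪ T)) D ∧ ∃ x ∈ D, x ≠ c := by
  have ha := h.a2
  have hab := h.ab
  have hF : A ∪ T ⊆ B := union_subset h.AB h.TB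
  have hak : a + 1 ≤ k := by
    obtain ⟨T1, hT1, hc1⟩ := Finset.exists_subset_card_eq (show a ≤ T.card by rw [h.cT]; exact hab)
    refine HasK.le (G := G) (B := B) (a := a) ⟨A, T1, h.AB, hT1.trans h.TB,
      disjoint_of_subset_right hT1 h.dAT, fun x hx y hy => h.c1 x hx y (hT1 hy), h.cA, hc1⟩ (by omega) hz
  obtain ⟨x0, hx0⟩ := card_pos.1 (show 0 < A.card by rw [h.cA]; omega)
  have hind : ∀ t ∈ T, ∀ t' ∈ T, ¬ G.Adj t t' := by
    intro t ht t' ht' htt
    exact hB.tri_free (by omega) hz (h.AB hx0) (h.TB ht) (h.TB ht') (h.c1 x0 hx0 t ht) htt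
      (h.c1 x0 hx0 t' ht')
  by_cases hex : ∃ t ∈ T, t ≠ c ∧ ∃ y ∈ B \ (A ∪ T), y ≠ c ∧ G.Adj t y
  · obtain ⟨t, ht, htc, y, hy, hyc, hty⟩ := hex
    obtain ⟨D, hyD, hD⟩ := exists_comp (G := G) hy
    exact ⟨D, hD, y, hyD, hyc⟩
  · exfalso
    push Not at hex
    -- every `t ∈ T`, `t ≠ c`, is adjacent to `c`, and `c ∉ A ∪ T`
    have hkey : ∀ t ∈ T, t ≠ c → c ∈ B \ (A ∪ T) ∧ G.Adj t c := by
      intro t ht htc
      have h1 := hB.deg t (h.TB ht) htc
      have h2 : (nb G t B).card ≤ (nb G t A).card + (nb G t (B \ (A ∪ T))).card := by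
        refine nb_card_le_add ?_
        intro x hx htx
        by_cases hxA : x ∈ A
        · exact Or.inl hxA
        · refine Or.inr (mem_sdiff.2 ⟨hx, ?_⟩)
          rw [mem_union]
          rintro (e | e)
          · exact hxA e
          · exact hind t ht x e htx
      have h3 := nb_card_le (G := G) (v := t) (A := A)
      rw [h.cA] at h3
      obtain ⟨y, hy⟩ := card_pos.1 (show 0 < (nb G t (B \ (A ∪ T))).card by omega)
      rw [mem_nb] at hy
      have h4 : y = c := by
        by_contra hyc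
        exact hex t ht htc y hy.1 hyc hy.2
      rw [h4] at hy
      exact hy
    obtain ⟨t, ht, htc⟩ := exists_mem_ne (show 1 < T.card by rw [h.cT]; omega) c
    obtain ⟨hc1, _⟩ := hkey t ht htc
    obtain ⟨hcB, hcF⟩ := mem_sdiff.1 hc1
    rw [mem_union, not_or] at hcF
    have h5 := h.lT c hcB hcF.1 hcF.2
    have h6 : nb G c T = T := by
      ext t'
      rw [mem_nb]
      constructor
      · exact fun h7 => h7.1
      · intro ht'
        exact ⟨ht', (hkey t' ht' (fun e => hcF.2 (e ▸ ht'))).2.symm⟩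
    rw [h6, h.cT] at h5
    omega

theorem cfgQ_false {k a b : ℕ} {B A T : Finset V} {c : V} (hB : Blk G k B c) (hk : Odd k) (hk5 : 5 ≤ k)
    (hz : ¬ ZC k G) (h : CfgQ G B A T a b) : False := by
  obtain ⟨D, hD, hne⟩ := cfgQ_comp hB hk5 hz h
  by_cases h1 : adjS G D A
  · by_cases h2 : adjS G D T
    · exact cfgQ1 hB hk hk5 hz h hD hne h1 h2
    · exact cfgQ3 hB hk hk5 hz h hD hne h2
  · exact cfgQ2 hB hk hk5 hz h hD hne h1

theorem Blk.c4_free {k : ℕ} {B : Finset V} {c x y z w : V} (hB : Blk G k B c) (hk : Odd k) (hk5 : 5 ≤ k)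
    (hz : ¬ ZC k G) (hx : x ∈ B) (hy : y ∈ B) (hzB : z ∈ B) (hw : w ∈ B) (hxz : x ≠ z) (hyw : y ≠ w)
    (h1 : G.Adj x y) (h2 : G.Adj y z) (h3 : G.Adj z w) (h4 : G.Adj w x) : False := by
  classical
  have hK2 : HasK G B 2 := by
    refine ⟨{x, z}, {y, w}, ?_, ?_, ?_, ?_, card_pair hxz, card_pair hyw⟩
    · intro v hv
      rw [mem_insert, mem_singleton] at hv
      rcases hv with rfl | rfl
      · exact hx
      · exact hzB
    · intro v hv
      rw [mem_insert, mem_singleton] at hv
      rcases hv with rfl | rfl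
      · exact hy
      · exact hw
    · rw [disjoint_left]
      intro v hv hv'
      rw [mem_insert, mem_singleton] at hv hv'
      rcases hv with rfl | rfl <;> rcases hv' with e | e
      · exact h1.ne e
      · exact h4.ne e.symm
      · exact h2.ne e.symm
      · exact h3.ne e
    · intro v hv v' hv'
      rw [mem_insert, mem_singleton] at hv hv'
      rcases hv with rfl | rfl <;> rcases hv' with rfl | rfl
      · exact h1
      · exact h4.symm
      · exact h2.symm
      · exact h3
  obtain ⟨a, ha2, hKa, hKa1⟩ : ∃ a, 2 ≤ a ∧ HasK G B a ∧ ¬ HasK G B (a + 1) := by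
    by_contra hcon
    push Not at hcon
    have hall : ∀ n, HasK G B (n + 2) := by
      intro n
      induction n with
      | zero => exact hK2
      | succ n ih => exact hcon (n + 2) (by omega) ih
    obtain ⟨A, T, hA, _, _, _, hc, _⟩ := hall B.card
    have := card_le_card hA
    omega
  by_cases hP : ∃ (A T : Finset V) (v t : V), CfgP G B A T v t a
  · obtain ⟨A, T, v, t, hP⟩ := hP
    exact cfgP_false hB hk hk5 hz hP hKa1
  · let TA : Finset V → Finset V := fun A => B.filter (fun x => ∀ y ∈ A, G.Adj y x)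
    have hTA : ∀ (A : Finset V) (x : V), x ∈ TA A ↔ x ∈ B ∧ ∀ y ∈ A, G.Adj y x := fun A x => mem_filter
    let Fam : Finset (Finset V) := B.powerset.filter (fun A => A.card = a ∧ a ≤ (TA A).card)
    have hFam : ∀ A, A ∈ Fam ↔ A ⊆ B ∧ A.card = a ∧ a ≤ (TA A).card := by
      intro A
      rw [mem_filter, mem_powerset]
    have hFne : Fam.Nonempty := by
      obtain ⟨A, T, hA, hT, hd, hc, hcA, hcT⟩ := hKa
      refine ⟨A, (hFam A).2 ⟨hA, hcA, ?_⟩⟩
      rw [← hcT]
      refine card_le_card ?_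
      intro v hv
      rw [hTA]
      exact ⟨hT hv, fun y hy => hc y hy v hv⟩
    obtain ⟨A, hA, hmax⟩ := Finset.exists_max_image Fam (fun A => (TA A).card) hFne
    obtain ⟨hAB, hcA, haT⟩ := (hFam A).1 hA
    have hQ : CfgQ G B A (TA A) a (TA A).card := by
      refine ⟨ha2, haT, hAB, fun v hv => ((hTA A v).1 hv).1, hcA, rfl, ?_,
        fun v hv v' hv' => ((hTA A v').1 hv').2 v hv, fun v hv hv' => (hTA A v).2 ⟨hv, hv'⟩, ?_⟩
      · rw [disjoint_left]
        intro v hv hv'
        exact G.loopless.irrefl _ (((hTA A v).1 hv').2 v hv)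
      · intro v hv hvA hvT
        by_contra hcon
        have h5 : a ≤ (nb G v (TA A)).card := by omega
        by_cases hb : a < (TA A).card
        · apply hP
          obtain ⟨T1, hT1, hc1⟩ := Finset.exists_subset_card_eq h5
          have hT1s : T1 ⊆ TA A := fun y hy => (mem_nb.1 (hT1 hy)).1
          obtain ⟨t, ht⟩ : ((TA A) \ T1).Nonempty := by
            rw [← card_pos, card_sdiff_of_subset hT1s]
            omega
          obtain ⟨ht1, ht2⟩ := mem_sdiff.1 ht
          have hdA : ∀ y ∈ A, y ∉ TA A := fun y hy hy' =>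
            G.loopless.irrefl _ (((hTA A y).1 hy').2 y hy)
          refine ⟨A, T1, v, t, ha2, hAB, fun y hy => ((hTA A y).1 (hT1s hy)).1, hv,
            ((hTA A t).1 ht1).1, hcA, hc1, ?_, hvA, fun e => hvT (hT1s e), fun e => hdA t e ht1, ht2,
            fun e => hvT (e ▸ ht1), fun y hy y' hy' => ((hTA A y').1 (hT1s hy')).2 y hy,
            ((hTA A t).1 ht1).2, fun y hy => (mem_nb.1 (hT1 hy)).2⟩
          rw [disjoint_left]
          exact fun y hy hy' => hdA y hy (hT1s hy')
        · have hbe : (TA A).card = a := by omega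
          have h6 : nb G v (TA A) = TA A :=
            eq_of_subset_of_card_le (fun y hy => (mem_nb.1 hy).1) (by omega)
          have hTB : TA A ⊆ B := fun y hy => ((hTA A y).1 hy).1
          have h7 : insert v A ⊆ TA (TA A) := by
            intro y hy
            rw [hTA]
            rcases mem_insert.1 hy with rfl | hy
            · refine ⟨hv, fun y' hy' => ?_⟩
              rw [← h6] at hy'
              exact (mem_nb.1 hy').2.symm
            · exact ⟨hAB hy, fun y' hy' => (((hTA A y').1 hy').2 y hy).symm⟩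
          have h8 := card_le_card h7
          rw [card_insert_of_notMem hvA, hcA] at h8
          have h9 := hmax (TA A) ((hFam _).2 ⟨hTB, hbe, by omega⟩)
          omega
    exact cfgQ_false hB hk hk5 hz hQ

/-- girth at least 5 for odd `k ≥ 5` -/
theorem Blk.girth5 {k : ℕ} {B : Finset V} {c : V} (hB : Blk G k B c) (hk : Odd k) (hk5 : 5 ≤ k)
    (hz : ¬ ZC k G) {n : ℕ} (h : CycS G B n) : 5 ≤ n := by
  obtain ⟨f, hn, hf, hcl, hfB⟩ := h.toF
  by_contra hlt
  have h34 : n = 3 ∨ n = 4 := by omega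
  rcases h34 with h3 | h4
  · subst h3
    exact hB.tri_free (by omega) hz (hfB 0 (by omega)) (hfB 1 (by omega)) (hfB 2 (by omega)) (hf.adj 0 (by omega))
      (hf.adj 1 (by omega)) hcl.symm
  · subst h4
    refine hB.c4_free hk hk5 hz (hfB 0 (by omega)) (hfB 1 (by omega)) (hfB 2 (by omega)) (hfB 3 (by omega)) ?_ ?_
      (hf.adj 0 (by omega)) (hf.adj 1 (by omega)) (hf.adj 2 (by omega)) hcl
    · intro e
      have := hf.inj 0 2 (by omega) (by omega) e
      omega
    · intro e
      have := hf.inj 1 3 (by omega) (by omega) e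
      omega


end Pool.Agent.Lib.MP_f599e5_co
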