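import Pool.Agent.Lib.MP_f599e5_co.K4

set_option autoImplicit false
set_option linter.unusedSectionVars false

/-!
# JOB O2A: Lemma U, lobes

`UF G B F`: `F ⊆ B`, at least 5 elements, every vertex of `B \ F` has at most one neighbour in `F`, `F` connected.
`lobe`: `D` a component of `B \ F`, `w ∈ D`, `L'` a component of `D.erase w` with a vertex `≠ c`.
 Among the sets `L ⊆ L'` with a vertex `≠ c` and `(bd G D L).card ≤ 1` (`L'` is one of them: `bd G D L' ⊆ {w}`) choose one, `L`, of minimum cardinality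
 (`Finset.exists_min_image` over a filter of `L'.powerset`).  Then:
 * `L` is connected: let `C ⊆ L` be the component of `L` containing a vertex `v ≠ c` of `L` (`exists_conn_part`, B3: `bd G D C ⊆ bd G D L`); by minimality `C = L`.
 * `L ≠ D` (`w ∉ L`), so `bd G D L` is nonempty (`Conn.bd_nonempty`), `bd G D L = {w'}`; `w' ∉ L` and `w' ∈ insert w L'`: `w'` has a neighbour in `L ⊆ L'`, so it is in `L'` or equals `w`
   (`L'` is closed in `D.erase w`).
 * `bd G B L ⊆ F ∪ {w'}` (`comp_nb`).  By `Blk.sep2_odd` it has at least 3 elements: otherwise, with `S = bd G B L`, `B \ (L ∪ S) ⊆ {c}`, but `F \ S` has `≥ 3` elements not in `L`.  So at least two elements of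
   `F` are adjacent to `L`: `x ≠ y`.
 * For `x ∈ F` adjacent to `L`: `Adm G (k-2) L {x} {w'}`: `Blk.ears` for the set `F' = insert w' F`, `D := L` (a component of `B \ F'`: `L ⊆ B \ F'`, `bd G (B \ F') L = ∅`, connected),
   `R1 = {x}`, `R2 = {w'}`, `lam = 1`: `nb G v F'` has at most `(nb G v F).card + min 1 (nb G v {w'}).card ≤ 1 + ..` elements; `he` vacuous (`k - 2 ≥ 3`).
   `Rz G L {x} {w'} c`: `r1`: `C = L`, adjacent to `x` and `w'`.  `r2`: `C ⊆ L` with a vertex `≠ c`, `(bd G L C).card ≤ 1`, `C` not adjacent to `w'`: then `bd G D C = bd G L C` (neighbours of `C` in `D` are in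
   `L ∪ {w'}`), so `C = L` by minimality (`C ⊆ L ⊆ L'`), but `L` is adjacent to `w'`; contradiction.
-/

namespace Pool.Agent.Lib.MP_f599e5_co

open Finset

variable {V : Type} [DecidableEq V] {G : SimpleGraph V}

/-- hypotheses of Lemma U -/
structure UF (G : SimpleGraph V) (B F : Finset V) : Prop where
  FB : F ⊆ B
  card : 5 ≤ F.card
  one : ∀ x ∈ B, x ∉ F → (nb G x F).card ≤ 1
  conn : Conn G F

theorem lobe {k : ℕ} {B F D L' : Finset V} {c w : V} (hB : Blk G k B c) (hk : Odd k) (hk5 : 5 ≤ k)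
    (hz : ¬ ZC k G) (hU : UF G B F) (hD : IsComp G (B \ F) D) (hw : w ∈ D) (hL : IsComp G (D.erase w) L')
    (hne : ∃ v ∈ L', v ≠ c) :
    ∃ (L : Finset V) (w' : V), L ⊆ L' ∧ Conn G L ∧ w' ∈ insert w L' ∧ w' ∉ L ∧ bd G D L = {w'} ∧
      (∃ x ∈ F, ∃ y ∈ F, x ≠ y ∧ (∃ u ∈ L, G.Adj u x) ∧ (∃ u ∈ L, G.Adj u y)) ∧
      (∀ x ∈ F, (∃ u ∈ L, G.Adj u x) → Adm G (k - 2) L {x} {w'}) := by
  classical
  have hL'D : L' ⊆ D := fun x hx => mem_of_mem_erase (hL.1 hx)
  have hDB : ∀ x ∈ D, x ∈ B ∧ x ∉ F := fun x hx => mem_sdiff.1 (hD.1 hx)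
  have hclos : ∀ x ∈ D, ∀ y ∈ L', G.Adj y x → x = w ∨ x ∈ L' := by
    intro x hx y hy hxy
    by_contra hcon
    push Not at hcon
    have h1 : x ∈ bd G (D.erase w) L' :=
      mem_bd.2 ⟨mem_erase.2 ⟨hcon.1, hx⟩, hcon.2, y, hy, hxy⟩
    rw [hL.2.1] at h1
    exact absurd h1 (notMem_empty x)
  have hbdL' : bd G D L' ⊆ {w} := by
    intro x hx
    obtain ⟨hxD, hxL, y, hy, hxy⟩ := mem_bd.1 hx
    rcases hclos x hxD y hy hxy with h | h
    · exact mem_singleton.2 h
    · exact absurd h hxL
  -- the minimal set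
  let Fam : Finset (Finset V) := L'.powerset.filter (fun L => (∃ v ∈ L, v ≠ c) ∧ (bd G D L).card ≤ 1)
  have hFam : Fam.Nonempty := by
    refine ⟨L', mem_filter.2 ⟨mem_powerset.2 (Subset.refl _), hne, ?_⟩⟩
    exact (card_le_card hbdL').trans (by simp)
  obtain ⟨L, hLF, hmin⟩ := exists_min_image Fam (fun L => L.card) hFam
  obtain ⟨hLp, ⟨v, hvL, hvc⟩, hLbd⟩ := mem_filter.1 hLF
  have hLL' : L ⊆ L' := mem_powerset.1 hLp
  have hLD : L ⊆ D := hLL'.trans hL'D
  have hminL : ∀ C : Finset V, C ⊆ L → (∃ v ∈ C, v ≠ c) → (bd G D C).card ≤ 1 → C = L := by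
    intro C hC hCne hCbd
    have h1 : C ∈ Fam := mem_filter.2 ⟨mem_powerset.2 (hC.trans hLL'), hCne, hCbd⟩
    exact eq_of_subset_of_card_le hC (hmin C h1)
  have hconn : Conn G L := by
    obtain ⟨C0, hvC, hC0, hbdC⟩ := exists_conn_part (G := G) hLD hvL
    have h1 : C0 = L := hminL C0 hC0.1 ⟨v, hvC, hvc⟩ ((card_le_card hbdC).trans hLbd)
    rw [h1] at hC0
    exact hC0.2.2
  have hwL : w ∉ L := fun h => (mem_erase.1 (hL.1 (hLL' h))).1 rfl
  have hLneD : L ≠ D := by
    intro h
    rw [h] at hwL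
    exact hwL hw
  have hbdne : (bd G D L).Nonempty := hD.2.2.bd_nonempty hLD ⟨v, hvL⟩ hLneD
  obtain ⟨w', hw'⟩ := card_eq_one.1 (le_antisymm hLbd hbdne.card_pos)
  have hw'bd : w' ∈ bd G D L := by rw [hw']; exact mem_singleton_self _
  obtain ⟨hw'D, hw'L, y0, hy0L, hy0w⟩ := mem_bd.1 hw'bd
  have hinD : ∀ x ∈ D, x ∉ L → ∀ y ∈ L, G.Adj y x → x = w' := by
    intro x hx hxL y hy hxy
    have h1 : x ∈ bd G D L := mem_bd.2 ⟨hx, hxL, y, hy, hxy⟩
    rw [hw'] at h1
    exact mem_singleton.1 h1
  have hw'ins : w' ∈ insert w L' := by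
    rcases hclos w' hw'D y0 (hLL' hy0L) hy0w with h | h
    · exact mem_insert.2 (Or.inl h)
    · exact mem_insert.2 (Or.inr h)
  have hsep : Sep G B c 2 := hB.sep2_odd hk (by omega) hz
  have hinB : ∀ x ∈ B, x ∉ L → ∀ y ∈ L, G.Adj y x → x = w' ∨ x ∈ F := by
    intro x hx hxL y hy hxy
    rcases comp_nb hU.FB hD (hLD hy) hx hxy with h | h
    · exact Or.inl (hinD x h hxL y hy hxy)
    · exact Or.inr h
  refine ⟨L, w', hLL', hconn, hw'ins, hw'L, hw', ?_, ?_⟩
  · -- two attachments
    let T : Finset V := F.filter (fun x => ∃ u ∈ L, G.Adj u x)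
    by_cases hT : 2 ≤ T.card
    · obtain ⟨x, hx, y, hy, hxy⟩ := one_lt_card.1 hT
      obtain ⟨hx1, hx2⟩ := mem_filter.1 hx
      obtain ⟨hy1, hy2⟩ := mem_filter.1 hy
      exact ⟨x, hx1, y, hy1, hxy, hx2, hy2⟩
    · exfalso
      have hS : bd G B L ⊆ insert w' T := by
        intro x hx
        obtain ⟨hxB, hxL, y, hy, hxy⟩ := mem_bd.1 hx
        rcases hinB x hxB hxL y hy hxy with h | h
        · exact mem_insert.2 (Or.inl h)
        · exact mem_insert.2 (Or.inr (mem_filter.2 ⟨h, y, hy, hxy⟩))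
      have hTc : (insert w' T).card ≤ T.card + 1 := card_insert_le _ _
      have hSc : (bd G B L).card ≤ 2 := (card_le_card hS).trans (by omega)
      have hLB : L ⊆ B \ bd G B L := by
        intro x hx
        exact mem_sdiff.2 ⟨(hDB x (hLD hx)).1, fun h => (mem_bd.1 h).2.1 hx⟩
      have h1 := hsep (bd G B L) L hSc hLB ⟨v, hvL, hvc⟩ (Subset.refl _)
      have h2 : F \ bd G B L ⊆ {c} := by
        intro x hx
        obtain ⟨hxF, hxb⟩ := mem_sdiff.1 hx
        refine h1 (mem_sdiff.2 ⟨hU.FB hxF, fun h => ?_⟩)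
        rcases mem_union.1 h with h3 | h3
        · exact (hDB x (hLD h3)).2 hxF
        · exact hxb h3
      have h3 := card_le_card h2
      have h4 := le_card_sdiff (bd G B L) F
      have h5 := hU.card
      simp only [card_singleton] at h3
      omega
  · -- admissible paths
    intro x hxF hxL
    have hF' : insert w' F ⊆ B := by
      intro z hz'
      rcases mem_insert.1 hz' with h | h
      · rw [h]
        exact (hDB w' hw'D).1
      · exact hU.FB h
    have hxw : x ≠ w' := by
      rintro rfl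
      exact (hDB x hw'D).2 hxF
    have hDL : IsComp G (B \ insert w' F) L := by
      refine ⟨?_, ?_, hconn⟩
      · intro z hz'
        refine mem_sdiff.2 ⟨(hDB z (hLD hz')).1, fun h => ?_⟩
        rcases mem_insert.1 h with h1 | h1
        · rw [h1] at hz'
          exact hw'L hz'
        · exact (hDB z (hLD hz')).2 h1
      · rw [eq_empty_iff_forall_notMem]
        intro z hz'
        obtain ⟨hzB, hzL, y, hy, hyz⟩ := mem_bd.1 hz'
        obtain ⟨hzB1, hzF⟩ := mem_sdiff.1 hzB
        rcases hinB z hzB1 hzL y hy hyz with h | h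
        · exact hzF (mem_insert.2 (Or.inl h))
        · exact hzF (mem_insert.2 (Or.inr h))
    have hadjw : adjS G L {w'} := ⟨y0, hy0L, w', mem_singleton_self _, hy0w⟩
    have hadjx : adjS G L {x} := by
      obtain ⟨u, hu, hux⟩ := hxL
      exact ⟨u, hu, x, mem_singleton_self _, hux⟩
    have hRz : Rz G L {x} {w'} c := by
      refine ⟨⟨v, hvL, hvc⟩, ?_, ?_⟩
      · intro C hC hCne hCb
        obtain ⟨u, hu, _⟩ := hCne
        have h1 : C = L := hconn.2 C hC ⟨u, hu⟩ hCb
        rw [h1]
        exact ⟨hadjx, hadjw⟩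
      · intro C hC hCne hCb
        by_cases hCw : adjS G C {w'}
        · exact Or.inr hCw
        · exfalso
          have h1 : bd G D C = bd G L C := by
            refine bd_eq_of hC hLD ?_
            intro u hu z hz' huz
            by_contra hzL
            have h2 := hinD z hz' hzL u (hC hu) huz
            rw [h2] at huz
            exact hCw ⟨u, hu, w', mem_singleton_self _, huz⟩
          have h2 : C = L := hminL C hC hCne (by rw [h1]; exact hCb)
          rw [h2] at hCw
          exact hCw hadjw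
    have h1 := hB.ears (lam := 1) (F := insert w' F) (R1 := {x}) (R2 := {w'}) hF'
      (by
        intro z hz'
        rw [mem_singleton.1 hz']
        exact mem_insert.2 (Or.inr hxF))
      (by
        intro z hz'
        rw [mem_singleton.1 hz']
        exact mem_insert_self _ _)
      (by
        rw [disjoint_singleton]
        exact hxw) hDL hRz (by omega)
      (by
        intro u hu _
        have h2 : (nb G u F).card ≤ 1 := hU.one u (hDB u (hLD hu)).1 (hDB u (hLD hu)).2
        have h3 : (nb G u {w'}).card ≤ 1 := by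
          have : nb G u {w'} ⊆ {w'} := fun z hz' => (mem_nb.1 hz').1
          exact (card_le_card this).trans (by simp)
        have h4 : (nb G u (insert w' F)).card ≤ (nb G u {w'}).card + (nb G u F).card := by
          have : insert w' F = {w'} ∪ F := rfl
          rw [this, nb_union]
          exact card_union_le _ _
        have h5 : min 1 (nb G u {w'}).card = (nb G u {w'}).card := min_eq_right h3
        rw [h5]
        omega)
      (by
        intro h
        omega)
    have h6 : k - 1 - 1 = k - 2 := by omega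
    rwa [h6] at h1


end Pool.Agent.Lib.MP_f599e5_co
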