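import Pool.Agent.Lib.MP_f599e5_co.O2A
import Pool.Agent.Lib.MP_f599e5_co.K3

set_option autoImplicit false
set_option linter.unusedSectionVars false

/-!
# JOB O2B: Lemma U0 and U1

* `lemU0`: suppose `L1' ≠ L2'`; they are disjoint (`IsComp.disjoint`).  `lobe` gives `L1, w1` and `L2, w2`.  Choose `x1 ∈ F` adjacent to `L1`, `x2 ∈ F` adjacent to `L2`, `x1 ≠ x2` (`L2` is adjacent to two different
  elements of `F`).  `Adm G (k-2) L1 {x1} {w1}`, `Adm G (k-2) L2 {x2} {w2}`.  `w1 ∈ insert w L1'` is not in `L2 ⊆ L2'`, `w2 ∉ L1`.  `D \ L1` is connected (`Conn.sdiff`, `bd G D L1 = {w1}`) and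
  `(D \ L1) \ L2` is connected (`Conn.sdiff`, `bd G (D \ L1) L2 ⊆ bd G D L2 = {w2}`), it contains `w1, w2`: path in `S2 := (D \ L1) \ L2` of some length `b`.  `x1`, `x2` are joined in `F`.
  `closing2_odd` with `D1 = L1`, `D2 = L2`, `S1 = F`, `S2`, `n = p = k - 2` (`k + 1 ≤ 2(k-2)` as `k ≥ 5`): `ZC k G`, contradiction.
* `lemU1`: `Blk.ears` with `R1 = {x}`, `R2 = {y}`, `lam = 1` (`(nb G v F).card ≤ 1`), `he` vacuous.  `Rz G D {x} {y} c`: `r1`: `C = D`.  `r2`: `C ⊆ D` with `v ∈ C`, `v ≠ c`, `(bd G D C).card ≤ 1`, `C` not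
  adjacent to `x, y`: `C ≠ D`, so `bd G D C = {w}` (`Conn.bd_nonempty`).  `u1 ≠ u2` (otherwise `u1` has two neighbours in `F`), so one of them, `u`, is `≠ w`; `u ∉ C`.
  The component of `D.erase w` containing `v` is contained in `C` (`C` is closed in `D.erase w`: `IsComp.subset_of_closed`), the one containing `u` is different; both contain vertices `≠ c`: contradiction
  to `lemU0`.
-/

namespace Pool.Agent.Lib.MP_f599e5_co

open Finset

variable {V : Type} [DecidableEq V] {G : SimpleGraph V}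

theorem lemU0 {k : ℕ} {B F D L1 L2 : Finset V} {c w : V} (hB : Blk G k B c) (hk : Odd k) (hk5 : 5 ≤ k)
    (hz : ¬ ZC k G) (hU : UF G B F) (hD : IsComp G (B \ F) D) (hw : w ∈ D) (h1 : IsComp G (D.erase w) L1)
    (h2 : IsComp G (D.erase w) L2) (hne1 : ∃ v ∈ L1, v ≠ c) (hne2 : ∃ v ∈ L2, v ≠ c) : L1 = L2 := by
  by_contra hne
  have hdis : Disjoint L1 L2 := h1.disjoint h2 hne
  obtain ⟨M1, w1, hM1, hc1, hw1, hw1M, hb1, ⟨x, hxF, x', hx'F, hxx', hax, hax'⟩, hadm1⟩ :=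
    lobe hB hk hk5 hz hU hD hw h1 hne1
  obtain ⟨M2, w2, hM2, hc2, hw2, hw2M, hb2, ⟨y, hyF, y', hy'F, hyy', hay, hay'⟩, hadm2⟩ :=
    lobe hB hk hk5 hz hU hD hw h2 hne2
  obtain ⟨x2, hx2F, hx2a, hx2x⟩ : ∃ x2 ∈ F, (∃ u ∈ M2, G.Adj u x2) ∧ x2 ≠ x := by
    by_cases h : y = x
    · exact ⟨y', hy'F, hay', fun h' => hyy' (h.trans h'.symm)⟩
    · exact ⟨y, hyF, hay, h⟩
  have hA1 := hadm1 x hxF hax
  have hA2 := hadm2 x2 hx2F hx2a
  have hL1D : L1 ⊆ D := fun z hz => mem_of_mem_erase (h1.1 hz)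
  have hL2D : L2 ⊆ D := fun z hz => mem_of_mem_erase (h2.1 hz)
  have hM1D : M1 ⊆ D := hM1.trans hL1D
  have hM2D : M2 ⊆ D := hM2.trans hL2D
  have hwL1 : w ∉ L1 := fun h => (mem_erase.1 (h1.1 h)).1 rfl
  have hwL2 : w ∉ L2 := fun h => (mem_erase.1 (h2.1 h)).1 rfl
  have hDF : Disjoint D F := by
    rw [Finset.disjoint_left]
    exact fun z hz hzF => (mem_sdiff.1 (hD.1 hz)).2 hzF
  have hMM : Disjoint M1 M2 := disjoint_of_subset_left hM1 (disjoint_of_subset_right hM2 hdis)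
  have hw1M2 : w1 ∉ M2 := by
    intro h
    rcases mem_insert.1 hw1 with h3 | h3
    · exact hwL2 (h3 ▸ hM2 h)
    · exact Finset.disjoint_left.1 hdis h3 (hM2 h)
  have hw2M1 : w2 ∉ M1 := by
    intro h
    rcases mem_insert.1 hw2 with h3 | h3
    · exact hwL1 (h3 ▸ hM1 h)
    · exact Finset.disjoint_left.1 hdis (hM1 h) h3
  have hw1D : w1 ∈ D := by
    have h : w1 ∈ bd G D M1 := by rw [hb1]; exact mem_singleton_self _
    exact (mem_bd.1 h).1
  have hw2D : w2 ∈ D := by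
    have h : w2 ∈ bd G D M2 := by rw [hb2]; exact mem_singleton_self _
    exact (mem_bd.1 h).1
  have hE1 : Conn G (D \ M1) := hD.2.2.sdiff hM1D hw1D hw1M (by rw [hb1])
  have hE2 : Conn G ((D \ M1) \ M2) := by
    refine hE1.sdiff (w := w2) ?_ (mem_sdiff.2 ⟨hw2D, hw2M1⟩) hw2M ?_
    · intro z hz
      exact mem_sdiff.2 ⟨hM2D hz, fun h => Finset.disjoint_left.1 hMM h hz⟩
    · intro z hz
      obtain ⟨hz1, hz2, hz3⟩ := mem_bd.1 hz
      have h : z ∈ bd G D M2 := mem_bd.2 ⟨(mem_sdiff.1 hz1).1, hz2, hz3⟩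
      rwa [hb2] at h
  have hw1E : w1 ∈ (D \ M1) \ M2 := mem_sdiff.2 ⟨mem_sdiff.2 ⟨hw1D, hw1M⟩, hw1M2⟩
  have hw2E : w2 ∈ (D \ M1) \ M2 := mem_sdiff.2 ⟨mem_sdiff.2 ⟨hw2D, hw2M1⟩, hw2M⟩
  obtain ⟨b, hb⟩ := hE2.path hw1E hw2E
  obtain ⟨a, ha⟩ := hU.conn.path hxF hx2F
  refine hz (closing2_odd hk hA1 hA2 (by omega) (by omega) (by omega) hMM
    (disjoint_of_subset_left hM1D hDF) ?_ (disjoint_of_subset_left hM2D hDF) ?_ ?_ ha hb)
  · rw [Finset.disjoint_left]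
    exact fun z hz1 hz2 => (mem_sdiff.1 (mem_sdiff.1 hz2).1).2 hz1
  · rw [Finset.disjoint_left]
    exact fun z hz1 hz2 => (mem_sdiff.1 hz2).2 hz1
  · rw [Finset.disjoint_left]
    exact fun z hz1 hz2 => Finset.disjoint_left.1 hDF (mem_sdiff.1 (mem_sdiff.1 hz2).1).1 hz1

theorem lemU1 {k : ℕ} {B F D : Finset V} {c x y u1 u2 : V} (hB : Blk G k B c) (hk : Odd k) (hk5 : 5 ≤ k)
    (hz : ¬ ZC k G) (hU : UF G B F) (hD : IsComp G (B \ F) D) (hx : x ∈ F) (hy : y ∈ F) (hxy : x ≠ y)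
    (hu1 : u1 ∈ D) (hu1c : u1 ≠ c) (ha1 : G.Adj u1 x) (hu2 : u2 ∈ D) (hu2c : u2 ≠ c) (ha2 : G.Adj u2 y) :
    Adm G (k - 2) D {x} {y} := by
  have hone : ∀ v ∈ D, (nb G v F).card ≤ 1 := by
    intro v hv
    have h := mem_sdiff.1 (hD.1 hv)
    exact hU.one v h.1 h.2
  have hR : Rz G D {x} {y} c := by
    refine ⟨⟨u1, hu1, hu1c⟩, ?_, ?_⟩
    · rintro C hC ⟨v, hv, hvc⟩ hb
      have hCD : C = D := hD.2.2.2 C hC ⟨v, hv⟩ hb
      subst hCD
      exact ⟨⟨u1, hu1, x, mem_singleton_self _, ha1⟩, ⟨u2, hu2, y, mem_singleton_self _, ha2⟩⟩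
    · rintro C hC ⟨v, hv, hvc⟩ hb
      by_contra hcon
      have hnx : ¬ adjS G C {x} := fun h => hcon (Or.inl h)
      have hny : ¬ adjS G C {y} := fun h => hcon (Or.inr h)
      have hu1C : u1 ∉ C := fun h => hnx ⟨u1, h, x, mem_singleton_self _, ha1⟩
      have hu2C : u2 ∉ C := fun h => hny ⟨u2, h, y, mem_singleton_self _, ha2⟩
      have hCD : C ≠ D := fun h => hu1C (h ▸ hu1)
      have hne := hD.2.2.bd_nonempty hC ⟨v, hv⟩ hCD
      have hcard : (bd G D C).card = 1 := le_antisymm hb (card_pos.2 hne)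
      obtain ⟨w, hw⟩ := card_eq_one.1 hcard
      have hwb : w ∈ bd G D C := by rw [hw]; exact mem_singleton_self _
      obtain ⟨hwD, hwC, _⟩ := mem_bd.1 hwb
      have hu12 : u1 ≠ u2 := by
        intro h
        have h3 : ({x, y} : Finset V) ⊆ nb G u1 F := by
          intro z hz
          rcases mem_insert.1 hz with rfl | hz
          · exact mem_nb.2 ⟨hx, ha1⟩
          · rw [mem_singleton.1 hz]
            exact mem_nb.2 ⟨hy, h ▸ ha2⟩
        have h4 := card_le_card h3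
        rw [card_pair hxy] at h4
        have := hone u1 hu1
        omega
      obtain ⟨u, huD, huc, huC, huw⟩ : ∃ u ∈ D, u ≠ c ∧ u ∉ C ∧ u ≠ w := by
        by_cases h : u1 = w
        · exact ⟨u2, hu2, hu2c, hu2C, fun h' => hu12 (h.trans h'.symm)⟩
        · exact ⟨u1, hu1, hu1c, hu1C, h⟩
      have hvw : v ≠ w := fun h => hwC (h ▸ hv)
      obtain ⟨K1, hvK, hK1⟩ := exists_comp (G := G) (D := D.erase w) (v := v)
        (mem_erase.2 ⟨hvw, hC hv⟩)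
      obtain ⟨K2, huK, hK2⟩ := exists_comp (G := G) (D := D.erase w) (v := u)
        (mem_erase.2 ⟨huw, huD⟩)
      have hCe : C ⊆ D.erase w := fun z hz => mem_erase.2 ⟨fun h => hwC (h ▸ hz), hC hz⟩
      have hbe : bd G (D.erase w) C = ∅ := by
        rw [Finset.eq_empty_iff_forall_notMem]
        intro z hz
        obtain ⟨hz1, hz2, hz3⟩ := mem_bd.1 hz
        have h : z ∈ bd G D C := mem_bd.2 ⟨mem_of_mem_erase hz1, hz2, hz3⟩
        rw [hw] at h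
        exact (mem_erase.1 hz1).1 (mem_singleton.1 h)
      have hKC : K1 ⊆ C := hK1.subset_of_closed hCe hbe hvK hv
      have hKK : K1 = K2 := lemU0 hB hk hk5 hz hU hD hwD hK1 hK2 ⟨v, hvK, hvc⟩ ⟨u, huK, huc⟩
      exact huC (hKC (hKK ▸ huK))
  have h := Blk.ears (lam := 1) hB hU.FB (singleton_subset_iff.2 hx) (singleton_subset_iff.2 hy)
    (by rw [disjoint_singleton]; exact hxy) hD hR (by omega)
    (fun v hv _ => (hone v hv).trans (by omega)) (fun h => absurd h (by omega))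
  have hkk : k - 1 - 1 = k - 2 := by omega
  rwa [hkk] at h


end Pool.Agent.Lib.MP_f599e5_co
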