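import Pool.Agent.Lib.MP_f599e5_co.O2B
import Pool.Agent.Lib.MP_f599e5_co.Th2F

set_option autoImplicit false
set_option linter.unusedSectionVars false

/-!
# JOB O2C: Lemma U2

* `two_nb`: `D` a component of `B \ F` with a vertex `v ≠ c`: let `E` be the component of `D.erase c` containing `v` (`exists_comp`).  `S = bd G B E` is contained in `F ∪ {c}` (neighbours of `E` in `B` are in `D` or `F`
  (`comp_nb`), and those in `D` are in `E` or equal `c`).  `Blk.sep2_odd`: `S` has at least 3 elements, otherwise `B \ (E ∪ S) ⊆ {c}` but `F \ S` has at least 3 elements.  So two different elements `x, y` of `F` are in `S`,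
  with neighbours `u1, u2 ∈ E`, and `c ∉ E`.
* `lemU2`: suppose `D1 ≠ D2` (disjoint).  `two_nb` and `lemU1` give `x1 ≠ y1`, `Adm G (k-2) D1 {x1} {y1}`, `x2 ≠ y2`, `Adm G (k-2) D2 {x2} {y2}`.  `TwoC.lk2` links the pairs in `F`; `closing2_lk`, `k + 1 ≤ 2(k-2)`.
-/

namespace Pool.Agent.Lib.MP_f599e5_co

open Finset

variable {V : Type} [DecidableEq V] {G : SimpleGraph V}

theorem two_nb {k : ℕ} {B F D : Finset V} {c : V} (hB : Blk G k B c) (hk : Odd k) (hk5 : 5 ≤ k)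
    (hz : ¬ ZC k G) (hU : UF G B F) (hD : IsComp G (B \ F) D) (hne : ∃ v ∈ D, v ≠ c) :
    ∃ x ∈ F, ∃ y ∈ F, x ≠ y ∧ ∃ u1 ∈ D, ∃ u2 ∈ D, u1 ≠ c ∧ u2 ≠ c ∧ G.Adj u1 x ∧ G.Adj u2 y := by
  obtain ⟨v, hv, hvc⟩ := hne
  obtain ⟨E, hvE, hE⟩ := exists_comp (G := G) (mem_erase.2 ⟨hvc, hv⟩)
  have hED : ∀ e ∈ E, e ∈ D ∧ e ≠ c := fun e he => by
    have := mem_erase.1 (hE.1 he)
    exact ⟨this.2, this.1⟩
  have hEB : ∀ e ∈ E, e ∈ B ∧ e ∉ F := fun e he => mem_sdiff.1 (hD.1 (hED e he).1)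
  have hS : ∀ x ∈ bd G B E, x ≠ c → x ∈ F := by
    intro x hx hxc
    obtain ⟨hxB, hxE, e, he, hex⟩ := mem_bd.1 hx
    rcases comp_nb hU.FB hD (hED e he).1 hxB hex with h1 | h1
    · exfalso
      have h2 : x ∈ bd G (D.erase c) E := mem_bd.2 ⟨mem_erase.2 ⟨hxc, h1⟩, hxE, e, he, hex⟩
      rw [hE.2.1] at h2
      exact absurd h2 (Finset.notMem_empty _)
    · exact h1
  have h3 : 3 ≤ (bd G B E).card := by
    by_contra hcon
    have h4 := hB.sep2_odd hk (by omega) hz (bd G B E) E (by omega)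
      (fun e he => mem_sdiff.2 ⟨(hEB e he).1, fun h => (mem_bd.1 h).2.1 he⟩) ⟨v, hvE, hvc⟩ (Subset.refl _)
    have h5 : F \ bd G B E ⊆ {c} := by
      intro x hx
      apply h4
      have h6 := mem_sdiff.1 hx
      refine mem_sdiff.2 ⟨hU.FB h6.1, fun h7 => ?_⟩
      rcases mem_union.1 h7 with h8 | h8
      · exact (hEB x h8).2 h6.1
      · exact h6.2 h8
    have h6 := card_le_card h5
    have h7 := Finset.le_card_sdiff (bd G B E) F
    have h8 := hU.card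
    rw [card_singleton] at h6
    omega
  have h4 : 1 < ((bd G B E).erase c).card := by
    have := Finset.pred_card_le_card_erase (s := bd G B E) (a := c)
    omega
  obtain ⟨x, hx, y, hy, hxy⟩ := Finset.one_lt_card.1 h4
  obtain ⟨hxc, hxS⟩ := mem_erase.1 hx
  obtain ⟨hyc, hyS⟩ := mem_erase.1 hy
  obtain ⟨_, _, u1, hu1, ha1⟩ := mem_bd.1 hxS
  obtain ⟨_, _, u2, hu2, ha2⟩ := mem_bd.1 hyS
  exact ⟨x, hS x hxS hxc, y, hS y hyS hyc, hxy, u1, (hED u1 hu1).1, u2, (hED u2 hu2).1, (hED u1 hu1).2,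
    (hED u2 hu2).2, ha1, ha2⟩

theorem lemU2 {k : ℕ} {B F D1 D2 : Finset V} {c : V} (hB : Blk G k B c) (hk : Odd k) (hk5 : 5 ≤ k)
    (hz : ¬ ZC k G) (hU : UF G B F) (h2 : TwoC G F) (hD1 : IsComp G (B \ F) D1) (hD2 : IsComp G (B \ F) D2)
    (hne1 : ∃ v ∈ D1, v ≠ c) (hne2 : ∃ v ∈ D2, v ≠ c) : D1 = D2 := by
  by_contra hne
  have hdis := hD1.disjoint hD2 hne
  obtain ⟨x1, hx1, y1, hy1, hxy1, u1, hu1, u1', hu1', h1c, h1c', ha1, ha1'⟩ := two_nb hB hk hk5 hz hU hD1 hne1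
  obtain ⟨x2, hx2, y2, hy2, hxy2, u2, hu2, u2', hu2', h2c, h2c', ha2, ha2'⟩ := two_nb hB hk hk5 hz hU hD2 hne2
  have A1 := lemU1 hB hk hk5 hz hU hD1 hx1 hy1 hxy1 hu1 h1c ha1 hu1' h1c' ha1'
  have A2 := lemU1 hB hk hk5 hz hU hD2 hx2 hy2 hxy2 hu2 h2c ha2 hu2' h2c' ha2'
  have dF : ∀ D, IsComp G (B \ F) D → Disjoint D F := fun D hD =>
    Finset.disjoint_left.2 (fun v hv hvF => (mem_sdiff.1 (hD.1 hv)).2 hvF)
  exact hz (closing2_lk hk A1 A2 (by omega) (by omega) (by omega) hdis (dF D1 hD1) (dF D2 hD2)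
    (h2.lk2 hx1 hy1 hx2 hy2 hxy1 hxy2))

/-- if every vertex of `F`, `≠ c`, has at least two neighbours outside `F`, then for all `x ≠ y` in `F`, both `≠ c`,
there is a set `D` disjoint from `F` with `Adm G (k-2) D {x} {y}` -/
theorem lemU {k : ℕ} {B F : Finset V} {c : V} (hB : Blk G k B c) (hk : Odd k) (hk5 : 5 ≤ k)
    (hz : ¬ ZC k G) (hU : UF G B F) (h2 : TwoC G F) (hdeg : ∀ x ∈ F, x ≠ c → (nb G x F).card + 2 ≤ k) :
    ∀ x ∈ F, ∀ y ∈ F, x ≠ c → y ≠ c → x ≠ y → ∃ D, Disjoint D F ∧ Adm G (k - 2) D {x} {y} := by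
  have key : ∀ x ∈ F, x ≠ c → ∃ D u, IsComp G (B \ F) D ∧ u ∈ D ∧ u ≠ c ∧ G.Adj u x := by
    intro x hx hxc
    have hd := hB.deg x (hU.FB hx) hxc
    have hsplit : (nb G x B).card = (nb G x F).card + (nb G x (B \ F)).card := by
      have := nb_card_union (G := G) (v := x) (S := F) (T := B \ F) disjoint_sdiff
      rwa [union_sdiff_of_subset hU.FB] at this
    have h2' : 2 ≤ (nb G x (B \ F)).card := by
      have := hdeg x hx hxc
      omega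
    obtain ⟨u, hu, u', hu', hne⟩ := Finset.one_lt_card.1 h2'
    have : ∃ u ∈ nb G x (B \ F), u ≠ c := by
      by_cases h : u = c
      · exact ⟨u', hu', fun h' => hne (h.trans h'.symm)⟩
      · exact ⟨u, hu, h⟩
    obtain ⟨u, hu, huc⟩ := this
    obtain ⟨D, huD, hD⟩ := exists_comp (G := G) (mem_nb.1 hu).1
    exact ⟨D, u, hD, huD, huc, (mem_nb.1 hu).2.symm⟩
  intro x hx y hy hxc hyc hxy
  obtain ⟨D, u, hD, hu, huc, ha⟩ := key x hx hxc
  obtain ⟨D', u', hD', hu', huc', ha'⟩ := key y hy hyc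
  have hDD : D = D' := lemU2 hB hk hk5 hz hU h2 hD hD' ⟨u, hu, huc⟩ ⟨u', hu', huc'⟩
  subst hDD
  refine ⟨D, ?_, lemU1 hB hk hk5 hz hU hD hx hy hxy hu huc ha hu' huc' ha'⟩
  exact Finset.disjoint_left.2 (fun v hv hvF => (mem_sdiff.1 (hD.1 hv)).2 hvF)


end Pool.Agent.Lib.MP_f599e5_co
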