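import Pool.Agent.Lib.MP_f599e5_co.Th2B

set_option autoImplicit false
set_option linter.unusedSectionVars false

/-!
# JOB Th2C: cycles and path lengths, same path

* `cyc01`: `PL.cycle` (B2) with `h1 = (h.p0.toPX ..).1 : PL G (cseg f0 0 l0) (f0 0) (f0 l0) l0` and the same for `f1` (rewrite
  `f1 0 = f0 0`, `f1 l1 = f0 l0`); common vertices are the ends by `d01`; `3 ≤ l0 + l1` is `c01`.
* `same_paths`: (1) `PF.toPL` for `f0` from `a` to `b`.
  (2) concatenate (`PL.trans`, `PL.symm`, `PL.mono`): `f0 a -> f0 0` (reversed part `cseg f0 0 a`, length `a`), `f1 0 -> f1 l1` (length `l1`),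
  `f0 l0 -> f0 b` (reversed part `cseg f0 b l0`, length `l0-b`).  Total `a + l1 + (l0-b) = l0-(b-a)+l1` (omega with `a < b ≤ l0`).
  Common vertices: `cseg f0 0 a` and `cseg f1 0 l1`: `f0 i = f1 j` with `i ≤ a < l0`, so by `d01` `i = 0, j = 0`; the union with
  `cseg f0 b l0`: `f0 i = f0 i'` with `i ≤ a < b ≤ i'` impossible, `f1 j = f0 i'`, `i' ≥ b > 0`: `j = l1`.
  (3) apply (2) to `h.swap12`.
-/

namespace Pool.Agent.Lib.MP_f599e5_co

open Finset

variable {V : Type} [DecidableEq V] {G : SimpleGraph V}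

namespace ThF

variable {F : Finset V} {f0 f1 f2 : ℕ → V} {l0 l1 l2 : ℕ}

private theorem th2c_px {f : ℕ → V} {n : ℕ} (h : PF G f n) {a b : ℕ} (hab : a ≤ b) (hb : b ≤ n) :
    PL G (cseg f a b) (f a) (f b) (b - a) :=
  (h.toPX hab hb).1

/-- the cycle formed by the first two paths -/
theorem cyc01 (h : ThF G F f0 f1 f2 l0 l1 l2) : CycS G (cseg f0 0 l0 ∪ cseg f1 0 l1) (l0 + l1) := by
  have h1 := th2c_px h.p0 (Nat.zero_le l0) le_rfl
  have h2 := th2c_px h.p1 (Nat.zero_le l1) le_rfl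
  rw [h.s1, h.t1] at h2
  rw [Nat.sub_zero] at h1 h2
  refine h1.cycle h2 ?_ h.ends_ne h.c01
  intro x hx hx'
  obtain ⟨i, _, hi, rfl⟩ := mem_cseg.1 hx
  obtain ⟨j, _, hj, hij⟩ := mem_cseg.1 hx'
  rcases h.d01 i j hi hj hij.symm with ⟨h3, _⟩ | ⟨h3, _⟩
  · left; rw [h3]
  · right; rw [h3]

/-- the long way round between two vertices of the first path -/
private theorem th2c_long (h : ThF G F f0 f1 f2 l0 l1 l2) {a b : ℕ} (hab : a < b) (hb : b ≤ l0) :
    PL G F (f0 a) (f0 b) (l0 - (b - a) + l1) := by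
  have h1 : PL G (cseg f0 0 a) (f0 a) (f0 0) (a - 0) := (th2c_px h.p0 (Nat.zero_le a) (by omega)).symm
  have h2 : PL G (cseg f1 0 l1) (f0 0) (f0 l0) (l1 - 0) := by
    have := th2c_px h.p1 (Nat.zero_le l1) le_rfl
    rw [h.s1, h.t1] at this
    exact this
  have h3 : PL G (cseg f0 b l0) (f0 l0) (f0 b) (l0 - b) := (th2c_px h.p0 hb le_rfl).symm
  have h12 := h1.trans h2 (by
    intro x hx hx'
    obtain ⟨i, _, hi, rfl⟩ := mem_cseg.1 hx
    obtain ⟨j, _, hj, hij⟩ := mem_cseg.1 hx'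
    rcases h.d01 i j (by omega) hj hij.symm with ⟨h4, _⟩ | ⟨h4, _⟩
    · rw [h4]
    · omega)
  have h123 := h12.trans h3 (by
    intro x hx hx'
    obtain ⟨i', hi1, hi2, hx3⟩ := mem_cseg.1 hx'
    rcases Finset.mem_union.1 hx with hx | hx
    · obtain ⟨i, _, hi, hx4⟩ := mem_cseg.1 hx
      have h5 := h.p0.inj i i' (by omega) hi2 (hx4.trans hx3.symm)
      omega
    · obtain ⟨j, _, hj, hx4⟩ := mem_cseg.1 hx
      rcases h.d01 i' j hi2 hj (hx3.trans hx4.symm) with ⟨h5, _⟩ | ⟨h5, _⟩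
      · omega
      · rw [← hx3, h5])
  have hlen : a - 0 + (l1 - 0) + (l0 - b) = l0 - (b - a) + l1 := by omega
  rw [hlen] at h123
  refine h123.mono ?_
  rw [h.cov]
  intro x hx
  rcases Finset.mem_union.1 hx with hx | hx
  · rcases Finset.mem_union.1 hx with hx | hx
    · obtain ⟨i, _, hi, hx4⟩ := mem_cseg.1 hx
      exact Finset.mem_union_left _ (Finset.mem_union_left _ (mem_cseg.2 ⟨i, Nat.zero_le i, by omega, hx4⟩))
    · exact Finset.mem_union_left _ (Finset.mem_union_right _ hx)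
  · obtain ⟨i, _, hi, hx4⟩ := mem_cseg.1 hx
    exact Finset.mem_union_left _ (Finset.mem_union_left _ (mem_cseg.2 ⟨i, Nat.zero_le i, by omega, hx4⟩))

/-- lengths of paths in the theta between two vertices of the first path -/
theorem same_paths (h : ThF G F f0 f1 f2 l0 l1 l2) {a b : ℕ} (hab : a < b) (hb : b ≤ l0) :
    PL G F (f0 a) (f0 b) (b - a) ∧ PL G F (f0 a) (f0 b) (l0 - (b - a) + l1) ∧
      PL G F (f0 a) (f0 b) (l0 - (b - a) + l2) := by
  refine ⟨?_, th2c_long h hab hb, th2c_long h.swap12 hab hb⟩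
  exact h.p0.toPL hab.le hb fun i _ hi => h.mem0 (by omega)

end ThF


end Pool.Agent.Lib.MP_f599e5_co
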