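import Pool.Agent.Lib.MP_f599e5_co.CFD
import Pool.Agent.Lib.MP_f599e5_co.O2C
import Pool.Agent.Lib.MP_f599e5_co.O1E
import Pool.Agent.Lib.MP_f599e5_co.Th2C
import Pool.Agent.Lib.MP_f599e5_co.K6

set_option autoImplicit false
set_option linter.unusedSectionVars false

/-!
# JOB O3A: a shortest cycle for odd `k ≥ 5` satisfies the hypotheses of Lemma U

`f`, `g`: `CF G f g`, `cyv f g ⊆ B`, every cycle in `B` has length `≥ g` (`hmin`), `5 ≤ g`.
* `short_chord`: `i + 2 ≤ j < g`, `(i,j) ≠ (0,g-1)`: `f i`, `f j` are not adjacent: otherwise `CF.ear` with `Q = {f i, f j}` (`PX.edge`), `q = 1`: a cycle of length `(j-i)+1 ≥ 3` in `B`, so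
  `(j - i) + 1 ≥ g`, `i = 0`, `j = g - 1`.
* `short_nb`: `(nb G x F).card ≤ 2` for `x = f i ∈ F = cyv f g`: the neighbours are among `f (i-1), f (i+1)` (indices mod `g`).
* `short_one`: `y ∈ B \ F` has at most one neighbour in `F`: otherwise it has two neighbours `f i, f j`, `i < j`; `CF.ear` with `Q = {f i, y, f j}` (`PX.trans` of two `PX.edge`), `q = 2`: cycles of lengths
  `(j-i)+2 ≥ 3` and `g-(j-i)+2 ≥ 3` in `B`: both `≥ g`, so `g ≤ 4`.
* `exists_short`: `B` contains a cycle (`Blk.exists_theta`, `ThF.cyc01`); take the minimum length `g` (`Nat.find`), `CycS.toCF`; `5 ≤ g` by `Blk.girth5`.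
-/

namespace Pool.Agent.Lib.MP_f599e5_co

open Finset

variable {V : Type} [DecidableEq V] {G : SimpleGraph V}

theorem short_chord {B : Finset V} {f : ℕ → V} {g : ℕ} (h : CF G f g) (hB : cyv f g ⊆ B)
    (hmin : ∀ n, CycS G B n → g ≤ n) {i j : ℕ} (hij : i < j) (hj : j < g) (ha : G.Adj (f i) (f j)) :
    j = i + 1 ∨ (i = 0 ∧ j = g - 1) := by
  by_contra hc
  have hi : f i ∈ cyv f g := (mem_cyv (by omega)).2 ⟨i, by omega, rfl⟩
  have hjm : f j ∈ cyv f g := (mem_cyv (by omega)).2 ⟨j, by omega, rfl⟩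
  have h1 := (h.ear hij hj (PX.edge ha) (fun x hx _ => by simpa using hx)).1 (by omega)
  have h2 : CycS G B (j - i + 1) := h1.mono (by
    intro x hx
    rcases mem_union.1 hx with hx | hx
    · exact hB hx
    · rcases mem_insert.1 hx with rfl | hx
      · exact hB hi
      · rw [mem_singleton.1 hx]
        exact hB hjm)
  have h3 := hmin _ h2
  omega

theorem short_nb {B : Finset V} {f : ℕ → V} {g : ℕ} (h : CF G f g) (hB : cyv f g ⊆ B) (hg : 5 ≤ g)
    (hmin : ∀ n, CycS G B n → g ≤ n) {x : V} (hx : x ∈ cyv f g) : (nb G x (cyv f g)).card ≤ 2 := by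
  obtain ⟨i, hi, rfl⟩ := (mem_cyv (by omega)).1 hx
  obtain ⟨a, ha⟩ : ∃ a : ℕ, a = if i = 0 then g - 1 else i - 1 := ⟨_, rfl⟩
  obtain ⟨b, hb⟩ : ∃ b : ℕ, b = if i = g - 1 then 0 else i + 1 := ⟨_, rfl⟩
  have hsub : nb G (f i) (cyv f g) ⊆ {f a, f b} := by
    intro y hy
    obtain ⟨hy1, hy2⟩ := mem_nb.1 hy
    obtain ⟨j, hj, rfl⟩ := (mem_cyv (by omega)).1 hy1
    have hne : i ≠ j := fun e => by
      rw [e] at hy2
      exact G.irrefl hy2
    rw [mem_insert, mem_singleton]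
    rcases lt_or_gt_of_ne hne with hlt | hlt
    · rcases short_chord h hB hmin hlt hj hy2 with h1 | ⟨h1, h2⟩
      · right
        rw [hb, if_neg (by omega), h1]
      · left
        rw [ha, if_pos h1, h2]
    · rcases short_chord h hB hmin hlt hi hy2.symm with h1 | ⟨h1, h2⟩
      · left
        rw [ha, if_neg (by omega), h1, Nat.add_sub_cancel]
      · right
        rw [hb, if_pos h2, h1]
  exact (card_le_card hsub).trans card_le_two

theorem short_one_aux {B : Finset V} {f : ℕ → V} {g : ℕ} (h : CF G f g) (hB : cyv f g ⊆ B) (hg : 5 ≤ g)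
    (hmin : ∀ n, CycS G B n → g ≤ n) {x : V} (hx : x ∈ B) (hxF : x ∉ cyv f g) {i j : ℕ} (hij : i < j)
    (hj : j < g) (h1 : G.Adj x (f i)) (h2 : G.Adj x (f j)) : False := by
  have hi : f i ∈ cyv f g := (mem_cyv (by omega)).2 ⟨i, by omega, rfl⟩
  have hjm : f j ∈ cyv f g := (mem_cyv (by omega)).2 ⟨j, by omega, rfl⟩
  have hQ : PX G ({f i, x} ∪ {x, f j}) (f i) (f j) (1 + 1) := by
    refine (PX.edge h1.symm).trans (PX.edge h2) fun y hy1 hy2 => ?_
    rcases mem_insert.1 hy1 with rfl | hy1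
    · rcases mem_insert.1 hy2 with hy2 | hy2
      · exact hy2
      · exfalso
        have := h.pf.inj i j (by omega) (by omega) (mem_singleton.1 hy2)
        omega
    · exact mem_singleton.1 hy1
  have hQF : ∀ y ∈ ({f i, x} ∪ {x, f j} : Finset V), y ∈ cyv f g → y = f i ∨ y = f j := by
    intro y hy hyF
    rcases mem_union.1 hy with hy | hy
    · rcases mem_insert.1 hy with rfl | hy
      · exact Or.inl rfl
      · rw [mem_singleton.1 hy] at hyF
        exact absurd hyF hxF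
    · rcases mem_insert.1 hy with rfl | hy
      · exact absurd hyF hxF
      · exact Or.inr (mem_singleton.1 hy)
  have hsub : cyv f g ∪ ({f i, x} ∪ {x, f j}) ⊆ B := by
    intro y hy
    rcases mem_union.1 hy with hy | hy
    · exact hB hy
    · rcases mem_union.1 hy with hy | hy
      · rcases mem_insert.1 hy with rfl | hy
        · exact hB hi
        · rw [mem_singleton.1 hy]
          exact hx
      · rcases mem_insert.1 hy with rfl | hy
        · exact hx
        · rw [mem_singleton.1 hy]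
          exact hB hjm
  obtain ⟨e1, e2⟩ := h.ear hij hj hQ hQF
  have h3 := hmin _ ((e1 (by omega)).mono hsub)
  have h4 := hmin _ ((e2 (by omega)).mono hsub)
  omega

theorem short_one {B : Finset V} {f : ℕ → V} {g : ℕ} (h : CF G f g) (hB : cyv f g ⊆ B) (hg : 5 ≤ g)
    (hmin : ∀ n, CycS G B n → g ≤ n) {x : V} (hx : x ∈ B) (hxF : x ∉ cyv f g) : (nb G x (cyv f g)).card ≤ 1 := by
  by_contra hc
  obtain ⟨a, ha, b, hb, hab⟩ := one_lt_card.1 (not_le.1 hc)
  obtain ⟨ha1, ha2⟩ := mem_nb.1 ha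
  obtain ⟨hb1, hb2⟩ := mem_nb.1 hb
  obtain ⟨i, hi, rfl⟩ := (mem_cyv (by omega)).1 ha1
  obtain ⟨j, hj, rfl⟩ := (mem_cyv (by omega)).1 hb1
  have hne : i ≠ j := fun e => hab (by rw [e])
  rcases lt_or_gt_of_ne hne with hlt | hlt
  · exact short_one_aux h hB hg hmin hx hxF hlt hj ha2 hb2
  · exact short_one_aux h hB hg hmin hx hxF hlt hi hb2 ha2

theorem exists_short {k : ℕ} {B : Finset V} {c : V} (hB : Blk G k B c) (hk : Odd k) (hk5 : 5 ≤ k)
    (hz : ¬ ZC k G) :
    ∃ (f : ℕ → V) (g : ℕ), CF G f g ∧ cyv f g ⊆ B ∧ 5 ≤ g ∧ ∀ n, CycS G B n → g ≤ n := by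
  classical
  obtain ⟨F, hF, l0, l1, l2, f0, f1, f2, hT⟩ := hB.exists_theta (by omega)
  have hcyc : CycS G B (l0 + l1) := by
    refine hT.cyc01.mono (Subset.trans ?_ hF)
    rw [hT.cov]
    exact subset_union_left
  have hex : ∃ n, CycS G B n := ⟨_, hcyc⟩
  obtain ⟨f, hf, hfB⟩ := (Nat.find_spec hex).toCF
  exact ⟨f, Nat.find hex, hf, hfB, hB.girth5 hk hk5 hz (Nat.find_spec hex), fun n hn => Nat.find_min' hex hn⟩

end Pool.Agent.Lib.MP_f599e5_co
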