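import Pool.Agent.Lib.MP_f599e5_co.O3A

set_option autoImplicit false
set_option linter.unusedSectionVars false

/-!
# JOB O3B: `k` odd, `k ≥ 7` (3.3): arithmetic

* `adm_res`: `D` disjoint from `F`, `x ≠ y` in `F`, `Adm G n D {x} {y}` gives `d ∈ {1,2}` and `l ≥ 2`; for `p` with `PL G F x y p` and `i < n` the cycle from `close_path` (B4) has length
  `l + i d + p`; it is not divisible by `k` by `hz` (`CycS.zc`).
* `arith7`: the residues of `l + i d`, `i < k`, are all residues mod `k` (`d` is `1` or `2`, `k` odd), so there is `i < k` with `k ∣ l + i d + a` (`ap_zero_odd`, B4A, with `l := l + a`), and `i ∈ {k-2, k-1}` by `h1`;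
  similarly `i' ∈ {k-2,k-1}` with `k ∣ l + i' d + (g - a)`.  The difference: `k ∣ (g - a) - a + (i' - i) d`, `|i' - i| ≤ 1`, so `s = (i' - i) d`.
* `final7`: `a = 1, 2` (`5 ≤ g`): `k ∣ g - 2 + s1`, `k ∣ g - 4 + s2`; the difference `2 + s1 - s2` is divisible by `k ≥ 7` and in `[-2, 6]`, so it is `0`: `s2 = s1 + 2`, `s1 ∈ {-2,-1,0}`.  So `k ∣ g - r` with
  `r = 2 - s1 ∈ {2,3,4}`; as `g ≥ 5`, `g ≥ k + r ≥ 9`, so `a = 3` and `a = 4` are allowed: `k ∣ g - 6 + s3`, so `k ∣ 6 - s3 - r`, which is in `[0, 6]`, so `r = 6 - s3`, `r = 4`; `k ∣ g - 8 + s4`, `k ∣ 8 - s4 - 4`, which is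
  in `[2, 6]`: contradiction.
-/

namespace Pool.Agent.Lib.MP_f599e5_co

open Finset

variable {V : Type} [DecidableEq V] {G : SimpleGraph V}

theorem adm_res {k n : ℕ} {D F : Finset V} {x y : V} (hz : ¬ ZC k G) (hDF : Disjoint D F) (hx : x ∈ F)
    (hy : y ∈ F) (hxy : x ≠ y) (h : Adm G n D {x} {y}) :
    ∃ d, (d = 1 ∨ d = 2) ∧ ∃ l, ∀ p, PL G F x y p → ∀ i < n, ¬ k ∣ l + i * d + p := by
  obtain ⟨d, hd, l, hl, hP⟩ := h
  refine ⟨d, hd, l, fun p hp i hi hk => hz ?_⟩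
  obtain ⟨a, ha, b, hb, hpl⟩ := hP i hi
  rw [Finset.mem_singleton] at ha hb
  subst ha hb
  exact (close_path hDF hx hy hxy (by omega) hpl hp).zc hk

theorem arith7 {k l d a g : ℕ} (hk : Odd k) (hk7 : 7 ≤ k) (hd : d = 1 ∨ d = 2) (hag : a ≤ g)
    (h1 : ∀ i < k - 2, ¬ k ∣ l + i * d + a) (h2 : ∀ i < k - 2, ¬ k ∣ l + i * d + (g - a)) :
    ∃ s : ℤ, -2 ≤ s ∧ s ≤ 2 ∧ (k : ℤ) ∣ (g : ℤ) - 2 * a + s := by
  obtain ⟨i, hi, hdi⟩ := ap_zero_odd (l := l + a) hk hd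
  obtain ⟨j, hj, hdj⟩ := ap_zero_odd (l := l + (g - a)) hk hd
  have hi2 : k - 2 ≤ i := by
    by_contra hc
    refine h1 i (by omega) ?_
    have e : l + i * d + a = l + a + i * d := by omega
    rw [e]
    exact hdi
  have hj2 : k - 2 ≤ j := by
    by_contra hc
    refine h2 j (by omega) ?_
    have e : l + j * d + (g - a) = l + (g - a) + j * d := by omega
    rw [e]
    exact hdj
  refine ⟨((j : ℤ) - i) * d, ?_, ?_, ?_⟩
  · rcases hd with rfl | rfl <;> push_cast <;> omega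
  · rcases hd with rfl | rfl <;> push_cast <;> omega
  · have h3 : (k : ℤ) ∣ ((l + (g - a) + j * d : ℕ) : ℤ) := Int.natCast_dvd_natCast.2 hdj
    have h4 : (k : ℤ) ∣ ((l + a + i * d : ℕ) : ℤ) := Int.natCast_dvd_natCast.2 hdi
    have h5 := dvd_sub h3 h4
    have h6 : (((l + (g - a) + j * d : ℕ) : ℤ)) - ((l + a + i * d : ℕ) : ℤ)
        = (g : ℤ) - 2 * a + ((j : ℤ) - i) * d := by
      have h7 : ((g - a : ℕ) : ℤ) = (g : ℤ) - a := by omega
      push_cast [h7]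
      ring
    rwa [h6] at h5

private theorem O3B_zero {k : ℕ} {m : ℤ} (hk : 7 ≤ k) (h : (k : ℤ) ∣ m) (h1 : -6 ≤ m) (h2 : m ≤ 6) :
    m = 0 := by
  refine Int.eq_zero_of_abs_lt_dvd h ?_
  rw [abs_lt]
  omega

theorem final7 {k g : ℕ} (hk7 : 7 ≤ k) (hg : 5 ≤ g)
    (h : ∀ a : ℕ, 1 ≤ a → 2 * a ≤ g → ∃ s : ℤ, -2 ≤ s ∧ s ≤ 2 ∧ (k : ℤ) ∣ (g : ℤ) - 2 * a + s) : False := by
  obtain ⟨s1, hs1, hs1', hd1⟩ := h 1 le_rfl (by omega)
  obtain ⟨s2, hs2, hs2', hd2⟩ := h 2 (by omega) (by omega)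
  have e1 := O3B_zero hk7 (dvd_sub hd1 hd2) (by push_cast; omega) (by push_cast; omega)
  have hpos : 0 < (g : ℤ) - 2 * (1 : ℕ) + s1 := by
    push_cast at e1 ⊢
    omega
  have hge := Int.le_of_dvd hpos hd1
  push_cast at hge e1
  obtain ⟨s3, hs3, hs3', hd3⟩ := h 3 (by omega) (by omega)
  obtain ⟨s4, hs4, hs4', hd4⟩ := h 4 (by omega) (by omega)
  have e3 := O3B_zero hk7 (dvd_sub hd1 hd3) (by push_cast; omega) (by push_cast; omega)
  push_cast at e3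
  have e4 := O3B_zero hk7 (dvd_sub hd1 hd4) (by push_cast; omega) (by push_cast; omega)
  push_cast at e4
  omega

end Pool.Agent.Lib.MP_f599e5_co
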