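import Pool.Agent.Lib.MP_f599e5_co.Th2B

set_option autoImplicit false
set_option linter.unusedSectionVars false

/-!
# JOB Th2D: path lengths, inner vertices of two different paths

`y = f0 a`, `z = f1 b`, both inner.  Four paths:
 (1) `f0 a -> f0 0 = f1 0 -> f1 b`: parts `cseg f0 0 a` (reversed), `cseg f1 0 b`, length `a + b`.
 (2) `f0 a -> f0 l0 = f1 l1 -> f1 b`: parts `cseg f0 a l0`, `cseg f1 b l1` (reversed), length `(l0-a)+(l1-b)`.  [(1) for `h.rev`,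
     with indices `l0-a`, `l1-b`.]
 (3) `f0 a -> f0 0 = f2 0 -> f2 l2 = f1 l1 -> f1 b`: length `a + l2 + (l1-b)`.
 (4) `f0 a -> f0 l0 = f2 l2 -> f2 0 = f1 0 -> f1 b`: length `(l0-a)+l2+b`.  [(3) for `h.rev`.]
Use `PF.toPX`/`PF.toPL`, `PL.symm`, `PL.trans`, `PL.mono`; the common vertices of the parts are controlled by `d01, d02, d12` and
injectivity: e.g. in (3) `f0 i = f2 j` with `i ≤ a < l0` forces `i = j = 0`, `f0 i = f1 j'` with `i ≤ a`, `j' ≥ b` is impossible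
(`d01` gives `i=0, j'=0` or `i = l0`), `f2 j = f1 j'` with `j' ≥ b > 0` forces `j = l2, j' = l1`.
-/

namespace Pool.Agent.Lib.MP_f599e5_co

open Finset

variable {V : Type} [DecidableEq V] {G : SimpleGraph V}

namespace ThF

variable {F : Finset V} {f0 f1 f2 : ℕ → V} {l0 l1 l2 : ℕ}

private theorem Th2D_c1 (h : ThF G F f0 f1 f2 l0 l1 l2) {a b : ℕ} (ha : a < l0)
    (hb : b < l1) : PL G F (f0 a) (f1 b) (a + b) := by
  have hF := h.cov
  have p1 : PL G (cseg f0 0 a) (f0 0) (f0 a) (a - 0) :=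
    h.p0.toPL (Nat.zero_le a) ha.le (fun i h1 h2 => mem_cseg.mpr ⟨i, h1, h2, rfl⟩)
  have p2 : PL G (cseg f1 0 b) (f1 0) (f1 b) (b - 0) :=
    h.p1.toPL (Nat.zero_le b) hb.le (fun i h1 h2 => mem_cseg.mpr ⟨i, h1, h2, rfl⟩)
  rw [h.s1] at p2
  have p3 := p1.symm.trans p2 (by
    intro x hx hx'
    obtain ⟨i, _, hi, rfl⟩ := mem_cseg.mp hx
    obtain ⟨j, _, hj, hij⟩ := mem_cseg.mp hx'
    rcases h.d01 i j (by omega) (by omega) hij.symm with ⟨rfl, _⟩ | ⟨h1, _⟩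
    · rfl
    · omega)
  simp only [Nat.sub_zero] at p3
  apply p3.mono
  rw [hF]
  intro x hx
  rcases mem_union.mp hx with hx | hx
  · obtain ⟨i, _, hi, rfl⟩ := mem_cseg.mp hx
    exact mem_union_left _ (mem_union_left _ (mem_cseg.mpr ⟨i, Nat.zero_le _, by omega, rfl⟩))
  · obtain ⟨i, _, hi, rfl⟩ := mem_cseg.mp hx
    exact mem_union_left _ (mem_union_right _ (mem_cseg.mpr ⟨i, Nat.zero_le _, by omega, rfl⟩))

private theorem Th2D_c3 (h : ThF G F f0 f1 f2 l0 l1 l2) {a b : ℕ} (ha : a < l0) (hb0 : 0 < b)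
    (hb : b < l1) : PL G F (f0 a) (f1 b) (a + l2 + (l1 - b)) := by
  have hF := h.cov
  have p1 : PL G (cseg f0 0 a) (f0 0) (f0 a) (a - 0) :=
    h.p0.toPL (Nat.zero_le a) ha.le (fun i h1 h2 => mem_cseg.mpr ⟨i, h1, h2, rfl⟩)
  have p2 : PL G (cseg f2 0 l2) (f2 0) (f2 l2) (l2 - 0) :=
    h.p2.toPL (Nat.zero_le l2) le_rfl (fun i h1 h2 => mem_cseg.mpr ⟨i, h1, h2, rfl⟩)
  have p3 : PL G (cseg f1 b l1) (f1 b) (f1 l1) (l1 - b) :=
    h.p1.toPL hb.le le_rfl (fun i h1 h2 => mem_cseg.mpr ⟨i, h1, h2, rfl⟩)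
  rw [h.s2, h.t2] at p2
  rw [h.t1] at p3
  have hpos2 := h.pos2
  have p4 := p1.symm.trans p2 (by
    intro x hx hx'
    obtain ⟨i, _, hi, rfl⟩ := mem_cseg.mp hx
    obtain ⟨j, _, hj, hij⟩ := mem_cseg.mp hx'
    rcases h.d02 i j (by omega) (by omega) hij.symm with ⟨rfl, _⟩ | ⟨h1, _⟩
    · rfl
    · omega)
  have p5 := p4.trans p3.symm (by
    intro x hx hx'
    obtain ⟨j, hj1, hj2, rfl⟩ := mem_cseg.mp hx'
    rcases mem_union.mp hx with hx | hx
    · obtain ⟨i, _, hi, hij⟩ := mem_cseg.mp hx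
      rcases h.d01 i j (by omega) hj2 hij with ⟨_, h1⟩ | ⟨h1, _⟩
      · omega
      · omega
    · obtain ⟨i, _, hi, hij⟩ := mem_cseg.mp hx
      rcases h.d12 j i hj2 hi hij.symm with ⟨h1, _⟩ | ⟨h1, h2⟩
      · omega
      · rw [h1]
        exact h.t1)
  simp only [Nat.sub_zero] at p5
  apply p5.mono
  rw [hF]
  intro x hx
  rcases mem_union.mp hx with hx | hx
  · rcases mem_union.mp hx with hx | hx
    · obtain ⟨i, _, hi, rfl⟩ := mem_cseg.mp hx
      exact mem_union_left _ (mem_union_left _ (mem_cseg.mpr ⟨i, Nat.zero_le _, by omega, rfl⟩))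
    · exact mem_union_right _ hx
  · obtain ⟨i, _, hi, rfl⟩ := mem_cseg.mp hx
    exact mem_union_left _ (mem_union_right _ (mem_cseg.mpr ⟨i, Nat.zero_le _, by omega, rfl⟩))

/-- lengths of paths in the theta between inner vertices of the first and the second path -/
theorem cross_paths (h : ThF G F f0 f1 f2 l0 l1 l2) {a b : ℕ} (ha0 : 0 < a) (ha : a < l0) (hb0 : 0 < b)
    (hb : b < l1) :
    PL G F (f0 a) (f1 b) (a + b) ∧ PL G F (f0 a) (f1 b) ((l0 - a) + (l1 - b)) ∧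
      PL G F (f0 a) (f1 b) (a + l2 + (l1 - b)) ∧ PL G F (f0 a) (f1 b) ((l0 - a) + l2 + b) := by
  have ea : l0 - (l0 - a) = a := by omega
  have eb : l1 - (l1 - b) = b := by omega
  refine ⟨Th2D_c1 h ha hb, ?_, Th2D_c3 h ha hb0 hb, ?_⟩
  · have h1 := Th2D_c1 h.rev (a := l0 - a) (b := l1 - b) (by omega) (by omega)
    simpa only [ea, eb] using h1
  · have h1 := Th2D_c3 h.rev (a := l0 - a) (b := l1 - b) (by omega) (by omega) (by omega)
    simpa only [ea, eb] using h1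


end ThF


end Pool.Agent.Lib.MP_f599e5_co
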