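import Pool.Agent.Lib.MP_f599e5_co.Th2C
import Pool.Agent.Lib.MP_f599e5_co.Th2D

set_option autoImplicit false
set_option linter.unusedSectionVars false

/-!
# JOB O4A: the arithmetic lemma T5 (theta, `k = 5`)

`H`: between two vertices `x ≠ y` of `F`, both `≠ c`, the lengths of paths in `F` take at most two values mod 5.
* `T5_same` (`3 ≤ l0`): for `n = 1, 2` (and `n = 3` if `l0 ≥ 4`) there are `a < b ≤ l0`, `b - a = n`, `f0 a ≠ c`, `f0 b ≠ c`: one of the pairs `(0,1)`, `(2,3)`; `(0,2)`, `(1,3)`; `(0,3)`, `(1,4)` (`f0` is injective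
  on `{0..l0}`, so `c` is in at most one pair).  `ThF.same_paths` and `H`: two of the numbers `n`, `l0 - n + l1`, `l0 - n + l2` are equal mod 5.  If `l1 ≢ l2` mod 5 then `2 n ≡ l0 + l1` or `2 n ≡ l0 + l2`.
  `l0 ≥ 4`: `2, 4, 6` would be three different residues among two values: contradiction.  `l0 = 3`: `{3 + l1, 3 + l2} ≡ {2, 4}`.  (omega after `unfold Two5`.)
* `T5_cross` (`3 ≤ l0, l1`, all `li` equal mod 5, `¬ 5 ∣ l0 + l1`): the four vertices `f0 1`, `f0 (l0-1)`, `f1 1`, `f1 (l1-1)` are different, so one of the pairs `(f0 1, f1 1)`, `(f0 (l0-1), f1 (l1-1))` does not contain `c`;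
  `ThF.cross_paths` and `H` (for three of the four lengths `2`, `l0+l1-2`, `l1+l2`, resp. the same numbers): `l ≡ 1` or `2` (mod 5).  Then one of the pairs `(f0 1, f1 2)`, `(f0 2, f1 1)` does not contain `c`:
  lengths `3`, `l0 + l1 - 3`, `1 + l2 + (l1 - 2)`, `(l0 - 1) + l2 + 2` (resp. exchanged): mod 5 these are `3, 2l-3, 2l-1, 2l+1`; for `l ≡ 1` the first three are `3, 4, 1`, for `l ≡ 2` the first, second, fourth are `3, 1, 0`:
  contradiction to `H`.
* `T5`: by `T5_same` for the three paths (`h`, `h.swap01`, `h.swap12.swap01` - those of length `≥ 3`; at most one `li` is `≤ 2`) all `li` are equal mod 5 (omega: the exceptional alternative `l0 = 3`, `{l1,l2} ≡ {1,4}` forces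
  `l1, l2 ≥ 4`, so `l0 ≡ l2` by the second path, contradiction).  At least two of the `li` are `≥ 3`: `T5_cross` for a suitable permutation.
-/

namespace Pool.Agent.Lib.MP_f599e5_co

open Finset

variable {V : Type} [DecidableEq V] {G : SimpleGraph V}

/-- at most two values mod 5 -/
def Two5 (p q r : ℕ) : Prop := p % 5 = q % 5 ∨ p % 5 = r % 5 ∨ q % 5 = r % 5

/-- all pairs of vertices of `F` different from `c` have at most two path lengths mod 5 -/
def H5 (G : SimpleGraph V) (F : Finset V) (c : V) : Prop :=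
  ∀ x ∈ F, ∀ y ∈ F, x ≠ c → y ≠ c → x ≠ y → ∀ p q r, PL G F x y p → PL G F x y q → PL G F x y r → Two5 p q r

variable {F : Finset V} {f0 f1 f2 : ℕ → V} {l0 l1 l2 : ℕ} {c : V}

private theorem o4a_pick (h : ThF G F f0 f1 f2 l0 l1 l2) (H : H5 G F c) {n a b : ℕ} (hn : 1 ≤ n)
    (ha : a + n ≤ l0) (hb : b + n ≤ l0) (h1 : a ≠ b) (h2 : a + n ≠ b) (h3 : a ≠ b + n) :
    Two5 n (l0 - n + l1) (l0 - n + l2) := by
  have key : ∀ a, a + n ≤ l0 → f0 a ≠ c → f0 (a + n) ≠ c → Two5 n (l0 - n + l1) (l0 - n + l2) := by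
    intro a ha hc1 hc2
    obtain ⟨e1, e2, e3⟩ := h.same_paths (a := a) (b := a + n) (by omega) ha
    rw [Nat.add_sub_cancel_left] at e1 e2 e3
    refine H (f0 a) (h.mem0 (by omega)) (f0 (a + n)) (h.mem0 ha) hc1 hc2 ?_ _ _ _ e1 e2 e3
    intro he
    have := h.p0.inj a (a + n) (by omega) ha he
    omega
  by_cases hc1 : f0 a = c
  · refine key b hb ?_ ?_
    · intro he
      have := h.p0.inj a b (by omega) (by omega) (hc1.trans he.symm)
      omega
    · intro he
      have := h.p0.inj a (b + n) (by omega) (by omega) (hc1.trans he.symm)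
      omega
  · by_cases hc2 : f0 (a + n) = c
    · refine key b hb ?_ ?_
      · intro he
        have := h.p0.inj (a + n) b (by omega) (by omega) (hc2.trans he.symm)
        omega
      · intro he
        have := h.p0.inj (a + n) (b + n) (by omega) (by omega) (hc2.trans he.symm)
        omega
    · exact key a ha hc1 hc2

theorem T5_same (h : ThF G F f0 f1 f2 l0 l1 l2) (H : H5 G F c) (h3 : 3 ≤ l0) :
    l1 % 5 = l2 % 5 ∨ (l0 = 3 ∧ ((l1 % 5 = 1 ∧ l2 % 5 = 4) ∨ (l1 % 5 = 4 ∧ l2 % 5 = 1))) := by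
  have e1 : Two5 1 (l0 - 1 + l1) (l0 - 1 + l2) :=
    o4a_pick h H (n := 1) (a := 0) (b := 2) (by omega) (by omega) (by omega) (by omega) (by omega) (by omega)
  have e2 : Two5 2 (l0 - 2 + l1) (l0 - 2 + l2) :=
    o4a_pick h H (n := 2) (a := 0) (b := 1) (by omega) (by omega) (by omega) (by omega) (by omega) (by omega)
  unfold Two5 at e1 e2
  by_cases h4 : 4 ≤ l0
  · have e3 : Two5 3 (l0 - 3 + l1) (l0 - 3 + l2) :=
      o4a_pick h H (n := 3) (a := 0) (b := 1) (by omega) (by omega) (by omega) (by omega) (by omega) (by omega)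
    unfold Two5 at e3
    omega
  · have h5 : l0 = 3 := by omega
    subst h5
    omega

private theorem o4a_cross (h : ThF G F f0 f1 f2 l0 l1 l2) (H : H5 G F c) {a b a' b' : ℕ} (ha0 : 0 < a) (ha : a < l0)
    (hb0 : 0 < b) (hb : b < l1) (ha0' : 0 < a') (ha' : a' < l0) (hb0' : 0 < b') (hb' : b' < l1)
    (haa : a ≠ a') (hbb : b ≠ b') :
    (f0 a ≠ c ∧ f1 b ≠ c) ∨ (f0 a' ≠ c ∧ f1 b' ≠ c) := by
  by_cases hc1 : f0 a = c
  · right
    constructor
    · intro he
      have := h.p0.inj a a' (by omega) (by omega) (hc1.trans he.symm)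
      omega
    · intro he
      have := h.d01 a b' (by omega) (by omega) (hc1.trans he.symm)
      omega
  · by_cases hc2 : f1 b = c
    · right
      constructor
      · intro he
        have := h.d01 a' b (by omega) (by omega) (he.trans hc2.symm)
        omega
      · intro he
        have := h.p1.inj b b' (by omega) (by omega) (hc2.trans he.symm)
        omega
    · exact Or.inl ⟨hc1, hc2⟩

private theorem o4a_ne (h : ThF G F f0 f1 f2 l0 l1 l2) {a b : ℕ} (ha0 : 0 < a) (ha : a < l0)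
    (hb : b ≤ l1) : f0 a ≠ f1 b := by
  intro he
  have := h.d01 a b (by omega) (by omega) he
  omega

theorem T5_cross (h : ThF G F f0 f1 f2 l0 l1 l2) (H : H5 G F c) (h0 : 3 ≤ l0) (h1 : 3 ≤ l1)
    (e1 : l0 % 5 = l1 % 5) (e2 : l0 % 5 = l2 % 5) (hn : ¬ 5 ∣ l0 + l1) : False := by
  have hl : l0 % 5 = 1 ∨ l0 % 5 = 2 := by
    rcases o4a_cross h H (a := 1) (b := 1) (a' := l0 - 1) (b' := l1 - 1) (by omega) (by omega) (by omega)
      (by omega) (by omega) (by omega) (by omega) (by omega) (by omega) (by omega) with ⟨c1, c2⟩ | ⟨c1, c2⟩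
    · obtain ⟨q1, q2, q3, q4⟩ := h.cross_paths (a := 1) (b := 1) (by omega) (by omega) (by omega) (by omega)
      have := H _ (h.mem0 (by omega)) _ (h.mem1 (by omega)) c1 c2 (o4a_ne h (by omega) (by omega) (by omega))
        _ _ _ q1 q2 q3
      unfold Two5 at this
      omega
    · obtain ⟨q1, q2, q3, q4⟩ := h.cross_paths (a := l0 - 1) (b := l1 - 1) (by omega) (by omega) (by omega)
        (by omega)
      have := H _ (h.mem0 (by omega)) _ (h.mem1 (by omega)) c1 c2 (o4a_ne h (by omega) (by omega) (by omega))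
        _ _ _ q1 q2 q3
      unfold Two5 at this
      omega
  rcases o4a_cross h H (a := 1) (b := 2) (a' := 2) (b' := 1) (by omega) (by omega) (by omega)
      (by omega) (by omega) (by omega) (by omega) (by omega) (by omega) (by omega) with ⟨c1, c2⟩ | ⟨c1, c2⟩
  · obtain ⟨q1, q2, q3, q4⟩ := h.cross_paths (a := 1) (b := 2) (by omega) (by omega) (by omega) (by omega)
    have t1 := H _ (h.mem0 (by omega)) _ (h.mem1 (by omega)) c1 c2 (o4a_ne h (by omega) (by omega) (by omega))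
        _ _ _ q1 q2 q3
    have t2 := H _ (h.mem0 (by omega)) _ (h.mem1 (by omega)) c1 c2 (o4a_ne h (by omega) (by omega) (by omega))
        _ _ _ q1 q2 q4
    unfold Two5 at t1 t2
    omega
  · obtain ⟨q1, q2, q3, q4⟩ := h.cross_paths (a := 2) (b := 1) (by omega) (by omega) (by omega) (by omega)
    have t1 := H _ (h.mem0 (by omega)) _ (h.mem1 (by omega)) c1 c2 (o4a_ne h (by omega) (by omega) (by omega))
        _ _ _ q1 q2 q3
    have t2 := H _ (h.mem0 (by omega)) _ (h.mem1 (by omega)) c1 c2 (o4a_ne h (by omega) (by omega) (by omega))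
        _ _ _ q1 q2 q4
    unfold Two5 at t1 t2
    omega

theorem T5 (h : ThF G F f0 f1 f2 l0 l1 l2) (H : H5 G F c) (c01 : 6 ≤ l0 + l1) (c02 : 6 ≤ l0 + l2)
    (c12 : 6 ≤ l1 + l2) (n01 : ¬ 5 ∣ l0 + l1) (n02 : ¬ 5 ∣ l0 + l2) (n12 : ¬ 5 ∣ l1 + l2) : False := by
  have t0 : 3 ≤ l0 → l1 % 5 = l2 % 5 ∨ (l0 = 3 ∧ ((l1 % 5 = 1 ∧ l2 % 5 = 4) ∨ (l1 % 5 = 4 ∧ l2 % 5 = 1))) :=
    fun h3 => T5_same h H h3
  have t1 : 3 ≤ l1 → l0 % 5 = l2 % 5 ∨ (l1 = 3 ∧ ((l0 % 5 = 1 ∧ l2 % 5 = 4) ∨ (l0 % 5 = 4 ∧ l2 % 5 = 1))) :=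
    fun h3 => T5_same h.swap01 H h3
  have t2 : 3 ≤ l2 → l0 % 5 = l1 % 5 ∨ (l2 = 3 ∧ ((l0 % 5 = 1 ∧ l1 % 5 = 4) ∨ (l0 % 5 = 4 ∧ l1 % 5 = 1))) :=
    fun h3 => T5_same h.swap12.swap01 H h3
  have e : l0 % 5 = l1 % 5 ∧ l0 % 5 = l2 % 5 := by
    by_cases a0 : 3 ≤ l0
    · by_cases a1 : 3 ≤ l1
      · have t0 := t0 a0
        have t1 := t1 a1
        by_cases a2 : 3 ≤ l2
        · have t2 := t2 a2
          omega
        · omega
      · have t0 := t0 a0
        have t2 := t2 (by omega)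
        omega
    · have t1 := t1 (by omega)
      have t2 := t2 (by omega)
      omega
  obtain ⟨e1, e2⟩ := e
  by_cases a0 : 3 ≤ l0
  · by_cases a1 : 3 ≤ l1
    · exact T5_cross h H a0 a1 e1 e2 n01
    · exact T5_cross h.swap12 H a0 (by omega) e2 e1 n02
  · exact T5_cross h.swap12.swap01.swap12 H (by omega) (by omega) (by omega) (by omega)
      (by rw [Nat.add_comm]; exact n12)


end Pool.Agent.Lib.MP_f599e5_co
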