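import Pool.Agent.Lib.MP_f599e5_co.Th2B

set_option autoImplicit false
set_option linter.unusedSectionVars false

/-!
# JOB Th2G: general position of two vertices of a theta

`x ≠ y` in `F`.  By `ThF.cases` each of `x`, `y` is on one of the three paths, say `x = fi a`, `y = fj b`.
 * If both are on the same path `i`: permute so that it is the first path (`h`, `h.swap01`, `h.swap12.swap01`); `a ≠ b` since `x ≠ y`;
   if `a < b` take `(a,b)`, otherwise `(b,a)` with the second alternative.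
 * If they are on different paths: if `x` is an end (`a = 0` or `a = li`) then `x` is also on the path of `y` (`s1, s2, t1, t2`): first case.
   The same if `y` is an end.  Otherwise both are inner vertices: permute such that `x` is on the first and `y` on the second path
   (6 cases of ordered pairs of paths: `h`, `swap12`, `swap01`, ...).
`Perm3` is a disjunction of six conjunctions of equations (`simp [Perm3]` or `Or.inr (Or.inl ⟨rfl, rfl, rfl⟩)` etc.).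
-/

namespace Pool.Agent.Lib.MP_f599e5_co

open Finset

variable {V : Type} [DecidableEq V] {G : SimpleGraph V}

theorem Th2G_swap01 {m0 m1 m2 l0 l1 l2 : ℕ} (h : Perm3 m0 m1 m2 l0 l1 l2) :
    Perm3 m1 m0 m2 l0 l1 l2 := by
  rcases h with h | h | h | h | h | h
  · exact Or.inr (Or.inr (Or.inl ⟨h.2.1, h.1, h.2.2⟩))
  · exact Or.inr (Or.inr (Or.inr (Or.inr (Or.inl ⟨h.2.1, h.1, h.2.2⟩))))
  · exact Or.inl ⟨h.2.1, h.1, h.2.2⟩
  · exact Or.inr (Or.inr (Or.inr (Or.inr (Or.inr ⟨h.2.1, h.1, h.2.2⟩))))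
  · exact Or.inr (Or.inl ⟨h.2.1, h.1, h.2.2⟩)
  · exact Or.inr (Or.inr (Or.inr (Or.inl ⟨h.2.1, h.1, h.2.2⟩)))

theorem Th2G_swap12 {m0 m1 m2 l0 l1 l2 : ℕ} (h : Perm3 m0 m1 m2 l0 l1 l2) :
    Perm3 m0 m2 m1 l0 l1 l2 := by
  rcases h with h | h | h | h | h | h
  · exact Or.inr (Or.inl ⟨h.1, h.2.2, h.2.1⟩)
  · exact Or.inl ⟨h.1, h.2.2, h.2.1⟩
  · exact Or.inr (Or.inr (Or.inr (Or.inl ⟨h.1, h.2.2, h.2.1⟩)))
  · exact Or.inr (Or.inr (Or.inl ⟨h.1, h.2.2, h.2.1⟩))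
  · exact Or.inr (Or.inr (Or.inr (Or.inr (Or.inr ⟨h.1, h.2.2, h.2.1⟩))))
  · exact Or.inr (Or.inr (Or.inr (Or.inr (Or.inl ⟨h.1, h.2.2, h.2.1⟩))))

/-- the conclusion -/
def Th2G_R (G : SimpleGraph V) (F : Finset V) (l0 l1 l2 : ℕ) (x y : V) : Prop :=
  ∃ (g0 g1 g2 : ℕ → V) (m0 m1 m2 : ℕ), ThF G F g0 g1 g2 m0 m1 m2 ∧ Perm3 m0 m1 m2 l0 l1 l2 ∧
      ((∃ a b, a < b ∧ b ≤ m0 ∧ ((g0 a = x ∧ g0 b = y) ∨ (g0 a = y ∧ g0 b = x))) ∨
        (∃ a b, 0 < a ∧ a < m0 ∧ 0 < b ∧ b < m1 ∧ g0 a = x ∧ g1 b = y))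

theorem Th2G_same {F : Finset V} {g0 g1 g2 : ℕ → V} {m0 m1 m2 l0 l1 l2 : ℕ}
    (h : ThF G F g0 g1 g2 m0 m1 m2) (hp : Perm3 m0 m1 m2 l0 l1 l2) {x y : V} (hne : x ≠ y)
    {a b : ℕ} (ha : a ≤ m0) (hb : b ≤ m0) (hx : g0 a = x) (hy : g0 b = y) :
    Th2G_R G F l0 l1 l2 x y := by
  rcases lt_trichotomy a b with hab | hab | hab
  · exact ⟨g0, g1, g2, m0, m1, m2, h, hp, Or.inl ⟨a, b, hab, hb, Or.inl ⟨hx, hy⟩⟩⟩
  · subst hab
    exact absurd (hx.symm.trans hy) hne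
  · exact ⟨g0, g1, g2, m0, m1, m2, h, hp, Or.inl ⟨b, a, hab, ha, Or.inr ⟨hy, hx⟩⟩⟩

theorem Th2G_diff {F : Finset V} {g0 g1 g2 : ℕ → V} {m0 m1 m2 l0 l1 l2 : ℕ}
    (h : ThF G F g0 g1 g2 m0 m1 m2) (hp : Perm3 m0 m1 m2 l0 l1 l2) {x y : V} (hne : x ≠ y)
    {a b : ℕ} (ha : a ≤ m0) (hb : b ≤ m1) (hx : g0 a = x) (hy : g1 b = y) :
    Th2G_R G F l0 l1 l2 x y := by
  by_cases a0 : a = 0
  · subst a0
    exact Th2G_same h.swap01 (Th2G_swap01 hp) hne (Nat.zero_le _) hb (h.s1.trans hx) hy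
  by_cases a1 : a = m0
  · subst a1
    exact Th2G_same h.swap01 (Th2G_swap01 hp) hne le_rfl hb (h.t1.trans hx) hy
  by_cases b0 : b = 0
  · subst b0
    exact Th2G_same h hp hne ha (Nat.zero_le _) hx (h.s1.symm.trans hy)
  by_cases b1 : b = m1
  · subst b1
    exact Th2G_same h hp hne ha le_rfl hx (h.t1.symm.trans hy)
  exact ⟨g0, g1, g2, m0, m1, m2, h, hp, Or.inr ⟨a, b, by omega, by omega, by omega, by omega,
    hx, hy⟩⟩

/-- general position of two vertices of a theta -/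
theorem ThF.two_pos {F : Finset V} {f0 f1 f2 : ℕ → V} {l0 l1 l2 : ℕ} (h : ThF G F f0 f1 f2 l0 l1 l2) {x y : V}
    (hx : x ∈ F) (hy : y ∈ F) (hne : x ≠ y) :
    ∃ (g0 g1 g2 : ℕ → V) (m0 m1 m2 : ℕ), ThF G F g0 g1 g2 m0 m1 m2 ∧ Perm3 m0 m1 m2 l0 l1 l2 ∧
      ((∃ a b, a < b ∧ b ≤ m0 ∧ ((g0 a = x ∧ g0 b = y) ∨ (g0 a = y ∧ g0 b = x))) ∨
        (∃ a b, 0 < a ∧ a < m0 ∧ 0 < b ∧ b < m1 ∧ g0 a = x ∧ g1 b = y)) := by
  have p : Perm3 l0 l1 l2 l0 l1 l2 := Or.inl ⟨rfl, rfl, rfl⟩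
  rcases h.cases hx with ⟨a, ha, hxa⟩ | ⟨a, ha, hxa⟩ | ⟨a, ha, hxa⟩ <;>
    rcases h.cases hy with ⟨b, hb, hyb⟩ | ⟨b, hb, hyb⟩ | ⟨b, hb, hyb⟩
  · exact Th2G_same h p hne ha hb hxa hyb
  · exact Th2G_diff h p hne ha hb hxa hyb
  · exact Th2G_diff h.swap12 (Th2G_swap12 p) hne ha hb hxa hyb
  · exact Th2G_diff h.swap01 (Th2G_swap01 p) hne ha hb hxa hyb
  · exact Th2G_same h.swap01 (Th2G_swap01 p) hne ha hb hxa hyb
  · exact Th2G_diff h.swap01.swap12 (Th2G_swap12 (Th2G_swap01 p)) hne ha hb hxa hyb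
  · exact Th2G_diff h.swap12.swap01 (Th2G_swap01 (Th2G_swap12 p)) hne ha hb hxa hyb
  · exact Th2G_diff h.swap12.swap01.swap12 (Th2G_swap12 (Th2G_swap01 (Th2G_swap12 p))) hne ha hb
      hxa hyb
  · exact Th2G_same h.swap12.swap01 (Th2G_swap01 (Th2G_swap12 p)) hne ha hb hxa hyb


end Pool.Agent.Lib.MP_f599e5_co
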