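import Pool.Agent.Lib.MP_f599e5_co.Th3B

set_option autoImplicit false
set_option linter.unusedSectionVars false

/-!
# JOB Th3C: the symmetric versions of `cross_del_s0`

* `cross_del_t0`: `cross_del_s0` for `h.rev` with indices `l0-a`, `l1-b`: the functions are `fun i => f0 (l0-i)` etc.;
  `f0 (l0-(l0-a)) = f0 a`; `seg (fun i => f0 (l0-i)) 0 (l0-a) = seg f0 a l0` (ext, `mem_seg`, index `l0-i`).
* `cross_del_s1`: `cross_del_s0` for `h.swap01` with the reversed ear (`hQ.symm`).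
* `cross_del_t1`: `cross_del_t0` for `h.swap01` with the reversed ear.
-/

namespace Pool.Agent.Lib.MP_f599e5_co

open Finset

variable {V : Type} [DecidableEq V] {G : SimpleGraph V}

theorem seg_rev {f : ℕ → V} {n a : ℕ} (ha : a ≤ n) : seg (fun i => f (n - i)) 0 (n - a) = seg f a n := by
  ext x
  simp only [mem_seg]
  constructor
  · rintro ⟨i, h1, h2, h3⟩
    exact ⟨n - i, by omega, by omega, h3⟩
  · rintro ⟨i, h1, h2, h3⟩
    refine ⟨n - i, by omega, by omega, ?_⟩
    have : n - (n - i) = i := by omega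
    rw [this]
    exact h3

namespace ThF

variable {F : Finset V} {f0 f1 f2 : ℕ → V} {l0 l1 l2 : ℕ}

/-- the same: delete the part of the first path after `a` -/
theorem cross_del_t0 (h : ThF G F f0 f1 f2 l0 l1 l2) {a b q : ℕ} (ha0 : 0 < a) (ha : a < l0) (hb0 : 0 < b)
    (hb : b < l1) {Q : Finset V} (hQ : PX G Q (f0 a) (f1 b) q)
    (hQF : ∀ x ∈ Q, x ∈ F → x = f0 a ∨ x = f1 b) :
    ThL G ((F \ seg f0 a l0) ∪ Q) b (q + a) ((l1 - b) + l2) := by
  have ea : l0 - (l0 - a) = a := by omega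
  have eb : l1 - (l1 - b) = b := by omega
  have h1 := h.rev.cross_del_s0 (a := l0 - a) (b := l1 - b) (q := q) (by omega) (by omega) (by omega)
    (by omega) (Q := Q) (by simpa only [ea, eb] using hQ) (by simpa only [ea, eb] using hQF)
  rw [seg_rev ha.le, ea, eb] at h1
  exact h1

/-- the same: delete the part of the second path before `b` -/
theorem cross_del_s1 (h : ThF G F f0 f1 f2 l0 l1 l2) {a b q : ℕ} (ha0 : 0 < a) (ha : a < l0) (hb0 : 0 < b)
    (hb : b < l1) {Q : Finset V} (hQ : PX G Q (f0 a) (f1 b) q)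
    (hQF : ∀ x ∈ Q, x ∈ F → x = f0 a ∨ x = f1 b) :
    ThL G ((F \ seg f1 0 b) ∪ Q) (l0 - a) (q + (l1 - b)) (a + l2) :=
  h.swap01.cross_del_s0 hb0 hb ha0 ha hQ.symm (fun x hx hx' => (hQF x hx hx').symm)

/-- the same: delete the part of the second path after `b` -/
theorem cross_del_t1 (h : ThF G F f0 f1 f2 l0 l1 l2) {a b q : ℕ} (ha0 : 0 < a) (ha : a < l0) (hb0 : 0 < b)
    (hb : b < l1) {Q : Finset V} (hQ : PX G Q (f0 a) (f1 b) q)
    (hQF : ∀ x ∈ Q, x ∈ F → x = f0 a ∨ x = f1 b) :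
    ThL G ((F \ seg f1 b l1) ∪ Q) a (q + b) ((l0 - a) + l2) :=
  h.swap01.cross_del_t0 hb0 hb ha0 ha hQ.symm (fun x hx hx' => (hQF x hx hx').symm)

end ThF



end Pool.Agent.Lib.MP_f599e5_co
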