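import Pool.Agent.Lib.MP_f599e5_co.Th3A
import Pool.Agent.Lib.MP_f599e5_co.Th3C
import Pool.Agent.Lib.MP_f599e5_co.Th2C
import Pool.Agent.Lib.MP_f599e5_co.Th2G

set_option autoImplicit false
set_option linter.unusedSectionVars false

/-!
# JOB O4B: minimal thetas, chords (girth at least 6)

`ThMin`: a theta with vertex set `F ⊆ B` whose total length is minimum among all thetas in `B`; `hg`: all cycles in `B` have length `≥ 6`.
* `ThMin.of_perm`: the sum of the lengths is the same.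
* `no_chord_same` (`a + 2 ≤ b ≤ l0`): suppose `f0 a`, `f0 b` adjacent, `Q = {f0 a, f0 b}` (`PX.edge`), `q = 1`, `n = b - a`.  `ThF.ear_replace` needs `3 ≤ l0 - n + 1 + l1` and `3 ≤ l0 - n + 1 + l2`; if both hold the new theta
  (inside `B`) has total length `l0 - n + 1 + l1 + l2 < l0 + l1 + l2`: contradiction to `mn`.  If one fails then (`l1, l2 ≥ 1`) `n = l0` (so `a = 0`, `b = l0`) and `l1 = 1` or `l2 = 1`.
* `no_chord_cross` (`0 < a < l0`, `0 < b < l1`): suppose `f0 a`, `f1 b` adjacent; `Q = {f0 a, f1 b}`, `q = 1`; the five thetas `cross_del2`, `cross_del_s0`, `cross_del_t0`, `cross_del_s1`, `cross_del_t1` are in `B`; `mn` gives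
  `l2 ≤ 1`, `a ≤ 1`, `l0 - a ≤ 1`, `b ≤ 1`, `l1 - b ≤ 1`; so `l0 = 2, l2 = 1`: the cycle of the first and third path (`ThF.cyc01` for `h.swap12`) has length 3, contradiction to `hg`.
* `ThMin.deg`: `(nb G x F).card ≤ 3` for `x ∈ F`.  By symmetry (`swap01`, `swap12`; `ThMin.of_perm`) `x = f0 a`.  If `0 < a < l0`: a neighbour `y ∈ F` of `x` on the first path is `f0 b` with `|a - b| = 1` (`no_chord_same`; the exceptional case has
  `a ∈ {0, l0}`), a neighbour which is an inner vertex of the second or third path contradicts `no_chord_cross` (for `h`, resp. `h.swap12`); so `nb G x F ⊆ {f0 (a-1), f0 (a+1)}`.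
  If `a = 0` (`a = l0`: use `h.rev`): `x = f0 0 = f1 0 = f2 0`, a neighbour `y ≠ x` in `F` is on some path `i`, `y = fi b`, `b ≥ 1`; if `b ≥ 2` then (`no_chord_same` for path `i`) `b = li` and another path has length 1: `y = fj 1` for this path `j`.
  So `nb G x F ⊆ {f0 1, f1 1, f2 1}`.
-/

namespace Pool.Agent.Lib.MP_f599e5_co

open Finset

variable {V : Type} [DecidableEq V] {G : SimpleGraph V}

/-- a theta in `B` of minimum total length -/
structure ThMin (G : SimpleGraph V) (B F : Finset V) (f0 f1 f2 : ℕ → V) (l0 l1 l2 : ℕ) : Prop where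
  th : ThF G F f0 f1 f2 l0 l1 l2
  sub : F ⊆ B
  mn : ∀ F' m0 m1 m2, F' ⊆ B → ThL G F' m0 m1 m2 → l0 + l1 + l2 ≤ m0 + m1 + m2

variable {B F : Finset V} {f0 f1 f2 : ℕ → V} {l0 l1 l2 : ℕ}

theorem ThMin.of_perm (h : ThMin G B F f0 f1 f2 l0 l1 l2) {g0 g1 g2 : ℕ → V} {m0 m1 m2 : ℕ}
    (h' : ThF G F g0 g1 g2 m0 m1 m2) (hp : Perm3 m0 m1 m2 l0 l1 l2) : ThMin G B F g0 g1 g2 m0 m1 m2 := by
  have hs : m0 + m1 + m2 = l0 + l1 + l2 := by
    unfold Perm3 at hp
    omega
  refine ⟨h', h.sub, fun F' n0 n1 n2 hF' hT => ?_⟩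
  have := h.mn F' n0 n1 n2 hF' hT
  omega

theorem o4b_swap01 (h : ThMin G B F f0 f1 f2 l0 l1 l2) : ThMin G B F f1 f0 f2 l1 l0 l2 :=
  h.of_perm h.th.swap01 (Or.inr (Or.inr (Or.inl ⟨rfl, rfl, rfl⟩)))

theorem o4b_swap12 (h : ThMin G B F f0 f1 f2 l0 l1 l2) : ThMin G B F f0 f2 f1 l0 l2 l1 :=
  h.of_perm h.th.swap12 (Or.inr (Or.inl ⟨rfl, rfl, rfl⟩))

theorem o4b_rev (h : ThMin G B F f0 f1 f2 l0 l1 l2) :
    ThMin G B F (fun i => f0 (l0 - i)) (fun i => f1 (l1 - i)) (fun i => f2 (l2 - i)) l0 l1 l2 :=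
  h.of_perm h.th.rev (Or.inl ⟨rfl, rfl, rfl⟩)

theorem o4b_sub (h : ThMin G B F f0 f1 f2 l0 l1 l2) {Q X : Finset V} (hQ : Q ⊆ B) : (F \ X) ∪ Q ⊆ B :=
  union_subset (sdiff_subset.trans h.sub) hQ

theorem o4b_pair (h : ThMin G B F f0 f1 f2 l0 l1 l2) {x y : V} (hx : x ∈ F) (hy : y ∈ F) :
    ({x, y} : Finset V) ⊆ B := by
  intro z hz
  rcases mem_insert.1 hz with rfl | hz
  · exact h.sub hx
  · rw [mem_singleton] at hz
    subst hz
    exact h.sub hy

theorem ThMin.no_chord_same (h : ThMin G B F f0 f1 f2 l0 l1 l2) {a b : ℕ} (hab : a + 2 ≤ b) (hb : b ≤ l0)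
    (hadj : G.Adj (f0 a) (f0 b)) : a = 0 ∧ b = l0 ∧ (l1 = 1 ∨ l2 = 1) := by
  by_contra hcon
  have p1 := h.th.pos1
  have p2 := h.th.pos2
  have hq : ∀ x ∈ ({f0 a, f0 b} : Finset V), x ∈ F → x = f0 a ∨ x = f0 b := by
    intro x hx _
    simpa using hx
  have hT := h.th.ear_replace (a := a) (b := b) (q := 1) (by omega) hb (PX.edge hadj) hq
    (by omega) (by omega)
  have := h.mn _ _ _ _ (o4b_sub h (o4b_pair h (h.th.mem0 (by omega)) (h.th.mem0 hb))) hT
  omega

theorem ThMin.no_chord_cross (h : ThMin G B F f0 f1 f2 l0 l1 l2) (hg : ∀ n, CycS G B n → 6 ≤ n) {a b : ℕ}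
    (ha0 : 0 < a) (ha : a < l0) (hb0 : 0 < b) (hb : b < l1) : ¬ G.Adj (f0 a) (f1 b) := by
  intro hadj
  have hq : ∀ x ∈ ({f0 a, f1 b} : Finset V), x ∈ F → x = f0 a ∨ x = f1 b := by
    intro x hx _
    simpa using hx
  have hsub : ∀ X : Finset V, (F \ X) ∪ {f0 a, f1 b} ⊆ B := fun X =>
    o4b_sub h (o4b_pair h (h.th.mem0 (by omega)) (h.th.mem1 (by omega)))
  have e1 := h.mn _ _ _ _ (hsub _) (h.th.cross_del2 ha0 ha hb0 hb (PX.edge hadj) hq)
  have e2 := h.mn _ _ _ _ (hsub _) (h.th.cross_del_s0 ha0 ha hb0 hb (PX.edge hadj) hq)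
  have e3 := h.mn _ _ _ _ (hsub _) (h.th.cross_del_t0 ha0 ha hb0 hb (PX.edge hadj) hq)
  have e4 := h.mn _ _ _ _ (hsub _) (h.th.cross_del_s1 ha0 ha hb0 hb (PX.edge hadj) hq)
  have e5 := h.mn _ _ _ _ (hsub _) (h.th.cross_del_t1 ha0 ha hb0 hb (PX.edge hadj) hq)
  have hc : CycS G B (l0 + l2) := by
    refine h.th.swap12.cyc01.mono (union_subset ?_ ?_)
    · intro x hx
      obtain ⟨i, _, hi, rfl⟩ := mem_cseg.1 hx
      exact h.sub (h.th.mem0 hi)
    · intro x hx
      obtain ⟨i, _, hi, rfl⟩ := mem_cseg.1 hx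
      exact h.sub (h.th.mem2 hi)
  have := hg _ hc
  omega

/-- neighbours of the branch vertex `f0 0` on the first path -/
private theorem o4b_end (h : ThMin G B F f0 f1 f2 l0 l1 l2) {b : ℕ} (hb : b ≤ l0)
    (hadj : G.Adj (f0 0) (f0 b)) : f0 b = f0 1 ∨ f0 b = f1 1 ∨ f0 b = f2 1 := by
  rcases Nat.lt_or_ge b 2 with h2 | h2
  · have hb0 : b ≠ 0 := by
      rintro rfl
      exact G.irrefl hadj
    have : b = 1 := by omega
    subst this
    exact Or.inl rfl
  · obtain ⟨-, rfl, h3⟩ := h.no_chord_same (a := 0) (by omega) hb hadj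
    rcases h3 with h3 | h3
    · right; left
      rw [← h.th.t1, h3]
    · right; right
      rw [← h.th.t2, h3]

private theorem o4b_end_card (h : ThMin G B F f0 f1 f2 l0 l1 l2) : (nb G (f0 0) F).card ≤ 3 := by
  have hsub : nb G (f0 0) F ⊆ {f0 1, f1 1, f2 1} := by
    intro y hy
    obtain ⟨hyF, hadj⟩ := mem_nb.1 hy
    simp only [mem_insert, mem_singleton]
    rcases h.th.cases hyF with ⟨b, hb, rfl⟩ | ⟨b, hb, rfl⟩ | ⟨b, hb, rfl⟩
    · exact o4b_end h hb hadj
    · rw [← h.th.s1] at hadj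
      have := o4b_end (o4b_swap01 h) hb hadj
      tauto
    · rw [← h.th.s2] at hadj
      have := o4b_end (o4b_swap01 (o4b_swap12 h)) hb hadj
      tauto
  exact (card_le_card hsub).trans card_le_three

private theorem o4b_path (h : ThMin G B F f0 f1 f2 l0 l1 l2) (hg : ∀ n, CycS G B n → 6 ≤ n) {a : ℕ}
    (ha : a ≤ l0) : (nb G (f0 a) F).card ≤ 3 := by
  rcases Nat.eq_zero_or_pos a with h0 | h0
  · subst h0
    exact o4b_end_card h
  rcases Nat.lt_or_ge a l0 with h1 | h1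
  · have key : ∀ b, b ≤ l0 → G.Adj (f0 a) (f0 b) → f0 b = f0 (a - 1) ∨ f0 b = f0 (a + 1) := by
      intro b hb hadj
      have hne : b ≠ a := by
        rintro rfl
        exact G.irrefl hadj
      rcases Nat.lt_or_ge b a with h2 | h2
      · rcases Nat.lt_or_ge (b + 1) a with h3 | h3
        · have := h.no_chord_same (a := b) (b := a) (by omega) ha hadj.symm
          omega
        · have : b = a - 1 := by omega
          subst this
          exact Or.inl rfl
      · rcases Nat.lt_or_ge (a + 1) b with h3 | h3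
        · have := h.no_chord_same (a := a) (b := b) (by omega) hb hadj
          omega
        · have : b = a + 1 := by omega
          subst this
          exact Or.inr rfl
    have key1 : ∀ {f1 f2 : ℕ → V} {l1 l2 : ℕ}, ThMin G B F f0 f1 f2 l0 l1 l2 → ∀ b, b ≤ l1 →
        G.Adj (f0 a) (f1 b) → f1 b = f0 (a - 1) ∨ f1 b = f0 (a + 1) := by
      intro f1 f2 l1 l2 h b hb hadj
      rcases Nat.eq_zero_or_pos b with hb0 | hb0
      · subst hb0
        rw [h.th.s1] at hadj ⊢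
        exact key 0 (by omega) hadj
      rcases Nat.lt_or_ge b l1 with hb1 | hb1
      · exact absurd hadj (h.no_chord_cross hg h0 h1 hb0 hb1)
      · have : b = l1 := by omega
        subst this
        rw [h.th.t1] at hadj ⊢
        exact key l0 le_rfl hadj
    have hsub : nb G (f0 a) F ⊆ {f0 (a - 1), f0 (a + 1)} := by
      intro y hy
      obtain ⟨hyF, hadj⟩ := mem_nb.1 hy
      simp only [mem_insert, mem_singleton]
      rcases h.th.cases hyF with ⟨b, hb, rfl⟩ | ⟨b, hb, rfl⟩ | ⟨b, hb, rfl⟩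
      · exact key b hb hadj
      · exact key1 h b hb hadj
      · exact key1 (o4b_swap12 h) b hb hadj
    exact ((card_le_card hsub).trans card_le_two).trans (by norm_num)
  · have : a = l0 := by omega
    subst this
    simpa using o4b_end_card (o4b_rev h)

theorem ThMin.deg (h : ThMin G B F f0 f1 f2 l0 l1 l2) (hg : ∀ n, CycS G B n → 6 ≤ n) {x : V} (hx : x ∈ F) :
    (nb G x F).card ≤ 3 := by
  rcases h.th.cases hx with ⟨a, ha, rfl⟩ | ⟨a, ha, rfl⟩ | ⟨a, ha, rfl⟩
  · exact o4b_path h hg ha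
  · exact o4b_path (o4b_swap01 h) hg ha
  · exact o4b_path (o4b_swap01 (o4b_swap12 h)) hg ha


end Pool.Agent.Lib.MP_f599e5_co
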