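import Pool.Agent.Lib.MP_f599e5_co.O4B

set_option autoImplicit false
set_option linter.unusedSectionVars false

/-!
# JOB O4C: minimal thetas, outside vertices with two neighbours (girth at least 6)

`y ∈ B \ F` adjacent to `p ≠ q` in `F`.  `Q = {p, y, q}`: exact path of length 2 (`PX.trans` of two `PX.edge`; `p ≠ q`, `y ∉ F`), `Q ⊆ B`, `Q ∩ F = {p,q}`.
`ThF.two_pos` for `p, q`: a theta `g0, g1, g2` with lengths `m0, m1, m2` on the same set `F`, `ThMin.of_perm`.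
* Both on the first path, positions `a < b ≤ m0`, `n = b - a` (for the second alternative use `hQ.symm`): the segment and `Q` form a cycle in `B` of length `n + 2` (`PL.cycle`, or the first two paths of the theta
  `ThF.ear_delete` (`3 ≤ n + 2`): `ThF.cyc01`), so `n + 2 ≥ 6`, `n ≥ 4`.  `ThF.ear_replace` (`3 ≤ m0 - n + 2 + m1`, clear) gives a theta in `B` of total length
  `m0 - n + 2 + m1 + m2 < m0 + m1 + m2`: contradiction to `mn`.
* Inner vertices of the first and second path, positions `a`, `b`: the five thetas of Th3B, Th3C with `q = 2` are in `B`; `mn` gives `m2 ≤ 2`, `a ≤ 2`, `m0 - a ≤ 2`, `b ≤ 2`, `m1 - b ≤ 2`.  The first two paths of `cross_del2` (lengths `2` and `a + b`) form a cycle in `B`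
  (`ThF.cyc01`), `2 + a + b ≥ 6`, so `a = b = 2`; the first and third path: `2 + (m0-a) + (m1-b) ≥ 6`, so `m0 = m1 = 4`; the first and third path of `g`: `m0 + m2 ≥ 6`, so `m2 = 2`.  Result: `g0, g1, g2` with `g0 2 = p`, `g1 2 = q`.
-/

namespace Pool.Agent.Lib.MP_f599e5_co

open Finset

variable {V : Type} [DecidableEq V] {G : SimpleGraph V}

/-- the two-edge path through an outside vertex -/
private theorem o4c_px {F : Finset V} {y p q : V} (hyF : y ∉ F) (hp : p ∈ F) (hq : q ∈ F)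
    (hpq : p ≠ q) (hap : G.Adj y p) (haq : G.Adj y q) :
    PX G ({p, y} ∪ {y, q}) p q 2 := by
  refine (PX.edge hap.symm).trans (PX.edge haq) ?_
  intro x hx1 hx2
  simp only [mem_insert, mem_singleton] at hx1 hx2
  rcases hx1 with rfl | rfl
  · rcases hx2 with rfl | rfl
    · rfl
    · exact absurd rfl hpq
  · rfl

private theorem o4c_same {B F : Finset V} {f0 f1 f2 : ℕ → V} {l0 l1 l2 : ℕ}
    (h : ThMin G B F f0 f1 f2 l0 l1 l2) (hg : ∀ n, CycS G B n → 6 ≤ n) {a b : ℕ} (hab : a < b)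
    (hb : b ≤ l0) {Q : Finset V} (hQ : PX G Q (f0 a) (f0 b) 2) (hQB : Q ⊆ B)
    (hQF : ∀ x ∈ Q, x ∈ F → x = f0 a ∨ x = f0 b) : False := by
  have p1 := h.th.pos1
  have p2 := h.th.pos2
  have hne : f0 a ≠ f0 b := by
    intro he
    have := h.th.p0.inj a b (by omega) hb he
    omega
  have hc : CycS G B (b - a + 2) := by
    refine (PL.cycle (h.th.p0.toPX hab.le hb).1 hQ.1 ?_ hne (by omega)).mono (union_subset ?_ hQB)
    · intro x hx hxQ
      obtain ⟨i, _, hi, rfl⟩ := mem_cseg.1 hx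
      exact hQF _ hxQ (h.th.mem0 (by omega))
    · intro x hx
      obtain ⟨i, _, hi, rfl⟩ := mem_cseg.1 hx
      exact h.sub (h.th.mem0 (by omega))
  have h6 := hg _ hc
  have hT := h.th.ear_replace hab hb hQ hQF (by omega) (by omega)
  have := h.mn _ _ _ _ (o4b_sub h hQB) hT
  omega

private theorem o4c_cross {B F : Finset V} {f0 f1 f2 : ℕ → V} {l0 l1 l2 : ℕ}
    (h : ThMin G B F f0 f1 f2 l0 l1 l2) (hg : ∀ n, CycS G B n → 6 ≤ n) {a b : ℕ} (ha0 : 0 < a)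
    (ha : a < l0) (hb0 : 0 < b) (hb : b < l1) {Q : Finset V} (hQ : PX G Q (f0 a) (f1 b) 2)
    (hQB : Q ⊆ B) (hQF : ∀ x ∈ Q, x ∈ F → x = f0 a ∨ x = f1 b) :
    a = 2 ∧ b = 2 ∧ l0 = 4 ∧ l1 = 4 ∧ l2 = 2 := by
  have hsub : ∀ X : Finset V, (F \ X) ∪ Q ⊆ B := fun X => o4b_sub h hQB
  have t2 := h.th.cross_del2 ha0 ha hb0 hb hQ hQF
  have e1 := h.mn _ _ _ _ (hsub _) t2
  have e2 := h.mn _ _ _ _ (hsub _) (h.th.cross_del_s0 ha0 ha hb0 hb hQ hQF)
  have e3 := h.mn _ _ _ _ (hsub _) (h.th.cross_del_t0 ha0 ha hb0 hb hQ hQF)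
  have e4 := h.mn _ _ _ _ (hsub _) (h.th.cross_del_s1 ha0 ha hb0 hb hQ hQF)
  have e5 := h.mn _ _ _ _ (hsub _) (h.th.cross_del_t1 ha0 ha hb0 hb hQ hQF)
  have key : ∀ {F' : Finset V} {g0 g1 g2 : ℕ → V} {m0 m1 m2 : ℕ}, F' ⊆ B →
      ThF G F' g0 g1 g2 m0 m1 m2 → 6 ≤ m0 + m1 := by
    intro F' g0 g1 g2 m0 m1 m2 hF' hT
    refine hg _ (hT.cyc01.mono (union_subset ?_ ?_))
    · intro x hx
      obtain ⟨i, _, hi, rfl⟩ := mem_cseg.1 hx
      exact hF' (hT.mem0 hi)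
    · intro x hx
      obtain ⟨i, _, hi, rfl⟩ := mem_cseg.1 hx
      exact hF' (hT.mem1 hi)
  obtain ⟨g0, g1, g2, ht⟩ := t2
  have c1 := key (hsub _) ht
  have c2 := key (hsub _) ht.swap12
  have c3 := key h.sub h.th.swap12
  omega

theorem ThMin.outer {B F : Finset V} {f0 f1 f2 : ℕ → V} {l0 l1 l2 : ℕ} (h : ThMin G B F f0 f1 f2 l0 l1 l2)
    (hg : ∀ n, CycS G B n → 6 ≤ n) {y p q : V} (hy : y ∈ B) (hyF : y ∉ F) (hp : p ∈ F) (hq : q ∈ F)
    (hpq : p ≠ q) (hap : G.Adj y p) (haq : G.Adj y q) :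
    l0 + l1 + l2 = 10 ∧ ∃ g0 g1 g2 : ℕ → V, ThF G F g0 g1 g2 4 4 2 ∧ g0 2 = p ∧ g1 2 = q := by
  have hQ := o4c_px hyF hp hq hpq hap haq
  have hQB : ({p, y} ∪ {y, q} : Finset V) ⊆ B := by
    intro x hx
    simp only [mem_union, mem_insert, mem_singleton] at hx
    rcases hx with (rfl | rfl) | (rfl | rfl)
    · exact h.sub hp
    · exact hy
    · exact hy
    · exact h.sub hq
  have hQF : ∀ x ∈ ({p, y} ∪ {y, q} : Finset V), x ∈ F → x = p ∨ x = q := by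
    intro x hx hxF
    simp only [mem_union, mem_insert, mem_singleton] at hx
    rcases hx with (rfl | rfl) | (rfl | rfl)
    · exact Or.inl rfl
    · exact absurd hxF hyF
    · exact absurd hxF hyF
    · exact Or.inr rfl
  obtain ⟨g0, g1, g2, m0, m1, m2, hT, hP, hpos⟩ := h.th.two_pos hp hq hpq
  have hM := h.of_perm hT hP
  rcases hpos with ⟨a, b, hab, hb, he⟩ | ⟨a, b, ha0, ha, hb0, hb, e1, e2⟩
  · exfalso
    rcases he with ⟨e1, e2⟩ | ⟨e1, e2⟩
    · rw [← e1, ← e2] at hQ hQF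
      rw [← e1, ← e2] at hQB
      exact o4c_same hM hg hab hb hQ hQB hQF
    · have hQ' := hQ.symm
      have hQF' : ∀ x ∈ ({p, y} ∪ {y, q} : Finset V), x ∈ F → x = q ∨ x = p :=
        fun x hx hxF => (hQF x hx hxF).symm
      rw [← e1, ← e2] at hQ' hQF'
      rw [← e1, ← e2] at hQB
      exact o4c_same hM hg hab hb hQ' hQB hQF'
  · have hQ' := hQ
    rw [← e1, ← e2] at hQ' hQF
    rw [← e1, ← e2] at hQB
    obtain ⟨r1, r2, r3, r4, r5⟩ := o4c_cross hM hg ha0 ha hb0 hb hQ' hQB hQF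
    subst r1 r2 r3 r4 r5
    refine ⟨?_, g0, g1, g2, hT, e1, e2⟩
    unfold Perm3 at hP
    omega


end Pool.Agent.Lib.MP_f599e5_co
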