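import Pool.Agent.Lib.MP_f599e5_co.Th1B

set_option autoImplicit false
set_option linter.unusedSectionVars false

/-!
# JOB Th2B: symmetries and basic facts of thetas

* `swap01`: the fields are permuted; `d01` of the new theta is the old `d01` read from right to left (`(h.d01 j i hj hi e.symm)`),
  `d02` is the old `d12`, `d12` the old `d02`; `s1`: `f0 0 = f1 0`, `s2`: `f2 0 = f1 0` from `h.s1, h.s2`; `cov`: commutativity of unions.
* `swap12`: the same.
* `rev`: `PF.rev` three times; `fi (li - 0) = fi li`, `fi (li - li) = fi 0`; `d01`: `f0 (l0-i) = f1 (l1-j)` with `i ≤ l0, j ≤ l1`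
  gives `(l0-i = 0 and l1-j = 0)` or `(l0-i = l0 and l1-j = l1)`, i.e. `(i = l0, j = l1)` or `(i = 0, j = 0)` (omega, with `pos`).
  `cov`: `cseg (fun i => f (n-i)) 0 n = cseg f 0 n` (ext, `mem_cseg`, index `n-i`).
* `mem0, mem1, mem2`, `cases`: `cov`, `mem_cseg`.  `ends_ne`: injectivity of `f0` and `1 ≤ l0`.
* `card`: `F = cseg f0 0 l0 ∪ seg f1 0 l1 ∪ seg f2 0 l2` (disjoint union by `d01, d02, d12`), with cards `l0+1`, `l1-1`, `l2-1`
  (images of `Icc 0 l0`, `Ioo 0 l1`, `Ioo 0 l2` under maps injective there).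
-/

namespace Pool.Agent.Lib.MP_f599e5_co

open Finset

variable {V : Type} [DecidableEq V] {G : SimpleGraph V}

namespace ThF

variable {F : Finset V} {f0 f1 f2 : ℕ → V} {l0 l1 l2 : ℕ}

theorem swap01 (h : ThF G F f0 f1 f2 l0 l1 l2) : ThF G F f1 f0 f2 l1 l0 l2 := by
  exact
    { p0 := h.p1
      p1 := h.p0
      p2 := h.p2
      s1 := h.s1.symm
      s2 := h.s2.trans h.s1.symm
      t1 := h.t1.symm
      t2 := h.t2.trans h.t1.symm
      d01 := fun i j hi hj e => by
        have := h.d01 j i hj hi e.symm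
        omega
      d02 := h.d12
      d12 := h.d02
      pos0 := h.pos1
      pos1 := h.pos0
      pos2 := h.pos2
      c01 := by have := h.c01; omega
      c02 := h.c12
      c12 := h.c02
      cov := by rw [h.cov, Finset.union_comm (cseg f0 0 l0)] }

theorem swap12 (h : ThF G F f0 f1 f2 l0 l1 l2) : ThF G F f0 f2 f1 l0 l2 l1 := by
  exact
    { p0 := h.p0
      p1 := h.p2
      p2 := h.p1
      s1 := h.s2
      s2 := h.s1
      t1 := h.t2
      t2 := h.t1
      d01 := h.d02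
      d02 := h.d01
      d12 := fun i j hi hj e => by
        have := h.d12 j i hj hi e.symm
        omega
      pos0 := h.pos0
      pos1 := h.pos2
      pos2 := h.pos1
      c01 := h.c02
      c02 := h.c01
      c12 := by have := h.c12; omega
      cov := by rw [h.cov, Finset.union_right_comm] }

/-- reversing all three paths (exchange of the two branch vertices) -/
theorem rev (h : ThF G F f0 f1 f2 l0 l1 l2) :
    ThF G F (fun i => f0 (l0 - i)) (fun i => f1 (l1 - i)) (fun i => f2 (l2 - i)) l0 l1 l2 := by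
  have hc : ∀ (f : ℕ → V) (n : ℕ), cseg (fun i => f (n - i)) 0 n = cseg f 0 n := by
    intro f n
    ext x
    rw [mem_cseg, mem_cseg]
    constructor
    · rintro ⟨i, _, h2, h3⟩
      exact ⟨n - i, Nat.zero_le _, Nat.sub_le _ _, h3⟩
    · rintro ⟨i, _, h2, h3⟩
      refine ⟨n - i, Nat.zero_le _, Nat.sub_le _ _, ?_⟩
      show f (n - (n - i)) = x
      rw [Nat.sub_sub_self h2]
      exact h3
  exact
    { p0 := h.p0.rev
      p1 := h.p1.rev
      p2 := h.p2.rev
      s1 := h.t1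
      s2 := h.t2
      t1 := by
        show f1 (l1 - l1) = f0 (l0 - l0)
        rw [Nat.sub_self, Nat.sub_self]
        exact h.s1
      t2 := by
        show f2 (l2 - l2) = f0 (l0 - l0)
        rw [Nat.sub_self, Nat.sub_self]
        exact h.s2
      d01 := fun i j hi hj e => by
        have := h.d01 (l0 - i) (l1 - j) (Nat.sub_le _ _) (Nat.sub_le _ _) e
        omega
      d02 := fun i j hi hj e => by
        have := h.d02 (l0 - i) (l2 - j) (Nat.sub_le _ _) (Nat.sub_le _ _) e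
        omega
      d12 := fun i j hi hj e => by
        have := h.d12 (l1 - i) (l2 - j) (Nat.sub_le _ _) (Nat.sub_le _ _) e
        omega
      pos0 := h.pos0
      pos1 := h.pos1
      pos2 := h.pos2
      c01 := h.c01
      c02 := h.c02
      c12 := h.c12
      cov := by rw [hc, hc, hc]; exact h.cov }

theorem toL (h : ThF G F f0 f1 f2 l0 l1 l2) : ThL G F l0 l1 l2 := ⟨f0, f1, f2, h⟩

theorem mem0 (h : ThF G F f0 f1 f2 l0 l1 l2) {i : ℕ} (hi : i ≤ l0) : f0 i ∈ F := by
  rw [h.cov, Finset.mem_union, Finset.mem_union]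
  exact Or.inl (Or.inl (mem_cseg.mpr ⟨i, Nat.zero_le _, hi, rfl⟩))

theorem mem1 (h : ThF G F f0 f1 f2 l0 l1 l2) {i : ℕ} (hi : i ≤ l1) : f1 i ∈ F := by
  rw [h.cov, Finset.mem_union, Finset.mem_union]
  exact Or.inl (Or.inr (mem_cseg.mpr ⟨i, Nat.zero_le _, hi, rfl⟩))

theorem mem2 (h : ThF G F f0 f1 f2 l0 l1 l2) {i : ℕ} (hi : i ≤ l2) : f2 i ∈ F := by
  rw [h.cov, Finset.mem_union, Finset.mem_union]
  exact Or.inr (mem_cseg.mpr ⟨i, Nat.zero_le _, hi, rfl⟩)

/-- the branch vertices are different -/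
theorem ends_ne (h : ThF G F f0 f1 f2 l0 l1 l2) : f0 0 ≠ f0 l0 := by
  intro he
  have h1 := h.p0.inj 0 l0 (Nat.zero_le _) le_rfl he
  have h2 := h.pos0
  omega

/-- number of vertices -/
theorem card (h : ThF G F f0 f1 f2 l0 l1 l2) : F.card + 1 = l0 + l1 + l2 := by
  have hF : F = (cseg f0 0 l0 ∪ seg f1 0 l1) ∪ seg f2 0 l2 := by
    rw [h.cov]
    ext x
    simp only [Finset.mem_union, mem_cseg, mem_seg]
    constructor
    · rintro ((⟨i, _, hi, rfl⟩ | ⟨i, _, hi, rfl⟩) | ⟨i, _, hi, rfl⟩)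
      · exact Or.inl (Or.inl ⟨i, Nat.zero_le _, hi, rfl⟩)
      · rcases Nat.eq_zero_or_pos i with h0 | h0
        · refine Or.inl (Or.inl ⟨0, le_rfl, Nat.zero_le _, ?_⟩)
          rw [h0, h.s1]
        · rcases Nat.lt_or_ge i l1 with h1 | h1
          · exact Or.inl (Or.inr ⟨i, h0, h1, rfl⟩)
          · refine Or.inl (Or.inl ⟨l0, Nat.zero_le _, le_rfl, ?_⟩)
            have : i = l1 := by omega
            rw [this, h.t1]
      · rcases Nat.eq_zero_or_pos i with h0 | h0
        · refine Or.inl (Or.inl ⟨0, le_rfl, Nat.zero_le _, ?_⟩)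
          rw [h0, h.s2]
        · rcases Nat.lt_or_ge i l2 with h1 | h1
          · exact Or.inr ⟨i, h0, h1, rfl⟩
          · refine Or.inl (Or.inl ⟨l0, Nat.zero_le _, le_rfl, ?_⟩)
            have : i = l2 := by omega
            rw [this, h.t2]
    · rintro ((⟨i, _, hi, rfl⟩ | ⟨i, h0, hi, rfl⟩) | ⟨i, h0, hi, rfl⟩)
      · exact Or.inl (Or.inl ⟨i, Nat.zero_le _, hi, rfl⟩)
      · exact Or.inl (Or.inr ⟨i, Nat.zero_le _, hi.le, rfl⟩)
      · exact Or.inr ⟨i, Nat.zero_le _, hi.le, rfl⟩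
  have hd1 : Disjoint (cseg f0 0 l0) (seg f1 0 l1) := by
    rw [Finset.disjoint_left]
    intro x hx hx'
    rw [mem_cseg] at hx
    rw [mem_seg] at hx'
    obtain ⟨i, _, hi, rfl⟩ := hx
    obtain ⟨j, hj0, hj, he⟩ := hx'
    have := h.d01 i j hi hj.le he.symm
    omega
  have hd2 : Disjoint (cseg f0 0 l0 ∪ seg f1 0 l1) (seg f2 0 l2) := by
    rw [Finset.disjoint_left]
    intro x hx hx'
    rw [mem_seg] at hx'
    obtain ⟨j, hj0, hj, he⟩ := hx'
    rcases Finset.mem_union.mp hx with hx | hx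
    · rw [mem_cseg] at hx
      obtain ⟨i, _, hi, rfl⟩ := hx
      have := h.d02 i j hi hj.le he.symm
      omega
    · rw [mem_seg] at hx
      obtain ⟨i, hi0, hi, rfl⟩ := hx
      have := h.d12 i j hi.le hj.le he.symm
      omega
  have c0 : (cseg f0 0 l0).card = l0 + 1 := by
    unfold cseg
    rw [Finset.card_image_of_injOn, Nat.card_Icc]
    · omega
    · intro i hi j hj hij
      rw [Finset.coe_Icc] at hi hj
      exact h.p0.inj i j hi.2 hj.2 hij
  have c1 : (seg f1 0 l1).card = l1 - 1 := by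
    unfold seg
    rw [Finset.card_image_of_injOn, Nat.card_Ioo]
    · omega
    · intro i hi j hj hij
      rw [Finset.coe_Ioo] at hi hj
      exact h.p1.inj i j hi.2.le hj.2.le hij
  have c2 : (seg f2 0 l2).card = l2 - 1 := by
    unfold seg
    rw [Finset.card_image_of_injOn, Nat.card_Ioo]
    · omega
    · intro i hi j hj hij
      rw [Finset.coe_Ioo] at hi hj
      exact h.p2.inj i j hi.2.le hj.2.le hij
  rw [hF, Finset.card_union_of_disjoint hd2, Finset.card_union_of_disjoint hd1, c0, c1, c2]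
  have := h.pos1
  have := h.pos2
  omega

/-- every vertex of the theta is on one of the paths -/
theorem cases (h : ThF G F f0 f1 f2 l0 l1 l2) {x : V} (hx : x ∈ F) :
    (∃ i, i ≤ l0 ∧ f0 i = x) ∨ (∃ i, i ≤ l1 ∧ f1 i = x) ∨ (∃ i, i ≤ l2 ∧ f2 i = x) := by
  rw [h.cov, Finset.mem_union, Finset.mem_union, mem_cseg, mem_cseg, mem_cseg] at hx
  rcases hx with (⟨i, _, hi, he⟩ | ⟨i, _, hi, he⟩) | ⟨i, _, hi, he⟩
  · exact Or.inl ⟨i, hi, he⟩
  · exact Or.inr (Or.inl ⟨i, hi, he⟩)
  · exact Or.inr (Or.inr ⟨i, hi, he⟩)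

end ThF

namespace ThL

variable {F : Finset V} {l0 l1 l2 : ℕ}

theorem swap01 (h : ThL G F l0 l1 l2) : ThL G F l1 l0 l2 := by
  obtain ⟨f0, f1, f2, h⟩ := h
  exact ⟨f1, f0, f2, h.swap01⟩

theorem swap12 (h : ThL G F l0 l1 l2) : ThL G F l0 l2 l1 := by
  obtain ⟨f0, f1, f2, h⟩ := h
  exact ⟨f0, f2, f1, h.swap12⟩

end ThL


end Pool.Agent.Lib.MP_f599e5_co
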