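import Pool.Agent.Lib.MP_f599e5_co.Th1C
import Pool.Agent.Lib.MP_f599e5_co.Th2B

set_option autoImplicit false
set_option linter.unusedSectionVars false

/-!
# JOB Th2E: a theta is 2-connected

`F.card ≥ 3`: `card` and `c01, c02, c12` give `2 (l0+l1+l2) ≥ 9`.
`Conn G (F.erase w)`: write `s = f0 0`, `t = f0 l0`.  By `PF.conn_cseg` each `cseg fi 0 li` is connected.
 * `w` not in `F`, or `w` not on any path: `F.erase w = F`, the union of three connected sets with the common vertex `s` (`Conn.union`, B3).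
 * `w = s` (or `t`: use `h.rev`, `F` is the same): `F.erase s` is the union of the connected sets `cseg fi 1 li` (`1 ≤ li`), which all
   contain `t`.
 * `w = f0 a` with `0 < a < l0` (the other paths by `swap01`, `swap12`): `F.erase w` is the union of `cseg f0 0 (a-1)` (contains `s`),
   `cseg f0 (a+1) l0` (contains `t`), `cseg f1 0 l1`, `cseg f2 0 l2` (contain both).
-/

namespace Pool.Agent.Lib.MP_f599e5_co

open Finset

variable {V : Type} [DecidableEq V] {G : SimpleGraph V}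

namespace ThF

variable {F : Finset V} {f0 f1 f2 : ℕ → V} {l0 l1 l2 : ℕ}

theorem Th2E_union {C C' : Finset V} (h : Conn G C) (h' : Conn G C') {x : V} (hx : x ∈ C)
    (hx' : x ∈ C') : Conn G (C ∪ C') :=
  h.union h' (Or.inr fun hd => Finset.disjoint_left.mp hd hx hx')

theorem Th2E_first (h : ThF G F f0 f1 f2 l0 l1 l2) : Conn G (F.erase (f0 0)) := by
  have hp0 := h.pos0
  have hp1 := h.pos1
  have hp2 := h.pos2
  have heq : F.erase (f0 0) = cseg f0 1 l0 ∪ cseg f1 1 l1 ∪ cseg f2 1 l2 := by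
    ext x
    rw [mem_erase, mem_union, mem_union, mem_cseg, mem_cseg, mem_cseg]
    constructor
    · rintro ⟨hx, hxF⟩
      rcases h.cases hxF with ⟨i, hi, rfl⟩ | ⟨i, hi, rfl⟩ | ⟨i, hi, rfl⟩
      · left; left
        refine ⟨i, ?_, hi, rfl⟩
        rcases Nat.eq_zero_or_pos i with h0 | h0
        · exact absurd (by rw [h0]) hx
        · exact h0
      · left; right
        refine ⟨i, ?_, hi, rfl⟩
        rcases Nat.eq_zero_or_pos i with h0 | h0
        · exact absurd (by rw [h0, h.s1]) hx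
        · exact h0
      · right
        refine ⟨i, ?_, hi, rfl⟩
        rcases Nat.eq_zero_or_pos i with h0 | h0
        · exact absurd (by rw [h0, h.s2]) hx
        · exact h0
    · rintro ((⟨i, h1, hi, rfl⟩ | ⟨i, h1, hi, rfl⟩) | ⟨i, h1, hi, rfl⟩)
      · refine ⟨fun he => ?_, h.mem0 hi⟩
        have := h.p0.inj i 0 hi (by omega) he
        omega
      · refine ⟨fun he => ?_, h.mem1 hi⟩
        have := h.p1.inj i 0 hi (by omega) (he.trans h.s1.symm)
        omega
      · refine ⟨fun he => ?_, h.mem2 hi⟩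
        have := h.p2.inj i 0 hi (by omega) (he.trans h.s2.symm)
        omega
  rw [heq]
  refine Th2E_union (x := f0 l0) (Th2E_union (x := f0 l0) (h.p0.conn_cseg hp0 le_rfl)
    (h.p1.conn_cseg hp1 le_rfl) ?_ ?_) (h.p2.conn_cseg hp2 le_rfl) ?_ ?_
  · exact mem_cseg.mpr ⟨l0, hp0, le_rfl, rfl⟩
  · exact mem_cseg.mpr ⟨l1, hp1, le_rfl, h.t1⟩
  · exact mem_union.mpr (Or.inl (mem_cseg.mpr ⟨l0, hp0, le_rfl, rfl⟩))
  · exact mem_cseg.mpr ⟨l2, hp2, le_rfl, h.t2⟩

theorem Th2E_erase (h : ThF G F f0 f1 f2 l0 l1 l2) {a : ℕ} (ha : a ≤ l0) :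
    Conn G (F.erase (f0 a)) := by
  have hp0 := h.pos0
  have hp1 := h.pos1
  have hp2 := h.pos2
  rcases Nat.eq_zero_or_pos a with h0 | h0
  · rw [h0]
    exact h.Th2E_first
  · rcases Nat.lt_or_ge a l0 with h1 | h1
    · have heq : F.erase (f0 a) = (cseg f0 0 (a - 1) ∪ cseg f1 0 l1) ∪
          (cseg f0 (a + 1) l0 ∪ cseg f2 0 l2) := by
        ext x
        rw [mem_erase, mem_union, mem_union, mem_union, mem_cseg, mem_cseg, mem_cseg, mem_cseg]
        constructor
        · rintro ⟨hx, hxF⟩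
          rcases h.cases hxF with ⟨i, hi, rfl⟩ | ⟨i, hi, rfl⟩ | ⟨i, hi, rfl⟩
          · rcases lt_trichotomy i a with h2 | h2 | h2
            · exact Or.inl (Or.inl ⟨i, by omega, by omega, rfl⟩)
            · exact absurd (by rw [h2]) hx
            · exact Or.inr (Or.inl ⟨i, by omega, hi, rfl⟩)
          · exact Or.inl (Or.inr ⟨i, by omega, hi, rfl⟩)
          · exact Or.inr (Or.inr ⟨i, by omega, hi, rfl⟩)
        · rintro ((⟨i, h2, hi, rfl⟩ | ⟨i, h2, hi, rfl⟩) | (⟨i, h2, hi, rfl⟩ | ⟨i, h2, hi, rfl⟩))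
          · refine ⟨fun he => ?_, h.mem0 (by omega)⟩
            have := h.p0.inj i a (by omega) ha he
            omega
          · refine ⟨fun he => ?_, h.mem1 hi⟩
            rcases h.d01 a i ha hi he.symm with h3 | h3 <;> omega
          · refine ⟨fun he => ?_, h.mem0 hi⟩
            have := h.p0.inj i a hi ha he
            omega
          · refine ⟨fun he => ?_, h.mem2 hi⟩
            rcases h.d02 a i ha hi he.symm with h3 | h3 <;> omega
      rw [heq]
      have c1 : Conn G (cseg f0 0 (a - 1) ∪ cseg f1 0 l1) :=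
        Th2E_union (x := f0 0) (h.p0.conn_cseg (Nat.zero_le _) (by omega))
          (h.p1.conn_cseg (Nat.zero_le _) le_rfl) (mem_cseg.mpr ⟨0, le_rfl, Nat.zero_le _, rfl⟩)
          (mem_cseg.mpr ⟨0, le_rfl, Nat.zero_le _, h.s1⟩)
      have c2 : Conn G (cseg f0 (a + 1) l0 ∪ cseg f2 0 l2) :=
        Th2E_union (x := f0 l0) (h.p0.conn_cseg h1 le_rfl)
          (h.p2.conn_cseg (Nat.zero_le _) le_rfl) (mem_cseg.mpr ⟨l0, h1, le_rfl, rfl⟩)
          (mem_cseg.mpr ⟨l2, Nat.zero_le _, le_rfl, h.t2⟩)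
      refine Th2E_union (x := f0 0) c1 c2 ?_ ?_
      · exact mem_union.mpr (Or.inl (mem_cseg.mpr ⟨0, le_rfl, Nat.zero_le _, rfl⟩))
      · exact mem_union.mpr (Or.inr (mem_cseg.mpr ⟨0, le_rfl, Nat.zero_le _, h.s2⟩))
    · have h2 : a = l0 := le_antisymm ha h1
      have h3 := h.rev.Th2E_first
      rw [h2]
      exact h3

/-- `G[F]` is 2-connected -/
theorem twoC (h : ThF G F f0 f1 f2 l0 l1 l2) : TwoC G F := by
  have hcard := h.card
  have h1 := h.c01
  have h2 := h.c02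
  have h3 := h.c12
  refine ⟨by omega, ?_⟩
  intro w
  by_cases hw : w ∈ F
  · rcases h.cases hw with ⟨i, hi, rfl⟩ | ⟨i, hi, rfl⟩ | ⟨i, hi, rfl⟩
    · exact h.Th2E_erase hi
    · exact h.swap01.Th2E_erase hi
    · exact h.swap12.swap01.Th2E_erase hi
  · rw [erase_eq_of_notMem hw, h.cov]
    refine Th2E_union (x := f0 0) (Th2E_union (x := f0 0) (h.p0.conn_cseg (Nat.zero_le _) le_rfl)
      (h.p1.conn_cseg (Nat.zero_le _) le_rfl) ?_ ?_) (h.p2.conn_cseg (Nat.zero_le _) le_rfl) ?_ ?_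
    · exact mem_cseg.mpr ⟨0, le_rfl, Nat.zero_le _, rfl⟩
    · exact mem_cseg.mpr ⟨0, le_rfl, Nat.zero_le _, h.s1⟩
    · exact mem_union.mpr (Or.inl (mem_cseg.mpr ⟨0, le_rfl, Nat.zero_le _, rfl⟩))
    · exact mem_cseg.mpr ⟨0, le_rfl, Nat.zero_le _, h.s2⟩

end ThF


end Pool.Agent.Lib.MP_f599e5_co
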