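import Pool.Agent.Lib.MP_f599e5_co.O4C
import Pool.Agent.Lib.MP_f599e5_co.O4A
import Pool.Agent.Lib.MP_f599e5_co.O3B
import Pool.Agent.Lib.MP_f599e5_co.Th2E
import Pool.Agent.Lib.MP_f599e5_co.K6

set_option autoImplicit false
set_option linter.unusedSectionVars false

/-!
# JOB O4D: `k = 5`, case A (no outside vertex has two neighbours in the minimal theta)

* `girth6`: `Blk.girth5` with `k = 5`; a cycle of length 5 gives `ZC 5 G` (`CycS.zc`).
* `exists_thmin`: `Blk.exists_theta`; choose the minimum total length (`Nat.find` on `∃ F ⊆ B, ∃ l0 l1 l2, ThL G F l0 l1 l2 ∧ l0 + l1 + l2 = n`), then `ThMin`.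
* `h5_of_adm`: if for all `x ≠ y` in `F`, both `≠ c`, there is `D` disjoint from `F` with `Adm G 3 D {x} {y}`, then `H5 G F c`: `adm_res` (O3B) with `k = 5`, `n = 3`: none of `l + i d + p`, `i < 3`, is divisible by 5, so `p` mod 5 is one
  of the two residues `-(l+3d)`, `-(l+4d)`; three such numbers `p, q, r` satisfy `Two5` (`unfold Two5`, `Nat.dvd_iff_mod_eq_zero`, cases `d = 1, 2`, instances `i = 0,1,2`, omega).
* `caseA5`: `UF G B F`: `F.card ≥ 5` (`ThF.card`, `l0+l1 ≥ 6` by `ThF.cyc01` and `hg`, `l2 ≥ 1`: `F.card = l0+l1+l2-1 ≥ 6`), `one` from `hno`, `conn`: `ThF.twoC` with some `w ∉ F` or by `Conn.union`; e.g. from `TwoC`: `F.erase w` is connected for each `w`,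
  two vertices of `F` are joined in `F.erase w` for a third vertex `w` (`conn_of_path`).  `lemU` with `ThMin.deg` (`3 + 2 ≤ 5`), `TwoC`: `ThF.twoC`.  So `H5 G F c`.  `T5`: `c01, c02, c12` by `ThF.cyc01` (for `h`, `h.swap12`, `h.swap01.swap12`) and `hg`,
  `n01` etc.: a cycle of length `l0 + l1` divisible by 5 would give `ZC 5 G`.
-/

namespace Pool.Agent.Lib.MP_f599e5_co

open Finset

variable {V : Type} [DecidableEq V] {G : SimpleGraph V}

theorem girth6 {B : Finset V} {c : V} (hB : Blk G 5 B c) (hz : ¬ ZC 5 G) : ∀ n, CycS G B n → 6 ≤ n := by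
  intro n hn
  have h5 := hB.girth5 (by decide) le_rfl hz hn
  by_contra hc
  have : n = 5 := by omega
  subst this
  exact hz (hn.zc dvd_rfl)

theorem exists_thmin {k : ℕ} {B : Finset V} {c : V} (hB : Blk G k B c) (hk : 3 ≤ k) :
    ∃ (F : Finset V) (f0 f1 f2 : ℕ → V) (l0 l1 l2 : ℕ), ThMin G B F f0 f1 f2 l0 l1 l2 := by
  classical
  have hex : ∃ n, ∃ F, F ⊆ B ∧ ∃ l0 l1 l2, ThL G F l0 l1 l2 ∧ l0 + l1 + l2 = n := by
    obtain ⟨F, hF, l0, l1, l2, hT⟩ := hB.exists_theta hk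
    exact ⟨_, F, hF, l0, l1, l2, hT, rfl⟩
  obtain ⟨F, hF, l0, l1, l2, ⟨f0, f1, f2, hT⟩, hs⟩ := Nat.find_spec hex
  refine ⟨F, f0, f1, f2, l0, l1, l2, hT, hF, ?_⟩
  intro F' m0 m1 m2 hF' hT'
  have := Nat.find_min' hex ⟨F', hF', m0, m1, m2, hT', rfl⟩
  omega

theorem h5_of_adm {F : Finset V} {c : V} (hz : ¬ ZC 5 G)
    (h : ∀ x ∈ F, ∀ y ∈ F, x ≠ c → y ≠ c → x ≠ y → ∃ D, Disjoint D F ∧ Adm G 3 D {x} {y}) : H5 G F c := by
  intro x hx y hy hxc hyc hxy p q r hp hq hr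
  obtain ⟨D, hD, hA⟩ := h x hx y hy hxc hyc hxy
  obtain ⟨d, hd, l, hl⟩ := adm_res hz hD hx hy hxy hA
  have p0 := hl p hp 0 (by norm_num)
  have p1 := hl p hp 1 (by norm_num)
  have p2 := hl p hp 2 (by norm_num)
  have q0 := hl q hq 0 (by norm_num)
  have q1 := hl q hq 1 (by norm_num)
  have q2 := hl q hq 2 (by norm_num)
  have r0 := hl r hr 0 (by norm_num)
  have r1 := hl r hr 1 (by norm_num)
  have r2 := hl r hr 2 (by norm_num)
  unfold Two5
  clear hp hq hr hA hl h hx hy hxc hyc hxy hD hz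
  rcases hd with rfl | rfl <;> omega

theorem TwoC.conn {F : Finset V} (h : TwoC G F) : Conn G F := by
  obtain ⟨h3, hc⟩ := h
  refine conn_of_path (card_pos.1 (by omega)) fun u hu v hv => ?_
  have hcard : 1 ≤ ((F.erase u).erase v).card := by
    have h1 := pred_card_le_card_erase (s := F) (a := u)
    have h2 := pred_card_le_card_erase (s := F.erase u) (a := v)
    omega
  obtain ⟨w, hw⟩ := card_pos.1 (by omega : 0 < ((F.erase u).erase v).card)
  have hwv : w ≠ v := (mem_erase.1 hw).1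
  have hwu : w ≠ u := (mem_erase.1 (mem_erase.1 hw).2).1
  obtain ⟨n, hn⟩ := (hc w).path (mem_erase.2 ⟨hwu.symm, hu⟩) (mem_erase.2 ⟨hwv.symm, hv⟩)
  exact ⟨n, hn.mono (erase_subset _ _)⟩

private theorem o4d_cyc {B F : Finset V} {f0 f1 f2 : ℕ → V} {l0 l1 l2 : ℕ} (hFB : F ⊆ B)
    (hT : ThF G F f0 f1 f2 l0 l1 l2) : CycS G B (l0 + l1) := by
  refine hT.cyc01.mono (union_subset ?_ ?_)
  · intro x hx
    obtain ⟨i, _, hi, rfl⟩ := mem_cseg.1 hx
    exact hFB (hT.mem0 hi)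
  · intro x hx
    obtain ⟨i, _, hi, rfl⟩ := mem_cseg.1 hx
    exact hFB (hT.mem1 hi)

theorem caseA5 {B F : Finset V} {c : V} {f0 f1 f2 : ℕ → V} {l0 l1 l2 : ℕ} (hB : Blk G 5 B c) (hz : ¬ ZC 5 G)
    (h : ThMin G B F f0 f1 f2 l0 l1 l2) (hno : ∀ x ∈ B, x ∉ F → (nb G x F).card ≤ 1) : False := by
  have hg := girth6 hB hz
  have c01 := o4d_cyc h.sub h.th
  have c02 := o4d_cyc h.sub h.th.swap12
  have c12 := o4d_cyc h.sub h.th.swap01.swap12.swap01
  have g01 := hg _ c01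
  have g02 := hg _ c02
  have g12 := hg _ c12
  have hcard := h.th.card
  have hp2 := h.th.pos2
  have hU : UF G B F := ⟨h.sub, by omega, hno, h.th.twoC.conn⟩
  have hL := lemU hB (by decide) le_rfl hz hU h.th.twoC (fun x hx _ => by
    have := h.deg hg hx
    omega)
  have H : H5 G F c := h5_of_adm hz hL
  exact T5 h.th H g01 g02 (by omega) (fun hd => hz (c01.zc hd)) (fun hd => hz (c02.zc hd))
    (fun hd => hz (c12.zc (by omega)))


end Pool.Agent.Lib.MP_f599e5_co
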