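import Pool.Agent.Lib.MP_f599e5_co.ThD
import Pool.Agent.Lib.MP_f599e5_co.Th2B

set_option autoImplicit false
set_option linter.unusedSectionVars false

/-!
# JOB O4E: the fully subdivided `K_4`: definition, construction from a theta, card

`K4S G v m`: branch vertices `v i` (`i : Fin 4`), `m i j = m j i` the middle vertex of the path from `v i` to `v j` (`i ≠ j`; `m i i` is irrelevant).  `kset v m` = its 10 vertices.
* `K4S.of_theta`: `v 0 = g0 0`, `v 1 = g0 4`, `v 2 = g0 2`, `v 3 = g1 2`, `m 0 1 = g2 1`, `m 0 2 = g0 1`, `m 1 2 = g0 3`, `m 0 3 = g1 1`, `m 1 3 = g1 3`, `m 2 3 = y` (and symmetric; `m i i` := anything, e.g. `y`).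
  Define `v := ![g0 0, g0 4, g0 2, g1 2]` and `m` by a 4x4 matrix `![![y, g2 1, g0 1, g1 1], ![g2 1, y, g0 3, g1 3], ![g0 1, g0 3, y, y], ![g1 1, g1 3, y, y]]`.
  Adjacencies from `h.p0.adj i` etc. (`g1 0 = g0 0`, `g1 4 = g0 4`, `g2 0 = g0 0`, `g2 2 = g0 4`); all ten vertices are different by injectivity of `g0, g1, g2`, `d01, d02, d12` and `y ∉ F`; prove first the 45 inequalities or use
  `fin_cases` on the indices.  The set equality: `F = cseg g0 0 4 ∪ cseg g1 0 4 ∪ cseg g2 0 2`.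
* `K4S.card`: the images are disjoint, 4 and 6 elements (the six pairs `i < j`).
* `mem_kset`: unfold.
-/

namespace Pool.Agent.Lib.MP_f599e5_co

open Finset

variable {V : Type} [DecidableEq V] {G : SimpleGraph V}

/-- a fully subdivided `K_4` in `G` -/
structure K4S (G : SimpleGraph V) (v : Fin 4 → V) (m : Fin 4 → Fin 4 → V) : Prop where
  sym : ∀ i j, m i j = m j i
  adj : ∀ i j, i ≠ j → G.Adj (v i) (m i j)
  vinj : ∀ i j, v i = v j → i = j
  vm : ∀ i j l, j ≠ l → v i ≠ m j l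
  minj : ∀ i j i' j', i ≠ j → i' ≠ j' → m i j = m i' j' → (i = i' ∧ j = j') ∨ (i = j' ∧ j = i')

/-- its vertex set -/
def kset (v : Fin 4 → V) (m : Fin 4 → Fin 4 → V) : Finset V :=
  Finset.univ.image v ∪ (Finset.univ.filter (fun p : Fin 4 × Fin 4 => p.1 ≠ p.2)).image (fun p => m p.1 p.2)

theorem mem_kset {v : Fin 4 → V} {m : Fin 4 → Fin 4 → V} {x : V} :
    x ∈ kset v m ↔ (∃ i, v i = x) ∨ (∃ i j, i ≠ j ∧ m i j = x) := by
  simp only [kset, mem_union, mem_image, mem_univ, true_and, mem_filter, Prod.exists]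

/-- index of the middle vertex -/
def k4idx : Fin 4 → Fin 4 → Fin 10 :=
  ![![9, 4, 5, 7], ![4, 9, 6, 8], ![5, 6, 9, 9], ![7, 8, 9, 9]]

/-- index of the branch vertex -/
def k4v : Fin 4 → Fin 10 := ![0, 1, 2, 3]

theorem K4S.of_theta {F : Finset V} {g0 g1 g2 : ℕ → V} (h : ThF G F g0 g1 g2 4 4 2) {y : V} (hy : y ∉ F)
    (h0 : G.Adj y (g0 2)) (h1 : G.Adj y (g1 2)) :
    ∃ (v : Fin 4 → V) (m : Fin 4 → Fin 4 → V), K4S G v m ∧ kset v m = insert y F := by
  have i0 : ∀ i j, i ≤ 4 → j ≤ 4 → i ≠ j → g0 i ≠ g0 j := fun i j hi hj hne e => hne (h.p0.inj i j hi hj e)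
  have i1 : ∀ i j, i ≤ 4 → j ≤ 4 → i ≠ j → g1 i ≠ g1 j := fun i j hi hj hne e => hne (h.p1.inj i j hi hj e)
  have i01 : ∀ i j, i ≤ 4 → 1 ≤ j → j ≤ 3 → g0 i ≠ g1 j := by
    intro i j hi hj1 hj3 e
    rcases h.d01 i j hi (by omega) e with h' | h' <;> omega
  have i02 : ∀ i, i ≤ 4 → g0 i ≠ g2 1 := by
    intro i hi e
    rcases h.d02 i 1 hi (by omega) e with h' | h' <;> omega
  have i12 : ∀ i, i ≤ 4 → g1 i ≠ g2 1 := by
    intro i hi e
    rcases h.d12 i 1 hi (by omega) e with h' | h' <;> omega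
  have y0 : ∀ i, i ≤ 4 → g0 i ≠ y := fun i hi e => hy (e ▸ h.mem0 hi)
  have y1 : ∀ i, i ≤ 4 → g1 i ≠ y := fun i hi e => hy (e ▸ h.mem1 hi)
  have y2 : g2 1 ≠ y := fun e => hy (e ▸ h.mem2 (by omega))
  let w : Fin 10 → V := ![g0 0, g0 4, g0 2, g1 2, g2 1, g0 1, g0 3, g1 1, g1 3, y]
  have w0 : w 0 = g0 0 := rfl
  have w1 : w 1 = g0 4 := rfl
  have w2 : w 2 = g0 2 := rfl
  have w3 : w 3 = g1 2 := rfl
  have w4 : w 4 = g2 1 := rfl
  have w5 : w 5 = g0 1 := rfl
  have w6 : w 6 = g0 3 := rfl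
  have w7 : w 7 = g1 1 := rfl
  have w8 : w 8 = g1 3 := rfl
  have w9 : w 9 = y := rfl
  have key : ∀ i j : Fin 10, i < j → w i ≠ w j := by
    intro i j hij
    fin_cases i <;> fin_cases j <;> first
      | exact absurd hij (by decide)
      | exact i0 _ _ (by omega) (by omega) (by omega)
      | exact i1 _ _ (by omega) (by omega) (by omega)
      | exact i01 _ _ (by omega) (by omega) (by omega)
      | exact (i01 _ _ (by omega) (by omega) (by omega)).symm
      | exact i02 _ (by omega)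
      | exact (i02 _ (by omega)).symm
      | exact i12 _ (by omega)
      | exact (i12 _ (by omega)).symm
      | exact y0 _ (by omega)
      | exact y1 _ (by omega)
      | exact y2
  have winj : ∀ i j : Fin 10, w i = w j → i = j := by
    intro i j e
    rcases lt_trichotomy i j with hl | hl | hl
    · exact absurd e (key i j hl)
    · exact hl
    · exact absurd e.symm (key j i hl)
  refine ⟨fun i => w (k4v i), fun i j => w (k4idx i j), ⟨?_, ?_, ?_, ?_, ?_⟩, ?_⟩
  · intro i j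
    have : ∀ i j : Fin 4, k4idx i j = k4idx j i := by decide
    show w (k4idx i j) = w (k4idx j i)
    rw [this i j]
  · have a01 : G.Adj (g0 0) (g0 1) := h.p0.adj 0 (by omega)
    have a12 : G.Adj (g0 1) (g0 2) := h.p0.adj 1 (by omega)
    have a23 : G.Adj (g0 2) (g0 3) := h.p0.adj 2 (by omega)
    have a34 : G.Adj (g0 3) (g0 4) := h.p0.adj 3 (by omega)
    have b01 : G.Adj (g0 0) (g1 1) := h.s1 ▸ h.p1.adj 0 (by omega)
    have b12 : G.Adj (g1 1) (g1 2) := h.p1.adj 1 (by omega)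
    have b23 : G.Adj (g1 2) (g1 3) := h.p1.adj 2 (by omega)
    have b34 : G.Adj (g1 3) (g0 4) := h.t1 ▸ h.p1.adj 3 (by omega)
    have c01 : G.Adj (g0 0) (g2 1) := h.s2 ▸ h.p2.adj 0 (by omega)
    have c12 : G.Adj (g2 1) (g0 4) := h.t2 ▸ h.p2.adj 1 (by omega)
    intro i j hij
    fin_cases i <;> fin_cases j <;> first
      | exact absurd rfl hij
      | exact a01
      | exact a12.symm
      | exact a23
      | exact a34.symm
      | exact b01
      | exact b12.symm
      | exact b23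
      | exact b34.symm
      | exact c01
      | exact c12.symm
      | exact h0.symm
      | exact h1.symm
  · intro i j e
    have := winj _ _ e
    have key2 : ∀ i j : Fin 4, k4v i = k4v j → i = j := by decide
    exact key2 i j this
  · intro i j l hjl e
    have := winj _ _ e
    have key2 : ∀ i j l : Fin 4, j ≠ l → k4v i ≠ k4idx j l := by decide
    exact key2 i j l hjl this
  · intro i j i' j' hij hij' e
    have := winj _ _ e
    have key2 : ∀ i j i' j' : Fin 4, i ≠ j → i' ≠ j' → k4idx i j = k4idx i' j' →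
        (i = i' ∧ j = j') ∨ (i = j' ∧ j = i') := by decide
    exact key2 i j i' j' hij hij' this
  · ext x
    rw [mem_kset, mem_insert, h.cov, mem_union, mem_union, mem_cseg, mem_cseg, mem_cseg]
    constructor
    · rintro (⟨i, rfl⟩ | ⟨i, j, hij, rfl⟩)
      · right
        fin_cases i
        · exact Or.inl (Or.inl ⟨0, by omega, by omega, rfl⟩)
        · exact Or.inl (Or.inl ⟨4, by omega, by omega, rfl⟩)
        · exact Or.inl (Or.inl ⟨2, by omega, by omega, rfl⟩)
        · exact Or.inl (Or.inr ⟨2, by omega, by omega, rfl⟩)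
      · fin_cases i <;> fin_cases j <;> first
          | exact absurd rfl hij
          | exact Or.inl rfl
          | exact Or.inr (Or.inl (Or.inl ⟨1, by omega, by omega, rfl⟩))
          | exact Or.inr (Or.inl (Or.inl ⟨3, by omega, by omega, rfl⟩))
          | exact Or.inr (Or.inl (Or.inr ⟨1, by omega, by omega, rfl⟩))
          | exact Or.inr (Or.inl (Or.inr ⟨3, by omega, by omega, rfl⟩))
          | exact Or.inr (Or.inr ⟨1, by omega, by omega, rfl⟩)
    · rintro (rfl | (⟨i, _, hi, rfl⟩ | ⟨i, _, hi, rfl⟩) | ⟨i, _, hi, rfl⟩)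
      · exact Or.inr ⟨2, 3, by decide, rfl⟩
      · interval_cases i
        · exact Or.inl ⟨0, rfl⟩
        · exact Or.inr ⟨0, 2, by decide, rfl⟩
        · exact Or.inl ⟨2, rfl⟩
        · exact Or.inr ⟨1, 2, by decide, rfl⟩
        · exact Or.inl ⟨1, rfl⟩
      · interval_cases i
        · exact Or.inl ⟨0, h.s1.symm⟩
        · exact Or.inr ⟨0, 3, by decide, rfl⟩
        · exact Or.inl ⟨3, rfl⟩
        · exact Or.inr ⟨1, 3, by decide, rfl⟩
        · exact Or.inl ⟨1, h.t1.symm⟩
      · interval_cases i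
        · exact Or.inl ⟨0, h.s2.symm⟩
        · exact Or.inr ⟨0, 1, by decide, rfl⟩
        · exact Or.inl ⟨1, h.t2.symm⟩

theorem K4S.card {v : Fin 4 → V} {m : Fin 4 → Fin 4 → V} (h : K4S G v m) : (kset v m).card = 10 := by
  have hd : Disjoint (Finset.univ.image v)
      ((Finset.univ.filter (fun p : Fin 4 × Fin 4 => p.1 ≠ p.2)).image (fun p => m p.1 p.2)) := by
    rw [Finset.disjoint_left]
    intro x hx hx'
    obtain ⟨i, _, rfl⟩ := mem_image.1 hx
    obtain ⟨p, hp, he⟩ := mem_image.1 hx'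
    exact h.vm i p.1 p.2 (mem_filter.1 hp).2 he.symm
  have hm : (Finset.univ.filter (fun p : Fin 4 × Fin 4 => p.1 ≠ p.2)).image (fun p => m p.1 p.2) =
      (Finset.univ.filter (fun p : Fin 4 × Fin 4 => p.1 < p.2)).image (fun p => m p.1 p.2) := by
    ext x
    simp only [mem_image, mem_filter, mem_univ, true_and, Prod.exists]
    constructor
    · rintro ⟨i, j, hij, rfl⟩
      rcases lt_or_gt_of_ne hij with hl | hl
      · exact ⟨i, j, hl, rfl⟩
      · exact ⟨j, i, hl, (h.sym i j).symm ▸ rfl⟩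
    · rintro ⟨i, j, hij, rfl⟩
      exact ⟨i, j, ne_of_lt hij, rfl⟩
  rw [kset, card_union_of_disjoint hd, hm, card_image_of_injective _ (fun i j e => h.vinj i j e),
    card_image_of_injOn]
  · decide
  · intro p hp q hq e
    have hp' : p.1 < p.2 := (mem_filter.1 (mem_coe.1 hp)).2
    have hq' : q.1 < q.2 := (mem_filter.1 (mem_coe.1 hq)).2
    rcases h.minj p.1 p.2 q.1 q.2 (ne_of_lt hp') (ne_of_lt hq') e with ⟨e1, e2⟩ | ⟨e1, e2⟩
    · exact Prod.ext e1 e2
    · exfalso
      rw [e1, e2] at hp'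
      exact absurd hp' (lt_asymm hq')

end Pool.Agent.Lib.MP_f599e5_co
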