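import Pool.Agent.Lib.MP_f599e5_co.O4E
import Pool.Agent.Lib.MP_f599e5_co.B4

set_option autoImplicit false
set_option linter.unusedSectionVars false

/-!
# JOB O4F: paths in the fully subdivided `K_4`

All paths are explicit.  Suggested tool: `pl3 .. pl9`: if `x0, ..., xn` are different vertices of `S`, consecutive ones adjacent, then `PL G S x0 xn n` (by `PL.refl`, `PL.cons`, `PL.mono`; or prove once for lists: `List.IsChain G.Adj l`, `l.Nodup`,
all elements in `S`).  Distinctness by `h.vinj`, `h.vm`, `h.minj` (the indices are pairwise different elements of `Fin 4`).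
* `K4S.four` (`i, j, k, l` pairwise different): paths from `m i j` to `m i k`:
  length 2: `m ij, v i, m ik`;  length 4: `m ij, v j, m jk, v k, m ik`;  length 6: `m ij, v i, m il, v l, m lk, v k, m ik`;
  length 8: `m ij, v i, m il, v l, m lj, v j, m jk, v k, m ik` - check: it uses `v i, v l, v j, v k`, the middles `il, lj, jk`; `m ij` is the start and is adjacent to `v i`; fine.
* `K4S.short`: `x ≠ y` in `kset v m`.  (`v i`, `v j`): length 2 via `m ij`.  (`v i`, `m ij`): adjacent (first alternative).  (`v i`, `m jk`, `i` different from `j, k`): `v i, m ij, v j, m jk`: length 3.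
  (`m ij`, `m ik`, `j ≠ k`): length 2 via `v i`.  (`m ij`, `m kl`, all different): third alternative, path `m ij, v j, m jk, v k, m kl` of length 4.
  The case distinction: for `m i j`, `m i' j'` the pairs `{i,j}`, `{i',j'}` are different; they share one index or none (`Fin 4`: `decide`/`omega`-style case analysis, use `h.sym` to bring the common index to the first place).
-/

namespace Pool.Agent.Lib.MP_f599e5_co

open Finset

variable {V : Type} [DecidableEq V] {G : SimpleGraph V}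

private theorem o4f_list_aux : ∀ (l : List V) (u : V), List.IsChain G.Adj (u :: l) → (u :: l).Nodup →
    PL G (u :: l).toFinset u ((u :: l).getLast (List.cons_ne_nil _ _)) l.length
  | [], u, _, _ => by simpa using PL.refl (G := G) (S := {u}) (Finset.mem_singleton_self u)
  | w :: l, u, hc, hn => by
    rw [List.isChain_cons_cons] at hc
    rw [List.nodup_cons] at hn
    have h1 := o4f_list_aux l w hc.2 hn.2
    have h2 := PL.cons hc.1 h1 (fun hm => hn.1 (List.mem_toFinset.1 hm))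
    rw [List.getLast_cons (List.cons_ne_nil _ _), List.toFinset_cons, List.length_cons]
    exact h2

private theorem o4f_list {S : Finset V} (l : List V) (u v : V) (n : ℕ) (hc : List.IsChain G.Adj (u :: l))
    (hn : (u :: l).Nodup) (hS : ∀ x ∈ u :: l, x ∈ S)
    (hv : (u :: l).getLast (List.cons_ne_nil _ _) = v) (hl : l.length = n) : PL G S u v n := by
  subst hv
  subst hl
  exact (o4f_list_aux l u hc hn).mono (fun x hx => hS x (List.mem_toFinset.1 hx))

section

variable {v : Fin 4 → V} {m : Fin 4 → Fin 4 → V}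

private theorem o4f_vv (h : K4S G v m) {a b : Fin 4} (hab : a ≠ b) : v a ≠ v b :=
  fun hc => hab (h.vinj a b hc)

private theorem o4f_mv (h : K4S G v m) {a b c : Fin 4} (hbc : b ≠ c) : m b c ≠ v a :=
  fun hc => h.vm a b c hbc hc.symm

private theorem o4f_mm (h : K4S G v m) {a b c d : Fin 4} (hab : a ≠ b) (hcd : c ≠ d) (h1 : a ≠ c ∨ b ≠ d)
    (h2 : a ≠ d ∨ b ≠ c) : m a b ≠ m c d := by
  intro hc
  rcases h.minj a b c d hab hcd hc with h3 | h3
  · rcases h1 with h1 | h1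
    · exact h1 h3.1
    · exact h1 h3.2
  · rcases h2 with h2 | h2
    · exact h2 h3.1
    · exact h2 h3.2

private theorem o4f_adj' (h : K4S G v m) {a b : Fin 4} (hab : a ≠ b) : G.Adj (v a) (m b a) := by
  rw [h.sym b a]
  exact h.adj a b hab

private theorem o4f_vk (i : Fin 4) : v i ∈ kset v m := mem_kset.2 (Or.inl ⟨i, rfl⟩)

private theorem o4f_mk {i j : Fin 4} (hij : i ≠ j) : m i j ∈ kset v m := mem_kset.2 (Or.inr ⟨i, j, hij, rfl⟩)

end

theorem K4S.four {v : Fin 4 → V} {m : Fin 4 → Fin 4 → V} (h : K4S G v m) {i j k l : Fin 4} (hij : i ≠ j)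
    (hik : i ≠ k) (hil : i ≠ l) (hjk : j ≠ k) (hjl : j ≠ l) (hkl : k ≠ l) :
    PL G (kset v m) (m i j) (m i k) 2 ∧ PL G (kset v m) (m i j) (m i k) 4 ∧
      PL G (kset v m) (m i j) (m i k) 6 ∧ PL G (kset v m) (m i j) (m i k) 8 := by
  refine ⟨?_, ?_, ?_, ?_⟩
  · refine o4f_list [v i, m i k] _ _ _ ?_ ?_ ?_ (by simp) (by simp)
    · simp only [List.isChain_cons_cons, List.isChain_singleton, and_true]
      exact ⟨(h.adj _ _ hij).symm, (h.adj _ _ hik)⟩
    · simp only [List.nodup_cons, List.mem_cons, List.not_mem_nil, or_false, not_or, not_false_eq_true, List.nodup_nil, and_true]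
      exact ⟨⟨o4f_mv h hij, o4f_mm h hij hik (Or.inr hjk) (Or.inl hik)⟩,
        h.vm _ _ _ hik⟩
    · simp only [List.mem_cons, List.not_mem_nil, or_false, forall_eq_or_imp, forall_eq]
      exact ⟨o4f_mk hij, o4f_vk _, o4f_mk hik⟩
  · refine o4f_list [v j, m j k, v k, m i k] _ _ _ ?_ ?_ ?_ (by simp) (by simp)
    · simp only [List.isChain_cons_cons, List.isChain_singleton, and_true]
      exact ⟨(o4f_adj' h hij.symm).symm, (h.adj _ _ hjk), (o4f_adj' h hjk.symm).symm, (o4f_adj' h hik.symm)⟩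
    · simp only [List.nodup_cons, List.mem_cons, List.not_mem_nil, or_false, not_or, not_false_eq_true, List.nodup_nil, and_true]
      exact ⟨⟨o4f_mv h hij, o4f_mm h hij hjk (Or.inl hij) (Or.inl hik), o4f_mv h hij, o4f_mm h hij hik (Or.inr hjk) (Or.inl hik)⟩,
        ⟨h.vm _ _ _ hjk, o4f_vv h hjk, h.vm _ _ _ hik⟩,
        ⟨o4f_mv h hjk, o4f_mm h hjk hik (Or.inl hij.symm) (Or.inl hjk)⟩,
        h.vm _ _ _ hik⟩
    · simp only [List.mem_cons, List.not_mem_nil, or_false, forall_eq_or_imp, forall_eq]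
      exact ⟨o4f_mk hij, o4f_vk _, o4f_mk hjk, o4f_vk _, o4f_mk hik⟩
  · refine o4f_list [v i, m i l, v l, m l k, v k, m i k] _ _ _ ?_ ?_ ?_ (by simp) (by simp)
    · simp only [List.isChain_cons_cons, List.isChain_singleton, and_true]
      exact ⟨(h.adj _ _ hij).symm, (h.adj _ _ hil), (o4f_adj' h hil.symm).symm, (h.adj _ _ hkl.symm), (o4f_adj' h hkl).symm, (o4f_adj' h hik.symm)⟩
    · simp only [List.nodup_cons, List.mem_cons, List.not_mem_nil, or_false, not_or, not_false_eq_true, List.nodup_nil, and_true]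
      exact ⟨⟨o4f_mv h hij, o4f_mm h hij hil (Or.inr hjl) (Or.inl hil), o4f_mv h hij, o4f_mm h hij hkl.symm (Or.inl hil) (Or.inl hik), o4f_mv h hij, o4f_mm h hij hik (Or.inr hjk) (Or.inl hik)⟩,
        ⟨h.vm _ _ _ hil, o4f_vv h hil, h.vm _ _ _ hkl.symm, o4f_vv h hik, h.vm _ _ _ hik⟩,
        ⟨o4f_mv h hil, o4f_mm h hil hkl.symm (Or.inl hil) (Or.inl hik), o4f_mv h hil, o4f_mm h hil hik (Or.inr hkl.symm) (Or.inl hik)⟩,
        ⟨h.vm _ _ _ hkl.symm, o4f_vv h hkl.symm, h.vm _ _ _ hik⟩,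
        ⟨o4f_mv h hkl.symm, o4f_mm h hkl.symm hik (Or.inl hil.symm) (Or.inl hkl.symm)⟩,
        h.vm _ _ _ hik⟩
    · simp only [List.mem_cons, List.not_mem_nil, or_false, forall_eq_or_imp, forall_eq]
      exact ⟨o4f_mk hij, o4f_vk _, o4f_mk hil, o4f_vk _, o4f_mk hkl.symm, o4f_vk _, o4f_mk hik⟩
  · refine o4f_list [v i, m i l, v l, m l j, v j, m j k, v k, m i k] _ _ _ ?_ ?_ ?_ (by simp) (by simp)
    · simp only [List.isChain_cons_cons, List.isChain_singleton, and_true]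
      exact ⟨(h.adj _ _ hij).symm, (h.adj _ _ hil), (o4f_adj' h hil.symm).symm, (h.adj _ _ hjl.symm), (o4f_adj' h hjl).symm, (h.adj _ _ hjk), (o4f_adj' h hjk.symm).symm, (o4f_adj' h hik.symm)⟩
    · simp only [List.nodup_cons, List.mem_cons, List.not_mem_nil, or_false, not_or, not_false_eq_true, List.nodup_nil, and_true]
      exact ⟨⟨o4f_mv h hij, o4f_mm h hij hil (Or.inr hjl) (Or.inl hil), o4f_mv h hij, o4f_mm h hij hjl.symm (Or.inl hil) (Or.inl hij), o4f_mv h hij, o4f_mm h hij hjk (Or.inl hij) (Or.inl hik), o4f_mv h hij, o4f_mm h hij hik (Or.inr hjk) (Or.inl hik)⟩,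
        ⟨h.vm _ _ _ hil, o4f_vv h hil, h.vm _ _ _ hjl.symm, o4f_vv h hij, h.vm _ _ _ hjk, o4f_vv h hik, h.vm _ _ _ hik⟩,
        ⟨o4f_mv h hil, o4f_mm h hil hjl.symm (Or.inl hil) (Or.inl hij), o4f_mv h hil, o4f_mm h hil hjk (Or.inl hij) (Or.inl hik), o4f_mv h hil, o4f_mm h hil hik (Or.inr hkl.symm) (Or.inl hik)⟩,
        ⟨h.vm _ _ _ hjl.symm, o4f_vv h hjl.symm, h.vm _ _ _ hjk, o4f_vv h hkl.symm, h.vm _ _ _ hik⟩,
        ⟨o4f_mv h hjl.symm, o4f_mm h hjl.symm hjk (Or.inl hjl.symm) (Or.inl hkl.symm), o4f_mv h hjl.symm, o4f_mm h hjl.symm hik (Or.inl hil.symm) (Or.inl hkl.symm)⟩,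
        ⟨h.vm _ _ _ hjk, o4f_vv h hjk, h.vm _ _ _ hik⟩,
        ⟨o4f_mv h hjk, o4f_mm h hjk hik (Or.inl hij.symm) (Or.inl hjk)⟩,
        h.vm _ _ _ hik⟩
    · simp only [List.mem_cons, List.not_mem_nil, or_false, forall_eq_or_imp, forall_eq]
      exact ⟨o4f_mk hij, o4f_vk _, o4f_mk hil, o4f_vk _, o4f_mk hjl.symm, o4f_vk _, o4f_mk hjk, o4f_vk _, o4f_mk hik⟩

private theorem o4f_p1 {v : Fin 4 → V} {m : Fin 4 → Fin 4 → V} (h : K4S G v m) {i j : Fin 4} (hij : i ≠ j) :
    PL G (kset v m) (v i) (v j) 2 := by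
  refine o4f_list [m i j, v j] _ _ _ ?_ ?_ ?_ (by simp) (by simp)
  · simp only [List.isChain_cons_cons, List.isChain_singleton, and_true]
    exact ⟨(h.adj _ _ hij), (o4f_adj' h hij.symm).symm⟩
  · simp only [List.nodup_cons, List.mem_cons, List.not_mem_nil, or_false, not_or, not_false_eq_true, List.nodup_nil, and_true]
    exact ⟨⟨h.vm _ _ _ hij, o4f_vv h hij⟩,
      o4f_mv h hij⟩
  · simp only [List.mem_cons, List.not_mem_nil, or_false, forall_eq_or_imp, forall_eq]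
    exact ⟨o4f_vk _, o4f_mk hij, o4f_vk _⟩

private theorem o4f_p2 {v : Fin 4 → V} {m : Fin 4 → Fin 4 → V} (h : K4S G v m) {i j k : Fin 4} (hij : i ≠ j) (hik : i ≠ k) (hjk : j ≠ k) :
    PL G (kset v m) (v i) (m j k) 3 := by
  refine o4f_list [m i j, v j, m j k] _ _ _ ?_ ?_ ?_ (by simp) (by simp)
  · simp only [List.isChain_cons_cons, List.isChain_singleton, and_true]
    exact ⟨(h.adj _ _ hij), (o4f_adj' h hij.symm).symm, (h.adj _ _ hjk)⟩
  · simp only [List.nodup_cons, List.mem_cons, List.not_mem_nil, or_false, not_or, not_false_eq_true, List.nodup_nil, and_true]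
    exact ⟨⟨h.vm _ _ _ hij, o4f_vv h hij, h.vm _ _ _ hjk⟩,
      ⟨o4f_mv h hij, o4f_mm h hij hjk (Or.inl hij) (Or.inl hik)⟩,
      h.vm _ _ _ hjk⟩
  · simp only [List.mem_cons, List.not_mem_nil, or_false, forall_eq_or_imp, forall_eq]
    exact ⟨o4f_vk _, o4f_mk hij, o4f_vk _, o4f_mk hjk⟩

private theorem o4f_p3 {v : Fin 4 → V} {m : Fin 4 → Fin 4 → V} (h : K4S G v m) {i j k : Fin 4} (hij : i ≠ j) (hik : i ≠ k) (hjk : j ≠ k) :
    PL G (kset v m) (m i j) (m i k) 2 := by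
  refine o4f_list [v i, m i k] _ _ _ ?_ ?_ ?_ (by simp) (by simp)
  · simp only [List.isChain_cons_cons, List.isChain_singleton, and_true]
    exact ⟨(h.adj _ _ hij).symm, (h.adj _ _ hik)⟩
  · simp only [List.nodup_cons, List.mem_cons, List.not_mem_nil, or_false, not_or, not_false_eq_true, List.nodup_nil, and_true]
    exact ⟨⟨o4f_mv h hij, o4f_mm h hij hik (Or.inr hjk) (Or.inl hik)⟩,
      h.vm _ _ _ hik⟩
  · simp only [List.mem_cons, List.not_mem_nil, or_false, forall_eq_or_imp, forall_eq]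
    exact ⟨o4f_mk hij, o4f_vk _, o4f_mk hik⟩

private theorem o4f_p4 {v : Fin 4 → V} {m : Fin 4 → Fin 4 → V} (h : K4S G v m) {i j k l : Fin 4} (hij : i ≠ j) (hik : i ≠ k) (hil : i ≠ l) (hjk : j ≠ k) (hjl : j ≠ l) (hkl : k ≠ l) :
    PL G (kset v m) (m i j) (m k l) 4 := by
  refine o4f_list [v j, m j k, v k, m k l] _ _ _ ?_ ?_ ?_ (by simp) (by simp)
  · simp only [List.isChain_cons_cons, List.isChain_singleton, and_true]
    exact ⟨(o4f_adj' h hij.symm).symm, (h.adj _ _ hjk), (o4f_adj' h hjk.symm).symm, (h.adj _ _ hkl)⟩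
  · simp only [List.nodup_cons, List.mem_cons, List.not_mem_nil, or_false, not_or, not_false_eq_true, List.nodup_nil, and_true]
    exact ⟨⟨o4f_mv h hij, o4f_mm h hij hjk (Or.inl hij) (Or.inl hik), o4f_mv h hij, o4f_mm h hij hkl (Or.inl hik) (Or.inl hil)⟩,
      ⟨h.vm _ _ _ hjk, o4f_vv h hjk, h.vm _ _ _ hkl⟩,
      ⟨o4f_mv h hjk, o4f_mm h hjk hkl (Or.inl hjk) (Or.inl hjl)⟩,
      h.vm _ _ _ hkl⟩
  · simp only [List.mem_cons, List.not_mem_nil, or_false, forall_eq_or_imp, forall_eq]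
    exact ⟨o4f_mk hij, o4f_vk _, o4f_mk hjk, o4f_vk _, o4f_mk hkl⟩

theorem K4S.short {v : Fin 4 → V} {m : Fin 4 → Fin 4 → V} (h : K4S G v m) {x y : V} (hx : x ∈ kset v m)
    (hy : y ∈ kset v m) (hxy : x ≠ y) :
    (∃ i j, i ≠ j ∧ ((x = v i ∧ y = m i j) ∨ (x = m i j ∧ y = v i))) ∨
      (∃ n, 2 ≤ n ∧ n ≤ 3 ∧ PL G (kset v m) x y n) ∨
      (∃ i j k l : Fin 4, i ≠ j ∧ i ≠ k ∧ i ≠ l ∧ j ≠ k ∧ j ≠ l ∧ k ≠ l ∧ x = m i j ∧ y = m k l ∧
        PL G (kset v m) x y 4) := by
  rcases mem_kset.1 hx with ⟨i, rfl⟩ | ⟨i, j, hij, rfl⟩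
  · rcases mem_kset.1 hy with ⟨j, rfl⟩ | ⟨j, k, hjk, rfl⟩
    · have hij : i ≠ j := fun hc => hxy (by rw [hc])
      exact Or.inr (Or.inl ⟨2, le_rfl, by norm_num, o4f_p1 h hij⟩)
    · by_cases h1 : i = j
      · subst h1
        exact Or.inl ⟨i, k, hjk, Or.inl ⟨rfl, rfl⟩⟩
      · by_cases h2 : i = k
        · subst h2
          exact Or.inl ⟨i, j, h1, Or.inl ⟨rfl, h.sym j i⟩⟩
        · exact Or.inr (Or.inl ⟨3, by norm_num, le_rfl, o4f_p2 h h1 h2 hjk⟩)
  · rcases mem_kset.1 hy with ⟨k, rfl⟩ | ⟨k, l, hkl, rfl⟩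
    · by_cases h1 : k = i
      · subst h1
        exact Or.inl ⟨k, j, hij, Or.inr ⟨rfl, rfl⟩⟩
      · by_cases h2 : k = j
        · subst h2
          exact Or.inl ⟨k, i, h1, Or.inr ⟨h.sym i k, rfl⟩⟩
        · exact Or.inr (Or.inl ⟨3, by norm_num, le_rfl, (o4f_p2 h h1 h2 hij).symm⟩)
    · by_cases h1 : i = k
      · subst h1
        have h2 : j ≠ l := fun hc => hxy (by rw [hc])
        exact Or.inr (Or.inl ⟨2, le_rfl, by norm_num, o4f_p3 h hij hkl h2⟩)
      · by_cases h2 : i = l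
        · subst h2
          have h3 : j ≠ k := fun hc => hxy (by rw [hc, h.sym])
          rw [h.sym k i]
          exact Or.inr (Or.inl ⟨2, le_rfl, by norm_num, o4f_p3 h hij h1 h3⟩)
        · by_cases h3 : j = k
          · subst h3
            rw [h.sym i j]
            exact Or.inr (Or.inl ⟨2, le_rfl, by norm_num, o4f_p3 h (Ne.symm hij) hkl h2⟩)
          · by_cases h4 : j = l
            · subst h4
              rw [h.sym i j, h.sym k j]
              exact Or.inr (Or.inl ⟨2, le_rfl, by norm_num,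
                o4f_p3 h (Ne.symm hij) (Ne.symm hkl) h1⟩)
            · exact Or.inr (Or.inr ⟨i, j, k, l, hij, h1, h2, h3, h4, hkl, rfl, rfl,
                o4f_p4 h hij h1 h2 h3 h4 hkl⟩)


end Pool.Agent.Lib.MP_f599e5_co
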