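import Pool.Agent.Lib.MP_f599e5_co.Th1B

set_option autoImplicit false
set_option linter.unusedSectionVars false

/-!
# JOB Th1C: connectivity of paths

Write `S = cseg f 0 n` with `f` as in `PX.toPF` (`f 0 = u`, `f n = v`).
* General fact (`PF.conn_cseg`): for `a ≤ b ≤ n` the set `cseg f a b` is connected: `conn_of_path` (B3): two vertices
  `f i`, `f j` with `a ≤ i ≤ j ≤ b` are joined by `PF.toPL` (use `PL.symm` if `j < i`).
* `conn`: `a = 0`, `b = n`.  `conn_erase`: `S.erase (f n) = cseg f 0 (n-1)` for `n ≥ 1` (injectivity).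
* `conn_int`: `(S.erase (f n)).erase (f 0) = cseg f 1 (n-1)` for `n ≥ 2`.
-/

namespace Pool.Agent.Lib.MP_f599e5_co

open Finset

variable {V : Type} [DecidableEq V] {G : SimpleGraph V}

theorem PF.conn_cseg {f : ℕ → V} {n : ℕ} (h : PF G f n) {a b : ℕ} (hab : a ≤ b) (hb : b ≤ n) :
    Conn G (cseg f a b) := by
  refine conn_of_path ⟨f a, mem_cseg.2 ⟨a, le_rfl, hab, rfl⟩⟩ ?_
  intro u hu v hv
  obtain ⟨i, hi1, hi2, rfl⟩ := mem_cseg.1 hu
  obtain ⟨j, hj1, hj2, rfl⟩ := mem_cseg.1 hv
  rcases le_total i j with hij | hij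
  · exact ⟨j - i, h.toPL hij (hj2.trans hb) fun k hk1 hk2 =>
      mem_cseg.2 ⟨k, hi1.trans hk1, hk2.trans hj2, rfl⟩⟩
  · exact ⟨i - j, (h.toPL hij (hi2.trans hb) fun k hk1 hk2 =>
      mem_cseg.2 ⟨k, hj1.trans hk1, hk2.trans hi2, rfl⟩).symm⟩

namespace PX

variable {S T : Finset V} {u v w y : V} {n m : ℕ}

/-- the vertex set of a path is connected -/
theorem conn (h : PX G S u v n) : Conn G S := by
  obtain ⟨f, hf, _, _, hS⟩ := h.toPF
  rw [hS]
  exact hf.conn_cseg (Nat.zero_le n) le_rfl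

/-- without its last vertex a path stays connected -/
theorem conn_erase (h : PX G S u v n) (hn : 1 ≤ n) : Conn G (S.erase v) := by
  obtain ⟨f, hf, _, h1, hS⟩ := h.toPF
  have hE : S.erase v = cseg f 0 (n - 1) := by
    rw [hS, ← h1]
    ext x
    simp only [mem_erase, mem_cseg]
    constructor
    · rintro ⟨hx, i, hi1, hi2, rfl⟩
      refine ⟨i, hi1, ?_, rfl⟩
      have hne : i ≠ n := fun hi => hx (by rw [hi])
      omega
    · rintro ⟨i, hi1, hi2, rfl⟩
      refine ⟨fun he => ?_, i, hi1, by omega, rfl⟩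
      have := hf.inj i n (by omega) le_rfl he
      omega
  rw [hE]
  exact hf.conn_cseg (Nat.zero_le _) (by omega)

/-- the interior of a path of length at least two is connected -/
theorem conn_int (h : PX G S u v n) (hn : 2 ≤ n) : Conn G ((S.erase v).erase u) := by
  obtain ⟨f, hf, h0, h1, hS⟩ := h.toPF
  have hE : (S.erase v).erase u = cseg f 1 (n - 1) := by
    rw [hS, ← h1, ← h0]
    ext x
    simp only [mem_erase, mem_cseg]
    constructor
    · rintro ⟨hx0, hx, i, hi1, hi2, rfl⟩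
      have hne : i ≠ n := fun hi => hx (by rw [hi])
      have hne0 : i ≠ 0 := fun hi => hx0 (by rw [hi])
      exact ⟨i, by omega, by omega, rfl⟩
    · rintro ⟨i, hi1, hi2, rfl⟩
      refine ⟨fun he => ?_, fun he => ?_, i, Nat.zero_le _, by omega, rfl⟩
      · have := hf.inj i 0 (by omega) (Nat.zero_le _) he
        omega
      · have := hf.inj i n (by omega) le_rfl he
        omega
  rw [hE]
  exact hf.conn_cseg (by omega) (by omega)

end PX


end Pool.Agent.Lib.MP_f599e5_co
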