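import Pool.Agent.Lib.MP_f599e5_co.O4E
import Pool.Agent.Lib.MP_f599e5_co.Th2A
import Pool.Agent.Lib.MP_f599e5_co.Th1C

set_option autoImplicit false
set_option linter.unusedSectionVars false

/-!
# JOB O4G: the fully subdivided `K_4`: thetas obtained by deleting a middle vertex, 2-connectedness

* `K4S.theta` (`i, j, k, l` pairwise different): the vertex set `(kset v m).erase (m i k)` is a theta with branch vertices `v j`, `v l` and paths
  `v j, m j i, v i, m i l, v l`;  `v j, m j k, v k, m k l, v l`;  `v j, m j l, v l`.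
  Functions: `g0 = fun n => ![v j, m i j, v i, m i l, v l] ..` (e.g. `fun n => match n with | 0 => v j | 1 => m i j | 2 => v i | 3 => m i l | _ => v l`), etc.; `g0 1 = m i j`, `g1 3 = m k l`.
  All fields of `ThF` by finite case distinctions (`interval_cases`) with `h.vinj, h.vm, h.minj, h.sym, h.adj`.  `cov`: every index of `Fin 4` is one of `i,j,k,l`.
* `K4S.twoC`: `3 ≤ card` from `K4S.card`.  `Conn G ((kset v m).erase w)`: Let `K = kset v m`.  For every `w` there is a connected set argument: the four stars `S i = {v i} ∪ {m i j : j ≠ i}` are connected and `S i ∩ S j ∋ m i j`.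
  If `w` is a middle vertex `m i k`: `K.erase w` is the vertex set of the theta above, which is connected (`PF.conn_cseg`, `Conn.union`, or `conn_of_path`).
  If `w = v i`: every vertex is joined to the connected set `S j ∪ S k ∪ S l` (`j,k,l` the other three), which contains all vertices except `v i` (`m i j ∈ S j` etc.).
  If `w ∉ K`: `K` itself, the union of the four stars.
-/

namespace Pool.Agent.Lib.MP_f599e5_co

open Finset

variable {V : Type} [DecidableEq V] {G : SimpleGraph V}

private theorem O4G_th {F : Finset V} {s a b c t d e f q : V} (hnd : [s, a, b, c, t, d, e, f, q].Nodup)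
    (h1 : G.Adj s a) (h2 : G.Adj a b) (h3 : G.Adj b c) (h4 : G.Adj c t) (h5 : G.Adj s d) (h6 : G.Adj d e)
    (h7 : G.Adj e f) (h8 : G.Adj f t) (h9 : G.Adj s q) (h10 : G.Adj q t)
    (hF : F = {s, a, b, c, t, d, e, f, q}) :
    ∃ g0 g1 g2 : ℕ → V, ThF G F g0 g1 g2 4 4 2 ∧ g0 1 = a ∧ g1 3 = f := by
  simp only [List.nodup_cons, List.mem_cons, List.not_mem_nil, or_false, not_or, List.nodup_nil, and_true,
    not_false_eq_true] at hnd
  obtain ⟨⟨n01, n02, n03, n04, n05, n06, n07, n08⟩, ⟨n12, n13, n14, n15, n16, n17, n18⟩,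
    ⟨n23, n24, n25, n26, n27, n28⟩, ⟨n34, n35, n36, n37, n38⟩, ⟨n45, n46, n47, n48⟩, ⟨n56, n57, n58⟩,
    ⟨n67, n68⟩, n78⟩ := hnd
  have sy : ∀ {x y : V}, ¬ x = y → ¬ y = x := fun h e => h e.symm
  refine ⟨fun n => match n with | 0 => s | 1 => a | 2 => b | 3 => c | _ => t,
    fun n => match n with | 0 => s | 1 => d | 2 => e | 3 => f | _ => t,
    fun n => match n with | 0 => s | 1 => q | _ => t, ⟨⟨?_, ?_⟩, ⟨?_, ?_⟩, ⟨?_, ?_⟩, rfl, rfl, rfl, rfl,
    ?_, ?_, ?_, by norm_num, by norm_num, by norm_num, by norm_num, by norm_num, by norm_num, ?_⟩, rfl, rfl⟩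
  · intro i hi
    interval_cases i <;> assumption
  · intro i j hi hj
    interval_cases i <;> interval_cases j <;> intro hh <;>
      first | rfl | exact absurd hh (by assumption) | exact absurd hh.symm (by assumption)
  · intro i hi
    interval_cases i <;> assumption
  · intro i j hi hj
    interval_cases i <;> interval_cases j <;> intro hh <;>
      first | rfl | exact absurd hh (by assumption) | exact absurd hh.symm (by assumption)
  · intro i hi
    interval_cases i <;> assumption
  · intro i j hi hj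
    interval_cases i <;> interval_cases j <;> intro hh <;>
      first | rfl | exact absurd hh (by assumption) | exact absurd hh.symm (by assumption)
  · intro i j hi hj
    interval_cases i <;> interval_cases j <;> intro hh <;>
      first | exact Or.inl ⟨rfl, rfl⟩ | exact Or.inr ⟨rfl, rfl⟩ | exact absurd hh (by assumption) |
        exact absurd hh.symm (by assumption)
  · intro i j hi hj
    interval_cases i <;> interval_cases j <;> intro hh <;>
      first | exact Or.inl ⟨rfl, rfl⟩ | exact Or.inr ⟨rfl, rfl⟩ | exact absurd hh (by assumption) |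
        exact absurd hh.symm (by assumption)
  · intro i j hi hj
    interval_cases i <;> interval_cases j <;> intro hh <;>
      first | exact Or.inl ⟨rfl, rfl⟩ | exact Or.inr ⟨rfl, rfl⟩ | exact absurd hh (by assumption) |
        exact absurd hh.symm (by assumption)
  · rw [hF]
    ext x
    simp only [mem_union, mem_cseg, mem_insert, mem_singleton]
    constructor
    · rintro (rfl | rfl | rfl | rfl | rfl | rfl | rfl | rfl | rfl)
      · exact Or.inl (Or.inl ⟨0, by omega, by omega, rfl⟩)
      · exact Or.inl (Or.inl ⟨1, by omega, by omega, rfl⟩)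
      · exact Or.inl (Or.inl ⟨2, by omega, by omega, rfl⟩)
      · exact Or.inl (Or.inl ⟨3, by omega, by omega, rfl⟩)
      · exact Or.inl (Or.inl ⟨4, by omega, by omega, rfl⟩)
      · exact Or.inl (Or.inr ⟨1, by omega, by omega, rfl⟩)
      · exact Or.inl (Or.inr ⟨2, by omega, by omega, rfl⟩)
      · exact Or.inl (Or.inr ⟨3, by omega, by omega, rfl⟩)
      · exact Or.inr ⟨1, by omega, by omega, rfl⟩
    · rintro ((⟨i, -, hi, rfl⟩ | ⟨i, -, hi, rfl⟩) | ⟨i, -, hi, rfl⟩)
      · interval_cases i <;> simp
      · interval_cases i <;> simp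
      · interval_cases i <;> simp

theorem K4S.theta {v : Fin 4 → V} {m : Fin 4 → Fin 4 → V} (h : K4S G v m) {i j k l : Fin 4} (hij : i ≠ j)
    (hik : i ≠ k) (hil : i ≠ l) (hjk : j ≠ k) (hjl : j ≠ l) (hkl : k ≠ l) :
    ∃ g0 g1 g2 : ℕ → V, ThF G ((kset v m).erase (m i k)) g0 g1 g2 4 4 2 ∧ g0 1 = m i j ∧ g1 3 = m k l := by
  have hji := hij.symm
  have hki := hik.symm
  have hli := hil.symm
  have hkj := hjk.symm
  have hlj := hjl.symm
  have hlk := hkl.symm
  have hv : ∀ a b, a ≠ b → ¬ v a = v b := fun a b hab e => hab (h.vinj a b e)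
  have hm : ∀ a b c d, a ≠ b → c ≠ d → (a ≠ c ∨ b ≠ d) → (a ≠ d ∨ b ≠ c) → ¬ m a b = m c d := by
    intro a b c d hab hcd h1 h2 e
    rcases h.minj a b c d hab hcd e with ⟨h3, h4⟩ | ⟨h3, h4⟩
    · rcases h1 with h1 | h1
      · exact h1 h3
      · exact h1 h4
    · rcases h2 with h2 | h2
      · exact h2 h3
      · exact h2 h4
  have hall : ∀ p : Fin 4, p = i ∨ p = j ∨ p = k ∨ p = l := by
    intro p
    have h1 : ({i, j, k, l} : Finset (Fin 4)) = univ := by
      apply Finset.eq_univ_of_card
      rw [card_insert_of_notMem (by simp [hij, hik, hil]), card_insert_of_notMem (by simp [hjk, hjl]),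
        card_insert_of_notMem (by simp [hkl]), card_singleton]
      rfl
    have h2 : p ∈ ({i, j, k, l} : Finset (Fin 4)) := by
      rw [h1]
      exact mem_univ p
    simpa using h2
  refine O4G_th (s := v j) (a := m i j) (b := v i) (c := m i l) (t := v l) (d := m j k) (e := v k) (f := m k l)
    (q := m j l) ?_ ?_ (h.adj i j hij).symm (h.adj i l hil) ?_ (h.adj j k hjk) ?_ (h.adj k l hkl) ?_
    (h.adj j l hjl) ?_ ?_
  · simp only [List.nodup_cons, List.mem_cons, List.not_mem_nil, or_false, not_or, List.nodup_nil, and_true,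
      not_false_eq_true]
    repeat' apply And.intro
    all_goals first
      | exact hv _ _ (by assumption)
      | exact h.vm _ _ _ (by assumption)
      | exact fun e => h.vm _ _ _ (by assumption) e.symm
      | exact hm _ _ _ _ (by assumption) (by assumption)
          (by first | exact Or.inl (by assumption) | exact Or.inr (by assumption))
          (by first | exact Or.inl (by assumption) | exact Or.inr (by assumption))
  · rw [h.sym]
    exact h.adj j i hji
  · rw [h.sym]
    exact (h.adj l i hli).symm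
  · rw [h.sym]
    exact (h.adj k j hkj).symm
  · rw [h.sym]
    exact (h.adj l k hlk).symm
  · rw [h.sym]
    exact (h.adj l j hlj).symm
  · ext x
    simp only [mem_erase, mem_insert, mem_singleton]
    constructor
    · rintro ⟨hx, hxK⟩
      rcases mem_kset.1 hxK with ⟨p, hp⟩ | ⟨p, q, hpq, hp⟩
      · rcases hall p with h1 | h1 | h1 | h1 <;> rw [h1] at hp <;> simp [← hp]
      · have hp' : m q p = x := by
          rw [h.sym]
          exact hp
        rcases hall p with h1 | h1 | h1 | h1 <;> rcases hall q with h2 | h2 | h2 | h2 <;>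
          rw [h1, h2] at hp <;> rw [h1, h2] at hp' <;> rw [h1, h2] at hpq <;>
          first
            | exact absurd rfl hpq
            | exact absurd hp.symm hx
            | exact absurd hp'.symm hx
            | (simp [← hp]; done)
            | (simp [← hp']; done)
    · have hK1 : ∀ p, v p ∈ kset v m := fun p => mem_kset.2 (Or.inl ⟨p, rfl⟩)
      have hK2 : ∀ p q, p ≠ q → m p q ∈ kset v m := fun p q hpq => mem_kset.2 (Or.inr ⟨p, q, hpq, rfl⟩)
      rintro (rfl | rfl | rfl | rfl | rfl | rfl | rfl | rfl | rfl)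
      all_goals first
        | exact ⟨h.vm _ _ _ hik, hK1 _⟩
        | exact ⟨hm _ _ _ _ (by assumption) (by assumption)
            (by first | exact Or.inl (by assumption) | exact Or.inr (by assumption))
            (by first | exact Or.inl (by assumption) | exact Or.inr (by assumption)), hK2 _ _ (by assumption)⟩

theorem K4S.twoC {v : Fin 4 → V} {m : Fin 4 → Fin 4 → V} (h : K4S G v m) : TwoC G (kset v m) := by
  classical
  refine ⟨by rw [h.card]; norm_num, fun w => ?_⟩
  have hmv : ∀ p, v p ∈ kset v m := fun p => mem_kset.2 (Or.inl ⟨p, rfl⟩)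
  have hmm : ∀ p q, p ≠ q → m p q ∈ kset v m := fun p q hpq => mem_kset.2 (Or.inr ⟨p, q, hpq, rfl⟩)
  have halive : ∀ p q : Fin 4, p ≠ q → v p ≠ w ∨ v q ≠ w := by
    intro p q hpq
    by_cases h1 : v p = w
    · right
      intro h2
      exact hpq (h.vinj p q (h1.trans h2.symm))
    · exact Or.inl h1
  refine ⟨?_, ?_⟩
  · rcases halive 0 1 (by decide) with h1 | h1
    · exact ⟨v 0, mem_erase.2 ⟨h1, hmv 0⟩⟩
    · exact ⟨v 1, mem_erase.2 ⟨h1, hmv 1⟩⟩
  · intro C hC hne hb
    have hcl : ∀ x ∈ C, ∀ y ∈ (kset v m).erase w, G.Adj x y → y ∈ C := by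
      intro x hx y hy ha
      by_contra hyC
      have h1 : y ∈ bd G ((kset v m).erase w) C := mem_bd.2 ⟨hy, hyC, x, hx, ha⟩
      rw [hb] at h1
      exact notMem_empty _ h1
    have h1 : ∀ p q, p ≠ q → m p q ≠ w → v p ∈ C → m p q ∈ C := fun p q hpq hq hC' =>
      hcl _ hC' _ (mem_erase.2 ⟨hq, hmm p q hpq⟩) (h.adj p q hpq)
    have h2 : ∀ p q, p ≠ q → v p ≠ w → m p q ∈ C → v p ∈ C := fun p q hpq hp hC' =>
      hcl _ hC' _ (mem_erase.2 ⟨hp, hmv p⟩) (h.adj p q hpq).symm
    have h3 : ∀ p q, p ≠ q → v q ≠ w → m p q ≠ w → v p ∈ C → v q ∈ C := by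
      intro p q hpq hq hm hC'
      have h4 := h1 p q hpq hm hC'
      rw [h.sym] at h4
      exact h2 q p hpq.symm hq h4
    have h5 : ∀ p q, v q ≠ w → v p ∈ C → v q ∈ C := by
      intro p q hq hC'
      by_cases hpq : p = q
      · rwa [← hpq]
      by_cases hm : m p q = w
      · obtain ⟨r, hr1, hr2⟩ : ∃ r : Fin 4, r ≠ p ∧ r ≠ q := by
          clear hC' hm hpq hq
          revert p q
          decide
        have hr : v r ≠ w := by
          rw [← hm]
          exact h.vm r p q hpq
        have e1 : m p r ≠ w := by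
          rw [← hm]
          intro e
          rcases h.minj p r p q hr1.symm hpq e with ⟨_, h6⟩ | ⟨_, h6⟩
          · exact hr2 h6
          · exact hr1 h6
        have e2 : m r q ≠ w := by
          rw [← hm]
          intro e
          rcases h.minj r q p q hr2 hpq e with ⟨h6, _⟩ | ⟨h6, _⟩
          · exact hr1 h6
          · exact hr2 h6
        exact h3 r q hr2 hq e2 (h3 p r hr1.symm hr e1 hC')
      · exact h3 p q hpq hq hm hC'
    obtain ⟨x, hx⟩ := hne
    obtain ⟨p, hpC⟩ : ∃ p, v p ∈ C := by
      obtain ⟨hxw, hxK⟩ := mem_erase.1 (hC hx)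
      rcases mem_kset.1 hxK with ⟨p, rfl⟩ | ⟨p, q, hpq, rfl⟩
      · exact ⟨p, hx⟩
      · rcases halive p q hpq with h6 | h6
        · exact ⟨p, h2 p q hpq h6 hx⟩
        · exact ⟨q, h2 q p hpq.symm h6 (by rw [h.sym]; exact hx)⟩
    refine Subset.antisymm hC fun y hy => ?_
    obtain ⟨hyw, hyK⟩ := mem_erase.1 hy
    rcases mem_kset.1 hyK with ⟨q, rfl⟩ | ⟨q, r, hqr, rfl⟩
    · exact h5 p q hyw hpC
    · rcases halive q r hqr with h6 | h6
      · exact h1 q r hqr hyw (h5 p q h6 hpC)
      · have h7 := h1 r q hqr.symm (by rw [h.sym]; exact hyw) (h5 p r h6 hpC)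
        rw [h.sym] at h7
        exact h7


end Pool.Agent.Lib.MP_f599e5_co
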