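import Pool.Agent.Lib.MP_f599e5_co.O4F
import Pool.Agent.Lib.MP_f599e5_co.O4G
import Pool.Agent.Lib.MP_f599e5_co.O4D

set_option autoImplicit false
set_option linter.unusedSectionVars false

/-!
# JOB O4H: `k = 5`, case B (a fully subdivided `K_4`), and the conclusion for odd `k ≥ 5`

`hg`: cycles in `B` have length `≥ 6`; `hmin`: thetas in `B` have total length `≥ 10`; `K = kset v m ⊆ B`.
* `kset_deg`: `x ∈ K`: if `y ∈ K` is adjacent to `x` then (`K4S.short`) the second and third alternative give a path of length `n ∈ {2,3,4}` from `x` to `y` in `K` and with the edge `x y` a cycle of length `n + 1 ≤ 5` (`PL.cycle`), contradiction to `hg`.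
  So `y` is a neighbour in the sense of the first alternative: if `x = v i`: `y ∈ {m i j : j ≠ i}` (3 elements; by `h.vm` `x = v i` is no `m`), if `x = m i j`: `y ∈ {v i, v j}` (`h.minj`).  So `(nb G x K).card ≤ 3`.
* `kset_one`: `x ∈ B \ K` with two neighbours `p ≠ q` in `K`: the path `p x q` together with a path in `K` from `p` to `q`: first alternative of `K4S.short`: a triangle; second: a cycle of length `n + 2 ≤ 5`; third alternative
  (`p = m i j`, `q = m k l`): `K4S.theta` gives a theta `g0, g1, g2` on `K.erase (m i k)` with `g0 1 = p`, `g1 3 = q`; `ThF.cross_del_t0` with `a = 1`, `b = 3`, `Q = {p,x,q}`, `q = 2`: a theta in `B` with lengths `3, 3, 3`, contradiction to `hmin`.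
* `caseB5`: `UF G B K` (`K4S.card`, `kset_one`, `TwoC.conn`), `lemU` (`K4S.twoC`, `kset_deg`).  Among the middle vertices `m 0 1, m 0 2, m 0 3` at most one is `c`: choose two different ones `≠ c`: `m 0 j`, `m 0 k`; `K4S.four` gives path lengths `2,4,6,8`.
  `lemU` gives `D` with `Adm G 3 D {m 0 j} {m 0 k}`; `adm_res`: no `l + i d + p`, `i < 3`, `p ∈ {2,4,6,8}`, is divisible by 5; for `d = 1, 2` and all residues of `l` this is impossible (omega).
* `block_five`: by contradiction: `exists_thmin`; if no vertex of `B \ F` has two neighbours in `F`: `caseA5`.  Otherwise `ThMin.outer`: total length 10 and a theta with lengths `4,4,2`; `K4S.of_theta`; `hmin` from `mn`; `caseB5`.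
-/

namespace Pool.Agent.Lib.MP_f599e5_co

open Finset

variable {V : Type} [DecidableEq V] {G : SimpleGraph V}

theorem kset_deg {B : Finset V} {v : Fin 4 → V} {m : Fin 4 → Fin 4 → V} (h : K4S G v m) (hK : kset v m ⊆ B)
    (hg : ∀ n, CycS G B n → 6 ≤ n) {x : V} (hx : x ∈ kset v m) : (nb G x (kset v m)).card ≤ 3 := by
  have key : ∀ y ∈ kset v m, G.Adj x y →
      ∃ i j, i ≠ j ∧ ((x = v i ∧ y = m i j) ∨ (x = m i j ∧ y = v i)) := by
    intro y hy hxy
    have hne : x ≠ y := hxy.ne
    have hcyc : ∀ n, 2 ≤ n → n ≤ 4 → PL G (kset v m) x y n → False := by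
      intro n h2 h4 hp
      have h1 : PL G {x, y} x y 1 := PL.edge hxy (by simp) (by simp)
      have hc := PL.cycle hp h1 (fun z _ hz => by simpa using hz) hne (by omega)
      have hsub : kset v m ∪ {x, y} ⊆ B := by
        refine union_subset hK ?_
        intro z hz
        rw [mem_insert, mem_singleton] at hz
        rcases hz with rfl | rfl
        · exact hK hx
        · exact hK hy
      have h5 := hg _ (hc.mono hsub)
      omega
    rcases h.short hx hy hne with h1 | ⟨n, h2, h3, hp⟩ | ⟨i, j, k, l, _, _, _, _, _, _, _, _, hp⟩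
    · exact h1
    · exact (hcyc n h2 (by omega) hp).elim
    · exact (hcyc 4 (by norm_num) le_rfl hp).elim
  rcases mem_kset.1 hx with ⟨i, rfl⟩ | ⟨i, j, hij, rfl⟩
  · have hsub : nb G (v i) (kset v m) ⊆ (Finset.univ.erase i).image (fun j => m i j) := by
      intro y hy
      rw [mem_nb] at hy
      obtain ⟨a, b, hab, h1 | h1⟩ := key y hy.1 hy.2
      · have h2 : i = a := h.vinj _ _ h1.1
        subst h2
        rw [mem_image]
        exact ⟨b, by simp [Ne.symm hab], h1.2.symm⟩
      · exact absurd h1.1 (h.vm _ _ _ hab)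
    calc (nb G (v i) (kset v m)).card ≤ ((Finset.univ.erase i).image (fun j => m i j)).card :=
          card_le_card hsub
      _ ≤ (Finset.univ.erase i).card := card_image_le
      _ = 3 := by rw [card_erase_of_mem (mem_univ _), card_univ, Fintype.card_fin]
  · have hsub : nb G (m i j) (kset v m) ⊆ {v i, v j} := by
      intro y hy
      rw [mem_nb] at hy
      rw [mem_insert, mem_singleton]
      obtain ⟨a, b, hab, h1 | h1⟩ := key y hy.1 hy.2
      · exact absurd h1.1.symm (h.vm _ _ _ hij)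
      · rcases h.minj _ _ _ _ hij hab h1.1 with h2 | h2
        · exact Or.inl (by rw [h1.2, h2.1])
        · exact Or.inr (by rw [h1.2, h2.2])
    calc (nb G (m i j) (kset v m)).card ≤ ({v i, v j} : Finset V).card := card_le_card hsub
      _ ≤ 2 := card_le_two
      _ ≤ 3 := by norm_num

theorem kset_one {B : Finset V} {v : Fin 4 → V} {m : Fin 4 → Fin 4 → V} (h : K4S G v m) (hK : kset v m ⊆ B)
    (hg : ∀ n, CycS G B n → 6 ≤ n)
    (hmin : ∀ F' m0 m1 m2, F' ⊆ B → ThL G F' m0 m1 m2 → 10 ≤ m0 + m1 + m2) {x : V} (hx : x ∈ B)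
    (hxK : x ∉ kset v m) : (nb G x (kset v m)).card ≤ 1 := by
  by_contra hc
  push Not at hc
  obtain ⟨p, hp, q, hq, hpq⟩ := Finset.one_lt_card.1 hc
  rw [mem_nb] at hp hq
  have hxp : x ≠ p := fun e => hxK (e ▸ hp.1)
  have hxq : x ≠ q := fun e => hxK (e ▸ hq.1)
  have hPL : PL G {p, x, q} p q 2 := by
    have h1 : PL G {x, q} x q 1 := PL.edge hq.2 (by simp) (by simp)
    have h2 : p ∉ ({x, q} : Finset V) := by
      rw [mem_insert, mem_singleton]
      rintro (h3 | h3)
      · exact hxp h3.symm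
      · exact hpq h3
    exact PL.cons hp.2.symm h1 h2
  have hQB : ({p, x, q} : Finset V) ⊆ B := by
    intro z hz
    rw [mem_insert, mem_insert, mem_singleton] at hz
    rcases hz with rfl | rfl | rfl
    · exact hK hp.1
    · exact hx
    · exact hK hq.1
  have hQK : ∀ z ∈ ({p, x, q} : Finset V), z ∈ kset v m → z = p ∨ z = q := by
    intro z hz hzK
    rw [mem_insert, mem_insert, mem_singleton] at hz
    rcases hz with rfl | rfl | rfl
    · exact Or.inl rfl
    · exact absurd hzK hxK
    · exact Or.inr rfl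
  have hcyc : ∀ n, 1 ≤ n → n ≤ 3 → PL G (kset v m) p q n → False := by
    intro n h1 h3 hn
    have h4 := PL.cycle hn hPL (fun z hz hz2 => hQK z hz2 hz) hpq (by omega)
    have h5 := hg _ (h4.mono (union_subset hK hQB))
    omega
  rcases h.short hp.1 hq.1 hpq with ⟨i, j, hij, ⟨e1, e2⟩ | ⟨e1, e2⟩⟩ | ⟨n, h2, h3, hn⟩ |
    ⟨i, j, k, l, hij, hik, hil, hjk, hjl, hkl, e1, e2, hn⟩
  · subst e1
    subst e2
    exact hcyc 1 le_rfl (by norm_num) (PL.edge (h.adj i j hij) hp.1 hq.1)
  · subst e1
    subst e2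
    exact hcyc 1 le_rfl (by norm_num) (PL.edge (h.adj i j hij).symm hp.1 hq.1)
  · exact hcyc n (by omega) h3 hn
  · obtain ⟨g0, g1, g2, hth, f1, f2⟩ := h.theta hij hik hil hjk hjl hkl
    have hsubK : (kset v m).erase (m i k) ⊆ kset v m := erase_subset _ _
    have hPX : PX G {p, x, q} (g0 1) (g1 3) 2 := by
      rw [f1, f2, ← e1, ← e2]
      refine ⟨hPL, ?_⟩
      rw [card_insert_of_notMem, card_insert_of_notMem, card_singleton]
      · rw [mem_singleton]
        exact hxq
      · rw [mem_insert, mem_singleton]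
        rintro (h3 | h3)
        · exact hxp h3.symm
        · exact hpq h3
    have hQF : ∀ z ∈ ({p, x, q} : Finset V), z ∈ (kset v m).erase (m i k) → z = g0 1 ∨ z = g1 3 := by
      intro z hz hzF
      rw [f1, f2, ← e1, ← e2]
      exact hQK z hz (hsubK hzF)
    have hT := hth.cross_del_t0 (a := 1) (b := 3) (by norm_num) (by norm_num) (by norm_num)
      (by norm_num) hPX hQF
    have h6 := hmin _ _ _ _ (union_subset ((sdiff_subset.trans hsubK).trans hK) hQB) hT
    omega

theorem caseB5 {B : Finset V} {c : V} {v : Fin 4 → V} {m : Fin 4 → Fin 4 → V} (hB : Blk G 5 B c)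
    (hz : ¬ ZC 5 G) (h : K4S G v m) (hK : kset v m ⊆ B)
    (hmin : ∀ F' m0 m1 m2, F' ⊆ B → ThL G F' m0 m1 m2 → 10 ≤ m0 + m1 + m2) : False := by
  have hg := girth6 hB hz
  have hodd : Odd 5 := ⟨2, by norm_num⟩
  have hU : UF G B (kset v m) :=
    ⟨hK, by rw [h.card]; norm_num, fun x hx hxK => kset_one h hK hg hmin hx hxK, h.twoC.conn⟩
  have hL := lemU hB hodd le_rfl hz hU h.twoC
    (fun x hx _ => by have := kset_deg h hK hg hx; omega)
  have hch : ∃ j k l : Fin 4, (0 : Fin 4) ≠ j ∧ (0 : Fin 4) ≠ k ∧ (0 : Fin 4) ≠ l ∧ j ≠ k ∧ j ≠ l ∧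
      k ≠ l ∧ m 0 j ≠ c ∧ m 0 k ≠ c := by
    have hne : ∀ a b : Fin 4, 0 ≠ a → 0 ≠ b → a ≠ b → m 0 a ≠ m 0 b := by
      intro a b ha hb hab hm
      rcases h.minj _ _ _ _ ha hb hm with h1 | h1
      · exact hab h1.2
      · exact hb h1.1
    by_cases h1 : m 0 1 = c
    · refine ⟨2, 3, 1, by decide, by decide, by decide, by decide, by decide, by decide, ?_, ?_⟩
      · rw [← h1]
        exact hne 2 1 (by decide) (by decide) (by decide)
      · rw [← h1]
        exact hne 3 1 (by decide) (by decide) (by decide)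
    · by_cases h2 : m 0 2 = c
      · refine ⟨1, 3, 2, by decide, by decide, by decide, by decide, by decide, by decide, h1, ?_⟩
        rw [← h2]
        exact hne 3 2 (by decide) (by decide) (by decide)
      · exact ⟨1, 2, 3, by decide, by decide, by decide, by decide, by decide, by decide, h1, h2⟩
  obtain ⟨j, k, l, h0j, h0k, h0l, hjk, hjl, hkl, hjc, hkc⟩ := hch
  have hne : m 0 j ≠ m 0 k := by
    intro hm
    rcases h.minj _ _ _ _ h0j h0k hm with h1 | h1
    · exact hjk h1.2
    · exact h0k h1.1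
  have hjm : m 0 j ∈ kset v m := mem_kset.2 (Or.inr ⟨0, j, h0j, rfl⟩)
  have hkm : m 0 k ∈ kset v m := mem_kset.2 (Or.inr ⟨0, k, h0k, rfl⟩)
  obtain ⟨D, hD, hA⟩ := hL _ hjm _ hkm hjc hkc hne
  obtain ⟨d, hd, a, ha⟩ := adm_res hz hD hjm hkm hne hA
  obtain ⟨p2, p4, p6, p8⟩ := h.four h0j h0k h0l hjk hjl hkl
  have q2 := ha _ p2
  have q4 := ha _ p4
  have q6 := ha _ p6
  have q8 := ha _ p8
  have r20 := q2 0 (by norm_num)
  have r21 := q2 1 (by norm_num)
  have r22 := q2 2 (by norm_num)
  have r40 := q4 0 (by norm_num)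
  have r41 := q4 1 (by norm_num)
  have r42 := q4 2 (by norm_num)
  have r60 := q6 0 (by norm_num)
  have r61 := q6 1 (by norm_num)
  have r62 := q6 2 (by norm_num)
  have r80 := q8 0 (by norm_num)
  have r81 := q8 1 (by norm_num)
  have r82 := q8 2 (by norm_num)
  rcases hd with rfl | rfl <;> omega

theorem block_five {B : Finset V} {c : V} (hB : Blk G 5 B c) : ZC 5 G := by
  by_contra hz
  have hg := girth6 hB hz
  obtain ⟨F, f0, f1, f2, l0, l1, l2, hT⟩ := exists_thmin hB (by norm_num)
  by_cases hno : ∀ x ∈ B, x ∉ F → (nb G x F).card ≤ 1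
  · exact caseA5 hB hz hT hno
  · push Not at hno
    obtain ⟨y, hy, hyF, h1⟩ := hno
    obtain ⟨p, hp, q, hq, hpq⟩ := Finset.one_lt_card.1 h1
    rw [mem_nb] at hp hq
    obtain ⟨h10, g0, g1, g2, hth, e1, e2⟩ := hT.outer hg hy hyF hp.1 hq.1 hpq hp.2 hq.2
    obtain ⟨v, m, hK4, hks⟩ := K4S.of_theta hth hyF (by rw [e1]; exact hp.2) (by rw [e2]; exact hq.2)
    have hKB : kset v m ⊆ B := by
      rw [hks]
      exact insert_subset hy hT.sub
    exact caseB5 hB hz hK4 hKB (fun F' m0 m1 m2 hF' hL => by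
      have := hT.mn F' m0 m1 m2 hF' hL
      omega)


end Pool.Agent.Lib.MP_f599e5_co
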