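import Mathlib

set_option autoImplicit false

/-! # TArith: the arithmetic of thetas modulo 3

JOB TArith.  Positions `(i, a)` with `1 ≤ a < P i`; at most one position is bad.
Residues: either all `P i ≡ r` mod 3 with `r ∈ {1, 2}`, or one is `≡ 0` and the other two are both `≡ r`, `r ∈ {1, 2}` (if one is `≡ 0` no other one is; two nonzero residues with nonzero sum are equal).
Write full for the last condition (for every `q` one of the four numbers is divisible by 3); it depends on `a, b, P i, P j, P k` modulo 3 only.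
* all `≡ 1`: full iff `(a, b) ≡ (2,1), (1,2), (0,2), (2,0)`.  At most one `P i` is 1 (`5 ≤ P i + P j`), so two of them, `P i, P j`, are `≥ 4`.  Use `(a,b) ∈ {(2,1), (2,3), (1,2), (3,2)}` (`(2,1)` or `(2,3)` unless `(i,2)` is bad, then `(1,2)`).
* all `≡ 2`: full iff `(a, b) ≡ (1,2), (2,1), (0,1), (1,0)`.  At most one is 2, two of them are `≥ 5`.  Use `(1,2), (1,3)`, or if `(i,1)` is bad `(2,1)`.
* `P k ≡ 0`, the others `≡ 1`.  At most one of the others is 1.  If `P i, P j ≥ 4`: full iff `a, b ∈ {0,1}` mod 3: use `a, b ∈ {1, 3}`.  If `P j = 1` (so `P i ≥ 4`): `P k + 1 ≥ 5`, so `P k ≥ 6`; use the pair `(k, i)`: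
  with `a` on the path `k`, `b` on the path `i`: full iff `(a, b) ≡ (0,0), (1,2), (2,2), (0,1)`: `(3,1)`, `(3,3)`, or if `(k,3)` is bad `(1,2)`.
* `P k ≡ 0`, the others `≡ 2`.  At most one of the others is 2.  If `P i, P j ≥ 5`: full iff `a, b ∈ {0,2}` mod 3: use `a, b ∈ {2, 3}`.  If `P j = 2` (so `P i ≥ 5`): `P k ≥ 3`; use the pair `(k, i)`: full iff
  `(a, b) ≡ (0,0), (2,1), (1,1), (0,2)`: `(1,1)`, `(1,4)`, or if `(k,1)` is bad `(2,1)`.
Suggestion: first prove the version for naturals `p1 p2 p3` (with `bad` as a predicate `Fin 3 → ℕ → Prop`) in each of the cases, `omega` proves fullness for explicit `a, b` once the residues are written as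
`P i = 3 u + r`; reduce to the cases by `fin_cases` / symmetric statements. -/

namespace Pool.Agent.Lib.MP_f599e5_co

private theorem tar_pick (bad : Fin 3 → ℕ → Prop)
    (hbad : ∀ i a i' a', bad i a → bad i' a' → i = i' ∧ a = a') (i j : Fin 3) (hij : i ≠ j)
    (a1 a2 b1 b2 b3 : ℕ) (ha : a1 ≠ a2) (hb : b1 ≠ b2) :
    (¬ bad i a1 ∧ ¬ bad j b1) ∨ (¬ bad i a1 ∧ ¬ bad j b2) ∨ (¬ bad i a2 ∧ ¬ bad j b3) := by
  by_cases h1 : bad i a1
  · right
    right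
    exact ⟨fun h => ha (hbad _ _ _ _ h1 h).2, fun h => hij (hbad _ _ _ _ h1 h).1⟩
  · by_cases h2 : bad j b1
    · right
      left
      exact ⟨h1, fun h => hb (hbad _ _ _ _ h2 h).2⟩
    · left
      exact ⟨h1, h2⟩

/-- the fullness of a pair -/
private def tarFull (pi pj pk a b : ℕ) : Prop :=
  ∀ q : ℕ, 3 ∣ q + (a + b) ∨ 3 ∣ q + ((pi - a) + (pj - b)) ∨
        3 ∣ q + (a + pk + (pj - b)) ∨ 3 ∣ q + ((pi - a) + pk + b)

private def tarR (P : Fin 3 → ℕ) (bad : Fin 3 → ℕ → Prop) : Prop :=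
  ∃ i j k : Fin 3, i ≠ j ∧ j ≠ k ∧ i ≠ k ∧ ∃ a b : ℕ, 1 ≤ a ∧ a < P i ∧ 1 ≤ b ∧ b < P j ∧
      ¬ bad i a ∧ ¬ bad j b ∧ tarFull (P i) (P j) (P k) a b

private theorem tar_out (P : Fin 3 → ℕ) (bad : Fin 3 → ℕ → Prop)
    (hbad : ∀ i a i' a', bad i a → bad i' a' → i = i' ∧ a = a') (i j k : Fin 3) (hij : i ≠ j)
    (hjk : j ≠ k) (hik : i ≠ k) (a1 a2 b1 b2 b3 : ℕ) (ha : a1 ≠ a2) (hb : b1 ≠ b2)
    (h1 : 1 ≤ a1 ∧ a1 < P i) (h2 : 1 ≤ a2 ∧ a2 < P i) (h3 : 1 ≤ b1 ∧ b1 < P j)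
    (h4 : 1 ≤ b2 ∧ b2 < P j) (h5 : 1 ≤ b3 ∧ b3 < P j) (f1 : tarFull (P i) (P j) (P k) a1 b1)
    (f2 : tarFull (P i) (P j) (P k) a1 b2) (f3 : tarFull (P i) (P j) (P k) a2 b3) :
    tarR P bad := by
  rcases tar_pick bad hbad i j hij a1 a2 b1 b2 b3 ha hb with ⟨g1, g2⟩ | ⟨g1, g2⟩ | ⟨g1, g2⟩
  · exact ⟨i, j, k, hij, hjk, hik, a1, b1, h1.1, h1.2, h3.1, h3.2, g1, g2, f1⟩
  · exact ⟨i, j, k, hij, hjk, hik, a1, b2, h1.1, h1.2, h4.1, h4.2, g1, g2, f2⟩
  · exact ⟨i, j, k, hij, hjk, hik, a2, b3, h2.1, h2.2, h5.1, h5.2, g1, g2, f3⟩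

section
variable (P : Fin 3 → ℕ) (bad : Fin 3 → ℕ → Prop)
  (hbad : ∀ i a i' a', bad i a → bad i' a' → i = i' ∧ a = a') (i j k : Fin 3) (hij : i ≠ j)
  (hjk : j ≠ k) (hik : i ≠ k)
include hbad hij hjk hik

private theorem tar_A (hi : P i % 3 = 1) (hj : P j % 3 = 1) (hk : P k % 3 = 1) (h4 : 4 ≤ P i)
    (h4' : 4 ≤ P j) : tarR P bad := by
  refine tar_out P bad hbad i j k hij hjk hik 2 1 1 3 2 (by omega) (by omega) (by omega) (by omega)
    (by omega) (by omega) (by omega) ?_ ?_ ?_ <;>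
  · intro q
    omega

private theorem tar_B (hi : P i % 3 = 2) (hj : P j % 3 = 2) (hk : P k % 3 = 2) (h4 : 5 ≤ P i)
    (h4' : 5 ≤ P j) : tarR P bad := by
  refine tar_out P bad hbad i j k hij hjk hik 1 2 2 3 1 (by omega) (by omega) (by omega) (by omega)
    (by omega) (by omega) (by omega) ?_ ?_ ?_ <;>
  · intro q
    omega

private theorem tar_C1 (hi : P i % 3 = 1) (hj : P j % 3 = 1) (hk : P k % 3 = 0) (h4 : 4 ≤ P i)
    (h4' : 4 ≤ P j) : tarR P bad := by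
  refine tar_out P bad hbad i j k hij hjk hik 1 3 1 3 1 (by omega) (by omega) (by omega) (by omega)
    (by omega) (by omega) (by omega) ?_ ?_ ?_ <;>
  · intro q
    omega

private theorem tar_C2 (hi : P i % 3 = 1) (hj : P j = 1) (hk : P k % 3 = 0) (h4 : 4 ≤ P i)
    (h4' : 6 ≤ P k) : tarR P bad := by
  refine tar_out P bad hbad k i j hik.symm hij hjk.symm 3 1 1 3 2 (by omega) (by omega) (by omega)
    (by omega) (by omega) (by omega) (by omega) ?_ ?_ ?_ <;>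
  · intro q
    omega

private theorem tar_D1 (hi : P i % 3 = 2) (hj : P j % 3 = 2) (hk : P k % 3 = 0) (h4 : 5 ≤ P i)
    (h4' : 5 ≤ P j) : tarR P bad := by
  refine tar_out P bad hbad i j k hij hjk hik 2 3 2 3 2 (by omega) (by omega) (by omega) (by omega)
    (by omega) (by omega) (by omega) ?_ ?_ ?_ <;>
  · intro q
    omega

private theorem tar_D2 (hi : P i % 3 = 2) (hj : P j = 2) (hk : P k % 3 = 0) (h4 : 5 ≤ P i)
    (h4' : 3 ≤ P k) : tarR P bad := by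
  refine tar_out P bad hbad k i j hik.symm hij hjk.symm 1 2 1 4 1 (by omega) (by omega) (by omega)
    (by omega) (by omega) (by omega) (by omega) ?_ ?_ ?_ <;>
  · intro q
    omega

end

/-- one of the lengths is divisible by 3 -/
private theorem tar_E (P : Fin 3 → ℕ) (bad : Fin 3 → ℕ → Prop)
    (hbad : ∀ i a i' a', bad i a → bad i' a' → i = i' ∧ a = a')
    (h1 : ∀ i, 1 ≤ P i) (h5 : ∀ i j, i ≠ j → 5 ≤ P i + P j)
    (h3 : ∀ i j, i ≠ j → ¬ 3 ∣ P i + P j) (i j k : Fin 3) (hij : i ≠ j)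
    (hjk : j ≠ k) (hik : i ≠ k) (hk : P k % 3 = 0) : tarR P bad := by
  have a1 := h1 i
  have a2 := h1 j
  have a3 := h1 k
  have b1 := h5 i j hij
  have b2 := h5 j k hjk
  have b3 := h5 i k hik
  have c1 := h3 i j hij
  have c2 := h3 j k hjk
  have c3 := h3 i k hik
  have hr : (P i % 3 = 1 ∧ P j % 3 = 1) ∨ (P i % 3 = 2 ∧ P j % 3 = 2) := by omega
  rcases hr with ⟨hi, hj⟩ | ⟨hi, hj⟩
  · by_cases h4 : 4 ≤ P i
    · by_cases h4' : 4 ≤ P j
      · exact tar_C1 P bad hbad i j k hij hjk hik hi hj hk h4 h4'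
      · exact tar_C2 P bad hbad i j k hij hjk hik hi (by omega) hk h4 (by omega)
    · exact tar_C2 P bad hbad j i k hij.symm hik hjk hj (by omega) hk (by omega) (by omega)
  · by_cases h4 : 5 ≤ P i
    · by_cases h4' : 5 ≤ P j
      · exact tar_D1 P bad hbad i j k hij hjk hik hi hj hk h4 h4'
      · exact tar_D2 P bad hbad i j k hij hjk hik hi (by omega) hk h4 (by omega)
    · exact tar_D2 P bad hbad j i k hij.symm hik hjk hj (by omega) hk (by omega) (by omega)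

theorem theta_arith (P : Fin 3 → ℕ) (h1 : ∀ i, 1 ≤ P i) (h5 : ∀ i j, i ≠ j → 5 ≤ P i + P j)
    (h3 : ∀ i j, i ≠ j → ¬ 3 ∣ P i + P j) (bad : Fin 3 → ℕ → Prop)
    (hbad : ∀ i a i' a', bad i a → bad i' a' → i = i' ∧ a = a') :
    ∃ i j k : Fin 3, i ≠ j ∧ j ≠ k ∧ i ≠ k ∧ ∃ a b : ℕ, 1 ≤ a ∧ a < P i ∧ 1 ≤ b ∧ b < P j ∧
      ¬ bad i a ∧ ¬ bad j b ∧ ∀ q : ℕ, 3 ∣ q + (a + b) ∨ 3 ∣ q + ((P i - a) + (P j - b)) ∨
        3 ∣ q + (a + P k + (P j - b)) ∨ 3 ∣ q + ((P i - a) + P k + b) := by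
  have n01 : (0 : Fin 3) ≠ 1 := by decide
  have n12 : (1 : Fin 3) ≠ 2 := by decide
  have n02 : (0 : Fin 3) ≠ 2 := by decide
  have key : tarR P bad := by
    by_cases k0 : P 0 % 3 = 0
    · exact tar_E P bad hbad h1 h5 h3 1 2 0 n12 n02.symm n01.symm k0
    by_cases k1 : P 1 % 3 = 0
    · exact tar_E P bad hbad h1 h5 h3 0 2 1 n02 n12.symm n01 k1
    by_cases k2 : P 2 % 3 = 0
    · exact tar_E P bad hbad h1 h5 h3 0 1 2 n01 n12 n02 k2
    have b1 := h5 0 1 n01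
    have b2 := h5 1 2 n12
    have b3 := h5 0 2 n02
    have c1 := h3 0 1 n01
    have c2 := h3 1 2 n12
    have c3 := h3 0 2 n02
    have hr : (P 0 % 3 = 1 ∧ P 1 % 3 = 1 ∧ P 2 % 3 = 1) ∨
        (P 0 % 3 = 2 ∧ P 1 % 3 = 2 ∧ P 2 % 3 = 2) := by omega
    rcases hr with ⟨r0, r1, r2⟩ | ⟨r0, r1, r2⟩
    · by_cases g0 : 4 ≤ P 0
      · by_cases g1 : 4 ≤ P 1
        · exact tar_A P bad hbad 0 1 2 n01 n12 n02 r0 r1 r2 g0 g1
        · exact tar_A P bad hbad 0 2 1 n02 n12.symm n01 r0 r2 r1 g0 (by omega)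
      · exact tar_A P bad hbad 1 2 0 n12 n02.symm n01.symm r1 r2 r0 (by omega) (by omega)
    · by_cases g0 : 5 ≤ P 0
      · by_cases g1 : 5 ≤ P 1
        · exact tar_B P bad hbad 0 1 2 n01 n12 n02 r0 r1 r2 g0 g1
        · exact tar_B P bad hbad 0 2 1 n02 n12.symm n01 r0 r2 r1 g0 (by omega)
      · exact tar_B P bad hbad 1 2 0 n12 n02.symm n01.symm r1 r2 r0 (by omega) (by omega)
  exact key

end Pool.Agent.Lib.MP_f599e5_co
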