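import Pool.Agent.Lib.MP_f599e5_co.TDef

set_option autoImplicit false
set_option linter.unusedSectionVars false

/-! # TBase: the tools of Part 2 for k = 3

JOB TBase.  Let `D` be a component of `B \ F` with a vertex `≠ c`.
* `ears3`: apply `aplus_R0` with `m = 2`, `z = c`.
  `Sys D R1 R2`: `D ⊆ B \ F`.
  `R0 G D R1 R2`: `D` nonempty.  r1: if `C ⊆ D` is nonempty and `bd G D C = ∅` then `C = D` (`hD.2.2.2`), and `D ~ R1, D ~ R2`.
  r2: suppose `C ⊆ D` nonempty, `(bd G D C).card ≤ 1`, `C` not adjacent to `R1`, `R2`.  Then no vertex of `C` has a neighbour in `F` (`hX`), and the neighbours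
  in `B` of a vertex of `C` are in `D` or in `F` (`nbr_of_closed`), so `bd G B C = bd G D C` (`bd_eq_of`) is contained in `{w}` for some `w ∉ C`
  (if it is empty take for `w` any element of `R1`, which is not in `D`).  `hB.b3` gives `B.erase w ⊆ C`; but `R1` and `R2` contain elements `r1 ≠ r2` (from
  `a1, a2` and `hd`) which are in `F ⊆ B` and not in `C`; both are `≠ w` is impossible, and if `w = r1` then `r2 ∈ C`, contradiction.
  Degrees: `v ∈ D`, `v ≠ c`: `3 ≤ (nb G v B).card` (`hB.deg`), `nb G v B ⊆ nb G v D ∪ nb G v F`, and `(nb G v F).card ≤ 1`; if `nb G v F` is empty then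
  `(nb G v D).card ≥ 3`; otherwise `nb G v F = {x}` with `x ∈ R1 ∪ R2` and `min 1 (nb G v R1).card + min 1 (nb G v R2).card ≥ 1`.
* `close3`: `Adm` gives `d ∈ {1,2}`, `l ≥ 2` and for `i = 0, 1` roots `a_i ∈ R1`, `b_i ∈ R2` with a path of length `l + i d` through `D`.  With the path
  of length `p0 + j e` (`j = 0, 1`) in `F` we get a cycle of length `l + i d + p0 + j e` (`PL.cycle`: the two vertex sets `{a_i, b_i} ∪ D` and `F` meet only in
  `a_i, b_i`, since `D` and `F` are disjoint; `a_i ≠ b_i` as `R1, R2` are disjoint; the length is `≥ 3`).  Among the four numbers `l + i d + p0 + j e`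
  (`i, j ∈ {0,1}`, `d, e ∈ {1,2}`) one is divisible by 3 (`omega` after the four cases for `d, e`).  `CycS.zc`. -/

namespace Pool.Agent.Lib.MP_f599e5_co

open Finset

variable {V : Type} [DecidableEq V] {G : SimpleGraph V}

theorem ears3 {B : Finset V} {c : V} (hB : Blk G 3 B c) {F D R1 R2 : Finset V} (hF : F ⊆ B)
    (hD : IsComp G (B \ F) D) (hDc : ∃ v ∈ D, v ≠ c) (h1 : R1 ⊆ F) (h2 : R2 ⊆ F)
    (hd : Disjoint R1 R2) (a1 : adjS G D R1) (a2 : adjS G D R2)
    (hX : ∀ v ∈ D, ∀ x ∈ F, G.Adj v x → x ∈ R1 ∪ R2)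
    (hone : ∀ v ∈ D, v ≠ c → (nb G v F).card ≤ 1) : Adm G 2 D R1 R2 := by
  have hDF : Disjoint D F :=
    Finset.disjoint_left.2 fun x hx hxF => (Finset.mem_sdiff.1 (hD.1 hx)).2 hxF
  have hDB : D ⊆ B := fun x hx => (Finset.mem_sdiff.1 (hD.1 hx)).1
  have hnbr : ∀ v ∈ D, ∀ x ∈ B, G.Adj v x → x ∈ D ∨ x ∈ R1 ∪ R2 := by
    intro v hv x hx ha
    rcases nbr_of_closed hD.1 hD.2.1 hv hx ha with h | h
    · exact Or.inl h
    · exact Or.inr (hX v hv x h ha)
  apply aplus_R0 (z := c) (by norm_num)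
  · exact ⟨hDF.mono_right h1, hDF.mono_right h2, hd⟩
  · refine ⟨hD.2.2.1, ?_, ?_⟩
    · intro C hC hne hb
      have := hD.2.2.2 C hC hne hb
      subst this
      exact ⟨a1, a2⟩
    · intro C hC hne hcard
      by_contra hcon
      rw [not_or] at hcon
      have hbd : bd G B C = bd G D C := by
        apply bd_eq_of hC hDB
        intro v hv x hx ha
        rcases hnbr v (hC hv) x hx ha with h | h
        · exact h
        · exfalso
          rcases Finset.mem_union.1 h with h | h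
          · exact hcon.1 ⟨v, hv, x, h, ha⟩
          · exact hcon.2 ⟨v, hv, x, h, ha⟩
      obtain ⟨x1, _, r1, hr1, _⟩ := a1
      obtain ⟨x2, _, r2, hr2, _⟩ := a2
      have hr1C : r1 ∉ C := fun h => Finset.disjoint_left.1 hDF (hC h) (h1 hr1)
      have hr2C : r2 ∉ C := fun h => Finset.disjoint_left.1 hDF (hC h) (h2 hr2)
      have hne12 : r1 ≠ r2 := by
        rintro rfl
        exact Finset.disjoint_left.1 hd hr1 hr2
      obtain ⟨w, hwC, hw⟩ : ∃ w, w ∉ C ∧ bd G D C ⊆ {w} := by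
        rcases (bd G D C).eq_empty_or_nonempty with h | ⟨w, hw⟩
        · exact ⟨r1, hr1C, by rw [h]; exact Finset.empty_subset _⟩
        · refine ⟨w, (mem_bd.1 hw).2.1, fun y hy => ?_⟩
          rw [Finset.mem_singleton]
          exact Finset.card_le_one.1 hcard y hy w hw
      have hb3 := hB.b3 C (hC.trans hDB) hne w hwC (by rw [hbd]; exact hw)
      by_cases hw1 : w = r1
      · subst hw1
        exact hr2C (hb3 (Finset.mem_erase.2 ⟨hne12.symm, hF (h2 hr2)⟩))
      · exact hr1C (hb3 (Finset.mem_erase.2 ⟨fun h => hw1 h.symm, hF (h1 hr1)⟩))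
  · exact hDc
  · intro v hv hvc
    have h3 := hB.deg v (hDB hv) hvc
    have hsub : nb G v B ⊆ nb G v D ∪ nb G v F := by
      intro x hx
      rw [mem_nb] at hx
      rw [Finset.mem_union, mem_nb, mem_nb]
      rcases nbr_of_closed hD.1 hD.2.1 hv hx.1 hx.2 with h | h
      · exact Or.inl ⟨h, hx.2⟩
      · exact Or.inr ⟨h, hx.2⟩
    have hc1 := Finset.card_le_card hsub
    have hc2 := Finset.card_union_le (nb G v D) (nb G v F)
    have hc3 := hone v hv hvc
    unfold ds
    rcases (nb G v F).eq_empty_or_nonempty with h | ⟨x, hx⟩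
    · have h0 : (nb G v F).card = 0 := by rw [h, Finset.card_empty]
      omega
    · rw [mem_nb] at hx
      rcases Finset.mem_union.1 (hX v hv x hx.1 hx.2) with h | h
      · have : 0 < (nb G v R1).card := Finset.card_pos.2 ⟨x, mem_nb.2 ⟨h, hx.2⟩⟩
        omega
      · have : 0 < (nb G v R2).card := Finset.card_pos.2 ⟨x, mem_nb.2 ⟨h, hx.2⟩⟩
        omega

theorem close3 {F D R1 R2 : Finset V} (hFD : Disjoint F D) (h : Adm G 2 D R1 R2) (h1 : R1 ⊆ F)
    (h2 : R2 ⊆ F) (hd : Disjoint R1 R2) {p0 e : ℕ} (hp : 1 ≤ p0) (he : e = 1 ∨ e = 2)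
    (hL : Links G F R1 R2 p0 2 e) : ZC 3 G := by
  obtain ⟨d, hd12, l, hl, hA⟩ := h
  have key : ∀ i < 2, ∀ j < 2, ∃ S, CycS G S (l + i * d + (p0 + j * e)) := by
    intro i hi j hj
    obtain ⟨a, ha, b, hb, hP⟩ := hA i hi
    have hab : a ≠ b := by
      rintro rfl
      exact Finset.disjoint_left.1 hd ha hb
    have hQ := hL a ha b hb j hj
    refine ⟨_, hP.cycle hQ ?_ hab (by omega)⟩
    intro x hx hxF
    rw [Finset.mem_insert, Finset.mem_insert] at hx
    rcases hx with hx | hx | hx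
    · exact Or.inl hx
    · exact Or.inr hx
    · exact absurd hx (Finset.disjoint_left.1 hFD hxF)
  have hdiv : ∃ i < 2, ∃ j < 2, 3 ∣ l + i * d + (p0 + j * e) := by
    by_contra hcon
    push Not at hcon
    have h00 := hcon 0 (by norm_num) 0 (by norm_num)
    have h01 := hcon 0 (by norm_num) 1 (by norm_num)
    have h10 := hcon 1 (by norm_num) 0 (by norm_num)
    have h11 := hcon 1 (by norm_num) 1 (by norm_num)
    rcases hd12 with rfl | rfl <;> rcases he with rfl | rfl <;> omega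
  obtain ⟨i, hi, j, hj, hdv⟩ := hdiv
  obtain ⟨S, hS⟩ := key i hi j hj
  exact hS.zc hdv

end Pool.Agent.Lib.MP_f599e5_co
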