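import Pool.Agent.Lib.MP_f599e5_co.Aplus
import Pool.Agent.Lib.MP_f599e5_co.B2F

set_option autoImplicit false
set_option linter.unusedSectionVars false

/-! # TDef: theta graphs (Part 5, k = 3) -/

namespace Pool.Agent.Lib.MP_f599e5_co

open Finset

variable {V : Type} [DecidableEq V] {G : SimpleGraph V}

/-- A theta graph given by three path functions `f, g, h` of lengths `l, m, n` with common first vertex
`f 0` and common last vertex `f l`, otherwise pairwise disjoint, at most one of them of length `1`. -/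
structure Th3 (G : SimpleGraph V) (f g h : ℕ → V) (l m n : ℕ) : Prop where
  pf : PF G f l
  pg : PF G g m
  ph : PF G h n
  l1 : 1 ≤ l
  m1 : 1 ≤ m
  n1 : 1 ≤ n
  lm : 3 ≤ l + m
  ln : 3 ≤ l + n
  mn : 3 ≤ m + n
  g0 : g 0 = f 0
  h0 : h 0 = f 0
  gm : g m = f l
  hn : h n = f l
  fg : ∀ i j, i ≤ l → j ≤ m → f i = g j → (i = 0 ∧ j = 0) ∨ (i = l ∧ j = m)
  fh : ∀ i j, i ≤ l → j ≤ n → f i = h j → (i = 0 ∧ j = 0) ∨ (i = l ∧ j = n)
  gh : ∀ i j, i ≤ m → j ≤ n → g i = h j → (i = 0 ∧ j = 0) ∨ (i = m ∧ j = n)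

/-- the vertices `f 0, …, f l` -/
def fV (f : ℕ → V) (l : ℕ) : Finset V := (range (l + 1)).image f

/-- the vertices of a theta -/
def thV (f g h : ℕ → V) (l m n : ℕ) : Finset V := fV f l ∪ fV g m ∪ fV h n

/-- `X` contains a theta with branch vertices `s` and `t` -/
def IsThB (G : SimpleGraph V) (X : Finset V) (s t : V) : Prop :=
  ∃ (f g h : ℕ → V) (l m n : ℕ), Th3 G f g h l m n ∧ f 0 = s ∧ f l = t ∧ thV f g h l m n ⊆ X

/-- `X` contains a theta -/
def IsTh (G : SimpleGraph V) (X : Finset V) : Prop := ∃ s t, IsThB G X s t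

/-- no cycle of length 4 in `B` -/
def NoC4 (G : SimpleGraph V) (B : Finset V) : Prop :=
  ∀ x y a b, x ∈ B → y ∈ B → a ∈ B → b ∈ B → x ≠ y → a ≠ b →
    G.Adj x a → G.Adj x b → G.Adj y a → G.Adj y b → False

theorem mem_fV {f : ℕ → V} {l : ℕ} {x : V} : x ∈ fV f l ↔ ∃ i, i ≤ l ∧ f i = x := by
  simp only [fV, mem_image, mem_range]
  constructor
  · rintro ⟨i, hi, rfl⟩; exact ⟨i, by omega, rfl⟩
  · rintro ⟨i, hi, rfl⟩; exact ⟨i, by omega, rfl⟩

theorem mem_thV {f g h : ℕ → V} {l m n : ℕ} {x : V} : x ∈ thV f g h l m n ↔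
    (∃ i, i ≤ l ∧ f i = x) ∨ (∃ i, i ≤ m ∧ g i = x) ∨ (∃ i, i ≤ n ∧ h i = x) := by
  simp only [thV, mem_union, mem_fV, or_assoc]

theorem IsThB.mono {X Y : Finset V} {s t : V} (h : IsThB G X s t) (hXY : X ⊆ Y) : IsThB G Y s t := by
  obtain ⟨f, g, h, l, m, n, T, h1, h2, h3⟩ := h
  exact ⟨f, g, h, l, m, n, T, h1, h2, h3.trans hXY⟩

theorem IsThB.isTh {X : Finset V} {s t : V} (h : IsThB G X s t) : IsTh G X := ⟨s, t, h⟩

theorem IsTh.mono {X Y : Finset V} (h : IsTh G X) (hXY : X ⊆ Y) : IsTh G Y := by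
  obtain ⟨s, t, h⟩ := h
  exact ⟨s, t, h.mono hXY⟩

theorem Th3.isThB {f g h : ℕ → V} {l m n : ℕ} (T : Th3 G f g h l m n) {X : Finset V}
    (hX : thV f g h l m n ⊆ X) : IsThB G X (f 0) (f l) := ⟨f, g, h, l, m, n, T, rfl, rfl, hX⟩

theorem Th3.swap12 {f g h : ℕ → V} {l m n : ℕ} (T : Th3 G f g h l m n) : Th3 G g f h m l n where
  pf := T.pg
  pg := T.pf
  ph := T.ph
  l1 := T.m1
  m1 := T.l1
  n1 := T.n1
  lm := by have := T.lm; omega
  ln := T.mn
  mn := T.ln
  g0 := T.g0.symm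
  h0 := T.h0.trans T.g0.symm
  gm := T.gm.symm
  hn := T.hn.trans T.gm.symm
  fg := fun i j hi hj he => by
    rcases T.fg j i hj hi he.symm with h | h
    · exact Or.inl ⟨h.2, h.1⟩
    · exact Or.inr ⟨h.2, h.1⟩
  fh := T.gh
  gh := T.fh

theorem Th3.swap23 {f g h : ℕ → V} {l m n : ℕ} (T : Th3 G f g h l m n) : Th3 G f h g l n m where
  pf := T.pf
  pg := T.ph
  ph := T.pg
  l1 := T.l1
  m1 := T.n1
  n1 := T.m1
  lm := T.ln
  ln := T.lm
  mn := by have := T.mn; omega
  g0 := T.h0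
  h0 := T.g0
  gm := T.hn
  hn := T.gm
  fg := T.fh
  fh := T.fg
  gh := fun i j hi hj he => by
    rcases T.gh j i hj hi he.symm with h | h
    · exact Or.inl ⟨h.2, h.1⟩
    · exact Or.inr ⟨h.2, h.1⟩

theorem thV_swap12 (f g h : ℕ → V) (l m n : ℕ) : thV g f h m l n = thV f g h l m n := by
  unfold thV
  rw [union_comm (fV g m)]

theorem thV_swap23 (f g h : ℕ → V) (l m n : ℕ) : thV f h g l n m = thV f g h l m n := by
  unfold thV
  rw [union_assoc, union_comm (fV h n), ← union_assoc]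

theorem PF.trev {f : ℕ → V} {l : ℕ} (h : PF G f l) : PF G (fun i => f (l - i)) l where
  adj := fun i hi => by
    have h1 := h.adj (l - (i + 1)) (by omega)
    have e : l - (i + 1) + 1 = l - i := by omega
    rw [e] at h1
    exact h1.symm
  inj := fun i j hi hj he => by
    have h1 := h.inj (l - i) (l - j) (by omega) (by omega) he
    omega

/-- the reversed theta -/
theorem Th3.rev {f g h : ℕ → V} {l m n : ℕ} (T : Th3 G f g h l m n) :
    Th3 G (fun i => f (l - i)) (fun i => g (m - i)) (fun i => h (n - i)) l m n where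
  pf := T.pf.trev
  pg := T.pg.trev
  ph := T.ph.trev
  l1 := T.l1
  m1 := T.m1
  n1 := T.n1
  lm := T.lm
  ln := T.ln
  mn := T.mn
  g0 := by simpa using T.gm
  h0 := by simpa using T.hn
  gm := by simpa using T.g0
  hn := by simpa using T.h0
  fg := fun i j hi hj he => by
    rcases T.fg (l - i) (m - j) (by omega) (by omega) he with h | h <;> omega
  fh := fun i j hi hj he => by
    rcases T.fh (l - i) (n - j) (by omega) (by omega) he with h | h <;> omega
  gh := fun i j hi hj he => by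
    rcases T.gh (m - i) (n - j) (by omega) (by omega) he with h | h <;> omega

theorem thV_rev (f g h : ℕ → V) (l m n : ℕ) :
    thV (fun i => f (l - i)) (fun i => g (m - i)) (fun i => h (n - i)) l m n = thV f g h l m n := by
  ext x
  simp only [mem_thV]
  constructor
  · rintro (⟨i, hi, rfl⟩ | ⟨i, hi, rfl⟩ | ⟨i, hi, rfl⟩)
    · exact Or.inl ⟨l - i, by omega, rfl⟩
    · exact Or.inr (Or.inl ⟨m - i, by omega, rfl⟩)
    · exact Or.inr (Or.inr ⟨n - i, by omega, rfl⟩)
  · rintro (⟨i, hi, rfl⟩ | ⟨i, hi, rfl⟩ | ⟨i, hi, rfl⟩)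
    · exact Or.inl ⟨l - i, by omega, by congr 1; omega⟩
    · exact Or.inr (Or.inl ⟨m - i, by omega, by congr 1; omega⟩)
    · exact Or.inr (Or.inr ⟨n - i, by omega, by congr 1; omega⟩)

theorem PF.card_fV {f : ℕ → V} {l : ℕ} (h : PF G f l) : (fV f l).card = l + 1 := by
  unfold fV
  rw [card_image_of_injOn]
  · simp
  · intro i hi j hj he
    simp only [coe_range, Set.mem_Iio] at hi hj
    exact h.inj i j (by omega) (by omega) he

end Pool.Agent.Lib.MP_f599e5_co
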