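import Pool.Agent.Lib.MP_f599e5_co.TMk

set_option autoImplicit false
set_option linter.unusedSectionVars false

/-! # TE1: an ear with both ends on the first path

JOB TE1.  `T` is a theta, `Q` a path from `f i` to `f j` (`i < j ≤ l`) whose other vertices are outside the theta.
Replace the segment `f i, …, f j` by `Q`: the new path from `f 0` to `f l` is
`f 0 … f i` (`PF.toPL` on the set `(range (i+1)).image f`), then `Q`, then `f j … f l` (`PF.toPL` on the image of `[j, l]`),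
glued by `PL.trans` twice (the sets meet only in `f i`, resp. `f j`: injectivity of `f` and `hd`).  Its length is
`i + q + (l - j) ≥ 2` because `q ≥ 1` (`PL.pos`, `f i ≠ f j`) and `0 < i` or `j < l`.  The other two paths are `g` and `h`
(`PF.toPL` on `fV g m`, `fV h n`).  Apply `thB_of_PL`: intersections by `T.fg, T.fh, T.gh` and `hd` (a vertex of `Q` in
`fV g m` is in the theta, so it is `f i` or `f j`, hence `f 0` or `f l` by `T.fg`).  The union of the three sets is contained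
in `X` by `hX`, `hQX`. -/

namespace Pool.Agent.Lib.MP_f599e5_co

open Finset

variable {V : Type} [DecidableEq V] {G : SimpleGraph V}

theorem th_ear_same {f g h : ℕ → V} {l m n : ℕ} (T : Th3 G f g h l m n) {i j q : ℕ} {Q : Finset V}
    (hij : i < j) (hj : j ≤ l) (hend : 0 < i ∨ j < l) (hQ : PL G Q (f i) (f j) q)
    (hd : ∀ x ∈ Q, x ∈ thV f g h l m n → x = f i ∨ x = f j) {X : Finset V}
    (hX : ∀ x ∈ thV f g h l m n, (∀ k, i < k → k < j → x ≠ f k) → x ∈ X) (hQX : Q ⊆ X) :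
    IsTh G X := by
  have hi : i ≤ l := by omega
  have hpA : PL G (fV f i) (f 0) (f i) (i - 0) :=
    T.pf.toPL (Nat.zero_le i) hi fun k _ hk => mem_fV.2 ⟨k, hk, rfl⟩
  have hpB : PL G ((Icc j l).image f) (f j) (f l) (l - j) :=
    T.pf.toPL hj le_rfl fun k hk1 hk2 => mem_image.2 ⟨k, mem_Icc.2 ⟨hk1, hk2⟩, rfl⟩
  have hth : ∀ k, k ≤ l → f k ∈ thV f g h l m n := fun k hk => mem_thV.2 (Or.inl ⟨k, hk, rfl⟩)
  have hij' : f i ≠ f j := by
    intro he
    have h1 := T.pf.inj i j hi hj he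
    omega
  have hq : 1 ≤ q := hQ.pos hij'
  have hp1 : PL G (fV f i ∪ Q) (f 0) (f j) (i - 0 + q) := by
    refine hpA.trans hQ ?_
    intro x hx hxQ
    obtain ⟨k, hk, rfl⟩ := mem_fV.1 hx
    rcases hd _ hxQ (hth k (by omega)) with h1 | h1
    · exact h1
    · have h2 := T.pf.inj k j (by omega) hj h1
      omega
  have hp2 : PL G (fV f i ∪ Q ∪ (Icc j l).image f) (f 0) (f l) (i - 0 + q + (l - j)) := by
    refine hp1.trans hpB ?_
    intro x hx hxB
    obtain ⟨k, hk, rfl⟩ := mem_image.1 hxB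
    rw [mem_Icc] at hk
    rcases mem_union.1 hx with h1 | h1
    · obtain ⟨k', hk', he⟩ := mem_fV.1 h1
      have h2 := T.pf.inj k' k (by omega) hk.2 he
      omega
    · rcases hd _ h1 (hth k hk.2) with h2 | h2
      · have h3 := T.pf.inj k i hk.2 hi h2
        omega
      · exact h2
  have hp3 : PL G (fV g m) (f 0) (f l) (m - 0) := by
    have h1 : PL G (fV g m) (g 0) (g m) (m - 0) :=
      T.pg.toPL (Nat.zero_le m) le_rfl fun k _ hk => mem_fV.2 ⟨k, hk, rfl⟩
    rwa [T.g0, T.gm] at h1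
  have hp4 : PL G (fV h n) (f 0) (f l) (n - 0) := by
    have h1 : PL G (fV h n) (h 0) (h n) (n - 0) :=
      T.ph.toPL (Nat.zero_le n) le_rfl fun k _ hk => mem_fV.2 ⟨k, hk, rfl⟩
    rwa [T.h0, T.hn] at h1
  have hne : f 0 ≠ f l := by
    intro he
    have h1 := T.pf.inj 0 l (Nat.zero_le l) le_rfl he
    have h2 := T.l1
    omega
  have hS1 : ∀ x ∈ fV f i ∪ Q ∪ (Icc j l).image f, x ∈ thV f g h l m n → ∃ k, k ≤ l ∧ f k = x := by
    intro x hx hxt
    rcases mem_union.1 hx with h1 | h1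
    · rcases mem_union.1 h1 with h2 | h2
      · obtain ⟨k, hk, rfl⟩ := mem_fV.1 h2
        exact ⟨k, by omega, rfl⟩
      · rcases hd x h2 hxt with h3 | h3
        · exact ⟨i, hi, h3.symm⟩
        · exact ⟨j, hj, h3.symm⟩
    · obtain ⟨k, hk, rfl⟩ := mem_image.1 h1
      exact ⟨k, (mem_Icc.1 hk).2, rfl⟩
  have h12 : ∀ x ∈ fV f i ∪ Q ∪ (Icc j l).image f, x ∈ fV g m → x = f 0 ∨ x = f l := by
    intro x hx hxg
    obtain ⟨k', hk', he'⟩ := mem_fV.1 hxg
    obtain ⟨k, hk, he⟩ := hS1 x hx (mem_thV.2 (Or.inr (Or.inl ⟨k', hk', he'⟩)))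
    rcases T.fg k k' hk hk' (he.trans he'.symm) with h1 | h1
    · left; rw [← he, h1.1]
    · right; rw [← he, h1.1]
  have h13 : ∀ x ∈ fV f i ∪ Q ∪ (Icc j l).image f, x ∈ fV h n → x = f 0 ∨ x = f l := by
    intro x hx hxg
    obtain ⟨k', hk', he'⟩ := mem_fV.1 hxg
    obtain ⟨k, hk, he⟩ := hS1 x hx (mem_thV.2 (Or.inr (Or.inr ⟨k', hk', he'⟩)))
    rcases T.fh k k' hk hk' (he.trans he'.symm) with h1 | h1
    · left; rw [← he, h1.1]
    · right; rw [← he, h1.1]
  have h23 : ∀ x ∈ fV g m, x ∈ fV h n → x = f 0 ∨ x = f l := by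
    intro x hxg hxh
    obtain ⟨k, hk, he⟩ := mem_fV.1 hxg
    obtain ⟨k', hk', he'⟩ := mem_fV.1 hxh
    rcases T.gh k k' hk hk' (he.trans he'.symm) with h1 | h1
    · left; rw [← he, h1.1, T.g0]
    · right; rw [← he, h1.1, T.gm]
  have hm := T.m1
  have hn := T.n1
  have hmn := T.mn
  have hT := thB_of_PL hne hp2 hp3 hp4 h12 h13 h23 (by omega) (by omega) (by omega)
  refine (hT.mono ?_).isTh
  intro x hx
  rcases mem_union.1 hx with h1 | h1
  · rcases mem_union.1 h1 with h1 | h1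
    · rcases mem_union.1 h1 with h1 | h1
      · rcases mem_union.1 h1 with h1 | h1
        · obtain ⟨k, hk, rfl⟩ := mem_fV.1 h1
          refine hX _ (hth k (by omega)) ?_
          intro k' hk1 hk2 he
          have h2 := T.pf.inj k k' (by omega) (by omega) he
          omega
        · exact hQX h1
      · obtain ⟨k, hk, rfl⟩ := mem_image.1 h1
        rw [mem_Icc] at hk
        refine hX _ (hth k hk.2) ?_
        intro k' hk1 hk2 he
        have h2 := T.pf.inj k k' hk.2 (by omega) he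
        omega
    · obtain ⟨k, hk, rfl⟩ := mem_fV.1 h1
      refine hX _ (mem_thV.2 (Or.inr (Or.inl ⟨k, hk, rfl⟩))) ?_
      intro k' hk1 hk2 he
      rcases T.fg k' k (by omega) hk he.symm with h2 | h2 <;> omega
  · obtain ⟨k, hk, rfl⟩ := mem_fV.1 h1
    refine hX _ (mem_thV.2 (Or.inr (Or.inr ⟨k, hk, rfl⟩))) ?_
    intro k' hk1 hk2 he
    rcases T.fh k' k (by omega) hk he.symm with h2 | h2 <;> omega

end Pool.Agent.Lib.MP_f599e5_co
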