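import Pool.Agent.Lib.MP_f599e5_co.TMk

set_option autoImplicit false
set_option linter.unusedSectionVars false

/-! # TE2: an ear between interior vertices of two different paths (K4 subdivision)

JOB TE2.  `T` is a theta, `Q` a path from `a = f i` (`0 < i < l`) to `b = g j` (`0 < j < m`) whose other vertices are outside the
theta.  The six segments of the K4 subdivision with branch vertices `s = f 0, t = f l, a, b` are (all by `PF.toPL`, on images of
intervals): `fa = f[0,i]` (s to a), `fb = f[i,l]` (a to t), `ga = g[0,j]` (s to b), `gb = g[j,m]` (b to t), `hh = fV h n` (s to t), `Q`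
(a to b).
* `th_cross_a` (all vertices except the open segment `f 0 … f i` are in `Y`): `thB_of_K4` with branch vertices `b, t` and middle
  vertices `a, s`: the path `gb` from `b` to `t`, `Q` reversed followed by `fb` (through `a`), `ga` reversed followed by `hh` (through `s`).
* `thB_cross_ab` (all vertices except the open path `h` are in `Y`): `thB_of_K4` with branch vertices `a, b`: the path `Q`,
  `fa` reversed followed by `ga` (through `s`), `fb` followed by `gb` reversed (through `t`).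
All disjointness conditions follow from injectivity (`PF.inj`), `T.fg, T.fh, T.gh` and `hd`. -/

namespace Pool.Agent.Lib.MP_f599e5_co

open Finset

variable {V : Type} [DecidableEq V] {G : SimpleGraph V}

/-- the vertices `f a, …, f b` -/
private def te2Seg (f : ℕ → V) (a b : ℕ) : Finset V := (Icc a b).image f

private theorem te2_mem {f : ℕ → V} {a b : ℕ} {x : V} :
    x ∈ te2Seg f a b ↔ ∃ k, a ≤ k ∧ k ≤ b ∧ f k = x := by
  simp only [te2Seg, mem_image, mem_Icc, and_assoc]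

private theorem te2_pl {f : ℕ → V} {n a b : ℕ} (h : PF G f n) (hab : a ≤ b) (hb : b ≤ n) :
    PL G (te2Seg f a b) (f a) (f b) (b - a) :=
  h.toPL hab hb (fun i h1 h2 => te2_mem.2 ⟨i, h1, h2, rfl⟩)

theorem th_cross_a {f g h : ℕ → V} {l m n : ℕ} (T : Th3 G f g h l m n) {i j q : ℕ} {Q : Finset V}
    (hi0 : 0 < i) (hil : i < l) (hj0 : 0 < j) (hjm : j < m) (hQ : PL G Q (f i) (g j) q)
    (hd : ∀ x ∈ Q, x ∈ thV f g h l m n → x = f i ∨ x = g j) {Y : Finset V}
    (hY : ∀ x ∈ thV f g h l m n, (∀ k, 0 < k → k < i → x ≠ f k) → x ∈ Y) (hQY : Q ⊆ Y) :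
    IsTh G Y := by
  have mf : ∀ k, k ≤ l → f k ∈ thV f g h l m n := fun k hk => mem_thV.2 (Or.inl ⟨k, hk, rfl⟩)
  have mg : ∀ k, k ≤ m → g k ∈ thV f g h l m n :=
    fun k hk => mem_thV.2 (Or.inr (Or.inl ⟨k, hk, rfl⟩))
  have mh : ∀ k, k ≤ n → h k ∈ thV f g h l m n :=
    fun k hk => mem_thV.2 (Or.inr (Or.inr ⟨k, hk, rfl⟩))
  have p0 : PL G (te2Seg g j m) (g j) (f l) (m - j) := by
    have := te2_pl T.pg hjm.le le_rfl
    rw [T.gm] at this
    exact this
  have p1 : PL G Q (g j) (f i) q := hQ.symm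
  have p2 : PL G (te2Seg f i l) (f i) (f l) (l - i) := te2_pl T.pf hil.le le_rfl
  have p3 : PL G (te2Seg g 0 j) (g j) (f 0) (j - 0) := by
    have := te2_pl T.pg (Nat.zero_le j) hjm.le
    rw [T.g0] at this
    exact this.symm
  have p4 : PL G (te2Seg h 0 n) (f 0) (f l) (n - 0) := by
    have := te2_pl T.ph (Nat.zero_le n) le_rfl
    rw [T.h0, T.hn] at this
    exact this
  have key := thB_of_K4 (G := G) (X := te2Seg g j m) (A1 := Q) (A2 := te2Seg f i l)
    (B1 := te2Seg g 0 j) (B2 := te2Seg h 0 n)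
    (fun he => by rcases T.fg l j le_rfl hjm.le he.symm with h1 | h1 <;> omega)
    (fun he => by rcases T.fg i j hil.le hjm.le he with h1 | h1 <;> omega)
    (fun he => by have := T.pf.inj i l hil.le le_rfl he; omega)
    (fun he => by rcases T.fg 0 j (Nat.zero_le l) hjm.le he with h1 | h1 <;> omega)
    (fun he => by have := T.pf.inj 0 l (Nat.zero_le l) le_rfl he; omega)
    p0 p1 p2 p3 p4 ?_ ?_ ?_ ?_ ?_ ?_ ?_ ?_ ?_ ?_
  · refine (key.mono ?_).isTh
    intro x hx
    simp only [mem_union] at hx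
    rcases hx with (hx | hx | hx) | hx | hx
    · obtain ⟨k, h1, h2, rfl⟩ := te2_mem.1 hx
      refine hY _ (mg k h2) (fun k' h3 h4 he => ?_)
      rcases T.fg k' k (by omega) h2 he.symm with h5 | h5 <;> omega
    · exact hQY hx
    · obtain ⟨k, h1, h2, rfl⟩ := te2_mem.1 hx
      refine hY _ (mf k h2) (fun k' h3 h4 he => ?_)
      have := T.pf.inj k k' h2 (by omega) he
      omega
    · obtain ⟨k, h1, h2, rfl⟩ := te2_mem.1 hx
      refine hY _ (mg k (by omega)) (fun k' h3 h4 he => ?_)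
      rcases T.fg k' k (by omega) (by omega) he.symm with h5 | h5 <;> omega
    · obtain ⟨k, h1, h2, rfl⟩ := te2_mem.1 hx
      refine hY _ (mh k h2) (fun k' h3 h4 he => ?_)
      rcases T.fh k' k (by omega) h2 he.symm with h5 | h5 <;> omega
  · intro x hx1 hx2
    obtain ⟨k, h1, h2, rfl⟩ := te2_mem.1 hx2
    rcases hd _ hx1 (mf k h2) with h3 | h3
    · exact h3
    · rcases T.fg k j h2 hjm.le h3 with h5 | h5 <;> omega
  · intro x hx1 hx2
    obtain ⟨k, h1, h2, rfl⟩ := te2_mem.1 hx1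
    obtain ⟨k', h3, h4, he⟩ := te2_mem.1 hx2
    rcases T.gh k k' (by omega) h4 he.symm with h5 | h5
    · rw [h5.1, T.g0]
    · omega
  · intro x hx1 hx2
    obtain ⟨k, h1, h2, rfl⟩ := te2_mem.1 hx1
    rcases hd _ hx2 (mg k h2) with h3 | h3
    · rcases T.fg i k hil.le h2 h3.symm with h5 | h5 <;> omega
    · exact h3
  · intro x hx1 hx2
    obtain ⟨k, h1, h2, rfl⟩ := te2_mem.1 hx1
    obtain ⟨k', h3, h4, he⟩ := te2_mem.1 hx2
    rcases T.fg k' k h4 h2 he with h5 | h5
    · omega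
    · rw [← he, h5.1]
  · intro x hx1 hx2
    obtain ⟨k, h1, h2, rfl⟩ := te2_mem.1 hx1
    obtain ⟨k', h3, h4, he⟩ := te2_mem.1 hx2
    have := T.pg.inj k' k (by omega) h2 he
    have : k = j := by omega
    rw [this]
  · intro x hx1 hx2
    obtain ⟨k, h1, h2, rfl⟩ := te2_mem.1 hx1
    obtain ⟨k', h3, h4, he⟩ := te2_mem.1 hx2
    rcases T.gh k k' h2 h4 he.symm with h5 | h5
    · omega
    · rw [h5.1, T.gm]
  · intro x hx1 hx2
    obtain ⟨k, h1, h2, rfl⟩ := te2_mem.1 hx2
    rcases hd _ hx1 (mg k (by omega)) with h3 | h3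
    · rcases T.fg i k hil.le (by omega) h3.symm with h5 | h5 <;> omega
    · exact h3
  · intro x hx1 hx2
    obtain ⟨k, h1, h2, rfl⟩ := te2_mem.1 hx1
    obtain ⟨k', h3, h4, he⟩ := te2_mem.1 hx2
    rcases T.fh k k' h2 h4 he.symm with h5 | h5
    · omega
    · rw [h5.1]
  · intro x hx1 hx2
    obtain ⟨k, h1, h2, rfl⟩ := te2_mem.1 hx2
    rcases hd _ hx1 (mh k h2) with h3 | h3
    · rcases T.fh i k hil.le h2 h3.symm with h5 | h5 <;> omega
    · rcases T.gh j k hjm.le h2 h3.symm with h5 | h5 <;> omega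
  · intro x hx1 hx2
    obtain ⟨k, h1, h2, rfl⟩ := te2_mem.1 hx1
    obtain ⟨k', h3, h4, he⟩ := te2_mem.1 hx2
    rcases T.fg k k' h2 (by omega) he.symm with h5 | h5 <;> omega

theorem thB_cross_ab {f g h : ℕ → V} {l m n : ℕ} (T : Th3 G f g h l m n) {i j q : ℕ}
    {Q : Finset V} (hi0 : 0 < i) (hil : i < l) (hj0 : 0 < j) (hjm : j < m)
    (hQ : PL G Q (f i) (g j) q) (hd : ∀ x ∈ Q, x ∈ thV f g h l m n → x = f i ∨ x = g j)
    {Y : Finset V} (hY : ∀ x ∈ thV f g h l m n, (∀ k, 0 < k → k < n → x ≠ h k) → x ∈ Y)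
    (hQY : Q ⊆ Y) : IsThB G Y (f i) (g j) := by
  have mf : ∀ k, k ≤ l → f k ∈ thV f g h l m n := fun k hk => mem_thV.2 (Or.inl ⟨k, hk, rfl⟩)
  have mg : ∀ k, k ≤ m → g k ∈ thV f g h l m n :=
    fun k hk => mem_thV.2 (Or.inr (Or.inl ⟨k, hk, rfl⟩))
  have p1 : PL G (te2Seg f 0 i) (f i) (f 0) (i - 0) := (te2_pl T.pf (Nat.zero_le i) hil.le).symm
  have p2 : PL G (te2Seg g 0 j) (f 0) (g j) (j - 0) := by
    have := te2_pl T.pg (Nat.zero_le j) hjm.le
    rw [T.g0] at this
    exact this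
  have p3 : PL G (te2Seg f i l) (f i) (f l) (l - i) := te2_pl T.pf hil.le le_rfl
  have p4 : PL G (te2Seg g j m) (f l) (g j) (m - j) := by
    have := te2_pl T.pg hjm.le le_rfl
    rw [T.gm] at this
    exact this.symm
  have key := thB_of_K4 (G := G) (X := Q) (A1 := te2Seg f 0 i) (A2 := te2Seg g 0 j)
    (B1 := te2Seg f i l) (B2 := te2Seg g j m)
    (fun he => by rcases T.fg i j hil.le hjm.le he with h1 | h1 <;> omega)
    (fun he => by have := T.pf.inj 0 i (Nat.zero_le l) hil.le he; omega)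
    (fun he => by rcases T.fg 0 j (Nat.zero_le l) hjm.le he with h1 | h1 <;> omega)
    (fun he => by have := T.pf.inj l i le_rfl hil.le he; omega)
    (fun he => by rcases T.fg l j le_rfl hjm.le he with h1 | h1 <;> omega)
    hQ p1 p2 p3 p4 ?_ ?_ ?_ ?_ ?_ ?_ ?_ ?_ ?_ ?_
  · refine key.mono ?_
    intro x hx
    simp only [mem_union] at hx
    rcases hx with (hx | hx | hx) | hx | hx
    · exact hQY hx
    · obtain ⟨k, h1, h2, rfl⟩ := te2_mem.1 hx
      refine hY _ (mf k (by omega)) (fun k' h3 h4 he => ?_)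
      rcases T.fh k k' (by omega) (by omega) he with h5 | h5 <;> omega
    · obtain ⟨k, h1, h2, rfl⟩ := te2_mem.1 hx
      refine hY _ (mg k (by omega)) (fun k' h3 h4 he => ?_)
      rcases T.gh k k' (by omega) (by omega) he with h5 | h5 <;> omega
    · obtain ⟨k, h1, h2, rfl⟩ := te2_mem.1 hx
      refine hY _ (mf k h2) (fun k' h3 h4 he => ?_)
      rcases T.fh k k' h2 (by omega) he with h5 | h5 <;> omega
    · obtain ⟨k, h1, h2, rfl⟩ := te2_mem.1 hx
      refine hY _ (mg k h2) (fun k' h3 h4 he => ?_)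
      rcases T.gh k k' h2 (by omega) he with h5 | h5 <;> omega
  · intro x hx1 hx2
    obtain ⟨k, h1, h2, rfl⟩ := te2_mem.1 hx1
    obtain ⟨k', h3, h4, he⟩ := te2_mem.1 hx2
    rcases T.fg k k' (by omega) (by omega) he.symm with h5 | h5
    · rw [h5.1]
    · omega
  · intro x hx1 hx2
    obtain ⟨k, h1, h2, rfl⟩ := te2_mem.1 hx1
    obtain ⟨k', h3, h4, he⟩ := te2_mem.1 hx2
    rcases T.fg k k' h2 h4 he.symm with h5 | h5
    · omega
    · rw [h5.1]
  · intro x hx1 hx2
    obtain ⟨k, h1, h2, rfl⟩ := te2_mem.1 hx2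
    rcases hd _ hx1 (mf k (by omega)) with h3 | h3
    · exact h3
    · rcases T.fg k j (by omega) hjm.le h3 with h5 | h5 <;> omega
  · intro x hx1 hx2
    obtain ⟨k, h1, h2, rfl⟩ := te2_mem.1 hx2
    rcases hd _ hx1 (mg k (by omega)) with h3 | h3
    · rcases T.fg i k hil.le (by omega) h3.symm with h5 | h5 <;> omega
    · exact h3
  · intro x hx1 hx2
    obtain ⟨k, h1, h2, rfl⟩ := te2_mem.1 hx2
    rcases hd _ hx1 (mf k h2) with h3 | h3
    · exact h3
    · rcases T.fg k j h2 hjm.le h3 with h5 | h5 <;> omega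
  · intro x hx1 hx2
    obtain ⟨k, h1, h2, rfl⟩ := te2_mem.1 hx2
    rcases hd _ hx1 (mg k h2) with h3 | h3
    · rcases T.fg i k hil.le h2 h3.symm with h5 | h5 <;> omega
    · exact h3
  · intro x hx1 hx2
    obtain ⟨k, h1, h2, rfl⟩ := te2_mem.1 hx1
    obtain ⟨k', h3, h4, he⟩ := te2_mem.1 hx2
    have := T.pf.inj k' k h4 (by omega) he
    have : k = i := by omega
    rw [this]
  · intro x hx1 hx2
    obtain ⟨k, h1, h2, rfl⟩ := te2_mem.1 hx1
    obtain ⟨k', h3, h4, he⟩ := te2_mem.1 hx2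
    have := T.pg.inj k' k h4 (by omega) he
    have : k = j := by omega
    rw [this]
  · intro x hx1 hx2
    obtain ⟨k, h1, h2, rfl⟩ := te2_mem.1 hx1
    obtain ⟨k', h3, h4, he⟩ := te2_mem.1 hx2
    rcases T.fg k k' (by omega) h4 he.symm with h5 | h5 <;> omega
  · intro x hx1 hx2
    obtain ⟨k, h1, h2, rfl⟩ := te2_mem.1 hx1
    obtain ⟨k', h3, h4, he⟩ := te2_mem.1 hx2
    rcases T.fg k' k h4 (by omega) he with h5 | h5 <;> omega

end Pool.Agent.Lib.MP_f599e5_co
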