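import Pool.Agent.Lib.MP_f599e5_co.TMax

set_option autoImplicit false
set_option linter.unusedSectionVars false

/-! # TEar: existence of an ear

JOB TEar.  `R = bd G B D`, `U = B \ D`, `F = thV f g h l m n ⊆ U`, `x = f k` interior, `x ∉ R`, `x ≠ c`.  Let `i0` be the largest index `< k` with `i0 = 0` or `f i0 ∈ R`, and `j0` the smallest index `> k` with
`j0 = l` or `f j0 ∈ R`.  So `f k' ∉ R` for `i0 < k' < j0`.  `I = {f k' : i0 < k' < j0}`, `W = U \ (F \ I)`, `S` the component of `W` containing `x` (`exists_comp`).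
(1) `I ⊆ S`: the path `f` restricted to `(i0, j0)` is connected: `PF.toPL` gives paths inside `I` from `x`, and a component containing `x` contains every vertex joined to `x` by a path in `W` (or: `I` is
    `Conn` by `conn_of_path`; `S` is closed in `W`, and use `IsComp.subset_of_closed`/`Conn`).
(2) `S ∩ R = ∅`: `I ∩ R = ∅`, and `R ⊆ F` (`Ext.R_sub`).  So no vertex of `S` is adjacent to `D`: a vertex `y ∈ S ⊆ B \ D` adjacent to `D` is in `bd G B D`.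
(3) `bd G B S ⊆ F \ I`: `w ∈ B`, `w ∉ S` adjacent to `y ∈ S`: `w ∉ D` by (2), so `w ∈ U`; if `w ∈ W` then `w ∈ bd G W S = ∅`; so `w ∈ F \ I`.
(4) If `bd G B S ⊆ {f i0, f j0}` then `hs {f i0, f j0} S` (`S ⊆ B \ {f i0, f j0}`: `f i0 ∈ F \ I` by injectivity) gives `B \ (S ∪ {f i0, f j0}) ⊆ {c}`, but `D` is contained in it
    (`D` is disjoint from `U`) and has a vertex `≠ c`: contradiction.  So there is `b ∈ bd G B S` with `b ≠ f i0, f j0`, `b ∈ F \ I`; hence `b ≠ f k'` for `i0 ≤ k' ≤ j0`.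
(5) `b ~ y ∈ S`.  `Conn.path_to` in the connected set `S` from `y` to `X = I`: `f i ∈ I` and a path from `y` to `f i` inside `insert (f i) (S \ I)`.  Add `b` (`PL.cons`, `b ∉ S`): a path from `b` to `f i` inside
    `Q = insert b (insert (f i) (S \ I))`, reversed.  A vertex of `Q` in `F` is `b` or `f i`, because `S \ I ⊆ U \ F`.  `Q ⊆ U`. -/

namespace Pool.Agent.Lib.MP_f599e5_co

open Finset

variable {V : Type} [DecidableEq V] {G : SimpleGraph V}

private theorem tear_range {P : ℕ → Prop} {k l : ℕ} (hk0 : 0 < k) (hkl : k < l) :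
    ∃ i0 j0, i0 < k ∧ k < j0 ∧ j0 ≤ l ∧ (i0 = 0 ∨ P i0) ∧ (j0 = l ∨ P j0) ∧
      ∀ k', i0 < k' → k' < j0 → k' ≠ k → ¬ P k' := by
  classical
  have h0 : (0 : ℕ) = 0 ∨ P 0 := Or.inl rfl
  have hj : ∃ j, k < j ∧ (j = l ∨ P j) := ⟨l, hkl, Or.inl rfl⟩
  refine ⟨Nat.findGreatest (fun i => i = 0 ∨ P i) (k - 1), Nat.find hj, ?_, (Nat.find_spec hj).1,
    Nat.find_min' hj ⟨hkl, Or.inl rfl⟩,
    Nat.findGreatest_spec (P := fun i => i = 0 ∨ P i) (Nat.zero_le _) h0,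
    (Nat.find_spec hj).2, ?_⟩
  · have := Nat.findGreatest_le (P := fun i => i = 0 ∨ P i) (k - 1)
    omega
  · intro k' h1 h2 h3 h4
    rcases Nat.lt_or_gt_of_ne h3 with h5 | h5
    · exact Nat.findGreatest_is_greatest h1 (by omega) (Or.inr h4)
    · exact Nat.find_min hj h2 ⟨h5, Or.inr h4⟩

theorem Ext.ear {B D : Finset V} {c : V} (hs : Sep G B c 2) (hE : Ext G B D c) {f g h : ℕ → V}
    {l m n : ℕ} (T : Th3 G f g h l m n) (hT : thV f g h l m n ⊆ B \ D) {k : ℕ} (hk0 : 0 < k)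
    (hkl : k < l) (hkR : f k ∉ bd G B D) (hkc : f k ≠ c) :
    ∃ (i0 i j0 : ℕ) (b : V) (q : ℕ) (Q : Finset V), i0 < i ∧ i < j0 ∧ j0 ≤ l ∧
      (i0 = 0 ∨ f i0 ∈ bd G B D) ∧ (j0 = l ∨ f j0 ∈ bd G B D) ∧
      (∀ k', i0 < k' → k' < j0 → f k' ∉ bd G B D) ∧ b ∈ thV f g h l m n ∧
      (∀ k', i0 ≤ k' → k' ≤ j0 → b ≠ f k') ∧ PL G Q (f i) b q ∧ Q ⊆ B \ D ∧
      (∀ x ∈ Q, x ∈ thV f g h l m n → x = f i ∨ x = b) := by
  obtain ⟨i0, j0, hi0k, hkj0, hj0l, hi0, hj0, hmid⟩ :=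
    tear_range (P := fun i => f i ∈ bd G B D) hk0 hkl
  have hnR : ∀ k', i0 < k' → k' < j0 → f k' ∉ bd G B D := by
    intro k' h1 h2
    by_cases h3 : k' = k
    · rw [h3]
      exact hkR
    · exact hmid k' h1 h2 h3
  have hfF : ∀ k', k' ≤ l → f k' ∈ thV f g h l m n := fun k' hk' =>
    mem_thV.2 (Or.inl ⟨k', hk', rfl⟩)
  obtain ⟨F, hF⟩ : ∃ F, F = thV f g h l m n := ⟨_, rfl⟩
  obtain ⟨I, hI⟩ : ∃ I : Finset V, I = (Ioo i0 j0).image f := ⟨_, rfl⟩
  have hmemI : ∀ x, x ∈ I ↔ ∃ k', i0 < k' ∧ k' < j0 ∧ f k' = x := by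
    intro x
    rw [hI, mem_image]
    constructor
    · rintro ⟨k', h1, h2⟩
      rw [mem_Ioo] at h1
      exact ⟨k', h1.1, h1.2, h2⟩
    · rintro ⟨k', h1, h2, h3⟩
      exact ⟨k', mem_Ioo.2 ⟨h1, h2⟩, h3⟩
  have hRF : bd G B D ⊆ F := by
    rw [hF]
    exact Ext.R_sub hE T hT
  rw [← hF] at hT hfF ⊢
  obtain ⟨W, hW⟩ : ∃ W, W = (B \ D) \ (F \ I) := ⟨_, rfl⟩
  have hmemW : ∀ x, x ∈ W ↔ (x ∈ B ∧ x ∉ D) ∧ ¬ (x ∈ F ∧ x ∉ I) := by
    intro x
    rw [hW, mem_sdiff, mem_sdiff, mem_sdiff]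
  have hfW : ∀ k', i0 < k' → k' < j0 → f k' ∈ W := by
    intro k' h1 h2
    rw [hmemW]
    refine ⟨mem_sdiff.1 (hT (hfF k' (by omega))), fun h3 => h3.2 ?_⟩
    exact (hmemI _).2 ⟨k', h1, h2, rfl⟩
  obtain ⟨S, hkS, hSW, hSbd, hSc⟩ := exists_comp (G := G) (hfW k hi0k hkj0)
  have hclosed : ∀ x ∈ S, ∀ y ∈ W, G.Adj x y → y ∈ S := by
    intro x hx y hy ha
    by_contra hcon
    have h1 : y ∈ bd G W S := mem_bd.2 ⟨hy, hcon, x, hx, ha⟩
    rw [hSbd] at h1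
    exact absurd h1 (notMem_empty _)
  have hup : ∀ t, k + t < j0 → f (k + t) ∈ S := by
    intro t
    induction t with
    | zero =>
      intro _
      exact hkS
    | succ t ih =>
      intro ht
      exact hclosed _ (ih (by omega)) _ (hfW _ (by omega) ht) (T.pf.adj (k + t) (by omega))
  have hdown : ∀ t, t ≤ k → i0 < k - t → f (k - t) ∈ S := by
    intro t
    induction t with
    | zero =>
      intro _ _
      exact hkS
    | succ t ih =>
      intro ht1 ht2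
      have h1 := T.pf.adj (k - (t + 1)) (by omega)
      have h2 : k - (t + 1) + 1 = k - t := by omega
      rw [h2] at h1
      exact hclosed _ (ih (by omega) (by omega)) _ (hfW _ ht2 (by omega)) h1.symm
  have hIS : I ⊆ S := by
    intro x hx
    obtain ⟨k', h1, h2, rfl⟩ := (hmemI x).1 hx
    rcases Nat.lt_or_ge k' k with h3 | h3
    · have h4 := hdown (k - k') (by omega) (by omega)
      have h5 : k - (k - k') = k' := by omega
      rwa [h5] at h4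
    · have h4 := hup (k' - k) (by omega)
      have h5 : k + (k' - k) = k' := by omega
      rwa [h5] at h4
  have hSR : ∀ y ∈ S, y ∉ bd G B D := by
    intro y hy hyR
    have h1 := (hmemW y).1 (hSW hy)
    by_cases hyI : y ∈ I
    · obtain ⟨k', h2, h3, rfl⟩ := (hmemI y).1 hyI
      exact hnR k' h2 h3 hyR
    · exact h1.2 ⟨hRF hyR, hyI⟩
  have hSD : ∀ y ∈ S, ∀ x ∈ D, ¬ G.Adj x y := by
    intro y hy x hx ha
    have h1 := (hmemW y).1 (hSW hy)
    exact hSR y hy (mem_bd.2 ⟨h1.1.1, h1.1.2, x, hx, ha⟩)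
  have hbdF : ∀ w ∈ bd G B S, w ∈ F ∧ w ∉ I := by
    intro w hw
    obtain ⟨hwB, hwS, y, hy, ha⟩ := mem_bd.1 hw
    have hwD : w ∉ D := fun hwD => hSD y hy w hwD ha.symm
    by_contra hcon
    exact hwS (hclosed y hy w ((hmemW w).2 ⟨⟨hwB, hwD⟩, hcon⟩) ha)
  have hendS : ∀ k', k' ≤ l → (k' ≤ i0 ∨ j0 ≤ k') → f k' ∉ S := by
    intro k' h1 h2 h3
    refine ((hmemW _).1 (hSW h3)).2 ⟨hfF k' h1, fun h4 => ?_⟩
    obtain ⟨k'', h5, h6, h7⟩ := (hmemI _).1 h4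
    have h8 := T.pf.inj k'' k' (by omega) h1 h7
    omega
  obtain ⟨b, hb, hbi, hbj⟩ : ∃ b ∈ bd G B S, b ≠ f i0 ∧ b ≠ f j0 := by
    by_contra hno
    push Not at hno
    have hsub : bd G B S ⊆ {f i0, f j0} := by
      intro w hw
      rw [mem_insert, mem_singleton]
      by_cases h1 : w = f i0
      · exact Or.inl h1
      · exact Or.inr (hno w hw h1)
    have hSsub : S ⊆ B \ {f i0, f j0} := by
      intro x hx
      refine mem_sdiff.2 ⟨((hmemW x).1 (hSW hx)).1.1, fun h1 => ?_⟩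
      rw [mem_insert, mem_singleton] at h1
      rcases h1 with h1 | h1
      · rw [h1] at hx
        exact hendS i0 (by omega) (Or.inl le_rfl) hx
      · rw [h1] at hx
        exact hendS j0 hj0l (Or.inr le_rfl) hx
    have h2 := hs {f i0, f j0} S card_le_two hSsub ⟨f k, hkS, hkc⟩ hsub
    obtain ⟨v, hvD, hvc⟩ := hE.dc
    have hvS : v ∉ S := fun h3 => ((hmemW v).1 (hSW h3)).1.2 hvD
    have hvf : ∀ k', k' ≤ l → v ≠ f k' := by
      intro k' h3 h4
      rw [h4] at hvD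
      exact (mem_sdiff.1 (hT (hfF k' h3))).2 hvD
    have h3 : v ∈ B \ (S ∪ {f i0, f j0}) := by
      refine mem_sdiff.2 ⟨hE.DB hvD, fun h4 => ?_⟩
      rw [mem_union, mem_insert, mem_singleton] at h4
      rcases h4 with h4 | h4 | h4
      · exact hvS h4
      · exact hvf i0 (by omega) h4
      · exact hvf j0 hj0l h4
    exact hvc (mem_singleton.1 (h2 h3))
  obtain ⟨hbF, hbI⟩ := hbdF b hb
  obtain ⟨-, hbS, y, hyS, hyb⟩ := mem_bd.1 hb
  obtain ⟨w, hwI, hwS, q, hq⟩ := Conn.path_to (G := G) (X := I) hSc hyS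
    ⟨f k, mem_inter.2 ⟨hkS, (hmemI _).2 ⟨k, hi0k, hkj0, rfl⟩⟩⟩
  obtain ⟨i, hi1, hi2, rfl⟩ := (hmemI w).1 hwI
  have hbw : b ∉ insert (f i) (S \ I) := by
    intro h1
    rcases mem_insert.1 h1 with h2 | h2
    · exact hbI (h2 ▸ hwI)
    · exact hbS (mem_sdiff.1 h2).1
  refine ⟨i0, i, j0, b, q + 1, insert b (insert (f i) (S \ I)), hi1, hi2, hj0l, hi0, hj0, hnR,
    hbF, ?_, hq.symm.snoc hyb hbw, ?_, ?_⟩
  · intro k' h1 h2 h3
    rcases Nat.lt_or_ge i0 k' with h4 | h4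
    · rcases Nat.lt_or_ge k' j0 with h5 | h5
      · exact hbI ((hmemI b).2 ⟨k', h4, h5, h3.symm⟩)
      · have h6 : k' = j0 := by omega
        rw [h6] at h3
        exact hbj h3
    · have h6 : k' = i0 := by omega
      rw [h6] at h3
      exact hbi h3
  · intro x hx
    rcases mem_insert.1 hx with h1 | h1
    · rw [h1]
      exact hT hbF
    · rcases mem_insert.1 h1 with h2 | h2
      · rw [h2]
        exact mem_sdiff.2 ((hmemW _).1 (hSW hwS)).1
      · exact mem_sdiff.2 ((hmemW _).1 (hSW (mem_sdiff.1 h2).1)).1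
  · intro x hx hxF
    rcases mem_insert.1 hx with h1 | h1
    · exact Or.inr h1
    · rcases mem_insert.1 h1 with h2 | h2
      · exact Or.inl h2
      · exact absurd ⟨hxF, (mem_sdiff.1 h2).2⟩ ((hmemW x).1 (hSW (mem_sdiff.1 h2).1)).2

end Pool.Agent.Lib.MP_f599e5_co
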