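import Pool.Agent.Lib.MP_f599e5_co.TEar
import Pool.Agent.Lib.MP_f599e5_co.TE1
import Pool.Agent.Lib.MP_f599e5_co.TE3
import Pool.Agent.Lib.MP_f599e5_co.TCyc

set_option autoImplicit false
set_option linter.unusedSectionVars false

/-! # TL: the main lemma

JOB TL.  `R = bd G B D`, `U = B \ D`.
* `Ext.L_cross`: the ear goes from `f i` to an interior vertex `g j` of the second path, `f i ∉ R`.  By `th_cross` (with `X = U`) and `hE.kill` every `r ∈ R` is one of `f 0, f l, f i, g j`, and it is not `f i`.  So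
  `R ⊆ {f 0, f l, g j}`; since `3 ≤ R.card` (`Ext.card_bd`) we have `R = {f 0, f l, g j}` (`Finset.eq_of_subset_of_card_le`), so `f 0, f l ∈ R`, `R.card ≤ 3`.  `a = f i`, `b = g j`: `thB_cross_ab` with `Y = U`.
* `Ext.L`: take the ear of `Ext.ear`: `i0 < i < j0`, `b`.
  (1) `b = f j` for some `j ≤ l`.  Then `j < i0` or `j > j0`.  If `j < i0`: `i0 ≠ 0`, so `r := f i0 ∈ R`; `th_ear_same` with the indices `j < i` (`i ≤ l`, `i < l` gives `hend`), `Q` reversed, `X = U.erase r`: `Q` does not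
      contain `r` (`r` is in the theta and different from `f i` and `b = f j` by injectivity), and a vertex of the theta which is not an `f k'` with `j < k' < i` is different from `r = f i0`.  Contradiction with `hE.kill r`.  If
      `j > j0`: the same with `r = f j0` and the indices `i < j`, `hend` from `0 < i`.
  (2) `b = g j`, `j ≤ m`: `j = 0` or `j = m` would give `b = f 0` or `b = f l`: case (1).  Otherwise `L_cross`.
  (3) `b = h j`: the same for `T.swap23` (`thV_swap23`). -/

namespace Pool.Agent.Lib.MP_f599e5_co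

open Finset

variable {V : Type} [DecidableEq V] {G : SimpleGraph V}

theorem Ext.L_cross {B D : Finset V} {c : V} (hs : Sep G B c 2) (hE : Ext G B D c)
    {f g h : ℕ → V} {l m n : ℕ} (T : Th3 G f g h l m n) (hT : thV f g h l m n ⊆ B \ D)
    {i j q : ℕ} {Q : Finset V} (hi0 : 0 < i) (hil : i < l) (hj0 : 0 < j) (hjm : j < m)
    (hQ : PL G Q (f i) (g j) q) (hQU : Q ⊆ B \ D)
    (hd : ∀ x ∈ Q, x ∈ thV f g h l m n → x = f i ∨ x = g j) (hiR : f i ∉ bd G B D) :
    f 0 ∈ bd G B D ∧ f l ∈ bd G B D ∧ (bd G B D).card ≤ 3 ∧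
      ∃ a b, a ∉ bd G B D ∧ IsThB G (B \ D) a b := by
  have hRsub : bd G B D ⊆ {f 0, f l, g j} := by
    intro r hr
    by_contra hn
    simp only [mem_insert, mem_singleton, not_or] at hn
    have hne : r ≠ f i := fun h => hiR (h ▸ hr)
    exact hE.kill r hr (th_cross T hi0 hil hj0 hjm hQ hd hT hQU hn.1 hn.2.1 hne hn.2.2)
  have h3 := Ext.card_bd hs hE
  have hcard : ({f 0, f l, g j} : Finset V).card ≤ 3 := card_le_three
  have heq : bd G B D = {f 0, f l, g j} := eq_of_subset_of_card_le hRsub (by omega)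
  refine ⟨?_, ?_, ?_, f i, g j, hiR, ?_⟩
  · rw [heq]; simp
  · rw [heq]; simp
  · rw [heq]; exact hcard
  · exact thB_cross_ab T hi0 hil hj0 hjm hQ hd (Y := B \ D) (fun x hx _ => hT hx) hQU

/-- an ear of the first path which skips a vertex of the boundary is impossible -/
theorem TL_same {B D : Finset V} {c : V} (hE : Ext G B D c) {f g h : ℕ → V}
    {l m n : ℕ} (T : Th3 G f g h l m n) (hT : thV f g h l m n ⊆ B \ D) {i0 i j0 : ℕ} {b : V} {q : ℕ}
    {Q : Finset V} (h0i : i0 < i) (hij : i < j0) (hjl : j0 ≤ l)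
    (hi0 : i0 = 0 ∨ f i0 ∈ bd G B D) (hj0 : j0 = l ∨ f j0 ∈ bd G B D)
    (hbne : ∀ k', i0 ≤ k' → k' ≤ j0 → b ≠ f k') (hQ : PL G Q (f i) b q) (hQU : Q ⊆ B \ D)
    (hd : ∀ x ∈ Q, x ∈ thV f g h l m n → x = f i ∨ x = b) {j : ℕ} (hj : j ≤ l) (hbj : b = f j) :
    False := by
  have hmem : ∀ k', k' ≤ l → f k' ∈ thV f g h l m n := fun k' hk' => mem_thV.2 (Or.inl ⟨k', hk', rfl⟩)
  have hcase : j < i0 ∨ j0 < j := by
    by_contra hn
    rw [not_or, not_lt, not_lt] at hn
    exact hbne j hn.1 hn.2 hbj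
  rw [hbj] at hQ hd
  rcases hcase with hc | hc
  · have hr : f i0 ∈ bd G B D := by
      rcases hi0 with h | h
      · omega
      · exact h
    refine hE.kill (f i0) hr (th_ear_same T (i := j) (j := i) (by omega) (by omega)
      (Or.inr (by omega)) hQ.symm (fun x hx hxT => (hd x hx hxT).symm) ?_ ?_)
    · intro x hx hk
      rw [mem_erase]
      exact ⟨hk i0 hc h0i, hT hx⟩
    · intro x hx
      rw [mem_erase]
      refine ⟨?_, hQU hx⟩
      rintro rfl
      rcases hd _ hx (hmem i0 (by omega)) with he | he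
      · have := T.pf.inj i0 i (by omega) (by omega) he
        omega
      · have := T.pf.inj i0 j (by omega) (by omega) he
        omega
  · have hr : f j0 ∈ bd G B D := by
      rcases hj0 with h | h
      · omega
      · exact h
    refine hE.kill (f j0) hr (th_ear_same T (i := i) (j := j) (by omega) hj
      (Or.inl (by omega)) hQ hd ?_ ?_)
    · intro x hx hk
      rw [mem_erase]
      exact ⟨hk j0 hij hc, hT hx⟩
    · intro x hx
      rw [mem_erase]
      refine ⟨?_, hQU hx⟩
      rintro rfl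
      rcases hd _ hx (hmem j0 (by omega)) with he | he
      · have := T.pf.inj j0 i (by omega) (by omega) he
        omega
      · have := T.pf.inj j0 j (by omega) (by omega) he
        omega

theorem Ext.L {B D : Finset V} {c : V} (hs : Sep G B c 2) (hE : Ext G B D c) {f g h : ℕ → V}
    {l m n : ℕ} (T : Th3 G f g h l m n) (hT : thV f g h l m n ⊆ B \ D) {k : ℕ} (hk0 : 0 < k)
    (hkl : k < l) (hkR : f k ∉ bd G B D) (hkc : f k ≠ c) :
    f 0 ∈ bd G B D ∧ f l ∈ bd G B D ∧ (bd G B D).card ≤ 3 ∧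
      ∃ a b, a ∉ bd G B D ∧ IsThB G (B \ D) a b := by
  obtain ⟨i0, i, j0, b, q, Q, h0i, hij, hjl, hi0, hj0, hmid, hb, hbne, hQ, hQU, hd⟩ :=
    Ext.ear hs hE T hT hk0 hkl hkR hkc
  have hiR : f i ∉ bd G B D := hmid i h0i hij
  have hsame : ∀ j, j ≤ l → b = f j → False := fun j hj hbj =>
    TL_same hE T hT h0i hij hjl hi0 hj0 hbne hQ hQU hd hj hbj
  rcases mem_thV.1 hb with ⟨j, hj, hbj⟩ | ⟨j, hj, hbj⟩ | ⟨j, hj, hbj⟩
  · exact (hsame j hj hbj.symm).elim
  · have hj0' : j ≠ 0 := by
      rintro rfl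
      exact hsame 0 (Nat.zero_le _) (hbj.symm.trans T.g0)
    have hjm' : j ≠ m := by
      rintro rfl
      exact hsame l le_rfl (hbj.symm.trans T.gm)
    rw [← hbj] at hQ hd
    exact Ext.L_cross hs hE T hT (by omega) (by omega) (by omega) (by omega) hQ hQU hd hiR
  · have hj0' : j ≠ 0 := by
      rintro rfl
      exact hsame 0 (Nat.zero_le _) (hbj.symm.trans T.h0)
    have hjm' : j ≠ n := by
      rintro rfl
      exact hsame l le_rfl (hbj.symm.trans T.hn)
    rw [← hbj] at hQ hd
    rw [← thV_swap23] at hT hd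
    exact Ext.L_cross hs hE T.swap23 hT (by omega) (by omega) (by omega) (by omega) hQ hQU hd hiR

end Pool.Agent.Lib.MP_f599e5_co
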