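import Pool.Agent.Lib.MP_f599e5_co.TDef

set_option autoImplicit false
set_option linter.unusedSectionVars false

/-! # TMax: the maximal connected set whose complement contains a theta

JOB TMax.
* `exists_ext`: the family of the sets `D ⊆ B` with `Conn G D`, `∃ v ∈ D, v ≠ c`, `IsTh G (B \ D)` is finite and nonempty (`{v}`: `conn_singleton`, `B \ {v} = B.erase v`).  Take a member `D` of
  maximum cardinality (`Finset.exists_max_image` on `B.powerset.filter …`, classical).  `kill`: if `r ∈ bd G B D` and `IsTh G ((B \ D).erase r)` then `insert r D` is a larger member: it is connected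
  (`Conn.insert`, `r` is adjacent to `D`), contained in `B`, and `B \ insert r D = (B \ D).erase r`.
* `Ext.card_bd`: `R = bd G B D`.  If `R.card ≤ 2` then `hs R D` (`D ⊆ B \ R`) gives `B \ (D ∪ R) ⊆ {c}`, so `B \ D ⊆ insert c R` has at most 3 elements; but it contains a theta, which has at least 4 vertices:
  `f 0 ≠ f l` and at least two of the three paths have length `≥ 2` (`lm, ln, mn`), so there are two distinct interior vertices (`f 1 ≠ g 1` etc.).
* `Ext.R_sub`: if `T` is a theta in `B \ D` and `r ∈ bd G B D` then `r` is a vertex of `T` (otherwise `T` is in `(B \ D).erase r`). -/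

namespace Pool.Agent.Lib.MP_f599e5_co

open Finset

variable {V : Type} [DecidableEq V] {G : SimpleGraph V}

/-- `D` is a maximal connected subset of `B`, not contained in `{c}`, whose complement contains a theta -/
structure Ext (G : SimpleGraph V) (B D : Finset V) (c : V) : Prop where
  DB : D ⊆ B
  con : Conn G D
  dc : ∃ v ∈ D, v ≠ c
  th : IsTh G (B \ D)
  kill : ∀ r ∈ bd G B D, ¬ IsTh G ((B \ D).erase r)

private theorem tmax_card4 {a b c d : V} {S : Finset V} (ha : a ∈ S) (hb : b ∈ S) (hc : c ∈ S)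
    (hd : d ∈ S) (hab : a ≠ b) (hac : a ≠ c) (had : a ≠ d) (hbc : b ≠ c) (hbd : b ≠ d)
    (hcd : c ≠ d) : 4 ≤ S.card := by
  have h1 : ({a, b, c, d} : Finset V) ⊆ S := by
    intro x hx
    simp only [mem_insert, mem_singleton] at hx
    rcases hx with rfl | rfl | rfl | rfl <;> assumption
  have h2 : ({a, b, c, d} : Finset V).card = 4 := by
    rw [card_insert_of_notMem, card_insert_of_notMem, card_pair hcd]
    · simp [hbc, hbd]
    · simp [hab, hac, had]
  calc 4 = ({a, b, c, d} : Finset V).card := h2.symm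
    _ ≤ S.card := card_le_card h1

private theorem tmax_lm {f g h : ℕ → V} {l m n : ℕ} (T : Th3 G f g h l m n) (hl : 2 ≤ l)
    (hm : 2 ≤ m) : 4 ≤ (thV f g h l m n).card := by
  refine tmax_card4 (a := f 0) (b := f l) (c := f 1) (d := g 1) ?_ ?_ ?_ ?_ ?_ ?_ ?_ ?_ ?_ ?_
  · exact mem_thV.2 (Or.inl ⟨0, by omega, rfl⟩)
  · exact mem_thV.2 (Or.inl ⟨l, by omega, rfl⟩)
  · exact mem_thV.2 (Or.inl ⟨1, by omega, rfl⟩)
  · exact mem_thV.2 (Or.inr (Or.inl ⟨1, by omega, rfl⟩))
  · intro he; have := T.pf.inj 0 l (by omega) (by omega) he; omega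
  · intro he; have := T.pf.inj 0 1 (by omega) (by omega) he; omega
  · intro he; have := T.fg 0 1 (by omega) (by omega) he; omega
  · intro he; have := T.pf.inj l 1 (by omega) (by omega) he; omega
  · intro he; have := T.fg l 1 (by omega) (by omega) he; omega
  · intro he; have := T.fg 1 1 (by omega) (by omega) he; omega

private theorem tmax_card {f g h : ℕ → V} {l m n : ℕ} (T : Th3 G f g h l m n) :
    4 ≤ (thV f g h l m n).card := by
  have hlm := T.lm
  have hln := T.ln
  have hmn := T.mn
  rcases Nat.lt_or_ge l 2 with hl | hl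
  · have h1 := tmax_lm T.swap12.swap23.swap12 (by omega) (by omega)
    rw [thV_swap12, thV_swap23, thV_swap12] at h1
    exact h1
  · rcases Nat.lt_or_ge m 2 with hm | hm
    · have h1 := tmax_lm T.swap23 (by omega) (by omega)
      rwa [thV_swap23] at h1
    · exact tmax_lm T hl hm

open Classical in
theorem exists_ext {B : Finset V} {c : V} (h : ∃ v ∈ B, v ≠ c ∧ IsTh G (B.erase v)) :
    ∃ D, Ext G B D c := by
  obtain ⟨v, hvB, hvc, hth⟩ := h
  let F : Finset (Finset V) := B.powerset.filter
    (fun D => Conn G D ∧ (∃ v ∈ D, v ≠ c) ∧ IsTh G (B \ D))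
  have hF : F.Nonempty := by
    refine ⟨{v}, ?_⟩
    simp only [F, mem_filter, mem_powerset, singleton_subset_iff]
    refine ⟨hvB, conn_singleton v, ⟨v, mem_singleton_self v, hvc⟩, ?_⟩
    rw [sdiff_singleton_eq_erase]
    exact hth
  obtain ⟨D, hD, hmax⟩ := F.exists_max_image card hF
  simp only [F, mem_filter, mem_powerset] at hD
  obtain ⟨hDB, hcon, hdc, hthD⟩ := hD
  refine ⟨D, hDB, hcon, hdc, hthD, ?_⟩
  intro r hr hcon'
  obtain ⟨hrB, hrD, x, hx, hxr⟩ := mem_bd.1 hr
  have h1 : insert r D ∈ F := by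
    simp only [F, mem_filter, mem_powerset]
    refine ⟨insert_subset hrB hDB, hcon.insert ⟨x, hx, hxr⟩, ?_, ?_⟩
    · obtain ⟨y, hy, hyc⟩ := hdc
      exact ⟨y, mem_insert_of_mem hy, hyc⟩
    · have : B \ insert r D = (B \ D).erase r := by
        ext y
        simp only [mem_sdiff, mem_insert, mem_erase]
        tauto
      rw [this]
      exact hcon'
  have h2 := hmax _ h1
  rw [card_insert_of_notMem hrD] at h2
  omega

theorem Ext.card_bd {B D : Finset V} {c : V} (hs : Sep G B c 2) (hE : Ext G B D c) :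
    3 ≤ (bd G B D).card := by
  by_contra hlt
  have h1 := hs (bd G B D) D (by omega) (by
    intro x hx
    rw [mem_sdiff]
    exact ⟨hE.DB hx, fun hc => (mem_bd.1 hc).2.1 hx⟩) hE.dc Subset.rfl
  obtain ⟨s, t, f, g, h, l, m, n, T, -, -, hT⟩ := hE.th
  have h4 := tmax_card T
  have h2 : B \ D ⊆ insert c (bd G B D) := by
    intro x hx
    rw [mem_sdiff] at hx
    by_cases hxb : x ∈ bd G B D
    · exact mem_insert_of_mem hxb
    · have : x ∈ B \ (D ∪ bd G B D) := by
        rw [mem_sdiff, mem_union]
        tauto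
      have := h1 this
      rw [mem_singleton] at this
      rw [this]
      exact mem_insert_self _ _
  have h3 := card_le_card (hT.trans h2)
  have h5 := card_insert_le c (bd G B D)
  omega

theorem Ext.R_sub {B D : Finset V} {c : V} (hE : Ext G B D c) {f g h : ℕ → V} {l m n : ℕ}
    (T : Th3 G f g h l m n) (hT : thV f g h l m n ⊆ B \ D) : bd G B D ⊆ thV f g h l m n := by
  intro r hr
  by_contra hrT
  refine hE.kill r hr ⟨_, _, T.isThB ?_⟩
  intro x hx
  rw [mem_erase]
  refine ⟨?_, hT hx⟩
  rintro rfl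
  exact hrT hx

end Pool.Agent.Lib.MP_f599e5_co
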