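import Pool.Agent.Lib.MP_f599e5_co.TDef

set_option autoImplicit false
set_option linter.unusedSectionVars false

/-! # TMk: making a theta from three paths, and from five of the six segments of a K4 subdivision

JOB TMk.
* `thB_of_PL`: `PL.toPF` gives functions `f, g, h` with `f i ∈ S1` for `i ≤ l` etc.  If `f i = g j` with `i ≤ l`, `j ≤ m`
  this vertex is in `S1` and `S2`, hence it is `s` or `t`; by injectivity (`PF.inj`) `i = j = 0` or `i = l, j = m`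
  (`f 0 = s = g 0`, `f l = t = g m`).  Lengths are at least 1 because `s ≠ t` (`PL.pos`).
* `thB_of_K4`: the three paths from `s` to `t` are `X`, `A1` followed by `A2`, `B1` followed by `B2` (`PL.trans`, disjointness
  from `hA`, `hB`); their lengths are `n0 ≥ 1`, `n1 + n2 ≥ 2`, `n3 + n4 ≥ 2` (`PL.pos`).  Apply `thB_of_PL`; the pairwise
  intersections follow from the ten hypotheses. -/

namespace Pool.Agent.Lib.MP_f599e5_co

open Finset

variable {V : Type} [DecidableEq V] {G : SimpleGraph V}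

private theorem tmk_key {S1 S2 : Finset V} {s t : V} {l m : ℕ} {f g : ℕ → V} (hst : s ≠ t)
    (pf : PF G f l) (pg : PF G g m) (f0 : f 0 = s) (g0 : g 0 = s) (fl : f l = t) (gm : g m = t)
    (hf : ∀ i, i ≤ l → f i ∈ S1) (hg : ∀ i, i ≤ m → g i ∈ S2)
    (h12 : ∀ x ∈ S1, x ∈ S2 → x = s ∨ x = t) :
    ∀ i j, i ≤ l → j ≤ m → f i = g j → (i = 0 ∧ j = 0) ∨ (i = l ∧ j = m) := by
  intro i j hi hj he
  have _ := hst
  rcases h12 (f i) (hf i hi) (he ▸ hg j hj) with h | h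
  · left
    exact ⟨pf.inj i 0 hi (Nat.zero_le _) (h.trans f0.symm),
      pg.inj j 0 hj (Nat.zero_le _) ((he.symm.trans h).trans g0.symm)⟩
  · right
    exact ⟨pf.inj i l hi le_rfl (h.trans fl.symm),
      pg.inj j m hj le_rfl ((he.symm.trans h).trans gm.symm)⟩

theorem thB_of_PL {S1 S2 S3 : Finset V} {s t : V} {l m n : ℕ} (hst : s ≠ t) (h1 : PL G S1 s t l)
    (h2 : PL G S2 s t m) (h3 : PL G S3 s t n) (h12 : ∀ x ∈ S1, x ∈ S2 → x = s ∨ x = t)
    (h13 : ∀ x ∈ S1, x ∈ S3 → x = s ∨ x = t) (h23 : ∀ x ∈ S2, x ∈ S3 → x = s ∨ x = t)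
    (hlm : 3 ≤ l + m) (hln : 3 ≤ l + n) (hmn : 3 ≤ m + n) : IsThB G (S1 ∪ S2 ∪ S3) s t := by
  have hl1 := h1.pos hst
  have hm1 := h2.pos hst
  have hn1 := h3.pos hst
  obtain ⟨f, pf, f0, fl, hf⟩ := h1.toPF
  obtain ⟨g, pg, g0, gm, hg⟩ := h2.toPF
  obtain ⟨h, ph, h0, hn, hh⟩ := h3.toPF
  refine ⟨f, g, h, l, m, n, ⟨pf, pg, ph, hl1, hm1, hn1, hlm, hln, hmn, g0.trans f0.symm,
    h0.trans f0.symm, gm.trans fl.symm, hn.trans fl.symm, ?_, ?_, ?_⟩, f0, fl, ?_⟩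
  · exact tmk_key hst pf pg f0 g0 fl gm hf hg h12
  · exact tmk_key hst pf ph f0 h0 fl hn hf hh h13
  · exact tmk_key hst pg ph g0 h0 gm hn hg hh h23
  · intro x hx
    rw [mem_thV] at hx
    simp only [mem_union]
    rcases hx with ⟨i, hi, rfl⟩ | ⟨i, hi, rfl⟩ | ⟨i, hi, rfl⟩
    · exact Or.inl (Or.inl (hf i hi))
    · exact Or.inl (Or.inr (hg i hi))
    · exact Or.inr (hh i hi)

/-- five of the six segments of a subdivision of `K4` with branch vertices `s, t, a, b` (the segment between `a` and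
`b` is not used) -/
theorem thB_of_K4 {X A1 A2 B1 B2 : Finset V} {s t a b : V} {n0 n1 n2 n3 n4 : ℕ} (hst : s ≠ t)
    (has : a ≠ s) (hat : a ≠ t) (hbs : b ≠ s) (hbt : b ≠ t)
    (p0 : PL G X s t n0) (p1 : PL G A1 s a n1) (p2 : PL G A2 a t n2) (p3 : PL G B1 s b n3)
    (p4 : PL G B2 b t n4)
    (hA : ∀ x ∈ A1, x ∈ A2 → x = a) (hB : ∀ x ∈ B1, x ∈ B2 → x = b)
    (hXA1 : ∀ x ∈ X, x ∈ A1 → x = s) (hXA2 : ∀ x ∈ X, x ∈ A2 → x = t)
    (hXB1 : ∀ x ∈ X, x ∈ B1 → x = s) (hXB2 : ∀ x ∈ X, x ∈ B2 → x = t)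
    (h11 : ∀ x ∈ A1, x ∈ B1 → x = s) (h22 : ∀ x ∈ A2, x ∈ B2 → x = t)
    (h12 : ∀ x ∈ A1, x ∉ B2) (h21 : ∀ x ∈ A2, x ∉ B1) :
    IsThB G (X ∪ (A1 ∪ A2) ∪ (B1 ∪ B2)) s t := by
  have hn0 := p0.pos hst
  have hn1 := p1.pos has.symm
  have hn2 := p2.pos hat
  have hn3 := p3.pos hbs.symm
  have hn4 := p4.pos hbt
  refine thB_of_PL hst p0 (p1.trans p2 hA) (p3.trans p4 hB) ?_ ?_ ?_ (by omega) (by omega)
    (by omega)
  · intro x hx hx'
    rcases mem_union.1 hx' with h | h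
    · exact Or.inl (hXA1 x hx h)
    · exact Or.inr (hXA2 x hx h)
  · intro x hx hx'
    rcases mem_union.1 hx' with h | h
    · exact Or.inl (hXB1 x hx h)
    · exact Or.inr (hXB2 x hx h)
  · intro x hx hx'
    rcases mem_union.1 hx with h | h
    · rcases mem_union.1 hx' with h' | h'
      · exact Or.inl (h11 x h h')
      · exact absurd h' (h12 x h)
    · rcases mem_union.1 hx' with h' | h'
      · exact absurd h' (h21 x h)
      · exact Or.inr (h22 x h h')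

end Pool.Agent.Lib.MP_f599e5_co
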