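import Pool.Agent.Lib.MP_f599e5_co.TBase

set_option autoImplicit false
set_option linter.unusedSectionVars false

/-! # TSep: separations of order 2 for k = 3

JOB TSep.
* `adm_pair`: `aplus_R0` with `m = 2`, `z = c`, `A = {u}`, `B = {v}`.  `Sys`: `u, v ∉ C0` (they are in the boundary), `u ≠ v`.  The neighbours in `B` of a
  vertex of `C0` are in `C0` or in `{u, v}` (otherwise they would be in `bd G B C0`).
  r1: `C' ⊆ C0` nonempty with `bd G C0 C' = ∅` is `C0` (`hcon.2`), and `C0` is adjacent to `u` and `v` (`hbd`).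
  r2: `C' ⊆ C0` nonempty, `(bd G C0 C').card ≤ 1`, not adjacent to `u`, `v`: then `bd G B C' = bd G C0 C' ⊆ {w}` for some `w ∉ C'` (`w = u` if it is empty), so
  `B.erase w ⊆ C'` by `b3`; one of `u, v` is `≠ w`, it is in `B` and not in `C0`, contradiction.
  Degrees: `3 ≤ (nb G x B).card`, `nb G x B ⊆ nb G x C0 ∪ nb G x {u} ∪ nb G x {v}`, and `(nb G x {u}).card ≤ 1`.
* `sep2_three`: let `S`, `C` be as in `Sep` and suppose there is `e0 ∈ B \ (C ∪ S)`, `e0 ≠ c`; let `v0 ∈ C`, `v0 ≠ c`.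
  `C0`: `v0 ∈ C0`, `IsComp G C C0`, `bd G B C0 ⊆ bd G B C ⊆ S` (`exists_conn_part`).
  `E0`: `e0 ∈ E0`, `IsComp G (B \ (C ∪ S)) E0` (`exists_comp`).  `bd G B E0 ⊆ S`: let `w ∈ B`, `w ∉ E0` be adjacent to `x ∈ E0`; `w` is not in `B \ (C ∪ S)` since
  `bd G (B \ (C ∪ S)) E0 = ∅`; if `w ∈ C` then `x ∈ bd G B C ⊆ S`, contradiction; so `w ∈ S`.
  Claim: `bd G B C0` is not contained in a singleton `{w}` with `w ∉ C0`: otherwise `B.erase w ⊆ C0` by `b3`, so `e0 = w` (as `e0 ∉ C`), hence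
  `bd G B C0 ⊆ S ∩ {e0} = ∅`; but `e0` has 3 neighbours in `B`, all in `B.erase e0 ⊆ C0`, so `e0 ∈ bd G B C0`, contradiction.
  The same for `E0` with `v0` in place of `e0`.
  So `bd G B C0` and `bd G B E0` have at least 2 elements (if one is empty use `w = e0`, resp. `v0`), hence both are equal to `S = {u, v}`, `u ≠ v`.
  `adm_pair` twice: `Adm G 2 C0 {u} {v}`, `Adm G 2 E0 {u} {v}`.  For `i, j ∈ {0,1}` `PL.cycle` gives a cycle of length `(l + i d) + (l' + j d')`: the vertex sets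
  `{u, v} ∪ C0` and `{u, v} ∪ E0` meet only in `u, v` (`C0 ⊆ C`, `E0` disjoint from `C`).  One of the four lengths is divisible by 3 (`d, d' ∈ {1, 2}`). -/

namespace Pool.Agent.Lib.MP_f599e5_co

open Finset

variable {V : Type} [DecidableEq V] {G : SimpleGraph V}

theorem adm_pair {B : Finset V} {c : V} (hB : Blk G 3 B c) {C0 : Finset V} {u v : V} (huv : u ≠ v)
    (hC : C0 ⊆ B) (hcon : Conn G C0) (hbd : bd G B C0 = {u, v}) (hne : ∃ x ∈ C0, x ≠ c) :
    Adm G 2 C0 {u} {v} := by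
  have hu : u ∈ bd G B C0 := by rw [hbd]; simp
  have hv : v ∈ bd G B C0 := by rw [hbd]; simp
  rw [mem_bd] at hu hv
  obtain ⟨huB, huC, xu, hxu, hau⟩ := hu
  obtain ⟨hvB, hvC, xv, hxv, hav⟩ := hv
  have hnbr : ∀ x ∈ C0, ∀ y ∈ B, G.Adj x y → y ∈ C0 ∨ y = u ∨ y = v := by
    intro x hx y hy ha
    by_cases hyC : y ∈ C0
    · exact Or.inl hyC
    · have : y ∈ bd G B C0 := mem_bd.2 ⟨hy, hyC, x, hx, ha⟩
      rw [hbd] at this
      simpa using Or.inr this
  apply aplus_R0 (z := c) (by norm_num)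
  · exact ⟨Finset.disjoint_singleton_right.2 huC, Finset.disjoint_singleton_right.2 hvC,
      Finset.disjoint_singleton_left.2 (by simpa using huv)⟩
  · refine ⟨hcon.1, ?_, ?_⟩
    · intro C hCs hCne hb
      have := hcon.2 C hCs hCne hb
      subst this
      exact ⟨⟨xu, hxu, u, by simp, hau⟩, ⟨xv, hxv, v, by simp, hav⟩⟩
    · intro C hCs hCne hcard
      by_contra hcn
      rw [not_or] at hcn
      have hbd' : bd G B C = bd G C0 C := by
        apply bd_eq_of hCs hC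
        intro x hx y hy ha
        rcases hnbr x (hCs hx) y hy ha with h | h | h
        · exact h
        · exact absurd ⟨x, hx, u, by simp, h ▸ ha⟩ hcn.1
        · exact absurd ⟨x, hx, v, by simp, h ▸ ha⟩ hcn.2
      have huC' : u ∉ C := fun h => huC (hCs h)
      have hvC' : v ∉ C := fun h => hvC (hCs h)
      obtain ⟨w, hwC, hw⟩ : ∃ w, w ∉ C ∧ bd G C0 C ⊆ {w} := by
        rcases (bd G C0 C).eq_empty_or_nonempty with h | ⟨w, hw⟩
        · exact ⟨u, huC', by rw [h]; exact Finset.empty_subset _⟩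
        · refine ⟨w, (mem_bd.1 hw).2.1, fun y hy => ?_⟩
          rw [Finset.mem_singleton]
          exact Finset.card_le_one.1 hcard y hy w hw
      have hb3 := hB.b3 C (hCs.trans hC) hCne w hwC (by rw [hbd']; exact hw)
      by_cases hw1 : w = u
      · subst hw1
        exact hvC' (hb3 (Finset.mem_erase.2 ⟨huv.symm, hvB⟩))
      · exact huC' (hb3 (Finset.mem_erase.2 ⟨fun h => hw1 h.symm, huB⟩))
  · exact hne
  · intro x hx hxc
    have h3 := hB.deg x (hC hx) hxc
    have hsub : nb G x B ⊆ nb G x C0 ∪ (nb G x {u} ∪ nb G x {v}) := by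
      intro y hy
      rw [mem_nb] at hy
      rw [Finset.mem_union, Finset.mem_union, mem_nb, mem_nb, mem_nb]
      rcases hnbr x hx y hy.1 hy.2 with h | h | h
      · exact Or.inl ⟨h, hy.2⟩
      · exact Or.inr (Or.inl ⟨by simpa using h, hy.2⟩)
      · exact Or.inr (Or.inr ⟨by simpa using h, hy.2⟩)
    have hc1 := Finset.card_le_card hsub
    have hc2 := Finset.card_union_le (nb G x C0) (nb G x {u} ∪ nb G x {v})
    have hc3 := Finset.card_union_le (nb G x {u}) (nb G x {v})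
    have hc4 : (nb G x {u}).card ≤ 1 := by
      rw [← Finset.card_singleton u]
      exact Finset.card_le_card fun y hy => (mem_nb.1 hy).1
    have hc5 : (nb G x {v}).card ≤ 1 := by
      rw [← Finset.card_singleton v]
      exact Finset.card_le_card fun y hy => (mem_nb.1 hy).1
    unfold ds
    omega

/-- a connected set whose boundary is contained in `S` with at most two elements, and with another
vertex `e0 ≠ c` outside: the boundary is `S` and `S` has two elements -/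
private theorem tsep_bd {B : Finset V} {c : V} (hB : Blk G 3 B c) {C0 S : Finset V}
    (hC : C0 ⊆ B) (hne : C0.Nonempty) (hS : S.card ≤ 2) (hbd : bd G B C0 ⊆ S) {e0 : V}
    (he : e0 ∈ B) (heC : e0 ∉ C0) (heS : e0 ∉ S) (hec : e0 ≠ c) :
    bd G B C0 = S ∧ S.card = 2 := by
  have claim : ∀ w, w ∉ C0 → ¬ bd G B C0 ⊆ {w} := by
    intro w hw hsub
    have hb3 := hB.b3 C0 hC hne w hw hsub
    have hew : e0 = w := by
      by_contra h
      exact heC (hb3 (Finset.mem_erase.2 ⟨h, he⟩))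
    subst hew
    have h3 := hB.deg e0 he hec
    obtain ⟨y, hy⟩ : (nb G e0 B).Nonempty := Finset.card_pos.1 (by omega)
    rw [mem_nb] at hy
    have hyC : y ∈ C0 := hb3 (Finset.mem_erase.2 ⟨hy.2.ne', hy.1⟩)
    exact heS (hbd (mem_bd.2 ⟨he, heC, y, hyC, hy.2.symm⟩))
  have h2 : 2 ≤ (bd G B C0).card := by
    by_contra hlt
    have hle : (bd G B C0).card ≤ 1 := by omega
    rcases (bd G B C0).eq_empty_or_nonempty with h | ⟨w, hw⟩
    · exact claim e0 heC (by rw [h]; exact Finset.empty_subset _)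
    · refine claim w (mem_bd.1 hw).2.1 fun y hy => ?_
      rw [Finset.mem_singleton]
      exact Finset.card_le_one.1 hle y hy w hw
  have h3 := Finset.card_le_card hbd
  exact ⟨Finset.eq_of_subset_of_card_le hbd (by omega), by omega⟩

theorem sep2_three {B : Finset V} {c : V} (hB : Blk G 3 B c) (hz : ¬ ZC 3 G) : Sep G B c 2 := by
  intro S C hS hC hv hbd
  by_contra hcon
  obtain ⟨v0, hv0, hv0c⟩ := hv
  obtain ⟨e0, he0, he0c⟩ : ∃ e0 ∈ B \ (C ∪ S), e0 ≠ c := by
    by_contra h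
    push Not at h
    exact hcon fun x hx => Finset.mem_singleton.2 (h x hx)
  have he0' := he0
  rw [Finset.mem_sdiff, Finset.mem_union, not_or] at he0'
  obtain ⟨he0B, he0C, he0S⟩ := he0'
  have hCB : C ⊆ B := fun x hx => (Finset.mem_sdiff.1 (hC hx)).1
  have hCS : ∀ x ∈ C, x ∉ S := fun x hx => (Finset.mem_sdiff.1 (hC hx)).2
  obtain ⟨C0, hv0C0, hC0, hbdC0⟩ := exists_conn_part (G := G) hCB hv0
  obtain ⟨E0, he0E0, hE0⟩ := exists_comp (G := G) he0
  have hE0B : E0 ⊆ B := fun x hx => (Finset.mem_sdiff.1 (hE0.1 hx)).1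
  have hE0C : ∀ x ∈ E0, x ∉ C := fun x hx h =>
    (Finset.mem_sdiff.1 (hE0.1 hx)).2 (Finset.mem_union_left _ h)
  have hE0S : ∀ x ∈ E0, x ∉ S := fun x hx h =>
    (Finset.mem_sdiff.1 (hE0.1 hx)).2 (Finset.mem_union_right _ h)
  have hbdE0 : bd G B E0 ⊆ S := by
    intro w hw
    rw [mem_bd] at hw
    obtain ⟨hwB, hwE, x, hx, ha⟩ := hw
    by_contra hwS
    by_cases hwC : w ∈ C
    · have : x ∈ bd G B C := mem_bd.2 ⟨hE0B hx, hE0C x hx, w, hwC, ha.symm⟩
      exact hE0S x hx (hbd this)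
    · have hwm : w ∈ B \ (C ∪ S) := by
        rw [Finset.mem_sdiff, Finset.mem_union, not_or]
        exact ⟨hwB, hwC, hwS⟩
      have : w ∈ bd G (B \ (C ∪ S)) E0 := mem_bd.2 ⟨hwm, hwE, x, hx, ha⟩
      rw [hE0.2.1] at this
      exact Finset.notMem_empty _ this
  obtain ⟨h1, h2⟩ := tsep_bd hB (hC0.1.trans hCB) ⟨v0, hv0C0⟩ hS (hbdC0.trans hbd) he0B
    (fun h => he0C (hC0.1 h)) he0S he0c
  obtain ⟨h3, _⟩ := tsep_bd hB hE0B ⟨e0, he0E0⟩ hS hbdE0 (hCB hv0) (fun h => hE0C v0 h hv0)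
    (hCS v0 hv0) hv0c
  obtain ⟨u, v, huv, rfl⟩ := Finset.card_eq_two.1 h2
  obtain ⟨d, hd, l, hl, hP⟩ := adm_pair hB huv (hC0.1.trans hCB) hC0.2.2 h1 ⟨v0, hv0C0, hv0c⟩
  obtain ⟨d', hd', l', hl', hP'⟩ := adm_pair hB huv hE0B hE0.2.2 h3 ⟨e0, he0E0, he0c⟩
  have key : ∀ i < 2, ∀ j < 2, ∃ X, CycS G X (l + i * d + (l' + j * d')) := by
    intro i hi j hj
    obtain ⟨a, ha, b, hb, hQ⟩ := hP i hi
    obtain ⟨a', ha', b', hb', hQ'⟩ := hP' j hj
    rw [Finset.mem_singleton] at ha hb ha' hb'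
    subst ha hb ha' hb'
    refine ⟨_, hQ.cycle hQ' ?_ huv (by omega)⟩
    intro x hx hx'
    rw [Finset.mem_insert, Finset.mem_insert] at hx hx'
    rcases hx with hx | hx | hx
    · exact Or.inl hx
    · exact Or.inr hx
    · rcases hx' with hx' | hx' | hx'
      · exact Or.inl hx'
      · exact Or.inr hx'
      · exact absurd (hC0.1 hx) (hE0C x hx')
  have hdiv : ∃ i < 2, ∃ j < 2, 3 ∣ l + i * d + (l' + j * d') := by
    by_contra hcn
    push Not at hcn
    have h00 := hcn 0 (by norm_num) 0 (by norm_num)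
    have h01 := hcn 0 (by norm_num) 1 (by norm_num)
    have h10 := hcn 1 (by norm_num) 0 (by norm_num)
    have h11 := hcn 1 (by norm_num) 1 (by norm_num)
    rcases hd with rfl | rfl <;> rcases hd' with rfl | rfl <;> omega
  obtain ⟨i, hi, j, hj, hdv⟩ := hdiv
  obtain ⟨X, hX⟩ := key i hi j hj
  exact hz (hX.zc hdv)

end Pool.Agent.Lib.MP_f599e5_co
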