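import Pool.Agent.Lib.MP_f599e5_co.Th2A
import Pool.Agent.Lib.MP_f599e5_co.Th2B

set_option autoImplicit false
set_option linter.unusedSectionVars false

/-!
# JOB Th3A: ear with both ends on the first path

Write `s = f0 0 = f1 0 = f2 0`, `t = f0 l0 = f1 l1 = f2 l2`, `y = f0 a`, `z = f0 b`, `a < b ≤ l0`; `Q` is an exact path from `y` to `z`,
`Q ∩ F ⊆ {y,z}`.
* `ear_replace`: `ThL.mk` with branch vertices `s, t` and the three paths
  `cseg f0 0 a ∪ Q ∪ cseg f0 b l0` (length `a + q + (l0-b)`), `cseg f1 0 l1`, `cseg f2 0 l2` (`PF.toPX`, `PX.trans` twice).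
  Intersections: `Q` with `cseg f0 0 a ⊆ F`: only `y` (`z = f0 b`, `b > a`, is not in it), etc.; the first path meets the others only in
  `s, t`: an element of `Q` in `cseg f1 0 l1 ⊆ F` is `y = f0 a` or `z = f0 b`, so by `d01` it is `s` or `t`.
  The union of the three vertex sets is `(F \ seg f0 a b) ∪ Q`: `F = cseg f0 0 l0 ∪ ..` (`cov`), an index of `f0` is `≤ a`, in `(a,b)` or `≥ b`;
  vertices `f0 i`, `a < i < b`, are not on the other paths (`d01, d02`) nor equal to other `f0 j` (injectivity).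
* `ear_delete`: `ThL.mk` with branch vertices `y, z` (`y ≠ z` by injectivity) and the three paths `Q` (length `q`), `cseg f0 a b` (length `b-a`) and
  `cseg f0 0 a` (reversed) `∪ cseg f1 0 l1 ∪ cseg f0 b l0` (reversed), length `a + l1 + (l0-b) = l0-(b-a)+l1`.
  The union is `(F \ seg f2 0 l2) ∪ Q` (vertices `f2 j`, `0 < j < l2`, are not on the other two paths: `d02, d12`).
-/

namespace Pool.Agent.Lib.MP_f599e5_co

open Finset

variable {V : Type} [DecidableEq V] {G : SimpleGraph V}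

namespace ThF

variable {F : Finset V} {f0 f1 f2 : ℕ → V} {l0 l1 l2 : ℕ}

/-- ear with both ends on the first path: replace the segment -/
theorem ear_replace (h : ThF G F f0 f1 f2 l0 l1 l2) {a b q : ℕ} (hab : a < b) (hb : b ≤ l0) {Q : Finset V}
    (hQ : PX G Q (f0 a) (f0 b) q) (hQF : ∀ x ∈ Q, x ∈ F → x = f0 a ∨ x = f0 b)
    (c1 : 3 ≤ l0 - (b - a) + q + l1) (c2 : 3 ≤ l0 - (b - a) + q + l2) :
    ThL G ((F \ seg f0 a b) ∪ Q) (l0 - (b - a) + q) l1 l2 := by
  have hA : PX G (cseg f0 0 a) (f0 0) (f0 a) (a - 0) := h.p0.toPX (Nat.zero_le a) (by omega)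
  have hB : PX G (cseg f0 b l0) (f0 b) (f0 l0) (l0 - b) := h.p0.toPX hb le_rfl
  have hAQ : PX G (cseg f0 0 a ∪ Q) (f0 0) (f0 b) (a - 0 + q) := by
    refine hA.trans hQ ?_
    intro x hx hxQ
    obtain ⟨i, _, hi, rfl⟩ := mem_cseg.1 hx
    rcases hQF _ hxQ (h.mem0 (by omega)) with h1 | h1
    · exact h1
    · have h2 := h.p0.inj i b (by omega) hb h1
      omega
  have h0 : PX G (cseg f0 0 a ∪ Q ∪ cseg f0 b l0) (f0 0) (f0 l0) (a - 0 + q + (l0 - b)) := by
    refine hAQ.trans hB ?_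
    intro x hx hxB
    obtain ⟨j, hj1, hj2, rfl⟩ := mem_cseg.1 hxB
    rcases mem_union.1 hx with h1 | h1
    · obtain ⟨i, _, hi, h2⟩ := mem_cseg.1 h1
      have h3 := h.p0.inj i j (by omega) hj2 h2
      omega
    · rcases hQF _ h1 (h.mem0 hj2) with h2 | h2
      · have h3 := h.p0.inj j a hj2 (by omega) h2
        omega
      · exact h2
  have h1 : PX G (cseg f1 0 l1) (f0 0) (f0 l0) l1 := by
    have h2 := h.p1.toPX (Nat.zero_le l1) le_rfl
    rw [h.s1, h.t1] at h2
    exact h2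
  have h2 : PX G (cseg f2 0 l2) (f0 0) (f0 l0) l2 := by
    have h2 := h.p2.toPX (Nat.zero_le l2) le_rfl
    rw [h.s2, h.t2] at h2
    exact h2
  have hlen : a - 0 + q + (l0 - b) = l0 - (b - a) + q := by omega
  rw [hlen] at h0
  have hform : ∀ x ∈ cseg f0 0 a ∪ Q ∪ cseg f0 b l0, x ∈ F → ∃ i, i ≤ l0 ∧ f0 i = x := by
    intro x hx hxF
    rcases mem_union.1 hx with h3 | h3
    · rcases mem_union.1 h3 with h4 | h4
      · obtain ⟨i, _, hi, h5⟩ := mem_cseg.1 h4
        exact ⟨i, by omega, h5⟩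
      · rcases hQF _ h4 hxF with h5 | h5
        · exact ⟨a, by omega, h5.symm⟩
        · exact ⟨b, hb, h5.symm⟩
    · obtain ⟨i, _, hi, h5⟩ := mem_cseg.1 h3
      exact ⟨i, hi, h5⟩
  have hset : (F \ seg f0 a b) ∪ Q =
      (cseg f0 0 a ∪ Q ∪ cseg f0 b l0) ∪ cseg f1 0 l1 ∪ cseg f2 0 l2 := by
    ext x
    simp only [mem_union, mem_sdiff]
    constructor
    · rintro (⟨hF, hs⟩ | hx)
      · rcases h.cases hF with ⟨i, hi, h3⟩ | ⟨i, hi, h3⟩ | ⟨i, hi, h3⟩
        · by_cases h4 : i ≤ a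
          · exact Or.inl (Or.inl (Or.inl (Or.inl (mem_cseg.2 ⟨i, Nat.zero_le _, h4, h3⟩))))
          · by_cases h5 : b ≤ i
            · exact Or.inl (Or.inl (Or.inr (mem_cseg.2 ⟨i, h5, hi, h3⟩)))
            · exact absurd (mem_seg.2 ⟨i, by omega, by omega, h3⟩) hs
        · exact Or.inl (Or.inr (mem_cseg.2 ⟨i, Nat.zero_le _, hi, h3⟩))
        · exact Or.inr (mem_cseg.2 ⟨i, Nat.zero_le _, hi, h3⟩)
      · exact Or.inl (Or.inl (Or.inl (Or.inr hx)))
    · rintro ((((hx | hx) | hx) | hx) | hx)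
      · obtain ⟨i, _, hi, rfl⟩ := mem_cseg.1 hx
        refine Or.inl ⟨h.mem0 (by omega), fun hs => ?_⟩
        obtain ⟨j, hj1, hj2, h3⟩ := mem_seg.1 hs
        have h4 := h.p0.inj j i (by omega) (by omega) h3
        omega
      · exact Or.inr hx
      · obtain ⟨i, hi1, hi, rfl⟩ := mem_cseg.1 hx
        refine Or.inl ⟨h.mem0 (by omega), fun hs => ?_⟩
        obtain ⟨j, hj1, hj2, h3⟩ := mem_seg.1 hs
        have h4 := h.p0.inj j i (by omega) (by omega) h3
        omega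
      · obtain ⟨i, hi1, hi, rfl⟩ := mem_cseg.1 hx
        refine Or.inl ⟨h.mem1 hi, fun hs => ?_⟩
        obtain ⟨j, hj1, hj2, h3⟩ := mem_seg.1 hs
        have h4 := h.d01 j i (by omega) hi h3
        omega
      · obtain ⟨i, hi1, hi, rfl⟩ := mem_cseg.1 hx
        refine Or.inl ⟨h.mem2 hi, fun hs => ?_⟩
        obtain ⟨j, hj1, hj2, h3⟩ := mem_seg.1 hs
        have h4 := h.d02 j i (by omega) hi h3
        omega
  rw [hset]
  refine ThL.mk h.ends_ne h0 h1 h2 ?_ ?_ ?_ c1 c2 h.c12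
  · intro x hx hx1
    obtain ⟨j, _, hj, h3⟩ := mem_cseg.1 hx1
    obtain ⟨i, hi, h4⟩ := hform x hx (h3 ▸ h.mem1 hj)
    rcases h.d01 i j hi hj (h4.trans h3.symm) with ⟨h5, _⟩ | ⟨h5, _⟩
    · left; rw [← h4, h5]
    · right; rw [← h4, h5]
  · intro x hx hx1
    obtain ⟨j, _, hj, h3⟩ := mem_cseg.1 hx1
    obtain ⟨i, hi, h4⟩ := hform x hx (h3 ▸ h.mem2 hj)
    rcases h.d02 i j hi hj (h4.trans h3.symm) with ⟨h5, _⟩ | ⟨h5, _⟩
    · left; rw [← h4, h5]
    · right; rw [← h4, h5]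
  · intro x hx hx1
    obtain ⟨i, _, hi, h4⟩ := mem_cseg.1 hx
    obtain ⟨j, _, hj, h3⟩ := mem_cseg.1 hx1
    rcases h.d12 i j hi hj (h4.trans h3.symm) with ⟨h5, _⟩ | ⟨h5, _⟩
    · left; rw [← h4, h5, h.s1]
    · right; rw [← h4, h5, h.t1]

/-- ear with both ends on the first path: delete the third path -/
theorem ear_delete (h : ThF G F f0 f1 f2 l0 l1 l2) {a b q : ℕ} (hab : a < b) (hb : b ≤ l0) {Q : Finset V}
    (hQ : PX G Q (f0 a) (f0 b) q) (hQF : ∀ x ∈ Q, x ∈ F → x = f0 a ∨ x = f0 b) (c : 3 ≤ (b - a) + q)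
    (c' : 3 ≤ l0 - (b - a) + l1 + q) :
    ThL G ((F \ seg f2 0 l2) ∪ Q) q (b - a) (l0 - (b - a) + l1) := by
  have hA : PX G (cseg f0 0 a) (f0 a) (f0 0) (a - 0) :=
    (h.p0.toPX (Nat.zero_le a) (by omega)).symm
  have hB : PX G (cseg f0 b l0) (f0 l0) (f0 b) (l0 - b) := (h.p0.toPX hb le_rfl).symm
  have hM : PX G (cseg f0 a b) (f0 a) (f0 b) (b - a) := h.p0.toPX hab.le hb
  have h1 : PX G (cseg f1 0 l1) (f0 0) (f0 l0) l1 := by
    have h2 := h.p1.toPX (Nat.zero_le l1) le_rfl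
    rw [h.s1, h.t1] at h2
    exact h2
  have hA1 : PX G (cseg f0 0 a ∪ cseg f1 0 l1) (f0 a) (f0 l0) (a - 0 + l1) := by
    refine hA.trans h1 ?_
    intro x hx hx1
    obtain ⟨i, _, hi, rfl⟩ := mem_cseg.1 hx
    obtain ⟨j, _, hj, h3⟩ := mem_cseg.1 hx1
    rcases h.d01 i j (by omega) hj h3.symm with ⟨h4, _⟩ | ⟨h4, _⟩
    · rw [h4]
    · omega
  have h3 : PX G (cseg f0 0 a ∪ cseg f1 0 l1 ∪ cseg f0 b l0) (f0 a) (f0 b)
      (a - 0 + l1 + (l0 - b)) := by
    refine hA1.trans hB ?_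
    intro x hx hxB
    obtain ⟨j, hj1, hj2, rfl⟩ := mem_cseg.1 hxB
    rcases mem_union.1 hx with h2 | h2
    · obtain ⟨i, _, hi, h4⟩ := mem_cseg.1 h2
      have h3 := h.p0.inj i j (by omega) hj2 h4
      omega
    · obtain ⟨i, _, hi, h4⟩ := mem_cseg.1 h2
      rcases h.d01 j i hj2 hi h4.symm with ⟨h5, _⟩ | ⟨h5, _⟩
      · omega
      · rw [h5]
  have hlen : a - 0 + l1 + (l0 - b) = l0 - (b - a) + l1 := by omega
  rw [hlen] at h3
  have hne : f0 a ≠ f0 b := fun h4 => by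
    have h5 := h.p0.inj a b (by omega) hb h4
    omega
  have hMF : ∀ x ∈ cseg f0 a b, x ∈ F := by
    intro x hx
    obtain ⟨i, _, hi, rfl⟩ := mem_cseg.1 hx
    exact h.mem0 (by omega)
  have h3F : ∀ x ∈ cseg f0 0 a ∪ cseg f1 0 l1 ∪ cseg f0 b l0, x ∈ F := by
    intro x hx
    rcases mem_union.1 hx with h4 | h4
    · rcases mem_union.1 h4 with h5 | h5
      · obtain ⟨i, _, hi, rfl⟩ := mem_cseg.1 h5
        exact h.mem0 (by omega)
      · obtain ⟨i, _, hi, rfl⟩ := mem_cseg.1 h5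
        exact h.mem1 hi
    · obtain ⟨i, _, hi, rfl⟩ := mem_cseg.1 h4
      exact h.mem0 hi
  have hset : (F \ seg f2 0 l2) ∪ Q =
      Q ∪ cseg f0 a b ∪ (cseg f0 0 a ∪ cseg f1 0 l1 ∪ cseg f0 b l0) := by
    ext x
    constructor
    · intro hx
      rcases mem_union.1 hx with hx | hx
      · obtain ⟨hF, hs⟩ := mem_sdiff.1 hx
        rcases h.cases hF with ⟨i, hi, h4⟩ | ⟨i, hi, h4⟩ | ⟨i, hi, h4⟩
        · by_cases h5 : i ≤ a
          · exact mem_union_right _ (mem_union_left _ (mem_union_left _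
              (mem_cseg.2 ⟨i, Nat.zero_le _, h5, h4⟩)))
          · by_cases h6 : b ≤ i
            · exact mem_union_right _ (mem_union_right _ (mem_cseg.2 ⟨i, h6, hi, h4⟩))
            · exact mem_union_left _ (mem_union_right _
                (mem_cseg.2 ⟨i, by omega, by omega, h4⟩))
        · exact mem_union_right _ (mem_union_left _ (mem_union_right _
            (mem_cseg.2 ⟨i, Nat.zero_le _, hi, h4⟩)))
        · by_cases h5 : i = 0
          · refine mem_union_right _ (mem_union_left _ (mem_union_left _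
              (mem_cseg.2 ⟨0, le_rfl, Nat.zero_le _, ?_⟩)))
            rw [← h4, h5, h.s2]
          · by_cases h6 : i = l2
            · refine mem_union_right _ (mem_union_right _ (mem_cseg.2 ⟨l0, hb, le_rfl, ?_⟩))
              rw [← h4, h6, h.t2]
            · exact absurd (mem_seg.2 ⟨i, by omega, by omega, h4⟩) hs
      · exact mem_union_left _ (mem_union_left _ hx)
    · intro hx
      rcases mem_union.1 hx with hx | hx
      · rcases mem_union.1 hx with hx | hx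
        · exact mem_union_right _ hx
        · refine mem_union_left _ (mem_sdiff.2 ⟨hMF x hx, fun hs => ?_⟩)
          obtain ⟨i, hi1, hi, rfl⟩ := mem_cseg.1 hx
          obtain ⟨j, hj1, hj2, h4⟩ := mem_seg.1 hs
          have h5 := h.d02 i j (by omega) hj2.le h4.symm
          omega
      · refine mem_union_left _ (mem_sdiff.2 ⟨h3F x hx, fun hs => ?_⟩)
        obtain ⟨j, hj1, hj2, h4⟩ := mem_seg.1 hs
        rcases mem_union.1 hx with hx | hx
        · rcases mem_union.1 hx with hx | hx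
          · obtain ⟨i, hi1, hi, rfl⟩ := mem_cseg.1 hx
            have h5 := h.d02 i j (by omega) hj2.le h4.symm
            omega
          · obtain ⟨i, hi1, hi, rfl⟩ := mem_cseg.1 hx
            have h5 := h.d12 i j hi hj2.le h4.symm
            omega
        · obtain ⟨i, hi1, hi, rfl⟩ := mem_cseg.1 hx
          have h5 := h.d02 i j hi hj2.le h4.symm
          omega
  rw [hset]
  refine ThL.mk hne hQ hM h3 ?_ ?_ ?_ (by omega) (by omega) (by have := h.c01; omega)
  · exact fun x hx hx1 => hQF x hx (hMF x hx1)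
  · exact fun x hx hx1 => hQF x hx (h3F x hx1)
  · intro x hx hx1
    obtain ⟨i, hi1, hi, rfl⟩ := mem_cseg.1 hx
    rcases mem_union.1 hx1 with h4 | h4
    · rcases mem_union.1 h4 with h5 | h5
      · obtain ⟨j, _, hj, h6⟩ := mem_cseg.1 h5
        have h7 := h.p0.inj j i (by omega) (by omega) h6
        left
        congr 1
        omega
      · obtain ⟨j, _, hj, h6⟩ := mem_cseg.1 h5
        rcases h.d01 i j (by omega) hj h6.symm with ⟨h7, _⟩ | ⟨h7, _⟩
        · left
          congr 1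
          omega
        · right
          congr 1
          omega
    · obtain ⟨j, hj1, hj, h6⟩ := mem_cseg.1 h4
      have h7 := h.p0.inj j i hj (by omega) h6
      right
      congr 1
      omega

end ThF


end Pool.Agent.Lib.MP_f599e5_co
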