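import Pool.Agent.Lib.MP_f599e5_co.Th1C
import Pool.Agent.Lib.MP_f599e5_co.Th2C
import Pool.Agent.Lib.MP_f599e5_co.Th2D
import Pool.Agent.Lib.MP_f599e5_co.Th2E
import Pool.Agent.Lib.MP_f599e5_co.Th2F
import Pool.Agent.Lib.MP_f599e5_co.Th2G
import Pool.Agent.Lib.MP_f599e5_co.Th3A
import Pool.Agent.Lib.MP_f599e5_co.Th3C

/-! # the complete theta library -/
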