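import Pool.Agent.Lib.MP_f599e5_co.ThD

set_option autoImplicit false
set_option linter.unusedSectionVars false

/-!
# JOB Th1A: function paths and exact paths

* `PF.rev`: adjacency of `f (n-i)` and `f (n-(i+1))`: with `j = n-(i+1)` we have `n - i = j+1`, use `h.adj j` and symmetry
  of `G.Adj`; injectivity: `n-i = n-j` with `i,j ≤ n` gives `i=j` (omega).
* `PF.toPX`: `PL` part: `PF.toPL` (file B2) with `S = cseg f a b` (`mem_cseg`).  Card: `cseg f a b` is the image of
  `Finset.Icc a b` (card `b+1-a`) under `f`, injective on it by `h.inj` (`Finset.card_image_of_injOn`).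
* `PX.toPF`: `PL.toPF` (B2) gives `f` with `f i ∈ S` for `i ≤ n`; so `cseg f 0 n ⊆ S`, both have `n+1` elements
  (`card` as before): `Finset.eq_of_subset_of_card_le`.
* `PL.toPX`: take `f` from `PL.toPF` and `T = cseg f 0 n`, then `PF.toPX` with `a=0`, `b=n`.
-/

namespace Pool.Agent.Lib.MP_f599e5_co

open Finset

variable {V : Type} [DecidableEq V] {G : SimpleGraph V}

/-- reversal of a function path -/
theorem PF.rev {f : ℕ → V} {n : ℕ} (h : PF G f n) : PF G (fun i => f (n - i)) n := by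
  refine ⟨fun i hi => ?_, fun i j hi hj he => ?_⟩
  · have h1 := h.adj (n - (i + 1)) (by omega)
    have e : n - (i + 1) + 1 = n - i := by omega
    rw [e] at h1
    exact h1.symm
  · have h1 := h.inj (n - i) (n - j) (by omega) (by omega) he
    omega

theorem Th1A_card {f : ℕ → V} {n : ℕ} (h : PF G f n) {a b : ℕ} (hab : a ≤ b) (hb : b ≤ n) :
    (cseg f a b).card = b - a + 1 := by
  unfold cseg
  rw [card_image_of_injOn, Nat.card_Icc]
  · omega
  · intro i hi j hj he
    rw [Finset.mem_coe, mem_Icc] at hi hj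
    exact h.inj i j (by omega) (by omega) he

/-- a part of a function path, as an exact path -/
theorem PF.toPX {f : ℕ → V} {n : ℕ} (h : PF G f n) {a b : ℕ} (hab : a ≤ b) (hb : b ≤ n) :
    PX G (cseg f a b) (f a) (f b) (b - a) := by
  refine ⟨h.toPL hab hb fun i hi1 hi2 => mem_cseg.2 ⟨i, hi1, hi2, rfl⟩, ?_⟩
  rw [Th1A_card h hab hb]

/-- an exact path is given by a function path -/
theorem PX.toPF {S : Finset V} {u v : V} {n : ℕ} (h : PX G S u v n) :
    ∃ f : ℕ → V, PF G f n ∧ f 0 = u ∧ f n = v ∧ S = cseg f 0 n := by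
  obtain ⟨f, hf, h0, hn, hS⟩ := h.1.toPF
  refine ⟨f, hf, h0, hn, (Finset.eq_of_subset_of_card_le ?_ ?_).symm⟩
  · intro x hx
    obtain ⟨i, _, hi, rfl⟩ := mem_cseg.1 hx
    exact hS i hi
  · rw [Th1A_card hf (Nat.zero_le n) le_rfl, h.2, Nat.sub_zero]

/-- the vertices of a path of length `n` form an exact path -/
theorem PL.toPX {S : Finset V} {u v : V} {n : ℕ} (h : PL G S u v n) :
    ∃ T, T ⊆ S ∧ PX G T u v n := by
  obtain ⟨f, hf, h0, hn, hS⟩ := h.toPF
  refine ⟨cseg f 0 n, ?_, ?_⟩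
  · intro x hx
    obtain ⟨i, _, hi, rfl⟩ := mem_cseg.1 hx
    exact hS i hi
  · have h1 := hf.toPX (Nat.zero_le n) le_rfl
    rwa [h0, hn, Nat.sub_zero] at h1


end Pool.Agent.Lib.MP_f599e5_co
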