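import Pool.Agent.Lib.MP_f599e5_co.Th1A

set_option autoImplicit false
set_option linter.unusedSectionVars false

/-!
# JOB Th1B: concatenation and splitting of exact paths

* `single`, `edge`: `PL.refl`, `PL.edge` and cardinalities (`u ≠ v` by `h.ne`).
* `trans`: `PL.trans` (B1); card: `S ∩ T = {w}` (`w ∈ S` is the end of the first path, `w ∈ T` the start of the second),
  so `card (S ∪ T) = card S + card T - 1` (`Finset.card_union`/`card_union_add_card_inter`).
* `split_at`: by `PX.toPF` `S = cseg f 0 n`, `y = f a` with `a ≤ n`; `S1 = cseg f 0 a`, `S2 = cseg f a n`, `PF.toPX`;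
  the union is `cseg f 0 n` (every index is `≤ a` or `≥ a`), a common element `f i = f j`, `i ≤ a ≤ j`, has `i = j = a`.
-/

namespace Pool.Agent.Lib.MP_f599e5_co

open Finset

variable {V : Type} [DecidableEq V] {G : SimpleGraph V}

namespace PX

variable {S T : Finset V} {u v w y : V} {n m : ℕ}

theorem symm (h : PX G S u v n) : PX G S v u n := ⟨h.1.symm, h.2⟩

theorem left_mem (h : PX G S u v n) : u ∈ S := h.1.left_mem

theorem right_mem (h : PX G S u v n) : v ∈ S := h.1.right_mem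

theorem single (u : V) : PX G {u} u u 0 :=
  ⟨PL.refl (mem_singleton_self u), by simp⟩

theorem edge (h : G.Adj u v) : PX G {u, v} u v 1 :=
  ⟨PL.edge h (by simp) (by simp), by rw [card_pair h.ne]⟩

/-- concatenation -/
theorem trans (h1 : PX G S u w n) (h2 : PX G T w v m) (hd : ∀ x ∈ S, x ∈ T → x = w) :
    PX G (S ∪ T) u v (n + m) := by
  refine ⟨h1.1.trans h2.1 hd, ?_⟩
  have hI : S ∩ T = {w} := by
    ext x
    simp only [mem_inter, mem_singleton]
    constructor
    · rintro ⟨a, b⟩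
      exact hd x a b
    · rintro rfl
      exact ⟨h1.right_mem, h2.left_mem⟩
  have hc := card_union_add_card_inter S T
  rw [hI, card_singleton, h1.2, h2.2] at hc
  omega

/-- splitting at a vertex -/
theorem split_at (h : PX G S u v n) (hy : y ∈ S) :
    ∃ S1 S2 a, a ≤ n ∧ S = S1 ∪ S2 ∧ (∀ x ∈ S1, x ∈ S2 → x = y) ∧ PX G S1 u y a ∧ PX G S2 y v (n - a) := by
  obtain ⟨f, hf, h0, hn, hS⟩ := h.toPF
  rw [hS] at hy
  obtain ⟨a, _, ha, hay⟩ := mem_cseg.1 hy
  refine ⟨cseg f 0 a, cseg f a n, a, ha, ?_, ?_, ?_, ?_⟩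
  · rw [hS]
    ext x
    simp only [mem_union, mem_cseg]
    constructor
    · rintro ⟨i, h1, h2, h3⟩
      rcases le_total i a with h | h
      · exact Or.inl ⟨i, h1, h, h3⟩
      · exact Or.inr ⟨i, h, h2, h3⟩
    · rintro (⟨i, h1, h2, h3⟩ | ⟨i, h1, h2, h3⟩)
      · exact ⟨i, h1, h2.trans ha, h3⟩
      · exact ⟨i, Nat.zero_le _, h2, h3⟩
  · intro x hx hx'
    obtain ⟨i, _, h2, h3⟩ := mem_cseg.1 hx
    obtain ⟨j, h4, h5, h6⟩ := mem_cseg.1 hx'
    have hij := hf.inj i j (h2.trans ha) h5 (h3.trans h6.symm)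
    have hia : i = a := by omega
    rw [← h3, hia, hay]
  · have h1 := hf.toPX (Nat.zero_le a) ha
    rwa [h0, Nat.sub_zero, hay] at h1
  · have h1 := hf.toPX ha le_rfl
    rwa [hn, hay] at h1

end PX


end Pool.Agent.Lib.MP_f599e5_co
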