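import Pool.Agent.Lib.MP_f599e5_co.Th2A
import Pool.Agent.Lib.MP_f599e5_co.Th2B

set_option autoImplicit false
set_option linter.unusedSectionVars false

/-!
# JOB Th3B: ear between inner vertices of the first and the second path

Write `s, t` for the branch vertices, `y = f0 a`, `z = f1 b` (inner vertices, `0 < a < l0`, `0 < b < l1`), `Q` exact path from `y` to `z`,
`Q ∩ F ⊆ {y,z}`, `q ≥ 1` (`PL.pos`, `y ≠ z` by `d01`).
* `cross_del2`: `ThL.mk` with branch vertices `y, z` and paths `Q` (q); `y -> s -> z`: `cseg f0 0 a` reversed `∪ cseg f1 0 b` (a+b);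
  `y -> t -> z`: `cseg f0 a l0 ∪ cseg f1 b l1` reversed (`(l0-a)+(l1-b)`).  The union of the vertex sets is `(F \ seg f2 0 l2) ∪ Q`.
* `cross_del_s0`: branch vertices `z, t`; paths `z -> t` along `f1`: `cseg f1 b l1` (`l1-b`); `z -> y -> t`: `Q` reversed `∪ cseg f0 a l0`
  (`q+(l0-a)`); `z -> s -> t`: `cseg f1 0 b` reversed `∪ cseg f2 0 l2` (`b+l2`).  Union: `(F \ seg f0 0 a) ∪ Q`.
All intersections are controlled by `d01, d02, d12`, injectivity and `hQF`.  (`ThL.mk` needs the sums: `(l1-b)+(b+l2) = l1+l2 ≥ 3`, etc.)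
-/

namespace Pool.Agent.Lib.MP_f599e5_co

open Finset

variable {V : Type} [DecidableEq V] {G : SimpleGraph V}

namespace ThF

variable {F : Finset V} {f0 f1 f2 : ℕ → V} {l0 l1 l2 : ℕ}

/-- ear between inner vertices of the first and second path: delete the third path -/
theorem cross_del2 (h : ThF G F f0 f1 f2 l0 l1 l2) {a b q : ℕ} (ha0 : 0 < a) (ha : a < l0) (hb0 : 0 < b)
    (hb : b < l1) {Q : Finset V} (hQ : PX G Q (f0 a) (f1 b) q)
    (hQF : ∀ x ∈ Q, x ∈ F → x = f0 a ∨ x = f1 b) :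
    ThL G ((F \ seg f2 0 l2) ∪ Q) q (a + b) ((l0 - a) + (l1 - b)) := by
  have hyz : f0 a ≠ f1 b := by
    intro he
    rcases h.d01 a b ha.le hb.le he with ⟨h1, h2⟩ | ⟨h1, h2⟩ <;> omega
  have hq : 1 ≤ q := hQ.1.pos hyz
  have hF : ∀ x, x ∈ F ↔ (∃ i, 0 ≤ i ∧ i ≤ l0 ∧ f0 i = x) ∨ (∃ i, 0 ≤ i ∧ i ≤ l1 ∧ f1 i = x) ∨
      (∃ i, 0 ≤ i ∧ i ≤ l2 ∧ f2 i = x) := by
    intro x
    rw [h.cov]
    simp only [mem_union, mem_cseg, or_assoc]
  have p1 : PX G (cseg f0 0 a ∪ cseg f1 0 b) (f0 a) (f1 b) (a + b) := by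
    have e1 := (h.p0.toPX (Nat.zero_le a) ha.le).symm
    have e2 := h.p1.toPX (Nat.zero_le b) hb.le
    rw [Nat.sub_zero] at e1 e2
    rw [h.s1] at e2
    refine e1.trans e2 ?_
    intro x hx hx'
    obtain ⟨i, _, h2, h3⟩ := mem_cseg.1 hx
    obtain ⟨j, _, h5, h6⟩ := mem_cseg.1 hx'
    rcases h.d01 i j (by omega) (by omega) (h3.trans h6.symm) with ⟨h7, h8⟩ | ⟨h7, h8⟩
    · rw [← h3, h7]
    · omega
  have p2 : PX G (cseg f0 a l0 ∪ cseg f1 b l1) (f0 a) (f1 b) ((l0 - a) + (l1 - b)) := by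
    have e1 := h.p0.toPX ha.le le_rfl
    have e2 := (h.p1.toPX hb.le le_rfl).symm
    rw [h.t1] at e2
    refine e1.trans e2 ?_
    intro x hx hx'
    obtain ⟨i, h1, h2, h3⟩ := mem_cseg.1 hx
    obtain ⟨j, h4, h5, h6⟩ := mem_cseg.1 hx'
    rcases h.d01 i j (by omega) (by omega) (h3.trans h6.symm) with ⟨h7, h8⟩ | ⟨h7, h8⟩
    · omega
    · rw [← h3, h7]
  have sub1 : ∀ x ∈ cseg f0 0 a ∪ cseg f1 0 b, x ∈ F := by
    intro x hx
    rw [hF]
    rcases mem_union.1 hx with hx | hx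
    · obtain ⟨i, h1, h2, h3⟩ := mem_cseg.1 hx
      exact Or.inl ⟨i, h1, by omega, h3⟩
    · obtain ⟨i, h1, h2, h3⟩ := mem_cseg.1 hx
      exact Or.inr (Or.inl ⟨i, h1, by omega, h3⟩)
  have sub2 : ∀ x ∈ cseg f0 a l0 ∪ cseg f1 b l1, x ∈ F := by
    intro x hx
    rw [hF]
    rcases mem_union.1 hx with hx | hx
    · obtain ⟨i, h1, h2, h3⟩ := mem_cseg.1 hx
      exact Or.inl ⟨i, by omega, by omega, h3⟩
    · obtain ⟨i, h1, h2, h3⟩ := mem_cseg.1 hx
      exact Or.inr (Or.inl ⟨i, by omega, by omega, h3⟩)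
  have hU : (F \ seg f2 0 l2) ∪ Q = Q ∪ (cseg f0 0 a ∪ cseg f1 0 b) ∪ (cseg f0 a l0 ∪ cseg f1 b l1) := by
    ext x
    constructor
    · intro hx
      rcases mem_union.1 hx with hx | hx
      · obtain ⟨hx, hx'⟩ := mem_sdiff.1 hx
        rcases (hF x).1 hx with ⟨i, _, h2, h3⟩ | ⟨i, _, h2, h3⟩ | ⟨i, _, h2, h3⟩
        · rcases le_total i a with hia | hia
          · exact mem_union_left _ (mem_union_right _ (mem_union_left _ (mem_cseg.2 ⟨i, by omega, hia, h3⟩)))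
          · exact mem_union_right _ (mem_union_left _ (mem_cseg.2 ⟨i, hia, h2, h3⟩))
        · rcases le_total i b with hib | hib
          · exact mem_union_left _ (mem_union_right _ (mem_union_right _ (mem_cseg.2 ⟨i, by omega, hib, h3⟩)))
          · exact mem_union_right _ (mem_union_right _ (mem_cseg.2 ⟨i, hib, h2, h3⟩))
        · by_cases hi0 : i = 0
          · rw [hi0, h.s2] at h3
            exact mem_union_left _ (mem_union_right _ (mem_union_left _
              (mem_cseg.2 ⟨0, le_rfl, by omega, h3⟩)))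
          · by_cases hi2 : i = l2
            · rw [hi2, h.t2] at h3
              exact mem_union_right _ (mem_union_left _ (mem_cseg.2 ⟨l0, ha.le, le_rfl, h3⟩))
            · exact absurd (mem_seg.2 ⟨i, by omega, by omega, h3⟩) hx'
      · exact mem_union_left _ (mem_union_left _ hx)
    · intro hx
      have key : x ∈ F → (∃ i, i ≤ l0 ∧ f0 i = x) ∨ (∃ i, i ≤ l1 ∧ f1 i = x) → x ∈ F \ seg f2 0 l2 := by
        intro hxF hc
        refine mem_sdiff.2 ⟨hxF, fun hs => ?_⟩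
        obtain ⟨j, h1, h2, h3⟩ := mem_seg.1 hs
        rcases hc with ⟨i, h4, h5⟩ | ⟨i, h4, h5⟩
        · rcases h.d02 i j h4 (by omega) (h5.trans h3.symm) with ⟨h7, h8⟩ | ⟨h7, h8⟩ <;> omega
        · rcases h.d12 i j h4 (by omega) (h5.trans h3.symm) with ⟨h7, h8⟩ | ⟨h7, h8⟩ <;> omega
      rcases mem_union.1 hx with hx | hx
      · rcases mem_union.1 hx with hx | hx
        · exact mem_union_right _ hx
        · refine mem_union_left _ (key (sub1 x hx) ?_)
          rcases mem_union.1 hx with hx | hx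
          · obtain ⟨i, _, h2, h3⟩ := mem_cseg.1 hx
            exact Or.inl ⟨i, by omega, h3⟩
          · obtain ⟨i, _, h2, h3⟩ := mem_cseg.1 hx
            exact Or.inr ⟨i, by omega, h3⟩
      · refine mem_union_left _ (key (sub2 x hx) ?_)
        rcases mem_union.1 hx with hx | hx
        · obtain ⟨i, _, h2, h3⟩ := mem_cseg.1 hx
          exact Or.inl ⟨i, by omega, h3⟩
        · obtain ⟨i, _, h2, h3⟩ := mem_cseg.1 hx
          exact Or.inr ⟨i, by omega, h3⟩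
  rw [hU]
  have c01 := h.c01
  refine ThL.mk hyz hQ p1 p2 (fun x hx hx' => hQF x hx (sub1 x hx'))
    (fun x hx hx' => hQF x hx (sub2 x hx')) ?_ (by omega) (by omega) (by omega)
  intro x hx hx'
  rcases mem_union.1 hx with hx | hx <;> rcases mem_union.1 hx' with hx' | hx'
  · obtain ⟨i, h1, h2, h3⟩ := mem_cseg.1 hx
    obtain ⟨j, h4, h5, h6⟩ := mem_cseg.1 hx'
    have hij := h.p0.inj i j (by omega) (by omega) (h3.trans h6.symm)
    have hia : i = a := by omega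
    left
    rw [← h3, hia]
  · obtain ⟨i, h1, h2, h3⟩ := mem_cseg.1 hx
    obtain ⟨j, h4, h5, h6⟩ := mem_cseg.1 hx'
    rcases h.d01 i j (by omega) (by omega) (h3.trans h6.symm) with ⟨h7, h8⟩ | ⟨h7, h8⟩ <;> omega
  · obtain ⟨i, h1, h2, h3⟩ := mem_cseg.1 hx
    obtain ⟨j, h4, h5, h6⟩ := mem_cseg.1 hx'
    rcases h.d01 j i (by omega) (by omega) (h6.trans h3.symm) with ⟨h7, h8⟩ | ⟨h7, h8⟩ <;> omega
  · obtain ⟨i, h1, h2, h3⟩ := mem_cseg.1 hx
    obtain ⟨j, h4, h5, h6⟩ := mem_cseg.1 hx'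
    have hij := h.p1.inj i j (by omega) (by omega) (h3.trans h6.symm)
    have hib : i = b := by omega
    right
    rw [← h3, hib]

/-- the same: delete the part of the first path before `a` -/
theorem cross_del_s0 (h : ThF G F f0 f1 f2 l0 l1 l2) {a b q : ℕ} (ha0 : 0 < a) (ha : a < l0) (hb0 : 0 < b)
    (hb : b < l1) {Q : Finset V} (hQ : PX G Q (f0 a) (f1 b) q)
    (hQF : ∀ x ∈ Q, x ∈ F → x = f0 a ∨ x = f1 b) :
    ThL G ((F \ seg f0 0 a) ∪ Q) (l1 - b) (q + (l0 - a)) (b + l2) := by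
  have hyz : f0 a ≠ f1 b := by
    intro he
    rcases h.d01 a b ha.le hb.le he with ⟨h1, h2⟩ | ⟨h1, h2⟩ <;> omega
  have hq : 1 ≤ q := hQ.1.pos hyz
  have hF : ∀ x, x ∈ F ↔ (∃ i, 0 ≤ i ∧ i ≤ l0 ∧ f0 i = x) ∨ (∃ i, 0 ≤ i ∧ i ≤ l1 ∧ f1 i = x) ∨
      (∃ i, 0 ≤ i ∧ i ≤ l2 ∧ f2 i = x) := by
    intro x
    rw [h.cov]
    simp only [mem_union, mem_cseg, or_assoc]
  have p0 : PX G (cseg f1 b l1) (f1 b) (f0 l0) (l1 - b) := by
    have e1 := h.p1.toPX hb.le le_rfl
    rwa [h.t1] at e1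
  have p1 : PX G (Q ∪ cseg f0 a l0) (f1 b) (f0 l0) (q + (l0 - a)) := by
    have e2 := h.p0.toPX ha.le le_rfl
    refine hQ.symm.trans e2 ?_
    intro x hx hx'
    obtain ⟨i, h1, h2, h3⟩ := mem_cseg.1 hx'
    rcases hQF x hx ((hF x).2 (Or.inl ⟨i, by omega, h2, h3⟩)) with h4 | h4
    · exact h4
    · rcases h.d01 i b h2 (by omega) (h3.trans h4) with ⟨h7, h8⟩ | ⟨h7, h8⟩ <;> omega
  have p2 : PX G (cseg f1 0 b ∪ cseg f2 0 l2) (f1 b) (f0 l0) (b + l2) := by
    have e1 := (h.p1.toPX (Nat.zero_le b) hb.le).symm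
    have e2 := h.p2.toPX (Nat.zero_le l2) le_rfl
    rw [Nat.sub_zero] at e1 e2
    rw [h.s1] at e1
    rw [h.s2, h.t2] at e2
    refine e1.trans e2 ?_
    intro x hx hx'
    obtain ⟨i, h1, h2, h3⟩ := mem_cseg.1 hx
    obtain ⟨j, h4, h5, h6⟩ := mem_cseg.1 hx'
    rcases h.d12 i j (by omega) (by omega) (h3.trans h6.symm) with ⟨h7, h8⟩ | ⟨h7, h8⟩
    · rw [← h3, h7, h.s1]
    · omega
  have sub2 : ∀ x ∈ cseg f1 0 b ∪ cseg f2 0 l2, x ∈ F := by
    intro x hx
    rw [hF]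
    rcases mem_union.1 hx with hx | hx
    · obtain ⟨i, h1, h2, h3⟩ := mem_cseg.1 hx
      exact Or.inr (Or.inl ⟨i, by omega, by omega, h3⟩)
    · obtain ⟨i, h1, h2, h3⟩ := mem_cseg.1 hx
      exact Or.inr (Or.inr ⟨i, by omega, by omega, h3⟩)
  have hU : (F \ seg f0 0 a) ∪ Q = cseg f1 b l1 ∪ (Q ∪ cseg f0 a l0) ∪ (cseg f1 0 b ∪ cseg f2 0 l2) := by
    ext x
    constructor
    · intro hx
      rcases mem_union.1 hx with hx | hx
      · obtain ⟨hx, hx'⟩ := mem_sdiff.1 hx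
        rcases (hF x).1 hx with ⟨i, _, h2, h3⟩ | ⟨i, _, h2, h3⟩ | ⟨i, _, h2, h3⟩
        · rcases le_or_gt a i with hia | hia
          · exact mem_union_left _ (mem_union_right _ (mem_union_right _ (mem_cseg.2 ⟨i, hia, h2, h3⟩)))
          · by_cases hi0 : i = 0
            · rw [hi0, ← h.s1] at h3
              exact mem_union_right _ (mem_union_left _ (mem_cseg.2 ⟨0, le_rfl, by omega, h3⟩))
            · exact absurd (mem_seg.2 ⟨i, by omega, hia, h3⟩) hx'
        · rcases le_total i b with hib | hib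
          · exact mem_union_right _ (mem_union_left _ (mem_cseg.2 ⟨i, by omega, hib, h3⟩))
          · exact mem_union_left _ (mem_union_left _ (mem_cseg.2 ⟨i, hib, h2, h3⟩))
        · exact mem_union_right _ (mem_union_right _ (mem_cseg.2 ⟨i, by omega, h2, h3⟩))
      · exact mem_union_left _ (mem_union_right _ (mem_union_left _ hx))
    · intro hx
      rcases mem_union.1 hx with hx | hx
      · rcases mem_union.1 hx with hx | hx
        · obtain ⟨i, h1, h2, h3⟩ := mem_cseg.1 hx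
          refine mem_union_left _ (mem_sdiff.2 ⟨(hF x).2 (Or.inr (Or.inl ⟨i, by omega, h2, h3⟩)), ?_⟩)
          intro hs
          obtain ⟨j, h4, h5, h6⟩ := mem_seg.1 hs
          rcases h.d01 j i (by omega) h2 (h6.trans h3.symm) with ⟨h7, h8⟩ | ⟨h7, h8⟩ <;> omega
        · rcases mem_union.1 hx with hx | hx
          · exact mem_union_right _ hx
          · obtain ⟨i, h1, h2, h3⟩ := mem_cseg.1 hx
            refine mem_union_left _ (mem_sdiff.2 ⟨(hF x).2 (Or.inl ⟨i, by omega, h2, h3⟩), ?_⟩)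
            intro hs
            obtain ⟨j, h4, h5, h6⟩ := mem_seg.1 hs
            have := h.p0.inj i j h2 (by omega) (h3.trans h6.symm)
            omega
      · refine mem_union_left _ (mem_sdiff.2 ⟨sub2 x hx, ?_⟩)
        intro hs
        obtain ⟨j, h4, h5, h6⟩ := mem_seg.1 hs
        rcases mem_union.1 hx with hx | hx
        · obtain ⟨i, h1, h2, h3⟩ := mem_cseg.1 hx
          rcases h.d01 j i (by omega) (by omega) (h6.trans h3.symm) with ⟨h7, h8⟩ | ⟨h7, h8⟩ <;> omega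
        · obtain ⟨i, h1, h2, h3⟩ := mem_cseg.1 hx
          rcases h.d02 j i (by omega) (by omega) (h6.trans h3.symm) with ⟨h7, h8⟩ | ⟨h7, h8⟩ <;> omega
  have hst : f1 b ≠ f0 l0 := by
    intro he
    rw [← h.t1] at he
    have := h.p1.inj b l1 hb.le le_rfl he
    omega
  rw [hU]
  have c12 := h.c12
  have pos2 := h.pos2
  refine ThL.mk hst p0 p1 p2 ?_ ?_ ?_ (by omega) (by omega) (by omega)
  · intro x hx hx'
    obtain ⟨j, h1, h2, h3⟩ := mem_cseg.1 hx
    rcases mem_union.1 hx' with hx' | hx'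
    · rcases hQF x hx' ((hF x).2 (Or.inr (Or.inl ⟨j, by omega, h2, h3⟩))) with h4 | h4
      · rcases h.d01 a j ha.le h2 (h4.symm.trans h3.symm) with ⟨h7, h8⟩ | ⟨h7, h8⟩ <;> omega
      · exact Or.inl h4
    · obtain ⟨i, h4, h5, h6⟩ := mem_cseg.1 hx'
      rcases h.d01 i j h5 h2 (h6.trans h3.symm) with ⟨h7, h8⟩ | ⟨h7, h8⟩
      · omega
      · right
        rw [← h6, h7]
  · intro x hx hx'
    obtain ⟨j, h1, h2, h3⟩ := mem_cseg.1 hx
    rcases mem_union.1 hx' with hx' | hx'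
    · obtain ⟨i, h4, h5, h6⟩ := mem_cseg.1 hx'
      have hij := h.p1.inj i j (by omega) h2 (h6.trans h3.symm)
      have hjb : i = b := by omega
      left
      rw [← h6, hjb]
    · obtain ⟨i, h4, h5, h6⟩ := mem_cseg.1 hx'
      rcases h.d12 j i h2 h5 (h3.trans h6.symm) with ⟨h7, h8⟩ | ⟨h7, h8⟩
      · omega
      · right
        rw [← h3, h7, h.t1]
  · intro x hx hx'
    rcases mem_union.1 hx with hx | hx
    · rcases hQF x hx (sub2 x hx') with h4 | h4
      · exfalso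
        rcases mem_union.1 hx' with hx' | hx'
        · obtain ⟨i, h1, h2, h3⟩ := mem_cseg.1 hx'
          rcases h.d01 a i ha.le (by omega) (h4.symm.trans h3.symm) with ⟨h7, h8⟩ | ⟨h7, h8⟩ <;> omega
        · obtain ⟨i, h1, h2, h3⟩ := mem_cseg.1 hx'
          rcases h.d02 a i ha.le (by omega) (h4.symm.trans h3.symm) with ⟨h7, h8⟩ | ⟨h7, h8⟩ <;> omega
      · exact Or.inl h4
    · obtain ⟨i, h4, h5, h6⟩ := mem_cseg.1 hx
      rcases mem_union.1 hx' with hx' | hx'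
      · obtain ⟨j, h1, h2, h3⟩ := mem_cseg.1 hx'
        rcases h.d01 i j h5 (by omega) (h6.trans h3.symm) with ⟨h7, h8⟩ | ⟨h7, h8⟩ <;> omega
      · obtain ⟨j, h1, h2, h3⟩ := mem_cseg.1 hx'
        rcases h.d02 i j h5 (by omega) (h6.trans h3.symm) with ⟨h7, h8⟩ | ⟨h7, h8⟩
        · omega
        · right
          rw [← h6, h7]

end ThF


end Pool.Agent.Lib.MP_f599e5_co
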